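import Pool.Agent.P.MP_6b977f_mp.EB.IfB

/-! Odd correctors. -/

namespace Pool.Agent.P.MP_6b977f_mp.EB

open Real MeasureTheory Filter Topology Laplacian Set Metric
open scoped ContDiff BoundedContinuousFunction ComplexConjugate Pointwise ENNReal

noncomputable section

theorem acor_mir (H : ℝ) (z : ℂ) : mir H (mir H z) = z := by
  apply Complex.ext <;> simp [mir]

theorem acor_mir_re (H : ℝ) (z : ℂ) : (mir H z).re = z.re := by simp [mir]

theorem acor_mir_im (H : ℝ) (z : ℂ) : (mir H z).im = -z.im - 2 * H := by simp [mir]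

theorem acor_mir_far {H : ℝ} {y s : ℂ} (hy : -H ≤ y.im) (hs : -H ≤ s.im) :
    ‖y - s‖ ≤ ‖mir H y - s‖ := by
  rw [← sq_le_sq₀ (norm_nonneg _) (norm_nonneg _), Complex.sq_norm, Complex.sq_norm,
    Complex.normSq_apply, Complex.normSq_apply]
  simp only [Complex.sub_re, Complex.sub_im, acor_mir_re, acor_mir_im]
  nlinarith [mul_nonneg (sub_nonneg.2 hy) (sub_nonneg.2 hs)]

/-- The odd part of a translated ladder. -/
def acor_G (G : ℂ →ₗ[ℝ] (ℤ → ℂ → ℂ)) (k H : ℝ) (s : ℂ) : ℂ →ₗ[ℝ] (ℤ → ℂ → ℂ) where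
  toFun a l y := k * (G a l (y - s) - conj (G a l (mir H y - s)))
  map_add' a b := by
    funext l y
    simp only [map_add, Pi.add_apply]
    ring
  map_smul' t a := by
    funext l y
    rw [map_smul]
    simp only [Pi.smul_apply, RingHom.id_apply, Complex.real_smul, map_mul, Complex.conj_ofReal]
    ring

theorem acor_G_apply (G : ℂ →ₗ[ℝ] (ℤ → ℂ → ℂ)) (k H : ℝ) (s a : ℂ) (l : ℤ) (y : ℂ) :
    acor_G G k H s a l y = k * (G a l (y - s) - conj (G a l (mir H y - s))) := rfl

theorem acor_mono {r T t : ℝ} (N l : ℕ) (hr : 0 < r) (hT : 0 < T) (h : T ≤ t) :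
    r ^ N + (r / t) ^ N / t ^ l ≤ r ^ N + (r / T) ^ N / T ^ l := by
  have ht : 0 < t := lt_of_lt_of_le hT h
  gcongr

theorem t_acor (hcor : S_COR) (hlad : S_LAD) : S_ACOR := by
  classical
  intro J N c hc hc1 hN
  obtain ⟨C, hC, h⟩ := hcor J N c hc hc1 hN
  refine ⟨2 * C, by positivity, ?_⟩
  intro H r p n L j hj hn hr hr1 hs hL
  set s : ℂ := p + r * n with hsdef
  have hw : ‖p - s‖ = r := by
    have : p - s = -(r * n) := by rw [hsdef]; ring
    rw [this, norm_neg, norm_mul, hn, Complex.norm_real, Real.norm_eq_abs, abs_of_pos hr, mul_one]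
  obtain ⟨G, hG⟩ := h j hj (p - s) (by rw [← norm_pos_iff, hw]; exact hr) (by rw [hw]; exact hr1)
  rw [hw] at hG
  set k : ℝ := if L then 1 / 2 else 1 with hk
  have hk0 : 0 ≤ k := by rw [hk]; split_ifs <;> norm_num
  have hk1 : k ≤ 1 := by rw [hk]; split_ifs <;> norm_num
  refine ⟨acor_G G k H s, fun a => ⟨?_, ?_, ?_, ?_, ?_⟩⟩
  · obtain ⟨-, -, hsub, hadd, hmul, htr, -, -, hmir, -⟩ := hlad
    have h1 := htr _ _ s (hG a).1
    have h2 := hmir _ _ H h1
    have h3 := hadd {y | y ≠ s ∧ y ≠ mir H s} _ _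
      (hsub _ _ _ (fun y hy => by simpa [sub_eq_zero] using hy.1) (hmul _ _ (k : ℂ) h1))
      (hsub _ _ _ (fun y hy => by
        simp only [mem_ofPred_eq, mem_compl_iff, mem_singleton_iff, sub_eq_zero]
        intro h'
        exact hy.2 (by rw [← h', acor_mir])) (hmul _ _ (-k : ℂ) h2))
    convert h3 using 1
    funext l y
    simp only [acor_G_apply, Pi.add_apply]
    ring
  · intro l y
    rw [acor_G_apply, acor_G_apply, (hG a).2.1 l, (hG a).2.1 l]
    simp only [map_mul, map_sub, Complex.conj_ofReal, Complex.conj_conj, map_zpow₀, map_neg,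
      map_one]
    ring
  · intro l y
    rw [acor_G_apply, acor_G_apply, acor_mir]
    simp only [map_mul, map_sub, Complex.conj_ofReal, Complex.conj_conj]
    ring
  · intro l hl T hT hT'
    have hT0 : 0 < T := lt_of_lt_of_le hr hT
    have h1 := (hG a).2.2.1 l hl
    have hE : 0 ≤ (if l ≤ j then r else 1) := by split_ifs <;> positivity
    have hA : 0 ≤ C * ‖a‖ * r ^ j := by positivity
    have hF : 0 ≤ r ^ N + (r / T) ^ N := by positivity
    rw [acor_G_apply]
    by_cases hLL : L
    · have hm : mir H p = p := by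
        apply Complex.ext
        · exact acor_mir_re H p
        · rw [acor_mir_im, (hL hLL).1]; ring
      rw [hm, hk, if_pos hLL]
      set X := G a l (p - s) with hX
      set Y := (if l = j then prj False j a else 0) with hY
      have e1 : (if l = j then prj L j a else 0) = Complex.I * Y.im := by
        rw [hY]
        by_cases h2 : l = j
        · rw [if_pos h2, if_pos h2]
          unfold prj
          by_cases h3 : j = 0 <;> simp [h3, hLL]
        · rw [if_neg h2, if_neg h2]; simp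
      have e2 : ((1 / 2 : ℝ) : ℂ) * (X - conj X) - Complex.I * Y.im =
          Complex.I * ((X - Y).im : ℝ) := by
        apply Complex.ext <;> simp
        ring
      rw [e1, e2, norm_mul, Complex.norm_I, one_mul, Complex.norm_real, Real.norm_eq_abs]
      calc |(X - Y).im| * r ^ l ≤ ‖X - Y‖ * r ^ l := by
            gcongr; exact Complex.abs_im_le_norm _
        _ ≤ C * ‖a‖ * r ^ j * (if l ≤ j then r else 1) := h1
        _ ≤ _ := by nlinarith [mul_nonneg hA hE, mul_nonneg hA hF]
    · have e1 : prj L j a = prj False j a := by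
        unfold prj
        simp [hLL]
      rw [hk, if_neg hLL, e1]
      set w := mir H p - s with hwdef
      have hTw : T ≤ ‖w‖ := by
        have h2 := hT' hLL
        have h3 : |w.im| ≤ ‖w‖ := Complex.abs_im_le_norm _
        have h4 : w.im = -p.im - 2 * H - s.im := by rw [hwdef, Complex.sub_im, acor_mir_im]
        have h5 := neg_abs_le w.im
        linarith
      have hw0 : 0 < ‖w‖ := lt_of_lt_of_le hT0 hTw
      have h2 := (hG a).2.2.2 w (by nlinarith) (l : ℕ)
        (by simp only [Int.natAbs_natCast]; omega)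
      simp only [Int.natAbs_natCast] at h2
      have h3 : (r ^ N + (r / ‖w‖) ^ N / ‖w‖ ^ l) * r ^ l ≤ r ^ N + (r / T) ^ N := by
        have h4 : r ^ l ≤ 1 := pow_le_one₀ hr.le hr1
        have h5 : (r / ‖w‖) ^ l ≤ 1 :=
          pow_le_one₀ (by positivity) (by rw [div_le_one hw0]; linarith)
        have h6 : (r / ‖w‖) ^ N ≤ (r / T) ^ N := by gcongr
        calc (r ^ N + (r / ‖w‖) ^ N / ‖w‖ ^ l) * r ^ l
            = r ^ N * r ^ l + (r / ‖w‖) ^ N * (r / ‖w‖) ^ l := by rw [div_pow r _ l]; ring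
          _ ≤ r ^ N * 1 + (r / T) ^ N * 1 := by gcongr
          _ = _ := by ring
      have h4 : ‖G a l w‖ * r ^ l ≤ C * ‖a‖ * r ^ j * (r ^ N + (r / T) ^ N) := by
        calc ‖G a l w‖ * r ^ l
            ≤ C * ‖a‖ * r ^ j * (r ^ N + (r / ‖w‖) ^ N / ‖w‖ ^ l) * r ^ l := by gcongr
          _ = C * ‖a‖ * r ^ j * ((r ^ N + (r / ‖w‖) ^ N / ‖w‖ ^ l) * r ^ l) := by ring
          _ ≤ _ := by gcongr
      set X := G a l (p - s) with hX
      set Y := (if l = j then prj False j a else 0) with hY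
      have h5 : ‖((1 : ℝ) : ℂ) * (X - conj (G a l w)) - Y‖ ≤ ‖X - Y‖ + ‖G a l w‖ := by
        have : ((1 : ℝ) : ℂ) * (X - conj (G a l w)) - Y = (X - Y) - conj (G a l w) := by
          push_cast; ring
        rw [this]
        refine (norm_sub_le _ _).trans ?_
        rw [Complex.norm_conj]
      calc _ ≤ (‖X - Y‖ + ‖G a l w‖) * r ^ l := by gcongr
        _ = ‖X - Y‖ * r ^ l + ‖G a l w‖ * r ^ l := by ring
        _ ≤ _ := by nlinarith [mul_nonneg hA hE, mul_nonneg hA hF]
  · intro y hy T hT hT' l hl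
    have hT0 : 0 < T := lt_of_lt_of_le (by positivity) hT
    have hA : 0 ≤ C * ‖a‖ * r ^ j := by positivity
    have h1 := acor_mir_far hy hs
    have h2 := ((hG a).2.2.2 (y - s) (by linarith) l hl).trans
      (mul_le_mul_of_nonneg_left (acor_mono N l.natAbs hr hT0 hT') hA)
    have h3 := ((hG a).2.2.2 (mir H y - s) (by linarith) l hl).trans
      (mul_le_mul_of_nonneg_left (acor_mono N l.natAbs hr hT0 (hT'.trans h1)) hA)
    rw [acor_G_apply, norm_mul, Complex.norm_real, Real.norm_eq_abs, abs_of_nonneg hk0]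
    have h4 := norm_sub_le (G a l (y - s)) (conj (G a l (mir H y - s)))
    rw [Complex.norm_conj] at h4
    calc k * ‖G a l (y - s) - conj (G a l (mir H y - s))‖
        ≤ 1 * ‖G a l (y - s) - conj (G a l (mir H y - s))‖ := by gcongr
      _ ≤ _ := by linarith

end

end Pool.Agent.P.MP_6b977f_mp.EB
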