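import Pool.Agent.P.MP_6b977f_mp.EB.IfE

/-! Weak limits of almost invariant functions: the angle can be shifted. -/

namespace Pool.Agent.P.MP_6b977f_mp.EB

open Real MeasureTheory Filter Topology Set Metric
open scoped ContDiff BoundedContinuousFunction ComplexConjugate Pointwise ENNReal

noncomputable section

/-- The density of `sm`. -/
def ap1_s (θ : ℝ) : ℝ := (Ioo 0 π).indicator sin θ

theorem ap1_s_nonneg (θ : ℝ) : 0 ≤ ap1_s θ :=
  indicator_nonneg (fun _ hx => (sin_pos_of_mem_Ioo hx).le) θ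

theorem ap1_s_meas : Measurable ap1_s := measurable_sin.indicator measurableSet_Ioo

theorem ap1_sm : sm = volume.withDensity fun θ => ENNReal.ofReal (ap1_s θ) := by
  rw [sm, ← withDensity_indicator measurableSet_Ioo]
  congr 1
  funext θ
  by_cases h : θ ∈ Ioo 0 π <;> simp [ap1_s, h]

theorem ap1_fin : IsFiniteMeasure sm := by
  refine isFiniteMeasure_withDensity_ofReal ?_
  exact (Integrable.of_bound measurable_sin.aestronglyMeasurable 1
    (Eventually.of_forall fun x => abs_sin_le_one x)).2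

theorem ap1_m (ν : Measure ℝ) [SFinite ν] :
    ν.prod sm = (ν.prod volume).withDensity fun y => ENNReal.ofReal (ap1_s y.2) := by
  rw [ap1_sm, prod_withDensity_right ap1_s_meas.ennreal_ofReal]

theorem ap1_int (ν : Measure ℝ) [SFinite ν] (F : ℝ × ℝ → ℝ) :
    ∫ y, F y ∂ν.prod sm = ∫ y, ap1_s y.2 * F y ∂ν.prod volume := by
  rw [ap1_m, integral_withDensity_eq_integral_toReal_smul (f := fun y : ℝ × ℝ =>
    ENNReal.ofReal (ap1_s y.2)) (ap1_s_meas.comp measurable_snd).ennreal_ofReal (by simp)]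
  simp [ap1_s_nonneg]

theorem ap1_intg (ν : Measure ℝ) [SFinite ν] (F : ℝ × ℝ → ℝ) :
    Integrable F (ν.prod sm) ↔ Integrable (fun y => ap1_s y.2 * F y) (ν.prod volume) := by
  rw [ap1_m, integrable_withDensity_iff_integrable_smul' (f := fun y : ℝ × ℝ =>
    ENNReal.ofReal (ap1_s y.2)) (ap1_s_meas.comp measurable_snd).ennreal_ofReal (by simp)]
  simp [ap1_s_nonneg]

theorem ap1_shift (ν : Measure ℝ) [SFinite ν] (d : ℝ) :
    MeasurePreserving (fun y : ℝ × ℝ => (y.1, y.2 + d)) (ν.prod volume) (ν.prod volume) ∧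
      MeasurableEmbedding (fun y : ℝ × ℝ => (y.1, y.2 + d)) :=
  ⟨(MeasurePreserving.id ν).prod (measurePreserving_add_right volume d),
    MeasurableEmbedding.id.prodMap (measurableEmbedding_addRight d)⟩

theorem ap1_change (ν : Measure ℝ) [SFinite ν] {d : ℝ} {q q' : ℝ → ℝ}
    (h : ∀ θ, ap1_s (θ + d) * q' (θ + d) = ap1_s θ * q θ) (F : ℝ × ℝ → ℝ) :
    ∫ y, F y * q' y.2 ∂ν.prod sm = ∫ y, F (y.1, y.2 + d) * q y.2 ∂ν.prod sm ∧
      (Integrable (fun y => F y * q' y.2) (ν.prod sm) →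
        Integrable (fun y => F (y.1, y.2 + d) * q y.2) (ν.prod sm)) := by
  have e : (fun y : ℝ × ℝ => ap1_s y.2 * (F (y.1, y.2 + d) * q y.2)) =
      (fun y : ℝ × ℝ => ap1_s y.2 * (F y * q' y.2)) ∘ fun y => (y.1, y.2 + d) := by
    funext y
    simp only [Function.comp]
    linear_combination (-F (y.1, y.2 + d)) * h y.2
  constructor
  · rw [ap1_int, ap1_int, e]
    exact ((ap1_shift ν d).1.integral_comp (ap1_shift ν d).2 _).symm
  · rw [ap1_intg, ap1_intg, e]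
    exact ((ap1_shift ν d).1.integrable_comp_emb (ap1_shift ν d).2).2

theorem ap1_bd {X : Type} [MeasurableSpace X] (μ : Measure X) [IsFiniteMeasure μ] {f : X → ℝ}
    (hf : Measurable f) {C : ℝ} (h : ∀ x, |f x| ≤ C) : Integrable f μ :=
  Integrable.of_bound hf.aestronglyMeasurable C (Eventually.of_forall h)

theorem ap1_fub (μ ν κ : Measure ℝ) [IsFiniteMeasure μ] [IsFiniteMeasure ν] [IsFiniteMeasure κ]
    {H : ℝ × ℝ × ℝ → ℝ} (hH : Measurable H) {C : ℝ} (h : ∀ x, |H x| ≤ C) :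
    ∫ u, ∫ y, H (u, y) ∂ν.prod κ ∂μ = ∫ θ, ∫ u, ∫ σ, H (u, σ, θ) ∂ν ∂μ ∂κ ∧
      Integrable (fun θ => ∫ u, ∫ σ, H (u, σ, θ) ∂ν ∂μ) κ := by
  have h1 : ∀ u, ∫ y, H (u, y) ∂ν.prod κ = ∫ θ, ∫ σ, H (u, σ, θ) ∂ν ∂κ := fun u =>
    integral_prod_symm _ (ap1_bd _ (hH.comp measurable_prodMk_left) fun y => h _)
  have h2 : StronglyMeasurable fun z : ℝ × ℝ => ∫ σ, H (z.1, σ, z.2) ∂ν :=
    StronglyMeasurable.integral_prod_right' (f := fun z : (ℝ × ℝ) × ℝ => H (z.1.1, z.2, z.1.2))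
      (hH.comp (by fun_prop)).stronglyMeasurable
  have h3 : Integrable (fun z : ℝ × ℝ => ∫ σ, H (z.1, σ, z.2) ∂ν) (μ.prod κ) :=
    Integrable.of_bound h2.aestronglyMeasurable (C * ν.real univ) (Eventually.of_forall fun z =>
      norm_integral_le_of_norm_le_const (Eventually.of_forall fun σ => h _))
  refine ⟨?_, h3.integral_prod_right⟩
  simp_rw [h1]
  exact integral_integral_swap (f := fun u θ => ∫ σ, H (u, σ, θ) ∂ν) h3

theorem ap1_cX (L : ℝ) (N : ℕ) : Measurable fun z : ℝ × ℝ × ℝ => cX L N z.1 z.2.1 := by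
  unfold cX
  have h1 : Measurable fun z : ℝ × ℝ × ℝ => ((⌊z.2.1 / (L / N)⌋₊ : ℕ) : ℝ) :=
    (measurable_from_top (f := fun n : ℕ => (n : ℝ))).comp (Measurable.nat_floor (by fun_prop))
  fun_prop

theorem ap1_InG (L : ℝ) (N : ℕ) : MeasurableSet {z : ℝ × ℝ × ℝ | InG L N z.1 z.2.1} := by
  have h := ap1_cX L N
  exact (measurableSet_lt measurable_const h).inter ((measurableSet_lt h measurable_const).inter
    (measurableSet_eq_fun h.fract measurable_const).compl)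

theorem ap1_gam (hgmm : S_GMM) (L : ℝ) (N : ℕ) (α : ℝ) :
    Measurable fun z : ℝ × ℝ × ℝ => gam L N z.1 α z.2 := by
  have h := (ap1_cX L N).fract
  have h1 : Measurable fun z : ℝ × ℝ × ℝ => gv α (Int.fract (cX L N z.1 z.2.1)) z.2.2 :=
    hgmm.1.comp (measurable_const.prodMk (h.prodMk measurable_snd.snd))
  unfold gam
  refine Measurable.ite (ap1_InG L N) ?_ measurable_snd
  exact (measurable_snd.fst.add ((h1.fst.sub h).const_mul _)).prodMk h1.snd

open Classical in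
theorem ap1_avg (havg : S_AVG) {L M K : ℝ} {N : ℕ} (hL : 0 < L) (hN : 1 ≤ N) {J : Set ℝ}
    {A : Set (ℝ × ℝ)} (hA : MeasurableSet A) {q : ℝ → ℝ} (hq : Measurable q) (hq1 : ∀ θ, |q θ| ≤ 1)
    (hq0 : ∀ θ, θ ∉ J → q θ = 0) (hAJ : ∀ θ x, (θ, x) ∈ A → θ ∈ J ∧ x ∈ Ioo (0 : ℝ) 1)
    (hvol : ∀ θ ∈ J, volume.real {x | (θ, x) ∈ A} = q θ) {F φ : ℝ × ℝ → ℝ} (hF : Measurable F)
    (hFM : ∀ y, |F y| ≤ M) (hφ : Measurable φ) (hφ1 : ∀ y, |φ y| ≤ 1)
    (hφK : ∀ θ σ σ', |φ (σ, θ) - φ (σ', θ)| ≤ K * |σ - σ'|) (hK : 0 ≤ K) {ξ : ℝ × ℝ → ℝ}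
    (hξ : Measurable ξ) (hξ1 : ∀ z ∈ A, ξ z ∈ Icc (0 : ℝ) 1) {H : ℝ × ℝ × ℝ → ℝ}
    (hH : ∀ z, H z = if InG L N z.1 z.2.1 ∧ (z.2.2, Int.fract (cX L N z.1 z.2.1)) ∈ A then
      F (z.2.1 + pd L N * (ξ (z.2.2, Int.fract (cX L N z.1 z.2.1)) -
        Int.fract (cX L N z.1 z.2.1)), z.2.2) * φ z.2 else 0) :
    Measurable H ∧ (∀ z, |H z| ≤ M) ∧
    |(∫ u in Ioo (0 : ℝ) 1, ∫ y, H (u, y) ∂(volume.restrict (Ioo 0 L)).prod sm) -
      ∫ y, F y * φ y * q y.2 ∂(volume.restrict (Ioo 0 L)).prod sm| ≤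
      M * L * (3 + K * L) / N * sm.real univ := by
  haveI := ap1_fin
  have hM : 0 ≤ M := (abs_nonneg _).trans (hFM 0)
  have hc := (ap1_cX L N).fract
  have hp : Measurable fun z : ℝ × ℝ × ℝ => (z.2.2, Int.fract (cX L N z.1 z.2.1)) :=
    measurable_snd.snd.prodMk hc
  have hFφ : ∀ y y', |F y * φ y'| ≤ M := fun y y' => by
    rw [abs_mul]
    exact (mul_le_of_le_one_right (abs_nonneg _) (hφ1 _)).trans (hFM _)
  have hHm : Measurable H := by
    rw [funext hH]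
    refine Measurable.ite ((ap1_InG L N).inter (hp hA)) ?_ measurable_const
    exact (hF.comp ((measurable_snd.fst.add (((hξ.comp hp).sub hc).const_mul _)).prodMk
      measurable_snd.snd)).mul (hφ.comp measurable_snd)
  have hHM : ∀ z, |H z| ≤ M := fun z => by
    rw [hH]
    split_ifs
    · exact hFφ _ _
    · simpa using hM
  refine ⟨hHm, hHM, ?_⟩
  obtain ⟨e1, i1⟩ := ap1_fub (volume.restrict (Ioo (0 : ℝ) 1)) (volume.restrict (Ioo 0 L)) sm
    hHm hHM
  have i2 : Integrable (fun y : ℝ × ℝ => F y * φ y * q y.2)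
      ((volume.restrict (Ioo 0 L)).prod sm) :=
    ap1_bd _ ((hF.mul hφ).mul (hq.comp measurable_snd)) (C := M) fun y => by
      rw [abs_mul]
      exact (mul_le_of_le_one_right (abs_nonneg _) (hq1 _)).trans (hFφ _ _)
  rw [e1, integral_prod_symm _ i2, ← integral_sub i1 i2.integral_prod_right]
  rw [← Real.norm_eq_abs]
  refine norm_integral_le_of_norm_le_const (μ := sm) (Eventually.of_forall fun θ => ?_)
  by_cases hθ : θ ∈ J
  · have h1 := havg L M K N (fun σ => F (σ, θ)) (fun σ => φ (σ, θ)) (fun x => ξ (θ, x))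
      {x | (θ, x) ∈ A} hL hN (hF.comp measurable_prodMk_right) (fun σ => hFM _) (fun σ => hφ1 _)
      (hφK θ) (measurable_prodMk_left hA) (fun x hx => (hAJ θ x hx).2)
      (hξ.comp measurable_prodMk_left) (fun x hx => hξ1 _ hx)
    rw [hvol θ hθ] at h1
    simp only [hH, Real.norm_eq_abs, integral_mul_const]
    rw [mul_comm (∫ σ in Ioo 0 L, F (σ, θ) * φ (σ, θ))]
    exact h1
  · have h1 : ∀ u σ, H (u, σ, θ) = 0 := fun u σ => by
      rw [hH, if_neg]
      exact fun h => hθ (hAJ _ _ h.2).1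
    simp only [h1, hq0 θ hθ, integral_zero, mul_zero, sub_zero, norm_zero]
    positivity

open Classical in
theorem ap1_gen (havg : S_AVG) (hgmm : S_GMM) {L α M d : ℝ} {N : ℕ → ℕ}
    {gn rn : ℕ → ℝ × ℝ → ℝ} {g r : ℝ × ℝ → ℝ} (hL : 0 < L) (hN : Tendsto N atTop atTop)
    (hb : ∀ n, Measurable (gn n) ∧ Measurable (rn n) ∧ ∀ y, |gn n y| ≤ M ∧ |rn n y| ≤ M)
    (hg : Integrable g ((volume.restrict (Ioo 0 L)).prod sm))
    (hr : Integrable r ((volume.restrict (Ioo 0 L)).prod sm))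
    (hw : ∀ χ, BM χ →
      Tendsto (fun n => ∫ y, gn n y * χ y ∂(volume.restrict (Ioo 0 L)).prod sm) atTop
        (𝓝 (∫ y, g y * χ y ∂(volume.restrict (Ioo 0 L)).prod sm)) ∧
      Tendsto (fun n => ∫ y, rn n y * χ y ∂(volume.restrict (Ioo 0 L)).prod sm) atTop
        (𝓝 (∫ y, r y * χ y ∂(volume.restrict (Ioo 0 L)).prod sm)))
    (hE : Tendsto (fun n => ∫ u in Ioo (0 : ℝ) 1, ∫ y, |gn n (gam L (N n) u α y) - rn n y|
      ∂(volume.restrict (Ioo 0 L)).prod sm) atTop (𝓝 0))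
    {J : Set ℝ} (hJ : MeasurableSet J) (hJ1 : ∀ θ ∈ J, θ ∈ Ioo 0 π ∧ θ + d ∈ Ioo 0 π)
    {A : Set (ℝ × ℝ)} (hA : MeasurableSet A) (hAJ : ∀ θ x, (θ, x) ∈ A → θ ∈ J ∧ x ∈ Ioo (0 : ℝ) 1)
    (hvol : ∀ θ ∈ J, volume.real {x | (θ, x) ∈ A} = sin (θ + d) / 2)
    (hgv : ∀ θ x, (θ, x) ∈ A → (gv α x θ).1 ∈ Icc (0 : ℝ) 1 ∧ (gv α x θ).2 = θ + d) :
    ∀ᵐ y ∂(volume.restrict (Ioo 0 L)).prod sm, y.2 ∈ J → g (y.1, y.2 + d) = r y := by
  haveI := ap1_fin
  set m := (volume.restrict (Ioo (0 : ℝ) L)).prod sm with hm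
  set q : ℝ → ℝ := J.indicator fun θ => sin (θ + d) / 2 with hqdef
  set q' : ℝ → ℝ := fun t => J.indicator (fun θ => sin θ / 2) (t - d) with hq'def
  have hqm : Measurable q := Measurable.indicator (by fun_prop) hJ
  have hq'm : Measurable q' :=
    (Measurable.indicator (f := fun θ => sin θ / 2) (by fun_prop) hJ).comp (by fun_prop)
  have hs2 : ∀ t, |sin t / 2| ≤ 1 := fun t => by
    rw [abs_div, abs_two]; linarith [abs_sin_le_one t]
  have hq1 : ∀ θ, |q θ| ≤ 1 := fun θ => by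
    by_cases h : θ ∈ J
    · simp only [hqdef, indicator_of_mem h]; exact hs2 _
    · simp [hqdef, h]
  have hq'1 : ∀ θ, |q' θ| ≤ 1 := fun θ => by
    by_cases h : θ - d ∈ J
    · simp only [hq'def, indicator_of_mem h]; exact hs2 _
    · simp [hq'def, h]
  have hq0 : ∀ θ, θ ∉ J → q θ = 0 := fun θ h => by simp [hqdef, h]
  have hqJ : ∀ θ ∈ J, q θ = sin (θ + d) / 2 := fun θ h => by simp [hqdef, h]
  have hqq : ∀ θ, ap1_s (θ + d) * q' (θ + d) = ap1_s θ * q θ := fun θ => by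
    by_cases h : θ ∈ J
    · simp only [hq'def, hqdef, ap1_s, add_sub_cancel_right, indicator_of_mem h,
        indicator_of_mem (hJ1 θ h).1, indicator_of_mem (hJ1 θ h).2]
      ring
    · simp [hq'def, hqdef, h]
  have hmul : ∀ {a b : ℝ}, |a| ≤ 1 → |b| ≤ 1 → |a * b| ≤ 1 := fun ha hb => by
    rw [abs_mul]; exact mul_le_one₀ ha (abs_nonneg _) hb
  have hshift : ∀ F φ : ℝ × ℝ → ℝ, ∫ y, F y * (φ (y.1, y.2 - d) * q' y.2) ∂m =
      ∫ y, F (y.1, y.2 + d) * φ y * q y.2 ∂m := fun F φ => by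
    have := (ap1_change (volume.restrict (Ioo (0 : ℝ) L)) hqq
      fun y => F y * φ (y.1, y.2 - d)).1
    simp only [add_sub_cancel_right, mul_assoc] at this ⊢
    exact this
  have key : ∀ (φ : ℝ × ℝ → ℝ) (K : ℝ), Measurable φ → (∀ y, |φ y| ≤ 1) → 0 ≤ K →
      (∀ θ σ σ', |φ (σ, θ) - φ (σ', θ)| ≤ K * |σ - σ'|) →
      ∫ y, g (y.1, y.2 + d) * φ y * q y.2 ∂m = ∫ y, r y * φ y * q y.2 ∂m := by
    intro φ K hφ hφ1 hK hφK
    have t1 := (hw (fun y => φ (y.1, y.2 - d) * q' y.2)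
      ⟨(hφ.comp (by fun_prop)).mul (hq'm.comp measurable_snd), 1,
        fun y => hmul (hφ1 _) (hq'1 _)⟩).1
    have t2 := (hw (fun y => φ y * q y.2)
      ⟨hφ.mul (hqm.comp measurable_snd), 1, fun y => hmul (hφ1 _) (hq1 _)⟩).2
    simp only [hshift] at t1
    simp only [← mul_assoc] at t2
    have t3 : Tendsto (fun n => M * L * (3 + K * L) / N n * sm.real univ) atTop (𝓝 0) := by
      have := (tendsto_const_div_atTop_nhds_zero_nat (M * L * (3 + K * L))).comp hN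
      simpa using this.mul_const (sm.real univ)
    have t4 := (t3.add t3).add hE
    rw [add_zero, add_zero] at t4
    refine tendsto_nhds_unique t1 (t2.congr_dist (squeeze_zero' (Eventually.of_forall
      fun _ => dist_nonneg) ?_ t4))
    filter_upwards [hN.eventually_ge_atTop 1] with n hn
    obtain ⟨m1, m2, m3⟩ := hb n
    have hv : ∀ θ ∈ J, volume.real {x | (θ, x) ∈ A} = q θ := fun θ h => by
      rw [hvol θ h, hqJ θ h]
    obtain ⟨a1, a2, a3⟩ := ap1_avg havg hL hn hA hqm hq1 hq0 hAJ hv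
      (F := fun y => gn n (y.1, y.2 + d)) (m1.comp (by fun_prop)) (fun y => (m3 _).1) hφ hφ1 hφK hK
      (ξ := fun z => (gv α z.2 z.1).1)
      (hgmm.1.comp (measurable_const.prodMk (measurable_snd.prodMk measurable_fst))).fst
      (fun z hz => (hgv z.1 z.2 hz).1)
      (H := fun z => if InG L (N n) z.1 z.2.1 ∧
        (z.2.2, Int.fract (cX L (N n) z.1 z.2.1)) ∈ A then gn n (gam L (N n) z.1 α z.2) * φ z.2
        else 0)
      (fun z => by
        split_ifs with h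
        · simp only [gam, if_pos h.1, (hgv _ _ h.2).2]
        · rfl)
    obtain ⟨b1, b2, b3⟩ := ap1_avg havg hL hn hA hqm hq1 hq0 hAJ hv
      (F := rn n) m2 (fun y => (m3 _).2) hφ hφ1 hφK hK (ξ := fun z => z.2) measurable_snd
      (fun z hz => Ioo_subset_Icc_self (hAJ z.1 z.2 hz).2)
      (H := fun z => if InG L (N n) z.1 z.2.1 ∧
        (z.2.2, Int.fract (cX L (N n) z.1 z.2.1)) ∈ A then rn n z.2 * φ z.2 else 0)
      (fun z => by simp)
    set H1 : ℝ × ℝ × ℝ → ℝ := fun z => if InG L (N n) z.1 z.2.1 ∧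
      (z.2.2, Int.fract (cX L (N n) z.1 z.2.1)) ∈ A then gn n (gam L (N n) z.1 α z.2) * φ z.2
      else 0 with hH1
    set H2 : ℝ × ℝ × ℝ → ℝ := fun z => if InG L (N n) z.1 z.2.1 ∧
      (z.2.2, Int.fract (cX L (N n) z.1 z.2.1)) ∈ A then rn n z.2 * φ z.2 else 0 with hH2
    set μ := volume.restrict (Ioo (0 : ℝ) 1) with hμ
    have i1 : Integrable H1 (μ.prod m) := ap1_bd _ a1 a2
    have i2 : Integrable H2 (μ.prod m) := ap1_bd _ b1 b2
    have i3 : Integrable (fun z : ℝ × ℝ × ℝ => |gn n (gam L (N n) z.1 α z.2) - rn n z.2|)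
        (μ.prod m) :=
      ap1_bd _ ((m1.comp (ap1_gam hgmm L (N n) α)).sub (m2.comp measurable_snd)).abs (C := M + M)
        fun z => by
          rw [abs_abs]
          exact (abs_sub _ _).trans (add_le_add (m3 _).1 (m3 _).2)
    have e : |(∫ u, ∫ y, H1 (u, y) ∂m ∂μ) - ∫ u, ∫ y, H2 (u, y) ∂m ∂μ| ≤
        ∫ u, ∫ y, |gn n (gam L (N n) u α y) - rn n y| ∂m ∂μ := by
      rw [← integral_prod _ i1, ← integral_prod _ i2, ← integral_sub i1 i2]
      refine le_trans ?_ (integral_prod _ i3).le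
      refine (abs_integral_le_integral_abs).trans (integral_mono (i1.sub i2).abs i3 fun z => ?_)
      simp only [hH1, hH2]
      split_ifs
      · rw [← sub_mul, abs_mul]
        exact mul_le_of_le_one_right (abs_nonneg _) (hφ1 _)
      · simp
    rw [Real.dist_eq]
    rw [abs_le] at a3 b3 e ⊢
    constructor <;> linarith [a3.1, a3.2, b3.1, b3.2, e.1, e.2]
  have ig : Integrable (fun y : ℝ × ℝ => g (y.1, y.2 + d) * q y.2) m :=
    (ap1_change _ hqq g).2 (hg.mul_bdd (hq'm.comp measurable_snd).aestronglyMeasurable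
      (Eventually.of_forall fun y => hq'1 _))
  have ir : Integrable (fun y : ℝ × ℝ => r y * q y.2) m :=
    hr.mul_bdd (hqm.comp measurable_snd).aestronglyMeasurable (Eventually.of_forall fun y => hq1 _)
  have h0 := ae_eq_zero_of_integral_contDiff_smul_eq_zero (ig.sub ir).locallyIntegrable (by
    intro φ hφ hφc
    obtain ⟨C, hC⟩ := hφ.continuous.bounded_above_of_compact_support hφc
    obtain ⟨K, hK⟩ := ContDiff.lipschitzWith_of_hasCompactSupport hφc hφ (by simp)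
    have hC0 : 0 < C + 1 := by linarith [(norm_nonneg _).trans (hC 0)]
    have h1 := key (fun y => φ y / (C + 1)) (K / (C + 1)) (hφ.continuous.measurable.div_const _)
      (fun y => by
        rw [abs_div, abs_of_pos hC0, div_le_one hC0]
        have := hC y
        rw [Real.norm_eq_abs] at this
        linarith) (by positivity)
      (fun θ σ σ' => by
        have := hK.dist_le_mul (σ, θ) (σ', θ)
        rw [Prod.dist_eq, dist_self, max_eq_left dist_nonneg, Real.dist_eq, Real.dist_eq] at this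
        rw [← sub_div, abs_div, abs_of_pos hC0, div_mul_eq_mul_div]
        gcongr)
    have hb' : ∀ᵐ y ∂m, ‖φ y‖ ≤ C := Eventually.of_forall hC
    have j1 := ig.mul_bdd hφ.continuous.aestronglyMeasurable hb'
    have j2 := ir.mul_bdd hφ.continuous.aestronglyMeasurable hb'
    have e1 : ∀ (F : ℝ × ℝ → ℝ), ∫ y, F y * (φ y / (C + 1)) * q y.2 ∂m =
        (∫ y, F y * q y.2 * φ y ∂m) / (C + 1) := fun F => by
      rw [← integral_div]
      congr 1
      funext y
      ring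
    rw [e1 fun y => g (y.1, y.2 + d), e1 r, div_left_inj' hC0.ne'] at h1
    rw [← sub_eq_zero, ← integral_sub j1 j2] at h1
    rw [← h1]
    congr 1
    funext y
    simp only [Pi.sub_apply, smul_eq_mul]
    ring)
  filter_upwards [h0] with y hy hyJ
  have h1 : 0 < q y.2 := by
    rw [hqJ _ hyJ]
    linarith [sin_pos_of_mem_Ioo (hJ1 _ hyJ).2]
  simp only [Pi.sub_apply] at hy
  rw [← sub_mul, mul_eq_zero, sub_eq_zero] at hy
  exact hy.resolve_right h1.ne'

theorem ap1_trig {β α : ℝ} (h1 : 0 ≤ sin β) (hc : 0 < cos α) :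
    sin (β - α) * sin (β + α) / 2 ≤ sin β / (2 * cos α) := by
  have e : sin (β - α) * sin (β + α) = sin β ^ 2 - sin α ^ 2 := by
    rw [sin_sub, sin_add]
    have := sin_sq_add_cos_sq α
    have := sin_sq_add_cos_sq β
    nlinarith
  have h2 : sin β ^ 2 ≤ sin β := by nlinarith [sin_le_one β]
  rw [e, le_div_iff₀ (by positivity)]
  have h3 := cos_le_one α
  rcases le_total 0 (sin β ^ 2 - sin α ^ 2) with h | h <;> nlinarith [sq_nonneg (sin α)]

theorem t_ap1 (havg : S_AVG) (hgm : S_GM) (hgmm : S_GMM) : S_AP1 := by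
  intro L α M N gn rn g r hL hα hα' hN hb _ _ hg hr hw hE
  haveI := ap1_fin
  have hπ := pi_pos
  have hc : 0 < cos α := cos_pos_of_mem_Ioo ⟨by linarith, by linarith⟩
  have h0 : ∀ᵐ y ∂(volume.restrict (Ioo (0 : ℝ) L)).prod sm, y.2 ∈ Ioo 0 π :=
    Measure.quasiMeasurePreserving_snd.ae
      ((withDensity_absolutelyContinuous _ _).ae_le (ae_restrict_mem measurableSet_Ioo))
  have h1 := ap1_gen havg hgmm hL hN hb hg hr hw hE (d := -(2 * α)) (J := Ioo (2 * α) π)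
    measurableSet_Ioo (fun θ h => ⟨⟨by linarith [h.1], h.2⟩, by linarith [h.1], by linarith [h.2]⟩)
    (A := {z | (2 * α < z.1 ∧ z.1 < π) ∧ 0 < z.2 ∧ z.2 < sin (z.1 + -(2 * α)) / 2})
    (by measurability)
    (fun θ x h => ⟨h.1, h.2.1, by linarith [h.2.2, sin_le_one (θ + -(2 * α))]⟩)
    (fun θ h => by
      have e : {x : ℝ | (θ, x) ∈ {z : ℝ × ℝ | (2 * α < z.1 ∧ z.1 < π) ∧ 0 < z.2 ∧
          z.2 < sin (z.1 + -(2 * α)) / 2}} = Ioo 0 (sin (θ + -(2 * α)) / 2) := by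
        ext x; simp [h.1, h.2]
      have := sin_pos_of_pos_of_lt_pi (x := θ + -(2 * α)) (by linarith [h.1]) (by linarith [h.2])
      rw [e, Real.volume_real_Ioo_of_le (by linarith), sub_zero])
    (fun θ x h => by
      obtain ⟨⟨h1, h2⟩, h3, h4⟩ := h
      simp only [← sub_eq_add_neg] at h1 h2 h3 h4 ⊢
      have s1 := sin_pos_of_pos_of_lt_pi (x := θ - 2 * α) (by linarith) (by linarith)
      have s2 := sin_pos_of_pos_of_lt_pi (x := θ) (by linarith) h2
      have s3 := sin_pos_of_pos_of_lt_pi (x := θ - α) (by linarith) (by linarith)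
      have s4 := sin_le_one θ
      have s5 := sin_le_one (θ - 2 * α)
      refine ⟨(hgm α hα hα').1 x ⟨h3, by linarith⟩ θ ⟨by linarith, h2⟩, ?_⟩
      have s6 := ap1_trig s3.le hc
      rw [show θ - α - α = θ - 2 * α by ring, sub_add_cancel] at s6
      rw [gv, if_pos (by nlinarith), gD, if_pos (by nlinarith)])
  have h2 := ap1_gen havg hgmm hL hN hb hg hr hw hE (d := 2 * α) (J := Ioo 0 (π - 2 * α))
    measurableSet_Ioo (fun θ h => ⟨⟨h.1, by linarith [h.2]⟩, by linarith [h.1], by linarith [h.2]⟩)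
    (A := {z | (0 < z.1 ∧ z.1 < π - 2 * α) ∧ 1 - sin (z.1 + 2 * α) / 2 < z.2 ∧ z.2 < 1})
    (by measurability)
    (fun θ x h => ⟨h.1, by linarith [h.2.1, sin_le_one (θ + 2 * α)], h.2.2⟩)
    (fun θ h => by
      have e : {x : ℝ | (θ, x) ∈ {z : ℝ × ℝ | (0 < z.1 ∧ z.1 < π - 2 * α) ∧
          1 - sin (z.1 + 2 * α) / 2 < z.2 ∧ z.2 < 1}} = Ioo (1 - sin (θ + 2 * α) / 2) 1 := by
        ext x; simp only [mem_ofPred_eq, h.1, h.2, and_self, true_and, mem_Ioo]
      have := sin_pos_of_pos_of_lt_pi (x := θ + 2 * α) (by linarith [h.1]) (by linarith [h.2])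
      rw [e, Real.volume_real_Ioo_of_le (by linarith), sub_sub_cancel])
    (fun θ x h => by
      obtain ⟨⟨h1, h2⟩, h3, h4⟩ := h
      simp only at h1 h2 h3 h4
      have s1 := sin_pos_of_pos_of_lt_pi (x := θ + 2 * α) (by linarith) (by linarith)
      have s2 := sin_pos_of_pos_of_lt_pi (x := θ) h1 (by linarith)
      have s3 := sin_pos_of_pos_of_lt_pi (x := θ + α) (by linarith) (by linarith)
      have s4 := sin_le_one θ
      have s5 := sin_le_one (θ + 2 * α)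
      refine ⟨(hgm α hα hα').1 x ⟨by linarith, h4⟩ θ ⟨h1, by linarith⟩, ?_⟩
      have s6 := ap1_trig s3.le hc
      rw [show θ + α + α = θ + 2 * α by ring, add_sub_cancel_right] at s6
      have s7 : sin (θ - α) / (2 * cos α) = sin θ - sin (θ + α) / (2 * cos α) := by
        rw [sin_sub, sin_add]; field_simp; ring
      have s8 : sin (π - θ - 2 * α) = sin (θ + 2 * α) := by
        rw [sub_sub, sin_pi_sub]
      rw [gv, if_neg (by rw [s7]; push Not; nlinarith), gD,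
        if_pos (by rw [s8, sin_pi_sub]; nlinarith)]
      ring)
  filter_upwards [h0, h1, h2] with y y0 y1 y2
  exact ⟨fun h => by rw [sub_eq_add_neg]; exact y1 ⟨h, y0.2⟩, fun h => y2 ⟨y0.1, h⟩⟩

end

end Pool.Agent.P.MP_6b977f_mp.EB
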