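import Pool.Agent.P.MP_6b977f_mp.EB.IfE

/-! Rigidity in the angle. -/

namespace Pool.Agent.P.MP_6b977f_mp.EB

open Real MeasureTheory Filter Topology Set Metric
open scoped ContDiff BoundedContinuousFunction ComplexConjugate Pointwise ENNReal

noncomputable section

theorem ap2_sm {p : ℝ → Prop} : (∀ᵐ θ ∂sm, p θ) ↔ ∀ᵐ θ, θ ∈ Ioo 0 π → p θ := by
  rw [sm, ae_withDensity_iff (by fun_prop), ae_restrict_iff' measurableSet_Ioo]
  refine eventually_congr (Eventually.of_forall fun θ => imp_congr_right fun h => ?_)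
  have := Real.sin_pos_of_mem_Ioo h
  simp [this]

theorem ap2_aff (c : ℝ) {k : ℝ} (hk : k ≠ 0) :
    Measure.QuasiMeasurePreserving (fun x : ℝ => c + k * x) volume volume := by
  have h1 : Measure.QuasiMeasurePreserving (fun x : ℝ => k * x) volume volume := by
    refine ⟨by fun_prop, ?_⟩
    rw [Real.map_volume_mul_left hk]
    exact Measure.smul_absolutelyContinuous
  exact (measurePreserving_add_left volume c).quasiMeasurePreserving.comp h1

theorem ap2_unit {p : ℝ → Prop} (h : ∀ᵐ a : unitInterval, p a) :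
    ∀ᵐ a : ℝ, a ∈ Icc (0 : ℝ) 1 → p a := by
  rw [← ae_restrict_iff' measurableSet_Icc, ← unitInterval.measurePreserving_coe.map_eq,
    (MeasurableEmbedding.subtype_coe measurableSet_Icc).ae_map_iff]
  exact h

def ap2_Loc (g : ℝ → ℝ) (x c : ℝ) : Prop := ∃ U, IsOpen U ∧ x ∈ U ∧ ∀ᵐ y, y ∈ U → g y = c

theorem ap2_uniq {g : ℝ → ℝ} {x c c' : ℝ} (h : ap2_Loc g x c) (h' : ap2_Loc g x c') : c = c' := by
  obtain ⟨U, h1, h2, h3⟩ := h
  obtain ⟨U', h4, h5, h6⟩ := h'
  obtain ⟨y, hy, k1, k2⟩ := Measure.exists_mem_of_measure_ne_zero_of_ae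
    ((h1.inter h4).measure_ne_zero volume ⟨x, h2, h5⟩) (ae_restrict_of_ae (h3.and h6))
  rw [← k1 hy.1, k2 hy.2]

theorem t_ap2 : S_AP2 := by
  intro g r α hg hr h0 h1 h
  have hπ := Real.pi_pos
  have : SFinite sm := by unfold sm; infer_instance
  rw [Measure.ae_ae_comm, ap2_sm] at h
  swap
  · have m1 : Measurable fun p : unitInterval × ℝ => 2 * (α * (1 + (p.1 : ℝ))) := by fun_prop
    refine measurableSet_setOfPred.2 (Measurable.and (Measurable.imp ?_ ?_) (Measurable.imp ?_ ?_))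
    · exact measurableSet_setOfPred.1 (measurableSet_lt m1 measurable_snd)
    · exact measurableSet_setOfPred.1 (measurableSet_eq_fun (hg.comp (measurable_snd.sub m1))
        (hr.comp measurable_snd))
    · exact measurableSet_setOfPred.1 (measurableSet_lt measurable_snd (measurable_const.sub m1))
    · exact measurableSet_setOfPred.1 (measurableSet_eq_fun (hg.comp (measurable_snd.add m1))
        (hr.comp measurable_snd))
  have hk : (0 : ℝ) < (2 * α)⁻¹ := by positivity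
  have hk2 : 2 * α * (2 * α)⁻¹ = 1 := mul_inv_cancel₀ (by positivity)
  have D : ∀ᵐ θ, θ ∈ Ioo 0 π →
      (∀ x ∈ Ioo (θ - 4 * α) (θ - 2 * α), 0 < x → ap2_Loc g x (r θ)) ∧
      ∀ x ∈ Ioo (θ + 2 * α) (θ + 4 * α), x < π → ap2_Loc g x (r θ) := by
    filter_upwards [h] with θ hθ hm
    have h2 := ap2_unit (p := fun a => (2 * (α * (1 + a)) < θ → g (θ - 2 * (α * (1 + a))) = r θ) ∧
      (θ < π - 2 * (α * (1 + a)) → g (θ + 2 * (α * (1 + a))) = r θ)) (hθ hm)
    constructor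
    · intro x hx hx0
      refine ⟨_, isOpen_Ioo.inter isOpen_Ioi, ⟨hx, hx0⟩, ?_⟩
      filter_upwards [(ap2_aff (θ * (2 * α)⁻¹ - 1) (neg_ne_zero.2 hk.ne')).ae h2] with y hy
        ⟨⟨y1, y2⟩, y3⟩
      have e : 2 * (α * (1 + (θ * (2 * α)⁻¹ - 1 + -(2 * α)⁻¹ * y))) = θ - y := by
        linear_combination (θ - y) * hk2
      have := (hy ⟨by nlinarith, by nlinarith⟩).1
      rw [e, sub_sub_cancel] at this
      exact this (sub_lt_self _ y3)
    · intro x hx hx0
      refine ⟨_, isOpen_Ioo.inter isOpen_Iio, ⟨hx, hx0⟩, ?_⟩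
      filter_upwards [(ap2_aff (-θ * (2 * α)⁻¹ - 1) hk.ne').ae h2] with y hy
        ⟨⟨y1, y2⟩, y3⟩
      have e : 2 * (α * (1 + (-θ * (2 * α)⁻¹ - 1 + (2 * α)⁻¹ * y))) = y - θ := by
        linear_combination (y - θ) * hk2
      have := (hy ⟨by nlinarith, by nlinarith⟩).2
      rw [e, add_sub_cancel] at this
      have y4 : y < π := y3
      exact this (by linarith)
  have ex : ∀ x ∈ Ioo 0 π, ∃ c, ap2_Loc g x c := by
    intro x hx
    rcases le_total x (π / 2) with h2 | h2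
    · obtain ⟨θ, t1, t2⟩ := Measure.exists_mem_of_measure_ne_zero_of_ae
        ((isOpen_Ioo (a := x + 2 * α) (b := x + 4 * α)).measure_ne_zero volume
          (nonempty_Ioo.2 (by linarith))) (ae_restrict_of_ae D)
      exact ⟨_, (t2 ⟨by linarith [t1.1, hx.1], by linarith [t1.2]⟩).1 x
        ⟨by linarith [t1.2], by linarith [t1.1]⟩ hx.1⟩
    · obtain ⟨θ, t1, t2⟩ := Measure.exists_mem_of_measure_ne_zero_of_ae
        ((isOpen_Ioo (a := x - 4 * α) (b := x - 2 * α)).measure_ne_zero volume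
          (nonempty_Ioo.2 (by linarith))) (ae_restrict_of_ae D)
      exact ⟨_, (t2 ⟨by linarith [t1.1], by linarith [t1.2, hx.2]⟩).2 x
        ⟨by linarith [t1.2], by linarith [t1.1]⟩ hx.2⟩
  choose! κ hκ using ex
  have hm : π / 2 ∈ Ioo 0 π := ⟨by linarith, by linarith⟩
  have cst : ∀ x ∈ Ioo 0 π, κ x = κ (π / 2) := by
    intro x hx
    refine isPreconnected_Ioo.induction₂' (fun x y => κ x = κ y) (fun a ha => ?_)
      (fun _ _ _ _ _ _ => Eq.trans) hx hm
    obtain ⟨U, u1, u2, u3⟩ := hκ a ha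
    filter_upwards [mem_nhdsWithin_of_mem_nhds (u1.mem_nhds u2), self_mem_nhdsWithin] with y y1 y2
    have := ap2_uniq ⟨U, u1, y1, u3⟩ (hκ y y2)
    exact ⟨this, this.symm⟩
  refine ⟨κ (π / 2), ap2_sm.2 ?_⟩
  have G : ∀ᵐ y, y ∈ Ioo 0 π → g y = κ (π / 2) := by
    refine measure_null_of_locally_null _ fun x hx => ?_
    simp only [mem_compl_iff, mem_ofPred_eq, Classical.not_imp] at hx
    obtain ⟨U, u1, u2, u3⟩ := hκ x hx.1
    rw [cst x hx.1] at u3
    refine ⟨_, inter_mem_nhdsWithin _ (u1.mem_nhds u2), measure_mono_null ?_ u3⟩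
    exact fun y hy h => hy.1 fun _ => h hy.2
  filter_upwards [G, D] with θ g1 d1 hθ
  refine ⟨g1 hθ, ?_⟩
  rcases le_total θ (π / 2) with h2 | h2
  · have hx : θ + 3 * α ∈ Ioo 0 π := ⟨by linarith [hθ.1], by linarith⟩
    rw [← cst _ hx]
    exact ap2_uniq ((d1 hθ).2 _ ⟨by linarith, by linarith⟩ hx.2) (hκ _ hx)
  · have hx : θ - 3 * α ∈ Ioo 0 π := ⟨by linarith, by linarith [hθ.2]⟩
    rw [← cst _ hx]
    exact ap2_uniq ((d1 hθ).1 _ ⟨by linarith, by linarith⟩ hx.1) (hκ _ hx)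

end

end Pool.Agent.P.MP_6b977f_mp.EB
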