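import Pool.Agent.P.MP_6b977f_mp.EB.IfE

/-! An invariant function of the position on the boundary is constant. -/

namespace Pool.Agent.P.MP_6b977f_mp.EB

open Real MeasureTheory Filter Topology Set Metric
open scoped ContDiff BoundedContinuousFunction ComplexConjugate Pointwise ENNReal

theorem ap3_null {f : ℝ → ℝ} {s : Set ℝ} {p : ℝ → Prop} (hf : Measurable f) (hs : MeasurableSet s)
    (hi : InjOn f s) (hd : ∀ x ∈ s, ∃ d, d ≠ 0 ∧ HasDerivAt f d x) (hp : ∀ᵐ a, p a) :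
    ∀ᵐ x, x ∈ s → p (f x) := by
  obtain ⟨N, h1, h2, h3⟩ := exists_measurable_superset_of_null (ae_iff.1 hp)
  have hE : MeasurableSet (s ∩ f ⁻¹' N) := hs.inter (hf h2)
  have h4 := lintegral_image_eq_lintegral_abs_deriv_mul hE (f := f) (f' := deriv f)
    (fun x hx => by
      obtain ⟨d, -, b⟩ := hd x hx.1
      exact b.differentiableAt.hasDerivAt.hasDerivWithinAt) (hi.mono inter_subset_left) fun _ => 1
  rw [setLIntegral_one, measure_mono_null (by rintro _ ⟨x, hx, rfl⟩; exact hx.2) h3, eq_comm,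
    lintegral_eq_zero_iff (by have := measurable_deriv f; fun_prop), EventuallyEq,
    ae_restrict_iff' hE] at h4
  filter_upwards [h4] with x hx hxs
  by_contra b
  obtain ⟨d, d0, hd⟩ := hd x hxs
  have := hx ⟨hxs, h1 b⟩
  simp [hd.deriv, d0] at this

theorem ap3_norm (t : ℝ) : ‖ex t‖ = 1 := Complex.norm_exp_ofReal_mul_I t

theorem ap3_ex_add (s t : ℝ) : ex (s + t) = ex s * ex t := by
  simp [ex, add_mul, Complex.exp_add]

theorem ap3_ex_pi : ex π = -1 := Complex.exp_pi_mul_I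

theorem ap3_ex_near (s t : ℝ) : ‖ex s + ex t‖ ≤ |t - s - π| := by
  have : ex s + ex t = -ex s * (ex (t - s - π) - 1) := by
    rw [show t = s + (π + (t - s - π)) by ring, ap3_ex_add, ap3_ex_add, ap3_ex_pi]
    ring_nf
  rw [this, norm_mul, norm_neg, ap3_norm, one_mul, ex, mul_comm]
  simpa using Real.norm_exp_I_mul_ofReal_sub_one_le (x := t - s - π)

theorem ap3_nbd (ρ : ℝ → ℝ) (t : ℝ) : ‖bd ρ t‖ = Real.exp (ρ t) := by
  rw [bd, norm_mul, ap3_norm, mul_one, Complex.norm_of_nonneg (Real.exp_pos _).le]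

theorem ap3_cont {ρ : ℝ → ℝ} (h : CP ρ) : Continuous (bd ρ) := by
  have := h.1
  unfold bd ex
  fun_prop

theorem ap3_inj {ρ : ℝ → ℝ} {s t : ℝ} (h : bd ρ s = bd ρ t) (h' : |s - t| < 2 * π) : s = t := by
  have h1 : Real.exp (ρ s) = Real.exp (ρ t) := by rw [← ap3_nbd, h, ap3_nbd]
  rw [bd, bd, h1, mul_right_inj' (by exact_mod_cast (Real.exp_pos _).ne'), ex, ex,
    Complex.exp_eq_exp_iff_exists_int] at h
  obtain ⟨n, hn⟩ := h
  have h2 : s = t + n * (2 * π) := by simpa using congrArg Complex.im hn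
  rw [h2, add_sub_cancel_left, abs_mul, abs_of_pos two_pi_pos, mul_lt_iff_lt_one_left two_pi_pos,
    ← Int.cast_abs] at h'
  have : n = 0 := Int.abs_lt_one_iff.1 (by exact_mod_cast h')
  simp [h2, this]

theorem ap3_cross (k : ℝ) (y z : ℂ) :
    ‖y‖ * (‖y‖ - (|k| + 1) * ‖z‖) ≤ cross ((k + Complex.I) * y) (z - y) := by
  have h1 : cross ((k + Complex.I) * y) (z - y) = (conj ((k + Complex.I) * y) * z).im + ‖y‖ ^ 2 := by
    rw [Complex.sq_norm, Complex.normSq_apply]
    simp [cross]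
    ring
  have h2 := Complex.abs_im_le_norm (conj ((k + Complex.I) * y) * z)
  rw [norm_mul, Complex.norm_conj, norm_mul] at h2
  have h3 : ‖(k : ℂ) + Complex.I‖ ≤ |k| + 1 := by simpa using norm_add_le (k : ℂ) Complex.I
  have h4 := mul_le_mul_of_nonneg_right h3 (by positivity : 0 ≤ ‖y‖ * ‖z‖)
  have := abs_le.1 h2
  nlinarith

/-- every boundary point is seen from a small disc -/
theorem ap3_ker (hpwc : S_PWC) (hgauge : S_GAUGE) {ρ ρ' : ℝ → ℝ} {Z : Finset ℂ} (h : PW ρ ρ' Z) :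
    ∃ r M : ℝ, 0 < r ∧ (∀ t, Real.exp (ρ t) ≤ M) ∧ ∀ (z : ℂ) (t : ℝ), ‖z‖ < r →
      0 < cross (tanf ρ' (bd ρ t)) (z - bd ρ t) ∧
      ∀ s : ℝ, 0 ≤ s → s < 1 → z + s * (bd ρ t - z) ∈ table ρ := by
  obtain ⟨⟨K, hK⟩, h2, -⟩ := hpwc.2 ρ ρ' Z h
  obtain ⟨C, C0, hC⟩ := hgauge ρ K h.cp hK
  obtain ⟨K', hK'⟩ := h.bdd
  obtain ⟨M, hM⟩ := (h.cp.2.isBounded_of_continuous two_pi_pos.ne' h.cp.1).exists_norm_le
  have hM' : ∀ t, |ρ t| ≤ M := fun t => hM _ ⟨t, rfl⟩
  have K0 : 0 ≤ K' := (abs_nonneg _).trans (hK' 0)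
  refine ⟨min (1 / C) (Real.exp (-M) / (K' + 1)), Real.exp M, by positivity,
    fun t => Real.exp_le_exp.2 (abs_le.1 (hM' t)).2, fun z t hz => ⟨?_, fun s s0 s1 => ?_⟩⟩
  · rw [(h2 t).1]
    refine lt_of_lt_of_le ?_ (ap3_cross ..)
    rw [ap3_nbd]
    have h3 := (lt_div_iff₀ (by positivity)).1 (hz.trans_le (min_le_right _ _))
    have h4 := Real.exp_le_exp.2 (abs_le.1 (hM' t)).1
    have h5 := mul_le_mul_of_nonneg_right (hK' t) (norm_nonneg z)
    exact mul_pos (Real.exp_pos _) (by linarith)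
  · have h3 := (lt_div_iff₀ C0).1 (hz.trans_le (min_le_left _ _))
    have h4 := (abs_le.1 (hC (z + s * (bd ρ t - z)) (s * bd ρ t))).2
    have h5 : ‖s * bd ρ t‖ * Real.exp (-ρ (s * bd ρ t).arg) = s := by
      rcases s0.eq_or_lt with rfl | s0
      · simp
      rw [Complex.arg_real_mul _ s0, norm_mul, ap3_nbd, bd, Complex.arg_real_mul _ (Real.exp_pos _),
        ex, Complex.arg_exp_mul_I, toIocMod, h.cp.2.sub_zsmul_eq, Complex.norm_of_nonneg s0.le,
        mul_assoc, ← Real.exp_add]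
      simp
    rw [h5, show z + s * (bd ρ t - z) - s * bd ρ t = (1 - s : ℝ) * z by push_cast; ring, norm_mul,
      Complex.norm_of_nonneg (by linarith), Real.exp_neg, ← div_eq_mul_inv] at h4
    exact (div_lt_one (Real.exp_pos _)).1 (by nlinarith)

/-- almost opposite boundary points see each other -/
theorem ap3_see (hpwc : S_PWC) (hgauge : S_GAUGE) {ρ ρ' : ℝ → ℝ} {Z : Finset ℂ} (h : PW ρ ρ' Z) :
    ∃ δ : ℝ, 0 < δ ∧ δ ≤ π ∧ ∀ t t' : ℝ, |t' - t - π| < δ →
      0 < cross (tanf ρ' (bd ρ t)) (bd ρ t' - bd ρ t) ∧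
      0 < cross (tanf ρ' (bd ρ t')) (bd ρ t - bd ρ t') ∧
      ∀ s ∈ Ioo (0 : ℝ) 1, bd ρ t + s * (bd ρ t' - bd ρ t) ∈ table ρ := by
  obtain ⟨r, M, r0, hM, hr⟩ := ap3_ker hpwc hgauge h
  have M0 : 0 < M := (Real.exp_pos _).trans_le (hM 0)
  refine ⟨min (r / M) π, lt_min (by positivity) pi_pos, min_le_right _ _, fun t t' ht => ?_⟩
  have a0 := Real.exp_pos (ρ t)
  have b0 := Real.exp_pos (ρ t')
  obtain ⟨l, hl⟩ : ∃ l, l = Real.exp (ρ t) / (Real.exp (ρ t) + Real.exp (ρ t')) := ⟨_, rfl⟩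
  have l0 : 0 < l := by rw [hl]; positivity
  have l1 : l < 1 := by rw [hl, div_lt_one (by positivity)]; linarith
  have hz : ‖bd ρ t + l * (bd ρ t' - bd ρ t)‖ < r := by
    have e : bd ρ t + l * (bd ρ t' - bd ρ t) = (l * Real.exp (ρ t') : ℝ) * (ex t + ex t') := by
      have : ((Real.exp (ρ t) + Real.exp (ρ t') : ℝ) : ℂ) ≠ 0 := by
        exact_mod_cast (by positivity : Real.exp (ρ t) + Real.exp (ρ t') ≠ 0)
      rw [hl, bd, bd, Complex.ofReal_mul, Complex.ofReal_div]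
      rw [Complex.ofReal_add] at this ⊢
      field_simp
      ring
    rw [e, norm_mul, Complex.norm_of_nonneg (by positivity)]
    have h1 := (lt_div_iff₀ M0).1 ((ap3_ex_near t t').trans_lt (ht.trans_le (min_le_left _ _)))
    have h2 : l * Real.exp (ρ t') ≤ M := by nlinarith [hM t']
    nlinarith [norm_nonneg (ex t + ex t')]
  obtain ⟨h1, h2⟩ := hr _ t hz
  obtain ⟨h3, h4⟩ := hr _ t' hz
  generalize bd ρ t = y at *
  generalize bd ρ t' = y' at *
  refine ⟨(mul_pos_iff_of_pos_left l0).1 ?_, (mul_pos_iff_of_pos_left (sub_pos.2 l1)).1 ?_,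
    fun s hs => ?_⟩
  · refine h1.trans_eq ?_
    simp [cross]
    ring
  · refine h3.trans_eq ?_
    simp [cross]
    ring
  · have l2 : (l : ℂ) ≠ 0 := by exact_mod_cast l0.ne'
    have l3 : 1 - (l : ℂ) ≠ 0 := by exact_mod_cast (sub_pos.2 l1).ne'
    rcases le_total s l with b | b
    · have := h2 (1 - s / l) (sub_nonneg.2 ((div_le_one l0).2 b)) (by
        linarith [div_pos hs.1 l0])
      rwa [show y + l * (y' - y) + ((1 - s / l : ℝ) : ℂ) * (y - (y + l * (y' - y))) =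
        y + s * (y' - y) by push_cast; field_simp; ring] at this
    · have := h4 ((s - l) / (1 - l)) (div_nonneg (by linarith) (by linarith))
        ((div_lt_one (by linarith)).2 (by linarith [hs.2]))
      rwa [show y + l * (y' - y) + (((s - l) / (1 - l) : ℝ) : ℂ) * (y' - (y + l * (y' - y))) =
        y + s * (y' - y) by push_cast; field_simp; ring] at this

theorem ap3_dir {y y' : ℂ} {a t : ℝ} (ha : 0 < a) (hy : y = a * ex t) :
    y' - y = (a * ‖(y' - y) / -y‖ : ℝ) * (ex t * ex (π + ((y' - y) / -y).arg)) := by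
  have y0 : -y ≠ 0 := by
    rw [hy, neg_ne_zero]
    exact mul_ne_zero (by exact_mod_cast ha.ne') (Complex.exp_ne_zero _)
  have h1 := Complex.norm_mul_exp_arg_mul_I ((y' - y) / -y)
  have h2 := div_mul_cancel₀ (y' - y) y0
  rw [ap3_ex_add, ap3_ex_pi]
  generalize (y' - y) / -y = w at *
  rw [← h2, hy, show ex w.arg = Complex.exp (w.arg * Complex.I) from rfl]
  push_cast
  linear_combination (a * ex t) * h1

theorem t_ap3 (hap3b : S_AP3B) (hbm : S_BM) (hpwc : S_PWC) (hgauge : S_GAUGE) (htp : S_TP)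
    (htab : S_TAB) : S_AP3 := by
  intro ρ ρ' Z c h hc hae
  obtain ⟨⟨_, -, -, hrot, -⟩, -⟩ := hbm
  obtain ⟨δ, δ0, δπ, hδ⟩ := ap3_see hpwc hgauge h
  obtain ⟨-, h2, h3⟩ := hpwc.2 ρ ρ' Z h
  obtain ⟨o1, o2, -, -, -, -, o3, -⟩ := htab ρ h.cp
  obtain ⟨-, -, -, tp1⟩ := htp _ o1 o2
  have mb := (ap3_cont h.cp).measurable
  have mg : Measurable fun x : ℝ × ℂ => (bd ρ x.1, x.2) := by fun_prop
  have mex : Measurable ex := by unfold ex; fun_prop
  have mf : Measurable fun x : ℝ × ℂ => ENNReal.ofReal (cross (tanf ρ' (bd ρ x.1)) x.2) := by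
    have := h.meas
    have := Complex.measurable_arg
    have := h.cp.1.measurable
    unfold cross tanf
    fun_prop
  have h4 := ae_of_ae_map mg.aemeasurable hae
  rw [ae_withDensity_iff mf] at h4
  have h5 := (ae_restrict_iff' measurableSet_Ioc).1 (Measure.ae_ae_of_ae_prod h4)
  obtain ⟨c₀, h6⟩ := hap3b (fun t => c (bd ρ t)) δ (hc.comp mb) (fun t => by
    simp only [bd, h.cp.2 t, ap3_ex_add]
    rw [show ex (2 * π) = 1 by simp [ex], mul_one]) δ0 (by
    filter_upwards [h5] with t ht ht'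
    have a1 := ht ht'
    rw [← hrot (ex t) (ap3_norm t)] at a1
    have a2 := (ae_restrict_iff' measurableSet_Ioc).1
      (ae_of_ae_map mex.aemeasurable (ae_of_ae_map (by fun_prop) a1))
    have key : ∀ t', |t' - t - π| < δ → ∃ l : ℝ, 0 < l ∧
        bd ρ t' - bd ρ t = l * (ex t * ex (π + ((bd ρ t' - bd ρ t) / -bd ρ t).arg)) ∧
        tp (table ρ) (bd ρ t) (ex t * ex (π + ((bd ρ t' - bd ρ t) / -bd ρ t).arg)) = l := by
      intro t' b
      obtain ⟨b1, -, b2⟩ := hδ t t' b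
      have b3 := ap3_dir (y' := bd ρ t') (Real.exp_pos (ρ t)) (rfl : bd ρ t = _)
      have b4 : 0 ≤ Real.exp (ρ t) * ‖(bd ρ t' - bd ρ t) / -bd ρ t‖ := by positivity
      generalize Real.exp (ρ t) * ‖(bd ρ t' - bd ρ t) / -bd ρ t‖ = l at b3 b4
      generalize ex t * ex (π + ((bd ρ t' - bd ρ t) / -bd ρ t).arg) = v at b3
      have l0 : 0 < l := b4.lt_of_ne (by rintro rfl; simp [b3, cross] at b1)
      obtain ⟨-, -, -, c1, c2, -⟩ := tp1 (bd ρ t) v (by rintro rfl; simp [b3, cross] at b1)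
      refine ⟨l, l0, b3, le_antisymm (c2 l l0 ?_) (c1 l l0 fun s hs => ?_)⟩
      · rw [← b3, add_sub_cancel, bd, o3 _ _ (Real.exp_pos _).le]
        exact lt_irrefl _
      · have := b2 (s / l) ⟨div_pos hs.1 l0, (div_lt_one l0).2 hs.2⟩
        rwa [b3, ← mul_assoc, ← Complex.ofReal_mul, div_mul_cancel₀ _ l0.ne'] at this
    have a3 := ap3_null (f := fun t' => π + ((bd ρ t' - bd ρ t) / -bd ρ t).arg)
      (s := {t' | |t' - t - π| < δ} ∩ {t' | ex t' ∉ Z})
      (by have := Complex.measurable_arg; fun_prop)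
      ((measurableSet_lt (by fun_prop) measurable_const).inter (mex Z.measurableSet).compl)
      (fun s hs s' hs' e => by
        obtain ⟨l, -, b1, b2⟩ := key s hs.1
        obtain ⟨l', -, b1', b2'⟩ := key s' hs'.1
        dsimp only at e
        rw [e] at b1 b2
        rw [b2] at b2'
        have := abs_lt.1 (show |s - t - π| < δ from hs.1)
        have := abs_lt.1 (show |s' - t - π| < δ from hs'.1)
        exact ap3_inj (ρ := ρ) (by rw [b2', ← b1'] at b1; exact sub_left_injective b1)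
          (abs_lt.2 ⟨by linarith, by linarith⟩))
      (fun s hs => by
        obtain ⟨b1, b2, -⟩ := hδ t s hs.1
        have y0 : bd ρ t ≠ 0 := norm_pos_iff.1 (by rw [ap3_nbd]; exact Real.exp_pos _)
        have ne : bd ρ s - bd ρ t ≠ 0 := fun e => by simp [e, cross] at b1
        have sl : (bd ρ s - bd ρ t) / -bd ρ t ∈ Complex.slitPlane := by
          have e := div_mul_cancel₀ (bd ρ s - bd ρ t) (neg_ne_zero.2 y0)
          rw [(h2 t).1, ← e] at b1
          generalize (bd ρ s - bd ρ t) / -bd ρ t = w at *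
          by_contra b
          simp only [Complex.mem_slitPlane_iff, not_or, not_lt, not_not] at b
          simp [cross, b.2] at b1
          nlinarith [mul_nonneg (neg_nonneg.2 b.1)
            (add_nonneg (mul_self_nonneg (bd ρ t).re) (mul_self_nonneg (bd ρ t).im))]
        have d1 := ((((h2 s).2.2 hs.2).sub_const (bd ρ t)).div_const (-bd ρ t)).clog_real sl
        refine ⟨_, fun e => ?_, ((Complex.imCLM.hasFDerivAt.comp_hasDerivAt s d1).const_add
          π).congr_of_eventuallyEq (.of_forall fun x => by simp [Complex.log_im])⟩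
        rw [div_div_div_cancel_right₀ (neg_ne_zero.2 y0), Complex.imCLM_apply, Complex.div_im,
          ← sub_div, div_eq_zero_iff] at e
        rcases e with e | e
        · simp [cross] at b2 e
          linarith
        · exact ne (Complex.normSq_eq_zero.1 e)) a2
    filter_upwards [a3, (h3 (t - π) (t + 3 * π)).countable.ae_notMem volume] with s b1 b2 b3
    have := abs_lt.1 b3
    obtain ⟨l, l0, c1, c2⟩ := key s b3
    have c3 := b1 ⟨b3, fun b => b2 ⟨⟨by linarith, by linarith⟩, b⟩⟩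
      ⟨by linarith [Complex.neg_pi_lt_arg ((bd ρ s - bd ρ t) / -bd ρ t)],
        by linarith [Complex.arg_le_pi ((bd ρ s - bd ρ t) / -bd ρ t)]⟩ (by
      have := (hδ t s b3).1
      rw [c1] at this
      refine (ENNReal.ofReal_pos.2 ((mul_pos_iff_of_pos_left l0).1 (this.trans_eq ?_))).ne'
      simp [cross]
      ring)
    rwa [bT, c2, ← c1, add_sub_cancel] at c3)
  refine ⟨c₀, (ae_map_iff mg.aemeasurable
    (measurableSet_eq_fun (by fun_prop) measurable_const)).2 ?_⟩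
  exact (withDensity_absolutelyContinuous _ _).ae_le
    (Measure.quasiMeasurePreserving_fst.ae (ae_restrict_of_ae h6))

end Pool.Agent.P.MP_6b977f_mp.EB
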