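import Pool.Agent.P.MP_6b977f_mp.EB.IfE

/-! A periodic function that is locally almost constant is almost constant. -/

namespace Pool.Agent.P.MP_6b977f_mp.EB

open Real MeasureTheory Filter Topology Set Metric
open scoped ContDiff BoundedContinuousFunction ComplexConjugate Pointwise ENNReal

theorem ap3b_shift {p : ℝ → Prop} (h : ∀ᵐ x, p x) (c : ℝ) : ∀ᵐ x, p (x + c) :=
  (measurePreserving_add_right volume c).quasiMeasurePreserving.ae h

theorem ap3b_pt {p : ℝ → Prop} (h : ∀ᵐ x, p x) {x y r s w : ℝ} (h1 : |w - x| < r)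
    (h2 : |w - y| < s) : ∃ z, p z ∧ |z - x| < r ∧ |z - y| < s := by
  have ho : IsOpen ({z : ℝ | |z - x| < r} ∩ {z : ℝ | |z - y| < s}) :=
    (isOpen_lt (by fun_prop) continuous_const).inter (isOpen_lt (by fun_prop) continuous_const)
  obtain ⟨z, hz, hz'⟩ := (Measure.dense_of_ae h).exists_mem_open ho ⟨w, h1, h2⟩
  exact ⟨z, hz, hz'⟩

theorem t_ap3b : S_AP3B := by
  intro C δ _ hper hδ h
  have hG : ∀ᵐ φ, ∀ᵐ φ', |φ' - φ - π| < δ → C φ' = C φ := by
    have h1 := ae_all_iff.2 fun k : ℤ => ap3b_shift h (k * (2 * π))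
    filter_upwards [h1] with φ hφ
    obtain ⟨k, hk, -⟩ := existsUnique_add_zsmul_mem_Ioc two_pi_pos φ (-π)
    rw [zsmul_eq_mul, show -π + 2 * π = π by ring] at hk
    filter_upwards [ap3b_shift (hφ k hk) (k * (2 * π))] with φ' h2 h3
    have h4 := h2 (by rwa [show φ' + k * (2 * π) - (φ + k * (2 * π)) - π = φ' - φ - π by ring])
    rwa [hper.int_mul k, hper.int_mul k] at h4
  have base : ∀ x y : ℝ, (∀ᵐ φ', |φ' - x - π| < δ → C φ' = C x) →
      (∀ᵐ φ', |φ' - y - π| < δ → C φ' = C y) → |x - y| < δ → C x = C y := by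
    intro x y hx hy hxy
    obtain ⟨z, ⟨h1, h2⟩, h3, h4⟩ := ap3b_pt (hx.and hy) (x := x + π) (y := y + π) (r := δ)
      (s := δ) (w := x + π) (by simpa using hδ) (by rwa [add_sub_add_right_eq_sub])
    rw [← sub_sub] at h3 h4
    rw [← h1 h3, h2 h4]
  have chain : ∀ n : ℕ, ∀ x y : ℝ, (∀ᵐ φ', |φ' - x - π| < δ → C φ' = C x) →
      (∀ᵐ φ', |φ' - y - π| < δ → C φ' = C y) → |x - y| < (n + 1) * δ → C x = C y := by
    intro n
    induction n with
    | zero => intro x y hx hy hxy; exact base x y hx hy (by simpa using hxy)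
    | succ n ih =>
      intro x y hx hy hxy
      have hn : (0 : ℝ) < n + 2 := by positivity
      push_cast at hxy
      obtain ⟨z, hz, h1, h2⟩ := ap3b_pt hG (x := x) (y := y) (r := δ) (s := (n + 1) * δ)
        (w := x + (y - x) / (n + 2)) (by
          rw [add_sub_cancel_left, abs_div, abs_of_pos hn, div_lt_iff₀ hn, abs_sub_comm]
          linarith) (by
          rw [show x + (y - x) / (n + 2) - y = (x - y) * ((n + 1) / (n + 2)) by field_simp; ring,
            abs_mul, abs_of_pos (by positivity : (0 : ℝ) < (n + 1) / (n + 2)), ← mul_div_assoc,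
            div_lt_iff₀ hn]
          have : (0 : ℝ) < n + 1 := by positivity
          nlinarith)
      exact (base z x hz hx h1).symm.trans (ih z y hz hy h2)
  obtain ⟨x, hx⟩ := hG.exists
  refine ⟨C x, ?_⟩
  filter_upwards [hG] with y hy
  obtain ⟨n, hn⟩ := exists_nat_gt (|y - x| / δ)
  rw [div_lt_iff₀ hδ] at hn
  exact chain n y x hy hx (by nlinarith)

end Pool.Agent.P.MP_6b977f_mp.EB
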