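import Pool.Agent.P.MP_6b977f_mp.EB.IfE

/-! Invariant functions of the position are constant, in coordinates. -/

namespace Pool.Agent.P.MP_6b977f_mp.EB

open Real MeasureTheory Filter Topology Set Metric

theorem t_ap4 (hap3 : S_AP3) (hppw : S_PPW) (hpbm : S_PBM) (hbm : S_BM) : S_AP4 := by
  intro P ρ c T C hP hρ hT hC h
  obtain ⟨⟨Z, hZ⟩, -, κ, mκ, hκ⟩ := hppw P ρ c hP hρ
  obtain ⟨-, mio, hd, hb⟩ := hpbm P ρ c hP hρ
  have mT := (hbm.2 _ _ _ hZ).2.1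
  have e : ∀ᵐ x ∂P.mP, κ (P.io x).1 = (x.1, x.2.1) := hd.mono fun x hx => hκ _ hx.1 _ hx.2.1
  obtain ⟨c₀, hc⟩ := hap3 _ _ _ (fun y => C (κ y)) hZ (hC.comp mκ) (by
    rw [hb]
    refine (ae_map_iff mio.aemeasurable (measurableSet_eq_fun
      ((hC.comp mκ).comp mT.fst) ((hC.comp mκ).comp measurable_fst))).2 ?_
    filter_upwards [h, e, hT.1.quasiMeasurePreserving.ae e, hT.2] with x h1 h2 h3 h4
    show C (κ (bT ρ (deriv ρ) (P.io x)).1) = C (κ (P.io x).1)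
    rw [← h4, h2, h3, h1])
  rw [hb] at hc
  refine ⟨c₀, ?_⟩
  filter_upwards [ae_of_ae_map mio.aemeasurable hc, e] with x h1 h2
  rw [← h2, h1]

end Pool.Agent.P.MP_6b977f_mp.EB
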