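import Pool.Agent.P.MP_6b977f_mp.EB.IfE

/-! Measurable coboundaries may be replaced by continuous ones. -/

namespace Pool.Agent.P.MP_6b977f_mp.EB

open Real MeasureTheory Filter Topology Set Metric
open scoped ENNReal BoundedContinuousFunction

theorem t_apx (hinv : S_INV) (hbm : S_BM) : S_APX := by
  rintro ρ ρ' Z ψ ε hZ ⟨c, h, ⟨mh, M, hM⟩, hc⟩
  have := (hbm.2 _ _ _ hZ).1
  have hT := (hinv _ _ _ hZ).1
  obtain ⟨δ, h0, hδ⟩ := ENNReal.lt_iff_exists_add_pos_lt.1 hc
  have hi : Integrable h (bm ρ ρ') := Integrable.of_bound mh.aestronglyMeasurable M (ae_of_all _ hM)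
  have hd : (δ : ℝ≥0∞) / 2 ≠ 0 := by simpa using h0.ne'
  obtain ⟨g, hg, -⟩ := hi.exists_boundedContinuous_lintegral_sub_le hd
  have mD : Measurable fun x => ‖h x - g x‖ₑ := (mh.sub g.continuous.measurable).enorm
  refine ⟨c, g, lt_of_le_of_lt ?_ hδ⟩
  calc _ ≤ ∫⁻ x, (ENNReal.ofReal |chord (table ρ) (fun x => ψ x - c) x - (h (bT ρ ρ' x) - h x)| +
        (‖h (bT ρ ρ' x) - g (bT ρ ρ' x)‖ₑ + ‖h x - g x‖ₑ)) ∂bm ρ ρ' := by
        refine lintegral_mono fun x => ?_
        simp only [Real.enorm_eq_ofReal_abs]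
        rw [← ENNReal.ofReal_add (abs_nonneg _) (abs_nonneg _),
          ← ENNReal.ofReal_add (abs_nonneg _) (by positivity)]
        refine ENNReal.ofReal_le_ofReal (abs_le.2 ⟨?_, ?_⟩)
        · linarith [neg_abs_le (chord (table ρ) (fun x => ψ x - c) x - (h (bT ρ ρ' x) - h x)),
            neg_abs_le (h (bT ρ ρ' x) - g (bT ρ ρ' x)), le_abs_self (h x - g x)]
        · linarith [le_abs_self (chord (table ρ) (fun x => ψ x - c) x - (h (bT ρ ρ' x) - h x)),
            le_abs_self (h (bT ρ ρ' x) - g (bT ρ ρ' x)), neg_abs_le (h x - g x)]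
    _ ≤ _ := by
        have mE : Measurable fun x => ‖h (bT ρ ρ' x) - g (bT ρ ρ' x)‖ₑ + ‖h x - g x‖ₑ :=
          (mD.comp hT.measurable).add mD
        rw [lintegral_add_right _ mE, lintegral_add_right _ mD,
          hT.lintegral_comp mD]
        refine add_le_add le_rfl ((add_le_add hg hg).trans (ENNReal.add_halves _).le)

end Pool.Agent.P.MP_6b977f_mp.EB
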