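import Pool.Agent.P.MP_6b977f_mp.EB.IfE

/-! Averaging over the random shift of the grooves. -/

namespace Pool.Agent.P.MP_6b977f_mp.EB

open Real MeasureTheory Filter Topology Set Metric
open scoped ContDiff BoundedContinuousFunction ComplexConjugate Pointwise ENNReal

theorem avg_int {X : Type} [MeasurableSpace X] {μ : Measure X} [IsFiniteMeasure μ] {f : X → ℝ}
    {M : ℝ} (hf : Measurable f) (h : ∀ x, |f x| ≤ M) : Integrable f μ :=
  Integrable.of_bound hf.aestronglyMeasurable M (Eventually.of_forall h)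

theorem avg_mul {M a b : ℝ} (ha : |a| ≤ M) (hb : |b| ≤ 1) : |a * b| ≤ M := by
  rw [abs_mul]
  nlinarith [abs_nonneg a, abs_nonneg b]

theorem avg_Ioo (f : ℝ → ℝ) {a b : ℝ} (h : a ≤ b) : ∫ x in Ioo a b, f x = ∫ x in a..b, f x := by
  rw [intervalIntegral.integral_of_le h, integral_Ioc_eq_integral_Ioo]

theorem avg_shift {L M K δ : ℝ} {g χ : ℝ → ℝ} (hL : 0 < L) (hg : Measurable g)
    (hM : ∀ σ, |g σ| ≤ M) (h1 : ∀ σ, |χ σ| ≤ 1) (hχ : Measurable χ)
    (hK : ∀ σ σ', |χ σ - χ σ'| ≤ K * |σ - σ'|) :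
    |(∫ σ in Ioo 0 L, g (σ + δ) * χ σ) - ∫ σ in Ioo 0 L, g σ * χ σ| ≤
      M * (K * |δ|) * L + 2 * M * |δ| := by
  have ii : ∀ a b, IntervalIntegrable (fun σ => g σ * χ σ) volume a b := fun a b =>
    ⟨avg_int (hg.mul hχ) fun σ => avg_mul (hM σ) (h1 σ),
      avg_int (hg.mul hχ) fun σ => avg_mul (hM σ) (h1 σ)⟩
  have mg : Measurable fun σ => g (σ + δ) := hg.comp (measurable_add_const δ)
  have a1 : ‖∫ σ in Ioo 0 L, (g (σ + δ) * χ σ - g (σ + δ) * χ (σ + δ))‖ ≤
      M * (K * |δ|) * volume.real (Ioo 0 L) :=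
    norm_setIntegral_le_of_norm_le_const (by simp) fun σ _ => by
      have := hK σ (σ + δ)
      rw [sub_add_cancel_left, abs_neg] at this
      rw [← mul_sub, norm_mul]
      exact mul_le_mul (hM _) this (norm_nonneg _) ((abs_nonneg _).trans (hM 0))
  rw [integral_sub (f := fun σ => g (σ + δ) * χ σ) (g := fun σ => g (σ + δ) * χ (σ + δ))
    (avg_int (mg.mul hχ) fun σ => avg_mul (hM _) (h1 σ))
    (avg_int (mg.mul (hχ.comp (measurable_add_const δ))) fun σ => avg_mul (hM _) (h1 _)),
    Real.volume_real_Ioo_of_le hL.le, sub_zero, avg_Ioo (fun σ => g (σ + δ) * χ (σ + δ)) hL.le,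
    intervalIntegral.integral_comp_add_right (fun σ => g σ * χ σ), Real.norm_eq_abs] at a1
  have a2 := intervalIntegral.integral_interval_sub_interval_comm' (ii (0 + δ) (L + δ)) (ii 0 L)
    (ii _ _)
  have a3 : ∀ a, ‖∫ σ in a..a + δ, g σ * χ σ‖ ≤ M * |δ| := fun a => by
    simpa using intervalIntegral.norm_integral_le_of_norm_le_const (a := a) (b := a + δ) (C := M)
      (f := fun σ => g σ * χ σ) fun σ _ => avg_mul (hM σ) (h1 σ)
  have a4 := abs_le.1 (a3 0)
  have a5 := abs_le.1 (a3 L)
  rw [avg_Ioo (fun σ => g σ * χ σ) hL.le]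
  rw [abs_le] at a1 ⊢
  constructor <;> linarith [a1.1, a1.2]

theorem avg_fract (G : ℝ → ℝ) (y : ℝ) :
    ∫ u in Ioo (0 : ℝ) 1, G (Int.fract (y - u)) = ∫ x in Ioo (0 : ℝ) 1, G x := by
  have hp : Function.Periodic (fun t => G (Int.fract t)) 1 := fun t => by simp
  rw [avg_Ioo _ zero_le_one, intervalIntegral.integral_comp_sub_left fun t => G (Int.fract t)]
  have := hp.intervalIntegral_add_eq (y - 1) 0
  rw [sub_add_cancel, zero_add] at this
  rw [sub_zero, this, ← avg_Ioo _ zero_le_one]
  exact setIntegral_congr_fun measurableSet_Ioo fun x hx => by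
    simp only [Int.fract_eq_self.2 ⟨hx.1.le, hx.2⟩]

theorem avg_good {L : ℝ} {N : ℕ} (hL : 0 < L) (hN : 1 ≤ N) {σ u : ℝ} (hσ : σ ∈ Ioo 0 L)
    (h : σ ∉ ⋃ j ∈ Finset.range (N + 1), Icc (j * (L / N) - pd L N) (j * (L / N) + pd L N))
    (hu : u ∈ Ioo (0 : ℝ) 1) : 0 < cX L N u σ ∧ cX L N u σ < N := by
  have n0 : (0 : ℝ) < N := by exact_mod_cast hN
  have l0 : 0 < L / N := by positivity
  have p0 : 0 < pd L N := by unfold pd; positivity
  have pl : pd L N * (N + 1) = L / N := by unfold pd; field_simp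
  have a1 : (⌊σ / (L / N)⌋₊ : ℝ) ≤ σ / (L / N) := Nat.floor_le (div_pos hσ.1 l0).le
  have a2 := Nat.lt_floor_add_one (σ / (L / N))
  have a3 : ⌊σ / (L / N)⌋₊ < N := by
    rw [Nat.floor_lt (div_pos hσ.1 l0).le, div_lt_iff₀ l0, mul_div_cancel₀ _ n0.ne']
    exact hσ.2
  unfold cX
  generalize ⌊σ / (L / N)⌋₊ = j at a1 a2 a3
  rw [le_div_iff₀ l0] at a1
  rw [div_lt_iff₀ l0] at a2
  simp only [mem_iUnion, not_exists, Finset.mem_range, mem_Icc, not_and, not_le] at h
  have b1 := h j (by omega) (by linarith)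
  have b2 : σ < (j + 1) * (L / N) - pd L N := by
    by_contra c
    have := h (j + 1) (by omega) (by push_cast; linarith)
    push_cast at this
    linarith
  rw [sub_pos, sub_lt_iff_lt_add, lt_div_iff₀ p0, div_lt_iff₀ p0]
  constructor <;> nlinarith [hu.1, hu.2]

theorem t_avg : S_AVG := by
  classical
  intro L M K N g χ ξ W hL hN hg hM h1 hK hW hW1 hξ hξ1
  have n0 : (1 : ℝ) ≤ N := by exact_mod_cast hN
  have M0 : 0 ≤ M := (abs_nonneg _).trans (hM 0)
  have K0 : 0 ≤ K := by simpa using (abs_nonneg _).trans (hK 1 0)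
  have p0 : 0 < pd L N := by unfold pd; positivity
  have pl : pd L N * (N + 1) = L / N := by unfold pd; field_simp
  have hχ : Measurable χ := (LipschitzWith.of_dist_le' (K := K) hK).continuous.measurable
  let G : ℝ → ℝ → ℝ := fun x σ => if x ∈ W then g (σ + pd L N * (ξ x - x)) * χ σ else 0
  have mG : Measurable (Function.uncurry G) :=
    Measurable.ite (measurable_fst hW) ((hg.comp (by fun_prop)).mul (hχ.comp measurable_snd))
      measurable_const
  have bG : ∀ x σ, |G x σ| ≤ M := fun x σ => by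
    simp only [G]
    split_ifs
    · exact avg_mul (hM _) (h1 _)
    · simpa using M0
  have mX : Measurable fun y : ℝ × ℝ => cX L N y.1 y.2 := by
    have : Measurable fun y : ℝ × ℝ => (⌊y.2 / (L / N)⌋₊ : ℝ) :=
      (measurable_from_top (f := fun n : ℕ => (n : ℝ))).comp
        (Nat.measurable_floor.comp (by fun_prop))
    unfold cX
    fun_prop
  have mF : Measurable fun y : ℝ × ℝ => G (Int.fract (cX L N y.1 y.2)) y.2 :=
    mG.comp ((measurable_fract.comp mX).prodMk measurable_snd)
  let F : ℝ → ℝ → ℝ := fun u σ =>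
    if 0 < cX L N u σ ∧ cX L N u σ < N then G (Int.fract (cX L N u σ)) σ else 0
  have mF' : Measurable (Function.uncurry F) :=
    Measurable.ite ((measurableSet_lt measurable_const mX).inter
      (measurableSet_lt mX measurable_const)) mF measurable_const
  have bF : ∀ u σ, |F u σ| ≤ M := fun u σ => by
    simp only [F]
    split_ifs
    · exact bG _ _
    · simpa using M0
  have eF : ∀ u σ, (if InG L N u σ ∧ Int.fract (cX L N u σ) ∈ W then
      g (σ + pd L N * (ξ (Int.fract (cX L N u σ)) - Int.fract (cX L N u σ))) * χ σ else 0) =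
      F u σ := fun u σ => by
    simp only [F, G, InG]
    by_cases c : Int.fract (cX L N u σ) ∈ W
    · simp [c, (hW1 c).1.ne']
    · simp [c]
  simp only [eF]
  have iF : Integrable (Function.uncurry F)
      ((volume.restrict (Ioo (0 : ℝ) 1)).prod (volume.restrict (Ioo 0 L))) :=
    avg_int mF' fun y => bF _ _
  have iG : Integrable (Function.uncurry G)
      ((volume.restrict (Ioo (0 : ℝ) 1)).prod (volume.restrict (Ioo 0 L))) :=
    avg_int mG fun y => bG _ _
  set B := ⋃ j ∈ Finset.range (N + 1), Icc (j * (L / N) - pd L N) (j * (L / N) + pd L N) with hB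
  have mB : MeasurableSet B := Finset.measurableSet_biUnion _ fun _ _ => measurableSet_Icc
  have vB : (volume.restrict (Ioo 0 L)).real B ≤ 2 * (L / N) := by
    refine (measureReal_biUnion_finset_le _ _).trans ((Finset.sum_le_card_nsmul _ _ (2 * pd L N)
      fun j _ => ?_).trans ?_)
    · rw [measureReal_restrict_apply measurableSet_Icc]
      refine (measureReal_mono inter_subset_left (by simp)).trans ?_
      rw [Real.volume_real_Icc_of_le (by linarith)]
      linarith
    · simp only [Finset.card_range, nsmul_eq_mul]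
      push_cast
      linarith
  have a1 : ‖∫ σ in Ioo 0 L, ((∫ u in Ioo (0 : ℝ) 1, F u σ) - ∫ x in Ioo (0 : ℝ) 1, G x σ)‖ ≤
      ∫ σ in Ioo 0 L, B.indicator (fun _ => M) σ := by
    refine norm_integral_le_of_norm_le ((integrable_const M).indicator mB)
      ((ae_restrict_iff' measurableSet_Ioo).2 (Eventually.of_forall fun σ hσ => ?_))
    rw [← avg_fract (fun x => G x σ) ((σ - ⌊σ / (L / N)⌋₊ * (L / N)) / pd L N),
      ← integral_sub (f := fun u => F u σ) (g := fun u => G (Int.fract
        ((σ - ⌊σ / (L / N)⌋₊ * (L / N)) / pd L N - u)) σ) (avg_int (mF'.comp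
        measurable_prodMk_right) fun u => bF u σ)
        (avg_int (mF.comp measurable_prodMk_right) fun u => bG _ σ)]
    refine (norm_setIntegral_le_of_norm_le_const (C := B.indicator (fun _ => M) σ) (by simp)
      fun u hu => ?_).trans (by simp)
    show |F u σ - G (Int.fract (cX L N u σ)) σ| ≤ _
    by_cases c : σ ∈ B
    · rw [indicator_of_mem c]
      simp only [F]
      split_ifs
      · simpa using M0
      · simpa using bG _ _
    · simp [F, avg_good hL hN hσ c hu, c]
  rw [integral_indicator_const _ mB, integral_sub (f := fun σ => ∫ u in Ioo (0 : ℝ) 1, F u σ)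
    (g := fun σ => ∫ x in Ioo (0 : ℝ) 1, G x σ) iF.integral_prod_right iG.integral_prod_right,
    ← integral_integral_swap iF, ← integral_integral_swap iG, smul_eq_mul, Real.norm_eq_abs] at a1
  have a2 : ‖∫ x in Ioo (0 : ℝ) 1, ((∫ σ in Ioo 0 L, G x σ) -
      W.indicator (fun _ => ∫ σ in Ioo 0 L, g σ * χ σ) x)‖ ≤
      (M * (K * pd L N) * L + 2 * M * pd L N) * volume.real (Ioo (0 : ℝ) 1) := by
    refine norm_setIntegral_le_of_norm_le_const (by simp) fun x _ => ?_
    by_cases c : x ∈ W
    · simp only [G, c, if_true, indicator_of_mem c]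
      have b1 : |pd L N * (ξ x - x)| ≤ pd L N := by
        have b2 := hξ1 x c
        have b3 := hW1 c
        rw [abs_mul, abs_of_pos p0]
        exact mul_le_of_le_one_right p0.le (abs_le.2 ⟨by linarith [b2.1, b3.2],
          by linarith [b2.2, b3.1]⟩)
      refine (avg_shift hL hg hM h1 hχ hK).trans ?_
      gcongr
    · simp only [G, c, if_false, indicator_of_notMem c, integral_zero, sub_zero, norm_zero]
      positivity
  rw [integral_sub (f := fun x => ∫ σ in Ioo 0 L, G x σ) iG.integral_prod_left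
    ((integrable_const _).indicator hW),
    integral_indicator_const _ hW, measureReal_restrict_apply hW, inter_eq_left.2 hW1,
    smul_eq_mul, Real.norm_eq_abs] at a2
  simp only [Real.volume_real_Ioo, sub_zero, zero_le_one, sup_of_le_left, mul_one] at a2
  have a3 : 2 * pd L N ≤ L / N := by nlinarith
  have a4 : M * (K * pd L N) * L ≤ M * (K * (L / N)) * L := by gcongr; linarith
  have a5 : M * L * (3 + K * L) / N = 3 * (M * (L / N)) + M * (K * (L / N)) * L := by ring
  have a6 := mul_le_mul_of_nonneg_right vB M0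
  have a7 := mul_le_mul_of_nonneg_left a3 M0
  rw [abs_le] at a1 a2 ⊢
  constructor <;> linarith [a1.1, a1.2, a2.1, a2.2]

end Pool.Agent.P.MP_6b977f_mp.EB
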