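import Pool.Agent.P.MP_6b977f_mp.EB.IfB

/-! Characteristic functions of functions close to a bounded wave. -/

namespace Pool.Agent.P.MP_6b977f_mp.EB

open Real MeasureTheory Filter Topology Laplacian Set Metric
open scoped ContDiff BoundedContinuousFunction ComplexConjugate Pointwise ENNReal

noncomputable section

theorem bcf_small (C ε : ℝ) (hε : 0 < ε) : ∀ᶠ t in 𝓝[>] (0 : ℝ), t * C < ε := by
  have h : Tendsto (fun t : ℝ => t * C) (𝓝 0) (𝓝 (0 * C)) := tendsto_id.mul_const C
  rw [zero_mul] at h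
  exact (h.eventually_lt_const hε).filter_mono nhdsWithin_le_nhds

/-- Comparison of two averages. -/
theorem bcf_avg {E : Type} [NormedAddCommGroup E] [NormedSpace ℝ E] [CompleteSpace E]
    {A A' K : Set ℂ} {f g : ℂ → E} {M η t : ℝ} (hA : MeasurableSet A) (hA' : MeasurableSet A')
    (hK : MeasurableSet K) (h0 : 0 < volume A) (h1 : volume A < ⊤) (h0' : 0 < volume A')
    (h1' : volume A' < ⊤) (hKA : K ⊆ A) (hKA' : K ⊆ A') (hM : 0 ≤ M) (hη : 0 ≤ η)
    (hf : AEStronglyMeasurable f (volume.restrict A'))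
    (hg : AEStronglyMeasurable g (volume.restrict A)) (bf : ∀ z ∈ A', ‖f z‖ ≤ M)
    (bg : ∀ z ∈ A, ‖g z‖ ≤ M) (hfg : ∀ z ∈ K, ‖f z - g z‖ ≤ η)
    (m1 : volume.real (A \ K) ≤ t * volume.real A)
    (m2 : volume.real (A' \ K) ≤ t * volume.real A) :
    ‖(⨍ z in A', f z) - ⨍ z in A, g z‖ ≤ η + 3 * M * t := by
  have hV : 0 < volume.real A := ENNReal.toReal_pos h0.ne' h1.ne
  have hV' : 0 < volume.real A' := ENNReal.toReal_pos h0'.ne' h1'.ne
  have i1 : IntegrableOn f A' :=
    IntegrableOn.of_bound h1' hf M (ae_restrict_of_forall_mem hA' bf)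
  have i2 : IntegrableOn g A :=
    IntegrableOn.of_bound h1 hg M (ae_restrict_of_forall_mem hA bg)
  have e1 := setIntegral_sdiff hK i1 hKA'
  have e2 := setIntegral_sdiff hK i2 hKA
  have n1 := norm_setIntegral_le_of_norm_le_const (μ := volume) (s := A' \ K) (f := f)
    ((measure_mono sdiff_subset).trans_lt h1') fun z hz => bf z hz.1
  have n2 := norm_setIntegral_le_of_norm_le_const (μ := volume) (s := A \ K) (f := g)
    ((measure_mono sdiff_subset).trans_lt h1) fun z hz => bg z hz.1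
  have n3 := norm_setIntegral_le_of_norm_le_const (μ := volume) (s := K) (f := fun z => f z - g z)
    ((measure_mono hKA).trans_lt h1) hfg
  have n4 := norm_setIntegral_le_of_norm_le_const (μ := volume) (s := A') (f := f) h1' bf
  rw [integral_sub (i1.mono_set hKA') (i2.mono_set hKA)] at n3
  have v1 := measureReal_sdiff (μ := volume) hKA hK h1.ne
  have v2 := measureReal_sdiff (μ := volume) hKA' hK h1'.ne
  have v3 : volume.real K ≤ volume.real A := measureReal_mono hKA h1.ne
  have v4 : volume.real K ≤ volume.real A' := measureReal_mono hKA' h1'.ne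
  rw [setAverage_eq, setAverage_eq]
  generalize ∫ z in A', f z = I' at *
  generalize ∫ z in A, g z = I at *
  generalize volume.real A = V at *
  generalize volume.real A' = V' at *
  have d1 : ‖I' - I‖ ≤ η * V + 2 * (M * (t * V)) := by
    have : I' - I = ((∫ z in A' \ K, f z) - ∫ z in A \ K, g z) +
        ((∫ z in K, f z) - ∫ z in K, g z) := by rw [e1, e2]; abel
    rw [this]
    have a1 := norm_add_le ((∫ z in A' \ K, f z) - ∫ z in A \ K, g z)
      ((∫ z in K, f z) - ∫ z in K, g z)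
    have a2 := norm_sub_le (∫ z in A' \ K, f z) (∫ z in A \ K, g z)
    have a3 := mul_le_mul_of_nonneg_left m1 hM
    have a4 := mul_le_mul_of_nonneg_left m2 hM
    have a5 := mul_le_mul_of_nonneg_left v3 hη
    linarith
  have d2 : |V - V'| ≤ t * V := abs_le.2 ⟨by linarith, by linarith⟩
  have d3 : V'⁻¹ • I' - V⁻¹ • I = V⁻¹ • (((V - V') * V'⁻¹) • I' + (I' - I)) := by
    rw [smul_add, smul_smul, smul_sub, ← add_sub_assoc, ← add_smul]
    congr 2
    field_simp
    ring
  have d4 : ‖((V - V') * V'⁻¹) • I'‖ ≤ M * (t * V) := by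
    rw [norm_smul, Real.norm_eq_abs, abs_mul, abs_of_pos (inv_pos.2 hV'), mul_assoc, mul_comm M]
    refine mul_le_mul d2 ?_ (by positivity) ((abs_nonneg _).trans d2)
    rw [inv_mul_le_iff₀ hV']
    linarith
  rw [d3, norm_smul, Real.norm_eq_abs, abs_of_pos (inv_pos.2 hV), inv_mul_le_iff₀ hV]
  have := norm_add_le (((V - V') * V'⁻¹) • I') (I' - I)
  linarith

theorem bcf_exp (a b : ℝ) :
    ‖Complex.exp (Complex.I * a) - Complex.exp (Complex.I * b)‖ ≤ |a - b| := by
  have h : Complex.exp (Complex.I * a) - Complex.exp (Complex.I * b) =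
      Complex.exp (Complex.I * b) * (Complex.exp (Complex.I * (a - b : ℝ)) - 1) := by
    rw [mul_sub, ← Complex.exp_add]; congr 1
    · push_cast; ring_nf
    · simp
  rw [h, norm_mul, Complex.norm_exp_I_mul_ofReal, one_mul]
  exact Real.norm_exp_I_mul_ofReal_sub_one_le

theorem bcf_sqrt {a θ : ℝ} (h : |a - 1| ≤ θ) (hθ : θ ≤ 1 / 2) : |√a⁻¹ - 1| ≤ 2 * θ := by
  have h1 := abs_le.1 h
  have ha : 0 < a := by linarith
  have h2 := Real.sqrt_nonneg a⁻¹
  have h3 : √a⁻¹ ^ 2 * a = 1 := by rw [Real.sq_sqrt (inv_pos.2 ha).le, inv_mul_cancel₀ ha.ne']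
  generalize √a⁻¹ = N at *
  have h4 : (N - 1) * ((N + 1) * a) = 1 - a := by nlinarith
  have h5 : 1 / 2 ≤ (N + 1) * a := by nlinarith
  have h6 : |N - 1| * ((N + 1) * a) ≤ θ := by
    rw [← abs_of_pos (show 0 < (N + 1) * a by linarith), ← abs_mul, h4, abs_sub_comm]
    exact h
  have h7 := mul_le_mul_of_nonneg_left h5 (abs_nonneg (N - 1))
  linarith

theorem t_bcf (htab : S_TAB) (htab2 : S_TAB2) : S_BCF := by
  classical
  intro ρ τ B₀ ε hρ hε
  obtain ⟨ho, -, -, -, -, -, -, -, -, h0, h1⟩ := htab ρ hρ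
  obtain ⟨-, hsd, hcp⟩ := htab2 ρ hρ
  obtain ⟨B, hB, hB0⟩ : ∃ B, B₀ ≤ B ∧ 0 ≤ B := ⟨|B₀|, le_abs_self _, abs_nonneg _⟩
  obtain ⟨S, hS⟩ : ∃ S, S = ∑ x ∈ τ.support, |τ x| := ⟨_, rfl⟩
  have hS0 : 0 ≤ S := hS ▸ Finset.sum_nonneg fun _ _ => abs_nonneg _
  obtain ⟨C, hC⟩ : ∃ C, C = 2 * B + 2 + 3 * (B + 1) ^ 2 := ⟨_, rfl⟩
  have hC0 : 0 ≤ C := by rw [hC]; positivity
  obtain ⟨t, ⟨t1, t2, t3⟩, t0⟩ := (((bcf_small 1 1 one_pos).and ((bcf_small C (1 / 2)
    (by norm_num)).and (bcf_small (S * (2 * C * (B + 1) + 1) + 3) ε hε))).and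
    self_mem_nhdsWithin).exists
  replace t0 : 0 < t := t0
  have hV : 0 < volume.real (table ρ) := ENNReal.toReal_pos h0.ne' h1.ne
  have hm : 0 < ENNReal.ofReal (t * volume.real (table ρ) / 2) :=
    ENNReal.ofReal_pos.2 (by positivity)
  obtain ⟨K, hK1, hK2, hK3⟩ := ho.measurableSet.exists_isCompact_sdiff_lt h1.ne hm.ne'
  obtain ⟨δ₁, hδ₁, hd1⟩ := hsd _ hm
  obtain ⟨r, hr, hr1⟩ := hK2.exists_cthickening_subset_open ho hK1
  obtain ⟨δ₂, hδ₂, hd2⟩ := hcp _ (hK2.cthickening (r := r)) hr1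
  refine ⟨min t (min δ₁ δ₂), (∑ x ∈ τ.support, ‖x‖) / r + 1, by positivity, ?_⟩
  intro σ k F W hσ hσρ hk hF hW bW hFW hav
  have hsum : 0 ≤ ∑ x ∈ τ.support, ‖x‖ := Finset.sum_nonneg fun _ _ => norm_nonneg _
  have hk0 : 0 < k := lt_of_lt_of_le (by positivity) hk
  obtain ⟨ho', -, -, -, -, -, -, -, -, h0', h1'⟩ := htab σ hσ
  replace hd1 := hd1 σ hσ fun x => (hσρ x).trans ((min_le_right _ _).trans (min_le_left _ _))
  replace hd2 := hd2 σ fun x => (hσρ x).trans ((min_le_right _ _).trans (min_le_right _ _))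
  replace hFW : ∀ z ∈ table σ, |F z - W (k * z)| ≤ t :=
    fun z hz => (hFW z hz).trans (min_le_left _ _)
  replace hav := hav.trans (min_le_left _ _)
  replace bW : ∀ y, |W y| ≤ B := fun y => (bW y).trans hB
  have bF : ∀ z ∈ table σ, |F z| ≤ B + 1 := by
    intro z hz
    have := abs_le.1 (hFW z hz); have := abs_le.1 (bW (k * z))
    rw [abs_le]; constructor <;> linarith
  have hKσ : K ⊆ table σ := (self_subset_cthickening K).trans hd2
  have m0 := ENNReal.toReal_le_of_le_ofReal (by positivity) hK3.le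
  have m1 : volume.real (table ρ \ K) ≤ t * volume.real (table ρ) := by
    have : 0 < t * volume.real (table ρ) := by positivity
    rw [Measure.real]; linarith
  have m2 : volume.real (table σ \ K) ≤ t * volume.real (table ρ) := by
    have a1 := ENNReal.toReal_le_of_le_ofReal (by positivity) hd1.le
    have a2 : table σ \ K ⊆ symmDiff (table σ) (table ρ) ∪ (table ρ \ K) := by
      intro z hz
      by_cases h : z ∈ table ρ
      · exact Or.inr ⟨h, hz.2⟩
      · exact Or.inl (Or.inl ⟨hz.1, h⟩)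
    have a3 := measureReal_mono (μ := volume) a2 (measure_union_ne_top hd1.ne_top hK3.ne_top)
    have a4 := measureReal_union_le (μ := volume) (symmDiff (table σ) (table ρ)) (table ρ \ K)
    simp only [Measure.real] at *
    linarith
  have A1 := bcf_avg (f := fun z => F z ^ 2) (g := fun z => W (k * z) ^ 2) (M := (B + 1) ^ 2)
    (η := t * (2 * B + 1)) ho.measurableSet ho'.measurableSet hK2.measurableSet h0 h1 h0' h1' hK1
    hKσ (by positivity) (by positivity) ((hF.pow 2).aestronglyMeasurable ho'.measurableSet)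
    (Continuous.aestronglyMeasurable (by fun_prop))
    (fun z hz => by
      rw [norm_pow, Real.norm_eq_abs]
      exact pow_le_pow_left₀ (abs_nonneg _) (bF z hz) 2)
    (fun z _ => by
      rw [norm_pow, Real.norm_eq_abs]
      exact pow_le_pow_left₀ (abs_nonneg _) (by linarith [bW (k * z)]) 2)
    (fun z hz => by
      rw [Real.norm_eq_abs, sq_sub_sq, abs_mul, mul_comm]
      refine mul_le_mul (hFW z (hKσ hz)) ?_ (abs_nonneg _) t0.le
      linarith [abs_add_le (F z) (W (k * z)), bF z (hKσ hz), bW (k * z)]) m1 m2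
  have A2 : |(⨍ z in table σ, F z ^ 2) - 1| ≤ t * C := by
    have := abs_le.1 (Real.norm_eq_abs _ ▸ A1)
    have := abs_le.1 hav
    rw [hC, abs_le]; constructor <;> linarith
  have A3 := bcf_sqrt A2 t2.le
  have hV' : 0 < volume.real (table σ) := ENNReal.toReal_pos h0'.ne' h1'.ne
  have e1 : ∫ x, (table σ).indicator F x ^ 2 = volume.real (table σ) * ⨍ z in table σ, F z ^ 2 := by
    rw [setAverage_eq, smul_eq_mul, mul_inv_cancel_left₀ hV'.ne',
      ← integral_indicator ho'.measurableSet]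
    congr 1
    funext x
    by_cases hx : x ∈ table σ <;> simp [hx]
  have ha : 0 < ⨍ z in table σ, F z ^ 2 := by linarith [(abs_le.1 A2).1]
  refine ⟨by rw [e1]; positivity, ?_⟩
  have hI : Measurable ((table σ).indicator F) := by
    rw [← piecewise_eq_indicator]
    exact hF.measurable_piecewise continuousOn_const ho'.measurableSet
  unfold cf nrm
  rw [e1, div_mul_cancel_left₀ hV'.ne', Real.sqrt_sq hk0.le]
  generalize √(⨍ z in table σ, F z ^ 2)⁻¹ = N at A3
  refine lt_of_le_of_lt (bcf_avg (M := 1) (η := S * (2 * (t * C) * (B + 1) + t)) ho.measurableSet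
    ho'.measurableSet hK2.measurableSet h0 h1 h0' h1' hK1 hKσ zero_le_one (by positivity)
    (Measurable.aestronglyMeasurable ?_) (Continuous.aestronglyMeasurable ?_)
    (fun z _ => (Complex.norm_exp_I_mul_ofReal _).le)
    (fun z _ => (Complex.norm_exp_I_mul_ofReal _).le) (fun z hz => (bcf_exp _ _).trans ?_) m1 m2)
    (by linarith)
  · unfold Finsupp.sum
    fun_prop
  · unfold Finsupp.sum
    fun_prop
  · unfold Finsupp.sum
    rw [← Finset.sum_sub_distrib, hS, Finset.sum_mul]
    refine (Finset.abs_sum_le_sum_abs _ _).trans (Finset.sum_le_sum fun x hx => ?_)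
    rw [← mul_sub, abs_mul]
    refine mul_le_mul_of_nonneg_left ?_ (abs_nonneg _)
    have hz' : z + x / k ∈ table σ := by
      refine hd2 (mem_cthickening_of_dist_le _ z r K hz ?_)
      rw [dist_self_add_left, norm_div, Complex.norm_real, Real.norm_of_nonneg hk0.le,
        div_le_iff₀ hk0]
      have a1 := Finset.single_le_sum (f := fun x : ℂ => ‖x‖) (fun _ _ => norm_nonneg _) hx
      have a2 : (∑ x ∈ τ.support, ‖x‖) / r ≤ k := by linarith
      rw [div_le_iff₀ hr] at a2
      linarith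
    have a1 := hFW _ hz'
    have a2 : (k : ℂ) * (z + x / k) = k * z + x := by
      have : (k : ℂ) ≠ 0 := Complex.ofReal_ne_zero.2 hk0.ne'
      field_simp
    have a3 : |(N - 1) * F (z + x / k)| ≤ 2 * (t * C) * (B + 1) := by
      rw [abs_mul]
      exact mul_le_mul A3 (bF _ hz') (abs_nonneg _) (by positivity)
    rw [a2] at a1
    rw [indicator_of_mem hz']
    have a4 := abs_add_le ((N - 1) * F (z + x / k)) (F (z + x / k) - W (k * z + x))
    rw [show (N - 1) * F (z + x / k) + (F (z + x / k) - W (k * z + x)) =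
      N * F (z + x / k) - W (k * z + x) by ring] at a4
    linarith

end

end Pool.Agent.P.MP_6b977f_mp.EB
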