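import Pool.Agent.P.MP_6b977f_mp.EB.IfB

/-! The construction of part B: a table with an eigenfunction close to the random wave. -/

namespace Pool.Agent.P.MP_6b977f_mp.EB

open Real MeasureTheory Filter Topology Laplacian Set Metric
open scoped ContDiff BoundedContinuousFunction ComplexConjugate Pointwise ENNReal

noncomputable section

lemma bst_near_trans {a b : ℝ} {f g h : ℝ → ℝ} (h1 : Near a f g) (h2 : Near b g h) :
    Near (a + b) f h := by
  refine ⟨fun x => ?_, fun x y => ?_⟩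
  · have e : f x - h x = (f x - g x) + (g x - h x) := by ring
    rw [e]; exact (abs_add_le _ _).trans (add_le_add (h1.1 x) (h2.1 x))
  · have e : (f x - h x) - (f y - h y) =
        ((f x - g x) - (f y - g y)) + ((g x - h x) - (g y - h y)) := by ring
    rw [e, add_mul]; exact (abs_add_le _ _).trans (add_le_add (h1.2 x y) (h2.2 x y))

lemma bst_near_mono {a b : ℝ} {f g : ℝ → ℝ} (h : Near a f g) (hab : a ≤ b) : Near b f g :=
  ⟨fun x => (h.1 x).trans hab,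
    fun x y => (h.2 x y).trans (mul_le_mul_of_nonneg_right hab (abs_nonneg _))⟩

lemma bst_ok_mono {P : Poly} {c c' : ℝ} (h : P.Ok c) (h0 : 0 < c') (hc : c' ≤ c) : P.Ok c' :=
  ⟨h0, h.three, h.mono, h.per, h.close, h.unit, h.len, h.step, h.pol,
    fun s hs t ht => hc.trans (h.tr s hs t ht)⟩

lemma bst_fin (δ K : ℕ → ℝ) (hδ : ∀ i, 0 < δ i) (n : ℕ) :
    ∃ d L : ℝ, 0 < d ∧ ∀ i ≤ n, d ≤ δ i ∧ K i ≤ L := by
  induction n with
  | zero => exact ⟨δ 0, K 0, hδ 0, fun i hi => by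
      obtain rfl : i = 0 := by omega
      exact ⟨le_rfl, le_rfl⟩⟩
  | succ n ih =>
    obtain ⟨d, L, hd, h⟩ := ih
    refine ⟨min d (δ (n + 1)), max L (K (n + 1)), lt_min hd (hδ _), fun i hi => ?_⟩
    rcases Nat.lt_or_ge i (n + 1) with h1 | h1
    · exact ⟨(min_le_left _ _).trans (h i (by omega)).1,
        (h i (by omega)).2.trans (le_max_left _ _)⟩
    · obtain rfl : i = n + 1 := by omega
      exact ⟨min_le_right _ _, le_max_right _ _⟩

theorem t_bst (hins : S_INS) (hzig : S_ZIG) (hcfw : S_CFW) (hcfw2 : S_CFW2) (hwave : S_WAVE)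
    (hgeo1 : S_GEO1) (hgeo2 : S_GEO2) (hbcf : S_BCF) (hcore : S_CORE) (hdir : S_DIR)
    (hflatp : S_FLATP) (hwek : S_WEK) (hlad : S_LAD) (hpol0 : S_POL0) (htab : S_TAB) :
    S_BST := by
  intro p D n η hη
  obtain ⟨ε, hε, hεe⟩ : ∃ ε : ℝ, 0 < ε ∧ ε + ε = 1 / (n + 1) :=
    ⟨1 / (n + 1) / 2, by positivity, by ring⟩
  have hη3 : 0 < η / 3 := by positivity
  obtain ⟨P₀, ρ₀, c₁, hOk₀, hRho₀, hN₀, hBot₀⟩ := hins p (η / 3) hη3
  obtain ⟨q₀, hq₀⟩ := hzig P₀ ρ₀ c₁ (η / 3) hOk₀ hRho₀ hBot₀ hη3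
  obtain ⟨q₁, hq₁⟩ := hcfw D n ε hε
  obtain ⟨q, hqge, hq⟩ := Nat.exists_infinite_primes (q₀ + q₁ + 3)
  have hodd : Odd q := hq.odd_of_ne_two (by omega)
  obtain ⟨P, ρ, hOk₁, hRho, hN, hBot, hDir⟩ := hq₀ q (by omega)
  obtain ⟨ϑ, hϑ, hcf⟩ := hq₁ q (by omega) hq
  obtain ⟨B₀, c₀, hW⟩ := hwave q ϑ hodd hϑ
  obtain ⟨c, R, hc, hcle, hGeo⟩ := hgeo1 P ρ _ hOk₁ hRho hBot
  have hOk : P.Ok c := bst_ok_mono hOk₁ hc hcle
  choose δi Ki hδi hb using fun i => hbcf ρ (D i) B₀ ε hRho.1 hε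
  obtain ⟨δ, K₁, hδ, hδK⟩ := bst_fin δi Ki hδi n
  have hv0 := (htab ρ hRho.1).2.2.2.2.2.2.2.2.2.1
  have hv1 := (htab ρ hRho.1).2.2.2.2.2.2.2.2.2.2
  obtain ⟨K₂, hK₂⟩ := hcfw2 q ϑ δ (table ρ) hodd hϑ hδ hv0 hv1
  obtain ⟨K₃, hK₃⟩ := hcf (table ρ) hv0 hv1
  obtain ⟨N1, hN1⟩ := hcore q (4 * q) (Wv q ϑ) B₀ c₀ c (min (η / 3) δ) δ hW hc (lt_min hη3 hδ) hδ
  obtain ⟨N0, hN0⟩ := hdir q ϑ P.S (fun m => P.V m - P.V 0) N1
  obtain ⟨μ₀, hμ₀⟩ := hN1 (N0 + 1)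
  obtain ⟨μ, k, hμ, hk, hkμ, hper⟩ := hN0 (|K₁| + |K₂| + |K₃| + (n + 1)) (|μ₀| + |R| + 1)
  have p1 := abs_nonneg K₁
  have p2 := abs_nonneg K₂
  have p3 := abs_nonneg K₃
  have p4 := abs_nonneg μ₀
  have p5 := abs_nonneg R
  have p6 : (0 : ℝ) ≤ n := Nat.cast_nonneg n
  have k1 : K₁ ≤ k := by linarith [le_abs_self K₁]
  have k2 : K₂ ≤ k := by linarith [le_abs_self K₂]
  have k3 : K₃ ≤ k := by linarith [le_abs_self K₃]
  have k4 : (n : ℝ) + 1 ≤ k := by linarith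
  have k5 : 1 ≤ k := by linarith
  have k0 : 0 < k := by linarith
  have m1 : μ₀ ≤ μ := by linarith [le_abs_self μ₀]
  have m2 : R ≤ μ := by linarith [le_abs_self R]
  have m0 : 0 ≤ μ := by linarith
  obtain ⟨hOkk, hRhok⟩ := (hpol0 P c hOk).2.2.2 k k0
  obtain ⟨σk, O, u, hσk, hNk, hsec, hO, hcl, hL, hfr, hclose⟩ := hμ₀ μ m1 (k * R) (P.sc k)
    (fun t => ρ t + Real.log k) hOkk (hRhok ρ hRho)
    ⟨hBot.1, fun s h2 hs => by
      have := hBot.2 s h2 hs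
      simp only [Poly.sc, Complex.im_ofReal_mul]
      exact mul_lt_mul_of_pos_left this k0⟩
    hDir (hgeo2 P ρ c R k hRho.1 hc hGeo k5)
    (by
      rw [pow_succ]
      exact (mul_le_mul_of_nonneg_left m2 k0.le).trans (mul_le_mul_of_nonneg_right hkμ m0))
    (fun m hm j y => by
      have := hper m hm j (y - k * P.V m)
      have e : y - k * P.V m + k * (P.V m - P.V 0) = y - k * P.V 0 := by ring
      rw [e] at this
      exact this)
  obtain ⟨σ, hσe⟩ : ∃ σ : ℝ → ℝ, ∀ t, σ t = σk t - Real.log k := ⟨_, fun _ => rfl⟩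
  have hσ : CP σ := by
    have e : σ = fun t => σk t - Real.log k := funext hσe
    rw [e]
    exact ⟨hσk.1.sub continuous_const, fun t => by simp only [hσk.2 t]⟩
  have hexp : ∀ t, Real.exp (σk t) = k * Real.exp (σ t) := fun t => by
    rw [hσe, Real.exp_sub, Real.exp_log k0]; field_simp
  have hnk : ∀ z : ℂ, ‖(k : ℂ) * z‖ = k * ‖z‖ := fun z => by
    rw [norm_mul, Complex.norm_real, Real.norm_eq_abs, abs_of_pos k0]
  have hin : ∀ z ∈ table σ, (k : ℂ) * z ∈ table σk := fun z hz => by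
    have hz' : ‖z‖ < Real.exp (σ z.arg) := hz
    show ‖(k : ℂ) * z‖ < Real.exp (σk ((k : ℂ) * z).arg)
    rw [Complex.arg_real_mul z k0, hnk, hexp]
    exact mul_lt_mul_of_pos_left hz' k0
  have hcl' : closure (table σ) ⊆ {z | (k : ℂ) * z ∈ O} := fun z hz => by
    rw [(htab σ hσ).2.2.2.2.2.1] at hz
    have hz' : ‖z‖ ≤ Real.exp (σ z.arg) := hz
    apply hcl
    rw [(htab σk hσk).2.2.2.2.2.1]
    show ‖(k : ℂ) * z‖ ≤ Real.exp (σk ((k : ℂ) * z).arg)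
    rw [Complex.arg_real_mul z k0, hnk, hexp]
    exact mul_le_mul_of_nonneg_left hz' k0.le
  have hfr' : ∀ z ∈ frontier (table σ), (u 0 (k * z)).re = 0 := fun z hz => by
    rw [(htab σ hσ).2.2.2.2.1] at hz
    obtain ⟨t, rfl⟩ := hz
    rw [hfr _ (by
      rw [(htab σk hσk).2.2.2.2.1]
      refine ⟨t, ?_⟩
      unfold bd
      rw [hexp, Complex.ofReal_mul, mul_assoc]), Complex.zero_re]
  have hO' : IsOpen {z : ℂ | (k : ℂ) * z ∈ O} := hO.preimage (continuous_const.mul continuous_id)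
  have hSol := (hlad.1 O u hO hL).2 k k0
  have hNσ : Near (min (η / 3) δ) σ ρ := by
    have e : ∀ t, σ t - ρ t = σk t - (ρ t + Real.log k) := fun t => by rw [hσe]; ring
    exact ⟨fun x => by rw [e]; exact hNk.1 x, fun x y => by rw [e, e]; exact hNk.2 x y⟩
  obtain ⟨z₀, r, hflat⟩ := hflatp P ρ σ c hOk hRho hBot.1 hσ (fun t ht => by
    have := hsec t ht
    rw [hσe, this]; ring)
  have hWc : Continuous fun y : ℂ => (Wv q ϑ 0 (y - k * P.V 0)).re := by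
    have h1 : Continuous (Wv q ϑ 0) :=
      continuousOn_univ.mp ((hlad.1 univ _ isOpen_univ hW.lad).1 0).continuousOn
    exact Complex.continuous_re.comp (h1.comp (continuous_id.sub continuous_const))
  have hB := fun i (hi : i ≤ n) => hb i σ k (fun z => (u 0 (k * z)).re)
    (fun y => (Wv q ϑ 0 (y - k * P.V 0)).re) hσ
    (fun t => (hNσ.1 t).trans ((min_le_right _ _).trans (hδK i hi).1)) ((hδK i hi).2.trans k1)
    (hSol.1.continuousOn.mono (subset_closure.trans hcl')) hWc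
    (fun y => (Complex.abs_re_le_norm _).trans (hW.bdd _ _))
    (fun z hz => by
      have h1 := hclose _ (hin z hz)
      rw [← Complex.sub_re]
      exact (Complex.abs_re_le_norm _).trans (h1.trans (hδK i hi).1))
    ((hK₂ k k2 (k * P.V 0)).le.trans (hδK i hi).1)
  refine ⟨σ, z₀, r, k ^ 2, _, _, hσ, ?_, hflat, by nlinarith,
    hwek (table σ) _ (k ^ 2) _ (htab σ hσ).1 (htab σ hσ).2.1 hO' hcl' hSol hfr',
    (hB 0 (Nat.zero_le n)).1, fun i hi => ?_⟩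
  · refine bst_near_mono (bst_near_trans (bst_near_trans hNσ hN) hN₀) ?_
    linarith [min_le_left (η / 3) δ]
  · have h1 := (hB i hi).2
    have h2 := hK₃ k k3 (k * P.V 0) i hi
    rw [← hεe]
    exact lt_of_le_of_lt (norm_sub_le_norm_sub_add_norm_sub _ _ _) (add_lt_add h1 h2)

end

end Pool.Agent.P.MP_6b977f_mp.EB
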