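import Pool.Agent.P.MP_6b977f_mp.EB.IfB

/-! Choice of the centres. -/

namespace Pool.Agent.P.MP_6b977f_mp.EB

open Real MeasureTheory Filter Topology Laplacian Set Metric
open scoped ContDiff BoundedContinuousFunction ComplexConjugate Pointwise ENNReal

noncomputable section

theorem cen_vert {P : Poly} {c : ℝ} (h : P.Ok c) {m : ℕ} (hm : m < P.S) :
    ∃ s, 1 ≤ s ∧ s < P.S ∧ P.V m ∈ P.side s := by
  rcases Nat.eq_zero_or_pos m with rfl | h0
  · have h3 := h.three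
    have h1 : P.S - 1 < P.S := by omega
    refine ⟨P.S - 1, by omega, h1, P.L (P.S - 1), ⟨(h.len _ h1).le, le_rfl⟩, ?_⟩
    rw [← h.step _ h1, Nat.sub_add_cancel (by omega), h.close]
  · exact ⟨m, h0, hm, 0, ⟨le_rfl, (h.len _ hm).le⟩, by simp⟩

theorem cen_two {P : Poly} {s : ℕ} {x p : ℂ} (hx : x ∈ P.side s) (hp : p ∈ P.side s) :
    ∃ τ : ℝ, x = p + τ * P.e s := by
  obtain ⟨a, -, rfl⟩ := hx
  obtain ⟨b, -, rfl⟩ := hp
  exact ⟨a - b, by push_cast; ring⟩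

theorem t_cen (hnewt : S_NEWT) (hsel : S_SEL) : S_CEN := by
  classical
  intro q J W B₀ c₀ c μ R P ρ hW hP hG hμ
  have hc := hP.c_pos
  have hc4 := hG.c_le
  have hcμ : 1 ≤ c * μ := by
    have := mul_le_mul_of_nonneg_left hμ hc.le
    rwa [mul_inv_cancel₀ hc.ne'] at this
  have hμ0 : 0 < μ := (inv_pos.2 hc).trans_le hμ
  have hμ1 : 1 ≤ μ := by nlinarith
  have h3 := hP.three
  set X : Set ℂ := {x | ∃ s, 1 ≤ s ∧ s < P.S ∧ x ∈ P.side s} with hX
  set V : Finset ℂ := (Finset.range P.S).image P.V with hV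
  have memV : ∀ x, x ∈ V ↔ ∃ m < P.S, P.V m = x := by
    intro x; simp [hV]
  have hb : ∀ x : ℂ, ∃ b < P.S, (x ∈ V → P.V b = x) ∧ (x ∈ X → x ∉ V → x ∈ P.side b) := by
    intro x
    by_cases h1 : x ∈ V
    · obtain ⟨m, hm, e⟩ := (memV x).1 h1
      exact ⟨m, hm, fun _ => e, fun _ h => absurd h1 h⟩
    · by_cases h2 : x ∈ X
      · obtain ⟨s, -, hs, e⟩ := h2
        exact ⟨s, hs, fun h => absurd h h1, fun _ _ => e⟩
      · exact ⟨0, by omega, fun h => absurd h h1, fun h => absurd h h2⟩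
  choose b hbS hbV hbX using hb
  have hl : ∀ x : ℂ, ∃ l ∈ Icc ((if x ∈ V then 0 else J) + 1) ((if x ∈ V then 0 else J) + J),
      ∃ M ∈ Icc 1 J, Dom (fun j => ‖W j (x - P.V (b x))‖) J M (μ ^ (4 * l + 2))⁻¹ μ c₀ :=
    fun x => hnewt _ J _ μ c₀ (fun j => norm_nonneg _) hμ1 hW.c_pos.le (hW.low _)
  choose l hl M hM hD using hl
  have hl1 : ∀ x, 1 ≤ l x ∧ l x ≤ 2 * J := by
    intro x
    have := hl x
    simp only [mem_Icc] at this
    split_ifs at this <;> omega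
  have hl2 : ∀ x, x ∉ V → ∀ v ∈ V, l v + 1 ≤ l x := by
    intro x hx v hv
    have h1 := hl x
    have h2 := hl v
    simp only [mem_Icc, if_neg hx, if_pos hv] at h1 h2
    omega
  set r : ℂ → ℝ := fun x => (μ ^ (4 * l x + 2))⁻¹ with hr
  have anti : ∀ a a' : ℕ, a ≤ a' → (μ ^ a')⁻¹ ≤ (μ ^ a)⁻¹ := fun a a' h =>
    inv_anti₀ (by positivity) (pow_le_pow_right₀ hμ1 h)
  have r0 : ∀ x, 0 < r x := fun x => by simp only [hr]; positivity
  have rlo : ∀ x, (μ ^ (8 * J + 2))⁻¹ ≤ r x := fun x => anti _ _ (by have := hl1 x; omega)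
  have rhi : ∀ x, r x ≤ (μ ^ 6)⁻¹ := fun x => anti _ _ (by have := hl1 x; omega)
  have rc : ∀ x, μ * r x ≤ c := by
    intro x
    have h1 : r x ≤ (μ ^ 2)⁻¹ := (rhi x).trans (anti _ _ (by omega))
    have h2 : μ * (μ ^ 2)⁻¹ = μ⁻¹ := by field_simp
    have h4 : μ⁻¹ ≤ c := by rw [inv_le_comm₀ hμ0 hc]; exact hμ
    nlinarith
  have rv : ∀ x, x ∉ V → ∀ v ∈ V, μ * r x ≤ r v := by
    intro x hx v hv
    have h1 : r x ≤ (μ ^ (4 * l v + 2 + 1))⁻¹ := anti _ _ (by have := hl2 x hx v hv; omega)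
    have h2 : μ * (μ ^ (4 * l v + 2 + 1))⁻¹ = r v := by simp only [hr]; field_simp; ring
    nlinarith
  have hVX : (↑V : Set ℂ) ⊆ X := by
    intro x hx
    obtain ⟨m, hm, rfl⟩ := (memV x).1 hx
    exact cen_vert hP hm
  have hR : 0 ≤ R := by
    obtain ⟨s, -, hs, h⟩ := cen_vert hP (show 0 < P.S by omega)
    exact (norm_nonneg _).trans (hG.g7 s hs _ h).2
  obtain ⟨Z, hVZ, hZX, hsep, hcov, hcard⟩ := hsel X (fun x => μ * r x) (μ ^ (8 * J + 2))⁻¹ R V
    (by positivity) hR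
    (by
      rintro x ⟨s, -, hs, h⟩
      rw [mem_closedBall_zero_iff]
      exact (hG.g7 s hs _ h).2)
    (fun x _ => by have := rlo x; have := r0 x; nlinarith)
    (by
      refine ((Set.finite_Icc 1 (2 * J)).image fun a : ℕ => μ * (μ ^ (4 * a + 2))⁻¹).subset ?_
      rintro _ ⟨x, -, rfl⟩
      exact ⟨l x, hl1 x, rfl⟩)
    hVX
    (by
      intro v hv v' hv' hne
      obtain ⟨m, hm, rfl⟩ := (memV v).1 hv
      obtain ⟨m', hm', rfl⟩ := (memV v').1 hv'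
      exact (rc _).trans (hG.g3 m hm m' hm' fun e => hne (by rw [e])))
    (fun x _ hx v hv => by
      have := rv x hx v hv; have := r0 x; have := r0 v; nlinarith)
  have hvZ : ∀ m < P.S, P.V m ∈ Z := fun m hm => hVZ ((memV _).2 ⟨m, hm, rfl⟩)
  refine ⟨Z, r, M, b, fun p hp => hZX hp, hvZ, fun p _ => ⟨rlo p, rhi p⟩,
    fun p _ => ⟨hM p, hbS p, hD p⟩, hsep, fun s h1 hs x hx => hcov x ⟨s, h1, hs, hx⟩, ?_, ?_, ?_⟩
  · intro p hp s h1 hs x hx hlt
    have hlc : ‖x - p‖ < c := hlt.trans_le (rc p)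
    by_cases hpV : p ∈ V
    · have e := hbV p hpV
      rcases hG.g2 (b p) (hbS p) s hs x hx with h | h
      · rw [e] at h
        obtain ⟨τ, hτ⟩ := cen_two hx h
        exact ⟨τ, 0, hτ, by simp [e]⟩
      · rw [e] at h; exact absurd hlc (not_lt.2 h)
    · have e := hbX p (hZX hp) hpV
      by_cases hs' : b p = s
      · rw [hs'] at e ⊢
        obtain ⟨τ, hτ⟩ := cen_two hx e
        obtain ⟨τ', -, hτ'⟩ := e
        exact ⟨τ, τ', hτ, hτ'⟩
      · exfalso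
        rcases hG.g1 (b p) (hbS p) s hs hs' p e x hx with h | ⟨m, hm, h⟩
        · rw [norm_sub_rev] at h; exact absurd hlc (not_lt.2 h)
        · have hmV : P.V m ∈ V := (memV _).2 ⟨m, hm, rfl⟩
          have h4 := hsep _ (hvZ m hm) p hp fun e' => hpV (e' ▸ hmV)
          have h5 := rv p hpV _ hmV
          rw [norm_sub_rev p x] at h
          rw [norm_sub_rev] at h4
          have h6 := r0 (P.V m)
          have h7 : c * (μ * r (P.V m)) ≤ c * ‖p - P.V m‖ := mul_le_mul_of_nonneg_left h4 hc.le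
          nlinarith
  · intro p hp h0 h1
    obtain ⟨s, hs1, hs, hx⟩ := hZX hp
    have h4 := hG.g5 s hs1 hs p hx
    have h5 := hsep p hp _ (hvZ 0 (by omega)) h0
    have h6 := hsep p hp _ (hvZ 1 (by omega)) h1
    have h7 : μ * r p ≤ min 1 (min ‖p - P.V 0‖ ‖p - P.V 1‖) :=
      le_min ((rc p).trans (by linarith)) (le_min h5 h6)
    have h8 : 0 < μ * r p := mul_pos hμ0 (r0 p)
    have h9 : c * (μ * r p) ≤ p.im - (P.V 0).im :=
      (mul_le_mul_of_nonneg_left h7 hc.le).trans h4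
    have h10 : c * (c * (μ * r p)) ≤ c * (μ * r p) := by
      have : 0 < c * (μ * r p) := mul_pos hc h8
      nlinarith
    calc c ^ 2 * μ * r p = c * (c * (μ * r p)) := by ring
      _ ≤ _ := h10.trans h9
  · rwa [div_inv_eq_mul] at hcard

end

end Pool.Agent.P.MP_6b977f_mp.EB
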