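import Pool.Agent.P.MP_6b977f_mp.EB.IfB

/-! The characteristic function of the wave is close to that of the random wave. -/

namespace Pool.Agent.P.MP_6b977f_mp.EB

open Real MeasureTheory Filter Topology Laplacian Set Metric
open scoped ContDiff BoundedContinuousFunction ComplexConjugate Pointwise ENNReal

noncomputable section

/-- The contribution of one plane wave to the phase. -/
def cfw_a (τ : ℂ →₀ ℝ) (a : ℝ) (ξ : ℂ) (t : ℝ) : ℝ :=
  a * τ.sum fun x s => s * cos (t + (conj ξ * x).re)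

lemma cfw_pw (ξ y : ℂ) : pw ξ 0 y = (cos (conj ξ * y).re : ℝ) := by
  unfold pw
  rw [Complex.ofReal_cos, Complex.cos]
  simp only [zpow_zero, one_mul]
  congr 2
  · congr 1; ring
  · congr 1; ring

lemma cfw_re (q : ℕ) (ϑ : ℝ) (y : ℂ) : (Wv q ϑ 0 y).re = (√q)⁻¹ * ∑ m ∈ Finset.range q,
    (cos (conj (ex (2 * π * m / q + ϑ)) * y).re - cos (conj (ex (2 * π * m / q - ϑ)) * y).re) := by
  unfold Wv
  simp only [cfw_pw]
  rw [← Complex.ofReal_inv, Complex.re_ofReal_mul, Complex.re_sum]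
  simp only [Complex.sub_re, Complex.ofReal_re]

lemma cfw_sum (τ : ℂ →₀ ℝ) (q : ℕ) (ϑ k : ℝ) (z b : ℂ) :
    (τ.sum fun x s => s * (Wv q ϑ 0 (k * z + x - b)).re) = ∑ m ∈ Finset.range q,
      (cfw_a τ (√q)⁻¹ (ex (2 * π * m / q + ϑ)) (-(conj (ex (2 * π * m / q + ϑ)) * b).re +
          k * (conj (ex (2 * π * m / q + ϑ)) * z).re) +
        cfw_a τ (-(√q)⁻¹) (ex (2 * π * m / q - ϑ)) (-(conj (ex (2 * π * m / q - ϑ)) * b).re +
          k * (conj (ex (2 * π * m / q - ϑ)) * z).re)) := by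
  have e : ∀ ξ x : ℂ, (conj ξ * (k * z + x - b)).re =
      -(conj ξ * b).re + k * (conj ξ * z).re + (conj ξ * x).re := fun ξ x => by
    have : conj ξ * (k * z + x - b) = -(conj ξ * b) + k * (conj ξ * z) + conj ξ * x := by ring
    rw [this, Complex.add_re, Complex.add_re, Complex.neg_re, Complex.re_ofReal_mul]
  simp only [cfw_re, e, cfw_a, Finsupp.sum, Finset.mul_sum, ← Finset.sum_add_distrib]
  rw [Finset.sum_comm]
  refine Finset.sum_congr rfl fun m _ => Finset.sum_congr rfl fun x _ => ?_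
  ring

lemma cfw_abs (τ : ℂ →₀ ℝ) (a : ℝ) (ξ : ℂ) (t : ℝ) :
    |cfw_a τ a ξ t| ≤ |a| * ∑ x ∈ τ.support, |τ x| := by
  unfold cfw_a
  rw [abs_mul]
  refine mul_le_mul_of_nonneg_left ?_ (abs_nonneg _)
  refine (Finset.abs_sum_le_sum_abs _ _).trans (Finset.sum_le_sum fun x _ => ?_)
  rw [abs_mul]
  exact mul_le_of_le_one_right (abs_nonneg _) (abs_cos_le_one _)

lemma cfw_cont (τ : ℂ →₀ ℝ) (a : ℝ) (ξ : ℂ) : Continuous (cfw_a τ a ξ) := by
  unfold cfw_a Finsupp.sum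
  fun_prop

lemma cfw_per (τ : ℂ →₀ ℝ) (a : ℝ) (ξ : ℂ) : Function.Periodic (cfw_a τ a ξ) (2 * π) := by
  intro t
  unfold cfw_a
  simp only [add_right_comm t (2 * π), cos_add_two_pi]

lemma cfw_exp (a c : ℝ) :
    ‖Complex.exp (Complex.I * ((a + c : ℝ) : ℂ)) - Complex.exp (Complex.I * c)‖ ≤ |a| := by
  have e : Complex.exp (Complex.I * ((a + c : ℝ) : ℂ)) - Complex.exp (Complex.I * c) =
      Complex.exp (Complex.I * c) * (Complex.exp (Complex.I * a) - 1) := by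
    rw [Complex.ofReal_add, mul_add, Complex.exp_add]; ring
  rw [e, norm_mul, Complex.norm_exp_I_mul_ofReal, one_mul]
  exact Real.norm_exp_I_mul_ofReal_sub_one_le

lemma cfw_avg {Ω : Set ℂ} (h0 : 0 < volume Ω) (h1 : volume Ω < ⊤) (f g : ℂ → ℝ)
    (hf : Continuous f) (hg : Continuous g) (C : ℝ) (hC : ∀ z, |f z| ≤ C) :
    ‖(⨍ z in Ω, Complex.exp (Complex.I * ((f z + g z : ℝ) : ℂ))) -
      ⨍ z in Ω, Complex.exp (Complex.I * (g z : ℝ))‖ ≤ C := by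
  have hI : ∀ h : ℂ → ℝ, Continuous h →
      IntegrableOn (fun z => Complex.exp (Complex.I * (h z : ℝ))) Ω := fun h hh =>
    Measure.integrableOn_of_bounded (M := 1) h1.ne (Continuous.aestronglyMeasurable (by fun_prop))
      (Eventually.of_forall fun z => (Complex.norm_exp_I_mul_ofReal _).le)
  have hr : 0 < volume.real Ω := ENNReal.toReal_pos h0.ne' h1.ne
  rw [setAverage_eq, setAverage_eq, ← smul_sub,
    ← integral_sub (hI (fun z => f z + g z) (hf.add hg)) (hI _ hg), norm_smul, norm_inv, Real.norm_eq_abs, abs_of_pos hr, inv_mul_le_iff₀ hr, mul_comm]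
  exact norm_setIntegral_le_of_norm_le_const h1 fun z _ => (cfw_exp _ _).trans (hC z)

lemma cfw_fin (K : ℕ → ℝ) (n : ℕ) : ∃ L : ℝ, ∀ i ≤ n, K i ≤ L :=
  ⟨∑ i ∈ Finset.range (n + 1), |K i|, fun i hi => (le_abs_self _).trans
    (Finset.single_le_sum (f := fun i => |K i|) (fun _ _ => abs_nonneg _)
      (Finset.mem_range.2 (by omega)))⟩

theorem t_cfw (heq : S_EQ) (hgen : S_GEN) (hrs : S_RS) : S_CFW := by
  intro D n ε hε
  have hε3 : 0 < ε / 3 := by positivity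
  choose qi hqi using fun i => hrs (D i) (ε / 3) hε3
  obtain ⟨L₁, hL₁⟩ := cfw_fin (fun i => qi i) n
  obtain ⟨T, hT⟩ := cfw_fin (fun i => ∑ x ∈ (D i).support, |D i x|) n
  obtain ⟨q₀, hq₀⟩ := exists_nat_ge (|L₁| + (6 * T / ε) ^ 2)
  refine ⟨q₀, fun q hq hp => ?_⟩
  obtain ⟨ϑ, hϑ, hind⟩ := hgen q hp
  refine ⟨ϑ, hϑ, fun Ω h0 h1 => ?_⟩
  have hqq : (q₀ : ℝ) ≤ q := by exact_mod_cast hq
  have hq0 : 0 < q := hp.pos
  have hsq : 0 < √(q : ℝ) := Real.sqrt_pos.2 (by exact_mod_cast hq0)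
  have hTq : (√(q : ℝ))⁻¹ * T + (√(q : ℝ))⁻¹ * T ≤ ε / 3 := by
    have h2 : 6 * T / ε ≤ √(q : ℝ) := Real.le_sqrt_of_sq_le (by linarith [abs_nonneg L₁])
    rw [div_le_iff₀ hε] at h2
    rw [← mul_add, inv_mul_le_iff₀ hsq]
    linarith
  obtain ⟨ν, hν1, hν2⟩ : ∃ ν : ↥(Finset.Ico 1 q) × Bool → ℂ,
      (∀ m, ν (m, true) = ex (2 * π * (m : ℕ) / q + ϑ)) ∧
      ∀ m, ν (m, false) = ex (2 * π * (m : ℕ) / q - ϑ) :=
    ⟨fun i => if i.2 then ex (2 * π * (i.1 : ℕ) / q + ϑ) else ex (2 * π * (i.1 : ℕ) / q - ϑ),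
      fun _ => rfl, fun _ => rfl⟩
  obtain ⟨α, hα1, hα2⟩ : ∃ α : ↥(Finset.Ico 1 q) × Bool → ℝ,
      (∀ m, α (m, true) = (√q)⁻¹) ∧ ∀ m, α (m, false) = -(√q)⁻¹ :=
    ⟨fun i => if i.2 then (√q)⁻¹ else -(√q)⁻¹, fun _ => rfl, fun _ => rfl⟩
  have hν : ∀ a : ↥(Finset.Ico 1 q) × Bool → ℤ, ∑ i, a i * ν i = 0 → a = 0 := by
    intro a ha
    have h := hind (fun m => if h : m ∈ Finset.Ico 1 q then a (⟨m, h⟩, true) else 0)
      (fun m => if h : m ∈ Finset.Ico 1 q then a (⟨m, h⟩, false) else 0) (by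
        rw [← Finset.sum_coe_sort, ← ha, Fintype.sum_prod_type]
        refine Finset.sum_congr rfl fun m _ => ?_
        rw [Fintype.sum_bool, dif_pos m.2, dif_pos m.2, hν1, hν2])
    funext ⟨m, β⟩
    have h' := h m m.2
    rw [dif_pos m.2, dif_pos m.2] at h'
    cases β
    · exact h'.2
    · exact h'.1
  choose K hK using fun i => heq Ω (↥(Finset.Ico 1 q) × Bool) ν
    (fun l t => Complex.exp (Complex.I * (cfw_a (D i) (α l) (ν l) t : ℝ))) (ε / 3) h0 h1 hν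
    (fun l => ⟨by have := cfw_cont (D i) (α l) (ν l); fun_prop,
      fun t => by simp only [cfw_per (D i) (α l) (ν l) t]⟩) hε3
  obtain ⟨L, hL⟩ := cfw_fin K n
  refine ⟨L, fun k hk b i hi => ?_⟩
  have h2 := hK i k ((hL i hi).trans hk) fun l => -(conj (ν l) * b).re
  have h3 := hqi i q (by
    have h4 := hL₁ i hi
    have h5 : (qi i : ℝ) ≤ q := by
      linarith [le_abs_self L₁, sq_nonneg (6 * T / ε)]
    exact_mod_cast h5) ϑ
  have e1 : (∏ l : ↥(Finset.Ico 1 q) × Bool, ((2 * π : ℝ) : ℂ)⁻¹ * ∫ t in (0 : ℝ)..(2 * π),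
      Complex.exp (Complex.I * (cfw_a (D i) (α l) (ν l) t : ℝ))) =
      ∏ m ∈ Finset.Ico 1 q, jw (D i) (√q)⁻¹ (ex (2 * π * m / q + ϑ)) *
        jw (D i) (-(√q)⁻¹) (ex (2 * π * m / q - ϑ)) := by
    rw [Fintype.prod_prod_type, ← Finset.prod_coe_sort (Finset.Ico 1 q)]
    refine Finset.prod_congr rfl fun m _ => ?_
    rw [Fintype.prod_bool, hν1, hν2, hα1, hα2]
    rfl
  obtain ⟨A, hA⟩ : ∃ A : ℕ → ℂ → ℝ, ∀ m z, A m z =
      cfw_a (D i) (√q)⁻¹ (ex (2 * π * m / q + ϑ)) (-(conj (ex (2 * π * m / q + ϑ)) * b).re +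
          k * (conj (ex (2 * π * m / q + ϑ)) * z).re) +
        cfw_a (D i) (-(√q)⁻¹) (ex (2 * π * m / q - ϑ)) (-(conj (ex (2 * π * m / q - ϑ)) * b).re +
          k * (conj (ex (2 * π * m / q - ϑ)) * z).re) := ⟨_, fun _ _ => rfl⟩
  have hAc : ∀ m, Continuous (A m) := fun m => by
    rw [show A m = _ from funext (hA m)]
    exact ((cfw_cont _ _ _).comp (by fun_prop)).add ((cfw_cont _ _ _).comp (by fun_prop))
  have e2 : ∀ z : ℂ, (∏ l : ↥(Finset.Ico 1 q) × Bool, Complex.exp (Complex.I *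
      (cfw_a (D i) (α l) (ν l) (-(conj (ν l) * b).re + k * (conj (ν l) * z).re) : ℝ))) =
      Complex.exp (Complex.I * ((∑ m ∈ Finset.Ico 1 q, A m z : ℝ) : ℂ)) := fun z => by
    rw [← Complex.exp_sum, ← Finset.mul_sum, ← Complex.ofReal_sum, Fintype.sum_prod_type,
      ← Finset.sum_coe_sort (Finset.Ico 1 q)]
    congr 3
    refine Finset.sum_congr rfl fun m _ => ?_
    rw [Fintype.sum_bool, hν1, hν2, hα1, hα2, hA]
  have e3 : ∀ z : ℂ, ((D i).sum fun x s => s * (Wv q ϑ 0 (k * z + x - b)).re) =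
      A 0 z + ∑ m ∈ Finset.Ico 1 q, A m z := fun z => by
    rw [cfw_sum, Finset.range_eq_Ico, Finset.sum_eq_sum_Ico_succ_bot hq0]
    simp only [hA, zero_add]
  have h6 := cfw_avg h0 h1 (A 0) (fun z => ∑ m ∈ Finset.Ico 1 q, A m z) (hAc 0)
    (continuous_finsetSum _ fun m _ => hAc m) (ε / 3) (fun z => by
      rw [hA]
      refine (abs_add_le _ _).trans (le_trans (add_le_add (cfw_abs _ _ _ _) (cfw_abs _ _ _ _)) ?_)
      rw [abs_neg, abs_of_pos (inv_pos.2 hsq)]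
      have h7 := mul_le_mul_of_nonneg_left (hT i hi) (inv_pos.2 hsq).le
      linarith)
  simp only [e1, e2] at h2
  simp only [e3]
  have h8 := norm_sub_le_norm_sub_add_norm_sub
    (⨍ z in Ω, Complex.exp (Complex.I * ((A 0 z + ∑ m ∈ Finset.Ico 1 q, A m z : ℝ) : ℂ)))
    (⨍ z in Ω, Complex.exp (Complex.I * ((∑ m ∈ Finset.Ico 1 q, A m z : ℝ) : ℂ))) (gauss (D i))
  have h9 := norm_sub_le_norm_sub_add_norm_sub
    (⨍ z in Ω, Complex.exp (Complex.I * ((∑ m ∈ Finset.Ico 1 q, A m z : ℝ) : ℂ)))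
    (∏ m ∈ Finset.Ico 1 q, jw (D i) (√q)⁻¹ (ex (2 * π * m / q + ϑ)) *
        jw (D i) (-(√q)⁻¹) (ex (2 * π * m / q - ϑ))) (gauss (D i))
  linarith

end

end Pool.Agent.P.MP_6b977f_mp.EB
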