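import Pool.Agent.P.MP_6b977f_mp.EB.IfB

namespace Pool.Agent.P.MP_6b977f_mp.EB

open Real MeasureTheory Filter Topology Laplacian Set Metric
open scoped ContDiff BoundedContinuousFunction ComplexConjugate Pointwise ENNReal

theorem cfw2_int (P : Measure ℂ) [IsProbabilityMeasure P] (ν b : ℂ) (k : ℝ) :
    Integrable (fun z : ℂ => cos (conj ν * (k * z - b)).re) P :=
  Integrable.of_bound (Continuous.aestronglyMeasurable (by fun_prop)) 1
    (Eventually.of_forall fun z => abs_cos_le_one _)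

theorem cfw2_cos (P : Measure ℂ) [IsProbabilityMeasure P] (ν b : ℂ) (k : ℝ) :
    |∫ z, cos (conj ν * (k * z - b)).re ∂P| ≤
      ‖∫ z, Complex.exp (Complex.I * (k * (conj ν * z).re : ℝ)) ∂P‖ := by
  have h1 : Integrable (fun z : ℂ => Complex.exp (Complex.I * (-(conj ν * b).re : ℝ)) *
      Complex.exp (Complex.I * (k * (conj ν * z).re : ℝ))) P :=
    Integrable.of_bound (Continuous.aestronglyMeasurable (by fun_prop)) 1
      (Eventually.of_forall fun z => by
        rw [norm_mul, Complex.norm_exp_I_mul_ofReal, Complex.norm_exp_I_mul_ofReal, one_mul])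
  have h2 := Complex.reCLM.integral_comp_comm h1
  have h3 : ∀ z : ℂ, cos (conj ν * (k * z - b)).re = Complex.reCLM
      (Complex.exp (Complex.I * (-(conj ν * b).re : ℝ)) *
        Complex.exp (Complex.I * (k * (conj ν * z).re : ℝ))) := fun z => by
    rw [← Complex.exp_add, ← mul_add, ← Complex.ofReal_add, mul_comm Complex.I,
      Complex.reCLM_apply, Complex.exp_ofReal_mul_I_re]
    congr 1
    simp
    ring
  simp only [h3]
  rw [h2, integral_const_mul, Complex.reCLM_apply]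
  refine (Complex.abs_re_le_norm _).trans ?_
  rw [norm_mul, Complex.norm_exp_I_mul_ofReal, one_mul]

theorem cfw2_gen (P : Measure ℂ) [IsProbabilityMeasure P]
    (hP : ∀ ν : ℂ, ν ≠ 0 → Tendsto (fun k : ℝ =>
      ∫ z, Complex.exp (Complex.I * (k * (conj ν * z).re : ℝ)) ∂P) atTop (𝓝 0))
    {ι : Type} (T : Finset ι) (ξ : ι → ℂ) (s : ι → ℝ)
    (h1 : ∀ i ∈ T, ∀ j ∈ T, ξ i + ξ j ≠ 0) (h2 : ∀ i ∈ T, ∀ j ∈ T, ξ i = ξ j → i = j)
    {ε : ℝ} (hε : 0 < ε) : ∃ K : ℝ, ∀ k, K ≤ k → ∀ b : ℂ,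
      |∫ z, (∑ i ∈ T, s i * cos (conj (ξ i) * (k * z - b)).re) ^ 2 ∂P - ∑ i ∈ T, s i ^ 2 / 2| < ε := by
  classical
  let g : ℂ → ℝ → ℝ := fun ν k => if ν = 0 then 0 else
    ‖∫ z, Complex.exp (Complex.I * (k * (conj ν * z).re : ℝ)) ∂P‖
  have g0 : ∀ ν, Tendsto (g ν) atTop (𝓝 0) := fun ν => by
    by_cases h : ν = 0
    · simp only [g, if_pos h]; exact tendsto_const_nhds
    · simp only [g, if_neg h]; simpa using (hP ν h).norm
  have g1 : ∀ (ν b : ℂ) (k : ℝ), |∫ z, cos (conj ν * (k * z - b)).re ∂P -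
      (if ν = 0 then 1 else 0)| ≤ g ν k := fun ν b k => by
    by_cases h : ν = 0
    · simp [g, h]
    · simp only [g, if_neg h, sub_zero]; exact cfw2_cos P ν b k
  have G0 : Tendsto (fun k => ∑ i ∈ T, ∑ j ∈ T,
      |s i * s j / 2| * (g (ξ i + ξ j) k + g (ξ i - ξ j) k)) atTop (𝓝 0) := by
    have := tendsto_finsetSum T fun i _ => tendsto_finsetSum T fun j _ =>
      ((g0 (ξ i + ξ j)).add (g0 (ξ i - ξ j))).const_mul |s i * s j / 2|
    simpa using this
  obtain ⟨K, hK⟩ := eventually_atTop.1 (G0.eventually_lt_const hε)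
  refine ⟨K, fun k hk b => lt_of_le_of_lt ?_ (hK k hk)⟩
  have e1 : ∀ z : ℂ, (∑ i ∈ T, s i * cos (conj (ξ i) * (k * z - b)).re) ^ 2 =
      ∑ i ∈ T, ∑ j ∈ T, s i * s j / 2 * (cos (conj (ξ i + ξ j) * (k * z - b)).re +
        cos (conj (ξ i - ξ j) * (k * z - b)).re) := fun z => by
    rw [sq, Finset.sum_mul_sum]
    refine Finset.sum_congr rfl fun i _ => Finset.sum_congr rfl fun j _ => ?_
    rw [map_add, map_sub, add_mul, sub_mul (conj (ξ i)), Complex.add_re, Complex.sub_re, cos_add,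
      cos_sub]
    ring
  have i1 : ∀ i j, Integrable (fun z : ℂ => s i * s j / 2 *
      (cos (conj (ξ i + ξ j) * (k * z - b)).re + cos (conj (ξ i - ξ j) * (k * z - b)).re)) P :=
    fun i j => ((cfw2_int P _ b k).add (cfw2_int P _ b k)).const_mul _
  have e2 : ∑ i ∈ T, s i ^ 2 / 2 = ∑ i ∈ T, ∑ j ∈ T, s i * s j / 2 *
      ((if ξ i + ξ j = 0 then 1 else 0) + if ξ i - ξ j = 0 then 1 else 0) := by
    refine Finset.sum_congr rfl fun i hi => ?_
    rw [Finset.sum_eq_single_of_mem i hi fun j hj hne => ?_]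
    · rw [if_neg (h1 i hi i hi), if_pos (sub_self _)]; ring
    · rw [if_neg (h1 i hi j hj), if_neg fun h => hne (h2 i hi j hj (sub_eq_zero.1 h)).symm]; ring
  simp only [e1]
  rw [integral_finsetSum _ fun i _ => integrable_finsetSum _ fun j _ => i1 i j, e2,
    ← Finset.sum_sub_distrib]
  refine (Finset.abs_sum_le_sum_abs _ _).trans (Finset.sum_le_sum fun i _ => ?_)
  rw [integral_finsetSum _ fun j _ => i1 i j, ← Finset.sum_sub_distrib]
  refine (Finset.abs_sum_le_sum_abs _ _).trans (Finset.sum_le_sum fun j _ => ?_)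
  rw [integral_const_mul, integral_add (cfw2_int P _ b k) (cfw2_int P _ b k), ← mul_sub, abs_mul,
    add_sub_add_comm]
  exact mul_le_mul_of_nonneg_left ((abs_add_le _ _).trans (add_le_add (g1 _ b k) (g1 _ b k)))
    (abs_nonneg _)

theorem cfw2_pw (ξ y : ℂ) : pw ξ 0 y = (cos (conj ξ * y).re : ℝ) := by
  rw [pw, Complex.ofReal_cos, Complex.cos]
  simp only [zpow_zero, one_mul, neg_mul, mul_comm Complex.I]

theorem cfw2_ex (q m : ℕ) (t : ℝ) :
    ex (2 * π * m / q + t) = Complex.exp (2 * π * Complex.I / q) ^ m * ex t := by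
  rw [ex, ex, ← Complex.exp_nat_mul, ← Complex.exp_add]
  congr 1
  push_cast
  ring

theorem cfw2_pow {q : ℕ} (hq : q ≠ 0) (m : ℕ) (t : ℝ) :
    ex (2 * π * m / q + t) ^ q = ex (q * t) := by
  rw [cfw2_ex, mul_pow, ← pow_mul, mul_comm m, pow_mul,
    (Complex.isPrimitiveRoot_exp q hq).pow_eq_one, one_pow, one_mul, ex, ex, ← Complex.exp_nat_mul]
  congr 1
  push_cast
  ring

theorem t_cfw2 (hrl : S_RL) : S_CFW2 := by
  intro q ϑ ε Ω hq hs hε h0 h1
  have q0 : q ≠ 0 := by rintro rfl; simp at hq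
  have q1 : (0 : ℝ) < q := by positivity
  have : IsFiniteMeasure (volume.restrict Ω) := isFiniteMeasure_restrict.2 h1.ne
  have : NeZero (volume.restrict Ω) := ⟨fun h => h0.ne' (Measure.restrict_eq_zero.1 h)⟩
  rw [mul_assoc, sin_two_mul] at hs
  have hs1 : sin (q * ϑ) ≠ 0 := fun h => hs (by rw [h]; ring)
  have hs2 : cos (q * ϑ) ≠ 0 := fun h => hs (by rw [h]; ring)
  have re1 : ∀ t : ℝ, (ex t).re = cos t := Complex.exp_ofReal_mul_I_re
  have im1 : ∀ t : ℝ, (ex t).im = sin t := Complex.exp_ofReal_mul_I_im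
  refine (cfw2_gen (((volume.restrict Ω) univ)⁻¹ • volume.restrict Ω)
    (fun ν hν => by simpa only [average_eq'] using hrl Ω ν h1 hν)
    (Finset.range q ×ˢ (Finset.univ : Finset Bool))
    (fun i => ex (2 * π * i.1 / q + if i.2 then ϑ else -ϑ))
    (fun i => (√q)⁻¹ * if i.2 then 1 else -1) (fun i _ j _ h => ?_) (fun i hi j hj h => ?_)
    hε).imp fun K hK k hk b => ?_
  rotate_right
  · have := hK k hk b
    have e1 : ∀ z : ℂ, (Wv q ϑ 0 (k * z - b)).re =
        ∑ i ∈ Finset.range q ×ˢ (Finset.univ : Finset Bool), ((√q)⁻¹ * if i.2 then 1 else -1) *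
          cos (conj (ex (2 * π * i.1 / q + if i.2 then ϑ else -ϑ)) * (k * z - b)).re := fun z => by
      rw [Wv, Finset.sum_product]
      simp only [cfw2_pw, ← Complex.ofReal_sub, ← Complex.ofReal_sum, ← Complex.ofReal_inv,
        ← Complex.ofReal_mul, Complex.ofReal_re, Finset.mul_sum, Fintype.sum_bool]
      refine Finset.sum_congr rfl fun m _ => ?_
      simp only [if_true, Bool.false_eq_true, if_false, ← sub_eq_add_neg]
      ring
    have e2 : ∑ i ∈ Finset.range q ×ˢ (Finset.univ : Finset Bool),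
        ((√q)⁻¹ * if i.2 then 1 else -1) ^ 2 / 2 = (1 : ℝ) := by
      rw [Finset.sum_product]
      simp only [Fintype.sum_bool, if_true, Bool.false_eq_true, if_false, mul_one, mul_neg,
        neg_sq, inv_pow, Real.sq_sqrt q1.le, Finset.sum_const, Finset.card_range, nsmul_eq_mul]
      field_simp
      norm_num
    rw [average_eq']
    simp only [e1]
    rwa [e2] at this
  · have a1 := congrArg (· ^ q) (eq_neg_of_add_eq_zero_left h)
    simp only [hq.neg_pow, cfw2_pow q0] at a1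
    have a2 := congrArg Complex.re a1
    rw [Complex.neg_re, re1, re1] at a2
    apply hs2
    rcases i with ⟨_, _ | _⟩ <;> rcases j with ⟨_, _ | _⟩ <;> simp at a2 <;> linarith
  · have a1 := congrArg (· ^ q) h
    simp only [cfw2_pow q0] at a1
    have a2 := congrArg Complex.im a1
    rw [im1, im1] at a2
    have a3 : i.2 = j.2 := by
      by_contra hne
      apply hs1
      rcases i with ⟨_, _ | _⟩ <;> rcases j with ⟨_, _ | _⟩ <;> simp at a2 hne <;> linarith
    simp only [cfw2_ex, a3] at h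
    exact Prod.ext ((Complex.isPrimitiveRoot_exp q q0).pow_inj
      (Finset.mem_range.1 (Finset.mem_product.1 hi).1)
      (Finset.mem_range.1 (Finset.mem_product.1 hj).1)
      (mul_right_cancel₀ (Complex.exp_ne_zero _) h)) a3

end Pool.Agent.P.MP_6b977f_mp.EB
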