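import Pool.Agent.P.MP_6b977f_mp.EB.IfB

namespace Pool.Agent.P.MP_6b977f_mp.EB

open Real MeasureTheory Filter Topology Laplacian Set Metric
open scoped ContDiff BoundedContinuousFunction ComplexConjugate Pointwise ENNReal

noncomputable section

theorem cor_sig (j : ℕ) : ∀ l n : ℕ, l ≤ j →
    ∑ a ∈ Finset.range (j + 1), (j.choose a : ℂ) * ((-1) ^ a * ((n + a).ascFactorial l : ℂ)) =
      if l = j then (-1) ^ j * (j.factorial : ℂ) else 0 := by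
  induction j with
  | zero => intro l n hl; obtain rfl : l = 0 := by omega
            simp
  | succ j ih =>
    intro l n hl
    rw [Finset.sum_choose_succ_mul (fun a _ => (-1 : ℂ) ^ a * ((n + a).ascFactorial l : ℂ)) j,
      ← Finset.sum_add_distrib]
    cases l with
    | zero =>
      rw [if_neg (by omega)]
      refine Finset.sum_eq_zero fun a _ => ?_
      simp only [Nat.ascFactorial_zero]; ring
    | succ l =>
      have e : ∀ a ∈ Finset.range (j + 1),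
          (j.choose a : ℂ) * ((-1) ^ a * ((n + a).ascFactorial (l + 1) : ℂ)) +
            (j.choose a : ℂ) * ((-1) ^ (a + 1) * ((n + (a + 1)).ascFactorial (l + 1) : ℂ)) =
          -((l : ℂ) + 1) * ((j.choose a : ℂ) * ((-1) ^ a * ((n + 1 + a).ascFactorial l : ℂ))) := by
        intro a _
        have h1 : (n + a).ascFactorial (l + 1) = (n + a) * (n + a + 1).ascFactorial l := by
          rw [Nat.ascFactorial_succ, Nat.succ_ascFactorial]
        rw [h1, show n + (a + 1) = n + a + 1 by ring, show n + 1 + a = n + a + 1 by ring,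
          Nat.ascFactorial_succ]
        push_cast; ring
      rw [Finset.sum_congr rfl e, ← Finset.mul_sum, ih l (n + 1) (by omega)]
      by_cases h : l = j
      · subst h; simp only [if_true, Nat.factorial_succ]; push_cast; ring
      · rw [if_neg h, if_neg (by omega), mul_zero]

/-- The leading coefficients. -/
def cor_k (n : ℕ) : ℕ := 2 ^ (n - 1) * (n - 1).factorial

theorem cor_k_pos (n : ℕ) : 1 ≤ cor_k n :=
  Nat.mul_pos (by positivity) (Nat.factorial_pos _)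

theorem cor_k_add (n l : ℕ) (hn : 1 ≤ n) : cor_k (n + l) = cor_k n * (2 ^ l * n.ascFactorial l) := by
  unfold cor_k
  rw [← Nat.factorial_mul_ascFactorial' n l hn, show n + l - 1 = n - 1 + l by omega, pow_add]
  ring

/-- The basic combination. -/
def cor_g (Y : ℤ → ℂ → ℂ) (N j : ℕ) (w₀ : ℂ) (l : ℤ) (w : ℂ) : ℂ :=
  ∑ a ∈ Finset.range (j + 1),
    (conj w₀ ^ (j + N + a) * (j.choose a : ℂ) * (-1) ^ a / (cor_k (N + a) : ℂ)) *
      Y (l + (-(N + a : ℕ) : ℤ)) w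

theorem cor_coef (N j J a : ℕ) (hj : j ≤ J) (w₀ : ℂ) :
    ‖conj w₀ ^ (j + N + a) * (j.choose a : ℂ) * (-1) ^ a / (cor_k (N + a) : ℂ)‖ ≤
      2 ^ J * ‖w₀‖ ^ (j + N + a) := by
  have h1 : (1 : ℝ) ≤ cor_k (N + a) := by exact_mod_cast cor_k_pos _
  have h2 : (j.choose a : ℝ) ≤ 2 ^ J := by
    exact_mod_cast (Nat.choose_le_two_pow j a).trans (Nat.pow_le_pow_right (by norm_num) hj)
  simp only [norm_div, norm_mul, norm_pow, Complex.norm_conj, Complex.norm_natCast, norm_neg,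
    norm_one, one_pow, mul_one]
  refine (div_le_self (by positivity) h1).trans ?_
  rw [mul_comm]
  exact mul_le_mul_of_nonneg_right h2 (by positivity)

theorem cor_sum {J j : ℕ} (hj : j ≤ J) {f : ℕ → ℂ} {B : ℝ} (hB : 0 ≤ B)
    (h : ∀ a ≤ j, ‖f a‖ ≤ B) : ‖∑ a ∈ Finset.range (j + 1), f a‖ ≤ (J + 1) * B := by
  refine (norm_sum_le _ _).trans ?_
  have := Finset.sum_le_card_nsmul (Finset.range (j + 1)) (fun a => ‖f a‖) B
    fun a ha => h a (by simpa [Nat.lt_succ_iff] using ha)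
  refine this.trans ?_
  rw [Finset.card_range, nsmul_eq_mul]
  have : ((j + 1 : ℕ) : ℝ) ≤ J + 1 := by exact_mod_cast Nat.succ_le_succ hj
  exact mul_le_mul_of_nonneg_right this hB

section

variable {Y : ℤ → ℂ → ℂ} {N J : ℕ} {K : ℝ}

theorem cor_far (hK : 0 ≤ K) (hN : J + 2 ≤ N)
    (h1 : ∀ n : ℕ, 1 ≤ n → n ≤ N + 2 * J + 1 → ∀ w : ℂ, w ≠ 0 → ‖Y (-n) w‖ ≤ K * (1 + (‖w‖ ^ n)⁻¹))
    {c : ℝ} (hc : 0 < c) (hc1 : c ≤ 1) {j : ℕ} (hj : j ≤ J) {w₀ : ℂ} (h0 : w₀ ≠ 0) (hw : ‖w₀‖ ≤ 1)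
    {w : ℂ} (hw' : c * ‖w₀‖ ≤ ‖w‖) {l : ℤ} (hl : l.natAbs ≤ J + 1) :
    ‖cor_g Y N j w₀ l w‖ ≤ (J + 1) * (2 ^ J * K * (2 * c⁻¹ ^ J) *
      (‖w₀‖ ^ j * (‖w₀‖ ^ N + (‖w₀‖ / ‖w‖) ^ N / ‖w‖ ^ l.natAbs))) := by
  have r0 : 0 < ‖w₀‖ := norm_pos_iff.2 h0
  have s0 : 0 < ‖w‖ := lt_of_lt_of_le (by positivity) hw'
  have ci : 1 ≤ c⁻¹ := (one_le_inv₀ hc).2 hc1
  refine cor_sum hj (by positivity) fun a ha => ?_
  obtain ⟨n, hn⟩ : ∃ n : ℕ, (n : ℤ) = N + a - l := ⟨(N + a - l).toNat, by omega⟩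
  have e : l + (-(N + a : ℕ) : ℤ) = -n := by push_cast; omega
  rw [e, norm_mul]
  refine (mul_le_mul (cor_coef N j J a hj w₀) (h1 n (by omega) (by omega) w (norm_pos_iff.1 s0))
    (norm_nonneg _) (by positivity)).trans ?_
  set r := ‖w₀‖
  set s := ‖w‖
  have cJ : 1 ≤ c⁻¹ ^ J := one_le_pow₀ ci
  have b1 : r ^ (N + a) ≤ r ^ N := pow_le_pow_of_le_one r0.le hw (by omega)
  have p1 : 0 ≤ (r / s) ^ N / s ^ l.natAbs := by positivity
  have p2 : 0 < r ^ N := by positivity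
  have key : r ^ (N + a) * (s ^ n)⁻¹ ≤ c⁻¹ ^ J * (r ^ N + (r / s) ^ N / s ^ l.natAbs) := by
    rcases le_total s 1 with hs | hs
    · have a1 : (r / s) ^ a ≤ c⁻¹ ^ J := by
        refine (pow_le_pow_left₀ (by positivity) ?_ a).trans (pow_le_pow_right₀ ci (by omega))
        rw [div_le_iff₀ s0, ← div_eq_inv_mul, le_div_iff₀ hc, mul_comm]; exact hw'
      have a2 : s ^ (N + a) * s ^ l.natAbs ≤ s ^ n := by
        rw [← pow_add]; exact pow_le_pow_of_le_one s0.le hs (by omega)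
      have a3 : (s ^ n)⁻¹ ≤ (s ^ (N + a) * s ^ l.natAbs)⁻¹ := inv_anti₀ (by positivity) a2
      calc r ^ (N + a) * (s ^ n)⁻¹ ≤ r ^ (N + a) * (s ^ (N + a) * s ^ l.natAbs)⁻¹ := by gcongr
        _ = (r / s) ^ a * ((r / s) ^ N / s ^ l.natAbs) := by
          rw [div_pow, div_pow, pow_add, pow_add]; field_simp
        _ ≤ c⁻¹ ^ J * (r ^ N + (r / s) ^ N / s ^ l.natAbs) :=
          mul_le_mul a1 (by linarith) p1 (by positivity)
    · have a1 : (s ^ n)⁻¹ ≤ 1 := inv_le_one_of_one_le₀ (one_le_pow₀ hs)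
      calc r ^ (N + a) * (s ^ n)⁻¹ ≤ r ^ N * 1 := by gcongr
        _ ≤ c⁻¹ ^ J * (r ^ N + (r / s) ^ N / s ^ l.natAbs) := by nlinarith
  have key2 : r ^ (N + a) * (1 + (s ^ n)⁻¹) ≤
      2 * c⁻¹ ^ J * (r ^ N + (r / s) ^ N / s ^ l.natAbs) := by nlinarith
  calc 2 ^ J * r ^ (j + N + a) * (K * (1 + (s ^ n)⁻¹))
      = 2 ^ J * K * r ^ j * (r ^ (N + a) * (1 + (s ^ n)⁻¹)) := by rw [add_assoc, pow_add]; ring
    _ ≤ 2 ^ J * K * r ^ j * (2 * c⁻¹ ^ J * (r ^ N + (r / s) ^ N / s ^ l.natAbs)) := by gcongr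
    _ = _ := by ring

theorem cor_up (hK : 0 ≤ K) (hN : J + 2 ≤ N)
    (h1 : ∀ n : ℕ, 1 ≤ n → n ≤ N + 2 * J + 1 → ∀ w : ℂ, w ≠ 0 → ‖Y (-n) w‖ ≤ K * (1 + (‖w‖ ^ n)⁻¹))
    {j : ℕ} (hj : j ≤ J) {w₀ : ℂ} (h0 : w₀ ≠ 0) (hw : ‖w₀‖ ≤ 1) {l : ℕ} (hl : l ≤ J) (l1 : 1 ≤ l) :
    ‖cor_g Y N j w₀ l w₀‖ ≤ (J + 1) * (2 ^ J * K * 2 * (‖w₀‖ ^ j * ‖w₀‖)) := by
  have r0 : 0 < ‖w₀‖ := norm_pos_iff.2 h0
  refine cor_sum hj (by positivity) fun a ha => ?_
  obtain ⟨n, hn⟩ : ∃ n : ℕ, N + a = n + l := ⟨N + a - l, by omega⟩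
  have e : (l : ℤ) + (-(N + a : ℕ) : ℤ) = -n := by rw [hn]; push_cast; ring
  rw [e, norm_mul]
  refine (mul_le_mul (cor_coef N j J a hj w₀) (h1 n (by omega) (by omega) w₀ h0)
    (norm_nonneg _) (by positivity)).trans ?_
  set r := ‖w₀‖
  have b1 : r ^ l ≤ r := by simpa using pow_le_pow_of_le_one r0.le hw l1
  have b2 : r ^ n ≤ 1 := pow_le_one₀ r0.le hw
  calc 2 ^ J * r ^ (j + N + a) * (K * (1 + (r ^ n)⁻¹))
      = 2 ^ J * K * r ^ j * (r ^ l * (r ^ n + 1)) := by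
        rw [add_assoc, hn, pow_add, pow_add]; field_simp
    _ ≤ 2 ^ J * K * r ^ j * (r * (1 + 1)) := by gcongr
    _ = _ := by ring

theorem cor_down (hK : 0 ≤ K) (hN : J + 2 ≤ N)
    (h2 : ∀ n : ℕ, 1 ≤ n → n ≤ N + 2 * J + 1 → ∀ w : ℂ, w ≠ 0 → ‖w‖ ≤ 1 →
      ‖Y (-n) w * conj w ^ n - (cor_k n : ℂ)‖ ≤ K * ‖w‖)
    {j : ℕ} (hj : j ≤ J) {w₀ : ℂ} (h0 : w₀ ≠ 0) (hw : ‖w₀‖ ≤ 1) {l : ℕ} (hl : l ≤ j) :
    ‖cor_g Y N j w₀ (-l) w₀ - if l = j then (-1) ^ j * (2 ^ j * j.factorial : ℂ) else 0‖ *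
      ‖w₀‖ ^ l ≤ (J + 1) * (2 ^ J * K * (‖w₀‖ ^ j * ‖w₀‖)) := by
  have r0 : 0 < ‖w₀‖ := norm_pos_iff.2 h0
  have e1 : (cor_g Y N j w₀ (-l) w₀ - if l = j then (-1) ^ j * (2 ^ j * j.factorial : ℂ) else 0) *
      conj w₀ ^ l = ∑ a ∈ Finset.range (j + 1),
        (conj w₀ ^ j * (j.choose a : ℂ) * (-1) ^ a / (cor_k (N + a) : ℂ)) *
          (Y (-(N + a + l : ℕ)) w₀ * conj w₀ ^ (N + a + l) - (cor_k (N + a + l) : ℂ)) := by
    have e2 : (if l = j then (-1) ^ j * (2 ^ j * j.factorial : ℂ) else 0) * conj w₀ ^ l =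
        conj w₀ ^ j * 2 ^ l * if l = j then (-1) ^ j * (j.factorial : ℂ) else 0 := by
      split_ifs with h
      · subst h; ring
      · simp
    rw [sub_mul, e2, ← cor_sig j l N hl, cor_g, Finset.sum_mul, Finset.mul_sum,
      ← Finset.sum_sub_distrib]
    refine Finset.sum_congr rfl fun a _ => ?_
    have k0 : (cor_k (N + a) : ℂ) ≠ 0 := by
      have := cor_k_pos (N + a); exact_mod_cast (by omega)
    have e3 : -(l : ℤ) + (-(N + a : ℕ) : ℤ) = -(N + a + l : ℕ) := by push_cast; ring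
    rw [e3, cor_k_add (N + a) l (by omega)]
    push_cast
    field_simp
    ring
  have e4 : ‖w₀‖ ^ l = ‖conj w₀ ^ l‖ := by simp
  rw [e4, ← norm_mul, e1]
  refine cor_sum hj (by positivity) fun a ha => ?_
  have c1 := cor_coef 0 0 0 0 le_rfl w₀
  have k1 : (1 : ℝ) ≤ cor_k (N + a) := by exact_mod_cast cor_k_pos _
  have k2 : (j.choose a : ℝ) ≤ 2 ^ J := by
    exact_mod_cast (Nat.choose_le_two_pow j a).trans (Nat.pow_le_pow_right (by norm_num) hj)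
  have k3 : ‖conj w₀ ^ j * (j.choose a : ℂ) * (-1) ^ a / (cor_k (N + a) : ℂ)‖ ≤
      ‖w₀‖ ^ j * 2 ^ J := by
    simp only [norm_div, norm_mul, norm_pow, Complex.norm_conj, Complex.norm_natCast, norm_neg,
      norm_one, one_pow, mul_one]
    exact (div_le_self (by positivity) k1).trans (mul_le_mul_of_nonneg_left k2 (by positivity))
  rw [norm_mul]
  refine (mul_le_mul k3 (h2 _ (by omega) (by omega) w₀ h0 hw) (norm_nonneg _)
    (by positivity)).trans (le_of_eq ?_)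
  ring

end

theorem t_cor (hyl : S_YL) (hlad : S_LAD) : S_COR := by
  intro J N c hc hc1 hN
  obtain ⟨Y, hY, hC⟩ := hyl
  obtain ⟨-, -, -, l4, l5, -, l7, l8, -, l10⟩ := hlad
  have hC' : ∀ n : ℕ, ∃ C : ℝ, 1 ≤ n → ∀ w : ℂ, w ≠ 0 →
      ‖Y (-n) w‖ ≤ C * (1 + (‖w‖ ^ n)⁻¹) ∧ (‖w‖ ≤ 1 →
        ‖Y (-n) w * conj w ^ n - 2 ^ (n - 1) * (n - 1).factorial‖ ≤ C * ‖w‖) := by
    intro n
    by_cases h : 1 ≤ n
    · obtain ⟨C, h'⟩ := hC n h; exact ⟨C, fun _ => h'⟩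
    · exact ⟨0, fun h' => absurd h' h⟩
  choose Cn hCn using hC'
  obtain ⟨K, hKd⟩ : ∃ K, K = ∑ n ∈ Finset.range (N + 2 * J + 2), |Cn n| := ⟨_, rfl⟩
  have hK : 0 ≤ K := hKd ▸ Finset.sum_nonneg fun _ _ => abs_nonneg _
  have hK' : ∀ n, n ≤ N + 2 * J + 1 → Cn n ≤ K := fun n hn => (le_abs_self _).trans
    (hKd ▸ Finset.single_le_sum (f := fun n => |Cn n|) (fun _ _ => abs_nonneg _)
      (Finset.mem_range.2 (by omega)))
  have h1 : ∀ n : ℕ, 1 ≤ n → n ≤ N + 2 * J + 1 → ∀ w : ℂ, w ≠ 0 →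
      ‖Y (-n) w‖ ≤ K * (1 + (‖w‖ ^ n)⁻¹) := fun n a b w hw =>
    (hCn n a w hw).1.trans (mul_le_mul_of_nonneg_right (hK' n b) (by positivity))
  have h2 : ∀ n : ℕ, 1 ≤ n → n ≤ N + 2 * J + 1 → ∀ w : ℂ, w ≠ 0 → ‖w‖ ≤ 1 →
      ‖Y (-n) w * conj w ^ n - (cor_k n : ℂ)‖ ≤ K * ‖w‖ := fun n a b w hw hw' => by
    have := ((hCn n a w hw).2 hw').trans (mul_le_mul_of_nonneg_right (hK' n b) (norm_nonneg _))
    simpa [cor_k] using this
  have cJ : 1 ≤ c⁻¹ ^ J := one_le_pow₀ ((one_le_inv₀ hc).2 hc1)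
  obtain ⟨B, hB⟩ : ∃ B : ℝ, B = (J + 1) * (2 ^ J * K) := ⟨_, rfl⟩
  have B0 : 0 ≤ B := by rw [hB]; positivity
  refine ⟨8 * c⁻¹ ^ J * B + 1, by positivity, fun j hj w₀ h0 hw => ?_⟩
  have r0 : 0 < ‖w₀‖ := norm_pos_iff.2 h0
  obtain ⟨t, t0, t1, t2, t3⟩ : ∃ t : ℝ, 0 ≤ t ∧ t ≤ 1 ∧ (j = 0 → t = 1 / 2) ∧
      (j ≠ 0 → (t : ℂ) * (2 ^ j * j.factorial) = 1) := by
    by_cases h : j = 0
    · exact ⟨1 / 2, by norm_num, by norm_num, fun _ => rfl, fun h' => absurd h h'⟩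
    · have a1 : (1 : ℝ) ≤ 2 ^ j * j.factorial := by
        exact_mod_cast Nat.mul_pos (by positivity) (Nat.factorial_pos j)
      refine ⟨(2 ^ j * j.factorial)⁻¹, by positivity, inv_le_one_of_one_le₀ a1,
        fun h' => absurd h' h, fun _ => ?_⟩
      have : (2 ^ j * j.factorial : ℂ) ≠ 0 := by
        have := Nat.factorial_ne_zero j
        exact mul_ne_zero (pow_ne_zero _ two_ne_zero) (by exact_mod_cast this)
      push_cast; exact inv_mul_cancel₀ this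
  set g := cor_g Y N j w₀ with hg
  have lg : Lad {0}ᶜ g := l10 _ ℕ _ _ fun a _ => l5 _ _ _ (l7 _ _ _ hY)
  have al : ∀ a : ℂ, ‖conj a * t‖ ≤ ‖a‖ := fun a => by
    rw [norm_mul, Complex.norm_conj, Complex.norm_real, Real.norm_of_nonneg t0]
    exact mul_le_of_le_one_right (norm_nonneg _) t1
  have sg : ∀ l : ℤ, ‖(-1 : ℂ) ^ l‖ = 1 := fun l => by simp
  have far : ∀ a w : ℂ, c * ‖w₀‖ ≤ ‖w‖ → ∀ l : ℤ, l.natAbs ≤ J + 1 →
      ‖conj a * t * g l w + (-1) ^ l * conj (conj a * t * g (-l) w)‖ ≤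
        4 * c⁻¹ ^ J * B * ‖a‖ * ‖w₀‖ ^ j * (‖w₀‖ ^ N + (‖w₀‖ / ‖w‖) ^ N / ‖w‖ ^ l.natAbs) := by
    intro a w hw' l hl
    have f1 := cor_far hK hN h1 hc hc1 hj h0 hw hw' hl
    have f2 := cor_far hK hN h1 hc hc1 hj h0 hw hw' (l := -l) (by simpa using hl)
    rw [Int.natAbs_neg] at f2
    refine (norm_add_le _ _).trans ?_
    rw [norm_mul (_ ^ _), sg, one_mul, Complex.norm_conj, norm_mul, norm_mul _ (g _ _)]
    refine (add_le_add (mul_le_mul (al a) f1 (norm_nonneg _) (norm_nonneg _))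
      (mul_le_mul (al a) f2 (norm_nonneg _) (norm_nonneg _))).trans (le_of_eq ?_)
    rw [hB]; ring
  refine ⟨{ toFun := fun a l w => conj a * t * g l w + (-1) ^ l * conj (conj a * t * g (-l) w)
            map_add' := fun a b => ?_
            map_smul' := fun s a => ?_ }, fun a => ⟨?_, fun l z => ?_, fun l hl => ?_, ?_⟩⟩
  · funext l w; simp only [map_add, map_mul, Pi.add_apply]; ring
  · funext l w
    simp only [Complex.real_smul, map_mul, Complex.conj_ofReal, Pi.smul_apply, RingHom.id_apply]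
    ring
  · exact l4 _ _ _ (l5 _ _ (conj a * t) lg) (l8 _ _ (l5 _ _ (conj a * t) lg))
  · have e1 : ((-1 : ℂ) ^ l) * (-1) ^ l = 1 := by rw [← mul_zpow]; simp
    have e2 : (-1 : ℂ) ^ (-l) = (-1) ^ l := by
      rw [zpow_neg]; exact inv_eq_of_mul_eq_one_right e1
    simp only [LinearMap.coe_mk, AddHom.coe_mk, neg_neg, e2, map_add, map_mul, map_zpow₀, map_neg,
      map_one, Complex.conj_conj, Complex.conj_ofReal]
    linear_combination (-(conj a * (t : ℂ) * g (-l) z)) * e1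
  · simp only [LinearMap.coe_mk, AddHom.coe_mk]
    have p1 : 0 ≤ ‖a‖ * ‖w₀‖ ^ j := by positivity
    have pl : ‖w₀‖ ^ l ≤ 1 := pow_le_one₀ r0.le hw
    have pl0 : 0 < ‖w₀‖ ^ l := by positivity
    by_cases hlj : l ≤ j
    · rw [if_pos hlj]
      have d := cor_down hK hN h2 hj h0 hw hlj
      rw [← hg] at d
      set σ : ℂ := if l = j then (-1) ^ j * (2 ^ j * j.factorial : ℂ) else 0 with hσ
      have fin : ∀ x : ℂ, ‖x‖ * ‖w₀‖ ^ l ≤ (J + 1) * (2 ^ J * K * 2 * (‖w₀‖ ^ j * ‖w₀‖)) →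
          ‖conj a * t * x + (-1) ^ (l : ℤ) * conj (conj a * t * (g (-l) w₀ - σ))‖ * ‖w₀‖ ^ l ≤
            (8 * c⁻¹ ^ J * B + 1) * ‖a‖ * ‖w₀‖ ^ j * ‖w₀‖ := by
        intro x hx
        have a1 := norm_add_le (conj a * t * x)
          ((-1) ^ (l : ℤ) * conj (conj a * t * (g (-l) w₀ - σ)))
        rw [norm_mul (_ ^ _), sg, one_mul, Complex.norm_conj, norm_mul, norm_mul _ (_ - σ)] at a1
        have a2 := mul_le_mul (al a) hx (by positivity) (norm_nonneg _)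
        have a3 := mul_le_mul (al a) d (by positivity) (norm_nonneg _)
        have a4 : 3 * B * (‖a‖ * ‖w₀‖ ^ j * ‖w₀‖) ≤
            (8 * c⁻¹ ^ J * B + 1) * (‖a‖ * ‖w₀‖ ^ j * ‖w₀‖) :=
          mul_le_mul_of_nonneg_right (by nlinarith) (by positivity)
        calc _ ≤ (‖conj a * t‖ * ‖x‖ + ‖conj a * t‖ * ‖g (-l) w₀ - σ‖) * ‖w₀‖ ^ l := by gcongr
          _ ≤ 3 * B * (‖a‖ * ‖w₀‖ ^ j * ‖w₀‖) := by rw [hB]; linarith
          _ ≤ _ := by linarith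
      by_cases l0 : l = 0
      · subst l0
        refine le_trans (le_of_eq ?_) (fin (g (-(0 : ℕ)) w₀ - σ) (d.trans ?_))
        · congr 2
          by_cases j0 : 0 = j
          · subst j0
            simp only [hσ, t2 rfl, prj, if_true, if_false, map_mul, map_sub, Complex.conj_conj]
            simp only [Nat.cast_zero, neg_zero, zpow_zero, pow_zero, Nat.factorial_zero,
              Nat.cast_one, mul_one, map_one, Complex.conj_ofReal, one_mul]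
            rw [Complex.re_eq_add_conj]; push_cast; ring
          · simp [hσ, j0]
        · have : 0 ≤ (J + 1 : ℝ) * (2 ^ J * K * (‖w₀‖ ^ j * ‖w₀‖)) := by positivity
          linarith
      · refine le_trans (le_of_eq ?_) (fin (g l w₀) ?_)
        · congr 2
          by_cases e : l = j
          · subst e
            have e1 : ((-1 : ℂ) ^ l) * (-1) ^ l = 1 := by rw [← mul_pow]; simp
            simp only [hσ, prj, if_true, if_false, if_neg l0, map_mul, map_sub, Complex.conj_conj,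
              map_pow, map_neg, map_one, Complex.conj_ofReal, zpow_natCast, map_natCast,
              map_ofNat]
            linear_combination (a * t * (2 ^ l * l.factorial)) * e1 + a * t3 l0
          · simp [hσ, e]
        · exact (mul_le_of_le_one_right (norm_nonneg _) pl).trans
            (cor_up hK hN h1 hj h0 hw hl (by omega))
    · rw [if_neg hlj, if_neg (by omega), sub_zero, mul_one]
      have f := far a w₀ (mul_le_of_le_one_left r0.le hc1) l (by simp; omega)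
      rw [div_self r0.ne', one_pow, Int.natAbs_natCast] at f
      have pN : ‖w₀‖ ^ N ≤ 1 := pow_le_one₀ r0.le hw
      have a1 : (‖w₀‖ ^ N + 1 / ‖w₀‖ ^ l) * ‖w₀‖ ^ l ≤ 2 := by
        rw [add_mul, one_div, inv_mul_cancel₀ pl0.ne']
        have : 0 < ‖w₀‖ ^ N := by positivity
        nlinarith
      calc _ ≤ 4 * c⁻¹ ^ J * B * ‖a‖ * ‖w₀‖ ^ j * (‖w₀‖ ^ N + 1 / ‖w₀‖ ^ l) * ‖w₀‖ ^ l := by gcongr
        _ = 4 * c⁻¹ ^ J * B * (‖a‖ * ‖w₀‖ ^ j) * ((‖w₀‖ ^ N + 1 / ‖w₀‖ ^ l) * ‖w₀‖ ^ l) := by ring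
        _ ≤ 4 * c⁻¹ ^ J * B * (‖a‖ * ‖w₀‖ ^ j) * 2 := by gcongr
        _ ≤ _ := by linarith
  · intro w hw' l hl
    refine (far a w hw' l hl).trans ?_
    have : 0 ≤ c⁻¹ ^ J * B := by positivity
    gcongr
    linarith

end

end Pool.Agent.P.MP_6b977f_mp.EB
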