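import Pool.Agent.P.MP_6b977f_mp.EB.IfB

/-! Simultaneous recurrence of the waves. -/

namespace Pool.Agent.P.MP_6b977f_mp.EB

open Real MeasureTheory Filter Topology Laplacian Set Metric
open scoped ContDiff BoundedContinuousFunction ComplexConjugate Pointwise ENNReal

theorem dir_sim {ι : Type} [Fintype ι] (α : ι → ℝ) {Q : ℕ} (hQ : 0 < Q) :
    ∃ n : ℕ, 1 ≤ n ∧ n ≤ Q ^ Fintype.card ι ∧ ∀ i, ∃ z : ℤ, |n * α i - z| ≤ 1 / Q := by
  classical
  have hQ' : (0 : ℝ) < Q := Nat.cast_pos.2 hQ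
  have key : ∀ s t : ℕ, s < t → t ≤ Q ^ Fintype.card ι →
      (fun i => ⌊Q * Int.fract (s * α i)⌋₊) = (fun i => ⌊Q * Int.fract (t * α i)⌋₊) →
      ∃ n : ℕ, 1 ≤ n ∧ n ≤ Q ^ Fintype.card ι ∧ ∀ i, ∃ z : ℤ, |n * α i - z| ≤ 1 / Q := by
    intro s t hst ht e
    refine ⟨t - s, by omega, by omega, fun i => ⟨⌊t * α i⌋ - ⌊s * α i⌋, ?_⟩⟩
    have e1 := congrFun e i
    have a1 := Nat.floor_le (mul_nonneg hQ'.le (Int.fract_nonneg (s * α i)))
    have a2 := Nat.lt_floor_add_one (Q * Int.fract (s * α i))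
    have a3 := Nat.floor_le (mul_nonneg hQ'.le (Int.fract_nonneg (t * α i)))
    have a4 := Nat.lt_floor_add_one (Q * Int.fract (t * α i))
    rw [e1] at a1 a2
    have e2 : ((t - s : ℕ) : ℝ) * α i - (⌊t * α i⌋ - ⌊s * α i⌋ : ℤ) =
        Int.fract (t * α i) - Int.fract (s * α i) := by
      rw [Nat.cast_sub hst.le, Int.fract, Int.fract]
      push_cast
      ring
    rw [e2, le_div_iff₀ hQ', ← abs_of_pos hQ', ← abs_mul, abs_le]
    constructor <;> nlinarith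
  obtain ⟨s, hs, t, ht, hne, e⟩ := Finset.exists_ne_map_eq_of_card_lt_of_maps_to
    (s := Finset.range (Q ^ Fintype.card ι + 1)) (t := Fintype.piFinset fun _ : ι => Finset.range Q)
    (by simp) (f := fun (s : ℕ) i => ⌊Q * Int.fract (s * α i)⌋₊) (fun s _ => by
      simp only [Finset.mem_coe, Fintype.mem_piFinset, Finset.mem_range]
      intro i
      rw [Nat.floor_lt (mul_nonneg hQ'.le (Int.fract_nonneg _))]
      exact mul_lt_of_lt_one_right hQ' (Int.fract_lt_one _))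
  rw [Finset.mem_range] at hs ht
  rcases lt_or_gt_of_ne hne with h | h
  · exact key s t h (by omega) e
  · exact key t s h (by omega) e.symm

theorem dir_exp (a x : ℝ) (z : ℤ) :
    ‖Complex.exp (Complex.I * (a + x : ℝ)) - Complex.exp (Complex.I * a)‖ ≤ |x - 2 * π * z| := by
  have e : Complex.exp (Complex.I * (a + x : ℝ)) - Complex.exp (Complex.I * a) =
      Complex.exp (Complex.I * a) * (Complex.exp (Complex.I * (x - 2 * π * z : ℝ)) - 1) := by
    rw [mul_sub, mul_one, ← Complex.exp_add]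
    congr 1
    rw [Complex.exp_eq_exp_iff_exists_int]
    exact ⟨z, by push_cast; ring⟩
  rw [e, norm_mul, Complex.norm_exp_I_mul_ofReal, one_mul]
  exact Real.norm_exp_I_mul_ofReal_sub_one_le

theorem dir_pw (t : ℝ) (j : ℤ) (y c : ℂ) (z : ℤ) :
    ‖pw (ex t) j (y + c) - pw (ex t) j y‖ ≤ |(conj (ex t) * c).re - 2 * π * z| := by
  have h1 := dir_exp (conj (ex t) * y).re (conj (ex t) * c).re z
  have h2 := dir_exp (-(conj (ex t) * y).re) (-(conj (ex t) * c).re) (-z)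
  have h3 : ‖(Complex.I * conj (ex t)) ^ j‖ = 1 := by
    rw [norm_zpow, norm_mul, Complex.norm_I, Complex.norm_conj, ex]
    simp
  have e : |-(conj (ex t) * c).re - 2 * π * (-z : ℤ)| = |(conj (ex t) * c).re - 2 * π * z| := by
    rw [← abs_neg]
    congr 1
    push_cast
    ring
  rw [e] at h2
  have e2 : pw (ex t) j (y + c) - pw (ex t) j y = (Complex.I * conj (ex t)) ^ j *
      ((Complex.exp (Complex.I * ((conj (ex t) * y).re + (conj (ex t) * c).re : ℝ)) -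
        Complex.exp (Complex.I * (conj (ex t) * y).re)) + (-1) ^ j *
      (Complex.exp (Complex.I * (-(conj (ex t) * y).re + -(conj (ex t) * c).re : ℝ)) -
        Complex.exp (Complex.I * (-(conj (ex t) * y).re : ℝ)))) / 2 := by
    simp only [pw, mul_add (conj (ex t)), Complex.add_re, ← neg_add, Complex.ofReal_neg, mul_neg]
    ring
  rw [e2, norm_div, norm_mul, h3, one_mul, Complex.norm_two, div_le_iff₀ two_pos]
  refine (norm_add_le _ _).trans ?_
  rw [norm_mul, norm_zpow, norm_neg, norm_one, one_zpow, one_mul]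
  linarith

theorem t_dir : S_DIR := by
  intro q ϑ S b N1
  refine ⟨(N1 + 2) * (S * q * 2) + 1, fun K₀ μ₀ => ?_⟩
  obtain ⟨K, hK⟩ : ∃ K : ℕ, K = ⌈K₀⌉₊ + 1 := ⟨_, rfl⟩
  have hK1 : (1 : ℝ) ≤ K := by rw [hK]; push_cast; linarith [Nat.cast_nonneg (α := ℝ) ⌈K₀⌉₊]
  have hK0 : K₀ ≤ K := by rw [hK]; push_cast; linarith [Nat.le_ceil K₀]
  obtain ⟨μ, hμ⟩ : ∃ μ : ℝ, μ = |μ₀| + 2 + 4 * π * √q * K + K := ⟨_, rfl⟩
  have hp : 0 ≤ 4 * π * √q * K := by positivity
  have m2 : 2 ≤ μ := by linarith [abs_nonneg μ₀]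
  have m0 : 0 < μ := by linarith
  have mK : (K : ℝ) ≤ μ := by linarith [abs_nonneg μ₀]
  have m4 : 4 * π * √q * K ≤ μ := by linarith [abs_nonneg μ₀]
  obtain ⟨Q, hQ⟩ : ∃ Q : ℕ, Q = ⌈μ ^ (N1 + 1)⌉₊ := ⟨_, rfl⟩
  have q1 : μ ^ (N1 + 1) ≤ Q := hQ ▸ Nat.le_ceil _
  have q2 : (Q : ℝ) ≤ μ ^ (N1 + 2) := by
    have a := Nat.ceil_lt_add_one (pow_pos m0 (N1 + 1)).le
    have a2 : 1 ≤ μ ^ (N1 + 1) := one_le_pow₀ (by linarith)
    rw [hQ, pow_succ μ (N1 + 1)]
    nlinarith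
  have q0 : (0 : ℝ) < Q := (pow_pos m0 _).trans_le q1
  obtain ⟨n, n1, n2, hn⟩ := dir_sim (ι := Fin S × Fin q × Bool) (fun i =>
    (conj (ex (if i.2.2 then 2 * π * i.2.1 / q + ϑ else 2 * π * i.2.1 / q - ϑ)) * b i.1).re /
      (2 * π)) (Nat.cast_pos.1 q0)
  have n1' : (1 : ℝ) ≤ n := by exact_mod_cast n1
  refine ⟨μ, K * n, by linarith [le_abs_self μ₀], by nlinarith, ?_, fun m hm j y => ?_⟩
  · have a : (n : ℝ) ≤ (μ ^ (N1 + 2)) ^ (S * q * 2) := by
      refine le_trans ?_ (pow_le_pow_left₀ q0.le q2 _)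
      simp only [Fintype.card_prod, Fintype.card_fin, Fintype.card_bool, ← mul_assoc] at n2
      exact_mod_cast n2
    rw [pow_succ', pow_mul]
    gcongr
  have key : ∀ t : ℝ, (∃ z : ℤ, |n * ((conj (ex t) * b m).re / (2 * π)) - z| ≤ 1 / Q) →
      ‖pw (ex t) j (y + (K * n : ℝ) * b m) - pw (ex t) j y‖ ≤ 2 * π * K / Q := by
    rintro t ⟨z, hz⟩
    refine (dir_pw t j y _ (K * z)).trans ?_
    have e : (conj (ex t) * ((K * n : ℝ) * b m)).re - 2 * π * (K * z : ℤ) =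
        2 * π * K * (n * ((conj (ex t) * b m).re / (2 * π)) - z) := by
      rw [mul_left_comm, Complex.re_ofReal_mul]
      push_cast
      field_simp
    rw [e, abs_mul, abs_of_nonneg (by positivity), ← mul_one_div _ (Q : ℝ)]
    gcongr
  rw [Wv, Wv, ← mul_sub, ← Finset.sum_sub_distrib, norm_mul, norm_inv, Complex.norm_real,
    Real.norm_of_nonneg (sqrt_nonneg _)]
  have h1 : ‖∑ l ∈ Finset.range q, (pw (ex (2 * π * l / q + ϑ)) j (y + (K * n : ℝ) * b m) -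
      pw (ex (2 * π * l / q - ϑ)) j (y + (K * n : ℝ) * b m) -
      (pw (ex (2 * π * l / q + ϑ)) j y - pw (ex (2 * π * l / q - ϑ)) j y))‖ ≤
      q * (4 * π * K / Q) := by
    refine (norm_sum_le_of_le _ (n := fun _ => 4 * π * K / Q) fun l hl => ?_).trans (by simp)
    have a := key _ (hn (⟨m, hm⟩, ⟨l, Finset.mem_range.1 hl⟩, true))
    have a' := key _ (hn (⟨m, hm⟩, ⟨l, Finset.mem_range.1 hl⟩, false))
    simp only [if_true, Bool.false_eq_true, if_false] at a a'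
    rw [sub_sub_sub_comm]
    refine (norm_sub_le _ _).trans ((add_le_add a a').trans_eq (by ring))
  refine (mul_le_mul_of_nonneg_left h1 (by positivity)).trans ?_
  have e : (√q)⁻¹ * (q * (4 * π * K / Q)) = 4 * π * √q * K / Q := by
    rw [← mul_assoc, inv_mul_eq_div, Real.div_sqrt]
    ring
  rw [e, div_le_iff₀ q0, inv_mul_eq_div, le_div_iff₀ (pow_pos m0 _)]
  refine le_trans ?_ q1
  rw [pow_succ']
  gcongr

end Pool.Agent.P.MP_6b977f_mp.EB
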