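import Pool.Agent.P.MP_6b977f_mp.EB.IfB

/-! The dominant term of the Taylor expansion of a ladder. -/

namespace Pool.Agent.P.MP_6b977f_mp.EB

open Real MeasureTheory Filter Topology Laplacian Set Metric
open scoped ContDiff BoundedContinuousFunction ComplexConjugate Pointwise ENNReal

noncomputable section

theorem dom_abs {u : ℤ → ℂ → ℂ} (hr : RealL u) (i : ℤ) (p : ℂ) :
    ‖u i p‖ = ‖u (i.natAbs : ℕ) p‖ := by
  rcases Int.natAbs_eq i with h | h
  · rw [← h]
  · conv_lhs => rw [h]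
    rw [hr, norm_mul, norm_zpow, norm_neg, norm_one, one_zpow, one_mul, Complex.norm_conj]

theorem dom_term {u : ℤ → ℂ → ℂ} (hr : RealL u) {J M : ℕ} {p : ℂ} {s ε d : ℝ} (hs : 0 ≤ s)
    (hsε : s ≤ ε) (hε : ε ≤ 1) (hM : ‖u M p‖ ≤ 2 * d)
    (hj : ∀ j : ℕ, j ≤ J → j ≠ M → ‖u j p‖ * s ^ j ≤ ε * d * s ^ M) {i : ℤ} {e : ℕ}
    (h1 : i.natAbs ≤ J) (h2 : i.natAbs ≤ e) (h3 : i.natAbs = M → M + 1 ≤ e) :
    ‖u i p‖ * s ^ e ≤ 2 * (ε * d * s ^ M) := by
  have hd : 0 ≤ d := by linarith [norm_nonneg (u M p)]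
  have hε0 : 0 ≤ ε := hs.trans hsε
  have hs1 : s ≤ 1 := hsε.trans hε
  rw [dom_abs hr]
  by_cases h : i.natAbs = M
  · rw [h]
    have h4 : s ^ e ≤ s ^ (M + 1) := pow_le_pow_of_le_one hs hs1 (h3 h)
    calc ‖u M p‖ * s ^ e ≤ 2 * d * s ^ (M + 1) := by gcongr
      _ = 2 * (s * d * s ^ M) := by ring
      _ ≤ _ := by gcongr
  · have h4 : s ^ e ≤ s ^ i.natAbs := pow_le_pow_of_le_one hs hs1 h2
    have h5 := hj _ h1 h
    have h6 : 0 ≤ ε * d * s ^ M := by positivity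
    have h7 : ‖u (i.natAbs : ℕ) p‖ * s ^ e ≤ ‖u (i.natAbs : ℕ) p‖ * s ^ i.natAbs := by gcongr
    linarith

theorem dom_coef (h x : ℂ) (a b : ℕ) :
    ‖(h / 2) ^ a * (-conj h / 2) ^ b / (a.factorial * b.factorial) * x‖ ≤ ‖x‖ * ‖h‖ ^ (a + b) := by
  have h1 : ‖h / 2‖ ≤ ‖h‖ := by
    rw [norm_div, Complex.norm_two]; linarith [norm_nonneg h]
  have h2 : ‖-conj h / 2‖ ≤ ‖h‖ := by
    rw [norm_div, Complex.norm_two, norm_neg, Complex.norm_conj]; linarith [norm_nonneg h]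
  have h3 : (1 : ℝ) ≤ ‖(a.factorial * b.factorial : ℂ)‖ := by
    rw [norm_mul, Complex.norm_natCast, Complex.norm_natCast]
    have h4 : (1 : ℝ) ≤ a.factorial := by exact_mod_cast a.factorial_pos
    have h5 : (1 : ℝ) ≤ b.factorial := by exact_mod_cast b.factorial_pos
    nlinarith
  rw [norm_mul, norm_div, norm_mul, norm_pow, norm_pow, mul_comm, pow_add]
  refine mul_le_mul_of_nonneg_left ((div_le_self (by positivity) h3).trans ?_) (norm_nonneg _)
  gcongr

theorem dom_sum {n J : ℕ} (hn : n ≤ J + 1) (f : ℕ × ℕ → ℂ) (A : Finset (ℕ × ℕ)) {s X : ℝ}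
    (hs : 0 ≤ s) (hX : 0 ≤ X) (hA : ∀ ab ∈ A, ab.1 + ab.2 < n)
    (hf : ∀ ab : ℕ × ℕ, ab.1 + ab.2 < n → ab ∉ A → ‖f ab‖ * s ≤ 2 * X) {z : ℂ}
    (hz : ‖z - ∑ ab ∈ (Finset.range n ×ˢ Finset.range n).filter (fun ab => ab.1 + ab.2 < n), f ab‖
      * s ≤ X) : ‖z - ∑ ab ∈ A, f ab‖ * s ≤ (2 * (J + 1) ^ 2 + 1) * X := by
  classical
  set T := (Finset.range n ×ˢ Finset.range n).filter (fun ab => ab.1 + ab.2 < n) with hT
  have hAT : A ⊆ T := by
    intro ab hab
    have := hA ab hab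
    simp only [hT, Finset.mem_filter, Finset.mem_product, Finset.mem_range]
    omega
  have e : z - ∑ ab ∈ A, f ab = (z - ∑ ab ∈ T, f ab) + ∑ ab ∈ T \ A, f ab := by
    rw [← Finset.sum_sdiff hAT]; ring
  have hc : ((T \ A).card : ℝ) ≤ (J + 1) ^ 2 := by
    have h1 : (T \ A).card ≤ (J + 1) ^ 2 := by
      refine (Finset.card_le_card Finset.sdiff_subset).trans ((Finset.card_filter_le _ _).trans ?_)
      rw [Finset.card_product, Finset.card_range, sq]
      exact Nat.mul_le_mul hn hn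
    exact_mod_cast h1
  have h2 : ∑ ab ∈ T \ A, ‖f ab‖ * s ≤ (T \ A).card * (2 * X) := by
    rw [← nsmul_eq_mul]
    refine Finset.sum_le_card_nsmul _ _ _ fun ab hab => ?_
    rw [Finset.mem_sdiff, hT, Finset.mem_filter] at hab
    exact hf ab hab.1.2 hab.2
  rw [e]
  calc _ ≤ (‖z - ∑ ab ∈ T, f ab‖ + ∑ ab ∈ T \ A, ‖f ab‖) * s :=
        mul_le_mul_of_nonneg_right ((norm_add_le _ _).trans (by gcongr; exact norm_sum_le _ _)) hs
    _ = ‖z - ∑ ab ∈ T, f ab‖ * s + ∑ ab ∈ T \ A, ‖f ab‖ * s := by rw [add_mul, Finset.sum_mul]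
    _ ≤ X + (J + 1) ^ 2 * (2 * X) := by
        have : ((T \ A).card : ℝ) * (2 * X) ≤ (J + 1) ^ 2 * (2 * X) := by gcongr
        linarith
    _ = _ := by ring

theorem t_dom (htay : S_TAY) : S_DOM := by
  classical
  intro J
  refine ⟨2 * (J + 1) ^ 2 + 1, by positivity, ?_⟩
  intro O u M p h ε d hu hr hM hO hh hε hMd hj hy
  obtain ⟨hM1, hMJ⟩ := hM
  have hd : 0 ≤ d := by linarith [norm_nonneg (u M p)]
  have hε0 : 0 ≤ ε := (norm_nonneg h).trans hh
  by_cases h0 : h = 0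
  · subst h0
    have h1 := hj 0 (Nat.zero_le _) (by omega)
    have hM0 : M ≠ 0 := by omega
    simp only [norm_zero, zero_pow hM0, mul_zero, pow_zero, mul_one, Nat.cast_zero] at h1
    simp [hM0, norm_le_zero_iff.1 h1]
  have hh0 : 0 < ‖h‖ := norm_pos_iff.2 h0
  set X := ε * d * ‖h‖ ^ M with hX
  have hX0 : 0 ≤ X := by positivity
  have hK : ∀ y ∈ segment ℝ p (p + h), ∀ j : ℤ, j.natAbs ≤ J + 1 →
      ‖u j y‖ ≤ X / ‖h‖ ^ (J + 1) := fun y hy' j hj' => by
    rw [le_div_iff₀ (by positivity)]; exact hy y hy' j hj'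
  rw [mul_assoc, mul_assoc, ← mul_assoc ε, ← hX]
  constructor
  · have h1 := htay J O u 1 p h _ hu hO fun y hy' j hj' => hK y hy' j (by omega)
    have h2 := dom_sum (Nat.le_succ J) (fun ab => (h / 2) ^ ab.1 * (-conj h / 2) ^ ab.2 /
      (ab.1.factorial * ab.2.factorial) * u (1 + ab.1 - ab.2) p) {(M - 1, 0)} hh0.le hX0
      (by simp; omega)
      (by
        intro ab h3 h4
        have h5 : ¬(ab.1 = M - 1 ∧ ab.2 = 0) := fun h6 => h4 (by
          rw [Finset.mem_singleton]; exact Prod.ext h6.1 h6.2)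
        refine (mul_le_mul_of_nonneg_right (dom_coef _ _ _ _) hh0.le).trans ?_
        rw [mul_assoc, ← pow_succ]
        exact dom_term hr hh0.le hh hε hMd hj (by omega) (by omega) (by omega))
      (z := u 1 (p + h))
      (by
        refine (mul_le_mul_of_nonneg_right h1 hh0.le).trans (le_of_eq ?_)
        field_simp
        ring)
    rw [Finset.sum_singleton] at h2
    have e : (1 : ℤ) + ((M - 1 : ℕ) : ℤ) - ((0 : ℕ) : ℤ) = M := by omega
    simp only [e] at h2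
    convert h2 using 3
    simp
    ring
  · have h1 := htay (J + 1) O u 0 p h _ hu hO fun y hy' j hj' => hK y hy' j (by omega)
    have h2 := dom_sum (le_refl (J + 1)) (fun ab => (h / 2) ^ ab.1 * (-conj h / 2) ^ ab.2 /
      (ab.1.factorial * ab.2.factorial) * u (0 + ab.1 - ab.2) p) {(M, 0), (0, M)} zero_le_one hX0
      (by simp; omega)
      (by
        intro ab h3 h4
        have h5 : ¬(ab.1 = M ∧ ab.2 = 0) := fun h6 => h4 (by
          rw [Finset.mem_insert]; exact Or.inl (Prod.ext h6.1 h6.2))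
        have h7 : ¬(ab.1 = 0 ∧ ab.2 = M) := fun h6 => h4 (by
          rw [Finset.mem_insert, Finset.mem_singleton]; exact Or.inr (Prod.ext h6.1 h6.2))
        rw [mul_one]
        refine (dom_coef _ _ _ _).trans ?_
        exact dom_term hr hh0.le hh hε hMd hj (by omega) (by omega) (by omega))
      (z := u 0 (p + h))
      (by
        rw [mul_one]
        refine h1.trans (le_of_eq ?_)
        field_simp)
    rw [Finset.sum_pair (by simp; omega), mul_one] at h2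
    have e1 : (0 : ℤ) + (M : ℤ) - ((0 : ℕ) : ℤ) = M := by omega
    have e2 : (0 : ℤ) + ((0 : ℕ) : ℤ) - (M : ℤ) = -M := by omega
    simp only [e1, e2] at h2
    convert h2 using 3
    have e5 : ∀ z : ℂ, 2 * (z.re : ℂ) = z + conj z := fun z => by
      rw [Complex.add_conj]; push_cast; ring
    rw [hr, e5]
    have e3 : (-conj h / 2) ^ M = (-1) ^ M * (conj h / 2) ^ M := by
      rw [← mul_pow]; congr 1; ring
    have e4 : ((-1 : ℂ)) ^ M * (-1) ^ M = 1 := by rw [← mul_pow]; simp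
    rw [e3]
    simp only [map_div₀, map_mul, map_pow, map_natCast, map_ofNat, zpow_natCast, pow_zero,
      Nat.factorial_zero, Nat.cast_one, mul_one, one_mul]
    linear_combination (-(conj h / 2) ^ M / M.factorial * conj (u M p)) * e4

end

end Pool.Agent.P.MP_6b977f_mp.EB
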