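import Pool.Agent.P.MP_6b977f_mp.EB.IfB

/-! Solving a linear system close to a projection. -/

namespace Pool.Agent.P.MP_6b977f_mp.EB

open Real MeasureTheory Filter Topology Laplacian Set Metric
open scoped ContDiff BoundedContinuousFunction ComplexConjugate Pointwise ENNReal

noncomputable section

theorem fix_bound {ι : Type} [Fintype ι] {w : ι → ℝ} {Φ π' : (ι → ℂ) →ₗ[ℝ] (ι → ℂ)}
    (hw : ∀ i, 0 < w i)
    (hc : ∀ a (K : ℝ), (∀ i, w i * ‖a i‖ ≤ K) → ∀ i, w i * ‖Φ a i - π' a i‖ ≤ K / 2)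
    {a : ι → ℂ} (ha : π' a = a) {K : ℝ} (hK : ∀ i, w i * ‖Φ a i‖ ≤ K) (i : ι) :
    w i * ‖a i‖ ≤ 2 * K := by
  obtain ⟨k, -, hk⟩ := Finset.exists_max_image Finset.univ (fun i => w i * ‖a i‖)
    ⟨i, Finset.mem_univ i⟩
  have h1 := hc a (w k * ‖a k‖) (fun i => hk i (Finset.mem_univ i)) k
  rw [ha] at h1
  have h2 : ‖a k‖ ≤ ‖Φ a k‖ + ‖Φ a k - a k‖ := by
    calc ‖a k‖ = ‖Φ a k - (Φ a k - a k)‖ := by rw [sub_sub_cancel]
      _ ≤ _ := norm_sub_le _ _
  have h3 := mul_le_mul_of_nonneg_left h2 (hw k).le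
  have h4 := hK k
  have h5 := hk i (Finset.mem_univ i)
  linarith

theorem t_fix : S_FIX := by
  intro ι _ w Φ π' hw hπ hc b K hb hK
  let F : Submodule ℝ (ι → ℂ) := LinearMap.ker (π' - LinearMap.id)
  have hF : ∀ a, a ∈ F ↔ π' a = a := by
    intro a
    simp [F, sub_eq_zero]
  let Ψ : F →ₗ[ℝ] F := Φ.restrict fun a _ => (hF _).2 (hπ a)
  have hinj : Function.Injective Ψ := by
    rw [← LinearMap.ker_eq_bot, LinearMap.ker_eq_bot']
    intro a ha
    have h0 : Φ a = 0 := congrArg Subtype.val ha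
    apply Subtype.ext
    funext i
    have h1 := fix_bound hw hc ((hF _).1 a.2) (K := 0) (by intro i; simp [h0]) i
    have h2 := hw i
    have h3 : ‖a.1 i‖ ≤ 0 := by
      by_contra h
      push Not at h
      nlinarith
    simpa using h3
  obtain ⟨a, ha⟩ := LinearMap.injective_iff_surjective.1 hinj ⟨b, (hF _).2 hb⟩
  have h0 : Φ a = b := congrArg Subtype.val ha
  exact ⟨a, h0, fix_bound hw hc ((hF _).1 a.2) (by rw [h0]; exact hK)⟩

end

end Pool.Agent.P.MP_6b977f_mp.EB
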