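import Pool.Agent.P.MP_6b977f_mp.EB.IfB

/-! The bottom side gives a flat piece of the boundary. -/

namespace Pool.Agent.P.MP_6b977f_mp.EB

open Real MeasureTheory Filter Topology Laplacian Set Metric
open scoped ContDiff BoundedContinuousFunction ComplexConjugate Pointwise ENNReal

noncomputable section

theorem t_flatp (hpol0 : S_POL0) (htab : S_TAB) : S_FLATP := by
  intro P ρ σ c hP hρ he hσ hσρ
  have hS : 0 < P.S := by have := hP.three; omega
  obtain ⟨h1, -, h2, -⟩ := hpol0 P c hP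
  obtain ⟨hH, -, -, h3, h4⟩ := h1 0 hS
  obtain ⟨-, -, h5⟩ := h2 ρ hρ
  have hL := hP.len 0 hS
  have hH' : (P.V 0).im < 0 := by
    simp only [cross, he, Complex.one_im, Complex.one_re] at hH; linarith
  set z : ℂ := P.V 0 + (P.L 0 / 2 : ℝ) with hz
  have zim : z.im = (P.V 0).im := by simp [hz]
  have zre : z.re = (P.V 0).re + P.L 0 / 2 := by simp [hz]
  have hg : ContinuousAt (fun y : ℂ => (P.V 0).im / y.im * y.re - (P.V 0).re) z :=
    ((continuousAt_const.div Complex.continuous_im.continuousAt (by rw [zim]; exact hH'.ne)).mul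
      Complex.continuous_re.continuousAt).sub continuousAt_const
  have gz : (P.V 0).im / z.im * z.re - (P.V 0).re ∈ Ioo 0 (P.L 0) := by
    rw [zim, zre, div_self hH'.ne]
    constructor <;> linarith
  obtain ⟨r, hr, hb⟩ := Metric.eventually_nhds_iff_ball.1
    ((hg.eventually (isOpen_Ioo.mem_nhds gz)).and
      (Complex.continuous_im.continuousAt.eventually
        (isOpen_Iio.mem_nhds (show z.im ∈ Iio 0 by rw [zim]; exact hH'))))
  refine ⟨z, min r (-(P.V 0).im / 2), lt_min hr (by linarith),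
    (min_le_right _ _).trans_lt (by rw [zim]; linarith), fun y hy => ?_⟩
  obtain ⟨k1, k2⟩ := hb y (ball_subset_ball (min_le_left _ _) hy)
  have k2 : y.im < 0 := k2
  have hx : (((P.V 0).im / y.im : ℝ) : ℂ) * y ∈ P.side 0 := by
    refine ⟨_, Ioo_subset_Icc_self k1, ?_⟩
    rw [he]
    apply Complex.ext
    · simp only [Complex.re_ofReal_mul, mul_one, Complex.add_re, Complex.ofReal_re]; ring
    · simp only [Complex.im_ofReal_mul, mul_one, Complex.add_im, Complex.ofReal_im]
      rw [div_mul_cancel₀ _ k2.ne, add_zero]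
  obtain ⟨t, ht, e⟩ := h4 _ hx
  have ha : 0 ≤ y.im / (P.V 0).im * P.rad 0 t :=
    mul_nonneg (div_pos_of_neg_of_neg k2 hH').le (h3 t ht).1.le
  have ey : y = ((y.im / (P.V 0).im * P.rad 0 t : ℝ) : ℂ) * ex t := by
    have n1 : ((y.im : ℝ) : ℂ) ≠ 0 := by exact_mod_cast k2.ne
    have n2 : (((P.V 0).im : ℝ) : ℂ) ≠ 0 := by exact_mod_cast hH'.ne
    push_cast at e ⊢
    rw [mul_assoc, ← e]
    field_simp
  have t1 := (htab σ hσ).2.2.2.2.2.2.1 _ t ha
  have t2 := (htab ρ hρ.1).2.2.2.2.2.2.1 _ t ha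
  have t3 := h5 0 hS t ht _ ha
  rw [hσρ t ht, ← t2, t3, ← ey] at t1
  rw [t1, zim]
  simp only [cross, he, Complex.one_im, Complex.one_re]
  constructor <;> intro h <;> linarith

end

end Pool.Agent.P.MP_6b977f_mp.EB
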