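import Pool.Agent.P.MP_6b977f_mp.EB.IfB

namespace Pool.Agent.P.MP_6b977f_mp.EB

open Real MeasureTheory Filter Topology Laplacian Set Metric
open scoped ContDiff BoundedContinuousFunction ComplexConjugate Pointwise ENNReal

theorem gauge_arg {u : ℂ} (hu : u ≠ 0) : |u.arg| ≤ π * ‖u - 1‖ := by
  have h0 : 0 < ‖u‖ := norm_pos_iff.2 hu
  have h0' : (‖u‖ : ℂ) ≠ 0 := by exact_mod_cast h0.ne'
  have h1 : ‖u / (‖u‖ : ℂ)‖ = 1 := by simp [hu]
  have h2 := Complex.angle_le_mul_norm_sub h1 norm_one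
  rw [Complex.angle_one_right (div_ne_zero hu h0'), div_eq_mul_inv, ← Complex.ofReal_inv,
    Complex.arg_mul_real (inv_pos.2 h0), Complex.ofReal_inv, ← div_eq_mul_inv] at h2
  have h3 : ‖u / (‖u‖ : ℂ) - u‖ ≤ ‖u - 1‖ := by
    have e : u / (‖u‖ : ℂ) - u = u / (‖u‖ : ℂ) * ((1 - ‖u‖ : ℝ) : ℂ) := by
      push_cast; field_simp
    rw [e, norm_mul, h1, one_mul, Complex.norm_real, Real.norm_eq_abs, abs_sub_comm]
    simpa using abs_norm_sub_norm_le u 1
  have h4 := norm_sub_le_norm_sub_add_norm_sub (u / (‖u‖ : ℂ)) u 1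
  nlinarith [pi_pos]

theorem gauge_exp {x y M : ℝ} (hx : x ≤ M) (hy : y ≤ M) :
    |Real.exp x - Real.exp y| ≤ Real.exp M * |x - y| := by
  wlog h : x ≤ y generalizing x y
  · rw [abs_sub_comm, abs_sub_comm x]; exact this hy hx (le_of_not_ge h)
  have h1 := Real.add_one_le_exp (x - y)
  rw [Real.exp_sub, le_div_iff₀ (Real.exp_pos y)] at h1
  rw [abs_sub_comm, abs_sub_comm x, abs_of_nonneg (sub_nonneg.2 (Real.exp_le_exp.2 h)),
    abs_of_nonneg (sub_nonneg.2 h)]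
  nlinarith [mul_le_mul_of_nonneg_right (Real.exp_le_exp.2 hy) (sub_nonneg.2 h)]

theorem t_gauge (htab : S_TAB) : S_GAUGE := by
  intro ρ K hρ hK
  have hK' : ∀ t t', |ρ t - ρ t'| ≤ |K| * |t - t'| := fun t t' =>
    (hK t t').trans (mul_le_mul_of_nonneg_right (le_abs_self K) (abs_nonneg _))
  obtain ⟨M, hM⟩ : ∃ M : ℝ, ∀ z : ℂ, -ρ z.arg ≤ M := by
    refine ⟨|K| * π - ρ 0, fun z => ?_⟩
    have h1 := (abs_le.1 (hK' z.arg 0)).1
    rw [sub_zero] at h1
    have := mul_le_mul_of_nonneg_left (Complex.abs_arg_le_pi z) (abs_nonneg K)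
    linarith
  have hE := Real.exp_pos M
  have hπ := pi_pos
  refine ⟨Real.exp M * (1 + |K| * π), by positivity, fun z w => ?_⟩
  have key : ‖w‖ * |Real.exp (-ρ z.arg) - Real.exp (-ρ w.arg)| ≤
      Real.exp M * (|K| * π) * ‖z - w‖ ∨ z = 0 := by
    by_cases hz : z = 0
    · exact Or.inr hz
    left
    by_cases hw : w = 0
    · rw [hw, norm_zero, zero_mul]; positivity
    have a1 := Complex.arg_div_coe_angle hz hw
    rw [← Real.Angle.coe_sub, Real.Angle.angle_eq_iff_two_pi_dvd_sub] at a1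
    obtain ⟨k, hk⟩ := a1
    have a2 : ρ (w.arg + (z / w).arg) = ρ z.arg := by
      rw [← hρ.2.int_mul k z.arg]
      congr 1
      linarith
    have a3 := hK' (w.arg + (z / w).arg) w.arg
    rw [a2, add_sub_cancel_left] at a3
    have a4 := gauge_exp (hM z) (hM w)
    rw [neg_sub_neg, abs_sub_comm (ρ w.arg)] at a4
    have a5 := gauge_arg (div_ne_zero hz hw)
    have a6 : ‖w‖ * ‖z / w - 1‖ = ‖z - w‖ := by
      rw [← norm_mul]; congr 1; field_simp
    have a7 := a4.trans (mul_le_mul_of_nonneg_left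
      (a3.trans (mul_le_mul_of_nonneg_left a5 (abs_nonneg K))) hE.le)
    refine (mul_le_mul_of_nonneg_left a7 (norm_nonneg w)).trans (le_of_eq ?_)
    rw [← a6]; ring
  have p0 : 0 ≤ Real.exp M * (|K| * π) * ‖z - w‖ := by positivity
  rcases key with key | rfl
  · have e : ‖z‖ * Real.exp (-ρ z.arg) - ‖w‖ * Real.exp (-ρ w.arg) =
        (‖z‖ - ‖w‖) * Real.exp (-ρ z.arg) +
          ‖w‖ * (Real.exp (-ρ z.arg) - Real.exp (-ρ w.arg)) := by ring
    rw [e]
    refine (abs_add_le _ _).trans ?_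
    rw [abs_mul, abs_mul, abs_norm, abs_of_pos (Real.exp_pos _)]
    have := mul_le_mul (abs_norm_sub_norm_le z w) (Real.exp_le_exp.2 (hM z)) (Real.exp_pos _).le
      (norm_nonneg _)
    linarith
  · rw [norm_zero, zero_mul, zero_sub, abs_neg, abs_of_nonneg (by positivity)]
    have := mul_le_mul_of_nonneg_left (Real.exp_le_exp.2 (hM w)) (norm_nonneg w)
    rw [zero_sub, norm_neg] at *
    linarith

end Pool.Agent.P.MP_6b977f_mp.EB
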