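import Pool.Agent.P.MP_6b977f_mp.EB.IfB

/-! A generic angle: the frequencies of the wave are independent over the integers. -/

namespace Pool.Agent.P.MP_6b977f_mp.EB

open Real MeasureTheory Filter Topology Laplacian Set Metric
open scoped ContDiff BoundedContinuousFunction ComplexConjugate Pointwise ENNReal

theorem gen_tr : ∃ ϑ : ℝ, ex ϑ ∉ algebraicClosure ℚ ℂ := by
  by_contra h
  push Not at h
  have h1 : (Icc 0 π).Countable := countable_of_injective_of_countable_image (f := ex)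
    (fun a ha b hb e => injOn_cos ha hb (by
      simpa only [ex, Complex.exp_ofReal_mul_I_re] using congrArg Complex.re e))
    ((Algebraic.countable ℚ ℂ).mono fun _ ⟨t, _, e⟩ => e ▸ mem_algebraicClosure_iff.1 (h t))
  have := h1.measure_zero volume
  simp [pi_pos.not_ge] at this

theorem gen_ind {q : ℕ} (hq : q.Prime) {ζ : ℂ} (h : IsPrimitiveRoot ζ q) {a : ℕ → ℤ}
    (e : ∑ m ∈ Finset.Ico 1 q, a m * ζ ^ m = 0) : ∀ m ∈ Finset.Ico 1 q, a m = 0 := by
  have h1 := linearIndependent_pow (K := ℚ) ζ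
  rw [← Polynomial.cyclotomic_eq_minpoly_rat h hq.pos, Polynomial.natDegree_cyclotomic,
    Nat.totient_prime hq, Fintype.linearIndependent_iff] at h1
  intro m hm
  rw [Finset.mem_Ico] at hm
  have := h1 (fun i => a (1 + i)) (mul_left_cancel₀ (h.ne_zero hq.ne_zero) ?_) ⟨m - 1, by omega⟩
  · simpa [show 1 + (m - 1) = m by omega] using this
  rw [mul_zero, ← e, Finset.sum_Ico_eq_sum_range, Finset.sum_range, Finset.mul_sum]
  refine Finset.sum_congr rfl fun i _ => ?_
  rw [Rat.smul_def, Rat.cast_intCast]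
  ring

theorem t_gen : S_GEN := by
  intro q hq
  obtain ⟨ϑ, hϑ⟩ := gen_tr
  have h := Complex.isPrimitiveRoot_exp q hq.ne_zero
  have al : ∀ {x : ℂ} {n : ℕ}, n ≠ 0 → x ^ n ∈ algebraicClosure ℚ ℂ → x ∈ algebraicClosure ℚ ℂ :=
    fun hn h => mem_algebraicClosure_iff.2
      (IsAlgebraic.of_pow (Nat.pos_of_ne_zero hn) (mem_algebraicClosure_iff.1 h))
  have w0 : ex ϑ ≠ 0 := Complex.exp_ne_zero _
  refine ⟨ϑ, fun e => hϑ (al (n := 2 * (2 * q)) (by simp [hq.ne_zero]) ?_), fun a b e => ?_⟩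
  · obtain ⟨n, hn⟩ := sin_eq_zero_iff.1 e
    rw [ex, ← Complex.exp_nat_mul, Complex.exp_eq_one_iff.2 ⟨n, ?_⟩]
    · exact one_mem _
    · have := congrArg (fun x : ℝ => (x : ℂ)) hn
      push_cast at this ⊢
      linear_combination (-2 * Complex.I) * this
  set ζ := Complex.exp (2 * π * Complex.I / q)
  have e1 : ∀ (m : ℕ) (t : ℝ), ex (2 * π * m / q + t) = ζ ^ m * ex t := fun m t => by
    rw [ex, ex, ← Complex.exp_nat_mul, ← Complex.exp_add]
    congr 1
    push_cast
    ring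
  have e2 : ex (-ϑ) = (ex ϑ)⁻¹ := by simp [ex, Complex.exp_neg]
  simp only [sub_eq_add_neg, e1, e2, ← mul_assoc, Finset.sum_add_distrib, ← Finset.sum_mul] at e
  have ms : ∀ a : ℕ → ℤ, ∑ m ∈ Finset.Ico 1 q, a m * ζ ^ m ∈ algebraicClosure ℚ ℂ := fun a =>
    sum_mem fun m _ => mul_mem (intCast_mem _ _)
      (pow_mem (al hq.ne_zero (h.pow_eq_one ▸ one_mem _)) _)
  have hA : ∑ m ∈ Finset.Ico 1 q, a m * ζ ^ m = 0 := by
    by_contra hA
    refine hϑ (al two_ne_zero ?_)
    convert div_mem (neg_mem (ms b)) (ms a) using 1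
    field_simp at e ⊢
    linear_combination e
  rw [hA, zero_mul, zero_add, mul_eq_zero, inv_eq_zero, or_iff_left w0] at e
  exact fun m hm => ⟨gen_ind hq h hA m hm, gen_ind hq h e m hm⟩

end Pool.Agent.P.MP_6b977f_mp.EB
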