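import Pool.Agent.P.MP_6b977f_mp.EB.IfB

/-! Quantitative geometry of a star-shaped polygon. -/

namespace Pool.Agent.P.MP_6b977f_mp.EB

open Real MeasureTheory Filter Topology Laplacian Set Metric
open scoped ContDiff BoundedContinuousFunction ComplexConjugate Pointwise ENNReal

theorem geo1_small {a : ℝ} (h : 0 < a) : ∀ᶠ c in 𝓝[>] (0 : ℝ), c ≤ a :=
  mem_nhdsWithin_of_mem_nhds (Iic_mem_nhds h)

theorem geo1_pos {X : Type} [TopologicalSpace X] {K : Set X} (hK : IsCompact K) {f : X → ℝ}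
    (hf : Continuous f) (h : ∀ x ∈ K, 0 < f x) : ∀ᶠ c in 𝓝[>] (0 : ℝ), ∀ x ∈ K, c ≤ f x := by
  obtain ⟨a, h1, h2⟩ := hK.exists_forall_le' hf.continuousOn h
  exact (geo1_small h1).mono fun c hc x hx => hc.trans (h2 x hx)

theorem geo1_all {n : ℕ} {p : ℕ → ℝ → Prop} (h : ∀ s < n, ∀ᶠ c in 𝓝[>] (0 : ℝ), p s c) :
    ∀ᶠ c in 𝓝[>] (0 : ℝ), ∀ s < n, p s c :=
  (eventually_all_finite (finite_lt_nat n)).2 h

theorem geo1_cpt (P : Poly) (s : ℕ) : IsCompact (P.side s) := by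
  have : P.side s = (fun τ : ℝ => P.V s + τ * P.e s) '' Icc 0 (P.L s) := by
    ext x
    exact ⟨fun ⟨τ, h, e⟩ => ⟨τ, h, e.symm⟩, fun ⟨τ, h, e⟩ => ⟨τ, h, e.symm⟩⟩
  rw [this]
  exact isCompact_Icc.image (by fun_prop)

theorem geo1_norm (t : ℝ) : ‖ex t‖ = 1 := Complex.norm_exp_ofReal_mul_I t

theorem geo1_norm' {a : ℝ} (h : 0 ≤ a) (t : ℝ) : ‖(a : ℂ) * ex t‖ = a := by
  rw [norm_mul, geo1_norm, mul_one, Complex.norm_real, Real.norm_of_nonneg h]

theorem geo1_ne {a b t t' : ℝ} (ha : 0 < a) (hb : 0 < b) (h1 : t < t') (h2 : t' < t + 2 * π) :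
    (a : ℂ) * ex t ≠ b * ex t' := fun h => by
  have h3 := congrArg norm h
  rw [geo1_norm' ha.le, geo1_norm' hb.le] at h3
  subst h3
  obtain ⟨n, hn⟩ := Complex.exp_eq_exp_iff_exists_int.1
    (mul_left_cancel₀ (Complex.ofReal_ne_zero.2 ha.ne') h).symm
  have h4 : t' = t + n * (2 * π) := by simpa using congrArg Complex.im hn
  have h5 : (0 : ℝ) < n := by nlinarith [pi_pos]
  have h6 : (n : ℝ) < 1 := by nlinarith [pi_pos]
  have h7 : 0 < n := by exact_mod_cast h5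
  have h8 : n < 1 := by exact_mod_cast h6
  omega

theorem geo1_cross {u : ℂ} (hu : ‖u‖ = 1) (z : ℂ) : cross u z ≤ ‖z‖ := by
  have := Complex.im_le_norm (conj u * z)
  rw [norm_mul, Complex.norm_conj, hu, one_mul] at this
  refine le_trans (le_of_eq ?_) this
  simp [cross]
  ring

theorem geo1_arg {ρ : ℝ → ℝ} (h : CP ρ) {a : ℝ} (ha : 0 < a) (t : ℝ) :
    ρ ((a : ℂ) * ex t).arg = ρ t := by
  have := Complex.arg_mul_cos_add_sin_mul_I_sub ha t
  rw [← Complex.exp_mul_I, sub_eq_iff_eq_add', mul_comm (2 * π)] at this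
  exact (congrArg ρ this).trans (h.2.int_mul _ t)

theorem geo1_dec {V e : ℂ} (h : cross V e ≠ 0) (n : ℂ) :
    n = (cross n e / cross V e : ℝ) * V + (cross V n / cross V e : ℝ) * e := by
  apply Complex.ext <;>
  · simp only [Complex.add_re, Complex.add_im, Complex.re_ofReal_mul, Complex.im_ofReal_mul]
    field_simp
    simp only [cross]
    ring

variable {P : Poly} {c : ℝ}

theorem geo1_mono (h : P.Ok c) {i j : ℕ} (h1 : i < j) (h2 : j ≤ P.S) : P.φ i < P.φ j := by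
  induction j, h1 using Nat.le_induction with
  | base => exact h.mono i h2
  | succ j _ ih => exact (ih (by omega)).trans (h.mono j h2)

theorem geo1_mono' (h : P.Ok c) {i j : ℕ} (h1 : i ≤ j) (h2 : j ≤ P.S) : P.φ i ≤ P.φ j :=
  h1.eq_or_lt.elim (fun e => (congrArg _ e).le) fun e => (geo1_mono h e h2).le

theorem geo1_adj (h : P.Ok c) {s s' : ℕ} (hs : s < P.S) (hs' : s' < P.S)
    (e1 : P.V (s + 1) = P.V s') {x x' : ℂ} (hx : x ∈ P.side s) (hx' : x' ∈ P.side s') :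
    c * ‖x - P.V s'‖ ≤ ‖x - x'‖ ∧ c * ‖x' - P.V s'‖ ≤ ‖x' - x‖ := by
  obtain ⟨τ, h1, rfl⟩ := hx
  obtain ⟨τ', h2, rfl⟩ := hx'
  have e2 : ex (P.φ (s + 1)) = ex (P.φ s') := mul_left_cancel₀
    (Complex.ofReal_ne_zero.2 (norm_ne_zero_iff.2 (h.pol s' hs'.le).1))
    ((e1 ▸ (h.pol (s + 1) hs).2).symm.trans (h.pol s' hs'.le).2)
  have a1 := h.tr s hs _ (right_mem_Icc.2 (h.mono s hs).le)
  have a2 := h.tr s' hs' _ (left_mem_Icc.2 (h.mono s' hs').le)
  rw [e2] at a1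
  have a3 := geo1_cross (geo1_norm (P.φ s')) (P.V s' + τ' * P.e s' - (P.V s + τ * P.e s))
  have a4 : P.V s + τ * P.e s - P.V s' = -((P.L s - τ : ℝ) * P.e s) := by
    rw [← e1, h.step s hs]; push_cast; ring
  have a5 : cross (ex (P.φ s')) (P.V s' + τ' * P.e s' - (P.V s + τ * P.e s)) =
      τ' * cross (ex (P.φ s')) (P.e s') + (P.L s - τ) * cross (ex (P.φ s')) (P.e s) := by
    rw [← e1, h.step s hs]; simp [cross]; ring
  rw [a4, add_sub_cancel_left, norm_neg, norm_mul, norm_mul, h.unit s hs, h.unit s' hs',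
    Complex.norm_real, Complex.norm_real, Real.norm_of_nonneg (sub_nonneg.2 h1.2),
    Real.norm_of_nonneg h2.1, norm_sub_rev (P.V s + _)]
  have a6 := mul_le_mul_of_nonneg_left a1 (sub_nonneg.2 h1.2)
  have a7 := mul_le_mul_of_nonneg_left a2 h2.1
  have a8 := mul_nonneg h2.1 h.c_pos.le
  have a9 := mul_nonneg (sub_nonneg.2 h1.2) h.c_pos.le
  constructor <;> linarith

theorem geo1_ht {a b τ L v : ℝ} (h : τ ∈ Icc 0 L) :
    (v ≤ a → v ≤ a + L * b → v ≤ a + τ * b) ∧ (v < a → v < a + L * b → v < a + τ * b) := by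
  rcases le_total 0 b with hb | hb
  · have := mul_nonneg h.1 hb
    exact ⟨fun _ _ => by linarith, fun _ _ => by linarith⟩
  · have := mul_le_mul_of_nonpos_right h.2 hb
    exact ⟨fun _ _ => by linarith, fun _ _ => by linarith⟩

theorem t_geo1 (hpol0 : S_POL0) (hgauge : S_GAUGE) (_hglue : S_GLUE) (htab : S_TAB) : S_GEO1 := by
  intro P ρ c h hρ hb
  obtain ⟨p1, -, p3, -⟩ := hpol0 P c h
  obtain ⟨p3, p4, -⟩ := p3 ρ hρ
  obtain ⟨C, C0, hC⟩ := hgauge ρ _ hρ.1 p4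
  obtain ⟨-, t2, -, -, t5, t6, -⟩ := htab ρ hρ.1
  obtain ⟨R, R0, hR⟩ := t2.closure.exists_pos_norm_le
  have h3 := h.three
  have pt : ∀ s < P.S, ∀ x ∈ P.side s, ∃ t ∈ P.sec s, 0 < P.rad s t ∧ x = P.rad s t * ex t :=
    fun s hs x hx => by
      obtain ⟨t, h1, h2⟩ := (p1 s hs).2.2.2.2 x hx
      exact ⟨t, h1, ((p1 s hs).2.2.2.1 t h1).1, h2⟩
  have bR : ∀ s < P.S, ∀ x ∈ P.side s, ‖x‖ ≤ R := fun s hs x hx =>
    hR x (frontier_subset_closure (p3 ▸ mem_biUnion hs hx))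
  have im : ∀ s < P.S, (P.V (s + 1)).im = (P.V s).im + P.L s * (P.e s).im := fun s hs => by
    rw [h.step s hs]; simp
  have i0 : (P.V 0).im < 0 := by simpa [cross, hb.1] using (p1 0 (by omega)).1
  have i1 : (P.V 1).im = (P.V 0).im := by simpa [hb.1] using im 0 (by omega)
  obtain ⟨n, hn⟩ : ∃ n, P.S = n + 1 := ⟨P.S - 1, by omega⟩
  have hn' : n < P.S := by omega
  have vn : P.V (n + 1) = P.V 0 := hn ▸ h.close
  have i2 : 0 < (P.e 1).im := by
    have := im 1 (by omega)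
    have := hb.2 2 le_rfl (by omega)
    exact (mul_pos_iff_of_pos_left (h.len 1 (by omega))).1 (by linarith)
  have i3 : 0 < -(P.e n).im := by
    have := im n hn'
    have := hb.2 n (by omega) hn'
    rw [vn] at *
    exact (mul_pos_iff_of_pos_left (h.len n hn')).1 (by linarith)
  have g1 : ∀ s < P.S, ∀ s' < P.S, s < s' → ∀ᶠ d in 𝓝[>] (0 : ℝ), ∀ x ∈ P.side s,
      ∀ x' ∈ P.side s', d ≤ ‖x - x'‖ ∨
        ∃ m < P.S, d * ‖x - P.V m‖ ≤ ‖x - x'‖ ∧ d * ‖x' - P.V m‖ ≤ ‖x' - x‖ := by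
    intro s hs s' hs' hl
    by_cases a1 : s' = s + 1
    · refine (geo1_small h.c_pos).mono fun d hd x hx x' hx' => Or.inr ⟨s', hs', ?_⟩
      exact (geo1_adj h hs hs' (a1 ▸ rfl) hx hx').imp
        (le_trans (by gcongr)) (le_trans (by gcongr))
    by_cases a2 : s = 0 ∧ s' = n
    · refine (geo1_small h.c_pos).mono fun d hd x hx x' hx' => Or.inr ⟨s, hs, ?_⟩
      exact (geo1_adj h hs' hs (a2.1 ▸ a2.2 ▸ vn) hx' hx).symm.imp
        (le_trans (by gcongr)) (le_trans (by gcongr))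
    refine (geo1_pos ((geo1_cpt P s).prod (geo1_cpt P s')) (f := fun p => ‖p.1 - p.2‖)
      (by fun_prop) fun p hp => norm_sub_pos_iff.2 ?_).mono
      fun d hd x hx x' hx' => Or.inl (hd (x, x') ⟨hx, hx'⟩)
    obtain ⟨t, b1, b2, b3⟩ := pt s hs _ hp.1
    obtain ⟨t', b4, b5, b6⟩ := pt s' hs' _ hp.2
    rw [b3, b6]
    refine geo1_ne b2 b5 (b1.2.trans_lt ((geo1_mono h (by omega) hs'.le).trans_le b4.1)) ?_
    have b7 := h.per
    have := b1.1
    have := b4.2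
    rcases Nat.eq_zero_or_pos s with rfl | b8
    · have := geo1_mono h (i := s' + 1) (j := P.S) (by omega) le_rfl
      linarith
    · have := geo1_mono h b8 hs.le
      have := geo1_mono' h (i := s' + 1) hs' le_rfl
      linarith
  have g3 : ∀ m < P.S, ∀ m' < P.S, m < m' → P.V m ≠ P.V m' := fun m hm m' hm' hl => by
    rw [(h.pol m hm.le).2, (h.pol m' hm'.le).2]
    refine geo1_ne (norm_pos_iff.2 (h.pol m hm.le).1) (norm_pos_iff.2 (h.pol m' hm'.le).1)
      (geo1_mono h hl hm'.le) ?_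
    have := h.per
    have := geo1_mono h hm' le_rfl
    have := geo1_mono' h m.zero_le hm.le
    linarith
  have k1 : ∀ s < P.S, ∀ x ∈ P.side s, ∀ a : ℝ, 1 ≤ a → ∀ y ∈ closure (table ρ),
      (a - 1) / C ≤ ‖y - a * x‖ := fun s hs x hx a ha y hy => by
    obtain ⟨t, b1, b2, rfl⟩ := pt s hs x hx
    have b3 := (abs_le.1 (hC y (a * (P.rad s t * ex t)))).1
    have b4 : 0 < a * P.rad s t := by positivity
    rw [t6] at hy
    have b5 : ‖y‖ * Real.exp (-ρ y.arg) ≤ 1 := by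
      rw [Real.exp_neg, ← div_eq_mul_inv]
      exact (div_le_one (Real.exp_pos _)).2 hy
    have b6 : ‖(a : ℂ) * (P.rad s t * ex t)‖ * Real.exp (-ρ ((a : ℂ) * (P.rad s t * ex t)).arg) =
        a := by
      rw [← mul_assoc, ← Complex.ofReal_mul, geo1_norm' b4.le, geo1_arg hρ.1 b4, hρ.2 s hs t b1,
        Real.exp_neg, Real.exp_log b2]
      field_simp
    rw [div_le_iff₀' C0]
    linarith
  have k2 : ∀ s < P.S, ∀ (τ : ℝ) (v w : ℂ) (p q : ℝ), v = P.V s + τ * P.e s →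
      w = p * v + q * P.e s → 0 < p → (τ = 0 ∧ 0 < q ∨ τ = P.L s ∧ q < 0) →
      ∀ᶠ d in 𝓝[>] (0 : ℝ), ∀ r ∈ Icc (0 : ℝ) d,
      ∀ y ∈ closure (table ρ), d * r ≤ ‖y - (v + r * w)‖ := by
    rintro s hs τ v w p q rfl hw hp hq
    have q0 : 0 < |q| := abs_pos.2 (hq.elim (·.2.ne') (·.2.ne))
    filter_upwards [geo1_small (div_pos hp C0), geo1_small (div_pos (h.len s hs) q0)]
      with d d1 d2 r hr y hy
    have r0 := mul_nonneg hr.1 hp.le
    have r1 : r * |q| ≤ P.L s := (le_div_iff₀ q0).1 (hr.2.trans d2)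
    have r2 : 0 < 1 + r * p := by linarith
    have r3 : r * |q| / (1 + r * p) ≤ P.L s := (div_le_self (mul_nonneg hr.1 q0.le)
      (by linarith)).trans r1
    have r4 : 0 ≤ r * |q| / (1 + r * p) := div_nonneg (mul_nonneg hr.1 q0.le) r2.le
    have := k1 s hs _ ⟨τ + r * q / (1 + r * p), by
      rcases hq with ⟨rfl, hq⟩ | ⟨rfl, hq⟩
      · rw [abs_of_pos hq] at r3 r4
        exact ⟨by linarith, by linarith⟩
      · rw [abs_of_neg hq, mul_neg, neg_div] at r3 r4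
        exact ⟨by linarith, by linarith⟩, rfl⟩ (1 + r * p) (by linarith) y hy
    have r5 : ((1 + r * p : ℝ) : ℂ) ≠ 0 := Complex.ofReal_ne_zero.2 r2.ne'
    refine le_trans ?_ (this.trans (le_of_eq (congrArg (‖y - ·‖) ?_)))
    · rw [add_sub_cancel_left, mul_div_assoc, mul_comm]
      exact mul_le_mul_of_nonneg_left d1 hr.1
    · rw [hw]
      push_cast at r5 ⊢
      field_simp
      ring
  have vn' : P.V 0 = P.V n + P.L n * P.e n := vn ▸ h.step n hn'
  have c0 : 0 < cross (P.V 0) (P.e n) := (p1 n hn').1.trans_eq (by rw [vn']; simp [cross]; ring)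
  have c1 := (p1 1 (by omega)).1
  have k3 := k2 n hn' (P.L n) (P.V 0) (-1) _ _ vn' (geo1_dec c0.ne' _)
    (div_pos (by simpa [cross] using i3) c0)
    (Or.inr ⟨rfl, div_neg_of_neg_of_pos (by simpa [cross] using i0) c0⟩)
  have k4 := k2 1 (by omega) 0 (P.V 1) 1 _ _ (by simp) (geo1_dec c1.ne' _)
    (div_pos (by simpa [cross] using i2) c1)
    (Or.inl ⟨rfl, div_pos (by simpa [cross, i1] using i0) c1⟩)
  have n0 : ∀ s < P.S, ∀ x ∈ P.side s, 0 < ‖x‖ := fun s hs x hx => by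
    obtain ⟨t, -, b2, rfl⟩ := pt s hs x hx
    rwa [geo1_norm' b2.le]
  have i4 : ∀ s ≤ P.S, (P.V 0).im ≤ (P.V s).im := fun s hs => by
    rcases hs.eq_or_lt with rfl | hs
    · rw [h.close]
    · rcases s with _ | _ | s
      exacts [le_rfl, i1.ge, (hb.2 _ (by omega) hs).le]
  have g5 : ∀ s < P.S, ∀ᶠ d in 𝓝[>] (0 : ℝ), 0 ≤ d → 1 ≤ s → ∀ x ∈ P.side s,
      d * min 1 (min ‖x - P.V 0‖ ‖x - P.V 1‖) ≤ x.im - (P.V 0).im := by
    intro s hs
    rcases Nat.eq_zero_or_pos s with rfl | s0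
    · exact .of_forall fun d _ h => absurd h (by omega)
    by_cases a1 : s = 1
    · subst a1
      filter_upwards [geo1_small i2]
      rintro d d1 d0 - _ ⟨τ, b1, rfl⟩
      refine (mul_le_mul d1 ((min_le_right _ _).trans (min_le_right _ _)) (by positivity)
        i2.le).trans_eq ?_
      rw [add_sub_cancel_left, norm_mul, h.unit 1 hs, Complex.norm_real, Real.norm_of_nonneg b1.1]
      simp [i1, mul_comm]
    by_cases a2 : s = n
    · subst a2
      filter_upwards [geo1_small i3]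
      rintro d d1 d0 - _ ⟨τ, b1, rfl⟩
      refine (mul_le_mul d1 ((min_le_right _ _).trans (min_le_left _ _)) (by positivity)
        i3.le).trans_eq ?_
      rw [vn', add_sub_add_left_eq_sub, ← sub_mul, norm_mul, h.unit s hs, ← Complex.ofReal_sub,
        Complex.norm_real, Real.norm_of_nonpos (sub_nonpos.2 b1.2)]
      simp
      ring
    refine (geo1_pos (geo1_cpt P s) (f := fun x => x.im - (P.V 0).im) (by fun_prop) ?_).mono
      fun d hd d0 _ x hx => (mul_le_of_le_one_right d0 (min_le_left _ _)).trans (hd x hx)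
    rintro _ ⟨τ, b1, rfl⟩
    simpa using (geo1_ht b1).2 (hb.2 s (by omega) hs) (im s hs ▸ hb.2 (s + 1) (by omega) (by omega))
  have g2 : ∀ m < P.S, ∀ s < P.S, ∀ᶠ d in 𝓝[>] (0 : ℝ), ∀ x ∈ P.side s,
      P.V m ∈ P.side s ∨ d ≤ ‖x - P.V m‖ := fun m _ s _ => by
    by_cases a : P.V m ∈ P.side s
    · exact .of_forall fun _ _ _ => Or.inl a
    · exact (geo1_pos (geo1_cpt P s) (f := fun x => ‖x - P.V m‖) (by fun_prop) fun x hx =>
        norm_sub_pos_iff.2 fun e => a (e ▸ hx)).mono fun d hd x hx => Or.inr (hd x hx)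
  obtain ⟨d, ⟨d0, d1, d2, d3, d4, d5⟩, e1, e2, e3, e5, e7⟩ := (((eventually_mem_nhdsWithin).and
    ((geo1_small h.c_pos).and ((geo1_small (show (0 : ℝ) < 1 / 4 by norm_num)).and
    ((geo1_small (div_pos (inv_pos.2 R0) C0)).and (k3.and k4))))).and
    ((geo1_all fun s hs => geo1_all fun s' hs' => eventually_imp_distrib_left.2 (g1 s hs s' hs')).and
    ((geo1_all fun m hm => geo1_all (g2 m hm)).and
    ((geo1_all fun m hm => geo1_all fun m' hm' => eventually_imp_distrib_left.2 fun hl =>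
      geo1_small (norm_sub_pos_iff.2 (g3 m hm m' hm' hl))).and ((geo1_all g5).and
    (geo1_all fun s hs => geo1_pos (geo1_cpt P s) continuous_norm (n0 s hs))))))).exists
  refine ⟨d, R, d0, d1, d2, fun s hs s' hs' hne x hx x' hx' => ?_, e2, fun m hm m' hm' hne => ?_,
    fun s hs x hx r hr y hy => ?_, fun s s1 hs => e5 s hs d0.le s1, fun y hy => ?_,
    fun s hs x hx => ⟨e7 s hs x hx, bR s hs x hx⟩⟩
  · rcases hne.lt_or_gt with hl | hl
    · exact (e1 s hs s' hs' hl x hx x' hx').imp_right fun ⟨m, a, b⟩ => ⟨m, a, b.1⟩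
    · exact (e1 s' hs' s hs hl x' hx' x hx).imp (norm_sub_rev x x' ▸ id)
        fun ⟨m, a, b⟩ => ⟨m, a, b.2⟩
  · rcases hne.lt_or_gt with hl | hl
    · exact e3 m hm m' hm' hl
    · exact norm_sub_rev (P.V m) _ ▸ e3 m' hm' m hm hl
  · unfold Poly.nn
    split_ifs with a1 a2
    · exact a1 ▸ d4 r hr y hy
    · exact a2 ▸ d5 r hr y hy
    have x0 := n0 s hs x hx
    refine le_trans ?_ ((k1 s hs x hx (1 + r / ‖x‖) (le_add_of_nonneg_right
      (div_nonneg hr.1 x0.le)) y hy).trans_eq (congrArg (‖y - ·‖) (by push_cast; ring)))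
    rw [add_sub_cancel_left, div_eq_mul_inv r, mul_div_assoc, mul_comm]
    exact mul_le_mul_of_nonneg_left (d3.trans (div_le_div_of_nonneg_right
      (inv_anti₀ x0 (bR s hs x hx)) C0.le)) hr.1
  · obtain ⟨s, hs, τ, b1, b2⟩ := mem_iUnion₂.1 (p3 ▸ t5 ▸ mem_range_self (f := bd ρ) y.arg)
    have b3 := (geo1_ht b1).1 (i4 s hs.le) (im s hs ▸ i4 (s + 1) hs)
    have b4 := congrArg Complex.im b2
    have b5 := congrArg Complex.im (Complex.norm_mul_exp_arg_mul_I y)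
    rw [t6, mem_ofPred_eq] at hy
    simp only [bd, ex, Complex.im_ofReal_mul, Complex.add_im] at b4 b5
    rw [← b4] at b3
    rw [← b5]
    rcases le_total 0 (Complex.exp (y.arg * Complex.I)).im with b6 | b6
    · exact i0.le.trans (mul_nonneg (norm_nonneg _) b6)
    · exact b3.trans (mul_le_mul_of_nonpos_right hy b6)

end Pool.Agent.P.MP_6b977f_mp.EB
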