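import Pool.Agent.P.MP_6b977f_mp.EB.IfB

/-! The geometric constants of a polygon survive a dilation. -/

namespace Pool.Agent.P.MP_6b977f_mp.EB

open Real MeasureTheory Filter Topology Laplacian Set Metric
open scoped ContDiff BoundedContinuousFunction ComplexConjugate Pointwise ENNReal

theorem geo2_side {P : Poly} {k : ℝ} (k0 : 0 < k) {s : ℕ} {x : ℂ} :
    x ∈ (P.sc k).side s ↔ ∃ y ∈ P.side s, x = k * y := by
  constructor
  · rintro ⟨τ, ⟨h1, h2⟩, rfl⟩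
    refine ⟨_, ⟨τ / k, ⟨by positivity, (div_le_iff₀' k0).2 h2⟩, rfl⟩, ?_⟩
    have : (k : ℂ) ≠ 0 := by exact_mod_cast k0.ne'
    simp only [Poly.sc]
    push_cast
    field_simp
  · rintro ⟨_, ⟨τ, ⟨h1, h2⟩, rfl⟩, rfl⟩
    exact ⟨k * τ, ⟨by positivity, mul_le_mul_of_nonneg_left h2 k0.le⟩, by
      simp only [Poly.sc]; push_cast; ring⟩

theorem geo2_nn (P : Poly) {k : ℝ} (k0 : 0 < k) (x : ℂ) : (P.sc k).nn (k * x) = P.nn x := by
  have : (k : ℂ) ≠ 0 := by exact_mod_cast k0.ne'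
  simp only [Poly.nn, Poly.sc, mul_right_inj' this, norm_mul, Complex.norm_of_nonneg k0.le,
    Complex.ofReal_mul, mul_div_mul_left _ _ this]

theorem t_geo2 (htab : S_TAB) : S_GEO2 := by
  intro P ρ c R k hρ c0 G k1
  have k0 : 0 < k := by linarith
  have kc : (k : ℂ) ≠ 0 := by exact_mod_cast k0.ne'
  have nm : ∀ x y : ℂ, ‖k * x - k * y‖ = k * ‖x - y‖ := fun x y => by
    rw [← mul_sub, norm_mul, Complex.norm_of_nonneg k0.le]
  have up : ∀ {a : ℝ}, c ≤ a → c ≤ k * a := fun h =>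
    h.trans (le_mul_of_one_le_left (c0.le.trans h) k1)
  have cl : ∀ y ∈ closure (table fun t => ρ t + Real.log k), ∃ z ∈ closure (table ρ),
      y = k * z := fun y hy => by
    rw [(htab ρ hρ).2.2.2.2.2.2.2.2.1, Real.exp_log k0, closure_smul₀] at hy
    obtain ⟨z, hz, rfl⟩ := hy
    exact ⟨z, hz, rfl⟩
  have hV : ∀ m, (P.sc k).V m = k * P.V m := fun _ => rfl
  refine ⟨G.c_le, fun s hs s' hs' e x hx x' hx' => ?_, fun m hm s hs x hx => ?_,
    fun m hm m' hm' e => ?_, fun s hs x hx r hr y hy => ?_, fun s s1 hs x hx => ?_,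
    fun y hy => ?_, fun s hs x hx => ?_⟩
  · obtain ⟨y, hy, rfl⟩ := (geo2_side k0).1 hx
    obtain ⟨y', hy', rfl⟩ := (geo2_side k0).1 hx'
    simp only [hV, nm]
    exact (G.g1 s hs s' hs' e y hy y' hy').imp up fun ⟨m, hm, h⟩ =>
      ⟨m, hm, by linarith [mul_le_mul_of_nonneg_left h k0.le]⟩
  · obtain ⟨y, hy, rfl⟩ := (geo2_side k0).1 hx
    rw [hV, nm]
    exact (G.g2 m hm s hs y hy).imp (fun h => (geo2_side k0).2 ⟨_, h, rfl⟩) up
  · rw [hV, hV, nm]
    exact up (G.g3 m hm m' hm' e)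
  · obtain ⟨x, h1, rfl⟩ := (geo2_side k0).1 hx
    obtain ⟨y, h2, rfl⟩ := cl y hy
    have := mul_le_mul_of_nonneg_left (G.g4 s hs x h1 (r / k)
      ⟨div_nonneg hr.1 k0.le, (div_le_self hr.1 k1).trans hr.2⟩ y h2) k0.le
    rw [← nm, mul_add, ← mul_assoc (k : ℂ), Complex.ofReal_div, mul_div_cancel₀ _ kc,
      mul_left_comm, mul_div_cancel₀ _ k0.ne'] at this
    rwa [geo2_nn P k0]
  · obtain ⟨x, h1, rfl⟩ := (geo2_side k0).1 hx
    have := mul_le_mul_of_nonneg_left (G.g5 s s1 hs x h1) k0.le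
    rw [hV, hV, nm, nm, Complex.im_ofReal_mul, Complex.im_ofReal_mul, ← mul_sub,
      ← mul_min_of_nonneg _ _ k0.le]
    rw [mul_left_comm, mul_min_of_nonneg _ _ k0.le, mul_one] at this
    exact (mul_le_mul_of_nonneg_left (min_le_min_right _ k1) c0.le).trans this
  · obtain ⟨y, h2, rfl⟩ := cl y hy
    rw [hV, Complex.im_ofReal_mul, Complex.im_ofReal_mul]
    exact mul_le_mul_of_nonneg_left (G.g6 y h2) k0.le
  · obtain ⟨x, h1, rfl⟩ := (geo2_side k0).1 hx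
    rw [norm_mul, Complex.norm_of_nonneg k0.le]
    exact ⟨up (G.g7 s hs x h1).1, mul_le_mul_of_nonneg_left (G.g7 s hs x h1).2 k0.le⟩

end Pool.Agent.P.MP_6b977f_mp.EB
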