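import Pool.Agent.P.MP_6b977f_mp.EB.IfB

/-! Gluing functions along the sectors of a polygon. -/

namespace Pool.Agent.P.MP_6b977f_mp.EB

open Real MeasureTheory Filter Topology Laplacian Set Metric
open scoped ContDiff BoundedContinuousFunction ComplexConjugate Pointwise ENNReal

noncomputable section

theorem glue_find (φ : ℕ → ℝ) (u : ℝ) (h0 : φ 0 ≤ u) :
    ∀ n, u ≤ φ (n + 1) → ∃ s < n + 1, u ∈ Icc (φ s) (φ (s + 1)) := by
  intro n
  induction n with
  | zero => exact fun h => ⟨0, by omega, h0, h⟩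
  | succ n ih =>
    intro h
    rcases le_total u (φ (n + 1)) with h1 | h1
    · obtain ⟨s, hs, hs'⟩ := ih h1
      exact ⟨s, by omega, hs'⟩
    · exact ⟨n + 1, by omega, h1, h⟩

theorem glue_mono {P : Poly} {c : ℝ} (hP : P.Ok c) {s n : ℕ} (h : s ≤ n) (hn : n ≤ P.S) :
    P.φ s ≤ P.φ n := by
  induction n, h using Nat.le_induction with
  | base => exact le_rfl
  | succ n _ ih => exact (ih (by omega)).trans (hP.mono n (by omega)).le

theorem glue_one {P : Poly} {c : ℝ} (hP : P.Ok c) (t : ℝ) :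
    ∃ s < P.S, ∃ m : ℤ, t + m * (2 * π) ∈ P.sec s := by
  have hπ : 0 < 2 * π := by positivity
  have h1 := sub_toIcoDiv_zsmul_mem_Ico hπ (P.φ 0) t
  have h3 := hP.three
  obtain ⟨s, hs, hs'⟩ := glue_find P.φ _ h1.1 (P.S - 1) (by
    rw [Nat.sub_add_cancel (by omega), hP.per]; exact h1.2.le)
  refine ⟨s, by omega, -toIcoDiv hπ (P.φ 0) t, ?_⟩
  rw [zsmul_eq_mul] at hs'
  rw [Int.cast_neg, neg_mul, ← sub_eq_add_neg]
  exact hs'

theorem glue_build {P : Poly} {c : ℝ} (hP : P.Ok c) (w : ℕ → ℝ → ℝ)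
    (hw : ∀ s < P.S, ContinuousOn (w s) (P.sec s))
    (hm : ∀ s, s + 1 < P.S → w s (P.φ (s + 1)) = w (s + 1) (P.φ (s + 1))) :
    ∀ n, n + 1 ≤ P.S → ∃ g : ℝ → ℝ, ContinuousOn g (Icc (P.φ 0) (P.φ (n + 1))) ∧
      ∀ s < n + 1, ∀ t ∈ P.sec s, g t = w s t := by
  intro n
  induction n with
  | zero =>
    intro h
    refine ⟨w 0, hw 0 (by omega), fun s hs t _ => ?_⟩
    obtain rfl : s = 0 := by omega
    rfl
  | succ n ih =>
    intro h
    obtain ⟨g, hg, hg'⟩ := ih (by omega)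
    have e1 : ∀ t ∈ P.sec (n + 1),
        (if t ≤ P.φ (n + 1) then g t else w (n + 1) t) = w (n + 1) t := by
      intro t ht
      split_ifs with h1
      · obtain rfl : t = P.φ (n + 1) := le_antisymm h1 ht.1
        rw [hg' n (by omega) _ ⟨(hP.mono n (by omega)).le, le_rfl⟩, hm n (by omega)]
      · rfl
    refine ⟨fun t => if t ≤ P.φ (n + 1) then g t else w (n + 1) t, ?_, ?_⟩
    · rw [← Icc_union_Icc_eq_Icc (glue_mono hP (Nat.zero_le (n + 1)) (by omega))
        (hP.mono (n + 1) (by omega)).le]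
      refine ContinuousOn.union_of_isClosed ?_ ?_ isClosed_Icc isClosed_Icc
      · exact hg.congr fun t ht => if_pos ht.2
      · exact (hw (n + 1) (by omega)).congr e1
    · intro s hs t ht
      rcases Nat.lt_succ_iff_lt_or_eq.1 hs with h1 | rfl
      · have : t ≤ P.φ (n + 1) := ht.2.trans (glue_mono hP (by omega) (by omega))
        simp only [if_pos this]
        exact hg' s h1 t ht
      · exact e1 t ht

theorem glue_lip {d : ℝ → ℝ} {η a b c : ℝ}
    (h1 : ∀ t ∈ Icc a b, ∀ t' ∈ Icc a b, |d t - d t'| ≤ η * |t - t'|)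
    (h2 : ∀ t ∈ Icc b c, ∀ t' ∈ Icc b c, |d t - d t'| ≤ η * |t - t'|) :
    ∀ t ∈ Icc a c, ∀ t' ∈ Icc a c, |d t - d t'| ≤ η * |t - t'| := by
  have key : ∀ t ∈ Icc a c, ∀ t' ∈ Icc a c, t ≤ b → b ≤ t' → |d t - d t'| ≤ η * |t - t'| := by
    intro t ht t' ht' h3 h4
    have h5 := h1 t ⟨ht.1, h3⟩ b ⟨ht.1.trans h3, le_rfl⟩
    have h6 := h2 b ⟨le_rfl, h4.trans ht'.2⟩ t' ⟨h4, ht'.2⟩
    rw [abs_of_nonpos (by linarith : t - b ≤ 0)] at h5
    rw [abs_of_nonpos (by linarith : b - t' ≤ 0)] at h6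
    rw [abs_of_nonpos (by linarith : t - t' ≤ 0)]
    have h7 := abs_sub_le (d t) (d b) (d t')
    linarith
  intro t ht t' ht'
  rcases le_total t b with h3 | h3 <;> rcases le_total t' b with h4 | h4
  · exact h1 t ⟨ht.1, h3⟩ t' ⟨ht'.1, h4⟩
  · exact key t ht t' ht' h3 h4
  · rw [abs_sub_comm, abs_sub_comm t]
    exact key t' ht' t ht h4 h3
  · exact h2 t ⟨h3, ht.2⟩ t' ⟨h4, ht'.2⟩

theorem t_glue (hlipz : S_LIPZ) : S_GLUE := by
  intro P c hP
  have h3 := hP.three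
  have hS : P.S - 1 + 1 = P.S := Nat.sub_add_cancel (by omega)
  have hπ : 0 < 2 * π := by positivity
  refine ⟨glue_one hP, ?_, ?_⟩
  · intro w hw hm hcl
    obtain ⟨g, hg, hg'⟩ := glue_build hP w hw hm (P.S - 1) (by omega)
    rw [hS] at hg hg'
    have e : g (P.φ 0) = g (P.φ 0 + 2 * π) := by
      rw [← hP.per, hg' 0 (by omega) _ ⟨le_rfl, (hP.mono 0 (by omega)).le⟩, ← hcl]
      refine (hg' (P.S - 1) (by omega) _ ⟨glue_mono hP (by omega) le_rfl, ?_⟩).symm
      rw [hS]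
    rw [hP.per] at hg
    haveI : Fact (0 < 2 * π) := ⟨hπ⟩
    refine ⟨fun t => AddCircle.liftIco (2 * π) (P.φ 0) g (t : AddCircle (2 * π)),
      ⟨(AddCircle.liftIco_continuous e hg).comp (AddCircle.continuous_mk' _), fun t => ?_⟩, ?_⟩
    · simp only [AddCircle.coe_add_period]
    · intro s hs t ht
      have h1 : P.φ 0 ≤ t := (glue_mono hP (Nat.zero_le s) hs.le).trans ht.1
      have h2 : t ≤ P.φ 0 + 2 * π := by
        rw [← hP.per]; exact ht.2.trans (glue_mono hP hs le_rfl)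
      rw [← hg' s hs t ht]
      rcases h2.eq_or_lt with rfl | h4
      · simp only [AddCircle.coe_add_period]
        rw [AddCircle.liftIco_coe_apply ⟨le_rfl, by linarith⟩, e]
      · exact AddCircle.liftIco_coe_apply ⟨h1, h4⟩
  · intro σ ρ η hσ hρ h
    refine ⟨fun x => ?_, ?_⟩
    · obtain ⟨s, hs, m, hm⟩ := glue_one hP x
      have := (h s hs _ hm).1
      rwa [hσ.int_mul m, hρ.int_mul m] at this
    · refine hlipz.2.2 (fun x => σ x - ρ x) (P.φ 0) η (hσ.sub hρ) ?_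
      have key : ∀ n, n + 1 ≤ P.S → ∀ t ∈ Icc (P.φ 0) (P.φ (n + 1)),
          ∀ t' ∈ Icc (P.φ 0) (P.φ (n + 1)), |(σ t - ρ t) - (σ t' - ρ t')| ≤ η * |t - t'| := by
        intro n
        induction n with
        | zero => exact fun hn t ht => (h 0 (by omega) t ht).2
        | succ n ih =>
          exact fun hn => glue_lip (d := fun x => σ x - ρ x) (ih (by omega))
            fun t ht => (h (n + 1) (by omega) t ht).2
      have := key (P.S - 1) (by omega)
      rwa [hS, hP.per] at this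

end

end Pool.Agent.P.MP_6b977f_mp.EB
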