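import Pool.Agent.P.MP_6b977f_mp.EB.IfB

/-! An inscribed polygon with a horizontal lowest side. -/

namespace Pool.Agent.P.MP_6b977f_mp.EB

open Real MeasureTheory Filter Topology Laplacian Set Metric
open scoped ContDiff BoundedContinuousFunction ComplexConjugate Pointwise ENNReal

noncomputable section

theorem ins_im (r : ℝ → ℝ) (θ t : ℝ) :
    ((Real.exp θ : ℂ) * bd r t).im = Real.exp θ * (Real.exp (r t) * sin t) := by
  rw [bd, ex, Complex.im_ofReal_mul, Complex.im_ofReal_mul, Complex.exp_ofReal_mul_I_im]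

theorem ins_min {h : ℝ → ℝ} (hc : Continuous h) (hp : Function.Periodic h (2 * π)) :
    ∃ t₀, ∀ t, h t₀ ≤ h t := by
  have h2 : (0 : ℝ) < 2 * π := by positivity
  obtain ⟨t₀, -, h0⟩ := (isCompact_Icc (a := (0 : ℝ)) (b := 2 * π)).exists_isMinOn
    ⟨0, le_rfl, h2.le⟩ hc.continuousOn
  refine ⟨t₀, fun t => ?_⟩
  obtain ⟨y, hy, e⟩ := hp.exists_mem_Ico₀ h2 t
  rw [e]
  exact h0 (Ico_subset_Icc_self hy)

theorem ins_small {h : ℝ → ℝ} {t₀ h' ε : ℝ} (hd : HasDerivAt h h' t₀) (hm : ∀ t, h t₀ ≤ h t)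
    (h0 : h t₀ < 0) (hε : 0 < ε) :
    ∃ d > 0, ∀ u, |u| < d → h (t₀ + u) < 0 ∧ |Real.log (h t₀ / h (t₀ + u))| ≤ ε * |u| := by
  have hz : h' = 0 := IsLocalMin.hasDerivAt_eq_zero (Eventually.of_forall hm) hd
  subst hz
  have h1 : HasDerivAt (fun t => Real.log (h t₀ / h t)) 0 t₀ := by
    have := ((hasDerivAt_const t₀ (h t₀)).div hd h0.ne).log (by simpa using h0.ne)
    simpa using this
  have h2 := (hasDerivAt_iff_isLittleO_nhds_zero.1 h1).def hε
  have h3 : ∀ᶠ u in 𝓝 (0 : ℝ), h (t₀ + u) < 0 := by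
    have : ContinuousAt (fun u => h (t₀ + u)) 0 :=
      ContinuousAt.comp (g := h) (by simpa using hd.continuousAt) (by fun_prop)
    exact this.eventually_lt continuousAt_const (by simpa using h0)
  obtain ⟨d, hd0, h4⟩ := Metric.eventually_nhds_iff.1 (h3.and h2)
  refine ⟨d, hd0, fun u hu => ?_⟩
  have := h4 (y := u) (by simpa using hu)
  simpa [div_self h0.ne] using this

theorem ins_bot {P : Poly} {c : ℝ} (hok : P.Ok c) (h0 : (P.V 0).im < 0)
    (h1 : (P.V 1).im = (P.V 0).im) : P.e 0 = 1 := by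
  have hS : 0 < P.S := by have := hok.three; omega
  have a1 := congrArg Complex.im (hok.step 0 hS)
  rw [zero_add, h1, Complex.add_im, Complex.im_ofReal_mul] at a1
  have a2 : (P.e 0).im = 0 := by
    have : P.L 0 * (P.e 0).im = 0 := by linarith
    exact (mul_eq_zero.1 this).resolve_left (hok.len 0 hS).ne'
  have a3 := hok.tr 0 hS (P.φ 0) ⟨le_rfl, (hok.mono 0 hS).le⟩
  rw [cross, a2] at a3
  have a4 := congrArg Complex.im (hok.pol 0 hS.le).2
  rw [Complex.im_ofReal_mul] at a4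
  have a5 : (ex (P.φ 0)).im < 0 := by
    by_contra hn
    have := mul_nonneg (norm_nonneg (P.V 0)) (not_lt.1 hn)
    linarith
  have a6 : 0 < (P.e 0).re := by
    by_contra hn
    have := mul_nonneg_of_nonpos_of_nonpos a5.le (not_lt.1 hn)
    linarith [hok.c_pos]
  have a7 : |(P.e 0).re| = 1 := by rw [Complex.abs_re_eq_norm.2 a2, hok.unit 0 hS]
  rw [abs_of_pos a6] at a7
  exact Complex.ext a7 a2

theorem t_ins (hins0 : S_INS0) : S_INS := by
  intro p η hη
  obtain ⟨ε₀, c, hε₀, n₀, H⟩ := hins0 p η hη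
  obtain ⟨⟨r, r'⟩, hper, hd⟩ := p
  simp only at hper hd H ⊢
  let h : ℝ → ℝ := fun t => Real.exp (r t) * sin t
  have hh : ∀ t, HasDerivAt h _ t := fun t => (hd t).exp.mul (Real.hasDerivAt_sin t)
  obtain ⟨t₀, hm⟩ := ins_min (h := h) (continuous_iff_continuousAt.2 fun t => (hh t).continuousAt)
    (fun t => by simp only [h, hper t, Real.sin_add_two_pi])
  have h0 : h t₀ < 0 := by
    refine (hm (-(π / 2))).trans_lt ?_
    simp only [h, Real.sin_neg, Real.sin_pi_div_two]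
    linarith [Real.exp_pos (r (-(π / 2)))]
  obtain ⟨d, hd0, hs⟩ := ins_small (hh t₀) hm h0 (show 0 < ε₀ / (2 * π) by positivity)
  obtain ⟨n₁, hn₁⟩ := exists_nat_gt (π / d)
  set n : ℕ := max n₀ n₁ with hn
  have hn1 : π / d < n := hn₁.trans_le (by exact_mod_cast le_max_right _ _)
  have hnp : (0 : ℝ) < n := lt_trans (by positivity) hn1
  have hu : |π / n| < d := by
    rw [abs_of_pos (by positivity), div_lt_iff₀ hnp]
    rw [div_lt_iff₀ hd0] at hn1
    linarith
  obtain ⟨b1, b2⟩ := hs (π / n) hu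
  obtain ⟨b3, b4⟩ := hs (-(π / n)) (by rwa [abs_neg])
  set κ : ℝ := ε₀ / (2 * n) with hκ
  have hκ0 : 0 < κ := by positivity
  have e1 : ε₀ / (2 * π) * |π / n| = κ := by
    rw [abs_of_pos (by positivity), hκ]; field_simp
  rw [e1] at b2
  rw [abs_neg, e1] at b4
  have e2 : ε₀ / n = κ + κ := by rw [hκ]; field_simp; ring
  let θ : ℕ → ℝ := fun m => if m = 0 ∨ m = n then Real.log (h t₀ / h (t₀ + -(π / n))) + κ
    else if m = 1 then Real.log (h t₀ / h (t₀ + π / n)) + κ else 0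
  obtain ⟨P, ρ, hok, hρ, hnear, hS, hV⟩ := H n (le_max_left _ _) (t₀ + -(π / n)) θ
    (by simp [θ]) (fun m _ => by
      rw [e2]
      simp only [θ]
      split_ifs
      · exact (abs_add_le _ _).trans (by rw [abs_of_pos hκ0]; linarith)
      · exact (abs_add_le _ _).trans (by rw [abs_of_pos hκ0]; linarith)
      · rw [abs_zero]; linarith)
  have h3 : 3 ≤ n := hS ▸ hok.three
  have key : ∀ t, h t < 0 → Real.exp (Real.log (h t₀ / h t) + κ) * h t = Real.exp κ * h t₀ :=
    fun t ht => by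
      rw [Real.exp_add, Real.exp_log (div_pos_of_neg_of_neg h0 ht)]
      field_simp [ht.ne]
  have v0 : (P.V 0).im = Real.exp κ * h t₀ := by
    rw [hV 0 (by omega), ins_im, ← key _ b3]
    simp [θ, h]
  have v1 : (P.V 1).im = Real.exp κ * h t₀ := by
    rw [hV 1 (by omega), ins_im, ← key _ b1]
    have e3 : t₀ + -(π / n) + 2 * π * (1 : ℕ) / n = t₀ + π / n := by push_cast; ring
    have e4 : ¬ (1 = n) := by omega
    rw [e3]
    simp [θ, h, e4]
  have hlt : Real.exp κ * h t₀ < h t₀ := by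
    nlinarith [Real.add_one_le_exp κ]
  refine ⟨P, ρ, c, hok, hρ, hnear, ins_bot hok (by rw [v0]; linarith) (by rw [v0, v1]),
    fun s h2 hs => ?_⟩
  rw [hS] at hs
  have e5 : θ s = 0 := by
    simp only [θ]
    rw [if_neg (by omega), if_neg (by omega)]
  rw [v0, hV s hs.le, ins_im, e5, Real.exp_zero, one_mul]
  exact hlt.trans_le (hm _)

end

end Pool.Agent.P.MP_6b977f_mp.EB
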