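import Pool.Agent.P.MP_6b977f_mp.EB.IfB

/-! Polygons inscribed in a table of class `C¹`, with slightly moved vertices. -/

namespace Pool.Agent.P.MP_6b977f_mp.EB

open Real MeasureTheory Filter Topology Laplacian Set Metric
open scoped ContDiff BoundedContinuousFunction ComplexConjugate Pointwise ENNReal

noncomputable section

theorem ins0_uc {f : ℝ → ℝ} (hf : Continuous f) (hp : Function.Periodic f (2 * π)) {w : ℝ}
    (hw : 0 < w) : ∃ γ > 0, ∀ s t, |s - t| ≤ γ → |f s - f t| ≤ w := by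
  have hu := (isCompact_Icc (a := (-1 : ℝ)) (b := 2 * π + 1)).uniformContinuousOn_of_continuous
    hf.continuousOn
  obtain ⟨d, hd, h⟩ := Metric.uniformContinuousOn_iff_le.1 hu w hw
  refine ⟨min d 1, lt_min hd one_pos, fun s t hst => ?_⟩
  have h2 : (0 : ℝ) < 2 * π := by positivity
  have hm := toIcoMod_mem_Ico h2 0 t
  set k := toIcoDiv h2 0 t with hk
  have ht : toIcoMod h2 0 t = t - k * (2 * π) := by
    rw [toIcoMod, zsmul_eq_mul]
  rw [ht, zero_add] at hm
  have e1 : f (t - k * (2 * π)) = f t := hp.sub_int_mul_eq k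
  have e2 : f (s - k * (2 * π)) = f s := hp.sub_int_mul_eq k
  have h1 := abs_le.1 (hst.trans (min_le_right _ _))
  have := h (s - k * (2 * π)) ⟨by linarith [hm.1, h1.1], by linarith [hm.2, h1.2]⟩
    (t - k * (2 * π)) ⟨by linarith [hm.1], by linarith [hm.2]⟩
    (by rw [Real.dist_eq, show s - k * (2 * π) - (t - k * (2 * π)) = s - t by ring]
        exact hst.trans (min_le_left _ _))
  rwa [Real.dist_eq, e1, e2] at this

theorem ins0_ex_norm (t : ℝ) : ‖ex t‖ = 1 := Complex.norm_exp_ofReal_mul_I t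

theorem ins0_ex_mul (t : ℝ) : conj (ex t) * ex t = 1 := by
  rw [mul_comm, Complex.mul_conj, Complex.normSq_eq_norm_sq, ins0_ex_norm]; simp

theorem ins0_cross (t : ℝ) (A : ℂ) : cross (ex t) (ex t * A) = A.im := by
  have h : (conj (ex t) * (ex t * A)).im = A.im := by rw [← mul_assoc, ins0_ex_mul, one_mul]
  rw [← h, cross]
  generalize ex t * A = w
  simp [Complex.mul_im]; ring

theorem ins0_dot (t : ℝ) (A : ℂ) : (conj (ex t * A) * ex t).re = A.re := by
  rw [map_mul, mul_right_comm, ins0_ex_mul, one_mul, Complex.conj_re]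

theorem ins0_key {r r' : ℝ → ℝ} (hd : ∀ x, HasDerivAt r (r' x) x) {K w γ φ t θ₀ θ₁ ε : ℝ}
    (hK : ∀ x, |r' x| ≤ K) (hγ : 0 < γ) (hγ1 : (K + 1) * γ ≤ 1) (ht : t ∈ Icc φ (φ + γ))
    (hw : ∀ s ∈ Icc φ (φ + γ), |r' s - r' t| ≤ w) (h0 : |θ₀| ≤ ε * γ) (h1 : |θ₁| ≤ ε * γ)
    (hε : ε * γ ≤ 1) :
    ∃ A : ℂ, Real.exp θ₁ * bd r (φ + γ) - Real.exp θ₀ * bd r φ =
        (γ * Real.exp (r t) : ℝ) * (ex t * A) ∧
      ‖A - (r' t + Complex.I)‖ ≤ 3 * w + 2 * (K + 1) ^ 2 * γ + 12 * ε := by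
  have hK0 : 0 ≤ K := (abs_nonneg _).trans (hK 0)
  set g : ℝ → ℂ := fun s => Complex.exp (((r s - r t : ℝ) : ℂ) + ((s - t : ℝ) : ℂ) * Complex.I)
    with hg
  have hbd : ∀ s, bd r s = Real.exp (r t) * (ex t * g s) := fun s => by
    simp only [bd, ex, hg, Complex.ofReal_exp, ← Complex.exp_add]
    congr 1; push_cast; ring
  have hlip : ∀ s, |r s - r t| ≤ K * |s - t| := fun s => by
    have := (convex_univ (𝕜 := ℝ) (E := ℝ)).norm_image_sub_le_of_norm_hasDerivWithin_le
      (f := r) (f' := r') (C := K) (fun x _ => (hd x).hasDerivWithinAt)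
      (fun x _ => by simpa using hK x) (mem_univ t) (mem_univ s)
    simpa [Real.norm_eq_abs] using this
  have hg1 : ∀ s ∈ Icc φ (φ + γ), ‖g s - 1‖ ≤ 2 * ((K + 1) * γ) := fun s hs => by
    have h3 : |s - t| ≤ γ := abs_le.2 ⟨by linarith [hs.1, ht.2], by linarith [hs.2, ht.1]⟩
    have h4 : ‖((r s - r t : ℝ) : ℂ) + ((s - t : ℝ) : ℂ) * Complex.I‖ ≤ (K + 1) * γ := by
      refine (norm_add_le _ _).trans ?_
      rw [norm_mul, Complex.norm_I, mul_one, Complex.norm_real, Complex.norm_real,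
        Real.norm_eq_abs, Real.norm_eq_abs]
      have := mul_le_mul_of_nonneg_left h3 hK0
      linarith [hlip s]
    exact (Complex.norm_exp_sub_one_le (h4.trans hγ1)).trans (by linarith)
  have hg3 : ∀ s ∈ Icc φ (φ + γ), ‖g s‖ ≤ 3 := fun s hs => by
    have := norm_add_le (g s - 1) 1
    rw [sub_add_cancel, norm_one] at this
    linarith [hg1 s hs]
  have hT : ‖(r' t : ℂ) + Complex.I‖ ≤ K + 1 := by
    refine (norm_add_le _ _).trans ?_
    rw [Complex.norm_I, Complex.norm_real, Real.norm_eq_abs]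
    linarith [hK t]
  have hder : ∀ s, HasDerivAt (fun s : ℝ => g s - (s : ℂ) * (r' t + Complex.I))
      ((r' s + Complex.I) * g s - (r' t + Complex.I)) s := fun s => by
    have a1 : HasDerivAt (fun s : ℝ => ((r s - r t : ℝ) : ℂ)) (r' s : ℂ) s :=
      ((hd s).sub_const (r t)).ofReal_comp
    have a2 : HasDerivAt (fun s : ℝ => ((s - t : ℝ) : ℂ) * Complex.I) (Complex.I) s := by
      simpa using (((hasDerivAt_id s).sub_const t).ofReal_comp).mul_const Complex.I
    have a3 := (a1.add a2).cexp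
    have a4 : HasDerivAt (fun s : ℝ => (s : ℂ) * (r' t + Complex.I)) (r' t + Complex.I) s := by
      simpa using ((hasDerivAt_id s).ofReal_comp).mul_const ((r' t : ℂ) + Complex.I)
    refine (a3.sub a4).congr_deriv ?_
    simp only [hg, Pi.add_apply]; ring
  have hmv := norm_image_sub_le_of_norm_deriv_le_segment' (a := φ) (b := φ + γ)
    (C := 3 * w + 2 * (K + 1) ^ 2 * γ) (fun s _ => (hder s).hasDerivWithinAt)
    (fun s hs => by
      have hs' := Ico_subset_Icc_self hs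
      have e : ((r' s : ℂ) + Complex.I) * g s - (r' t + Complex.I) =
          ((r' s - r' t : ℝ) : ℂ) * g s + (r' t + Complex.I) * (g s - 1) := by push_cast; ring
      rw [e]
      refine (norm_add_le _ _).trans ?_
      rw [norm_mul, norm_mul, Complex.norm_real, Real.norm_eq_abs]
      have b1 := mul_le_mul (hw s hs') (hg3 s hs') (norm_nonneg _)
        ((abs_nonneg _).trans (hw s hs'))
      have b2 := mul_le_mul hT (hg1 s hs') (norm_nonneg _) (by linarith)
      nlinarith) (φ + γ) ⟨by linarith, le_rfl⟩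
  have hγc : (γ : ℂ) ≠ 0 := by exact_mod_cast hγ.ne'
  refine ⟨(Real.exp θ₁ * g (φ + γ) - Real.exp θ₀ * g φ) / γ, ?_, ?_⟩
  · rw [hbd, hbd φ]; push_cast; field_simp
  · have e : (Real.exp θ₁ * g (φ + γ) - Real.exp θ₀ * g φ) / γ - (r' t + Complex.I) =
        ((g (φ + γ) - ((φ + γ : ℝ) : ℂ) * (r' t + Complex.I) -
          (g φ - (φ : ℂ) * (r' t + Complex.I))) + ((Real.exp θ₁ - 1 : ℝ) : ℂ) * g (φ + γ) -
          ((Real.exp θ₀ - 1 : ℝ) : ℂ) * g φ) / γ := by
      push_cast; field_simp; ring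
    rw [e, norm_div, Complex.norm_real, Real.norm_eq_abs, abs_of_pos hγ, div_le_iff₀ hγ]
    refine (norm_sub_le _ _).trans ?_
    have c0 := norm_add_le (g (φ + γ) - ((φ + γ : ℝ) : ℂ) * (r' t + Complex.I) -
          (g φ - (φ : ℂ) * (r' t + Complex.I))) (((Real.exp θ₁ - 1 : ℝ) : ℂ) * g (φ + γ))
    rw [norm_mul, Complex.norm_real, Real.norm_eq_abs] at c0
    rw [norm_mul, Complex.norm_real, Real.norm_eq_abs]
    have c1 := (Real.abs_exp_sub_one_le (h1.trans hε)).trans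
      (mul_le_mul_of_nonneg_left h1 zero_le_two)
    have c2 := (Real.abs_exp_sub_one_le (h0.trans hε)).trans
      (mul_le_mul_of_nonneg_left h0 zero_le_two)
    have hεγ : 0 ≤ 2 * (ε * γ) := (abs_nonneg _).trans c1
    have d1 := mul_le_mul c1 (hg3 (φ + γ) ⟨by linarith, le_rfl⟩) (norm_nonneg _) hεγ
    have d2 := mul_le_mul c2 (hg3 φ ⟨le_rfl, by linarith⟩) (norm_nonneg _) hεγ
    rw [add_sub_cancel_left] at hmv
    nlinarith

theorem ins0_dir {D A : ℂ} {t k x K δ : ℝ} (hk : 0 < k) (hD : D = k * (ex t * A))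
    (hx : |x| ≤ K) (hA : ‖A - (x + Complex.I)‖ ≤ δ) (hδ : δ ≤ 1 / 2) :
    D ≠ 0 ∧ (4 * (K + 1))⁻¹ ≤ cross (ex t) (D / ‖D‖) ∧
      |(conj (D / ‖D‖) * ex t).re / cross (ex t) (D / ‖D‖) - x| ≤ 2 * (K + 1) * δ := by
  have hK0 : 0 ≤ K := (abs_nonneg _).trans hx
  have hδ0 : 0 ≤ δ := (norm_nonneg _).trans hA
  have hre : |A.re - x| ≤ δ := by
    simpa using (Complex.abs_re_le_norm _).trans hA
  have him : |A.im - 1| ≤ δ := by
    simpa using (Complex.abs_im_le_norm _).trans hA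
  have him' : 1 / 2 ≤ A.im := by linarith [(abs_le.1 him).1]
  have hA0 : 0 < ‖A‖ := lt_of_lt_of_le (by linarith) ((le_abs_self _).trans (Complex.abs_im_le_norm A))
  have hAK : ‖A‖ ≤ 2 * (K + 1) := by
    have h1 := norm_add_le (A - (x + Complex.I)) (x + Complex.I)
    rw [sub_add_cancel] at h1
    have h2 := norm_add_le (x : ℂ) Complex.I
    rw [Complex.norm_I, Complex.norm_real, Real.norm_eq_abs] at h2
    linarith
  have hn : ‖D‖ = k * ‖A‖ := by
    rw [hD, norm_mul, norm_mul, ins0_ex_norm, one_mul, Complex.norm_real, Real.norm_eq_abs,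
      abs_of_pos hk]
  have hkc : (k : ℂ) ≠ 0 := by exact_mod_cast hk.ne'
  have hAc : ((‖A‖ : ℝ) : ℂ) ≠ 0 := by exact_mod_cast hA0.ne'
  have he : D / ‖D‖ = ex t * (A / ‖A‖) := by
    rw [hn, hD]; push_cast; field_simp
  refine ⟨norm_pos_iff.1 (by rw [hn]; positivity), ?_, ?_⟩
  · rw [he, ins0_cross, Complex.div_ofReal_im, le_div_iff₀ hA0, inv_mul_le_iff₀ (by positivity)]
    nlinarith
  · rw [he, ins0_cross, ins0_dot, Complex.div_ofReal_im, Complex.div_ofReal_re,
      div_div_div_cancel_right₀ hA0.ne']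
    have hi : 0 < A.im := by linarith
    have e : A.re / A.im - x = ((A.re - x) - x * (A.im - 1)) / A.im := by field_simp; ring
    rw [e, abs_div, abs_of_pos hi, div_le_iff₀ hi]
    refine (abs_sub _ _).trans ?_
    rw [abs_mul]
    have h1 := mul_le_mul hx him (abs_nonneg _) hK0
    have h2 : 0 ≤ (K + 1) * δ := by positivity
    nlinarith

theorem t_ins0 (hpol0 : S_POL0) (hglue : S_GLUE) (hlipz : S_LIPZ) : S_INS0 := by
  intro p η hη
  obtain ⟨⟨r, r'⟩, hper, hd⟩ := p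
  simp only at hper hd ⊢
  set K : ℝ := ‖r'‖ with hKd
  have hK : ∀ x, |r' x| ≤ K := fun x => by simpa using r'.norm_coe_le_norm x
  have hK0 : 0 ≤ K := norm_nonneg _
  have hper' : Function.Periodic r' (2 * π) := fun x => by
    have h1 : HasDerivAt (fun y => r (y + 2 * π)) (r' (x + 2 * π)) x :=
      (hd (x + 2 * π)).comp_add_const x (2 * π)
    rw [show (fun y => r (y + 2 * π)) = r from funext hper] at h1
    exact h1.unique (hd x)
  set δ : ℝ := min (1 / 2) (η / (2 * (K + 1))) with hδ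
  have hδ0 : 0 < δ := lt_min (by norm_num) (by positivity)
  have hδ1 : δ ≤ 1 / 2 := min_le_left _ _
  have hδ2 : 2 * (K + 1) * δ ≤ η := by
    have := min_le_right (1 / 2) (η / (2 * (K + 1)))
    rw [← hδ, le_div_iff₀ (by positivity)] at this
    linarith
  obtain ⟨γ₀, hγ₀, huc⟩ := ins0_uc r'.continuous hper' (show 0 < δ / 9 by positivity)
  set γ₁ : ℝ := min γ₀ (δ / (6 * (K + 1) ^ 2)) with hγ₁
  have hγ₁0 : 0 < γ₁ := lt_min hγ₀ (by positivity)
  obtain ⟨n₀, hn₀⟩ := exists_nat_ge (2 * π / γ₁)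
  refine ⟨δ / 36, (4 * (K + 1))⁻¹, by positivity, max n₀ 3, fun n hn a θ hθ hθ' => ?_⟩
  have hn3 : 3 ≤ n := (le_max_right _ _).trans hn
  have hnp : (0 : ℝ) < n := by exact_mod_cast (by omega : 0 < n)
  set γ : ℝ := 2 * π / n with hγd
  have hγ : 0 < γ := by positivity
  have hγle : γ ≤ γ₁ := by
    have h1 : (n₀ : ℝ) ≤ n := by exact_mod_cast (le_max_left _ _).trans hn
    rw [hγd, div_le_iff₀ hnp]
    have := hn₀.trans h1
    rw [div_le_iff₀ hγ₁0] at this
    linarith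
  have hγa : γ ≤ γ₀ := hγle.trans (min_le_left _ _)
  have hγb : 6 * (K + 1) ^ 2 * γ ≤ δ := by
    have := hγle.trans (min_le_right _ _)
    rw [le_div_iff₀ (by positivity)] at this
    linarith
  have hγc : (K + 1) * γ ≤ 1 / 12 := by
    have : (K + 1) * γ ≤ (K + 1) ^ 2 * γ := by
      have : 0 ≤ K * ((K + 1) * γ) := by positivity
      nlinarith
    linarith
  have hγe : γ ≤ 1 / 12 := by nlinarith [mul_nonneg hK0 hγ.le]
  have hθγ : ∀ m ≤ n, |θ m| ≤ δ / 36 * γ := fun m hm => by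
    refine (hθ' m hm).trans ?_
    rw [hγd, ← mul_div_assoc]
    refine div_le_div_of_nonneg_right ?_ hnp.le
    nlinarith [Real.pi_gt_three]
  let φ : ℕ → ℝ := fun m => a + 2 * π * m / n
  have hφ : ∀ m, φ (m + 1) = φ m + γ := fun m => by
    simp only [φ, hγd]; push_cast; ring
  let V : ℕ → ℂ := fun m => Real.exp (θ m) * bd r (φ m)
  let P : Poly := ⟨n, φ, V, fun m => (V (m + 1) - V m) / ‖V (m + 1) - V m‖,
    fun m => ‖V (m + 1) - V m‖⟩
  have hmain : ∀ s < n, ∀ t ∈ Icc (φ s) (φ (s + 1)), V (s + 1) - V s ≠ 0 ∧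
      (4 * (K + 1))⁻¹ ≤ cross (ex t) (P.e s) ∧ |P.slope s t - r' t| ≤ η := fun s hs t ht => by
    rw [hφ] at ht
    obtain ⟨A, hA, hA'⟩ := ins0_key hd hK hγ (by linarith) ht (w := δ / 9)
      (fun u hu => huc u t ((abs_le.2 ⟨by linarith [hu.1, ht.2], by linarith [hu.2, ht.1]⟩ :
        |u - t| ≤ γ).trans hγa)) (hθγ s hs.le) (hθγ (s + 1) hs) (by nlinarith)
    rw [← hφ] at hA
    obtain ⟨h1, h2, h3⟩ := ins0_dir (D := V (s + 1) - V s) (δ := δ) (by positivity) hA (hK t)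
      (hA'.trans (by linarith)) hδ1
    exact ⟨h1, h2, h3.trans hδ2⟩
  have hne : ∀ s < n, V (s + 1) - V s ≠ 0 := fun s hs =>
    (hmain s hs (φ s) ⟨le_rfl, by rw [hφ]; linarith⟩).1
  have hnV : ∀ m, ‖V m‖ = Real.exp (θ m + r (φ m)) := fun m => by
    simp only [V, bd, norm_mul, ins0_ex_norm, Complex.norm_real, Real.norm_eq_abs, Real.abs_exp,
      mul_one, Real.exp_add]
  have hφn : φ n = φ 0 + 2 * π := by
    simp only [φ]; field_simp; simp; ring
  have hok : P.Ok (4 * (K + 1))⁻¹ :=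
    { c_pos := by positivity
      three := hn3
      mono := fun s _ => by change φ s < φ (s + 1); rw [hφ]; linarith
      per := hφn
      close := by
        change V n = V 0
        simp only [V, hθ, hφn, bd, hper (φ 0), ex]
        congr 2
        push_cast
        rw [add_mul, Complex.exp_add, Complex.exp_two_pi_mul_I, mul_one]
      unit := fun s hs => by
        change ‖(V (s + 1) - V s) / ‖V (s + 1) - V s‖‖ = 1
        rw [norm_div, Complex.norm_real, norm_norm, div_self (norm_ne_zero_iff.2 (hne s hs))]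
      len := fun s hs => norm_pos_iff.2 (hne s hs)
      step := fun s hs => by
        change V (s + 1) = V s + (‖V (s + 1) - V s‖ : ℝ) * ((V (s + 1) - V s) / ‖V (s + 1) - V s‖)
        have : ((‖V (s + 1) - V s‖ : ℝ) : ℂ) ≠ 0 := by
          exact_mod_cast norm_ne_zero_iff.2 (hne s hs)
        field_simp
        ring
      pol := fun s _ => by
        change V s ≠ 0 ∧ V s = ‖V s‖ * ex (φ s)
        refine ⟨norm_pos_iff.1 (by rw [hnV]; exact Real.exp_pos _), ?_⟩
        rw [hnV]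
        simp only [V, bd, Real.exp_add]
        push_cast
        ring
      tr := fun s hs t ht => (hmain s hs t ht).2.1 }
  obtain ⟨hp1, ⟨ρ, hρ⟩, -⟩ := hpol0 P _ hok
  refine ⟨P, ρ, hok, hρ, (hglue P _ hok).2.2 ρ r η hρ.1.2 hper fun s hs t ht => ?_, rfl,
    fun m _ => rfl⟩
  obtain ⟨-, hq1, -, hq2, -⟩ := hp1 s hs
  have hlip := hlipz.1 (fun t => Real.log (P.rad s t) - r t) (φ s) (φ (s + 1)) η ∅ finite_empty
    (fun u hu => (((hq2 u hu).2.2.sub (hd u)).continuousAt).continuousWithinAt)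
    (fun u hu _ => ⟨_, (hq2 u (Ioo_subset_Icc_self hu)).2.2.sub (hd u),
      (hmain s hs u (Ioo_subset_Icc_self hu)).2.2⟩)
  have hs0 : φ s ∈ Icc (φ s) (φ (s + 1)) := ⟨le_rfl, by rw [hφ]; linarith⟩
  refine ⟨?_, fun t' ht' => ?_⟩
  · have h1 := hlip t ht (φ s) hs0
    have h2 : Real.log (P.rad s (φ s)) - r (φ s) = θ s := by
      have : P.rad s (φ s) = ‖V s‖ := hq1
      rw [this, hnV, Real.log_exp]; ring
    rw [h2] at h1
    rw [hρ.2 s hs t ht]
    have h3 : |t - φ s| ≤ γ := by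
      have := ht.2
      have h4 := ht.1
      change t ≤ φ (s + 1) at this
      change φ s ≤ t at h4
      rw [hφ] at this
      exact abs_le.2 ⟨by linarith, by linarith⟩
    have h4 := abs_add_le (Real.log (P.rad s t) - r t - θ s) (θ s)
    rw [sub_add_cancel] at h4
    have h5 := hθγ s hs.le
    have h6 : δ ≤ η := by nlinarith [mul_nonneg hK0 hδ0.le]
    have h7 := mul_le_mul_of_nonneg_left (h3.trans hγe) hη.le
    have h8 := mul_le_mul_of_nonneg_left hγe (show 0 ≤ δ / 36 by positivity)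
    linarith
  · rw [hρ.2 s hs t ht, hρ.2 s hs t' ht']
    exact hlip t ht t' ht'

end

end Pool.Agent.P.MP_6b977f_mp.EB
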