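import Pool.Agent.P.MP_6b977f_mp.EB.IfB

/-! Jet killing. -/

namespace Pool.Agent.P.MP_6b977f_mp.EB

open Real MeasureTheory Filter Topology Laplacian Set Metric
open scoped ContDiff BoundedContinuousFunction ComplexConjugate Pointwise ENNReal

noncomputable section

theorem kill_prj_fix {u : ℤ → ℂ → ℂ} {H : ℝ} (hr : RealL u) (ho : OddL H u) {p : ℂ} {L : Prop}
    (hL : L → p.im = -H) (j : ℕ) : prj L j (u j p) = u j p := by
  have hm : L → mir H p = p := by
    intro h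
    have h1 := hL h
    apply Complex.ext <;> simp [mir, h1]
    ring
  have hodd : L → (u j p).re = 0 := by
    intro h
    have h1 := ho j p
    rw [hm h] at h1
    have h2 := congrArg Complex.re h1
    simp at h2
    linarith
  have hreal : j = 0 → (u j p).im = 0 := by
    intro h
    subst h
    have h1 := hr 0 p
    have h2 := congrArg Complex.im h1
    simp at h2
    simp
    linarith
  unfold prj
  by_cases hj : j = 0
  · by_cases h : L
    · rw [if_pos hj, if_pos h]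
      apply Complex.ext
      · simp [hodd h]
      · simp [hreal hj]
    · rw [if_pos hj, if_neg h]
      apply Complex.ext
      · simp
      · simp [hreal hj]
  · by_cases h : L
    · rw [if_neg hj, if_pos h]
      apply Complex.ext
      · simp [hodd h]
      · simp
    · rw [if_neg hj, if_neg h]

theorem kill_prj_add (L : Prop) (j : ℕ) (a b : ℂ) : prj L j (a + b) = prj L j a + prj L j b := by
  unfold prj
  by_cases hj : j = 0 <;> by_cases h : L <;> simp [hj, h, mul_add]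

theorem kill_prj_smul (L : Prop) (j : ℕ) (t : ℝ) (a : ℂ) : prj L j (t • a) = t • prj L j a := by
  unfold prj
  by_cases hj : j = 0 <;> by_cases h : L <;> simp [hj, h]
  ring

theorem kill_prj_neg (L : Prop) (j : ℕ) (a : ℂ) : prj L j (-a) = -prj L j a := by
  have := kill_prj_smul L j (-1) a
  simpa using this

theorem kill_far {g : ℤ → ℂ → ℂ} {A H c r μ : ℝ} {p n : ℂ} {J N N2 : ℕ}
    (h5 : ∀ y : ℂ, -H ≤ y.im → ∀ T, c * r ≤ T → T ≤ ‖y - (p + r * n)‖ → ∀ l : ℤ,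
      l.natAbs ≤ J + 1 → ‖g l y‖ ≤ A * (r ^ N + (r / T) ^ N / T ^ l.natAbs))
    (hA : 0 ≤ A) (hn : ‖n‖ = 1) (hc : 0 < c) (hc1 : c ≤ 1) (hμ : 2 ≤ c * μ)
    (hr1 : (μ ^ N2)⁻¹ ≤ r) (hr2 : r ≤ μ⁻¹) {y : ℂ} (hy : -H ≤ y.im) (hd : c * μ * r ≤ ‖y - p‖)
    {l : ℤ} (hl : l.natAbs ≤ J + 1) :
    ‖g l y‖ ≤ A * ((1 + (2 / c) ^ N) * μ ^ (N2 * (J + 1)) / μ ^ N) := by
  have hμ2 : 2 ≤ μ := by nlinarith
  have hμ0 : 0 < μ := by linarith
  have hμ1 : 1 ≤ μ := by linarith
  have hr0 : 0 < r := lt_of_lt_of_le (by positivity) hr1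
  set T := c * μ * r / 2 with hT
  have hTr : r ≤ T := by rw [hT]; nlinarith
  have hT0 : 0 < T := by linarith
  have h1 : c * r ≤ T := by nlinarith
  have h2 : T ≤ ‖y - (p + r * n)‖ := by
    have e : y - p = (y - (p + r * n)) + r * n := by ring
    have h3 : ‖y - p‖ ≤ ‖y - (p + r * n)‖ + r := by
      calc ‖y - p‖ = ‖(y - (p + r * n)) + r * n‖ := by rw [← e]
        _ ≤ ‖y - (p + r * n)‖ + ‖(r : ℂ) * n‖ := norm_add_le _ _
        _ = _ := by rw [norm_mul, hn, Complex.norm_real, Real.norm_eq_abs, abs_of_pos hr0, mul_one]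
    rw [hT] at hTr ⊢
    linarith
  refine (h5 y hy T h1 h2 l hl).trans (mul_le_mul_of_nonneg_left ?_ hA)
  have hP : 1 ≤ μ ^ (N2 * (J + 1)) := one_le_pow₀ hμ1
  have hN : 0 < μ ^ N := by positivity
  have e1 : r ^ N ≤ μ ^ (N2 * (J + 1)) / μ ^ N := by
    calc r ^ N ≤ (μ⁻¹) ^ N := pow_le_pow_left₀ hr0.le hr2 N
      _ = 1 / μ ^ N := by rw [inv_pow, one_div]
      _ ≤ _ := by gcongr
  have e2 : (r / T) ^ N = (2 / c) ^ N / μ ^ N := by
    rw [← div_pow]
    congr 1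
    rw [hT]
    field_simp
  have e3 : 1 / T ^ l.natAbs ≤ μ ^ (N2 * (J + 1)) := by
    have h4 : 1 / T ≤ μ ^ N2 := by
      rw [div_le_iff₀ hT0]
      have : 1 ≤ μ ^ N2 * r := by
        have h6 : 0 < μ ^ N2 := by positivity
        have := mul_le_mul_of_nonneg_left hr1 h6.le
        rwa [mul_inv_cancel₀ h6.ne'] at this
      have h7 : 0 < μ ^ N2 := by positivity
      nlinarith
    calc 1 / T ^ l.natAbs = (1 / T) ^ l.natAbs := by rw [one_div, one_div, inv_pow]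
      _ ≤ (μ ^ N2) ^ l.natAbs := pow_le_pow_left₀ (by positivity) h4 _
      _ ≤ (μ ^ N2) ^ (J + 1) := pow_le_pow_right₀ (one_le_pow₀ hμ1) hl
      _ = _ := by rw [← pow_mul]
  have e4 : (r / T) ^ N / T ^ l.natAbs ≤ (2 / c) ^ N * μ ^ (N2 * (J + 1)) / μ ^ N := by
    rw [e2]
    calc (2 / c) ^ N / μ ^ N / T ^ l.natAbs = (2 / c) ^ N / μ ^ N * (1 / T ^ l.natAbs) := by ring
      _ ≤ (2 / c) ^ N / μ ^ N * μ ^ (N2 * (J + 1)) := by gcongr
      _ = _ := by ring
  calc r ^ N + (r / T) ^ N / T ^ l.natAbs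
      ≤ μ ^ (N2 * (J + 1)) / μ ^ N + (2 / c) ^ N * μ ^ (N2 * (J + 1)) / μ ^ N := add_le_add e1 e4
    _ = _ := by ring

theorem kill_own {g : ℤ → ℂ → ℂ} {A H c r : ℝ} {s : ℂ} {J N : ℕ}
    (h5 : ∀ y : ℂ, -H ≤ y.im → ∀ T, c * r ≤ T → T ≤ ‖y - s‖ → ∀ l : ℤ,
      l.natAbs ≤ J + 1 → ‖g l y‖ ≤ A * (r ^ N + (r / T) ^ N / T ^ l.natAbs))
    (hA : 0 ≤ A) (hc : 0 < c) (hc1 : c ≤ 1) (hr0 : 0 < r) (hr1 : r ≤ 1)
    {y : ℂ} (hy : -H ≤ y.im) (hd : c * r ≤ ‖y - s‖) {l : ℤ} (hl : l.natAbs ≤ J + 1) :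
    ‖g l y‖ * r ^ l.natAbs ≤ A * (1 + (c⁻¹) ^ (N + (J + 1))) := by
  have h1 := h5 y hy (c * r) le_rfl hd l hl
  have hci : 1 ≤ c⁻¹ := one_le_inv_iff₀.mpr ⟨hc, hc1⟩
  have e1 : r ^ N * r ^ l.natAbs ≤ 1 := by
    rw [← pow_add]; exact pow_le_one₀ hr0.le hr1
  have e2 : (r / (c * r)) ^ N / (c * r) ^ l.natAbs * r ^ l.natAbs = (c⁻¹) ^ (N + l.natAbs) := by
    have : r / (c * r) = c⁻¹ := by field_simp
    rw [this, pow_add, mul_pow, inv_pow c l.natAbs]
    field_simp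
  have e3 : (c⁻¹) ^ (N + l.natAbs) ≤ (c⁻¹) ^ (N + (J + 1)) :=
    pow_le_pow_right₀ hci (by omega)
  calc ‖g l y‖ * r ^ l.natAbs
      ≤ A * (r ^ N + (r / (c * r)) ^ N / (c * r) ^ l.natAbs) * r ^ l.natAbs := by gcongr
    _ = A * (r ^ N * r ^ l.natAbs + (r / (c * r)) ^ N / (c * r) ^ l.natAbs * r ^ l.natAbs) := by
      ring
    _ ≤ _ := by rw [e2]; gcongr

theorem kill_sum {S : Finset (ℂ × ℕ)} {J : ℕ} (hS : ∀ x ∈ S, x.2 ≤ J) (p : ℂ) (f : S → ℝ)
    {α β : ℝ} (hα : 0 ≤ α) (hβ : 0 ≤ β) (h1 : ∀ i : S, i.1.1 = p → f i ≤ α)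
    (h2 : ∀ i : S, i.1.1 ≠ p → f i ≤ β) : ∑ i, f i ≤ (J + 1) * α + S.card * β := by
  classical
  have h3 : ∀ i : S, f i ≤ (if i.1.1 = p then α else 0) + β := by
    intro i
    by_cases h : i.1.1 = p
    · rw [if_pos h]; linarith [h1 i h]
    · rw [if_neg h]; linarith [h2 i h]
  have h4 : (Finset.univ.filter fun i : S => i.1.1 = p).card ≤ J + 1 := by
    rw [← Finset.card_range (J + 1)]
    refine Finset.card_le_card_of_injOn (fun i => i.1.2) ?_ ?_
    · intro i _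
      have := hS i.1 i.2
      simp only [Finset.coe_range, Set.mem_Iio]
      omega
    · intro i hi k hk hik
      simp only [Finset.coe_filter, Finset.mem_univ, true_and, Set.mem_ofPred_eq] at hi hk
      apply Subtype.ext
      exact Prod.ext (hi.trans hk.symm) hik
  calc ∑ i, f i ≤ ∑ i : S, ((if i.1.1 = p then α else 0) + β) := Finset.sum_le_sum fun i _ => h3 i
    _ = (Finset.univ.filter fun i : S => i.1.1 = p).card * α + S.card * β := by
      rw [Finset.sum_add_distrib, ← Finset.sum_filter]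
      simp
    _ ≤ _ := by
      have : ((Finset.univ.filter fun i : S => i.1.1 = p).card : ℝ) ≤ J + 1 := by exact_mod_cast h4
      gcongr

/-- One term of the own centre in the contraction estimate. -/
theorem kill_con {x a C th r B K μ c : ℝ} {l j J N : ℕ} (hC : 0 < C) (hth : 0 < th)
    (hth1 : th ≤ 1) (hr0 : 0 < r) (hr : r ≤ μ⁻¹) (hB : 0 < B) (ha : 0 ≤ a) (hj : j ≤ J)
    (hN : 1 ≤ N) (hμ : 1 ≤ μ) (hcμ : 2 ≤ c * μ) (hc : 0 < c)
    (hK : th ^ j * r ^ j / B * a ≤ K)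
    (hx : x * r ^ l ≤ C * a * r ^ j *
      ((if l ≤ j then r else 1) + (r ^ N + (r / (2 * c * μ * r)) ^ N))) :
    th ^ l * r ^ l / B * x ≤ C * K * (th + (th ^ J)⁻¹ * ((2 + c⁻¹) / μ)) := by
  have hμ0 : 0 < μ := by linarith
  have hr1 : r ≤ 1 := hr.trans (inv_le_one_of_one_le₀ hμ)
  have hK0 : 0 ≤ K := le_trans (by positivity) hK
  have hthj : 0 < th ^ j := by positivity
  have e0 : a * r ^ j / B ≤ K / th ^ j := by
    rw [le_div_iff₀ hthj]
    calc a * r ^ j / B * th ^ j = th ^ j * r ^ j / B * a := by ring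
      _ ≤ K := hK
  have e1 : r ^ N ≤ μ⁻¹ := (pow_le_of_le_one hr0.le hr1 (by omega)).trans hr
  have e2 : (r / (2 * c * μ * r)) ^ N ≤ c⁻¹ / μ := by
    have h1 : r / (2 * c * μ * r) = (2 * (c * μ))⁻¹ := by field_simp
    rw [h1]
    have h2 : (2 * (c * μ))⁻¹ ≤ 1 := inv_le_one_of_one_le₀ (by linarith)
    refine (pow_le_of_le_one (by positivity) h2 (by omega)).trans ?_
    have h3 : c⁻¹ / μ = (c * μ)⁻¹ := by field_simp
    rw [h3]
    exact inv_anti₀ (by positivity) (by linarith)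
  have e3 : th ^ l / th ^ j ≤ (th ^ J)⁻¹ := by
    calc th ^ l / th ^ j ≤ 1 / th ^ J :=
          div_le_div₀ zero_le_one (pow_le_one₀ hth.le hth1) (by positivity)
            (pow_le_pow_of_le_one hth.le hth1 hj)
      _ = _ := one_div _
  have e4 : th ^ l / th ^ j * (if l ≤ j then r else 1) ≤ th + (th ^ J)⁻¹ * μ⁻¹ := by
    by_cases h : l ≤ j
    · rw [if_pos h]
      have : th ^ l / th ^ j * r ≤ (th ^ J)⁻¹ * μ⁻¹ := by gcongr
      linarith
    · rw [if_neg h, mul_one]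
      have h5 : th ^ l / th ^ j ≤ th := by
        rw [div_le_iff₀ hthj, ← pow_succ']
        exact pow_le_pow_of_le_one hth.le hth1 (by omega)
      have : 0 ≤ (th ^ J)⁻¹ * μ⁻¹ := by positivity
      linarith
  have e5 : 0 ≤ (if l ≤ j then r else 1) := by split_ifs <;> positivity
  set E := (if l ≤ j then r else 1) with hE
  set F := r ^ N + (r / (2 * c * μ * r)) ^ N with hF
  have hF0 : 0 ≤ F := by positivity
  have hF1 : F ≤ μ⁻¹ + c⁻¹ / μ := add_le_add e1 e2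
  calc th ^ l * r ^ l / B * x = th ^ l / B * (x * r ^ l) := by ring
    _ ≤ th ^ l / B * (C * a * r ^ j * (E + F)) := by gcongr
    _ = C * (a * r ^ j / B) * th ^ l * (E + F) := by ring
    _ ≤ C * (K / th ^ j) * th ^ l * (E + F) := by gcongr
    _ = C * K * (th ^ l / th ^ j * E + th ^ l / th ^ j * F) := by ring
    _ ≤ C * K * ((th + (th ^ J)⁻¹ * μ⁻¹) + (th ^ J)⁻¹ * (μ⁻¹ + c⁻¹ / μ)) := by gcongr
    _ = _ := by rw [div_eq_mul_inv, div_eq_mul_inv]; ring

/-- The jets of a family of ladders at the centres. -/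
def kill_Phi {S : Finset (ℂ × ℕ)} (G : ℂ × ℕ → ℂ →ₗ[ℝ] (ℤ → ℂ → ℂ)) :
    (S → ℂ) →ₗ[ℝ] (S → ℂ) where
  toFun a i := ∑ k : S, G k (a k) i.1.2 i.1.1
  map_add' a b := by
    funext i
    simp [Finset.sum_add_distrib]
  map_smul' t a := by
    funext i
    simp only [Pi.smul_apply, map_smul, RingHom.id_apply, Finset.smul_sum]

/-- The projection onto admissible jets. -/
def kill_pi {S : Finset (ℂ × ℕ)} (L : ℂ → Prop) : (S → ℂ) →ₗ[ℝ] (S → ℂ) where
  toFun a i := prj (L i.1.1) i.1.2 (a i)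
  map_add' a b := by
    funext i
    simp [kill_prj_add]
  map_smul' t a := by
    funext i
    simp only [Pi.smul_apply, RingHom.id_apply, kill_prj_smul]

theorem kill_real_sum {ι : Type} [Fintype ι] {u : ι → ℤ → ℂ → ℂ} (h : ∀ i, RealL (u i)) :
    RealL fun j z => ∑ i, u i j z := by
  intro j z
  simp only [map_sum, Finset.mul_sum]
  exact Finset.sum_congr rfl fun i _ => h i j z

theorem kill_odd_sum {ι : Type} [Fintype ι] {H : ℝ} {u : ι → ℤ → ℂ → ℂ}
    (h : ∀ i, OddL H (u i)) : OddL H fun j z => ∑ i, u i j z := by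
  intro j z
  simp only [map_sum, ← Finset.sum_neg_distrib]
  exact Finset.sum_congr rfl fun i _ => h i j z

theorem kill_num {D μ : ℝ} {a b k : ℕ} (hD : 0 ≤ D) (hμ : 1 ≤ μ) (h : 4 * D ≤ μ) :
    D * μ ^ a / μ ^ (a + b + (k + 1)) * μ ^ b ≤ 1 / 4 := by
  have hμ0 : 0 < μ := by linarith
  have e : D * μ ^ a / μ ^ (a + b + (k + 1)) * μ ^ b = D / μ ^ (k + 1) := by
    rw [pow_add, pow_add]
    field_simp
  rw [e, div_le_iff₀ (by positivity)]
  have : μ ≤ μ ^ (k + 1) := le_self_pow₀ hμ (by omega)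
  linarith

theorem t_kill (hacor : S_ACOR) (hfix : S_FIX) (hlad : S_LAD) : S_KILL := by
  classical
  intro J N0 N2 N3 c hc hc1
  set N := (N0 + N2 * (J + 1)) + (N2 + 1 + N3) + (J + 1 + 1) with hNdef
  obtain ⟨C1, hC1, hcor⟩ := hacor J N c hc hc1 (by omega)
  set th : ℝ := 1 / (8 * C1 * (J + 1) + 1) with hth
  have hth0 : 0 < th := by positivity
  have hden : 0 < 8 * C1 * (J + 1) := by positivity
  have hth1 : th ≤ 1 := by
    rw [hth, div_le_one (by positivity)]; linarith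
  have hth8 : (J + 1) * C1 * th ≤ 1 / 8 := by
    rw [hth, mul_one_div, div_le_div_iff₀ (by positivity) (by norm_num)]; linarith
  set ti : ℝ := (th ^ J)⁻¹ with hti
  have hti0 : 0 < ti := by positivity
  set D : ℝ := (J + 1) * C1 * ti * (1 + (2 / c) ^ N) with hD
  have hD0 : 0 < D := by positivity
  set D' : ℝ := (J + 1) * C1 * ti * (2 + c⁻¹) with hD'
  have hD'0 : 0 < D' := by positivity
  refine ⟨(J + 1) * (C1 * (2 * ti) * (1 + (c⁻¹) ^ (N + (J + 1)))) + 1,
    2 / c + 4 * D + 8 * D', by positivity, ?_⟩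
  intro μ hμ H W Z n r B M hW hWr hWo hcard hZ hsep
  have h2c : 0 < 2 / c := by positivity
  have hcμ : 2 ≤ c * μ := by
    have : 2 / c ≤ μ := by linarith
    rw [div_le_iff₀ hc] at this
    linarith
  have hμ2 : 2 ≤ μ := by nlinarith
  have hμ0 : 0 < μ := by linarith
  have hμ1 : 1 ≤ μ := by linarith
  have hr0 : ∀ p ∈ Z, 0 < r p := fun p hp => lt_of_lt_of_le (by positivity) (hZ p hp).2.1
  have hr1 : ∀ p ∈ Z, r p ≤ 1 := fun p hp =>
    (hZ p hp).2.2.1.trans (inv_le_one_of_one_le₀ hμ1)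
  have hB0 : ∀ p ∈ Z, 0 < B p := fun p hp => lt_of_lt_of_le (by positivity) (hZ p hp).2.2.2.1
  have hpim : ∀ p ∈ Z, -H ≤ p.im := by
    intro p hp
    rcases (hZ p hp).2.2.2.2.2.2.2.1 with h | h
    · exact h.1.ge
    · have : 0 ≤ 2 * c * μ * r p := by have := hr0 p hp; positivity
      linarith
  set L : ℂ → Prop := fun p => p.im = -H ∧ (n p).im = 0 with hL
  set S : Finset (ℂ × ℕ) := (Z ×ˢ Finset.range (J + 1)).filter fun x => x.2 < M x.1 with hS
  have hSZ : ∀ x ∈ S, x.1 ∈ Z := by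
    intro x hx
    rw [hS, Finset.mem_filter, Finset.mem_product] at hx
    exact hx.1.1
  have hSM : ∀ x ∈ S, x.2 < M x.1 := by
    intro x hx
    rw [hS, Finset.mem_filter] at hx
    exact hx.2
  have hSJ : ∀ x ∈ S, x.2 ≤ J := fun x hx =>
    ((hSM x hx).le).trans (hZ x.1 (hSZ x hx)).2.2.2.2.2.1
  have hScard : (S.card : ℝ) ≤ μ ^ N0 * (J + 1) := by
    have h1 : S.card ≤ Z.card * (J + 1) := by
      rw [hS]
      refine (Finset.card_filter_le _ _).trans ?_
      rw [Finset.card_product, Finset.card_range]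
    have h2 : (S.card : ℝ) ≤ Z.card * (J + 1) := by exact_mod_cast h1
    refine h2.trans ?_
    gcongr
  have hex : ∀ x : ℂ × ℕ, ∃ G : ℂ →ₗ[ℝ] (ℤ → ℂ → ℂ), x ∈ S → ∀ a,
      Lad {y | y ≠ x.1 + r x.1 * n x.1 ∧ y ≠ mir H (x.1 + r x.1 * n x.1)} (G a) ∧ RealL (G a) ∧
      OddL H (G a) ∧
      (∀ l ≤ J, ∀ T, r x.1 ≤ T → (¬L x.1 → T ≤ x.1.im + H) →
        ‖G a (l : ℕ) x.1 - (if l = x.2 then prj (L x.1) x.2 a else 0)‖ * r x.1 ^ l ≤
          C1 * ‖a‖ * r x.1 ^ x.2 *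
            ((if l ≤ x.2 then r x.1 else 1) + (r x.1 ^ N + (r x.1 / T) ^ N))) ∧
      ∀ y : ℂ, -H ≤ y.im → ∀ T, c * r x.1 ≤ T → T ≤ ‖y - (x.1 + r x.1 * n x.1)‖ → ∀ l : ℤ,
        l.natAbs ≤ J + 1 → ‖G a l y‖ ≤
          C1 * ‖a‖ * r x.1 ^ x.2 * (r x.1 ^ N + (r x.1 / T) ^ N / T ^ l.natAbs) := by
    intro x
    by_cases hx : x ∈ S
    · have hp := hSZ x hx
      obtain ⟨G, hG⟩ := hcor H (r x.1) x.1 (n x.1) (L x.1) x.2 (hSJ x hx) (hZ _ hp).1
        (hr0 _ hp) (hr1 _ hp) (hZ _ hp).2.2.2.2.2.2.1 id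
      exact ⟨G, fun _ => hG⟩
    · exact ⟨0, fun h => absurd h hx⟩
  choose G hG using hex
  set w : S → ℝ := fun i => th ^ i.1.2 * r i.1.1 ^ i.1.2 / B i.1.1 with hw
  have hw0 : ∀ i, 0 < w i := by
    intro i
    have h1 := hr0 _ (hSZ _ i.2)
    have h2 := hB0 _ (hSZ _ i.2)
    simp only [hw]
    positivity
  have hw1 : ∀ i, w i ≤ μ ^ N2 := by
    intro i
    have hp := hSZ _ i.2
    have h1 := hr0 _ hp
    have h2 := hB0 _ hp
    have h3 : th ^ i.1.2 * r i.1.1 ^ i.1.2 ≤ 1 :=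
      mul_le_one₀ (pow_le_one₀ hth0.le hth1) (by positivity) (pow_le_one₀ h1.le (hr1 _ hp))
    calc w i ≤ 1 / (μ ^ N2)⁻¹ :=
          div_le_div₀ zero_le_one h3 (by positivity) (hZ _ hp).2.2.2.1
      _ = _ := by simp
  -- size of the coefficients
  have hsize : ∀ (a : S → ℂ) (K : ℝ), (∀ i, w i * ‖a i‖ ≤ K) → ∀ i : S,
      ‖a i‖ * r i.1.1 ^ i.1.2 ≤ K * B i.1.1 * ti := by
    intro a K ha i
    have hp := hSZ _ i.2
    have h1 := hr0 _ hp
    have h2 := hB0 _ hp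
    have hK0 : 0 ≤ K := le_trans (mul_nonneg (hw0 i).le (norm_nonneg _)) (ha i)
    have h3 : (th ^ i.1.2)⁻¹ ≤ ti :=
      inv_anti₀ (by positivity) (pow_le_pow_of_le_one hth0.le hth1 (hSJ _ i.2))
    have h4 : 0 < th ^ i.1.2 := by positivity
    calc ‖a i‖ * r i.1.1 ^ i.1.2 = w i * ‖a i‖ * B i.1.1 * (th ^ i.1.2)⁻¹ := by
          simp only [hw]; field_simp
      _ ≤ K * B i.1.1 * ti := by gcongr; exact ha i
  set E : ℝ := (1 + (2 / c) ^ N) * μ ^ (N2 * (J + 1)) / μ ^ N with hE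
  have hE0 : 0 ≤ E := by positivity
  have hfar : ∀ (a : S → ℂ) (K : ℝ), (∀ i, w i * ‖a i‖ ≤ K) → ∀ (i : S) (y : ℂ), -H ≤ y.im →
      c * μ * r i.1.1 ≤ ‖y - i.1.1‖ → ∀ l : ℤ, l.natAbs ≤ J + 1 →
      ‖G i (a i) l y‖ ≤ C1 * (K * μ * ti) * E := by
    intro a K ha i y hy hd l hl
    have hp := hSZ _ i.2
    have h1 := hr0 _ hp
    have hK0 : 0 ≤ K := le_trans (mul_nonneg (hw0 i).le (norm_nonneg _)) (ha i)
    have h2 := kill_far (hG i i.2 (a i)).2.2.2.2 (by positivity) (hZ _ hp).1 hc hc1 hcμ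
      (hZ _ hp).2.1 (hZ _ hp).2.2.1 hy hd hl
    refine h2.trans (mul_le_mul_of_nonneg_right ?_ hE0)
    rw [mul_assoc]
    refine mul_le_mul_of_nonneg_left ((hsize a K ha i).trans ?_) hC1.le
    gcongr
    exact (hZ _ hp).2.2.2.2.1
  -- the numerical inequality
  have hnum : S.card * (C1 * ti * E) * μ ^ (N2 + 1 + N3) ≤ 1 / 4 := by
    have h1 := kill_num (a := N0 + N2 * (J + 1)) (b := N2 + 1 + N3) (k := J + 1) hD0.le hμ1
      (by linarith)
    refine le_trans ?_ h1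
    refine mul_le_mul_of_nonneg_right ?_ (by positivity)
    calc S.card * (C1 * ti * E) ≤ μ ^ N0 * (J + 1) * (C1 * ti * E) := by gcongr
      _ = _ := by rw [hE, hD, ← hNdef, pow_add μ N0]; ring
  have hX0 : 0 ≤ S.card * (C1 * ti * E) := by positivity
  have hnum1 : S.card * (C1 * ti * E) * μ ^ (N2 + 1) ≤ 1 / 4 :=
    le_trans (mul_le_mul_of_nonneg_left (pow_le_pow_right₀ hμ1 (by omega)) hX0) hnum
  have hnum2 : S.card * (C1 * ti * E) * μ ^ N3 ≤ 1 / 4 :=
    le_trans (mul_le_mul_of_nonneg_left (pow_le_pow_right₀ hμ1 (by omega)) hX0) hnum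
  have hUr : ∀ a : S → ℂ, RealL fun j z => ∑ i : S, G i (a i) j z := fun a =>
    kill_real_sum fun i => (hG i i.2 (a i)).2.1
  have hUo : ∀ a : S → ℂ, OddL H fun j z => ∑ i : S, G i (a i) j z := fun a =>
    kill_odd_sum fun i => (hG i i.2 (a i)).2.2.1
  obtain ⟨a, ha1, ha2⟩ := hfix S w (kill_Phi G) (kill_pi L) hw0
    (fun a => funext fun i => kill_prj_fix (hUr a) (hUo a) (fun h => h.1) i.1.2)
    (by
      intro a K ha i
      have hp := hSZ _ i.2
      have hK0 : 0 ≤ K := le_trans (mul_nonneg (hw0 i).le (norm_nonneg _)) (ha i)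
      have e1 : kill_Phi G a i - kill_pi L a i = ∑ k : S,
          (G k (a k) i.1.2 i.1.1 - if k = i then prj (L k.1.1) k.1.2 (a k) else 0) := by
        rw [Finset.sum_sub_distrib, Finset.sum_ite_eq' Finset.univ i]
        simp [kill_Phi, kill_pi]
      rw [e1]
      have e2 := kill_sum hSJ i.1.1
        (fun k => w i * ‖G k (a k) i.1.2 i.1.1 - if k = i then prj (L k.1.1) k.1.2 (a k) else 0‖)
        (α := C1 * K * (th + ti * ((2 + c⁻¹) / μ))) (β := μ ^ N2 * (C1 * (K * μ * ti) * E))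
        (by positivity) (by positivity)
        (by
          intro k hk
          have hrp := hr0 _ hp
          have h4 := (hG k k.2 (a k)).2.2.2.1 i.1.2 (hSJ _ i.2) (2 * c * μ * r k.1.1)
            (by rw [hk]; nlinarith)
            (by
              intro hn
              rw [hk] at hn ⊢
              exact (hZ _ hp).2.2.2.2.2.2.2.1.resolve_left hn)
          have h5 : (if i.1.2 = k.1.2 then prj (L k.1.1) k.1.2 (a k) else 0) =
              if k = i then prj (L k.1.1) k.1.2 (a k) else 0 := by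
            by_cases h : k = i
            · rw [if_pos h, if_pos (by rw [h])]
            · rw [if_neg h, if_neg]
              intro h'
              exact h (Subtype.ext (Prod.ext hk h'.symm))
          rw [h5] at h4
          have h6 := ha k
          simp only [hw] at h6 ⊢
          rw [hk] at h4 h6 ⊢
          exact kill_con hC1 hth0 hth1 hrp (hZ _ hp).2.2.1 (hB0 _ hp) (norm_nonneg _) (hSJ _ k.2)
            (by omega) hμ1 hcμ hc h6 h4)
        (by
          intro k hk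
          have h4 : k ≠ i := fun h => hk (by rw [h])
          rw [if_neg h4, sub_zero]
          have h5 := hfar a K ha k i.1.1 (hpim _ hp)
            (by rw [norm_sub_rev]; exact hsep _ (hSZ _ k.2) _ hp hk) (i.1.2 : ℕ)
            (by have := hSJ _ i.2; simp only [Int.natAbs_natCast]; omega)
          exact mul_le_mul (hw1 i) h5 (norm_nonneg _) (by positivity))
      have e3 : (J + 1) * (C1 * K * (th + ti * ((2 + c⁻¹) / μ))) ≤ K / 4 := by
        have h1 : D' / μ ≤ 1 / 8 := by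
          rw [div_le_iff₀ hμ0]; linarith
        calc (J + 1) * (C1 * K * (th + ti * ((2 + c⁻¹) / μ)))
            = K * ((J + 1) * C1 * th + D' / μ) := by rw [hD']; ring
          _ ≤ K * (1 / 8 + 1 / 8) := by gcongr
          _ = K / 4 := by ring
      have e4 : S.card * (μ ^ N2 * (C1 * (K * μ * ti) * E)) ≤ K / 4 := by
        calc S.card * (μ ^ N2 * (C1 * (K * μ * ti) * E))
            = K * (S.card * (C1 * ti * E) * μ ^ (N2 + 1)) := by ring
          _ ≤ K * (1 / 4) := by gcongr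
          _ = K / 4 := by ring
      calc w i * ‖∑ k : S, (G k (a k) i.1.2 i.1.1 -
              if k = i then prj (L k.1.1) k.1.2 (a k) else 0)‖
          ≤ w i * ∑ k : S, ‖G k (a k) i.1.2 i.1.1 -
              if k = i then prj (L k.1.1) k.1.2 (a k) else 0‖ :=
            mul_le_mul_of_nonneg_left (norm_sum_le _ _) (hw0 i).le
        _ ≤ _ := by rw [Finset.mul_sum]; linarith)
    (fun i => -W i.1.2 i.1.1) μ⁻¹
    (funext fun i => by
      show prj (L i.1.1) i.1.2 (-W i.1.2 i.1.1) = -W i.1.2 i.1.1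
      rw [kill_prj_neg, kill_prj_fix hWr hWo (fun h => h.1)])
    (by
      intro i
      have hp := hSZ _ i.2
      have h1 := (hZ _ hp).2.2.2.2.2.2.2.2 i.1.2 (hSM _ i.2)
      have h2 := hB0 _ hp
      have h3 := hr0 _ hp
      have h4 : th ^ i.1.2 ≤ 1 := pow_le_one₀ hth0.le hth1
      rw [norm_neg]
      calc w i * ‖W i.1.2 i.1.1‖ = th ^ i.1.2 * (‖W i.1.2 i.1.1‖ * r i.1.1 ^ i.1.2) / B i.1.1 := by
            simp only [hw]; ring
        _ ≤ 1 * (B i.1.1 / μ) / B i.1.1 := by gcongr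
        _ = μ⁻¹ := by field_simp)
  have hβ : C1 * (2 * μ⁻¹ * μ * ti) * E = 2 * (C1 * ti * E) := by field_simp
  refine ⟨W + fun j z => ∑ i : S, G i (a i) j z, ?_, ?_, ?_, ?_, ?_, ?_⟩
  · obtain ⟨-, -, hsub, hadd, -, -, -, -, -, hsum⟩ := hlad
    refine hadd _ _ _ (hsub _ _ _ (subset_univ _) hW) (hsum _ S Finset.univ _ ?_)
    intro i _
    exact hsub _ _ _ (fun y hy => hy _ (hSZ _ i.2)) (hG i i.2 (a i)).1
  · intro j z
    have h1 := hWr j z
    have h2 := hUr a j z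
    simp only [Pi.add_apply, map_add] at h2 ⊢
    rw [h1, h2, mul_add]
  · intro j z
    have h1 := hWo j z
    have h2 := hUo a j z
    simp only [Pi.add_apply, map_add] at h2 ⊢
    rw [h1, h2, neg_add]
  · intro p hp j hj
    have hm : (p, j) ∈ S := by
      rw [hS, Finset.mem_filter, Finset.mem_product, Finset.mem_range]
      have := (hZ p hp).2.2.2.2.2.1
      exact ⟨⟨hp, by simp only; omega⟩, hj⟩
    have h1 : ∑ i : S, G i (a i) j p = -W j p := congrFun ha1 ⟨(p, j), hm⟩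
    simp only [Pi.add_apply]
    rw [h1, add_neg_cancel]
  · intro p hp y hy hd hd' l hl
    have hrp := hr0 p hp
    have hBp := hB0 p hp
    simp only [Pi.add_apply, add_sub_cancel_left]
    have e2 := kill_sum hSJ p (fun k => ‖G k (a k) l y‖ * r p ^ l.natAbs)
      (α := C1 * (2 * μ⁻¹ * B p * ti) * (1 + (c⁻¹) ^ (N + (J + 1))))
      (β := C1 * (2 * μ⁻¹ * μ * ti) * E) (by positivity) (by positivity)
      (by
        intro k hk
        have h4 := (hG k k.2 (a k)).2.2.2.2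
        have h5 := hsize a _ ha2 k
        rw [hk] at h4 h5
        refine (kill_own h4 (by positivity) hc hc1 hrp (hr1 p hp) hy hd hl).trans ?_
        rw [mul_assoc C1]
        gcongr)
      (by
        intro k hk
        have h5 := hfar a _ ha2 k y hy (hd' _ (hSZ _ k.2) hk) l hl
        have h6 : r p ^ l.natAbs ≤ 1 := pow_le_one₀ hrp.le (hr1 p hp)
        calc ‖G k (a k) l y‖ * r p ^ l.natAbs ≤ C1 * (2 * μ⁻¹ * μ * ti) * E * 1 :=
              mul_le_mul h5 h6 (by positivity) (by positivity)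
          _ = _ := mul_one _)
    have e3 : S.card * (C1 * (2 * μ⁻¹ * μ * ti) * E) ≤ B p / μ := by
      have h1 : 1 ≤ μ ^ N2 * B p := by
        have h6 : 0 < μ ^ N2 := by positivity
        have := mul_le_mul_of_nonneg_left (hZ p hp).2.2.2.1 h6.le
        rwa [mul_inv_cancel₀ h6.ne'] at this
      rw [hβ, le_div_iff₀ hμ0]
      calc S.card * (2 * (C1 * ti * E)) * μ ≤ S.card * (2 * (C1 * ti * E)) * μ * (μ ^ N2 * B p) :=
            le_mul_of_one_le_right (by positivity) h1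
        _ = 2 * (S.card * (C1 * ti * E) * μ ^ (N2 + 1)) * B p := by ring
        _ ≤ 2 * (1 / 4) * B p := by gcongr
        _ ≤ B p := by linarith
    calc ‖∑ i : S, G i (a i) l y‖ * r p ^ l.natAbs
        ≤ (∑ i : S, ‖G i (a i) l y‖) * r p ^ l.natAbs :=
          mul_le_mul_of_nonneg_right (norm_sum_le _ _) (by positivity)
      _ ≤ (J + 1) * (C1 * (2 * μ⁻¹ * B p * ti) * (1 + (c⁻¹) ^ (N + (J + 1)))) + B p / μ := by
          rw [Finset.sum_mul]; linarith
      _ = _ := by rw [div_eq_mul_inv, div_eq_mul_inv]; ring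
  · intro y hy hd l hl
    simp only [Pi.add_apply, add_sub_cancel_left]
    have h1 : ∑ i : S, ‖G i (a i) l y‖ ≤ ∑ _i : S, C1 * (2 * μ⁻¹ * μ * ti) * E :=
      Finset.sum_le_sum fun i _ => hfar a _ ha2 i y hy (hd _ (hSZ _ i.2)) l hl
    rw [Finset.sum_const, Finset.card_univ, Fintype.card_coe, nsmul_eq_mul, hβ] at h1
    refine (norm_sum_le _ _).trans (h1.trans ?_)
    have h6 : 0 < μ ^ N3 := by positivity
    rw [← one_div, le_div_iff₀ h6]
    linarith

end

end Pool.Agent.P.MP_6b977f_mp.EB
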