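import Pool.Agent.P.MP_6b977f_mp.EB.IfB

/-! Basic properties of ladders. -/

namespace Pool.Agent.P.MP_6b977f_mp.EB

open Real MeasureTheory Filter Topology Laplacian Set Metric
open scoped ContDiff BoundedContinuousFunction ComplexConjugate Pointwise ENNReal

noncomputable section

/-- The real-linear map `e ↦ (e a - conj e b) / 2`. -/
def lad_D (a b : ℂ) : ℂ →L[ℝ] ℂ :=
  (a / 2) • ContinuousLinearMap.id ℝ ℂ - (b / 2) • (Complex.conjCLE : ℂ →L[ℝ] ℂ)

theorem lad_D_apply (a b e : ℂ) : lad_D a b e = (e * a - conj e * b) / 2 := by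
  simp [lad_D]; ring

theorem lad_der {O : Set ℂ} {u : ℤ → ℂ → ℂ} (h : Lad O u) (j : ℤ) {z : ℂ} (hz : z ∈ O) :
    HasFDerivAt (u j) (lad_D (u (j + 1) z) (u (j - 1) z)) z := by
  obtain ⟨A, h1, h2⟩ := h j z hz
  rwa [show lad_D (u (j + 1) z) (u (j - 1) z) = A from
    ContinuousLinearMap.ext fun e => by rw [lad_D_apply, h2]]

theorem lad_smooth {O : Set ℂ} {u : ℤ → ℂ → ℂ} (hO : IsOpen O) (h : Lad O u) (j : ℤ) :
    ContDiffOn ℝ ∞ (u j) O := by
  rw [contDiffOn_infty]
  intro n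
  induction n generalizing j with
  | zero =>
    exact contDiffOn_zero.2 fun z hz => (lad_der h j hz).continuousAt.continuousWithinAt
  | succ n ih =>
    rw [Nat.cast_succ, contDiffOn_succ_iff_fderiv_of_isOpen hO]
    refine ⟨fun z hz => (lad_der h j hz).differentiableAt.differentiableWithinAt, by simp, ?_⟩
    refine ContDiffOn.congr (f := fun z => lad_D (u (j + 1) z) (u (j - 1) z)) ?_
      fun z hz => (lad_der h j hz).fderiv
    unfold lad_D
    exact (((ih (j + 1)).div_const 2).smul contDiffOn_const).sub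
      (((ih (j - 1)).div_const 2).smul contDiffOn_const)

theorem lad_sol {O : Set ℂ} {u : ℤ → ℂ → ℂ} (hO : IsOpen O) (h : Lad O u) (k : ℝ) :
    Sol {z | (k : ℂ) * z ∈ O} (k ^ 2) fun z => (u 0 (k * z)).re := by
  have hO' : IsOpen {z : ℂ | (k : ℂ) * z ∈ O} := hO.preimage (by fun_prop)
  have hs : ContDiffOn ℝ ∞ (fun z => (u 0 (k * z)).re) {z | (k : ℂ) * z ∈ O} :=
    Complex.reCLM.contDiff.comp_contDiffOn
      ((lad_smooth hO h 0).comp (f := fun z : ℂ => (k : ℂ) * z) (by fun_prop) fun _ hz => hz)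
  refine ⟨hs, fun x hx => ?_⟩
  have hd : ∀ j y, (k : ℂ) * y ∈ O → HasFDerivAt (fun z => u j (k * z))
      (lad_D (k * u (j + 1) (k * y)) (k * u (j - 1) (k * y))) y := by
    intro j y hy
    have h1 := (lad_der h j hy).comp y ((hasFDerivAt_id (𝕜 := ℝ) y).const_mul (k : ℂ))
    refine h1.congr_fderiv (ContinuousLinearMap.ext fun e => ?_)
    simp [lad_D_apply]; ring
  have h1 : DifferentiableAt ℝ (fderiv ℝ fun z => (u 0 (k * z)).re) x :=
    ((hs.contDiffAt (hO'.mem_nhds hx)).fderiv_right (m := 1) (by norm_cast)).differentiableAt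
      one_ne_zero
  have e : ∀ v, fderiv ℝ (fderiv ℝ fun z => (u 0 (k * z)).re) x v v =
      ((v * (k * lad_D (k * u 2 (k * x)) (k * u 0 (k * x)) v) -
        conj v * (k * lad_D (k * u 0 (k * x)) (k * u (-2) (k * x)) v)) / 2).re := by
    intro v
    have e1 : fderiv ℝ (fderiv ℝ fun z => (u 0 (k * z)).re) x v v =
        fderiv ℝ (fun y => fderiv ℝ (fun z => (u 0 (k * z)).re) y v) x v := by
      rw [fderiv_clm_apply h1 (differentiableAt_const v)]
      simp
    have e2 : (fun y => fderiv ℝ (fun z => (u 0 (k * z)).re) y v) =ᶠ[𝓝 x]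
        fun y => ((v * (k * u 1 (k * y)) - conj v * (k * u (-1) (k * y))) * 2⁻¹).re := by
      filter_upwards [hO'.mem_nhds hx] with y hy
      have h2 := (Complex.reCLM.hasFDerivAt.comp y (hd 0 y hy)).fderiv
      rw [show (fun z => (u 0 (k * z)).re) = Complex.reCLM ∘ fun z => u 0 (k * z) from rfl, h2,
        ContinuousLinearMap.comp_apply, lad_D_apply, div_eq_mul_inv]
      rfl
    have e3 := (Complex.reCLM.hasFDerivAt.comp x (((((hd 1 x hx).const_mul (k : ℂ)).const_mul v).sub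
      (((hd (-1) x hx).const_mul (k : ℂ)).const_mul (conj v))).mul_const 2⁻¹)).fderiv
    rw [e1, e2.fderiv_eq]
    refine (congrArg (fun A : ℂ →L[ℝ] ℝ => A v) e3).trans ?_
    simp only [ContinuousLinearMap.comp_apply, Complex.reCLM_apply, smul_apply, sub_apply,
      smul_eq_mul]
    congr 1
    norm_num
    ring
  rw [InnerProductSpace.laplacian_eq_iteratedFDeriv_complexPlane]
  simp only [iteratedFDeriv_two_apply, Matrix.cons_val_zero, Matrix.cons_val_one, e, lad_D_apply]
  simp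
  ring

theorem t_lad : S_LAD := by
  refine ⟨fun O u hO h => ⟨lad_smooth hO h, fun k _ => lad_sol hO h k⟩, ?_,
    fun O O' u hO h j z hz => h j z (hO hz), ?_, ?_, ?_, ?_, ?_, ?_, ?_⟩
  · intro O u h hR z hz
    have h0 := hR 0 z
    have h1 := hR 1 z
    rw [neg_zero, zpow_zero, one_mul] at h0
    refine ⟨Complex.conj_eq_iff_im.1 h0.symm, _, Complex.reCLM.hasFDerivAt.comp z (lad_der h 0 hz),
      fun e => ?_⟩
    rw [ContinuousLinearMap.comp_apply, lad_D_apply, zero_add, zero_sub, h1]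
    simp
  · intro O u v hu hv j z hz
    refine ⟨_, (lad_der hu j hz).add (lad_der hv j hz), fun e => ?_⟩
    simp [lad_D_apply]; ring
  · intro O u a hu j z hz
    refine ⟨_, (lad_der hu j hz).const_mul a, fun e => ?_⟩
    simp [lad_D_apply]; ring
  · intro O u b hu j z hz
    refine ⟨_, (lad_der hu j hz).comp z ((hasFDerivAt_id (𝕜 := ℝ) z).sub_const b), fun e => ?_⟩
    simp [lad_D_apply]
  · intro O u m hu j z hz
    refine ⟨_, lad_der hu (j + m) hz, fun e => ?_⟩
    rw [lad_D_apply, show j + m + 1 = j + 1 + m by ring, show j + m - 1 = j - 1 + m by ring]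
  · intro O u hu j z hz
    refine ⟨_, ((Complex.conjCLE : ℂ →L[ℝ] ℂ).hasFDerivAt.comp z (lad_der hu (-j) hz)).const_mul
      ((-1) ^ j), fun e => ?_⟩
    have h1 : (-1 : ℂ) ≠ 0 := by norm_num
    rw [show -j + 1 = -(j - 1) by ring, show -j - 1 = -(j + 1) by ring]
    simp only [smul_apply, ContinuousLinearMap.comp_apply, lad_D_apply, zpow_add_one₀ h1,
      zpow_sub_one₀ h1, smul_eq_mul]
    simp [map_ofNat]
    ring
  · intro O u H hu j z hz
    have h1 : HasFDerivAt (mir H) (Complex.conjCLE : ℂ →L[ℝ] ℂ) z :=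
      (Complex.conjCLE : ℂ →L[ℝ] ℂ).hasFDerivAt.sub_const _
    refine ⟨_, (Complex.conjCLE : ℂ →L[ℝ] ℂ).hasFDerivAt.comp z ((lad_der hu j hz).comp z h1),
      fun e => ?_⟩
    simp [lad_D_apply, map_ofNat]
  · intro O ι T u hu j z hz
    refine ⟨_, HasFDerivAt.fun_sum fun i hi => lad_der (hu i hi) j hz, fun e => ?_⟩
    simp [lad_D_apply, Finset.mul_sum, Finset.sum_div, sub_div]

end

end Pool.Agent.P.MP_6b977f_mp.EB
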