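import Pool.Agent.P.MP_6b977f_mp.EB.IfB

/-! Lipschitz bounds from local bounds. -/

namespace Pool.Agent.P.MP_6b977f_mp.EB

open Real MeasureTheory Filter Topology Laplacian Set Metric
open scoped ContDiff BoundedContinuousFunction ComplexConjugate Pointwise ENNReal

noncomputable section

theorem lipz_one {f : ℝ → ℝ} {s t η : ℝ} (hst : s ≤ t) (hc : ContinuousOn f (Icc s t))
    (h : ∀ x ∈ Ioo s t, ∀ ε > 0, ∀ᶠ y in 𝓝 x, |f y - f x| ≤ (η + ε) * |y - x|) :
    f t - f s ≤ η * (t - s) := by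
  rcases hst.eq_or_lt with rfl | hlt
  · simp
  have h1 : ∀ s' ∈ Ioo s t, f t ≤ f s' + η * (t - s') := by
    intro s' hs'
    have h2 := image_le_of_liminf_slope_right_le_deriv_boundary (f := f) (a := s') (b := t)
      (hc.mono (Icc_subset_Icc_left hs'.1.le)) (B := fun x => f s' + η * (x - s'))
      (B' := fun _ => η) (by simp) (by fun_prop)
      (fun x _ => by
        have := (((hasDerivAt_id x).sub_const s').const_mul η).const_add (f s')
        simpa using this.hasDerivWithinAt)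
      (fun x hx r hr => by
        have h3 := h x ⟨lt_of_lt_of_le hs'.1 hx.1, hx.2⟩ ((r - η) / 2) (by linarith)
        have h4 : ∀ᶠ z in 𝓝[>] x, slope f x z < r := by
          filter_upwards [h3.filter_mono nhdsWithin_le_nhds, self_mem_nhdsWithin] with z hz hz'
          have h5 : 0 < z - x := sub_pos.2 hz'
          rw [abs_of_pos h5] at hz
          rw [slope_def_field, div_lt_iff₀ h5]
          have h6 := le_abs_self (f z - f x)
          nlinarith
        exact h4.frequently)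
    exact h2 ⟨hs'.2.le, le_rfl⟩
  have h2 : Tendsto (fun s' => f s' + η * (t - s')) (𝓝[Ioo s t] s) (𝓝 (f s + η * (t - s))) := by
    refine ((hc s ⟨le_rfl, hst⟩).mono Ioo_subset_Icc_self).tendsto.add ?_
    exact (Continuous.tendsto (by fun_prop) s).mono_left nhdsWithin_le_nhds
  haveI : (𝓝[Ioo s t] s).NeBot := left_nhdsWithin_Ioo_neBot hlt
  have h3 := ge_of_tendsto h2 (eventually_mem_nhdsWithin.mono h1)
  linarith

theorem lipz_fin {f : ℝ → ℝ} {η : ℝ} {Z : Set ℝ} (hZ : Z.Finite) : ∀ s t, s ≤ t →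
    ContinuousOn f (Icc s t) →
    (∀ x ∈ Ioo s t, x ∉ Z → ∀ ε > 0, ∀ᶠ y in 𝓝 x, |f y - f x| ≤ (η + ε) * |y - x|) →
    |f t - f s| ≤ η * (t - s) := by
  induction Z, hZ using Set.Finite.induction_on with
  | empty =>
    intro s t hst hc h
    have h1 := lipz_one hst hc fun x hx => h x hx (notMem_empty x)
    have h2 := lipz_one (f := fun x => -f x) hst hc.neg fun x hx ε hε =>
      (h x hx (notMem_empty x) ε hε).mono fun y hy => by
        rwa [neg_sub_neg, abs_sub_comm (f x)]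
    rw [abs_le]
    constructor <;> linarith
  | @insert z Z _ _ ih =>
    intro s t hst hc h
    by_cases hz : z ∈ Ioo s t
    · have h1 := ih s z hz.1.le (hc.mono (Icc_subset_Icc_right hz.2.le)) fun x hx hx' =>
        h x ⟨hx.1, hx.2.trans hz.2⟩ (by
          rintro (rfl | h')
          · exact lt_irrefl _ hx.2
          · exact hx' h')
      have h2 := ih z t hz.2.le (hc.mono (Icc_subset_Icc_left hz.1.le)) fun x hx hx' =>
        h x ⟨hz.1.trans hx.1, hx.2⟩ (by
          rintro (rfl | h')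
          · exact lt_irrefl _ hx.1
          · exact hx' h')
      have h3 := abs_sub_le (f t) (f z) (f s)
      linarith
    · exact ih s t hst hc fun x hx hx' => h x hx (by
        rintro (rfl | h')
        · exact hz hx
        · exact hx' h')

theorem lipz_two (f : ℝ → ℝ) (a b η : ℝ) (Z : Set ℝ) (hZ : Z.Finite)
    (hc : ContinuousOn f (Icc a b))
    (h : ∀ t ∈ Ioo a b, t ∉ Z → ∀ ε > 0, ∀ᶠ t' in 𝓝 t, |f t' - f t| ≤ (η + ε) * |t' - t|) :
    ∀ t ∈ Icc a b, ∀ t' ∈ Icc a b, |f t - f t'| ≤ η * |t - t'| := by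
  have key : ∀ t ∈ Icc a b, ∀ t' ∈ Icc a b, t' ≤ t → |f t - f t'| ≤ η * |t - t'| := by
    intro t ht t' ht' hle
    rw [abs_of_nonneg (sub_nonneg.2 hle)]
    exact lipz_fin hZ t' t hle (hc.mono (Icc_subset_Icc ht'.1 ht.2)) fun x hx =>
      h x ⟨lt_of_le_of_lt ht'.1 hx.1, lt_of_lt_of_le hx.2 ht.2⟩
  intro t ht t' ht'
  rcases le_total t' t with hle | hle
  · exact key t ht t' ht' hle
  · rw [abs_sub_comm, abs_sub_comm t]
    exact key t' ht' t ht hle

theorem lipz_three (f : ℝ → ℝ) (a η : ℝ) (hp : Function.Periodic f (2 * π))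
    (h : ∀ t ∈ Icc a (a + 2 * π), ∀ t' ∈ Icc a (a + 2 * π), |f t - f t'| ≤ η * |t - t'|) :
    ∀ t t', |f t - f t'| ≤ η * |t - t'| := by
  have hπ : 0 < 2 * π := by positivity
  have hη : 0 ≤ η := by
    have h1 := h (a + 2 * π) ⟨by linarith, le_rfl⟩ a ⟨le_rfl, by linarith⟩
    rw [add_sub_cancel_left, abs_of_pos hπ] at h1
    exact nonneg_of_mul_nonneg_left ((abs_nonneg _).trans h1) hπ
  have k1 : ∀ s ∈ Ico a (a + 2 * π), ∀ s' ∈ Ico s (s + 2 * π), |f s' - f s| ≤ η * (s' - s) := by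
    intro s hs s' hs'
    rcases le_total s' (a + 2 * π) with h1 | h1
    · have := h s' ⟨hs.1.trans hs'.1, h1⟩ s ⟨hs.1, hs.2.le⟩
      rwa [abs_of_nonneg (sub_nonneg.2 hs'.1)] at this
    · have h2 := h (s' - 2 * π) ⟨by linarith, by linarith [hs.2, hs'.2]⟩ a ⟨le_rfl, by linarith⟩
      have h3 := h (a + 2 * π) ⟨by linarith, le_rfl⟩ s ⟨hs.1, hs.2.le⟩
      rw [hp.sub_eq, abs_of_nonneg (by linarith : 0 ≤ s' - 2 * π - a)] at h2
      rw [hp, abs_of_nonneg (by linarith [hs.2] : 0 ≤ a + 2 * π - s)] at h3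
      have h4 := abs_sub_le (f s') (f a) (f s)
      linarith
  have key : ∀ t t', t ≤ t' → |f t' - f t| ≤ η * (t' - t) := by
    intro t t' hle
    set m := toIcoDiv hπ a t
    have hs : t - m • (2 * π) ∈ Ico a (a + 2 * π) := sub_toIcoDiv_zsmul_mem_Ico hπ a t
    set k := toIcoDiv hπ t t'
    have hk : t' - k • (2 * π) ∈ Ico t (t + 2 * π) := sub_toIcoDiv_zsmul_mem_Ico hπ t t'
    have hk0 : 0 ≤ k • (2 * π) := by
      have h1 : (-1 : ℝ) * (2 * π) < k * (2 * π) := by
        have := hk.2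
        rw [zsmul_eq_mul] at this
        linarith
      have h2 : (-1 : ℝ) < k := lt_of_mul_lt_mul_right h1 hπ.le
      have h3 : (-1 : ℤ) < k := by exact_mod_cast h2
      exact zsmul_nonneg hπ.le (by omega)
    have h1 := k1 _ hs (t' - k • (2 * π) - m • (2 * π)) ⟨by linarith [hk.1], by linarith [hk.2]⟩
    rw [hp.sub_zsmul_eq, hp.sub_zsmul_eq, hp.sub_zsmul_eq] at h1
    refine h1.trans (mul_le_mul_of_nonneg_left (by linarith) hη)
  intro t t'
  rcases le_total t' t with hle | hle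
  · rw [abs_of_nonneg (sub_nonneg.2 hle)]
    exact key t' t hle
  · rw [abs_sub_comm, abs_sub_comm t, abs_of_nonneg (sub_nonneg.2 hle)]
    exact key t t' hle

theorem t_lipz : S_LIPZ := by
  refine ⟨fun f a b η Z hZ hc h => lipz_two f a b η Z hZ hc ?_, lipz_two, lipz_three⟩
  intro t ht htZ ε hε
  obtain ⟨f', hf, hf'⟩ := h t ht htZ
  filter_upwards [hf.isLittleO.bound hε] with y hy
  simp only [Real.norm_eq_abs, smul_eq_mul] at hy
  have h1 := abs_add_le (f y - f t - (y - t) * f') ((y - t) * f')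
  rw [sub_add_cancel, abs_mul] at h1
  have h2 : |y - t| * |f'| ≤ |y - t| * η := by gcongr
  linarith

end

end Pool.Agent.P.MP_6b977f_mp.EB
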