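import Pool.Agent.P.MP_6b977f_mp.EB.IfB

/-! A range of scales with one dominant index. -/

namespace Pool.Agent.P.MP_6b977f_mp.EB

open Real MeasureTheory Filter Topology Laplacian Set Metric
open scoped ContDiff BoundedContinuousFunction ComplexConjugate Pointwise ENNReal

noncomputable section

theorem newt_between {x y s s' t : ℝ} {j M : ℕ} (hx : 0 ≤ x) (hy : 0 ≤ y) (hs' : 0 < s')
    (h1 : s' ≤ t) (h2 : t ≤ s) (ha : x * s ^ j ≤ y * s ^ M) (hb : x * s' ^ j ≤ y * s' ^ M) :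
    x * t ^ j ≤ y * t ^ M := by
  have ht : 0 < t := lt_of_lt_of_le hs' h1
  have hs : 0 < s := lt_of_lt_of_le ht h2
  rcases le_total M j with h | h
  · obtain ⟨k, rfl⟩ := Nat.exists_eq_add_of_le h
    have h3 : x * s ^ k ≤ y := by
      have h4 : 0 < s ^ M := by positivity
      refine le_of_mul_le_mul_right ?_ h4
      calc x * s ^ k * s ^ M = x * s ^ (M + k) := by ring
        _ ≤ _ := ha
    calc x * t ^ (M + k) = x * t ^ k * t ^ M := by ring
      _ ≤ x * s ^ k * t ^ M := by gcongr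
      _ ≤ _ := by gcongr
  · obtain ⟨k, rfl⟩ := Nat.exists_eq_add_of_le h
    have h3 : x ≤ y * s' ^ k := by
      have h4 : 0 < s' ^ j := by positivity
      refine le_of_mul_le_mul_right ?_ h4
      calc x * s' ^ j ≤ y * s' ^ (j + k) := hb
        _ = _ := by ring
    calc x * t ^ j ≤ y * s' ^ k * t ^ j := by gcongr
      _ ≤ y * t ^ k * t ^ j := by gcongr
      _ = _ := by ring

theorem t_newt : S_NEWT := by
  intro a J l₀ μ c₀ ha hμ hc ⟨j₀, hj₀, hj₀'⟩
  have hμ0 : 0 < μ := by linarith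
  set t : ℕ → ℝ := fun l => (μ ^ (4 * l))⁻¹ with ht
  have ht0 : ∀ l, 0 < t l := fun l => by simp only [ht]; positivity
  have ht1 : ∀ l, t l ≤ 1 := fun l => inv_le_one_of_one_le₀ (one_le_pow₀ hμ)
  have hanti : ∀ l l', l ≤ l' → t l' ≤ t l := fun l l' h =>
    inv_anti₀ (by positivity) (pow_le_pow_right₀ hμ (by omega))
  have hex : ∀ l, ∃ M ∈ Finset.Icc 1 J, ∀ j ∈ Finset.Icc 1 J, a j * t l ^ j ≤ a M * t l ^ M :=
    fun l => Finset.exists_max_image _ (fun j => a j * t l ^ j)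
      ⟨j₀, Finset.mem_Icc.2 hj₀⟩
  choose M hM hmax using hex
  have key : ∀ l l', l ∈ Finset.Icc (l₀ + 1) (l₀ + J + 1) → l' ∈ Finset.Icc (l₀ + 1) (l₀ + J + 1) →
      l < l' → M l = M l' →
      ∃ l ∈ Icc (l₀ + 1) (l₀ + J), ∃ M ∈ Icc 1 J, Dom a J M (μ ^ (4 * l + 2))⁻¹ μ c₀ := by
    intro l l' hl hl' hlt hMM
    rw [Finset.mem_Icc] at hl hl'
    have e1 : μ ^ 2 * (μ ^ (4 * l + 2))⁻¹ = t l := by
      simp only [ht]; rw [pow_add]; field_simp
    have e2 : (μ ^ (4 * l + 2))⁻¹ / μ ^ 2 = t (l + 1) := by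
      simp only [ht]; field_simp; ring
    refine ⟨l, ⟨hl.1, by omega⟩, M l, Finset.mem_Icc.1 (hM l), ?_, ?_⟩
    · intro j hj s hs
      rw [e1, e2] at hs
      have h1 := hmax l j (Finset.mem_Icc.2 hj)
      have h2 := hmax l' j (Finset.mem_Icc.2 hj)
      rw [← hMM] at h2
      exact newt_between (ha _) (ha _) (ht0 l') ((hanti _ _ hlt).trans hs.1) hs.2 h1 h2
    · rw [e1]
      have h1 := hmax l j₀ (Finset.mem_Icc.2 hj₀)
      have h2 : t l ^ J ≤ t l ^ j₀ := pow_le_pow_of_le_one (ht0 l).le (ht1 l) hj₀.2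
      have h3 := ht0 l
      calc c₀ * t l ^ J ≤ a j₀ * t l ^ j₀ := mul_le_mul hj₀' h2 (by positivity) (ha _)
        _ ≤ _ := h1
  obtain ⟨l, hl, l', hl', hne, hMM⟩ := Finset.exists_ne_map_eq_of_card_lt_of_maps_to
    (s := Finset.Icc (l₀ + 1) (l₀ + J + 1)) (t := Finset.Icc 1 J) (by simp; omega) (f := M)
    (fun l _ => hM l)
  rcases lt_or_gt_of_ne hne with h | h
  · exact key l l' hl hl' h hMM
  · exact key l' l hl' hl h hMM.symm

end

end Pool.Agent.P.MP_6b977f_mp.EB
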