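import Pool.Agent.P.MP_6b977f_mp.EB.IfB

namespace Pool.Agent.P.MP_6b977f_mp.EB

open Real MeasureTheory Filter Topology Laplacian Set Metric
open scoped ContDiff BoundedContinuousFunction ComplexConjugate Pointwise ENNReal

theorem place_low {d r μ c₀ : ℝ} {J M : ℕ} (hM : M ≤ J) (hμ : 1 ≤ μ) (hc : 0 < c₀)
    (hc' : c₀⁻¹ ≤ μ) (hr : (μ ^ (8 * J + 2))⁻¹ ≤ r)
    (h : c₀ * (μ ^ 2 * r) ^ J ≤ d * (μ ^ 2 * r) ^ M) :
    (μ ^ ((8 * J + 2) * J + 1))⁻¹ ≤ d * r ^ M := by
  have h0 : 0 < μ := by linarith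
  have hr0 : 0 < r := lt_of_lt_of_le (by positivity) hr
  have h1 : (μ ^ 2) ^ M ≤ (μ ^ 2) ^ J := pow_le_pow_right₀ (one_le_pow₀ hμ) hM
  have h2 : c₀ * r ^ J ≤ d * r ^ M := by
    refine le_of_mul_le_mul_left ?_ (by positivity : 0 < (μ ^ 2) ^ M)
    rw [mul_pow, mul_pow] at h
    have := mul_le_mul_of_nonneg_right h1 (by positivity : 0 ≤ c₀ * r ^ J)
    nlinarith
  have h3 : ((μ ^ (8 * J + 2))⁻¹) ^ J ≤ r ^ J := pow_le_pow_left₀ (by positivity) hr J
  have h4 : μ⁻¹ ≤ c₀ := inv_le_of_inv_le₀ hc hc'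
  refine le_trans ?_ h2
  rw [pow_succ, pow_mul, mul_inv, ← inv_pow, mul_comm]
  exact mul_le_mul h4 h3 (by positivity) hc.le

theorem place_jet {a d r μ : ℝ} {j M : ℕ} (hj : j < M) (hμ : 1 ≤ μ) (hr : 0 < r) (hd : 0 ≤ d)
    (h : a * (r / μ ^ 2) ^ j ≤ d * (r / μ ^ 2) ^ M) : a * r ^ j ≤ d * r ^ M / μ ^ 2 := by
  have h0 : 0 < μ := by linarith
  have h1 : (μ ^ 2) ^ (j + 1) ≤ (μ ^ 2) ^ M := pow_le_pow_right₀ (one_le_pow₀ hμ) hj
  rw [div_pow, div_pow, ← mul_div_assoc, ← mul_div_assoc] at h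
  have h2 : d * r ^ M / (μ ^ 2) ^ M ≤ d * r ^ M / (μ ^ 2) ^ (j + 1) :=
    div_le_div_of_nonneg_left (by positivity) (by positivity) h1
  have h3 := h.trans h2
  rw [pow_succ' (μ ^ 2), ← div_div] at h3
  exact (div_le_div_iff_of_pos_right (by positivity)).1 h3

theorem t_place (hkill : S_KILL) : S_PLACE := by
  intro q J N0 N3 W B₀ c₀ c hW hc
  by_cases hc4 : c ≤ 1 / 4
  swap
  · exact ⟨1, 0, one_pos, fun μ _ R P ρ Z r M b _ _ _ _ hG => absurd hG.c_le hc4⟩
  obtain ⟨C, μ₀, hC, hk⟩ := hkill J (2 * N0 + 16 * J + 6) ((8 * J + 2) * J + 1) N3 (c ^ 2 / 2)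
    (by positivity) (by nlinarith)
  refine ⟨C, max (max μ₀ 3) (max (max B₀ c₀⁻¹) (c ^ 2)⁻¹), hC, ?_⟩
  intro μ hμ R P ρ Z r M b hP _ hB hD hG hR hZ hdir
  simp only [max_le_iff] at hμ
  obtain ⟨⟨m0, m3⟩, ⟨mB, mc⟩, mc2⟩ := hμ
  have h1 : 1 ≤ μ := by linarith
  have h0 : 0 < μ := by linarith
  have hS : 0 < P.S := by have := hP.three; omega
  have hV1 : (P.V 1).im = (P.V 0).im := by
    have := hP.step 0 hS
    rw [zero_add, hB.1] at this
    rw [this]; simp
  have hrp : ∀ p ∈ Z, 0 < r p := fun p hp => lt_of_lt_of_le (by positivity) (hZ.lev p hp).1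
  refine hk μ m0 _ _ Z P.nn r _ M ?_ ?_ ?_ ?_ ?_ ?_
  · intro j z _
    obtain ⟨A, hA, hA'⟩ := hW.lad j (z - P.V 0) trivial
    refine ⟨A, ?_, hA'⟩
    have := hA.comp z ((hasFDerivAt_id z).sub_const (P.V 0))
    rw [ContinuousLinearMap.comp_id] at this
    exact this
  · intro j z
    exact hW.real j _
  · intro j z
    have e : mir (-(P.V 0).im) z - P.V 0 = mir 0 (z - P.V 0) := by
      apply Complex.ext <;> simp [mir]
      ring
    show W j _ = _
    rw [e]
    exact hW.odd j _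
  · have hR0 : 0 ≤ R := by
      have := hG.g7 0 hS (P.V 0) ⟨0, ⟨le_rfl, (hP.len 0 hS).le⟩, by simp⟩
      linarith [this.1, this.2]
    refine hZ.card.trans ?_
    have e : μ ^ (2 * N0 + 16 * J + 6) = (μ * (μ ^ N0 * μ ^ (8 * J + 2))) ^ 2 := by ring
    rw [e]
    refine pow_le_pow_left₀ (by positivity) ?_ 2
    have a1 : 1 ≤ μ ^ N0 * μ ^ (8 * J + 2) := by rw [← pow_add]; exact one_le_pow₀ h1
    have a2 := mul_le_mul_of_nonneg_right hR (by positivity : 0 ≤ μ ^ (8 * J + 2))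
    nlinarith
  · intro p hp
    obtain ⟨s, s1, s2, hs⟩ := hZ.sub p hp
    obtain ⟨l1, l2⟩ := hZ.lev p hp
    obtain ⟨⟨M1, M2⟩, hb, d1, d2⟩ := hZ.dom p hp
    have r0 := hrp p hp
    have r1 : r p ≤ μ⁻¹ := l2.trans (inv_anti₀ h0 (le_self_pow₀ h1 (by norm_num)))
    have r2 : r p ≤ 1 := r1.trans (inv_le_one_of_one_le₀ h1)
    have p0 : p ≠ 0 := by
      rintro rfl
      have := (hG.g7 s s2 _ hs).1
      simp only [norm_zero] at this
      linarith
    have n1 : ‖P.nn p‖ = 1 := by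
      unfold Poly.nn
      split_ifs
      · simp
      · simp
      · simp [p0]
    have b1 := place_low M2 h1 hW.c_pos mc l1 d2
    have alt : p.im = (P.V 0).im ∧ (P.nn p).im = 0 ∨ c ^ 2 * μ * r p ≤ p.im - (P.V 0).im := by
      by_cases e0 : p = P.V 0
      · left; simp [Poly.nn, e0]
      by_cases e1 : p = P.V 1
      · left
        refine ⟨by rw [e1, hV1], ?_⟩
        unfold Poly.nn
        rw [if_neg e0, if_pos e1]; simp
      · exact Or.inr (hZ.high p hp e0 e1)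
    refine ⟨n1, le_trans (inv_anti₀ (by positivity) (pow_le_pow_right₀ h1 (by nlinarith))) l1, r1,
      b1, ?_, M2, ?_, ?_, fun j hj => ?_⟩
    · have := hW.bdd (M p) (p - P.V (b p))
      have := mul_le_mul (this.trans mB) (pow_le_one₀ r0.le r2 (n := M p)) (by positivity) h0.le
      simpa using this
    · simp only [neg_neg, Complex.add_im, Complex.mul_im, Complex.ofReal_re, Complex.ofReal_im,
        zero_mul, add_zero]
      rcases alt with h | h
      · rw [h.1, h.2]; simp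
      · have a1 : 1 ≤ c ^ 2 * μ := by
          rw [mul_comm]; exact (inv_le_iff_one_le_mul₀ (by positivity)).1 mc2
        have a2 := (abs_le.1 ((Complex.abs_im_le_norm (P.nn p)).trans n1.le)).1
        nlinarith
    · rcases alt with h | h
      · left; simpa using h
      · right; linarith
    · set B := ‖W (M p) (p - P.V (b p))‖ * r p ^ M p with hBdef
      have B0 : 0 ≤ B := by positivity
      have a1 : ‖W j (p - P.V (b p))‖ * r p ^ j ≤ B / μ ^ 2 := by
        rcases Nat.eq_zero_or_pos j with rfl | j0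
        · obtain ⟨τ, τ', -, e⟩ := hZ.line p hp s s1 s2 p hs (by simpa using mul_pos h0 r0)
          obtain ⟨m, hm⟩ := hD s s2
          have e2 : p - P.V (b p) = τ' * ex (π * m / q) := by rw [← hm, sub_eq_iff_eq_add', ← e]
          have a2 := hW.line m τ' 0
          have a3 := congrArg Complex.im (hW.real 0 (τ' * ex (π * m / q)))
          simp only [pow_zero, one_mul, Nat.cast_zero, neg_zero, zpow_zero, Complex.conj_im] at a2 a3
          have a4 : W 0 (τ' * ex (π * m / q)) = 0 := Complex.ext a2 (by simp; linarith)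
          rw [e2, Nat.cast_zero, a4]
          simp only [norm_zero, zero_mul]
          positivity
        · refine place_jet hj h1 r0 (norm_nonneg _) (d1 j ⟨j0, by omega⟩ _ ⟨le_rfl, ?_⟩)
          have := one_le_pow₀ (n := 2) h1
          exact (div_le_self r0.le this).trans (le_mul_of_one_le_left r0.le this)
      have a2 : ‖W j (p - P.V 0) - W j (p - P.V (b p))‖ ≤ B / μ ^ 2 := by
        refine (hdir _ hb j p).trans ?_
        rw [show (8 * J + 2) * J + 3 = (8 * J + 2) * J + 1 + 2 by ring, pow_add μ _ 2, mul_inv,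
          div_eq_mul_inv]
        exact mul_le_mul_of_nonneg_right b1 (by positivity)
      have a3 := norm_le_norm_add_norm_sub' (W j (p - P.V 0)) (W j (p - P.V (b p)))
      have a4 : r p ^ j ≤ 1 := pow_le_one₀ r0.le r2
      have a5 : 0 ≤ r p ^ j := by positivity
      have a6 : 2 * (B / μ ^ 2) ≤ B / μ := by
        rw [← mul_div_assoc, div_le_div_iff₀ (by positivity) h0]
        nlinarith [mul_nonneg B0 h0.le]
      have a7 := mul_le_mul a2 a4 a5 (by positivity)
      show ‖W j (p - P.V 0)‖ * r p ^ j ≤ B / μ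
      nlinarith [mul_le_mul_of_nonneg_right a3 a5]
  · intro p hp p' hp' hne
    refine le_trans ?_ (hZ.sep p hp p' hp' hne)
    have a1 := mul_pos h0 (hrp p hp)
    have a2 : c ^ 2 / 2 ≤ 1 := by nlinarith
    nlinarith

end Pool.Agent.P.MP_6b977f_mp.EB
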