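import Pool.Agent.P.MP_6b977f_mp.EB.IfB

/-! Star-shaped polygons in polar coordinates. -/

namespace Pool.Agent.P.MP_6b977f_mp.EB

open Real MeasureTheory Filter Topology Laplacian Set Metric
open scoped ContDiff BoundedContinuousFunction ComplexConjugate Pointwise ENNReal

theorem pol0_a (e : ℂ) (t : ℝ) : (conj e * ex t).re = e.re * cos t + e.im * sin t := by
  simp [ex, Complex.exp_ofReal_mul_I_re, Complex.exp_ofReal_mul_I_im]

theorem pol0_b (e : ℂ) (t : ℝ) : cross (ex t) e = cos t * e.im - sin t * e.re := by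
  simp [ex, cross, Complex.exp_ofReal_mul_I_re, Complex.exp_ofReal_mul_I_im]

theorem pol0_da (e : ℂ) (t : ℝ) :
    HasDerivAt (fun t => (conj e * ex t).re) (cross (ex t) e) t := by
  simp only [pol0_a, pol0_b]
  exact (((hasDerivAt_cos t).const_mul _).add ((hasDerivAt_sin t).const_mul _)).congr_deriv
    (by ring)

theorem pol0_db (e : ℂ) (t : ℝ) :
    HasDerivAt (fun t => cross (ex t) e) (-(conj e * ex t).re) t := by
  simp only [pol0_a, pol0_b]
  exact (((hasDerivAt_cos t).mul_const _).sub ((hasDerivAt_sin t).mul_const _)).congr_deriv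
    (by ring)

theorem pol0_smul (a : ℝ) (z e : ℂ) : cross (a * z) e = a * cross z e := by
  simp [cross]; ring

theorem pol0_dec {z e : ℂ} (he : ‖e‖ = 1) (h : cross z e = 0) :
    z = ((conj e * z).re : ℝ) * e := by
  have h1 : e.re ^ 2 + e.im ^ 2 = 1 := by
    rw [← one_pow 2, ← he, Complex.sq_norm, Complex.normSq_apply]; ring
  unfold cross at h
  apply Complex.ext <;> simp
  · linear_combination (-z.re) * h1 + e.im * h
  · linear_combination (-z.im) * h1 - e.re * h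

theorem pol0_cov (φ : ℕ → ℝ) (t : ℝ) (h : φ 0 ≤ t) (n : ℕ) (hn : t < φ n) :
    ∃ s < n, φ s ≤ t ∧ t < φ (s + 1) := by
  induction n with
  | zero => exact absurd h hn.not_ge
  | succ n ih =>
    rcases lt_or_ge t (φ n) with h' | h'
    · obtain ⟨s, h1, h2⟩ := ih h'
      exact ⟨s, by omega, h2⟩
    · exact ⟨n, by omega, h', hn⟩

theorem pol0_one {P : Poly} {c : ℝ} (h : P.Ok c) (s : ℕ) (hs : s < P.S) :
    0 < cross (P.V s) (P.e s) ∧ P.rad s (P.φ s) = ‖P.V s‖ ∧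
    P.rad s (P.φ (s + 1)) = ‖P.V (s + 1)‖ ∧
    (∀ t ∈ P.sec s, 0 < P.rad s t ∧ (P.rad s t : ℂ) * ex t ∈ P.side s ∧
      HasDerivAt (fun t => Real.log (P.rad s t)) (P.slope s t) t) ∧
    ∀ x ∈ P.side s, ∃ t ∈ P.sec s, x = P.rad s t * ex t := by
  have b0 : ∀ t ∈ P.sec s, 0 < cross (ex t) (P.e s) := fun t ht => h.c_pos.trans_le (h.tr s hs t ht)
  have m0 := (h.mono s hs).le
  have l0 := b0 _ (left_mem_Icc.2 m0)
  have r0 := b0 _ (right_mem_Icc.2 m0)
  have a1 : cross (P.V s) (P.e s) = ‖P.V s‖ * cross (ex (P.φ s)) (P.e s) := by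
    rw [← pol0_smul, ← (h.pol s hs.le).2]
  have a2 : cross (P.V s) (P.e s) = ‖P.V (s + 1)‖ * cross (ex (P.φ (s + 1))) (P.e s) := by
    rw [← pol0_smul, ← (h.pol _ hs).2, h.step s hs]
    simp [cross]
    ring
  have D0 : 0 < cross (P.V s) (P.e s) := a1 ▸ mul_pos (norm_pos_iff.2 (h.pol s hs.le).1) l0
  have a3 : P.rad s (P.φ s) = ‖P.V s‖ := by rw [Poly.rad, a1, mul_div_cancel_right₀ _ l0.ne']
  have a4 : P.rad s (P.φ (s + 1)) = ‖P.V (s + 1)‖ := by
    rw [Poly.rad, a2, mul_div_cancel_right₀ _ r0.ne']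
  let τ : ℝ → ℝ := fun t => (conj (P.e s) * (P.rad s t * ex t - P.V s)).re
  have a5 : ∀ t ∈ P.sec s, (P.rad s t : ℂ) * ex t = P.V s + τ t * P.e s := fun t ht =>
    sub_eq_iff_eq_add'.1 (pol0_dec (h.unit s hs) (by
      have := pol0_smul (P.rad s t) (ex t) (P.e s)
      rw [Poly.rad, div_mul_cancel₀ _ (b0 t ht).ne'] at this
      simp only [cross, Complex.sub_re, Complex.sub_im, Poly.rad] at this ⊢
      linarith))
  have a6 : τ = fun t => cross (P.V s) (P.e s) * ((conj (P.e s) * ex t).re / cross (ex t) (P.e s)) -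
      (conj (P.e s) * P.V s).re := by
    ext t
    simp only [τ, mul_sub, Complex.sub_re, mul_left_comm (conj (P.e s)), Complex.re_ofReal_mul,
      Poly.rad]
    ring
  have a7 : ∀ t ∈ P.sec s, ∃ d, 0 ≤ d ∧ HasDerivAt τ d t := fun t ht =>
    ⟨_, by rw [mul_neg, sub_neg_eq_add]; exact mul_nonneg D0.le (div_nonneg (add_nonneg
      (mul_self_nonneg _) (mul_self_nonneg _)) (sq_nonneg _)), a6 ▸ ((((pol0_da _ t).div
      (pol0_db _ t) (b0 t ht).ne').const_mul (cross (P.V s) (P.e s))).sub_const _)⟩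
  have a8 : ContinuousOn τ (P.sec s) := fun t ht =>
    (a7 t ht).choose_spec.2.continuousAt.continuousWithinAt
  have a9 : MonotoneOn τ (P.sec s) := monotoneOn_of_deriv_nonneg (convex_Icc _ _) a8
    (fun t ht => (a7 t (interior_subset ht)).choose_spec.2.differentiableAt.differentiableWithinAt)
    fun t ht => by
      obtain ⟨d, d0, d1⟩ := a7 t (interior_subset ht)
      rwa [d1.deriv]
  have t0 : τ (P.φ s) = 0 := by
    simp only [τ, a3]
    rw [← (h.pol s hs.le).2, sub_self, mul_zero, Complex.zero_re]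
  have t1 : τ (P.φ (s + 1)) = P.L s := by
    simp only [τ, a4]
    rw [← (h.pol _ hs).2, h.step s hs, add_sub_cancel_left, mul_left_comm, Complex.conj_mul',
      h.unit s hs]
    simp
  refine ⟨D0, a3, a4, fun t ht => ⟨div_pos D0 (b0 t ht), ⟨τ t, ⟨t0 ▸ a9 (left_mem_Icc.2 m0) ht ht.1,
    t1 ▸ a9 ht (right_mem_Icc.2 m0) ht.2⟩, a5 t ht⟩, ?_⟩, ?_⟩
  · have := (b0 t ht).ne'
    refine (((hasDerivAt_const t _).div (pol0_db _ t) this).log
      (div_pos D0 (b0 t ht)).ne').congr_deriv ?_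
    simp only [Poly.slope, Pi.div_apply]
    field_simp
    ring
  · rintro _ ⟨u, hu, rfl⟩
    obtain ⟨t, ht, rfl⟩ := intermediate_value_Icc m0 a8 (t0 ▸ t1 ▸ hu)
    exact ⟨t, ht, (a5 t ht).symm⟩

theorem t_pol0 (hglue : S_GLUE) (hlipz : S_LIPZ) (htab : S_TAB) : S_POL0 := by
  intro P c h
  have p := pol0_one h
  have h3 := h.three
  obtain ⟨g1, g2, -⟩ := hglue P c h
  refine ⟨p, g2 (fun s t => Real.log (P.rad s t)) (fun s hs t ht =>
    ((p s hs).2.2.2.1 t ht).2.2.continuousAt.continuousWithinAt)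
    (fun s hs => by rw [(p s (by omega)).2.2.1, (p _ hs).2.1]) ?_, fun ρ hρ => ⟨?_, ?_, ?_⟩,
    fun k hk => ⟨⟨h.c_pos, h3, h.mono, h.per, congrArg (_ * ·) h.close, h.unit,
      fun s hs => mul_pos hk (h.len s hs), fun s hs => ?_, fun s hs => ⟨mul_ne_zero
        (Complex.ofReal_ne_zero.2 hk.ne') (h.pol s hs).1, ?_⟩, h.tr⟩, fun ρ hρ =>
      ⟨⟨hρ.1.1.add continuous_const, fun t => congrArg (· + _) (hρ.1.2 t)⟩, fun s hs t ht => ?_⟩⟩⟩
  · have := (p (P.S - 1) (by omega)).2.2.1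
    rw [Nat.sub_add_cancel (by omega)] at this
    rw [this, h.close, (p 0 (by omega)).2.1]
  · have b : ∀ s < P.S, ∀ t ∈ P.sec s, bd ρ t = P.rad s t * ex t := fun s hs t ht => by
      rw [bd, hρ.2 s hs t ht, Real.exp_log ((p s hs).2.2.2.1 t ht).1]
    rw [(htab ρ hρ.1).2.2.2.2.1]
    refine Subset.antisymm ?_ (iUnion₂_subset fun s hs x hx => ?_)
    · rintro _ ⟨t, rfl⟩
      obtain ⟨s, hs, m, ht⟩ := g1 t
      have : bd ρ (t + m * (2 * π)) = bd ρ t := by
        rw [bd, bd, hρ.1.2.int_mul m t, ex, ex]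
        push_cast
        rw [add_mul, mul_assoc, Complex.exp_periodic.int_mul m]
      exact mem_biUnion hs (this ▸ b s hs _ ht ▸ ((p s hs).2.2.2.1 _ ht).2.1)
    · obtain ⟨t, ht, rfl⟩ := (p s hs).2.2.2.2 x hx
      exact ⟨t, b s hs t ht⟩
  · refine hlipz.2.2 ρ (P.φ 0) _ hρ.1.2 (hlipz.1 ρ _ _ _ (P.φ '' Iio P.S)
      ((finite_Iio _).image _) hρ.1.1.continuousOn fun t ht hZ => ?_)
    obtain ⟨s, hs, t1, t2⟩ := pol0_cov P.φ t ht.1.le P.S (h.per ▸ ht.2)
    have ht' : t ∈ P.sec s := ⟨t1, t2.le⟩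
    refine ⟨_, ((p s hs).2.2.2.1 t ht').2.2.congr_of_eventuallyEq (mem_of_superset
      (Icc_mem_nhds (t1.lt_of_ne fun e => hZ ⟨s, hs, e⟩) t2) (hρ.2 s hs)), ?_⟩
    have b := h.tr s hs t ht'
    rw [Poly.slope, abs_div, abs_of_pos (h.c_pos.trans_le b), inv_eq_one_div]
    refine div_le_div₀ zero_le_one ((Complex.abs_re_le_norm _).trans_eq ?_) h.c_pos b
    rw [norm_mul, Complex.norm_conj, h.unit s hs, one_mul]
    exact Complex.norm_exp_ofReal_mul_I t
  · intro s hs t ht a ha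
    rw [(htab ρ hρ.1).2.2.2.2.2.2.1 a t ha, hρ.2 s hs t ht, Real.exp_log ((p s hs).2.2.2.1 t ht).1,
      pol0_smul, Poly.rad, lt_div_iff₀ (h.c_pos.trans_le (h.tr s hs t ht))]
  · simp only [Poly.sc, h.step s hs]
    push_cast
    ring
  · simp only [Poly.sc, norm_mul, Complex.norm_real, Real.norm_of_nonneg hk.le, Complex.ofReal_mul,
      mul_assoc]
    rw [← (h.pol s hs).2]
  · show ρ t + _ = _
    rw [hρ.2 s hs t ht, ← Real.log_mul ((p s hs).2.2.2.1 t ht).1.ne' hk.ne']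
    simp only [Poly.rad, Poly.sc, pol0_smul]
    ring_nf

end Pool.Agent.P.MP_6b977f_mp.EB
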