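import Pool.Agent.P.MP_6b977f_mp.EB.IfB

/-! The nodal line along a side, as a graph over the rays. -/

namespace Pool.Agent.P.MP_6b977f_mp.EB

open Real MeasureTheory Filter Topology Laplacian Set Metric
open scoped ContDiff BoundedContinuousFunction ComplexConjugate Pointwise ENNReal

noncomputable section

theorem rfs_re (t : ℝ) : (ex t).re = cos t := Complex.exp_ofReal_mul_I_re t

theorem rfs_im (t : ℝ) : (ex t).im = sin t := Complex.exp_ofReal_mul_I_im t

theorem rfs_norm (t : ℝ) : ‖ex t‖ = 1 := Complex.norm_exp_ofReal_mul_I t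

theorem rfs_cont : Continuous ex := by unfold ex; fun_prop

theorem rfs_mul (s : ℝ) (v e : ℂ) : cross (s * v) e = s * cross v e := by
  simp [cross]; ring

theorem rfs_sub (a b e : ℂ) : cross (a - b) e = cross a e - cross b e := by
  simp [cross]; ring

theorem rfs_le (a b : ℂ) : |cross a b| ≤ ‖a‖ * ‖b‖ := by
  have h : cross a b = (conj a * b).im := by simp [cross]; ring
  rw [h]
  simpa using Complex.abs_im_le_norm (conj a * b)

theorem rfs_sin (t t' : ℝ) : |cross (ex t) (ex t')| ≤ |t - t'| := by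
  have h : cross (ex t) (ex t') = sin (t' - t) := by
    rw [cross, rfs_re, rfs_re, rfs_im, rfs_im, sin_sub]; ring
  rw [h, abs_sub_comm]
  exact abs_sin_le_abs

/-- The content of a window. -/
theorem rfs_win (hlad : S_LAD) {O : Set ℂ} {u : ℤ → ℂ → ℂ} {e x : ℂ} {d η₂ η₃ c₁ : ℝ}
    (he : ‖e‖ = 1) (hL : Lad O u) (hR : RealL u) (hO : ball x d ⊆ O) (h3 : η₂ ≤ η₃)
    (h0 : 0 ≤ η₃) (hW : Win u e x d η₂ c₁) :
    ∃ f : ℂ → ℝ, ContinuousOn f (ball x d) ∧ (∀ y, f y = 0 ↔ (u 0 y).re = 0) ∧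
      (∀ y ∈ ball x d, ∀ y' ∈ ball x d, |f y - f y' - cross (y - y') e| ≤ η₃ * ‖y - y'‖) ∧
      |f x| < c₁ * d / 2 := by
  obtain ⟨β, hβ, h1, h2⟩ := hW
  have hb : 0 < |β| := abs_pos.2 hβ
  have h4 : ∀ z, ∃ A : ℂ →L[ℝ] ℝ, z ∈ ball x d →
      HasFDerivAt (fun y => (u 0 y).re) A z ∧ ∀ e, A e = (e * u 1 z).re := by
    intro z
    by_cases hz : z ∈ ball x d
    · obtain ⟨A, hA⟩ := (hlad.2.1 O u hL hR z (hO hz)).2
      exact ⟨A, fun _ => hA⟩
    · exact ⟨0, fun h => absurd h hz⟩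
  choose A hA using h4
  let L : ℂ →L[ℝ] ℝ := e.im • Complex.reCLM - e.re • Complex.imCLM
  have hLa : ∀ h, L h = cross h e := by
    intro h; simp [L, cross]; ring
  have hee : conj e * e = 1 := by
    rw [Complex.conj_mul', he]; simp
  refine ⟨fun y => β⁻¹ * (u 0 y).re, fun z hz => ?_, fun y => by simp [hβ], ?_, ?_⟩
  · exact ((hA z hz).1.continuousAt.const_mul _).continuousWithinAt
  · intro y hy y' hy'
    have h5 := (convex_ball x d).norm_image_sub_le_of_norm_hasFDerivWithin_le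
      (f := fun y => β⁻¹ * (u 0 y).re - L y) (f' := fun z => β⁻¹ • A z - L) (C := η₃)
      (fun z hz => (((hA z hz).1.const_mul β⁻¹).sub L.hasFDerivAt).hasFDerivWithinAt)
      (fun z hz => by
        refine ContinuousLinearMap.opNorm_le_bound _ h0 fun h => ?_
        have e1 : (h * conj e * (e * u 1 z - Complex.I * β)).re =
            (h * u 1 z).re - β * cross h e := by
          have : h * conj e * (e * u 1 z - Complex.I * β) =
              h * u 1 z * (conj e * e) - h * conj e * Complex.I * β := by ring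
          rw [this, hee]; simp [cross]; ring
        have e2 : (β⁻¹ • A z - L) h = β⁻¹ * (h * conj e * (e * u 1 z - Complex.I * β)).re := by
          rw [e1, sub_apply, smul_apply, (hA z hz).2,
            hLa, smul_eq_mul]
          field_simp
        have e3 := Complex.abs_re_le_norm (h * conj e * (e * u 1 z - Complex.I * β))
        rw [norm_mul, norm_mul, Complex.norm_conj, he, mul_one] at e3
        have e4 : ‖h‖ * ‖e * u 1 z - Complex.I * β‖ ≤ ‖h‖ * (η₃ * |β|) :=
          mul_le_mul_of_nonneg_left ((h1 z hz).trans (by gcongr)) (norm_nonneg _)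
        rw [e2, Real.norm_eq_abs, abs_mul, abs_inv, inv_mul_le_iff₀ hb]
        linarith) hy' hy
    rw [Real.norm_eq_abs, hLa, hLa] at h5
    rw [rfs_sub]
    refine le_trans (le_of_eq ?_) h5
    congr 1; ring
  · have h5 := Complex.abs_re_le_norm (u 0 x)
    rw [abs_mul, abs_inv, inv_mul_lt_iff₀ hb]
    linarith

/-- Existence of a zero on a transversal segment. -/
theorem rfs_ex {f : ℂ → ℝ} {B : Set ℂ} {e y v : ℂ} {η c δ : ℝ} (hc : ContinuousOn f B)
    (hK : ∀ y ∈ B, ∀ y' ∈ B, |f y - f y' - cross (y - y') e| ≤ η * ‖y - y'‖) (hv : ‖v‖ = 1)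
    (hcv : c ≤ cross v e) (hδ : 0 ≤ δ) (hB : ∀ s : ℝ, |s| ≤ δ → y + s * v ∈ B)
    (hy : |f y| ≤ (c - η) * δ) : ∃ s : ℝ, |s| ≤ δ ∧ f (y + s * v) = 0 := by
  have hy0 : y ∈ B := by simpa using hB 0 (by simpa using hδ)
  have h1 : ∀ s : ℝ, |s| ≤ δ → |f (y + s * v) - f y - s * cross v e| ≤ η * |s| := by
    intro s hs
    have := hK _ (hB s hs) _ hy0
    rwa [add_sub_cancel_left, rfs_mul, norm_mul, hv, mul_one, Complex.norm_real,
      Real.norm_eq_abs] at this
  have h2 := h1 δ (by rw [abs_of_nonneg hδ])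
  have h3 := h1 (-δ) (by rw [abs_neg, abs_of_nonneg hδ])
  rw [abs_neg] at h3
  rw [abs_of_nonneg hδ] at h2 h3
  have h4 : δ * c ≤ δ * cross v e := mul_le_mul_of_nonneg_left hcv hδ
  have h5 : ContinuousOn (fun s : ℝ => f (y + s * v)) (Icc (-δ) δ) :=
    hc.comp (by fun_prop) fun s hs => hB s (abs_le.2 hs)
  obtain ⟨s, hs, h6⟩ := intermediate_value_Icc (by linarith) h5 (show (0 : ℝ) ∈ _ from
    ⟨by have := abs_le.1 h3; have := abs_le.1 hy; nlinarith,
      by have := abs_le.1 h2; have := abs_le.1 hy; nlinarith⟩)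
  exact ⟨s, abs_le.2 hs, h6⟩

/-- The Lipschitz bound in polar coordinates. -/
theorem rfs_alg {e : ℂ} {c₁ η R R' t t' : ℝ} (he : ‖e‖ = 1) (hc : 0 < c₁) (hη : 0 < η)
    (hη1 : η ≤ 1) (hR : 0 < R) (hR' : 0 < R') (h1 : c₁ ≤ cross (ex t) e)
    (h2 : c₁ ≤ cross (ex t') e)
    (h : |cross (R * ex t - R' * ex t') e| ≤ η * c₁ ^ 2 / 8 * ‖R * ex t - R' * ex t'‖) :
    Real.log (R * cross (ex t) e) - Real.log (R' * cross (ex t') e) ≤ η * |t - t'| := by
  have hc1 : c₁ ≤ 1 := by
    have := rfs_le (ex t) e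
    rw [rfs_norm, he, mul_one] at this
    exact h1.trans (le_trans (le_abs_self _) this)
  have e0 : cross (R * ex t - R' * ex t') e = R * cross (ex t) e - R' * cross (ex t') e := by
    rw [rfs_sub, rfs_mul, rfs_mul]
  have e1 : |cross (R * ex t - R' * ex t') (ex t)| ≤ R' * |t - t'| := by
    have : cross (R * ex t - R' * ex t') (ex t) = R' * cross (ex t) (ex t') := by
      simp [cross]; ring
    rw [this, abs_mul, abs_of_pos hR']
    exact mul_le_mul_of_nonneg_left (rfs_sin t t') hR'.le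
  rw [← sub_nonneg]
  generalize (R : ℂ) * ex t - R' * ex t' = z at h e0 e1
  have e2 : z * (cross (ex t) e : ℝ) = ex t * (cross z e : ℝ) - e * (cross z (ex t) : ℝ) := by
    apply Complex.ext <;> simp [cross] <;> ring
  have e3 : ‖z‖ * cross (ex t) e ≤ |cross z e| + |cross z (ex t)| := by
    have := norm_sub_le (ex t * (cross z e : ℝ)) (e * (cross z (ex t) : ℝ))
    rw [← e2, norm_mul, norm_mul, norm_mul, rfs_norm, he, one_mul, one_mul, Complex.norm_real,
      Complex.norm_real, Complex.norm_real, Real.norm_eq_abs, Real.norm_eq_abs, Real.norm_eq_abs,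
      abs_of_pos (hc.trans_le h1)] at this
    exact this
  have hz := norm_nonneg z
  have e4 : η * c₁ ^ 2 / 8 ≤ c₁ / 8 := by
    have : η * c₁ ≤ 1 := mul_le_one₀ hη1 hc.le hc1
    nlinarith
  have e5 : ‖z‖ * c₁ ≤ 2 * (R' * |t - t'|) := by
    have := mul_le_mul_of_nonneg_left h1 hz
    have := mul_le_mul_of_nonneg_right e4 hz
    have := mul_nonneg hz hc.le
    nlinarith
  have hA : 0 < R * cross (ex t) e := mul_pos hR (hc.trans_le h1)
  have hA' : 0 < R' * cross (ex t') e := mul_pos hR' (hc.trans_le h2)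
  have e6 := Real.log_le_sub_one_of_pos (div_pos hA hA')
  rw [Real.log_div hA.ne' hA'.ne', div_sub_one hA'.ne', ← e0] at e6
  have e7 : cross z e / (R' * cross (ex t') e) ≤ η * |t - t'| := by
    rw [div_le_iff₀ hA']
    have ht := abs_nonneg (t - t')
    have a1 : η * c₁ ^ 2 / 8 * ‖z‖ ≤ η * c₁ / 8 * (2 * (R' * |t - t'|)) := by
      have := mul_le_mul_of_nonneg_left e5 (show 0 ≤ η * c₁ / 8 by positivity)
      nlinarith
    have a2 : η * |t - t'| * (R' * c₁) ≤ η * |t - t'| * (R' * cross (ex t') e) := by gcongr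
    have a3 : 0 ≤ η * |t - t'| * (R' * c₁) := by positivity
    have a4 := le_abs_self (cross z e)
    nlinarith
  linarith

theorem rfs_log {s r r₀ : ℝ} (h0 : 0 < r₀) (h1 : r₀ ≤ r) (h2 : |s| ≤ r₀ / 2) :
    |Real.log ((r + s) / r)| ≤ 2 * |s| / r₀ := by
  have hr : 0 < r := h0.trans_le h1
  have h3 := abs_le.1 h2
  have h4 : 0 < r + s := by linarith
  have h5 := abs_nonneg s
  have h6 := le_abs_self s
  have h7 := neg_abs_le s
  rw [abs_le]
  constructor
  · have := Real.log_le_sub_one_of_pos (div_pos hr h4)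
    rw [Real.log_div hr.ne' h4.ne', div_sub_one h4.ne'] at this
    rw [Real.log_div h4.ne' hr.ne']
    have a : (r - (r + s)) / (r + s) ≤ 2 * |s| / r₀ := by
      rw [div_le_div_iff₀ h4 h0]; nlinarith
    linarith
  · have := Real.log_le_sub_one_of_pos (div_pos h4 hr)
    rw [div_sub_one hr.ne'] at this
    refine this.trans ?_
    rw [div_le_div_iff₀ hr h0]; nlinarith

theorem rfs_inj {e : ℂ} {a b c₁ : ℝ} (hc : 0 < c₁) (h : ∀ t ∈ Icc a b, c₁ ≤ cross (ex t) e) :
    InjOn ex (Icc a b) := by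
  have key : ∀ t ∈ Icc a b, ∀ t' ∈ Icc a b, t' < t + π := by
    intro t ht t' ht'
    by_contra h1
    have h2 := h (t + π) ⟨by linarith [ht.1, pi_pos], by linarith [ht'.2]⟩
    have h3 := h t ht
    simp only [cross, rfs_re, rfs_im, cos_add_pi, sin_add_pi] at h2 h3
    linarith
  intro t ht t' ht' h1
  obtain ⟨n, hn⟩ := Complex.exp_eq_exp_iff_exists_int.1 h1
  have h2 : t = t' + n * (2 * π) := by
    have := congrArg Complex.im hn
    simpa using this
  have h3 := key t ht t' ht'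
  have h4 := key t' ht' t ht
  have h5 : (n : ℝ) < 1 := by nlinarith [pi_pos]
  have h6 : (-1 : ℝ) < n := by nlinarith [pi_pos]
  have h7 : n = 0 := by
    have a : n < 1 := by exact_mod_cast h5
    have b : -1 < n := by exact_mod_cast h6
    omega
  simpa [h7] using h2

theorem t_rfs (hlad : S_LAD) (hlipz : S_LIPZ) : S_RFS := by
  intro V e a b c₁ r₀ η η₂ D O u Z x d he hab hc hr hη hη1 hη₂ hD _ hL hR hx hI _ _ hZ hW
  have hc1 : c₁ ≤ 1 := by
    have := rfs_le (ex a) e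
    rw [rfs_norm, he, mul_one] at this
    exact (hI a ⟨le_rfl, hab.le⟩).1.trans (le_trans (le_abs_self _) this)
  have e4 : η * c₁ ^ 2 / 8 ≤ c₁ / 8 := by
    have : η * c₁ ≤ 1 := mul_le_one₀ hη1 hc.le hc1
    nlinarith
  have hwin := fun t (ht : t ∈ Icc a b) (hz : x t ∉ Z) =>
    rfs_win hlad he hL hR (hW t ht hz).2.2.1 hη₂ (by positivity) (hW t ht hz).2.2.2.1
  have hns : ∀ (t s : ℝ) (y : ℂ), ‖y + s * ex t - y‖ = |s| := by
    intro t s y
    rw [add_sub_cancel_left, norm_mul, rfs_norm, mul_one, Complex.norm_real, Real.norm_eq_abs]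
  -- a zero on the ray `t` inside the window of `t₀`
  have hroot : ∀ t₀ ∈ Icc a b, x t₀ ∉ Z → ∀ f : ℂ → ℝ, ContinuousOn f (ball (x t₀) (d t₀)) →
      (∀ y ∈ ball (x t₀) (d t₀), ∀ y' ∈ ball (x t₀) (d t₀),
        |f y - f y' - cross (y - y') e| ≤ η * c₁ ^ 2 / 8 * ‖y - y'‖) →
      ∀ t ∈ Icc a b, ‖x t - x t₀‖ < d t₀ / 10 → |f (x t)| < c₁ * d t₀ / 2 →
      (∀ s : ℝ, |s| ≤ 4 * d t₀ / 7 → x t + s * ex t ∈ ball (x t₀) (d t₀)) ∧
      ∃ s : ℝ, |s| ≤ 4 * d t₀ / 7 ∧ f (x t + s * ex t) = 0 := by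
    intro t₀ ht₀ hz f f1 f3 t ht h1 h2
    have hd := (hW t₀ ht₀ hz).1
    have hB : ∀ s : ℝ, |s| ≤ 4 * d t₀ / 7 → x t + s * ex t ∈ ball (x t₀) (d t₀) := by
      intro s hs
      have := dist_triangle (x t + s * ex t) (x t) (x t₀)
      rw [dist_eq_norm (x t + _) (x t), hns, dist_eq_norm (x t)] at this
      rw [mem_ball]; linarith
    refine ⟨hB, rfs_ex f1 f3 (rfs_norm t) (hI t ht).1 (by positivity) hB ?_⟩
    nlinarith
  have hs : ∀ t, ∃ s : ℝ, t ∈ Icc a b → (x t ∈ Z → s = 0) ∧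
      (x t ∉ Z → |s| ≤ 4 * d t / 7 ∧ (u 0 (x t + s * ex t)).re = 0) := by
    intro t
    by_cases h : t ∈ Icc a b ∧ x t ∉ Z
    · obtain ⟨f, f1, f2, f3, f4⟩ := hwin t h.1 h.2
      have hd := (hW t h.1 h.2).1
      obtain ⟨s, h1, h2⟩ := (hroot t h.1 h.2 f f1 f3 t h.1 (by simpa using hd) f4).2
      exact ⟨s, fun _ => ⟨fun h3 => absurd h3 h.2, fun _ => ⟨h1, (f2 _).1 h2⟩⟩⟩
    · exact ⟨0, fun ht => ⟨fun _ => rfl, fun h3 => absurd ⟨ht, h3⟩ h⟩⟩
  choose s hs using hs
  obtain ⟨rad, hrad⟩ : ∃ rad : ℝ → ℝ, ∀ t, rad t = cross V e / cross (ex t) e := ⟨_, fun _ => rfl⟩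
  have hr0 : ∀ t ∈ Icc a b, r₀ ≤ rad t := fun t ht => by rw [hrad]; exact (hI t ht).2
  have hx' : ∀ t, x t = rad t * ex t := fun t => by rw [hrad, hx]
  have hs1 : ∀ t ∈ Icc a b, |s t| ≤ η * r₀ / 2 := by
    intro t ht
    by_cases hz : x t ∈ Z
    · rw [(hs t ht).1 hz, abs_zero]; positivity
    · have h1 := ((hs t ht).2 hz).1
      have h2 := (hW t ht hz).2.1
      have h3 : 0 < η * r₀ := by positivity
      linarith
  have hs2 : ∀ t ∈ Icc a b, |s t| ≤ r₀ / 2 := fun t ht => (hs1 t ht).trans (by nlinarith)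
  have hpos : ∀ t ∈ Icc a b, 0 < rad t + s t := by
    intro t ht
    have := abs_le.1 (hs2 t ht)
    have := hr0 t ht
    linarith
  have hy : ∀ t, x t + s t * ex t = ((rad t + s t : ℝ) : ℂ) * ex t := by
    intro t; rw [hx']; push_cast; ring
  have hκ : 0 < cross V e := by
    have h1 := hI a ⟨le_rfl, hab.le⟩
    have h2 := hc.trans_le h1.1
    have h3 := mul_pos (hr.trans_le h1.2) h2
    rwa [div_mul_cancel₀ _ h2.ne'] at h3
  have hw : ∀ t ∈ Icc a b, Real.log ((rad t + s t) / rad t) =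
      Real.log ((rad t + s t) * cross (ex t) e) - Real.log (cross V e) := by
    intro t ht
    have h2 := hc.trans_le (hI t ht).1
    rw [← Real.log_div (mul_pos (hpos t ht) h2).ne' hκ.ne']
    congr 1
    generalize rad t + s t = R
    rw [hrad]; field_simp
  have hexp : ∀ t ∈ Icc a b,
      (Real.exp (Real.log ((rad t + s t) / rad t)) : ℂ) * x t = x t + s t * ex t := by
    intro t ht
    have h1 := hr.trans_le (hr0 t ht)
    rw [Real.exp_log (div_pos (hpos t ht) h1), hy, hx', ← mul_assoc, ← Complex.ofReal_mul,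
      div_mul_cancel₀ _ h1.ne']
  have hxc : ContinuousOn x (Icc a b) := by
    have h1 : Continuous fun t => cross (ex t) e := by
      unfold cross; have := rfs_cont; fun_prop
    have h2 : ContinuousOn (fun t => cross V e / cross (ex t) e) (Icc a b) :=
      continuousOn_const.div h1.continuousOn fun t ht => (hc.trans_le (hI t ht).1).ne'
    rw [show x = fun t => ((cross V e / cross (ex t) e : ℝ) : ℂ) * ex t from funext hx]
    exact (Complex.continuous_ofReal.comp_continuousOn h2).mul rfs_cont.continuousOn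
  have hloc : ∀ t₀ ∈ Icc a b, x t₀ ∉ Z → ∀ᶠ t in 𝓝[Icc a b] t₀,
      |Real.log ((rad t + s t) / rad t) - Real.log ((rad t₀ + s t₀) / rad t₀)| ≤
        η * |t - t₀| := by
    intro t₀ ht₀ hz
    obtain ⟨f, f1, f2, f3, f4⟩ := hwin t₀ ht₀ hz
    have hd := (hW t₀ ht₀ hz).1
    have c1 := hxc t₀ ht₀
    have c2 : ∀ᶠ t in 𝓝[Icc a b] t₀, ‖x t - x t₀‖ < d t₀ / 10 := by
      have := c1.eventually (ball_mem_nhds (x t₀) (show 0 < d t₀ / 10 by positivity))
      simpa only [mem_ball, dist_eq_norm] using this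
    have c3 : ∀ᶠ t in 𝓝[Icc a b] t₀, |f (x t)| < c₁ * d t₀ / 2 :=
      ((f1.continuousAt (ball_mem_nhds _ hd)).abs.tendsto.comp c1).eventually_lt_const f4
    have c4 : ∀ᶠ t in 𝓝[Icc a b] t₀, x t ∉ Z :=
      c1.eventually (Z.finite_toSet.isClosed.isOpen_compl.mem_nhds hz)
    filter_upwards [c2, c3, c4, self_mem_nhdsWithin] with t h2 h3 h4 ht
    obtain ⟨hB, s', h5, h6⟩ := hroot t₀ ht₀ hz f f1 f3 t ht h2 h3
    obtain ⟨h7, h8⟩ := (hs t ht).2 h4
    have h9 : |s t| ≤ 4 * d t₀ / 7 := by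
      by_cases hdd : d t ≤ d t₀
      · linarith
      · obtain ⟨g, -, g2, g3, -⟩ := hwin t ht h4
        have a1 := g3 (x t + s t * ex t) (by rw [mem_ball, dist_eq_norm, hns]; linarith)
          (x t + s' * ex t) (by rw [mem_ball, dist_eq_norm, hns]; linarith)
        have a2 : x t + s t * ex t - (x t + s' * ex t) = ((s t - s' : ℝ) : ℂ) * ex t := by
          push_cast; ring
        rw [(g2 _).2 h8, (g2 _).2 ((f2 _).1 h6), a2, rfs_mul, norm_mul, rfs_norm, mul_one,
          Complex.norm_real, Real.norm_eq_abs, sub_self, zero_sub, abs_neg, abs_mul,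
          abs_of_pos (hc.trans_le (hI t ht).1)] at a1
        have a3 := abs_nonneg (s t - s')
        have a4 := mul_le_mul_of_nonneg_left (hI t ht).1 a3
        have a5 := mul_le_mul_of_nonneg_right e4 a3
        have a6 : |s t - s'| ≤ 0 := by nlinarith
        rw [sub_eq_zero.1 (abs_nonpos_iff.1 a6)]
        exact h5
    obtain ⟨h10, h11⟩ := (hs t₀ ht₀).2 hz
    have m0 : x t₀ + s t₀ * ex t₀ ∈ ball (x t₀) (d t₀) := by
      rw [mem_ball, dist_eq_norm, hns]; linarith
    have b1 := f3 _ (hB _ h9) _ m0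
    have b2 := f3 _ m0 _ (hB _ h9)
    rw [(f2 _).2 h8, (f2 _).2 h11, sub_self, zero_sub, abs_neg, hy, hy] at b1 b2
    have b3 := rfs_alg he hc hη hη1 (hpos t ht) (hpos t₀ ht₀) (hI t ht).1 (hI t₀ ht₀).1 b1
    have b4 := rfs_alg he hc hη hη1 (hpos t₀ ht₀) (hpos t ht) (hI t₀ ht₀).1 (hI t ht).1 b2
    rw [abs_sub_comm] at b4
    rw [hw t ht, hw t₀ ht₀, abs_le]
    constructor <;> linarith
  have hlog := fun t ht => rfs_log hr (hr0 t ht) (hs2 t ht)
  have hw0 : ∀ t ∈ Icc a b, x t ∈ Z → Real.log ((rad t + s t) / rad t) = 0 := by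
    intro t ht hz
    rw [(hs t ht).1 hz]
    simp
  refine ⟨fun t => Real.log ((rad t + s t) / rad t), fun t ht => ⟨?_, ?_, hw0 t ht, ?_⟩, ?_⟩
  · refine (hlog t ht).trans ?_
    rw [div_le_iff₀ hr]
    linarith [hs1 t ht]
  · rw [hexp t ht]
    by_cases hz : x t ∈ Z
    · rw [(hs t ht).1 hz]
      simpa using hZ _ hz
    · obtain ⟨h1, h2⟩ := (hs t ht).2 hz
      have hd := (hW t ht hz).1
      refine Complex.ext h2 (hlad.2.1 O u hL hR _ ((hW t ht hz).2.2.1 ?_)).1
      rw [mem_ball, dist_eq_norm, hns]; linarith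
  · intro hz
    rw [hexp t ht, hns]
    linarith [((hs t ht).2 hz).1, (hW t ht hz).1]
  · refine hlipz.2.1 _ a b η {t | t ∈ Icc a b ∧ x t ∈ Z} ?_ ?_ ?_
    · refine Finite.of_finite_image (f := x) (Z.finite_toSet.subset ?_) ?_
      · rintro _ ⟨t, ht, rfl⟩
        exact ht.2
      · intro t ht t' ht' h
        have h1 := congrArg norm h
        have p1 := hr.trans_le (hr0 t ht.1)
        have p2 := hr.trans_le (hr0 t' ht'.1)
        rw [hx', hx', norm_mul, norm_mul, rfs_norm, rfs_norm, mul_one, mul_one, Complex.norm_real,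
          Complex.norm_real, Real.norm_of_nonneg p1.le, Real.norm_of_nonneg p2.le] at h1
        rw [hx', hx', h1] at h
        exact rfs_inj hc (fun t ht => (hI t ht).1) ht.1 ht'.1
          (mul_left_cancel₀ (Complex.ofReal_ne_zero.2 p2.ne') h)
    · intro t₀ ht₀
      rw [ContinuousWithinAt, tendsto_iff_norm_sub_tendsto_zero]
      by_cases hz : x t₀ ∈ Z
      · have c1 : Tendsto (fun t => 2 * ‖x t - x t₀‖ / r₀) (𝓝[Icc a b] t₀) (𝓝 (2 * 0 / r₀)) :=
          ((tendsto_iff_norm_sub_tendsto_zero.1 (hxc t₀ ht₀)).const_mul 2).div_const r₀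
        rw [mul_zero, zero_div] at c1
        refine squeeze_zero' (Eventually.of_forall fun _ => norm_nonneg _) ?_ c1
        filter_upwards [self_mem_nhdsWithin] with t ht
        rw [hw0 t₀ ht₀ hz, sub_zero, Real.norm_eq_abs]
        refine (hlog t ht).trans ?_
        gcongr
        by_cases hz' : x t ∈ Z
        · rw [(hs t ht).1 hz', abs_zero]; exact norm_nonneg _
        · linarith [((hs t ht).2 hz').1, (hW t ht hz').1, (hW t ht hz').2.2.2.2 _ hz]
      · have c1 : Tendsto (fun t => η * |t - t₀|) (𝓝[Icc a b] t₀) (𝓝 (η * |t₀ - t₀|)) :=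
          (Continuous.tendsto (by fun_prop) t₀).mono_left nhdsWithin_le_nhds
        rw [sub_self, abs_zero, mul_zero] at c1
        exact squeeze_zero' (Eventually.of_forall fun _ => norm_nonneg _) (hloc t₀ ht₀ hz) c1
    · intro t ht hz ε hε
      have ht' := Ioo_subset_Icc_self ht
      have h1 := hloc t ht' fun h => hz ⟨ht', h⟩
      rw [nhdsWithin_eq_nhds.2 (Icc_mem_nhds ht.1 ht.2)] at h1
      filter_upwards [h1] with t' h2
      exact h2.trans (by gcongr; linarith)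

end

end Pool.Agent.P.MP_6b977f_mp.EB
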