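import Pool.Agent.P.MP_6b977f_mp.EB.IfB

/-! The Riemann-Lebesgue lemma for averages over a set. -/

namespace Pool.Agent.P.MP_6b977f_mp.EB

open Real MeasureTheory Filter Topology Laplacian Set Metric
open scoped ContDiff BoundedContinuousFunction ComplexConjugate Pointwise ENNReal FourierTransform

noncomputable section

theorem t_rl : S_RL := by
  intro Ω ν hΩ hν
  have h1 := tendsto_integral_exp_inner_smul_cocompact (V := ℂ)
    ((toMeasurable volume Ω).indicator fun _ => (1 : ℂ))
  have h2 : Tendsto (fun k : ℝ => (-(k / (2 * π))) • ν) atTop (cocompact ℂ) := by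
    rw [← Metric.cobounded_eq_cocompact, ← tendsto_norm_atTop_iff_cobounded]
    have h3 : Tendsto (fun k : ℝ => k / (2 * π) * ‖ν‖) atTop atTop :=
      (tendsto_id.atTop_div_const (by positivity)).atTop_mul_const (norm_pos_iff.2 hν)
    refine tendsto_atTop_mono (fun k => ?_) h3
    rw [norm_smul, norm_neg, Real.norm_eq_abs]
    exact mul_le_mul_of_nonneg_right (le_abs_self _) (norm_nonneg _)
  have h4 := (h1.comp h2).const_smul (volume.real Ω)⁻¹
  rw [smul_zero] at h4
  refine h4.congr fun k => ?_
  rw [setAverage_eq, ← Measure.restrict_toMeasurable hΩ.ne,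
    ← integral_indicator (measurableSet_toMeasurable _ _)]
  congr 1
  refine integral_congr_ae (Eventually.of_forall fun z => ?_)
  by_cases hz : z ∈ toMeasurable volume Ω
  · simp only [indicator_of_mem hz, Circle.smul_def, smul_eq_mul, mul_one, Real.fourierChar_apply]
    congr 1
    rw [mul_comm]
    congr 1
    rw [Complex.ofReal_inj, real_inner_smul_right, Complex.inner]
    have : (conj ν * z).re = (ν * conj z).re := by simp
    rw [this]
    field_simp
  · simp [indicator_of_notMem hz]

end

end Pool.Agent.P.MP_6b977f_mp.EB
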