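import Pool.Agent.P.MP_6b977f_mp.EB.INS0

/-! The central limit theorem for plane waves with independent phases. -/

namespace Pool.Agent.P.MP_6b977f_mp.EB

open Real MeasureTheory Filter Topology Laplacian Set Metric
open scoped ContDiff BoundedContinuousFunction ComplexConjugate Pointwise ENNReal

noncomputable section

def rs_X (τ : ℂ →₀ ℝ) (ξ : ℂ) (t : ℝ) : ℝ := τ.sum fun x s => s * cos (t + (conj ξ * x).re)

def rs_Q (τ : ℂ →₀ ℝ) (ξ : ℂ) : ℝ :=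
  τ.sum fun x s => τ.sum fun y t => s * t * cos (conj ξ * (x - y)).re

def rs_T (τ : ℂ →₀ ℝ) : ℝ := ∑ x ∈ τ.support, |τ x|

theorem rs_T0 (τ : ℂ →₀ ℝ) : 0 ≤ rs_T τ := Finset.sum_nonneg fun _ _ => abs_nonneg _

theorem rs_ab (τ : ℂ →₀ ℝ) (ξ : ℂ) : ∃ α β : ℝ, (∀ t, rs_X τ ξ t = α * cos t - β * sin t) ∧
    rs_Q τ ξ = α ^ 2 + β ^ 2 := by
  refine ⟨∑ x ∈ τ.support, τ x * cos (conj ξ * x).re, ∑ x ∈ τ.support, τ x * sin (conj ξ * x).re,
    fun t => ?_, ?_⟩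
  · rw [rs_X, Finsupp.sum, Finset.sum_mul, Finset.sum_mul, ← Finset.sum_sub_distrib]
    refine Finset.sum_congr rfl fun x _ => ?_
    rw [cos_add]; ring
  · rw [rs_Q, sq, sq, Finset.sum_mul_sum, Finset.sum_mul_sum, ← Finset.sum_add_distrib,
      Finsupp.sum]
    refine Finset.sum_congr rfl fun x _ => ?_
    rw [Finsupp.sum, ← Finset.sum_add_distrib]
    refine Finset.sum_congr rfl fun y _ => ?_
    rw [mul_sub, Complex.sub_re, cos_sub]; ring

theorem rs_Xle (τ : ℂ →₀ ℝ) (ξ : ℂ) (t : ℝ) : |rs_X τ ξ t| ≤ rs_T τ := by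
  refine (Finset.abs_sum_le_sum_abs _ _).trans (Finset.sum_le_sum fun x _ => ?_)
  rw [abs_mul]
  exact mul_le_of_le_one_right (abs_nonneg _) (abs_cos_le_one _)

theorem rs_Q0 (τ : ℂ →₀ ℝ) (ξ : ℂ) : 0 ≤ rs_Q τ ξ := by
  obtain ⟨α, β, -, h⟩ := rs_ab τ ξ
  rw [h]; positivity

theorem rs_Qle (τ : ℂ →₀ ℝ) (ξ : ℂ) : rs_Q τ ξ ≤ rs_T τ ^ 2 := by
  rw [rs_Q, rs_T, sq, Finset.sum_mul_sum, Finsupp.sum]
  refine Finset.sum_le_sum fun x _ => Finset.sum_le_sum fun y _ => ?_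
  refine (le_abs_self _).trans ?_
  rw [abs_mul, abs_mul]
  exact mul_le_of_le_one_right (by positivity) (abs_cos_le_one _)

theorem rs_int1 (α β : ℝ) : ∫ t in (0 : ℝ)..(2 * π), (α * cos t - β * sin t) = 0 := by
  rw [intervalIntegral.integral_eq_sub_of_hasDerivAt (f := fun t => α * sin t + β * cos t)
    (fun t _ => ?_) (Continuous.intervalIntegrable (by fun_prop) _ _)]
  · simp
  · refine (((hasDerivAt_sin t).const_mul α).add ((hasDerivAt_cos t).const_mul β)).congr_deriv ?_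
    ring

theorem rs_int2 (α β : ℝ) :
    ∫ t in (0 : ℝ)..(2 * π), (α * cos t - β * sin t) ^ 2 = π * (α ^ 2 + β ^ 2) := by
  rw [intervalIntegral.integral_eq_sub_of_hasDerivAt (f := fun t => (α ^ 2 + β ^ 2) / 2 * t +
    (α ^ 2 - β ^ 2) / 2 * (sin t * cos t) - α * β * (sin t * sin t))
    (fun t _ => ?_) (Continuous.intervalIntegrable (by fun_prop) _ _)]
  · simp; ring
  · refine ((((hasDerivAt_id' t).const_mul _).add
      (((hasDerivAt_sin t).mul (hasDerivAt_cos t)).const_mul _)).sub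
      (((hasDerivAt_sin t).mul (hasDerivAt_sin t)).const_mul _)).congr_deriv ?_
    linear_combination (-(α ^ 2 + β ^ 2) / 2) * sin_sq_add_cos_sq t

theorem rs_exp3 {y : ℝ} (hy : |y| ≤ 1) :
    ‖Complex.exp (Complex.I * y) - (1 + Complex.I * y - ((y ^ 2 / 2 : ℝ) : ℂ))‖ ≤ |y| ^ 3 := by
  have hn : ‖Complex.I * y‖ = |y| := by simp
  have h := Complex.exp_bound (x := Complex.I * y) (by rw [hn]; exact hy) (n := 3) (by norm_num)
  have e : ∑ m ∈ Finset.range 3, (Complex.I * y) ^ m / (m.factorial : ℂ) =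
      1 + Complex.I * y - ((y ^ 2 / 2 : ℝ) : ℂ) := by
    simp [Finset.sum_range_succ, mul_pow]; ring
  rw [e, hn] at h
  refine h.trans (mul_le_of_le_one_right (by positivity) ?_)
  norm_num [Nat.factorial]

theorem rs_jw_le (τ : ℂ →₀ ℝ) (a : ℝ) (ξ : ℂ) : ‖jw τ a ξ‖ ≤ 1 := by
  have h2 : (0 : ℝ) < 2 * π := by positivity
  rw [jw, norm_mul, norm_inv, Complex.norm_real, Real.norm_eq_abs, abs_of_pos h2,
    inv_mul_le_iff₀ h2]
  refine (intervalIntegral.norm_integral_le_of_norm_le_const (C := 1) fun t _ => ?_).trans ?_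
  · rw [Complex.norm_exp_I_mul_ofReal]
  · rw [sub_zero, abs_of_pos h2]; linarith

theorem rs_jw (τ : ℂ →₀ ℝ) (a : ℝ) (ξ : ℂ) (ha : |a| * rs_T τ ≤ 1) :
    ‖jw τ a ξ - (Real.exp (-(a ^ 2 * rs_Q τ ξ / 4)) : ℝ)‖ ≤ 2 * (|a| * rs_T τ) ^ 3 := by
  have h2 : (0 : ℝ) < 2 * π := by positivity
  obtain ⟨α, β, hX, hQ⟩ := rs_ab τ ξ
  have hb : ∀ t, |a * rs_X τ ξ t| ≤ |a| * rs_T τ := fun t => by
    rw [abs_mul]; exact mul_le_mul_of_nonneg_left (rs_Xle τ ξ t) (abs_nonneg _)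
  have hc : Continuous (rs_X τ ξ) := by rw [funext hX]; fun_prop
  have i1 : ∫ t in (0 : ℝ)..(2 * π), (1 + Complex.I * (a * rs_X τ ξ t : ℝ) -
      (((a * rs_X τ ξ t) ^ 2 / 2 : ℝ) : ℂ)) = (2 * π : ℝ) * ((1 - a ^ 2 * rs_Q τ ξ / 4 : ℝ) : ℂ) := by
    rw [intervalIntegral.integral_sub (Continuous.intervalIntegrable (by fun_prop) _ _)
      (Continuous.intervalIntegrable (by fun_prop) _ _),
      intervalIntegral.integral_add (Continuous.intervalIntegrable (by fun_prop) _ _)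
      (Continuous.intervalIntegrable (by fun_prop) _ _), intervalIntegral.integral_const_mul,
      intervalIntegral.integral_ofReal, intervalIntegral.integral_ofReal,
      intervalIntegral.integral_const_mul, intervalIntegral.integral_div]
    simp only [mul_pow, intervalIntegral.integral_const_mul, hX, rs_int1, rs_int2, hQ]
    simp
    ring
  have e : jw τ a ξ - ((1 - a ^ 2 * rs_Q τ ξ / 4 : ℝ) : ℂ) = ((2 * π : ℝ) : ℂ)⁻¹ *
      ∫ t in (0 : ℝ)..(2 * π), (Complex.exp (Complex.I * (a * rs_X τ ξ t : ℝ)) -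
        (1 + Complex.I * (a * rs_X τ ξ t : ℝ) - (((a * rs_X τ ξ t) ^ 2 / 2 : ℝ) : ℂ))) := by
    rw [intervalIntegral.integral_sub (Continuous.intervalIntegrable (by fun_prop) _ _)
      (Continuous.intervalIntegrable (by fun_prop) _ _), i1, mul_sub, ← mul_assoc,
      inv_mul_cancel₀ (by exact_mod_cast h2.ne'), one_mul]
    rfl
  have b1 : ‖jw τ a ξ - ((1 - a ^ 2 * rs_Q τ ξ / 4 : ℝ) : ℂ)‖ ≤ (|a| * rs_T τ) ^ 3 := by
    rw [e, norm_mul, norm_inv, Complex.norm_real, Real.norm_eq_abs, abs_of_pos h2,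
      inv_mul_le_iff₀ h2]
    refine (intervalIntegral.norm_integral_le_of_norm_le_const (C := (|a| * rs_T τ) ^ 3)
      fun t _ => ?_).trans ?_
    · exact (rs_exp3 ((hb t).trans ha)).trans (pow_le_pow_left₀ (abs_nonneg _) (hb t) 3)
    · rw [sub_zero, abs_of_pos h2, mul_comm]
  set u := |a| * rs_T τ with hu
  have hu0 : 0 ≤ u := mul_nonneg (abs_nonneg _) (rs_T0 τ)
  set y := a ^ 2 * rs_Q τ ξ / 4 with hy
  have hy0 : 0 ≤ y := by have := rs_Q0 τ ξ; positivity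
  have hy1 : y ≤ u ^ 2 := by
    have h1 := mul_le_mul_of_nonneg_left (rs_Qle τ ξ) (sq_nonneg a)
    rw [hu, mul_pow, sq_abs]
    linarith
  have hu2 : u ^ 2 ≤ 1 := pow_le_one₀ hu0 ha
  have b2 := Real.abs_exp_sub_one_sub_id_le (x := -y) (by rw [abs_neg, abs_of_nonneg hy0]; linarith)
  have b3 : ‖((1 - y : ℝ) : ℂ) - (Real.exp (-y) : ℝ)‖ ≤ u ^ 3 := by
    rw [← Complex.ofReal_sub, Complex.norm_real, Real.norm_eq_abs, abs_sub_comm,
      show Real.exp (-y) - (1 - y) = Real.exp (-y) - 1 - -y by ring]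
    refine b2.trans ?_
    have h1 : y ^ 2 ≤ (u ^ 2) ^ 2 := pow_le_pow_left₀ hy0 hy1 2
    have h3 : u ^ 4 ≤ u ^ 3 := pow_le_pow_of_le_one hu0 ha (by norm_num)
    nlinarith
  have := norm_sub_le_norm_sub_add_norm_sub (jw τ a ξ) ((1 - y : ℝ) : ℂ) (Real.exp (-y) : ℝ)
  linarith

theorem rs_mul {a b c d : ℂ} (hb : ‖b‖ ≤ 1) (hc : ‖c‖ ≤ 1) :
    ‖a * b - c * d‖ ≤ ‖a - c‖ + ‖b - d‖ := by
  rw [show a * b - c * d = (a - c) * b + c * (b - d) by ring]
  refine (norm_add_le _ _).trans ?_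
  rw [norm_mul, norm_mul]
  exact add_le_add (mul_le_of_le_one_right (norm_nonneg _) hb)
    (mul_le_of_le_one_left (norm_nonneg _) hc)

theorem rs_prod (s : Finset ℕ) (a b : ℕ → ℂ) (ha : ∀ i, ‖a i‖ ≤ 1) (hb : ∀ i, ‖b i‖ ≤ 1) :
    ‖∏ i ∈ s, a i - ∏ i ∈ s, b i‖ ≤ ∑ i ∈ s, ‖a i - b i‖ := by
  induction s using Finset.induction_on with
  | empty => simp
  | insert i s hi ih =>
    rw [Finset.prod_insert hi, Finset.prod_insert hi, Finset.sum_insert hi]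
    refine (rs_mul ?_ (hb i)).trans (by linarith)
    rw [norm_prod]
    exact Finset.prod_le_one (fun _ _ => norm_nonneg _) fun j _ => ha j

theorem rs_riem {F : ℝ → ℝ} (hF : Continuous F) (hp : Function.Periodic F (2 * π)) {w : ℝ}
    (hw : 0 < w) : ∃ q₀ : ℕ, ∀ q : ℕ, q₀ ≤ q → ∀ ϑ : ℝ,
      |(∑ m ∈ Finset.range q, F (2 * π * m / q + ϑ)) / q -
        (2 * π)⁻¹ * ∫ t in (0 : ℝ)..(2 * π), F t| ≤ w := by
  obtain ⟨γ₀, hγ₀, huc⟩ := ins0_uc hF hp hw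
  obtain ⟨q₀, hq₀⟩ := exists_nat_gt (2 * π / γ₀)
  refine ⟨q₀, fun q hq ϑ => ?_⟩
  have h2 : (0 : ℝ) < 2 * π := by positivity
  have hq1 : 2 * π / γ₀ < q := hq₀.trans_le (by exact_mod_cast hq)
  have hqp : (0 : ℝ) < q := lt_trans (by positivity) hq1
  have hγ : 2 * π / q ≤ γ₀ := by
    rw [div_le_iff₀ hqp]
    rw [div_lt_iff₀ hγ₀] at hq1
    linarith
  have hγ0 : 0 < 2 * π / q := by positivity
  let a : ℕ → ℝ := fun m => 2 * π * m / q + ϑ
  have ha : ∀ m, a (m + 1) = a m + 2 * π / q := fun m => by simp only [a]; push_cast; ring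
  have e1 : ∫ t in (0 : ℝ)..(2 * π), F t = ∑ m ∈ Finset.range q, ∫ t in a m..a (m + 1), F t := by
    rw [intervalIntegral.sum_integral_adjacent_intervals fun k _ => hF.intervalIntegrable _ _]
    have := hp.intervalIntegral_add_eq 0 ϑ
    rw [zero_add] at this
    rw [this]
    congr 1
    · simp [a]
    · simp only [a]; field_simp; ring
  have e2 : (∑ m ∈ Finset.range q, F (a m)) / q - (2 * π)⁻¹ * ∫ t in (0 : ℝ)..(2 * π), F t =
      (2 * π)⁻¹ * ∑ m ∈ Finset.range q, ∫ t in a m..a (m + 1), (F (a m) - F t) := by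
    rw [e1, Finset.sum_div, Finset.mul_sum, Finset.mul_sum, ← Finset.sum_sub_distrib]
    refine Finset.sum_congr rfl fun m _ => ?_
    rw [intervalIntegral.integral_sub (continuous_const.intervalIntegrable _ _)
      (hF.intervalIntegrable _ _), intervalIntegral.integral_const, ha, add_sub_cancel_left,
      smul_eq_mul]
    field_simp
  change |(∑ m ∈ Finset.range q, F (a m)) / q - _| ≤ w
  rw [e2, abs_mul, abs_of_pos (inv_pos.2 h2), inv_mul_le_iff₀ h2]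
  refine (Finset.abs_sum_le_sum_abs _ _).trans ?_
  refine (Finset.sum_le_card_nsmul _ _ (w * (2 * π / q)) fun m _ => ?_).trans ?_
  · have := intervalIntegral.norm_integral_le_of_norm_le_const (a := a m) (b := a (m + 1))
      (f := fun t => F (a m) - F t) (C := w) fun t ht => by
        rw [ha, uIoc_of_le (by linarith)] at ht
        exact huc _ _ (abs_le.2 ⟨by linarith [ht.2], by linarith [ht.1]⟩)
    rwa [ha m, add_sub_cancel_left, abs_of_pos hγ0, ← ha m] at this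
  · rw [Finset.card_range, nsmul_eq_mul]
    apply le_of_eq
    field_simp

theorem rs_re (θ : ℝ) (v : ℂ) : (conj (ex θ) * v).re = v.re * cos θ + v.im * sin θ := by
  simp [ex, Complex.mul_re, Complex.exp_ofReal_mul_I_re, Complex.exp_ofReal_mul_I_im]; ring

theorem rs_cont (τ : ℂ →₀ ℝ) : Continuous fun θ => rs_Q τ (ex θ) := by
  simp only [rs_Q, rs_re, Finsupp.sum]
  fun_prop

theorem rs_per (τ : ℂ →₀ ℝ) : Function.Periodic (fun θ => rs_Q τ (ex θ)) (2 * π) := fun θ => by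
  simp only [rs_Q, rs_re, cos_add_two_pi, sin_add_two_pi]

theorem rs_mean (τ : ℂ →₀ ℝ) : (2 * π)⁻¹ * ∫ t in (0 : ℝ)..(2 * π), rs_Q τ (ex t) =
    τ.sum fun x s => τ.sum fun y t => s * t * J0 (x - y) := by
  simp only [rs_Q, rs_re, Finsupp.sum]
  rw [intervalIntegral.integral_finsetSum fun x _ =>
    Continuous.intervalIntegrable (by fun_prop) _ _, Finset.mul_sum]
  refine Finset.sum_congr rfl fun x _ => ?_
  rw [intervalIntegral.integral_finsetSum fun x _ =>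
    Continuous.intervalIntegrable (by fun_prop) _ _, Finset.mul_sum]
  refine Finset.sum_congr rfl fun y _ => ?_
  rw [intervalIntegral.integral_const_mul, J0]
  ring

theorem t_rs : S_RS := by
  intro τ ε hε
  set M : ℝ := τ.sum fun x s => τ.sum fun y t => s * t * J0 (x - y) with hM
  set T := rs_T τ with hT
  have hT0 : 0 ≤ T := rs_T0 τ
  obtain ⟨δ, hδ, hexp⟩ := Metric.continuousAt_iff.1
    (Real.continuous_exp.continuousAt (x := -(1 / 2) * M)) (ε / 2) (by positivity)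
  obtain ⟨q₁, hq₁⟩ := rs_riem (rs_cont τ) (rs_per τ) hδ
  have t1 : Tendsto (fun q : ℕ => (√(q : ℝ))⁻¹) atTop (𝓝 0) :=
    tendsto_inv_atTop_zero.comp (Real.tendsto_sqrt_atTop.comp tendsto_natCast_atTop_atTop)
  have t2 : ∀ᶠ q : ℕ in atTop, (√(q : ℝ))⁻¹ * T < 1 :=
    (by simpa using t1.mul_const T : Tendsto _ _ (𝓝 (0 : ℝ))).eventually (Iio_mem_nhds one_pos)
  have t3 : ∀ᶠ q : ℕ in atTop, (√(q : ℝ))⁻¹ * (4 * T ^ 3) < ε / 2 :=
    (by simpa using t1.mul_const (4 * T ^ 3) : Tendsto _ _ (𝓝 (0 : ℝ))).eventually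
      (Iio_mem_nhds (by positivity))
  have t4 : ∀ᶠ q : ℕ in atTop, T ^ 2 / q < δ :=
    (tendsto_const_div_atTop_nhds_zero_nat (T ^ 2)).eventually (Iio_mem_nhds hδ)
  obtain ⟨q₀, hq₀⟩ := eventually_atTop.1
    (((t2.and t3).and (t4.and (eventually_ge_atTop q₁))).and (eventually_ge_atTop 1))
  refine ⟨q₀, fun q hq ϑ => ?_⟩
  obtain ⟨⟨⟨s2, s3⟩, s4, s5⟩, s6⟩ := hq₀ q hq
  have hqp : (0 : ℝ) < q := by exact_mod_cast s6
  set a : ℝ := (√(q : ℝ))⁻¹ with ha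
  have ha0 : 0 < a := inv_pos.2 (Real.sqrt_pos.2 hqp)
  have ha2 : a ^ 2 = (q : ℝ)⁻¹ := by rw [ha, inv_pow, Real.sq_sqrt hqp.le]
  let F : ℝ → ℝ := fun θ => rs_Q τ (ex θ)
  have hF0 : ∀ θ, 0 ≤ F θ := fun θ => rs_Q0 τ _
  have hE : ∀ θ, ‖((Real.exp (-(a ^ 2 * F θ / 4)) : ℝ) : ℂ)‖ ≤ 1 := fun θ => by
    rw [Complex.norm_real, Real.norm_eq_abs, Real.abs_exp, Real.exp_le_one_iff]
    have := hF0 θ
    have : 0 ≤ a ^ 2 * F θ / 4 := by positivity
    linarith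
  have hm1 : ∀ {u v : ℂ}, ‖u‖ ≤ 1 → ‖v‖ ≤ 1 → ‖u * v‖ ≤ 1 := fun hu hv => by
    rw [norm_mul]; exact mul_le_one₀ hu (norm_nonneg _) hv
  have p1 := rs_prod (Finset.Ico 1 q)
    (fun m => jw τ a (ex (2 * π * m / q + ϑ)) * jw τ (-a) (ex (2 * π * m / q - ϑ)))
    (fun m => ((Real.exp (-(a ^ 2 * F (2 * π * m / q + ϑ) / 4)) : ℝ) : ℂ) *
      ((Real.exp (-(a ^ 2 * F (2 * π * m / q - ϑ) / 4)) : ℝ) : ℂ))
    (fun m => hm1 (rs_jw_le _ _ _) (rs_jw_le _ _ _)) (fun m => hm1 (hE _) (hE _))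
  have p2 := p1.trans (Finset.sum_le_card_nsmul _ _ (4 * (a * T) ^ 3) fun m _ => by
    refine (rs_mul (rs_jw_le _ _ _) (hE _)).trans ?_
    have c1 := rs_jw τ a (ex (2 * π * m / q + ϑ)) (by rw [abs_of_pos ha0]; exact s2.le)
    have c2 := rs_jw τ (-a) (ex (2 * π * m / q - ϑ))
      (by rw [abs_neg, abs_of_pos ha0]; exact s2.le)
    rw [abs_neg, neg_sq] at c2
    rw [abs_of_pos ha0, ← hT] at c1 c2
    linarith)
  have p3 : (Finset.Ico 1 q).card • (4 * (a * T) ^ 3) ≤ a * (4 * T ^ 3) := by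
    rw [nsmul_eq_mul, Nat.card_Ico]
    have h1 : ((q - 1 : ℕ) : ℝ) ≤ q := by exact_mod_cast Nat.sub_le q 1
    refine (mul_le_mul_of_nonneg_right h1 (by positivity)).trans (le_of_eq ?_)
    rw [show (a * T) ^ 3 = a ^ 2 * (a * T ^ 3) by ring, ha2]
    field_simp
  set A : ℝ := ∑ m ∈ Finset.Ico 1 q, (-(a ^ 2 * F (2 * π * m / q + ϑ) / 4) +
    -(a ^ 2 * F (2 * π * m / q - ϑ) / 4)) with hA
  have p4 : (∏ m ∈ Finset.Ico 1 q, ((Real.exp (-(a ^ 2 * F (2 * π * m / q + ϑ) / 4)) : ℝ) : ℂ) *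
      ((Real.exp (-(a ^ 2 * F (2 * π * m / q - ϑ) / 4)) : ℝ) : ℂ)) = (Real.exp A : ℝ) := by
    rw [hA, Real.exp_sum, Complex.ofReal_prod]
    refine Finset.prod_congr rfl fun m _ => ?_
    rw [Real.exp_add, Complex.ofReal_mul]
  have r1 := hq₁ q s5 ϑ
  have r2 := hq₁ q s5 (-ϑ)
  rw [rs_mean, ← hM, Finset.range_eq_Ico, Finset.sum_eq_sum_Ico_succ_bot (by omega)] at r1 r2
  have p5 : A = -((∑ m ∈ Finset.Ico 1 q, F (2 * π * m / q + ϑ)) / q) / 4 -
      ((∑ m ∈ Finset.Ico 1 q, F (2 * π * m / q + -ϑ)) / q) / 4 := by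
    rw [hA, Finset.sum_div, Finset.sum_div, ← Finset.sum_neg_distrib, Finset.sum_div,
      Finset.sum_div, ← Finset.sum_sub_distrib]
    refine Finset.sum_congr rfl fun m _ => ?_
    rw [ha2, ← sub_eq_add_neg (2 * π * m / q) ϑ]
    field_simp
    ring
  have p6 : dist A (-(1 / 2) * M) < δ := by
    have g : ∀ θ, 0 ≤ F θ / q ∧ F θ / q < δ := fun θ =>
      ⟨div_nonneg (hF0 θ) hqp.le, (div_le_div_of_nonneg_right (rs_Qle τ _) hqp.le).trans_lt s4⟩
    rw [add_div, zero_add] at r1 r2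
    have g1 := g (2 * π * (0 : ℕ) / q + ϑ)
    have g2 := g (2 * π * (0 : ℕ) / q + -ϑ)
    rw [Real.dist_eq, p5, abs_lt]
    have r1' := abs_le.1 r1
    have r2' := abs_le.1 r2
    simp only [F] at g1 g2 ⊢
    constructor <;> linarith [r1'.1, r1'.2, r2'.1, r2'.2, g1.1, g1.2, g2.1, g2.2]
  have p7 : ‖((Real.exp A : ℝ) : ℂ) - gauss τ‖ < ε / 2 := by
    rw [gauss, ← hM, ← Complex.ofReal_sub, Complex.norm_real, ← dist_eq_norm]
    exact hexp p6
  rw [p4] at p2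
  have := norm_sub_le_norm_sub_add_norm_sub (∏ m ∈ Finset.Ico 1 q,
    jw τ a (ex (2 * π * m / q + ϑ)) * jw τ (-a) (ex (2 * π * m / q - ϑ))) (Real.exp A : ℝ) (gauss τ)
  linarith

end

end Pool.Agent.P.MP_6b977f_mp.EB
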