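import Pool.Agent.P.MP_6b977f_mp.EB.IfB

namespace Pool.Agent.P.MP_6b977f_mp.EB

open Real MeasureTheory Filter Topology Laplacian Set Metric
open scoped ContDiff BoundedContinuousFunction ComplexConjugate Pointwise ENNReal

theorem sel_vol (a : ℂ) {r : ℝ} (hr : 0 ≤ r) : volume.real (ball a r) = r ^ 2 * π := by
  simp [Measure.real, Complex.volume_ball, hr]

theorem sel_card {m R : ℝ} (hm : 0 < m) (hR : 0 ≤ R) (Z : Finset ℂ)
    (h1 : ↑Z ⊆ closedBall (0 : ℂ) R) (h2 : ∀ p ∈ Z, ∀ p' ∈ Z, p ≠ p' → m ≤ ‖p - p'‖) :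
    (Z.card : ℝ) ≤ (2 * R / m + 1) ^ 2 := by
  have hd : Set.PairwiseDisjoint (↑Z : Set ℂ) fun p => ball p (m / 2) := fun p hp p' hp' hne =>
    ball_disjoint_ball (by rw [dist_eq_norm]; linarith [h2 p hp p' hp' hne])
  have h3 := measureReal_biUnion_finset (μ := volume) hd (fun p _ => measurableSet_ball)
    fun p _ => measure_ball_lt_top.ne
  have h4 : (⋃ p ∈ Z, ball p (m / 2)) ⊆ ball (0 : ℂ) (R + m / 2) := by
    refine iUnion₂_subset fun p hp => ball_subset_ball' ?_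
    have := mem_closedBall.1 (h1 hp)
    linarith
  have h5 := measureReal_mono (μ := volume) h4 measure_ball_lt_top.ne
  rw [h3, sel_vol _ (by linarith)] at h5
  simp only [sel_vol _ (by linarith : 0 ≤ m / 2), Finset.sum_const, nsmul_eq_mul] at h5
  rw [← mul_assoc] at h5
  have h6 := le_of_mul_le_mul_right h5 pi_pos
  have e : (2 * R / m + 1) ^ 2 = (R + m / 2) ^ 2 / (m / 2) ^ 2 := by field_simp
  rw [e, le_div_iff₀ (by positivity)]
  exact h6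

theorem sel_ind {X : Set ℂ} {ρ : ℂ → ℝ} {m R : ℝ} (hm : 0 < m) (hR : 0 ≤ R)
    (hX : X ⊆ closedBall 0 R) (hρ : ∀ x ∈ X, m ≤ ρ x) (T : Finset ℝ) :
    ∀ V : Finset ℂ, ↑V ⊆ X → (∀ v ∈ V, ∀ v' ∈ V, v ≠ v' → ρ v ≤ ‖v - v'‖) →
      (∀ t ∈ T, ∀ v ∈ V, t ≤ ρ v) →
      ∃ Z : Finset ℂ, V ⊆ Z ∧ ↑Z ⊆ X ∧ (∀ p ∈ Z, ∀ p' ∈ Z, p ≠ p' → ρ p ≤ ‖p - p'‖) ∧
        ∀ x ∈ X, ρ x ∈ T → ∃ p ∈ Z, ‖x - p‖ < ρ p := by
  classical
  induction T using Finset.induction_on_max with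
  | empty => exact fun V h1 h2 _ => ⟨V, subset_rfl, h1, h2, by simp⟩
  | insert a T ha ih =>
    intro V h1 h2 h3
    let S : Set ℕ := {n | ∃ Z : Finset ℂ, (V ⊆ Z ∧ ↑Z ⊆ X ∧
      (∀ p ∈ Z, ∀ p' ∈ Z, p ≠ p' → ρ p ≤ ‖p - p'‖) ∧ ∀ p ∈ Z, a ≤ ρ p) ∧ Z.card = n}
    have hb : BddAbove S := by
      refine ⟨⌈(2 * R / m + 1) ^ 2⌉₊, ?_⟩
      rintro _ ⟨Z, ⟨-, a1, a2, -⟩, rfl⟩
      have := (sel_card hm hR Z (a1.trans hX) fun p hp p' hp' hne =>
        (hρ p (a1 hp)).trans (a2 p hp p' hp' hne)).trans (Nat.le_ceil _)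
      exact_mod_cast this
    obtain ⟨Z, ⟨a0, a1, a2, a3⟩, a4⟩ := Nat.sSup_mem (s := S)
      ⟨_, V, ⟨subset_rfl, h1, h2, h3 a (Finset.mem_insert_self _ _)⟩, rfl⟩ hb
    obtain ⟨Z', b0, b1, b2, b3⟩ := ih Z a1 a2 fun t ht v hv => (ha t ht).le.trans (a3 v hv)
    refine ⟨Z', a0.trans b0, b1, b2, fun x hx hT => ?_⟩
    rcases Finset.mem_insert.1 hT with e | hT
    swap
    · exact b3 x hx hT
    by_contra hc
    have hc' : ∀ p ∈ Z, ρ p ≤ ‖x - p‖ := fun p hp => not_lt.1 fun h => hc ⟨p, b0 hp, h⟩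
    have hxZ : x ∉ Z := fun h => by
      have := hc' x h
      have := hρ x hx
      simp only [sub_self, norm_zero] at *
      linarith
    have : (insert x Z).card ≤ sSup S := by
      refine le_csSup hb ⟨insert x Z, ⟨a0.trans (Finset.subset_insert _ _), ?_, ?_, ?_⟩, rfl⟩
      · rw [Finset.coe_insert]; exact insert_subset hx a1
      · intro p hp p' hp' hne
        rcases Finset.mem_insert.1 hp with rfl | hq <;>
          rcases Finset.mem_insert.1 hp' with rfl | hq'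
        · exact absurd rfl hne
        · exact e.le.trans ((a3 p' hq').trans (hc' p' hq'))
        · rw [norm_sub_rev]; exact hc' p hq
        · exact a2 p hq p' hq' hne
      · intro p hp
        rcases Finset.mem_insert.1 hp with rfl | hp
        · exact e.ge
        · exact a3 p hp
    rw [Finset.card_insert_of_notMem hxZ] at this
    omega

theorem t_sel : S_SEL := by
  intro X ρ m R V hm hR hX hρ hf hV h1 h2
  have hf' : (ρ '' (X \ ↑V)).Finite := hf.subset (image_mono sdiff_subset)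
  obtain ⟨Z, a0, a1, a2, a3⟩ := sel_ind hm hR hX hρ hf'.toFinset V hV h1 fun t ht v hv => by
    obtain ⟨x, hx, rfl⟩ := hf'.mem_toFinset.1 ht
    exact h2 x hx.1 hx.2 v hv
  refine ⟨Z, a0, a1, a2, fun x hx => ?_, sel_card hm hR Z (a1.trans hX) fun p hp p' hp' hne =>
    (hρ p (a1 hp)).trans (a2 p hp p' hp' hne)⟩
  by_cases hxV : x ∈ V
  · exact ⟨x, a0 hxV, by simpa using hm.trans_le (hρ x hx)⟩
  · exact a3 x hx (hf'.mem_toFinset.2 ⟨x, ⟨hx, hxV⟩, rfl⟩)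

end Pool.Agent.P.MP_6b977f_mp.EB
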