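import Pool.Agent.P.MP_6b977f_mp.EB.IfB

/-! The dihedral wave. -/

namespace Pool.Agent.P.MP_6b977f_mp.EB

open Real MeasureTheory Filter Topology Laplacian Set Metric
open scoped ContDiff BoundedContinuousFunction ComplexConjugate Pointwise ENNReal

/-- one complex plane wave -/
noncomputable def wave_e (ξ : ℂ) (j : ℤ) (y : ℂ) : ℂ :=
  (Complex.I * conj ξ) ^ j * Complex.exp (Complex.I * ((conj ξ * y).re : ℝ))

theorem wave_pw (ξ : ℂ) (j : ℤ) (y : ℂ) : pw ξ j y = 2⁻¹ * (wave_e ξ j y + wave_e (-ξ) j y) := by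
  simp only [pw, wave_e, map_neg, mul_neg, neg_mul, Complex.neg_re, Complex.ofReal_neg]
  rw [neg_eq_neg_one_mul (Complex.I * conj ξ), mul_zpow (-1)]
  ring

theorem wave_unit {ξ : ℂ} (h : ‖ξ‖ = 1) : Complex.I * conj ξ * (Complex.I * ξ) = -1 := by
  have : conj ξ * ξ = 1 := by rw [Complex.conj_mul', h]; simp
  linear_combination (conj ξ * ξ) * Complex.I_mul_I - this

theorem wave_ne {ξ : ℂ} (h : ‖ξ‖ = 1) : Complex.I * conj ξ ≠ 0 :=
  left_ne_zero_of_mul ((wave_unit h).trans_ne (by norm_num))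

theorem wave_lad_e {ξ : ℂ} (h : ‖ξ‖ = 1) : Lad univ (wave_e ξ) := by
  intro j z _
  have h1 : HasFDerivAt (fun y : ℂ => Complex.I * ((conj ξ * y).re : ℝ))
      (Complex.I • Complex.ofRealCLM.comp (Complex.reCLM.comp (conj ξ • ContinuousLinearMap.id ℝ ℂ)))
      z := (Complex.I • Complex.ofRealCLM.comp
        (Complex.reCLM.comp (conj ξ • ContinuousLinearMap.id ℝ ℂ))).hasFDerivAt
  refine ⟨_, h1.cexp.const_mul _, fun e => ?_⟩
  have h2 : (((conj ξ * e).re : ℝ) : ℂ) = (conj ξ * e + ξ * conj e) / 2 := by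
    rw [Complex.re_eq_add_conj]; simp
  have h3 : (Complex.I * conj ξ)⁻¹ = -(Complex.I * ξ) :=
    inv_eq_of_mul_eq_one_right (by rw [mul_neg, wave_unit h, neg_neg])
  simp only [smul_apply, ContinuousLinearMap.comp_apply,
    ContinuousLinearMap.id_apply, Complex.reCLM_apply, Complex.ofRealCLM_apply, smul_eq_mul, h2,
    wave_e, zpow_add_one₀ (wave_ne h), zpow_sub_one₀ (wave_ne h), h3]
  ring

theorem wave_norm_e {ξ : ℂ} (h : ‖ξ‖ = 1) (j : ℤ) (y : ℂ) : ‖wave_e ξ j y‖ = 1 := by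
  rw [wave_e, norm_mul, norm_zpow, Complex.norm_exp_I_mul_ofReal]
  simp [h]

theorem wave_norm {ξ : ℂ} (h : ‖ξ‖ = 1) (j : ℤ) (y : ℂ) : ‖pw ξ j y‖ ≤ 1 := by
  have := norm_add_le (wave_e ξ j y) (wave_e (-ξ) j y)
  rw [wave_norm_e h, wave_norm_e (by rwa [norm_neg])] at this
  rw [wave_pw, norm_mul, norm_inv, Complex.norm_ofNat]
  linarith

theorem wave_conj_e (ξ : ℂ) (j : ℤ) (y : ℂ) :
    conj (wave_e ξ j y) = wave_e (-conj ξ) j (conj y) := by
  simp [wave_e, ← Complex.exp_conj]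
  left; congr 1; ring

theorem wave_conj (ξ : ℂ) (j : ℤ) (y : ℂ) : conj (pw ξ j y) = pw (conj ξ) j (conj y) := by
  simp [wave_pw, wave_conj_e, add_comm, Complex.conj_ofNat]

theorem wave_real {ξ : ℂ} (h : ‖ξ‖ = 1) : RealL (pw ξ) := by
  have k : ∀ ξ : ℂ, ‖ξ‖ = 1 → ∀ j z, wave_e (-ξ) (-j) z = (-1) ^ j * conj (wave_e ξ j z) := by
    intro ξ h j z
    have h3 : (Complex.I * conj (-ξ))⁻¹ = -1 * conj (Complex.I * conj ξ) :=
      inv_eq_of_mul_eq_one_right (by simp; linear_combination -wave_unit h)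
    rw [wave_e, wave_e, zpow_neg, ← inv_zpow, h3, mul_zpow, map_mul conj _ (Complex.exp _),
      map_zpow₀, ← Complex.exp_conj, mul_assoc]
    congr 3
    simp; ring
  intro j z
  have h1 := k (-ξ) (by rwa [norm_neg]) j z
  rw [neg_neg] at h1
  rw [wave_pw, wave_pw, h1, k ξ h]
  simp only [map_mul, map_add, map_inv₀, Complex.conj_ofNat]
  ring

theorem wave_rot (ξ e y : ℂ) (j : ℤ) : e ^ j * pw ξ j (y * e) = pw (conj e * ξ) j y := by
  have h : conj (conj e * ξ) = e * conj ξ := by simp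
  rw [pw, pw, h, mul_left_comm Complex.I, mul_zpow e, show e * conj ξ * y = conj ξ * (y * e) by ring]
  ring

theorem wave_ex (t : ℝ) : ‖ex t‖ = 1 := Complex.norm_exp_ofReal_mul_I t

theorem wave_ex_add (s t : ℝ) : ex (s + t) = ex s * ex t := by
  simp [ex, add_mul, Complex.exp_add]

theorem wave_ex_conj (t : ℝ) : conj (ex t) = ex (-t) := by
  simp [ex, ← Complex.exp_conj]

theorem wave_ex_pow (t : ℝ) (n : ℕ) : ex t ^ n = ex (n * t) := by
  simp [ex, ← Complex.exp_nat_mul, mul_assoc]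

theorem wave_refl {q : ℕ} (hq : 0 < q) (g : ℂ → ℂ) (m₀ : ℤ) (α : ℝ) :
    ∑ m ∈ Finset.range q, g (ex (2 * π * (m₀ - m) / q + α)) =
      ∑ m ∈ Finset.range q, g (ex (2 * π * m / q + α)) := by
  set f : ℤ → ℂ := fun n => g (ex (2 * π * n / q + α)) with hf
  have hp : ∀ a : ℤ, f (a + q) = f a := fun a => by
    have : 2 * π * ((a + q : ℤ) : ℝ) / q + α = 2 * π + (2 * π * a / q + α) := by
      push_cast; field_simp; ring
    simp only [hf, this, wave_ex_add (2 * π)]
    simp [ex]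
  have hs : ∀ a : ℤ, ∑ m ∈ Finset.range q, f (a + 1 + m) = ∑ m ∈ Finset.range q, f (a + m) := by
    intro a
    have := (Finset.sum_range_succ (fun m : ℕ => f (a + m)) q).symm.trans
      (Finset.sum_range_succ' (fun m : ℕ => f (a + m)) q)
    rw [hp, Nat.cast_zero, add_zero, add_left_inj] at this
    rw [this]
    exact Finset.sum_congr rfl fun m _ => by push_cast; ring_nf
  have h1 : ∀ a : ℤ, ∑ m ∈ Finset.range q, f (a + m) = ∑ m ∈ Finset.range q, f (0 + m) := fun a =>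
    Int.induction_on a rfl (fun i hi => (hs i).trans hi) fun i hi => by
      rw [← hs, ← hi]; simp
  have h2 := h1 (m₀ - q + 1)
  rw [← Finset.sum_range_reflect] at h2
  simp only [hf, zero_add, Int.cast_natCast] at h2
  rw [← h2]
  refine Finset.sum_congr rfl fun m hm => ?_
  have := Finset.mem_range.1 hm
  rw [Nat.sub_sub, Nat.cast_sub (by omega)]
  push_cast; ring_nf

theorem wave_low {ι : Type} [Fintype ι] (ν : ι → ℂ) (hi : Function.Injective ν) (h0 : ∀ i, ν i ≠ 0) :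
    ∃ c : ℝ, 0 < c ∧ ∀ (a : ι → ℂ) (r : ℝ) (i : ι), 0 < r → r ≤ ‖a i‖ →
      ∃ j ∈ Icc 1 (Fintype.card ι), c * r ≤ ‖∑ i, a i * ν i ^ j‖ := by
  let T : (ι → ℂ) →ₗ[ℂ] (Fin (Fintype.card ι) → ℂ) :=
    { toFun := fun a j => ∑ i, a i * ν i ^ (j + 1 : ℕ)
      map_add' := fun a b => by ext j; simp [add_mul, Finset.sum_add_distrib]
      map_smul' := fun c a => by ext j; simp [Finset.mul_sum, mul_assoc] }
  obtain ⟨K, hK, hT⟩ := T.exists_antilipschitzWith (LinearMap.ker_eq_bot'.2 fun a ha => by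
    set e := (Fintype.equivFin ι).symm
    have := Matrix.eq_zero_of_forall_pow_sum_mul_pow_eq_zero (f := ν ∘ e)
      (v := fun i => a (e i) * ν (e i)) (hi.comp e.injective) fun j => by
        refine Eq.trans ?_ ((e.sum_comp fun i => a i * ν i ^ (j + 1 : ℕ)).trans (congrFun ha j))
        exact Finset.sum_congr rfl fun i _ => by simp [pow_succ', mul_assoc]
    ext i
    simpa [h0] using congrFun this (e.symm i))
  have hK' : (0 : ℝ) < K := hK
  refine ⟨(K : ℝ)⁻¹, by positivity, fun a r i hr ha => ?_⟩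
  by_contra hc
  push Not at hc
  have h1 : ‖T a‖ < (K : ℝ)⁻¹ * r := (pi_norm_lt_iff (by positivity)).2 fun j =>
    hc (j + 1) ⟨Nat.le_add_left 1 j, j.2⟩
  have h2 := ZeroHomClass.bound_of_antilipschitz T hT a
  rw [lt_inv_mul_iff₀ hK'] at h1
  linarith [norm_le_pi_norm a i]

/-- the sign of a boolean -/
def wave_s (b : Bool) : ℝ := if b then 1 else -1

theorem wave_inj {q : ℕ} {ϑ : ℝ} (hq : Odd q) (hs : sin (2 * q * ϑ) ≠ 0) :
    Function.Injective fun i : Fin q × Bool × Bool =>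
      (wave_s i.2.2 : ℂ) * ex (2 * π * i.1 / q + wave_s i.2.1 * ϑ) := by
  have hq0 : q ≠ 0 := hq.pos.ne'
  have hζ := Complex.isPrimitiveRoot_exp q hq0
  have e1 : ∀ m : ℕ, ex (2 * π * m / q) = Complex.exp (2 * π * Complex.I / q) ^ m := fun m => by
    rw [← Complex.exp_nat_mul, ex]; congr 1; push_cast; ring
  have e2 : ∀ m : ℕ, (Complex.exp (2 * π * Complex.I / q) ^ m) ^ q = 1 := fun m => by
    rw [← pow_mul, mul_comm m, pow_mul, hζ.pow_eq_one, one_pow]
  have e3 : ∀ b, (wave_s b : ℂ) ^ q = wave_s b := fun b => by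
    cases b <;> simp [wave_s, hq.neg_one_pow]
  have e4 : ∀ b, (wave_s b : ℂ) ^ 2 = 1 := fun b => by cases b <;> simp [wave_s]
  have e5 : ∀ t, ex t ≠ 0 := fun t => Complex.exp_ne_zero _
  rintro ⟨m, a, b⟩ ⟨m', a', b'⟩ h
  simp only [wave_ex_add, e1] at h
  have h1 := congrArg (· ^ q) h
  simp only [mul_pow, e2, e3, one_mul] at h1
  have h2 := congrArg (fun z : ℂ => (z ^ 2).im) h1
  simp only [mul_pow, e4, one_mul, wave_ex_pow] at h2
  simp only [ex, Complex.exp_ofReal_mul_I_im] at h2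
  have ha : a = a' := by
    rw [mul_assoc] at hs
    cases a <;> cases a' <;> simp [wave_s] at h2 ⊢ <;> exact hs (by linarith)
  subst ha
  have hb : b = b' := by
    have := mul_right_cancel₀ (pow_ne_zero q (e5 _)) h1
    cases b <;> cases b' <;> simp [wave_s] at this ⊢ <;> norm_num at this
  subst hb
  have h3 := mul_right_cancel₀ (e5 _) (mul_left_cancel₀ (fun h0 => by simpa [h0] using e4 b) h)
  rw [Fin.ext (hζ.pow_inj m.2 m'.2 h3)]

theorem t_wave (hlad : S_LAD) : S_WAVE := by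
  intro q ϑ hq hs
  have hq0 := hq.pos
  obtain ⟨-, -, -, l4, l5, -, -, -, -, l10⟩ := hlad
  have lp : ∀ t, Lad univ (pw (ex t)) := fun t => by
    have := l5 _ _ 2⁻¹ (l4 _ _ _ (wave_lad_e (wave_ex t))
      (wave_lad_e (ξ := -ex t) (by rw [norm_neg, wave_ex])))
    simpa only [Pi.add_apply, ← wave_pw] using this
  set ξ : Fin q × Bool × Bool → ℂ := fun i =>
    (wave_s i.2.2 : ℂ) * ex (2 * π * i.1 / q + wave_s i.2.1 * ϑ) with hξ
  have n1 : ∀ b, ‖(wave_s b : ℂ)‖ = 1 := fun b => by cases b <;> simp [wave_s]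
  have n2 : ∀ i, ‖ξ i‖ = 1 := fun i => by rw [hξ, norm_mul, n1, wave_ex, one_mul]
  obtain ⟨c, hc, hl⟩ := wave_low (fun i => Complex.I * conj (ξ i))
    (fun i i' h => wave_inj hq hs ((starRingEnd ℂ).injective (mul_left_cancel₀ Complex.I_ne_zero h)))
    fun i => wave_ne (n2 i)
  have hr : 0 < (√q : ℝ)⁻¹ := by positivity
  have hcj : ∀ (m₀ : ℤ) (α β : ℝ) (j : ℤ) (y : ℂ), β = 2 * π * m₀ / q - α →
      conj (∑ m ∈ Finset.range q, (pw (ex (2 * π * m / q - α + ϑ)) j y -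
        pw (ex (2 * π * m / q - α - ϑ)) j y)) = -∑ m ∈ Finset.range q,
        (pw (ex (2 * π * m / q - β + ϑ)) j (conj y) - pw (ex (2 * π * m / q - β - ϑ)) j (conj y)) := by
    intro m₀ α β j y hβ
    have h1 := wave_refl hq0 (fun z => pw z j (conj y)) m₀ (-β + ϑ)
    have h2 := wave_refl hq0 (fun z => pw z j (conj y)) m₀ (-β - ϑ)
    simp only [← add_assoc, ← add_sub_assoc, ← sub_eq_add_neg] at h1 h2
    rw [Finset.sum_sub_distrib (f := fun m : ℕ => pw (ex (2 * π * m / q - β + ϑ)) j (conj y)), ← h1,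
      ← h2, neg_sub, ← Finset.sum_sub_distrib, map_sum]
    refine Finset.sum_congr rfl fun m _ => ?_
    rw [map_sub, wave_conj, wave_conj, wave_ex_conj, wave_ex_conj, hβ]
    congr 3 <;> ring
  refine ⟨(√q)⁻¹ * (q * 2), c * ((√q)⁻¹ * 2⁻¹), ?_, fun j z => ?_, fun j z => ?_, by positivity,
    fun j y => ?_, fun y => ?_, fun m τ j => ?_⟩
  · have := l5 _ _ ((√q : ℝ) : ℂ)⁻¹ (l10 _ _ (Finset.range q) _ fun m _ =>
      l4 _ _ _ (lp (2 * π * m / q + ϑ)) (l5 _ _ (-1) (lp (2 * π * m / q - ϑ))))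
    simp only [Pi.add_apply, neg_one_mul, ← sub_eq_add_neg] at this
    exact this
  · simp only [Wv, wave_real (wave_ex _) j z, map_mul, map_inv₀, Complex.conj_ofReal, map_sum,
      map_sub, ← mul_sub, ← Finset.mul_sum]
    ring
  · have := hcj 0 0 0 j z (by simp)
    simp only [sub_zero] at this
    simp only [Wv, mir, map_mul, map_inv₀, Complex.conj_ofReal, this]
    simp only [Complex.ofReal_zero, mul_zero, zero_mul, sub_zero, mul_neg, neg_neg]
  · rw [Wv, norm_mul, norm_inv, Complex.norm_real, Real.norm_of_nonneg (sqrt_nonneg _)]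
    gcongr
    refine (norm_sum_le_of_le _ (n := fun _ => 2) fun m _ => (norm_sub_le _ _).trans ?_).trans_eq
      (by simp)
    linarith [wave_norm (wave_ex (2 * π * m / q + ϑ)) j y, wave_norm (wave_ex (2 * π * m / q - ϑ)) j y]
  · obtain ⟨j, hj, h⟩ := hl (fun i => ((√q : ℝ) : ℂ)⁻¹ * 2⁻¹ * (wave_s i.2.1 *
      Complex.exp (Complex.I * ((conj (ξ i) * y).re : ℝ)))) ((√q)⁻¹ * 2⁻¹) (⟨0, hq0⟩, true, true)
      (by positivity) (by
        rw [norm_mul, norm_mul, norm_mul, n1, Complex.norm_exp_I_mul_ofReal]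
        simp [abs_of_nonneg])
    refine ⟨j, by simpa [mul_comm] using hj, h.trans_eq (congrArg _ ?_)⟩
    rw [Wv, Finset.sum_range, Fintype.sum_prod_type, Finset.mul_sum]
    refine Finset.sum_congr rfl fun m _ => ?_
    simp only [Fintype.sum_prod_type, Fintype.sum_bool, hξ, wave_s, wave_pw, wave_e, zpow_natCast]
    simp only [if_true, Bool.false_eq_true, if_false, Complex.ofReal_one, Complex.ofReal_neg, one_mul,
      neg_mul, ← sub_eq_add_neg]
    ring
  · have h := hcj m (π * m / q) (π * m / q) j τ (by ring)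
    have e : ex (π * m / q) ^ j * Wv q ϑ j (τ * ex (π * m / q)) = ((√q : ℝ) : ℂ)⁻¹ *
        ∑ i ∈ Finset.range q, (pw (ex (2 * π * i / q - π * m / q + ϑ)) j τ -
          pw (ex (2 * π * i / q - π * m / q - ϑ)) j τ) := by
      rw [Wv, mul_left_comm, Finset.mul_sum]
      congr 1
      refine Finset.sum_congr rfl fun i _ => ?_
      rw [mul_sub, ← zpow_natCast, wave_rot, wave_rot, wave_ex_conj, ← wave_ex_add, ← wave_ex_add]
      congr 3 <;> ring
    have h2 := congrArg Complex.re h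
    rw [Complex.conj_re, Complex.conj_ofReal, Complex.neg_re] at h2
    rw [e, ← Complex.ofReal_inv, Complex.re_ofReal_mul, show Complex.re _ = 0 by linarith, mul_zero]

end Pool.Agent.P.MP_6b977f_mp.EB
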