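import Pool.Agent.P.MP_6b977f_mp.EB.IfS

/-! Weak and classical Dirichlet eigenfunctions. -/

namespace Pool.Agent.P.MP_6b977f_mp.EB

open Real MeasureTheory Filter Topology Laplacian Set Metric
open scoped ContDiff BoundedContinuousFunction ComplexConjugate Pointwise ENNReal

noncomputable section

/-- The vector representing a linear form. -/
def reg_G : (ℂ →L[ℝ] ℝ) →L[ℝ] ℂ :=
  (ContinuousLinearMap.apply ℝ ℝ (1 : ℂ)).smulRight (1 : ℂ) +
    (ContinuousLinearMap.apply ℝ ℝ Complex.I).smulRight Complex.I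

theorem reg_G_re (L : ℂ →L[ℝ] ℝ) : (reg_G L).re = L 1 := by simp [reg_G]

theorem reg_G_im (L : ℂ →L[ℝ] ℝ) : (reg_G L).im = L Complex.I := by simp [reg_G]

theorem reg_grad (u : ℂ → ℝ) : gradient u = fun x => reg_G (fderiv ℝ u x) := by
  funext x
  have h : ∀ e, inner ℝ (gradient u x) e = fderiv ℝ u x e := fun e =>
    InnerProductSpace.toDual_symm_apply
  apply Complex.ext
  · rw [reg_G_re, ← h, Complex.inner]; simp
  · rw [reg_G_im, ← h, Complex.inner]; simp

theorem reg_smooth {u : ℂ → ℝ} {x : ℂ} (h : ContDiffAt ℝ ∞ u x) :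
    ContDiffAt ℝ 1 (gradient u) x := by
  rw [reg_grad]
  exact reg_G.contDiff.contDiffAt.comp x ((h.fderiv_right (m := ∞) le_rfl).of_le (by simp))

theorem reg_div {u : ℂ → ℝ} {x : ℂ} (h : ContDiffAt ℝ ∞ u x) :
    (fderiv ℝ (gradient u) x 1).re + (fderiv ℝ (gradient u) x Complex.I).im = Δ u x := by
  have h1 : DifferentiableAt ℝ (fderiv ℝ u) x :=
    (h.fderiv_right (m := ∞) le_rfl).differentiableAt (by simp)
  have h2 := (reg_G.hasFDerivAt.comp x h1.hasFDerivAt).fderiv
  rw [reg_grad, InnerProductSpace.laplacian_eq_iteratedFDeriv_complexPlane,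
    show fderiv ℝ (fun x => reg_G (fderiv ℝ u x)) x = _ from h2]
  simp [iteratedFDeriv_two_apply, reg_G_re, reg_G_im]

theorem reg_enorm (a u : ℂ → ℝ) (x : ℂ) :
    ‖fderiv ℝ a x - fderiv ℝ u x‖ₑ = ‖gradient a x - gradient u x‖ₑ := by
  unfold gradient
  rw [← map_sub, LinearIsometryEquiv.enorm_map]

theorem reg_sq {F : Type} [NormedAddCommGroup F] (g : ℂ → F) :
    eLpNorm g 2 volume ^ 2 = ∫⁻ x, ‖g x‖ₑ ^ 2 := by
  have := eLpNorm_nnreal_pow_eq_lintegral (f := g) (μ := volume) (p := 2) two_ne_zero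
  simpa using this

theorem reg_cont {X : ℂ → ℂ} (h1 : ContDiff ℝ 1 X) (h2 : HasCompactSupport X) :
    (Continuous fun x => (fderiv ℝ X x 1).re + (fderiv ℝ X x Complex.I).im) ∧
    HasCompactSupport fun x => (fderiv ℝ X x 1).re + (fderiv ℝ X x Complex.I).im := by
  have := h1.continuous_fderiv one_ne_zero
  exact ⟨by fun_prop, (h2.fderiv ℝ).comp_left
    (g := fun L : ℂ →L[ℝ] ℂ => (L 1).re + (L Complex.I).im) (by simp)⟩

theorem reg_int {X : ℂ → ℂ} (h1 : ContDiff ℝ 1 X) (h2 : HasCompactSupport X) :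
    ∫ x, ((fderiv ℝ X x 1).re + (fderiv ℝ X x Complex.I).im) = 0 := by
  have c := h1.continuous_fderiv one_ne_zero
  have i : ∀ v, Integrable fun x => fderiv ℝ X x v := fun v =>
    Continuous.integrable_of_hasCompactSupport (by fun_prop) (h2.fderiv_apply ℝ v)
  have e : ∀ v, ∫ x, fderiv ℝ X x v = 0 := fun v => by
    have := integral_smul_fderiv_eq_neg_fderiv_smul_of_integrable (μ := volume)
      (f := fun _ : ℂ => (1 : ℝ)) (g := X) (v := v) (by simp) (by simpa using i v)
      (by simpa using h1.continuous.integrable_of_hasCompactSupport h2) (by simp)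
      fun x _ => h1.differentiable one_ne_zero x
    simpa using this
  have e1 := integral_re (i 1)
  have e2 := integral_im (i Complex.I)
  rw [e] at e1 e2
  rw [integral_add (by exact (i 1).re) (by exact (i Complex.I).im)]
  exact (congrArg₂ (· + ·) e1 e2).trans (by simp)

theorem reg_lim {F : Type} [NormedAddCommGroup F] {a : ℕ → ℂ → F} {w : ℂ → F} {Ω : Set ℂ}
    (hΩ : IsOpen Ω) (ha : ∀ j, MemLp (a j) 2 volume) (h0 : ∀ j x, x ∉ Ω → a j x = 0)
    (hw : ContinuousOn w Ω) {I : ℕ → ℝ≥0∞} (hI : Tendsto I atTop (𝓝 0))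
    (hle : ∀ j, ∫⁻ x in Ω, ‖a j x - w x‖ₑ ^ 2 ≤ I j) :
    MemLp (Ω.indicator w) 2 volume ∧
      Tendsto (fun j => eLpNorm (a j - Ω.indicator w) 2 volume) atTop (𝓝 0) := by
  have h1 : ∀ j, eLpNorm (a j - Ω.indicator w) 2 volume ^ 2 ≤ I j := fun j => by
    refine le_trans (le_of_eq ?_) (hle j)
    rw [reg_sq, ← lintegral_indicator hΩ.measurableSet]
    congr 1
    funext x
    by_cases hx : x ∈ Ω
    · simp [hx]
    · simp [hx, h0 j x hx]
  have h2 : Tendsto (fun j => eLpNorm (a j - Ω.indicator w) 2 volume) atTop (𝓝 0) := by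
    refine ENNReal.tendsto_nhds_zero.2 fun ε hε => ?_
    filter_upwards [ENNReal.tendsto_nhds_zero.1 hI (ε ^ 2) (ENNReal.pow_pos hε 2)] with j hj
    exact (ENNReal.pow_le_pow_left_iff two_ne_zero).1 ((h1 j).trans hj)
  have m : AEStronglyMeasurable (Ω.indicator w) volume :=
    (aestronglyMeasurable_indicator_iff hΩ.measurableSet).2
      (hw.aestronglyMeasurable hΩ.measurableSet)
  obtain ⟨j, hj⟩ := (h2.eventually (gt_mem_nhds ENNReal.zero_lt_top)).exists
  have := (ha j).sub (⟨(ha j).1.sub m, hj⟩ : MemLp (a j - Ω.indicator w) 2 volume)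
  rw [sub_sub_cancel] at this
  exact ⟨this, h2⟩

theorem reg_test {Ω : Set ℂ} {φ : ℂ → ℝ} (h : IsTest Ω φ) :
    ContDiff ℝ 1 (gradient φ) ∧ HasCompactSupport (gradient φ) ∧
      ∀ x, x ∉ Ω → φ x = 0 ∧ gradient φ x = 0 := by
  refine ⟨contDiff_iff_contDiffAt.2 fun x => reg_smooth h.1.contDiffAt, ?_, fun x hx => ?_⟩
  · rw [reg_grad]
    exact (h.2.1.fderiv ℝ).comp_left (g := reg_G) (map_zero _)
  · have := notMem_tsupport_iff_eventuallyEq.1 fun h' => hx (h.2.2 h')
    refine ⟨this.eq_of_nhds, ?_⟩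
    rw [reg_grad]
    simp [this.fderiv_eq]

theorem t_reg (hweyl : S_WEYL) (hhb1 : S_HB1) (hhb2 : S_HB2) : S_REG := by
  refine ⟨fun Ω lam f g hΩ hl hw => ?_, fun Ω lam u hΩ hu ⟨a, ha, hI⟩ => ?_⟩
  · obtain ⟨u, h1, h2⟩ := hweyl Ω lam f hΩ hl hw.1.1 fun φ hφ => by
      obtain ⟨p1, p2, -⟩ := reg_test hφ
      obtain ⟨q1, q2⟩ := reg_cont p1 p2
      have e := hhb2.1 Ω f g _ hw.1 p1 p2
      have i1 := hw.1.1.integrable_mul (q1.memLp_of_hasCompactSupport (p := 2) q2)
      have i2 := hw.1.1.integrable_mul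
        (hφ.1.continuous.memLp_of_hasCompactSupport (p := 2) hφ.2.1)
      simp only [reg_div hφ.1.contDiffAt] at e i1
      simp only [mul_add, mul_left_comm (f _) lam]
      rw [integral_add (by exact i1) (by exact i2.const_mul lam), integral_const_mul, ← hw.2 φ hφ,
        e, add_neg_cancel]
    have h3 := hhb2.2.1 Ω f g Ω u hw.1 hΩ (h1.1.of_le (by simp))
      (h2.mono fun x h hx => (h hx).symm)
    obtain ⟨m1, m2, a, ha, l1, l2⟩ := hw.1
    refine ⟨u, h1, ⟨a, ha, ?_⟩, h2⟩
    have l3 := (ENNReal.Tendsto.pow (n := 2) l1).add (ENNReal.Tendsto.pow (n := 2) l2)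
    rw [zero_pow two_ne_zero, add_zero] at l3
    refine tendsto_of_tendsto_of_tendsto_of_le_of_le tendsto_const_nhds l3
      (fun _ => zero_le) fun j => ?_
    simp only [reg_sq]
    rw [← lintegral_add_left' (((ha j).1.continuous.aestronglyMeasurable.sub m1.1).enorm.pow_const
      2)]
    refine le_trans (lintegral_mono_ae ((ae_restrict_iff' hΩ.measurableSet).2 ?_))
      (setLIntegral_le_lintegral Ω _)
    filter_upwards [h2, h3] with x g1 g2 hx
    simp [reg_enorm, g1 hx, g2 hx]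
  · have su : ∀ x ∈ Ω, ContDiffAt ℝ ∞ u x := fun x hx => hu.1.contDiffAt (hΩ.mem_nhds hx)
    obtain ⟨m1, l1⟩ := reg_lim hΩ
      (fun j => (ha j).1.continuous.memLp_of_hasCompactSupport (ha j).2.1)
      (fun j x hx => ((reg_test (ha j)).2.2 x hx).1) hu.1.continuousOn hI
      fun j => lintegral_mono fun x => le_self_add
    obtain ⟨m2, l2⟩ := reg_lim (w := gradient u) hΩ
      (fun j => (reg_test (ha j)).1.continuous.memLp_of_hasCompactSupport (reg_test (ha j)).2.1)
      (fun j x hx => ((reg_test (ha j)).2.2 x hx).2)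
      (fun x hx => (reg_smooth (su x hx)).continuousAt.continuousWithinAt) hI
      fun j => lintegral_mono fun x => by rw [← reg_enorm]; exact le_add_self
    refine ⟨⟨m1, m2, a, ha, l1, l2⟩, fun φ hφ => ?_⟩
    have z : ∀ x, x ∉ tsupport φ → (fun y => φ y • gradient u y) =ᶠ[𝓝 x] fun _ => 0 :=
      fun x hx => (notMem_tsupport_iff_eventuallyEq.1 hx).mono fun y hy => by simp [hy]
    have p1 : ContDiff ℝ 1 fun y => φ y • gradient u y := contDiff_iff_contDiffAt.2 fun x => by
      by_cases hx : x ∈ tsupport φ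
      · exact (hφ.1.of_le (by simp)).contDiffAt.smul (reg_smooth (su x (hφ.2.2 hx)))
      · exact contDiffAt_const.congr_of_eventuallyEq (z x hx)
    have p2 : HasCompactSupport fun y => φ y • gradient u y := hφ.2.1.smul_right
    obtain ⟨q1, q2⟩ := reg_cont p1 p2
    have i2 := m1.integrable_mul (hφ.1.continuous.memLp_of_hasCompactSupport (p := 2) hφ.2.1)
    have e : ∀ x, inner ℝ (Ω.indicator (gradient u) x) (gradient φ x) =
        ((fderiv ℝ (fun y => φ y • gradient u y) x 1).re +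
          (fderiv ℝ (fun y => φ y • gradient u y) x Complex.I).im) +
          lam * (Ω.indicator u x * φ x) := fun x => by
      by_cases hx : x ∈ Ω
      · have g1 := reg_div (su x hx)
        have g2 := hu.2 x hx
        rw [fderiv_fun_smul (hφ.1.differentiable (by simp) x)
          ((reg_smooth (su x hx)).differentiableAt one_ne_zero), indicator_of_mem hx,
          indicator_of_mem hx, Complex.inner, reg_grad φ]
        simp [reg_G_re, reg_G_im]
        linear_combination (-φ x) * g1 - φ x * g2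
      · rw [(z x fun h => hx (hφ.2.2 h)).fderiv_eq]
        simp [hx]
    simp only [e]
    rw [integral_add (q1.integrable_of_hasCompactSupport q2) (by exact i2.const_mul lam),
      reg_int p1 p2, zero_add, integral_const_mul]

end

end Pool.Agent.P.MP_6b977f_mp.EB
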