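import Pool.Agent.P.MP_6b977f_mp.EB.IfB
import Pool.Agent.P.MP_6b977f_mp.EB.REG

/-! A classical solution vanishing on the boundary is a weak eigenfunction. -/

namespace Pool.Agent.P.MP_6b977f_mp.EB

open Real MeasureTheory Filter Topology Laplacian Set Metric
open scoped ContDiff BoundedContinuousFunction ComplexConjugate Pointwise ENNReal

noncomputable section

theorem t_wek (hlip : S_LIP) (hhb1 : S_HB1) : S_WEK := by
  intro Ω O lam u hΩ hb hO hcl hu h0
  have hH := hlip Ω O u hΩ hb hO hcl (hu.1.of_le (by simp)) h0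
  have hΩO : Ω ⊆ O := subset_closure.trans hcl
  have su : ∀ x ∈ Ω, ContDiffAt ℝ ∞ u x := fun x hx => hu.1.contDiffAt (hO.mem_nhds (hΩO hx))
  have m1 := hH.1
  refine ⟨hH, fun φ hφ => ?_⟩
  have z : ∀ x, x ∉ tsupport φ → (fun y => φ y • gradient u y) =ᶠ[𝓝 x] fun _ => 0 :=
    fun x hx => (notMem_tsupport_iff_eventuallyEq.1 hx).mono fun y hy => by simp [hy]
  have p1 : ContDiff ℝ 1 fun y => φ y • gradient u y := contDiff_iff_contDiffAt.2 fun x => by
    by_cases hx : x ∈ tsupport φ
    · exact (hφ.1.of_le (by simp)).contDiffAt.smul (reg_smooth (su x (hφ.2.2 hx)))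
    · exact contDiffAt_const.congr_of_eventuallyEq (z x hx)
  have p2 : HasCompactSupport fun y => φ y • gradient u y := hφ.2.1.smul_right
  obtain ⟨q1, q2⟩ := reg_cont p1 p2
  have i2 := m1.integrable_mul (hφ.1.continuous.memLp_of_hasCompactSupport (p := 2) hφ.2.1)
  have e : ∀ x, inner ℝ (Ω.indicator (gradient u) x) (gradient φ x) =
      ((fderiv ℝ (fun y => φ y • gradient u y) x 1).re +
        (fderiv ℝ (fun y => φ y • gradient u y) x Complex.I).im) +
        lam * (Ω.indicator u x * φ x) := fun x => by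
    by_cases hx : x ∈ Ω
    · have g1 := reg_div (su x hx)
      have g2 := hu.2 x (hΩO hx)
      rw [fderiv_fun_smul (hφ.1.differentiable (by simp) x)
        ((reg_smooth (su x hx)).differentiableAt one_ne_zero), indicator_of_mem hx,
        indicator_of_mem hx, Complex.inner, reg_grad φ]
      simp [reg_G_re, reg_G_im]
      linear_combination (-φ x) * g1 - φ x * g2
    · rw [(z x fun h => hx (hφ.2.2 h)).fderiv_eq]
      simp [hx]
  simp only [e]
  rw [integral_add (q1.integrable_of_hasCompactSupport q2) (by exact i2.const_mul lam),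
    reg_int p1 p2, zero_add, integral_const_mul]

end

end Pool.Agent.P.MP_6b977f_mp.EB
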