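import Pool.Agent.P.MP_6b977f_mp.EB.IfB

/-! Windows at every boundary point which is not a centre. -/

namespace Pool.Agent.P.MP_6b977f_mp.EB

open Real MeasureTheory Filter Topology Laplacian Set Metric
open scoped ContDiff BoundedContinuousFunction ComplexConjugate Pointwise ENNReal

theorem win_ev (a : ℝ) {k : ℝ} (hk : 0 < k) : ∀ᶠ μ : ℝ in atTop, a ≤ k * μ :=
  (tendsto_id.const_mul_atTop hk).eventually_ge_atTop a

theorem win_B {a : ℕ → ℝ} {J M : ℕ} {r μ c₀ : ℝ} (h : Dom a J M r μ c₀) (hM : M ≤ J) (h1 : 1 ≤ μ)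
    (r0 : 0 < r) (c0 : 0 < c₀) : c₀ * r ^ J ≤ a M * r ^ M := by
  have h2 := h.2
  have h3 : (μ ^ 2) ^ M ≤ (μ ^ 2) ^ J := pow_le_pow_right₀ (one_le_pow₀ h1) hM
  rw [mul_pow, mul_pow] at h2
  refine le_of_mul_le_mul_left ?_ (show 0 < (μ ^ 2) ^ M by positivity)
  nlinarith [mul_le_mul_of_nonneg_right h3 (show 0 ≤ c₀ * r ^ J by positivity)]

theorem win_nn (P : Poly) {p : ℂ} (hp : p ≠ 0) : ‖P.nn p‖ = 1 := by
  unfold Poly.nn
  split_ifs <;> simp [hp]

theorem win_mir {h : ℝ} {y s : ℂ} (hy : h ≤ y.im) (hs : h ≤ s.im) (e : y ≠ s) :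
    y ≠ mir (-h) s := by
  rintro rfl
  refine e (Complex.ext ?_ ?_) <;> simp [mir] at hy ⊢
  linarith

theorem win_lad {W : ℤ → ℂ → ℂ} (h : Lad univ W) (v : ℂ) : Lad univ fun j y => W j (y - v) :=
  fun j z _ => let ⟨A, h1, h2⟩ := h j (z - v) trivial
    ⟨A, A.comp_id ▸ h1.comp z ((hasFDerivAt_id z).sub_const v), h2⟩

theorem t_win (hzi : S_ZI) (hzu : S_ZU) (hpol0 : S_POL0) (htab : S_TAB) : S_WIN := by
  intro q J W B₀ c₀ c η₂ hW c0 η0
  refine ⟨(8 * J + 2) * J + 1 + (8 * J + 2) + 1, fun C C0 => ?_⟩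
  have c00 := hW.c_pos
  obtain ⟨η', c₃, μ₁, η'0, c30, zi⟩ := hzi J B₀ c₀ (η₂ / 2) c00 (half_pos η0)
  obtain ⟨η₀, η00, zu⟩ := hzu J B₀ c₀ η₂ c c00 η0 c0
  obtain ⟨η, ηp, η1, η2, η3⟩ : ∃ η, 0 < η ∧ η ≤ η' ∧ η ≤ η₀ ∧ η ≤ c / 4 :=
    ⟨min η' (min η₀ (c / 4)), by positivity, min_le_left _ _,
      (min_le_right _ _).trans (min_le_left _ _), (min_le_right _ _).trans (min_le_right _ _)⟩
  obtain ⟨ε, μ₂, ε0, zu⟩ := zu η ηp η2
  refine eventually_atTop.1 ?_
  filter_upwards [eventually_ge_atTop μ₁, eventually_ge_atTop μ₂, eventually_ge_atTop 32,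
    win_ev 1 (pow_pos c0 2), win_ev 1 c00, win_ev (C + 1) ε0, win_ev (2 * (C + 2)) (mul_pos c30 η0),
    win_ev (9 * (C + 1)) (mul_pos (mul_pos c0 c30) ηp)] with μ a1 a2 a3 a4 a5 a6 a7 a8
  intro R P ρ Z r M b u ok rho bot dir geo cen hD K s s1 s2 x hx xZ
  replace zi := zi μ a1
  replace zu := zu μ a2
  have μ0 : 0 < μ := by linarith
  have c4 := geo.c_le
  have S3 := ok.three
  have he := ok.unit s s2
  have lev := cen.lev
  have i6 : (μ ^ 6)⁻¹ ≤ (μ ^ 2)⁻¹ :=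
    inv_anti₀ (by positivity) (pow_le_pow_right₀ (by linarith) (by norm_num))
  have iμ : μ⁻¹ ≤ c ^ 2 := by rw [inv_le_iff_one_le_mul₀ μ0]; exact a4
  have hδ : (μ ^ ((8 * J + 2) * J + 1 + (8 * J + 2) + 1))⁻¹ * μ =
      (μ ^ (8 * J + 2))⁻¹ * (μ⁻¹ * (μ ^ (8 * J + 2))⁻¹ ^ J) := by
    rw [pow_succ, pow_add, pow_succ, pow_mul, inv_pow]; field_simp
  have m0 : 0 < (μ ^ (8 * J + 2))⁻¹ := by positivity
  have far := K.far
  generalize (μ ^ ((8 * J + 2) * J + 1 + (8 * J + 2) + 1))⁻¹ = δ at hδ hD far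
  generalize (μ ^ (8 * J + 2))⁻¹ = m at hδ m0 lev
  have c2 : c ^ 2 ≤ c / 4 := by nlinarith only [c0, c4]
  have hr : ∀ p ∈ Z, 0 < r p ∧ μ * r p ≤ μ⁻¹ ∧ 32 * r p ≤ μ * r p ∧
      16 * (c ^ 2 * (μ * r p)) ≤ μ * r p ∧ 4 * (c * r p) ≤ r p ∧ 0 < c * r p := fun p hp => by
    have h1 := m0.trans_le (lev p hp).1
    exact ⟨h1, (mul_le_mul_of_nonneg_left ((lev p hp).2.trans i6) μ0.le).trans_eq (by field_simp),
      mul_le_mul_of_nonneg_right a3 h1.le, by nlinarith only [c2, c4, mul_pos μ0 h1],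
      by nlinarith only [c4, h1], mul_pos c0 h1⟩
  have hB : ∀ p ∈ Z, 0 < ‖W (M p) (p - P.V (b p))‖ * r p ^ M p ∧
      δ * μ ≤ m * (‖W (M p) (p - P.V (b p))‖ * r p ^ M p) := fun p hp => by
    have h1 := win_B (cen.dom p hp).2.2 (cen.dom p hp).1.2 (by linarith) (hr p hp).1 c00
    have h2 := (hr p hp).1
    refine ⟨lt_of_lt_of_le (by positivity) h1, hδ ▸ mul_le_mul_of_nonneg_left (le_trans ?_ h1) m0.le⟩
    exact mul_le_mul (by rw [inv_le_iff_one_le_mul₀ μ0]; exact a5)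
      (pow_le_pow_left₀ m0.le (lev p hp).1 _) (by positivity) c00.le
  have cl : ∀ s < P.S, ∀ y ∈ P.side s, y ∈ closure (table ρ) := fun s hs y hy =>
    frontier_subset_closure (((hpol0 P c ok).2.2.1 ρ rho).1 ▸ mem_iUnion₂.2 ⟨s, hs, hy⟩)
  have nn1 : ∀ p ∈ Z, ‖(r p : ℂ) * P.nn p‖ = r p := fun p hp => by
    obtain ⟨s, -, h1, h2⟩ := cen.sub p hp
    rw [norm_mul, win_nn P (norm_pos_iff.1 (c0.trans_le (geo.g7 s h1 p h2).1)), mul_one,
      Complex.norm_of_nonneg (hr p hp).1.le]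
  have src : ∀ p ∈ Z, (P.V 0).im ≤ (p + r p * P.nn p).im := fun p hp => by
    by_cases h0 : p = P.V 0
    · simp [Poly.nn, h0]
    by_cases h1 : p = P.V 1
    · have := ok.step 0 (by omega)
      rw [bot.1, zero_add, ← h1] at this
      rw [Poly.nn, if_neg h0, if_pos h1, this]
      simp
    have := cen.high p hp h0 h1
    have := (abs_le.1 ((Complex.abs_im_le_norm _).trans_eq (nn1 p hp))).1
    rw [Complex.add_im]
    linarith [mul_le_mul_of_nonneg_right a4 (hr p hp).1.le]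
  have ds : ∀ p ∈ Z, ∀ y, ‖y - p‖ ≤ ‖y - (p + r p * P.nn p)‖ + r p ∧
      r p ≤ ‖y - (p + r p * P.nn p)‖ + ‖y - p‖ := fun p hp y => by
    have h1 := norm_add_le (y - (p + r p * P.nn p)) (r p * P.nn p)
    have h2 := norm_sub_le (y - p) (y - (p + r p * P.nn p))
    rw [show y - (p + r p * P.nn p) + r p * P.nn p = y - p by ring, nn1 p hp] at h1
    rw [show y - p - (y - (p + r p * P.nn p)) = r p * P.nn p by ring, nn1 p hp] at h2
    exact ⟨h1, by linarith⟩
  have tri : ∀ a b c : ℂ, ‖a - c‖ ≤ ‖b - a‖ + ‖b - c‖ := fun a b c => by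
    simpa [dist_eq_norm] using dist_triangle_left a c b
  have abv : ∀ t, 0 < t → t ≤ μ⁻¹ → (∀ z ∈ Z, t ≤ ‖x - z‖) →
      η * t ≤ t / 16 ∧ ∀ y ∈ ball x (η * t), (P.V 0).im ≤ y.im := fun t t0 t1 ht => by
    refine ⟨by nlinarith only [η3, c4, t0], fun y hy => ?_⟩
    have h1 := (mul_le_mul_of_nonneg_left (le_min (show t ≤ 1 by linarith) (le_min
      (ht _ (cen.vert 0 (by omega))) (ht _ (cen.vert 1 (by omega))))) c0.le).trans
      (geo.g5 s s1 s2 x hx)
    have h2 := (abs_le.1 (Complex.abs_im_le_norm (y - x))).1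
    rw [mem_ball, dist_eq_norm] at hy
    rw [Complex.sub_im] at h2
    linarith [mul_le_mul_of_nonneg_right η3 t0.le, mul_pos c0 t0]
  have ide : ∀ p ∈ Z, ‖x - p‖ < μ * r p → ∃ τ : ℝ, x = p + τ * P.e s ∧ |τ| = ‖x - p‖ ∧
      (∀ j : ℕ, (P.e s ^ j * W j (p - P.V (b p))).re = 0) ∧ W 0 (x - P.V (b p)) = 0 :=
    fun p hp h => by
      obtain ⟨τ, τ', e1, e2⟩ := cen.line p hp s s1 s2 x hx h
      obtain ⟨k, hk⟩ := dir s s2
      refine ⟨τ, e1, by simp [e1, he], fun j => ?_, ?_⟩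
      · rw [sub_eq_of_eq_add' e2, hk]; exact hW.line k τ' j
      · have h1 := hW.line k (τ + τ') 0
        have h2 := congrArg Complex.im (hW.real 0 ((τ + τ' : ℝ) * ex (π * k / q)))
        rw [show x - P.V (b p) = (τ + τ' : ℝ) * ex (π * k / q) by
          rw [← hk]; push_cast; linear_combination e1 + e2]
        simp only [neg_zero, zpow_zero, one_mul, Complex.conj_im, pow_zero, Nat.cast_zero] at h1 h2
        exact Complex.ext h1 (by simp only [Complex.zero_im]; linarith)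
  have wi : ∀ p ∈ Z, ‖x - p‖ < μ * r p → r p / 4 ≤ ‖x - p‖ → ∀ t, 0 < t → t ≤ ‖x - p‖ →
      (∀ y ∈ ball x (η * t), ‖u 1 y - W 1 (y - P.V (b p))‖ * r p * μ ≤
        (C + 2) * (‖W (M p) (p - P.V (b p))‖ * r p ^ M p)) →
      ‖u 0 x - W 0 (x - P.V (b p))‖ * r p * μ ≤
        4 * (C + 1) * t * (‖W (M p) (p - P.V (b p))‖ * r p ^ M p) →
      Win u (P.e s) x (η * t) η₂ c := fun p hp h1 h2 t t0 t1 h3 h4 => by
    obtain ⟨τ, e1, e2, e3, e4⟩ := ide p hp h1
    have r0 := (hr p hp).1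
    obtain ⟨β, b1, b2⟩ := zi (fun j y => W j (y - P.V (b p))) (M p) p (P.e s) (r p) τ
      (win_lad hW.lad _) (fun j z => hW.real j _) (fun j y => hW.bdd j _) (cen.dom p hp).1 r0
      (lev p hp).2 he (cen.dom p hp).2.2 e3 (e2 ▸ h2) (e2 ▸ h1.le)
    have B0 := (hB p hp).1
    generalize ‖W (M p) (p - P.V (b p))‖ * r p ^ M p = B at *
    rw [← e1, e2] at b2
    rw [e4, sub_zero] at h4
    refine ⟨β, fun e => ?_, fun y hy => ?_, ?_⟩
    · rw [e, abs_zero, zero_mul] at b1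
      linarith [mul_pos c30 B0]
    · have h5 := b2 y (ball_subset_ball (mul_le_mul η1 t1 t0.le η'0.le) hy)
      have h6 : ‖u 1 y - W 1 (y - P.V (b p))‖ ≤ η₂ / 2 * |β| := by
        refine le_of_mul_le_mul_right ?_ (mul_pos r0 μ0)
        linarith [h3 y hy, mul_le_mul_of_nonneg_right a7 B0.le,
          mul_le_mul_of_nonneg_left b1 (mul_pos η0 μ0).le]
      have h7 := norm_add_le (P.e s * (u 1 y - W 1 (y - P.V (b p))))
        (P.e s * W 1 (y - P.V (b p)) - Complex.I * β)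
      rw [norm_mul, he, mul_sub, sub_add_sub_cancel] at h7
      linarith
    · refine lt_of_mul_lt_mul_right ?_ (mul_pos r0 μ0).le
      linarith [mul_le_mul_of_nonneg_right a8 (mul_pos t0 B0).le, mul_pos (mul_pos t0 B0) C0,
        mul_le_mul_of_nonneg_left b1 (mul_pos (mul_pos c0 μ0) (mul_pos ηp t0)).le, mul_pos t0 B0]
  by_cases hA : ∃ p ∈ Z, ‖x - p‖ < μ * r p / 8
  · obtain ⟨p, hp, hA⟩ := hA
    obtain ⟨r0, r1, r2, r4, r5, r6⟩ := hr p hp
    have r3 : r p ≤ 1 := by linarith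
    have t0 : 0 < ‖x - p‖ := norm_pos_iff.2 (sub_ne_zero.2 fun e => xZ (e ▸ hp))
    have oth : ∀ y, ‖y - p‖ ≤ 2 * ‖x - p‖ → ∀ p' ∈ Z, p' ≠ p →
        24 * r p' ≤ ‖y - p'‖ ∧ c ^ 2 / 2 * μ * r p' ≤ ‖y - p'‖ ∧ ‖x - p‖ ≤ ‖y - p'‖ :=
      fun y hy p' hp' e => by
        have h1 := cen.sep p hp p' hp' e.symm
        have h2 := cen.sep p' hp' p hp e
        have h3 := tri p y p'
        obtain ⟨h4, -, h5, h6, -⟩ := hr p' hp'
        rw [norm_sub_rev] at h2
        exact ⟨by linarith, by linarith, by linarith⟩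
    have hz : ∀ z ∈ Z, ‖x - p‖ ≤ ‖x - z‖ := fun z hz => by
      by_cases e : z = p
      · rw [e]
      · exact (oth x (by linarith) z hz e).2.2
    obtain ⟨d1, d2⟩ := abv _ t0 (by linarith) hz
    have bl : ∀ y ∈ ball x (η * ‖x - p‖), ‖y - p‖ ≤ 2 * ‖x - p‖ ∧
        c / 2 * r p ≤ ‖y - (p + r p * P.nn p)‖ := fun y hy => by
      obtain ⟨s', -, h1, h2⟩ := cen.sub p hp
      have h3 := geo.g4 s' h1 p h2 (r p) ⟨r0.le, by linarith⟩ x (cl s s2 x hx)
      have h4 := tri x y p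
      have h5 := tri y x p
      have h6 := tri x y (p + r p * P.nn p)
      have h7 := (ds p hp y).1
      rw [mem_ball, dist_eq_norm] at hy
      rw [norm_sub_rev x y] at h5
      refine ⟨by linarith, ?_⟩
      rcases le_total ‖x - p‖ (2 * r p) with h | h
      · linarith [mul_le_mul η3 h t0.le (by positivity)]
      · linarith
    have nr : ∀ y : ℂ, (P.V 0).im ≤ y.im → ‖y - p‖ ≤ 2 * ‖x - p‖ →
        c / 2 * r p ≤ ‖y - (p + r p * P.nn p)‖ → ∀ l : ℤ, l.natAbs ≤ J + 1 →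
        ‖u l y - W l (y - P.V (b p))‖ * r p ^ l.natAbs * μ ≤
          (C + 1) * (‖W (M p) (p - P.V (b p))‖ * r p ^ M p) := fun y h1 h2 h3 l hl => by
      have h4 := (le_div_iff₀ μ0).1 (K.near p hp y (by simpa using h1)
        (by linarith [mul_le_mul_of_nonneg_right c2 r0.le]) (fun p' hp' e => (oth y h2 p' hp' e).2.1) l hl)
      have h5 := hD _ (cen.dom p hp).2.1 l y
      have h6 := (norm_sub_le_norm_sub_add_norm_sub (u l y) _ _).trans (add_le_add le_rfl h5)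
      have h7 : r p ^ l.natAbs ≤ 1 := pow_le_one₀ r0.le r3
      have h8 : 0 < r p ^ l.natAbs := by positivity
      obtain ⟨B0, h9⟩ := hB p hp
      linarith [mul_le_mul_of_nonneg_right h6 (mul_pos h8 μ0).le,
        mul_le_mul_of_nonneg_right ((lev p hp).1.trans r3) B0.le,
        mul_le_mul_of_nonneg_left h7 (mul_nonneg ((norm_nonneg _).trans h5) μ0.le)]
    refine ⟨η * ‖x - p‖, by positivity, by linarith, ?_, fun z h => by linarith [hz z h],
      fun y hy => ⟨d2 y hy, fun p' hp' => ?_⟩⟩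
    · rcases le_total ‖x - p‖ (r p / 4) with h | h
      · obtain ⟨τ, e1, e2, e3, -⟩ := ide p hp (by linarith)
        have := zu (fun j y => W j (y - P.V (b p))) u _ (M p) p (P.e s) (r p) τ
          (fun j y => hW.bdd j _) (cen.dom p hp).1 r0 (lev p hp).2 he (cen.dom p hp).2.2 e3
          (abs_pos.1 (e2 ▸ t0)) (e2 ▸ h) K.lad K.real (K.jet p hp) ?_
        · rwa [← e1, e2] at this
        rw [← e1, e2]
        intro y hy y' hy'
        obtain ⟨s', -, h1, h2⟩ := cen.sub p hp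
        have h3 : (P.V 0).im ≤ y'.im :=
          (convex_halfSpace_im_ge _).segment_subset (geo.g6 p (cl s' h1 p h2)) (d2 y hy) hy'
        have h4 : ‖y' - p‖ ≤ 2 * ‖x - p‖ := by
          simpa [dist_eq_norm] using (convex_closedBall p _).segment_subset
            (mem_closedBall_self (by positivity)) (mem_closedBall_iff_norm.2 (bl y hy).1) hy'
        have h5 := (ds p hp y').2
        have h6 : ∀ p' ∈ Z, y' ≠ p' + r p' * P.nn p' := fun p' hp' e => by
          have := ds p' hp' y'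
          rw [← e, sub_self, norm_zero] at this
          by_cases e' : p' = p
          · subst e'; linarith
          · linarith [(oth y' h4 p' hp' e').1, (hr p' hp').1]
        refine ⟨fun p' hp' => ⟨h6 p' hp', win_mir h3 (src p' hp') (h6 p' hp')⟩, fun l hl => ?_⟩
        refine le_of_mul_le_mul_right ((nr y' h3 h4 (by linarith) l hl).trans ?_) μ0
        linarith [mul_le_mul_of_nonneg_right a6 (hB p hp).1.le]
      · refine wi p hp (by linarith) h _ t0 le_rfl (fun y hy => ?_) ?_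
        · have := nr y (d2 y hy) (bl y hy).1 (bl y hy).2 1 (by simp)
          rw [Int.natAbs_one, pow_one] at this
          linarith [(hB p hp).1]
        · have hx' : x ∈ ball x (η * ‖x - p‖) := mem_ball_self (by positivity)
          have := nr x (d2 x hx') (bl x hx').1 (bl x hx').2 0 (by simp)
          rw [Int.natAbs_zero, pow_zero] at this
          linarith [mul_le_mul_of_nonneg_right this r0.le, mul_le_mul_of_nonneg_left h
            (mul_pos (add_pos C0 one_pos) (hB p hp).1).le]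
    · by_cases e : p' = p
      · exact e ▸ (bl y hy).2
      · linarith [(oth y (bl y hy).1 p' hp' e).1, (ds p' hp' y).1, (hr p' hp').1,
          (hr p' hp').2.2.2.2.1]
  · push Not at hA
    obtain ⟨p, hp, hx'⟩ := cen.cov s s1 s2 x hx
    obtain ⟨r0, r1, r2, -⟩ := hr p hp
    have r3 : r p ≤ 1 := by linarith
    have hz : ∀ z ∈ Z, m ≤ ‖x - z‖ := fun z hz => by
      linarith [hA z hz, (lev z hz).1, (hr z hz).2.2.1]
    obtain ⟨d1, d2⟩ := abv m m0 (by linarith [(lev p hp).1]) hz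
    have bl : ∀ y ∈ ball x (η * m), ∀ p' ∈ Z, μ * r p' / 16 ≤ ‖y - p'‖ := fun y hy p' hp' => by
      rw [mem_ball, dist_eq_norm] at hy
      linarith [hA p' hp', (lev p' hp').1, (hr p' hp').2.2.1, tri x y p']
    have fr : ∀ y ∈ ball x (η * m), ∀ l : ℤ, l.natAbs ≤ J + 1 →
        ‖u l y - W l (y - P.V (b p))‖ * r p * μ ≤
          2 * m * (‖W (M p) (p - P.V (b p))‖ * r p ^ M p) := fun y hy l hl => by
      have h4 := far y (by simpa using d2 y hy) (fun p' hp' => by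
        linarith [bl y hy p' hp', (hr p' hp').2.2.2.1, mul_pos μ0 (hr p' hp').1]) l hl
      have h5 := hD _ (cen.dom p hp).2.1 l y
      have h6 := (norm_sub_le_norm_sub_add_norm_sub (u l y) _ _).trans (add_le_add h4 h5)
      linarith [mul_le_mul_of_nonneg_right h6 μ0.le, (hB p hp).2, mul_le_mul_of_nonneg_left r3
        (mul_nonneg (norm_nonneg (u l y - W l (y - P.V (b p)))) μ0.le)]
    refine ⟨η * m, by positivity, by linarith [(lev p hp).1], ?_, fun z h => by linarith [hz z h],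
      fun y hy => ⟨d2 y hy, fun p' hp' => ?_⟩⟩
    · have B0 := (hB p hp).1
      refine wi p hp hx' (by linarith [hA p hp]) m m0 (hz p hp) (fun y hy => ?_) ?_
      · linarith [fr y hy 1 (by simp), mul_pos C0 B0,
          mul_le_mul_of_nonneg_right ((lev p hp).1.trans r3) B0.le]
      · linarith [fr x (mem_ball_self (by positivity)) 0 (by simp), mul_pos m0 B0,
          mul_pos C0 (mul_pos m0 B0)]
    · linarith [bl y hy p' hp', (ds p' hp' y).1, (hr p' hp').1, (hr p' hp').2.2.1,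
        (hr p' hp').2.2.2.2.1]

end Pool.Agent.P.MP_6b977f_mp.EB
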