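import Pool.Agent.P.MP_6b977f_mp.EB.IfB

/-! The ladder of singular multipoles. -/

namespace Pool.Agent.P.MP_6b977f_mp.EB

open Real MeasureTheory Filter Topology Laplacian Set Metric
open scoped ContDiff BoundedContinuousFunction ComplexConjugate Pointwise ENNReal

noncomputable section

def yl_p (p₀ p₁ : ℝ → ℝ) : ℕ → ℝ → ℝ
  | 0 => p₀
  | 1 => p₁
  | n + 2 => fun x => 2 * (n + 1) * yl_p p₀ p₁ (n + 1) x - x * yl_p p₀ p₁ n x

theorem yl_rec (p₀ p₁ : ℝ → ℝ) (n : ℕ) (x : ℝ) : yl_p p₀ p₁ (n + 2) x =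
    2 * (n + 1) * yl_p p₀ p₁ (n + 1) x - x * yl_p p₀ p₁ n x := rfl

theorem yl_der {p₀ p₁ : ℝ → ℝ} {x : ℝ} (hx : 0 < x) (h1 : HasDerivAt p₁ (p₀ x / 2) x)
    (h0 : HasDerivAt p₀ (-(p₁ x) / (2 * x)) x) (n : ℕ) :
    HasDerivAt (yl_p p₀ p₁ (n + 1)) (yl_p p₀ p₁ n x / 2) x ∧
    HasDerivAt (yl_p p₀ p₁ n) ((n * yl_p p₀ p₁ n x - yl_p p₀ p₁ (n + 1) x / 2) / x) x := by
  induction n with
  | zero =>
    refine ⟨h1, h0.congr_deriv ?_⟩
    simp only [yl_p]; field_simp; simp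
  | succ n ih =>
    constructor
    · have := (ih.1.const_mul (2 * ((n : ℝ) + 1))).sub ((hasDerivAt_id x).mul ih.2)
      refine HasDerivAt.congr_deriv this ?_
      simp only [id]; field_simp; ring
    · refine ih.1.congr_deriv ?_
      rw [yl_rec]; push_cast; field_simp; ring

theorem yl_big {p₀ p₁ : ℝ → ℝ} {C : ℝ} (h : ∀ x, 1 ≤ x → |p₀ x| ≤ C ∧ |p₁ x| ≤ C * √x) (n : ℕ) :
    ∃ C : ℝ, 0 ≤ C ∧ ∀ x, 1 ≤ x → |yl_p p₀ p₁ n x| ≤ C * √x ^ n ∧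
      |yl_p p₀ p₁ (n + 1) x| ≤ C * √x ^ (n + 1) := by
  induction n with
  | zero =>
    refine ⟨C, (abs_nonneg _).trans (h 1 le_rfl).1, fun x hx => ?_⟩
    simpa [yl_p] using h x hx
  | succ n ih =>
    obtain ⟨D, hD, ih⟩ := ih
    refine ⟨2 * (n + 1) * D + D, by positivity, fun x hx => ?_⟩
    obtain ⟨h0, h1⟩ := ih x hx
    have hs : 1 ≤ √x := Real.one_le_sqrt.2 hx
    have hs2 : √x ^ 2 = x := Real.sq_sqrt (by linarith)
    have hp : 0 ≤ √x ^ (n + 1) := by positivity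
    have hn : (0 : ℝ) ≤ 2 * (n + 1) * D := by positivity
    constructor
    · nlinarith [mul_nonneg hn hp]
    · rw [yl_rec]
      refine (abs_sub _ _).trans ?_
      rw [abs_mul, abs_mul x, abs_of_nonneg (show (0 : ℝ) ≤ 2 * (n + 1) by positivity),
        abs_of_nonneg (show 0 ≤ x by linarith)]
      have e1 : 2 * ((n : ℝ) + 1) * |yl_p p₀ p₁ (n + 1) x| ≤
          2 * (n + 1) * D * √x ^ (n + 1 + 1) := by
        calc _ ≤ 2 * ((n : ℝ) + 1) * (D * √x ^ (n + 1)) := by gcongr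
          _ ≤ 2 * ((n : ℝ) + 1) * (D * √x ^ (n + 1 + 1)) := by gcongr; omega
          _ = _ := by ring
      have e2 : x * |yl_p p₀ p₁ n x| ≤ D * √x ^ (n + 1 + 1) := by
        calc _ ≤ x * (D * √x ^ n) := by gcongr
          _ = √x ^ 2 * (D * √x ^ n) := by rw [hs2]
          _ = _ := by ring
      linarith

theorem yl_small {p₀ p₁ : ℝ → ℝ} {C : ℝ}
    (h : ∀ x, 0 < x → x ≤ 1 → |p₀ x| * √x ≤ C ∧ |p₁ x - 1| ≤ C * √x) (n : ℕ) :
    ∃ C : ℝ, 0 ≤ C ∧ ∀ x, 0 < x → x ≤ 1 → |x * yl_p p₀ p₁ n x| ≤ C * √x ∧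
      |yl_p p₀ p₁ (n + 1) x - 2 ^ n * n.factorial| ≤ C * √x := by
  induction n with
  | zero =>
    refine ⟨C, le_trans (by positivity) (h 1 one_pos le_rfl).1, fun x hx h1 => ⟨?_, ?_⟩⟩
    · have hs2 : √x * √x = x := Real.mul_self_sqrt hx.le
      have := mul_le_mul_of_nonneg_right (h x hx h1).1 (Real.sqrt_nonneg x)
      rw [abs_mul, abs_of_pos hx]
      simp only [yl_p]
      rw [mul_assoc, hs2, mul_comm] at this
      exact this
    · simpa [yl_p] using (h x hx h1).2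
  | succ n ih =>
    obtain ⟨D, hD, ih⟩ := ih
    refine ⟨2 * (n + 1) * D + D + 2 ^ n * n.factorial, by positivity, fun x hx hx1 => ?_⟩
    obtain ⟨h0, h1⟩ := ih x hx hx1
    have hs0 : 0 ≤ √x := Real.sqrt_nonneg x
    have hs : √x ≤ 1 := Real.sqrt_le_one.2 hx1
    have hs2 : √x * √x = x := Real.mul_self_sqrt hx.le
    have hxs : x ≤ √x := by nlinarith
    have hn : (0 : ℝ) ≤ 2 * (n + 1) * D := by positivity
    have hk : (0 : ℝ) ≤ 2 ^ n * n.factorial := by positivity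
    constructor
    · have e1 : |yl_p p₀ p₁ (n + 1) x| ≤ D + 2 ^ n * n.factorial := by
        have := abs_sub_abs_le_abs_sub (yl_p p₀ p₁ (n + 1) x) (2 ^ n * n.factorial)
        rw [abs_of_nonneg hk] at this
        nlinarith
      rw [abs_mul, abs_of_pos hx]
      calc _ ≤ √x * (D + 2 ^ n * n.factorial) := by gcongr
        _ ≤ _ := by nlinarith [mul_nonneg hn hs0]
    · have e : yl_p p₀ p₁ (n + 1 + 1) x - 2 ^ (n + 1) * (n + 1).factorial =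
          2 * (n + 1) * (yl_p p₀ p₁ (n + 1) x - 2 ^ n * n.factorial) - x * yl_p p₀ p₁ n x := by
        rw [yl_rec, Nat.factorial_succ]; push_cast; ring
      rw [e]
      refine (abs_sub _ _).trans ?_
      rw [abs_mul, abs_of_nonneg (show (0 : ℝ) ≤ 2 * (n + 1) by positivity)]
      have e1 : 2 * ((n : ℝ) + 1) * |yl_p p₀ p₁ (n + 1) x - 2 ^ n * n.factorial| ≤
          2 * (n + 1) * (D * √x) := by gcongr
      nlinarith [mul_nonneg hk hs0]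

def yl_F (p : ℕ → ℝ → ℝ) (n : ℕ) (w : ℂ) : ℂ := (conj w)⁻¹ ^ n * (p n (Complex.normSq w) : ℝ)

theorem yl_dF (p : ℕ → ℝ → ℝ) (n : ℕ) {w : ℂ} (hw : w ≠ 0) {d : ℝ}
    (h : HasDerivAt (p n) d (Complex.normSq w)) :
    ∃ A : ℂ →L[ℝ] ℂ, HasFDerivAt (yl_F p n) A w ∧ ∀ e, A e =
      -n * (conj w)⁻¹ ^ (n + 1) * conj e * (p n (Complex.normSq w) : ℝ) +
        (conj w)⁻¹ ^ n * d * (e * conj w + w * conj e) := by
  have hc : conj w ≠ 0 := by simpa using hw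
  have h1 : HasDerivAt (fun z : ℂ => z⁻¹ ^ n) (-n * (conj w)⁻¹ ^ (n + 1)) (conj w) := by
    refine ((hasDerivAt_inv hc).fun_pow n).congr_deriv ?_
    rcases n with _ | n
    · simp
    · simp only [Nat.add_sub_cancel, ← inv_pow]; push_cast; ring
  have h2 : HasFDerivAt (fun z : ℂ => conj z) (Complex.conjCLE : ℂ →L[ℝ] ℂ) w :=
    Complex.conjCLE.hasFDerivAt
  have h3 := (h1.hasFDerivAt.restrictScalars ℝ).comp w h2
  have hre := Complex.reCLM.hasFDerivAt (x := w)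
  have him := Complex.imCLM.hasFDerivAt (x := w)
  have h4 := (hre.mul hre).add (him.mul him)
  have h5 : HasFDerivAt (fun z : ℂ => Complex.normSq z) _ w :=
    h4.congr_of_eventuallyEq (Eventually.of_forall fun z => by simp [Complex.normSq_apply])
  have h6 := Complex.ofRealCLM.hasFDerivAt.comp w (h.comp_hasFDerivAt w h5)
  refine ⟨_, h3.mul h6, fun e => ?_⟩
  have e1 : e * conj w + w * conj e = ((2 * (w.re * e.re + w.im * e.im) : ℝ) : ℂ) := by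
    apply Complex.ext <;> simp <;> ring
  rw [e1]
  simp
  ring

def yl_Y (p : ℕ → ℝ → ℝ) : ℤ → ℂ → ℂ
  | Int.ofNat n => fun w => (-1) ^ n * conj (yl_F p n w)
  | Int.negSucc n => yl_F p (n + 1)

theorem yl_pos (p : ℕ → ℝ → ℝ) (n : ℕ) :
    yl_Y p n = fun w => (-1) ^ n * conj (yl_F p n w) := rfl

theorem yl_neg (p : ℕ → ℝ → ℝ) (n : ℕ) : yl_Y p (-n) = yl_F p n := by
  rcases n with _ | n
  · funext w
    have := congrFun (yl_pos p 0) w
    simp only [Nat.cast_zero, neg_zero] at this ⊢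
    rw [this]; simp [yl_F]
  · rfl

theorem yl_lad {p₀ p₁ : ℝ → ℝ} (h : ∀ x, 0 < x → HasDerivAt p₁ (p₀ x / 2) x ∧
    HasDerivAt p₀ (-(p₁ x) / (2 * x)) x) : Lad {0}ᶜ (yl_Y (yl_p p₀ p₁)) := by
  intro j w hw
  have hw : w ≠ 0 := hw
  have hc : conj w ≠ 0 := by simpa using hw
  have hx : 0 < Complex.normSq w := Complex.normSq_pos.2 hw
  have hd := yl_der hx (h _ hx).1 (h _ hx).2
  have hn : ((Complex.normSq w : ℝ) : ℂ) = w * conj w := (Complex.mul_conj w).symm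
  have key : ∀ n : ℕ, ∃ A : ℂ →L[ℝ] ℂ, HasFDerivAt (yl_F (yl_p p₀ p₁) (n + 1)) A w ∧
      ∀ e, A e = (e * yl_F (yl_p p₀ p₁) n w - conj e * yl_F (yl_p p₀ p₁) (n + 2) w) / 2 := by
    intro n
    obtain ⟨A, hA, hA'⟩ := yl_dF (yl_p p₀ p₁) (n + 1) hw (hd n).1
    refine ⟨A, hA, fun e => ?_⟩
    rw [hA', yl_F, yl_F, yl_rec]
    push_cast
    rw [hn]
    simp only [inv_pow]
    field_simp
    ring
  rcases lt_trichotomy j 0 with hj | rfl | hj
  · obtain ⟨n, rfl⟩ : ∃ n : ℕ, j = -((n + 1 : ℕ) : ℤ) := ⟨(-j - 1).toNat, by omega⟩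
    have e1 : -((n + 1 : ℕ) : ℤ) + 1 = -(n : ℤ) := by omega
    have e2 : -((n + 1 : ℕ) : ℤ) - 1 = -((n + 2 : ℕ) : ℤ) := by omega
    rw [e1, e2, yl_neg, yl_neg, yl_neg]
    exact key n
  · obtain ⟨A, hA, hA'⟩ := yl_dF (yl_p p₀ p₁) 0 hw (hd 0).2
    have e0 : (0 : ℤ) = -((0 : ℕ) : ℤ) := rfl
    have e1 : (0 : ℤ) + 1 = ((1 : ℕ) : ℤ) := rfl
    have e2 : (0 : ℤ) - 1 = -((1 : ℕ) : ℤ) := rfl
    rw [e1, e2, e0, yl_neg, yl_neg, yl_pos]
    refine ⟨A, hA, fun e => ?_⟩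
    rw [hA']
    simp only [yl_F, map_mul, map_pow, map_inv₀, Complex.conj_conj, Complex.conj_ofReal]
    push_cast
    rw [hn]
    field_simp
    ring
  · obtain ⟨n, rfl⟩ : ∃ n : ℕ, j = ((n + 1 : ℕ) : ℤ) := ⟨(j - 1).toNat, by omega⟩
    have e1 : ((n + 1 : ℕ) : ℤ) + 1 = ((n + 2 : ℕ) : ℤ) := by omega
    have e2 : ((n + 1 : ℕ) : ℤ) - 1 = (n : ℤ) := by omega
    rw [e1, e2, yl_pos, yl_pos, yl_pos]
    obtain ⟨A, hA, hA'⟩ := key n
    have h2 := (Complex.conjCLE.hasFDerivAt.comp w hA).const_mul ((-1 : ℂ) ^ (n + 1))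
    refine ⟨_, h2, fun e => ?_⟩
    simp [hA', map_ofNat]
    ring

theorem t_yl (hyp : S_YP) : S_YL := by
  obtain ⟨p₀, p₁, C, h⟩ := hyp
  refine ⟨yl_Y (yl_p p₀ p₁), yl_lad fun x hx => ⟨(h x hx).1, (h x hx).2.1⟩, fun n hn => ?_⟩
  obtain ⟨n, rfl⟩ : ∃ m, n = m + 1 := ⟨n - 1, by omega⟩
  obtain ⟨C₁, hC₁, h1⟩ := yl_big (fun x hx => (h x (by linarith)).2.2.2 hx) n
  obtain ⟨C₂, hC₂, h2⟩ := yl_small (fun x hx => (h x hx).2.2.1) n
  refine ⟨C₁ + C₂ + 2 ^ n * n.factorial, fun w hw => ?_⟩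
  have hc : conj w ≠ 0 := by simpa using hw
  have hx : 0 < Complex.normSq w := Complex.normSq_pos.2 hw
  have hw0 : 0 < ‖w‖ := norm_pos_iff.2 hw
  have hs : √(Complex.normSq w) = ‖w‖ := rfl
  have hq : Complex.normSq w = ‖w‖ ^ 2 := Complex.normSq_eq_norm_sq w
  have hk : (0 : ℝ) ≤ 2 ^ n * n.factorial := by positivity
  rw [yl_neg, yl_F]
  constructor
  · rw [norm_mul, norm_pow, norm_inv, Complex.norm_conj, Complex.norm_real, Real.norm_eq_abs,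
      inv_pow]
    have hi : 0 < (‖w‖ ^ (n + 1))⁻¹ := by positivity
    rcases le_total 1 ‖w‖ with hb | hb
    · have := (h1 _ (show 1 ≤ Complex.normSq w by rw [hq]; nlinarith)).2
      rw [hs] at this
      calc _ ≤ (‖w‖ ^ (n + 1))⁻¹ * (C₁ * ‖w‖ ^ (n + 1)) := by gcongr
        _ = C₁ := by field_simp
        _ ≤ _ := by nlinarith [mul_nonneg (add_nonneg (add_nonneg hC₁ hC₂) hk) hi.le]
    · have := (h2 _ hx (show Complex.normSq w ≤ 1 by rw [hq]; nlinarith)).2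
      rw [hs] at this
      have e0 := abs_sub_abs_le_abs_sub (yl_p p₀ p₁ (n + 1) (Complex.normSq w))
        (2 ^ n * n.factorial)
      rw [abs_of_nonneg hk] at e0
      have e1 : |yl_p p₀ p₁ (n + 1) (Complex.normSq w)| ≤ C₁ + C₂ + 2 ^ n * n.factorial := by
        nlinarith
      calc _ ≤ (‖w‖ ^ (n + 1))⁻¹ * (C₁ + C₂ + 2 ^ n * n.factorial) := by gcongr
        _ ≤ _ := by nlinarith
  · intro hb
    have := (h2 _ hx (show Complex.normSq w ≤ 1 by rw [hq]; nlinarith)).2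
    rw [hs] at this
    have e : (conj w)⁻¹ ^ (n + 1) * (yl_p p₀ p₁ (n + 1) (Complex.normSq w) : ℝ) *
        conj w ^ (n + 1) - 2 ^ (n + 1 - 1) * ((n + 1 - 1).factorial : ℂ) =
        ((yl_p p₀ p₁ (n + 1) (Complex.normSq w) - 2 ^ n * n.factorial : ℝ) : ℂ) := by
      simp only [Nat.add_sub_cancel, inv_pow]
      push_cast
      field_simp
    rw [e, Complex.norm_real, Real.norm_eq_abs]
    nlinarith [mul_nonneg hC₁ hw0.le, mul_nonneg hk hw0.le]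

end

end Pool.Agent.P.MP_6b977f_mp.EB
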