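import Pool.Agent.P.MP_6b977f_mp.EB.IfB

namespace Pool.Agent.P.MP_6b977f_mp.EB

open Real MeasureTheory Filter Topology Laplacian Set Metric
open scoped ContDiff BoundedContinuousFunction ComplexConjugate Pointwise ENNReal

noncomputable section

/-- Coefficients of an entire series. -/
def yp_Ent (c : ℕ → ℝ) : Prop := ∀ R : ℝ, 0 ≤ R → Summable fun k => |c k| * R ^ k

/-- The sum of the series. -/
def yp_S (c : ℕ → ℝ) (x : ℝ) : ℝ := ∑' k, c k * x ^ k

/-- The Euler operator on coefficients. -/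
def yp_N (c : ℕ → ℝ) (k : ℕ) : ℝ := k * c k

theorem yp_sum {c : ℕ → ℝ} (h : yp_Ent c) (x : ℝ) : Summable fun k => c k * x ^ k :=
  (h |x| (abs_nonneg x)).of_norm_bounded fun k => by simp

theorem yp_le {c d : ℕ → ℝ} (h : yp_Ent d) (K : ℝ) (hc : ∀ k, |c k| ≤ K * |d k|) : yp_Ent c :=
  fun R hR => ((h R hR).mul_left K).of_nonneg_of_le (fun k => by positivity) fun k => by
    rw [← mul_assoc]; exact mul_le_mul_of_nonneg_right (hc k) (by positivity)

theorem yp_entN {c : ℕ → ℝ} (h : yp_Ent c) : yp_Ent (yp_N c) := fun R hR =>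
  (h (2 * R) (by positivity)).of_nonneg_of_le (fun k => by positivity) fun k => by
    have h1 : (k : ℝ) ≤ 2 ^ k := by exact_mod_cast Nat.lt_two_pow_self.le
    rw [yp_N, abs_mul, Nat.abs_cast, mul_pow]
    have := mul_le_mul_of_nonneg_right h1 (by positivity : 0 ≤ |c k| * R ^ k)
    linarith

theorem yp_deriv {c : ℕ → ℝ} (h : yp_Ent c) {x : ℝ} (hx : 0 < x) :
    HasDerivAt (yp_S c) (yp_S (yp_N c) x / x) x := by
  have h1 := hasDerivAt_tsum_of_isPreconnected (t := Ioo 0 (x + 1))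
    (g := fun k y => c k * y ^ k) (g' := fun k y => c k * (k * y ^ (k - 1)))
    (yp_entN h (x + 1) (by linarith)) isOpen_Ioo isPreconnected_Ioo
    (fun k y _ => (hasDerivAt_pow k y).const_mul (c k)) (fun k y hy => ?_) (y₀ := x) (y := x)
    ⟨hx, by linarith⟩ (yp_sum h x) ⟨hx, by linarith⟩
  · refine HasDerivAt.congr_deriv h1 (Eq.symm ?_)
    rw [yp_S, ← tsum_div_const]
    refine tsum_congr fun k => ?_
    rcases k with _ | k
    · simp [yp_N]
    · simp only [yp_N, Nat.add_sub_cancel, pow_succ]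
      field_simp
  · have h2 : y ^ (k - 1) ≤ (x + 1) ^ k :=
      (pow_le_pow_left₀ hy.1.le hy.2.le _).trans (pow_le_pow_right₀ (by linarith) (by omega))
    have h3 := hy.1
    rw [Real.norm_eq_abs, yp_N, ← mul_assoc, mul_comm (c k), abs_mul,
      abs_of_nonneg (by positivity : 0 ≤ y ^ (k - 1))]
    exact mul_le_mul_of_nonneg_left h2 (abs_nonneg _)

theorem yp_shift {c d : ℕ → ℝ} (h : yp_Ent c) (h0 : c 0 = 0) (h1 : ∀ k, c (k + 1) = -d k / 4)
    (x : ℝ) : yp_S c x = -(x * yp_S d x) / 4 := by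
  rw [yp_S, (yp_sum h x).tsum_eq_zero_add, h0, yp_S, ← tsum_mul_left, ← tsum_neg, ← tsum_div_const,
    zero_mul, zero_add]
  exact tsum_congr fun k => by rw [h1]; ring

theorem yp_near {c : ℕ → ℝ} (h : yp_Ent c) :
    ∃ M : ℝ, 0 ≤ M ∧ ∀ x, 0 ≤ x → x ≤ 1 → |yp_S c x - c 0| ≤ M * x := by
  have h1 : Summable fun k => |c (k + 1)| := by
    have := (summable_nat_add_iff 1).2 (h 1 zero_le_one)
    simpa using this
  refine ⟨∑' k, |c (k + 1)|, tsum_nonneg fun k => abs_nonneg _, fun x h0 hx => ?_⟩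
  rw [yp_S, (yp_sum h x).tsum_eq_zero_add, pow_zero, mul_one, add_sub_cancel_left,
    ← Real.norm_eq_abs]
  refine tsum_of_norm_bounded (h1.hasSum.mul_right x) fun k => ?_
  rw [Real.norm_eq_abs, abs_mul, abs_of_nonneg (by positivity : 0 ≤ x ^ (k + 1)), pow_succ]
  exact mul_le_mul_of_nonneg_left (mul_le_of_le_one_left h0 (pow_le_one₀ h0 hx)) (abs_nonneg _)

/-- Coefficients of the regular solution. -/
def yp_a (k : ℕ) : ℝ := (-1 / 4) ^ k / (k.factorial : ℝ) ^ 2

/-- Harmonic numbers. -/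
def yp_H (k : ℕ) : ℝ := ∑ i ∈ Finset.range k, 1 / ((i : ℝ) + 1)

/-- Coefficients of the correction. -/
def yp_b (k : ℕ) : ℝ := -2 * yp_H k * yp_a k

theorem yp_enta : yp_Ent yp_a := fun R hR =>
  (Real.summable_pow_div_factorial R).of_nonneg_of_le (fun k => by positivity) fun k => by
    have h1 : (1 : ℝ) ≤ k.factorial := by exact_mod_cast k.factorial_pos
    have h2 : |yp_a k| ≤ 1 / k.factorial := by
      rw [yp_a, abs_div, abs_pow, abs_of_nonneg (by positivity : 0 ≤ (k.factorial : ℝ) ^ 2)]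
      refine div_le_div₀ zero_le_one (pow_le_one₀ (abs_nonneg _) ?_) (by linarith) (by nlinarith)
      rw [abs_le]; norm_num
    have := mul_le_mul_of_nonneg_right h2 (by positivity : 0 ≤ R ^ k)
    rwa [one_div_mul_eq_div] at this

theorem yp_entb : yp_Ent yp_b := yp_le (yp_entN yp_enta) 2 fun k => by
  have h0 : 0 ≤ yp_H k := Finset.sum_nonneg fun i _ => by positivity
  have h1 : yp_H k ≤ k := by
    have := Finset.sum_le_card_nsmul (Finset.range k) (fun i => 1 / ((i : ℝ) + 1)) 1 fun i _ =>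
      div_le_one_of_le₀ (by simp) (by positivity)
    simpa [yp_H] using this
  rw [yp_b, yp_N, abs_mul, abs_mul, abs_mul, Nat.abs_cast, abs_of_nonneg h0]
  have := mul_le_mul_of_nonneg_right h1 (abs_nonneg (yp_a k))
  norm_num
  linarith

theorem yp_a_succ (k : ℕ) : ((k : ℝ) + 1) ^ 2 * yp_a (k + 1) = -yp_a k / 4 := by
  have h1 : (k.factorial : ℝ) ≠ 0 := by exact_mod_cast k.factorial_ne_zero
  rw [yp_a, yp_a, Nat.factorial_succ, pow_succ (-1 / 4 : ℝ)]
  push_cast
  field_simp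

theorem yp_J2 (x : ℝ) : yp_S (yp_N (yp_N yp_a)) x = -(x * yp_S yp_a x) / 4 :=
  yp_shift (yp_entN (yp_entN yp_enta)) (by simp [yp_N]) (fun k => by
    rw [← yp_a_succ, yp_N, yp_N]; push_cast; ring) x

theorem yp_B2 (x : ℝ) : 2 * yp_S (yp_N yp_a) x + yp_S (yp_N (yp_N yp_b)) x =
    -(x * yp_S yp_b x) / 4 := by
  have h1 := yp_entN yp_enta
  have h2 := yp_entN (yp_entN yp_entb)
  have h3 : yp_Ent fun k => 2 * yp_N yp_a k + yp_N (yp_N yp_b) k := fun R hR =>
    (((h1 R hR).mul_left 2).add (h2 R hR)).of_nonneg_of_le (fun k => by positivity) fun k => by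
      have := abs_add_le (2 * yp_N yp_a k) (yp_N (yp_N yp_b) k)
      rw [abs_mul, abs_two] at this
      have := mul_le_mul_of_nonneg_right this (by positivity : 0 ≤ R ^ k)
      linarith
  rw [← yp_shift h3 (by simp [yp_N]) (d := yp_b) (fun k => ?_) x, yp_S, yp_S, yp_S,
    ← tsum_mul_left, ← ((yp_sum h1 x).mul_left 2).tsum_add (yp_sum h2 x)]
  · exact tsum_congr fun k => by ring
  · have h4 := yp_a_succ k
    have h5 : ((k : ℝ) + 1) ≠ 0 := by positivity
    have h6 : yp_a k = -4 * (((k : ℝ) + 1) ^ 2 * yp_a (k + 1)) := by rw [h4]; ring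
    simp only [yp_N, yp_b, yp_H, Finset.sum_range_succ]
    rw [h6]
    push_cast
    field_simp
    ring

/-- The singular solution. -/
def yp_p0 (x : ℝ) : ℝ := -(yp_S yp_a x * log x + yp_S yp_b x) / 2

/-- Its companion. -/
def yp_p1 (x : ℝ) : ℝ := yp_S yp_a x + yp_S (yp_N yp_a) x * log x + yp_S (yp_N yp_b) x

theorem yp_d0 {x : ℝ} (hx : 0 < x) : HasDerivAt yp_p0 (-(yp_p1 x) / (2 * x)) x := by
  have h := ((((yp_deriv yp_enta hx).mul (hasDerivAt_log hx.ne')).add
    (yp_deriv yp_entb hx)).neg).div_const 2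
  refine HasDerivAt.congr_deriv h (Eq.symm ?_)
  rw [yp_p1]
  field_simp
  ring

theorem yp_d1 {x : ℝ} (hx : 0 < x) : HasDerivAt yp_p1 (yp_p0 x / 2) x := by
  have h := ((yp_deriv yp_enta hx).add ((yp_deriv (yp_entN yp_enta) hx).mul
    (hasDerivAt_log hx.ne'))).add (yp_deriv (yp_entN yp_entb) hx)
  refine HasDerivAt.congr_deriv h (Eq.symm ?_)
  have h2 := yp_B2 x
  rw [yp_p0, yp_J2, eq_sub_of_add_eq' h2]
  field_simp
  ring

theorem yp_far {x : ℝ} (hx : 1 ≤ x) :
    yp_p0 x ^ 2 + yp_p1 x ^ 2 / x ≤ yp_p0 1 ^ 2 + yp_p1 1 ^ 2 / 1 := by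
  have hd : ∀ y : ℝ, 0 < y → HasDerivAt (fun y => yp_p0 y ^ 2 + yp_p1 y ^ 2 / y)
      (-(yp_p1 y ^ 2 / y ^ 2)) y := fun y hy => by
    have h := ((yp_d0 hy).pow 2).add (((yp_d1 hy).pow 2).div (hasDerivAt_id y) hy.ne')
    refine HasDerivAt.congr_deriv h (Eq.symm ?_)
    simp only [Pi.pow_apply, id, Nat.cast_ofNat, Nat.add_one_sub_one, pow_one]
    field_simp
    ring
  have := antitoneOn_of_deriv_nonpos (convex_Ioi (0 : ℝ))
    (f := fun y => yp_p0 y ^ 2 + yp_p1 y ^ 2 / y)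
    (fun y hy => (hd y hy).continuousAt.continuousWithinAt)
    (fun y hy => (hd y (interior_subset hy)).differentiableAt.differentiableWithinAt)
    (fun y hy => by rw [(hd y (interior_subset hy)).deriv]; exact neg_nonpos.2 (by positivity))
  exact this (mem_Ioi.2 one_pos) (mem_Ioi.2 (by linarith)) hx

theorem t_yp : S_YP := by
  obtain ⟨M1, n1, h1⟩ := yp_near yp_enta
  obtain ⟨M2, n2, h2⟩ := yp_near (yp_entN yp_enta)
  obtain ⟨M3, n3, h3⟩ := yp_near yp_entb
  obtain ⟨M4, n4, h4⟩ := yp_near (yp_entN yp_entb)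
  obtain ⟨E, hE⟩ : ∃ E, E = yp_p0 1 ^ 2 + yp_p1 1 ^ 2 / 1 := ⟨_, rfl⟩
  have E0 : 0 ≤ E := by rw [hE]; positivity
  refine ⟨yp_p0, yp_p1, 1 + M1 + 2 * M2 + M3 + M4 + E, fun x hx =>
    ⟨yp_d1 hx, yp_d0 hx, fun hx1 => ?_, fun hx1 => ?_⟩⟩
  · have y0 : 0 < √x := Real.sqrt_pos.2 hx
    have y1 : √x ≤ 1 := Real.sqrt_le_one.2 hx1
    have yy : √x * √x = x := Real.mul_self_sqrt hx.le
    have hl : |log x| * √x ≤ 2 := by
      have a1 := Real.abs_log_mul_self_lt _ y0 y1
      rw [Real.log_sqrt hx.le, abs_mul, abs_of_pos y0, abs_div, abs_two] at a1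
      linarith
    have a1 := h1 x hx.le hx1
    have a2 := h2 x hx.le hx1
    have a3 := h3 x hx.le hx1
    have a4 := h4 x hx.le hx1
    simp only [yp_a, yp_b, yp_N, yp_H, pow_zero, Nat.factorial_zero, Nat.cast_one, one_pow, div_one,
      Nat.cast_zero, zero_mul, sub_zero, Finset.range_zero, Finset.sum_empty, mul_zero]
      at a1 a2 a3 a4
    have xy : x ≤ √x := by nlinarith
    have l0 := abs_nonneg (log x)
    constructor
    · have b1 : |yp_S yp_a x| ≤ 1 + M1 := by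
        have := abs_add_le 1 (yp_S yp_a x - 1)
        rw [add_sub_cancel, abs_one] at this
        nlinarith
      have b2 := abs_add_le (yp_S yp_a x * log x) (yp_S yp_b x)
      rw [abs_mul] at b2
      have b3 := mul_le_mul b1 hl (by positivity) (by positivity)
      have b4 : |yp_S yp_b x| * √x ≤ M3 :=
        (mul_le_of_le_one_right (abs_nonneg _) y1).trans (by nlinarith)
      rw [yp_p0, abs_div, abs_neg, abs_two]
      nlinarith [mul_le_mul_of_nonneg_right b2 y0.le]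
    · have b1 := abs_add_three (yp_S yp_a x - 1) (yp_S (yp_N yp_a) x * log x)
        (yp_S (yp_N yp_b) x)
      rw [abs_mul] at b1
      have e : yp_p1 x - 1 = yp_S yp_a x - 1 + yp_S (yp_N yp_a) x * log x + yp_S (yp_N yp_b) x := by
        rw [yp_p1]; ring
      have b2 : |yp_S (yp_N yp_a) x| * |log x| ≤ 2 * M2 * √x := by
        have c1 := mul_le_mul_of_nonneg_right a2 l0
        have c2 := mul_le_mul_of_nonneg_left hl (mul_nonneg n2 y0.le)
        have c3 : M2 * √x * (|log x| * √x) = M2 * (√x * √x) * |log x| := by ring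
        rw [c3, yy] at c2
        linarith
      rw [e]
      nlinarith [mul_le_mul_of_nonneg_left xy n1, mul_le_mul_of_nonneg_left xy n4,
        mul_nonneg n3 y0.le, mul_nonneg E0 y0.le]
  · have a1 := yp_far hx1
    rw [← hE] at a1
    have a2 : 0 ≤ yp_p1 x ^ 2 / x := by positivity
    have y0 : 0 ≤ √x := Real.sqrt_nonneg x
    have b1 : |yp_p0 x| ≤ 1 + E := abs_le_of_sq_le_sq' (by nlinarith) (by linarith) |> abs_le.2
    have b2 : |yp_p1 x| ≤ (1 + E) * √x := by
      refine abs_le.2 (abs_le_of_sq_le_sq' ?_ (by positivity))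
      have c1 : yp_p1 x ^ 2 ≤ E * x := (div_le_iff₀ hx).1 (by nlinarith [sq_nonneg (yp_p0 x)])
      rw [mul_pow, Real.sq_sqrt hx.le]
      nlinarith [mul_nonneg (mul_nonneg E0 E0) hx.le, mul_nonneg E0 hx.le]
    refine ⟨by linarith, b2.trans (mul_le_mul_of_nonneg_right (by linarith) y0)⟩

end

end Pool.Agent.P.MP_6b977f_mp.EB
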