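import Pool.Agent.P.MP_6b977f_mp.EB.IfB

/-! Windows for the ideal wave away from the centre. -/

namespace Pool.Agent.P.MP_6b977f_mp.EB

open Real MeasureTheory Filter Topology Laplacian Set Metric
open scoped ContDiff BoundedContinuousFunction ComplexConjugate Pointwise ENNReal

theorem zi_pow {a b : ℂ} {K δ : ℝ} (ha : ‖a‖ ≤ K) (hb : ‖b‖ ≤ K) (h : ‖a - b‖ ≤ δ * K) (n : ℕ) :
    ‖a ^ n - b ^ n‖ ≤ n * δ * K ^ n := by
  induction n with
  | zero => simp
  | succ n ih =>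
    have := norm_add_le (a * (a ^ n - b ^ n)) ((a - b) * b ^ n)
    rw [norm_mul, norm_mul, norm_pow,
      show a * (a ^ n - b ^ n) + (a - b) * b ^ n = a ^ (n + 1) - b ^ (n + 1) by ring] at this
    have h1 := mul_le_mul ha ih (norm_nonneg _) ((norm_nonneg _).trans ha)
    have h2 := mul_le_mul h (pow_le_pow_left₀ (norm_nonneg _) hb n) (by positivity)
      ((norm_nonneg _).trans h)
    push_cast
    rw [pow_succ K]
    linarith

theorem zi_sc {x y ε : ℝ} (x0 : 0 ≤ x) (y0 : 0 ≤ y) (e0 : 0 ≤ ε) (e1 : ε ≤ 1) (h : x ≤ ε * y)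
    (k : ℕ) : x ^ (k + 1) ≤ ε * y ^ (k + 1) :=
  (pow_le_pow_left₀ x0 h _).trans <| by
    rw [mul_pow]
    exact mul_le_mul_of_nonneg_right (pow_le_of_le_one e0 e1 k.succ_ne_zero) (by positivity)

theorem t_zi (hdom : S_DOM) : S_ZI := by
  intro J B₀ c₀ η₂ c0 η0
  obtain ⟨C, C0, hd⟩ := hdom J
  obtain ⟨ε, ε0, ε1, ε2⟩ : ∃ ε : ℝ, 0 < ε ∧ ε ≤ 1 ∧ ε * (C * 4 ^ J * J.factorial) ≤ η₂ / 2 :=
    ⟨min 1 _, by positivity, min_le_left _ _, (le_div_iff₀ (by positivity)).1 (min_le_right _ _)⟩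
  obtain ⟨η, ηp, η1, η2⟩ : ∃ η : ℝ, 0 < η ∧ η ≤ 1 / 2 ∧ η * ((J + 1) * 2 ^ J) ≤ η₂ / 2 :=
    ⟨min (1 / 2) _, by positivity, min_le_left _ _,
      (le_div_iff₀ (by positivity)).1 (min_le_right _ _)⟩
  suffices h : ∀ᶠ μ : ℝ in atTop, _ from let ⟨μ₀, h⟩ := eventually_atTop.1 h
    ⟨η, (8 ^ J * J.factorial)⁻¹, μ₀, ηp, by positivity, h⟩
  filter_upwards [eventually_ge_atTop 1, (tendsto_id.const_mul_atTop ε0).eventually_ge_atTop 8,
    (tendsto_id.const_mul_atTop (mul_pos ε0 c0)).eventually_ge_atTop (2 * B₀)] with μ a1 a2 a3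
  intro I M p e r τ lad real bdd ⟨M1, MJ⟩ r0 r1 he ⟨d1, d2⟩ hre t1 t2
  obtain ⟨n, rfl⟩ : ∃ n, M = n + 1 := ⟨M - 1, by omega⟩
  simp only [id] at a2 a3 d1 d2
  have μ0 : 0 < μ := by linarith
  have m2 : μ ≤ μ ^ 2 := le_self_pow₀ a1 two_ne_zero
  have r2 : μ ^ 2 * r ≤ 1 := by
    rw [le_inv_comm₀ r0 (by positivity), ← one_div, le_div_iff₀ r0] at r1
    exact (mul_le_mul_of_nonneg_right (pow_le_pow_right₀ a1 (by norm_num)) r0.le).trans r1
  have f1 : (n.factorial : ℝ) ≤ J.factorial := by exact_mod_cast Nat.factorial_le (by omega)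
  have f0 : (0 : ℝ) < n.factorial := by positivity
  have pw : ∀ {a : ℝ}, 1 ≤ a → a ^ n ≤ a ^ J := fun h => pow_le_pow_right₀ h (by omega)
  have ha : e ^ (n + 1) * I (n + 1 : ℕ) p = Complex.I * (e ^ (n + 1) * I (n + 1 : ℕ) p).im :=
    Complex.ext (by simpa using hre (n + 1)) (by simp)
  have hb : |(e ^ (n + 1) * I (n + 1 : ℕ) p).im * (τ / 2) ^ n / n.factorial| =
      ‖I (n + 1 : ℕ) p‖ * (|τ| / 2) ^ n / n.factorial := by
    have := congrArg norm ha
    rw [norm_mul, norm_pow, he, one_pow, one_mul, norm_mul, Complex.norm_I, one_mul,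
      Complex.norm_real, Real.norm_eq_abs] at this
    rw [abs_div, abs_mul, abs_pow, abs_div, abs_two, abs_of_pos f0, this]
  have d0 := norm_nonneg (I (n + 1 : ℕ) p)
  refine ⟨(e ^ (n + 1) * I (n + 1 : ℕ) p).im * (τ / 2) ^ n / n.factorial, ?_, fun y hy => ?_⟩ <;>
    rw [hb]
  · have h1 : r ^ n ≤ 8 ^ J * (|τ| / 2) ^ n := by
      refine le_trans ?_ (mul_le_mul_of_nonneg_right (pw (by norm_num)) (by positivity))
      rw [← mul_pow]
      exact pow_le_pow_left₀ r0.le (by linarith) n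
    rw [inv_mul_le_iff₀ (by positivity), pow_succ]
    calc _ = ‖I (n + 1 : ℕ) p‖ * r * r ^ n * 1 := by ring
      _ ≤ ‖I (n + 1 : ℕ) p‖ * r * (8 ^ J * (|τ| / 2) ^ n) * (J.factorial / n.factorial) := by
        gcongr; exact (one_le_div f0).2 f1
      _ = _ := by ring
  obtain ⟨h, rfl⟩ : ∃ h, y = p + h := ⟨y - p, by ring⟩
  rw [mem_ball, dist_eq_norm, add_sub_add_left_eq_sub] at hy
  have n1 : ‖(τ : ℂ) * e‖ = |τ| := by simp [he]
  have h1 := abs_le.1 ((abs_norm_sub_norm_le h (τ * e)).trans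
    (hy.le.trans (mul_le_mul_of_nonneg_right η1 (abs_nonneg τ))))
  rw [n1] at h1
  have H0 : 0 < ‖h‖ := by linarith
  have h2 : ‖h‖ * μ ≤ 2 := by nlinarith [mul_le_mul_of_nonneg_right t2 μ0.le]
  have h3 : ‖h‖ ≤ ε * (μ ^ 2 * r) := by
    nlinarith [mul_le_mul_of_nonneg_right a2 (mul_pos μ0 r0).le]
  have h4 : r / μ ^ 2 ≤ ε * ‖h‖ := by
    rw [div_le_iff₀ (by positivity)]
    nlinarith [mul_le_mul_of_nonneg_right a2 H0.le,
      mul_le_mul_of_nonneg_left m2 (mul_pos ε0 H0).le]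
  have h5 : r / μ ^ 2 ≤ μ ^ 2 * r :=
    (div_le_self r0.le (by linarith)).trans (le_mul_of_one_le_left r0.le (by linarith))
  have key := (hd univ I (n + 1) p h ε ‖I (n + 1 : ℕ) p‖ lad real ⟨M1, MJ⟩ (subset_univ _)
    (h3.trans (mul_le_of_le_one_right ε0.le r2)) ε1 (by linarith) ?_ ?_).1
  · rw [pow_succ, ← mul_assoc, mul_le_mul_iff_left₀ H0, Nat.add_sub_cancel] at key
    have k2 := zi_pow (a := h / 2) (b := τ * e / 2) (K := |τ|) (δ := η)
      (by rw [norm_div, Complex.norm_two]; linarith)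
      (by rw [norm_div, n1, Complex.norm_two]; linarith)
      (by rw [← sub_div, norm_div, Complex.norm_two]; linarith [norm_nonneg (h - τ * e)]) n
    have k3 := norm_add_le (e * (I 1 (p + h) - I (n + 1 : ℕ) p * (h / 2) ^ n / n.factorial))
      (e * I (n + 1 : ℕ) p * ((h / 2) ^ n - (τ * e / 2) ^ n) / n.factorial)
    rw [norm_mul, norm_div, norm_mul, norm_mul, he, one_mul, one_mul, Complex.norm_natCast] at k3
    refine le_trans (le_of_eq (congrArg norm ?_)) (k3.trans ?_)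
    · push_cast at ha ⊢
      linear_combination ((τ : ℂ) / 2) ^ n / n.factorial * ha
    have k4 : ‖h‖ ^ n ≤ 4 ^ J * (|τ| / 2) ^ n := by
      refine le_trans ?_ (mul_le_mul_of_nonneg_right (pw (by norm_num)) (by positivity))
      rw [← mul_pow]
      exact pow_le_pow_left₀ H0.le (by linarith) n
    have k5 : |τ| ^ n ≤ 2 ^ J * (|τ| / 2) ^ n := by
      refine le_trans ?_ (mul_le_mul_of_nonneg_right (pw (by norm_num)) (by positivity))
      rw [← mul_pow, mul_div_cancel₀ _ two_ne_zero]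
    have k6 : (n : ℝ) ≤ J + 1 := by exact_mod_cast (by omega : n ≤ J + 1)
    calc _ ≤ C * ε * ‖I (n + 1 : ℕ) p‖ * (4 ^ J * (|τ| / 2) ^ n) * (J.factorial / n.factorial) +
          ‖I (n + 1 : ℕ) p‖ * ((J + 1) * η * (2 ^ J * (|τ| / 2) ^ n)) / n.factorial := by
          refine add_le_add (key.trans (le_trans ?_ (le_mul_of_one_le_right (by positivity)
            ((one_le_div f0).2 f1)))) ?_
          · gcongr
          · gcongr; exact k2.trans (by gcongr)
      _ = (ε * (C * 4 ^ J * J.factorial) + η * ((J + 1) * 2 ^ J)) *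
          (‖I (n + 1 : ℕ) p‖ * (|τ| / 2) ^ n / n.factorial) := by ring
      _ ≤ _ := by gcongr; linarith
  · intro j hj hjM
    rcases Nat.eq_zero_or_pos j with rfl | j0
    · have h6 := congrArg Complex.im (real 0 p)
      have h7 := hre 0
      simp only [neg_zero, zpow_zero, one_mul, Complex.conj_im, pow_zero, Nat.cast_zero] at h6 h7 ⊢
      rw [show I 0 p = 0 from Complex.ext h7 (by simp only [Complex.zero_im]; linarith), norm_zero,
        zero_mul]
      positivity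
    rcases lt_or_gt_of_ne hjM with h6 | h6
    · obtain ⟨k, hk⟩ := Nat.exists_eq_add_of_lt h6
      have h7 := d1 j ⟨j0, hj⟩ _ ⟨le_rfl, h5⟩
      rw [add_assoc] at hk
      generalize ‖I (n + 1 : ℕ) p‖ = d at *
      rw [hk, pow_add, mul_comm (_ ^ j), ← mul_assoc] at h7 ⊢
      refine mul_le_mul_of_nonneg_right ((le_of_mul_le_mul_right h7 (by positivity)).trans ?_)
        (by positivity)
      linarith [mul_le_mul_of_nonneg_left (zi_sc (by positivity) H0.le ε0.le ε1 h4 k) d0]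
    · obtain ⟨k, hk⟩ := Nat.exists_eq_add_of_lt h6
      have h7 := d1 j ⟨j0, hj⟩ _ ⟨h5, le_rfl⟩
      rw [add_assoc] at hk
      have h8 := norm_nonneg (I j p)
      generalize ‖I j p‖ = a at *
      rw [hk, pow_add, mul_comm (_ ^ (n + 1)), ← mul_assoc] at h7 ⊢
      refine mul_le_mul_of_nonneg_right ?_ (by positivity)
      linarith [mul_le_mul_of_nonneg_left (zi_sc H0.le (by positivity) ε0.le ε1 h3 k) h8,
        mul_le_mul_of_nonneg_left (le_of_mul_le_mul_right h7 (by positivity)) ε0.le]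
  · intro y _ j _
    obtain ⟨k, rfl⟩ := Nat.exists_eq_add_of_le MJ
    rw [pow_add, mul_comm (_ ^ (n + 1)), ← mul_assoc] at d2
    rw [add_assoc, pow_add, mul_comm (_ ^ (n + 1)), ← mul_assoc, pow_succ]
    refine mul_le_mul_of_nonneg_right ?_ (by positivity)
    have h6 : ‖I j y‖ * ‖h‖ ≤ ε * c₀ := by
      refine le_of_mul_le_mul_right ?_ μ0
      nlinarith [mul_le_mul (bdd j y) h2 (by positivity) ((norm_nonneg _).trans (bdd j y))]
    have h7 := pow_le_pow_left₀ H0.le (h3.trans (mul_le_of_le_one_left (by positivity) ε1)) k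
    linarith [mul_le_mul h6 h7 (by positivity) (by positivity),
      mul_le_mul_of_nonneg_left (le_of_mul_le_mul_right d2 (by positivity)) ε0.le]

end Pool.Agent.P.MP_6b977f_mp.EB
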