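import Pool.Agent.P.MP_6b977f_mp.EB.IfB

/-! Approximation of a polygon by a polygon with rational directions. -/

namespace Pool.Agent.P.MP_6b977f_mp.EB

open Real MeasureTheory Filter Topology Laplacian Set Metric
open scoped ContDiff BoundedContinuousFunction ComplexConjugate Pointwise ENNReal

lemma zig_re (t : ℝ) : (ex t).re = cos t := Complex.exp_ofReal_mul_I_re t

lemma zig_im (t : ℝ) : (ex t).im = sin t := Complex.exp_ofReal_mul_I_im t

lemma zig_norm (t : ℝ) : ‖ex t‖ = 1 := Complex.norm_exp_ofReal_mul_I t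

lemma zig_add (s t : ℝ) : ex (s + t) = ex s * ex t := by simp [ex, add_mul, Complex.exp_add]

lemma zig_dist (s t : ℝ) : ‖ex (s + t) - ex s‖ ≤ |t| := by
  rw [zig_add, ← mul_sub_one, norm_mul, zig_norm, one_mul, ex, mul_comm]
  exact Real.norm_exp_I_mul_ofReal_sub_one_le

lemma zig_cross_le (a b : ℂ) : |cross a b| ≤ ‖a‖ * ‖b‖ := by
  have : cross a b = (conj a * b).im := by simp [cross]; ring
  rw [this]
  exact (Complex.abs_im_le_norm _).trans (by simp)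

lemma zig_cross_sub (t : ℝ) (e e' : ℂ) : |cross (ex t) e' - cross (ex t) e| ≤ ‖e' - e‖ := by
  have : cross (ex t) e' - cross (ex t) e = cross (ex t) (e' - e) := by simp [cross]; ring
  rw [this]
  simpa [zig_norm] using zig_cross_le (ex t) (e' - e)

/-- Decomposition of a vector along two neighbouring rational directions. -/
lemma zig_dec {e : ℂ} (he : ‖e‖ = 1) {L δ : ℝ} (hL : 0 < L) {q : ℕ} (hq : 4 ≤ q)
    (hδ : 2 * π / q ≤ δ) : ∃ (e₁ e₂ : ℂ) (A B : ℝ), (∃ m : ℤ, e₁ = ex (π * m / q)) ∧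
      (∃ m : ℤ, e₂ = ex (π * m / q)) ∧ 0 < A ∧ 0 < B ∧ A ≤ L ∧ L * e = A * e₁ + B * e₂ ∧
      ‖e₁ - e‖ ≤ δ ∧ ‖e₂ - e‖ ≤ δ := by
  obtain ⟨α, rfl⟩ : ∃ α, e = ex α := ⟨e.arg, by
    simpa [he, ex] using (Complex.norm_mul_exp_arg_mul_I e).symm⟩
  have q0 : (4 : ℝ) ≤ q := by exact_mod_cast hq
  have p0 := pi_pos
  set w := π / q with hw
  have w0 : 0 < w := by positivity
  have w1 : w ≤ π / 4 := div_le_div_of_nonneg_left p0.le (by norm_num) q0
  have w2 : 2 * w ≤ δ := by rwa [hw, ← mul_div_assoc]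
  obtain ⟨m, h1, h2⟩ : ∃ m : ℤ, m * w < α ∧ α ≤ (m + 1) * w := by
    refine ⟨⌈α / w⌉ - 1, ?_, ?_⟩
    · rw [← lt_div_iff₀ w0]; push_cast; linarith [Int.ceil_lt_add_one (α / w)]
    · rw [← div_le_iff₀ w0]; push_cast; linarith [Int.le_ceil (α / w)]
  obtain ⟨x, hx⟩ : ∃ x, x = α - m * w := ⟨_, rfl⟩
  obtain ⟨y, hy⟩ : ∃ y, y = (m + 2) * w - α := ⟨_, rfl⟩
  have x0 : 0 < x := by linarith
  have y0 : 0 < y := by linarith
  have hxy : x + y = 2 * w := by linarith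
  have s0 : 0 < sin (x + y) := sin_pos_of_pos_of_lt_pi (by linarith) (by linarith)
  have sx : 0 < sin x := sin_pos_of_pos_of_lt_pi x0 (by linarith)
  have sy : 0 < sin y := sin_pos_of_pos_of_lt_pi y0 (by linarith)
  have sy' : sin y ≤ sin (x + y) :=
    sin_le_sin_of_le_of_le_pi_div_two (by linarith) (by linarith) (by linarith)
  refine ⟨ex (α + -x), ex (α + y), L * sin y / sin (x + y), L * sin x / sin (x + y),
    ⟨m, by congr 1; rw [mul_div_right_comm, ← hw]; linarith⟩,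
    ⟨m + 2, by congr 1; rw [mul_div_right_comm, ← hw]; push_cast; linarith⟩, by positivity,
    by positivity, ?_, ?_, (zig_dist _ _).trans ?_, (zig_dist _ _).trans ?_⟩
  · rw [div_le_iff₀ s0]; exact mul_le_mul_of_nonneg_left sy' hL.le
  · have h3 : ((sin (x + y) : ℝ) : ℂ) = (sin y : ℝ) * ex (-x) + (sin x : ℝ) * ex y := by
      apply Complex.ext <;> simp only [Complex.add_re, Complex.add_im, Complex.mul_re,
        Complex.mul_im, Complex.ofReal_re, Complex.ofReal_im, zig_re, zig_im, sin_add, cos_neg,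
        sin_neg] <;> ring
    have h4 : ((sin (x + y) : ℝ) : ℂ) ≠ 0 := by exact_mod_cast s0.ne'
    rw [zig_add, zig_add, Complex.ofReal_div, Complex.ofReal_div, Complex.ofReal_mul,
      Complex.ofReal_mul]
    generalize ((sin (x + y) : ℝ) : ℂ) = S at h3 h4
    field_simp
    rw [h3]
  · rw [abs_neg, abs_of_pos x0]; linarith
  · rw [abs_of_pos y0]; linarith

/-- The polar angle of the new vertex. -/
lemma zig_angle {V e₁ e₂ : ℂ} {A B a b r r' : ℝ} (hab : a < b) (hA : 0 < A) (hB : 0 < B)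
    (hr : 0 < r) (hV : V = r * ex a) (hV' : V + A * e₁ + B * e₂ = r' * ex b)
    (h1 : ∀ t ∈ Icc a b, 0 < cross (ex t) e₁) (h2 : 0 < cross (ex b) e₂) :
    ∃ ψ, a < ψ ∧ ψ < b ∧ V + A * e₁ ≠ 0 ∧ V + A * e₁ = ‖V + A * e₁‖ * ex ψ := by
  have ha : cross (ex a) (V + A * e₁) = A * cross (ex a) e₁ := by rw [hV]; simp [cross]; ring
  have hb : cross (ex b) (V + A * e₁) = -(B * cross (ex b) e₂) := by
    rw [eq_sub_of_add_eq hV']; simp [cross]; ring
  have hc : Continuous fun t => cross (ex t) (V + A * e₁) := by unfold cross ex; fun_prop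
  obtain ⟨ψ, hψ, h0⟩ := intermediate_value_Ioo' hab.le hc.continuousOn (a := a) (b := b)
    (show (0 : ℝ) ∈ Ioo _ _ from ⟨by rw [hb]; linarith [mul_pos hB h2],
      by rw [ha]; exact mul_pos hA (h1 a ⟨le_rfl, hab.le⟩)⟩)
  have h3 : cross (V + A * e₁) e₁ = r * cross (ex a) e₁ := by rw [hV]; simp [cross]; ring
  generalize V + A * e₁ = X at h0 h3
  obtain ⟨ρ, hρ⟩ : ∃ ρ : ℝ, X = ρ * ex ψ := by
    refine ⟨X.re * cos ψ + X.im * sin ψ, ?_⟩
    simp only [cross, zig_re, zig_im] at h0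
    apply Complex.ext <;> simp only [Complex.mul_re, Complex.mul_im, Complex.ofReal_re,
      Complex.ofReal_im, zig_re, zig_im]
    · linear_combination (-sin ψ) * h0 - X.re * sin_sq_add_cos_sq ψ
    · linear_combination (cos ψ) * h0 - X.im * sin_sq_add_cos_sq ψ
  have h4 : cross X e₁ = ρ * cross (ex ψ) e₁ := by rw [hρ]; simp [cross]; ring
  have h5 : 0 < ρ := by
    refine (mul_pos_iff_of_pos_right (h1 ψ ⟨hψ.1.le, hψ.2.le⟩)).1 ?_
    rw [← h4, h3]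
    exact mul_pos hr (h1 a ⟨le_rfl, hab.le⟩)
  have h6 : ‖X‖ = ρ := by rw [hρ, norm_mul, zig_norm, mul_one, Complex.norm_of_nonneg h5.le]
  exact ⟨ψ, hψ.1, hψ.2, by rw [← norm_ne_zero_iff, h6]; exact h5.ne', by rw [h6]; exact hρ⟩

/-- The slopes of two sides with close directions are close. -/
lemma zig_slope {e e' : ℂ} {t c δ : ℝ} (hc : 0 < c) (he : ‖e‖ = 1) (h : ‖e' - e‖ ≤ δ)
    (h1 : c ≤ cross (ex t) e) (h2 : c / 2 ≤ cross (ex t) e') :
    |(conj e' * ex t).re / cross (ex t) e' - (conj e * ex t).re / cross (ex t) e| ≤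
      4 * δ / c ^ 2 := by
  have a1 : |(conj e' * ex t).re - (conj e * ex t).re| ≤ δ := by
    rw [← Complex.sub_re, ← sub_mul, ← map_sub]
    exact (Complex.abs_re_le_norm _).trans (by simpa [zig_norm, -map_sub] using h)
  have a2 : |(conj e * ex t).re| ≤ 1 := (Complex.abs_re_le_norm _).trans (by simp [zig_norm, he])
  have a3 := (zig_cross_sub t e e').trans h
  have a4 : |cross (ex t) e| ≤ 1 := by simpa [zig_norm, he] using zig_cross_le (ex t) e
  generalize (conj e' * ex t).re = n' at *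
  generalize (conj e * ex t).re = n at *
  generalize cross (ex t) e' = d' at *
  generalize cross (ex t) e = d at *
  have d0 : 0 < d := by linarith
  have d1 : 0 < d' := by linarith
  have δ0 : 0 ≤ δ := (abs_nonneg _).trans a1
  have a5 : |n' * d - d' * n| ≤ 2 * δ := by
    have : n' * d - d' * n = (n' - n) * d - (d' - d) * n := by ring
    rw [this]
    refine (abs_sub _ _).trans ?_
    rw [abs_mul, abs_mul]
    linarith [mul_le_mul a1 a4 (abs_nonneg _) δ0, mul_le_mul a3 a2 (abs_nonneg _) δ0]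
  rw [div_sub_div _ _ d1.ne' d0.ne', abs_div, abs_of_pos (mul_pos d1 d0),
    div_le_div_iff₀ (mul_pos d1 d0) (by positivity)]
  have a6 : c / 2 * c ≤ d' * d := mul_le_mul h2 h1 hc.le d1.le
  nlinarith [mul_le_mul_of_nonneg_right a5 (sq_nonneg c), mul_le_mul_of_nonneg_left a6 δ0]

/-- Interleaving of two sequences. -/
def zigI {β : Type} (f g : ℕ → β) (n : ℕ) : β := if n % 2 = 0 then f (n / 2) else g (n / 2 + 1)

lemma zig_i0 {β : Type} (f g : ℕ → β) (k : ℕ) : zigI f g (2 * k) = f k := by simp [zigI]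

lemma zig_i1 {β : Type} (f g : ℕ → β) (k : ℕ) : zigI f g (2 * k + 1) = g (k + 1) := by
  rw [zigI, if_neg (by omega), show (2 * k + 1) / 2 = k by omega]

lemma zig_i2 {β : Type} (f g : ℕ → β) (k : ℕ) : zigI f g (2 * k + 1 + 1) = f (k + 1) :=
  zig_i0 f g (k + 1)

/-- The data attached to one side. -/
lemma zig_side {P : Poly} {c δ : ℝ} (hP : P.Ok c) (hB : P.Bot) {q : ℕ} (hq : 4 ≤ q)
    (hδ : 2 * π / q ≤ δ) (hc : δ ≤ c / 2) {s : ℕ} (hs : s < P.S)
    (hg : 1 ≤ s → ((P.e s).im ≠ 0 → δ < |(P.e s).im|) ∧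
      ((P.V 0).im < (P.V s).im → P.L s * δ < (P.V s).im - (P.V 0).im)) :
    ∃ (X e₁ e₂ : ℂ) (A B ψ : ℝ), (X + B * e₂ = P.V (s + 1) ∧ P.φ s ≤ ψ ∧ ψ < P.φ (s + 1) ∧
      X ≠ 0 ∧ X = ‖X‖ * ex ψ ∧ 0 < B ∧ ‖e₂ - P.e s‖ ≤ δ ∧ ∃ m : ℤ, e₂ = ex (π * m / q)) ∧
      (1 ≤ s → X = P.V s + A * e₁ ∧ P.φ s < ψ ∧ 0 < A ∧ ‖e₁ - P.e s‖ ≤ δ ∧
        (∃ m : ℤ, e₁ = ex (π * m / q)) ∧ (P.V 0).im < X.im) ∧
      (s = 0 → X = P.V 0 ∧ ψ = P.φ 0 ∧ e₂ = 1) := by
  have δ0 : 0 ≤ δ := le_trans (by positivity) hδ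
  rcases Nat.eq_zero_or_pos s with rfl | h1
  · exact ⟨P.V 0, 0, P.e 0, 0, P.L 0, P.φ 0, ⟨(hP.step 0 hs).symm, le_rfl, hP.mono 0 hs,
      (hP.pol 0 hs.le).1, (hP.pol 0 hs.le).2, hP.len 0 hs, by simpa using δ0,
      0, by simp [hB.1, ex]⟩, fun h => absurd h (by norm_num), fun _ => ⟨rfl, rfl, hB.1⟩⟩
  obtain ⟨e₁, e₂, A, B, m1, m2, hA, hB', hAL, hd, n1, n2⟩ :=
    zig_dec (hP.unit s hs) (hP.len s hs) hq hδ
  have hst : P.V s + A * e₁ + B * e₂ = P.V (s + 1) := by rw [hP.step s hs, hd, add_assoc]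
  have htr : ∀ e' : ℂ, ‖e' - P.e s‖ ≤ δ → ∀ t ∈ P.sec s, 0 < cross (ex t) e' := fun e' h t ht => by
    linarith [hP.tr s hs t ht, (abs_le.1 ((zig_cross_sub t (P.e s) e').trans h)).1, hP.c_pos]
  obtain ⟨ψ, p1, p2, p3, p4⟩ := zig_angle (hP.mono s hs) hA hB'
    (norm_pos_iff.2 (hP.pol s hs.le).1) (hP.pol s hs.le).2 (hst.trans (hP.pol (s + 1) hs).2)
    (htr e₁ n1) (htr e₂ n2 _ ⟨(hP.mono s hs).le, le_rfl⟩)
  refine ⟨_, e₁, e₂, A, B, ψ, ⟨hst, p1.le, p2, p3, p4, hB', n2, m2⟩,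
    fun _ => ⟨rfl, p1, hA, n1, m1, ?_⟩, fun h => absurd h h1.ne'⟩
  obtain ⟨g1, g2⟩ := hg h1
  have h0 : ∀ j, 1 ≤ j → j ≤ P.S → (P.V 0).im ≤ (P.V j).im := fun j j1 j2 => by
    rcases j1.eq_or_lt with rfl | j1
    · rw [hP.step 0 (by omega), hB.1]; simp
    · rcases j2.eq_or_lt with rfl | j2
      · rw [hP.close]
      · exact (hB.2 j j1 j2).le
  have i1 := abs_le.1 ((Complex.abs_im_le_norm (e₁ - P.e s)).trans n1)
  have i2 := abs_le.1 ((Complex.abs_im_le_norm (e₂ - P.e s)).trans n2)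
  rw [Complex.sub_im] at i1 i2
  have i3 : (P.V s + A * e₁).im = (P.V s).im + A * e₁.im := by simp
  have i4 : (P.V s + A * e₁).im = (P.V (s + 1)).im - B * e₂.im := by rw [← hst]; simp
  rcases lt_trichotomy (P.e s).im 0 with h | h | h
  · have := g1 h.ne
    rw [abs_of_neg h] at this
    nlinarith [h0 (s + 1) (by omega) hs]
  · have i5 : (P.V 0).im < (P.V s).im := by
      rcases (show 1 ≤ s from h1).eq_or_lt with rfl | h2
      · have := hB.2 2 le_rfl hP.three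
        rw [hP.step 1 hs] at this
        simpa [h] using this
      · exact hB.2 s h2 hs
    nlinarith [g2 i5]
  · have := g1 h.ne'
    rw [abs_of_pos h] at this
    nlinarith [h0 s h1 hs.le]

theorem t_zig (hpol0 : S_POL0) (hglue : S_GLUE) (hlipz : S_LIPZ) : S_ZIG := by
  intro P ρ c η hP hρ hB hη
  have c0 := hP.c_pos
  obtain ⟨δ, ⟨d1, d2, d3⟩, δ0⟩ : ∃ δ, (δ < c / 2 ∧ 4 * δ / c ^ 2 * 7 < η ∧
      ∀ s ∈ Finset.range P.S, ((P.e s).im ≠ 0 → δ < |(P.e s).im|) ∧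
      ((P.V 0).im < (P.V s).im → P.L s * δ < (P.V s).im - (P.V 0).im)) ∧ δ ∈ Ioi (0 : ℝ) := by
    refine Eventually.exists (f := 𝓝[>] 0) (Eventually.and (nhdsWithin_le_nhds ?_)
      self_mem_nhdsWithin)
    refine (gt_mem_nhds (half_pos c0)).and (Eventually.and ?_ ((eventually_all_finset _).2
      fun s _ => Eventually.and ?_ ?_))
    · exact ContinuousAt.eventually_lt (by fun_prop) continuousAt_const (by simpa using hη)
    · by_cases h : (P.e s).im = 0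
      · simp [h]
      · exact (gt_mem_nhds (abs_pos.2 h)).mono fun _ h _ => h
    · by_cases h : (P.V 0).im < (P.V s).im
      · exact (ContinuousAt.eventually_lt (f := fun δ => P.L s * δ) (by fun_prop)
          continuousAt_const (by simpa using h)).mono fun _ h _ => h
      · simp [h]
  refine ⟨max 4 ⌈2 * π / δ⌉₊, fun q hq => ?_⟩
  have q4 : 4 ≤ q := (le_max_left _ _).trans hq
  have hδ : 2 * π / q ≤ δ := by
    have h1 := Nat.ceil_le.1 ((le_max_right _ _).trans hq)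
    rw [div_le_iff₀ δ0] at h1
    rw [div_le_iff₀ (by positivity), mul_comm δ]
    exact h1
  choose! X e₁ e₂ A B ψ h2 h1 h0 using fun s (hs : s < P.S) =>
    zig_side hP hB q4 hδ d1.le hs fun _ => d3 s (Finset.mem_range.2 hs)
  obtain ⟨n, hn⟩ : ∃ n, P.S = n + 1 := ⟨P.S - 1, by have := hP.three; omega⟩
  have n2 : 2 ≤ n := by have := hP.three; omega
  obtain ⟨z1, z2, z3⟩ := h0 0 (by omega) rfl
  let Q : Poly := ⟨2 * n + 1, zigI ψ P.φ, zigI X P.V, zigI e₂ e₁, zigI B A⟩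
  have key : ∀ s' < Q.S, ∃ s < P.S, Q.sec s' ⊆ P.sec s ∧ ‖Q.e s' - P.e s‖ ≤ δ ∧
      (∃ m : ℤ, Q.e s' = ex (π * m / q)) ∧ Q.φ s' < Q.φ (s' + 1) ∧ 0 < Q.L s' ∧
      Q.V (s' + 1) = Q.V s' + Q.L s' * Q.e s' ∧ (Q.φ s' = P.φ s ∧ Q.V s' = P.V s ∨
        Q.φ (s' + 1) = P.φ (s + 1) ∧ Q.V (s' + 1) = P.V (s + 1)) := by
    intro s' hs'
    change s' < 2 * n + 1 at hs'
    obtain ⟨k, rfl | rfl⟩ := Nat.even_or_odd' s'
    · obtain ⟨a1, a2, a3, -, -, a6, a7, a8⟩ := h2 k (by omega)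
      refine ⟨k, by omega, ?_⟩
      simp only [Q, Poly.sec, zig_i0, zig_i1]
      exact ⟨Icc_subset_Icc a2 le_rfl, a7, a8, a3, a6, a1.symm, Or.inr ⟨trivial, trivial⟩⟩
    · obtain ⟨a1, a2, a3, a4, a5, -⟩ := h1 (k + 1) (by omega) (by omega)
      refine ⟨k + 1, by omega, ?_⟩
      simp only [Q, Poly.sec, zig_i1, zig_i2]
      exact ⟨Icc_subset_Icc le_rfl (h2 (k + 1) (by omega)).2.2.1.le, a4, a5, a2, a3, a1,
        Or.inl ⟨trivial, trivial⟩⟩
  have e0 : ∀ {β : Type} (f g : ℕ → β), zigI f g 0 = f 0 := fun f g => zig_i0 f g 0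
  have hQ : Q.Ok (c / 2) := by
    refine ⟨half_pos c0, by change 3 ≤ 2 * n + 1; omega, fun s hs => ?_, ?_, ?_, fun s hs => ?_,
      fun s hs => ?_, fun s hs => ?_, fun s hs => ?_, fun s hs t ht => ?_⟩
    · obtain ⟨_, -, -, -, -, h, -⟩ := key s hs; exact h
    · simp only [Q, zig_i1, e0, ← hn, z2, hP.per]
    · simp only [Q, zig_i1, e0, ← hn, z1, hP.close]
    · obtain ⟨_, -, -, -, ⟨m, h⟩, -⟩ := key s hs; rw [h, zig_norm]
    · obtain ⟨_, -, -, -, -, -, h, -⟩ := key s hs; exact h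
    · obtain ⟨_, -, -, -, -, -, -, h, -⟩ := key s hs; exact h
    · change s ≤ 2 * n + 1 at hs
      obtain ⟨k, rfl | rfl⟩ := Nat.even_or_odd' s
      · simp only [Q, zig_i0]
        exact ⟨(h2 k (by omega)).2.2.2.1, (h2 k (by omega)).2.2.2.2.1⟩
      · simp only [Q, zig_i1]
        exact hP.pol (k + 1) (by omega)
    · obtain ⟨s₀, a1, a2, a3, -⟩ := key s hs
      linarith [hP.tr s₀ a1 t (a2 ht), (abs_le.1 ((zig_cross_sub t (P.e s₀) (Q.e s)).trans a3)).1]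
  obtain ⟨ρ', hρ'⟩ := (hpol0 Q _ hQ).2.1
  have hmono : ∀ i j, i ≤ j → j ≤ P.S → P.φ i ≤ P.φ j := fun i j hij => by
    induction j, hij using Nat.le_induction with
    | base => exact fun _ => le_rfl
    | succ j _ ih => exact fun h => (ih (by omega)).trans (hP.mono j h).le
  refine ⟨Q, ρ', hQ, hρ', (hglue Q _ hQ).2.2 ρ' ρ η hρ'.1.2 hρ.1.2 fun s hs => ?_,
    ⟨by simp only [Q, e0, z3], fun s s2 hs => ?_⟩, fun s hs => ?_⟩
  · obtain ⟨s₀, a1, a2, a3, -, a4, -, -, a5⟩ := key s hs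
    obtain ⟨-, b1, b2, b3, -⟩ := (hpol0 Q _ hQ).1 s hs
    obtain ⟨-, c1, c2, c3, -⟩ := (hpol0 P _ hP).1 s₀ a1
    have hd : ∀ t ∈ Q.sec s, HasDerivAt (fun t => Real.log (Q.rad s t) - Real.log (P.rad s₀ t))
        (Q.slope s t - P.slope s₀ t) t := fun t ht => (b3 t ht).2.2.sub (c3 t (a2 ht)).2.2
    have hl := hlipz.1 _ (Q.φ s) (Q.φ (s + 1)) (4 * δ / c ^ 2) ∅ finite_empty
      (fun t ht => (hd t ht).continuousAt.continuousWithinAt) fun t ht _ =>
        ⟨_, hd t (Ioo_subset_Icc_self ht), zig_slope c0 (hP.unit s₀ a1) a3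
          (hP.tr s₀ a1 t (a2 (Ioo_subset_Icc_self ht))) (hQ.tr s hs t (Ioo_subset_Icc_self ht))⟩
    have he : ∀ t ∈ Q.sec s, ρ' t - ρ t = Real.log (Q.rad s t) - Real.log (P.rad s₀ t) :=
      fun t ht => by rw [hρ'.2 s hs t ht, hρ.2 s₀ a1 t (a2 ht)]
    have η0 : 0 ≤ 4 * δ / c ^ 2 := by have : (0 : ℝ) < δ := δ0; positivity
    obtain ⟨t₀, ht₀, hz⟩ : ∃ t₀ ∈ Q.sec s,
        Real.log (Q.rad s t₀) - Real.log (P.rad s₀ t₀) = 0 := by
      rcases a5 with ⟨a5, a6⟩ | ⟨a5, a6⟩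
      · exact ⟨_, ⟨le_rfl, a4.le⟩, by rw [b1, a5, c1, a6, sub_self]⟩
      · exact ⟨_, ⟨a4.le, le_rfl⟩, by rw [b2, a5, c2, a6, sub_self]⟩
    refine fun t ht => ⟨?_, fun t' ht' => ?_⟩
    · have f1 := hl t ht t₀ ht₀
      have f2 : |t - t₀| ≤ 7 := by
        have g1 := hmono 0 s₀ (by omega) a1.le
        have g2 := hmono (s₀ + 1) P.S a1 le_rfl
        rw [abs_le]
        constructor <;> linarith [(a2 ht).1, (a2 ht).2, (a2 ht₀).1, (a2 ht₀).2, hP.per, pi_lt_d2]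
      simp only [hz, sub_zero] at f1
      rw [he t ht]
      linarith [mul_le_mul_of_nonneg_left f2 η0]
    · rw [he t ht, he t' ht']
      exact (hl t ht t' ht').trans (mul_le_mul_of_nonneg_right (by linarith) (abs_nonneg _))
  · change s < 2 * n + 1 at hs
    obtain ⟨k, rfl | rfl⟩ := Nat.even_or_odd' s
    · simp only [Q, zig_i0, e0, z1]
      exact (h1 k (by omega) (by omega)).2.2.2.2.2
    · simp only [Q, zig_i1, e0, z1]
      exact hB.2 (k + 1) (by omega) (by omega)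
  · obtain ⟨_, -, -, -, h, -⟩ := key s hs; exact h

end Pool.Agent.P.MP_6b977f_mp.EB
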