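import Pool.Agent.P.MP_6b977f_mp.EB.IfB

/-! Windows close to a centre. -/

namespace Pool.Agent.P.MP_6b977f_mp.EB

open Real MeasureTheory Filter Topology Laplacian Set Metric
open scoped ContDiff BoundedContinuousFunction ComplexConjugate Pointwise ENNReal

noncomputable section

theorem zu_pow (a b : ℂ) (η : ℝ) (h : ‖a - b‖ ≤ η * ‖b‖) (h1 : η ≤ 1) (m : ℕ) :
    ‖a ^ m - b ^ m‖ ≤ (2 ^ m - 1) * η * ‖b‖ ^ m := by
  induction m with
  | zero => simp
  | succ m ih =>
    have e : a ^ (m + 1) - b ^ (m + 1) = a * (a ^ m - b ^ m) + (a - b) * b ^ m := by ring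
    have hb := norm_nonneg b
    have h2 : ‖a‖ ≤ 2 * ‖b‖ := by
      have := norm_add_le (a - b) b
      rw [sub_add_cancel] at this
      nlinarith
    have h3 := norm_add_le (a * (a ^ m - b ^ m)) ((a - b) * b ^ m)
    rw [norm_mul, norm_mul, norm_pow] at h3
    have h4 := mul_le_mul h2 ih (norm_nonneg _) (by positivity)
    have h5 := mul_le_mul_of_nonneg_right h (pow_nonneg hb m)
    rw [e, pow_succ, pow_succ]
    linarith

/-- The terms above the dominant index. -/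
theorem zu_mid {a a' d ε r μ x : ℝ} {j M : ℕ} (hj : M < j) (hε : 0 ≤ ε) (hr : 0 < r)
    (hμ : 1 ≤ μ) (hεμ : 1 ≤ ε * μ) (hx : 0 ≤ x) (hxr : x ≤ r) (ha : 0 ≤ a) (ha' : 0 ≤ a')
    (h1 : a * (μ ^ 2 * r) ^ j ≤ d * (μ ^ 2 * r) ^ M) (h2 : a' * r ^ j ≤ ε * (d * r ^ M)) :
    (a + a') * x ^ j ≤ 2 * ε * d * x ^ M := by
  obtain ⟨k, rfl⟩ := Nat.exists_eq_add_of_lt hj
  have e : ∀ t : ℝ, t ^ (M + k + 1) = t ^ (k + 1) * t ^ M := fun t => by ring
  rw [e] at h1 h2 ⊢
  have b1 : a * (μ ^ 2 * r) ^ (k + 1) ≤ d :=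
    le_of_mul_le_mul_right (by linarith) (show 0 < (μ ^ 2 * r) ^ M by positivity)
  have b2 : a' * r ^ (k + 1) ≤ ε * d :=
    le_of_mul_le_mul_right (by linarith) (show 0 < r ^ M by positivity)
  have b3 : x ^ (k + 1) ≤ r ^ (k + 1) := pow_le_pow_left₀ hx hxr _
  have b4 : μ ≤ (μ ^ 2) ^ (k + 1) := by
    rw [← pow_mul]
    exact le_self_pow₀ hμ (by omega)
  have b5 : r ^ (k + 1) ≤ ε * (μ ^ 2 * r) ^ (k + 1) := by
    rw [mul_pow, ← mul_assoc]
    exact le_mul_of_one_le_left (by positivity) (by nlinarith)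
  have b6 : a * x ^ (k + 1) ≤ ε * d := by
    have := mul_le_mul_of_nonneg_left (b3.trans b5) ha
    have := mul_le_mul_of_nonneg_left b1 hε
    linarith
  have b7 := mul_le_mul_of_nonneg_left b3 ha'
  have b8 : (a + a') * x ^ (k + 1) ≤ 2 * ε * d := by linarith
  have := mul_le_mul_of_nonneg_right b8 (pow_nonneg hx M)
  linarith

/-- The remainder. -/
theorem zu_rem {B c₀ a' d ε r μ x : ℝ} {l M J : ℕ} (hM : M ≤ J) (hl : l ≤ J + 1) (hB : 0 ≤ B)
    (hc : 0 < c₀) (hε : 0 ≤ ε) (hr : 0 < r) (hr1 : r ≤ 1)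
    (hμ : 1 ≤ μ) (hεμ : B * r ≤ ε * c₀) (hx : 0 ≤ x) (hxr : x ≤ r) (ha' : 0 ≤ a')
    (h1 : c₀ * (μ ^ 2 * r) ^ J ≤ d * (μ ^ 2 * r) ^ M) (h2 : a' * r ^ l ≤ ε * (d * r ^ M)) :
    (B + a') * x ^ (J + 1) ≤ 2 * ε * d * x ^ M := by
  obtain ⟨k, rfl⟩ := Nat.exists_eq_add_of_le hM
  have e : ∀ t : ℝ, t ^ (M + k + 1) = t ^ (k + 1) * t ^ M := fun t => by ring
  have b0 := mul_le_mul_of_nonneg_left (pow_le_pow_of_le_one hr.le hr1 hl) ha'
  rw [e] at b0 ⊢
  rw [pow_add] at h1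
  have b1 : c₀ * (μ ^ 2 * r) ^ k ≤ d :=
    le_of_mul_le_mul_right (by linarith) (show 0 < (μ ^ 2 * r) ^ M by positivity)
  have b2 : a' * r ^ (k + 1) ≤ ε * d :=
    le_of_mul_le_mul_right (by linarith) (show 0 < r ^ M by positivity)
  have b3 : x ^ (k + 1) ≤ r ^ (k + 1) := pow_le_pow_left₀ hx hxr _
  have b4 : r ^ k ≤ (μ ^ 2 * r) ^ k :=
    pow_le_pow_left₀ hr.le (le_mul_of_one_le_left hr.le (one_le_pow₀ hμ)) _
  have b6 : B * x ^ (k + 1) ≤ ε * d := by
    have a1 := mul_le_mul_of_nonneg_left b3 hB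
    have a2 := mul_le_mul hεμ b4 (by positivity) (by positivity)
    have a3 := mul_le_mul_of_nonneg_left b1 hε
    rw [pow_succ r] at a1
    linarith
  have b7 := mul_le_mul_of_nonneg_left b3 ha'
  have b8 : (B + a') * x ^ (k + 1) ≤ 2 * ε * d := by linarith
  have := mul_le_mul_of_nonneg_right b8 (pow_nonneg hx M)
  linarith

theorem t_zu (hdom : S_DOM) : S_ZU := by
  intro J B₀ c₀ η₂ c₁ hc₀ hη₂ hc₁
  obtain ⟨C, hC, hdom⟩ := hdom J
  obtain ⟨G, hG⟩ : ∃ G : ℝ, G = 4 ^ J * J.factorial := ⟨_, rfl⟩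
  have hG0 : 0 < G := by rw [hG]; positivity
  refine ⟨min (1 / 2) (η₂ / (2 * G)), by positivity, fun η₁ hη₁ hη => ?_⟩
  have g1 : η₁ ≤ 1 / 2 := hη.trans (min_le_left _ _)
  have g2 : η₁ * (2 * G) ≤ η₂ := (le_div_iff₀ (by positivity)).1 (hη.trans (min_le_right _ _))
  obtain ⟨ε, hε, g3, g4, g5⟩ : ∃ ε : ℝ, 0 < ε ∧ ε ≤ 1 / 2 ∧ ε * ((2 * C + 2) * G) ≤ η₂ / 2 ∧
      ε * ((2 * C + 2) * G) ≤ c₁ * η₁ / 4 := by
    refine ⟨min (1 / 2) (min (η₂ / 2) (c₁ * η₁ / 4) / ((2 * C + 2) * G)), by positivity,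
      min_le_left _ _, ?_⟩
    exact le_min_iff.1 ((le_div_iff₀ (by positivity)).1 (min_le_right _ _))
  refine ⟨ε, 1 + 1 / ε + |B₀| / (ε * c₀), hε, ?_⟩
  intro μ hμ I u O M p e r τ hB hM hr hrμ he hD hre hτ hτr hL hR hj hnear
  have hB0 : 0 ≤ B₀ := (norm_nonneg _).trans (hB 0 0)
  rw [abs_of_nonneg hB0] at hμ
  have p1 : 0 < 1 / ε := by positivity
  have p2 : 0 ≤ B₀ / (ε * c₀) := by positivity
  have hμ1 : 1 ≤ μ := by linarith
  have hεμ : 1 ≤ ε * μ := by
    have := (div_le_iff₀ hε).1 (show 1 / ε ≤ μ by linarith)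
    linarith
  have hrμ1 : r * μ ≤ 1 := by
    have h1 : μ ≤ μ ^ 6 := le_self_pow₀ hμ1 (by norm_num)
    have h2 := (le_div_iff₀ (show 0 < μ ^ 6 by positivity)).1 (hrμ.trans_eq (one_div _).symm)
    nlinarith
  have hrε : r ≤ ε := by nlinarith
  have hBr : B₀ * r ≤ ε * c₀ := by
    have h1 := (div_le_iff₀ (show 0 < ε * c₀ by positivity)).1
      (show B₀ / (ε * c₀) ≤ μ by linarith)
    have h2 := mul_le_mul_of_nonneg_right h1 hr.le
    have h3 := mul_le_mul_of_nonneg_right hrμ1 (show 0 ≤ ε * c₀ by positivity)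
    linarith
  have ht : 0 < |τ| := abs_pos.2 hτ
  have hd : 0 < ‖I M p‖ :=
    pos_of_mul_pos_left (lt_of_lt_of_le (by positivity) hD.2) (by positivity)
  have hcen : p + τ * e ∈ ball (p + τ * e) (η₁ * |τ|) := mem_ball_self (by positivity)
  have hp := (hnear _ hcen p (left_mem_segment ℝ _ _)).2
  have hMp : ‖u M p - I M p‖ ≤ ε * ‖I M p‖ := by
    have := hp M (by simp; linarith [hM.2])
    rw [Int.natAbs_natCast, ← mul_assoc] at this
    exact le_of_mul_le_mul_right this (by positivity)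
  have hte : ‖(τ : ℂ) * e‖ = |τ| := by
    rw [norm_mul, he, mul_one, Complex.norm_real, Real.norm_eq_abs]
  have hh : ∀ h : ℂ, p + h ∈ ball (p + τ * e) (η₁ * |τ|) →
      ‖h - τ * e‖ ≤ η₁ * |τ| ∧ |τ| / 2 ≤ ‖h‖ ∧ ‖h‖ ≤ 2 * |τ| := by
    intro h hb
    rw [mem_ball, dist_eq_norm, add_sub_add_left_eq_sub] at hb
    have := abs_le.1 (abs_norm_sub_norm_le h (τ * e))
    rw [hte] at this
    exact ⟨hb.le, by nlinarith, by nlinarith⟩
  have key := fun (h : ℂ) (hb : p + h ∈ ball (p + τ * e) (η₁ * |τ|)) =>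
    hdom O u M p h (2 * ε) ‖I M p‖ hL hR hM (fun y hy => (hnear _ hb y hy).1)
      (by linarith [(hh h hb).2.2]) (by linarith)
      (by nlinarith [(abs_le.1 (abs_norm_sub_norm_le (u M p) (I M p))).2])
      (fun j h1 h2 => by
        rcases lt_or_gt_of_ne h2 with h3 | h3
        · rw [hj j h3, norm_zero, zero_mul]; positivity
        · have h4 := hp j (by simp; linarith)
          rw [Int.natAbs_natCast] at h4
          refine le_trans ?_ (zu_mid h3 hε.le hr hμ1 hεμ (norm_nonneg h)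
            (by linarith [(hh h hb).2.2]) (norm_nonneg _) (norm_nonneg _)
            (hD.1 j ⟨by linarith [hM.1], h1⟩ _ ⟨?_, le_rfl⟩) h4)
          · gcongr
            exact norm_le_insert' _ _
          · have h5 : 1 ≤ μ ^ 2 := one_le_pow₀ hμ1
            exact (div_le_self hr.le h5).trans (le_mul_of_one_le_left hr.le h5))
      (fun y hy l hl => by
        refine le_trans ?_ (zu_rem hM.2 hl hB0 hc₀ hε.le hr (by linarith) hμ1 hBr
          (norm_nonneg h) (by linarith [(hh h hb).2.2]) (norm_nonneg _) hD.2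
          ((hnear _ hb y hy).2 l hl))
        gcongr
        linarith [norm_le_insert' (u l y) (I l y), hB l y])
  replace hre := hre M
  obtain ⟨m, hm⟩ : ∃ m, M = m + 1 := ⟨M - 1, by have := hM.1; omega⟩
  have hmJ : m ≤ J := by have := hM.2; omega
  rw [show M - 1 = m by omega] at key
  unfold Win
  generalize u M p = a at *
  generalize I M p = b at *
  subst hm
  have hf : (0 : ℝ) < m.factorial := by positivity
  have hf1 : (1 : ℝ) ≤ m.factorial := by exact_mod_cast m.factorial_pos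
  obtain ⟨T, hT⟩ : ∃ T : ℝ, T = (|τ| / 2) ^ m / m.factorial := ⟨_, rfl⟩
  have hT0 : 0 < T := by rw [hT]; positivity
  have hG1 : 4 ^ m * (m.factorial : ℝ) ≤ G := by
    rw [hG]; gcongr; norm_num
  have hGT : ∀ x : ℝ, 0 ≤ x → x ≤ 2 * |τ| → x ^ m ≤ G * T := by
    intro x h0 h1
    refine (pow_le_pow_left₀ h0 h1 m).trans (le_trans (le_of_eq ?_)
      (mul_le_mul_of_nonneg_right hG1 hT0.le))
    rw [hT, show 2 * |τ| = 4 * (|τ| / 2) by ring, mul_pow]
    field_simp
  have him : e ^ (m + 1) * b = Complex.I * (e ^ (m + 1) * b).im := by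
    apply Complex.ext
    · rw [hre]; simp
    · simp
  have habs : |(e ^ (m + 1) * b).im| = ‖b‖ := by
    have := congrArg norm him
    rw [norm_mul, norm_pow, he, one_pow, one_mul, norm_mul, Complex.norm_I, one_mul,
      Complex.norm_real, Real.norm_eq_abs] at this
    exact this.symm
  have hβ : |(e ^ (m + 1) * b).im * ((τ / 2) ^ m / m.factorial)| = ‖b‖ * T := by
    rw [abs_mul, habs, hT, abs_div, abs_pow, abs_div, abs_of_pos hf, abs_two]
  refine ⟨(e ^ (m + 1) * b).im * ((τ / 2) ^ m / m.factorial),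
    abs_pos.1 (by rw [hβ]; positivity), fun y hy => ?_, ?_⟩
  · obtain ⟨h, rfl⟩ : ∃ h, y = p + h := ⟨y - p, by ring⟩
    obtain ⟨h1, h2, h3⟩ := hh h hy
    have k1 := (key h hy).1
    rw [pow_succ, ← mul_assoc] at k1
    replace k1 := le_of_mul_le_mul_right k1 (by linarith)
    have e1 : e * u 1 (p + h) -
        Complex.I * ((e ^ (m + 1) * b).im * ((τ / 2) ^ m / m.factorial) : ℝ) =
        e * ((u 1 (p + h) - a * (h / 2) ^ m / m.factorial) + (a - b) * (h / 2) ^ m / m.factorial +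
          b * ((h / 2) ^ m - (τ * e / 2) ^ m) / m.factorial) := by
      rw [Complex.ofReal_mul, ← mul_assoc, ← him]
      push_cast
      ring
    have k2 : ‖(a - b) * (h / 2) ^ m / m.factorial‖ ≤ ε * ‖b‖ * (G * T) := by
      rw [norm_div, norm_mul, norm_pow, Complex.norm_natCast]
      refine (div_le_self (by positivity) hf1).trans
        (mul_le_mul hMp (hGT _ (norm_nonneg _) ?_) (by positivity) (by positivity))
      rw [norm_div, Complex.norm_two]; linarith
    have k3 : ‖b * ((h / 2) ^ m - (τ * e / 2) ^ m) / m.factorial‖ ≤ ‖b‖ * (G * η₁ * T) := by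
      have n1 : ‖(τ : ℂ) * e / 2‖ = |τ| / 2 := by rw [norm_div, hte, Complex.norm_two]
      have n2 := zu_pow (h / 2) (τ * e / 2) η₁
        (by rw [← sub_div, norm_div, Complex.norm_two, n1]; linarith) (by linarith) m
      have n3 : (2 : ℝ) ^ m ≤ 4 ^ m := by gcongr; norm_num
      have n4 : (4 : ℝ) ^ m ≤ 4 ^ m * m.factorial := le_mul_of_one_le_right (by positivity) hf1
      rw [norm_div, norm_mul, Complex.norm_natCast, mul_div_assoc, hT, ← mul_div_assoc (G * η₁)]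
      rw [n1] at n2
      gcongr
      refine n2.trans ?_
      gcongr
      linarith
    have k4 := mul_le_mul_of_nonneg_left (hGT _ (norm_nonneg h) h3)
      (show 0 ≤ C * (2 * ε) * ‖b‖ by positivity)
    rw [e1, norm_mul, he, one_mul, hβ]
    refine (norm_add₃_le).trans ?_
    have hbT : 0 < ‖b‖ * T := by positivity
    have k5 := mul_le_mul_of_nonneg_right g2 hbT.le
    have k6 := mul_le_mul_of_nonneg_right g4 hbT.le
    have k7 : 0 ≤ ε * ‖b‖ * (G * T) := by positivity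
    linarith
  · have k1 := (key _ hcen).2
    have e1 : (a * (τ * e / 2) ^ (m + 1) / (m + 1).factorial).re =
        ((a - b) * (τ * e / 2) ^ (m + 1) / (m + 1).factorial).re := by
      have : a * (τ * e / 2) ^ (m + 1) / (m + 1).factorial =
          (a - b) * (τ * e / 2) ^ (m + 1) / (m + 1).factorial +
            (((τ / 2) ^ (m + 1) / (m + 1).factorial : ℝ) : ℂ) * (e ^ (m + 1) * b) := by
        push_cast; ring
      rw [this, Complex.add_re, Complex.re_ofReal_mul, hre, mul_zero, add_zero]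
    have k2 : |(a * (τ * e / 2) ^ (m + 1) / (m + 1).factorial).re| ≤ ε * ‖b‖ * |τ| ^ (m + 1) := by
      rw [e1]
      refine (Complex.abs_re_le_norm _).trans ?_
      rw [norm_div, norm_mul, norm_pow, Complex.norm_natCast, norm_div, hte, Complex.norm_two]
      refine (div_le_self (by positivity) (by exact_mod_cast (m + 1).factorial_pos)).trans ?_
      gcongr
      linarith
    have k3 := norm_le_insert' (u 0 (p + τ * e))
      (2 * ((a * (τ * e / 2) ^ (m + 1) / (m + 1).factorial).re : ℝ))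
    rw [norm_mul, Complex.norm_two, Complex.norm_real, Real.norm_eq_abs] at k3
    rw [hte] at k1
    have k4 : |τ| ^ (m + 1) ≤ G * T * |τ| := by
      rw [pow_succ]
      exact mul_le_mul_of_nonneg_right (hGT _ ht.le (by linarith)) ht.le
    have k5 := mul_le_mul_of_nonneg_left k4 (show 0 ≤ (2 * C + 2) * ε * ‖b‖ by positivity)
    have hbT : 0 < ‖b‖ * T * |τ| := by positivity
    have k6 := mul_le_mul_of_nonneg_right g5 hbT.le
    have k7 : 0 < c₁ * η₁ * (‖b‖ * T * |τ|) := by positivity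
    rw [hβ]
    linarith

end

end Pool.Agent.P.MP_6b977f_mp.EB
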