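import Pool.Agent.P.MP_6b977f_mp.EB.AllS
import Pool.Agent.P.MP_6b977f_mp.EB.YP
import Pool.Agent.P.MP_6b977f_mp.EB.YL
import Pool.Agent.P.MP_6b977f_mp.EB.LAD
import Pool.Agent.P.MP_6b977f_mp.EB.COR
import Pool.Agent.P.MP_6b977f_mp.EB.ACOR
import Pool.Agent.P.MP_6b977f_mp.EB.FIX
import Pool.Agent.P.MP_6b977f_mp.EB.KILL
import Pool.Agent.P.MP_6b977f_mp.EB.LIPZ
import Pool.Agent.P.MP_6b977f_mp.EB.RFS
import Pool.Agent.P.MP_6b977f_mp.EB.TAY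
import Pool.Agent.P.MP_6b977f_mp.EB.DOM
import Pool.Agent.P.MP_6b977f_mp.EB.ZI
import Pool.Agent.P.MP_6b977f_mp.EB.ZU
import Pool.Agent.P.MP_6b977f_mp.EB.GLUE
import Pool.Agent.P.MP_6b977f_mp.EB.POL0
import Pool.Agent.P.MP_6b977f_mp.EB.WIN
import Pool.Agent.P.MP_6b977f_mp.EB.PLACE
import Pool.Agent.P.MP_6b977f_mp.EB.NEWT
import Pool.Agent.P.MP_6b977f_mp.EB.SEL
import Pool.Agent.P.MP_6b977f_mp.EB.CEN
import Pool.Agent.P.MP_6b977f_mp.EB.CORE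
import Pool.Agent.P.MP_6b977f_mp.EB.INS0
import Pool.Agent.P.MP_6b977f_mp.EB.INS
import Pool.Agent.P.MP_6b977f_mp.EB.ZIG
import Pool.Agent.P.MP_6b977f_mp.EB.GAUGE
import Pool.Agent.P.MP_6b977f_mp.EB.GEO1
import Pool.Agent.P.MP_6b977f_mp.EB.GEO2
import Pool.Agent.P.MP_6b977f_mp.EB.FLATP
import Pool.Agent.P.MP_6b977f_mp.EB.WAVE
import Pool.Agent.P.MP_6b977f_mp.EB.DIR
import Pool.Agent.P.MP_6b977f_mp.EB.RL
import Pool.Agent.P.MP_6b977f_mp.EB.EQ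
import Pool.Agent.P.MP_6b977f_mp.EB.GEN
import Pool.Agent.P.MP_6b977f_mp.EB.RS
import Pool.Agent.P.MP_6b977f_mp.EB.CFW2
import Pool.Agent.P.MP_6b977f_mp.EB.CFW
import Pool.Agent.P.MP_6b977f_mp.EB.BCF
import Pool.Agent.P.MP_6b977f_mp.EB.WEK
import Pool.Agent.P.MP_6b977f_mp.EB.BST

/-! All statements of part B. -/

namespace Pool.Agent.P.MP_6b977f_mp.EB

theorem a_yp : S_YP :=
  t_yp
theorem a_yl : S_YL :=
  t_yl a_yp
theorem a_lad : S_LAD :=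
  t_lad
theorem a_cor : S_COR :=
  t_cor a_yl a_lad
theorem a_acor : S_ACOR :=
  t_acor a_cor a_lad
theorem a_fix : S_FIX :=
  t_fix
theorem a_kill : S_KILL :=
  t_kill a_acor a_fix a_lad
theorem a_lipz : S_LIPZ :=
  t_lipz
theorem a_rfs : S_RFS :=
  t_rfs a_lad a_lipz
theorem a_tay : S_TAY :=
  t_tay
theorem a_dom : S_DOM :=
  t_dom a_tay
theorem a_zi : S_ZI :=
  t_zi a_dom
theorem a_zu : S_ZU :=
  t_zu a_dom
theorem a_glue : S_GLUE :=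
  t_glue a_lipz
theorem a_pol0 : S_POL0 :=
  t_pol0 a_glue a_lipz a_tab
theorem a_win : S_WIN :=
  t_win a_zi a_zu a_pol0 a_tab
theorem a_place : S_PLACE :=
  t_place a_kill
theorem a_newt : S_NEWT :=
  t_newt
theorem a_sel : S_SEL :=
  t_sel
theorem a_cen : S_CEN :=
  t_cen a_newt a_sel
theorem a_core : S_CORE :=
  t_core a_win a_place a_cen a_rfs a_glue a_pol0 a_tab
theorem a_ins0 : S_INS0 :=
  t_ins0 a_pol0 a_glue a_lipz
theorem a_ins : S_INS :=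
  t_ins a_ins0
theorem a_zig : S_ZIG :=
  t_zig a_pol0 a_glue a_lipz
theorem a_gauge : S_GAUGE :=
  t_gauge a_tab
theorem a_geo1 : S_GEO1 :=
  t_geo1 a_pol0 a_gauge a_glue a_tab
theorem a_geo2 : S_GEO2 :=
  t_geo2 a_tab
theorem a_flatp : S_FLATP :=
  t_flatp a_pol0 a_tab
theorem a_wave : S_WAVE :=
  t_wave a_lad
theorem a_dir : S_DIR :=
  t_dir
theorem a_rl : S_RL :=
  t_rl
theorem a_eq : S_EQ :=
  t_eq a_rl
theorem a_gen : S_GEN :=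
  t_gen
theorem a_rs : S_RS :=
  t_rs
theorem a_cfw2 : S_CFW2 :=
  t_cfw2 a_rl
theorem a_cfw : S_CFW :=
  t_cfw a_eq a_gen a_rs
theorem a_bcf : S_BCF :=
  t_bcf a_tab a_tab2
theorem a_wek : S_WEK :=
  t_wek a_lip a_hb1
theorem a_bst : S_BST :=
  t_bst a_ins a_zig a_cfw a_cfw2 a_wave a_geo1 a_geo2 a_bcf a_core a_dir a_flatp a_wek a_lad a_pol0 a_tab

end Pool.Agent.P.MP_6b977f_mp.EB
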