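import Pool.Agent.P.MP_6b977f_mp.EB.IfE

/-! Basic facts on the arc length and on the invariant measure of the billiard map. -/

namespace Pool.Agent.P.MP_6b977f_mp.EB

open Real MeasureTheory Filter Topology Set Metric
open scoped ContDiff BoundedContinuousFunction ComplexConjugate Pointwise ENNReal

noncomputable section

lemma bm_ex_cont : Continuous ex := by unfold ex; fun_prop

lemma bm_ex_norm (t : ℝ) : ‖ex t‖ = 1 := Complex.norm_exp_ofReal_mul_I t

lemma bm_ex_add (a b : ℝ) : ex (a + b) = ex a * ex b := by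
  unfold ex; rw [← Complex.exp_add]; congr 1; push_cast; ring

lemma bm_ex_neg (a : ℝ) : ex (-a) = conj (ex a) := by
  unfold ex; rw [← Complex.exp_conj]; congr 1; simp

lemma bm_ex_per : Function.Periodic ex (2 * π) := fun t => by
  rw [bm_ex_add]
  have : ex (2 * π) = 1 := by
    unfold ex; push_cast; exact Complex.exp_two_pi_mul_I
  rw [this, mul_one]

lemma bm_cm : IsFiniteMeasure cm ∧ cm ≠ 0 ∧ (∀ᵐ v ∂cm, ‖v‖ = 1) ∧
    (∀ e : ℂ, ‖e‖ = 1 → cm.map (fun v => e * v) = cm) ∧ cm.map (fun v => conj v) = cm := by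
  have : Fact (0 < 2 * π) := ⟨by positivity⟩
  have hE : Continuous (bm_ex_per.lift : AddCircle (2 * π) → ℂ) :=
    continuous_coinduced_dom.2 bm_ex_cont
  have h1 : cm = (volume : Measure (AddCircle (2 * π))).map bm_ex_per.lift := by
    have h := AddCircle.measurePreserving_mk (2 * π) 0
    rw [zero_add] at h
    rw [← h.map_eq, Measure.map_map hE.measurable h.measurable]
    rfl
  refine ⟨by rw [h1]; infer_instance, ?_, ?_, fun e he => ?_, ?_⟩
  · rw [h1, Ne, Measure.map_eq_zero_iff hE.measurable.aemeasurable]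
    exact NeZero.ne _
  · unfold cm
    rw [ae_map_iff bm_ex_cont.measurable.aemeasurable
      (measurableSet_eq_fun measurable_norm measurable_const)]
    exact Eventually.of_forall bm_ex_norm
  · have h2 : e = ex e.arg := by
      have := Complex.norm_mul_exp_arg_mul_I e
      rw [he] at this
      simpa [ex] using this.symm
    rw [h1, Measure.map_map (measurable_const_mul e) hE.measurable]
    have h3 : (fun v => e * v) ∘ (bm_ex_per.lift : AddCircle (2 * π) → ℂ) =
        bm_ex_per.lift ∘ fun x => (e.arg : AddCircle (2 * π)) + x := by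
      funext x
      induction x using QuotientAddGroup.induction_on with
      | H t =>
        show e * ex t = ex (e.arg + t)
        rw [bm_ex_add, ← h2]
    rw [h3, ← Measure.map_map hE.measurable (measurable_const_add _), map_add_left_eq_self]
  · rw [h1, Measure.map_map Complex.continuous_conj.measurable hE.measurable]
    have h3 : (fun v => conj v) ∘ (bm_ex_per.lift : AddCircle (2 * π) → ℂ) =
        bm_ex_per.lift ∘ fun x => -x := by
      funext x
      induction x using QuotientAddGroup.induction_on with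
      | H t => exact (bm_ex_neg t).symm
    rw [h3, ← Measure.map_map hE.measurable measurable_neg, Measure.map_neg_eq_self]

lemma bm_bd_cont {ρ : ℝ → ℝ} (h : Continuous ρ) : Continuous (bd ρ) := by
  unfold bd ex; fun_prop

lemma bm_arg (ρ : ℝ → ℝ) {φ : ℝ} (h : φ ∈ Ioc (-π) π) : (bd ρ φ).arg = φ := by
  unfold bd ex
  rw [Complex.arg_real_mul _ (exp_pos _), Complex.exp_mul_I]
  exact_mod_cast Complex.arg_cos_add_sin_mul_I h

lemma bm_tanf_meas {ρ' : ℝ → ℝ} (h : Measurable ρ') : Measurable (tanf ρ') :=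
  ((Complex.measurable_ofReal.comp (h.comp Complex.measurable_arg)).add_const _).mul measurable_id

lemma bm_cross_meas {X : Type} [MeasurableSpace X] {a b : X → ℂ} (ha : Measurable a)
    (hb : Measurable b) : Measurable fun x => cross (a x) (b x) := by
  unfold cross; fun_prop

lemma bm_refl_meas {X : Type} [MeasurableSpace X] {a b : X → ℂ} (ha : Measurable a)
    (hb : Measurable b) : Measurable fun x => refl (a x) (b x) :=
  (ha.div (Complex.continuous_conj.measurable.comp ha)).mul
    (Complex.continuous_conj.measurable.comp hb)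

lemma bm_cross_le (a b : ℂ) : cross a b ≤ ‖a‖ * ‖b‖ := by
  have : cross a b = (conj a * b).im := by simp [cross]; ring
  rw [this]
  exact (Complex.im_le_norm _).trans (by rw [norm_mul, Complex.norm_conj])

theorem t_bm (htp : S_TP) (hpwc : S_PWC) (htr0 : S_TR0) (htab : S_TAB) : S_BM := by
  refine ⟨bm_cm, fun ρ ρ' Z hP => ?_⟩
  obtain ⟨hf, -, hn, -⟩ := bm_cm
  obtain ⟨ho, hb, -, -, hfr, -⟩ := htab ρ hP.cp
  obtain ⟨hm, h0, ⟨R, hR⟩, hv⟩ := htp _ ho hb
  have hbd := (bm_bd_cont hP.cp.1).measurable
  have ht := bm_tanf_meas hP.meas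
  have hmap : Measurable fun x : ℝ × ℂ => (bd ρ x.1, x.2) :=
    (hbd.comp measurable_fst).prodMk measurable_snd
  have hd : Measurable fun x : ℝ × ℂ => ENNReal.ofReal (cross (tanf ρ' (bd ρ x.1)) x.2) :=
    (bm_cross_meas (ht.comp (hbd.comp measurable_fst)) measurable_snd).ennreal_ofReal
  have hae : ∀ᵐ x ∂(volume.restrict (Ioc (-π) π)).prod cm,
      x.1 ∈ Ioc (-π) π ∧ ex x.1 ∉ Z ∧ ‖x.2‖ = 1 := by
    have h1 : ∀ᵐ t ∂volume.restrict (Ioc (-π) π), t ∈ Ioc (-π) π ∧ ex t ∉ Z := by
      have h2 := ((hpwc.2 ρ ρ' Z hP).2.2 (-π) π).measure_zero (volume.restrict (Ioc (-π) π))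
      filter_upwards [ae_restrict_mem measurableSet_Ioc, measure_eq_zero_iff_ae_notMem.1 h2]
        with t h3 h4
      exact ⟨h3, fun h => h4 ⟨Ioc_subset_Icc_self h3, h⟩⟩
    filter_upwards [Measure.quasiMeasurePreserving_fst.ae h1,
      Measure.quasiMeasurePreserving_snd.ae hn] with x h2 h3
    exact ⟨h2.1, h2.2, h3⟩
  refine ⟨?_, ?_, ?_, fun G hG => ?_, fun ψ hψ => ⟨?_, ?_⟩⟩
  · obtain ⟨K, hK⟩ := hP.bdd
    obtain ⟨C, hC⟩ := hb.closure.exists_norm_le
    have : IsFiniteMeasure (((volume.restrict (Ioc (-π) π)).prod cm).withDensity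
        fun x => ENNReal.ofReal (cross (tanf ρ' (bd ρ x.1)) x.2)) := by
      refine isFiniteMeasure_withDensity (ne_of_lt ?_)
      refine lt_of_le_of_lt (lintegral_mono_ae (g := fun _ => ENNReal.ofReal ((K + 1) * C)) ?_) ?_
      · filter_upwards [hae] with x hx
        refine ENNReal.ofReal_le_ofReal ((bm_cross_le _ _).trans ?_)
        rw [hx.2.2, mul_one, tanf, norm_mul]
        refine mul_le_mul ((norm_add_le _ _).trans ?_)
          (hC _ (frontier_subset_closure (hfr ▸ mem_range_self _))) (norm_nonneg _)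
          (by linarith [abs_nonneg (ρ' 0), hK 0])
        rw [Complex.norm_real, Complex.norm_I]
        exact add_le_add (hK _) le_rfl
      · rw [lintegral_const]
        exact ENNReal.mul_lt_top ENNReal.ofReal_lt_top (measure_lt_top _ _)
    unfold bm; infer_instance
  · have h1 : Measurable fun x : ℂ × ℂ => x.1 + tp (table ρ) x.1 x.2 * x.2 :=
      measurable_fst.add ((Complex.measurable_ofReal.comp hm).mul measurable_snd)
    exact h1.prodMk (bm_refl_meas (ht.comp h1) measurable_snd)
  · have hA : MeasurableSet {x : ℂ × ℂ | ‖x.2‖ = 1 ∧ x.1 = bd ρ x.1.arg ∧ ex x.1.arg ∉ Z ∧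
        0 < cross (tanf ρ' x.1) x.2 ∧ 0 < tp (table ρ) x.1 x.2} := by
      have ha : Measurable fun x : ℂ × ℂ => x.1.arg := Complex.measurable_arg.comp measurable_fst
      exact (measurableSet_eq_fun measurable_snd.norm measurable_const).inter
        ((measurableSet_eq_fun measurable_fst (hbd.comp ha)).inter
          (((bm_ex_cont.measurable.comp ha) Z.measurableSet.compl).inter
            ((measurableSet_lt measurable_const
              (bm_cross_meas (ht.comp measurable_fst) measurable_snd)).inter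
              (measurableSet_lt measurable_const hm))))
    have : ∀ᵐ x ∂bm ρ ρ', ‖x.2‖ = 1 ∧ x.1 = bd ρ x.1.arg ∧ ex x.1.arg ∉ Z ∧
        0 < cross (tanf ρ' x.1) x.2 ∧ 0 < tp (table ρ) x.1 x.2 := by
      unfold bm
      rw [ae_map_iff hmap.aemeasurable hA, ae_withDensity_iff hd]
      filter_upwards [hae] with x hx h1
      have h2 : 0 < cross (tanf ρ' (bd ρ x.1)) x.2 := by
        by_contra h
        exact h1 (ENNReal.ofReal_eq_zero.2 (not_lt.1 h))
      simp only [bm_arg ρ hx.1]
      refine ⟨hx.2.2, trivial, hx.2.1, h2, ?_⟩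
      obtain ⟨δ, hδ, h3⟩ := (htr0 ρ ρ' Z x.1 x.2 hP hx.2.1).1 h2
      have hne : x.2 ≠ 0 := fun h => by simpa [h] using hx.2.2
      exact hδ.trans_le ((hv _ _ hne).2.2.2.1 δ hδ h3)
    filter_upwards [this] with x hx
    exact ⟨hx.1, _, hx.2⟩
  · unfold bm
    have hG' : Measurable fun x : ℝ × ℂ => G (bd ρ x.1, x.2) := hG.comp hmap
    rw [lintegral_map hG hmap, lintegral_withDensity_eq_lintegral_mul _ hd hG',
      lintegral_prod _ (hd.mul hG').aemeasurable]
    rfl
  · have e : chord (table ρ) ψ = fun x => ∫ t, {p : (ℂ × ℂ) × ℝ | 0 < p.2 ∧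
        p.2 ≤ tp (table ρ) p.1.1 p.1.2}.indicator
          (fun p => ψ (p.1.1 + p.2 * p.1.2, p.1.2)) (x, t) := by
      funext x
      rw [chord, intervalIntegral.integral_of_le (h0 _ _), ← integral_indicator measurableSet_Ioc]
      rfl
    rw [e]
    refine (Measurable.stronglyMeasurable ?_).integral_prod_right'.measurable
    refine Measurable.indicator (hψ.1.comp (by fun_prop)) ?_
    exact (measurableSet_lt measurable_const measurable_snd).inter
      (measurableSet_le measurable_snd (hm.comp measurable_fst))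
  · obtain ⟨M, hM⟩ := hψ.2
    refine ⟨M * R, fun x hx => ?_⟩
    have := intervalIntegral.norm_integral_le_of_norm_le_const (a := 0)
      (b := tp (table ρ) x.1 x.2) (f := fun t : ℝ => ψ (x.1 + t * x.2, x.2)) (C := M)
      fun t _ => hM _
    rw [sub_zero, abs_of_nonneg (h0 _ _)] at this
    exact this.trans (mul_le_mul_of_nonneg_left (hR _ _ hx) ((abs_nonneg _).trans (hM x)))

end

end Pool.Agent.P.MP_6b977f_mp.EB
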