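import Pool.Agent.P.MP_6b977f_mp.EB.IfE

/-! Approximate coboundaries for suitable grooves. -/

namespace Pool.Agent.P.MP_6b977f_mp.EB

open Real MeasureTheory Filter Topology Set Metric
open scoped ENNReal BoundedContinuousFunction

theorem t_cob (hmk : S_MK) (hpi : S_PI) (hmp : S_MP) (hgmm : S_GMM) (hrig : S_RIG)
    (hpbm : S_PBM) : S_COB := by
  intro P ρ c α₀ ε T f N₀ hP hρ hT h0 h1 hε hf hf0
  have fin := (hpbm P ρ c hP hρ).1
  obtain ⟨M, hM⟩ := hf.2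
  have mT := hT.1.measurable
  have pres : ∀ N, 1 ≤ N → ∀ w : Cl P N → Th, MeasurePreserving (Tw P N α₀ T w) P.mP P.mP :=
    fun N hN w => (hmp P c α₀ N w hP h0 h1 hN).comp hT.1
  have key : ∀ n : ℕ, ∃ N, N₀ ≤ N ∧ n + 1 ≤ N ∧ ∃ g : XX → ℝ, Measurable g ∧
      (∀ x, |g x| ≤ 2 * M) ∧ ∫ x, (∫ θ, (g (Gam P N α₀ θ (T x)) - g x) ^ 2) ∂P.mP ≤
        16 * M ^ 2 * (P.mP.real univ + 1) * (1 / ((n : ℝ) + 1)) ∧
      ∃ (w : Cl P N → Th) (h : XX → ℝ), BM h ∧
        (∫ x, |f x - (h (Tw P N α₀ T w x) - h x)| ∂P.mP) ^ 2 ≤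
          P.mP.real univ * ∫ x, f x * g x ∂P.mP := fun n => by
    obtain ⟨N₁, hN₁⟩ := hpi P ρ c α₀ (1 / ((n : ℝ) + 1) ^ 3) T hP hρ hT h0 h1 (by positivity)
    set N := max N₁ (max N₀ (n + 1))
    obtain ⟨π', m', i', a'⟩ := hN₁ N (le_max_left _ _)
    have hN : n + 1 ≤ N := le_max_of_le_right (le_max_right _ _)
    obtain ⟨g, mg, bg, ig, hw⟩ := hmk (Cl P N) P.mP (fun x => cell P N (T x).1 (T x).2.1)
      (fun θ x => Gam P N α₀ θ (T x)) π' (n + 1) f M _ fin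
      (fun c' => mT ((hgmm.2 P N α₀).2.1 c'))
      ((hgmm.2 P N α₀).1.comp (f := fun y : Th × XX => (y.1, T y.2)) (by fun_prop))
      (pres N (by omega)) m' a' (by positivity) i' (by omega) hf.1 hM
    refine ⟨N, le_max_of_le_right (le_max_left _ _), hN, g, mg, bg, ig.trans (le_of_eq ?_), hw⟩
    push_cast
    field_simp
  choose N hN0 hN g mg bg ig w h bh hh using key
  have t1 : Tendsto N atTop atTop :=
    tendsto_atTop_mono (fun n => (Nat.le_succ n).trans (hN n)) tendsto_id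
  have t0 := (tendsto_one_div_add_atTop_nhds_zero_nat (𝕜 := ℝ)).const_mul
    (16 * M ^ 2 * (P.mP.real univ + 1))
  rw [mul_zero] at t0
  have t2 := hrig P ρ c α₀ (2 * M) T N g f hP hρ hT h0 h1 t1 (fun n => ⟨mg n, bg n⟩)
    (squeeze_zero (fun n => integral_nonneg fun x => integral_nonneg fun θ => sq_nonneg _) ig
      t0) hf hf0
  have t3 := t2.const_mul (P.mP.real univ)
  rw [mul_zero] at t3
  obtain ⟨n, hn⟩ := (t3.eventually (gt_mem_nhds (show (0 : ℝ) < ε ^ 2 by positivity))).exists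
  refine ⟨N n, hN0 n, w n, h n, bh n, ?_⟩
  obtain ⟨K, hK⟩ := (bh n).2
  have mw := (pres (N n) (by have := hN n; omega) (w n)).measurable
  have mF : Measurable fun x => |f x - (h n (Tw P (N n) α₀ T (w n) x) - h n x)| :=
    (hf.1.sub (((bh n).1.comp mw).sub (bh n).1)).abs
  rw [← ofReal_integral_eq_lintegral_ofReal (Integrable.of_bound
    mF.aestronglyMeasurable (M + (K + K))
    (ae_of_all _ fun x => ?_)) (ae_of_all _ fun x => abs_nonneg _)]
  · exact (ENNReal.ofReal_lt_ofReal_iff hε).2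
      (lt_of_pow_lt_pow_left₀ 2 hε.le ((hh n).trans_lt hn))
  · rw [Real.norm_eq_abs, abs_abs]
    exact (abs_sub _ _).trans (add_le_add (hM x) ((abs_sub _ _).trans (add_le_add (hK _) (hK _))))

end Pool.Agent.P.MP_6b977f_mp.EB
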