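import Pool.Agent.P.MP_6b977f_mp.EB.IfE

/-! Continuity of the billiard map in the table at transversal chords. -/

namespace Pool.Agent.P.MP_6b977f_mp.EB

open Real MeasureTheory Filter Topology Set Metric
open scoped ContDiff BoundedContinuousFunction ComplexConjugate Pointwise ENNReal

noncomputable section

lemma cont_ex_add (s t : ℝ) : ex (s + t) = ex s * ex t := by
  rw [ex, ex, ex, ← Complex.exp_add]
  push_cast
  ring_nf

lemma cont_ex_neg (t : ℝ) : ex t * ex (-t) = 1 := by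
  rw [← cont_ex_add, add_neg_cancel, ex]
  simp

lemma cont_norm_ex (t : ℝ) : ‖ex t‖ = 1 := Complex.norm_exp_ofReal_mul_I t

lemma cont_per {f : ℝ → ℝ} (hf : Function.Periodic f (2 * π)) (t : ℝ) {z : ℂ} (hz : z ≠ 0) :
    f z.arg = f (t + (z * ex (-t)).arg) := by
  have h0 : z * ex (-t) ≠ 0 := mul_ne_zero hz (Complex.exp_ne_zero _)
  have h1 : z = (‖z * ex (-t)‖ : ℝ) * ex (t + (z * ex (-t)).arg) := by
    have := Complex.norm_mul_exp_arg_mul_I (z * ex (-t))
    rw [cont_ex_add, mul_left_comm, ex.eq_1 (z * ex (-t)).arg, this, mul_left_comm, cont_ex_neg,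
      mul_one]
  conv_lhs => rw [h1]
  rw [Complex.arg_real_mul _ (norm_pos_iff.2 h0), ex, Complex.arg_exp_mul_I,
    ← self_sub_toIocDiv_zsmul]
  exact hf.sub_zsmul_eq _

lemma cont_bd_ex (ρ : ℝ → ℝ) (t : ℝ) : bd ρ t * ex (-t) = (Real.exp (ρ t) : ℝ) := by
  rw [bd, mul_assoc, cont_ex_neg, mul_one]

lemma cont_open (Z : Finset ℂ) : IsOpen {t | ex t ∉ Z} := by
  have h : Continuous ex := by unfold ex; fun_prop
  exact (Z.finite_toSet.isClosed.isOpen_compl).preimage h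

lemma cont_lim {ι : Type} {l : Filter ι} {ρ' : ℝ → ℝ} {Z : Finset ℂ} {F : ι → ℝ → ℝ}
    (h : TendstoLocallyUniformlyOn F ρ' l {t | ex t ∉ Z}) {t R : ℝ} (ht : ex t ∉ Z)
    (hc : ContinuousAt ρ' t) (hR : 0 < R) {w : ι → ℂ} (hw : Tendsto w l (𝓝 (R : ℂ))) :
    Tendsto (fun n => F n (t + (w n).arg)) l (𝓝 (ρ' t)) := by
  refine h.tendsto_comp hc.continuousWithinAt ht ?_
  rw [(cont_open Z).nhdsWithin_eq ht]
  have h1 := (Complex.continuousAt_arg (Complex.ofReal_mem_slitPlane.2 hR)).tendsto.comp hw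
  rw [Complex.arg_ofReal_of_nonneg hR.le] at h1
  simpa using h1.const_add t

lemma cont_entry (p : C1) (t δ : ℝ) (v : ℂ)
    (h : ∀ s ∈ Ico 0 δ, (bd p.1.1 t + (s : ℝ) * v) * ex (-t) ∈ Complex.slitPlane ∧
      (v * ex (-t) / ((bd p.1.1 t + s * v) * ex (-t))).re -
        p.1.2 (t + ((bd p.1.1 t + s * v) * ex (-t)).arg) *
          (v * ex (-t) / ((bd p.1.1 t + s * v) * ex (-t))).im < 0) :
    ∀ s ∈ Ioo 0 δ, bd p.1.1 t + (s : ℝ) * v ∈ table p.1.1 := by
  intro s hs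
  have hd : ∀ x ∈ Icc 0 s, HasDerivAt (fun x : ℝ =>
      (Complex.log ((bd p.1.1 t + x * v) * ex (-t))).re -
        p.1.1 (t + (Complex.log ((bd p.1.1 t + x * v) * ex (-t))).im))
      ((v * ex (-t) / ((bd p.1.1 t + x * v) * ex (-t))).re -
        p.1.2 (t + ((bd p.1.1 t + x * v) * ex (-t)).arg) *
          (v * ex (-t) / ((bd p.1.1 t + x * v) * ex (-t))).im) x := by
    intro x hx
    have h0 : HasDerivAt (fun x : ℂ => (bd p.1.1 t + x * v) * ex (-t)) (v * ex (-t)) (x : ℂ) := by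
      simpa using (((hasDerivAt_id (x : ℂ)).mul_const v).const_add (bd p.1.1 t)).mul_const
        (ex (-t))
    have h1 := (h0.clog (h x ⟨hx.1, hx.2.trans_lt hs.2⟩).1).comp_ofReal
    have h2 := Complex.reCLM.hasFDerivAt.comp_hasDerivAt x h1
    have h3 := (Complex.imCLM.hasFDerivAt.comp_hasDerivAt x h1).const_add t
    have h4 := (p.2.2 _).comp x h3
    rw [← Complex.log_im]
    exact h2.sub h4
  obtain ⟨c, hc, e⟩ := exists_hasDerivAt_eq_slope _ _ hs.1
    (fun x hx => (hd x hx).continuousAt.continuousWithinAt) fun x hx => hd x (Ioo_subset_Icc_self hx)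
  have h5 := (h c ⟨hc.1.le, hc.2.trans hs.2⟩).2
  rw [e, sub_zero, div_lt_iff₀ hs.1, zero_mul] at h5
  have h6 := Complex.slitPlane_ne_zero (h s ⟨hs.1.le, hs.2⟩).1
  have h7 := left_ne_zero_of_mul h6
  simp only [Complex.ofReal_zero, zero_mul, add_zero, cont_bd_ex, Complex.log_re, Complex.log_im,
    Complex.arg_ofReal_of_nonneg (Real.exp_pos _).le, Complex.norm_real, Real.norm_eq_abs,
    Real.abs_exp, Real.log_exp, sub_self, sub_zero, norm_mul, cont_norm_ex, mul_one] at h5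
  rw [← cont_per p.2.1 t h7, sub_neg, Real.log_lt_iff_lt_exp (norm_pos_iff.2 h7)] at h5
  exact h5

theorem t_cont (htp : S_TP) (htr0 : S_TR0) (hpwc : S_PWC) (htab : S_TAB) (htab2 : S_TAB2) :
    S_CONT := by
  intro ρ ρ' Z q t t' v hpw hu hl hv ht hin hy ht' hout
  have hv0 : v ≠ 0 := by
    rintro rfl
    simp at hv
  obtain ⟨ho, hb, -, -, -, hcl, -, hca, -⟩ := htab ρ hpw.cp
  obtain ⟨i1, -, -, i4, -, -⟩ := (htp _ ho hb).2.2.2 (bd ρ t) v hv0
  obtain ⟨T, hT⟩ : ∃ T, T = tp (table ρ) (bd ρ t) v := ⟨_, rfl⟩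
  have hy' : bd ρ t + T * v = bd ρ t' := by rw [hT]; exact hy
  have hn : ∀ n, (∀ a : ℝ, 0 < a → (∀ s ∈ Ioo 0 a, bd (q n).1.1 t + (s : ℝ) * v ∈ table (q n).1.1)
      → a ≤ tp (table (q n).1.1) (bd (q n).1.1 t) v) ∧ ∀ a : ℝ, 0 < a →
      bd (q n).1.1 t + a * v ∉ table (q n).1.1 → tp (table (q n).1.1) (bd (q n).1.1 t) v ≤ a := by
    intro n
    obtain ⟨ho, hb, -⟩ := htab _ (hpwc.1 (q n)).cp
    obtain ⟨-, -, -, i4, i5, -⟩ := (htp _ ho hb).2.2.2 (bd (q n).1.1 t) v hv0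
    exact ⟨i4, i5⟩
  have hT0 : 0 < T := by
    obtain ⟨δ, h0, h1⟩ := (htr0 ρ ρ' Z t v hpw ht).1 hin
    rw [hT]
    exact h0.trans_le (i4 δ h0 h1)
  have hyn : Tendsto (fun n => bd (q n).1.1 t) atTop (𝓝 (bd ρ t)) :=
    ((Complex.continuous_ofReal.tendsto _).comp
      ((Real.continuous_exp.tendsto _).comp (hu.tendsto_at t))).mul_const _
  have up : ∀ a, T < a → ∀ᶠ n in atTop, tp (table (q n).1.1) (bd (q n).1.1 t) v < a := by
    intro a ha
    obtain ⟨δ, h0, h1⟩ := (htr0 ρ ρ' Z t' v hpw ht').2 hout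
    obtain ⟨s, s0, s1⟩ := exists_between (lt_min h0 (sub_pos.2 ha))
    have h2 := h1 s ⟨s0, s1.trans_le (min_le_left _ _)⟩
    have h3 : bd ρ t' + s * v = bd ρ t + (T + s : ℝ) * v := by
      rw [← hy']
      push_cast
      ring
    rw [h3, hcl, mem_ofPred_eq, not_le] at h2
    have h4 : bd ρ t + (T + s : ℝ) * v ≠ 0 := norm_pos_iff.1 ((Real.exp_pos _).trans h2)
    have h5 := hyn.add_const (((T + s : ℝ) : ℂ) * v)
    have h6 := (hu.comp fun z : ℂ => z.arg).tendsto_comp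
      (hca.continuousAt (isOpen_compl_singleton.mem_nhds h4)) h5
    filter_upwards [((Real.continuous_exp.tendsto _).comp h6).eventually_lt h5.norm h2] with n h7
    have := (hn n).2 (T + s) (by linarith) (not_lt.2 h7.le)
    linarith [s1.trans_le (min_le_right _ _)]
  have ent : ∃ δ > 0, ∀ᶠ n in atTop, ∀ s ∈ Ioo 0 δ,
      bd (q n).1.1 t + (s : ℝ) * v ∈ table (q n).1.1 := by
    have hw : Tendsto (fun x : ℕ × ℝ => (bd (q x.1).1.1 t + x.2 * v) * ex (-t)) (atTop ×ˢ 𝓝 0)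
        (𝓝 (Real.exp (ρ t) : ℝ)) := by
      have := ((hyn.comp tendsto_fst).add (((Complex.continuous_ofReal.tendsto _).comp
        (tendsto_snd (f := (atTop : Filter ℕ)) (g := 𝓝 (0 : ℝ)))).mul_const v)).mul_const (ex (-t))
      rw [Complex.ofReal_zero, zero_mul, add_zero, cont_bd_ex] at this
      exact this
    have hl' : TendstoLocallyUniformlyOn (fun (x : ℕ × ℝ) y => (q x.1).1.2 y) ρ'
        (atTop ×ˢ 𝓝 0) {t | ex t ∉ Z} := fun u hu x hx => by
      obtain ⟨s, h1, h2⟩ := hl u hu x hx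
      exact ⟨s, h1, tendsto_fst.eventually h2⟩
    have hR := Real.exp_pos (ρ t)
    have h1 := cont_lim hl' ht (hpw.der t ht).2 hR hw
    have h2 := (tendsto_const_nhds (x := v * ex (-t))).div hw (by exact_mod_cast hR.ne')
    have h3 := ((Complex.continuous_re.tendsto _).comp h2).sub
      (h1.mul ((Complex.continuous_im.tendsto _).comp h2))
    have h4 : (v * ex (-t) / (Real.exp (ρ t) : ℝ)).re -
        ρ' t * (v * ex (-t) / (Real.exp (ρ t) : ℝ)).im < 0 := by
      rw [((hpwc.2 ρ ρ' Z hpw).2.1 t).1, bd] at hin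
      have e1 : v = ex t * (v * ex (-t)) := by rw [mul_left_comm, cont_ex_neg, mul_one]
      have e2 : (ex t).re ^ 2 + (ex t).im ^ 2 = 1 := by
        rw [sq, sq, ← Complex.normSq_apply, Complex.normSq_eq_norm_sq, cont_norm_ex, one_pow]
      generalize v * ex (-t) = u at e1 ⊢
      rw [e1, cross] at hin
      rw [Complex.div_ofReal_re, Complex.div_ofReal_im, ← mul_div_assoc, ← sub_div,
        div_lt_iff₀ hR, zero_mul]
      simp only [Complex.mul_re, Complex.mul_im, Complex.add_re, Complex.add_im,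
        Complex.ofReal_re, Complex.ofReal_im, Complex.I_re, Complex.I_im] at hin
      have e3 : 0 < Real.exp (ρ t) * (ρ' t * u.im - u.re) := by
        refine hin.trans_eq ?_
        linear_combination (Real.exp (ρ t) * (ρ' t * u.im - u.re)) * e2
      linarith [pos_of_mul_pos_right e3 hR.le]
    have h5 := (hw.eventually (Complex.isOpen_slitPlane.mem_nhds
      (Complex.ofReal_mem_slitPlane.2 hR))).and (h3.eventually (gt_mem_nhds h4))
    obtain ⟨pa, hpa, pb, hpb, h6⟩ := eventually_prod_iff.1 h5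
    obtain ⟨δ, h0, h7⟩ := Metric.eventually_nhds_iff.1 hpb
    refine ⟨δ, h0, hpa.mono fun n h8 => cont_entry (q n) t δ v fun s hs => ?_⟩
    exact h6 h8 (h7 (by rw [Real.dist_eq, sub_zero, abs_of_nonneg hs.1]; exact hs.2))
  have lo : ∀ a, a < T → ∀ᶠ n in atTop, a < tp (table (q n).1.1) (bd (q n).1.1 t) v := by
    intro a ha
    obtain ⟨a', a0, a1⟩ := exists_between (max_lt ha hT0)
    obtain ⟨δ, h0, h1⟩ := ent
    have hK : IsCompact ((fun s : ℝ => bd ρ t + s * v) '' Icc δ a') :=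
      isCompact_Icc.image (by fun_prop)
    obtain ⟨η, η0, h2⟩ := hK.exists_cthickening_subset_open ho (by
      rintro _ ⟨s, hs, rfl⟩
      exact i1 s ⟨h0.trans_le hs.1, hT ▸ hs.2.trans_lt a1⟩)
    obtain ⟨κ, κ0, h3⟩ := (htab2 ρ hpw.cp).2.2 _ hK.cthickening h2
    filter_upwards [h1, Metric.tendstoUniformly_iff.1 hu κ κ0,
      Metric.tendsto_nhds.1 hyn η η0] with n h4 h5 h6
    refine ((le_max_left _ _).trans_lt a0).trans_le ((hn n).1 a'
      ((le_max_right _ _).trans_lt a0) fun s hs => ?_)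
    rcases lt_or_ge s δ with h7 | h7
    · exact h4 s ⟨hs.1, h7⟩
    · refine h3 _ (fun x => ?_) (mem_cthickening_of_dist_le _ (bd ρ t + s * v) _ _
        ⟨s, ⟨h7, hs.2.le⟩, rfl⟩ (by rw [dist_add_right]; exact h6.le))
      have := h5 x
      rw [dist_comm, Real.dist_eq] at this
      exact this.le
  have h1 : Tendsto (fun n => tp (table (q n).1.1) (bd (q n).1.1 t) v) atTop (𝓝 T) :=
    tendsto_order.2 ⟨lo, up⟩
  refine ⟨hT ▸ h1, ?_⟩
  have h2 := hyn.add (((Complex.continuous_ofReal.tendsto _).comp h1).mul_const v)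
  obtain ⟨g1, g2, -⟩ := (hpwc.2 ρ ρ' Z hpw).2.1 t'
  have h3 : bT ρ ρ' (bd ρ t, v) = (bd ρ t', refl ((ρ' t' + Complex.I) * bd ρ t') v) := by
    unfold bT
    simp only [← hT, hy', g1]
  rw [hy'] at h2
  rw [h3]
  refine h2.prodMk_nhds ?_
  have h4 := h2.mul_const (ex (-t'))
  rw [cont_bd_ex] at h4
  have h5 := cont_lim hl ht' (hpw.der t' ht').2 (Real.exp_pos _) h4
  have h6 : bd ρ t' ≠ 0 := right_ne_zero_of_mul (g1 ▸ g2)
  have h7 : Tendsto (fun n => tanf (q n).1.2 (bd (q n).1.1 t +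
      tp (table (q n).1.1) (bd (q n).1.1 t) v * v)) atTop (𝓝 ((ρ' t' + Complex.I) * bd ρ t')) := by
    refine ((((Complex.continuous_ofReal.tendsto _).comp h5).add_const Complex.I).mul h2).congr' ?_
    filter_upwards [h2.eventually_ne h6] with n h8
    simp only [Function.comp_apply] at h8 ⊢
    rw [tanf, cont_per (hpwc.1 (q n)).per t' h8]
  exact (h7.div ((Complex.continuous_conj.tendsto _).comp h7)
    ((map_ne_zero _).2 (g1 ▸ g2))).mul_const _

end

end Pool.Agent.P.MP_6b977f_mp.EB
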