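import Pool.Agent.P.MP_6b977f_mp.EB.IfE

/-! The depth function of the grooves. -/

namespace Pool.Agent.P.MP_6b977f_mp.EB

open Real MeasureTheory Filter Topology Set Metric
open scoped ContDiff BoundedContinuousFunction ComplexConjugate Pointwise ENNReal

noncomputable section

/-- `N` teeth of unit width. -/
def dep_tri (N : ℕ) (X : ℝ) : ℝ :=
  if 0 < X ∧ X < N then min (Int.fract X) (1 - Int.fract X) else 0

theorem dep_tri_eq (N : ℕ) (X : ℝ) :
    dep_tri N X = |max 0 (min X N) - round (max 0 (min X N))| := by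
  unfold dep_tri
  split_ifs with h
  · rw [min_eq_left h.2.le, max_eq_right h.1.le, abs_sub_round_eq_min]
  · rcases le_or_gt X 0 with c | c
    · rw [max_eq_left ((min_le_left _ _).trans c)]; simp
    · rw [min_eq_right (not_lt.1 fun e => h ⟨c, e⟩), max_eq_right (Nat.cast_nonneg _)]; simp

theorem dep_tri_lip (N : ℕ) (X Y : ℝ) : |dep_tri N X - dep_tri N Y| ≤ |X - Y| := by
  have k : ∀ x y : ℝ, |x - round x| - |y - round y| ≤ |x - y| := fun x y => by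
    have h1 := round_le x (round y)
    have h2 := abs_sub_le x y (round y)
    linarith
  have h : |max 0 (min X N) - max 0 (min Y N)| ≤ |X - Y| :=
    (abs_max_sub_max_le_max _ _ _ _).trans (max_le (by simp)
      ((abs_min_sub_min_le_max _ _ _ _).trans (max_le le_rfl (by simp))))
  rw [dep_tri_eq, dep_tri_eq, abs_sub_le_iff]
  exact ⟨(k _ _).trans h, (k _ _).trans (by rwa [abs_sub_comm])⟩

theorem dep_tri_bd (N : ℕ) (X : ℝ) : 0 ≤ dep_tri N X ∧ dep_tri N X ≤ 1 := by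
  rw [dep_tri_eq]
  exact ⟨abs_nonneg _, (abs_sub_round _).trans (by norm_num)⟩

theorem dep_tri_aff {N : ℕ} {X : ℝ} (h : ∀ k : ℕ, k ≤ 2 * N → X ≠ k / 2) :
    ∃ m, Aff (dep_tri N) X m ∧ (¬(0 < X ∧ X < N ∧ Int.fract X ≠ 0) → m = 0) := by
  by_cases c : 0 < X ∧ X < N
  · have h0 : 0 ≤ ⌊X⌋ := Int.floor_nonneg.2 c.1.le
    obtain ⟨k, hk⟩ := Int.eq_ofNat_of_zero_le h0
    have h1 : (k : ℝ) ≤ X := by exact_mod_cast hk ▸ Int.floor_le X
    have h2 : X < k + 1 := by exact_mod_cast hk ▸ Int.lt_floor_add_one X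
    have h3 : k < N := by exact_mod_cast h1.trans_lt c.2
    have h4 : (k : ℝ) + 1 ≤ N := by exact_mod_cast h3
    have h5 : (k : ℝ) < X := h1.lt_of_ne fun e => h (2 * k) (by omega) (by push_cast; linarith)
    have h6 : X ≠ k + 1 / 2 := fun e => h (2 * k + 1) (by omega) (by push_cast; linarith)
    have e : ∀ Y ∈ Ioo (k : ℝ) (k + 1), dep_tri N Y = min (Y - k) (1 - (Y - k)) := fun Y hY => by
      have : ⌊Y⌋ = k := Int.floor_eq_iff.2 ⟨by exact_mod_cast hY.1.le, by exact_mod_cast hY.2⟩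
      rw [dep_tri, if_pos ⟨(Nat.cast_nonneg k).trans_lt hY.1, hY.2.trans_le h4⟩, Int.fract, this]
      simp
    have z : ∀ m : ℝ, ¬(0 < X ∧ X < N ∧ Int.fract X ≠ 0) → m = 0 := fun m hm =>
      (hm ⟨c.1, c.2, by rw [Int.fract, hk]; simpa using (sub_pos.2 h5).ne'⟩).elim
    rcases lt_or_gt_of_ne h6 with a | a
    · refine ⟨1, ?_, z _⟩
      filter_upwards [Ioo_mem_nhds h5 a] with Y hY
      rw [e X ⟨h5, h2⟩, e Y ⟨hY.1, by linarith [hY.2]⟩, min_eq_left (by linarith [hY.2]),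
        min_eq_left (by linarith)]
      ring
    · refine ⟨-1, ?_, z _⟩
      filter_upwards [Ioo_mem_nhds a h2] with Y hY
      rw [e X ⟨h5, h2⟩, e Y ⟨by linarith [hY.1], hY.2⟩, min_eq_right (by linarith [hY.1]),
        min_eq_right (by linarith)]
      ring
  · refine ⟨0, ?_, fun _ => rfl⟩
    have e : dep_tri N X = 0 := if_neg c
    rcases lt_trichotomy X 0 with a | a | a
    · filter_upwards [Iio_mem_nhds a] with Y hY
      rw [e, dep_tri, if_neg fun b => lt_asymm b.1 hY]; simp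
    · exact (h 0 (by omega) (by simpa using a)).elim
    · have : (N : ℝ) < X := (not_lt.1 fun b => c ⟨a, b⟩).lt_of_ne fun b =>
        h (2 * N) le_rfl (by push_cast; linarith)
      filter_upwards [Ioi_mem_nhds this] with Y hY
      rw [e, dep_tri, if_neg fun b => lt_asymm b.2 hY]; simp

/-- The parameters of the cell number `j`. -/
def dep_w {P : Poly} {N : ℕ} (w : Cl P N → Th) (s j : ℕ) : Th :=
  w (⟨min s P.S, by omega⟩, ⟨min j N, by omega⟩)

/-- The profile of the cell number `j`. -/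
def dep_F {P : Poly} {N : ℕ} (α₀ : ℝ) (w : Cl P N → Th) (s j : ℕ) (σ : ℝ) : ℝ :=
  pd (P.L s) N * tan (α₀ * (1 + (dep_w w s j).2)) *
    dep_tri N ((σ - j * (P.L s / N)) / pd (P.L s) N - (dep_w w s j).1)

variable {P : Poly} {N : ℕ} {α₀ : ℝ} {w : Cl P N → Th} {s : ℕ}

theorem dep_eq (σ : ℝ) : dep P N α₀ w s σ =
    if 0 < σ ∧ σ < P.L s then dep_F α₀ w s ⌊σ / (P.L s / N)⌋₊ σ else 0 := by
  unfold dep
  by_cases h : 0 < σ ∧ σ < P.L s
  · rw [if_pos h]
    split_ifs with c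
    · rw [dep_F, dep_tri, if_pos ⟨c.2.2.1, c.2.2.2.1⟩]; rfl
    · rw [dep_F, dep_tri]
      split_ifs with c'
      · have : Int.fract (cX (P.L s) N (w (cell P N s σ)).1 σ) = 0 :=
          by_contra fun e => c ⟨h.1, h.2, c'.1, c'.2, e⟩
        erw [this]; simp
      · simp
  · rw [if_neg h, if_neg fun c => h ⟨c.1, c.2.1⟩]

theorem dep_tan (h0 : 0 < α₀) (h1 : α₀ ≤ π / 16) (a : unitInterval) :
    0 ≤ tan (α₀ * (1 + a)) ∧ tan (α₀ * (1 + a)) ≤ tan (2 * α₀) ∧ tan (2 * α₀) ≤ 1 := by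
  have := a.2.1
  have := a.2.2
  have := pi_pos
  refine ⟨tan_nonneg_of_nonneg_of_le_pi_div_two (by positivity) (by nlinarith),
    strictMonoOn_tan.monotoneOn ⟨by nlinarith, by nlinarith⟩ ⟨by linarith, by linarith⟩
      (by nlinarith), ?_⟩
  rw [← tan_pi_div_four]
  exact strictMonoOn_tan.monotoneOn ⟨by linarith, by linarith⟩ ⟨by linarith, by linarith⟩
    (by linarith)

theorem dep_F_lip (h0 : 0 < α₀) (h1 : α₀ ≤ π / 16) (hp : 0 < pd (P.L s) N) (j : ℕ) (σ σ' : ℝ) :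
    |dep_F α₀ w s j σ - dep_F α₀ w s j σ'| ≤ tan (2 * α₀) * |σ - σ'| := by
  obtain ⟨t0, t1, -⟩ := dep_tan h0 h1 (dep_w w s j).2
  rw [dep_F, dep_F, ← mul_sub, abs_mul, abs_of_nonneg (by positivity)]
  refine (mul_le_mul_of_nonneg_left (dep_tri_lip ..) (by positivity)).trans ?_
  rw [sub_sub_sub_cancel_right, ← sub_div, sub_sub_sub_cancel_right, abs_div, abs_of_pos hp,
    mul_comm (pd _ _), mul_assoc, mul_div_cancel₀ _ hp.ne']
  exact mul_le_mul_of_nonneg_right t1 (abs_nonneg _)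

theorem dep_F_ends (hp : 0 < pd (P.L s) N) (j : ℕ) : dep_F α₀ w s j (j * (P.L s / N)) = 0 ∧
    dep_F α₀ w s j ((j + 1) * (P.L s / N)) = 0 := by
  have := (dep_w w s j).1.2.1
  have := (dep_w w s j).1.2.2
  have e : ((j + 1) * (P.L s / N) - j * (P.L s / N)) / pd (P.L s) N = N + 1 := by
    rw [div_eq_iff hp.ne', pd]; field_simp; ring
  constructor
  · rw [dep_F, dep_tri, if_neg fun c => by simp at c; linarith [c.1], mul_zero]
  · rw [dep_F, dep_tri, e, if_neg fun c => by linarith [c.2], mul_zero]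

theorem dep_nonneg (h0 : 0 < α₀) (h1 : α₀ ≤ π / 16) (hp : 0 < pd (P.L s) N) (σ : ℝ) :
    0 ≤ dep P N α₀ w s σ ∧ dep P N α₀ w s σ ≤ pd (P.L s) N := by
  rw [dep_eq]
  split_ifs
  · obtain ⟨t0, t1, t2⟩ := dep_tan h0 h1 (dep_w w s ⌊σ / (P.L s / N)⌋₊).2
    refine ⟨mul_nonneg (mul_nonneg hp.le t0) (dep_tri_bd ..).1, ?_⟩
    rw [dep_F, mul_assoc]
    exact mul_le_of_le_one_right hp.le (mul_le_one₀ (t1.trans t2) (dep_tri_bd ..).1 (dep_tri_bd ..).2)
  · exact ⟨le_rfl, hp.le⟩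

theorem dep_lip (h0 : 0 < α₀) (h1 : α₀ ≤ π / 16) (hL : 0 < P.L s) (hN : 1 ≤ N) (σ σ' : ℝ) :
    |dep P N α₀ w s σ - dep P N α₀ w s σ'| ≤ tan (2 * α₀) * |σ - σ'| := by
  wlog h : σ ≤ σ' generalizing σ σ'
  · rw [abs_sub_comm, abs_sub_comm σ]; exact this _ _ (le_of_not_ge h)
  have N0 : (0 : ℝ) < N := by exact_mod_cast hN
  have hl : 0 < P.L s / N := by positivity
  have hp : 0 < pd (P.L s) N := by unfold pd; positivity
  have t0 : 0 ≤ tan (2 * α₀) := (dep_tan h0 h1 0).1.trans (dep_tan h0 h1 0).2.1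
  by_cases c : (0 < σ ∧ σ' < P.L s) ∧ ⌊σ / (P.L s / N)⌋₊ = ⌊σ' / (P.L s / N)⌋₊
  · rw [dep_eq, dep_eq, if_pos ⟨c.1.1, h.trans_lt c.1.2⟩, if_pos ⟨c.1.1.trans_le h, c.1.2⟩, c.2]
    exact dep_F_lip h0 h1 hp ..
  have lo : ∀ x, 0 ≤ x → (⌊x / (P.L s / N)⌋₊ : ℝ) * (P.L s / N) ≤ x := fun x hx =>
    (le_div_iff₀ hl).1 (Nat.floor_le (by positivity))
  have hi : ∀ x, x < (⌊x / (P.L s / N)⌋₊ + 1 : ℝ) * (P.L s / N) := fun x =>
    (div_lt_iff₀ hl).1 (Nat.lt_floor_add_one _)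
  have st : 0 < σ → σ' < P.L s → (⌊σ / (P.L s / N)⌋₊ + 1 : ℝ) * (P.L s / N) ≤
      ⌊σ' / (P.L s / N)⌋₊ * (P.L s / N) := fun a b => by
    refine mul_le_mul_of_nonneg_right ?_ hl.le
    exact_mod_cast (Nat.floor_mono (div_le_div_of_nonneg_right h hl.le)).lt_of_ne
      fun e => c ⟨⟨a, b⟩, e⟩
  have b1 : dep P N α₀ w s σ ≤ tan (2 * α₀) * |σ - σ'| := by
    rw [dep_eq]
    split_ifs with a
    · have := dep_F_lip (w := w) h0 h1 hp ⌊σ / (P.L s / N)⌋₊ σ
        ((⌊σ / (P.L s / N)⌋₊ + 1) * (P.L s / N))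
      rw [(dep_F_ends hp _).2, sub_zero] at this
      refine ((le_abs_self _).trans this).trans (mul_le_mul_of_nonneg_left ?_ t0)
      rw [abs_of_nonpos (by linarith [hi σ]), abs_of_nonpos (by linarith)]
      rcases lt_or_ge σ' (P.L s) with b | b
      · linarith [st a.1 b, lo σ' (a.1.le.trans h)]
      · have h2 : ⌊σ / (P.L s / N)⌋₊ < N := (Nat.floor_lt (div_pos a.1 hl).le).2 (by
          rw [div_lt_iff₀ hl, mul_div_cancel₀ _ N0.ne']; exact a.2)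
        have h3 : (⌊σ / (P.L s / N)⌋₊ + 1 : ℝ) ≤ N := by exact_mod_cast h2
        have := mul_le_mul_of_nonneg_right h3 hl.le
        rw [mul_div_cancel₀ _ N0.ne'] at this
        linarith
    · positivity
  have b2 : dep P N α₀ w s σ' ≤ tan (2 * α₀) * |σ - σ'| := by
    rw [dep_eq]
    split_ifs with a
    · have := dep_F_lip (w := w) h0 h1 hp ⌊σ' / (P.L s / N)⌋₊ σ'
        (⌊σ' / (P.L s / N)⌋₊ * (P.L s / N))
      rw [(dep_F_ends hp _).1, sub_zero] at this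
      refine ((le_abs_self _).trans this).trans (mul_le_mul_of_nonneg_left ?_ t0)
      rw [abs_of_nonneg (by linarith [lo σ' a.1.le]), abs_of_nonpos (by linarith)]
      rcases lt_or_ge 0 σ with b | b
      · linarith [st b a.2, hi σ]
      · have : 0 ≤ (⌊σ' / (P.L s / N)⌋₊ : ℝ) * (P.L s / N) := by positivity
        linarith
    · positivity
  rw [abs_sub_le_iff]
  constructor <;> linarith [(dep_nonneg (w := w) h0 h1 hp σ).1, (dep_nonneg (w := w) h0 h1 hp σ').1]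

theorem dep_aff (hL : 0 < P.L s) (hN : 1 ≤ N) : ∃ B : Set ℝ, B.Finite ∧ ∀ a ∉ B, ∃ m,
    Aff (dep P N α₀ w s) a m ∧ (¬InG (P.L s) N (w (cell P N s a)).1 a → m = 0) := by
  have N0 : (0 : ℝ) < N := by exact_mod_cast hN
  have hl : 0 < P.L s / N := by positivity
  have hp : 0 < pd (P.L s) N := by unfold pd; positivity
  refine ⟨(fun j : ℕ => j * (P.L s / N)) '' Iic N ∪ (fun q : ℕ × ℕ => q.1 * (P.L s / N) +
    pd (P.L s) N * ((dep_w w s q.1).1 + q.2 / 2)) '' (Iic N ×ˢ Iic (2 * N)),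
    ((finite_Iic N).image _).union (((finite_Iic N).prod (finite_Iic _)).image _), fun a ha => ?_⟩
  rcases lt_trichotomy a 0 with a0 | a0 | a0
  · refine ⟨0, ?_, fun _ => rfl⟩
    filter_upwards [Iio_mem_nhds a0] with y hy
    rw [dep_eq, dep_eq, if_neg fun c => lt_asymm c.1 hy, if_neg fun c => lt_asymm c.1 a0]; simp
  · exact (ha (Or.inl ⟨0, Nat.zero_le N, by simp [a0]⟩)).elim
  rcases lt_trichotomy (P.L s) a with a1 | a1 | a1
  · refine ⟨0, ?_, fun _ => rfl⟩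
    filter_upwards [Ioi_mem_nhds a1] with y hy
    rw [dep_eq, dep_eq, if_neg fun c => lt_asymm c.2 hy, if_neg fun c => lt_asymm c.2 a1]; simp
  · exact (ha (Or.inl ⟨N, le_refl N, by simp only [← a1]; field_simp⟩)).elim
  have h2 : ⌊a / (P.L s / N)⌋₊ < N := (Nat.floor_lt (div_pos a0 hl).le).2 (by
    rw [div_lt_iff₀ hl, mul_div_cancel₀ _ N0.ne']; exact a1)
  have lo : (⌊a / (P.L s / N)⌋₊ : ℝ) * (P.L s / N) < a :=
    ((le_div_iff₀ hl).1 (Nat.floor_le (by positivity))).lt_of_ne fun e => ha (Or.inl ⟨_, h2.le, e⟩)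
  have hi : a < (⌊a / (P.L s / N)⌋₊ + 1 : ℝ) * (P.L s / N) :=
    (div_lt_iff₀ hl).1 (Nat.lt_floor_add_one _)
  obtain ⟨m, m1, m2⟩ := dep_tri_aff (N := N) (X := cX (P.L s) N (w (cell P N s a)).1 a)
    fun k hk e => ha (Or.inr ⟨(⌊a / (P.L s / N)⌋₊, k), ⟨h2.le, hk⟩, by
      simp only [← e, cX]
      rw [show (w (cell P N s a)) = dep_w w s ⌊a / (P.L s / N)⌋₊ from rfl]
      field_simp; ring⟩)
  refine ⟨tan (α₀ * (1 + (w (cell P N s a)).2)) * m, ?_, fun c => by rw [m2 c, mul_zero]⟩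
  have hc : Continuous fun y : ℝ => (y - ⌊a / (P.L s / N)⌋₊ * (P.L s / N)) / pd (P.L s) N -
      (w (cell P N s a)).1 := by fun_prop
  filter_upwards [Ioo_mem_nhds a0 a1, Ioo_mem_nhds lo hi, (hc.tendsto a).eventually m1]
    with y y1 y2 y3
  have e : ⌊y / (P.L s / N)⌋₊ = ⌊a / (P.L s / N)⌋₊ := (Nat.floor_eq_iff (div_pos y1.1 hl).le).2
    ⟨(le_div_iff₀ hl).2 y2.1.le, (div_lt_iff₀ hl).2 y2.2⟩
  rw [dep_eq, dep_eq, if_pos ⟨y1.1, y1.2⟩, if_pos ⟨a0, a1⟩, e, dep_F, dep_F]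
  rw [show (w (cell P N s a)) = dep_w w s ⌊a / (P.L s / N)⌋₊ from rfl] at y3 ⊢
  rw [y3, cX]
  field_simp; ring

theorem t_dep : S_DEP := by
  intro P c α₀ N w hP h0 h1 hN
  have N0 : (0 : ℝ) < N := by exact_mod_cast hN
  refine ⟨fun s hs => ?_, fun s hs => ?_⟩
  · have hL := hP.len s hs
    have hp : 0 < pd (P.L s) N := by unfold pd; positivity
    refine ⟨fun σ => ⟨(dep_nonneg h0 h1 hp σ).1, (dep_nonneg h0 h1 hp σ).2.trans ?_⟩,
      fun σ h => by rw [dep_eq]; exact if_neg h, dep_lip h0 h1 hL hN⟩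
    refine (div_le_self (by positivity) (by linarith)).trans (div_le_div_of_nonneg_right ?_ N0.le)
    exact Finset.single_le_sum (fun i hi => (hP.len i (Finset.mem_range.1 hi)).le)
      (Finset.mem_range.2 hs)
  have hL := hP.len s hs
  have hl : 0 < P.L s / N := by positivity
  have hp : 0 < pd (P.L s) N := by unfold pd; positivity
  obtain ⟨B, hB, h⟩ := dep_aff (α₀ := α₀) (w := w) hL hN
  refine ⟨hB.subset fun a ha => by_contra fun c => ?_, fun a ha hG x hx => ?_, ?_⟩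
  · obtain ⟨m, hm, -⟩ := h a c
    exact ha.2 m hm
  · have u0 := (w (cell P N s a)).1.2.1
    have u1 := (w (cell P N s a)).1.2.2
    have k0 : (0 : ℝ) ≤ ⌊cX (P.L s) N (w (cell P N s a)).1 a⌋ := by
      exact_mod_cast Int.floor_nonneg.2 hG.1.le
    have k1 : (⌊cX (P.L s) N (w (cell P N s a)).1 a⌋ : ℝ) + 1 ≤ N := by
      exact_mod_cast (Int.floor_lt (z := N)).2 (by exact_mod_cast hG.2.1)
    have h2 : ⌊a / (P.L s / N)⌋₊ < N := (Nat.floor_lt (div_pos ha.1 hl).le).2 (by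
      rw [div_lt_iff₀ hl, mul_div_cancel₀ _ N0.ne']; exact ha.2)
    have h3 : (⌊a / (P.L s / N)⌋₊ + 1 : ℝ) ≤ N := by exact_mod_cast h2
    have h4 := mul_le_mul_of_nonneg_right h3 hl.le
    rw [mul_div_cancel₀ _ N0.ne'] at h4
    set y := a + pd (P.L s) N * (x - Int.fract (cX (P.L s) N (w (cell P N s a)).1 a))
    have e : y - ⌊a / (P.L s / N)⌋₊ * (P.L s / N) = pd (P.L s) N *
        ((w (cell P N s a)).1 + (⌊cX (P.L s) N (w (cell P N s a)).1 a⌋ + x)) := by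
      simp only [y, Int.fract]
      nth_rw 1 [cX]
      field_simp; ring
    have e1 : 0 < y - ⌊a / (P.L s / N)⌋₊ * (P.L s / N) := by
      rw [e]; exact mul_pos hp (by linarith [hx.1])
    have e2 : y - ⌊a / (P.L s / N)⌋₊ * (P.L s / N) < P.L s / N := by
      rw [e, show P.L s / N = pd (P.L s) N * (N + 1) by rw [pd]; field_simp]
      exact mul_lt_mul_of_pos_left (by linarith [hx.2]) hp
    have e3 : 0 ≤ (⌊a / (P.L s / N)⌋₊ : ℝ) * (P.L s / N) := by positivity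
    have y1 : y ∈ Ioo 0 (P.L s) := ⟨by linarith, by linarith⟩
    have e4 : ⌊y / (P.L s / N)⌋₊ = ⌊a / (P.L s / N)⌋₊ := (Nat.floor_eq_iff (div_pos y1.1 hl).le).2
      ⟨(le_div_iff₀ hl).2 (by linarith), (div_lt_iff₀ hl).2 (by linarith)⟩
    refine ⟨y1, ?_⟩
    rw [dep_eq, if_pos ⟨y1.1, y1.2⟩, e4, dep_F, e, mul_div_cancel_left₀ _ hp.ne',
      show dep_w w s ⌊a / (P.L s / N)⌋₊ = w (cell P N s a) from rfl, add_sub_cancel_left, dep_tri,
      if_pos ⟨by linarith [hx.1], by linarith [hx.2]⟩, Int.fract_intCast_add,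
      Int.fract_eq_self.2 ⟨hx.1.le, hx.2⟩]
  · filter_upwards [compl_mem_ae_iff.2 (hB.measure_zero volume)] with a ha hG
    obtain ⟨m, hm, e⟩ := h a ha
    exact e hG ▸ hm

end

end Pool.Agent.P.MP_6b977f_mp.EB
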