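import Pool.Agent.P.MP_6b977f_mp.EB.IfE

/-! The ergodicity criterion holds on an open dense set of tables. -/

namespace Pool.Agent.P.MP_6b977f_mp.EB

open Real MeasureTheory Filter Topology Set Metric
open scoped ContDiff BoundedContinuousFunction ComplexConjugate Pointwise ENNReal

noncomputable section

lemma egen_near_trans {a b : ℝ} {f g h : ℝ → ℝ} (h1 : Near a f g) (h2 : Near b g h) :
    Near (a + b) f h := by
  refine ⟨fun x => ?_, fun x y => ?_⟩
  · have e : f x - h x = (f x - g x) + (g x - h x) := by ring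
    rw [e]; exact (abs_add_le _ _).trans (add_le_add (h1.1 x) (h2.1 x))
  · have e : (f x - h x) - (f y - h y) =
        ((f x - g x) - (f y - g y)) + ((g x - h x) - (g y - h y)) := by ring
    rw [e, add_mul]; exact (abs_add_le _ _).trans (add_le_add (h1.2 x y) (h2.2 x y))

lemma egen_bd (q p : C1) (t : ℝ) : |q.1.2 t| ≤ ‖p.1.2‖ + dist q p := by
  have h1 : dist (q.1.2 t) (p.1.2 t) ≤ dist q p := by
    refine (BoundedContinuousFunction.dist_coe_le_dist t).trans ?_
    rw [Subtype.dist_eq, Prod.dist_eq]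
    exact le_max_right _ _
  have h2 : |p.1.2 t| ≤ ‖p.1.2‖ := p.1.2.norm_coe_le_norm t
  rw [Real.dist_eq] at h1
  have e : q.1.2 t = p.1.2 t + (q.1.2 t - p.1.2 t) := by ring
  rw [e]
  exact (abs_add_le _ _).trans (add_le_add h2 h1)

theorem t_egen (heopen : S_EOPEN) (hemc : S_EMC) (hapx : S_APX) (hins : S_INS)
    (hsmooth : S_SMOOTH) (hpwc : S_PWC) : S_EGEN := by
  intro ψ ε hε
  constructor
  · rw [← isClosed_compl_iff]
    apply IsSeqClosed.isClosed
    intro q p hq hqp hp
    have h1 : Tendsto (fun n => (q n).1.1) atTop (𝓝 p.1.1) :=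
      ((continuous_fst.comp continuous_subtype_val).tendsto p).comp hqp
    have h2 : Tendsto (fun n => (q n).1.2) atTop (𝓝 p.1.2) :=
      ((continuous_snd.comp continuous_subtype_val).tendsto p).comp hqp
    obtain ⟨K, hK⟩ := h2.norm.bddAbove_range
    obtain ⟨n, hn⟩ := (heopen p.1.1 p.1.2 ∅ q ψ ε K (hpwc.1 p)
      (BoundedContinuousFunction.tendsto_iff_tendstoUniformly.1 h1)
      (BoundedContinuousFunction.tendsto_iff_tendstoUniformly.1
        h2).tendstoUniformlyOn.tendstoLocallyUniformlyOn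
      (fun n t => ((q n).1.2.norm_coe_le_norm t).trans (hK ⟨n, rfl⟩)) hp).exists
    exact hq n hn
  · rw [Metric.dense_iff]
    intro p r hr
    have hη : 0 < r / 4 := by positivity
    obtain ⟨P, ρ, c, hOk, hRho, hN, -⟩ := hins p (r / 4) hη
    obtain ⟨σ, Z, hPW, hN', hM⟩ := hemc P ρ c ε (r / 4) ψ hOk hRho hε hη
    obtain ⟨q, hq, hu, hl⟩ := hsmooth p σ _ hPW.cp (egen_near_trans hN' hN)
    have hU : IsOpen {t : ℝ | ex t ∉ Z} := by
      have hc : Continuous ex := by unfold ex; fun_prop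
      exact (Z.finite_toSet.isClosed.preimage hc).isOpen_compl
    obtain ⟨n, hn⟩ := (heopen σ (deriv σ) Z q ψ ε (‖p.1.2‖ + (r / 4 + r / 4)) hPW hu
      (hl _ (deriv σ) hU (fun t ht => (hPW.der t ht).2.continuousWithinAt)
        fun t ht => (hPW.der t ht).1)
      (fun n t => (egen_bd (q n) p t).trans (by linarith [hq n]))
      (hapx σ _ Z ψ ε hPW hM)).exists
    exact ⟨q n, by rw [mem_ball]; linarith [hq n], hn⟩

end

end Pool.Agent.P.MP_6b977f_mp.EB
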