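import Pool.Agent.P.MP_6b977f_mp.EB.IfE

/-! Grooved polygons satisfy the measurable ergodicity criterion. -/

namespace Pool.Agent.P.MP_6b977f_mp.EB

open Real MeasureTheory Filter Topology Set Metric
open scoped ContDiff BoundedContinuousFunction ComplexConjugate Pointwise ENNReal

noncomputable section

lemma emc_angle {κ : ℝ} (hκ : 0 < κ) : ∃ α : ℝ, 0 < α ∧ α ≤ π / 16 ∧ tan (2 * α) ≤ κ := by
  have h1 : 0 < arctan κ := arctan_pos.2 hκ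
  have h2 := arctan_lt_pi_div_two κ
  have h3 := pi_pos
  have h4 : 0 < min (π / 16) (arctan κ / 2) := lt_min (by positivity) (by positivity)
  have h5 := min_le_right (π / 16) (arctan κ / 2)
  refine ⟨min (π / 16) (arctan κ / 2), h4, min_le_left _ _, ?_⟩
  calc tan (2 * min (π / 16) (arctan κ / 2)) ≤ tan (arctan κ) :=
        strictMonoOn_tan.monotoneOn ⟨by linarith, by linarith⟩ ⟨by linarith, h2⟩ (by linarith)
    _ = κ := tan_arctan κ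

lemma emc_dep {P : Poly} {D : ℕ → ℝ → ℝ} {κ δ κ' δ' : ℝ} (h : Dep P D κ δ) (h1 : κ ≤ κ')
    (h2 : δ ≤ δ') : Dep P D κ' δ' := fun s hs =>
  ⟨fun σ => ⟨((h s hs).1 σ).1, ((h s hs).1 σ).2.trans h2⟩, (h s hs).2.1,
    fun σ σ' => ((h s hs).2.2 σ σ').trans (mul_le_mul_of_nonneg_right h1 (abs_nonneg _))⟩

theorem t_emc (hgt1 : S_GT1) (hgt2 : S_GT2) (hgt3 : S_GT3) (hdep : S_DEP) (hppw : S_PPW)
    (hpbm : S_PBM) (ht0 : S_T0) (hcob : S_COB) (hgd : S_GD) (htr : S_TR) (hsan : S_SAN)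
    (hbm : S_BM) (htab : S_TAB) (htab2 : S_TAB2) (hmp : S_MP) : S_EMC := by
  intro P ρ c ε η ψ hOk hRho hε hη
  have hc := hOk.c_pos
  obtain ⟨⟨Z₀, hPW⟩, -, -⟩ := hppw P ρ c hOk hRho
  obtain ⟨hfin, hio, hae, hbmeq⟩ := hpbm P ρ c hOk hRho
  obtain ⟨⟨κ, hκ, hκio⟩, T, hT⟩ := ht0 P ρ c hOk hRho
  have hcm : IsFiniteMeasure cm := hbm.1.1
  have hvol : IsFiniteMeasure (volume.restrict (table ρ)) :=
    isFiniteMeasure_restrict.2 (htab ρ hRho.1).2.2.2.2.2.2.2.2.2.2.ne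
  have hliou : IsFiniteMeasure (liou (table ρ)) := by unfold liou; infer_instance
  obtain ⟨c₀, hc₀⟩ : ∃ c₀ : ℝ, ∫ x, (ψ x - c₀) ∂liou (table ρ) = 0 :=
    ⟨_, integral_sub_average (liou (table ρ)) ψ⟩
  have hψm : Measurable fun x => ψ x - c₀ := (ψ.continuous.sub continuous_const).measurable
  have hψb : ∀ x, |ψ x - c₀| ≤ ‖ψ‖ + |c₀| := fun x =>
    (abs_sub _ _).trans (add_le_add (ψ.norm_coe_le_norm x) le_rfl)
  have hψ : BM fun x => ψ x - c₀ := ⟨hψm, _, hψb⟩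
  obtain ⟨hchm, M', hM'⟩ := (hbm.2 ρ _ Z₀ hPW).2.2.2.2 _ hψ
  obtain ⟨f, hfe⟩ : ∃ f : XX → ℝ, ∀ x, f x =
      if x.1 < P.S then chord (table ρ) (fun x => ψ x - c₀) (P.io x) else 0 := ⟨_, fun _ => rfl⟩
  have hfae : ∀ᵐ x ∂P.mP, f x = chord (table ρ) (fun x => ψ x - c₀) (P.io x) := by
    filter_upwards [hae] with x hx
    rw [hfe, if_pos hx.1]
  have hf : BM f := by
    refine ⟨?_, |M'|, fun x => ?_⟩
    · rw [show f = _ from funext hfe]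
      exact Measurable.ite (measurableSet_lt measurable_fst measurable_const) (hchm.comp hio)
        measurable_const
    · rw [hfe]
      split_ifs with h
      · refine (hM' _ ?_).trans (le_abs_self _)
        show ‖P.e x.1 * ex x.2.2‖ = 1
        rw [norm_mul, hOk.unit _ h, one_mul]
        exact Complex.norm_exp_ofReal_mul_I _
      · simp
  have hf0 : ∫ x, f x ∂P.mP = 0 := by
    rw [integral_congr_ae hfae, ← integral_map hio.aemeasurable hchm.aestronglyMeasurable,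
      ← hbmeq, ← (hsan ρ _ Z₀ hPW).2 _ hψ, hc₀]
  have hε2 : 0 < ε / 2 := by positivity
  obtain ⟨ε', hε', hε'lt⟩ := ENNReal.exists_pos_mul_lt
    (a := ENNReal.ofReal (‖ψ‖ + |c₀|) * cm univ) (b := ENNReal.ofReal (ε / 2))
    (ENNReal.mul_ne_top ENNReal.ofReal_ne_top (measure_ne_top _ _))
    (ENNReal.ofReal_pos.2 hε2).ne'
  obtain ⟨δ, hδ, hδv⟩ := (htab2 ρ hRho.1).2.1 ε' hε'
  obtain ⟨κ₁, δ₁, hκ₁, hδ₁, hG⟩ := hgt1 P ρ c (min η δ) hOk hRho (lt_min hη hδ)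
  obtain ⟨α₀, hα0, hα1, hα2⟩ := emc_angle (lt_min hκ₁ (half_pos hc))
  obtain ⟨N₀, hN₀⟩ := exists_nat_ge ((∑ s ∈ Finset.range P.S, P.L s) / δ₁)
  obtain ⟨N, hN, w, h, hh, hlt⟩ := hcob P ρ c α₀ (ε / 2) T f (N₀ + 1) hOk hRho hT hα0 hα1 hε2 hf hf0
  have hN1 : 1 ≤ N := by omega
  have hα3 : tan (2 * α₀) ≤ c / 2 := hα2.trans (min_le_right _ _)
  obtain ⟨hD, hD2⟩ := hdep P c α₀ N w hOk hα0 hα1 hN1
  obtain ⟨σ, hGrv, hNear⟩ := hG _ (emc_dep hD (hα2.trans (min_le_left _ _)) (by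
    have h1 : (N₀ : ℝ) ≤ N := by exact_mod_cast (show N₀ ≤ N by omega)
    have h2 : (0 : ℝ) < N := by exact_mod_cast (show 0 < N by omega)
    rw [div_le_iff₀ hδ₁] at hN₀
    rw [div_le_iff₀ h2]
    nlinarith))
  obtain ⟨Z, hPWσ⟩ := hgt3 P ρ σ c _ _ _ _ hOk hRho hα3 hD hGrv hNear fun s hs => (hD2 s hs).1
  have hsub := (hgt2 P ρ σ c _ _ _ hOk hRho hα3 hD hGrv).1
  have hmpT : MeasurePreserving (Tw P N α₀ T w) P.mP P.mP :=
    (hmp P c α₀ N w hOk hα0 hα1 hN1).comp hT.1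
  obtain ⟨h', hh', hle⟩ := htr ρ _ Z₀ σ _ Z P.mP P.io κ (Tw P N α₀ T w) (fun x => ψ x - c₀) h
    (‖ψ‖ + |c₀|) hPW hPWσ hsub hio hκ hbmeq hκio hmpT
    (hgd P ρ σ c α₀ N w T hOk hRho hT hα0 hα1 hα3 hN1 hGrv) hψm hψb hh
  refine ⟨σ, Z, hPWσ, ⟨fun x => (hNear.1 x).trans (min_le_left _ _), fun x y =>
    (hNear.2 x y).trans (mul_le_mul_of_nonneg_right (min_le_left _ _) (abs_nonneg _))⟩,
    c₀, h', hh', lt_of_le_of_lt hle ?_⟩
  have e1 : (∫⁻ x, ENNReal.ofReal |chord (table ρ) (fun x => ψ x - c₀) (P.io x) -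
      (h (Tw P N α₀ T w x) - h x)| ∂P.mP) =
      ∫⁻ x, ENNReal.ofReal |f x - (h (Tw P N α₀ T w x) - h x)| ∂P.mP := by
    refine lintegral_congr_ae ?_
    filter_upwards [hfae] with x hx
    rw [hx]
  have e2 : volume (table σ \ table ρ) ≤ ε' :=
    (measure_mono (show table σ \ table ρ ⊆ symmDiff (table σ) (table ρ) from le_sup_left)).trans
      (hδv σ hGrv.1 fun x => (hNear.1 x).trans (min_le_right _ _)).le
  have e3 : ENNReal.ofReal (‖ψ‖ + |c₀|) * (volume (table σ \ table ρ) * cm univ) <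
      ENNReal.ofReal (ε / 2) := by
    refine lt_of_le_of_lt ?_ hε'lt
    rw [mul_left_comm]
    exact mul_le_mul_left e2 _
  rw [e1, ← add_halves ε, ENNReal.ofReal_add hε2.le hε2.le]
  exact ENNReal.add_lt_add hlt e3

end

end Pool.Agent.P.MP_6b977f_mp.EB
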