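import Pool.Agent.P.MP_6b977f_mp.EB.IfE

/-! The ergodicity criterion is stable under approximation of the table. -/

namespace Pool.Agent.P.MP_6b977f_mp.EB

open Real MeasureTheory Filter Topology Set Metric
open scoped ContDiff BoundedContinuousFunction ComplexConjugate Pointwise ENNReal

noncomputable section

theorem eopen_bd {ρ : ℝ → ℝ} (h : Continuous ρ) : Continuous (bd ρ) := by
  unfold bd ex; fun_prop

theorem eopen_norm (ρ : ℝ → ℝ) (t : ℝ) : ‖bd ρ t‖ = Real.exp (ρ t) := by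
  rw [bd, ex, norm_mul, Complex.norm_exp_ofReal_mul_I, mul_one, Complex.norm_real,
    Real.norm_of_nonneg (exp_pos _).le]

theorem eopen_den (hpwc : S_PWC) {ρ ρ' : ℝ → ℝ} {Z : Finset ℂ} (h : PW ρ ρ' Z) :
    Measurable fun x : ℝ × ℂ => ENNReal.ofReal (cross (tanf ρ' (bd ρ x.1)) x.2) := by
  have h1 := h.meas
  have h2 := h.cp.1.measurable
  simp only [fun t => ((hpwc.2 ρ ρ' Z h).2.1 t).1, cross]
  unfold bd ex
  fun_prop

theorem eopen_cross (a v : ℂ) : cross a v ≤ ‖a‖ * ‖v‖ := by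
  have : cross a v = (conj a * v).im := by simp [cross]; ring
  rw [this]
  exact (Complex.im_le_norm _).trans (by simp)

theorem t_eopen (hcont : S_CONT) (hinv : S_INV) (hbm : S_BM) (hpwc : S_PWC) (htp : S_TP)
    (htab : S_TAB) : S_EOPEN := by
  rintro ρ ρ' Z q ψ ε K hP hu hl hK ⟨c, h, hc⟩
  have := hbm.1.1
  have hψ : Continuous fun x => ψ x - c := by fun_prop
  have hB : ∀ x, |ψ x - c| ≤ ‖ψ‖ + |c| := fun x =>
    (abs_sub _ _).trans (add_le_add_left (ψ.norm_coe_le_norm x) _)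
  set G : (ℝ → ℝ) → (ℝ → ℝ) → ℂ × ℂ → ℝ := fun σ σ' x =>
    |chord (table σ) (fun x => ψ x - c) x - (h (bT σ σ' x) - h x)| with hG
  have mG : ∀ σ σ' Z', PW σ σ' Z' → Measurable fun x => ENNReal.ofReal (G σ σ' x) :=
    fun σ σ' Z' hσ => by
      have h1 := (hbm.2 σ σ' Z' hσ).2.1
      have h2 := ((hbm.2 σ σ' Z' hσ).2.2.2.2 _ ⟨hψ.measurable, _, hB⟩).1
      have h3 := h.continuous.measurable
      simp only [hG]
      fun_prop
  have mb : ∀ σ : ℝ → ℝ, Continuous σ → Measurable fun x : ℝ × ℂ => (bd σ x.1, x.2) :=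
    fun σ hσ => ((eopen_bd hσ).measurable.comp measurable_fst).prodMk measurable_snd
  have e : ∀ σ σ' Z', PW σ σ' Z' → cob σ σ' (fun x => ψ x - c) h =
      ∫⁻ x : ℝ × ℂ, ENNReal.ofReal (cross (tanf σ' (bd σ x.1)) x.2) *
        ENNReal.ofReal (G σ σ' (bd σ x.1, x.2)) ∂(volume.restrict (Ioc (-π) π)).prod cm :=
    fun σ σ' Z' hσ => by
      rw [cob, bm, lintegral_map (mG σ σ' Z' hσ) (mb σ hσ.cp.1)]
      exact lintegral_withDensity_eq_lintegral_mul _ (eopen_den hpwc hσ)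
        ((mG σ σ' Z' hσ).comp (mb σ hσ.cp.1))
  obtain ⟨M, hM⟩ : ∃ M, ∀ t, ρ t ≤ M := by
    obtain ⟨M, hM⟩ := (hP.cp.2.isBounded_of_continuous (by positivity) hP.cp.1).bddAbove
    exact ⟨M, fun t => hM ⟨t, rfl⟩⟩
  have hq := fun n => hpwc.1 (q n)
  have b1 : ∀ᶠ n in atTop, ∀ t, (q n).1.1 t ≤ M + 1 := by
    filter_upwards [Metric.tendstoUniformly_iff.1 hu 1 one_pos] with n hn t
    have := hn t
    rw [Real.dist_eq, abs_lt] at this
    linarith [hM t, this.1]
  have b2 : ∀ᶠ n in atTop, ∀ t v, ‖v‖ = 1 → G (q n).1.1 (q n).1.2 (bd (q n).1.1 t, v) ≤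
      (‖ψ‖ + |c|) * (2 * Real.exp (M + 1)) + 2 * ‖h‖ := by
    filter_upwards [b1] with n hn t v hv
    obtain ⟨o1, o2, -⟩ := htab _ (hq n).cp
    obtain ⟨-, t1, -, t2⟩ := htp _ o1 o2
    have t3 : tp (table (q n).1.1) (bd (q n).1.1 t) v ≤ 2 * Real.exp (M + 1) := by
      refine (t2 _ v (by rintro rfl; simp at hv)).2.2.2.2.1 _ (by positivity) fun hz => ?_
      have h1 : ‖_‖ < Real.exp (M + 1) := hz.trans_le (exp_le_exp.2 (hn _))
      have h2 := norm_sub_le (bd (q n).1.1 t + (2 * Real.exp (M + 1) : ℝ) * v) (bd (q n).1.1 t)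
      rw [add_sub_cancel_left, norm_mul, hv, Complex.norm_real, Real.norm_of_nonneg (by positivity),
        eopen_norm] at h2
      linarith [exp_le_exp.2 (hn t)]
    refine (abs_sub _ _).trans (add_le_add ?_ ((abs_sub _ _).trans ?_))
    · refine (intervalIntegral.norm_integral_le_of_norm_le_const (C := ‖ψ‖ + |c|)
        (f := fun s : ℝ => ψ (bd (q n).1.1 t + s * v, v) - c) fun s _ => hB _).trans ?_
      rw [sub_zero, abs_of_nonneg (t1 _ _)]
      exact mul_le_mul_of_nonneg_left t3 (by positivity)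
    · exact (add_le_add (h.norm_coe_le_norm _) (h.norm_coe_le_norm _)).trans_eq (two_mul _).symm
  have a1 : ∀ᵐ x ∂(volume.restrict (Ioc (-π) π)).prod cm, ‖x.2‖ = 1 :=
    Measure.quasiMeasurePreserving_snd.ae hbm.1.2.2.1
  have a2 : ∀ᵐ x ∂(volume.restrict (Ioc (-π) π)).prod cm, ex x.1 ∉ Z := by
    refine Measure.quasiMeasurePreserving_fst.ae (p := fun t => ex t ∉ Z) ?_
    filter_upwards [ae_restrict_mem measurableSet_Ioc, ae_restrict_of_ae (compl_mem_ae_iff.2
      (((hpwc.2 ρ ρ' Z hP).2.2 (-π) π).measure_zero volume))] with t h1 h2 h3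
    exact h2 ⟨Ioc_subset_Icc_self h1, h3⟩
  have a3 := (ae_withDensity_iff (eopen_den hpwc hP)).1
    (ae_of_ae_map (mb ρ hP.cp.1).aemeasurable (hinv ρ ρ' Z hP).2)
  have key : Tendsto (fun n => cob (q n).1.1 (q n).1.2 (fun x => ψ x - c) h) atTop
      (𝓝 (cob ρ ρ' (fun x => ψ x - c) h)) := by
    simp only [fun n => e _ _ _ (hq n), e ρ ρ' Z hP]
    refine tendsto_lintegral_filter_of_dominated_convergence
      (fun _ => ENNReal.ofReal ((K + 1) * Real.exp (M + 1)) *
        ENNReal.ofReal ((‖ψ‖ + |c|) * (2 * Real.exp (M + 1)) + 2 * ‖h‖))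
      (Eventually.of_forall fun n => (eopen_den hpwc (hq n)).mul
        ((mG _ _ _ (hq n)).comp (mb _ (hq n).cp.1))) ?_ ?_ ?_
    · filter_upwards [b1, b2] with n h1 h2
      filter_upwards [a1] with x hx
      refine mul_le_mul' (ENNReal.ofReal_le_ofReal ((eopen_cross _ _).trans ?_))
        (ENNReal.ofReal_le_ofReal (h2 _ _ hx))
      rw [hx, mul_one, ((hpwc.2 _ _ _ (hq n)).2.1 _).1, norm_mul, eopen_norm]
      refine mul_le_mul ((norm_add_le _ _).trans ?_) (exp_le_exp.2 (h1 _)) (by positivity)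
        (by linarith [(abs_nonneg _).trans (hK 0 0)])
      simpa using hK n x.1
    · rw [lintegral_const]
      finiteness
    filter_upwards [a1, a2, a3] with x x1 x2 x3
    have l1 : Tendsto (fun n => bd (q n).1.1 x.1) atTop (𝓝 (bd ρ x.1)) :=
      ((Complex.continuous_ofReal.comp continuous_exp).tendsto _ |>.comp
        (hu.tendsto_at x.1)).mul_const _
    have l2 : Tendsto (fun n => ENNReal.ofReal (cross (tanf (q n).1.2 (bd (q n).1.1 x.1)) x.2))
        atTop (𝓝 (ENNReal.ofReal (cross (tanf ρ' (bd ρ x.1)) x.2))) := by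
      simp only [fun n => ((hpwc.2 _ _ _ (hq n)).2.1 x.1).1, ((hpwc.2 _ _ _ hP).2.1 x.1).1]
      have : Continuous fun y : ℝ × ℂ => ENNReal.ofReal (cross ((y.1 + Complex.I) * y.2) x.2) := by
        refine ENNReal.continuous_ofReal.comp ?_
        unfold cross; fun_prop
      have l0 := (hl.tendsto_at (a := x.1) x2).prodMk_nhds l1
      simpa only [Function.comp_def] using (this.tendsto (ρ' x.1, bd ρ x.1)).comp l0
    by_cases c0 : ENNReal.ofReal (cross (tanf ρ' (bd ρ x.1)) x.2) = 0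
    · rw [c0] at l2
      rw [c0, zero_mul]
      have l3 := ENNReal.Tendsto.mul_const (b := ENNReal.ofReal
        ((‖ψ‖ + |c|) * (2 * Real.exp (M + 1)) + 2 * ‖h‖)) l2 (Or.inr ENNReal.ofReal_ne_top)
      rw [zero_mul] at l3
      refine tendsto_of_tendsto_of_tendsto_of_le_of_le' tendsto_const_nhds l3
        (Eventually.of_forall fun _ => zero_le) ?_
      filter_upwards [b2] with n hn
      exact mul_le_mul' le_rfl (ENNReal.ofReal_le_ofReal (hn _ _ x1))
    obtain ⟨t, y1, y2, y3⟩ := x3 c0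
    obtain ⟨l3, l4⟩ := hcont ρ ρ' Z q x.1 t x.2 hP hu hl x1 x2
      (not_le.1 fun a => c0 (ENNReal.ofReal_eq_zero.2 a)) y1 y2 y3
    refine ENNReal.Tendsto.mul l2 (Or.inr ENNReal.ofReal_ne_top) (ENNReal.tendsto_ofReal ?_)
      (Or.inr ENNReal.ofReal_ne_top)
    refine (Tendsto.sub ?_ (((h.continuous.tendsto _).comp l4).sub
      ((h.continuous.tendsto _).comp (l1.prodMk_nhds tendsto_const_nhds)))).abs
    have := intervalIntegral.continuous_parametric_primitive_of_continuous (μ := volume) (a₀ := 0)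
      (f := fun (z : ℂ) (t : ℝ) => ψ (z + t * x.2, x.2) - c) (by unfold Function.uncurry; fun_prop)
    simpa only [Function.comp_def, chord] using
      (this.tendsto (bd ρ x.1, _)).comp (l1.prodMk_nhds l3)
  filter_upwards [key.eventually_lt_const hc] with n hn
  exact ⟨c, h, hn⟩

end

end Pool.Agent.P.MP_6b977f_mp.EB
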