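import Pool.Agent.P.MP_6b977f_mp.EB.IfE

/-! The ergodicity criterion. -/

namespace Pool.Agent.P.MP_6b977f_mp.EB

open Real MeasureTheory Filter Topology Set Metric
open scoped ContDiff BoundedContinuousFunction ComplexConjugate Pointwise ENNReal

theorem erg_w (hsan : S_SAN) {ρ ρ' : ℝ → ℝ} {Z : Finset ℂ} (hρ : PW ρ ρ' Z)
    (htm : Measurable fun x : ℂ × ℂ => tp (table ρ) x.1 x.2) {A : Set (ℂ × ℂ)}
    (hA : MeasurableSet A) : (Measurable fun x : ℂ × ℂ => volume {t : ℝ |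
      t ∈ Ioo 0 (tp (table ρ) x.1 x.2) ∧ (x.1 + t * x.2, x.2) ∈ A}) ∧
    liou (table ρ) A = ∫⁻ x, volume {t : ℝ |
      t ∈ Ioo 0 (tp (table ρ) x.1 x.2) ∧ (x.1 + t * x.2, x.2) ∈ A} ∂bm ρ ρ' := by
  have hS : MeasurableSet {p : (ℂ × ℂ) × ℝ | p.2 ∈ Ioo 0 (tp (table ρ) p.1.1 p.1.2) ∧
      (p.1.1 + p.2 * p.1.2, p.1.2) ∈ A} :=
    ((measurableSet_lt measurable_const measurable_snd).inter
      (measurableSet_lt measurable_snd (htm.comp measurable_fst))).inter (hA.preimage (by fun_prop))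
  refine ⟨measurable_measure_prodMk_left hS, ?_⟩
  rw [← lintegral_indicator_one hA, (hsan ρ ρ' Z hρ).1 _ (measurable_one.indicator hA)]
  refine lintegral_congr fun y => ?_
  refine Eq.trans ?_ (lintegral_indicator_one (measurable_prodMk_left (x := y) hS))
  rw [← lintegral_indicator measurableSet_Ioo]
  refine lintegral_congr fun t => ?_
  by_cases k : t ∈ Ioo 0 (tp (table ρ) y.1 y.2) <;>
    by_cases k' : (y.1 + (t : ℝ) * y.2, y.2) ∈ A <;> simp [indicator, k, k', -mem_Ioo]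

theorem erg_key (hsan : S_SAN) (hinv : S_INV) (hbm : S_BM) {ρ ρ' : ℝ → ℝ} {Z : Finset ℂ}
    (hρ : PW ρ ρ' Z) [IsFiniteMeasure (liou (table ρ))] (ht0 : ∀ z v, 0 ≤ tp (table ρ) z v)
    {A B : Set (ℂ × ℂ)} (hA : MeasurableSet A) (hB : MeasurableSet B)
    (h1 : ∀ᵐ x : ℂ × ℂ ∂bm ρ ρ', ∀ᵐ t : ℝ, t ∈ Ioo 0 (tp (table ρ) x.1 x.2) →
      (((x.1 + (t : ℂ) * x.2, x.2) : ℂ × ℂ) ∈ A ↔ x ∈ B)) (h2 : ∀ᵐ x ∂bm ρ ρ', x ∈ B ↔ bT ρ ρ' x ∈ B)
    (ψ h : ℂ × ℂ →ᵇ ℝ) {c ε : ℝ} (hε : 0 ≤ ε)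
    (hc : cob ρ ρ' (fun x => ψ x - c) h ≤ ENNReal.ofReal ε) :
    |(∫ z in A, ψ z ∂liou (table ρ)) - c * (liou (table ρ)).real A| ≤ ε := by
  obtain ⟨hfin, hT, hae, -, hch⟩ := hbm.2 ρ ρ' Z hρ
  have hp := (hinv ρ ρ' Z hρ).1
  have hm : Measurable fun x => ψ x - c := ψ.continuous.measurable.sub_const c
  have hb : ∀ x, |ψ x - c| ≤ ‖ψ‖ + |c| := fun x =>
    (abs_sub _ _).trans (add_le_add (ψ.norm_coe_le_norm x) le_rfl)
  obtain ⟨hcm, M, hM⟩ := hch _ ⟨hm, _, hb⟩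
  have e1 := (hsan ρ ρ' Z hρ).2 (A.indicator fun x => ψ x - c) ⟨hm.indicator hA, _, fun x =>
    (norm_indicator_le_norm_self (fun x => ψ x - c) x).trans (hb x)⟩
  rw [integral_indicator hA, integral_sub (ψ.integrable _) (integrable_const c),
    setIntegral_const, smul_eq_mul, mul_comm] at e1
  have e2 : (fun x => chord (table ρ) (A.indicator fun x => ψ x - c) x) =ᵐ[bm ρ ρ']
      B.indicator (chord (table ρ) fun x => ψ x - c) := by
    filter_upwards [h1] with x hx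
    by_cases k : x ∈ B
    · rw [indicator_of_mem k, chord, chord, intervalIntegral.integral_of_le (ht0 _ _),
        intervalIntegral.integral_of_le (ht0 _ _), integral_Ioc_eq_integral_Ioo,
        integral_Ioc_eq_integral_Ioo]
      exact setIntegral_congr_ae measurableSet_Ioo
        (hx.mono fun t ht k' => indicator_of_mem ((ht k').2 k) _)
    · rw [indicator_of_notMem k, chord, intervalIntegral.integral_of_le (ht0 _ _),
        integral_Ioc_eq_integral_Ioo, setIntegral_congr_ae (g := fun _ => 0) measurableSet_Ioo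
        (hx.mono fun t ht k' => indicator_of_notMem (mt (ht k').1 k) _), integral_zero]
  have i1 : Integrable (chord (table ρ) fun x => ψ x - c) (bm ρ ρ') :=
    .of_bound hcm.aestronglyMeasurable M (hae.mono fun x hx => hM x hx.1)
  have i2 : Integrable h (bm ρ ρ') := h.integrable _
  have i3 : Integrable (fun x => h (bT ρ ρ' x)) (bm ρ ρ') := hp.integrable_comp_of_integrable i2
  have e3 : ∫ x in B, h (bT ρ ρ' x) ∂bm ρ ρ' = ∫ x in B, h x ∂bm ρ ρ' := by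
    have := integral_map (μ := bm ρ ρ') hT.aemeasurable
      (f := B.indicator h) (h.continuous.measurable.indicator hB).aestronglyMeasurable
    rw [hp.map_eq] at this
    rw [← integral_indicator hB, ← integral_indicator hB, this]
    refine integral_congr_ae (h2.mono fun x hx => ?_)
    by_cases k : x ∈ B
    · simp only [indicator_of_mem k, indicator_of_mem (hx.1 k)]
    · simp only [indicator_of_notMem k, indicator_of_notMem (mt hx.2 k)]
  have e4 := integral_sub (μ := (bm ρ ρ').restrict B) i1.restrict (i3.sub i2).restrict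
  simp only [Pi.sub_apply] at e4
  rw [integral_sub i3.restrict i2.restrict, e3, sub_self, sub_zero] at e4
  rw [e1, integral_congr_ae e2, integral_indicator hB, ← e4, ← Real.norm_eq_abs]
  refine (norm_integral_le_lintegral_norm _).trans (ENNReal.toReal_le_of_le_ofReal hε
    ((setLIntegral_le_lintegral _ _).trans ?_))
  simpa only [cob, Real.norm_eq_abs] using hc

theorem t_erg (hsan : S_SAN) (hinv : S_INV) (hbm : S_BM) (hpwc : S_PWC) (htp : S_TP)
    (htab : S_TAB) : S_ERG := by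
  intro p ψ hsep hcrit S hS hinvS
  have hρ := hpwc.1 p
  generalize (⇑p.1.1 : ℝ → ℝ) = ρ at *
  generalize (⇑p.1.2 : ℝ → ℝ) = ρ' at *
  obtain ⟨-, -, hae, -, -⟩ := hbm.2 ρ ρ' _ hρ
  obtain ⟨hp, hbd⟩ := hinv ρ ρ' _ hρ
  obtain ⟨htm, ht0, -, hin⟩ := htp _ (htab ρ hρ.cp).1 (htab ρ hρ.cp).2.1
  have hcm := hbm.1.1
  have : Fact (volume (table ρ) < ⊤) := ⟨(htab ρ hρ.cp).2.2.2.2.2.2.2.2.2.2⟩
  have hL : IsFiniteMeasure (liou (table ρ)) := by unfold liou; infer_instance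
  set L := liou (table ρ)
  have hS0 := hS.toMeasurable_ae_eq
  have hm0 := measurableSet_toMeasurable L S
  set S₀ := toMeasurable L S
  obtain ⟨N, hN, hNm, hN0⟩ := exists_measurable_superset_of_null (ae_iff.1 hS0.mem_iff)
  obtain ⟨w1, w2⟩ := erg_w hsan hρ htm hNm
  have hgood := (lintegral_eq_zero_iff w1).1 (w2.symm.trans hN0)
  set S₁ := {x : ℂ × ℂ | volume {t : ℝ | t ∈ Ioo 0 (tp (table ρ) x.1 x.2) ∧
    (x.1 + t * x.2, x.2) ∈ S₀} ≠ 0}
  have hm1 : MeasurableSet S₁ := ((erg_w hsan hρ htm hm0).1 (measurableSet_singleton 0)).compl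
  set mid : ℂ × ℂ → ℂ × ℂ := fun x => (x.1 + (tp (table ρ) x.1 x.2 / 2 : ℝ) * x.2, x.2) with hmid
  have hb : ∀ᵐ x : ℂ × ℂ ∂bm ρ ρ', 0 < tp (table ρ) x.1 x.2 ∧
      ∀ t : ℝ, t ∈ Ioo 0 (tp (table ρ) x.1 x.2) → x.1 + (t : ℂ) * x.2 ∈ table ρ :=
    hae.mono fun x ⟨h1, _, h2⟩ => ⟨h2.2.2.2, (hin _ _ (by rintro h; simp [h] at h1)).1⟩
  have h1 : ∀ᵐ x : ℂ × ℂ ∂bm ρ ρ', (x ∈ S₁ ↔ mid x ∈ S) ∧ ∀ᵐ t : ℝ, t ∈ Ioo 0 (tp (table ρ) x.1 x.2) →
      (((x.1 + (t : ℂ) * x.2, x.2) : ℂ × ℂ) ∈ S₀ ↔ mid x ∈ S) := by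
    filter_upwards [hb, hgood] with x hx hg
    have h2 : ∀ᵐ t : ℝ, t ∈ Ioo 0 (tp (table ρ) x.1 x.2) →
        (((x.1 + (t : ℂ) * x.2, x.2) : ℂ × ℂ) ∈ S₀ ↔ mid x ∈ S) := by
      filter_upwards [measure_eq_zero_iff_ae_notMem.1 hg] with t h3 ht
      refine (not_not.1 fun k => h3 ⟨ht, hN k⟩ : _ ∈ S₀ ↔ _ ∈ S).trans
        (hinvS _ _ (Or.inl ⟨rfl, ⟨tp (table ρ) x.1 x.2 / 2 - t, by simp [hmid]; ring⟩, ?_⟩))
      rintro _ ⟨a, b, ha, hb, hab, rfl⟩
      have h4 := hx.2 _ (convex_Ioo _ _ ht ⟨half_pos hx.1, half_lt_self hx.1⟩ ha hb hab)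
      have h5 : (b : ℂ) = 1 - a := by exact_mod_cast eq_sub_of_add_eq' hab
      refine mem_of_eq_of_mem ?_ h4
      simp only [hmid, Complex.real_smul, smul_eq_mul]
      push_cast
      rw [h5]
      ring
    refine ⟨⟨fun k => by_contra fun k' => k (measure_eq_zero_iff_ae_notMem.2
      (h2.mono fun t ht k'' => k' ((ht k''.1).1 k''.2))), fun k k' => ?_⟩, h2⟩
    have h3 : volume (Ioo 0 (tp (table ρ) x.1 x.2)) = 0 := measure_eq_zero_iff_ae_notMem.2 (by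
      filter_upwards [h2, measure_eq_zero_iff_ae_notMem.1 k'] with t h4 h5 ht
      exact h5 ⟨ht, (h4 ht).2 k⟩)
    simp [hx.1.not_ge] at h3
  have h2 : ∀ᵐ x ∂bm ρ ρ', x ∈ S₁ ↔ bT ρ ρ' x ∈ S₁ := by
    filter_upwards [h1, hp.quasiMeasurePreserving.ae h1, hb, hp.quasiMeasurePreserving.ae hb, hbd]
      with x a a' b b' ⟨φ, e, _, hc⟩
    have e' := ((hpwc.2 ρ ρ' _ hρ).2.1 φ).1
    rw [a.1, a'.1]
    refine hinvS _ _ (Or.inr ⟨φ, _, _, half_pos b.1, half_pos b'.1, e' ▸ hc, ?_, ?_, ?_,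
      fun r hr => ?_, fun r hr => ?_⟩)
    · rw [← e', ← e]; rfl
    · rw [← e]; simp [hmid, bT]; ring
    · rw [← e]
    · refine mem_of_eq_of_mem ?_ (b.2 (tp (table ρ) x.1 x.2 / 2 + r)
        ⟨by linarith [hr.1, b.1], by linarith [hr.2]⟩)
      simp [hmid]; ring
    · rw [← e]
      exact b'.2 r ⟨hr.1, by linarith [hr.2, b'.1]⟩
  have h3 : L univ • L.restrict S₀ = L S₀ • L := by
    refine hsep _ _ (Measure.smul_finite _ (measure_ne_top _ _))
      (Measure.smul_finite _ (measure_ne_top _ _)) fun n => ?_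
    rw [integral_smul_measure, integral_smul_measure, smul_eq_mul, smul_eq_mul, ← sub_eq_zero,
      ← abs_nonpos_iff, ← measureReal_def, ← measureReal_def]
    have := (tendsto_one_div_add_atTop_nhds_zero_nat (𝕜 := ℝ)).const_mul (L.real univ + L.real S₀)
    rw [mul_zero] at this
    refine ge_of_tendsto' this fun k => ?_
    obtain ⟨c, h, hc⟩ := hcrit n k
    have a := erg_key hsan hinv hbm hρ ht0 hm0 hm1
      (h1.mono fun x hx => hx.2.mono fun t ht k => (ht k).trans hx.1.symm) h2 (ψ n) h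
      (by positivity) hc.le
    have b := erg_key hsan hinv hbm hρ ht0 .univ .univ (by simp) (by simp) (ψ n) h
      (by positivity) hc.le
    rw [Measure.restrict_univ] at b
    have u := measureReal_nonneg (μ := L) (s := univ)
    have v := measureReal_nonneg (μ := L) (s := S₀)
    rw [abs_le] at a b ⊢
    constructor <;> nlinarith [a.1, a.2, b.1, b.2]
  have h4 := congrArg (fun ν : Measure (ℂ × ℂ) => ν S₀ᶜ) h3
  simp only [Measure.smul_apply, Measure.restrict_apply hm0.compl, compl_inter_self, measure_empty,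
    smul_eq_mul, mul_zero] at h4
  rw [← measure_congr hS0, ← measure_congr hS0.compl]
  exact mul_eq_zero.1 h4.symm

end Pool.Agent.P.MP_6b977f_mp.EB
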