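import Pool.Agent.P.MP_6b977f_mp.EB.IfE

/-! A countable family of test functions that separates finite measures. -/

namespace Pool.Agent.P.MP_6b977f_mp.EB

open Real MeasureTheory Filter Topology Set Metric
open scoped ContDiff BoundedContinuousFunction ComplexConjugate Pointwise ENNReal

theorem fam_cont (μ : Measure (ℂ × ℂ)) [IsFiniteMeasure μ] : Continuous (charFunDual μ) :=
  continuous_of_dominated (F := fun (L : StrongDual ℝ (ℂ × ℂ)) v => Complex.exp (L v * Complex.I))
    (bound := fun _ => 1) (fun L => Continuous.aestronglyMeasurable (by fun_prop))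
    (fun L => .of_forall fun v => (Complex.norm_exp_ofReal_mul_I _).le) (integrable_const _)
    (.of_forall fun v => by fun_prop)

theorem t_fam : S_FAM := by
  obtain ⟨e, he⟩ := exists_surjective_nat (ℕ × Bool)
  set L := TopologicalSpace.denseSeq (StrongDual ℝ (ℂ × ℂ))
  let f : ℕ × Bool → ℂ × ℂ →ᵇ ℝ := fun p => BoundedContinuousFunction.ofNormedAddCommGroup
    (fun x => if p.2 then cos (L p.1 x) else sin (L p.1 x)) (by split_ifs <;> fun_prop) 1
    fun x => by split_ifs; exacts [abs_cos_le_one _, abs_sin_le_one _]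
  refine ⟨f ∘ e, fun μ ν _ _ h => Measure.ext_of_charFunDual
    ((TopologicalSpace.denseRange_denseSeq _).equalizer (fam_cont μ) (fam_cont ν)
      (funext fun n => ?_))⟩
  have h1 : ∀ p, ∫ x, f p x ∂μ = ∫ x, f p x ∂ν := he.forall.2 h
  have k : ∀ (m : Measure (ℂ × ℂ)) [IsFiniteMeasure m], charFunDual m (L n) =
      (∫ x, f (n, true) x ∂m : ℝ) + (∫ x, f (n, false) x ∂m : ℝ) * Complex.I := fun m _ => by
    have i : ∀ p, Integrable (fun x => (f p x : ℂ)) m := fun p => ((f p).integrable m).ofReal
    rw [← integral_complex_ofReal, ← integral_complex_ofReal, ← integral_mul_const,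
      ← integral_add (i _) ((i _).mul_const _),
      charFunDual_apply]
    simp [f, Complex.exp_mul_I]
  simp only [Function.comp]
  rw [k, k, h1, h1]

end Pool.Agent.P.MP_6b977f_mp.EB
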