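import Pool.Agent.P.MP_6b977f_mp.EB.IfE

/-! Chords of the polygon extend to chords of the grooved table. -/

namespace Pool.Agent.P.MP_6b977f_mp.EB

open Real MeasureTheory Filter Topology Set Metric
open scoped ContDiff BoundedContinuousFunction ComplexConjugate Pointwise ENNReal

noncomputable section

lemma gd_ae (P : Poly) (Q : ℕ → ℝ → Prop) (h : ∀ s < P.S, ∀ᵐ a, Q s a) :
    ∀ᵐ x ∂P.mP, Q x.1 x.2.1 := by
  unfold Poly.mP
  rw [ae_finsetSum_measure_iff]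
  intro s hs
  rw [(measurableEmbedding_prodMk_left s).ae_map_iff]
  have : SFinite sm := by unfold sm; infer_instance
  exact Measure.quasiMeasurePreserving_fst.ae (ae_restrict_of_ae (h s (Finset.mem_range.1 hs)))

open Classical in
lemma gd_core (htp : S_TP) {Ω Ω' : Set ℂ} (ho : IsOpen Ω) (hb : Bornology.IsBounded Ω)
    (ho' : IsOpen Ω') (hb' : Bornology.IsBounded Ω') (hsub : Ω ⊆ Ω') {y y' v : ℂ} (hv : v ≠ 0)
    (hy : y ∉ Ω) (hT : 0 < tp Ω y v) (hy' : y + tp Ω y v * v = y')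
    (h1 : y ∈ Ω' → ∀ t ∈ Ico 0 (tp Ω' y (-v)), y + (t : ℝ) * (-v) ∉ Ω)
    (h2 : y' ∈ Ω' → ∀ t ∈ Ico 0 (tp Ω' y' v), y' + (t : ℝ) * v ∉ Ω) :
    ∃ a : ℝ, 0 ≤ a ∧ lam Ω' (y, v) = (y - a * v, v) ∧ a + tp Ω y v ≤ tp Ω' (y - a * v) v ∧
      (∀ t ∈ Ioo 0 (tp Ω' (y - a * v) v), (y - a * v + t * v ∈ Ω ↔ a < t ∧ t < a + tp Ω y v)) ∧
      y - a * v + tp Ω' (y - a * v) v * v =
        y' + (if y' ∈ Ω' then tp Ω' y' v else 0 : ℝ) * v := by
  obtain ⟨a, ha⟩ : ∃ a : ℝ, a = if y ∈ Ω' then tp Ω' y (-v) else 0 := ⟨_, rfl⟩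
  obtain ⟨u, hu⟩ : ∃ u : ℝ, u = if y' ∈ Ω' then tp Ω' y' v else 0 := ⟨_, rfl⟩
  obtain ⟨T, hT'⟩ : ∃ T, T = tp Ω y v := ⟨_, rfl⟩
  have p0 := (htp Ω' ho' hb').2.1
  have i1 := ((htp Ω ho hb).2.2.2 y v hv).1
  have j1 := ((htp Ω' ho' hb').2.2.2 y (-v) (neg_ne_zero.2 hv)).1
  obtain ⟨k1, k2, k3, -⟩ := (htp Ω' ho' hb').2.2.2 y' v hv
  obtain ⟨-, -, -, l4, l5, -⟩ := (htp Ω' ho' hb').2.2.2 (y - a * v) v hv
  have a0 : 0 ≤ a := by
    rw [ha]
    split_ifs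
    exacts [p0 _ _, le_rfl]
  have u0 : 0 ≤ u := by
    rw [hu]
    split_ifs
    exacts [p0 _ _, le_rfl]
  have a1 : 0 < a → y ∈ Ω' ∧ a = tp Ω' y (-v) := fun h => by
    by_cases hm : y ∈ Ω'
    · exact ⟨hm, by rw [ha, if_pos hm]⟩
    · rw [ha, if_neg hm] at h
      exact absurd h (lt_irrefl _)
  have u1 : 0 < u → y' ∈ Ω' ∧ u = tp Ω' y' v := fun h => by
    by_cases hm : y' ∈ Ω'
    · exact ⟨hm, by rw [hu, if_pos hm]⟩
    · rw [hu, if_neg hm] at h
      exact absurd h (lt_irrefl _)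
  rw [← hT'] at hT hy' i1 ⊢
  have e1 : ∀ t : ℝ, y - a * v + t * v = y + (a - t : ℝ) * (-v) := fun t => by
    push_cast
    ring
  have e2 : ∀ t : ℝ, y - a * v + t * v = y + (t - a : ℝ) * v := fun t => by
    push_cast
    ring
  have e3 : ∀ t : ℝ, y - a * v + t * v = y' + (t - a - T : ℝ) * v := fun t => by
    rw [← hy']
    push_cast
    ring
  have key : ∀ t ∈ Ioo 0 (a + T + u), y - a * v + (t : ℝ) * v ∈ Ω' ∧
      (y - a * v + (t : ℝ) * v ∈ Ω ↔ a < t ∧ t < a + T) := by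
    intro t ht
    rcases lt_trichotomy t a with h | h | h
    · obtain ⟨m1, m2⟩ := a1 (ht.1.trans h)
      rw [e1]
      exact ⟨j1 _ ⟨by linarith, by linarith [ht.1]⟩,
        iff_of_false (h1 m1 _ ⟨by linarith, by linarith [ht.1]⟩) fun h' => by linarith [h'.1]⟩
    · rw [e2, h, sub_self, Complex.ofReal_zero, zero_mul, add_zero]
      exact ⟨(a1 (h ▸ ht.1)).1, iff_of_false hy fun h' => lt_irrefl _ h'.1⟩
    · rcases lt_or_ge t (a + T) with h3 | h3
      · have := i1 (t - a) ⟨by linarith, by linarith⟩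
        rw [e2]
        exact ⟨hsub this, iff_of_true this ⟨h, h3⟩⟩
      · obtain ⟨m1, m2⟩ := u1 (by linarith [ht.2])
        rw [e3]
        refine ⟨?_, iff_of_false (h2 m1 _ ⟨by linarith, by linarith [ht.2]⟩)
          fun h' => by linarith [h'.2]⟩
        rcases h3.eq_or_lt with h4 | h4
        · rw [← h4, add_sub_cancel_left, sub_self, Complex.ofReal_zero, zero_mul, add_zero]
          exact m1
        · exact k1 _ ⟨by linarith, by linarith [ht.2]⟩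
  have e4 : y - a * v + (a + T + u : ℝ) * v = y' + u * v := by
    rw [e3]
    congr 3
    ring
  have e5 : tp Ω' (y - a * v) v = a + T + u := by
    refine le_antisymm (l5 _ (by linarith) ?_) (l4 _ (by linarith) fun t ht => (key t ht).1)
    rw [e4, hu]
    split_ifs with hm
    · exact k2 (k3 hm)
    · simpa using hm
  refine ⟨a, a0, by rw [ha]; rfl, by linarith, fun t ht => (key t (e5 ▸ ht)).2, ?_⟩
  rw [e5, e4, hu]

lemma gd_conj (t : ℝ) : conj (ex t) = ex (-t) := by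
  rw [ex, ex, ← Complex.exp_conj]
  simp

lemma gd_refl {e v : ℂ} (he : ‖e‖ = 1) {k : ℝ} (hk : 0 < k) (θ : ℝ) :
    refl (k * e) v = e * ex θ ↔ v = e * ex (-θ) := by
  have h0 : e ≠ 0 := by
    rintro rfl
    simp at he
  have h1 : conj e ≠ 0 := (map_ne_zero _).2 h0
  have h4 : (k : ℂ) ≠ 0 := by exact_mod_cast hk.ne'
  have h2 : refl (k * e) v = e * (conj v / conj e) := by
    rw [refl, map_mul, Complex.conj_ofReal]
    field_simp
  rw [h2, mul_right_inj' h0, div_eq_iff h1, ← (starRingEnd ℂ).injective.eq_iff, map_mul, gd_conj,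
    Complex.conj_conj, Complex.conj_conj, mul_comm]

lemma gd_neg (e : ℂ) (θ : ℝ) : -(e * ex θ) = e * ex (-(π - θ)) := by
  have : ((-(π - θ) : ℝ) : ℂ) * Complex.I = θ * Complex.I - π * Complex.I := by
    push_cast
    ring
  rw [ex, ex, this, Complex.exp_sub_pi_mul_I]
  ring

theorem t_gd (hgd0 : S_GD0) (hgd1 : S_GD1) (hgdt : S_GDT) (hgdn : S_GDN) (hgt2 : S_GT2)
    (hdep : S_DEP) (hppw : S_PPW) (hpbm : S_PBM) (hbm : S_BM) (htp : S_TP) (htab : S_TAB) :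
    S_GD := by
  intro P ρ σ c α₀ N w T hP hρ hT a0 a1 hc hN hG
  obtain ⟨ho, hb, -⟩ := htab ρ hρ.1
  obtain ⟨ho', hb', -⟩ := htab σ hG.1
  have hD := (hdep P c α₀ N w hP a0 a1 hN).1
  obtain ⟨hsub, g2⟩ := hgt2 P ρ σ c _ _ _ hP hρ hc hD hG
  obtain ⟨⟨Z, hpw⟩, w2, -⟩ := hppw P ρ c hP hρ
  obtain ⟨-, mio, dom, hmap⟩ := hpbm P ρ c hP hρ
  have gt := hgdt P ρ σ c α₀ N w hP hρ a0 a1 hc hN hG
  have hpos := (hbm.2 _ _ Z hpw).2.2.1
  rw [hmap] at hpos
  have q := hT.1.quasiMeasurePreserving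
  have hal : ∀ u : unitInterval, 0 < α₀ * (1 + u) ∧ α₀ * (1 + u) ≤ π / 8 := fun u =>
    ⟨mul_pos a0 (by linarith [u.2.1]), by nlinarith [u.2.2]⟩
  have hpd : ∀ s < P.S, 0 < pd (P.L s) N := fun s hs => by
    have := hP.len s hs
    have h1 : (0 : ℝ) < N := by exact_mod_cast hN
    unfold pd
    positivity
  have hfr : ∀ L u a, InG L N u a → Int.fract (cX L N u a) ∈ Ioo (0 : ℝ) 1 := fun L u a h =>
    ⟨lt_of_le_of_ne (Int.fract_nonneg _) h.2.2.symm, Int.fract_lt_one _⟩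
  have hpt : ∀ (s : ℕ) (a d f g : ℝ), P.V s + (a - d * f : ℝ) * P.e s + d * P.e s * g =
      P.V s + (a + d * (g - f) : ℝ) * P.e s := fun s a d f g => by
    push_cast
    ring
  have hav : ∀ s < P.S, ∀ a ∈ Ioo 0 (P.L s), ∀ θ ∈ Ioo 0 π, P.V s + (a : ℝ) * P.e s ∈ table σ →
      ∀ t ∈ Ico 0 (tp (table σ) (P.V s + (a : ℝ) * P.e s) (P.e s * ex (-θ))),
        P.V s + (a : ℝ) * P.e s + (t : ℝ) * (P.e s * ex (-θ)) ∉ table ρ := by
    intro s hs a ha θ hθ hm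
    have h1 : InG (P.L s) N (w (cell P N s a)).1 a := by
      by_contra hn
      exact ((gt s hs).1 a ha).1 hn hm
    have := hgd0 _ _ _ _ _ _ _ _ θ ho' hb' (hP.unit s hs) (hpd s hs) (hal _).1 (hal _).2
      (((gt s hs).1 a ha).2 h1) (hfr _ _ _ h1) hθ
    rwa [hpt, sub_self, mul_zero, add_zero] at this
  filter_upwards [dom, q.ae dom, hT.2, ae_of_ae_map mio.aemeasurable hpos,
    q.ae (hgdn P c α₀ N w hP hN), q.ae (gd_ae P _ fun s hs => (gt s hs).2)] with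
    x d0 d1 e1 hp hn ht
  obtain ⟨s, a, θ⟩ := x
  rw [Tw]
  generalize T (s, a, θ) = x' at *
  obtain ⟨s', a', θ'⟩ := x'
  obtain ⟨hs, ha, hθ⟩ := d0
  obtain ⟨hs', ha', hθ'⟩ := d1
  obtain ⟨n1, -, -, -, -, hp⟩ := hp
  dsimp only [Poly.io] at hs ha hθ hs' ha' hθ' n1 hp hn ht e1
  have hv0 : P.e s * ex θ ≠ 0 := fun h => by
    rw [h] at n1
    simp at n1
  have hy : P.V s + (a : ℝ) * P.e s ∉ table ρ := by
    have := ((g2 s hs a ha).1 0 ⟨le_rfl, ((hD s hs).1 a).1⟩).2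
    simpa [mul_comm] using this
  obtain ⟨f1, f2⟩ := Prod.ext_iff.1 e1
  dsimp only [bT] at f1 f2
  obtain ⟨k, k0, hk⟩ := w2 s' hs' a' ha'
  rw [← f1, hk] at f2
  have hv := (gd_refl (hP.unit s' hs') k0 θ').1 f2.symm
  obtain ⟨b, b0, b1, b2, b3, b4⟩ := gd_core htp ho hb ho' hb' hsub hv0 hy hp f1.symm
    (fun hm => by
      rw [gd_neg]
      exact hav s hs a ha _ ⟨by linarith [hθ.2], by linarith [hθ.1]⟩ hm)
    (fun hm => by
      rw [hv]
      exact hav s' hs' a' ha' θ' hθ' hm)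
  refine ⟨⟨b, b0, b1, b2, b3⟩, ?_⟩
  have e2 : P.io (s, a, θ) = (P.V s + (a : ℝ) * P.e s, P.e s * ex θ) := rfl
  rw [e2, b1]
  by_cases hI : InG (P.L s') N (w (cell P N s' a')).1 a'
  · have htri := ((gt s' hs').1 a' ha').2 hI
    have hf := hfr _ _ _ hI
    have hm : P.V s' + (a' : ℝ) * P.e s' ∈ table σ := by
      have h1 : 0 < tan (α₀ * (1 + (w (cell P N s' a')).2)) :=
        tan_pos_of_pos_of_lt_pi_div_two (hal _).1 (by linarith [(hal (w (cell P N s' a')).2).2, pi_pos])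
      have h2 := mul_pos h1 (lt_min hf.1 (sub_pos.2 hf.2))
      have := (htri.mem (Int.fract (cX (P.L s') N (w (cell P N s' a')).1 a') : ℝ)
        (by simpa using hf.1) (by simpa using hf.2) (by simpa using h2.le) (by simp)).1.2
        (by simpa using h2)
      rwa [hpt, sub_self, mul_zero, add_zero] at this
    rw [if_pos hm] at b4
    have e3 : bT σ (deriv σ) (P.V s + (a : ℝ) * P.e s - b * (P.e s * ex θ), P.e s * ex θ) =
        bT σ (deriv σ) (P.V s' + (a' : ℝ) * P.e s', P.e s' * ex (-θ')) := by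
      rw [← hv]
      unfold bT
      simp only [b4]
    obtain ⟨c1, c2, c3⟩ := hn _ _ rfl rfl
    have := hgd1 _ σ (deriv σ) _ _ _ _ _ θ' hG.1 (hP.unit s' hs') (hpd s' hs') (hal _).1 (hal _).2
      htri hf hθ' c1 c2 c3
    rw [hpt, hpt, sub_self, mul_zero, add_zero] at this
    rw [e3]
    simpa only [Gam, gam, if_pos hI, Poly.io] using this
  · left
    have hm := ((gt s' hs').1 a' ha').1 hI
    obtain ⟨k', k0', hk'⟩ := ht ha' hI
    rw [if_neg hm, Complex.ofReal_zero, zero_mul, add_zero] at b4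
    have eG : Gam P N α₀ (w (cell P N s' a')) (s', a', θ') = (s', a', θ') := by
      simp only [Gam, gam, if_neg hI]
    have eL : lam (table σ) (P.io (s', a', θ')) =
        (P.V s' + (a' : ℝ) * P.e s', P.e s' * ex θ') := by
      have e4 : P.io (s', a', θ') = (P.V s' + (a' : ℝ) * P.e s', P.e s' * ex θ') := rfl
      rw [e4]
      unfold lam
      rw [if_neg hm]
      simp
    refine Eq.trans ?_ (eL.symm.trans (congrArg (fun x => lam (table σ) (P.io x)) eG.symm))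
    simp only [bT, b4, hk', (gd_refl (hP.unit s' hs') k0' θ').2 hv]

end

end Pool.Agent.P.MP_6b977f_mp.EB
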