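import Pool.Agent.P.MP_6b977f_mp.EB.IfE

/-! A chord entering a groove does not meet the small table before its first bounce. -/

namespace Pool.Agent.P.MP_6b977f_mp.EB

open Real MeasureTheory Filter Topology Set Metric
open scoped ContDiff BoundedContinuousFunction ComplexConjugate Pointwise ENNReal

noncomputable section

theorem t_gd0 (htp : S_TP) : S_GD0 := by
  intro Ω Ω' τ b e d α x θ ho hb he hd a0 a1 h hx hθ t ht
  have hp := pi_pos
  have hta : 0 < tan α := tan_pos_of_pos_of_lt_pi_div_two a0 (by linarith)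
  have hs : 0 < sin θ := sin_pos_of_pos_of_lt_pi hθ.1 hθ.2
  have hv : e * ex (-θ) ≠ 0 := by
    refine mul_ne_zero ?_ (Complex.exp_ne_zero _)
    rintro rfl
    simp at he
  obtain ⟨-, -, -, -, h5, -⟩ := (htp Ω' ho hb).2.2.2 (b + d * e * x) _ hv
  have e1 : ∀ s : ℝ, b + d * e * x + (s : ℝ) * (e * ex (-θ)) =
      b + d * e * ((x + s / d * cos θ : ℝ) + (-(s / d * sin θ) : ℝ) * Complex.I) := by
    intro s
    have h0 : (d : ℂ) ≠ 0 := by exact_mod_cast hd.ne'
    rw [ex, Complex.exp_mul_I, ← Complex.ofReal_cos, ← Complex.ofReal_sin, cos_neg, sin_neg]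
    simp only [Complex.ofReal_add, Complex.ofReal_mul, Complex.ofReal_neg, Complex.ofReal_div]
    field_simp
    ring
  have hm : ∀ p q : ℝ, 0 < tan α * min p (1 - p) → -(tan α * min p (1 - p)) ≤ q → q ≤ 0 →
      (b + d * e * (p + q * Complex.I) ∈ Ω' ↔ -(tan α * min p (1 - p)) < q) ∧
        b + d * e * (p + q * Complex.I) ∉ Ω := fun p q h1 => by
    have h2 := lt_min_iff.1 (pos_of_mul_pos_right h1 hta.le)
    simpa using h.mem (p + q * Complex.I) (by simpa using h2.1) (by simpa using h2.2)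
  have hq : ∀ s : ℝ, 0 ≤ s → 0 ≤ s / d * sin θ := fun s h0 => by positivity
  rw [e1]
  by_cases h1 : t / d * sin θ < tan α * min (x + t / d * cos θ) (1 - (x + t / d * cos θ))
  · exact (hm _ _ ((hq t ht.1).trans_lt h1) (by linarith) (by linarith [hq t ht.1])).2
  have hc : Continuous fun s : ℝ => tan α * min (x + s / d * cos θ) (1 - (x + s / d * cos θ)) -
      s / d * sin θ := by fun_prop
  have h2 : 0 < tan α * min x (1 - x) := mul_pos hta (lt_min hx.1 (sub_pos.2 hx.2))
  obtain ⟨s, hs1, hs2⟩ := intermediate_value_Ioc' ht.1 hc.continuousOn (a := 0)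
    (show (0 : ℝ) ∈ _ from ⟨by linarith, by simpa using h2⟩)
  simp only at hs2
  have h3 : 0 < s / d * sin θ := mul_pos (div_pos hs1.1 hd) hs
  have h4 := (hm (x + s / d * cos θ) (-(s / d * sin θ)) (by linarith) (by linarith)
    (by linarith)).1
  have := h5 s hs1.1 (by
    rw [e1, h4]
    linarith)
  linarith [hs1.2, ht.2]

end

end Pool.Agent.P.MP_6b977f_mp.EB
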