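import Pool.Agent.P.MP_6b977f_mp.EB.IfE

/-! Passage of a billiard trajectory through one groove. -/

namespace Pool.Agent.P.MP_6b977f_mp.EB

open Real MeasureTheory Filter Topology Set Metric
open scoped ContDiff BoundedContinuousFunction ComplexConjugate Pointwise ENNReal

noncomputable section

/-- The bounce map of an open set with tangent field `τ`. -/
def gd1_B (Ω : Set ℂ) (τ : ℂ → ℂ) (x : ℂ × ℂ) : ℂ × ℂ :=
  (x.1 + tp Ω x.1 x.2 * x.2, refl (τ (x.1 + tp Ω x.1 x.2 * x.2)) x.2)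

/-- A groove in coordinates. -/
structure gd1_Co (Ω Ω' : Set ℂ) (τ : ℂ → ℂ) (P : ℝ → ℝ → ℂ) (D : ℝ → ℂ) (d α : ℝ) : Prop where
  lin : ∀ p q t φ : ℝ, P p q + (d * t : ℝ) * D φ = P (p + t * cos φ) (q + t * sin φ)
  neg : ∀ φ, -D φ = D (φ + π)
  ne : ∀ φ, D φ ≠ 0
  ins : ∀ p q, q ≤ 0 → 0 < sin α * p + cos α * q → 0 < sin α * (1 - p) + cos α * q →
    P p q ∈ Ω' ∧ P p q ∉ Ω
  left : ∀ r, 0 < r → 2 * r * cos α < 1 → P (r * cos α) (-(r * sin α)) ∉ Ω' ∧
    ∀ φ, refl (τ (P (r * cos α) (-(r * sin α)))) (D φ) = D (-(2 * α) - φ)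
  right : ∀ r, 0 < r → 2 * r * cos α < 1 → P (1 - r * cos α) (-(r * sin α)) ∉ Ω' ∧
    ∀ φ, refl (τ (P (1 - r * cos α) (-(r * sin α)))) (D φ) = D (2 * α - φ)

variable {Ω Ω' : Set ℂ} {τ : ℂ → ℂ} {P : ℝ → ℝ → ℂ} {D : ℝ → ℂ} {d α : ℝ}

lemma gd1_per (h : gd1_Co Ω Ω' τ P D d α) (φ : ℝ) : D (φ + π + π) = D φ := by
  rw [← h.neg, ← h.neg, neg_neg]

lemma gd1_mirror (h : gd1_Co Ω Ω' τ P D d α) :
    gd1_Co Ω Ω' τ (fun p q => P (1 - p) q) (fun φ => D (π - φ)) d α where
  lin p q t φ := by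
    rw [h.lin, cos_pi_sub, sin_pi_sub]
    congr 1
    ring
  neg φ := by
    rw [h.neg, ← gd1_per h (π - (φ + π))]
    congr 1
    ring
  ne φ := h.ne _
  ins p q h0 h1 h2 := h.ins _ _ h0 h2 (by rwa [sub_sub_cancel])
  left r h0 h1 := ⟨(h.right r h0 h1).1, fun φ => by
    rw [(h.right r h0 h1).2, ← gd1_per h]
    congr 1
    ring⟩
  right r h0 h1 := by
    rw [sub_sub_cancel]
    refine ⟨(h.left r h0 h1).1, fun φ => ?_⟩
    rw [(h.left r h0 h1).2, ← gd1_per h]
    congr 1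
    ring

lemma gd1_cvx {u v a t : ℝ} (h0 : 0 ≤ u) (h1 : 0 ≤ u + a * v) (h2 : 0 < u + (u + a * v))
    (t0 : 0 < t) (t1 : t < a) : 0 < u + t * v := by
  have ha : 0 < a := t0.trans t1
  have e : a * (u + t * v) = (a - t) * u + t * (u + a * v) := by ring
  refine pos_of_mul_pos_right (a := a) ?_ ha.le
  rw [e]
  rcases h0.eq_or_lt with h | h
  · have : 0 < u + a * v := by linarith
    nlinarith [mul_pos t0 this]
  · nlinarith [mul_pos (sub_pos.2 t1) h, mul_nonneg t0.le h1]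

/-- a chord of the closed triangle from `(p, q)` to `(p', q')` -/
lemma gd1_seg (htp : S_TP) (ho : IsOpen Ω') (hb : Bornology.IsBounded Ω') (hd : 0 < d)
    (h : gd1_Co Ω Ω' τ P D d α) {p q p' q' a φ : ℝ} (ha : 0 < a) (e1 : p + a * cos φ = p')
    (e2 : q + a * sin φ = q') (q0 : q ≤ 0) (q1 : q' ≤ 0)
    (l1 : 0 ≤ sin α * p + cos α * q) (l1' : 0 ≤ sin α * p' + cos α * q')
    (l2 : 0 ≤ sin α * (1 - p) + cos α * q) (l2' : 0 ≤ sin α * (1 - p') + cos α * q')
    (m1 : 0 < (sin α * p + cos α * q) + (sin α * p' + cos α * q'))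
    (m2 : 0 < (sin α * (1 - p) + cos α * q) + (sin α * (1 - p') + cos α * q'))
    (hout : P p' q' ∉ Ω') :
    tp Ω' (P p q) (D φ) = d * a ∧ P p q + tp Ω' (P p q) (D φ) * D φ = P p' q' ∧
      ∀ t ∈ Ioo 0 (tp Ω' (P p q) (D φ)), P p q + (t : ℝ) * D φ ∉ Ω := by
  subst e1 e2
  have key : ∀ t ∈ Ioo 0 (d * a), P p q + (t : ℝ) * D φ ∈ Ω' ∧ P p q + (t : ℝ) * D φ ∉ Ω := by
    intro t ht
    have t0 : 0 < t / d := div_pos ht.1 hd
    have t1 : t / d < a := by rw [div_lt_iff₀ hd, mul_comm]; exact ht.2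
    have e : t = d * (t / d) := by field_simp
    rw [e, h.lin]
    refine h.ins _ _ ?_ ?_ ?_
    · by_cases hs : 0 ≤ sin φ
      · nlinarith [mul_nonneg (sub_pos.2 t1).le hs]
      · nlinarith [mul_pos t0 (neg_pos.2 (not_le.1 hs))]
    · have := gd1_cvx (u := sin α * p + cos α * q) (v := sin α * cos φ + cos α * sin φ) l1
        (by linarith) (by linarith) t0 t1
      linarith
    · have := gd1_cvx (u := sin α * (1 - p) + cos α * q) (v := -(sin α * cos φ) + cos α * sin φ)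
        l2 (by linarith) (by linarith) t0 t1
      linarith
  obtain ⟨-, -, -, h4, h5, -⟩ := (htp Ω' ho hb).2.2.2 (P p q) (D φ) (h.ne φ)
  have e : tp Ω' (P p q) (D φ) = d * a :=
    le_antisymm (h5 _ (mul_pos hd ha) (by rwa [h.lin])) (h4 _ (mul_pos hd ha) fun t ht => (key t ht).1)
  refine ⟨e, by rw [e, h.lin], fun t ht => (key t (e ▸ ht)).2⟩

lemma gd1_back (htp : S_TP) (ho : IsOpen Ω') (hb : Bornology.IsBounded Ω') (hd : 0 < d)
    (hs : 0 < sin α) (h : gd1_Co Ω Ω' τ P D d α) {p q x a φ : ℝ} (ha : 0 < a)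
    (e1 : p + a * cos φ = x) (e2 : q + a * sin φ = 0) (x0 : 0 < x) (x1 : x < 1) (q0 : q ≤ 0)
    (l1 : 0 ≤ sin α * p + cos α * q) (l2 : 0 ≤ sin α * (1 - p) + cos α * q)
    (hout : P p q ∉ Ω') : lam Ω' (P x 0, D φ) = (P p q, D φ) := by
  have a1 : 0 < sin α * x + cos α * 0 := by nlinarith [mul_pos hs x0]
  have a2 : 0 < sin α * (1 - x) + cos α * 0 := by nlinarith [mul_pos hs (sub_pos.2 x1)]
  have := (gd1_seg htp ho hb hd h (p := x) (q := 0) (p' := p) (q' := q) (φ := φ + π) ha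
    (by rw [cos_add_pi]; linarith) (by rw [sin_add_pi]; linarith) le_rfl q0 a1.le l1 a2.le l2
    (by linarith) (by linarith) hout).2.1
  unfold lam
  simp only [if_pos (h.ins x 0 le_rfl a1 a2).1]
  rw [← this, ← h.neg]
  congr 1
  ring

lemma gd1_core (htp : S_TP) (ho : IsOpen Ω') (hb : Bornology.IsBounded Ω') (hd : 0 < d)
    (a0 : 0 < α) (a1 : α ≤ π / 8) (h : gd1_Co Ω Ω' τ P D d α) {x θ : ℝ} (hx : x ∈ Ioo (0 : ℝ) 1)
    (hθ : θ ∈ Ioo 0 π) (h1 : x * sin θ < sin (θ - α) / (2 * cos α))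
    (h2 : x * sin θ ≠ sin (θ - 2 * α)) :
    gd1_B Ω' τ (P x 0, D (-θ)) = lam Ω' (P (gD α x θ).1 0, D (gD α x θ).2) ∨
      ((∀ t ∈ Ioo 0 (tp Ω' (gd1_B Ω' τ (P x 0, D (-θ))).1 (gd1_B Ω' τ (P x 0, D (-θ))).2),
        (gd1_B Ω' τ (P x 0, D (-θ))).1 + (t : ℝ) * (gd1_B Ω' τ (P x 0, D (-θ))).2 ∉ Ω) ∧
      gd1_B Ω' τ (gd1_B Ω' τ (P x 0, D (-θ))) = lam Ω' (P (gD α x θ).1 0, D (gD α x θ).2)) := by
  have hp := pi_pos
  have hs : 0 < sin α := sin_pos_of_pos_of_lt_pi a0 (by linarith)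
  have hc : 0 < cos α := cos_pos_of_mem_Ioo ⟨by linarith, by linarith⟩
  have hθs : 0 < sin θ := sin_pos_of_pos_of_lt_pi hθ.1 hθ.2
  have hw : 0 < x * sin θ := mul_pos hx.1 hθs
  rw [lt_div_iff₀ (by positivity)] at h1
  have hS1 : 0 < sin (θ - α) := lt_trans (by positivity) h1
  obtain ⟨r, hr⟩ : ∃ r, r = x * sin θ / sin (θ - α) := ⟨_, rfl⟩
  have r0 : 0 < r := by rw [hr]; positivity
  have r1 : r * sin (θ - α) = x * sin θ := by rw [hr]; field_simp
  have r2 : 2 * r * cos α < 1 := by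
    refine lt_of_mul_lt_mul_right ?_ hS1.le
    nlinarith
  have rs : 0 < r * sin α := mul_pos r0 hs
  have l2 : 0 < sin α * (1 - r * cos α) + cos α * -(r * sin α) := by
    nlinarith [mul_pos hs (sub_pos.2 r2)]
  have l1 : sin α * (r * cos α) + cos α * -(r * sin α) = 0 := by ring
  have b1 : gd1_B Ω' τ (P x 0, D (-θ)) = (P (r * cos α) (-(r * sin α)), D (θ - 2 * α)) := by
    have := (gd1_seg htp ho hb hd h (p := x) (q := 0) (p' := r * cos α) (q' := -(r * sin α))
      (φ := -θ) (a := r * sin α / sin θ) (by positivity) (by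
        rw [cos_neg, sin_sub] at *
        field_simp
        linarith) (by
        rw [sin_neg]
        field_simp
        ring) le_rfl (by linarith) (by nlinarith [mul_pos hs hx.1]) l1.ge
      (by nlinarith [mul_pos hs (sub_pos.2 hx.2)]) l2.le (by nlinarith [mul_pos hs hx.1])
      (by nlinarith [mul_pos hs (sub_pos.2 hx.2)]) (h.left r r0 r2).1).2.1
    unfold gd1_B
    simp only [this, (h.left r r0 r2).2]
    congr 2
    ring
  rw [b1]
  obtain ⟨φ, rfl⟩ : ∃ φ, θ = φ + 2 * α := ⟨θ - 2 * α, by ring⟩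
  rw [show φ + 2 * α - α = φ + α by ring] at h1 hS1 r1
  rw [add_sub_cancel_right] at h2 ⊢
  obtain ⟨w, hw'⟩ : ∃ w, w = x * sin (φ + 2 * α) := ⟨_, rfl⟩
  unfold gD
  rw [add_sub_cancel_right, ← hw', show 4 * α - (φ + 2 * α) = 2 * α - φ by ring]
  rw [← hw'] at h1 h2 hw r1
  rw [sin_add] at h1 r1 hS1
  split_ifs with hlt
  · left
    have hφ : 0 < sin φ := hw.trans hlt
    refine (gd1_back htp ho hb hd hs h (a := r * sin α / sin φ) (by positivity) ?_ ?_
      (by positivity) ((div_lt_one hφ).2 hlt) (by linarith) l1.ge l2.le (h.left r r0 r2).1).symm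
    · field_simp
      linarith
    · field_simp
      ring
  · right
    have hgt : sin φ < w := lt_of_le_of_ne (not_lt.1 hlt) h2.symm
    have hS : 0 < sin (α - φ) := by
      rw [sin_sub]
      nlinarith [mul_pos hc (sub_pos.2 hgt)]
    have hφ1 : φ < α := by
      by_contra hn
      have := sin_nonneg_of_nonneg_of_le_pi (x := φ - α) (by linarith) (by linarith [hθ.2])
      rw [← neg_sub, sin_neg] at this
      linarith
    have hφ2 : -α < φ := by
      by_contra hn
      have := sin_nonneg_of_nonneg_of_le_pi (x := -(φ + α)) (by linarith) (by linarith [hθ.1])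
      rw [sin_neg, sin_add] at this
      linarith
    have hψ : 0 < sin (2 * α - φ) := sin_pos_of_pos_of_lt_pi (by linarith) (by linarith)
    have hψ' : 0 < sin (2 * α - φ + α) := sin_pos_of_pos_of_lt_pi (by linarith) (by linarith)
    obtain ⟨u, hu⟩ : ∃ u, u = (w - sin φ) / sin (α - φ) := ⟨_, rfl⟩
    have u0 : 0 < u := by rw [hu]; exact div_pos (by linarith) hS
    have u1 : u * sin (α - φ) = w - sin φ := by rw [hu]; field_simp
    have u2 : 2 * u * cos α < 1 := by
      refine lt_of_mul_lt_mul_right ?_ hS.le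
      have : 2 * u * cos α * sin (α - φ) = 2 * cos α * (w - sin φ) := by rw [← u1]; ring
      rw [this, sin_sub]
      linarith
    have us : 0 < u * sin α := mul_pos u0 hs
    have m1 : 0 < sin α * (1 - u * cos α) + cos α * -(u * sin α) := by
      nlinarith [mul_pos hs (sub_pos.2 u2)]
    have m2 : sin α * (1 - (1 - u * cos α)) + cos α * -(u * sin α) = 0 := by ring
    obtain ⟨a, ha⟩ : ∃ a, a = sin α * (1 - 2 * r * cos α) / sin (α - φ) := ⟨_, rfl⟩
    have a2 : a * sin (α - φ) = sin α * (1 - 2 * r * cos α) := by rw [ha]; field_simp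
    have a3 : 0 < a := by rw [ha]; exact div_pos (mul_pos hs (sub_pos.2 r2)) hS
    have e2 : -(r * sin α) + a * sin φ = -(u * sin α) := by
      refine mul_right_cancel₀ hS.ne' ?_
      have e := sin_sub α φ
      linear_combination sin φ * a2 + sin α * u1 - sin α * r1 - r * sin α * e
    have e1 : r * cos α + a * cos φ = 1 - u * cos α := by
      refine mul_left_cancel₀ hs.ne' ?_
      have e := sin_sub α φ
      linear_combination a2 - a * e + cos α * e2
    obtain ⟨-, c2, c3⟩ := gd1_seg htp ho hb hd h a3 e1 e2 (by linarith) (by linarith) l1.ge m1.le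
      l2.le m2.ge (by linarith) (by linarith) (h.right u u0 u2).1
    refine ⟨c3, ?_⟩
    unfold gd1_B
    simp only [c2, (h.right u u0 u2).2]
    have f1 : 1 - u * cos α + u * sin α / sin (2 * α - φ) * cos (2 * α - φ) =
        1 - (w - sin φ) / sin (2 * α - φ) := by
      have e := sin_sub (2 * α - φ) α
      rw [show 2 * α - φ - α = α - φ by ring] at e
      rw [← u1, e]
      field_simp
      ring
    have f2 : -(u * sin α) + u * sin α / sin (2 * α - φ) * sin (2 * α - φ) = 0 := by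
      field_simp
      ring
    have f3 : 0 < u * sin α / sin (2 * α - φ) := div_pos us hψ
    refine (gd1_back htp ho hb hd hs h f3 f1 f2 ?_ ?_ (by linarith) m1.le m2.ge
      (h.right u u0 u2).1).symm
    · rw [← f1]
      refine pos_of_mul_pos_right (a := sin α) ?_ hs.le
      rw [sin_add] at hψ'
      have := mul_pos f3 hψ'
      nlinarith
    · have : 0 < (w - sin φ) / sin (2 * α - φ) := div_pos (by linarith) hψ
      linarith

lemma gd1_ex (t : ℝ) : ex t = (cos t : ℝ) + (sin t : ℝ) * Complex.I := by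
  rw [ex, Complex.exp_mul_I, Complex.ofReal_cos, Complex.ofReal_sin]

lemma gd1_ex_add (s t : ℝ) : ex (s + t) = ex s * ex t := by
  rw [ex, ex, ex, ← Complex.exp_add]
  push_cast
  ring_nf

lemma gd1_conj (t : ℝ) : conj (ex t) = ex (-t) := by
  rw [gd1_ex, gd1_ex, cos_neg, sin_neg]
  simp only [map_add, map_mul, Complex.conj_ofReal, Complex.conj_I]
  push_cast
  ring

lemma gd1_refl {e : ℂ} (he : ‖e‖ = 1) {k : ℝ} (hk : 0 < k) (a φ : ℝ) :
    refl (k * (e * ex a)) (e * ex φ) = e * ex (2 * a - φ) := by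
  have h1 : conj e ≠ 0 := by
    rw [map_ne_zero]
    rintro rfl
    simp at he
  have h2 : ex a * ex (-a) = 1 := by
    rw [← gd1_ex_add, add_neg_cancel, ex]
    simp
  have h3 : ex (-a) ≠ 0 := right_ne_zero_of_mul_eq_one h2
  have h4 : (k : ℂ) ≠ 0 := by exact_mod_cast hk.ne'
  rw [refl, map_mul, map_mul, map_mul, gd1_conj, gd1_conj, Complex.conj_ofReal,
    show 2 * a - φ = a + a + -φ by ring, gd1_ex_add, gd1_ex_add]
  field_simp
  linear_combination (-(e * ex a * ex (-φ))) * h2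

lemma gd1_co {b e : ℂ} (he : ‖e‖ = 1) (a0 : 0 < α) (a1 : α ≤ π / 8) (h : Tri Ω Ω' τ b e d α) :
    gd1_Co Ω Ω' τ (fun p q => b + d * e * (p + q * Complex.I)) (fun φ => e * ex φ) d α := by
  have hp := pi_pos
  have hs : 0 < sin α := sin_pos_of_pos_of_lt_pi a0 (by linarith)
  have hc : 0 < cos α := cos_pos_of_mem_Ioo ⟨by linarith, by linarith⟩
  have hm : ∀ p q : ℝ, 0 < p → p < 1 → -(tan α * min p (1 - p)) ≤ q → q ≤ 0 →
      (b + d * e * (p + q * Complex.I) ∈ Ω' ↔ -(tan α * min p (1 - p)) < q) ∧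
        b + d * e * (p + q * Complex.I) ∉ Ω := fun p q => by
    simpa using h.mem (p + q * Complex.I)
  have ht : tan α * cos α = sin α := tan_mul_cos hc.ne'
  have hr : ∀ r, 0 < r → 2 * r * cos α < 1 → r ∈ Ioo 0 (1 / (2 * cos α)) := fun r r0 r1 =>
    ⟨r0, by rw [lt_div_iff₀ (by positivity)]; linarith⟩
  refine ⟨fun p q t φ => ?_, fun φ => ?_, fun φ => ?_, fun p q q0 h1 h2 => ?_,
    fun r r0 r1 => ⟨?_, fun φ => ?_⟩, fun r r0 r1 => ⟨?_, fun φ => ?_⟩⟩
  · simp only [gd1_ex]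
    push_cast
    ring
  · simp only [gd1_ex, cos_add_pi, sin_add_pi]
    push_cast
    ring
  · refine mul_ne_zero ?_ (Complex.exp_ne_zero _)
    rintro rfl
    simp at he
  · have hq : cos α * q ≤ 0 := mul_nonpos_of_nonneg_of_nonpos hc.le q0
    have p0 : 0 < p := pos_of_mul_pos_right (a := sin α) (by linarith) hs.le
    have p1 : 0 < 1 - p := pos_of_mul_pos_right (a := sin α) (by linarith) hs.le
    have h3 : -(tan α * min p (1 - p)) < q := by
      refine lt_of_mul_lt_mul_right ?_ hc.le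
      have : -(tan α * min p (1 - p)) * cos α = -(sin α * min p (1 - p)) := by rw [← ht]; ring
      rw [this]
      rcases min_choice p (1 - p) with h4 | h4 <;> rw [h4] <;> linarith
    exact ⟨(hm p q p0 (by linarith) h3.le q0).1.2 h3, (hm p q p0 (by linarith) h3.le q0).2⟩
  · have h1 := mul_pos r0 hc
    have h2 : -(tan α * min (r * cos α) (1 - r * cos α)) = -(r * sin α) := by
      rw [min_eq_left (by linarith), ← ht]
      ring
    have := (hm (r * cos α) (-(r * sin α)) h1 (by linarith) h2.le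
      (by linarith [mul_pos r0 hs])).1
    rw [h2] at this
    exact fun h3 => lt_irrefl _ (this.1 h3)
  · obtain ⟨k, k0, hk⟩ := h.left r (hr r r0 r1)
    have : ((r * cos α : ℝ) : ℂ) + (-(r * sin α) : ℝ) * Complex.I = r * ex (-α) := by
      rw [gd1_ex, cos_neg, sin_neg]
      push_cast
      ring
    simp only [this, hk, gd1_refl he k0]
    congr 2
    ring
  · have h1 := mul_pos r0 hc
    have h2 : -(tan α * min (1 - r * cos α) (1 - (1 - r * cos α))) = -(r * sin α) := by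
      rw [min_eq_right (by linarith), ← ht]
      ring
    have := (hm (1 - r * cos α) (-(r * sin α)) (by linarith) (by linarith) h2.le
      (by linarith [mul_pos r0 hs])).1
    rw [h2] at this
    exact fun h3 => lt_irrefl _ (this.1 h3)
  · obtain ⟨k, k0, hk⟩ := h.right r (hr r r0 r1)
    have : ((1 - r * cos α : ℝ) : ℂ) + (-(r * sin α) : ℝ) * Complex.I = 1 - r * ex α := by
      rw [gd1_ex]
      push_cast
      ring
    simp only [this, hk, gd1_refl he k0]

theorem t_gd1 (htp : S_TP) (htab : S_TAB) : S_GD1 := by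
  intro Ω σ σ' b e d α x θ hσ he hd a0 a1 h hx hθ h1 h2 h3
  obtain ⟨ho, hb, -⟩ := htab σ hσ
  have hco := gd1_co he a0 a1 h
  have hp := pi_pos
  have hc : 0 < cos α := cos_pos_of_mem_Ioo ⟨by linarith, by linarith⟩
  have eB : bT σ σ' = gd1_B (table σ) (tanf σ') := rfl
  rw [eB]
  unfold gv
  split_ifs with hle
  · simpa using gd1_core htp ho hb hd a0 a1 hco hx hθ (lt_of_le_of_ne hle h1) h2
  · have := gd1_core htp ho hb hd a0 a1 (gd1_mirror hco) (x := 1 - x) (θ := π - θ)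
      ⟨by linarith [hx.2], by linarith [hx.1]⟩ ⟨by linarith [hθ.2], by linarith [hθ.1]⟩ (by
        rw [not_le, div_lt_iff₀ (by positivity), sin_sub] at hle
        rw [sin_pi_sub, sub_sub, sin_pi_sub, lt_div_iff₀ (by positivity), sin_add]
        linarith) (by rwa [sin_pi_sub, sub_sub, sin_pi_sub])
    have e1 : e * ex (π - -(π - θ)) = e * ex (-θ) := by
      rw [← gd1_per hco (-θ)]
      congr 2
      ring
    simp only [sub_sub_cancel, e1, Complex.ofReal_zero, zero_mul, add_zero] at this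
    exact this

end

end Pool.Agent.P.MP_6b977f_mp.EB
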