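import Pool.Agent.P.MP_6b977f_mp.EB.IfE

/-! The grooves of a grooved table are triangles. -/

namespace Pool.Agent.P.MP_6b977f_mp.EB

open Real MeasureTheory Filter Topology Set Metric
open scoped ContDiff BoundedContinuousFunction ComplexConjugate Pointwise ENNReal

theorem gdt_ex (t : ℝ) : ex t = cos t + sin t * Complex.I := by
  rw [ex, Complex.exp_mul_I, Complex.ofReal_cos, Complex.ofReal_sin]

theorem gdt_aff {D f : ℝ → ℝ} {a d u x m : ℝ} (hd : 0 < d)
    (h : ∀ x ∈ Ioo (0 : ℝ) 1, D (a + d * (x - u)) = d * f x) (hx : x ∈ Ioo (0 : ℝ) 1)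
    (hf : ∀ᶠ y in 𝓝 x, f y = f x + m * (y - x)) : Aff D (a + d * (x - u)) m := by
  have t : Tendsto (fun σ : ℝ => u + (σ - a) / d) (𝓝 (a + d * (x - u))) (𝓝 x) :=
    Continuous.tendsto' (by fun_prop) _ _ (by field_simp; ring)
  filter_upwards [t.eventually hf, t.eventually (Ioo_mem_nhds hx.1 hx.2)] with σ h1 h2
  have := h _ h2
  rw [add_sub_cancel_left, mul_div_cancel₀ _ hd.ne', add_sub_cancel, h1] at this
  rw [this, h x hx]
  field_simp
  ring

theorem t_gdt (hgt2 : S_GT2) (hdep : S_DEP) : S_GDT := by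
  intro P ρ σ c α₀ N w h hρ a0 a1 hc hN hG s hs
  obtain ⟨d1, d2⟩ := hdep P c α₀ N w h a0 a1 hN
  obtain ⟨-, d3, d4⟩ := d2 s hs
  have g := (hgt2 P ρ σ c _ _ _ h hρ hc d1 hG).2 s hs
  have z : ∀ a, ¬InG (P.L s) N (w (cell P N s a)).1 a → dep P N α₀ w s a = 0 := fun a ha =>
    if_neg fun e => ha e.2.2
  refine ⟨fun a ha => ⟨fun hI e => ?_, fun hI => ?_⟩, d4.mono fun a h1 ha hI => ?_⟩
  · have := (((g a ha).1 0 (z a hI ▸ left_mem_Icc.2 le_rfl)).1.1 (by simpa [mul_comm] using e))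
    exact this.ne' (z a hI)
  swap
  · obtain ⟨t, e1, -, -, k, k0, e2⟩ := (g a ha).2 0 (h1 hI)
    rw [← e1, z a hI] at e2
    exact ⟨k, k0, by simpa [mul_comm] using e2⟩
  have d5 := d3 a ha hI
  have d0 : 0 < pd (P.L s) N := by
    have := h.len s hs
    have : (0 : ℝ) < N := by exact_mod_cast hN
    unfold pd
    positivity
  have c0 : 0 < cos (α₀ * (1 + (w (cell P N s a)).2)) := by
    have := (w (cell P N s a)).2.2
    exact cos_pos_of_mem_Ioo ⟨by nlinarith [this.1, pi_pos], by nlinarith [this.2, pi_pos]⟩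
  generalize α₀ * (1 + (w (cell P N s a)).2) = α at *
  generalize Int.fract (cX (P.L s) N (w (cell P N s a)).1 a) = u at *
  generalize pd (P.L s) N = d at *
  have e0 : ∀ v : ℂ, P.V s + (a - d * u : ℝ) * P.e s + d * P.e s * v =
      P.V s + P.e s * ((a + d * (v.re - u) : ℝ) - (-(d * v.im) : ℝ) * Complex.I) := fun v => by
    conv_lhs => rw [← Complex.re_add_im v]
    push_cast
    ring
  have key : ∀ (v : ℂ) (m β : ℝ), v.re ∈ Ioo (0 : ℝ) 1 → -v.im = tan α * min v.re (1 - v.re) →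
      (∀ᶠ y in 𝓝 v.re, tan α * min y (1 - y) = tan α * min v.re (1 - v.re) + m * (y - v.re)) →
      cos β = cos α → sin β = -(m * cos α) → ∃ k : ℝ, 0 < k ∧ tanf (deriv σ)
        (P.V s + (a - d * u : ℝ) * P.e s + d * P.e s * v) = k * (P.e s * ex β) := by
    intro v m β h1 h2 h3 h4 h5
    obtain ⟨t, e1, -, -, k, k0, e2⟩ := (g _ (d5 _ h1).1).2 m (gdt_aff d0
      (fun x hx => (d5 x hx).2.trans (mul_assoc _ _ _)) h1 h3)
    refine ⟨k / cos α, div_pos k0 c0, ?_⟩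
    rw [(d5 _ h1).2, mul_assoc d, ← h2, mul_neg, ← e0] at e1
    have : (cos α : ℂ) ≠ 0 := Complex.ofReal_ne_zero.2 c0.ne'
    rw [e1, e2, gdt_ex, h4, h5, Complex.ofReal_div, Complex.ofReal_neg, Complex.ofReal_mul]
    field_simp
    ring
  have tc : tan α * cos α = sin α := tan_mul_cos c0.ne'
  have rr : ∀ r ∈ Ioo 0 (1 / (2 * cos α)), 0 < r * cos α ∧ r * cos α < 1 / 2 := fun r hr =>
    ⟨mul_pos hr.1 c0, by have := (lt_div_iff₀ (by positivity)).1 hr.2; linarith⟩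
  refine ⟨fun v h1 h2 h3 h4 => ?_, fun r hr => ?_, fun r hr => ?_⟩
  · obtain ⟨b1, b2⟩ := d5 _ ⟨h1, h2⟩
    rw [e0]
    refine ((g _ b1).1 _ ⟨by nlinarith, by rw [b2]; nlinarith⟩).imp_left (·.trans ?_)
    rw [b2, mul_assoc, ← mul_neg, mul_lt_mul_iff_right₀ d0, neg_lt]
  · obtain ⟨r0, r1⟩ := rr r hr
    have v1 : ((r : ℂ) * ex (-α)).re = r * cos α := by
      simp [gdt_ex, -Complex.ofReal_cos, -Complex.ofReal_sin]
    have v2 : ((r : ℂ) * ex (-α)).im = -(r * sin α) := by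
      simp [gdt_ex, -Complex.ofReal_cos, -Complex.ofReal_sin]
    refine key _ (tan α) _ (v1 ▸ ⟨r0, by linarith⟩) ?_ ?_ (cos_neg α) (by rw [sin_neg, tc])
    · rw [v1, v2, min_eq_left (by linarith), ← tc]
      ring
    · rw [v1]
      filter_upwards [Iio_mem_nhds r1] with y hy
      rw [min_eq_left (by linarith [mem_Iio.1 hy]), min_eq_left (by linarith)]
      ring
  · obtain ⟨r0, r1⟩ := rr r hr
    have v1 : (1 - (r : ℂ) * ex α).re = 1 - r * cos α := by
      simp [gdt_ex, -Complex.ofReal_cos, -Complex.ofReal_sin]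
    have v2 : (1 - (r : ℂ) * ex α).im = -(r * sin α) := by
      simp [gdt_ex, -Complex.ofReal_cos, -Complex.ofReal_sin]
    refine key _ (-tan α) _ (v1 ▸ ⟨by linarith, by linarith⟩) ?_ ?_ rfl (by rw [← tc]; ring)
    · rw [v1, v2, min_eq_right (by linarith), ← tc]
      ring
    · rw [v1]
      filter_upwards [Ioi_mem_nhds (show 1 / 2 < 1 - r * cos α by linarith)] with y hy
      rw [min_eq_right (by linarith [mem_Ioi.1 hy]), min_eq_right (by linarith)]
      ring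

end Pool.Agent.P.MP_6b977f_mp.EB
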