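import Pool.Agent.P.MP_6b977f_mp.EB.IfE

/-! The passage through a groove preserves the measure `sin θ dx dθ`. -/

namespace Pool.Agent.P.MP_6b977f_mp.EB

open Real MeasureTheory Filter Topology Set Metric
open scoped ContDiff BoundedContinuousFunction ComplexConjugate Pointwise ENNReal

noncomputable section

theorem gm_id {α u v w : ℝ} (h1 : v = u + α) (h2 : w = u - α) :
    2 * cos α * sin u = sin v + sin w := by
  rw [h1, h2, sin_add, sin_sub]; ring

theorem gm_pos {t : ℝ} (h : 0 < sin t) (h1 : -π ≤ t) : 0 < t := by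
  by_contra hn
  linarith [sin_nonpos_of_nonpos_of_neg_pi_le (not_lt.1 hn) h1]

theorem gm_neg {t : ℝ} (h : sin t < 0) (h1 : t ≤ π) : t < 0 := by
  by_contra hn
  linarith [sin_nonneg_of_nonneg_of_le_pi (not_lt.1 hn) h1]

theorem gm_cos {α : ℝ} (h0 : 0 < α) (h1 : α ≤ π / 8) : 0 < 2 * cos α := by
  have := cos_pos_of_mem_Ioo (x := α) ⟨by linarith [pi_pos], by linarith [pi_pos]⟩
  linarith

theorem gm_gD {α x θ : ℝ} (h0 : 0 < α) (h1 : α ≤ π / 8) (hx : 0 < x) (hθ : θ ∈ Ioo 0 π)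
    (h : 2 * cos α * (x * sin θ) ≤ sin (θ - α)) : (gD α x θ).1 ∈ Icc (0 : ℝ) 1 := by
  have hs := sin_pos_of_mem_Ioo hθ
  have hw := mul_pos hx hs
  have hc := gm_cos h0 h1
  have hπ := pi_pos
  rw [gD]
  split_ifs with hb
  · exact ⟨div_nonneg hw.le (hw.trans hb).le, (div_le_one (hw.trans hb)).2 hb.le⟩
  · rw [not_lt] at hb
    have a1 := gm_id (α := α) (u := θ - 2 * α) (v := θ - α) (w := θ - 3 * α) (by ring) (by ring)
    have a2 := gm_id (α := α) (u := 4 * α - θ) (v := 5 * α - θ) (w := -(θ - 3 * α)) (by ring)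
      (by ring)
    rw [sin_neg] at a2
    have a3 := mul_le_mul_of_nonneg_left hb hc.le
    have a4 : θ ≤ 3 * α := by
      by_contra hn
      have := sin_pos_of_mem_Ioo (x := θ - 3 * α) ⟨by linarith, by linarith [hθ.2]⟩
      linarith
    have a5 := sin_pos_of_mem_Ioo (x := 4 * α - θ) ⟨by linarith, by linarith [hθ.1]⟩
    have a6 := sin_pos_of_mem_Ioo (x := 5 * α - θ) ⟨by linarith, by linarith [hθ.1]⟩
    have a7 : x * sin θ - sin (θ - 2 * α) ≤ sin (4 * α - θ) := by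
      refine le_of_mul_le_mul_left ?_ hc
      rw [mul_sub]; linarith
    have a8 := (div_le_one a5).2 a7
    have a9 := div_nonneg (sub_nonneg.2 hb) a5.le
    exact ⟨by simp only; linarith, by simp only; linarith⟩

theorem gm_one {α : ℝ} (h0 : 0 < α) (h1 : α ≤ π / 8) {x θ : ℝ} (hx : x ∈ Ioo (0 : ℝ) 1)
    (hθ : θ ∈ Ioo 0 π) : (gv α x θ).1 ∈ Icc (0 : ℝ) 1 := by
  have hc := gm_cos h0 h1
  rw [gv]
  split_ifs with hb
  · rw [le_div_iff₀ hc] at hb
    exact gm_gD h0 h1 hx.1 hθ (by linarith)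
  · rw [le_div_iff₀ hc, not_le] at hb
    have a1 := gm_id (α := α) (u := θ) rfl rfl
    have := gm_gD (x := 1 - x) (θ := π - θ) h0 h1 (by linarith [hx.2])
      ⟨by linarith [hθ.2], by linarith [hθ.1]⟩ (by
        rw [sin_pi_sub, sub_sub, sin_pi_sub]; linarith)
    exact ⟨by simp only; linarith [this.2], by simp only; linarith [this.1]⟩

theorem gm_meas (α : ℝ) : Measurable fun y : ℝ × ℝ => gv α y.1 y.2 := by
  have hD : Measurable fun y : ℝ × ℝ => gD α y.1 y.2 :=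
    Measurable.ite (measurableSet_lt (by fun_prop) (by fun_prop)) (by fun_prop) (by fun_prop)
  have hD' : Measurable fun y : ℝ × ℝ => gD α (1 - y.1) (π - y.2) :=
    hD.comp (f := fun y : ℝ × ℝ => (1 - y.1, π - y.2)) (by fun_prop)
  exact Measurable.ite (measurableSet_le (by fun_prop) (by fun_prop)) hD
    ((hD'.fst.const_sub 1).prodMk (hD'.snd.const_sub π))

/-- The phase space in the coordinates `(θ, x sin θ)`. -/
def gm_R : Set (ℝ × ℝ) := {y | (0 < y.1 ∧ y.1 < π) ∧ 0 < y.2 ∧ y.2 < sin y.1}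

def gm_Psi (y : ℝ × ℝ) : ℝ × ℝ := (y.2 / sin y.1, y.1)

theorem gm_mR : MeasurableSet gm_R :=
  ((measurableSet_lt measurable_const measurable_fst).inter
    (measurableSet_lt measurable_fst measurable_const)).inter
    ((measurableSet_lt measurable_const measurable_snd).inter
      (measurableSet_lt measurable_snd (by fun_prop)))

theorem gm_mPsi : Measurable gm_Psi := by unfold gm_Psi; fun_prop

theorem gm_mu {A : Set (ℝ × ℝ)} (hA : MeasurableSet A) :
    (volume.restrict (Ioo (0 : ℝ) 1)).prod sm A = volume (gm_R ∩ gm_Psi ⁻¹' A) := by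
  rw [sm, Measure.prod_apply_symm hA, lintegral_withDensity_eq_lintegral_mul _ (by fun_prop)
    (measurable_measure_prodMk_right hA), Measure.volume_eq_prod,
    Measure.prod_apply (gm_mR.inter (gm_mPsi hA)), ← lintegral_indicator measurableSet_Ioo]
  refine lintegral_congr fun θ => ?_
  by_cases hθ : θ ∈ Ioo 0 π
  · have hs := sin_pos_of_mem_Ioo hθ
    have e : Prod.mk θ ⁻¹' (gm_R ∩ gm_Psi ⁻¹' A) =
        (· * (sin θ)⁻¹) ⁻¹' ((fun x => (x, θ)) ⁻¹' A ∩ Ioo 0 1) := by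
      ext w
      simp only [gm_R, gm_Psi, mem_preimage, mem_inter_iff, mem_ofPred_eq, mem_Ioo, hθ.1, hθ.2,
        true_and, ← div_eq_mul_inv, div_lt_one hs, div_pos_iff_of_pos_right hs]
      exact and_comm
    rw [indicator_of_mem hθ, e, Real.volume_preimage_mul_right (inv_ne_zero hs.ne'), inv_inv,
      abs_of_pos hs, Pi.mul_apply, Measure.restrict_apply (measurable_prodMk_right hA)]
  · have e : Prod.mk θ ⁻¹' (gm_R ∩ gm_Psi ⁻¹' A) = ∅ :=
      eq_empty_of_forall_notMem fun w hw => hθ hw.1.1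
    rw [indicator_of_notMem hθ, e, measure_empty]

theorem gm_add (c : ℝ) {h : ℝ → ℝ} (hh : Measurable h) :
    MeasurePreserving (fun y : ℝ × ℝ => (y.1 + c, y.2 + h y.1)) volume volume :=
  (measurePreserving_add_right volume c).skew_product (g := fun t w => w + h t)
    (measurable_snd.add (hh.comp measurable_fst))
    (Eventually.of_forall fun t => (measurePreserving_add_right volume (h t)).map_eq)

theorem gm_sub (c : ℝ) {h : ℝ → ℝ} (hh : Measurable h) :
    MeasurePreserving (fun y : ℝ × ℝ => (c - y.1, h y.1 - y.2)) volume volume :=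
  (Measure.measurePreserving_sub_left volume c).skew_product (g := fun t w => h t - w)
    ((hh.comp measurable_fst).sub measurable_snd)
    (Eventually.of_forall fun t => (Measure.measurePreserving_sub_left volume (h t)).map_eq)

theorem gm_null {h : ℝ → ℝ} (hh : Measurable h) : ∀ᵐ y : ℝ × ℝ, y.2 ≠ h y.1 := by
  rw [Measure.volume_eq_prod]
  exact (Measure.ae_prod_iff_ae_ae (p := fun y : ℝ × ℝ => y.2 ≠ h y.1)
    (measurableSet_eq_fun measurable_snd (hh.comp measurable_fst)).compl).2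
    (Eventually.of_forall fun t => compl_mem_ae_iff.2 (measure_singleton (h t)))

theorem gm_b1 {α θ w : ℝ} (h0 : 0 < α) (h1 : α ≤ π / 8) (hR : (θ, w) ∈ gm_R)
    (ha : w < sin (θ - α) / (2 * cos α)) (hb : w < sin (θ - 2 * α)) :
    gv α (w / sin θ) θ = gm_Psi (θ + -(2 * α), w + 0) ∧ (θ + -(2 * α), w + 0) ∈ gm_R ∧
      2 * cos α * (w + 0) < sin (θ + -(2 * α) + α) ∧ w + 0 < sin (θ + -(2 * α) + 2 * α) := by
  obtain ⟨⟨r1, r2⟩, r3, r4⟩ := hR
  simp only at r1 r2 r3 r4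
  have hs : sin θ ≠ 0 := (r3.trans r4).ne'
  have hπ := pi_pos
  rw [← sub_eq_add_neg, add_zero]
  refine ⟨?_, ⟨⟨gm_pos (r3.trans hb) (by linarith), by simp only; linarith⟩, r3, hb⟩, ?_, ?_⟩
  · rw [gv, gD, div_mul_cancel₀ _ hs, if_pos ha.le, if_pos hb, gm_Psi]
  · rw [lt_div_iff₀ (gm_cos h0 h1)] at ha
    rw [show θ - 2 * α + α = θ - α by ring]; linarith
  · rwa [sub_add_cancel]

theorem gm_b2 {α θ w : ℝ} (h0 : 0 < α) (h1 : α ≤ π / 8) (hR : (θ, w) ∈ gm_R)
    (ha : w < sin (θ - α) / (2 * cos α)) (hb : sin (θ - 2 * α) < w) :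
    gv α (w / sin θ) θ = gm_Psi (4 * α - θ, sin (4 * α - θ) + sin (θ - 2 * α) - w) ∧
      (4 * α - θ, sin (4 * α - θ) + sin (θ - 2 * α) - w) ∈ gm_R ∧
      sin (4 * α - θ + α) < 2 * cos α * (sin (4 * α - θ) + sin (θ - 2 * α) - w) ∧
      sin (4 * α - θ - 2 * α) < sin (4 * α - θ) - (sin (4 * α - θ) + sin (θ - 2 * α) - w) := by
  obtain ⟨⟨r1, r2⟩, r3, r4⟩ := hR
  simp only at r1 r2 r3 r4
  have hs : sin θ ≠ 0 := (r3.trans r4).ne'
  have hπ := pi_pos
  have hc := gm_cos h0 h1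
  have ha' := (lt_div_iff₀ hc).1 ha
  have a1 := gm_id (α := α) (u := θ - 2 * α) (v := θ - α) (w := θ - 3 * α) (by ring) (by ring)
  have a2 := gm_id (α := α) (u := 4 * α - θ) (v := 4 * α - θ + α) (w := -(θ - 3 * α)) (by ring)
    (by ring)
  rw [sin_neg] at a2
  have a3 := mul_lt_mul_of_pos_left hb hc
  have a4 := gm_neg (t := θ - 3 * α) (by linarith) (by linarith)
  have a5 := sin_pos_of_mem_Ioo (x := 4 * α - θ) ⟨by linarith, by linarith⟩
  have a6 := sin_pos_of_mem_Ioo (x := 4 * α - θ + α) ⟨by linarith, by linarith⟩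
  have a7 : sin (4 * α - θ + α) < 2 * cos α * (sin (4 * α - θ) + sin (θ - 2 * α) - w) := by
    rw [mul_sub, mul_add]; linarith
  refine ⟨?_, ⟨⟨by simp only; linarith, by simp only; linarith⟩,
    (mul_pos_iff_of_pos_left hc).1 (a6.trans a7), by simp only; linarith⟩, a7, ?_⟩
  · rw [gv, gD, div_mul_cancel₀ _ hs, if_pos ha.le, if_neg hb.not_gt, gm_Psi]
    congr 1
    simp only
    rw [eq_div_iff a5.ne', sub_mul, div_mul_cancel₀ _ a5.ne']
    ring
  · rw [show 4 * α - θ - 2 * α = -(θ - 2 * α) by ring, sin_neg]; linarith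

theorem gm_b3 {α θ w : ℝ} (h0 : 0 < α) (h1 : α ≤ π / 8) (hR : (θ, w) ∈ gm_R)
    (ha : sin (θ - α) / (2 * cos α) < w) (hb : sin θ - sin (θ + 2 * α) < w) :
    gv α (w / sin θ) θ = gm_Psi (θ + 2 * α, w + (sin (θ + 2 * α) - sin θ)) ∧
      (θ + 2 * α, w + (sin (θ + 2 * α) - sin θ)) ∈ gm_R ∧
      sin (θ + 2 * α + α) < 2 * cos α * (w + (sin (θ + 2 * α) - sin θ)) ∧
      sin (θ + 2 * α) - (w + (sin (θ + 2 * α) - sin θ)) < sin (θ + 2 * α - 2 * α) := by
  obtain ⟨⟨r1, r2⟩, r3, r4⟩ := hR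
  simp only at r1 r2 r3 r4
  have hs : sin θ ≠ 0 := (r3.trans r4).ne'
  have hπ := pi_pos
  have hc := gm_cos h0 h1
  have ha' := (div_lt_iff₀ hc).1 ha
  have a1 := gm_id (α := α) (u := θ + 2 * α) (v := θ + 2 * α + α) (w := θ + α) (by ring) (by ring)
  have a2 := gm_id (α := α) (u := θ) rfl rfl
  have a3 : 0 < sin (θ + 2 * α) := by linarith
  have a4 := gm_pos (t := π - (θ + 2 * α)) (by rwa [sin_pi_sub]) (by linarith)
  have e1 : (1 - w / sin θ) * sin (π - θ) = sin θ - w := by rw [sin_pi_sub]; field_simp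
  have e2 : sin (π - θ - 2 * α) = sin (θ + 2 * α) := by rw [sub_sub, sin_pi_sub]
  refine ⟨?_, ⟨⟨by simp only; linarith, by simp only; linarith⟩, by simp only; linarith,
    by simp only; linarith⟩, by rw [mul_add, mul_sub]; linarith, ?_⟩
  · rw [gv, gD, gD, div_mul_cancel₀ _ hs, if_neg ha.not_ge, e1, e2, if_pos (by linarith), gm_Psi]
    refine Prod.ext ?_ (by simp only; ring)
    simp only
    field_simp
    ring
  · rw [add_sub_cancel_right]; linarith

theorem gm_b4 {α θ w : ℝ} (h0 : 0 < α) (h1 : α ≤ π / 8) (hR : (θ, w) ∈ gm_R)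
    (ha : sin (θ - α) / (2 * cos α) < w) (hb : w < sin θ - sin (θ + 2 * α)) :
    gv α (w / sin θ) θ = gm_Psi (2 * π - 4 * α - θ, sin θ - sin (θ + 2 * α) - w) ∧
      (2 * π - 4 * α - θ, sin θ - sin (θ + 2 * α) - w) ∈ gm_R ∧
      2 * cos α * (sin θ - sin (θ + 2 * α) - w) < sin (2 * π - 4 * α - θ + α) ∧
      sin (2 * π - 4 * α - θ + 2 * α) < sin θ - sin (θ + 2 * α) - w := by
  obtain ⟨⟨r1, r2⟩, r3, r4⟩ := hR
  simp only at r1 r2 r3 r4
  have hs : sin θ ≠ 0 := (r3.trans r4).ne'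
  have hπ := pi_pos
  have hc := gm_cos h0 h1
  have ha' := (div_lt_iff₀ hc).1 ha
  have a1 := gm_id (α := α) (u := θ + 2 * α) (v := θ + 3 * α) (w := θ + α) (by ring) (by ring)
  have a2 := gm_id (α := α) (u := θ) rfl rfl
  have a3 := mul_lt_mul_of_pos_left hb hc
  rw [mul_sub] at a3
  have e3 : sin (2 * π - 4 * α - θ + α) = -sin (θ + 3 * α) := by
    rw [← sin_two_pi_sub]; congr 1; ring
  have e4 : sin (2 * π - 4 * α - θ + 2 * α) = -sin (θ + 2 * α) := by
    rw [← sin_two_pi_sub]; congr 1; ring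
  have a4 := gm_neg (t := π - (θ + 3 * α)) (by rw [sin_pi_sub]; linarith) (by linarith)
  have a5 := gm_id (α := α) (u := 2 * π - 4 * α - θ) rfl rfl
  have a6 := sin_pos_of_mem_Ioo (x := 2 * π - 4 * α - θ - α) ⟨by linarith, by linarith⟩
  have a7 : 2 * cos α * (sin θ - sin (θ + 2 * α) - w) < sin (2 * π - 4 * α - θ + α) := by
    rw [e3, mul_sub, mul_sub]; linarith
  have e1 : (1 - w / sin θ) * sin (π - θ) = sin θ - w := by rw [sin_pi_sub]; field_simp
  have e2 : sin (π - θ - 2 * α) = sin (θ + 2 * α) := by rw [sub_sub, sin_pi_sub]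
  have e5 : sin (4 * α - (π - θ)) = sin (2 * π - 4 * α - θ) := by
    rw [← sin_pi_sub]; congr 1; ring
  refine ⟨?_, ⟨⟨by simp only; linarith, by simp only; linarith⟩, by simp only; linarith,
    lt_of_mul_lt_mul_left (by simp only; linarith) hc.le⟩, a7, by rw [e4]; linarith⟩
  rw [gv, gD, gD, div_mul_cancel₀ _ hs, if_neg ha.not_ge, e1, e2, if_neg (by linarith), gm_Psi,
    e5]
  refine Prod.ext ?_ (by simp only; ring)
  simp only
  ring

theorem gm_le {α : ℝ} (h0 : 0 < α) (h1 : α ≤ π / 8) {A : Set (ℝ × ℝ)} (hA : MeasurableSet A) :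
    volume (gm_R ∩ gm_Psi ⁻¹' ((fun y : ℝ × ℝ => gv α y.1 y.2) ⁻¹' A)) ≤
      volume (gm_R ∩ gm_Psi ⁻¹' A) := by
  set B := gm_R ∩ gm_Psi ⁻¹' A with hB
  have mB : MeasurableSet B := gm_mR.inter (gm_mPsi hA)
  let U : Set (ℝ × ℝ) := {y | 2 * cos α * y.2 < sin (y.1 + α)}
  let V : Set (ℝ × ℝ) := {y | y.2 < sin (y.1 + 2 * α)}
  let W : Set (ℝ × ℝ) := {y | sin y.1 - y.2 < sin (y.1 - 2 * α)}
  have mU : MeasurableSet U := measurableSet_lt (by fun_prop) (by fun_prop)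
  have mV : MeasurableSet V := measurableSet_lt (by fun_prop) (by fun_prop)
  have mW : MeasurableSet W := measurableSet_lt (by fun_prop) (by fun_prop)
  have p1 := gm_add (-(2 * α)) (h := fun _ => 0) measurable_const
  have p2 := gm_sub (4 * α) (h := fun θ => sin (4 * α - θ) + sin (θ - 2 * α)) (by fun_prop)
  have p3 := gm_add (2 * α) (h := fun θ => sin (θ + 2 * α) - sin θ) (by fun_prop)
  have p4 := gm_sub (2 * π - 4 * α) (h := fun θ => sin θ - sin (θ + 2 * α)) (by fun_prop)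
  rw [← measure_inter_add_sdiff B mU, ← measure_inter_add_sdiff (B ∩ U) mV,
    ← measure_inter_add_sdiff (B \ U) mW,
    ← p1.measure_preimage ((mB.inter mU).inter mV).nullMeasurableSet,
    ← p4.measure_preimage ((mB.inter mU).diff mV).nullMeasurableSet,
    ← p3.measure_preimage ((mB.diff mU).inter mW).nullMeasurableSet,
    ← p2.measure_preimage ((mB.diff mU).diff mW).nullMeasurableSet]
  refine le_trans (measure_mono_ae ?_) ((measure_union_le _ _).trans
    (add_le_add (measure_union_le _ _) (measure_union_le _ _)))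
  filter_upwards [gm_null (h := fun θ => sin (θ - α) / (2 * cos α)) (by fun_prop),
    gm_null (h := fun θ => sin (θ - 2 * α)) (by fun_prop),
    gm_null (h := fun θ => sin θ - sin (θ + 2 * α)) (by fun_prop)] with ⟨θ, w⟩ n1 n2 n3 ⟨hR, hy⟩
  replace hy : gv α (w / sin θ) θ ∈ A := hy
  rcases lt_or_gt_of_ne n1 with ha | ha
  · rcases lt_or_gt_of_ne n2 with hb | hb
    · obtain ⟨c1, c2, c3, c4⟩ := gm_b1 h0 h1 hR ha hb
      exact Or.inl (Or.inl ⟨⟨⟨c2, by rwa [c1] at hy⟩, c3⟩, c4⟩)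
    · obtain ⟨c1, c2, c3, c4⟩ := gm_b2 h0 h1 hR ha hb
      exact Or.inr (Or.inr ⟨⟨⟨c2, by rwa [c1] at hy⟩, c3.not_gt⟩, c4.not_gt⟩)
  · rcases lt_or_gt_of_ne n3 with hb | hb
    · obtain ⟨c1, c2, c3, c4⟩ := gm_b4 h0 h1 hR ha hb
      exact Or.inl (Or.inr ⟨⟨⟨c2, by rwa [c1] at hy⟩, c3⟩, c4.not_gt⟩)
    · obtain ⟨c1, c2, c3, c4⟩ := gm_b3 h0 h1 hR ha hb
      exact Or.inr (Or.inl ⟨⟨⟨c2, by rwa [c1] at hy⟩, c3.not_gt⟩, c4⟩)

theorem t_gm : S_GM := by
  intro α h0 h1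
  refine ⟨fun x hx θ hθ => gm_one h0 h1 hx hθ, gm_meas α, ?_⟩
  have : IsFiniteMeasure sm := by
    refine isFiniteMeasure_withDensity (ne_top_of_le_ne_top ?_
      (lintegral_mono (g := fun _ => 1) fun θ => ENNReal.ofReal_le_one.2 (sin_le_one θ)))
    simp
  refine Measure.eq_of_le_of_measure_univ_eq (Measure.le_iff.2 fun A hA => ?_) ?_
  · rw [Measure.map_apply (gm_meas α) hA, gm_mu hA, gm_mu (gm_meas α hA)]
    exact gm_le h0 h1 hA
  · rw [Measure.map_apply (gm_meas α) MeasurableSet.univ, preimage_univ]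

end

end Pool.Agent.P.MP_6b977f_mp.EB
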