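import Pool.Agent.P.MP_6b977f_mp.EB.IfE

/-! Measurability of the groove maps. -/

namespace Pool.Agent.P.MP_6b977f_mp.EB

open Real MeasureTheory Filter Topology Set Metric
open scoped ContDiff BoundedContinuousFunction ComplexConjugate Pointwise ENNReal

noncomputable section

theorem gmm_gD : Measurable fun y : ℝ × ℝ × ℝ => gD y.1 y.2.1 y.2.2 :=
  Measurable.ite (measurableSet_lt (by fun_prop) (by fun_prop)) (by fun_prop) (by fun_prop)

theorem gmm_gv : Measurable fun y : ℝ × ℝ × ℝ => gv y.1 y.2.1 y.2.2 := by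
  have hD' : Measurable fun y : ℝ × ℝ × ℝ => gD y.1 (1 - y.2.1) (π - y.2.2) :=
    gmm_gD.comp (f := fun y : ℝ × ℝ × ℝ => (y.1, 1 - y.2.1, π - y.2.2)) (by fun_prop)
  exact Measurable.ite (measurableSet_le (by fun_prop) (by fun_prop)) gmm_gD
    ((hD'.fst.const_sub 1).prodMk (hD'.snd.const_sub π))

variable {X : Type} [MeasurableSpace X]

theorem gmm_floor {L σ : X → ℝ} (hL : Measurable L) (hσ : Measurable σ) (N : ℕ) :
    Measurable fun x => ⌊σ x / (L x / N)⌋₊ :=
  Nat.measurable_floor.comp (hσ.div (hL.div_const _))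

theorem gmm_pd {L : X → ℝ} (hL : Measurable L) (N : ℕ) : Measurable fun x => pd (L x) N :=
  (hL.div_const _).div_const _

theorem gmm_cX {L u σ : X → ℝ} (hL : Measurable L) (hu : Measurable u) (hσ : Measurable σ)
    (N : ℕ) : Measurable fun x => cX (L x) N (u x) (σ x) := by
  have h1 : Measurable fun x => ((⌊σ x / (L x / N)⌋₊ : ℕ) : ℝ) :=
    (measurable_from_top (f := fun n : ℕ => (n : ℝ))).comp (gmm_floor hL hσ N)
  exact ((hσ.sub (h1.mul (hL.div_const _))).div (gmm_pd hL N)).sub hu

theorem gmm_InG {L u σ : X → ℝ} (hL : Measurable L) (hu : Measurable u) (hσ : Measurable σ)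
    (N : ℕ) : MeasurableSet {x | InG (L x) N (u x) (σ x)} :=
  (measurableSet_lt measurable_const (gmm_cX hL hu hσ N)).inter
    ((measurableSet_lt (gmm_cX hL hu hσ N) measurable_const).inter
      (measurableSet_eq_fun (gmm_cX hL hu hσ N).fract measurable_const).compl)

theorem gmm_gam {L u α : X → ℝ} {y : X → ℝ × ℝ} (hL : Measurable L) (hu : Measurable u)
    (hα : Measurable α) (hy : Measurable y) (N : ℕ) :
    Measurable fun x => gam (L x) N (u x) (α x) (y x) := by
  have h1 := (gmm_cX hL hu hy.fst N).fract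
  have h2 : Measurable fun x => gv (α x) (Int.fract (cX (L x) N (u x) (y x).1)) (y x).2 :=
    gmm_gv.comp (hα.prodMk (h1.prodMk hy.snd))
  unfold gam
  exact Measurable.ite (gmm_InG hL hu hy.fst N)
    ((hy.fst.add ((gmm_pd hL N).mul (h2.fst.sub h1))).prodMk h2.snd) hy

theorem t_gmm : S_GMM := by
  refine ⟨gmm_gv, fun P N α₀ => ?_⟩
  have hL : Measurable P.L := measurable_from_top
  have h1 : Measurable fun y : Th × XX => P.L y.2.1 := hL.comp measurable_snd.fst
  have h2 : Measurable fun y : Th × XX => (y.1.1 : ℝ) :=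
    measurable_subtype_coe.comp measurable_fst.fst
  have h3 : Measurable fun y : Th × XX => (y.1.2 : ℝ) :=
    measurable_subtype_coe.comp measurable_fst.snd
  refine ⟨measurable_snd.fst.prodMk (gmm_gam h1 h2 ((h3.const_add 1).const_mul α₀)
    measurable_snd.snd N), fun c => ?_, gmm_InG h1 h2 measurable_snd.snd.fst N⟩
  have h4 : Measurable fun x : XX => min x.1 P.S :=
    (measurable_from_top (f := fun n : ℕ => min n P.S)).comp measurable_fst
  have h5 : Measurable fun x : XX => min ⌊x.2.1 / (P.L x.1 / N)⌋₊ N :=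
    (measurable_from_top (f := fun n : ℕ => min n N)).comp
      (gmm_floor (hL.comp measurable_fst) measurable_snd.fst N)
  have e : {x : XX | cell P N x.1 x.2.1 = c} =
      (fun x : XX => min x.1 P.S) ⁻¹' {c.1.1} ∩
        (fun x : XX => min ⌊x.2.1 / (P.L x.1 / N)⌋₊ N) ⁻¹' {c.2.1} := by
    ext x
    simp only [cell, Prod.ext_iff, Fin.ext_iff, mem_ofPred_eq, mem_inter_iff, mem_preimage,
      mem_singleton_iff]
  rw [e]
  exact (h4 (measurableSet_singleton _)).inter (h5 (measurableSet_singleton _))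

end

end Pool.Agent.P.MP_6b977f_mp.EB
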