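import Pool.Agent.P.MP_6b977f_mp.EB.IfE

/-! Existence of the grooved table. -/

namespace Pool.Agent.P.MP_6b977f_mp.EB

open Real MeasureTheory Filter Topology Set Metric
open scoped ContDiff BoundedContinuousFunction ComplexConjugate Pointwise ENNReal

noncomputable section

theorem gt1_root {D : ℝ → ℝ} {c κ δ p q A B : ℝ} (hc : 0 < c) (hκ0 : 0 ≤ κ) (hκ : κ ≤ c / 2)
    (hp : c ≤ p) (hq : |q| ≤ 1) (hA : 0 < A) (hD : ∀ σ, 0 ≤ D σ ∧ D σ ≤ δ)
    (hL : ∀ σ σ', |D σ - D σ'| ≤ κ * |σ - σ'|) :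
    ∃ R, A - R * p + D (R * q - B) = 0 ∧ ∀ a, (0 < A - a * p + D (a * q - B) ↔ a < R) ∧
      (A - a * p + D (a * q - B) = 0 → a = R) := by
  have hcD : Continuous D := (LipschitzWith.of_dist_le_mul (K := ⟨κ, hκ0⟩) hL).continuous
  have h0 : 0 ≤ (A + δ) / c := div_nonneg (by linarith [hD 0]) hc.le
  have h1 : (A + δ) / c * c = A + δ := div_mul_cancel₀ _ hc.ne'
  obtain ⟨R, -, hR⟩ := intermediate_value_Icc' h0 (f := fun a => A - a * p + D (a * q - B))
    (Continuous.continuousOn (by fun_prop)) (show (0 : ℝ) ∈ _ from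
      ⟨by linarith [hD ((A + δ) / c * q - B), mul_le_mul_of_nonneg_left hp h0],
        by linarith [hD (0 * q - B)]⟩)
  refine ⟨R, hR, fun a => ?_⟩
  have a1 := hL (a * q - B) (R * q - B)
  rw [sub_sub_sub_cancel_right, ← sub_mul, abs_mul] at a1
  have a2 := abs_le.1 (a1.trans (mul_le_mul hκ (mul_le_of_le_one_right (abs_nonneg _) hq)
    (by positivity) (by linarith)))
  simp only at hR
  rcases lt_trichotomy a R with h | h | h
  · rw [abs_of_neg (sub_neg.2 h)] at a2
    have := mul_le_mul_of_nonneg_left hp (sub_pos.2 h).le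
    have := mul_pos (sub_pos.2 h) hc
    exact ⟨iff_of_true (by linarith) h, fun e => by linarith⟩
  · exact ⟨iff_of_false (by rw [h, hR]; exact lt_irrefl _) h.not_lt, fun _ => h⟩
  · rw [abs_of_pos (sub_pos.2 h)] at a2
    have := mul_le_mul_of_nonneg_left hp (sub_pos.2 h).le
    have := mul_pos (sub_pos.2 h) hc
    exact ⟨iff_of_false (by linarith) h.not_gt, fun e => by linarith⟩

theorem gt1_log {A x y : ℝ} (hA : 0 < A) (hx : A ≤ x) (hy : A ≤ y) :
    A * |Real.log x - Real.log y| ≤ |x - y| := by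
  have key : ∀ x y : ℝ, A ≤ x → A ≤ y → A * (Real.log x - Real.log y) ≤ |x - y| := by
    intro x y hx hy
    have hy0 := hA.trans_le hy
    have h1 := Real.log_le_sub_one_of_pos (div_pos (hA.trans_le hx) hy0)
    rw [Real.log_div (hA.trans_le hx).ne' hy0.ne', div_sub_one hy0.ne'] at h1
    have h2 : (x - y) / y ≤ |x - y| / A := div_le_div₀ (abs_nonneg _) (le_abs_self _) hA hy
    rw [mul_comm, ← le_div_iff₀ hA]
    linarith
  rcases abs_choice (Real.log x - Real.log y) with h | h <;> rw [h]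
  · exact key x y hx hy
  · rw [neg_sub, abs_sub_comm]
    exact key y x hy hx

theorem gt1_lip {c κ η p q p' q' A R R' d d' τ : ℝ} (hc : 0 < c) (hκ0 : 0 ≤ κ) (hκ : κ ≤ c / 2)
    (hη : 4 * κ * (1 + c) ≤ η * c ^ 2) (hp : c ≤ p) (hp' : c ≤ p') (hq : |q| ≤ 1) (hA : 0 < A)
    (hd' : 0 ≤ d' ∧ d' ≤ A) (e : A - R * p + d = 0) (e' : A - R' * p' + d' = 0)
    (h1 : |p - p'| ≤ τ) (h2 : |q - q'| ≤ τ) (hL : |d - d'| ≤ κ * |R * q - R' * q'|) :
    |d - d'| ≤ A * (η * τ) := by
  have hτ := (abs_nonneg _).trans h1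
  have r0 : 0 ≤ R' := nonneg_of_mul_nonneg_left (show 0 ≤ R' * p' by linarith) (by linarith)
  have r1 : R' * c ≤ 2 * A := by linarith [mul_le_mul_of_nonneg_left hp' r0]
  have a1 : |R * q - R' * q'| ≤ |R - R'| + R' * τ := by
    rw [show R * q - R' * q' = (R - R') * q + R' * (q - q') by ring]
    refine (abs_add_le _ _).trans (add_le_add ?_ ?_)
    · rw [abs_mul]
      exact mul_le_of_le_one_right (abs_nonneg _) hq
    · rw [abs_mul, abs_of_nonneg r0]
      exact mul_le_mul_of_nonneg_left h2 r0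
  have a2 : |R - R'| * c ≤ |d - d'| + R' * τ := by
    have b1 : |(R - R') * p| ≤ |d - d'| + |R' * (p - p')| := by
      rw [show (R - R') * p = (d - d') - R' * (p - p') by linarith]
      exact abs_sub _ _
    rw [abs_mul, abs_mul, abs_of_nonneg r0, abs_of_pos (hc.trans_le hp)] at b1
    linarith [mul_le_mul_of_nonneg_left hp (abs_nonneg (R - R')), mul_le_mul_of_nonneg_left h1 r0]
  have a3 := mul_le_mul_of_nonneg_right (hL.trans (mul_le_mul_of_nonneg_left a1 hκ0)) hc.le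
  have a4 := mul_le_mul_of_nonneg_left a2 hκ0
  have a5 := mul_le_mul_of_nonneg_right hκ (abs_nonneg (d - d'))
  have a6 : |d - d'| * c ≤ 2 * (κ * (1 + c) * τ) * R' := by linarith
  have a7 := mul_le_mul_of_nonneg_right a6 hc.le
  have a8 := mul_le_mul_of_nonneg_left r1 (show 0 ≤ 2 * (κ * (1 + c) * τ) by positivity)
  have a9 := mul_le_mul_of_nonneg_right hη (mul_nonneg hτ hA.le)
  refine le_of_mul_le_mul_right ?_ (pow_pos hc 2)
  linarith

theorem gt1_ex (t t' : ℝ) : ‖ex t - ex t'‖ ≤ |t - t'| := by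
  have e : ex t - ex t' = ex t' * (Complex.exp (Complex.I * (t - t' : ℝ)) - 1) := by
    rw [mul_sub, mul_one, ex, ex, ← Complex.exp_add]
    congr 2
    push_cast
    ring
  rw [e, norm_mul, ex, Complex.norm_exp_ofReal_mul_I, one_mul]
  exact Real.norm_exp_I_mul_ofReal_sub_one_le

theorem gt1_cross (z e : ℂ) : cross z e = -(conj e * z).im := by
  simp [cross]
  ring

theorem gt1_im (e V z : ℂ) (a : ℝ) : (conj e * (a * z - V)).im = cross V e - a * cross z e := by
  simp [cross]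
  ring

theorem gt1_re (e V z : ℂ) (a : ℝ) :
    (conj e * (a * z - V)).re = a * (conj e * z).re - (conj e * V).re := by
  simp
  ring

theorem t_gt1 (hpol0 : S_POL0) (hglue : S_GLUE) (htab : S_TAB) : S_GT1 := by
  intro P ρ c η hP hρ hη
  have hc := hP.c_pos
  have hA := fun s hs => ((hpol0 P c hP).1 s hs).1
  obtain ⟨-, g2, g3⟩ := hglue P c hP
  obtain ⟨δ, hδ, hδ0⟩ := (((eventually_all_finset (Finset.range P.S)).2 fun s hs =>
    nhdsWithin_le_nhds (Iio_mem_nhds (mul_pos (hA s (Finset.mem_range.1 hs))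
      (lt_min one_pos hη)))).and (self_mem_nhdsWithin (a := (0 : ℝ)) (s := Ioi 0))).exists
  have hκ0 : 0 < min (c / 2) (η * c ^ 2 / (4 * (1 + c))) := by positivity
  have hκ1 : min (c / 2) (η * c ^ 2 / (4 * (1 + c))) ≤ c / 2 := min_le_left _ _
  have hκ2 : 4 * min (c / 2) (η * c ^ 2 / (4 * (1 + c))) * (1 + c) ≤ η * c ^ 2 := by
    have := (le_div_iff₀ (by positivity)).1 (min_le_right (c / 2) (η * c ^ 2 / (4 * (1 + c))))
    linarith
  generalize min (c / 2) (η * c ^ 2 / (4 * (1 + c))) = κ at hκ0 hκ1 hκ2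
  refine ⟨κ, δ, hκ0, hδ0, fun D hD => ?_⟩
  have hn : ∀ s < P.S, ∀ z, ‖conj (P.e s) * z‖ = ‖z‖ := fun s hs z => by
    rw [norm_mul, Complex.norm_conj, hP.unit s hs, one_mul]
  have hq : ∀ s < P.S, ∀ t, |(conj (P.e s) * ex t).re| ≤ 1 := fun s hs t =>
    (Complex.abs_re_le_norm _).trans ((hn s hs _).trans (Complex.norm_exp_ofReal_mul_I t)).le
  choose! R hR1 hR2 using fun s (hs : s < P.S) t (ht : t ∈ P.sec s) =>
    gt1_root (B := (conj (P.e s) * P.V s).re) hc hκ0.le hκ1 (hP.tr s hs t ht) (hq s hs t) (hA s hs)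
      (hD s hs).1 (hD s hs).2.2
  have hp : ∀ s < P.S, ∀ t ∈ P.sec s, 0 < cross (ex t) (P.e s) := fun s hs t ht =>
    hc.trans_le (hP.tr s hs t ht)
  have hR0 : ∀ s < P.S, ∀ t ∈ P.sec s, 0 < R s t := fun s hs t ht =>
    (hR2 s hs t ht 0).1.1 (by
      linarith [hA s hs, ((hD s hs).1 (0 * (conj (P.e s) * ex t).re - (conj (P.e s) * P.V s).re)).1])
  have hw : ∀ s < P.S, ∀ t ∈ P.sec s, Real.log (R s t) - ρ t = Real.log (cross (P.V s) (P.e s) +
      D s (R s t * (conj (P.e s) * ex t).re - (conj (P.e s) * P.V s).re)) -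
        Real.log (cross (P.V s) (P.e s)) := fun s hs t ht => by
    have e : cross (P.V s) (P.e s) + D s (R s t * (conj (P.e s) * ex t).re -
      (conj (P.e s) * P.V s).re) = R s t * cross (ex t) (P.e s) := by linarith [hR1 s hs t ht]
    rw [hρ.2 s hs t ht, Poly.rad, e, Real.log_mul (hR0 s hs t ht).ne' (hp s hs t ht).ne',
      Real.log_div (hA s hs).ne' (hp s hs t ht).ne']
    ring
  have hN : ∀ s < P.S, ∀ t ∈ P.sec s, |Real.log (R s t) - ρ t| ≤ η ∧ ∀ t' ∈ P.sec s,
      |(Real.log (R s t) - ρ t) - (Real.log (R s t') - ρ t')| ≤ η * |t - t'| := by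
    intro s hs t ht
    have hA' := hA s hs
    have d0 : δ < _ := hδ s (Finset.mem_range.2 hs)
    have d1 := mul_le_mul_of_nonneg_left (min_le_left 1 η) hA'.le
    have d2 := mul_le_mul_of_nonneg_left (min_le_right 1 η) hA'.le
    have d3 := (hD s hs).1
    refine ⟨le_of_mul_le_mul_left ?_ hA', fun t' ht' => le_of_mul_le_mul_left ?_ hA'⟩
    · rw [hw s hs t ht]
      refine (gt1_log hA' (le_add_of_nonneg_right (d3 _).1) le_rfl).trans ?_
      rw [add_sub_cancel_left, abs_of_nonneg (d3 _).1]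
      exact (d3 _).2.trans (by linarith)
    · rw [hw s hs t ht, hw s hs t' ht', sub_sub_sub_cancel_right]
      refine (gt1_log hA' (le_add_of_nonneg_right (d3 _).1)
        (le_add_of_nonneg_right (d3 _).1)).trans ?_
      rw [add_sub_add_left_eq_sub]
      have n1 := (hn s hs _).trans_le (gt1_ex t t')
      refine gt1_lip hc hκ0.le hκ1 hκ2 (hP.tr s hs t ht) (hP.tr s hs t' ht') (hq s hs t) hA'
        ⟨(d3 _).1, (d3 _).2.trans (by linarith)⟩ (hR1 s hs t ht) (hR1 s hs t' ht') ?_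
        (q' := (conj (P.e s) * ex t').re) ?_ ?_
      · rw [gt1_cross, gt1_cross, neg_sub_neg, abs_sub_comm, ← Complex.sub_im, ← mul_sub]
        exact (Complex.abs_im_le_norm _).trans n1
      · rw [← Complex.sub_re, ← mul_sub]
        exact (Complex.abs_re_le_norm _).trans n1
      · simpa only [sub_sub_sub_cancel_right] using (hD s hs).2.2
          (R s t * (conj (P.e s) * ex t).re - (conj (P.e s) * P.V s).re)
          (R s t' * (conj (P.e s) * ex t').re - (conj (P.e s) * P.V s).re)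
  have hl : ∀ s < P.S, R s (P.φ s) = ‖P.V s‖ := fun s hs =>
    ((hR2 s hs _ (left_mem_Icc.2 (hP.mono s hs).le) _).2 (by
      rw [← gt1_im, ← gt1_re, ← (hP.pol s hs.le).2, sub_self, mul_zero]
      simpa using (hD s hs).2.1 0 (by simp))).symm
  have hr : ∀ s < P.S, R s (P.φ (s + 1)) = ‖P.V (s + 1)‖ := fun s hs =>
    ((hR2 s hs _ (right_mem_Icc.2 (hP.mono s hs).le) _).2 (by
      rw [← gt1_im, ← gt1_re, ← (hP.pol (s + 1) hs).2, hP.step s hs, add_sub_cancel_left,
        mul_left_comm, Complex.conj_mul', hP.unit s hs]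
      simpa using (hD s hs).2.1 (P.L s) (by simp))).symm
  obtain ⟨σ, hσ, eσ⟩ := g2 (fun s t => Real.log (R s t)) (fun s hs => by
      have := (LipschitzOnWith.of_dist_le_mul (K := ⟨η, hη.le⟩)
        (f := fun t => Real.log (R s t) - ρ t) (s := P.sec s)
        fun t ht t' ht' => (hN s hs t ht).2 t' ht').continuousOn
      exact (this.add hρ.1.1.continuousOn).congr fun t _ => (sub_add_cancel _ _).symm)
    (fun s hs => by rw [hr s (by omega), hl _ hs]) (by
      have h3 := hP.three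
      have := hr (P.S - 1) (by omega)
      rw [Nat.sub_add_cancel (by omega)] at this
      rw [this, hl 0 (by omega), hP.close])
  refine ⟨σ, ⟨hσ, fun s hs t ht a ha => ?_⟩, g3 σ ρ η hσ.2 hρ.1.2 fun s hs t ht => ?_⟩
  · rw [(htab σ hσ).2.2.2.2.2.2.1 a t ha, eσ s hs t ht, Real.exp_log (hR0 s hs t ht), gt1_im,
      gt1_re]
    exact (hR2 s hs t ht a).1.symm
  · rw [eσ s hs t ht]
    exact ⟨(hN s hs t ht).1, fun t' ht' => by rw [eσ s hs t' ht']; exact (hN s hs t ht).2 t' ht'⟩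

end

end Pool.Agent.P.MP_6b977f_mp.EB
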