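import Pool.Agent.P.MP_6b977f_mp.EB.IfE
import Pool.Agent.P.MP_6b977f_mp.EB.POL0

/-! The boundary of a grooved table. -/

namespace Pool.Agent.P.MP_6b977f_mp.EB

open Real MeasureTheory Filter Topology Set Metric
open scoped ContDiff BoundedContinuousFunction ComplexConjugate Pointwise ENNReal

theorem gt2_norm (t : ℝ) : ‖ex t‖ = 1 := Complex.norm_exp_ofReal_mul_I t

theorem gt2_conj {e : ℂ} (he : ‖e‖ = 1) : conj e * e = 1 := by
  rw [Complex.conj_mul', he]; simp

theorem gt2_re {e : ℂ} (he : ‖e‖ = 1) (t : ℝ) : |(conj e * ex t).re| ≤ 1 :=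
  (Complex.abs_re_le_norm _).trans_eq (by rw [norm_mul, Complex.norm_conj, he, gt2_norm, one_mul])

theorem gt2_cross (e : ℂ) (t a b : ℝ) :
    cross (ex t) (e * (a - b * Complex.I)) = a * cross (ex t) e - b * (conj e * ex t).re := by
  simp [cross]; ring

/-- the points just below a side are in its open sector -/
theorem gt2_sec {P : Poly} {c : ℝ} (h : P.Ok c) {s : ℕ} (hs : s < P.S) {a ζ : ℝ}
    (ha : a ∈ Ioo 0 (P.L s)) (z0 : 0 ≤ ζ) (z1 : ζ ≤ c / 2 * a) (z2 : ζ ≤ c / 2 * (P.L s - a)) :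
    ∃ t ∈ Ioo (P.φ s) (P.φ (s + 1)), ∃ r : ℝ, 0 < r ∧
      P.V s + P.e s * (a - ζ * Complex.I) = r * ex t := by
  have m := h.mono s hs
  have he := h.unit s hs
  have c0 := h.c_pos
  have k : ∀ (r t : ℝ) (w : ℂ), cross (ex t) (r * ex t + w) = cross (ex t) w := fun r t w => by
    simp [cross]; ring
  have h1 : 0 < cross (ex (P.φ s)) (P.V s + P.e s * (a - ζ * Complex.I)) := by
    rw [(h.pol s hs.le).2, k, gt2_cross]
    have := h.tr s hs _ ⟨le_rfl, m.le⟩
    have := (abs_le.1 (gt2_re he (P.φ s))).2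
    nlinarith [ha.1]
  have h2 : cross (ex (P.φ (s + 1))) (P.V s + P.e s * (a - ζ * Complex.I)) < 0 := by
    rw [show P.V s + P.e s * (a - ζ * Complex.I) =
      P.V (s + 1) + P.e s * ((a - P.L s : ℝ) - ζ * Complex.I) by
        rw [h.step s hs]; push_cast; ring, (h.pol (s + 1) hs).2, k, gt2_cross]
    have := h.tr s hs _ ⟨m.le, le_rfl⟩
    have := (abs_le.1 (gt2_re he (P.φ (s + 1)))).1
    nlinarith [ha.2]
  have h3 : 0 < cross (P.V s + P.e s * (a - ζ * Complex.I)) (P.e s) := by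
    have e : cross (P.V s + P.e s * (a - ζ * Complex.I)) (P.e s) =
        cross (P.V s) (P.e s) + ζ * (conj (P.e s) * P.e s).re := by
      simp [cross]; ring
    rw [e, gt2_conj he]
    have := (pol0_one h s hs).1
    simp only [Complex.one_re]
    linarith
  generalize P.V s + P.e s * (a - ζ * Complex.I) = z at *
  obtain ⟨t, ht, h4⟩ := intermediate_value_Ioo' m.le
    (continuous_iff_continuousAt.2 fun t => (pol0_db z t).continuousAt).continuousOn ⟨h2, h1⟩
  have h5 := pol0_dec (z := z) (gt2_norm t) (by simp only [cross] at h4 ⊢; linarith)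
  refine ⟨t, ht, _, ?_, h5⟩
  rw [h5, pol0_smul] at h3
  exact (mul_pos_iff_of_pos_right (c0.trans_le (h.tr s hs t (Ioo_subset_Icc_self ht)))).1 h3

/-- the boundary is the zero set of the height -/
theorem gt2_zero (htab : S_TAB) {P : Poly} {c κ δ : ℝ} {D : ℕ → ℝ → ℝ} {σ : ℝ → ℝ} (h : P.Ok c)
    (hκ : κ ≤ c / 2) (hD : Dep P D κ δ) (hG : Grv P D σ) {s : ℕ} (hs : s < P.S) {t r : ℝ}
    (ht : t ∈ P.sec s) (hr : 0 ≤ r) (h0 : (conj (P.e s) * (r * ex t - P.V s)).im +
      D s (conj (P.e s) * (r * ex t - P.V s)).re = 0) : Real.exp (σ t) = r := by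
  obtain ⟨-, -, -, -, -, -, o, -⟩ := htab σ hG.1
  have h1 := (o r t hr).symm.trans (hG.2 s hs t ht r hr)
  have x0 := Real.exp_pos (σ t)
  have h2 := (o _ t x0.le).symm.trans (hG.2 s hs t ht _ x0.le)
  rw [h0] at h1
  simp only [lt_irrefl, iff_false, false_iff, not_lt] at h1 h2
  refine h1.antisymm (not_lt.1 fun b => ?_)
  generalize Real.exp (σ t) = x at *
  have h3 := (hD s hs).2.2 (conj (P.e s) * (r * ex t - P.V s)).re
    (conj (P.e s) * (x * ex t - P.V s)).re
  have k0 : 0 ≤ κ := by simpa using (abs_nonneg _).trans ((hD s hs).2.2 1 0)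
  have e1 : (conj (P.e s) * (r * ex t - P.V s)).re - (conj (P.e s) * (x * ex t - P.V s)).re =
      (r - x) * (conj (P.e s) * ex t).re := by simp; ring
  have e2 : (conj (P.e s) * (x * ex t - P.V s)).im - (conj (P.e s) * (r * ex t - P.V s)).im =
      (r - x) * cross (ex t) (P.e s) := by simp [cross]; ring
  rw [e1, abs_mul, abs_of_pos (sub_pos.2 b)] at h3
  have h4 := mul_le_mul_of_nonneg_left (gt2_re (h.unit s hs) t) (mul_nonneg k0 (sub_pos.2 b).le)
  have h5 := mul_le_mul_of_nonneg_left (h.tr s hs t ht) (sub_pos.2 b).le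
  have := (abs_le.1 h3).2
  nlinarith [mul_pos h.c_pos (sub_pos.2 b)]

theorem gt2_tan {σ : ℝ → ℝ} (h : CP σ) (t : ℝ) :
    tanf (deriv σ) (bd σ t) = (deriv σ t + Complex.I) * bd σ t := by
  have p : Function.Periodic (deriv σ) (2 * π) := fun x => by
    rw [← deriv_comp_add_const, funext h.2]
  rw [tanf, bd, Complex.arg_real_mul _ (Real.exp_pos _), ex, Complex.arg_exp_mul_I, toIocMod,
    p.sub_zsmul_eq]

theorem t_gt2 (hpol0 : S_POL0) (hglue : S_GLUE) (htab : S_TAB) : S_GT2 := by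
  intro P ρ σ c κ δ D h hρ hκ hD hG
  obtain ⟨-, -, h1⟩ := (hpol0 P c h).2.2.1 ρ hρ
  refine ⟨fun z hz => ?_, fun s hs a ha => ?_⟩
  · obtain ⟨s, hs, m, ht⟩ := (hglue P c h).1 z.arg
    have e : z = ‖z‖ * ex (z.arg + m * (2 * π)) := by
      rw [ex]
      push_cast
      rw [add_mul, Complex.exp_add, mul_assoc (m : ℂ), Complex.exp_int_mul_two_pi_mul_I, mul_one,
        Complex.norm_mul_exp_arg_mul_I]
    have h2 := h1 s hs _ ht _ (norm_nonneg z)
    have h3 := hG.2 s hs _ ht _ (norm_nonneg z)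
    rw [← e] at h2 h3
    have h4 := h2.1 hz
    have h5 := ((hD s hs).1 (conj (P.e s) * (z - P.V s)).re).1
    refine h3.2 ?_
    simp [cross] at h4 h5 ⊢
    linarith
  have he := h.unit s hs
  have k0 : 0 ≤ κ := by simpa using (abs_nonneg _).trans ((hD s hs).2.2 1 0)
  have sec : ∀ ζ ∈ Icc 0 (D s a), ∃ t ∈ Ioo (P.φ s) (P.φ (s + 1)), ∃ r : ℝ, 0 < r ∧
      P.V s + P.e s * (a - ζ * Complex.I) = r * ex t := fun ζ hζ => by
    have a1 := (abs_le.1 ((hD s hs).2.2 a 0)).2
    have a2 := (abs_le.1 ((hD s hs).2.2 a (P.L s))).2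
    rw [(hD s hs).2.1 0 (by simp), sub_zero, sub_zero, abs_of_pos ha.1] at a1
    rw [(hD s hs).2.1 (P.L s) (by simp), abs_of_neg (sub_neg.2 ha.2)] at a2
    exact gt2_sec h hs ha hζ.1 (by nlinarith [hζ.2, ha.1]) (by nlinarith [hζ.2, ha.2])
  have co : ∀ w : ℂ, conj (P.e s) * (P.V s + P.e s * w - P.V s) = w := fun w => by
    rw [add_sub_cancel_left, ← mul_assoc, gt2_conj he, one_mul]
  refine ⟨fun ζ hζ => ?_, fun m hm => ?_⟩
  · obtain ⟨t, ht, r, r0, e⟩ := sec ζ hζ
    have h2 := h1 s hs t (Ioo_subset_Icc_self ht) r r0.le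
    have h3 := hG.2 s hs t (Ioo_subset_Icc_self ht) r r0.le
    rw [← e] at h2 h3
    rw [co] at h3
    refine ⟨h3.trans (by simp), fun b => ?_⟩
    have h4 := h2.1 b
    have h5 := congrArg Complex.re (gt2_conj he)
    simp [cross] at h4 h5
    nlinarith [hζ.1]
  obtain ⟨t, ht, r, r0, e⟩ := sec _ ⟨((hD s hs).1 a).1, le_rfl⟩
  have mκ : |m| ≤ κ := by
    obtain ⟨x, b1, b2⟩ := ((hm.filter_mono (nhdsWithin_le_nhds (s := {a}ᶜ))).and
      self_mem_nhdsWithin).exists
    have := (hD s hs).2.2 x a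
    rw [b1, add_sub_cancel_left, abs_mul] at this
    exact le_of_mul_le_mul_right this (abs_pos.2 (sub_ne_zero.2 b2))
  obtain ⟨e', he'⟩ : ∃ e', e' = P.e s * (1 - m * Complex.I) := ⟨_, rfl⟩
  have pos : ∀ t' ∈ P.sec s, 0 < cross (ex t') e' := fun t' ht' => by
    have a1 := gt2_cross (P.e s) t' 1 m
    have a2 := h.tr s hs t' ht'
    have a3 := (le_abs_self _).trans_eq (abs_mul m (conj (P.e s) * ex t').re)
    have a4 := mul_le_mul mκ (gt2_re he t') (abs_nonneg _) k0
    rw [he', ← Complex.ofReal_one, a1]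
    linarith [h.c_pos]
  have p0 := pos t (Ioo_subset_Icc_self ht)
  have cc : Continuous fun t' => cross (ex t') e' :=
    continuous_iff_continuousAt.2 fun t => (pol0_db e' t).continuousAt
  have cR : ContinuousAt (fun t' => ((r * cross (ex t) e' / cross (ex t') e' : ℝ) : ℂ) * ex t') t :=
    (Complex.continuous_ofReal.continuousAt.comp (continuousAt_const.div cc.continuousAt p0.ne')).mul
      (by unfold ex; fun_prop)
  have cu : Tendsto (fun t' => (conj (P.e s) * (((r * cross (ex t) e' / cross (ex t') e' : ℝ) : ℂ) *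
      ex t' - P.V s)).re) (𝓝 t) (𝓝 a) := by
    refine (Complex.continuous_re.continuousAt.comp
      ((cR.sub continuousAt_const (g := fun _ => P.V s)).const_mul (conj (P.e s)))).tendsto.trans_eq
      (congrArg 𝓝 ?_)
    simp only [Function.comp_apply, Pi.sub_apply, mul_div_cancel_right₀ _ p0.ne', ← e, co]
    simp
  have ev : ∀ᶠ t' in 𝓝 t, σ t' = Real.log (r * cross (ex t) e') - Real.log (cross (ex t') e') := by
    filter_upwards [cu.eventually hm, Icc_mem_nhds ht.1 ht.2] with t' b1 b2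
    have p1 := pos t' b2
    rw [← Real.log_div (by positivity) p1.ne', ← gt2_zero htab h hκ hD hG hs b2
      (r := r * cross (ex t) e' / cross (ex t') e') (by positivity) ?_, Real.log_exp]
    rw [b1]
    have b3 : cross (((r * cross (ex t) e' / cross (ex t') e' : ℝ) : ℂ) * ex t') e' =
        cross (r * ex t) e' := by rw [pol0_smul, pol0_smul, div_mul_cancel₀ _ p1.ne']
    generalize ((r * cross (ex t) e' / cross (ex t') e' : ℝ) : ℂ) * ex t' = p at *
    have h5 := congrArg Complex.re (gt2_conj he)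
    rw [← e, he'] at b3
    simp [cross] at b3 h5 ⊢
    linear_combination -b3 - (D s a - m * a) * h5
  have dv : ∀ᶠ t' in 𝓝 t, HasDerivAt σ ((conj e' * ex t').re / cross (ex t') e') t' := by
    filter_upwards [ev.eventually_nhds, Icc_mem_nhds ht.1 ht.2] with t' b1 b2
    exact ((((pol0_db e' t').log (pos t' b2).ne').const_sub _).congr_deriv
      (by rw [neg_div, neg_neg])).congr_of_eventuallyEq b1
  have d0 := dv.self_of_nhds
  have x0 : Real.exp (σ t) = r := by
    rw [ev.self_of_nhds, ← Real.log_div (by positivity) p0.ne', mul_div_cancel_right₀ _ p0.ne',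
      Real.exp_log r0]
  refine ⟨t, by rw [e, bd, x0], d0.differentiableAt.hasDerivAt,
    ContinuousAt.congr (((pol0_da e' t).continuousAt).div cc.continuousAt p0.ne')
      (dv.mono fun t' b => b.deriv.symm), r / cross (ex t) e', by positivity, ?_⟩
  rw [gt2_tan hG.1, d0.deriv, bd, x0, ← he']
  have h5 := congrArg Complex.re (gt2_conj (gt2_norm t))
  have : e' = ((conj e' * ex t).re + cross (ex t) e' * Complex.I) * ex t := by
    apply Complex.ext <;> simp [cross] at h5 ⊢
    · linear_combination -e'.re * h5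
    · linear_combination -e'.im * h5
  have p2 : (cross (ex t) e' : ℂ) ≠ 0 := by exact_mod_cast p0.ne'
  push_cast
  field_simp
  linear_combination -r * this

end Pool.Agent.P.MP_6b977f_mp.EB
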