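import Pool.Agent.P.MP_6b977f_mp.EB.BM

/-! The billiard map preserves the boundary measure. -/

namespace Pool.Agent.P.MP_6b977f_mp.EB

open Real MeasureTheory Filter Topology Set Metric
open scoped ContDiff BoundedContinuousFunction ComplexConjugate Pointwise ENNReal

noncomputable section

lemma inv_cross (τ v : ℂ) (h : τ ≠ 0) : cross τ (refl τ (-v)) = cross τ v := by
  have e : ∀ a b : ℂ, cross a b = (conj a * b).im := fun a b => by simp [cross]; ring
  have hc : conj τ ≠ 0 := (map_ne_zero _).2 h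
  have : conj τ * refl τ (-v) = -conj (conj τ * v) := by
    unfold refl; simp only [map_neg, map_mul, Complex.conj_conj]; field_simp
  rw [e, e, this, Complex.neg_im, Complex.conj_im, neg_neg]

lemma inv_refl (τ : ℂ) (h : τ ≠ 0) : MeasurePreserving (fun v => refl τ (-v)) cm cm := by
  obtain ⟨-, -, -, h1, h2⟩ := bm_cm
  have hn : ‖-(τ / conj τ)‖ = 1 := by
    rw [norm_neg, norm_div, Complex.norm_conj, div_self (norm_ne_zero_iff.2 h)]
  have a : MeasurePreserving (fun v => -(τ / conj τ) * v) cm cm :=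
    ⟨measurable_const_mul _, h1 _ hn⟩
  have b : MeasurePreserving (fun v : ℂ => conj v) cm cm :=
    ⟨Complex.continuous_conj.measurable, h2⟩
  convert a.comp b using 1
  funext v; simp [refl]

lemma inv_key (hsan : S_SAN) (hbm : S_BM) (htp : S_TP) (htab : S_TAB) {ρ ρ' : ℝ → ℝ}
    {Z : Finset ℂ} (hP : PW ρ ρ' Z) (G : ℂ × ℂ → ℝ≥0∞) (hG : Measurable G) :
    ∫⁻ x, G (x.1 + tp (table ρ) x.1 x.2 * x.2, x.2) ∂bm ρ ρ' = ∫⁻ x, G (x.1, -x.2) ∂bm ρ ρ' := by
  obtain ⟨ho, hb, -, -, hfr, -⟩ := htab ρ hP.cp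
  obtain ⟨hm, -, -, hv⟩ := htp _ ho hb
  obtain ⟨hf, -, -, h1, -⟩ := hbm.1
  obtain ⟨-, -, hae, -⟩ := hbm.2 ρ ρ' Z hP
  have hs := (hsan ρ ρ' Z hP).1
  have hN : Measurable fun x : ℂ × ℂ => (x.1, -x.2) := by fun_prop
  obtain ⟨F, hF⟩ : ∃ F : ℂ × ℂ → ℝ≥0∞, ∀ x, F x = G (x.1 + tp (table ρ) x.1 x.2 * x.2, x.2) /
    ENNReal.ofReal (tp (table ρ) x.1 x.2 + tp (table ρ) x.1 (-x.2)) := ⟨_, fun _ => rfl⟩
  have hFm : Measurable F := by
    rw [funext hF]
    exact (hG.comp ((measurable_fst.add ((Complex.measurable_ofReal.comp hm).mul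
      measurable_snd)).prodMk measurable_snd)).div (hm.add (hm.comp hN)).ennreal_ofReal
  have hneg : MeasurePreserving (fun v : ℂ => -v) cm cm :=
    ⟨measurable_neg, by simpa using h1 (-1) (by simp)⟩
  have hl : ∫⁻ x, F (x.1, -x.2) ∂liou (table ρ) = ∫⁻ x, F x ∂liou (table ρ) :=
    ((MeasurePreserving.id (volume.restrict (table ρ))).prod hneg).lintegral_comp hFm
  have hc : ∀ (a : ℝ≥0∞) (l : ℝ), 0 < l → ∫⁻ _ in Ioo (0 : ℝ) l, a / ENNReal.ofReal l = a :=
    fun a l hl => by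
      rw [setLIntegral_const, Real.volume_Ioo, sub_zero]
      exact ENNReal.div_mul_cancel (by simpa using hl) ENNReal.ofReal_ne_top
  have hout : ∀ t, bd ρ t ∉ table ρ := fun t h => by
    have : bd ρ t ∈ frontier (table ρ) := hfr ▸ mem_range_self _
    rw [ho.frontier_eq] at this
    exact this.2 h
  rw [hs _ hFm, hs (fun x => F (x.1, -x.2)) (hFm.comp hN)] at hl
  refine Eq.trans ?_ (hl.symm.trans ?_)
  · refine lintegral_congr_ae ?_
    filter_upwards [hae] with x ⟨hx, t, h2, _, _, h3⟩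
    have hne : x.2 ≠ 0 := fun h => by simp [h] at hx
    rw [← hc (G _) _ h3]
    refine setLIntegral_congr_fun measurableSet_Ioo fun s hs => ?_
    obtain ⟨h4, h5⟩ := (hv x.1 x.2 hne).2.2.2.2.2 s hs
    simp only [hF, h4, h5 (h2 ▸ hout t), sub_add_cancel]
    congr 3; push_cast; ring
  · refine lintegral_congr_ae ?_
    filter_upwards [hae] with x ⟨hx, t, h2, _, _, h3⟩
    have hne : x.2 ≠ 0 := fun h => by simp [h] at hx
    rw [← hc (G _) _ h3]
    refine setLIntegral_congr_fun measurableSet_Ioo fun s hs => ?_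
    obtain ⟨h4, h5⟩ := (hv x.1 x.2 hne).2.2.2.2.2 s hs
    simp only [hF, neg_neg, h4, h5 (h2 ▸ hout t), add_sub_cancel]
    congr 3; ring

theorem t_inv (hsan : S_SAN) (hbm : S_BM) (htp : S_TP) (hpwc : S_PWC) (htab : S_TAB) : S_INV := by
  intro ρ ρ' Z hP
  have key := inv_key hsan hbm htp htab hP
  obtain ⟨-, hT, -, h4, -⟩ := hbm.2 ρ ρ' Z hP
  obtain ⟨-, h5, h6⟩ := hpwc.2 ρ ρ' Z hP
  have ht := bm_tanf_meas hP.meas
  have hN : Measurable fun x : ℂ × ℂ => (x.1, -x.2) := by fun_prop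
  refine ⟨⟨hT, Measure.ext_of_lintegral _ fun h hh => ?_⟩, ?_⟩
  · have hG : Measurable fun y : ℂ × ℂ => h (y.1, refl (tanf ρ' y.1) y.2) :=
      hh.comp (measurable_fst.prodMk (bm_refl_meas (ht.comp measurable_fst) measurable_snd))
    rw [lintegral_map hh hT]
    refine (key _ hG).trans ?_
    rw [h4 (fun x => h (x.1, refl (tanf ρ' x.1) (-x.2))) (hG.comp hN), h4 h hh]
    refine lintegral_congr fun φ => ?_
    have hm : Measurable fun v => ENNReal.ofReal (cross (tanf ρ' (bd ρ φ)) v) * h (bd ρ φ, v) :=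
      (bm_cross_meas measurable_const measurable_id).ennreal_ofReal.mul
        (hh.comp measurable_prodMk_left)
    rw [← (inv_refl _ (h5 φ).2.1).lintegral_comp hm]
    simp only [inv_cross _ _ (h5 φ).2.1]
  · obtain ⟨ho, hb, -⟩ := htab ρ hP.cp
    obtain ⟨hm, -⟩ := htp _ ho hb
    have hH : Measurable fun x : ℂ × ℂ => (x.1 + tp (table ρ) x.1 x.2 * x.2, x.2) :=
      (measurable_fst.add ((Complex.measurable_ofReal.comp hm).mul
        measurable_snd)).prodMk measurable_snd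
    obtain ⟨A, hA⟩ : ∃ A : Set (ℂ × ℂ), A = {y | y.1 = bd ρ y.1.arg ∧ ex y.1.arg ∉ Z ∧
      cross (tanf ρ' y.1) y.2 < 0} := ⟨_, rfl⟩
    have hAm : MeasurableSet A := by
      have ha : Measurable fun x : ℂ × ℂ => x.1.arg := Complex.measurable_arg.comp measurable_fst
      rw [hA]
      exact (measurableSet_eq_fun measurable_fst ((bm_bd_cont hP.cp.1).measurable.comp ha)).inter
        (((bm_ex_cont.measurable.comp ha) Z.measurableSet.compl).inter
          (measurableSet_lt (bm_cross_meas (ht.comp measurable_fst) measurable_snd)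
            measurable_const))
    have hG : Measurable (Aᶜ.indicator (1 : ℂ × ℂ → ℝ≥0∞)) := measurable_one.indicator hAm.compl
    have h0 := key _ hG
    rw [h4 (fun x => Aᶜ.indicator 1 (x.1, -x.2)) (hG.comp hN)] at h0
    have h1 : ∫⁻ φ in Ioc (-π) π, ∫⁻ v, ENNReal.ofReal (cross (tanf ρ' (bd ρ φ)) v) *
        Aᶜ.indicator (1 : ℂ × ℂ → ℝ≥0∞) (bd ρ φ, -v) ∂cm = 0 := by
      refine lintegral_eq_zero_of_ae_eq_zero ?_
      filter_upwards [ae_restrict_mem measurableSet_Ioc, measure_eq_zero_iff_ae_notMem.1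
        ((h6 (-π) π).measure_zero (volume.restrict (Ioc (-π) π)))] with φ h2 h3
      refine lintegral_eq_zero_of_ae_eq_zero (Eventually.of_forall fun v => ?_)
      by_cases h : cross (tanf ρ' (bd ρ φ)) v ≤ 0
      · simp [ENNReal.ofReal_eq_zero.2 h]
      · have : (bd ρ φ, -v) ∈ A := by
          rw [hA]
          refine ⟨by rw [bm_arg ρ h2], by
            rw [bm_arg ρ h2]; exact fun h' => h3 ⟨Ioc_subset_Icc_self h2, h'⟩, ?_⟩
          have : cross (tanf ρ' (bd ρ φ)) (-v) = -cross (tanf ρ' (bd ρ φ)) v := by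
            simp [cross]; ring
          show cross (tanf ρ' (bd ρ φ)) (-v) < 0
          rw [this]; linarith [not_le.1 h]
        simp [this]
    filter_upwards [(lintegral_eq_zero_iff (hG.comp hH)).1 (h0.trans h1)] with x hx
    have h7 : (x.1 + tp (table ρ) x.1 x.2 * x.2, x.2) ∈ A := by
      by_contra h
      simp [h] at hx
    rw [hA] at h7
    exact ⟨_, h7.1, h7.2.1, h7.1 ▸ h7.2.2⟩

end

end Pool.Agent.P.MP_6b977f_mp.EB
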