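import Pool.Agent.P.MP_6b977f_mp.EB.IfE

/-! Averaged Birkhoff sums in a random environment. -/

namespace Pool.Agent.P.MP_6b977f_mp.EB

open Real MeasureTheory Filter Topology Set Metric
open scoped ContDiff BoundedContinuousFunction ComplexConjugate Pointwise ENNReal

noncomputable section

lemma mk_upd {ι : Type} [Fintype ι] [DecidableEq ι] (c : ι) :
    MeasurePreserving (fun p : (ι → Th) × Th => Function.update p.1 c p.2)
      (volume.prod volume) volume := by
  refine ⟨measurable_update', ?_⟩
  symm
  refine Measure.pi_eq fun s hs => ?_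
  rw [Measure.map_apply measurable_update' (MeasurableSet.univ_pi hs)]
  have e : (fun p : (ι → Th) × Th => Function.update p.1 c p.2) ⁻¹' univ.pi s =
      (univ.pi (Function.update s c univ)) ×ˢ s c := by
    ext p
    simp only [mem_preimage, mem_univ_pi, mem_prod]
    constructor
    · intro h
      refine ⟨fun i => ?_, by simpa using h c⟩
      by_cases hi : i = c
      · subst hi; simp
      · simpa [hi] using h i
    · rintro ⟨h1, h2⟩ i
      by_cases hi : i = c
      · subst hi; simpa using h2
      · simpa [hi] using h1 i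
  rw [e, Measure.prod_prod, volume_pi_pi, ← Finset.mul_prod_erase _ _ (Finset.mem_univ c),
    ← Finset.mul_prod_erase _ (fun i => volume (s i)) (Finset.mem_univ c), Function.update_self,
    measure_univ, one_mul, mul_comm]
  congr 1
  exact Finset.prod_congr rfl fun i hi => by rw [Function.update_of_ne (Finset.ne_of_mem_erase hi)]

lemma mk_meas {ι : Type} [Fintype ι] (j : XX → ι) (τ : Th → XX → XX)
    (hj : ∀ c, MeasurableSet {x | j x = c}) (hτ : Measurable fun y : Th × XX => τ y.1 y.2)
    (k : ℕ) : Measurable fun p : (ι → Th) × XX => (fun x => τ (p.1 (j x)) x)^[k] p.2 := by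
  let : MeasurableSpace ι := ⊤
  have hjm : Measurable j := measurable_to_countable' hj
  have hev : Measurable fun p : (ι → Th) × ι => p.1 p.2 :=
    measurable_from_prod_countable_left fun i => measurable_pi_apply i
  induction k with
  | zero => exact measurable_snd
  | succ k ih =>
    simp only [Function.iterate_succ_apply']
    exact hτ.comp ((hev.comp (measurable_fst.prodMk (hjm.comp ih))).prodMk ih)

/-- Sum of the Birkhoff sums. -/
def mk_D (T : XX → XX) (f : XX → ℝ) (n : ℕ) (x : XX) : ℝ :=
  ∑ k ∈ Finset.range n, birkhoffSum T f (k + 1) x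

lemma mk_S_le (T : XX → XX) (f : XX → ℝ) (M : ℝ) (hM : ∀ x, |f x| ≤ M) (k : ℕ) (x : XX) :
    |birkhoffSum T f k x| ≤ k * M := by
  unfold birkhoffSum
  refine (Finset.abs_sum_le_sum_abs _ _).trans ?_
  refine (Finset.sum_le_sum fun i _ => hM _).trans ?_
  simp

lemma mk_D_le (T : XX → XX) (f : XX → ℝ) (M : ℝ) (hM : ∀ x, |f x| ≤ M) (n : ℕ) (x : XX) :
    |mk_D T f n x| ≤ n * (n * M) := by
  have h0 : 0 ≤ M := (abs_nonneg _).trans (hM x)
  unfold mk_D
  refine (Finset.abs_sum_le_sum_abs _ _).trans ?_
  refine (Finset.sum_le_sum (g := fun _ => n * M) fun k hk => ?_).trans (by simp)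
  refine (mk_S_le T f M hM _ x).trans (mul_le_mul_of_nonneg_right ?_ h0)
  exact_mod_cast Finset.mem_range.1 hk

lemma mk_D_sub (T : XX → XX) (f : XX → ℝ) (M : ℝ) (hM : ∀ x, |f x| ≤ M) (n : ℕ) (x : XX) :
    |mk_D T f n (T x) - mk_D T f n x| ≤ n * (2 * M) := by
  unfold mk_D
  rw [← Finset.sum_sub_distrib]
  refine (Finset.abs_sum_le_sum_abs _ _).trans ?_
  refine (Finset.sum_le_sum (g := fun _ => 2 * M) fun k _ => ?_).trans (by simp)
  rw [birkhoffSum_apply_sub_birkhoffSum]
  have := abs_sub (f (T^[k + 1] x)) (f x)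
  linarith [hM (T^[k + 1] x), hM x]

lemma mk_int {X : Type} [MeasurableSpace X] (μ : Measure X) [IsFiniteMeasure μ] {f : X → ℝ}
    (hf : Measurable f) (M : ℝ) (hM : ∀ x, |f x| ≤ M) : Integrable f μ :=
  Integrable.of_bound hf.aestronglyMeasurable M (Eventually.of_forall hM)

lemma mk_int2 {X : Type} [MeasurableSpace X] (μ : Measure X) [IsFiniteMeasure μ] {f g : X → ℝ}
    (hf : Measurable f) (hg : Measurable g) (M N : ℝ) (hM : ∀ x, |f x| ≤ M)
    (hN : ∀ x, |g x| ≤ N) : Integrable (fun x => f x * g x) μ :=
  mk_int μ (hf.mul hg) (M * N) fun x => by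
    rw [abs_mul]; exact mul_le_mul (hM x) (hN x) (abs_nonneg _) ((abs_nonneg _).trans (hM x))

lemma mk_S_meas {T : XX → XX} {f : XX → ℝ} (hT : Measurable T) (hf : Measurable f) (k : ℕ) :
    Measurable (birkhoffSum T f k) :=
  Finset.measurable_sum _ fun i _ => hf.comp (hT.iterate i)

lemma mk_sq (m : Measure XX) [IsFiniteMeasure m] {T : XX → XX} (hT : MeasurePreserving T m m)
    {f : XX → ℝ} (hf : Measurable f) (M : ℝ) (hM : ∀ x, |f x| ≤ M) (n : ℕ) :
    ∫ x, birkhoffSum T f n x ^ 2 ∂m ≤ 2 * ∫ x, f x * mk_D T f n x ∂m := by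
  induction n with
  | zero => simp [mk_D]
  | succ n ih =>
    have hS := mk_S_meas hT.measurable hf
    have hb := mk_S_le T f M hM
    have i1 := mk_int2 m hf hf M M hM hM
    have i2 := mk_int2 m hf ((hS n).comp hT.measurable) M _ hM fun x => hb n (T x)
    have i3 := mk_int2 m ((hS n).comp hT.measurable) ((hS n).comp hT.measurable) _ _
      (fun x => hb n (T x)) fun x => hb n (T x)
    have i4 : Integrable (fun x => f x * mk_D T f n x) m :=
      mk_int2 m hf (Finset.measurable_sum _ fun k _ => hS _) M _ hM (mk_D_le T f M hM n)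
    simp only [Function.comp] at i2 i3
    have e1 : ∫ x, birkhoffSum T f (n + 1) x ^ 2 ∂m = (∫ x, f x * f x ∂m) +
        2 * (∫ x, f x * birkhoffSum T f n (T x) ∂m) +
        ∫ x, birkhoffSum T f n (T x) * birkhoffSum T f n (T x) ∂m := by
      have i5 : Integrable (fun x => f x * f x + 2 * (f x * birkhoffSum T f n (T x))) m :=
        i1.add (i2.const_mul 2)
      rw [← integral_const_mul, ← integral_add i1 (i2.const_mul 2), ← integral_add i5 i3]
      exact integral_congr_ae (Eventually.of_forall fun x => by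
        simp only [birkhoffSum_succ']; ring)
    have e2 : ∫ x, birkhoffSum T f n (T x) * birkhoffSum T f n (T x) ∂m =
        ∫ x, birkhoffSum T f n x ^ 2 ∂m := by
      have := integral_map (μ := m) hT.measurable.aemeasurable
        (f := fun x => birkhoffSum T f n x ^ 2) ((hS n).pow_const 2).aestronglyMeasurable
      rw [hT.map_eq] at this
      rw [this]; simp only [sq]
    have e3 : ∫ x, f x * mk_D T f (n + 1) x ∂m = (∫ x, f x * mk_D T f n x ∂m) +
        ((∫ x, f x * f x ∂m) + ∫ x, f x * birkhoffSum T f n (T x) ∂m) := by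
      have i5 : Integrable (fun x => f x * f x + f x * birkhoffSum T f n (T x)) m := i1.add i2
      rw [← integral_add i1 i2, ← integral_add i4 i5]
      exact integral_congr_ae (Eventually.of_forall fun x => by
        simp only [mk_D, Finset.sum_range_succ, birkhoffSum_succ' T f n x]; ring)
    have p1 : 0 ≤ ∫ x, f x * f x ∂m := integral_nonneg fun x => mul_self_nonneg _
    rw [e1, e2, e3]; linarith

lemma mk_cs (m : Measure XX) [IsFiniteMeasure m] {A : XX → ℝ} (hA : Measurable A) (M : ℝ)
    (hM : ∀ x, |A x| ≤ M) : (∫ x, |A x| ∂m) ^ 2 ≤ m.real univ * ∫ x, A x ^ 2 ∂m := by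
  set a := ∫ x, |A x| ∂m
  set v := m.real univ
  have i1 : Integrable (fun x => |A x|) m := (mk_int m hA M hM).abs
  have i2 : Integrable (fun x => A x ^ 2) m := by
    simpa only [sq] using mk_int2 m hA hA M M hM hM
  rcases (measureReal_nonneg : 0 ≤ v).eq_or_lt with h | h
  · have : m = 0 := by
      rw [← Measure.measure_univ_eq_zero, ← measureReal_eq_zero_iff]; exact h.symm
    simp [a, this]
  · have h1 : 0 ≤ ∫ x, (v ^ 2 * A x ^ 2 - 2 * v * a * |A x| + a ^ 2) ∂m :=
      integral_nonneg fun x => by
        have := sq_nonneg (v * |A x| - a)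
        have h2 := sq_abs (A x)
        simp only [Pi.zero_apply]; nlinarith
    have i3 : Integrable (fun x => v ^ 2 * A x ^ 2 - 2 * v * a * |A x|) m :=
      (i2.const_mul _).sub (i1.const_mul _)
    rw [integral_add i3 (integrable_const _),
      integral_sub (i2.const_mul _) (i1.const_mul _), integral_const_mul, integral_const_mul,
      integral_const, smul_eq_mul] at h1
    have h3 : 0 ≤ v * (v * (∫ x, A x ^ 2 ∂m) - a ^ 2) := by nlinarith
    have := (mul_nonneg_iff_of_pos_left h).1 h3
    linarith

lemma mk_agree {ι : Type} [DecidableEq ι] (j : XX → ι) (τ : Th → XX → XX) (w : ι → Th) (θ : Th)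
    (x : XX) (f : XX → ℝ) (n : ℕ)
    (h : ¬∃ i k, i < k ∧ k ≤ n ∧
      j ((fun y => τ (Function.update w (j x) θ (j y)) y)^[i] x) =
        j ((fun y => τ (Function.update w (j x) θ (j y)) y)^[k] x)) :
    mk_D (fun y => τ (Function.update w (j x) θ (j y)) y) f n (τ θ x) =
      mk_D (fun y => τ (w (j y)) y) f n (τ θ x) := by
  set T' := fun y => τ (Function.update w (j x) θ (j y)) y with hT'
  have e0 : T' x = τ θ x := by simp [hT']
  have key : ∀ i, i ≤ n → T'^[i] (τ θ x) = (fun y => τ (w (j y)) y)^[i] (τ θ x) := by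
    intro i
    induction i with
    | zero => intro _; rfl
    | succ i ih =>
      intro hi
      rw [Function.iterate_succ_apply', Function.iterate_succ_apply', ← ih (by omega)]
      have hne : j (T'^[i] (τ θ x)) ≠ j x := fun h' =>
        h ⟨0, i + 1, by omega, hi, by rw [Function.iterate_succ_apply, e0, h']; rfl⟩
      show τ (Function.update w (j x) θ (j _)) _ = _
      rw [Function.update_of_ne hne]
  unfold mk_D birkhoffSum
  refine Finset.sum_congr rfl fun k hk => Finset.sum_congr rfl fun i hi => ?_
  rw [key i (by have := Finset.mem_range.1 hk; have := Finset.mem_range.1 hi; omega)]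

lemma mk_dir (m : Measure XX) [IsFiniteMeasure m] (τ : Th → XX → XX)
    (hτ : Measurable fun y : Th × XX => τ y.1 y.2) (hp : ∀ θ, MeasurePreserving (τ θ) m m)
    {g : XX → ℝ} (hg : Measurable g) (M : ℝ) (hM : ∀ x, |g x| ≤ M) :
    ∫ x, (∫ θ, (g (τ θ x) - g x) ^ 2) ∂m ≤ 2 * M * ∫ x, |g x - ∫ θ, g (τ θ x)| ∂m := by
  have hm : Measurable fun y : XX × Th => g (τ y.2 y.1) := hg.comp (hτ.comp measurable_swap)
  have hP : Measurable fun x => ∫ θ, g (τ θ x) :=
    hm.stronglyMeasurable.integral_prod_right'.measurable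
  have hPb : ∀ x, |∫ θ, g (τ θ x)| ≤ M := fun x => by
    have := norm_integral_le_of_norm_le_const (μ := (volume : Measure Th))
      (f := fun θ => g (τ θ x)) (C := M) (Eventually.of_forall fun θ => hM _)
    rwa [probReal_univ, mul_one] at this
  have iq : Integrable (fun y : XX × Th => g (τ y.2 y.1) * g (τ y.2 y.1)) (m.prod volume) :=
    mk_int2 _ hm hm M M (fun _ => hM _) fun _ => hM _
  have e1 : ∫ x, (∫ θ, g (τ θ x) * g (τ θ x)) ∂m = ∫ x, g x * g x ∂m := by
    rw [integral_integral_swap iq]
    have : ∀ θ, ∫ x, g (τ θ x) * g (τ θ x) ∂m = ∫ x, g x * g x ∂m := fun θ => by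
      have := integral_map (μ := m) (hp θ).measurable.aemeasurable
        (f := fun x => g x * g x) (hg.mul hg).aestronglyMeasurable
      rw [(hp θ).map_eq] at this
      exact this.symm
    simp [this]
  have e2 : ∀ x, ∫ θ, (g (τ θ x) - g x) ^ 2 =
      (∫ θ, g (τ θ x) * g (τ θ x)) + (g x * g x - 2 * (g x * ∫ θ, g (τ θ x))) := fun x => by
    have h1 : Measurable fun θ => g (τ θ x) := hm.comp measurable_prodMk_left
    have i1 := mk_int2 volume h1 h1 M M (fun _ => hM _) fun _ => hM _
    have i2 := (mk_int volume h1 M fun _ => hM _).const_mul (2 * g x)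
    have i3 : Integrable (fun θ => g x * g x - 2 * g x * g (τ θ x)) volume :=
      (integrable_const _).sub i2
    have : ∫ θ, (g (τ θ x) - g x) ^ 2 =
        ∫ θ, (g (τ θ x) * g (τ θ x) + (g x * g x - 2 * g x * g (τ θ x))) :=
      integral_congr_ae (Eventually.of_forall fun θ => by ring)
    rw [this, integral_add i1 i3, integral_sub (integrable_const _) i2,
      integral_const, probReal_univ, one_smul, integral_const_mul (2 * g x), mul_assoc]
  have i1 := mk_int2 m hg hg M M hM hM
  have i2 := mk_int2 m hg hP M M hM hPb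
  have i3 : Integrable (fun x => g x * g x - 2 * (g x * ∫ θ, g (τ θ x))) m :=
    i1.sub (i2.const_mul 2)
  have i4 : Integrable (fun x => g x * g x + (g x * g x - 2 * (g x * ∫ θ, g (τ θ x)))) m :=
    i1.add i3
  have i5 : Integrable (fun x => |g x - ∫ θ, g (τ θ x)|) m :=
    ((mk_int m hg M hM).sub (mk_int m hP M hPb)).abs
  simp_rw [e2]
  rw [integral_add iq.integral_prod_left i3, e1, ← integral_add i1 i3, ← integral_const_mul]
  refine integral_mono i4 (i5.const_mul _) fun x => ?_
  have h1 : g x * (g x - ∫ θ, g (τ θ x)) ≤ M * |g x - ∫ θ, g (τ θ x)| :=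
    (le_abs_self _).trans (by
      rw [abs_mul]; exact mul_le_mul_of_nonneg_right (hM x) (abs_nonneg _))
  show _ ≤ _
  nlinarith

theorem t_mk (hmk1 : S_MK1) : S_MK := by
  intro ι _ m j τ π' n f M β hm hj hτ hp hπ hπ' hβ hβ' hn hf hM
  classical
  have h0 : 0 ≤ M := (abs_nonneg _).trans (hM default)
  have hn0 : (0 : ℝ) < n := by exact_mod_cast hn
  have hit := mk_meas j τ hj hτ
  obtain ⟨B, hB⟩ : ∃ B : (ι → Th) → XX → ℝ,
      ∀ w x, B w x = 2 / n ^ 2 * mk_D (fun y => τ (w (j y)) y) f n x := ⟨_, fun _ _ => rfl⟩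
  have hBm : Measurable fun p : (ι → Th) × XX => B p.1 p.2 := by
    simp only [hB]
    exact (Finset.measurable_sum _ fun k _ => Finset.measurable_sum _ fun i _ =>
      hf.comp (hit i)).const_mul _
  have hBb : ∀ w x, |B w x| ≤ 2 * M := fun w x => by
    rw [hB, abs_mul, abs_of_pos (by positivity : (0 : ℝ) < 2 / n ^ 2)]
    refine (mul_le_mul_of_nonneg_left (mk_D_le _ f M hM n x) (by positivity)).trans (le_of_eq ?_)
    field_simp
  have hBs : ∀ w x, |B w (τ (w (j x)) x) - B w x| ≤ 4 * M / n := fun w x => by
    rw [hB, hB, ← mul_sub, abs_mul, abs_of_pos (by positivity : (0 : ℝ) < 2 / n ^ 2)]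
    refine (mul_le_mul_of_nonneg_left (mk_D_sub (fun y => τ (w (j y)) y) f M hM n x)
      (by positivity)).trans (le_of_eq ?_)
    field_simp; ring
  obtain ⟨g, hg⟩ : ∃ g : XX → ℝ, g = fun x => ∫ w, B w x := ⟨_, rfl⟩
  have hgm : Measurable g := hg ▸ hBm.stronglyMeasurable.integral_prod_left'.measurable
  have hgb : ∀ x, |g x| ≤ 2 * M := fun x => by
    have := norm_integral_le_of_norm_le_const (μ := (volume : Measure (ι → Th)))
      (f := fun w => B w x) (C := 2 * M) (Eventually.of_forall fun w => hBb w x)
    rw [probReal_univ, mul_one] at this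
    rw [hg]; exact this
  refine ⟨g, hgm, hgb, ?_, ?_⟩
  · obtain ⟨R, hR⟩ : ∃ R : Set ((ι → Th) × XX), R = {p | ∃ i k, i < k ∧ k ≤ n ∧
      j ((fun x => τ (p.1 (j x)) x)^[i] p.2) = j ((fun x => τ (p.1 (j x)) x)^[k] p.2)} := ⟨_, rfl⟩
    have hRm : MeasurableSet R := by
      let _ : MeasurableSpace ι := ⊤
      have hjm : Measurable j := measurable_to_countable' hj
      simp only [hR, ofPred_exists, ofPred_and]
      exact MeasurableSet.iUnion fun i => MeasurableSet.iUnion fun k =>
        (MeasurableSet.const _).inter ((MeasurableSet.const _).inter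
          (measurableSet_eq_fun (hjm.comp (hit i)) (hjm.comp (hit k))))
    obtain ⟨I, hI⟩ : ∃ I : (ι → Th) × XX → ℝ, I = R.indicator 1 := ⟨_, rfl⟩
    have hIm : Measurable I := hI ▸ measurable_one.indicator hRm
    have hIb : ∀ p, |I p| ≤ 1 := fun p => by
      by_cases h : p ∈ R <;> simp [hI, h]
    have hIi : Integrable I (volume.prod m) := mk_int _ hIm 1 hIb
    have hRv : ∫ x, (∫ w, I (w, x)) ∂m ≤ n ^ 2 * β := by
      rw [← integral_prod_symm _ hIi, hI, integral_indicator_one hRm, measureReal_def,
        Measure.prod_apply hRm, hR]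
      have := (hmk1 ι m j τ π' n hm hj hτ hp hπ hπ').trans (mul_le_mul_right hβ' _)
      refine (ENNReal.toReal_mono (by finiteness) this).trans (le_of_eq ?_)
      simp [hβ]
    have key : ∀ x, |g x - ∫ θ, g (τ θ x)| ≤ 4 * M / n + 4 * M * ∫ w, I (w, x) := fun x => by
      have hu := mk_upd (j x)
      have m0 : Measurable fun w : ι → Th => τ (w (j x)) x :=
        hτ.comp (f := fun w : ι → Th => (w (j x), x))
          ((measurable_pi_apply (j x)).prodMk measurable_const)
      have m1 : Measurable fun w => B w (τ (w (j x)) x) := hBm.comp (measurable_id.prodMk m0)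
      have m2 : Measurable fun w => B w x := hBm.comp measurable_prodMk_right
      have m3 : Measurable fun w => I (w, x) := hIm.comp measurable_prodMk_right
      have m4 : Measurable fun p : (ι → Th) × Th => B p.1 (τ p.2 x) :=
        hBm.comp (measurable_fst.prodMk (hτ.comp (measurable_snd.prodMk measurable_const)))
      have a1 : |(∫ w, B w (τ (w (j x)) x)) - g x| ≤ 4 * M / n := by
        rw [hg, ← integral_sub (mk_int _ m1 _ fun w => hBb _ _) (mk_int _ m2 _ fun w => hBb _ _)]
        have := norm_integral_le_of_norm_le_const (μ := (volume : Measure (ι → Th)))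
          (f := fun w => B w (τ (w (j x)) x) - B w x) (C := 4 * M / n)
          (Eventually.of_forall fun w => hBs w x)
        rwa [probReal_univ, mul_one] at this
      have a2 : ∫ w, B w (τ (w (j x)) x) = ∫ p : (ι → Th) × Th,
          B (Function.update p.1 (j x) p.2) (τ p.2 x) ∂volume.prod volume := by
        have := integral_map (μ := volume.prod volume) hu.measurable.aemeasurable
          m1.aestronglyMeasurable
        rw [hu.map_eq] at this
        simpa only [Function.update_self] using this
      have a3 : ∫ w, I (w, x) = ∫ p : (ι → Th) × Th,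
          I (Function.update p.1 (j x) p.2, x) ∂volume.prod volume := by
        have := integral_map (μ := volume.prod volume) hu.measurable.aemeasurable
          m3.aestronglyMeasurable
        rwa [hu.map_eq] at this
      have i4 := mk_int (volume.prod volume) m4 _ fun p => hBb _ _
      have a4 : ∫ θ, g (τ θ x) = ∫ p : (ι → Th) × Th, B p.1 (τ p.2 x) ∂volume.prod volume := by
        rw [hg]; exact (integral_prod_symm _ i4).symm
      have m5 : Measurable fun p : (ι → Th) × Th => B (Function.update p.1 (j x) p.2) (τ p.2 x) :=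
        hBm.comp (hu.measurable.prodMk (hτ.comp (measurable_snd.prodMk measurable_const)))
      have i5 := mk_int (volume.prod volume) m5 _ fun p => hBb _ _
      have a5 : |(∫ w, B w (τ (w (j x)) x)) - ∫ θ, g (τ θ x)| ≤ 4 * M * ∫ w, I (w, x) := by
        rw [a2, a3, a4, ← integral_sub i5 i4, ← integral_const_mul, ← Real.norm_eq_abs]
        refine norm_integral_le_of_norm_le
          ((mk_int (volume.prod volume) (m3.comp hu.measurable) 1 fun p => hIb _).const_mul _)
          (Eventually.of_forall fun p => ?_)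
        by_cases h : (Function.update p.1 (j x) p.2, x) ∈ R
        · have := abs_sub (B (Function.update p.1 (j x) p.2) (τ p.2 x)) (B p.1 (τ p.2 x))
          rw [hI, indicator_of_mem h, Pi.one_apply, Real.norm_eq_abs]
          linarith [hBb (Function.update p.1 (j x) p.2) (τ p.2 x), hBb p.1 (τ p.2 x)]
        · rw [hI, indicator_of_notMem h, hB, hB, mk_agree j τ p.1 p.2 x f n (by rwa [hR] at h)]
          simp
      have := abs_sub_le (g x) (∫ w, B w (τ (w (j x)) x)) (∫ θ, g (τ θ x))
      rw [abs_sub_comm (g x) (∫ w, B w (τ (w (j x)) x))] at this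
      linarith
    have i6 : Integrable (fun x => ∫ w, I (w, x)) m := hIi.integral_prod_right
    have b1 : ∫ x, |g x - ∫ θ, g (τ θ x)| ∂m ≤ 4 * M / n * m.real univ + 4 * M * (n ^ 2 * β) := by
      refine (integral_mono_of_nonneg (Eventually.of_forall fun x => abs_nonneg _)
        ((integrable_const _).add (i6.const_mul (4 * M))) (Eventually.of_forall key)).trans ?_
      simp only [Pi.add_apply]
      rw [integral_add (integrable_const _) (i6.const_mul _), integral_const, integral_const_mul,
        smul_eq_mul, mul_comm]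
      exact add_le_add le_rfl (mul_le_mul_of_nonneg_left hRv (by positivity))
    refine (mk_dir m τ hτ (fun θ => hp fun _ => θ) hgm _ hgb).trans ?_
    refine (mul_le_mul_of_nonneg_left b1 (by positivity)).trans (le_of_eq ?_)
    ring
  · have i1 : Integrable (fun p : (ι → Th) × XX => f p.2 * B p.1 p.2) (volume.prod m) :=
      mk_int2 _ (hf.comp measurable_snd) hBm M _ (fun p => hM _) fun p => hBb _ _
    obtain ⟨w, hw⟩ := exists_le_integral i1.integral_prod_left
    have e : ∫ w, ∫ x, f x * B w x ∂m = ∫ x, f x * g x ∂m := by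
      rw [integral_integral_swap i1]
      simp only [integral_const_mul, hg]
    simp only [e] at hw
    set T := fun y => τ (w (j y)) y with hT
    have hS := mk_S_meas (hp w).measurable hf
    refine ⟨w, fun x => -(1 / n) * ∑ k ∈ Finset.range n, birkhoffSum T f k x,
      ⟨(Finset.measurable_sum _ fun k _ => hS k).const_mul _, 1 / n * (n * (n * M)), fun x => ?_⟩,
      ?_⟩
    · rw [abs_mul, abs_neg, abs_of_pos (by positivity : (0 : ℝ) < 1 / n)]
      refine mul_le_mul_of_nonneg_left ((Finset.abs_sum_le_sum_abs _ _).trans ?_) (by positivity)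
      refine (Finset.sum_le_sum (g := fun _ => n * M) fun k hk => ?_).trans (by simp)
      refine (mk_S_le T f M hM _ x).trans (mul_le_mul_of_nonneg_right ?_ h0)
      exact_mod_cast (Finset.mem_range.1 hk).le
    · have e2 : ∀ x, f x - (-(1 / n) * ∑ k ∈ Finset.range n, birkhoffSum T f k (τ (w (j x)) x) -
          -(1 / n) * ∑ k ∈ Finset.range n, birkhoffSum T f k x) =
          1 / n * birkhoffSum T f n x := fun x => by
        have : ∑ k ∈ Finset.range n, birkhoffSum T f k (T x) -
            ∑ k ∈ Finset.range n, birkhoffSum T f k x = birkhoffSum T f n x - n * f x := by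
          rw [← Finset.sum_sub_distrib]
          simp only [birkhoffSum_apply_sub_birkhoffSum]
          rw [Finset.sum_sub_distrib]
          simp [birkhoffSum]
        have e3 : ∑ k ∈ Finset.range n, birkhoffSum T f k (τ (w (j x)) x) =
            ∑ k ∈ Finset.range n, birkhoffSum T f k x + (birkhoffSum T f n x - n * f x) := by
          rw [← this]; ring
        rw [e3]; field_simp; ring
      simp only [e2]
      refine (mk_cs m ((hS n).const_mul _) (1 / n * (n * M)) fun x => ?_).trans
        (mul_le_mul_of_nonneg_left (le_trans ?_ hw) measureReal_nonneg)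
      · rw [abs_mul, abs_of_pos (by positivity : (0 : ℝ) < 1 / n)]
        exact mul_le_mul_of_nonneg_left (mk_S_le T f M hM n x) (by positivity)
      · have h1 := mk_sq m (hp w) hf M hM n
        have e4 : ∫ x, f x * B w x ∂m = (1 / n) ^ 2 * (2 * ∫ x, f x * mk_D T f n x ∂m) := by
          rw [← integral_const_mul, ← integral_const_mul]
          exact integral_congr_ae (Eventually.of_forall fun x => by simp only [hB]; ring)
        simp only [mul_pow]
        rw [integral_const_mul, e4]
        exact mul_le_mul_of_nonneg_left h1 (by positivity)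

end

end Pool.Agent.P.MP_6b977f_mp.EB
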