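import Pool.Agent.P.MP_6b977f_mp.EB.IfE

/-! The probability of a repeated cell along a random orbit. -/

namespace Pool.Agent.P.MP_6b977f_mp.EB

open Real MeasureTheory Filter Topology Set Metric
open scoped ContDiff BoundedContinuousFunction ComplexConjugate Pointwise ENNReal

noncomputable section

section
variable {ι X Θ : Type} (j : X → ι) (τ : Θ → X → X)

/-- The orbit. -/
def mk1_it (k : ℕ) (p : (ι → Θ) × X) : X := (fun x => τ (p.1 (j x)) x)^[k] p.2

theorem mk1_succ (k : ℕ) (p : (ι → Θ) × X) :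
    mk1_it j τ (k + 1) p = τ (p.1 (j (mk1_it j τ k p))) (mk1_it j τ k p) :=
  Function.iterate_succ_apply' _ _ _

theorem mk1_agree {c : ι} {w w' : ι → Θ} (hw : ∀ d, d ≠ c → w' d = w d) {k : ℕ} {x : X}
    (h : ∀ i < k, j (mk1_it j τ i (w, x)) ≠ c) :
    ∀ i ≤ k, mk1_it j τ i (w', x) = mk1_it j τ i (w, x) := by
  intro i hi
  induction i with
  | zero => rfl
  | succ i ih =>
    rw [mk1_succ, mk1_succ, ih (by omega)]
    exact congrArg (fun θ => τ θ _) (hw _ (h i (by omega)))

/-- The first visit to `c` happens at time `k`. -/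
def mk1_D (k : ℕ) (c : ι) : Set ((ι → Θ) × X) :=
  {p | (∀ i < k, j (mk1_it j τ i p) ≠ c) ∧ j (mk1_it j τ k p) = c}

theorem mk1_D_inv {c : ι} {w w' : ι → Θ} (hw : ∀ d, d ≠ c → w' d = w d) {k : ℕ} {x : X}
    (h : (w, x) ∈ mk1_D j τ k c) : (w', x) ∈ mk1_D j τ k c :=
  ⟨fun i hi => by rw [mk1_agree j τ hw h.1 i hi.le]; exact h.1 i hi,
    by rw [mk1_agree j τ hw h.1 k le_rfl]; exact h.2⟩

/-- The next step repeats the cell of time `i`. -/
def mk1_E (i k : ℕ) (c : ι) : Set ((ι → Θ) × X) :=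
  mk1_D j τ k c ∩ {p | j (mk1_it j τ i p) = j (mk1_it j τ (k + 1) p)}

theorem mk1_cover {n : ℕ} {p : (ι → Θ) × X}
    (h : ∃ i k, i < k ∧ k ≤ n ∧ j (mk1_it j τ i p) = j (mk1_it j τ k p)) :
    p ∈ ⋃ k ∈ Finset.range n, ⋃ i ∈ Finset.range (k + 1), ⋃ c, mk1_E j τ i k c := by
  classical
  have h' : ∃ k, k ≤ n ∧ ∃ i < k, j (mk1_it j τ i p) = j (mk1_it j τ k p) := by
    obtain ⟨i, k, a, b, c⟩ := h
    exact ⟨k, b, i, a, c⟩
  obtain ⟨hn, i, hi, e⟩ := Nat.find_spec h'
  obtain ⟨k, hk⟩ : ∃ k, Nat.find h' = k + 1 := ⟨Nat.find h' - 1, by omega⟩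
  have hmin := Nat.find_min h' (m := k) (by omega)
  rw [hk] at hn hi e
  simp only [mem_iUnion, Finset.mem_range]
  exact ⟨k, by omega, i, hi, _, ⟨fun i' hi' e' => hmin ⟨by omega, i', hi', e'⟩, rfl⟩, e⟩

variable [MeasurableSpace X] [MeasureSpace Θ] [IsProbabilityMeasure (volume : Measure Θ)]
  [Fintype ι] [MeasurableSpace ι] [MeasurableSingletonClass ι]

omit [IsProbabilityMeasure (volume : Measure Θ)] in
theorem mk1_meas (hj : Measurable j) (hτ : Measurable fun y : Θ × X => τ y.1 y.2) (k : ℕ) :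
    Measurable (mk1_it j τ k) := by
  induction k with
  | zero => exact measurable_snd
  | succ k ih =>
    have h1 : Measurable fun q : (ι → Θ) × ι => q.1 q.2 :=
      measurable_from_prod_countable_left fun y => measurable_pi_apply y
    have e : mk1_it j τ (k + 1) = (fun y : Θ × X => τ y.1 y.2) ∘ fun p =>
        ((fun q : (ι → Θ) × ι => q.1 q.2) (p.1, j (mk1_it j τ k p)), mk1_it j τ k p) :=
      funext fun p => mk1_succ j τ k p
    rw [e]
    exact hτ.comp ((h1.comp (measurable_fst.prodMk (hj.comp ih))).prodMk ih)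

omit [IsProbabilityMeasure (volume : Measure Θ)] in
theorem mk1_D_meas (hj : Measurable j) (hτ : Measurable fun y : Θ × X => τ y.1 y.2) (k : ℕ)
    (c : ι) : MeasurableSet (mk1_D j τ k c) := by
  have h := fun i => (hj.comp (mk1_meas j τ hj hτ i)) (measurableSet_singleton c)
  simp only [mk1_D, ofPred_and, ofPred_forall]
  exact (MeasurableSet.iInter fun i => MeasurableSet.iInter fun _ => (h i).compl).inter (h k)

omit [IsProbabilityMeasure (volume : Measure Θ)] in
theorem mk1_E_meas (hj : Measurable j) (hτ : Measurable fun y : Θ × X => τ y.1 y.2) (i k : ℕ)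
    (c : ι) : MeasurableSet (mk1_E j τ i k c) := by
  refine (mk1_D_meas j τ hj hτ k c).inter ?_
  have e : {p | j (mk1_it j τ i p) = j (mk1_it j τ (k + 1) p)} =
      ⋃ d, (j ∘ mk1_it j τ i) ⁻¹' {d} ∩ (j ∘ mk1_it j τ (k + 1)) ⁻¹' {d} := by
    ext p
    simp [eq_comm]
  rw [e]
  exact MeasurableSet.iUnion fun d => (hj.comp (mk1_meas j τ hj hτ i)
    (measurableSet_singleton d)).inter (hj.comp (mk1_meas j τ hj hτ _) (measurableSet_singleton d))

/-- The largest transition probability. -/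
def mk1_pm (x : X) : ℝ≥0∞ := ⨆ c, volume {θ | j (τ θ x) = c}

theorem mk1_pm_meas (hj : Measurable j) (hτ : Measurable fun y : Θ × X => τ y.1 y.2) :
    Measurable (mk1_pm j τ) :=
  Measurable.iSup fun c =>
    measurable_measure_prodMk_right ((hj.comp hτ) (measurableSet_singleton c))

theorem mk1_key (hj : Measurable j) (hτ : Measurable fun y : Θ × X => τ y.1 y.2) {i k : ℕ}
    (hi : i ≤ k) (c : ι) (x : X) : volume ((fun w => (w, x)) ⁻¹' mk1_E j τ i k c) ≤
      ∫⁻ w, (mk1_D j τ k c).indicator (mk1_pm j τ ∘ mk1_it j τ k) (w, x) := by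
  classical
  have hE : MeasurableSet ((fun w => (w, x)) ⁻¹' mk1_E j τ i k c) :=
    measurable_prodMk_right (mk1_E_meas j τ hj hτ i k c)
  rw [← lintegral_indicator_one hE]
  refine lintegral_le_of_lmarginal_le {c} (measurable_one.indicator hE)
    ((((mk1_pm_meas j τ hj hτ).comp (mk1_meas j τ hj hτ k)).indicator
      (mk1_D_meas j τ hj hτ k c)).comp measurable_prodMk_right) ?_
  rw [lmarginal_singleton, lmarginal_singleton]
  intro w
  have hu : ∀ θ d, d ≠ c → Function.update w c θ d = w d := fun θ d hd =>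
    Function.update_of_ne hd _ _
  by_cases hD : (w, x) ∈ mk1_D j τ k c
  · have e : ∀ θ, (mk1_D j τ k c).indicator (mk1_pm j τ ∘ mk1_it j τ k)
        (Function.update w c θ, x) = mk1_pm j τ (mk1_it j τ k (w, x)) := fun θ => by
      rw [indicator_of_mem (mk1_D_inv j τ (hu θ) hD), Function.comp_apply,
        mk1_agree j τ (hu θ) hD.1 k le_rfl]
    simp only [e, lintegral_const, measure_univ, mul_one]
    refine le_trans ?_ (le_iSup _ (j (mk1_it j τ i (w, x))))
    refine le_trans (lintegral_mono fun θ => ?_) (lintegral_indicator_one_le _)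
    by_cases hθ : Function.update w c θ ∈ (fun w => (w, x)) ⁻¹' mk1_E j τ i k c
    · have h2 : j (mk1_it j τ i (Function.update w c θ, x)) =
          j (mk1_it j τ (k + 1) (Function.update w c θ, x)) := hθ.2
      rw [mk1_succ, mk1_agree j τ (hu θ) hD.1 k le_rfl, mk1_agree j τ (hu θ) hD.1 i hi,
        hD.2] at h2
      simp only [Function.update_self] at h2
      rw [indicator_of_mem hθ, indicator_of_mem (show θ ∈ {θ | j (τ θ (mk1_it j τ k (w, x))) =
        j (mk1_it j τ i (w, x))} from h2.symm)]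
      exact le_rfl
    · rw [indicator_of_notMem hθ]
      exact zero_le
  · refine lintegral_mono fun θ => ?_
    rw [indicator_of_notMem fun h => hD (mk1_D_inv j τ (fun d hd => (hu θ d hd).symm) h.1)]
    exact zero_le

theorem mk1_pair (m : Measure X) [IsFiniteMeasure m] (hj : Measurable j)
    (hτ : Measurable fun y : Θ × X => τ y.1 y.2)
    (hp : ∀ w : ι → Θ, MeasurePreserving (fun x => τ (w (j x)) x) m m) {i k : ℕ} (hi : i ≤ k) :
    ((volume : Measure (ι → Θ)).prod m) (⋃ c, mk1_E j τ i k c) ≤ ∫⁻ x, mk1_pm j τ x ∂m := by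
  have hm := (mk1_pm_meas j τ hj hτ).comp (mk1_meas j τ hj hτ k)
  have hG := fun c => hm.indicator (mk1_D_meas j τ hj hτ k c)
  calc _ ≤ ∑ c, ((volume : Measure (ι → Θ)).prod m) (mk1_E j τ i k c) :=
        measure_iUnion_fintype_le _ _
    _ ≤ ∑ c, ∫⁻ p, (mk1_D j τ k c).indicator (mk1_pm j τ ∘ mk1_it j τ k) p
          ∂((volume : Measure (ι → Θ)).prod m) := Finset.sum_le_sum fun c _ => by
        rw [Measure.prod_apply_symm (mk1_E_meas j τ hj hτ i k c),
          lintegral_prod_symm _ (hG c).aemeasurable]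
        exact lintegral_mono fun x => mk1_key j τ hj hτ hi c x
    _ ≤ ∫⁻ p, (mk1_pm j τ ∘ mk1_it j τ k) p ∂((volume : Measure (ι → Θ)).prod m) := by
        rw [← lintegral_finsetSum _ fun c _ => hG c]
        refine lintegral_mono fun p => ?_
        rw [Finset.sum_eq_single (j (mk1_it j τ k p))
          (fun c _ hc => indicator_of_notMem (fun h => hc h.2.symm) _) (by simp)]
        exact indicator_le_self _ _ _
    _ = ∫⁻ x, mk1_pm j τ x ∂m := by
        rw [lintegral_prod _ hm.aemeasurable]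
        have e : ∀ w : ι → Θ, ∫⁻ x, (mk1_pm j τ ∘ mk1_it j τ k) (w, x) ∂m =
            ∫⁻ x, mk1_pm j τ x ∂m := fun w =>
          ((hp w).iterate k).lintegral_comp (mk1_pm_meas j τ hj hτ)
        simp only [e, lintegral_const, measure_univ, mul_one]

end

theorem t_mk1 : S_MK1 := by
  intro ι _ m j τ π' n hm hj hτ hp _ hπ
  let _ : MeasurableSpace ι := ⊤
  have hj' : Measurable j := measurable_to_countable' hj
  have hU : MeasurableSet
      (⋃ k ∈ Finset.range n, ⋃ i ∈ Finset.range (k + 1), ⋃ c, mk1_E j τ i k c) :=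
    Finset.measurableSet_biUnion _ fun k _ => Finset.measurableSet_biUnion _ fun i _ =>
      MeasurableSet.iUnion fun c => mk1_E_meas j τ hj' hτ i k c
  have hA : ∫⁻ x, mk1_pm j τ x ∂m ≤ ∫⁻ x, π' x ∂m :=
    lintegral_mono_ae (hπ.mono fun x hx => iSup_le hx)
  calc _ ≤ ((volume : Measure (ι → Th)).prod m)
          (⋃ k ∈ Finset.range n, ⋃ i ∈ Finset.range (k + 1), ⋃ c, mk1_E j τ i k c) := by
        rw [Measure.prod_apply hU]
        exact lintegral_mono fun w => measure_mono fun x hx => mk1_cover j τ (p := (w, x)) hx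
    _ ≤ ∑ k ∈ Finset.range n, (n : ℝ≥0∞) * ∫⁻ x, π' x ∂m := by
        refine (measure_biUnion_finset_le _ _).trans (Finset.sum_le_sum fun k hk => ?_)
        refine (measure_biUnion_finset_le _ _).trans ((Finset.sum_le_sum fun i hi =>
          (mk1_pair j τ m hj' hτ hp (Nat.lt_succ_iff.1 (Finset.mem_range.1 hi))).trans hA).trans ?_)
        rw [Finset.sum_const, Finset.card_range, nsmul_eq_mul]
        exact mul_le_mul_left (Nat.cast_le.2 (Finset.mem_range.1 hk)) _
    _ = _ := by rw [Finset.sum_const, Finset.card_range, nsmul_eq_mul, sq, mul_assoc]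

end

end Pool.Agent.P.MP_6b977f_mp.EB
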