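import Pool.Agent.P.MP_6b977f_mp.EB.IfE

/-! The passage through the grooves preserves the measure. -/

namespace Pool.Agent.P.MP_6b977f_mp.EB

open Real MeasureTheory Filter Topology Set Metric
open scoped ContDiff BoundedContinuousFunction ComplexConjugate Pointwise ENNReal

noncomputable section

instance mp_sf : SFinite sm := by unfold sm; infer_instance

theorem mp_aff (b : ℝ) {d : ℝ} (hd : 0 < d) : MeasurePreserving (fun x : ℝ => b + d * x)
    (ENNReal.ofReal d • volume.restrict (Ioo 0 1)) (volume.restrict (Ioo b (b + d))) := by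
  have h1 : MeasurePreserving (fun x : ℝ => d * x) (ENNReal.ofReal d • volume) volume := by
    refine ⟨by fun_prop, ?_⟩
    rw [Measure.map_smul, Real.map_volume_mul_left hd.ne', smul_smul,
      ← ENNReal.ofReal_mul hd.le, abs_of_pos (inv_pos.2 hd), mul_inv_cancel₀ hd.ne']
    simp
  have h2 := ((measurePreserving_add_left volume b).comp h1).restrict_preimage
    (measurableSet_Ioo (a := b) (b := b + d))
  have h3 : ((fun x => b + x) ∘ fun x : ℝ => d * x) ⁻¹' Ioo b (b + d) = Ioo 0 1 := by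
    ext x
    simp only [mem_preimage, Function.comp_apply, mem_Ioo]
    constructor <;> rintro ⟨h, h'⟩ <;> constructor <;> nlinarith
  rw [h3, Measure.restrict_smul] at h2
  exact h2

theorem mp_piece (hgm : S_GM) {α b d : ℝ} (h0 : 0 < α) (h1 : α ≤ π / 8) (hd : 0 < d)
    {φ : ℝ × ℝ → ℝ × ℝ} (hφ : Measurable φ)
    (e : ∀ x ∈ Ioo (0 : ℝ) 1, ∀ θ, φ (b + d * x, θ) = (b + d * (gv α x θ).1, (gv α x θ).2))
    {F : ℝ × ℝ → ℝ≥0∞} (hF : Measurable F) :
    ∫⁻ y, F (φ y) ∂(volume.restrict (Ioo b (b + d))).prod sm =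
      ∫⁻ y, F y ∂(volume.restrict (Ioo b (b + d))).prod sm := by
  have h2 := (mp_aff b hd).prod (MeasurePreserving.id sm)
  rw [Measure.prod_smul_left] at h2
  have h3 := (hgm α h0 h1).2.smul_measure (ENNReal.ofReal d)
  rw [← h2.lintegral_comp (f := fun y => F (φ y)) (hF.comp hφ),
    ← (h2.comp h3).lintegral_comp hF]
  refine lintegral_congr_ae (Measure.ae_smul_measure ?_ _)
  have h4 : ∀ᵐ y ∂(volume.restrict (Ioo (0 : ℝ) 1)).prod sm, y.1 ∈ Ioo (0 : ℝ) 1 :=
    Measure.quasiMeasurePreserving_fst.ae (ae_restrict_mem measurableSet_Ioo)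
  filter_upwards [h4] with y hy
  simp only [Prod.map, id, Function.comp_apply, e _ hy]

/-- Left end of a groove. -/
def mp_b (L : ℝ) (N : ℕ) (u : ℕ → ℝ) (a : ℕ × ℕ) : ℝ := a.1 * (L / N) + pd L N * (u a.1 + a.2)

theorem mp_in {L : ℝ} {N : ℕ} {u : ℕ → ℝ} (hL : 0 < L) (hu : ∀ j, u j ∈ Icc (0 : ℝ) 1)
    {a : ℕ × ℕ} (h1 : a.1 < N) (h2 : a.2 < N) {x : ℝ} (hx : x ∈ Ioo (0 : ℝ) 1) :
    ⌊(mp_b L N u a + pd L N * x) / (L / N)⌋₊ = a.1 ∧
      cX L N (u a.1) (mp_b L N u a + pd L N * x) = a.2 + x ∧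
      mp_b L N u a + pd L N * x ∈ Ioo 0 L := by
  have hN : (0 : ℝ) < N := by exact_mod_cast (show 0 < N by omega)
  have hl : 0 < L / N := by positivity
  have hd : 0 < pd L N := by unfold pd; positivity
  have hdl : pd L N * (N + 1) = L / N := by unfold pd; field_simp
  have h3 : (a.1 : ℝ) + 1 ≤ N := by exact_mod_cast h1
  have h4 : (a.2 : ℝ) + 1 ≤ N := by exact_mod_cast h2
  have h5 : (0 : ℝ) ≤ a.1 := by positivity
  have h6 : (0 : ℝ) ≤ a.2 := by positivity
  obtain ⟨u0, u1⟩ := hu a.1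
  have k1 : 0 < pd L N * (u a.1 + a.2 + x) := mul_pos hd (by linarith [hx.1])
  have k2 : pd L N * (u a.1 + a.2 + x) < L / N := by
    rw [← hdl]; exact mul_lt_mul_of_pos_left (by linarith [hx.2]) hd
  have e : mp_b L N u a + pd L N * x = a.1 * (L / N) + pd L N * (u a.1 + a.2 + x) := by
    unfold mp_b; ring
  have f : ⌊(mp_b L N u a + pd L N * x) / (L / N)⌋₊ = a.1 := by
    rw [e, Nat.floor_eq_iff (by positivity), le_div_iff₀ hl, div_lt_iff₀ hl]
    constructor <;> nlinarith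
  refine ⟨f, ?_, ?_⟩
  · rw [cX, f, e]; field_simp; ring
  · have : (N : ℝ) * (L / N) = L := by field_simp
    rw [e]
    constructor <;> nlinarith

theorem mp_out {L : ℝ} {N : ℕ} {u : ℕ → ℝ} (hL : 0 < L) (hN : 1 ≤ N) {σ : ℝ} (hσ : σ ∈ Ioo 0 L)
    (h : InG L N (u ⌊σ / (L / N)⌋₊) σ) : ∃ a ∈ Finset.range N ×ˢ Finset.range N,
      σ ∈ Ioo (mp_b L N u a) (mp_b L N u a + pd L N) := by
  have hN : (0 : ℝ) < N := by exact_mod_cast hN
  have hl : 0 < L / N := by positivity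
  have hd : 0 < pd L N := by unfold pd; positivity
  obtain ⟨h1, h2, h3⟩ := h
  set j := ⌊σ / (L / N)⌋₊ with hj
  set X := cX L N (u j) σ with hX
  have e : σ = j * (L / N) + pd L N * (u j + X) := by
    rw [hX, cX, ← hj]; field_simp; ring
  have k1 : (⌊X⌋₊ : ℝ) < X := by
    refine (Nat.floor_le h1.le).lt_of_ne fun h4 => h3 ?_
    rw [← h4, Int.fract_natCast]
  have k2 := Nat.lt_floor_add_one X
  refine ⟨(j, ⌊X⌋₊), ?_, ?_⟩
  · simp only [Finset.mem_product, Finset.mem_range]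
    refine ⟨?_, (Nat.floor_lt h1.le).2 h2⟩
    rw [hj, Nat.floor_lt (div_pos hσ.1 hl).le, div_lt_iff₀ hl]
    have : (N : ℝ) * (L / N) = L := by field_simp
    linarith [hσ.2]
  · simp only [mp_b, mem_Ioo]
    constructor <;> nlinarith

theorem mp_side (hgm : S_GM) {L : ℝ} {N : ℕ} {u α : ℕ → ℝ} (hL : 0 < L) (hN : 1 ≤ N)
    (hu : ∀ j, u j ∈ Icc (0 : ℝ) 1) (hα : ∀ j, 0 < α j ∧ α j ≤ π / 8) {φ : ℝ × ℝ → ℝ × ℝ}
    (hφ : Measurable φ)
    (e : ∀ y, φ y = gam L N (u ⌊y.1 / (L / N)⌋₊) (α ⌊y.1 / (L / N)⌋₊) y) :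
    ((volume.restrict (Ioo 0 L)).prod sm).map φ = (volume.restrict (Ioo 0 L)).prod sm := by
  have hN' : (0 : ℝ) < N := by exact_mod_cast hN
  have hd : 0 < pd L N := by unfold pd; positivity
  set A : ℕ × ℕ → Set ℝ := fun a => Ioo (mp_b L N u a) (mp_b L N u a + pd L N) with hA
  have par : ∀ a, ∀ σ ∈ A a, ∃ x ∈ Ioo (0 : ℝ) 1, σ = mp_b L N u a + pd L N * x := by
    intro a σ hσ
    refine ⟨(σ - mp_b L N u a) / pd L N, ⟨div_pos (sub_pos.2 hσ.1) hd, ?_⟩, by field_simp; ring⟩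
    rw [div_lt_one hd]; linarith [hσ.2]
  have hm : ∀ a, MeasurableSet (A a ×ˢ (univ : Set ℝ)) := fun a =>
    measurableSet_Ioo.prod MeasurableSet.univ
  have hU : MeasurableSet (⋃ a ∈ Finset.range N ×ˢ Finset.range N, A a ×ˢ (univ : Set ℝ)) :=
    Finset.measurableSet_biUnion _ fun a _ => hm a
  have dis : Set.PairwiseDisjoint (↑(Finset.range N ×ˢ Finset.range N) : Set (ℕ × ℕ))
      fun a => A a ×ˢ (univ : Set ℝ) := by
    intro a ha a' ha' hne
    simp only [Finset.coe_product, Finset.coe_range, mem_prod, mem_Iio] at ha ha'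
    refine Set.disjoint_left.2 fun y hy hy' => hne ?_
    obtain ⟨x, hx, e1⟩ := par a _ hy.1
    obtain ⟨x', hx', e2⟩ := par a' _ hy'.1
    obtain ⟨k1, k2, -⟩ := mp_in hL hu ha.1 ha.2 hx
    obtain ⟨k3, k4, -⟩ := mp_in hL hu ha'.1 ha'.2 hx'
    rw [← e1] at k1 k2
    rw [← e2] at k3 k4
    have k5 : a.1 = a'.1 := k1.symm.trans k3
    rw [← k5, k2] at k4
    have k6 : (a.2 : ℝ) < a'.2 + 1 := by linarith [hx.1, hx'.2]
    have k7 : (a'.2 : ℝ) < a.2 + 1 := by linarith [hx.2, hx'.1]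
    have k8 : a.2 < a'.2 + 1 := by exact_mod_cast k6
    have k9 : a'.2 < a.2 + 1 := by exact_mod_cast k7
    exact Prod.ext k5 (by omega)
  refine Measure.ext_of_lintegral _ fun F hF => ?_
  rw [lintegral_map hF hφ, ← lintegral_add_compl _ hU, ← lintegral_add_compl F hU,
    lintegral_biUnion_finset dis fun a _ => hm a, lintegral_biUnion_finset dis fun a _ => hm a]
  congr 1
  · refine Finset.sum_congr rfl fun a ha => ?_
    simp only [Finset.mem_product, Finset.mem_range] at ha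
    have hs : A a ⊆ Ioo 0 L := by
      intro σ hσ
      obtain ⟨x, hx, rfl⟩ := par a _ hσ
      exact (mp_in hL hu ha.1 ha.2 hx).2.2
    rw [← Measure.restrict_prod_eq_prod_univ, Measure.restrict_restrict measurableSet_Ioo,
      inter_eq_left.2 hs]
    refine mp_piece hgm (hα a.1).1 (hα a.1).2 hd hφ (fun x hx θ => ?_) hF
    obtain ⟨k1, k2, -⟩ := mp_in hL hu ha.1 ha.2 hx
    have k3 : Int.fract (cX L N (u a.1) (mp_b L N u a + pd L N * x)) = x := by
      rw [k2, Int.fract_natCast_add, Int.fract_eq_self.2 ⟨hx.1.le, hx.2⟩]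
    have k4 : InG L N (u a.1) (mp_b L N u a + pd L N * x) := by
      have h4 : (a.2 : ℝ) + 1 ≤ N := by exact_mod_cast ha.2
      have h6 : (0 : ℝ) ≤ a.2 := by positivity
      refine ⟨?_, ?_, ?_⟩
      · rw [k2]; linarith [hx.1]
      · rw [k2]; linarith [hx.2]
      · rw [k3]; exact hx.1.ne'
    rw [e]
    simp only [k1]
    rw [gam, if_pos k4]
    simp only [k3]
    congr 1
    ring
  · refine lintegral_congr_ae ?_
    have h4 : ∀ᵐ y ∂(volume.restrict (Ioo (0 : ℝ) L)).prod sm, y.1 ∈ Ioo (0 : ℝ) L :=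
      Measure.quasiMeasurePreserving_fst.ae (ae_restrict_mem measurableSet_Ioo)
    filter_upwards [ae_restrict_of_ae h4, ae_restrict_mem hU.compl] with y hy hy'
    rw [e, gam, if_neg]
    intro h
    obtain ⟨a, ha, h5⟩ := mp_out hL hN hy h
    exact hy' (mem_biUnion ha ⟨h5, trivial⟩)

theorem t_mp (hgm : S_GM) (hgmm : S_GMM) : S_MP := by
  intro P c α₀ N w hP h0 h1 hN
  obtain ⟨m1, m2, -⟩ := hgmm.2 P N α₀
  have m3 : Measurable fun x : XX => cell P N x.1 x.2.1 := measurable_to_countable' m2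
  have m4 : Measurable fun x : XX => Gam P N α₀ (w (cell P N x.1 x.2.1)) x :=
    Measurable.comp (g := fun y : Th × XX => Gam P N α₀ y.1 y.2)
      (f := fun x : XX => (w (cell P N x.1 x.2.1), x)) m1
      (((measurable_of_finite w).comp m3).prodMk measurable_id)
  refine ⟨m4, ?_⟩
  rw [Poly.mP, Measure.map_finset_sum m4.aemeasurable]
  refine Finset.sum_congr rfl fun s hs => ?_
  have m5 : Measurable fun y : ℝ × ℝ => ((s, y) : XX) := measurable_prodMk_left
  have m6 : Measurable fun y : ℝ × ℝ => (Gam P N α₀ (w (cell P N s y.1)) (s, y)).2 :=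
    measurable_snd.comp (m4.comp m5)
  set W : ℕ → Th := fun j => w (⟨min s P.S, by omega⟩, ⟨min j N, by omega⟩) with hW
  have key := mp_side hgm (u := fun j => (W j).1) (α := fun j => α₀ * (1 + (W j).2))
    (hP.len s (Finset.mem_range.1 hs)) hN (fun j => (W j).1.2)
    (fun j => by
      obtain ⟨k1, k2⟩ := (W j).2.2
      constructor <;> nlinarith) m6 fun y => rfl
  conv_rhs => rw [← key]
  rw [Measure.map_map m4 m5, Measure.map_map m5 m6]
  rfl

end

end Pool.Agent.P.MP_6b977f_mp.EB
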