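import Pool.Agent.P.MP_6b977f_mp.EB.IfE

/-! Integration over a table along parallel chords. -/

namespace Pool.Agent.P.MP_6b977f_mp.EB

open Real MeasureTheory Filter Topology Set Metric
open scoped ContDiff BoundedContinuousFunction ComplexConjugate Pointwise ENNReal

/-- The linear map sending `1` to `a` and `i` to `b`. -/
noncomputable def par_L (a b : ℂ) : ℂ →L[ℝ] ℂ :=
  Complex.reCLM.smulRight a + Complex.imCLM.smulRight b

theorem par_det (a b : ℂ) : (par_L a b).det = cross a b := by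
  rw [ContinuousLinearMap.det, ← LinearMap.det_toMatrix Complex.basisOneI, Matrix.det_fin_two]
  simp [LinearMap.toMatrix_apply, par_L, cross, mul_comm]

theorem par_der {γ : ℝ → ℂ} {a : ℂ} {w : ℂ} (h : HasDerivAt γ a w.re) (v : ℂ) :
    HasFDerivAt (fun w : ℂ => γ w.re + w.im * v) (par_L a v) w := by
  have h1 := h.hasFDerivAt.comp w Complex.reCLM.hasFDerivAt
  have h2 := (Complex.imCLM.smulRight v).hasFDerivAt (x := w)
  refine ((h1.add h2).congr_fderiv ?_).congr_of_eventuallyEq (.of_forall fun w => ?_)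
  · ext; simp [par_L]
  · simp

theorem par_line (c v : ℂ) : volume (range fun w : ℂ => c + w.im * v) = 0 := by
  rw [← image_univ]
  exact addHaar_image_eq_zero_of_det_fderivWithin_eq_zero volume (f' := fun _ => par_L 0 v)
    (fun w _ => (par_der (hasDerivAt_const w.re c) v).hasFDerivWithinAt)
    fun _ _ => by simp [par_det, cross]

theorem par_arg (ρ : ℝ → ℝ) {φ : ℝ} (h : φ ∈ Ioc (-π) π) : (bd ρ φ).arg = φ := by
  rw [bd, ex, Complex.arg_real_mul _ (Real.exp_pos _), Complex.exp_mul_I]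
  exact Complex.arg_cos_add_sin_mul_I h

theorem t_par (htp : S_TP) (hpwc : S_PWC) (htr0 : S_TR0) (htab : S_TAB) : S_PAR := by
  intro ρ ρ' Z v F hPW hv hF
  obtain ⟨ho, hb, -, -, -, hcl, hmem, -⟩ := htab ρ hPW.cp
  obtain ⟨tm, -, -, ht⟩ := htp _ ho hb
  obtain ⟨-, htan, hfin⟩ := hpwc.2 ρ ρ' Z hPW
  have hv0 : v ≠ 0 := by rintro rfl; simp at hv
  have hnb : ∀ φ, bd ρ φ ∉ table ρ := fun φ h =>
    lt_irrefl _ ((hmem _ φ (Real.exp_pos _).le).1 h)
  have cex : Continuous ex := by unfold ex; fun_prop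
  have cb : Continuous (bd ρ) := by
    have := hPW.cp.1
    unfold bd; fun_prop
  have mc : Measurable fun φ => cross (tanf ρ' (bd ρ φ)) v := by
    have h1 : Measurable fun φ => tanf ρ' (bd ρ φ) := by
      simp only [fun φ => (htan φ).1]
      exact ((Complex.measurable_ofReal.comp hPW.meas).add_const _).mul cb.measurable
    unfold cross
    exact ((Complex.measurable_re.comp h1).mul_const _).sub
      ((Complex.measurable_im.comp h1).mul_const _)
  have mt : Measurable fun φ => tp (table ρ) (bd ρ φ) v :=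
    (tm.comp (f := fun φ => (bd ρ φ, v)) (cb.measurable.prodMk measurable_const) :)
  have mZ : MeasurableSet {φ | ex φ ∉ Z} :=
    (Z.finite_toSet.measurableSet.preimage cex.measurable).compl
  set S : Set (ℝ × ℝ) := {p | p.1 ∈ Ioc (-π) π ∧ ex p.1 ∉ Z ∧ 0 < cross (tanf ρ' (bd ρ p.1)) v ∧
    p.2 ∈ Ioo 0 (tp (table ρ) (bd ρ p.1) v)} with hS
  have mS : MeasurableSet S :=
    (measurableSet_Ioc.preimage measurable_fst).inter ((mZ.preimage measurable_fst).inter
      ((measurableSet_lt measurable_const (mc.comp measurable_fst)).inter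
        ((measurableSet_lt measurable_const measurable_snd).inter
          (measurableSet_lt measurable_snd (mt.comp measurable_fst)))))
  set Ψ : ℂ → ℂ := fun w => bd ρ w.re + w.im * v with hΨ
  have der : ∀ w : ℂ, ex w.re ∉ Z → HasFDerivAt Ψ (par_L (tanf ρ' (bd ρ w.re)) v) w :=
    fun w hw => par_der ((htan _).2.2 hw) v
  have inj : InjOn Ψ ((fun w : ℂ => (w.re, w.im)) ⁻¹' S) := by
    intro w hw w' hw' e
    have h1 := ((ht (bd ρ w.re) v hv0).2.2.2.2.2 w.im hw.2.2.2).2 (hnb _)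
    have h2 := ((ht (bd ρ w'.re) v hv0).2.2.2.2.2 w'.im hw'.2.2.2).2 (hnb _)
    have e' : bd ρ w.re + w.im * v = bd ρ w'.re + w'.im * v := e
    rw [e', h2] at h1
    rw [h1, add_left_inj] at e'
    have h3 := congrArg Complex.arg e'
    rw [par_arg ρ hw.1, par_arg ρ hw'.1] at h3
    exact Complex.ext h3 h1.symm
  have sub : Ψ '' ((fun w : ℂ => (w.re, w.im)) ⁻¹' S) ⊆ table ρ := by
    rintro _ ⟨w, hw, rfl⟩
    exact (ht (bd ρ w.re) v hv0).1 w.im hw.2.2.2
  have null : volume (table ρ \ Ψ '' ((fun w : ℂ => (w.re, w.im)) ⁻¹' S)) = 0 := by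
    have n1 : volume (⋃ φ ∈ {t ∈ Icc (-π) π | ex t ∈ Z}, range fun w : ℂ => bd ρ φ + w.im * v) = 0 :=
      (measure_biUnion_null_iff (hfin _ _).countable).2 fun φ _ => par_line _ _
    have n2 : volume (Ψ '' {w | ex w.re ∉ Z ∧ cross (tanf ρ' (bd ρ w.re)) v = 0}) = 0 :=
      addHaar_image_eq_zero_of_det_fderivWithin_eq_zero volume
        (f' := fun w => par_L (tanf ρ' (bd ρ w.re)) v) (fun w hw => (der w hw.1).hasFDerivWithinAt)
        fun w hw => (par_det _ _).trans hw.2
    refine measure_mono_null ?_ (measure_union_null n1 n2)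
    rintro z ⟨hz, hn⟩
    obtain ⟨k1, k2, k3, -⟩ := ht z (-v) (neg_ne_zero.2 hv0)
    have s0 := k3 hz
    have k4 := k2 s0
    generalize tp (table ρ) z (-v) = s at k1 s0 k4
    obtain ⟨y, hy⟩ : ∃ y, y = z + s * -v := ⟨_, rfl⟩
    rw [← hy] at k4
    have k5 : ∀ r ∈ Ioo 0 s, y + (r : ℝ) * v ∈ table ρ := by
      intro r hr
      have := k1 (s - r) ⟨by linarith [hr.2], by linarith [hr.1]⟩
      convert this using 1
      rw [hy]; push_cast; ring
    have k6 : y ∈ closure (table ρ) := by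
      have c1 : Tendsto (fun r : ℝ => y + r * v) (𝓝[>] 0) (𝓝 y) := by
        have : Continuous fun r : ℝ => y + r * v := by fun_prop
        simpa using (this.tendsto 0).mono_left nhdsWithin_le_nhds
      exact mem_closure_of_tendsto c1 (mem_of_superset (Ioo_mem_nhdsGT s0) k5)
    have k7 : bd ρ y.arg = y := by
      rw [hcl] at k6
      have : ‖y‖ = Real.exp (ρ y.arg) := le_antisymm k6 (not_lt.1 k4)
      rw [bd, ← this, ex]
      exact Complex.norm_mul_exp_arg_mul_I y
    have k8 : Ψ ⟨y.arg, s⟩ = z := by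
      simp only [hΨ, k7]; rw [hy]; ring
    by_cases hZ : ex y.arg ∈ Z
    · exact Or.inl (mem_iUnion₂.2 ⟨y.arg, ⟨Ioc_subset_Icc_self (Complex.arg_mem_Ioc y), hZ⟩,
        ⟨y.arg, s⟩, k8⟩)
    rcases lt_trichotomy (cross (tanf ρ' (bd ρ y.arg)) v) 0 with h | h | h
    · obtain ⟨δ, hδ, h1⟩ := (htr0 ρ ρ' Z y.arg v hPW hZ).2 h
      have h2 := lt_min hδ s0
      have h3 := h1 (min δ s / 2) ⟨by linarith, by linarith [min_le_left δ s]⟩
      rw [k7] at h3
      exact absurd (subset_closure (k5 _ ⟨by linarith, by linarith [min_le_right δ s]⟩)) h3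
    · exact Or.inr ⟨⟨y.arg, s⟩, ⟨hZ, h⟩, k8⟩
    · suffices h5 : s < tp (table ρ) (bd ρ y.arg) v from
        absurd ⟨⟨y.arg, s⟩, ⟨Complex.arg_mem_Ioc y, hZ, h, s0, h5⟩, k8⟩ hn
      rw [k7]
      obtain ⟨-, j2, -, j4, -⟩ := ht y v hv0
      have j5 := j4 s s0 k5
      refine j5.lt_of_ne fun e => j2 (s0.trans_le j5) ?_
      rw [← e, hy]
      convert hz using 1
      ring
  have e1 : table ρ =ᵐ[volume] Ψ '' ((fun w : ℂ => (w.re, w.im)) ⁻¹' S) :=
    (ae_eq_set.2 ⟨null, by rw [sdiff_eq_empty.2 sub, measure_empty]⟩)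
  set G : ℝ × ℝ → ℝ≥0∞ := fun p => ENNReal.ofReal (cross (tanf ρ' (bd ρ p.1)) v) *
    F (bd ρ p.1 + p.2 * v) with hG
  have mG : Measurable G := (mc.comp measurable_fst).ennreal_ofReal.mul (hF.comp
    ((cb.measurable.comp measurable_fst).add
      ((Complex.measurable_ofReal.comp measurable_snd).mul_const v)))
  have mp : MeasurePreserving (fun w : ℂ => (w.re, w.im)) volume volume :=
    Complex.volume_preserving_equiv_real_prod
  have mS' := mS.preimage mp.measurable
  rw [setLIntegral_congr e1, lintegral_image_eq_lintegral_abs_det_fderiv_mul volume mS'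
    (fun w hw => (der w hw.2.1).hasFDerivWithinAt) inj,
    setLIntegral_congr_fun mS' (g := fun w => G (w.re, w.im))
      (fun w hw => by
        simp only [par_det]
        rw [abs_of_pos hw.2.2.1]),
    mp.setLIntegral_comp_preimage mS mG,
    ← lintegral_indicator mS, Measure.volume_eq_prod, lintegral_prod _ (mG.indicator mS).aemeasurable,
    ← lintegral_indicator measurableSet_Ioc]
  refine lintegral_congr_ae ?_
  filter_upwards [measure_eq_zero_iff_ae_notMem.1 ((hfin (-π) π).measure_zero volume)] with φ hφ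
  by_cases h1 : φ ∈ Ioc (-π) π
  · have h2 : ex φ ∉ Z := fun h => hφ ⟨Ioc_subset_Icc_self h1, h⟩
    rw [indicator_of_mem h1]
    by_cases h3 : 0 < cross (tanf ρ' (bd ρ φ)) v
    · rw [← lintegral_const_mul' _ _ ENNReal.ofReal_ne_top, ← lintegral_indicator measurableSet_Ioo]
      refine lintegral_congr fun t => ?_
      by_cases h4 : t ∈ Ioo 0 (tp (table ρ) (bd ρ φ) v)
      · rw [indicator_of_mem h4, indicator_of_mem (show (φ, t) ∈ S from ⟨h1, h2, h3, h4⟩)]
      · rw [indicator_of_notMem h4, indicator_of_notMem fun h : (φ, t) ∈ S => h4 h.2.2.2]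
    · rw [ENNReal.ofReal_of_nonpos (not_lt.1 h3), zero_mul]
      simp only [fun t => indicator_of_notMem (fun h : (φ, t) ∈ S => h3 h.2.2.1) G, lintegral_zero]
  · rw [indicator_of_notMem h1]
    simp only [fun t => indicator_of_notMem (fun h : (φ, t) ∈ S => h1 h.1) G, lintegral_zero]

end Pool.Agent.P.MP_6b977f_mp.EB
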