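import Pool.Agent.P.MP_6b977f_mp.EB.IfE

/-! The invariant measure of a polygonal billiard in the coordinates (side, abscissa, angle). -/

namespace Pool.Agent.P.MP_6b977f_mp.EB

open Real MeasureTheory Filter Topology Set Metric
open scoped ContDiff BoundedContinuousFunction ComplexConjugate Pointwise ENNReal

theorem pbm_cont_ex : Continuous ex := by
  unfold ex
  fun_prop

theorem pbm_ex_re (t : ℝ) : (ex t).re = cos t := by
  simp [ex, Complex.exp_ofReal_mul_I_re]

theorem pbm_ex_im (t : ℝ) : (ex t).im = sin t := by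
  simp [ex, Complex.exp_ofReal_mul_I_im]

theorem pbm_sq {e : ℂ} (he : ‖e‖ = 1) : e.re ^ 2 + e.im ^ 2 = 1 := by
  have := Complex.sq_norm e
  rw [he, Complex.normSq_apply] at this
  linarith

theorem pbm_sm_fin : IsFiniteMeasure sm :=
  isFiniteMeasure_withDensity_ofReal
    ((continuous_sin.integrableOn_Icc (a := 0) (b := π)).mono_set Ioo_subset_Icc_self).2

theorem pbm_shift {H : ℝ → ℝ≥0∞} (hH : Function.Periodic H (2 * π)) (a b : ℝ) :
    ∫⁻ t in Ioc a (a + 2 * π), H t = ∫⁻ t in Ioc b (b + 2 * π), H t := by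
  have : Fact (0 < 2 * π) := ⟨two_pi_pos⟩
  exact (AddCircle.lintegral_preimage (2 * π) a hH.lift).trans
    (AddCircle.lintegral_preimage (2 * π) b hH.lift).symm

theorem pbm_split (H : ℝ → ℝ≥0∞) (φ : ℕ → ℝ) (n : ℕ) (h : ∀ s < n, φ s < φ (s + 1)) :
    φ 0 ≤ φ n ∧ ∫⁻ t in Ioc (φ 0) (φ n), H t =
      ∑ s ∈ Finset.range n, ∫⁻ t in Ioo (φ s) (φ (s + 1)), H t := by
  induction n with
  | zero => simp
  | succ n ih =>
    obtain ⟨h1, h2⟩ := ih fun s hs => h s (by omega)
    have h3 := (h n (by omega)).le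
    refine ⟨h1.trans h3, ?_⟩
    rw [Finset.sum_range_succ, ← h2, ← Ioc_union_Ioc_eq_Ioc h1 h3,
      lintegral_union measurableSet_Ioc (Ioc_disjoint_Ioc_of_le le_rfl),
      setLIntegral_congr (Ioo_ae_eq_Ioc (a := φ n) (b := φ (n + 1)))]

theorem pbm_inner {e : ℂ} (he : ‖e‖ = 1) (hcm : cm.map (fun v => e * v) = cm) {k : ℝ}
    (hk : 0 ≤ k) {G : ℂ → ℝ≥0∞} (hG : Measurable G) :
    ∫⁻ v, ENNReal.ofReal (cross (k * e) v) * G v ∂cm =
      ENNReal.ofReal k * ∫⁻ θ, G (e * ex θ) ∂sm := by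
  have hex := pbm_cont_ex.measurable
  have hc : Measurable fun v => ENNReal.ofReal (cross (k * e) v) * G v := by
    unfold cross
    fun_prop
  have hs : Measurable fun θ => ENNReal.ofReal (sin θ) := by fun_prop
  have hg : Measurable fun θ => G (e * ex θ) := by fun_prop
  have e1 : ∀ θ, cross (k * e) (e * ex θ) = k * sin θ := fun θ => by
    simp only [cross, Complex.mul_re, Complex.mul_im, Complex.ofReal_re, Complex.ofReal_im,
      pbm_ex_re, pbm_ex_im]
    linear_combination k * sin θ * pbm_sq he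
  rw [← hcm, lintegral_map hc (by fun_prop), cm,
    lintegral_map (f := fun v => ENNReal.ofReal (cross (k * e) (e * v)) * G (e * v))
      (hc.comp (by fun_prop)) hex, sm, lintegral_withDensity_eq_lintegral_mul _ hs hg,
    ← lintegral_const_mul _ (hs.mul hg)]
  have hu : Ioc 0 (2 * π) = Ioo 0 π ∪ Icc π (2 * π) :=
    (Ioo_union_Icc_eq_Ioc pi_pos (by linarith [pi_pos])).symm
  rw [hu, lintegral_union measurableSet_Icc
    (Set.disjoint_left.2 fun θ h1 h2 => (not_le.2 h1.2) h2.1)]
  have z : ∫⁻ θ in Icc π (2 * π),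
      ENNReal.ofReal (cross (k * e) (e * ex θ)) * G (e * ex θ) = 0 := by
    refine setLIntegral_eq_zero measurableSet_Icc fun θ hθ => ?_
    have : sin θ ≤ 0 := by
      rw [← sin_sub_two_pi]
      exact sin_nonpos_of_nonpos_of_neg_pi_le (by linarith [hθ.2]) (by linarith [hθ.1])
    simp only [e1, Pi.zero_apply]
    rw [ENNReal.ofReal_of_nonpos (mul_nonpos_of_nonneg_of_nonpos hk this), zero_mul]
  rw [z, add_zero]
  refine lintegral_congr fun θ => ?_
  rw [e1, ENNReal.ofReal_mul hk, Pi.mul_apply, mul_assoc]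

theorem pbm_tan {e : ℂ} {t h B : ℝ} (hB : B = cross (ex t) e) (h0 : B ≠ 0) :
    ((((conj e * ex t).re / B : ℝ) : ℂ) + Complex.I) * (((h / B : ℝ) : ℂ) * ex t) =
      ((h / B ^ 2 : ℝ) : ℂ) * e := by
  have h1 := cos_sq_add_sin_sq t
  simp only [cross, pbm_ex_re, pbm_ex_im] at hB
  apply Complex.ext
  · simp only [Complex.mul_re, Complex.mul_im, Complex.add_re, Complex.add_im, Complex.ofReal_re,
      Complex.ofReal_im, Complex.I_re, Complex.I_im, Complex.conj_re, Complex.conj_im, pbm_ex_re,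
      pbm_ex_im]
    field_simp
    linear_combination h * e.re * h1 - h * sin t * hB
  · simp only [Complex.mul_re, Complex.mul_im, Complex.add_re, Complex.add_im, Complex.ofReal_re,
      Complex.ofReal_im, Complex.I_re, Complex.I_im, Complex.conj_re, Complex.conj_im, pbm_ex_re,
      pbm_ex_im]
    field_simp
    linear_combination h * e.im * h1 + h * cos t * hB

theorem pbm_re {e : ℂ} (he : ‖e‖ = 1) (a : ℝ) : (conj e * (a * e)).re = a := by
  simp only [Complex.mul_re, Complex.mul_im, Complex.ofReal_re, Complex.ofReal_im,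
    Complex.conj_re, Complex.conj_im]
  linear_combination a * pbm_sq he

theorem pbm_sector (hpol0 : S_POL0) {P : Poly} {ρ : ℝ → ℝ} {c : ℝ} (hP : P.Ok c) (hρ : P.IsRho ρ)
    {s : ℕ} (hs : s < P.S) : ∃ τ k : ℝ → ℝ,
      τ '' Ioo (P.φ s) (P.φ (s + 1)) = Ioo 0 (P.L s) ∧ InjOn τ (Ioo (P.φ s) (P.φ (s + 1))) ∧
      ∀ t ∈ Ioo (P.φ s) (P.φ (s + 1)), HasDerivAt τ (k t) t ∧ 0 < k t ∧
        bd ρ t = P.V s + τ t * P.e s ∧ ((deriv ρ t : ℝ) + Complex.I) * bd ρ t = k t * P.e s := by
  obtain ⟨h0, h1, h2, h3, -⟩ := (hpol0 P c hP).1 s hs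
  have he := hP.unit s hs
  have hlt := hP.mono s hs
  have hb : ∀ t ∈ P.sec s, bd ρ t = P.rad s t * ex t := fun t ht => by
    rw [bd, hρ.2 s hs t ht, Real.exp_log (h3 t ht).1]
  have hcont : Continuous fun t => (conj (P.e s) * (bd ρ t - P.V s)).re := by
    have := hρ.1.1
    have := pbm_cont_ex
    unfold bd
    fun_prop
  have key : ∀ t ∈ Ioo (P.φ s) (P.φ (s + 1)),
      HasDerivAt (fun t => (conj (P.e s) * (bd ρ t - P.V s)).re)
        (cross (P.V s) (P.e s) / cross (ex t) (P.e s) ^ 2) t ∧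
      0 < cross (P.V s) (P.e s) / cross (ex t) (P.e s) ^ 2 ∧
      bd ρ t = P.V s + (conj (P.e s) * (bd ρ t - P.V s)).re * P.e s ∧
      ((deriv ρ t : ℝ) + Complex.I) * bd ρ t =
        (cross (P.V s) (P.e s) / cross (ex t) (P.e s) ^ 2 : ℝ) * P.e s := by
    intro t ht
    have ht' : t ∈ P.sec s := Ioo_subset_Icc_self ht
    have hB : 0 < cross (ex t) (P.e s) := hP.c_pos.trans_le (hP.tr s hs t ht')
    have hd : HasDerivAt ρ (P.slope s t) t := (h3 t ht').2.2.congr_of_eventuallyEq (by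
      filter_upwards [Icc_mem_nhds ht.1 ht.2] with u hu using hρ.2 s hs u hu)
    have htan : ((deriv ρ t : ℝ) + Complex.I) * bd ρ t =
        (cross (P.V s) (P.e s) / cross (ex t) (P.e s) ^ 2 : ℝ) * P.e s := by
      rw [hd.deriv, hb t ht']
      exact pbm_tan rfl hB.ne'
    have hbd : HasDerivAt (bd ρ) (((deriv ρ t : ℝ) + Complex.I) * bd ρ t) t := by
      have a1 : HasDerivAt (fun u => ((Real.exp (ρ u) : ℝ) : ℂ))
          ((Real.exp (ρ t) * P.slope s t : ℝ) : ℂ) t := hd.exp.ofReal_comp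
      have a2 : HasDerivAt ex (ex t * Complex.I) t := by
        have := ((hasDerivAt_id t).ofReal_comp.mul_const Complex.I).cexp
        exact this.congr_deriv (by simp [ex])
      refine (a1.mul a2).congr_deriv ?_
      rw [hd.deriv, bd]
      push_cast
      ring
    refine ⟨?_, by positivity, ?_, htan⟩
    · rw [htan] at hbd
      have := Complex.reCLM.hasFDerivAt.comp_hasDerivAt t
        ((hbd.sub_const (P.V s)).const_mul (conj (P.e s)))
      rw [Complex.reCLM_apply, pbm_re he] at this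
      exact this
    · obtain ⟨a, -, ha⟩ := (h3 t ht').2.1
      rw [hb t ht', ha, add_sub_cancel_left, pbm_re he]
  have hmono : StrictMonoOn (fun t => (conj (P.e s) * (bd ρ t - P.V s)).re)
      (Icc (P.φ s) (P.φ (s + 1))) :=
    strictMonoOn_of_deriv_pos (convex_Icc _ _) hcont.continuousOn fun t ht => by
      rw [interior_Icc] at ht
      rw [(key t ht).1.deriv]
      exact (key t ht).2.1
  refine ⟨_, _, ?_, hmono.injOn.mono Ioo_subset_Icc_self, key⟩
  rw [hcont.continuousOn.image_Ioo_of_strictMonoOn hlt.le hmono,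
    hb _ (left_mem_Icc.2 hlt.le), hb _ (right_mem_Icc.2 hlt.le), h1, h2,
    ← (hP.pol s hs.le).2, ← (hP.pol (s + 1) hs).2, hP.step s hs, add_sub_cancel_left, pbm_re he]
  simp

theorem t_pbm (hpol0 : S_POL0) (hppw : S_PPW) (hbm : S_BM) (hpwc : S_PWC) (hglue : S_GLUE) :
    S_PBM := by
  intro P ρ c hP hρ
  have _ := hglue
  have := pbm_sm_fin
  have hex := pbm_cont_ex.measurable
  have hV : Measurable P.V := Measurable.of_discrete
  have hE : Measurable P.e := Measurable.of_discrete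
  have hL : Measurable P.L := Measurable.of_discrete
  have hio : Measurable P.io := by
    unfold Poly.io
    fun_prop
  have hfin : ∀ s, IsFiniteMeasure (volume.restrict (Ioo 0 (P.L s))) := fun s =>
    isFiniteMeasure_restrict_Ioo _ _
  refine ⟨?_, hio, ?_, ?_⟩
  · unfold Poly.mP
    infer_instance
  · unfold Poly.mP
    rw [ae_finsetSum_measure_iff]
    intro s hs
    rw [ae_map_iff (by fun_prop)]
    · filter_upwards [Measure.quasiMeasurePreserving_fst.ae (ae_restrict_mem measurableSet_Ioo),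
        Measure.quasiMeasurePreserving_snd.ae ((withDensity_absolutelyContinuous _ _).ae_le
          (ae_restrict_mem measurableSet_Ioo))] with y h1 h2
      exact ⟨Finset.mem_range.1 hs, h1, h2⟩
    · simp only [mem_Ioo]
      measurability
  · obtain ⟨Z, hZ⟩ := (hppw P ρ c hP hρ).1
    refine Measure.ext_of_lintegral _ fun G hG => ?_
    rw [(hbm.2 _ _ Z hZ).2.2.2.1 G hG, lintegral_map hG hio, Poly.mP, lintegral_finsetSum_measure]
    have hper : Function.Periodic (fun φ => ∫⁻ v,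
        ENNReal.ofReal (cross (tanf (deriv ρ) (bd ρ φ)) v) * G (bd ρ φ, v) ∂cm) (2 * π) := by
      intro φ
      have : bd ρ (φ + 2 * π) = bd ρ φ := by
        rw [bd, bd, hρ.1.2 φ, ex, ex]
        push_cast
        rw [add_mul, Complex.exp_add, Complex.exp_two_pi_mul_I, mul_one]
      simp only [this]
    have h1 := pbm_shift hper (-π) (P.φ 0)
    rw [show -π + 2 * π = π by ring, ← hP.per] at h1
    rw [h1, (pbm_split _ P.φ P.S hP.mono).2]
    refine Finset.sum_congr rfl fun s hs => ?_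
    have hs' := Finset.mem_range.1 hs
    obtain ⟨τ, k, t1, t2, t3⟩ := pbm_sector hpol0 hP hρ hs'
    rw [lintegral_map (f := fun x => G (P.io x)) (hG.comp hio) (by fun_prop),
      lintegral_prod _ (Measurable.aemeasurable (by fun_prop)), ← t1,
      lintegral_image_eq_lintegral_abs_deriv_mul measurableSet_Ioo
        (fun t ht => (t3 t ht).1.hasDerivWithinAt) t2]
    refine setLIntegral_congr_fun measurableSet_Ioo fun t ht => ?_
    obtain ⟨-, u2, u3, u4⟩ := t3 t ht
    have he := hP.unit s hs'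
    simp only [Poly.io]
    rw [((hpwc.2 _ _ Z hZ).2.1 t).1, u4, abs_of_pos u2, ← u3]
    exact pbm_inner he (hbm.1.2.2.2.1 _ he) u2.le (G := fun v => G (bd ρ t, v)) (by fun_prop)

end Pool.Agent.P.MP_6b977f_mp.EB
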