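import Pool.Agent.P.MP_6b977f_mp.EB.IfE

/-! The next cell after a random groove is spread out. -/

namespace Pool.Agent.P.MP_6b977f_mp.EB

open Real MeasureTheory Filter Topology Set Metric
open scoped ContDiff BoundedContinuousFunction ComplexConjugate Pointwise ENNReal

noncomputable section

theorem pi_pd {L : ℝ} (hL : 0 < L) {N : ℕ} (hN : 1 ≤ N) : 0 < pd L N ∧ pd L N ≤ L / N := by
  have h : (0 : ℝ) < N := Nat.cast_pos.2 hN
  exact ⟨by unfold pd; positivity, div_le_self (by positivity) (by linarith)⟩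

theorem pi_floor {L σ : ℝ} (hσ : σ ∈ Ioo 0 L) {N : ℕ} (hN : 1 ≤ N) :
    ⌊σ / (L / N)⌋₊ < N ∧ ⌊σ / (L / N)⌋₊ * (L / N) ≤ σ ∧ σ < (⌊σ / (L / N)⌋₊ + 1) * (L / N) := by
  have h : (0 : ℝ) < N := Nat.cast_pos.2 hN
  have hh : 0 < L / N := div_pos (hσ.1.trans hσ.2) h
  have h0 : 0 ≤ σ / (L / N) := (div_pos hσ.1 hh).le
  refine ⟨(Nat.floor_lt h0).2 ((div_lt_iff₀ hh).2 ?_), (le_div_iff₀ hh).1 (Nat.floor_le h0),
    (div_lt_iff₀ hh).1 (Nat.lt_floor_add_one _)⟩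
  rw [mul_div_cancel₀ _ h.ne']
  exact hσ.2

/-- The abscissae outside the grooves. -/
theorem pi_ng {L u : ℝ} (hL : 0 < L) {N : ℕ} (hN : 1 ≤ N) (hu : u ∈ Icc (0 : ℝ) 1) :
    volume ({σ | ¬InG L N u σ} ∩ Ioo 0 L) ≤ ENNReal.ofReal (2 * (L / N)) := by
  have hp := (pi_pd hL hN).1
  have e0 : pd L N * (N + 1) = L / N := div_mul_cancel₀ _ (by positivity)
  have hs : {σ | ¬InG L N u σ} ∩ Ioo 0 L ⊆ (⋃ k ∈ Finset.range (N + 1),
      Icc (k * (L / N) - pd L N) (k * (L / N) + pd L N)) ∪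
      range fun q : ℕ × ℤ => q.1 * (L / N) + pd L N * (u + q.2) := by
    rintro σ ⟨h1, h2⟩
    obtain ⟨f1, f2, f3⟩ := pi_floor h2 hN
    have e : pd L N * (cX L N u σ + u) = σ - ⌊σ / (L / N)⌋₊ * (L / N) := by
      rw [cX, sub_add_cancel, mul_div_cancel₀ _ hp.ne']
    simp only [mem_union, mem_iUnion, Finset.mem_range, mem_Icc, mem_range]
    by_cases a1 : cX L N u σ ≤ 0
    · have := mul_le_mul_of_nonneg_left (show cX L N u σ + u ≤ 1 by linarith [hu.2]) hp.le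
      exact Or.inl ⟨⌊σ / (L / N)⌋₊, by omega, by linarith, by linarith⟩
    by_cases a2 : (N : ℝ) ≤ cX L N u σ
    · have := mul_le_mul_of_nonneg_left (show N ≤ cX L N u σ + u by linarith [hu.1]) hp.le
      refine Or.inl ⟨⌊σ / (L / N)⌋₊ + 1, by omega, ?_, ?_⟩ <;> push_cast <;> linarith
    have a3 : Int.fract (cX L N u σ) = 0 := by
      by_contra a3
      exact h1 ⟨not_le.1 a1, not_le.1 a2, a3⟩
    refine Or.inr ⟨(⌊σ / (L / N)⌋₊, ⌊cX L N u σ⌋), ?_⟩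
    have a4 := Int.floor_add_fract (cX L N u σ)
    rw [a3, add_zero] at a4
    simp only [a4]
    linarith
  refine (measure_mono hs).trans ((measure_union_le _ _).trans ?_)
  rw [(countable_range _).measure_zero, add_zero]
  refine (measure_biUnion_finset_le _ _).trans (le_of_eq ?_)
  have e1 : ∀ k : ℕ, k * (L / N) + pd L N - (k * (L / N) - pd L N) = 2 * pd L N := fun k => by ring
  simp only [Real.volume_Icc, e1, Finset.sum_const, Finset.card_range]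
  rw [← ENNReal.ofReal_nsmul, ← e0]
  congr 1
  simp only [nsmul_eq_mul]
  push_cast
  ring

theorem pi_sm : sm univ ≤ ENNReal.ofReal π := by
  rw [sm, withDensity_apply _ MeasurableSet.univ, Measure.restrict_univ]
  refine (lintegral_mono fun θ => ENNReal.ofReal_le_one.2 (sin_le_one θ)).trans ?_
  simp

theorem pi_ngm {P : Poly} {c : ℝ} (hP : P.Ok c) {N : ℕ} (hN : 1 ≤ N) {u : ℝ}
    (hu : u ∈ Icc (0 : ℝ) 1) (hm : MeasurableSet {y : XX | ¬InG (P.L y.1) N u y.2.1}) :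
    P.mP {y : XX | ¬InG (P.L y.1) N u y.2.1} ≤
      ENNReal.ofReal (2 * π * (∑ s ∈ Finset.range P.S, P.L s) / N) := by
  have e : 2 * π * (∑ s ∈ Finset.range P.S, P.L s) / N =
      ∑ s ∈ Finset.range P.S, 2 * (P.L s / N) * π := by
    rw [Finset.mul_sum, Finset.sum_div]
    exact Finset.sum_congr rfl fun s _ => by ring
  have hp : ∀ s ∈ Finset.range P.S, 0 ≤ 2 * (P.L s / N) := fun s hs => by
    have := hP.len s (Finset.mem_range.1 hs)
    positivity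
  rw [e, ENNReal.ofReal_sum_of_nonneg fun s hs => mul_nonneg (hp s hs) pi_pos.le, Poly.mP,
    Measure.finsetSum_apply]
  refine Finset.sum_le_sum fun s hs => ?_
  have e2 : (fun y : ℝ × ℝ => (s, y)) ⁻¹' {y : XX | ¬InG (P.L y.1) N u y.2.1} =
      {σ | ¬InG (P.L s) N u σ} ×ˢ univ := by
    ext y
    simp
  rw [Measure.map_apply measurable_prodMk_left hm, e2, ENNReal.ofReal_mul (hp s hs)]
  refine (Measure.prod_prod_le _ _).trans (mul_le_mul' ?_ pi_sm)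
  rw [Measure.restrict_apply' measurableSet_Ioo]
  exact pi_ng (hP.len s (Finset.mem_range.1 hs)) hN hu

theorem pi_diam {G : Set Th} {D : ℝ} (h : ∀ θ ∈ G, ∀ θ' ∈ G, |(θ.2 : ℝ) - θ'.2| ≤ D) :
    volume G ≤ ENNReal.ofReal (2 * D) := by
  rcases G.eq_empty_or_nonempty with rfl | ⟨θ', h'⟩
  · simp
  have hs : G ⊆ univ ×ˢ (Subtype.val ⁻¹' closedBall (θ'.2 : ℝ) D) := fun θ hθ =>
    ⟨trivial, h θ hθ θ' h'⟩
  refine (measure_mono hs).trans ?_
  rw [Measure.volume_eq_prod, Measure.prod_prod, measure_univ, one_mul,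
    unitInterval.volume_apply, ← Real.volume_closedBall]
  exact measure_mono (image_preimage_subset _ _)

theorem pi_gv (α x θ : ℝ) : ∃ q ∈ ({(-2, θ), (4, -θ), (2, θ), (-4, 2 * π - θ)} : Finset (ℝ × ℝ)),
    (gv α x θ).2 = q.1 * α + q.2 := by
  simp only [gv, gD, Finset.mem_insert, Finset.mem_singleton, exists_eq_or_imp, exists_eq_left]
  split_ifs
  · exact Or.inl (by ring)
  · exact Or.inr (Or.inl (by ring))
  · exact Or.inr (Or.inr (Or.inl (by ring)))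
  · exact Or.inr (Or.inr (Or.inr (by ring)))

theorem pi_nex (p : ℝ) : ‖ex p‖ = 1 := Complex.norm_exp_ofReal_mul_I p

theorem pi_ex {p q : ℝ} (h : |p - q| ≤ π) : 2 / π * |p - q| ≤ ‖ex p - ex q‖ := by
  have e : ex p - ex q = ex q * (Complex.exp (Complex.I * (p - q : ℝ)) - 1) := by
    rw [mul_sub, mul_one, ex, ex, ← Complex.exp_add]
    congr 2
    push_cast
    ring
  have h2 : |(p - q) / 2| = |p - q| / 2 := by rw [abs_div, abs_two]
  have := Real.mul_abs_le_abs_sin (x := (p - q) / 2) (by linarith)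
  rw [e, norm_mul, pi_nex, one_mul, Complex.norm_exp_I_mul_ofReal_sub_one, Real.norm_eq_abs,
    abs_mul, abs_two]
  rw [h2] at this
  linarith

theorem pi_dir {v v' : ℂ} {t t' δ : ℝ} (hv : ‖v‖ = 1) (hv' : ‖v'‖ = 1) (h0 : 0 < δ) (ht : δ ≤ t)
    (ht' : δ ≤ t') : δ * ‖v - v'‖ ≤ 2 * ‖t * v - t' * v'‖ := by
  have a1 := abs_norm_sub_norm_le (t * v) (t' * v')
  rw [norm_mul, norm_mul, hv, hv', mul_one, mul_one, Complex.norm_of_nonneg (h0.le.trans ht),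
    Complex.norm_of_nonneg (h0.le.trans ht')] at a1
  have e : t * (v - v') = (t * v - t' * v') - (t - t' : ℝ) * v' := by push_cast; ring
  have a2 := norm_sub_le (t * v - t' * v') ((t - t' : ℝ) * v')
  rw [← e, norm_mul, norm_mul, hv', mul_one, Complex.norm_of_nonneg (h0.le.trans ht),
    Complex.norm_real, Real.norm_eq_abs] at a2
  have a3 := mul_le_mul_of_nonneg_right ht (norm_nonneg (v - v'))
  linarith

/-- What a good parameter gives. -/
theorem pi_good (hgm : S_GM) {P : Poly} {c α₀ : ℝ} (hP : P.Ok c) (h0 : 0 < α₀) (h1 : α₀ ≤ π / 16)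
    {N : ℕ} (hN : 1 ≤ N) {y : XX} (hy : y.1 < P.S ∧ y.2.1 ∈ Ioo 0 (P.L y.1) ∧ y.2.2 ∈ Ioo 0 π)
    {θ : Th} (hθ : InG (P.L y.1) N θ.1 y.2.1) :
    ∃ a : ℝ, |a| ≤ P.L y.1 / N ∧ P.io (Gam P N α₀ θ y) = (P.V y.1 + (y.2.1 + a : ℝ) * P.e y.1,
      P.e y.1 * ex (gv (α₀ * (1 + θ.2)) (Int.fract (cX (P.L y.1) N θ.1 y.2.1)) y.2.2).2) := by
  have hα : α₀ * (1 + θ.2) ≤ α₀ * 2 := mul_le_mul_of_nonneg_left (by linarith [θ.2.2.2]) h0.le
  have hf : Int.fract (cX (P.L y.1) N θ.1 y.2.1) ∈ Ioo (0 : ℝ) 1 :=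
    ⟨lt_of_le_of_ne (Int.fract_nonneg _) hθ.2.2.symm, Int.fract_lt_one _⟩
  have hg := (hgm (α₀ * (1 + θ.2)) (mul_pos h0 (by linarith [θ.2.2.1])) (by linarith)).1 _ hf _
    hy.2.2
  obtain ⟨p1, p2⟩ := pi_pd (hP.len _ hy.1) hN
  refine ⟨_, ?_, by simp only [Poly.io, Gam, gam, if_pos hθ]; rfl⟩
  rw [abs_mul, abs_of_pos p1]
  refine le_trans (mul_le_of_le_one_right p1.le (abs_le.2 ⟨?_, ?_⟩)) p2 <;>
    linarith [hf.1, hf.2, hg.1, hg.2]

theorem pi_cell {P : Poly} {N : ℕ} (hN : 1 ≤ N) {s s' : ℕ} {σ σ' : ℝ} (hs : s < P.S)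
    (hs' : s' < P.S) (hσ : σ ∈ Ioo 0 (P.L s)) (hσ' : σ' ∈ Ioo 0 (P.L s'))
    (h : cell P N s σ = cell P N s' σ') : s = s' ∧ |σ - σ'| ≤ P.L s / N := by
  simp only [cell, Prod.mk.injEq, Fin.mk.injEq] at h
  obtain rfl : s = s' := by omega
  obtain ⟨a1, a2, a3⟩ := pi_floor hσ hN
  obtain ⟨b1, b2, b3⟩ := pi_floor hσ' hN
  have e : ⌊σ / (P.L s / N)⌋₊ = ⌊σ' / (P.L s / N)⌋₊ := by omega
  rw [e] at a2 a3
  exact ⟨rfl, abs_le.2 ⟨by linarith, by linarith⟩⟩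

/-- The good parameters that lead to a given cell. -/
theorem pi_vol (hgm : S_GM) {P : Poly} {ρ : ℝ → ℝ} {c α₀ δ Λ : ℝ} {T : XX → XX} (hP : P.Ok c)
    (h0 : 0 < α₀) (h1 : α₀ ≤ π / 16) (hδ : 0 < δ) (hΛ : ∀ s < P.S, P.L s ≤ Λ) {N : ℕ} (hN : 1 ≤ N)
    {y : XX} (hy : y.1 < P.S ∧ y.2.1 ∈ Ioo 0 (P.L y.1) ∧ y.2.2 ∈ Ioo 0 π) {B : Set XX}
    (hB : ∀ z ∉ B, δ ≤ tp (table ρ) (P.io z).1 (P.io z).2 ∧
      P.io (T z) = bT ρ (deriv ρ) (P.io z) ∧ (T z).1 < P.S ∧ (T z).2.1 ∈ Ioo 0 (P.L (T z).1))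
    (c' : Cl P N) : volume {θ : Th | InG (P.L y.1) N θ.1 y.2.1 ∧ Gam P N α₀ θ y ∉ B ∧
      cell P N (T (Gam P N α₀ θ y)).1 (T (Gam P N α₀ θ y)).2.1 = c'} ≤
      ENNReal.ofReal (12 * π * Λ / (δ * α₀) / N) := by
  have hN' : (0 : ℝ) < N := Nat.cast_pos.2 hN
  have hΛ0 : 0 ≤ Λ := (hP.len _ hy.1).le.trans (hΛ _ hy.1)
  have hs : {θ : Th | InG (P.L y.1) N θ.1 y.2.1 ∧ Gam P N α₀ θ y ∉ B ∧
      cell P N (T (Gam P N α₀ θ y)).1 (T (Gam P N α₀ θ y)).2.1 = c'} ⊆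
      ⋃ q ∈ ({(-2, y.2.2), (4, -y.2.2), (2, y.2.2), (-4, 2 * π - y.2.2)} : Finset (ℝ × ℝ)),
        {θ : Th | (InG (P.L y.1) N θ.1 y.2.1 ∧ Gam P N α₀ θ y ∉ B ∧
          cell P N (T (Gam P N α₀ θ y)).1 (T (Gam P N α₀ θ y)).2.1 = c') ∧
          (gv (α₀ * (1 + θ.2)) (Int.fract (cX (P.L y.1) N θ.1 y.2.1)) y.2.2).2 =
            q.1 * (α₀ * (1 + θ.2)) + q.2} := fun θ hθ => by
    obtain ⟨q, hq, e⟩ := pi_gv (α₀ * (1 + θ.2)) (Int.fract (cX (P.L y.1) N θ.1 y.2.1)) y.2.2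
    exact mem_biUnion (Finset.mem_coe.2 hq) ⟨hθ, e⟩
  refine (measure_mono hs).trans ((measure_biUnion_finset_le _ _).trans ?_)
  refine (Finset.sum_le_card_nsmul _ _ (ENNReal.ofReal (2 * (3 * π * Λ / (2 * δ * α₀) / N)))
    fun q hq => pi_diam ?_).trans ?_
  · rintro θ ⟨⟨g1, g2, g3⟩, g4⟩ θ' ⟨⟨k1, k2, k3⟩, k4⟩
    have hq' : 2 ≤ |q.1| ∧ |q.1| ≤ 4 := by
      simp only [Finset.mem_insert, Finset.mem_singleton] at hq
      rcases hq with rfl | rfl | rfl | rfl <;> norm_num [abs_of_pos]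
    obtain ⟨a, ha, ea⟩ := pi_good hgm hP h0 h1 hN hy g1
    obtain ⟨a', ha', ea'⟩ := pi_good hgm hP h0 h1 hN hy k1
    obtain ⟨t1, t2, t3, t4⟩ := hB _ g2
    obtain ⟨u1, u2, u3, u4⟩ := hB _ k2
    obtain ⟨c1, c2⟩ := pi_cell hN t3 u3 t4 u4 (g3.trans k3.symm)
    have x1 := congrArg Prod.fst t2
    have x2 := congrArg Prod.fst u2
    rw [g4] at ea
    rw [k4] at ea'
    rw [bT] at x1 x2
    generalize tp (table ρ) (P.io (Gam P N α₀ θ y)).1 (P.io (Gam P N α₀ θ y)).2 = t at t1 x1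
    generalize tp (table ρ) (P.io (Gam P N α₀ θ' y)).1 (P.io (Gam P N α₀ θ' y)).2 = t' at u1 x2
    rw [ea] at x1
    rw [ea'] at x2
    simp only [Poly.io, ← c1] at x1 x2
    have he := hP.unit _ hy.1
    have nv : ∀ p, ‖P.e y.1 * ex p‖ = 1 := fun p => by rw [norm_mul, he, pi_nex, mul_one]
    have d1 := pi_dir (nv (q.1 * (α₀ * (1 + θ.2)) + q.2)) (nv (q.1 * (α₀ * (1 + θ'.2)) + q.2))
      hδ t1 u1
    have e1 : t * (P.e y.1 * ex (q.1 * (α₀ * (1 + θ.2)) + q.2)) -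
        t' * (P.e y.1 * ex (q.1 * (α₀ * (1 + θ'.2)) + q.2)) =
        ((T (Gam P N α₀ θ y)).2.1 - (T (Gam P N α₀ θ' y)).2.1 : ℝ) * P.e (T (Gam P N α₀ θ y)).1 +
          (a' - a : ℝ) * P.e y.1 := by
      push_cast at x1 x2 ⊢
      linear_combination x2 - x1
    have d2 := norm_add_le (((T (Gam P N α₀ θ y)).2.1 - (T (Gam P N α₀ θ' y)).2.1 : ℝ) *
      P.e (T (Gam P N α₀ θ y)).1) ((a' - a : ℝ) * P.e y.1)
    rw [← e1, norm_mul, norm_mul, he, hP.unit _ t3, mul_one, mul_one, Complex.norm_real,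
      Complex.norm_real, Real.norm_eq_abs, Real.norm_eq_abs] at d2
    have d3 := abs_sub a' a
    have d4 := div_le_div_of_nonneg_right (hΛ _ hy.1) hN'.le
    have d5 := div_le_div_of_nonneg_right (hΛ _ t3) hN'.le
    have e2 : |q.1 * (α₀ * (1 + θ.2)) + q.2 - (q.1 * (α₀ * (1 + θ'.2)) + q.2)| =
        |q.1| * (α₀ * |(θ.2 : ℝ) - θ'.2|) := by
      rw [← abs_of_pos h0, ← abs_mul, ← abs_mul, abs_of_pos h0]
      congr 1
      ring
    have d6 : |(θ.2 : ℝ) - θ'.2| ≤ 1 :=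
      abs_le.2 ⟨by linarith [θ.2.2.1, θ'.2.2.2], by linarith [θ.2.2.2, θ'.2.2.1]⟩
    have d7 : 0 ≤ α₀ * |(θ.2 : ℝ) - θ'.2| := by positivity
    have d8 := pi_ex (p := q.1 * (α₀ * (1 + θ.2)) + q.2) (q := q.1 * (α₀ * (1 + θ'.2)) + q.2) (by
      have := mul_le_mul_of_nonneg_right hq'.2 d7
      have := mul_le_of_le_one_right h0.le d6
      rw [e2]
      linarith [pi_pos])
    rw [← mul_sub, norm_mul, he, one_mul] at d1
    rw [e2] at d8
    have d9 := mul_le_mul_of_nonneg_left ((mul_le_mul_of_nonneg_left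
      (mul_le_mul_of_nonneg_right hq'.1 d7) (by positivity : 0 ≤ 2 / π)).trans d8) hδ.le
    have d10 : δ * (2 / π * (2 * (α₀ * |(θ.2 : ℝ) - θ'.2|))) ≤ 6 * (Λ / N) := by linarith
    have e3 : 3 * π * Λ / (2 * δ * α₀) / N = 6 * (Λ / N) / (δ * (2 / π * (2 * α₀))) := by
      field_simp
      ring
    rw [e3, le_div_iff₀ (by positivity)]
    linarith
  · refine (nsmul_le_nsmul_left zero_le Finset.card_le_four).trans (le_of_eq ?_)
    rw [← ENNReal.ofReal_nsmul]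
    congr 1
    simp only [nsmul_eq_mul]
    push_cast
    field_simp
    ring

theorem t_pi (hmp : S_MP) (hgm : S_GM) (hgmm : S_GMM) (hpbm : S_PBM) (hbm : S_BM) (hppw : S_PPW)
    (htp : S_TP) (htab : S_TAB) : S_PI := by
  intro P ρ c α₀ β T hP hρ hT h0 h1 hβ
  obtain ⟨hfin, hio, hdom, hmap⟩ := hpbm P ρ c hP hρ
  obtain ⟨⟨Z, hZ⟩, -⟩ := hppw P ρ c hP hρ
  have hpos : ∀ᵐ z ∂P.mP, 0 < tp (table ρ) (P.io z).1 (P.io z).2 := by
    have := (hbm.2 ρ _ Z hZ).2.2.1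
    rw [hmap] at this
    exact (ae_of_ae_map hio.aemeasurable this).mono fun z ⟨_, _, hz⟩ => hz.2.2.2
  have hmt : Measurable fun z => tp (table ρ) (P.io z).1 (P.io z).2 :=
    (htp _ (htab ρ hρ.1).1 (htab ρ hρ.1).2.1).1.comp hio
  have hlim := tendsto_measure_iInter_atTop (μ := P.mP)
    (s := fun n : ℕ => {z | tp (table ρ) (P.io z).1 (P.io z).2 < 1 / (n + 1)})
    (fun n => (measurableSet_lt hmt measurable_const).nullMeasurableSet)
    (fun n n' hn => ofPred_subset_ofPred.2 fun z hz => hz.trans_le (Nat.one_div_le_one_div hn))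
    ⟨0, measure_ne_top _ _⟩
  rw [measure_mono_null (fun z hz (hz' : 0 < _) => by
    obtain ⟨n, hn⟩ := exists_nat_one_div_lt hz'
    exact lt_asymm hn (mem_iInter.1 hz n)) (ae_iff.1 hpos)] at hlim
  obtain ⟨n, hn⟩ := (hlim.eventually_lt_const (ENNReal.ofReal_pos.2 (half_pos hβ))).exists
  obtain ⟨B₀, b1, b2, b3⟩ := exists_measurable_superset_of_null
    (ae_iff.1 (hT.2.and (hT.1.quasiMeasurePreserving.ae hdom)))
  set δ : ℝ := 1 / (n + 1) with hδ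
  set B := B₀ ∪ {z | tp (table ρ) (P.io z).1 (P.io z).2 < δ} with hB
  have mB : MeasurableSet B := b2.union (measurableSet_lt hmt measurable_const)
  have vB : P.mP B ≤ ENNReal.ofReal (β / 2) :=
    (measure_union_le _ _).trans (by rw [b3, zero_add]; exact hn.le)
  set Λ := ∑ s ∈ Finset.range P.S, P.L s with hΛ
  have hΛ1 : ∀ s < P.S, P.L s ≤ Λ := fun s hs => Finset.single_le_sum
    (fun s hs => (hP.len s (Finset.mem_range.1 hs)).le) (Finset.mem_range.2 hs)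
  have hΛ0 : 0 ≤ Λ := Finset.sum_nonneg fun s hs => (hP.len s (Finset.mem_range.1 hs)).le
  have hδ0 : 0 < δ := by positivity
  obtain ⟨N₀, hN₀⟩ := eventually_atTop.1 (((tendsto_const_div_atTop_nhds_zero_nat
    (2 * π * Λ + 12 * π * Λ / (δ * α₀) * P.mP.real univ)).eventually_lt_const
    (half_pos hβ)).and (eventually_ge_atTop 1))
  refine ⟨N₀, fun N hN => ?_⟩
  obtain ⟨n1, n2⟩ := hN₀ N hN
  obtain ⟨mG, -, mI⟩ := hgmm.2 P N α₀
  set Bad : Set (Th × XX) := {y | InG (P.L y.2.1) N y.1.1 y.2.2.1}ᶜ ∪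
    (fun y => Gam P N α₀ y.1 y.2) ⁻¹' B with hBad
  have mBad : MeasurableSet Bad := mI.compl.union (mG mB)
  have mS := measurable_measure_prodMk_right (μ := volume) mBad
  refine ⟨fun x => volume ((fun θ => (θ, T x)) ⁻¹' Bad) +
    ENNReal.ofReal (12 * π * Λ / (δ * α₀) / N), (mS.comp hT.1.measurable).add_const _, ?_, ?_⟩
  · rw [lintegral_add_right _ measurable_const, hT.1.lintegral_comp mS,
      ← Measure.prod_apply_symm mBad, Measure.prod_apply mBad, lintegral_const]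
    have a1 : ∀ θ : Th, P.mP (Prod.mk θ ⁻¹' Bad) ≤
        ENNReal.ofReal (2 * π * Λ / N) + ENNReal.ofReal (β / 2) := fun θ => by
      refine (measure_union_le _ _).trans (add_le_add
        (pi_ngm hP n2 θ.1.2 (measurable_prodMk_left mI.compl)) ?_)
      exact ((hmp P c α₀ N (fun _ => θ) hP h0 h1 n2).measure_preimage
        mB.nullMeasurableSet).le.trans vB
    refine (add_le_add_left (lintegral_mono a1) _).trans ?_
    rw [lintegral_const, measure_univ, mul_one, ← ofReal_measureReal (μ := P.mP) (s := univ),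
      ← ENNReal.ofReal_mul (by positivity), ← ENNReal.ofReal_add (by positivity) (by positivity),
      ← ENNReal.ofReal_add (by positivity) (by positivity)]
    refine ENNReal.ofReal_le_ofReal ?_
    rw [add_div, mul_div_right_comm _ (P.mP.real univ)] at n1
    linarith
  · filter_upwards [hT.1.quasiMeasurePreserving.ae hdom] with x hx c'
    refine le_trans (measure_mono fun θ hθ => ?_) ((measure_union_le _ _).trans (add_le_add_right
      (pi_vol hgm (ρ := ρ) (T := T) (B := B) hP h0 h1 hδ0 hΛ1 n2 hx (fun z hz => ?_) c') _))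
    · by_cases hb : (θ, T x) ∈ Bad
      · exact Or.inl hb
      · exact Or.inr ⟨not_not.1 fun h => hb (Or.inl h), fun h => hb (Or.inr h), hθ⟩
    · obtain ⟨z1, z2⟩ := not_not.1 fun h => hz (Or.inl (b1 h))
      exact ⟨not_lt.1 fun h => hz (Or.inr h), z1, z2.1, z2.2.1⟩

end

end Pool.Agent.P.MP_6b977f_mp.EB
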