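import Pool.Agent.P.MP_6b977f_mp.EB.IfE

/-! Polygons are piecewise `C¹` tables; coordinates on their sides. -/

namespace Pool.Agent.P.MP_6b977f_mp.EB

open Real MeasureTheory Filter Topology Set Metric
open scoped ContDiff BoundedContinuousFunction ComplexConjugate Pointwise ENNReal

noncomputable section

theorem ppw_mono {P : Poly} {c : ℝ} (hok : P.Ok c) {i j : ℕ} (hij : i ≤ j) (hj : j ≤ P.S) :
    P.φ i ≤ P.φ j := by
  induction j, hij using Nat.le_induction with
  | base => exact le_rfl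
  | succ j _ ih => exact (ih (by omega)).trans (hok.mono j (by omega)).le

theorem ppw_open (hpol0 : S_POL0) {P : Poly} {c : ℝ} (hok : P.Ok c) {s : ℕ} (hs : s < P.S) {a : ℝ}
    (ha : a ∈ Ioo 0 (P.L s)) : ∃ t ∈ Ioo (P.φ s) (P.φ (s + 1)), ∃ r : ℝ, 0 < r ∧
      P.V s + a * P.e s = r * ex t := by
  obtain ⟨-, h1, h2, h3, h4⟩ := (hpol0 P c hok).1 s hs
  obtain ⟨t, ht, e⟩ := h4 (P.V s + a * P.e s) ⟨a, Ioo_subset_Icc_self ha, rfl⟩
  have he : P.e s ≠ 0 := norm_ne_zero_iff.1 (by rw [hok.unit s hs]; exact one_ne_zero)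
  refine ⟨t, ⟨lt_of_le_of_ne ht.1 fun h => ?_, lt_of_le_of_ne ht.2 fun h => ?_⟩, _, (h3 t ht).1, e⟩
  · rw [← h, h1, ← (hok.pol s hs.le).2, add_eq_left, mul_eq_zero] at e
    exact ha.1.ne' (by exact_mod_cast e.resolve_right he)
  · rw [h, h2, ← (hok.pol (s + 1) hs).2, hok.step s hs, add_right_inj, mul_left_inj' he] at e
    exact ha.2.ne (by exact_mod_cast e)

theorem ppw_ex {t t' r r' : ℝ} (hr : 0 < r) (hr' : 0 < r') (h : (r : ℂ) * ex t = r' * ex t')
    (h1 : t < t') (h2 : t' < t + 2 * π) : False := by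
  have hn := congrArg norm h
  simp only [ex, norm_mul, Complex.norm_exp_ofReal_mul_I, Complex.norm_real, Real.norm_eq_abs,
    abs_of_pos hr, abs_of_pos hr', mul_one] at hn
  subst hn
  rw [mul_right_inj' (by exact_mod_cast hr.ne'), ex, ex, Complex.exp_eq_exp_iff_exists_int] at h
  obtain ⟨n, hn⟩ := h
  have e := congrArg Complex.im hn
  simp at e
  have hπ := pi_pos
  have a1 : (n : ℝ) < 0 := by nlinarith
  have a2 : (-1 : ℝ) < n := by nlinarith
  have a3 : n < 0 := by exact_mod_cast a1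
  have a4 : -1 < n := by exact_mod_cast a2
  omega

theorem ppw_disj (hpol0 : S_POL0) {P : Poly} {c : ℝ} (hok : P.Ok c) {s s' : ℕ} (hs : s < P.S)
    (hs' : s' < P.S) {a a' : ℝ} (ha : a ∈ Ioo 0 (P.L s)) (ha' : a' ∈ Ioo 0 (P.L s'))
    (h : P.V s + a * P.e s = P.V s' + a' * P.e s') : s = s' := by
  wlog hlt : s < s' generalizing s s' a a'
  · by_contra hne
    exact hne (this hs' hs ha' ha h.symm (by omega)).symm
  obtain ⟨t, ht, r, hr, e⟩ := ppw_open hpol0 hok hs ha
  obtain ⟨t', ht', r', hr', e'⟩ := ppw_open hpol0 hok hs' ha'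
  have b1 := ppw_mono hok (i := s + 1) (j := s') hlt hs'.le
  have b2 := ppw_mono hok (i := 0) (j := s) (Nat.zero_le _) hs.le
  have b3 := ppw_mono hok (i := s' + 1) (j := P.S) hs' le_rfl
  rw [hok.per] at b3
  exact (ppw_ex hr hr' (e.symm.trans (h.trans e')) (by linarith [ht.2, ht'.1])
    (by linarith [ht.1, ht'.2])).elim

theorem ppw_conj {e : ℂ} (he : ‖e‖ = 1) (V : ℂ) (a : ℝ) : conj e * (V + a * e - V) = a := by
  rw [add_sub_cancel_left, mul_left_comm, mul_comm _ e, Complex.mul_conj,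
    Complex.normSq_eq_norm_sq, he]
  simp

theorem t_ppw (hgt2 : S_GT2) (hgt3 : S_GT3) (hpol0 : S_POL0) : S_PPW := by
  intro P ρ c hok hρ
  have hc : (0 : ℝ) ≤ c / 2 := by linarith [hok.c_pos]
  have hD : Dep P (fun _ _ => 0) 0 0 := fun s _ =>
    ⟨fun _ => ⟨le_rfl, le_rfl⟩, fun _ _ => rfl, fun _ _ => by simp⟩
  have hG : Grv P (fun _ _ => 0) ρ := by
    refine ⟨hρ.1, fun s hs t ht a ha => ?_⟩
    rw [((hpol0 P c hok).2.2.1 ρ hρ).2.2 s hs t ht a ha]
    generalize (a : ℂ) * ex t = z
    simp only [cross, add_zero, Complex.mul_im, Complex.conj_re, Complex.conj_im, Complex.sub_re,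
      Complex.sub_im]
    constructor <;> intro h <;> linarith
  have hA : ∀ a : ℝ, Aff (fun _ => 0) a 0 := fun a => Eventually.of_forall fun _ => by simp
  refine ⟨hgt3 P ρ ρ c 0 0 0 _ hok hρ hc hD hG ⟨fun _ => by simp, fun _ _ => by simp⟩
    fun s _ => finite_empty.subset fun a ha => ha.2 0 (hA a), fun s hs a ha => ?_, ?_⟩
  · obtain ⟨t, h1, -, -, k, hk, h2⟩ :=
      (((hgt2 P ρ ρ c 0 0 _ hok hρ hc hD hG).2 s hs a ha).2 0 (hA a))
    refine ⟨k, hk, ?_⟩
    rw [← h1] at h2
    simpa [mul_comm (P.e s) a] using h2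
  · let os : ℕ → Set ℂ := fun s => {y | (conj (P.e s) * (y - P.V s)).im = 0 ∧
      0 < (conj (P.e s) * (y - P.V s)).re ∧ (conj (P.e s) * (y - P.V s)).re < P.L s}
    have mo : ∀ s, MeasurableSet (os s) := fun s => by
      have m : Measurable fun y => conj (P.e s) * (y - P.V s) := by fun_prop
      exact (measurableSet_eq_fun (Complex.measurable_im.comp m) measurable_const).inter
        ((measurableSet_lt measurable_const (Complex.measurable_re.comp m)).inter
          (measurableSet_lt (Complex.measurable_re.comp m) measurable_const))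
    let ind : ℂ → ℕ := fun y => ∑ s ∈ Finset.range P.S, (os s).indicator (fun _ => s) y
    have mi : Measurable ind :=
      Finset.measurable_sum _ fun s _ => measurable_const.indicator (mo s)
    have m1 : Measurable fun y => conj (P.e (ind y)) :=
      (measurable_from_top (f := fun s => conj (P.e s))).comp mi
    have m2 : Measurable fun y => P.V (ind y) := (measurable_from_top (f := P.V)).comp mi
    refine ⟨fun y => (ind y, (conj (P.e (ind y)) * (y - P.V (ind y))).re),
      mi.prodMk (Complex.measurable_re.comp (m1.mul (measurable_id.sub m2))), fun s hs a ha => ?_⟩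
    have hi : ind (P.V s + a * P.e s) = s := by
      simp only [ind]
      rw [Finset.sum_eq_single s (fun s' hs' hne => indicator_of_notMem (fun hm => hne ?_) _)
        (fun h => (h (Finset.mem_range.2 hs)).elim), indicator_of_mem]
      · simp only [os, mem_ofPred_eq, ppw_conj (hok.unit s hs)]
        exact ⟨Complex.ofReal_im a, ha⟩
      · have hs'' := Finset.mem_range.1 hs'
        refine ppw_disj hpol0 hok hs'' hs ⟨hm.2.1, hm.2.2⟩ ha ?_
        generalize P.V s + a * P.e s = y at hm ⊢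
        have e1 : (((conj (P.e s') * (y - P.V s')).re : ℝ) : ℂ) = conj (P.e s') * (y - P.V s') :=
          Complex.ext rfl (by rw [Complex.ofReal_im, hm.1])
        rw [e1, mul_right_comm, mul_comm _ (P.e s'), Complex.mul_conj, Complex.normSq_eq_norm_sq,
          hok.unit s' hs'']
        simp
    simp only [hi, ppw_conj (hok.unit s hs), Complex.ofReal_re]

end

end Pool.Agent.P.MP_6b977f_mp.EB
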