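import Pool.Agent.P.MP_6b977f_mp.EB.IfE

/-! Basic facts on piecewise smooth tables. -/

namespace Pool.Agent.P.MP_6b977f_mp.EB

open Real MeasureTheory Filter Topology Set Metric
open scoped ContDiff BoundedContinuousFunction ComplexConjugate Pointwise ENNReal

noncomputable section

theorem pwc_one (z : ℂ) (a b : ℝ) : {t ∈ Icc a b | ex t = z}.Finite := by
  rcases Set.eq_empty_or_nonempty {t ∈ Icc a b | ex t = z} with h | ⟨t₀, -, h0⟩
  · rw [h]; exact finite_empty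
  have hπ := Real.pi_pos
  refine ((Set.finite_Icc ⌈(a - t₀) / (2 * π)⌉ ⌊(b - t₀) / (2 * π)⌋).image
    fun m : ℤ => t₀ + m * (2 * π)).subset ?_
  rintro t ⟨ht, h1⟩
  obtain ⟨m, hm⟩ := Complex.exp_eq_exp_iff_exists_int.1 (h1.trans h0.symm)
  have e : t = t₀ + m * (2 * π) := by simpa using congrArg Complex.im hm
  refine ⟨m, ⟨?_, ?_⟩, e.symm⟩
  · rw [Int.ceil_le, div_le_iff₀ (by positivity)]; linarith [ht.1]
  · rw [Int.le_floor, le_div_iff₀ (by positivity)]; linarith [ht.2]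

theorem pwc_fin (Z : Finset ℂ) (a b : ℝ) : {t ∈ Icc a b | ex t ∈ Z}.Finite :=
  (Z.finite_toSet.biUnion fun z _ => pwc_one z a b).subset fun t ht =>
    mem_biUnion (x := ex t) ht.2 ⟨ht.1, rfl⟩

theorem pwc_arg (ρ : ℝ → ℝ) {f : ℝ → ℝ} (hf : Function.Periodic f (2 * π)) (t : ℝ) :
    f (bd ρ t).arg = f t := by
  rw [bd, Complex.arg_real_mul _ (Real.exp_pos _), ex, Complex.exp_mul_I,
    Complex.arg_cos_add_sin_mul_I_eq_toIocMod, toIocMod]
  exact hf.sub_zsmul_eq _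

theorem t_pwc (hlipz : S_LIPZ) (_htab : S_TAB) : S_PWC := by
  refine ⟨fun p => ⟨⟨p.1.1.continuous, p.2.1⟩, fun x => ?_, p.1.2.continuous.measurable,
    ⟨‖p.1.2‖, fun t => p.1.2.norm_coe_le_norm t⟩,
    fun t _ => ⟨p.2.2 t, p.1.2.continuous.continuousAt⟩⟩, fun ρ ρ' Z h => ⟨?_, fun t => ?_,
    pwc_fin Z⟩⟩
  · have h1 := (p.2.2 (x + 2 * π)).comp_add_const
    have h2 : (fun x => p.1.1 (x + 2 * π)) = p.1.1 := funext p.2.1
    rw [h2] at h1
    exact h1.unique (p.2.2 x)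
  · obtain ⟨K, hK⟩ := h.bdd
    refine ⟨K, fun t t' => hlipz.1 ρ (min t t') (max t t') K _ (pwc_fin Z (min t t') (max t t'))
      h.cp.1.continuousOn (fun s hs hs' => ⟨ρ' s, (h.der s fun h1 => hs' ?_).1, hK s⟩)
      t ⟨min_le_left _ _, le_max_left _ _⟩ t' ⟨min_le_right _ _, le_max_right _ _⟩⟩
    exact ⟨Ioo_subset_Icc_self hs, h1⟩
  · have e : tanf ρ' (bd ρ t) = (ρ' t + Complex.I) * bd ρ t := by rw [tanf, pwc_arg ρ h.per]
    refine ⟨e, ?_, fun ht => ?_⟩
    · rw [e]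
      refine mul_ne_zero (fun h1 => ?_) (mul_ne_zero ?_ (Complex.exp_ne_zero _))
      · simpa using congrArg Complex.im h1
      · exact_mod_cast (Real.exp_pos _).ne'
    · have h1 := (h.der t ht).1.exp.ofReal_comp
      have h2 : HasDerivAt (fun s : ℝ => (s : ℂ) * Complex.I) Complex.I t := by
        simpa using (Complex.ofRealCLM.hasDerivAt (x := t)).mul_const Complex.I
      refine HasDerivAt.congr_deriv (h1.mul h2.cexp) ?_
      rw [e, bd, ex]
      push_cast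
      ring

end

end Pool.Agent.P.MP_6b977f_mp.EB
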