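import Pool.Agent.P.MP_6b977f_mp.EB.IfE
import Pool.Agent.P.MP_593b7e_an.Compact

/-! Rigidity of almost invariant functions for the random grooves. -/

namespace Pool.Agent.P.MP_6b977f_mp.EB

open Real MeasureTheory Filter Topology Set Metric
open scoped ContDiff BoundedContinuousFunction ComplexConjugate Pointwise ENNReal

theorem rig_meas (s : ℕ) : MeasurableSet {x : XX | x.1 = s} :=
  measurable_fst (measurableSet_singleton s)

theorem rig_restrict (P : Poly) {s : ℕ} (hs : s < P.S) :
    P.mP.restrict {x | x.1 = s} =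
      ((volume.restrict (Ioo 0 (P.L s))).prod sm).map (Prod.mk s) := by
  ext A hA
  rw [Measure.restrict_apply hA, Poly.mP, Measure.coe_finsetSum, Finset.sum_apply,
    Finset.sum_eq_single_of_mem s (Finset.mem_range.2 hs)]
  · rw [Measure.map_apply measurable_prodMk_left (hA.inter (rig_meas s)),
      Measure.map_apply measurable_prodMk_left hA]
    congr 1
    ext y
    simp
  · intro b _ hb
    rw [Measure.map_apply measurable_prodMk_left (hA.inter (rig_meas s))]
    convert measure_empty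
    · ext y
      simp [hb]
    · infer_instance

theorem rig_side (P : Poly) {s : ℕ} (hs : s < P.S) (F : XX → ℝ) :
    ∫ y, F (s, y) ∂(volume.restrict (Ioo 0 (P.L s))).prod sm = ∫ x in {x | x.1 = s}, F x ∂P.mP := by
  rw [rig_restrict P hs, (measurableEmbedding_prodMk_left s).integral_map]

theorem rig_unit (F : ℝ → ℝ) : ∫ u in Ioo (0 : ℝ) 1, F u = ∫ u : unitInterval, F u := by
  rw [← integral_Icc_eq_integral_Ioo]
  exact (unitInterval.measurePreserving_coe.integral_comp
    (MeasurableEmbedding.subtype_coe measurableSet_Icc) F).symm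

theorem rig_smf : IsFiniteMeasure sm := by
  refine isFiniteMeasure_withDensity (ne_of_lt ?_)
  calc _ ≤ ∫⁻ _ in Ioo 0 π, 1 := lintegral_mono fun θ => ENNReal.ofReal_le_one.2 (sin_le_one θ)
    _ < ⊤ := by simp

theorem rig_int {X : Type} [MeasurableSpace X] {μ : Measure X} [IsFiniteMeasure μ] {F : X → ℝ}
    (h : Measurable F) {K : ℝ} (hK : ∀ x, |F x| ≤ K) : Integrable F μ :=
  Integrable.of_bound h.aestronglyMeasurable K (ae_of_all _ hK)

theorem rig_two {X : Type} [MeasurableSpace X] {μ : Measure X} [IsFiniteMeasure μ] {F : X → ℝ}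
    (h : Measurable F) {K : ℝ} (hK : ∀ x, |F x| ≤ K) : MemLp F 2 μ :=
  MemLp.of_bound h.aestronglyMeasurable K (ae_of_all _ hK)

theorem rig_avg {F : Th → ℝ} {K : ℝ} (hK : ∀ θ, |F θ| ≤ K) : |∫ θ, F θ| ≤ K := by
  simpa using norm_integral_le_of_norm_le_const (μ := (volume : Measure Th)) (f := F) (C := K)
    (ae_of_all _ hK)

/-- The limit is constant on almost every fibre. -/
theorem rig_fib (hap1 : S_AP1) (hap2 : S_AP2) {P : Poly} {c α₀ M : ℝ} {N : ℕ → ℕ}
    {gn rn : ℕ → XX → ℝ} {g r : XX → ℝ} (hP : P.Ok c) [IsFiniteMeasure P.mP] (h0 : 0 < α₀)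
    (h1 : α₀ ≤ π / 16) (hN : Tendsto N atTop atTop)
    (hg : ∀ n, Measurable (gn n) ∧ ∀ x, |gn n x| ≤ M)
    (hr : ∀ n, Measurable (rn n) ∧ ∀ x, |rn n x| ≤ M)
    (hG : ∀ n, Measurable fun y : Th × XX => Gam P (N n) α₀ y.1 y.2)
    (mg : Measurable g) (mr : Measurable r) (ig : Integrable g P.mP) (ir : Integrable r P.mP)
    (hw : ∀ χ, BM χ → Tendsto (fun n => ∫ x, gn n x * χ x ∂P.mP) atTop (𝓝 (∫ x, g x * χ x ∂P.mP)) ∧
      Tendsto (fun n => ∫ x, rn n x * χ x ∂P.mP) atTop (𝓝 (∫ x, r x * χ x ∂P.mP)))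
    (ha : ∀ᵐ a : unitInterval, Tendsto (fun n => ∫ u : unitInterval,
      ∫ x, |gn n (Gam P (N n) α₀ (u, a) x) - rn n x| ∂P.mP) atTop (𝓝 0)) :
    ∃ C : ℕ × ℝ → ℝ, Measurable C ∧ ∀ᵐ x ∂P.mP, g x = C (x.1, x.2.1) ∧ r x = C (x.1, x.2.1) := by
  classical
  have := rig_smf
  refine ⟨fun y => (sm.real univ)⁻¹ * ∫ θ, g (y.1, y.2, θ) ∂sm, ?_, ?_⟩
  · refine measurable_const.mul ?_
    exact (StronglyMeasurable.integral_prod_right (f := fun (y : ℕ × ℝ) θ => g (y.1, y.2, θ))
      (Measurable.stronglyMeasurable (by fun_prop))).measurable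
  rw [Poly.mP, ae_finsetSum_measure_iff]
  intro s hs
  have hs' := Finset.mem_range.1 hs
  rw [(measurableEmbedding_prodMk_left s).ae_map_iff]
  set ms := (volume.restrict (Ioo 0 (P.L s))).prod sm with hms
  have hi : ∀ {F : XX → ℝ}, Integrable F P.mP → Integrable (fun y => F (s, y)) ms := fun hF => by
    have h2 := hF.restrict (s := {x | x.1 = s})
    rw [rig_restrict P hs'] at h2
    exact (measurableEmbedding_prodMk_left s).integrable_map_iff.1 h2
  have key : ∀ᵐ a : unitInterval, ∀ᵐ y ∂ms,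
      (2 * (α₀ * (1 + a)) < y.2 → g (s, y.1, y.2 - 2 * (α₀ * (1 + a))) = r (s, y)) ∧
      (y.2 < π - 2 * (α₀ * (1 + a)) → g (s, y.1, y.2 + 2 * (α₀ * (1 + a))) = r (s, y)) := by
    filter_upwards [ha] with a ha
    have a0 := a.2.1
    have a1 := a.2.2
    refine hap1 (P.L s) (α₀ * (1 + a)) M N (fun n y => gn n (s, y)) (fun n y => rn n (s, y))
      (fun y => g (s, y)) (fun y => r (s, y)) (hP.len s hs') (by positivity) (by nlinarith) hN
      (fun n => ⟨(hg n).1.comp measurable_prodMk_left, (hr n).1.comp measurable_prodMk_left,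
        fun y => ⟨(hg n).2 _, (hr n).2 _⟩⟩) (mg.comp measurable_prodMk_left)
      (mr.comp measurable_prodMk_left) (hi ig) (hi ir) (fun χ hχ => ?_) ?_
    · obtain ⟨K, hK⟩ := hχ.2
      have e : ∀ F : XX → ℝ, ∫ y, F (s, y) * χ y ∂ms =
          ∫ x, F x * ({x : XX | x.1 = s}.indicator (fun x => χ x.2) x) ∂P.mP := fun F => by
        rw [hms, rig_side P hs' fun x => F x * χ x.2, ← integral_indicator (rig_meas s)]
        congr 1
        ext x
        by_cases hx : x ∈ {x : XX | x.1 = s} <;> simp [hx]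
      simp only [← hms, e]
      refine hw _ ⟨(hχ.1.comp measurable_snd).indicator (rig_meas s), K, fun x => ?_⟩
      by_cases hx : x ∈ {x : XX | x.1 = s}
      · simpa [hx] using hK x.2
      · simpa [hx] using (abs_nonneg _).trans (hK x.2)
    · refine squeeze_zero (fun n => integral_nonneg fun u => integral_nonneg fun y =>
        abs_nonneg _) (fun n => ?_) ha
      rw [rig_unit]
      have mΦ : Measurable fun y : unitInterval × XX =>
          |gn n (Gam P (N n) α₀ (y.1, a) y.2) - rn n y.2| :=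
        (((hg n).1.comp ((hG n).comp (f := fun y : unitInterval × XX => ((y.1, a), y.2))
          (by fun_prop))).sub ((hr n).1.comp measurable_snd)).abs
      have bΦ : ∀ (u : unitInterval) x, |(|gn n (Gam P (N n) α₀ (u, a) x) - rn n x|)| ≤ M + M :=
        fun u x => by
          rw [abs_abs]
          exact (abs_sub _ _).trans (add_le_add ((hg n).2 _) ((hr n).2 _))
      refine integral_mono_of_nonneg (ae_of_all _ fun u => integral_nonneg fun y => abs_nonneg _)
        (rig_int (μ := volume.prod P.mP) mΦ fun y => bΦ y.1 y.2).integral_prod_left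
        (ae_of_all _ fun u => ?_)
      have := rig_side P hs' fun x => |gn n (Gam P (N n) α₀ (u, a) x) - rn n x|
      refine le_of_eq_of_le this (setIntegral_le_integral
        (rig_int (mΦ.comp measurable_prodMk_left) (bΦ u)) (ae_of_all _ fun x => abs_nonneg _))
  have ms1 : MeasurableSet {z : unitInterval × ℝ × ℝ |
      (2 * (α₀ * (1 + z.1)) < z.2.2 → g (s, z.2.1, z.2.2 - 2 * (α₀ * (1 + z.1))) = r (s, z.2)) ∧
      (z.2.2 < π - 2 * (α₀ * (1 + z.1)) →
        g (s, z.2.1, z.2.2 + 2 * (α₀ * (1 + z.1))) = r (s, z.2))} := by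
    refine MeasurableSet.inter (MeasurableSet.imp (measurableSet_lt (by fun_prop) (by fun_prop))
      (measurableSet_eq_fun (mg.comp (by fun_prop)) (mr.comp (by fun_prop))))
      (MeasurableSet.imp (measurableSet_lt (by fun_prop) (by fun_prop))
      (measurableSet_eq_fun (mg.comp (by fun_prop)) (mr.comp (by fun_prop))))
  have k2 : ∀ᵐ σ ∂volume.restrict (Ioo 0 (P.L s)), ∀ᵐ a : unitInterval, ∀ᵐ θ ∂sm,
      (2 * (α₀ * (1 + a)) < θ → g (s, σ, θ - 2 * (α₀ * (1 + a))) = r (s, σ, θ)) ∧
      (θ < π - 2 * (α₀ * (1 + a)) → g (s, σ, θ + 2 * (α₀ * (1 + a))) = r (s, σ, θ)) := by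
    have k3 := Measure.ae_ae_of_ae_prod ((Measure.ae_ae_comm ms1).1 key)
    filter_upwards [k3] with σ hσ
    refine (Measure.ae_ae_comm ?_).2 hσ
    exact (show Measurable fun z : unitInterval × ℝ => ((z.1, σ, z.2) : unitInterval × ℝ × ℝ) by
      fun_prop) ms1
  have mC : Measurable fun σ : ℝ => (sm.real univ)⁻¹ * ∫ θ, g (s, σ, θ) ∂sm :=
    measurable_const.mul (StronglyMeasurable.integral_prod_right (f := fun (σ : ℝ) θ => g (s, σ, θ))
      (Measurable.stronglyMeasurable (by fun_prop))).measurable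
  refine (Measure.ae_prod_iff_ae_ae ?_).2 ?_
  · exact (measurableSet_eq_fun (mg.comp measurable_prodMk_left) (mC.comp measurable_fst)).inter
      (measurableSet_eq_fun (mr.comp measurable_prodMk_left) (mC.comp measurable_fst))
  filter_upwards [k2] with σ hσ
  obtain ⟨c₀, hc⟩ := hap2 (fun θ => g (s, σ, θ)) (fun θ => r (s, σ, θ)) α₀ (mg.comp (by fun_prop))
    (mr.comp (by fun_prop)) h0 h1 hσ
  by_cases hz : sm = 0
  · simp [hz]
  have e : (sm.real univ)⁻¹ * ∫ θ, g (s, σ, θ) ∂sm = c₀ := by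
    rw [integral_congr_ae (g := fun _ => c₀) (hc.mono fun θ h => h.1), integral_const, smul_eq_mul,
      ← mul_assoc, inv_mul_cancel₀, one_mul]
    have : NeZero sm := ⟨hz⟩
    exact (measureReal_univ_pos (μ := sm)).ne'
  filter_upwards [hc] with θ h
  simp only [e]
  exact h

theorem rig_abs {ε : ℝ} (h : 0 < ε) (a : ℝ) : |a| ≤ ε + a ^ 2 / ε := by
  rw [← sq_abs, ← sub_le_iff_le_add', le_div_iff₀ h]
  nlinarith [sq_nonneg (|a| - ε), abs_nonneg a]

theorem rig_l1 {m : Measure XX} [IsFiniteMeasure m] {Φ : ℕ → XX → Th → ℝ} {K : ℝ}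
    (hm : ∀ n, Measurable (Function.uncurry (Φ n))) (hb : ∀ n x θ, |Φ n x θ| ≤ K)
    (h : Tendsto (fun n => ∫ x, (∫ θ, Φ n x θ ^ 2) ∂m) atTop (𝓝 0)) :
    Tendsto (fun n => ∫ x, (∫ θ, |Φ n x θ|) ∂m) atTop (𝓝 0) := by
  have b2 : ∀ n x θ, |Φ n x θ ^ 2| ≤ K ^ 2 := fun n x θ => by
    rw [abs_pow]; exact pow_le_pow_left₀ (abs_nonneg _) (hb n x θ) 2
  have key : ∀ ε > 0, ∀ n, ∫ x, (∫ θ, |Φ n x θ|) ∂m ≤
      ε * m.real univ + (∫ x, (∫ θ, Φ n x θ ^ 2) ∂m) / ε := fun ε hε n => by
    have i2 : Integrable (fun y : XX × Th => Φ n y.1 y.2 ^ 2) (m.prod volume) :=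
      rig_int ((hm n).pow_const 2) fun y => b2 n y.1 y.2
    have i1 : Integrable (fun y : XX × Th => |Φ n y.1 y.2|) (m.prod volume) :=
      rig_int (hm n).abs fun y => by simpa using hb n y.1 y.2
    rw [← integral_prod _ i1, ← integral_prod _ i2]
    calc _ ≤ ∫ y : XX × Th, (ε + Φ n y.1 y.2 ^ 2 / ε) ∂m.prod volume :=
          integral_mono i1 ((integrable_const _).add (i2.div_const ε)) fun y => rig_abs hε _
      _ = _ := by
          rw [integral_add (integrable_const _) (i2.div_const ε), integral_div, integral_const,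
            ← univ_prod_univ, measureReal_prod_prod]
          simp [mul_comm]
  rw [Metric.tendsto_atTop] at h ⊢
  intro ε hε
  have hm0 : 0 ≤ m.real univ := measureReal_nonneg
  have he : 0 < ε / (2 * (m.real univ + 1)) := by positivity
  obtain ⟨n₀, hn⟩ := h (ε / 2 * (ε / (2 * (m.real univ + 1)))) (by positivity)
  refine ⟨n₀, fun n hn' => ?_⟩
  have h1 := hn n hn'
  rw [Real.dist_eq, sub_zero] at h1 ⊢
  rw [abs_of_nonneg (integral_nonneg fun x => integral_nonneg fun θ => abs_nonneg _)]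
  refine (key _ he n).trans_lt ?_
  have h2 : (∫ x, (∫ θ, Φ n x θ ^ 2) ∂m) / (ε / (2 * (m.real univ + 1))) < ε / 2 := by
    rw [div_lt_iff₀ he]; exact (le_abs_self _).trans_lt h1
  have h3 : ε / (2 * (m.real univ + 1)) * m.real univ ≤ ε / 2 := by
    rw [div_mul_eq_mul_div, div_le_div_iff₀ (by positivity) (by positivity)]
    nlinarith
  linarith

theorem t_rig (hap1 : S_AP1) (hap2 : S_AP2) (hap4 : S_AP4) (hgmm : S_GMM) (hpbm : S_PBM) :
    S_RIG := by
  intro P ρ c α₀ M T N gn f hP hρ hT h0 h1 hN hg hδ hf hf0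
  have := (hpbm P ρ c hP hρ).1
  have mT := hT.1.measurable
  have hG : ∀ n, Measurable fun y : Th × XX => Gam P (N n) α₀ y.1 y.2 := fun n =>
    (hgmm.2 P (N n) α₀).1
  have mG : ∀ n, Measurable fun y : XX × Th => gn n (Gam P (N n) α₀ y.2 y.1) := fun n =>
    (hg n).1.comp ((hG n).comp measurable_swap)
  let rn : ℕ → XX → ℝ := fun n x => ∫ θ, gn n (Gam P (N n) α₀ θ x)
  have hr : ∀ n, Measurable (rn n) ∧ ∀ x, |rn n x| ≤ M := fun n =>
    ⟨(StronglyMeasurable.integral_prod_right (f := fun x θ => gn n (Gam P (N n) α₀ θ x))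
      (mG n).stronglyMeasurable).measurable, fun x => rig_avg fun θ => (hg n).2 _⟩
  have b1 : ∀ n x y, |gn n x - gn n y| ≤ M + M := fun n x y =>
    (abs_sub _ _).trans (add_le_add ((hg n).2 _) ((hg n).2 _))
  have b2 : ∀ n x y, |gn n x - rn n y| ≤ M + M := fun n x y =>
    (abs_sub _ _).trans (add_le_add ((hg n).2 _) ((hr n).2 _))
  have mG' : ∀ n, Measurable fun y : XX × Th => gn n (Gam P (N n) α₀ y.2 (T y.1)) := fun n =>
    (mG n).comp (f := fun y : XX × Th => (T y.1, y.2)) (by fun_prop)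
  have mE : ∀ n, Measurable fun y : XX × Th => gn n (Gam P (N n) α₀ y.2 (T y.1)) - gn n y.1 :=
    fun n => (mG' n).sub ((hg n).1.comp measurable_fst)
  have hE := rig_l1 (m := P.mP) (Φ := fun n x θ => gn n (Gam P (N n) α₀ θ (T x)) - gn n x)
    mE (fun n x θ => b1 n _ _) hδ
  have iE : ∀ n, Integrable (fun x => ∫ θ, |gn n (Gam P (N n) α₀ θ (T x)) - gn n x|) P.mP :=
    fun n => (rig_int (μ := P.mP.prod volume) (mE n).abs
      (K := M + M) fun y => by simpa using b1 n _ _).integral_prod_left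
  have iθ : ∀ n x, Integrable fun θ => gn n (Gam P (N n) α₀ θ x) := fun n x =>
    rig_int ((mG n).comp measurable_prodMk_left) fun θ => (hg n).2 _
  have p1 : ∀ n x, |rn n (T x) - gn n x| ≤ ∫ θ, |gn n (Gam P (N n) α₀ θ (T x)) - gn n x| :=
    fun n x => by
      refine le_of_eq_of_le ?_ (abs_integral_le_integral_abs)
      rw [integral_sub (iθ n _) (integrable_const _)]
      simp [rn]
  have mD : ∀ n, Measurable fun y : XX × Th => |gn n (Gam P (N n) α₀ y.2 y.1) - rn n y.1| :=
    fun n => ((mG n).sub ((hr n).1.comp measurable_fst)).abs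
  have iD : ∀ n, Integrable (fun y : XX × Th => |gn n (Gam P (N n) α₀ y.2 y.1) - rn n y.1|)
      (P.mP.prod volume) := fun n => rig_int (mD n) (K := M + M) fun y => by simpa using b2 n _ _
  -- the averaged defect as a function of the angle parameter
  let Δ' : ℕ → unitInterval → ℝ := fun n a => ∫ u : unitInterval,
    ∫ x, |gn n (Gam P (N n) α₀ (u, a) x) - rn n x| ∂P.mP
  have iΔ : ∀ n, Integrable (fun θ : Th => ∫ x, |gn n (Gam P (N n) α₀ θ x) - rn n x| ∂P.mP)
      (volume.prod volume) := fun n => (iD n).integral_prod_right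
  have hΔ : Tendsto (fun n => ∫ a, Δ' n a) atTop (𝓝 0) := by
    refine squeeze_zero (fun n => integral_nonneg fun a => integral_nonneg fun u =>
      integral_nonneg fun x => abs_nonneg _) (fun n => ?_) (by simpa using hE.add hE)
    have e1 : ∫ a, Δ' n a = ∫ x, (∫ θ, |gn n (Gam P (N n) α₀ θ x) - rn n x|) ∂P.mP := by
      rw [integral_integral_swap (f := fun x θ => |gn n (Gam P (N n) α₀ θ x) - rn n x|) (iD n)]
      exact (integral_prod_symm _ (iΔ n)).symm
    have mI : Measurable fun x => ∫ θ, |gn n (Gam P (N n) α₀ θ x) - rn n x| :=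
      (StronglyMeasurable.integral_prod_right
        (f := fun x θ => |gn n (Gam P (N n) α₀ θ x) - rn n x|)
        (mD n).stronglyMeasurable).measurable
    rw [e1, ← hT.1.map_eq, integral_map mT.aemeasurable mI.aestronglyMeasurable, hT.1.map_eq,
      ← integral_add (iE n) (iE n)]
    refine integral_mono_of_nonneg (ae_of_all _ fun x => integral_nonneg fun θ => abs_nonneg _)
      ((iE n).add (iE n)) (ae_of_all _ fun x => ?_)
    have i3 : Integrable fun θ => |gn n (Gam P (N n) α₀ θ (T x)) - gn n x| :=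
      ((iθ n _).sub (integrable_const _)).abs
    calc _ ≤ ∫ θ, (|gn n (Gam P (N n) α₀ θ (T x)) - gn n x| + |rn n (T x) - gn n x|) :=
          integral_mono ((iθ n _).sub (integrable_const _)).abs (i3.add (integrable_const _))
            fun θ => by
              have := abs_sub_le (gn n (Gam P (N n) α₀ θ (T x))) (gn n x) (rn n (T x))
              rwa [abs_sub_comm (gn n x)] at this
      _ ≤ _ := by
          rw [integral_add i3 (integrable_const _)]
          simpa using p1 n x
  refine tendsto_of_subseq_tendsto fun ns hns => ?_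
  have hm : TendstoInMeasure volume (fun n => Δ' (ns n)) atTop 0 := by
    refine tendstoInMeasure_of_tendsto_eLpNorm one_ne_zero
      (fun n => (iΔ _).integral_prod_right.1) aestronglyMeasurable_const ?_
    have := ENNReal.tendsto_ofReal (hΔ.comp hns)
    rw [ENNReal.ofReal_zero] at this
    refine this.congr fun n => ?_
    rw [sub_zero, eLpNorm_one_eq_lintegral_enorm, ← ofReal_integral_norm_eq_lintegral_enorm
      (iΔ _).integral_prod_right]
    congr 1
    refine integral_congr_ae (ae_of_all _ fun a => ?_)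
    exact (abs_of_nonneg (integral_nonneg fun u => integral_nonneg fun x => abs_nonneg _)).symm
  obtain ⟨s1, hs1, ha⟩ := hm.exists_seq_tendsto_ae
  have mF : ∀ n, Measurable fun x => ((gn n x : ℂ) + (rn n x : ℂ) * Complex.I) := fun n => by
    have := (hg n).1
    have := (hr n).1
    fun_prop
  have bF : ∀ n x, ‖((gn n x : ℂ) + (rn n x : ℂ) * Complex.I)‖ ≤ M + M := fun n x =>
    (norm_add_le _ _).trans (by simpa using add_le_add ((hg n).2 x) ((hr n).2 x))
  have : MeasurableSpace.CountablyGenerated XX := inferInstance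
  have : MeasureTheory.IsSeparable P.mP := isSeparable_of_sigmaFinite _
  obtain ⟨s2, hs2, G, hG2, hw⟩ := MP_593b7e_an.weak_subseq (μ := P.mP)
    (f := fun n x => ((gn (ns (s1 n)) x : ℂ) + (rn (ns (s1 n)) x : ℂ) * Complex.I))
    (fun n => MemLp.of_bound (mF _).aestronglyMeasurable (M + M) (ae_of_all _ (bF _)))
    (C := (M + M) ^ 2 * P.mP.real univ) fun n => by
      refine (Real.le_norm_self _).trans
        (norm_integral_le_of_norm_le_const (ae_of_all _ fun x => ?_))
      simpa using pow_le_pow_left₀ (norm_nonneg _) (bF _ x) 2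
  refine ⟨fun n => s1 (s2 n), ?_⟩
  set k : ℕ → ℕ := fun n => ns (s1 (s2 n)) with hk
  have hk' : Tendsto k atTop atTop := hns.comp (hs1.comp hs2).tendsto_atTop
  have hGm := hG2.1.ae_eq_mk
  have hG3 : MemLp (hG2.1.mk G) 2 P.mP := hG2.ae_eq hGm
  set g : XX → ℝ := fun x => (hG2.1.mk G x).re with hgd
  set r : XX → ℝ := fun x => (hG2.1.mk G x).im with hrd
  have g2 : MemLp g 2 P.mP := hG3.re
  have r2 : MemLp r 2 P.mP := hG3.im
  have mg : Measurable g := Complex.measurable_re.comp hG2.1.measurable_mk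
  have mr : Measurable r := Complex.measurable_im.comp hG2.1.measurable_mk
  have hw2 : ∀ χ, MemLp χ 2 P.mP →
      Tendsto (fun n => ∫ x, gn (k n) x * χ x ∂P.mP) atTop (𝓝 (∫ x, g x * χ x ∂P.mP)) ∧
      Tendsto (fun n => ∫ x, rn (k n) x * χ x ∂P.mP) atTop (𝓝 (∫ x, r x * χ x ∂P.mP)) := by
    intro χ hχ
    have a1 := hw (fun x => (χ x : ℂ)) hχ.ofReal
    have a2 := hw (fun x => Complex.I * (χ x : ℂ)) (hχ.ofReal.const_mul _)
    constructor
    · convert a1 using 2
      · congr 1; ext x; simp [mul_comm, k]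
      · refine integral_congr_ae (hGm.mono fun x hx => ?_)
        simp [hgd, hx, mul_comm]
    · convert a2 using 2
      · congr 1; ext x; simp [mul_comm, k]
      · refine integral_congr_ae (hGm.mono fun x hx => ?_)
        simp [hrd, hx, mul_comm]
  obtain ⟨C, mC, hC⟩ := rig_fib hap1 hap2 (N := fun n => N (k n)) (gn := fun n => gn (k n))
    (rn := fun n => rn (k n)) hP h0 h1 (hN.comp hk') (fun n => hg _) (fun n => hr _)
    (fun n => hG _) mg mr (g2.integrable one_le_two) (r2.integrable one_le_two)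
    (fun χ hχ => hw2 χ (rig_two hχ.1 hχ.2.choose_spec))
    (ha.mono fun a h => h.comp hs2.tendsto_atTop)
  have gT : MemLp (fun x => g (T x)) 2 P.mP := g2.comp_measurePreserving hT.1
  have cT : ∀ F : XX → ℝ, Measurable F → ∫ x, F (T x) ∂P.mP = ∫ x, F x ∂P.mP := fun F hF => by
    rw [← integral_map mT.aemeasurable hF.aestronglyMeasurable, hT.1.map_eq]
  -- invariance of the limit
  have inv : ∫ x, g x * g (T x) ∂P.mP = ∫ x, g x * g x ∂P.mP := by
    have e2 : ∫ x, r x * g x ∂P.mP = ∫ x, g x * g x ∂P.mP :=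
      integral_congr_ae (hC.mono fun x h => by simp only [h.1, h.2])
    refine tendsto_nhds_unique (hw2 _ gT).1 ?_
    have d0 : Tendsto (fun n => ∫ x, (gn (k n) x - rn (k n) (T x)) * g (T x) ∂P.mP) atTop (𝓝 0) := by
      have q0 : Tendsto (fun n => √((M + M) * ∫ x, (∫ θ, |gn n (Gam P (N n) α₀ θ (T x)) - gn n x|)
          ∂P.mP) * √(∫ x, ‖g (T x)‖ ^ 2 ∂P.mP)) atTop (𝓝 0) := by
        simpa only [mul_zero, Real.sqrt_zero, zero_mul] using
          ((hE.const_mul (M + M)).sqrt).mul_const √(∫ x, ‖g (T x)‖ ^ 2 ∂P.mP)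
      refine squeeze_zero_norm (fun n => ?_) (q0.comp hk')
      have m2 : MemLp (fun x => gn (k n) x - rn (k n) (T x)) 2 P.mP :=
        rig_two ((hg _).1.sub ((hr _).1.comp mT)) fun x => b2 _ _ _
      have := MP_593b7e_an.abs_integral_inner_le m2 gT
      simp only [RCLike.inner_apply, conj_trivial] at this
      refine le_trans (le_of_eq ?_) (this.trans ?_)
      · simp only [Real.norm_eq_abs, mul_comm]
      · refine mul_le_mul_of_nonneg_right (Real.sqrt_le_sqrt ?_) (Real.sqrt_nonneg _)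
        rw [← integral_const_mul]
        refine integral_mono_of_nonneg (ae_of_all _ fun x => by positivity)
          ((iE _).const_mul _) (ae_of_all _ fun x => ?_)
        have q1 := p1 (k n) x
        rw [abs_sub_comm] at q1
        simp only [Real.norm_eq_abs, sq]
        exact mul_le_mul (b2 _ _ _) q1 (abs_nonneg _) ((abs_nonneg _).trans (b2 (k n) x x))
    have := d0.add (hw2 _ g2).2
    rw [zero_add, e2] at this
    refine this.congr fun n => ?_
    have j1 : Integrable (fun x => gn (k n) x * g (T x)) P.mP :=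
      (rig_two (hg _).1 (hg _).2).integrable_mul gT
    have j2 : Integrable (fun x => rn (k n) (T x) * g (T x)) P.mP :=
      (rig_two ((hr _).1.comp mT) fun x => (hr _).2 _).integrable_mul gT
    rw [← cT (fun x => rn (k n) x * g x) ((hr _).1.mul mg)]
    simp only [sub_mul]
    rw [integral_sub j1 j2, sub_add_cancel]
  have z : (fun x => (g (T x) - g x) ^ 2) =ᵐ[P.mP] 0 := by
    refine (integral_eq_zero_iff_of_nonneg (fun x => sq_nonneg _)
      (gT.sub g2).integrable_sq).1 ?_
    have j1 : Integrable (fun x => g (T x) * g (T x)) P.mP := gT.integrable_mul gT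
    have j2 : Integrable (fun x => g x * g (T x)) P.mP := g2.integrable_mul gT
    have j3 : Integrable (fun x => g x * g x) P.mP := g2.integrable_mul g2
    have e : ∀ x, (g (T x) - g x) ^ 2 = g (T x) * g (T x) - 2 * (g x * g (T x)) + g x * g x :=
      fun x => by ring
    have j4 : Integrable (fun x => g (T x) * g (T x) - 2 * (g x * g (T x))) P.mP :=
      j1.sub (j2.const_mul 2)
    simp only [Pi.sub_apply, e]
    rw [integral_add j4 j3, integral_sub j1 (j2.const_mul 2),
      integral_const_mul, inv, cT (fun x => g x * g x) (mg.mul mg)]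
    ring
  obtain ⟨c₀, hc⟩ := hap4 P ρ c T C hP hρ hT mC (by
    filter_upwards [z, hC, hT.1.quasiMeasurePreserving.ae hC] with x h1 h2 h3
    rw [← h2.1, ← h3.1]
    simpa [sub_eq_zero] using h1)
  have := (hw2 f (rig_two hf.1 hf.2.choose_spec)).1
  rw [integral_congr_ae (g := fun x => c₀ * f x) (by
    filter_upwards [hC, hc] with x h1 h2
    rw [h1.1, h2]), integral_const_mul, hf0, mul_zero] at this
  simpa only [mul_comm] using this

end Pool.Agent.P.MP_6b977f_mp.EB
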