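import Pool.Agent.P.MP_6b977f_mp.EB.IfE

/-! The formula of Santaló. -/

namespace Pool.Agent.P.MP_6b977f_mp.EB

open Real MeasureTheory Filter Topology Set Metric
open scoped ContDiff BoundedContinuousFunction ComplexConjugate Pointwise ENNReal

noncomputable section

theorem t_san (hpar : S_PAR) (hbm : S_BM) (htp : S_TP) (htab : S_TAB) : S_SAN := by
  intro ρ ρ' Z hpw
  obtain ⟨⟨fcm, -, hv, -⟩, hbm⟩ := hbm
  obtain ⟨fbm, -, -, hG, -⟩ := hbm ρ ρ' Z hpw
  have ht := htab ρ hpw.cp
  obtain ⟨mtp, tp0, -⟩ := htp (table ρ) ht.1 ht.2.1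
  let S : Set ((ℂ × ℂ) × ℝ) := {y | 0 < y.2 ∧ y.2 < tp (table ρ) y.1.1 y.1.2}
  have mS : MeasurableSet S := (measurableSet_lt measurable_const measurable_snd).inter
    (measurableSet_lt measurable_snd (mtp.comp measurable_fst))
  let Φ : (ℂ × ℂ) × ℝ → ℂ × ℂ := fun y => (y.1.1 + y.2 * y.1.2, y.1.2)
  have mΦ : Measurable Φ := by fun_prop
  have e1 : ∀ (F : ℂ × ℂ → ℝ≥0∞) (x : ℂ × ℂ),
      ∫⁻ t in Ioo 0 (tp (table ρ) x.1 x.2), F (x.1 + t * x.2, x.2) =
        ∫⁻ t, S.indicator (fun y => F (Φ y)) (x, t) := fun F x => by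
    rw [← lintegral_indicator measurableSet_Ioo]
    rfl
  have h1 : ∀ F : ℂ × ℂ → ℝ≥0∞, Measurable F → ∫⁻ x, F x ∂liou (table ρ) =
      ∫⁻ x, ∫⁻ t in Ioo 0 (tp (table ρ) x.1 x.2), F (x.1 + t * x.2, x.2) ∂volume ∂bm ρ ρ' := by
    intro F hF
    have mG : Measurable fun x : ℂ × ℂ =>
        ∫⁻ t in Ioo 0 (tp (table ρ) x.1 x.2), F (x.1 + t * x.2, x.2) := by
      simp only [e1]
      exact ((hF.comp mΦ).indicator mS).lintegral_prod_right'
    have mb : Measurable (bd ρ) := by
      have := hpw.cp.1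
      exact Continuous.measurable (by unfold bd ex; fun_prop)
    have mt : Measurable fun φ => tanf ρ' (bd ρ φ) :=
      ((Complex.measurable_ofReal.comp (hpw.meas.comp (Complex.measurable_arg.comp mb))).add_const
        _).mul mb
    have mc : Measurable fun y : ℝ × ℂ => cross (tanf ρ' (bd ρ y.1)) y.2 := by
      have : Measurable fun y : ℝ × ℂ => tanf ρ' (bd ρ y.1) := mt.comp measurable_fst
      exact ((Complex.measurable_re.comp this).mul (Complex.measurable_im.comp measurable_snd)).sub
        ((Complex.measurable_im.comp this).mul (Complex.measurable_re.comp measurable_snd))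
    have m2 := mc.ennreal_ofReal.mul (mG.comp ((mb.comp measurable_fst).prodMk measurable_snd))
    rw [hG _ mG, lintegral_lintegral_swap (by exact m2.aemeasurable), liou,
      lintegral_prod_symm _ hF.aemeasurable]
    refine lintegral_congr_ae ?_
    filter_upwards [hv] with v hv
    exact hpar ρ ρ' Z v (fun z => F (z, v)) hpw hv (hF.comp measurable_prodMk_right)
  refine ⟨h1, fun ψ ⟨mψ, M, hM⟩ => ?_⟩
  have e2 : liou (table ρ) = (((bm ρ ρ').prod volume).restrict S).map Φ := by
    refine Measure.ext_of_lintegral _ fun F hF => ?_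
    rw [h1 F hF, lintegral_map hF mΦ, ← lintegral_indicator mS,
      lintegral_prod _ (by exact ((hF.comp mΦ).indicator mS).aemeasurable)]
    simp only [e1]
  have : IsFiniteMeasure (volume.restrict (table ρ)) :=
    isFiniteMeasure_restrict.2 ht.2.2.2.2.2.2.2.2.2.2.ne
  have : IsFiniteMeasure (liou (table ρ)) := by unfold liou; infer_instance
  have i1 : Integrable ψ (liou (table ρ)) :=
    Integrable.of_bound mψ.aestronglyMeasurable M (Eventually.of_forall hM)
  rw [e2, integrable_map_measure mψ.aestronglyMeasurable mΦ.aemeasurable] at i1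
  rw [e2, integral_map mΦ.aemeasurable mψ.aestronglyMeasurable, ← integral_indicator mS,
    integral_prod _ (by exact (integrable_indicator_iff mS).2 i1)]
  refine integral_congr_ae (Eventually.of_forall fun x => ?_)
  simp only [chord]
  rw [intervalIntegral.integral_of_le (tp0 _ _), integral_Ioc_eq_integral_Ioo,
    ← integral_indicator measurableSet_Ioo]
  rfl

end

end Pool.Agent.P.MP_6b977f_mp.EB
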