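import Pool.Agent.P.MP_6b977f_mp.EB.IfE

/-! The polygonal billiard map in coordinates. -/

namespace Pool.Agent.P.MP_6b977f_mp.EB

open Real MeasureTheory Filter Topology Set Metric
open scoped ComplexConjugate

theorem t_t0 (hppw : S_PPW) (hpbm : S_PBM) (hinv : S_INV) (hbm : S_BM) : S_T0 := by
  intro P ρ c hP hρ
  obtain ⟨⟨Z, hZ⟩, -, k, mk, hk⟩ := hppw P ρ c hP hρ
  obtain ⟨-, mio, hd, hb⟩ := hpbm P ρ c hP hρ
  have mT := (hbm.2 _ _ _ hZ).2.1
  let κ : ℂ × ℂ → XX := fun y => ((k y.1).1, (k y.1).2, (conj (P.e (k y.1).1) * y.2).arg)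
  have mκ : Measurable κ := by
    have h1 : Measurable fun y : ℂ × ℂ => k y.1 := mk.comp measurable_fst
    have h2 : Measurable fun y : ℂ × ℂ => conj (P.e (k y.1).1) :=
      (measurable_from_top (f := fun s => conj (P.e s))).comp h1.fst
    exact h1.fst.prodMk (h1.snd.prodMk (Complex.measurable_arg.comp (h2.mul measurable_snd)))
  have e : ∀ᵐ x ∂P.mP, κ (P.io x) = x := hd.mono fun x hx => by
    have h1 : k (P.io x).1 = (x.1, x.2.1) := hk _ hx.1 _ hx.2.1
    have h2 : conj (P.e x.1) * (P.e x.1 * ex x.2.2) = ex x.2.2 := by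
      rw [← mul_assoc, Complex.conj_mul', hP.unit _ hx.1]
      simp
    have h3 : (ex x.2.2).arg = x.2.2 := by
      rw [ex, Complex.exp_mul_I]
      exact Complex.arg_cos_add_sin_mul_I ⟨by linarith [hx.2.2.1, pi_pos], hx.2.2.2.le⟩
    simp only [κ, h1]
    rw [show (P.io x).2 = P.e x.1 * ex x.2.2 from rfl, h2, h3]
  have p1 : MeasurePreserving P.io P.mP (bm ρ (deriv ρ)) := ⟨mio, hb.symm⟩
  have p2 : MeasurePreserving κ (bm ρ (deriv ρ)) P.mP := ⟨mκ, by
    rw [hb, Measure.map_map mκ mio]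
    exact (Measure.map_congr e).trans Measure.map_id⟩
  have p3 := (hinv _ _ _ hZ).1.comp p1
  refine ⟨⟨κ, mκ, e⟩, κ ∘ bT ρ (deriv ρ) ∘ P.io, p2.comp p3, ?_⟩
  have e2 : ∀ᵐ y ∂bm ρ (deriv ρ), P.io (κ y) = y := by
    rw [hb]
    refine (ae_map_iff mio.aemeasurable (measurableSet_eq_fun (mio.comp mκ) measurable_id)).2 ?_
    exact e.mono fun x hx => congrArg P.io hx
  exact p3.quasiMeasurePreserving.ae e2

end Pool.Agent.P.MP_6b977f_mp.EB
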