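import Pool.Agent.P.MP_6b977f_mp.EB.IfE

/-! The exit time. -/

namespace Pool.Agent.P.MP_6b977f_mp.EB

open Real MeasureTheory Filter Topology Set Metric
open scoped ContDiff BoundedContinuousFunction ComplexConjugate Pointwise ENNReal

variable {Ω : Set ℂ} {z v : ℂ}

theorem tp_le {a : ℝ} (h : 0 < a) (h' : z + a * v ∉ Ω) : tp Ω z v ≤ a :=
  csInf_le ⟨0, fun _ h => h.1.le⟩ ⟨h, h'⟩

theorem tp_in {t : ℝ} (h : t ∈ Ioo 0 (tp Ω z v)) : z + t * v ∈ Ω :=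
  not_not.1 fun h' => (tp_le h.1 h').not_gt h.2

theorem tp_out (hb : Bornology.IsBounded Ω) : ∃ R : ℝ, 0 < R ∧ ∀ z v : ℂ, v ≠ 0 →
    ∃ t ∈ Ioc 0 (R / ‖v‖), z + (t : ℝ) * v ∉ Ω := by
  obtain ⟨R, R0, hR⟩ := hb.exists_pos_norm_le
  refine ⟨4 * R, by positivity, fun z v hv => ?_⟩
  have h0 := norm_pos_iff.2 hv
  by_contra! h
  have h1 := hR _ (h (4 * R / ‖v‖) ⟨by positivity, le_rfl⟩)
  have h2 := hR _ (h (R / ‖v‖) ⟨by positivity, by gcongr; linarith⟩)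
  have h3 := norm_sub_le (z + (4 * R / ‖v‖ : ℝ) * v) (z + (R / ‖v‖ : ℝ) * v)
  rw [add_sub_add_left_eq_sub, ← sub_mul, ← Complex.ofReal_sub, norm_mul, Complex.norm_real,
    ← sub_div, Real.norm_of_nonneg (div_nonneg (by linarith) h0.le), div_mul_cancel₀ _ h0.ne'] at h3
  linarith

theorem tp_ge (hb : Bornology.IsBounded Ω) (hv : v ≠ 0) {a : ℝ}
    (h : ∀ t ∈ Ioo 0 a, z + (t : ℝ) * v ∈ Ω) : a ≤ tp Ω z v := by
  obtain ⟨R, -, hR⟩ := tp_out hb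
  obtain ⟨t, h1, h2⟩ := hR z v hv
  exact le_csInf ⟨t, h1.1, h2⟩ fun s hs => not_lt.1 fun e => hs.2 (h s ⟨hs.1, e⟩)

theorem tp_lt (ho : IsOpen Ω) (hb : Bornology.IsBounded Ω) (hv : v ≠ 0) {a : ℝ}
    (h : ∀ t ∈ Ioo 0 a, z + (t : ℝ) * v ∈ Ω) (h' : z + a * v ∈ Ω) : a < tp Ω z v := by
  obtain ⟨b, h1, h2⟩ := exists_Ico_subset_of_mem_nhds ((ho.preimage
    (f := fun t : ℝ => z + t * v) (by fun_prop)).mem_nhds h') ⟨a + 1, by linarith⟩
  exact h1.trans_le (tp_ge hb hv fun t ht => (lt_or_ge t a).elim (fun e => h t ⟨ht.1, e⟩)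
    fun e => h2 ⟨e, ht.2⟩)

theorem t_tp : S_TP := by
  intro Ω ho hb
  have h0 : ∀ z v, 0 ≤ tp Ω z v := fun z v => Real.sInf_nonneg fun _ h => h.1.le
  refine ⟨measurable_of_Ici fun a => ?_, h0, ?_, fun z v hv => ?_⟩
  · rcases le_or_gt a 0 with ha | ha
    · exact (eq_univ_of_forall fun x => ha.trans (h0 _ _) :
        (fun x : ℂ × ℂ => tp Ω x.1 x.2) ⁻¹' Ici a = univ) ▸ .univ
    have : (fun x : ℂ × ℂ => tp Ω x.1 x.2) ⁻¹' Ici a = {x | x.2 ≠ 0} ∩ ⋂ n : ℕ,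
        {x : ℂ × ℂ | ∀ t ∈ Icc (1 / (n + 1) : ℝ) (a - 1 / (n + 1)), x.1 + (t : ℝ) * x.2 ∈ Ω} := by
      ext ⟨z, v⟩
      simp only [mem_preimage, mem_Ici, mem_inter_iff, mem_iInter, mem_ofPred_eq]
      refine ⟨fun h => ⟨?_, fun n t ht => ?_⟩, fun h => tp_ge hb h.1 fun t ht => ?_⟩
      · rintro rfl
        by_cases hz : z ∈ Ω
        · exact ha.not_ge (h.trans_eq (by simp [tp, hz]))
        · exact (half_lt_self ha).not_ge (h.trans (tp_le (half_pos ha) (by simpa using hz)))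
      · have := Nat.one_div_pos_of_nat (α := ℝ) (n := n)
        exact tp_in ⟨this.trans_le ht.1, by linarith [ht.2]⟩
      · obtain ⟨n, hn⟩ := exists_nat_one_div_lt (lt_min ht.1 (sub_pos.2 ht.2))
        exact h.2 n t ⟨(lt_min_iff.1 hn).1.le, by linarith [(lt_min_iff.1 hn).2]⟩
    rw [this]
    refine (isOpen_ne_fun continuous_snd continuous_const).measurableSet.inter
      (.iInter fun n => (isOpen_iff_eventually.2 fun x hx => ?_).measurableSet)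
    exact isCompact_Icc.eventually_forall_of_forall_eventually fun t ht => (ho.preimage
      (f := fun p : (ℂ × ℂ) × ℝ => p.1.1 + p.2 * p.1.2) (by fun_prop)).mem_nhds (hx t ht)
  · obtain ⟨R, -, hR⟩ := tp_out hb
    refine ⟨R, fun z v hv => ?_⟩
    obtain ⟨t, h1, h2⟩ := hR z v (norm_pos_iff.1 (hv ▸ one_pos))
    exact (tp_le h1.1 h2).trans (by simpa [hv] using h1.2)
  have h2 : z + tp Ω z v * v ∉ Ω := fun e => (tp_lt ho hb hv (fun _ => tp_in) e).false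
  refine ⟨fun _ => tp_in, fun _ => h2, fun hz => tp_lt ho hb hv
    (fun t ht => (ht.1.trans ht.2).false.elim) (by simpa using hz),
    fun _ _ => tp_ge hb hv, fun _ => tp_le, fun s hs => ⟨le_antisymm
      (tp_le (sub_pos.2 hs.2) ?_) (tp_ge hb hv fun t ht => ?_), fun hz => le_antisymm
      (tp_le hs.1 (by simpa using hz)) (tp_ge hb (neg_ne_zero.2 hv) fun t ht => ?_)⟩⟩
  · rwa [add_assoc, ← add_mul, ← Complex.ofReal_add, add_sub_cancel]
  · rw [add_assoc, ← add_mul, ← Complex.ofReal_add]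
    exact tp_in ⟨add_pos hs.1 ht.1, by linarith [ht.2]⟩
  · rw [add_assoc, mul_neg, ← sub_eq_add_neg, ← sub_mul, ← Complex.ofReal_sub]
    exact tp_in ⟨sub_pos.2 ht.2, by linarith [ht.1, hs.2]⟩

end Pool.Agent.P.MP_6b977f_mp.EB
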