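import Pool.Agent.P.MP_6b977f_mp.EB.IfE

/-! Transfer of a coboundary from a table to a larger table. -/

namespace Pool.Agent.P.MP_6b977f_mp.EB

open Real MeasureTheory Filter Topology Set Metric
open scoped ContDiff BoundedContinuousFunction ComplexConjugate Pointwise ENNReal

theorem tr_est {φ : ℝ → ℝ} {M a b B : ℝ} (hφ : Measurable φ) (hM : ∀ t, |φ t| ≤ M) (ha : 0 ≤ a)
    (hb : a ≤ b) (hB : b ≤ B) : ENNReal.ofReal |(∫ t in (0 : ℝ)..B, φ t) - ∫ t in a..b, φ t| ≤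
      ENNReal.ofReal M * volume (Ioo 0 B \ Ioo a b) := by
  have hf : volume (Ioo 0 B \ Ioo a b) < ⊤ := (measure_mono sdiff_subset).trans_lt measure_Ioo_lt_top
  rw [intervalIntegral.integral_of_le (ha.trans (hb.trans hB)), intervalIntegral.integral_of_le hb,
    integral_Ioc_eq_integral_Ioo, integral_Ioc_eq_integral_Ioo, ← setIntegral_sdiff measurableSet_Ioo
      (Measure.integrableOn_of_bounded (M := M) measure_Ioo_lt_top.ne hφ.aestronglyMeasurable
        (Eventually.of_forall hM)) (Ioo_subset_Ioo ha hB), ← ENNReal.ofReal_toReal hf.ne,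
    ← ENNReal.ofReal_mul ((abs_nonneg _).trans (hM 0))]
  exact ENNReal.ofReal_le_ofReal (norm_setIntegral_le_of_norm_le_const (f := φ) hf fun t _ => hM t)

theorem tr_tri (u v w : ℝ) :
    ENNReal.ofReal |u - w| ≤ ENNReal.ofReal |v - w| + ENNReal.ofReal |u - v| := by
  rw [← ENNReal.ofReal_add (abs_nonneg _) (abs_nonneg _), add_comm]
  exact ENNReal.ofReal_le_ofReal (abs_sub_le u v w)

theorem t_tr (hms : S_MS) (hsan : S_SAN) (hinv : S_INV) (hbm : S_BM) (htp : S_TP) (htab : S_TAB) :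
    S_TR := by
  classical
  intro ρ ρ' Z σ σ' Z' m ι κ T ψ h M hρ hσ hsub hι hκ hmap hκι hT hext hψ hM hh
  obtain ⟨hlam, hE, hres⟩ := hms ρ ρ' Z σ σ' Z' m ι T hρ hσ hsub hι hmap hext
  obtain ⟨hfin, hU, -, -, hch⟩ := hbm.2 σ σ' Z' hσ
  have hcm := hbm.1.1
  have hpres := (hinv σ σ' Z' hσ).1
  obtain ⟨htm, ht0, -, -⟩ := htp _ (htab σ hσ.cp).1 (htab σ hσ.cp).2.1
  have hρm : MeasurableSet (table ρ) := (htab ρ hρ.cp).1.measurableSet
  set E := {y : ℂ × ℂ | ∃ t ∈ Ioo 0 (tp (table σ) y.1 y.2), y.1 + (t : ℝ) * y.2 ∈ table ρ} with hEd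
  set μ := bm σ σ'
  set U := bT σ σ'
  set Λ : XX → ℂ × ℂ := fun x => lam (table σ) (ι x) with hΛd
  have hΛ : Measurable Λ := hlam.comp hι
  set t₀ : ℂ × ℂ → ℝ := fun y => ⨅ q : ℚ,
    if (0 : ℝ) < q ∧ y.1 + (q : ℝ) * y.2 ∈ table ρ then (q : ℝ) else tp (table σ) y.1 y.2 with ht₀
  have ht₀m : Measurable t₀ := Measurable.iInf fun q => Measurable.ite
    ((MeasurableSet.const _).inter (hρm.preimage (by fun_prop))) measurable_const htm
  set H : ℂ × ℂ → ℝ := fun y => h (κ (y.1 + t₀ y * y.2, y.2)) with hH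
  have hHm : Measurable H := hh.1.comp (hκ.comp (by fun_prop))
  have hpos : ∀ᵐ x ∂m, 0 < tp (table ρ) (ι x).1 (ι x).2 := by
    have := (hbm.2 ρ ρ' Z hρ).2.2.1
    rw [hmap] at this
    exact (ae_of_ae_map hι.aemeasurable this).mono fun x ⟨_, _, hx⟩ => hx.2.2.2
  have h1 : ∀ᵐ x ∂m, Λ x ∈ E ∧ H (Λ x) = h x := by
    have : ∀ᵐ y ∂m.map Λ, y ∈ E := hres ▸ ae_restrict_mem hE
    filter_upwards [ae_of_ae_map hΛ.aemeasurable this, hpos, hκι, hext]
      with x hx hp hk ⟨⟨a, ha, e, h2, h3⟩, _⟩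
    refine ⟨hx, ?_⟩
    have h4 : t₀ ((ι x).1 - a * (ι x).2, (ι x).2) = a := by
      refine ciInf_eq_of_forall_ge_of_forall_gt_exists_lt (fun q => ?_) fun b hb => ?_
      · split_ifs with hq
        · by_contra h5
          exact h5 ((h3 q ⟨hq.1, by linarith [not_le.1 h5]⟩).1 hq.2).1.le
        · linarith
      · obtain ⟨q, h5, h6⟩ := exists_rat_btwn (lt_min hb (lt_add_of_pos_right a hp))
        obtain ⟨h6, h7⟩ := lt_min_iff.1 h6
        exact ⟨q, by rwa [if_pos ⟨ha.trans_lt h5, (h3 q ⟨ha.trans_lt h5, h7.trans_le h2⟩).2 ⟨h5, h7⟩⟩]⟩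
    simp only [hH, hΛd, e, h4, sub_add_cancel, hk]
  set h' : ℂ × ℂ → ℝ := fun y => if y ∈ E then H y else if U y ∈ E then H (U y) else 0 with hh'
  have hm' : Measurable h' :=
    Measurable.ite hE hHm (Measurable.ite (hU hE) (hHm.comp hU) measurable_const)
  have h2 : ∀ᵐ x ∂m, U (Λ x) ∈ E ∪ U ⁻¹' E ∧ h' (U (Λ x)) - h' (Λ x) = h (T x) - h x := by
    filter_upwards [h1, hT.quasiMeasurePreserving.ae h1, hext] with x hx hx' ⟨_, h3⟩
    rcases h3 with h3 | ⟨h3, h4⟩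
    · have e : U (Λ x) = Λ (T x) := h3
      exact ⟨Or.inl (e ▸ hx'.1), by simp only [hh', e, if_pos hx.1, if_pos hx'.1, hx.2, hx'.2]⟩
    · have e : U (U (Λ x)) = Λ (T x) := h4
      have n : U (Λ x) ∉ E := fun ⟨t, ht, h5⟩ => h3 t ht h5
      exact ⟨Or.inr (show U (U (Λ x)) ∈ E from e ▸ hx'.1), by
        simp only [hh', e, if_pos hx.1, if_neg n, if_pos hx'.1, hx.2, hx'.2]⟩
  have hR : MeasurableSet (E ∪ U ⁻¹' E) := hE.union (hU hE)
  have h3 : (E ∪ U ⁻¹' E : Set _) =ᵐ[μ] (U ⁻¹' (E ∪ U ⁻¹' E) : Set _) := by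
    refine ae_eq_of_ae_subset_of_measure_ge ?_ (hpres.measure_preimage hR.nullMeasurableSet).le
      hR.nullMeasurableSet (measure_ne_top _ _)
    have : ∀ᵐ y ∂μ.restrict E, y ∈ U ⁻¹' (E ∪ U ⁻¹' E) := by
      rw [hres]
      exact (ae_map_iff hΛ.aemeasurable (hU hR)).2 (h2.mono fun x hx => hx.1)
    filter_upwards [(ae_restrict_iff' hE).1 this] with y hy hy'
    exact hy'.elim hy Or.inl
  have h4 : ∀ᵐ y ∂μ, y ∉ E → h' (U y) - h' y = 0 := by
    filter_upwards [h3.mem_iff] with y hy hn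
    by_cases hu : U y ∈ E
    · simp only [hh', if_pos hu, if_neg hn, sub_self]
    · have : U (U y) ∉ E := fun k => (hy.2 (Or.inr k)).elim hn hu
      simp only [hh', if_neg hu, if_neg hn, if_neg this, sub_self]
  set S := {p : (ℂ × ℂ) × ℝ | p.2 ∈ Ioo 0 (tp (table σ) p.1.1 p.1.2) ∧
    p.1.1 + (p.2 : ℝ) * p.1.2 ∉ table ρ} with hS
  have hSm : MeasurableSet S :=
    ((measurableSet_lt measurable_const measurable_snd).inter
      (measurableSet_lt measurable_snd (htm.comp measurable_fst))).inter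
      (hρm.compl.preimage (by fun_prop))
  have hrest : Measurable fun y => ENNReal.ofReal M * volume (Prod.mk y ⁻¹' S) :=
    (measurable_measure_prodMk_left hSm).const_mul _
  have h5 : ∫⁻ y, volume (Prod.mk y ⁻¹' S) ∂μ = volume (table σ \ table ρ) * cm univ := by
    have hs : MeasurableSet ((table ρ)ᶜ ×ˢ (univ : Set ℂ)) := hρm.compl.prod .univ
    have := (hsan σ σ' Z' hσ).1 _ (measurable_one.indicator hs)
    rw [lintegral_indicator_one hs, liou, Measure.prod_prod, Measure.restrict_apply hρm.compl,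
      inter_comm, ← Set.sdiff_eq] at this
    rw [this]
    refine lintegral_congr fun y => ?_
    rw [← lintegral_indicator measurableSet_Ioo, ← lintegral_indicator_one (measurable_prodMk_left hSm)]
    refine lintegral_congr fun t => ?_
    by_cases k : t ∈ Ioo 0 (tp (table σ) y.1 y.2) <;>
      by_cases k' : y.1 + (t : ℝ) * y.2 ∈ table ρ <;> simp [hS, indicator, k, k', -mem_Ioo]
  have hφ : ∀ y : ℂ × ℂ, Measurable fun t : ℝ => ψ (y.1 + t * y.2, y.2) :=
    fun y => hψ.comp (by fun_prop)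
  obtain ⟨K, hK⟩ := hh.2
  refine ⟨h', ⟨hm', K, fun y => ?_⟩, ?_⟩
  · simp only [hh', hH]
    split_ifs
    exacts [hK _, hK _, by simpa using (abs_nonneg _).trans (hK (κ y))]
  have hG : Measurable fun y => ENNReal.ofReal |chord (table σ) ψ y - (h' (U y) - h' y)| :=
    (((hch ψ ⟨hψ, M, hM⟩).1.sub ((hm'.comp hU).sub hm')).abs).ennreal_ofReal
  rw [cob, ← lintegral_add_compl _ hE, ← h5, ← lintegral_const_mul' _ _ ENNReal.ofReal_ne_top,
    ← lintegral_add_compl (fun y => ENNReal.ofReal M * volume (Prod.mk y ⁻¹' S)) hE, ← add_assoc]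
  refine add_le_add ?_ (lintegral_mono_ae ((ae_restrict_iff' hE.compl).2 ?_))
  · rw [hres, lintegral_map hG hΛ, lintegral_map hrest hΛ]
    refine (lintegral_mono_ae ?_).trans (lintegral_add_right _ (hrest.comp hΛ)).le
    filter_upwards [h2, hpos, hext] with x hx hp ⟨⟨a, ha, e, h6, h7⟩, _⟩
    rw [hx.2]
    refine (tr_tri _ (chord (table ρ) ψ (ι x)) _).trans (add_le_add le_rfl ?_)
    have h8 := tr_est (hφ (Λ x)) (fun t => hM _) ha (lt_add_of_pos_right a hp).le h6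
    have h9 := intervalIntegral.integral_comp_add_left (a := 0) (b := tp (table ρ) (ι x).1 (ι x).2)
      (fun t : ℝ => ψ ((Λ x).1 + t * (Λ x).2, (Λ x).2)) a
    rw [add_zero] at h9
    rw [← h9] at h8
    simp only [hΛd, e, Function.comp] at h8 ⊢
    have h10 : ∀ t : ℝ, (ι x).1 - a * (ι x).2 + (a + t : ℝ) * (ι x).2 = (ι x).1 + t * (ι x).2 :=
      fun t => by push_cast; ring
    simp only [h10] at h8
    refine h8.trans (mul_le_mul_right (measure_mono fun t ht => ?_) _)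
    exact ⟨ht.1, fun k => ht.2 ((h7 t ht.1).1 k)⟩
  · filter_upwards [h4] with y hy hn
    have h8 := tr_est (hφ y) (fun t => hM _) le_rfl le_rfl (ht0 y.1 y.2)
    rw [intervalIntegral.integral_same] at h8
    rw [hy hn]
    refine h8.trans (mul_le_mul_right (measure_mono fun t ht => ?_) _)
    exact ⟨ht.1, fun k => hn ⟨t, ht.1, k⟩⟩

end Pool.Agent.P.MP_6b977f_mp.EB
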