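import Pool.Agent.P.MP_6b977f_mp.EB.IfS

/-! Topology of star-shaped tables. -/

namespace Pool.Agent.P.MP_6b977f_mp.EB

open Real MeasureTheory Filter Topology Laplacian Set Metric
open scoped ContDiff BoundedContinuousFunction ComplexConjugate Pointwise ENNReal

variable {ρ : ℝ → ℝ}

theorem tab_cont (h : CP ρ) : ContinuousOn (fun z : ℂ => ρ z.arg) {0}ᶜ := fun _ hz =>
  (((continuous_quot_lift _ h.1 : Continuous h.2.lift).continuousAt.comp
    (Complex.continuousAt_arg_coe_angle hz)).continuousWithinAt :)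

theorem tab_norm {t : ℝ} (h : 0 ≤ t) (θ : ℝ) : ‖(t : ℂ) * ex θ‖ = t := by
  rw [norm_mul, ex, Complex.norm_exp_ofReal_mul_I, mul_one, Complex.norm_of_nonneg h]

theorem tab_arg (h : CP ρ) {t : ℝ} (ht : 0 < t) (θ : ℝ) : ρ ((t : ℂ) * ex θ).arg = ρ θ := by
  rw [Complex.arg_real_mul _ ht, ex, Complex.arg_exp_mul_I, toIocMod, h.2.sub_zsmul_eq]

theorem tab_bd (h : CP ρ) : ∃ M, ∀ x, |ρ x| ≤ M := by
  obtain ⟨M, hM⟩ := (h.2.isBounded_of_continuous two_pi_pos.ne' h.1).exists_norm_le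
  exact ⟨M, fun x => hM _ ⟨x, rfl⟩⟩

theorem tab_gauge (h : CP ρ) : Continuous fun z : ℂ => ‖z‖ / Real.exp (ρ z.arg) := by
  refine continuous_iff_continuousAt.2 fun z => ?_
  by_cases hz : z = 0
  · obtain ⟨M, hM⟩ := tab_bd h
    rw [hz, ContinuousAt, norm_zero, zero_div]
    refine squeeze_zero (fun _ => by positivity) (fun w => div_le_div_of_nonneg_left
      (norm_nonneg w) (Real.exp_pos (-M)) (Real.exp_le_exp.2 (abs_le.1 (hM _)).1)) ?_
    exact (continuous_norm.div_const _).tendsto' 0 0 (by simp)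
  · exact continuous_norm.continuousAt.div (Real.continuous_exp.continuousAt.comp
      ((tab_cont h).continuousAt (isOpen_compl_singleton.mem_nhds hz))) (Real.exp_pos _).ne'

theorem tab_smul {a : ℝ} (ha : 0 < a) (z : ℂ) :
    a • z ∈ table ρ ↔ a * ‖z‖ < Real.exp (ρ z.arg) := by
  rw [table, mem_ofPred_eq, norm_smul, Real.norm_of_nonneg ha.le, Complex.real_smul,
    Complex.arg_real_mul _ ha]

theorem t_tab : S_TAB := by
  intro ρ h
  obtain ⟨M, hM⟩ := tab_bd h
  have h0 : (0 : ℂ) ∈ table ρ := norm_zero.trans_lt (Real.exp_pos _)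
  have h1 : IsOpen (table ρ) := by
    simpa only [div_lt_one (Real.exp_pos _), table] using
      isOpen_lt (tab_gauge h) (continuous_const (y := 1))
  have h2 : Bornology.IsBounded (table ρ) := isBounded_iff_forall_norm_le.2
    ⟨Real.exp M, fun z hz => (le_of_lt hz).trans (Real.exp_le_exp.2 (abs_le.1 (hM _)).2)⟩
  have h3 : closure (table ρ) = {z | ‖z‖ ≤ Real.exp (ρ z.arg)} := by
    refine Subset.antisymm (closure_minimal (fun z hz => le_of_lt (α := ℝ) hz) ?_) fun z hz => ?_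
    · simpa only [div_le_one (Real.exp_pos _)] using
        isClosed_le (tab_gauge h) (continuous_const (y := 1))
    · refine mem_closure_of_tendsto (b := 𝓝[<] (1 : ℝ)) (f := fun a : ℝ => a • z)
        (((continuous_id.smul continuous_const).tendsto' 1 z (one_smul _ _)).mono_left
          nhdsWithin_le_nhds) ?_
      filter_upwards [Ioo_mem_nhdsLT one_pos] with a ha
      exact (tab_smul ha.1 z).2 ((mul_le_mul_of_nonneg_left hz ha.1.le).trans_lt
        (mul_lt_of_lt_one_left (Real.exp_pos _) ha.2))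
  refine ⟨h1, h2, h0, (StarConvex.isPathConnected (starConvex_zero_iff.2 fun z hz a a0 a1 => ?_)
    h0).isConnected.isPreconnected, ?_, h3, fun t φ ht => ?_, tab_cont h, fun a => ?_,
    h1.measure_pos _ ⟨0, h0⟩, h2.measure_lt_top⟩
  · rcases a0.eq_or_lt with rfl | a0
    · rwa [zero_smul]
    · exact (tab_smul a0 z).2 ((mul_le_of_le_one_left (norm_nonneg _) a1).trans_lt hz)
  · rw [h1.frontier_eq, h3]
    refine Subset.antisymm (fun z hz => ⟨z.arg, ?_⟩) ?_
    · rw [bd, ← le_antisymm (a := ‖z‖) hz.1 (not_lt.1 hz.2)]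
      exact Complex.norm_mul_exp_arg_mul_I z
    · rintro _ ⟨φ, rfl⟩
      have e : ‖bd ρ φ‖ = Real.exp (ρ (bd ρ φ).arg) := by
        rw [bd, tab_norm (Real.exp_pos _).le, tab_arg h (Real.exp_pos _)]
      exact ⟨e.le, e.not_lt⟩
  · rcases ht.eq_or_lt with rfl | t0
    · simpa [Real.exp_pos] using h0
    · rw [table, mem_ofPred_eq, tab_norm ht, tab_arg h t0]
  · ext z
    rw [mem_smul_set_iff_inv_smul_mem₀ (Real.exp_pos a).ne', tab_smul (inv_pos.2 (Real.exp_pos a)),
      inv_mul_lt_iff₀ (Real.exp_pos a), ← Real.exp_add, add_comm]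
    rfl

end Pool.Agent.P.MP_6b977f_mp.EB
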