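import Pool.Agent.P.MP_6b977f_mp.EB.IfE
import Pool.Agent.P.MP_6b977f_mp.EB.TAB

/-! Transversal directions enter or leave the table. -/

namespace Pool.Agent.P.MP_6b977f_mp.EB

open Real MeasureTheory Filter Topology Set Metric
open scoped ContDiff BoundedContinuousFunction ComplexConjugate Pointwise ENNReal

theorem tr0_sign {g : ℝ → ℝ} {a : ℝ} (h : HasDerivAt g a 0) (h0 : g 0 = 0) (ha : 0 < a) :
    ∀ᶠ s in 𝓝[>] (0 : ℝ), 0 < g s := by
  filter_upwards [h.tendsto_slope_zero_right.eventually_const_lt ha, self_mem_nhdsWithin]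
    with s h1 (hs : 0 < s)
  rw [zero_add, h0, sub_zero, smul_eq_mul] at h1
  exact (pos_iff_pos_of_mul_pos h1).1 (inv_pos.2 hs)

theorem tr0_ex {p : ℝ → Prop} (h : ∀ᶠ s in 𝓝[>] (0 : ℝ), p s) : ∃ δ > 0, ∀ s ∈ Ioo 0 δ, p s :=
  (mem_nhdsGT_iff_exists_Ioo_subset.1 h).imp fun _ h => ⟨h.1, h.2⟩

theorem t_tr0 (hpwc : S_PWC) (htab : S_TAB) : S_TR0 := by
  intro ρ ρ' Z t v hP ht
  have hy : bd ρ t ≠ 0 :=
    mul_ne_zero (Complex.ofReal_ne_zero.2 (exp_pos _).ne') (Complex.exp_ne_zero _)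
  set c := v / bd ρ t with hc
  have hv : v = bd ρ t * c := by rw [hc]; field_simp
  have h0 : HasDerivAt (fun s : ℝ => 1 + (s : ℂ) * c) c 0 := by
    simpa using ((hasDerivAt_id (0 : ℝ)).ofReal_comp.mul_const c).const_add 1
  have h1 : HasDerivAt (fun s : ℝ => Complex.log (1 + s * c)) c 0 := by
    simpa using h0.clog_real (by simp)
  have h2 := Complex.reCLM.hasFDerivAt.comp_hasDerivAt 0 h1
  have h3 := (Complex.imCLM.hasFDerivAt.comp_hasDerivAt 0 h1).const_add t
  have h4 : HasDerivAt (fun s : ℝ => ρ (t + (Complex.log (1 + s * c)).im) -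
      (ρ t + (Complex.log (1 + s * c)).re)) (ρ' t * c.im - c.re) 0 :=
    (HasDerivAt.comp 0 (by simpa using (hP.der t ht).1) h3).sub (h2.const_add _)
  have h5 : cross (tanf ρ' (bd ρ t)) v = Complex.normSq (bd ρ t) * (ρ' t * c.im - c.re) := by
    rw [((hpwc.2 ρ ρ' Z hP).2.1 t).1, hv]
    simp [cross, Complex.normSq_apply]; ring
  have h6 := Complex.normSq_pos.2 hy
  have h7 : ∀ᶠ s : ℝ in 𝓝[>] 0, bd ρ t + s * v = (exp (ρ t + (Complex.log (1 + s * c)).re) : ℝ) *
      ex (t + (Complex.log (1 + s * c)).im) := by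
    filter_upwards [nhdsWithin_le_nhds (h0.continuousAt.eventually_ne (y := 0) (by simp))] with s hs
    have e := Complex.exp_log hs
    rw [← Complex.re_add_im (Complex.log _), Complex.exp_add] at e
    generalize Complex.log (1 + s * c) = w at e ⊢
    rw [hv, ← mul_left_comm, ← mul_one_add, ← e, bd, ex, ex, exp_add]
    push_cast
    rw [add_mul, Complex.exp_add]
    ring
  obtain ⟨-, -, -, -, -, t1, t2, -⟩ := htab ρ hP.cp
  rw [h5]
  refine ⟨fun h => tr0_ex ?_, fun h => tr0_ex ?_⟩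
  · filter_upwards [h7, tr0_sign h4 (by simp) ((mul_pos_iff_of_pos_left h6).1 h)] with s e hs
    rw [e, t2 _ _ (exp_pos _).le, exp_lt_exp]
    linarith
  · filter_upwards [h7, tr0_sign h4.neg (by simp) (neg_pos.2 (neg_of_mul_neg_right h h6.le))]
      with s e hs
    rw [e, t1, mem_ofPred_eq, tab_norm (exp_pos _).le, tab_arg hP.cp (exp_pos _), exp_le_exp]
    simp only [Pi.neg_apply] at hs
    linarith

end Pool.Agent.P.MP_6b977f_mp.EB
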