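import Pool.Agent.P.MP_6b977f_mp.EB.AllB
import Pool.Agent.P.MP_6b977f_mp.EB.MK1
import Pool.Agent.P.MP_6b977f_mp.EB.MK
import Pool.Agent.P.MP_6b977f_mp.EB.TP
import Pool.Agent.P.MP_6b977f_mp.EB.GD1
import Pool.Agent.P.MP_6b977f_mp.EB.PWC
import Pool.Agent.P.MP_6b977f_mp.EB.TR0
import Pool.Agent.P.MP_6b977f_mp.EB.PAR
import Pool.Agent.P.MP_6b977f_mp.EB.BM
import Pool.Agent.P.MP_6b977f_mp.EB.SAN
import Pool.Agent.P.MP_6b977f_mp.EB.MS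
import Pool.Agent.P.MP_6b977f_mp.EB.INV
import Pool.Agent.P.MP_6b977f_mp.EB.TR
import Pool.Agent.P.MP_6b977f_mp.EB.AVG
import Pool.Agent.P.MP_6b977f_mp.EB.GM
import Pool.Agent.P.MP_6b977f_mp.EB.GMM
import Pool.Agent.P.MP_6b977f_mp.EB.AP1
import Pool.Agent.P.MP_6b977f_mp.EB.AP2
import Pool.Agent.P.MP_6b977f_mp.EB.AP3B
import Pool.Agent.P.MP_6b977f_mp.EB.AP3
import Pool.Agent.P.MP_6b977f_mp.EB.GT2
import Pool.Agent.P.MP_6b977f_mp.EB.GT3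
import Pool.Agent.P.MP_6b977f_mp.EB.PPW
import Pool.Agent.P.MP_6b977f_mp.EB.PBM
import Pool.Agent.P.MP_6b977f_mp.EB.AP4
import Pool.Agent.P.MP_6b977f_mp.EB.RIG
import Pool.Agent.P.MP_6b977f_mp.EB.MP
import Pool.Agent.P.MP_6b977f_mp.EB.PI
import Pool.Agent.P.MP_6b977f_mp.EB.COB
import Pool.Agent.P.MP_6b977f_mp.EB.GD0
import Pool.Agent.P.MP_6b977f_mp.EB.DEP
import Pool.Agent.P.MP_6b977f_mp.EB.GDT
import Pool.Agent.P.MP_6b977f_mp.EB.GDN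
import Pool.Agent.P.MP_6b977f_mp.EB.GD
import Pool.Agent.P.MP_6b977f_mp.EB.GT1
import Pool.Agent.P.MP_6b977f_mp.EB.T0
import Pool.Agent.P.MP_6b977f_mp.EB.APX
import Pool.Agent.P.MP_6b977f_mp.EB.FAM
import Pool.Agent.P.MP_6b977f_mp.EB.ERG
import Pool.Agent.P.MP_6b977f_mp.EB.CONT
import Pool.Agent.P.MP_6b977f_mp.EB.EOPEN
import Pool.Agent.P.MP_6b977f_mp.EB.EMC
import Pool.Agent.P.MP_6b977f_mp.EB.EGEN

/-! All statements of part E. -/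

namespace Pool.Agent.P.MP_6b977f_mp.EB

theorem a_mk1 : S_MK1 :=
  t_mk1
theorem a_mk : S_MK :=
  t_mk a_mk1
theorem a_tp : S_TP :=
  t_tp
theorem a_gd1 : S_GD1 :=
  t_gd1 a_tp a_tab
theorem a_pwc : S_PWC :=
  t_pwc a_lipz a_tab
theorem a_tr0 : S_TR0 :=
  t_tr0 a_pwc a_tab
theorem a_par : S_PAR :=
  t_par a_tp a_pwc a_tr0 a_tab
theorem a_bm : S_BM :=
  t_bm a_tp a_pwc a_tr0 a_tab
theorem a_san : S_SAN :=
  t_san a_par a_bm a_tp a_tab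
theorem a_ms : S_MS :=
  t_ms a_san a_bm a_tp a_tab
theorem a_inv : S_INV :=
  t_inv a_san a_bm a_tp a_pwc a_tab
theorem a_tr : S_TR :=
  t_tr a_ms a_san a_inv a_bm a_tp a_tab
theorem a_avg : S_AVG :=
  t_avg
theorem a_gm : S_GM :=
  t_gm
theorem a_gmm : S_GMM :=
  t_gmm
theorem a_ap1 : S_AP1 :=
  t_ap1 a_avg a_gm a_gmm
theorem a_ap2 : S_AP2 :=
  t_ap2
theorem a_ap3b : S_AP3B :=
  t_ap3b
theorem a_ap3 : S_AP3 :=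
  t_ap3 a_ap3b a_bm a_pwc a_gauge a_tp a_tab
theorem a_gt2 : S_GT2 :=
  t_gt2 a_pol0 a_glue a_tab
theorem a_gt3 : S_GT3 :=
  t_gt3 a_gt2 a_pol0 a_glue a_tab
theorem a_ppw : S_PPW :=
  t_ppw a_gt2 a_gt3 a_pol0
theorem a_pbm : S_PBM :=
  t_pbm a_pol0 a_ppw a_bm a_pwc a_glue
theorem a_ap4 : S_AP4 :=
  t_ap4 a_ap3 a_ppw a_pbm a_bm
theorem a_rig : S_RIG :=
  t_rig a_ap1 a_ap2 a_ap4 a_gmm a_pbm
theorem a_mp : S_MP :=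
  t_mp a_gm a_gmm
theorem a_pi : S_PI :=
  t_pi a_mp a_gm a_gmm a_pbm a_bm a_ppw a_tp a_tab
theorem a_cob : S_COB :=
  t_cob a_mk a_pi a_mp a_gmm a_rig a_pbm
theorem a_gd0 : S_GD0 :=
  t_gd0 a_tp
theorem a_dep : S_DEP :=
  t_dep
theorem a_gdt : S_GDT :=
  t_gdt a_gt2 a_dep
theorem a_gdn : S_GDN :=
  t_gdn
theorem a_gd : S_GD :=
  t_gd a_gd0 a_gd1 a_gdt a_gdn a_gt2 a_dep a_ppw a_pbm a_bm a_tp a_tab
theorem a_gt1 : S_GT1 :=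
  t_gt1 a_pol0 a_glue a_tab
theorem a_t0 : S_T0 :=
  t_t0 a_ppw a_pbm a_inv a_bm
theorem a_apx : S_APX :=
  t_apx a_inv a_bm
theorem a_fam : S_FAM :=
  t_fam
theorem a_erg : S_ERG :=
  t_erg a_san a_inv a_bm a_pwc a_tp a_tab
theorem a_cont : S_CONT :=
  t_cont a_tp a_tr0 a_pwc a_tab a_tab2
theorem a_eopen : S_EOPEN :=
  t_eopen a_cont a_inv a_bm a_pwc a_tp a_tab
theorem a_emc : S_EMC :=
  t_emc a_gt1 a_gt2 a_gt3 a_dep a_ppw a_pbm a_t0 a_cob a_gd a_tr a_san a_bm a_tab a_tab2 a_mp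
theorem a_egen : S_EGEN :=
  t_egen a_eopen a_emc a_apx a_ins a_smooth a_pwc

end Pool.Agent.P.MP_6b977f_mp.EB
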