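import Pool.Agent.P.MP_6b977f_mp.EB.IfS

/-! A simple eigenfunction occurs, up to sign, in every complete orthogonal system. -/

namespace Pool.Agent.P.MP_6b977f_mp.EB

open Real MeasureTheory Filter Topology Laplacian Set Metric
open scoped ContDiff BoundedContinuousFunction ComplexConjugate Pointwise ENNReal

theorem t_basis (hreg : S_REG) (hhb1 : S_HB1) : S_BASIS := by
  intro Ω lam u l f g hΩ _ hB _ ⟨hw, h0, hs⟩
  have hu : ∀ n, WE Ω (lam n) (Ω.indicator (u n)) (Ω.indicator (gradient (u n))) := fun n =>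
    hreg.2 Ω _ _ hΩ ⟨(hB.eig n).1, (hB.eig n).2.1⟩ (hB.eig n).2.2.1
  obtain ⟨n, hn⟩ : ∃ n, ∫ x in Ω, f x * u n x ≠ 0 := by
    by_contra h
    push Not at h
    have h1 := (ae_restrict_iff' hΩ.measurableSet).1 (hB.complete f (hw.1.1.restrict Ω) h)
    refine h0 (integral_eq_zero_of_ae ?_)
    filter_upwards [h1, hhb1.2.2.2.2.2.1 Ω f g hw.1] with x g1 g2
    by_cases hx : x ∈ Ω
    · simpa using g1 hx
    · simpa using (g2 hx).1
  have e0 : ∫ x, f x * Ω.indicator (u n) x = ∫ x in Ω, f x * u n x := by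
    rw [← integral_indicator hΩ.measurableSet]
    congr 1
    funext x
    by_cases hx : x ∈ Ω <;> simp [hx]
  have e1 := hhb1.2.2.2.2.2.2.2.1 Ω _ _ _ _ _ hw (hu n).1
  have e2 := hhb1.2.2.2.2.2.2.2.1 Ω _ _ _ _ _ (hu n) hw.1
  simp only [real_inner_comm (g _), mul_comm (Ω.indicator (u n) _)] at e1 e2
  have e3 : lam n = l := mul_right_cancel₀ hn (by rw [← e0, ← e1, ← e2])
  obtain ⟨c, hc⟩ := hs _ _ (e3 ▸ hu n)
  have e4 : volume.real Ω / ∫ y, f y ^ 2 = c ^ 2 := by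
    rw [div_eq_iff h0, ← (hB.eig n).2.2.2, ← integral_indicator hΩ.measurableSet,
      ← integral_const_mul]
    refine integral_congr_ae ?_
    filter_upwards [hc] with x hx
    rw [← mul_pow, ← hx]
    by_cases h : x ∈ Ω <;> simp [h]
  refine ⟨n, e3, (abs_choice c).imp (fun h => ?_) fun h => ?_⟩ <;>
    filter_upwards [hc] with x hx
  · rw [hx, nrm, e4, sqrt_sq_eq_abs, h]
  · rw [hx, Pi.neg_apply, nrm, e4, sqrt_sq_eq_abs, h, neg_mul, neg_neg]

end Pool.Agent.P.MP_6b977f_mp.EB
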