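import Pool.Agent.P.MP_6b977f_mp.EB.IfS

/-! The `n`-th approximate random wave property is open and dense in `C1`. -/

namespace Pool.Agent.P.MP_6b977f_mp.EB

open Real MeasureTheory Filter Topology Laplacian Set Metric
open scoped ContDiff BoundedContinuousFunction ComplexConjugate Pointwise ENNReal

noncomputable section

lemma bgen_cp (p : C1) : CP p.1.1 := ⟨p.1.1.continuous, p.2.1⟩

lemma bgen_dist (p q : C1) (x : ℝ) : |q.1.1 x - p.1.1 x| ≤ dist q p := by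
  have h1 : dist (q.1.1 x) (p.1.1 x) ≤ dist q.1.1 p.1.1 :=
    BoundedContinuousFunction.dist_coe_le_dist x
  have h2 : dist q.1.1 p.1.1 ≤ dist q.1 p.1 := by
    rw [Prod.dist_eq]; exact le_max_left _ _
  rw [Real.dist_eq] at h1
  rw [Subtype.dist_eq]
  exact h1.trans h2

lemma bgen_near {a b : ℝ} {ρ σ τ : ℝ → ℝ} (h1 : Near a ρ σ) (h2 : Near b σ τ) :
    Near (a + b) ρ τ := by
  refine ⟨fun x => ?_, fun x y => ?_⟩
  · have e : ρ x - τ x = (ρ x - σ x) + (σ x - τ x) := by ring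
    rw [e]
    exact (abs_add_le _ _).trans (add_le_add (h1.1 x) (h2.1 x))
  · have e : (ρ x - τ x) - (ρ y - τ y) =
        ((ρ x - σ x) - (ρ y - σ y)) + ((σ x - τ x) - (σ y - τ y)) := by ring
    rw [e, add_mul]
    exact (abs_add_le _ _).trans (add_le_add (h1.2 x y) (h2.2 x y))

lemma bgen_near_mono {a b : ℝ} {ρ σ : ℝ → ℝ} (h : Near a ρ σ) (hab : a ≤ b) : Near b ρ σ :=
  ⟨fun x => (h.1 x).trans hab,
    fun x y => (h.2 x y).trans (mul_le_mul_of_nonneg_right hab (abs_nonneg _))⟩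

lemma bgen_fin (n : ℕ) (P : ℕ → ℝ → Prop) (hm : ∀ k a b, 0 < a → a ≤ b → P k b → P k a)
    (h : ∀ k ≤ n, ∃ δ > 0, P k δ) : ∃ δ > 0, ∀ k ≤ n, P k δ := by
  induction n with
  | zero =>
    obtain ⟨δ, hδ, hP⟩ := h 0 le_rfl
    exact ⟨δ, hδ, fun k hk => by rw [Nat.le_zero.mp hk]; exact hP⟩
  | succ n ih =>
    obtain ⟨δ, hδ, hP⟩ := ih fun k hk => h k (hk.trans (Nat.le_succ n))
    obtain ⟨δ', hδ', hP'⟩ := h (n + 1) le_rfl
    refine ⟨min δ δ', lt_min hδ hδ', fun k hk => ?_⟩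
    rcases Nat.lt_or_eq_of_le hk with hk | hk
    · exact hm k _ _ (lt_min hδ hδ') (min_le_left _ _) (hP k (Nat.lt_succ_iff.mp hk))
    · rw [hk]
      exact hm _ _ _ (lt_min hδ hδ') (min_le_right _ _) hP'

/-- A good boundary function near any point of `C1`. -/
lemma bgen_good (hbst : S_BST) (hsplit : S_SPLIT) (hcfc : S_CFC) (p : C1)
    (D : ℕ → ℂ →₀ ℝ) (n : ℕ) (η : ℝ) (hη : 0 < η) :
    ∃ σ, CP σ ∧ Near (η + η) σ p.1.1 ∧ GoodB D n σ := by
  obtain ⟨σ, c, r, lam, f, g, hσ, hnear, hflat, hn, hwe, hne, hcf⟩ := hbst p D n η hη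
  have hlam : 0 < lam := lt_of_le_of_lt (Nat.cast_nonneg n) hn
  have hf : MemLp f 2 volume := hwe.1.1
  obtain ⟨δ, hδ, hP⟩ := bgen_fin n
    (fun k δ => ∀ σ' (l : ℝ) (y : ℂ → ℝ), CP σ' → (∀ x, |σ' x - σ x| ≤ δ) → |l - lam| < δ →
      MemLp y 2 volume → eLpNorm (y - f) 2 volume < ENNReal.ofReal δ →
      ‖cf (table σ') l (nrm (table σ') y) (D k) - gauss (D k)‖ < 1 / (n + 1))
    (fun k a b _ hab hb σ' l y h1 h2 h3 h4 h5 =>
      hb σ' l y h1 (fun x => (h2 x).trans hab) (h3.trans_le hab) h4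
        (h5.trans_le (ENNReal.ofReal_le_ofReal hab)))
    (fun k hk => by
      obtain ⟨δ, hδ, hc⟩ := hcfc σ lam f (D k)
        (1 / (n + 1) - ‖cf (table σ) lam (nrm (table σ) f) (D k) - gauss (D k)‖) hσ hlam hf hne
        (sub_pos.mpr (hcf k hk))
      refine ⟨δ, hδ, fun σ' l y h1 h2 h3 h4 h5 => ?_⟩
      have h6 := hc σ' l y h1 h2 h3 h4 h5
      have h7 := norm_sub_le_norm_sub_add_norm_sub (cf (table σ') l (nrm (table σ') y) (D k))
        (cf (table σ) lam (nrm (table σ) f) (D k)) (gauss (D k))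
      linarith)
  set η' := min δ (min η (lam - n)) with hη'
  have hη'0 : 0 < η' := lt_min hδ (lt_min hη (sub_pos.mpr hn))
  have h1 : η' ≤ δ := min_le_left _ _
  have h2 : η' ≤ η := (min_le_right _ _).trans (min_le_left _ _)
  have h3 : η' ≤ lam - n := (min_le_right _ _).trans (min_le_right _ _)
  obtain ⟨σ', l, y, g', hσ', hnear', hs, hl, hy⟩ := hsplit σ c r lam f g η' hσ hflat hlam hwe hne hη'0
  refine ⟨σ', hσ', bgen_near (bgen_near_mono hnear' h2) hnear, l, y, g', ?_, hs, fun k hk => ?_⟩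
  · have := (abs_lt.mp hl).1
    linarith
  · exact hP k hk σ' l y hσ' (fun x => (hnear'.1 x).trans h1) (hl.trans_le h1) hs.1.1.1
      (hy.trans_le (ENNReal.ofReal_le_ofReal h1))

theorem t_bgen (hbopen : S_BOPEN) (hbst : S_BST) (hsplit : S_SPLIT) (hcfc : S_CFC)
    (hsmooth : S_SMOOTH) : S_BGEN := by
  intro D n
  refine ⟨Metric.isOpen_iff.mpr fun p hp => ?_, Metric.dense_iff.mpr fun p ε hε => ?_⟩
  · obtain ⟨δ, hδ, h⟩ := hbopen D n p.1.1 (bgen_cp p) hp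
    exact ⟨δ, hδ, fun q hq =>
      h q.1.1 (bgen_cp q) fun x => (bgen_dist p q x).trans (le_of_lt (mem_ball.mp hq))⟩
  · obtain ⟨σ, hσ, hnear, hgood⟩ := bgen_good hbst hsplit hcfc p D n (ε / 4) (by positivity)
    obtain ⟨q, hq, hu, -⟩ := hsmooth p σ _ hσ hnear
    obtain ⟨δ, hδ, h⟩ := hbopen D n σ hσ hgood
    obtain ⟨j, hj⟩ := ((Metric.tendstoUniformly_iff.mp hu) δ hδ).exists
    refine ⟨q j, mem_ball.mpr ((hq j).trans_lt (by linarith)), ?_⟩
    refine h (q j).1.1 (bgen_cp (q j)) fun x => ?_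
    have := hj x
    rw [dist_comm, Real.dist_eq] at this
    exact this.le

end

end Pool.Agent.P.MP_6b977f_mp.EB
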