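import Pool.Agent.P.MP_6b977f_mp.EB.IfS

/-! The approximate random wave property is open. -/

namespace Pool.Agent.P.MP_6b977f_mp.EB

open Real MeasureTheory Filter Topology Laplacian Set Metric
open scoped ContDiff BoundedContinuousFunction ComplexConjugate Pointwise ENNReal

theorem bopen_min (n : ℕ) (d : ℕ → ℝ) (h : ∀ k ≤ n, 0 < d k) : ∃ e > 0, ∀ k ≤ n, e ≤ d k := by
  obtain ⟨k, hk, hk'⟩ := (Finset.range (n + 1)).exists_min_image d ⟨0, by simp⟩
  exact ⟨d k, h k (Nat.lt_succ_iff.1 (Finset.mem_range.1 hk)),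
    fun j hj => hk' j (Finset.mem_range.2 (Nat.lt_succ_iff.2 hj))⟩

theorem t_bopen (hstab : S_STAB) (hcfc : S_CFC) : S_BOPEN := by
  rintro D n ρ hρ ⟨lam, f, g, hn, hs, hk⟩
  have hl : 0 < lam := (Nat.cast_nonneg n).trans_lt hn
  have h1 := fun k (h : k ≤ n) => hcfc ρ lam f (D k) _ hρ hl hs.1.1.1 hs.2.1 (sub_pos.2 (hk k h))
  choose! d hd hd' using h1
  obtain ⟨e, he, he'⟩ := bopen_min n d hd
  obtain ⟨δ, hδ, hδ'⟩ := hstab ρ lam f g (min e (lam - n)) hρ hl hs (lt_min he (sub_pos.2 hn))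
  refine ⟨min δ e, lt_min hδ he, fun σ hσ h => ?_⟩
  obtain ⟨l, y, g', hy, h2, h3⟩ := hδ' σ hσ fun x => (h x).trans (min_le_left _ _)
  refine ⟨l, y, g', ?_, hy, fun k hkn => ?_⟩
  · have := (abs_lt.1 (h2.trans_le (min_le_right _ _))).1
    linarith
  · have h4 := hd' k hkn σ l y hσ (fun x => (h x).trans ((min_le_right _ _).trans (he' k hkn)))
      (h2.trans_le ((min_le_left _ _).trans (he' k hkn))) hy.1.1.1
      (h3.trans_le (ENNReal.ofReal_le_ofReal ((min_le_left _ _).trans (he' k hkn))))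
    have h5 := norm_sub_le_norm_sub_add_norm_sub (cf (table σ) l (nrm (table σ) y) (D k))
      (cf (table ρ) lam (nrm (table ρ) f) (D k)) (gauss (D k))
    linarith

end Pool.Agent.P.MP_6b977f_mp.EB
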