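import Pool.Agent.P.MP_6b977f_mp.EB.IfS

/-! Compactly supported functions of class `C¹` belong to `H¹₀`. -/

namespace Pool.Agent.P.MP_6b977f_mp.EB

open Real MeasureTheory Filter Topology Laplacian Set Metric
open scoped ContDiff BoundedContinuousFunction ComplexConjugate Pointwise ENNReal Convolution

section

variable {E : Type} [NormedAddCommGroup E] [NormedSpace ℝ E] [CompleteSpace E]

/-- mollification -/
noncomputable def c1t_mol (φ : ContDiffBump (0 : ℂ)) (w : ℂ → E) : ℂ → E :=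
  φ.normed volume ⋆[ContinuousLinearMap.lsmul ℝ ℝ, volume] w

theorem c1t_off {w : ℂ → E} (hw : Continuous w) {K : Set ℂ} (hK : ∀ x ∉ K, w x = 0)
    {φ : ContDiffBump (0 : ℂ)} {δ : ℝ} (hφ : φ.rOut ≤ δ) {x : ℂ} (hx : x ∉ cthickening δ K) :
    c1t_mol φ w x = 0 ∧ w x = 0 := by
  have h0 : ∀ y ∈ ball x φ.rOut, w y = 0 := fun y hy => hK y fun e =>
    hx (mem_cthickening_of_dist_le x y δ K e ((mem_ball'.1 hy).le.trans hφ))
  have h1 := h0 x (mem_ball_self φ.rOut_pos)
  have h2 := φ.dist_normed_convolution_le (μ := volume) (x₀ := x) (ε := 0)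
    hw.aestronglyMeasurable fun y hy => by rw [h0 y hy, h1, dist_self]
  rw [h1, dist_le_zero] at h2
  exact ⟨h2, h1⟩

theorem c1t_lim {w : ℂ → E} (hw : Continuous w) {K : Set ℂ} (hc : IsCompact K)
    (hK : ∀ x ∉ K, w x = 0) {φ : ℕ → ContDiffBump (0 : ℂ)} {δ : ℝ} (hφ : ∀ n, (φ n).rOut ≤ δ)
    (t : Tendsto (fun n => (φ n).rOut) atTop (𝓝 0)) :
    Tendsto (fun n => eLpNorm (c1t_mol (φ n) w - w) 2 volume) atTop (𝓝 0) := by
  have hu : UniformContinuous w :=
    (HasCompactSupport.intro hc hK).uniformContinuous_of_continuous hw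
  have hm : MemLp ((cthickening δ K).indicator fun _ => (1 : ℝ)) 2 volume :=
    memLp_indicator_const 2 isClosed_cthickening.measurableSet 1
      (Or.inr hc.cthickening.measure_lt_top.ne)
  have t0 : Tendsto (fun e : ℝ => ‖e‖ₑ * eLpNorm ((cthickening δ K).indicator fun _ => (1 : ℝ)) 2
      volume) (𝓝[>] 0) (𝓝 0) := by
    have : Tendsto (fun e : ℝ => ‖e‖ₑ) (𝓝[>] 0) (𝓝 0) := by
      simpa using (continuous_enorm.tendsto (0 : ℝ)).mono_left nhdsWithin_le_nhds
    simpa using ENNReal.Tendsto.mul_const this (Or.inr hm.2.ne)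
  refine ENNReal.tendsto_nhds_zero.2 fun ε hε => ?_
  obtain ⟨e, h1, he⟩ := ((ENNReal.tendsto_nhds_zero.1 t0 ε hε).and self_mem_nhdsWithin).exists
  replace he : 0 < e := he
  obtain ⟨r, hr, h2⟩ := Metric.uniformContinuous_iff.1 hu e he
  filter_upwards [t.eventually (Iio_mem_nhds hr)] with n hn
  refine le_trans ?_ h1
  rw [← eLpNorm_const_smul]
  refine eLpNorm_mono_real fun x => ?_
  by_cases hx : x ∈ cthickening δ K
  · rw [Pi.smul_apply, indicator_of_mem hx, smul_eq_mul, mul_one, Pi.sub_apply, ← dist_eq_norm]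
    exact (φ n).dist_normed_convolution_le hw.aestronglyMeasurable fun y hy =>
      (h2 ((mem_ball.1 hy).trans hn)).le
  · obtain ⟨a, b⟩ := c1t_off hw hK (hφ n) hx
    simp [a, b, indicator_of_notMem hx]

end

theorem c1t_grad {u : ℂ → ℝ} (hu : ContDiff ℝ 1 u) (hc : HasCompactSupport u)
    (φ : ContDiffBump (0 : ℂ)) : gradient (c1t_mol φ u) = c1t_mol φ (gradient u) := by
  funext x
  have h := (hc.hasFDerivAt_convolution_right (ContinuousLinearMap.lsmul ℝ ℝ)
    (φ.continuous_normed (μ := volume)).locallyIntegrable (μ := volume) hu x).fderiv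
  rw [gradient, c1t_mol, h, c1t_mol, convolution_def, convolution_def]
  refine ((InnerProductSpace.toDual ℝ ℂ).symm.toLinearIsometry.integral_comp_comm
    (μ := volume) _).symm.trans (integral_congr_ae (Eventually.of_forall fun t => ?_))
  have : ((ContinuousLinearMap.lsmul ℝ ℝ).precompR ℂ (φ.normed volume t)) (fderiv ℝ u (x - t)) =
      φ.normed volume t • fderiv ℝ u (x - t) := by
    ext <;> simp
  simp only [this, map_smul]
  rfl

theorem t_c1t (_hhb2 : S_HB2) : S_C1T := by
  intro Ω u hΩ hu hc hs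
  obtain ⟨δ, hδ, hK⟩ := hc.exists_cthickening_subset_open hΩ hs
  have hp : ∀ n : ℕ, 0 < δ * (1 / ((n : ℝ) + 1)) := fun n => by positivity
  let φ : ℕ → ContDiffBump (0 : ℂ) := fun n => ⟨_, _, half_pos (hp n), half_lt_self (hp n)⟩
  have hφ : ∀ n, (φ n).rOut ≤ δ := fun n => mul_le_of_le_one_right hδ.le
    ((div_le_one (by positivity)).2 (le_add_of_nonneg_left n.cast_nonneg))
  have t : Tendsto (fun n => (φ n).rOut) atTop (𝓝 0) := by
    simpa [φ] using (tendsto_one_div_add_atTop_nhds_zero_nat (𝕜 := ℝ)).const_mul δ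
  have g1 : Continuous (gradient u) :=
    (InnerProductSpace.toDual ℝ ℂ).symm.continuous.comp (hu.continuous_fderiv one_ne_zero)
  have z1 : ∀ x ∉ tsupport u, u x = 0 := fun x => image_eq_zero_of_notMem_tsupport
  have z2 : ∀ x ∉ tsupport u, gradient u x = 0 := fun x hx => by
    rw [gradient, fderiv_of_notMem_tsupport ℝ hx, map_zero]
  have z3 : ∀ n, ∀ x ∉ cthickening δ (tsupport u), c1t_mol (φ n) u x = 0 := fun n x hx =>
    (c1t_off hu.continuous z1 (hφ n) hx).1
  refine ⟨hu.continuous.memLp_of_hasCompactSupport hc,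
    g1.memLp_of_hasCompactSupport (HasCompactSupport.intro hc z2), fun n => c1t_mol (φ n) u,
    fun n => ⟨(φ n).hasCompactSupport_normed.contDiff_convolution_left _ (φ n).contDiff_normed
      hu.continuous.locallyIntegrable, HasCompactSupport.intro (IsCompact.cthickening hc) (z3 n),
      (closure_minimal (Function.support_subset_iff'.2 (z3 n))
        isClosed_cthickening).trans hK⟩, c1t_lim hu.continuous hc z1 hφ t, ?_⟩
  simp only [c1t_grad hu hc]
  exact c1t_lim g1 hc z2 hφ t

end Pool.Agent.P.MP_6b977f_mp.EB
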