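import Pool.Agent.P.MP_6b977f_mp.EB.IfS

/-! Clusters of eigenvalues of norm convergent compact symmetric operators. -/

namespace Pool.Agent.P.MP_6b977f_mp.EB

open Real MeasureTheory Filter Topology Laplacian Set Metric
open scoped ContDiff BoundedContinuousFunction ComplexConjugate Pointwise ENNReal

section

variable {H : Type} [NormedAddCommGroup H] [InnerProductSpace ℝ H]

/-- the eigenvectors `y` of `B` form the cluster of radius `δ` around `κ` -/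
def cl_Clu (B : H →L[ℝ] H) (κ δ : ℝ) {d : ℕ} (y : Fin d → H) (k : Fin d → ℝ) : Prop :=
  Orthonormal ℝ y ∧ (∀ i, B (y i) = k i • y i) ∧ (∀ i, |k i - κ| < δ) ∧
    (∀ v ∈ Submodule.span ℝ (range y), ‖B v - κ • v‖ ≤ δ * ‖v‖) ∧
    ∀ v ∈ (Submodule.span ℝ (range y))ᗮ, δ * ‖v‖ ≤ ‖B v - κ • v‖

theorem cl_perp {d : ℕ} {y : Fin d → H} {v : H} (h : ∀ i, inner ℝ (y i) v = 0) :
    v ∈ (Submodule.span ℝ (range y))ᗮ := by
  rw [Submodule.mem_orthogonal]
  intro u hu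
  obtain ⟨c, rfl⟩ := (Submodule.mem_span_range_iff_exists_fun ℝ).1 hu
  simp [sum_inner, inner_smul_left, h]

omit [InnerProductSpace ℝ H] in
theorem cl_zero {v : H} {a b : ℝ} (h : a * ‖v‖ ≤ b * ‖v‖) (hab : b < a) : v = 0 := by
  by_contra hv
  exact absurd (le_of_mul_le_mul_right h (norm_pos_iff.2 hv)) (not_le.2 hab)

theorem cl_split {B : H →L[ℝ] H} {κ δ κ' : ℝ} {d : ℕ} {y : Fin d → H} {k : Fin d → ℝ}
    (hB : ∀ x z, inner ℝ (B x) z = inner ℝ x (B z)) (h : cl_Clu B κ δ y k) {v : H}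
    (hκ : |κ' - κ| < δ) (hv : B v = κ' • v) :
    ∃ c : Fin d → ℝ, (∀ i, k i ≠ κ' → c i = 0) ∧ v = ∑ i, c i • y i := by
  obtain ⟨ho, he, -, -, hp⟩ := h
  have h1 : ∀ i, k i * inner ℝ (y i) v = κ' * inner ℝ (y i) v := fun i => by
    have := hB (y i) v
    rwa [he, hv, inner_smul_left, inner_smul_right] at this
  refine ⟨fun i => inner ℝ (y i) v, fun i hi => (mul_eq_mul_right_iff.1 (h1 i)).resolve_left hi, ?_⟩
  set w := v - ∑ i, inner ℝ (y i) v • y i with hw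
  have h2 : B w = κ' • w := by
    rw [hw, map_sub, map_sum, hv, smul_sub, Finset.smul_sum]
    congr 1
    refine Finset.sum_congr rfl fun i _ => ?_
    rw [map_smul, he, smul_smul, smul_smul, mul_comm, h1]
  have h3 := hp w (cl_perp fun i => by rw [hw, inner_sub_right, ho.inner_right_fintype, sub_self])
  rw [h2, ← sub_smul, norm_smul, Real.norm_eq_abs] at h3
  exact sub_eq_zero.1 (cl_zero h3 hκ)

theorem cl_dim {d m : ℕ} {y : Fin d → H} {e : Fin m → H} (hy : Orthonormal ℝ y)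
    (h : ∀ v ∈ Submodule.span ℝ (range y), v ∈ (Submodule.span ℝ (range e))ᗮ → v = 0) :
    d ≤ m := by
  let f : (Fin d → ℝ) →ₗ[ℝ] (Fin m → ℝ) :=
    LinearMap.pi fun i => (innerₗ H (e i)).comp (Fintype.linearCombination ℝ y)
  have hf : Function.Injective f := by
    rw [injective_iff_map_eq_zero]
    intro c hc
    have h1 := h (∑ j, c j • y j) ((Submodule.mem_span_range_iff_exists_fun ℝ).2 ⟨c, rfl⟩)
      (cl_perp fun i => by
        simpa [f, Fintype.linearCombination_apply, inner_sum, inner_smul_right] using congrFun hc i)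
    exact funext (Fintype.linearIndependent_iff.1 hy.linearIndependent c h1)
  simpa using LinearMap.finrank_le_finrank_of_injective hf

theorem cl_card {A B : H →L[ℝ] H} {κ δ : ℝ} {d m : ℕ} {y : Fin d → H} {k : Fin d → ℝ}
    {e : Fin m → H} (hA : cl_Clu A κ (2 * δ) e fun _ => κ) (hB : cl_Clu B κ δ y k)
    (hAB : ‖B - A‖ < δ) : d = m := by
  have hn : ∀ v, ‖B v - A v‖ ≤ ‖B - A‖ * ‖v‖ := fun v => (B - A).le_opNorm v
  refine le_antisymm (cl_dim (e := e) hB.1 fun v h1 h2 => ?_)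
    (cl_dim (e := y) hA.1 fun v h1 h2 => ?_)
  · have h3 := hB.2.2.2.1 v h1
    have h4 := hA.2.2.2.2 v h2
    have h5 : ‖A v - κ • v‖ ≤ ‖B v - κ • v‖ + ‖B v - A v‖ := by
      rw [show A v - κ • v = (B v - κ • v) - (B v - A v) by abel]
      exact norm_sub_le _ _
    exact cl_zero (a := δ) (b := ‖B - A‖) (by linarith [hn v]) hAB
  · have h3 : A v = κ • v := by
      obtain ⟨c, rfl⟩ := (Submodule.mem_span_range_iff_exists_fun ℝ).1 h1
      rw [map_sum, Finset.smul_sum]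
      exact Finset.sum_congr rfl fun i _ => by rw [map_smul, hA.2.1, smul_comm]
    have h4 := hB.2.2.2.2 v h2
    rw [← h3] at h4
    exact cl_zero (h4.trans (hn v)) hAB

theorem cl_ne {d m : ℕ} {y : Fin d → H} {e : Fin m → H} (hy : Orthonormal ℝ y) (j : Fin d)
    {c : Fin m → ℝ} (h : y j = ∑ i, c i • e i) : ∃ i, c i ≠ 0 := by
  by_contra hc
  push Not at hc
  exact hy.ne_zero j (by simp [h, hc])

theorem cl_gap {A : H →L[ℝ] H} {κ : ℝ} (hA : ∀ x z, inner ℝ (A x) z = inner ℝ x (A z))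
    (hκ : κ ≠ 0) (h : ∀ δ, 0 < δ → δ < |κ| → ∃ d, ∃ (y : Fin d → H) (k : Fin d → ℝ),
      cl_Clu A κ δ y k) :
    ∃ δ, 0 < δ ∧ δ < |κ| ∧ ∃ m, ∃ e : Fin m → H, cl_Clu A κ (2 * δ) e fun _ => κ := by
  have hp : 0 < |κ| := abs_pos.2 hκ
  obtain ⟨d₀, y₀, k₀, h₀⟩ := h (|κ| / 2) (by linarith) (by linarith)
  have ev : ∀ c : ℝ, 0 < c → ∀ᶠ r in 𝓝[>] (0 : ℝ), r < c := fun c hc =>
    nhdsWithin_le_nhds (Iio_mem_nhds hc)
  have e1 : ∀ᶠ r in 𝓝[>] (0 : ℝ), ∀ i, k₀ i ≠ κ → r < |k₀ i - κ| := eventually_all.2 fun i => by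
    by_cases hi : k₀ i = κ
    · exact Eventually.of_forall fun r hr => (hr hi).elim
    · exact (ev _ (abs_pos.2 (sub_ne_zero.2 hi))).mono fun r hr _ => hr
  obtain ⟨r, ⟨h1, h2⟩, h3⟩ :=
    ((e1.and (ev (|κ| / 2) (by linarith))).and self_mem_nhdsWithin).exists
  replace h3 : 0 < r := h3
  obtain ⟨m, e, k, he⟩ := h r h3 (by linarith)
  have hk : k = fun _ => κ := funext fun j => by
    obtain ⟨c, hc, hj⟩ := cl_split hA h₀ ((he.2.2.1 j).trans h2) (he.2.1 j)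
    obtain ⟨i, hi⟩ := cl_ne he.1 j hj
    have e2 : k₀ i = k j := by_contra fun hne => hi (hc i hne)
    by_contra hne
    exact absurd (h1 i (e2 ▸ hne)) (not_lt.2 (e2 ▸ (he.2.2.1 j).le))
  refine ⟨r / 2, by linarith, by linarith, m, e, ?_⟩
  rwa [show 2 * (r / 2) = r by ring, ← hk]

theorem cl_sub {A : H →L[ℝ] H} {B : ℕ → H →L[ℝ] H} {κ δ : ℝ} {m : ℕ} {y : ℕ → Fin m → H}
    {k : ℕ → Fin m → ℝ} (hA : IsCompactOperator A) (hδ : δ < |κ|)
    (hB : Tendsto (fun n => ‖B n - A‖) atTop (𝓝 0)) (h : ∀ n, cl_Clu (B n) κ δ (y n) (k n)) :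
    ∃ (φ : ℕ → ℕ) (a : Fin m → ℝ) (ψ : Fin m → H), StrictMono φ ∧ Orthonormal ℝ ψ ∧
      (∀ i, A (ψ i) = a i • ψ i) ∧ (∀ i, |a i - κ| ≤ δ) ∧
      (∀ i, Tendsto (fun n => k (φ n) i) atTop (𝓝 (a i))) ∧
      ∀ i, Tendsto (fun n => y (φ n) i) atTop (𝓝 (ψ i)) := by
  obtain ⟨K, hK, hAK⟩ := IsCompactOperator.image_closedBall_subset_compact
    (f := (A : H →ₗ[ℝ] H)) hA 1
  have hc : IsCompact ((Set.pi univ fun _ : Fin m => closedBall κ δ) ×ˢ
      Set.pi univ fun _ : Fin m => K) :=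
    (isCompact_univ_pi fun _ => isCompact_closedBall _ _).prod (isCompact_univ_pi fun _ => hK)
  obtain ⟨⟨a, z⟩, ⟨ha, -⟩, φ, hφ, ht⟩ := hc.tendsto_subseq
    (x := fun n => (k n, fun i => A (y n i))) fun n =>
      ⟨fun i _ => ((h n).2.2.1 i).le, fun i _ => hAK ⟨y n i, by simp [(h n).1.1 i], rfl⟩⟩
  have ha' : ∀ i, |a i - κ| ≤ δ := fun i => ha i trivial
  have nz : ∀ t : ℝ, |t - κ| ≤ δ → t ≠ 0 := fun t ht e => by
    rw [e, zero_sub, abs_neg] at ht
    linarith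
  have t1 : ∀ i, Tendsto (fun n => k (φ n) i) atTop (𝓝 (a i)) := fun i =>
    tendsto_pi_nhds.1 ((continuous_fst.tendsto _).comp ht) i
  have t2 : ∀ i, Tendsto (fun n => A (y (φ n) i)) atTop (𝓝 (z i)) := fun i =>
    tendsto_pi_nhds.1 ((continuous_snd.tendsto _).comp ht) i
  have t3 : ∀ i, Tendsto (fun n => y (φ n) i) atTop (𝓝 ((a i)⁻¹ • z i)) := fun i => by
    have u1 : Tendsto (fun n => (B (φ n) - A) (y (φ n) i)) atTop (𝓝 0) :=
      squeeze_zero_norm (fun n => by simpa [(h _).1.1 i] using (B (φ n) - A).le_opNorm (y (φ n) i))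
        (hB.comp hφ.tendsto_atTop)
    have u2 := ((t1 i).inv₀ (nz _ (ha' i))).smul (u1.add (t2 i))
    rw [zero_add] at u2
    refine u2.congr fun n => ?_
    rw [_root_.sub_apply, sub_add_cancel, (h _).2.1,
      inv_smul_smul₀ (nz _ ((h _).2.2.1 i).le)]
  refine ⟨φ, a, fun i => (a i)⁻¹ • z i, hφ, orthonormal_iff_ite.2 fun i j => ?_, fun i => ?_, ha',
    t1, t3⟩
  · refine tendsto_nhds_unique ((t3 i).inner (t3 j)) ?_
    simp only [orthonormal_iff_ite.1 (h _).1]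
    exact tendsto_const_nhds
  · rw [smul_inv_smul₀ (nz _ (ha' i))]
    exact tendsto_nhds_unique ((A.continuous.tendsto _).comp (t3 i)) (t2 i)

end

theorem t_cl (hcla : S_CLA) : S_CL := by
  intro A An κ hA hs hAn hsn ht hκ
  obtain ⟨δ, h0, hδ, m, e, he⟩ := cl_gap hs hκ fun δ => hcla A κ δ hA hs
  obtain ⟨N, hN⟩ := eventually_atTop.1 (ht.eventually (Iio_mem_nhds h0))
  have hy : ∀ n, ∃ (y : Fin m → L2) (k : Fin m → ℝ), cl_Clu (An (n + N)) κ δ y k := fun n => by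
    obtain ⟨d, y, k, h⟩ := hcla (An (n + N)) κ δ (hAn _) (hsn _) h0 hδ
    obtain rfl : d = m := cl_card he h (hN _ (Nat.le_add_left _ _))
    exact ⟨y, k, h⟩
  choose y k hy using hy
  obtain ⟨φ, a, ψ, hφ, ho, hψ, ha, t1, t2⟩ := cl_sub (B := fun n => An (n + N)) hA hδ
    (ht.comp (tendsto_add_atTop_nat N)) hy
  have hsp : ∀ i, ∃ c : Fin m → ℝ, (∀ j, κ ≠ a i → c j = 0) ∧ ψ i = ∑ j, c j • e j := fun i =>
    cl_split hs he ((ha i).trans_lt (by linarith)) (hψ i)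
  have hak : ∀ i, κ = a i := fun i => by
    obtain ⟨c, hc, hi⟩ := hsp i
    obtain ⟨j, hj⟩ := cl_ne ho i hi
    exact by_contra fun hne => hj (hc j hne)
  have : FiniteDimensional ℝ (Submodule.span ℝ (range e)) :=
    FiniteDimensional.span_of_finite ℝ (finite_range e)
  have hE : Submodule.span ℝ (range ψ) = Submodule.span ℝ (range e) := by
    refine Submodule.eq_of_le_of_finrank_eq (Submodule.span_le.2 ?_) ?_
    · rintro _ ⟨i, rfl⟩
      obtain ⟨c, -, hi⟩ := hsp i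
      exact (Submodule.mem_span_range_iff_exists_fun ℝ).2 ⟨c, hi.symm⟩
    · rw [finrank_span_eq_card ho.linearIndependent, finrank_span_eq_card he.1.linearIndependent]
  refine ⟨m, ψ, δ, fun n => φ n + N, fun n => k (φ n), fun n => y (φ n), h0,
    fun a b hab => Nat.add_lt_add_right (hφ hab) N, ho, fun i => by rw [hψ, ← hak], fun v hv => ?_,
    fun n => (hy _).1, fun n => (hy _).2.1, fun i => hak i ▸ t1 i, t2,
    fun n κ' v h1 h2 => cl_split (hsn _) (hy _) h1 h2⟩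
  obtain ⟨c, -, hc⟩ := cl_split hs he (by rw [sub_self, abs_zero]; linarith) hv
  have hv' : v ∈ Submodule.span ℝ (range ψ) :=
    hE ▸ (Submodule.mem_span_range_iff_exists_fun ℝ).2 ⟨c, hc.symm⟩
  obtain ⟨c', hc'⟩ := (Submodule.mem_span_range_iff_exists_fun ℝ).1 hv'
  exact ⟨c', hc'.symm⟩

end Pool.Agent.P.MP_6b977f_mp.EB
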