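import Pool.Agent.P.MP_6b977f_mp.EB.IfS

/-! Clusters of weak eigenfunctions under uniform convergence of the tables. -/

namespace Pool.Agent.P.MP_6b977f_mp.EB

open Real MeasureTheory Filter Topology Laplacian Set Metric
open scoped ContDiff BoundedContinuousFunction ComplexConjugate Pointwise ENNReal

theorem clu_on {m : ℕ} {ψ : Fin m → L2} (h : Orthonormal ℝ ψ) : ON fun i => ⇑(ψ i) := by
  intro i j
  rw [← orthonormal_iff_ite.1 h i j, L2.inner_def]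
  simp [mul_comm]

theorem clu_sum {m : ℕ} (c : Fin m → ℝ) (y : Fin m → L2) :
    ⇑(∑ i, c i • y i) =ᵐ[volume] fun x => ∑ i, c i * y i x := by
  filter_upwards [Lp.coeFn_fun_finsetSum Finset.univ fun i => c i • y i,
    ae_all_iff.2 fun i => Lp.coeFn_smul (c i) (y i)] with x h1 h2
  rw [h1]
  exact Finset.sum_congr rfl fun i _ => h2 i

theorem t_clu (hcl : S_CL) (hop1 : S_OP1) (hop2 : S_OP2) (hop3 : S_OP3) (hconv : S_CONV)
    (htab : S_TAB) (hhb1 : S_HB1) : S_CLU := by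
  intro ρ σ lam hρ hσ hu l0
  have _ := hhb1
  choose R hR using hop1
  have ev : ∀ Ω l f g, -1 < l → WE Ω l f g → ∃ x : L2, f =ᵐ[volume] x ∧ R Ω x = (1 + l)⁻¹ • x :=
    fun Ω l f g hl h => ⟨_, h.1.1.coeFn_toLp.symm,
      (hop2 Ω _ (hR Ω)).2.2.1 l f g _ hl h h.1.1.coeFn_toLp⟩
  have κ0 : (1 + lam)⁻¹ ≠ 0 := by positivity
  have e : ∀ l : ℝ, (1 + l)⁻¹⁻¹ - 1 = l := fun l => by rw [inv_inv, add_sub_cancel_left]
  obtain ⟨m, ψ, δ, s, k, y, δ0, hs, a1, a2, a3, a4, a5, a6, a7, a8⟩ := hcl (R (table ρ))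
    (fun n => R (table (σ n))) (1 + lam)⁻¹ (hop3 _ _ (htab ρ hρ).2.1 (hR _)) (hop2 _ _ (hR _)).1
    (fun n => hop3 _ _ (htab _ (hσ n)).2.1 (hR _)) (fun n => (hop2 _ _ (hR _)).1)
    (hconv ρ σ _ _ hρ hu (hR _) fun n => hR _) κ0
  obtain ⟨N, hN⟩ := eventually_atTop.1 (eventually_all.2 fun i => (a6 i).eventually_ne κ0)
  choose γ hγ using fun i => (hop2 _ _ (hR _)).2.2.2 _ _ κ0 (a2 i)
  choose g hg using fun n i =>
    (hop2 _ _ (hR _)).2.2.2 _ _ (hN (n + N) (N.le_add_left n) i) (a5 (n + N) i)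
  have c1 : ContinuousAt (fun l : ℝ => (1 + l)⁻¹) lam := by fun_prop (disch := positivity)
  obtain ⟨δ', δ0', hδ⟩ := Metric.eventually_nhds_iff.1 ((lt_mem_nhds (by linarith : -1 < lam)).and
    (Metric.tendsto_nhds.1 c1 δ δ0))
  rw [e] at hγ
  refine ⟨m, fun i => ψ i, γ, δ', fun n => s (n + N), fun n i => (k (n + N) i)⁻¹ - 1,
    fun n i => y (n + N) i, g, δ0', hs.comp fun a b h => Nat.add_lt_add_right h N, clu_on a1, hγ,
    fun f g' h => ?_, fun n => clu_on (a4 _), hg, fun i => ?_, fun i => ?_,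
    fun n l' f g' hl h => ?_⟩
  · obtain ⟨x, h1, h2⟩ := ev _ _ f g' (by linarith) h
    obtain ⟨c, rfl⟩ := a3 x h2
    exact ⟨c, h1.trans (clu_sum c ψ)⟩
  · exact e lam ▸ ((((a6 i).comp (tendsto_add_atTop_nat N)).inv₀ κ0).sub_const 1)
  · exact (Lp.tendsto_Lp_iff_tendsto_eLpNorm' _ _).1 ((a7 i).comp (tendsto_add_atTop_nat N))
  · obtain ⟨x, h1, h2⟩ := ev _ _ f g' (hδ hl).1 h
    obtain ⟨c, h3, rfl⟩ := a8 (n + N) _ x (hδ hl).2 h2
    exact ⟨c, fun i hi => h3 i fun h4 => hi (by simp only [h4, e]), h1.trans (clu_sum c _)⟩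

end Pool.Agent.P.MP_6b977f_mp.EB
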