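import Pool.Agent.P.MP_6b977f_mp.EB.IfS

/-! Norm convergence of the resolvents of converging tables. -/

namespace Pool.Agent.P.MP_6b977f_mp.EB

open Real MeasureTheory Filter Topology Laplacian Set Metric
open scoped ContDiff BoundedContinuousFunction ComplexConjugate Pointwise ENNReal

theorem conv_weak {H : Type} [NormedAddCommGroup H] [InnerProductSpace ℝ H] [CompleteSpace H]
    [TopologicalSpace.SeparableSpace H] (x : ℕ → H) (hx : ∀ n, ‖x n‖ ≤ 1) :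
    ∃ (s : ℕ → ℕ) (a : H), StrictMono s ∧
      ∀ y, Tendsto (fun n => inner ℝ (x (s n)) y) atTop (𝓝 (inner ℝ a y)) := by
  obtain ⟨a, -, s, hs, hlim⟩ := WeakDual.isSeqCompact_closedBall ℝ H 0 1
    (x := fun n => StrongDual.toWeakDual (InnerProductSpace.toDual ℝ H (x n))) fun n => by
      refine (mem_closedBall_zero_iff (E := StrongDual ℝ H)).2 ?_
      change ‖InnerProductSpace.toDual ℝ H (x n)‖ ≤ _
      rw [LinearIsometryEquiv.norm_map]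
      exact hx n
  refine ⟨s, (InnerProductSpace.toDual ℝ H).symm (WeakDual.toStrongDual a), hs, fun y => ?_⟩
  rw [InnerProductSpace.toDual_symm_apply]
  exact ((WeakDual.eval_continuous y).tendsto a).comp hlim

theorem conv_int {E : Type} [NormedAddCommGroup E] [InnerProductSpace ℝ E] {u v : ℂ → E}
    (hu : MemLp u 2 volume) (hv : MemLp v 2 volume) :
    ∫ x, inner ℝ (u x) (v x) = inner ℝ (hu.toLp u) (hv.toLp v) := by
  rw [MeasureTheory.L2.inner_def]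
  refine integral_congr_ae ?_
  filter_upwards [hu.coeFn_toLp, hv.coeFn_toLp] with x h1 h2
  rw [h1, h2]

theorem conv_mul {u v : ℂ → ℝ} (hu : MemLp u 2 volume) (hv : MemLp v 2 volume) :
    ∫ x, u x * v x = inner ℝ (hu.toLp u) (hv.toLp v) := by
  rw [← conv_int]
  exact integral_congr_ae (Eventually.of_forall fun x => by simp [mul_comm])

theorem conv_key (hop2 : S_OP2) (hrell : S_RELL) (hmosco : S_MOSCO) (htab : S_TAB)
    (htab2 : S_TAB2) (hhb1 : S_HB1) {ρ : ℝ → ℝ} {σ : ℕ → ℝ → ℝ} {T : L2 →L[ℝ] L2}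
    {Tn : ℕ → L2 →L[ℝ] L2} (hρ : CP ρ) (hu : TendstoUniformly σ ρ atTop)
    (h1 : ∀ n x, σ n x ≤ ρ x + 1) (hT : IsRes (table ρ) T) (hTn : ∀ n, IsRes (table (σ n)) (Tn n))
    (h : ℕ → L2) (hb : ∀ n, ‖h n‖ ≤ 1) (a : L2)
    (hw : ∀ y, Tendsto (fun n => inner ℝ (h n) y) atTop (𝓝 (inner ℝ a y))) :
    ∃ s : ℕ → ℕ, StrictMono s ∧ Tendsto (fun n => Tn (s n) (h (s n))) atTop (𝓝 (T a)) := by
  have : Fact ((2 : ℝ≥0∞) ≠ ⊤) := ⟨ENNReal.ofNat_ne_top⟩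
  choose g hg he using fun n => hTn n (h n)
  have hb' : ∀ n, ‖h n‖ₑ ≤ 1 := fun n => by
    rw [← ofReal_norm]
    exact ENNReal.ofReal_le_one.2 (hb n)
  have h2 := fun n => ((hop2 _ _ (hTn n)).2.1 (h n) _ _ (hg n) (he n)).2
  obtain ⟨s₁, G, hs₁, hG⟩ := conv_weak (fun n => (hg n).2.1.toLp (g n)) fun n => by
    refine le_trans ?_ (hb n)
    rw [← enorm_le_iff_norm_le, Lp.enorm_toLp]
    exact (h2 n).2
  have hρ1 : CP fun x => ρ x + 1 := ⟨hρ.1.add continuous_const, fun x => by simp only [hρ.2 x]⟩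
  obtain ⟨s₂, f₀, hs₂, hf, hlim⟩ := hrell (table fun x => ρ x + 1) (fun n => Tn (s₁ n) (h (s₁ n)))
    (fun n => g (s₁ n)) 1 (htab _ hρ1).2.1 ENNReal.one_lt_top
    (fun n => hhb1.2.2.2.1 _ _ _ _
      (fun z hz => lt_of_lt_of_le hz (Real.exp_le_exp.2 (h1 _ _))) (hg (s₁ n)))
    (fun n => (h2 _).1.trans (hb' _)) fun n => (h2 _).2.trans (hb' _)
  have hs := hs₁.comp hs₂
  have hu' : TendstoUniformly (fun n => σ (s₁ (s₂ n))) ρ atTop :=
    fun u hu' => hs.tendsto_atTop.eventually (hu u hu')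
  have tg : ∀ v : ℂ → ℂ, MemLp v 2 volume → Tendsto (fun n => ∫ x, inner ℝ (g (s₁ (s₂ n)) x) (v x))
      atTop (𝓝 (∫ x, inner ℝ (G x) (v x))) := fun v hv => by
    rw [conv_int (Lp.memLp G) hv, Lp.toLp_coeFn]
    refine ((hG (hv.toLp v)).comp hs₂.tendsto_atTop).congr fun n => ?_
    rw [conv_int (hg _).2.1 hv]
    rfl
  have H := hmosco ρ _ _ _ f₀ G hρ hu' (fun n => hg (s₁ (s₂ n))) hf (Lp.memLp G) hlim tg
  have tf : Tendsto (fun n => Tn (s₁ (s₂ n)) (h (s₁ (s₂ n)))) atTop (𝓝 (hf.toLp f₀)) :=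
    (Lp.tendsto_Lp_iff_tendsto_eLpNorm _ _ hf).2 hlim
  have e := ((hop2 _ _ hT).2.1 a f₀ G H fun φ hφ => ?_).1
  · refine ⟨_, hs, ?_⟩
    rwa [show hf.toLp f₀ = T a from Lp.ext (hf.coeFn_toLp.trans e)] at tf
  have hm := hhb1.2.2.2.2.1 _ φ hφ
  obtain ⟨δ, δ0, hδ⟩ := (htab2 ρ hρ).2.2 _ hφ.2.1 hφ.2.2
  rw [conv_mul hf hm.1, conv_mul (Lp.memLp a) hm.1, Lp.toLp_coeFn]
  refine tendsto_nhds_unique_of_eventuallyEq
    ((tf.inner (𝕜 := ℝ) (tendsto_const_nhds (x := hm.1.toLp φ))).add (tg _ hm.2.1))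
    ((hw (hm.1.toLp φ)).comp hs.tendsto_atTop) ?_
  filter_upwards [Metric.tendstoUniformly_iff.1 hu' δ δ0] with n hn
  have e := he (s₁ (s₂ n)) φ ⟨hφ.1, hφ.2.1, hδ _ fun x => by
    rw [abs_sub_comm]
    exact (hn x).le⟩
  rwa [conv_mul (Lp.memLp _) hm.1, conv_mul (Lp.memLp _) hm.1, Lp.toLp_coeFn, Lp.toLp_coeFn] at e

theorem t_conv (hop2 : S_OP2) (hop3 : S_OP3) (hrell : S_RELL) (hmosco : S_MOSCO) (htab : S_TAB)
    (htab2 : S_TAB2) (hhb1 : S_HB1) : S_CONV := by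
  intro ρ σ T Tn hρ hu hT hTn
  have _ := hop3
  have : Fact ((2 : ℝ≥0∞) ≠ ⊤) := ⟨ENNReal.ofNat_ne_top⟩
  choose h hb hh using fun n : ℕ => (Tn n - T).exists_lt_apply_of_lt_opNorm
    (sub_lt_self _ (Nat.one_div_pos_of_nat (α := ℝ) (n := n)))
  refine tendsto_of_subseq_tendsto fun t ht => ?_
  obtain ⟨N, hN⟩ := eventually_atTop.1 (ht.eventually (Metric.tendstoUniformly_iff.1 hu 1 one_pos))
  obtain ⟨s₀, a, hs₀, hw⟩ := conv_weak (fun n => h (t (n + N))) fun n => (hb _).le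
  have ht' : Tendsto (fun n => t (s₀ n + N)) atTop atTop :=
    ht.comp ((tendsto_add_atTop_nat N).comp hs₀.tendsto_atTop)
  obtain ⟨s₁, hs₁, t₁⟩ := conv_key hop2 hrell hmosco htab htab2 hhb1
    (σ := fun n => σ (t (s₀ n + N))) (Tn := fun n => Tn (t (s₀ n + N))) hρ
    (fun u hu' => ht'.eventually (hu u hu'))
    (fun n x => by linarith [(abs_lt.1 (hN _ (Nat.le_add_left N (s₀ n)) x)).1]) hT
    (fun n => hTn _) _ (fun n => (hb _).le) a hw
  obtain ⟨s₂, hs₂, t₂⟩ := conv_key hop2 hrell hmosco htab htab2 hhb1 (σ := fun _ => ρ)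
    (Tn := fun _ => T) hρ (fun u hu' => Eventually.of_forall fun _ _ => refl_mem_uniformity hu')
    (fun n x => by linarith) hT (fun _ => hT) (fun n => h (t (s₀ (s₁ n) + N)))
    (fun n => (hb _).le) a fun y => (hw y).comp hs₁.tendsto_atTop
  have t₃ := ((t₁.comp hs₂.tendsto_atTop).sub t₂).norm.add
    ((tendsto_one_div_add_atTop_nhds_zero_nat (𝕜 := ℝ)).comp
      (ht'.comp (hs₁.comp hs₂).tendsto_atTop))
  rw [sub_self, norm_zero, add_zero] at t₃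
  exact ⟨fun n => s₀ (s₁ (s₂ n)) + N, squeeze_zero (fun _ => norm_nonneg _)
    (fun n => sub_le_iff_le_add.1 (hh _).le) t₃⟩

end Pool.Agent.P.MP_6b977f_mp.EB
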