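import Pool.Agent.P.MP_6b977f_mp.EB.IfS

/-! Dilations and translations in `L²` and in `H¹₀`. -/

namespace Pool.Agent.P.MP_6b977f_mp.EB

open Real MeasureTheory Filter Topology Laplacian Set Metric
open scoped ContDiff BoundedContinuousFunction ComplexConjugate Pointwise ENNReal

theorem dil_emb {p : ℝ} (hp : p ≠ 0) (q : ℂ) : MeasurableEmbedding fun x : ℂ => p • x + q :=
  (measurableEmbedding_addRight q).comp (measurableEmbedding_const_smul₀ hp)

theorem dil_map {p : ℝ} (hp : p ≠ 0) (q : ℂ) :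
    (volume : Measure ℂ).map (fun x => p • x + q) = ENNReal.ofReal |(p ^ 2)⁻¹| • volume := by
  have := Measure.map_map (μ := (volume : Measure ℂ)) (measurable_add_const q)
    (measurable_const_smul p)
  rw [Measure.map_addHaar_smul _ hp, Measure.map_smul, map_add_right_eq_self,
    Complex.finrank_real_complex] at this
  exact this.symm

section

variable {F : Type} [NormedAddCommGroup F]

theorem dil_norm {p : ℝ} (hp : p ≠ 0) (q : ℂ) (h : ℂ → F) :
    eLpNorm (fun x => h (p • x + q)) 2 volume = ‖p⁻¹‖ₑ * eLpNorm h 2 volume := by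
  have := (dil_emb hp q).eLpNorm_map_measure (g := h) (p := 2) (μ := volume)
  rw [dil_map hp, eLpNorm_smul_measure_of_ne_top (by simp)] at this
  refine this.symm.trans ?_
  rw [smul_eq_mul, ← inv_pow, abs_pow, ENNReal.ofReal_pow (abs_nonneg _), ← ENNReal.rpow_natCast,
    ← ENNReal.rpow_mul, Real.enorm_eq_ofReal_abs]
  norm_num

theorem dil_mem {p : ℝ} (hp : p ≠ 0) (q : ℂ) {h : ℂ → F} (hh : MemLp h 2 volume) :
    MemLp (fun x => h (p • x + q)) 2 volume :=
  (dil_emb hp q).memLp_map_measure_iff.1 (dil_map hp q ▸ hh.smul_measure ENNReal.ofReal_ne_top)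

theorem dil_cc {h : ℂ → F} (hc : Continuous h) (hs : HasCompactSupport h) :
    Tendsto (fun p : ℝ × ℂ => eLpNorm ((fun x : ℂ => h (p.1 • x + p.2)) - h) 2 volume)
      (𝓝 (1, 0)) (𝓝 0) := by
  obtain ⟨R, hR0, hR⟩ := hs.isCompact.isBounded.subset_ball_lt 0 0
  have hz : ∀ x, R ≤ ‖x‖ → h x = 0 := fun x hx => image_eq_zero_of_notMem_tsupport fun e => by
    have := hR e
    rw [mem_ball_zero_iff] at this
    linarith
  refine ENNReal.tendsto_nhds_zero.2 fun ε hε => ?_
  have hA : eLpNorm ((ball (0 : ℂ) (2 * R + 2)).indicator fun _ => (1 : ℝ)) 2 volume ≠ ⊤ :=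
    (memLp_indicator_const 2 measurableSet_ball _ (Or.inr measure_ball_lt_top.ne)).2.ne
  obtain ⟨η, hη, hη'⟩ := ENNReal.exists_nnreal_pos_mul_lt hA hε.ne'
  obtain ⟨δ, hδ, hδ'⟩ := Metric.uniformContinuous_iff.1 (hs.uniformContinuous_of_continuous hc) η hη
  have c1 : ContinuousAt (fun p : ℝ × ℂ => |p.1 - 1| * (2 * R + 2) + ‖p.2‖) (1, 0) := by fun_prop
  have c2 : ContinuousAt (fun p : ℝ × ℂ => p.1) (1, 0) := by fun_prop
  have c3 : ContinuousAt (fun p : ℝ × ℂ => ‖p.2‖) (1, 0) := by fun_prop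
  filter_upwards [c1.eventually_lt_const (u := δ) (by simpa using hδ),
    c2.eventually_const_lt (u := 1 / 2) (by norm_num),
    c3.eventually_lt_const (u := 1) (by simp)] with p h1 h2 h3
  refine le_trans ?_ hη'.le
  rw [← NNReal.enorm_eq, ← eLpNorm_const_smul]
  refine eLpNorm_mono_real fun x => ?_
  by_cases hx : x ∈ ball (0 : ℂ) (2 * R + 2)
  · rw [Pi.smul_apply, indicator_of_mem hx, smul_eq_mul, mul_one, Pi.sub_apply, ← dist_eq_norm]
    refine (hδ' ?_).le
    rw [dist_eq_norm, show p.1 • x + p.2 - x = (p.1 - 1) • x + p.2 by rw [sub_smul, one_smul]; abel]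
    refine (norm_add_le _ _).trans_lt (lt_of_le_of_lt ?_ h1)
    rw [norm_smul, Real.norm_eq_abs]
    have := (mem_ball_zero_iff.1 hx).le
    gcongr
  · rw [mem_ball_zero_iff, not_lt] at hx
    have : ‖p.1 • x‖ ≤ ‖p.1 • x + p.2‖ + ‖p.2‖ := by
      simpa using norm_sub_le (p.1 • x + p.2) p.2
    rw [norm_smul, Real.norm_eq_abs, abs_of_pos (by linarith)] at this
    rw [Pi.sub_apply, hz x (by linarith), hz _ (by nlinarith), sub_zero, norm_zero]
    exact smul_nonneg η.2 (indicator_nonneg (fun _ _ => zero_le_one) _)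

theorem dil_lim [NormedSpace ℝ F] {f : ℂ → F} (hf : MemLp f 2 volume) :
    Tendsto (fun p : ℝ × ℂ => eLpNorm ((fun x : ℂ => f (p.1 * x + p.2)) - f) 2 volume)
      (𝓝 (1, 0)) (𝓝 0) := by
  simp only [← Complex.real_smul]
  refine ENNReal.tendsto_nhds_zero.2 fun ε hε => ?_
  have h4 : ε / 4 ≠ 0 := (ENNReal.div_pos hε.ne' (by simp)).ne'
  obtain ⟨h, hs, h1, hc, hm⟩ := hf.exists_hasCompactSupport_eLpNorm_sub_le (by simp) h4
  have c2 : ContinuousAt (fun p : ℝ × ℂ => p.1) (1, 0) := by fun_prop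
  filter_upwards [ENNReal.tendsto_nhds_zero.1 (dil_cc hc hs) _ h4.bot_lt,
    c2.eventually_const_lt (u := 1 / 2) (by norm_num)] with p h2 h3
  have hp : p.1 ≠ 0 := by linarith |> ne_of_gt
  have e : (fun x : ℂ => f (p.1 • x + p.2)) - f = (fun x : ℂ => (f - h) (p.1 • x + p.2)) +
      ((fun x : ℂ => h (p.1 • x + p.2)) - h) - (f - h) := by
    funext x
    simp only [Pi.sub_apply, Pi.add_apply]
    abel
  have m1 := dil_mem hp p.2 (hf.sub hm)
  have m2 := (dil_mem hp p.2 hm).sub hm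
  have n1 : ‖p.1⁻¹‖ₑ ≤ 2 := by
    rw [Real.enorm_eq_ofReal_abs, ← ENNReal.ofReal_ofNat]
    refine ENNReal.ofReal_le_ofReal ?_
    rw [abs_of_pos (by positivity), inv_le_comm₀ (by positivity) two_pos]
    linarith
  rw [e]
  refine (eLpNorm_sub_le (m1.add m2).1 (hf.sub hm).1 one_le_two).trans ?_
  refine (add_le_add (eLpNorm_add_le m1.1 m2.1 one_le_two) h1).trans ?_
  rw [dil_norm hp]
  calc _ ≤ 2 * (ε / 4) + ε / 4 + ε / 4 := by gcongr
    _ = 4 * (ε / 4) := by ring
    _ = ε := ENNReal.mul_div_cancel (by simp) (by simp)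

end

theorem dil_div (a : ℝ) (x : ℂ) : x / a = a⁻¹ • x + 0 := by
  rw [add_zero, Complex.real_smul, Complex.ofReal_inv, div_eq_inv_mul]

theorem dil_grad (φ : ℂ → ℝ) (c : ℝ) (x : ℂ) :
    gradient (fun x => φ (c • x)) x = c • gradient φ (c • x) := by
  rw [gradient, fderiv_comp_smul, map_smul, gradient]

theorem dil_test {Ω : Set ℂ} {φ : ℂ → ℝ} (h : IsTest Ω φ) {c : ℝ} (hc : c ≠ 0) :
    IsTest (c⁻¹ • Ω) fun x => φ (c • x) := by
  refine ⟨h.1.comp (contDiff_const_smul c), h.2.1.comp_homeomorph (Homeomorph.smulOfNeZero c hc),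
    fun x hx => ?_⟩
  rw [mem_inv_smul_set_iff₀ hc]
  exact h.2.2 (tsupport_comp_subset_preimage φ (continuous_const_smul c) hx)

theorem dil_h10 {Ω : Set ℂ} {f : ℂ → ℝ} {g : ℂ → ℂ} {a : ℝ} (ha : 0 < a) (h : H10 Ω f g) :
    H10 (a • Ω) (fun x => f (x / a)) (fun x => g (x / a) / a) := by
  obtain ⟨hf, hg, φ, hφ, t1, t2⟩ := h
  have hc := inv_ne_zero ha.ne'
  simp only [dil_div]
  refine ⟨dil_mem hc 0 hf, ?_, fun j x => φ j (a⁻¹ • x), fun j => by
    simpa using dil_test (hφ j) hc, ?_, ?_⟩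
  · simp only [add_zero (a⁻¹ • g _)]
    exact (dil_mem hc 0 hg).const_smul a⁻¹
  · have := ENNReal.Tendsto.const_mul (a := ‖a⁻¹⁻¹‖ₑ) t1 (Or.inr enorm_ne_top)
    simp only [mul_zero, ← dil_norm hc 0] at this
    refine this.congr fun j => ?_
    congr 1
    funext x
    simp
  · have := ENNReal.Tendsto.const_mul (a := ‖a⁻¹‖ₑ) (ENNReal.Tendsto.const_mul (a := ‖a⁻¹⁻¹‖ₑ) t2
      (Or.inr enorm_ne_top)) (Or.inr enorm_ne_top)
    simp only [mul_zero, ← dil_norm hc 0, ← eLpNorm_const_smul] at this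
    refine this.congr fun j => ?_
    congr 1
    funext x
    simp only [Pi.smul_apply, Pi.sub_apply, add_zero, dil_grad, smul_sub]

theorem t_dil (hhb1 : S_HB1) : S_DIL := by
  refine ⟨fun _ _ _ _ => dil_h10, fun Ω lam f g a ha h => ⟨dil_h10 ha h.1, fun φ hφ => ?_⟩,
    fun _ => dil_lim, fun _ => dil_lim⟩
  have h1 := dil_test hφ ha.ne'
  rw [inv_smul_smul₀ ha.ne'] at h1
  have h2 := h.2 _ h1
  have h3 := Measure.integral_comp_smul volume
    (fun y => inner ℝ (g y) (gradient (fun x => φ (a • x)) y)) a⁻¹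
  have h4 := Measure.integral_comp_smul volume (fun y => f y * φ (a • y)) a⁻¹
  rw [smul_eq_mul] at h3 h4
  rw [h2, mul_left_comm, ← h4] at h3
  simp only [smul_inv_smul₀ ha.ne', dil_grad, real_inner_smul_right, integral_const_mul] at h3
  simp only [dil_div, add_zero, real_inner_smul_left, integral_const_mul]
  rw [div_mul_eq_mul_div, ← h3, eq_div_iff (by positivity), sq, ← mul_assoc,
    mul_right_comm a⁻¹, inv_mul_cancel₀ ha.ne', one_mul, mul_comm]

end Pool.Agent.P.MP_6b977f_mp.EB
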