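import Pool.Agent.P.MP_6b977f_mp.EB.IfS

/-! The divergence theorem in a half plane. -/

namespace Pool.Agent.P.MP_6b977f_mp.EB

open Real MeasureTheory Filter Topology Laplacian Set Metric
open scoped ContDiff BoundedContinuousFunction ComplexConjugate Pointwise ENNReal

noncomputable section

theorem green_prod {F : ℂ → ℝ} (hF : Integrable F) (b : ℝ) :
    ∫ z in {z : ℂ | b < z.im}, F z = (∫ x : ℝ, ∫ y in Ioi b, F (x + y * Complex.I)) ∧
    ∫ z in {z : ℂ | b < z.im}, F z = ∫ y in Ioi b, ∫ x : ℝ, F (x + y * Complex.I) := by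
  have hm := Complex.volume_preserving_equiv_real_prod.symm
  have he := Complex.measurableEquivRealProd.symm.measurableEmbedding
  have h1 := hm.setIntegral_preimage_emb he F {z : ℂ | b < z.im}
  have h2 : Complex.measurableEquivRealProd.symm ⁻¹' {z : ℂ | b < z.im} = univ ×ˢ Ioi b := by
    ext p; simp
  have h3 : Integrable (fun p : ℝ × ℝ => F (Complex.measurableEquivRealProd.symm p))
      ((volume : Measure ℝ).prod (volume.restrict (Ioi b))) := by
    have a1 := ((hm.integrable_comp_emb he).2 hF).integrableOn (s := univ ×ˢ Ioi b)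
    rw [IntegrableOn, Measure.volume_eq_prod, ← Measure.prod_restrict,
      Measure.restrict_univ] at a1
    exact a1
  rw [h2, Measure.volume_eq_prod, ← Measure.prod_restrict, Measure.restrict_univ] at h1
  have h4 : ∀ x y : ℝ, Complex.measurableEquivRealProd.symm (x, y) = x + y * Complex.I := by
    intro x y
    apply Complex.ext <;> simp
  constructor
  · rw [← h1, integral_prod _ h3]; simp only [h4]
  · rw [← h1, integral_prod_symm _ h3]; simp only [h4]

theorem green_line {X : ℂ → ℂ} (hX : ContDiff ℝ 1 X) (hc : HasCompactSupport X) (L : ℂ →L[ℝ] ℝ)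
    (a v : ℂ) (hv : v ≠ 0) :
    ContDiff ℝ 1 (fun t : ℝ => L (X (a + t * v))) ∧
      HasCompactSupport (fun t : ℝ => L (X (a + t * v))) ∧
      ∀ t : ℝ, deriv (fun t : ℝ => L (X (a + t * v))) t = L (fderiv ℝ X (a + t * v) v) := by
  have h0 : ContDiff ℝ 1 fun t : ℝ => a + t * v :=
    contDiff_const.add (Complex.ofRealCLM.contDiff.mul contDiff_const)
  refine ⟨L.contDiff.comp (hX.comp h0), ?_, fun t => ?_⟩
  · have h1 : IsClosedEmbedding fun t : ℝ => a + t * v :=
      (Homeomorph.addLeft a).isClosedEmbedding.comp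
        ((Homeomorph.mulRight₀ v hv).isClosedEmbedding.comp Complex.isometry_ofReal.isClosedEmbedding)
    exact (hc.comp_isClosedEmbedding h1).comp_left (g := L) (map_zero L)
  · have h1 : HasDerivAt (fun t : ℝ => a + t * v) v t := by
      simpa using ((hasDerivAt_id t).ofReal_comp.mul_const v).const_add a
    exact (L.hasFDerivAt.comp_hasDerivAt t
      (((hX.differentiable one_ne_zero) _).hasFDerivAt.comp_hasDerivAt t h1)).deriv

theorem t_green : S_GREEN := by
  intro X b hX hc
  have hi : ∀ (L : ℂ →L[ℝ] ℝ) (v : ℂ), Integrable fun z => L (fderiv ℝ X z v) := fun L v =>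
    (L.continuous.comp ((hX.continuous_fderiv one_ne_zero).clm_apply
      continuous_const)).integrable_of_hasCompactSupport
      ((hc.fderiv_apply ℝ v).comp_left (g := L) (map_zero L))
  have h1 := hi Complex.reCLM 1
  have h2 := hi Complex.imCLM Complex.I
  have h3 : ∀ y : ℝ, ∫ x : ℝ, Complex.reCLM (fderiv ℝ X (x + y * Complex.I) 1) = 0 := by
    intro y
    obtain ⟨a1, a2, a3⟩ := green_line hX hc Complex.reCLM (y * Complex.I) 1 one_ne_zero
    have a4 := integral_eq_zero_of_hasDerivAt_of_integrable
      (fun t => (a1.differentiable one_ne_zero t).hasDerivAt)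
      ((a1.continuous_deriv le_rfl).integrable_of_hasCompactSupport a2.deriv)
      (a1.continuous.integrable_of_hasCompactSupport a2)
    simp only [a3] at a4
    simpa only [mul_one, add_comm] using a4
  have h4 : ∀ x : ℝ, ∫ y in Ioi b, Complex.imCLM (fderiv ℝ X (x + y * Complex.I) Complex.I) =
      -(X (x + b * Complex.I)).im := by
    intro x
    obtain ⟨a1, a2, a3⟩ := green_line hX hc Complex.imCLM x Complex.I Complex.I_ne_zero
    have a4 := a2.integral_Ioi_deriv_eq a1 b
    simp only [a3] at a4
    exact a4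
  have h5 := (green_prod h1 b).2
  have h6 := (green_prod h2 b).1
  simp only [h3, integral_zero] at h5
  simp only [h4, integral_neg] at h6
  have h7 := integral_add (h1.integrableOn (s := {z : ℂ | b < z.im})) h2.integrableOn
  rw [h5, h6, zero_add] at h7
  exact h7

end

end Pool.Agent.P.MP_6b977f_mp.EB
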