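import Pool.Agent.P.MP_6b977f_mp.EB.IfS

/-! The Hadamard variation formula along sequences of eigenfunctions. -/

namespace Pool.Agent.P.MP_6b977f_mp.EB

open Real MeasureTheory Filter Topology Laplacian Set Metric
open scoped ContDiff BoundedContinuousFunction ComplexConjugate Pointwise ENNReal

section

variable {E : Type} [NormedAddCommGroup E] [InnerProductSpace ℝ E]

lemma had_ae {f g : ℂ → E} (hf : MemLp f 2 volume) (hg : MemLp g 2 volume) :
    (fun x => inner ℝ (hf.toLp f x) (hg.toLp g x)) =ᵐ[volume] fun x => inner ℝ (f x) (g x) := by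
  filter_upwards [hf.coeFn_toLp, hg.coeFn_toLp] with x h1 h2
  rw [h1, h2]

lemma had_int {f g : ℂ → E} (hf : MemLp f 2 volume) (hg : MemLp g 2 volume) :
    Integrable fun x => inner ℝ (f x) (g x) :=
  (L2.integrable_inner (𝕜 := ℝ) _ _).congr (had_ae hf hg)

lemma had_small {u h : ℂ → E} {K : Set ℂ} {ε : ℝ} (hK : IsCompact K) (hu : MemLp u 2 volume)
    (h1 : ∀ x, ‖h x‖ ≤ ε) (h2 : ∀ x ∉ K, h x = 0) :
    |∫ x, inner ℝ (u x) (h x)| ≤ ε * (volume.real K + ∫ x, inner ℝ (u x) (u x)) := by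
  have hε : 0 ≤ ε := (norm_nonneg _).trans (h1 0)
  have i1 : Integrable (K.indicator fun _ => (1 : ℝ)) :=
    (integrable_indicator_iff hK.measurableSet).2 (integrableOn_const hK.measure_lt_top.ne)
  have := norm_integral_le_of_norm_le (f := fun x => inner ℝ (u x) (h x))
    ((i1.add (had_int hu hu)).const_mul ε) (Eventually.of_forall fun x => ?_)
  · rwa [integral_const_mul, integral_add' i1 (had_int hu hu),
      integral_indicator_const _ hK.measurableSet, smul_eq_mul, mul_one, Real.norm_eq_abs] at this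
  · rw [Pi.add_apply, real_inner_self_eq_norm_sq]
    by_cases hx : x ∈ K
    · rw [indicator_of_mem hx]
      calc _ ≤ ‖u x‖ * ‖h x‖ := norm_inner_le_norm _ _
        _ ≤ (1 + ‖u x‖ ^ 2) * ε := mul_le_mul (by nlinarith [sq_nonneg (‖u x‖ - 1)]) (h1 x)
            (norm_nonneg _) (by positivity)
        _ = _ := mul_comm _ _
    · rw [h2 x hx, inner_zero_right, norm_zero, indicator_of_notMem hx]
      positivity

end

lemma had_tend {u v : ℕ → ℂ → ℝ} {u₀ v₀ : ℂ → ℝ} (hu : ∀ n, MemLp (u n) 2 volume)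
    (hv : ∀ n, MemLp (v n) 2 volume) (hu₀ : MemLp u₀ 2 volume) (hv₀ : MemLp v₀ 2 volume)
    (h1 : Tendsto (fun n => eLpNorm (u n - u₀) 2 volume) atTop (𝓝 0))
    (h2 : Tendsto (fun n => eLpNorm (v n - v₀) 2 volume) atTop (𝓝 0)) :
    Tendsto (fun n => ∫ x, u n x * v n x) atTop (𝓝 (∫ x, u₀ x * v₀ x)) := by
  have e : ∀ {f g : ℂ → ℝ} (hf : MemLp f 2 volume) (hg : MemLp g 2 volume),
      ∫ x, f x * g x = inner ℝ (hg.toLp g) (hf.toLp f) := fun hf hg => by
    rw [L2.inner_def, integral_congr_ae (had_ae hg hf)]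
    simp
  simp only [fun n => e (hu n) (hv n), e hu₀ hv₀]
  exact ((Lp.tendsto_Lp_iff_tendsto_eLpNorm'' _ hv _ hv₀).2 h2).inner
    ((Lp.tendsto_Lp_iff_tendsto_eLpNorm'' _ hu _ hu₀).2 h1)

lemma had_mul {f g : ℂ → ℝ} (hf : MemLp f 2 volume) (hg : MemLp g 2 volume) :
    Integrable fun x => f x * g x := hf.integrable_mul hg

lemma had_re (L : ℂ →L[ℝ] ℝ) : ((InnerProductSpace.toDual ℝ ℂ).symm L).re = L 1 := by
  rw [← InnerProductSpace.toDual_symm_apply, Complex.inner, one_mul, Complex.conj_re]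

lemma had_im (L : ℂ →L[ℝ] ℝ) : ((InnerProductSpace.toDual ℝ ℂ).symm L).im = L Complex.I := by
  rw [← InnerProductSpace.toDual_symm_apply, Complex.inner, Complex.I_mul_re, Complex.conj_im,
    neg_neg]

lemma had_grad {v : ℂ → ℝ} {z : ℂ} {n m : WithTop ℕ∞} (h : ContDiffAt ℝ n v z) (hm : m + 1 ≤ n) :
    ContDiffAt ℝ m (gradient v) z :=
  (InnerProductSpace.toDual ℝ ℂ).symm.contDiff.contDiffAt.comp z (h.fderiv_right hm)

lemma had_grad_zero {Φ : ℂ → ℝ} {z : ℂ} (h : z ∉ tsupport Φ) : gradient Φ z = 0 := by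
  rw [gradient, fderiv_of_notMem_tsupport ℝ h, map_zero]

lemma had_L2 {Φ : ℂ → ℝ} (h : ContDiff ℝ 1 Φ) (hc : HasCompactSupport Φ) :
    MemLp Φ 2 volume ∧ MemLp (gradient Φ) 2 volume ∧ HasCompactSupport (gradient Φ) := by
  have h1 : HasCompactSupport (gradient Φ) := HasCompactSupport.intro hc fun x hx => had_grad_zero hx
  have h2 : Continuous (gradient Φ) := continuous_iff_continuousAt.2 fun z =>
    (had_grad (m := 0) h.contDiffAt (by simp)).continuousAt
  exact ⟨h.continuous.memLp_of_hasCompactSupport hc, h2.memLp_of_hasCompactSupport h1, h1⟩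

lemma had_divL2 {X : ℂ → ℂ} (h : ContDiff ℝ 1 X) (hc : HasCompactSupport X) :
    Continuous (fun x => (fderiv ℝ X x 1).re + (fderiv ℝ X x Complex.I).im) ∧
      HasCompactSupport fun x => (fderiv ℝ X x 1).re + (fderiv ℝ X x Complex.I).im := by
  have h1 := h.continuous_fderiv one_ne_zero
  refine ⟨by fun_prop, HasCompactSupport.intro hc fun x hx => ?_⟩
  simp [fderiv_of_notMem_tsupport ℝ hx]

lemma had_div {Φ v : ℂ → ℝ} {z : ℂ} (hΦ : DifferentiableAt ℝ Φ z) (hv : ContDiffAt ℝ 2 v z) :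
    (fderiv ℝ (fun x => Φ x • gradient v x) z 1).re +
      (fderiv ℝ (fun x => Φ x • gradient v x) z Complex.I).im =
      inner ℝ (gradient v z) (gradient Φ z) + Φ z * Δ v z := by
  have h1 : DifferentiableAt ℝ (fderiv ℝ v) z :=
    (hv.fderiv_right (m := 1) (by norm_num)).differentiableAt one_ne_zero
  have h2 : HasFDerivAt (gradient v) _ z :=
    (InnerProductSpace.toDual ℝ ℂ).symm.toContinuousLinearEquiv.hasFDerivAt.comp z h1.hasFDerivAt
  rw [(hΦ.hasFDerivAt.fun_smul h2).fderiv,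
    InnerProductSpace.laplacian_eq_iteratedFDeriv_complexPlane, Complex.inner, Complex.mul_re,
    Complex.conj_re, Complex.conj_im]
  simp [iteratedFDeriv_two_apply, gradient, had_re, had_im]
  ring

lemma had_bd (htab : S_TAB) {ρ : ℝ → ℝ} {c z : ℂ} {r : ℝ} (hρ : CP ρ) (hF : Flat (table ρ) c r)
    (hz : z ∈ ball c r) (him : z.im = c.im) : bd ρ z.arg = z := by
  have h1 : z ∉ table ρ := fun h => by
    have := (hF.2.2 z hz).1 h
    linarith
  have h2 : z ∈ closure (table ρ) := by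
    have hc : Tendsto (fun s : ℝ => z + s * Complex.I) (𝓝[>] 0) (𝓝 z) := by
      refine Tendsto.mono_left (Continuous.tendsto' (by fun_prop) _ _ (by simp)) nhdsWithin_le_nhds
    refine mem_closure_of_tendsto hc ?_
    filter_upwards [hc.eventually (isOpen_ball.mem_nhds hz), self_mem_nhdsWithin] with s h3 h4
    refine (hF.2.2 _ h3).2 ?_
    simpa [him] using h4
  rw [(htab ρ hρ).2.2.2.2.2.1] at h2
  have h3 : Real.exp (ρ z.arg) = ‖z‖ := le_antisymm (not_lt.1 h1) h2
  rw [bd, h3, ex, Complex.norm_mul_exp_arg_mul_I]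

lemma had_lim (hgreen : S_GREEN) (hhb1 : S_HB1) (hhb2 : S_HB2) {Ω : Set ℂ} {c : ℂ} {r lam : ℝ}
    {y v Φ : ℂ → ℝ} {g : ℂ → ℂ} (hF : Flat Ω c r) (hy : H10 Ω y g) (hv : OddExt c r lam y v)
    (hΦ : ContDiff ℝ 1 Φ) (hs : tsupport Φ ⊆ closedBall c (7 * r / 8)) :
    lam * (∫ z, y z * Φ z) - ∫ z, inner ℝ (g z) (gradient Φ z) =
      ∫ σ : ℝ, Φ (σ + c.im * Complex.I) * fderiv ℝ v (σ + c.im * Complex.I) Complex.I := by
  have hb : tsupport Φ ⊆ ball c r := hs.trans (closedBall_subset_ball (by linarith [hF.1]))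
  have hc : HasCompactSupport Φ := (isCompact_closedBall _ _).of_isClosed_subset isClosed_closure hs
  obtain ⟨i1, i2, -⟩ := had_L2 hΦ hc
  have hva : ∀ z ∈ ball c r, ContDiffAt ℝ ∞ v z := fun z hz =>
    hv.1.1.contDiffAt (isOpen_ball.mem_nhds hz)
  have hX0 : ∀ z ∉ tsupport Φ, (fun x => Φ x • gradient v x) =ᶠ[𝓝 z] fun _ => 0 := fun z hz => by
    filter_upwards [notMem_tsupport_iff_eventuallyEq.1 hz] with x hx
    simp [hx]
  have hX : ContDiff ℝ 1 fun x => Φ x • gradient v x := contDiff_iff_contDiffAt.2 fun z => by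
    by_cases hz : z ∈ tsupport Φ
    · exact hΦ.contDiffAt.smul (had_grad (hva z (hb hz)) (by norm_cast))
    · exact contDiffAt_const.congr_of_eventuallyEq (hX0 z hz)
  have hXc : HasCompactSupport fun x => Φ x • gradient v x :=
    HasCompactSupport.intro hc fun x hx => (hX0 x hx).eq_of_nhds
  have hH : IsOpen {z : ℂ | c.im < z.im} := isOpen_lt continuous_const Complex.continuous_im
  have h1 := hgreen _ c.im hX hXc
  rw [← integral_indicator hH.measurableSet] at h1
  have h2 := hhb2.2.1 Ω y g (ball c r ∩ {z : ℂ | c.im < z.im}) v hy (isOpen_ball.inter hH)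
    ((hv.1.1.mono inter_subset_left).of_le (by norm_cast)) (by
      filter_upwards [hv.2.2] with x hx h using (hx h.1 h.2).symm)
  have h3 : ∫ z, (inner ℝ (g z) (gradient Φ z) - lam * (y z * Φ z)) = _ :=
    (integral_congr_ae ?_).trans h1
  · rw [integral_sub (had_int hy.2.1 i2) ((had_mul hy.1 i1).const_mul lam),
      integral_const_mul] at h3
    simp only [Complex.smul_im, gradient, had_im, smul_eq_mul] at h3
    simp only [gradient]
    linarith
  filter_upwards [h2, hv.2.2, hhb1.2.2.2.2.2.1 Ω y g hy] with z h4 h5 h6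
  by_cases hz : z ∈ tsupport Φ
  · by_cases hz' : c.im < z.im
    · rw [indicator_of_mem (s := {z : ℂ | c.im < z.im}) hz', h4 ⟨hb hz, hz'⟩, ← h5 (hb hz) hz',
        had_div (hΦ.differentiable one_ne_zero z) ((hva z (hb hz)).of_le (by norm_cast)),
        eq_neg_of_add_eq_zero_left (hv.1.2 z (hb hz))]
      ring
    · obtain ⟨h7, h8⟩ := h6 fun h => hz' ((hF.2.2 z (hb hz)).1 h)
      rw [indicator_of_notMem (s := {z : ℂ | c.im < z.im}) hz', h7, h8]
      simp
  · rw [had_grad_zero hz, image_eq_zero_of_notMem_tsupport hz, indicator_apply,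
      (hX0 z hz).fderiv_eq]
    simp

theorem t_had (hhad1 : S_HAD1) (hhad3 : S_HAD3) (hgreen : S_GREEN) (hhb1 : S_HB1) (hhb2 : S_HB2)
    (htab : S_TAB) : S_HAD := by
  intro ρ c r lam ψ γ w y g v δ t l yn gn hρ hF hψ hw hy hv hδ hδp hδs ht0 ht hl hn hyn
  classical
  have hr := hF.1
  have hw0 : ∀ z ∈ ball c r, z.im = c.im → w z = 0 := fun z hz him => by
    have h1 := hw.2.1 z hz
    rw [show mir (-c.im) z = z from Complex.ext (by simp [mir]) (by simp [mir, him]; ring)] at h1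
    linarith
  obtain ⟨Φ, hΦ, hΦs, hΦl, hΨ⟩ := hhad3 ρ c r w δ hρ hF hw.1.1 hw0 hδ hδp hδs
  have hK := isCompact_closedBall c (7 * r / 8)
  have hKb : closedBall c (7 * r / 8) ⊆ ball c r := closedBall_subset_ball (by linarith)
  have hhb : closedBall c (r / 2) ⊆ ball c r := closedBall_subset_ball (by linarith)
  have hΦ1 : ContDiff ℝ 1 Φ := hΦ.of_le (by norm_cast)
  have hΦc : HasCompactSupport Φ := hK.of_isClosed_subset isClosed_closure hΦs
  obtain ⟨iΦ, iΦ', hΦc'⟩ := had_L2 hΦ1 hΦc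
  have hΦg : ContDiff ℝ 1 (gradient Φ) :=
    contDiff_iff_contDiffAt.2 fun z => had_grad hΦ.contDiffAt (by norm_cast)
  have hwψ : ∀ᵐ z, z ∈ ball c r → z ∈ table ρ → w z = ψ z := by
    filter_upwards [hw.2.2] with z h h1 h2 using h h1 ((hF.2.2 z h1).1 h2)
  have hW : MemLp ((closedBall c (r / 2)).piecewise w ψ) 2 volume := by
    refine MemLp.piecewise measurableSet_closedBall ?_ (hψ.1.1.restrict _)
    have h1 := hw.1.1.continuousOn.mono hhb
    obtain ⟨C, hC⟩ := (isCompact_closedBall c (r / 2)).exists_bound_of_continuousOn h1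
    have : IsFiniteMeasure (volume.restrict (closedBall c (r / 2))) :=
      isFiniteMeasure_restrict.2 measure_closedBall_lt_top.ne
    exact MemLp.of_bound (h1.aestronglyMeasurable measurableSet_closedBall) C
      (ae_restrict_of_forall_mem measurableSet_closedBall hC)
  have iy : ∀ n, MemLp (yn n) 2 volume := fun n => (hn n).1.1
  have ig : ∀ n, MemLp (gn n) 2 volume := fun n => (hn n).1.2.1
  have hlim : ∀ F : ℂ → ℝ, MemLp F 2 volume →
      Tendsto (fun n => ∫ x, yn n x * F x) atTop (𝓝 (∫ x, y x * F x)) := fun F hF =>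
    had_tend iy (fun _ => hF) hy.1.1 hF hyn (by simp)
  refine ⟨fun n => ∫ z, (closedBall c (r / 2)).piecewise w ψ z * yn n z, ?_, ?_⟩
  · have h1 := hlim _ hW
    simp only [mul_comm _ (Set.piecewise _ w ψ _)] at h1
    convert h1 using 2
    refine integral_congr_ae ?_
    filter_upwards [hwψ, hhb1.2.2.2.2.2.1 _ _ _ hy.1] with z h2 h3
    by_cases h4 : z ∈ closedBall c (r / 2)
    · by_cases h5 : z ∈ table ρ
      · rw [piecewise_eq_of_mem _ _ _ h4, h2 (hhb h4) h5]
      · simp [(h3 h5).1]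
    · rw [piecewise_eq_of_notMem _ _ _ h4]
  have hA : Tendsto (fun n => l n * (∫ z, yn n z * Φ z) - ∫ z, inner ℝ (gn n z) (gradient Φ z))
      atTop (𝓝 (lam * (∫ z, y z * Φ z) - ∫ z, inner ℝ (g z) (gradient Φ z))) := by
    obtain ⟨h1, h2⟩ := had_divL2 hΦg hΦc'
    simp only [fun n => hhb2.1 _ _ _ _ (hn n).1 hΦg hΦc', hhb2.1 _ _ _ _ hy.1 hΦg hΦc']
    exact (hl.mul (hlim Φ iΦ)).sub (hlim _ (h1.memLp_of_hasCompactSupport h2)).neg
  have hL : ∫ σ : ℝ, Φ (σ + c.im * Complex.I) * fderiv ℝ v (σ + c.im * Complex.I) Complex.I =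
      c.im * ∫ σ in (c.re - r / 2)..(c.re + r / 2), δ (σ + c.im * Complex.I : ℂ).arg *
        (fderiv ℝ w (σ + c.im * Complex.I) Complex.I *
          fderiv ℝ v (σ + c.im * Complex.I) Complex.I) := by
    rw [intervalIntegral.integral_of_le (by linarith), ← integral_const_mul,
      ← integral_indicator measurableSet_Ioc]
    congr 1
    funext σ
    have hd : dist (σ + c.im * Complex.I : ℂ) c = |σ - c.re| := by
      rw [dist_eq_norm, show (σ + c.im * Complex.I : ℂ) - c = ((σ - c.re : ℝ) : ℂ) from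
        Complex.ext (by simp) (by simp), Complex.norm_real, Real.norm_eq_abs]
    by_cases h1 : σ ∈ Ioc (c.re - r / 2) (c.re + r / 2)
    · rw [indicator_of_mem h1, hΦl _ (by
        rw [mem_ball, hd, abs_lt]; constructor <;> linarith [h1.1, h1.2]) (by simp)]
      ring
    · rw [indicator_of_notMem h1]
      by_cases h2 : (σ + c.im * Complex.I : ℂ) ∈ ball c r
      · have h3 : δ (σ + c.im * Complex.I : ℂ).arg = 0 := by
          by_contra h4
          have h5 := hδs _ h4
          rw [had_bd htab hρ hF h2 (by simp), mem_ball, hd, abs_lt] at h5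
          exact h1 ⟨by linarith [h5.1], by linarith [h5.2]⟩
        rw [hΦl _ h2 (by simp), h3]
        ring
      · rw [image_eq_zero_of_notMem_tsupport fun h => h2 (hKb (hΦs h)), zero_mul]
  rw [← hL, ← had_lim hgreen hhb1 hhb2 hF hy.1 hv hΦ1 hΦs]
  refine hA.congr_dist (Metric.tendsto_nhds.2 fun ε hε => ?_)
  have hyy := had_tend iy iy hy.1.1 hy.1.1 hyn hyn
  obtain ⟨B, hB⟩ := ((hl.abs.mul (hyy.const_add (volume.real (closedBall c (7 * r / 8))))).add
    ((hl.mul hyy).const_add (volume.real (closedBall c (7 * r / 8))))).isBoundedUnder_le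
  obtain ⟨t₀, ht₀, hΨ⟩ := hΨ (ε / (|B| + 1)) (by positivity)
  filter_upwards [eventually_map.1 hB, Metric.tendsto_nhds.1 ht t₀ ht₀] with n hB hn0
  rw [Real.dist_0_eq_abs] at hn0
  obtain ⟨he, Ψ, hΨ1, hΨs, hΨf, hΨe⟩ := hΨ (t n) (ht0 n) hn0
  have hρn : CP fun x => ρ x + t n * δ x :=
    ⟨hρ.1.add (continuous_const.mul hδ.continuous), fun x => by simp only [hρ.2 x, hδp x]⟩
  obtain ⟨iΨ, iΨ', -⟩ := had_L2 hΨ1 (hK.of_isClosed_subset isClosed_closure hΨs)
  have h1 := hhad1 _ _ c r lam (l n) ψ γ w (yn n) (gn n) (fun z => t n * Ψ z) (htab ρ hρ).1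
    (htab _ hρn).1 (htab _ hρn).2.1 hr he hψ hw.1 hwψ (hn n) (contDiff_const.mul hΨ1)
    ((tsupport_mul_subset_right.trans hΨs).trans hKb) (fun z hz => (hΨf z hz).1)
    fun z hz => (hΨf z hz).2
  have h2 : ∀ z, gradient (fun z => t n * Ψ z) z = t n • gradient Ψ z := fun z => by
    rw [gradient, gradient, fderiv_const_mul (hΨ1.differentiable one_ne_zero z), map_smul]
  simp only [h2, real_inner_smul_right, mul_left_comm _ (t n), integral_const_mul] at h1
  have h3 := had_small (h := fun z => Ψ z - Φ z) hK (iy n) (fun z => (hΨe z).1) fun z hz => by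
    rw [image_eq_zero_of_notMem_tsupport fun h => hz (hΨs h),
      image_eq_zero_of_notMem_tsupport fun h => hz (hΦs h), sub_zero]
  have h4 := had_small (h := fun z => gradient Ψ z - gradient Φ z) hK (ig n)
    (fun z => (hΨe z).2) fun z hz => by
      rw [had_grad_zero fun h => hz (hΨs h), had_grad_zero fun h => hz (hΦs h), sub_zero]
  simp only [RCLike.inner_apply, conj_trivial, mul_comm _ (yn n _), mul_sub] at h3
  simp only [inner_sub_right] at h4
  rw [integral_sub (had_mul (iy n) iΨ) (had_mul (iy n) iΦ)] at h3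
  rw [integral_sub (had_int (ig n) iΨ') (had_int (ig n) iΦ'),
    hhb1.2.2.2.2.2.2.2.1 _ _ _ _ _ _ (hn n) (hn n).1] at h4
  rw [Real.dist_0_eq_abs, abs_dist, Real.dist_eq, div_mul_eq_mul_div, h1, ← mul_sub,
    mul_div_cancel_left₀ _ (ht0 n)]
  have h5 : ε / (|B| + 1) * B < ε := by
    rw [div_mul_eq_mul_div, div_lt_iff₀ (by positivity)]
    nlinarith [le_abs_self B]
  refine lt_of_le_of_lt ?_ ((mul_le_mul_of_nonneg_left hB (by positivity)).trans_lt h5)
  rw [abs_sub_comm, sub_sub_sub_comm, ← mul_sub, mul_add, mul_left_comm]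
  refine (abs_sub _ _).trans (add_le_add ?_ h4)
  rw [abs_mul]
  exact mul_le_mul_of_nonneg_left h3 (abs_nonneg _)

end Pool.Agent.P.MP_6b977f_mp.EB
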