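import Pool.Agent.P.MP_6b977f_mp.EB.IfS

/-! The exact identity behind the Hadamard variation formula. -/

namespace Pool.Agent.P.MP_6b977f_mp.EB

open Real MeasureTheory Filter Topology Laplacian Set Metric
open scoped ContDiff BoundedContinuousFunction ComplexConjugate Pointwise ENNReal

theorem had1_int {f g : ℂ → ℂ} (hf : MemLp f 2 volume) (hg : MemLp g 2 volume) :
    Integrable (fun x => inner ℝ (f x) (g x)) volume :=
  (L2.integrable_inner (𝕜 := ℝ) hf.toLp hg.toLp).congr (by
    filter_upwards [hf.coeFn_toLp, hg.coeFn_toLp] with x h1 h2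
    rw [h1, h2])

theorem had1_cut {E : Type} [NormedAddCommGroup E] [NormedSpace ℝ E] {O : Set ℂ} (hO : IsOpen O)
    {χ : ℂ → ℝ} (hχ : ContDiff ℝ 1 χ) (hs : tsupport χ ⊆ O) {F : ℂ → E} (hF : ContDiffOn ℝ 1 F O) :
    ContDiff ℝ 1 fun x => χ x • F x := by
  refine contDiff_iff_contDiffAt.2 fun x => ?_
  by_cases hx : x ∈ tsupport χ
  · exact hχ.contDiffAt.smul (hF.contDiffAt (hO.mem_nhds (hs hx)))
  · refine (contDiffAt_const (c := 0)).congr_of_eventuallyEq ?_
    filter_upwards [notMem_tsupport_iff_eventuallyEq.1 hx] with y hy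
    simp [hy]

theorem had1_re (a : ℂ) : a.re = inner ℝ a 1 := by simp [Complex.inner]

theorem had1_im (a : ℂ) : a.im = inner ℝ a Complex.I := by simp [Complex.inner]

theorem had1_zero {χ : ℂ → ℝ} {x : ℂ} {a : ℝ} (h : ∀ᶠ y in 𝓝 x, χ y = a) : gradient χ x = 0 := by
  rw [gradient, Filter.EventuallyEq.fderiv_eq (f := fun _ => a) h]
  simp

theorem had1_grad {O : Set ℂ} (hO : IsOpen O) {χ w : ℂ → ℝ} (hχ : ContDiff ℝ 1 χ)
    (hs : tsupport χ ⊆ O) (hw : ContDiffOn ℝ ∞ w O) (x : ℂ) :
    gradient (fun x => χ x • w x) x = χ x • gradient w x + w x • gradient χ x := by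
  by_cases hx : x ∈ tsupport χ
  · refine ext_inner_right ℝ fun v => ?_
    have d1 := hχ.differentiable one_ne_zero x
    have d2 := (hw.contDiffAt (hO.mem_nhds (hs hx))).differentiableAt (by simp)
    simp only [inner_add_left, inner_smul_left, inner_gradient_left, smul_eq_mul]
    rw [fderiv_fun_mul d1 d2]
    simp
  · have h := notMem_tsupport_iff_eventuallyEq.1 hx
    rw [had1_zero (a := 0) h, had1_zero (a := 0) (h.mono fun y hy => by simp [hy]),
      show χ x = 0 from h.self_of_nhds]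
    simp

theorem had1_div {O : Set ℂ} (hO : IsOpen O) {χ w : ℂ → ℝ} {lam : ℝ} (hχ : ContDiff ℝ 1 χ)
    (hs : tsupport χ ⊆ O) (hw : Sol O lam w) (x : ℂ) :
    (fderiv ℝ (fun x => χ x • gradient w x) x 1).re +
      (fderiv ℝ (fun x => χ x • gradient w x) x Complex.I).im =
      inner ℝ (gradient w x) (gradient χ x) - lam * (χ x • w x) := by
  by_cases hx : x ∈ tsupport χ
  · have d1 := (hχ.differentiable one_ne_zero x).hasFDerivAt
    have d2 : DifferentiableAt ℝ (fderiv ℝ w) x :=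
      ((hw.1.contDiffAt (hO.mem_nhds (hs hx))).fderiv_right (m := 1) (by norm_cast)).differentiableAt
        one_ne_zero
    have d3 := (InnerProductSpace.toDual ℝ ℂ).symm.toContinuousLinearEquiv.hasFDerivAt.comp x
      d2.hasFDerivAt
    have d4 : HasFDerivAt (fun x => χ x • gradient w x) _ x := d1.smul d3
    have e := hw.2 x (hs hx)
    rw [InnerProductSpace.laplacian_eq_iteratedFDeriv_complexPlane] at e
    simp only [iteratedFDeriv_two_apply, Matrix.cons_val_zero, Matrix.cons_val_one] at e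
    have k : ∀ (φ : ℂ →L[ℝ] ℝ) v, inner ℝ ((InnerProductSpace.toDual ℝ ℂ).symm φ) v = φ v :=
      fun φ v => InnerProductSpace.toDual_symm_apply
    have e1 : inner ℝ (gradient w x) (gradient χ x) =
        fderiv ℝ χ x 1 * fderiv ℝ w x 1 + fderiv ℝ χ x Complex.I * fderiv ℝ w x Complex.I := by
      simp only [← inner_gradient_left, Complex.inner]
      simp
    rw [d4.fderiv, had1_re, had1_im, e1]
    simp [inner_add_left, inner_smul_left, k, -Complex.inner, -Complex.real_smul]
    linear_combination χ x * e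
  · have h := notMem_tsupport_iff_eventuallyEq.1 hx
    rw [had1_zero (a := 0) h, show χ x = 0 from h.self_of_nhds,
      Filter.EventuallyEq.fderiv_eq (f := fun _ => 0) (h.mono fun y hy => by simp [hy])]
    simp

theorem t_had1 (hhb1 : S_HB1) (hhb2 : S_HB2) (hlip : S_LIP) (hc1t : S_C1T) : S_HAD1 := by
  intro Ω Ω' c r lam l ψ γ w y g Φ hΩ hΩ' hb r0 hE hψ hw hae hy hΦ sΦ f1 f2
  obtain ⟨-, -, -, mono, -, van, -, test, -⟩ := hhb1
  obtain ⟨ibp, loc, cut⟩ := hhb2
  let χ₀ : ContDiffBump c := ⟨5 * r / 8, 3 * r / 4, by linarith, by linarith⟩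
  have sχ : tsupport χ₀ ⊆ ball c r := by
    rw [χ₀.tsupport_eq]; exact closedBall_subset_ball (by change 3 * r / 4 < r; linarith)
  have one : ∀ x ∈ closedBall c (r / 2), ∀ᶠ z in 𝓝 x, χ₀ z = 1 := fun x hx =>
    χ₀.eventuallyEq_one_of_mem_ball
      (closedBall_subset_ball (by change r / 2 < 5 * r / 8; linarith) hx)
  have cχ := χ₀.hasCompactSupport
  have dχ : ContDiff ℝ ∞ χ₀ := χ₀.contDiff
  generalize (χ₀ : ℂ → ℝ) = χ at sχ one cχ dχ
  have d1 : ContDiff ℝ 1 χ := dχ.of_le (by simp)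
  have w1 : ContDiffOn ℝ 1 w (ball c r) := hw.1.of_le (by simp)
  have du := had1_cut isOpen_ball d1 sχ w1
  have dX := had1_cut isOpen_ball d1 sχ (F := gradient w)
    ((InnerProductSpace.toDual ℝ ℂ).symm.contDiff.comp_contDiffOn
      (hw.1.fderiv_of_isOpen isOpen_ball (by norm_cast)))
  have cX : HasCompactSupport fun x => χ x • gradient w x := cχ.smul_right
  have gu := had1_grad isOpen_ball d1 sχ hw.1
  have dv := had1_div isOpen_ball d1 sχ hw
  obtain ⟨mu, mu', -⟩ := hc1t univ _ isOpen_univ du cχ.smul_right (subset_univ _)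
  obtain ⟨mΦ, mΦ', -⟩ := hc1t univ _ isOpen_univ hΦ
    ((isCompact_closedBall c r).of_isClosed_subset (isClosed_tsupport _)
      (sΦ.trans ball_subset_closedBall)) (subset_univ _)
  have mX := dX.continuous.memLp_of_hasCompactSupport (μ := volume) (p := 2) cX
  have mD : MemLp (fun x => (fderiv ℝ (fun x => χ x • gradient w x) x 1).re +
      (fderiv ℝ (fun x => χ x • gradient w x) x Complex.I).im) 2 volume := by
    have c1 := dX.continuous_fderiv one_ne_zero
    refine Continuous.memLp_of_hasCompactSupport (by fun_prop) ?_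
    exact (cX.fderiv ℝ).comp_left (g := fun A : ℂ →L[ℝ] ℂ => (A 1).re + (A Complex.I).im) (by simp)
  have Hψ := mono _ Ω' _ _ (hE.le.trans sdiff_subset) (cut Ω ψ γ χ _ hψ.1 dχ cχ one)
  have Hy := mono _ Ω _ _ (hE.ge.trans sdiff_subset) (cut Ω' y g χ _ hy.1 dχ cχ one)
  have E1 := test _ _ _ _ _ _ hy Hψ
  have E3 := test _ _ _ _ _ _ hψ Hy
  have E4 := ibp _ _ _ _ hy.1 dX cX
  have vy := van _ _ _ hy.1
  have my := hy.1.1
  have mg := hy.1.2.1
  have E2 := test _ _ _ _ _ _ hy (hlip Ω' univ (fun x => χ x • w x - Φ x) hΩ' hb isOpen_univ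
    (subset_univ _) (du.sub hΦ).contDiffOn fun x hx => by
      by_cases h : x ∈ ball c r
      · rw [f1 x ⟨hx, h⟩]
        by_cases h' : x ∈ closedBall c (r / 2)
        · simp [(one x h').self_of_nhds]
        · simp [f2 x ⟨hx, h⟩ h']
      · simp [image_eq_zero_of_notMem_tsupport fun h' => h (sχ h'),
          image_eq_zero_of_notMem_tsupport fun h' => h (sΦ h')])
  have iu := my.integrable_mul mu
  have a1 : ∫ x, inner ℝ (g x) (Ω'.indicator (gradient fun x => χ x • w x - Φ x) x) =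
      (∫ x, inner ℝ (g x) (gradient (fun x => χ x • w x) x)) -
        ∫ x, inner ℝ (g x) (gradient Φ x) := by
    rw [← integral_sub (had1_int mg mu') (had1_int mg mΦ')]
    refine integral_congr_ae (vy.mono fun x hx => ?_)
    by_cases h : x ∈ Ω'
    · simp only [indicator_of_mem h, ← inner_sub_right]
      rw [gradient, fderiv_fun_sub (du.differentiable one_ne_zero x)
        (hΦ.differentiable one_ne_zero x), map_sub]
      rfl
    · simp [(hx h).2]
  have a2 : ∫ x, y x * Ω'.indicator (fun x => χ x • w x - Φ x) x =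
      (∫ x, y x * (χ x • w x)) - ∫ x, y x * Φ x := by
    refine Eq.trans ?_ (integral_sub iu (my.integrable_mul mΦ))
    refine integral_congr_ae (vy.mono fun x hx => ?_)
    by_cases h : x ∈ Ω'
    · simp [indicator_of_mem h, mul_sub]
    · simp [(hx h).1]
  have key : ∀ᵐ x, (x ∈ closedBall c (r / 2) ∧ χ x = 1 ∧ gradient χ x = 0) ∨
      (x ∉ closedBall c (r / 2) ∧ ((χ x = 0 ∧ gradient χ x = 0) ∨
        (w x = ψ x ∧ γ x = gradient w x) ∨ (y x = 0 ∧ g x = 0))) := by
    filter_upwards [vy, hae, loc Ω ψ γ (Ω ∩ ball c r) w hψ.1 (hΩ.inter isOpen_ball)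
      (w1.mono inter_subset_right) (hae.mono fun x hx h => (hx h.2 h.1).symm)] with x h1 h2 h3
    by_cases h : x ∈ closedBall c (r / 2)
    · exact Or.inl ⟨h, (one x h).self_of_nhds, had1_zero (one x h)⟩
    refine Or.inr ⟨h, ?_⟩
    by_cases h' : x ∈ tsupport χ
    · by_cases h'' : x ∈ Ω'
      · have : x ∈ Ω := (hE.ge ⟨h'', h⟩).1
        exact Or.inr (Or.inl ⟨h2 (sχ h') this, h3 ⟨this, sχ h'⟩⟩)
      · exact Or.inr (Or.inr (h1 h''))
    · exact Or.inl ⟨image_eq_zero_of_notMem_tsupport h',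
        had1_zero (a := 0) (notMem_tsupport_iff_eventuallyEq.1 h')⟩
  have a3 := integral_add (had1_int mg Hψ.2.1) (had1_int mg mu')
  have a4 := integral_add (had1_int hψ.1.2.1 Hy.2.1) (had1_int mg mX)
  have a5 := integral_add (my.integrable_mul mD) (iu.const_mul lam)
  have a6 := integral_add ((had1_int hψ.1.2.1 Hy.2.1).add (had1_int mg mX))
    ((my.integrable_mul mD).add (iu.const_mul lam))
  have a7 := integral_add (my.integrable_mul Hψ.1) iu
  simp only [Pi.add_apply, Pi.mul_apply, integral_const_mul] at a5 a6 a7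
  have a8 : ∫ x, ψ x * ((1 - χ x) * y x) = ∫ x, y x * ((1 - χ x) * ψ x) :=
    integral_congr_ae (Eventually.of_forall fun x => by ring)
  have a9 := a3.symm.trans ((integral_congr_ae (key.mono fun x hx => by
    simp only [dv, gu]
    simp only [← Complex.real_smul, inner_add_right, inner_sub_right, inner_smul_right,
      real_inner_comm (γ x) (g x), smul_eq_mul]
    rcases hx with ⟨-, h1, h2⟩ | ⟨-, ⟨h1, h2⟩ | ⟨h1, h2⟩ | ⟨h1, h2⟩⟩ <;>
      simp only [h1, h2, inner_zero_right, inner_zero_left] <;> ring)).trans a6)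
  rw [(integral_congr_ae (key.mono fun x hx => ?_)).trans a7]
  · rw [a4, a5, E1, E3, E4, a8] at a9
    rw [a1, a2] at E2
    linear_combination a9 - E2
  · rcases hx with ⟨h, h1, -⟩ | ⟨h, ⟨h1, -⟩ | ⟨h1, -⟩ | ⟨h1, -⟩⟩ <;> simp [h, h1] <;> ring

end Pool.Agent.P.MP_6b977f_mp.EB
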