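import Pool.Agent.P.MP_6b977f_mp.EB.IfS

/-! Extension of the boundary values in the Hadamard variation. -/

namespace Pool.Agent.P.MP_6b977f_mp.EB

open Real MeasureTheory Filter Topology Laplacian Set Metric
open scoped ContDiff BoundedContinuousFunction ComplexConjugate Pointwise ENNReal

theorem had3_dt {E : Type*} [NormedAddCommGroup E] [NormedSpace ℝ E] {F : ℝ × ℂ → E}
    (hF : Differentiable ℝ F) (t : ℝ) (z : ℂ) :
    HasDerivAt (fun s => F (s, z)) (fderiv ℝ F (t, z) (1, 0)) t :=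
  (hF (t, z)).hasFDerivAt.comp_hasDerivAt t ((hasDerivAt_id t).prodMk (hasDerivAt_const t z))

theorem had3_dz {E : Type*} [NormedAddCommGroup E] [NormedSpace ℝ E] {F : ℝ × ℂ → E}
    (hF : Differentiable ℝ F) (t : ℝ) (z : ℂ) :
    HasFDerivAt (fun y => F (t, y))
      ((fderiv ℝ F (t, z)).comp (ContinuousLinearMap.inr ℝ ℝ ℂ)) z :=
  (hF (t, z)).hasFDerivAt.comp z (hasFDerivAt_prodMk_right t z)

theorem had3_dt0 {E : Type*} [NormedAddCommGroup E] [NormedSpace ℝ E] {F : ℝ × ℂ → E}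
    (hF : Differentiable ℝ F) {z : ℂ} (h : ∀ t, F (t, z) = 0) (t : ℝ) :
    fderiv ℝ F (t, z) (1, 0) = 0 := by
  have h1 := had3_dt hF t z
  simp only [h] at h1
  exact h1.unique (hasDerivAt_const t 0)

/-- Uniform first order expansion in the parameter. -/
theorem had3_mvt {E : Type*} [NormedAddCommGroup E] [NormedSpace ℝ E] {F : ℝ × ℂ → E}
    (hF : ContDiff ℝ 1 F) {K : Set ℂ} (hK : IsCompact K) (h0 : ∀ z, F (0, z) = 0)
    (hs : ∀ t, ∀ z ∉ K, F (t, z) = 0) {ε : ℝ} (hε : 0 < ε) :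
    ∃ t₀ > 0, ∀ t : ℝ, t ≠ 0 → |t| < t₀ → ∀ z,
      ‖t⁻¹ • F (t, z) - fderiv ℝ F (0, z) (1, 0)‖ ≤ ε := by
  have hd : Differentiable ℝ F := hF.differentiable one_ne_zero
  have hc : Continuous fun p : ℝ × ℂ => fderiv ℝ F p (1, 0) :=
    (hF.continuous_fderiv one_ne_zero).clm_apply continuous_const
  have h1 : ∀ᶠ t in 𝓝 (0 : ℝ), ∀ z ∈ K,
      ‖fderiv ℝ F (t, z) (1, 0) - fderiv ℝ F (0, z) (1, 0)‖ < ε := by
    refine hK.eventually_forall_of_forall_eventually fun z _ => ?_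
    have h2 : Continuous fun p : ℝ × ℂ =>
        ‖fderiv ℝ F (p.1, p.2) (1, 0) - fderiv ℝ F (0, p.2) (1, 0)‖ :=
      (hc.sub (hc.comp (continuous_const.prodMk continuous_snd))).norm
    exact h2.continuousAt.eventually_lt continuousAt_const (by simpa using hε)
  obtain ⟨t₀, ht₀, h2⟩ := Metric.eventually_nhds_iff_ball.1 h1
  refine ⟨t₀, ht₀, fun t ht ht' z => ?_⟩
  by_cases hz : z ∈ K
  swap
  · rw [hs t z hz, had3_dt0 hd (fun s => hs s z hz)]
    simpa using hε.le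
  have h3 := Convex.norm_image_sub_le_of_norm_hasDerivWithin_le
    (f := fun s => F (s, z) - s • fderiv ℝ F (0, z) (1, 0))
    (f' := fun s => fderiv ℝ F (s, z) (1, 0) - fderiv ℝ F (0, z) (1, 0)) (s := ball 0 t₀)
    (fun s _ => by
      have := (had3_dt hd s z).sub ((hasDerivAt_id s).smul_const (fderiv ℝ F (0, z) (1, 0)))
      rw [one_smul] at this
      exact this.hasDerivWithinAt)
    (fun s hs => (h2 s hs z hz).le) (convex_ball _ _) (mem_ball_self ht₀)
    (y := t) (by simpa using ht')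
  simp only [h0, zero_smul, sub_zero] at h3
  have h4 : t⁻¹ • F (t, z) - fderiv ℝ F (0, z) (1, 0) =
      t⁻¹ • (F (t, z) - t • fderiv ℝ F (0, z) (1, 0)) := by
    rw [smul_sub, smul_smul, inv_mul_cancel₀ ht, one_smul]
  rw [h4, norm_smul, norm_inv, inv_mul_le_iff₀ (norm_pos_iff.2 ht), mul_comm]
  exact h3

/-- The same in the `C¹` norm. -/
theorem had3_conv {H : ℝ × ℂ → ℝ} (hH : ContDiff ℝ ∞ H) {K : Set ℂ} (hK : IsCompact K)
    (h0 : ∀ z, H (0, z) = 0) (hs : ∀ t, ∀ z ∉ K, H (t, z) = 0) {ε : ℝ} (hε : 0 < ε) :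
    ∃ t₀ > 0, ∀ t : ℝ, t ≠ 0 → |t| < t₀ → ∀ z,
      |t⁻¹ * H (t, z) - fderiv ℝ H (0, z) (1, 0)| ≤ ε ∧
      ‖gradient (fun y => t⁻¹ * H (t, y)) z - gradient (fun y => fderiv ℝ H (0, y) (1, 0)) z‖
        ≤ ε := by
  have hd : Differentiable ℝ H := hH.differentiable (by simp)
  have hD : ContDiff ℝ 1 (fderiv ℝ H) :=
    (hH.fderiv_right (m := ∞) le_rfl).of_le (by exact_mod_cast le_top)
  have hD' : Differentiable ℝ (fderiv ℝ H) := hD.differentiable one_ne_zero
  set B : ℝ × ℂ → ℂ →L[ℝ] ℝ := fun p => (fderiv ℝ H p).comp (ContinuousLinearMap.inr ℝ ℝ ℂ)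
    with hB
  have hB1 : ContDiff ℝ 1 B := hD.clm_comp contDiff_const
  have hB2 : ∀ t z, (fun y => H (t, y)) =ᶠ[𝓝 z] (fun _ => 0) → B (t, z) = 0 := fun t z h =>
    (had3_dz hd t z).unique ((hasFDerivAt_const (0 : ℝ) z).congr_of_eventuallyEq h)
  obtain ⟨t₁, ht₁, h1⟩ := had3_mvt (hH.of_le (by exact_mod_cast le_top)) hK h0 hs hε
  obtain ⟨t₂, ht₂, h2⟩ := had3_mvt hB1 hK
    (fun z => hB2 0 z (Eventually.of_forall h0))
    (fun t z hz => hB2 t z (by
      filter_upwards [hK.isClosed.isOpen_compl.mem_nhds hz] with y hy using hs t y hy)) hε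
  refine ⟨min t₁ t₂, lt_min ht₁ ht₂, fun t ht ht' z =>
    ⟨h1 t ht (ht'.trans_le (min_le_left _ _)) z, ?_⟩⟩
  have e1 : fderiv ℝ (fun y => t⁻¹ * H (t, y)) z = t⁻¹ • B (t, z) :=
    ((had3_dz hd t z).const_mul t⁻¹).fderiv
  have e2 : fderiv ℝ (fun y => fderiv ℝ H (0, y) (1, 0)) z = fderiv ℝ B (0, z) (1, 0) := by
    have a1 := (had3_dz hD' 0 z).clm_apply (hasFDerivAt_const ((1, 0) : ℝ × ℂ) z)
    have a2 := (hD' (0, z)).hasFDerivAt.clm_comp
      (hasFDerivAt_const (ContinuousLinearMap.inr ℝ ℝ ℂ) ((0, z) : ℝ × ℂ))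
    rw [a1.fderiv, hB, a2.fderiv]
    refine ContinuousLinearMap.ext fun v => ?_
    have a3 := (hH.contDiffAt (x := (0, z))).isSymmSndFDerivAt
      (by rw [minSmoothness_of_isRCLikeNormedField]; exact ENat.LEInfty.out) (1, 0) (0, v)
    simpa using a3.symm
  unfold gradient
  rw [← map_sub, LinearIsometryEquiv.norm_map, e1, e2]
  exact h2 t ht (ht'.trans_le (min_le_right _ _)) z

theorem had3_cut {X : Type*} [NormedAddCommGroup X] [NormedSpace ℝ X] {c : ℂ}
    (χ : ContDiffBump c) {q : X → ℂ} (hq : ContDiff ℝ ∞ q) {g : X → ℝ}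
    (hg : ∀ x, q x ∈ closedBall c χ.rOut → ContDiffAt ℝ ∞ g x) :
    ContDiff ℝ ∞ fun x => χ (q x) * g x := by
  refine contDiff_iff_contDiffAt.2 fun x => ?_
  by_cases hx : q x ∈ closedBall c χ.rOut
  · exact (χ.contDiff.comp hq).contDiffAt.mul (hg x hx)
  · refine (contDiffAt_const (c := (0 : ℝ))).congr_of_eventuallyEq ?_
    filter_upwards [(isClosed_closedBall.isOpen_compl.preimage hq.continuous).mem_nhds hx] with y hy
    have : ¬ dist (q y) c ≤ χ.rOut := hy
    rw [χ.zero_of_le_dist (not_le.1 this).le, zero_mul]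

theorem had3_im {Ω : Set ℂ} {c z : ℂ} {r : ℝ} (h : Flat Ω c r) (hz : z ∈ ball c r) :
    z.im < 0 := by
  have h1 : |(z - c).im| ≤ ‖z - c‖ := Complex.abs_im_le_norm _
  rw [mem_ball, dist_eq_norm] at hz
  rw [Complex.sub_im] at h1
  have := h.2.1
  have := le_abs_self (z.im - c.im)
  linarith

theorem had3_front {Ω : Set ℂ} {c z : ℂ} {r : ℝ} (hΩ : IsOpen Ω) (h : Flat Ω c r)
    (hz : z ∈ ball c r) (hf : z ∈ frontier Ω) : z.im = c.im := by
  rw [hΩ.frontier_eq] at hf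
  refine le_antisymm (not_lt.1 fun h1 => hf.2 ((h.2.2 z hz).2 h1)) (not_lt.1 fun h1 => ?_)
  obtain ⟨y, hy, hy'⟩ := mem_closure_iff.1 hf.1 (ball c r ∩ {y | y.im < c.im})
    (isOpen_ball.inter (isOpen_lt Complex.continuous_im continuous_const)) ⟨hz, h1⟩
  exact lt_asymm hy.2 ((h.2.2 y hy.1).1 hy')

theorem had3_arg {δ : ℝ → ℝ} (hδ : Function.Periodic δ (2 * π)) {R : ℝ} (hR : 0 < R) (θ : ℝ) :
    δ ((R : ℂ) * ex θ).arg = δ θ := by
  rw [Complex.arg_real_mul _ hR, ex, Complex.arg_exp_mul_I, toIocMod, hδ.sub_zsmul_eq]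

theorem had3_polar (ρ : ℝ → ℝ) (z : ℂ) :
    z = ((‖z‖ / Real.exp (ρ z.arg) : ℝ) : ℂ) * bd ρ z.arg := by
  have : ((Real.exp (ρ z.arg) : ℝ) : ℂ) ≠ 0 := by exact_mod_cast (Real.exp_pos _).ne'
  rw [bd, ex, Complex.ofReal_div, ← mul_assoc, div_mul_cancel₀ _ this,
    Complex.norm_mul_exp_arg_mul_I]

/-- Radial projection on the line. -/
noncomputable def had3_P (c z : ℂ) : ℂ := ((c.im / z.im : ℝ) : ℂ) * z

theorem had3_P_im (c : ℂ) {z : ℂ} (hz : z.im ≠ 0) : (had3_P c z).im = c.im := by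
  rw [had3_P, Complex.im_ofReal_mul, div_mul_cancel₀ _ hz]

theorem had3_P_mul {c b : ℂ} (hb : b.im = c.im) (hc : c.im ≠ 0) {s : ℝ} (hs : s ≠ 0) :
    had3_P c (s * b) = b := by
  rw [had3_P, Complex.im_ofReal_mul, hb, ← mul_assoc, ← Complex.ofReal_mul]
  have : c.im / (s * c.im) * s = 1 := by field_simp
  rw [this]
  simp

theorem had3_small {δ : ℝ → ℝ} (h : Continuous δ) (hδ : Function.Periodic δ (2 * π)) (A : ℝ)
    {η : ℝ} (hη : 0 < η) :
    ∃ t₁ > 0, ∀ t : ℝ, |t| < t₁ → ∀ θ, |Real.exp (t * δ θ) - 1| * A < η := by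
  obtain ⟨M, hM, hM'⟩ := (hδ.isBounded_of_continuous two_pi_pos.ne' h).exists_pos_norm_le
  have h1 : Continuous fun s : ℝ => |Real.exp s - 1| * A := by fun_prop
  obtain ⟨a, ha, ha'⟩ := Metric.eventually_nhds_iff_ball.1
    (h1.continuousAt.eventually_lt (x₀ := 0) (continuousAt_const (y := η)) (by simpa using hη))
  refine ⟨a / M, div_pos ha hM, fun t ht θ => ha' _ ?_⟩
  rw [mem_ball_zero_iff, norm_mul]
  have h2 := hM' (δ θ) ⟨θ, rfl⟩
  rw [lt_div_iff₀ hM] at ht
  exact (mul_le_mul_of_nonneg_left h2 (norm_nonneg _)).trans_lt ht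

theorem had3_near {c b : ℂ} {r s : ℝ} (hb : b ∈ ball c (r / 4))
    (hs : |s - 1| * (‖c‖ + r / 4) < r / 4) : (s : ℂ) * b ∈ ball c (r / 2) := by
  rw [mem_ball, dist_eq_norm] at *
  have h1 : (s : ℂ) * b - c = ((s - 1 : ℝ) : ℂ) * b + (b - c) := by
    push_cast
    ring
  have h2 : ‖b‖ ≤ ‖c‖ + r / 4 := by
    have := norm_add_le c (b - c)
    rw [add_sub_cancel] at this
    linarith
  have h3 := norm_add_le (((s - 1 : ℝ) : ℂ) * b) (b - c)
  rw [norm_mul, Complex.norm_real, Real.norm_eq_abs] at h3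
  have h4 := mul_le_mul_of_nonneg_left h2 (abs_nonneg (s - 1))
  rw [h1]
  linarith

theorem had3_line {w : ℂ → ℝ} {c z : ℂ} {r : ℝ} (hz : z ∈ ball c r) (hz' : z.im = c.im)
    (hw : DifferentiableAt ℝ w z) (h0 : ∀ z ∈ ball c r, z.im = c.im → w z = 0) :
    fderiv ℝ w z z = c.im * fderiv ℝ w z Complex.I := by
  have h1 : fderiv ℝ w z 1 = 0 := by
    have a1 : HasDerivAt (fun s : ℝ => z + (s : ℂ)) 1 0 := by
      simpa using (Complex.ofRealCLM.hasDerivAt (x := (0 : ℝ))).const_add z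
    have a2 : HasDerivAt (fun s : ℝ => w (z + (s : ℂ))) (fderiv ℝ w z 1) 0 :=
      HasFDerivAt.comp_hasDerivAt_of_eq 0 hw.hasFDerivAt a1 (by simp)
    refine a2.unique ((hasDerivAt_const (0 : ℝ) (0 : ℝ)).congr_of_eventuallyEq ?_)
    have a3 : ∀ᶠ s : ℝ in 𝓝 0, z + (s : ℂ) ∈ ball c r :=
      a1.continuousAt.eventually_mem (isOpen_ball.mem_nhds (by simpa using hz))
    filter_upwards [a3] with s hs using h0 _ hs (by simpa using hz')
  have h2 : z = z.re • (1 : ℂ) + c.im • Complex.I := by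
    rw [← hz']
    simp
  conv_lhs => rw [show fderiv ℝ w z z = fderiv ℝ w z (z.re • (1 : ℂ) + c.im • Complex.I) from
    congrArg _ h2]
  rw [map_add, map_smul, map_smul, h1]
  simp

theorem t_had3 (htab : S_TAB) : S_HAD3 := by
  intro ρ c r w δ hρ hfl hw hw0 hδ hper hsup
  have hr : 0 < r := hfl.1
  have hc : c.im ≠ 0 := by
    have := hfl.2.1
    linarith
  obtain ⟨hop, -, -, -, hfr, -⟩ := htab ρ hρ
  have hA : ∀ θ, bd ρ θ ∈ ball c r → (bd ρ θ).im = c.im := fun θ h =>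
    had3_front hop hfl h (hfr ▸ mem_range_self θ)
  have hA' : ∀ θ, δ θ ≠ 0 → (bd ρ θ).im = c.im := fun θ h =>
    hA θ (ball_subset_ball (by linarith) (hsup θ h))
  let χ₁ : ContDiffBump c := ⟨r / 2, 3 * r / 4, by linarith, by linarith⟩
  let χ₀ : ContDiffBump c := ⟨r / 2, 7 * r / 8, by linarith, by linarith⟩
  set W : ℂ → ℝ := fun z => χ₁ z * w z with hW
  have hW1 : ContDiff ℝ ∞ W := had3_cut χ₁ contDiff_id fun z hz =>
    hw.contDiffAt (isOpen_ball.mem_nhds (closedBall_subset_ball (by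
      change 3 * r / 4 < r
      linarith) hz))
  have hW2 : ∀ z ∈ ball c (r / 2), W z = w z := fun z hz => by
    simp only [hW]
    rw [χ₁.one_of_mem_closedBall (ball_subset_closedBall hz), one_mul]
  have hW3 : ∀ z : ℂ, z.im = c.im → W z = 0 := fun z hz => by
    simp only [hW]
    by_cases h : z ∈ ball c r
    · rw [hw0 z h hz, mul_zero]
    · rw [χ₁.zero_of_le_dist, zero_mul]
      have : r ≤ dist z c := not_lt.1 h
      change 3 * r / 4 ≤ _
      linarith
  set H : ℝ × ℂ → ℝ := fun p =>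
    χ₀ p.2 * W (((Real.exp (p.1 * δ p.2.arg) : ℝ) : ℂ) * had3_P c p.2) with hH
  have hH1 : ContDiff ℝ ∞ H := by
    refine had3_cut χ₀ contDiff_snd fun p hp => hW1.contDiffAt.comp p ?_
    have h1 : p.2.im < 0 := had3_im hfl (closedBall_subset_ball (by
      change 7 * r / 8 < r
      linarith) hp)
    have h2 : ContDiffAt ℝ ∞ Complex.arg p.2 := by
      have : Complex.arg = fun z => Complex.imCLM (Complex.log z) :=
        funext fun z => (Complex.log_im z).symm
      rw [this]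
      exact Complex.imCLM.contDiff.contDiffAt.comp _
        ((Complex.contDiffAt_log (Or.inr h1.ne)).restrict_scalars ℝ)
    have h3 : ContDiffAt ℝ ∞ (fun p : ℝ × ℂ => Real.exp (p.1 * δ p.2.arg)) p :=
      (contDiffAt_fst.mul (hδ.contDiffAt.comp p (h2.comp p contDiffAt_snd))).exp
    have h4 : ContDiffAt ℝ ∞ (fun p : ℝ × ℂ => c.im / p.2.im) p :=
      contDiffAt_const.div (Complex.imCLM.contDiff.contDiffAt.comp p contDiffAt_snd) h1.ne
    exact (Complex.ofRealCLM.contDiff.contDiffAt.comp p h3).mul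
      ((Complex.ofRealCLM.contDiff.contDiffAt.comp p h4).mul contDiffAt_snd)
  have hd : Differentiable ℝ H := hH1.differentiable (by simp)
  have hH2 : ∀ t, ∀ z ∉ closedBall c (7 * r / 8), H (t, z) = 0 := fun t z hz => by
    simp only [hH]
    rw [χ₀.zero_of_le_dist (not_le.1 hz).le, zero_mul]
  have hH3 : ∀ t z, t * δ z.arg = 0 → H (t, z) = 0 := fun t z h => by
    by_cases hz : z ∈ closedBall c (7 * r / 8)
    · simp only [hH]
      rw [h, Real.exp_zero, Complex.ofReal_one, one_mul, hW3 _ (had3_P_im c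
        (had3_im hfl (closedBall_subset_ball (by linarith) hz)).ne), mul_zero]
    · exact hH2 t z hz
  refine ⟨fun z => fderiv ℝ H (0, z) (1, 0), ?_, ?_, fun z hz hz' => ?_, fun ε hε => ?_⟩
  · exact ((hH1.fderiv_right (m := ∞) le_rfl).comp
      (contDiff_const.prodMk contDiff_id)).clm_apply contDiff_const
  · exact closure_minimal (fun z hz => by_contra fun h => hz (had3_dt0 hd (fun t => hH2 t z h) 0))
      isClosed_closedBall
  · beta_reduce
    by_cases h : δ z.arg = 0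
    · rw [had3_dt0 hd (fun t => hH3 t z (by rw [h, mul_zero])), h]
      simp
    have e1 : had3_P c z = z := by simpa using had3_P_mul hz' hc one_ne_zero
    have e2 : z ∈ ball c (r / 4) := by
      have a1 : ‖z‖ / Real.exp (ρ z.arg) ≠ 0 :=
        div_ne_zero (norm_ne_zero_iff.2 fun h0 => hc (by rw [← hz', h0]; rfl))
          (Real.exp_pos _).ne'
      have a2 := had3_P_mul (hA' _ h) hc a1
      rw [← had3_polar, e1] at a2
      rw [a2]
      exact hsup _ h
    have e3 : z ∈ ball c (r / 2) := ball_subset_ball (by linarith) e2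
    have e4 : fderiv ℝ W z = fderiv ℝ w z := by
      refine Filter.EventuallyEq.fderiv_eq ?_
      filter_upwards [isOpen_ball.mem_nhds e3] with y hy using hW2 y hy
    have a1 : HasDerivAt (fun s : ℝ => ((Real.exp (s * δ z.arg) : ℝ) : ℂ) * z)
        (δ z.arg • z) 0 := by
      simpa using (((hasDerivAt_id (0 : ℝ)).mul_const (δ z.arg)).exp.ofReal_comp).mul_const z
    have a2 := HasFDerivAt.comp_hasDerivAt_of_eq 0
      (hW1.differentiable (by simp) z).hasFDerivAt a1 (by simp)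
    have a3 : (fun s => H (s, z)) =
        W ∘ fun s : ℝ => ((Real.exp (s * δ z.arg) : ℝ) : ℂ) * z := by
      funext s
      simp only [hH, Function.comp]
      rw [χ₀.one_of_mem_closedBall (ball_subset_closedBall e3), one_mul, e1]
    have a4 := had3_dt hd 0 z
    rw [a3] at a4
    rw [a4.unique a2, map_smul, e4, had3_line hz hz'
      ((hw.contDiffAt (isOpen_ball.mem_nhds hz)).differentiableAt (by simp)) hw0, smul_eq_mul]
    ring
  obtain ⟨t₀, ht₀, h0⟩ := had3_conv hH1 (isCompact_closedBall c (7 * r / 8))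
    (fun z => hH3 0 z (zero_mul _)) hH2 hε
  obtain ⟨t₁, ht₁, h1⟩ := had3_small hδ.continuous hper (‖c‖ + r / 4) (η := r / 4) (by linarith)
  refine ⟨min t₀ t₁, lt_min ht₀ ht₁, fun t ht ht' => ⟨?_, fun z => t⁻¹ * H (t, z), ?_, ?_, ?_,
    h0 t ht (ht'.trans_le (min_le_left _ _))⟩⟩
  · have h2 := h1 t (ht'.trans_le (min_le_right _ _))
    ext z
    simp only [Set.mem_sdiff, and_congr_left_iff]
    intro hz
    by_cases h : δ z.arg = 0
    · simp [table, h]
    by_contra hne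
    refine hz (ball_subset_closedBall ?_)
    rw [had3_polar ρ z]
    refine had3_near (hsup _ h) (lt_of_le_of_lt (mul_le_mul_of_nonneg_right ?_
      (by positivity)) (h2 z.arg))
    have a1 : z ∈ table ρ ↔ ‖z‖ / Real.exp (ρ z.arg) < 1 := by
      rw [div_lt_one (Real.exp_pos _)]
      rfl
    have a2 : (z ∈ table fun x => ρ x + t * δ x) ↔
        ‖z‖ / Real.exp (ρ z.arg) < Real.exp (t * δ z.arg) := by
      rw [div_lt_iff₀ (Real.exp_pos _), ← Real.exp_add, add_comm]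
      rfl
    rw [a1, a2] at hne
    have a3 := le_abs_self (Real.exp (t * δ z.arg) - 1)
    have a4 := neg_abs_le (Real.exp (t * δ z.arg) - 1)
    rw [abs_le]
    by_cases a5 : ‖z‖ / Real.exp (ρ z.arg) < 1
    · have a6 := not_lt.1 fun a => hne (iff_of_true a5 a)
      constructor <;> linarith
    · have a6 : ‖z‖ / Real.exp (ρ z.arg) < Real.exp (t * δ z.arg) :=
        by_contra fun a => hne (iff_of_false a5 a)
      constructor <;> linarith
  · exact contDiff_const.mul ((hH1.of_le (by exact_mod_cast le_top)).comp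
      (contDiff_const.prodMk contDiff_id))
  · exact closure_minimal (fun z hz => by_contra fun h => hz (by simp [hH2 t z h]))
      isClosed_closedBall
  have h2 := h1 t (ht'.trans_le (min_le_right _ _))
  have hCP : CP fun x => ρ x + t * δ x :=
    ⟨hρ.1.add (continuous_const.mul hδ.continuous), fun x => by simp only [hρ.2 x, hper x]⟩
  obtain ⟨-, -, -, -, hfr', -⟩ := htab _ hCP
  rintro z ⟨hz, hz'⟩
  rw [hfr'] at hz
  obtain ⟨θ, hθ⟩ := hz
  have e1 : δ z.arg = δ θ := by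
    rw [← hθ, bd]
    exact had3_arg hper (Real.exp_pos _) θ
  have e2 : z = ((Real.exp (t * δ θ) : ℝ) : ℂ) * bd ρ θ := by
    rw [← hθ, bd, bd, Real.exp_add]
    push_cast
    ring
  rw [← mul_assoc, mul_inv_cancel₀ ht, one_mul]
  by_cases h : δ θ = 0
  · have e3 : z = bd ρ θ := by simpa [h] using e2
    have e4 : w z = 0 := hw0 z hz' (by rw [e3] at hz' ⊢; exact hA θ hz')
    rw [hH3 t z (by rw [e1, h, mul_zero]), e4]
    exact ⟨rfl, fun _ => rfl⟩
  have e3 : z ∈ ball c (r / 2) := e2 ▸ had3_near (hsup θ h) (h2 θ)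
  refine ⟨?_, fun h' => absurd (ball_subset_closedBall e3) h'⟩
  have e4 : had3_P c z = bd ρ θ := e2 ▸ had3_P_mul (hA' θ h) hc (Real.exp_pos _).ne'
  simp only [hH]
  rw [χ₀.one_of_mem_closedBall (ball_subset_closedBall e3), one_mul, e1, e4, ← e2, hW2 z e3]

end Pool.Agent.P.MP_6b977f_mp.EB
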