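import Pool.Agent.P.MP_6b977f_mp.EB.IfS

/-! Elementary properties of the space `H¹₀`. -/

namespace Pool.Agent.P.MP_6b977f_mp.EB

open Real MeasureTheory Filter Topology Laplacian Set Metric
open scoped ContDiff BoundedContinuousFunction ComplexConjugate Pointwise ENNReal

theorem hb1_test {Ω : Set ℂ} {a : ℂ → ℝ} (h : IsTest Ω a) :
    MemLp a 2 volume ∧ MemLp (gradient a) 2 volume :=
  ⟨h.1.continuous.memLp_of_hasCompactSupport h.2.1,
    Continuous.memLp_of_hasCompactSupport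
      ((InnerProductSpace.toDual ℝ ℂ).symm.continuous.comp (h.1.continuous_fderiv (by simp)))
      ((h.2.1.fderiv ℝ).comp_left (g := (InnerProductSpace.toDual ℝ ℂ).symm) (map_zero _))⟩

theorem hb1_off {Ω : Set ℂ} {a : ℂ → ℝ} (h : IsTest Ω a) {x : ℂ} (hx : x ∉ Ω) :
    a x = 0 ∧ gradient a x = 0 := by
  have h1 : x ∉ tsupport a := fun e => hx (h.2.2 e)
  refine ⟨image_eq_zero_of_notMem_tsupport h1, ?_⟩
  rw [gradient, fderiv_of_notMem_tsupport ℝ h1, map_zero]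

section

variable {E : Type} [NormedAddCommGroup E]

theorem hb1_lim {u v : ℕ → ℂ → E} (hu : ∀ n, MemLp (u n) 2 volume) (hv : ∀ n, MemLp (v n) 2 volume)
    (tu : Tendsto (fun n => eLpNorm (u n) 2 volume) atTop (𝓝 0))
    (tv : Tendsto (fun n => eLpNorm (v n) 2 volume) atTop (𝓝 0)) {w : ℕ → ℂ → E}
    (e : ∀ n, w n = u n + v n) : Tendsto (fun n => eLpNorm (w n) 2 volume) atTop (𝓝 0) := by
  refine tendsto_of_tendsto_of_tendsto_of_le_of_le tendsto_const_nhds (by simpa using tu.add tv)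
    (fun _ => zero_le) fun n => ?_
  rw [e]
  exact eLpNorm_add_le (hu n).1 (hv n).1 one_le_two

theorem hb1_smul [NormedSpace ℝ E] {u : ℕ → ℂ → E} (c : ℝ)
    (tu : Tendsto (fun n => eLpNorm (u n) 2 volume) atTop (𝓝 0)) {w : ℕ → ℂ → E}
    (e : ∀ n, w n = c • u n) : Tendsto (fun n => eLpNorm (w n) 2 volume) atTop (𝓝 0) := by
  simp only [e, eLpNorm_const_smul]
  simpa using ENNReal.Tendsto.const_mul tu (Or.inr enorm_ne_top)

theorem hb1_van {u : ℕ → ℂ → E} {w : ℂ → E} (hu : ∀ n, MemLp (u n) 2 volume)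
    (hw : MemLp w 2 volume) (t : Tendsto (fun n => eLpNorm (u n - w) 2 volume) atTop (𝓝 0))
    {Ω : Set ℂ} (h : ∀ n, ∀ x ∉ Ω, u n x = 0) : ∀ᵐ x, x ∉ Ω → w x = 0 := by
  obtain ⟨s, -, hs⟩ := (tendstoInMeasure_of_tendsto_eLpNorm two_ne_zero (fun n => (hu n).1) hw.1
    t).exists_seq_tendsto_ae
  filter_upwards [hs] with x hx hΩ
  simp only [h _ x hΩ] at hx
  exact tendsto_nhds_unique hx tendsto_const_nhds

variable [InnerProductSpace ℝ E]

theorem hb1_ae {g u : ℂ → E} (hg : MemLp g 2 volume) (hu : MemLp u 2 volume) :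
    (fun x => inner ℝ (hg.toLp g x) (hu.toLp u x)) =ᵐ[volume] fun x => inner ℝ (g x) (u x) := by
  filter_upwards [hg.coeFn_toLp, hu.coeFn_toLp] with x h1 h2
  rw [h1, h2]

theorem hb1_int {g u : ℂ → E} (hg : MemLp g 2 volume) (hu : MemLp u 2 volume) :
    Integrable fun x => inner ℝ (g x) (u x) :=
  (MeasureTheory.L2.integrable_inner (hg.toLp g) (hu.toLp u)).congr (hb1_ae hg hu)

theorem hb1_inner {g w : ℂ → E} {u : ℕ → ℂ → E} (hg : MemLp g 2 volume)
    (hu : ∀ n, MemLp (u n) 2 volume) (hw : MemLp w 2 volume)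
    (t : Tendsto (fun n => eLpNorm (u n - w) 2 volume) atTop (𝓝 0)) :
    Tendsto (fun n => ∫ x, inner ℝ (g x) (u n x)) atTop (𝓝 (∫ x, inner ℝ (g x) (w x))) := by
  have e : ∀ (v : ℂ → E) (hv : MemLp v 2 volume),
      ∫ x, inner ℝ (g x) (v x) = inner ℝ (hg.toLp g) (hv.toLp v) := fun v hv => by
    rw [MeasureTheory.L2.inner_def, integral_congr_ae (hb1_ae hg hv)]
  simp only [fun n => e (u n) (hu n), e w hw]
  exact tendsto_const_nhds.inner ((Lp.tendsto_Lp_iff_tendsto_eLpNorm'' u hu w hw).2 t)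

end

theorem hb1_add {Ω : Set ℂ} {f f' : ℂ → ℝ} {g g' : ℂ → ℂ} (h : H10 Ω f g) (h' : H10 Ω f' g') :
    H10 Ω (f + f') (g + g') := by
  obtain ⟨hf, hg, a, ha, t1, t2⟩ := h
  obtain ⟨hf', hg', b, hb, s1, s2⟩ := h'
  refine ⟨hf.add hf', hg.add hg', fun j => a j + b j, fun j => ⟨(ha j).1.add (hb j).1,
    (ha j).2.1.add (hb j).2.1, (tsupport_add _ _).trans (union_subset (ha j).2.2 (hb j).2.2)⟩,
    hb1_lim (fun j => (hb1_test (ha j)).1.sub hf) (fun j => (hb1_test (hb j)).1.sub hf') t1 s1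
      fun j => add_sub_add_comm _ _ _ _,
    hb1_lim (fun j => (hb1_test (ha j)).2.sub hg) (fun j => (hb1_test (hb j)).2.sub hg') t2 s2
      fun j => ?_⟩
  have : gradient (a j + b j) = gradient (a j) + gradient (b j) := funext fun x => by
    rw [gradient, fderiv_add ((ha j).1.differentiable (by simp) x)
      ((hb j).1.differentiable (by simp) x), map_add]
    rfl
  rw [this]
  abel

theorem hb1_mul {Ω : Set ℂ} {f : ℂ → ℝ} {g : ℂ → ℂ} (c : ℝ) (h : H10 Ω f g) :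
    H10 Ω (fun x => c * f x) (fun x => c * g x) := by
  obtain ⟨hf, hg, a, ha, t1, t2⟩ := h
  refine ⟨hf.const_mul c, hg.const_mul c, fun j => c • a j, fun j => ⟨(ha j).1.const_smul c,
    (ha j).2.1.smul_left (f := fun _ => c),
    (tsupport_smul_subset_right (fun _ => c) (a j)).trans (ha j).2.2⟩,
    hb1_smul c t1 fun j => smul_sub c (a j) f ▸ rfl, hb1_smul c t2 fun j => funext fun x => ?_⟩
  rw [Pi.sub_apply, gradient, fderiv_const_smul ((ha j).1.differentiable (by simp) x), map_smul,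
    Pi.smul_apply, Pi.sub_apply, smul_sub, Complex.real_smul (x := c) (z := g x)]
  rfl

theorem hb1_self {Ω : Set ℂ} {a : ℂ → ℝ} (h : IsTest Ω a) : H10 Ω a (gradient a) :=
  ⟨(hb1_test h).1, (hb1_test h).2, fun _ => a, fun _ => h, by simp, by simp⟩

theorem hb1_zero (Ω : Set ℂ) : H10 Ω (fun _ => 0) (fun _ => 0) := by
  have := hb1_self (Ω := Ω) (a := fun _ => 0)
    ⟨contDiff_const, HasCompactSupport.zero, by simp [tsupport]⟩
  rwa [gradient_fun_const'] at this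

theorem hb1_closed {Ω : Set ℂ} {f : ℕ → ℂ → ℝ} {g : ℕ → ℂ → ℂ} {f₀ : ℂ → ℝ} {g₀ : ℂ → ℂ}
    (h : ∀ n, H10 Ω (f n) (g n)) (hf : MemLp f₀ 2 volume) (hg : MemLp g₀ 2 volume)
    (t1 : Tendsto (fun n => eLpNorm (f n - f₀) 2 volume) atTop (𝓝 0))
    (t2 : Tendsto (fun n => eLpNorm (g n - g₀) 2 volume) atTop (𝓝 0)) : H10 Ω f₀ g₀ := by
  have : ∀ n : ℕ, ∃ a, IsTest Ω a ∧ eLpNorm (a - f n) 2 volume ≤ (n : ℝ≥0∞)⁻¹ ∧
      eLpNorm (gradient a - g n) 2 volume ≤ (n : ℝ≥0∞)⁻¹ := fun n => by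
    obtain ⟨-, -, a, ha, s1, s2⟩ := h n
    have p : (0 : ℝ≥0∞) < (n : ℝ≥0∞)⁻¹ := ENNReal.inv_pos.2 (ENNReal.natCast_ne_top n)
    obtain ⟨j, h1, h2⟩ := ((s1.eventually (Iic_mem_nhds p)).and
      (s2.eventually (Iic_mem_nhds p))).exists
    exact ⟨a j, ha j, h1, h2⟩
  choose a ha h1 h2 using this
  exact ⟨hf, hg, a, ha,
    hb1_lim (fun n => (hb1_test (ha n)).1.sub (h n).1) (fun n => (h n).1.sub hf)
      (tendsto_of_tendsto_of_tendsto_of_le_of_le tendsto_const_nhds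
        ENNReal.tendsto_inv_nat_nhds_zero (fun _ => zero_le) h1) t1 fun n => by abel,
    hb1_lim (fun n => (hb1_test (ha n)).2.sub (h n).2.1) (fun n => (h n).2.1.sub hg)
      (tendsto_of_tendsto_of_tendsto_of_le_of_le tendsto_const_nhds
        ENNReal.tendsto_inv_nat_nhds_zero (fun _ => zero_le) h2) t2 fun n => by abel⟩

theorem hb1_sum {Ω : Set ℂ} {m : ℕ} {f : Fin m → ℂ → ℝ} {g : Fin m → ℂ → ℂ} (c : Fin m → ℝ)
    (h : ∀ i, H10 Ω (f i) (g i)) (s : Finset (Fin m)) :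
    H10 Ω (fun x => ∑ i ∈ s, c i * f i x) (fun x => ∑ i ∈ s, c i * g i x) := by
  induction s using Finset.induction_on with
  | empty => simpa using hb1_zero Ω
  | insert i s hi ih =>
    simp only [Finset.sum_insert hi]
    exact hb1_add (hb1_mul (c i) (h i)) ih

theorem t_hb1 : S_HB1 := by
  refine ⟨fun _ _ _ _ _ => hb1_add, fun _ _ _ => hb1_mul, fun Ω f g f' g' h e1 e2 => ?_,
    fun Ω Ω' f g hΩ h => ?_, fun _ _ => hb1_self, fun Ω f g h => ?_,
    fun _ _ _ _ _ => hb1_closed, fun Ω lam f g f' g' h h' => ?_, fun Ω lam m f g c h => ?_⟩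
  · obtain ⟨hf, hg, a, ha, t1, t2⟩ := h
    exact ⟨hf.ae_eq e1, hg.ae_eq e2, a, ha,
      t1.congr fun j => eLpNorm_congr_ae (EventuallyEq.rfl.sub e1),
      t2.congr fun j => eLpNorm_congr_ae (EventuallyEq.rfl.sub e2)⟩
  · obtain ⟨hf, hg, a, ha, t⟩ := h
    exact ⟨hf, hg, a, fun j => ⟨(ha j).1, (ha j).2.1, (ha j).2.2.trans hΩ⟩, t⟩
  · obtain ⟨hf, hg, a, ha, t1, t2⟩ := h
    filter_upwards [hb1_van (fun j => (hb1_test (ha j)).1) hf t1 fun j x hx =>
      (hb1_off (ha j) hx).1, hb1_van (fun j => (hb1_test (ha j)).2) hg t2 fun j x hx =>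
      (hb1_off (ha j) hx).2] with x h1 h2 hx using ⟨h1 hx, h2 hx⟩
  · obtain ⟨hf, hg, a, ha, t1, t2⟩ := h'
    have s1 := (hb1_inner h.1.1 (fun j => (hb1_test (ha j)).1) hf t1).const_mul lam
    have s2 := hb1_inner h.1.2.1 (fun j => (hb1_test (ha j)).2) hg t2
    simp only [fun j => h.2 _ (ha j)] at s2
    simp only [RCLike.inner_apply, conj_trivial, mul_comm _ (f _)] at s1
    exact tendsto_nhds_unique s2 s1
  · refine ⟨hb1_sum c (fun i => (h i).1) _, fun φ hφ => ?_⟩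
    simp only [sum_inner, ← Complex.real_smul, real_inner_smul_left, Finset.sum_mul, mul_assoc]
    rw [integral_finsetSum _ fun i _ => (hb1_int (h i).1.2.1 (hb1_test hφ).2).const_mul _,
      integral_finsetSum (f := fun i x => c i * (f i x * φ x)) _ fun i _ =>
        ((h i).1.1.integrable_mul (hb1_test hφ).1).const_mul (c i), Finset.mul_sum]
    refine Finset.sum_congr rfl fun i _ => ?_
    rw [integral_const_mul, integral_const_mul, (h i).2 φ hφ, mul_left_comm]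

end Pool.Agent.P.MP_6b977f_mp.EB
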