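import Pool.Agent.P.MP_6b977f_mp.EB.IfS

/-! Integration by parts, identification of weak gradients and cut-offs in `H¹₀`. -/

namespace Pool.Agent.P.MP_6b977f_mp.EB

open Real MeasureTheory Filter Topology Laplacian Set Metric
open scoped ContDiff BoundedContinuousFunction ComplexConjugate Pointwise ENNReal

theorem hb2_one_le : (1 : WithTop ℕ∞) ≤ ((⊤ : ℕ∞) : WithTop ℕ∞) := by exact_mod_cast le_top

theorem hb2_cgrad {w : ℂ → ℝ} {O : Set ℂ} (hO : IsOpen O) (hw : ContDiffOn ℝ 1 w O) :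
    ContinuousOn (gradient w) O :=
  (InnerProductSpace.toDual ℝ ℂ).symm.continuous.comp_continuousOn
    (hw.continuousOn_fderiv_of_isOpen hO le_rfl)

theorem hb2_cgrad' {w : ℂ → ℝ} (hw : ContDiff ℝ 1 w) : Continuous (gradient w) :=
  continuousOn_univ.1 (hb2_cgrad isOpen_univ hw.contDiffOn)

theorem hb2_sgrad {w : ℂ → ℝ} (hw : HasCompactSupport w) : HasCompactSupport (gradient w) :=
  (hw.fderiv ℝ).comp_left (g := (InnerProductSpace.toDual ℝ ℂ).symm) (map_zero _)

theorem hb2_int {F : Type} [NormedAddCommGroup F] {h : ℂ → F} {K : Set ℂ} (hK : IsCompact K)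
    (hc : ContinuousOn h K) (h0 : ∀ x, x ∉ K → h x = 0) : Integrable h :=
  (integrableOn_iff_integrable_of_support_subset fun x hx => by_contra fun h' => hx (h0 x h')).1
    (hc.integrableOn_compact hK)

theorem hb2_ibp1 {w p : ℂ → ℝ} {O : Set ℂ} (hO : IsOpen O) (hw : ContDiffOn ℝ 1 w O)
    (hp : ContDiff ℝ 1 p) (hs : HasCompactSupport p) (hsO : tsupport p ⊆ O) (v : ℂ) :
    Integrable (fun x => fderiv ℝ w x v * p x) ∧ Integrable (fun x => w x * fderiv ℝ p x v) ∧
    ∫ x, fderiv ℝ w x v * p x = -∫ x, w x * fderiv ℝ p x v := by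
  have c1 : ContinuousOn w (tsupport p) := hw.continuousOn.mono hsO
  have c2 : ContinuousOn (fun x => fderiv ℝ w x v) (tsupport p) :=
    ((hw.continuousOn_fderiv_of_isOpen hO le_rfl).mono hsO).clm_apply continuousOn_const
  have c3 : Continuous fun x => fderiv ℝ p x v :=
    (hp.continuous_fderiv one_ne_zero).clm_apply continuous_const
  have i1 : Integrable fun x => fderiv ℝ w x v * p x :=
    hb2_int hs (c2.mul hp.continuous.continuousOn) fun x hx => by
      rw [image_eq_zero_of_notMem_tsupport hx, mul_zero]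
  have i2 : Integrable fun x => w x * fderiv ℝ p x v :=
    hb2_int hs (c1.mul c3.continuousOn) fun x hx => by
      rw [fderiv_of_notMem_tsupport ℝ hx]; simp
  have i3 : Integrable fun x => w x * p x :=
    hb2_int hs (c1.mul hp.continuous.continuousOn) fun x hx => by
      rw [image_eq_zero_of_notMem_tsupport hx, mul_zero]
  refine ⟨i1, i2, ?_⟩
  rw [integral_mul_fderiv_eq_neg_fderiv_mul_of_integrable i1 i2 i3
    (fun x hx => (hw.contDiffAt (hO.mem_nhds (hsO hx))).differentiableAt one_ne_zero)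
    fun x _ => hp.differentiable one_ne_zero x, neg_neg]

theorem hb2_ibp {w : ℂ → ℝ} {X : ℂ → ℂ} {O : Set ℂ} (hO : IsOpen O) (hw : ContDiffOn ℝ 1 w O)
    (hX : ContDiff ℝ 1 X) (hs : HasCompactSupport X) (hsO : tsupport X ⊆ O) :
    ∫ x, inner ℝ (gradient w x) (X x) =
      -∫ x, w x * ((fderiv ℝ X x 1).re + (fderiv ℝ X x Complex.I).im) := by
  obtain ⟨a1, a2, a3⟩ := hb2_ibp1 hO hw (Complex.reCLM.contDiff.comp hX)
    (hs.comp_left (map_zero _)) ((tsupport_comp_subset (map_zero _) X).trans hsO) 1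
  obtain ⟨b1, b2, b3⟩ := hb2_ibp1 hO hw (Complex.imCLM.contDiff.comp hX)
    (hs.comp_left (map_zero _)) ((tsupport_comp_subset (map_zero _) X).trans hsO) Complex.I
  have d : ∀ (L : ℂ →L[ℝ] ℝ) x v, fderiv ℝ (L ∘ X) x v = L (fderiv ℝ X x v) := fun L x v => by
    rw [(L.hasFDerivAt.comp x (hX.differentiable one_ne_zero x).hasFDerivAt).fderiv]
    rfl
  simp only [d, Function.comp_apply, Complex.reCLM_apply, Complex.imCLM_apply] at a1 a2 a3 b1 b2 b3
  have e : ∀ x, inner ℝ (gradient w x) (X x) =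
      fderiv ℝ w x 1 * (X x).re + fderiv ℝ w x Complex.I * (X x).im := fun x => by
    rw [inner_gradient_left]
    conv_lhs => rw [show X x = (X x).re • (1 : ℂ) + (X x).im • Complex.I by simp]
    rw [map_add, map_smul, map_smul, smul_eq_mul, smul_eq_mul, mul_comm, mul_comm (X x).im]
  simp only [e, mul_add]
  rw [integral_add a1 b1, integral_add a2 b2, a3, b3, neg_add]

theorem hb2_lim {E : Type} [NormedAddCommGroup E] [InnerProductSpace ℝ E] {a : ℕ → ℂ → E}
    {f k : ℂ → E} (ha : ∀ j, MemLp (a j) 2 volume) (hf : MemLp f 2 volume)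
    (hk : MemLp k 2 volume) (h : Tendsto (fun j => eLpNorm (a j - f) 2 volume) atTop (𝓝 0)) :
    Tendsto (fun j => ∫ x, inner ℝ (a j x) (k x)) atTop (𝓝 (∫ x, inner ℝ (f x) (k x))) := by
  have e : ∀ {g : ℂ → E} (hg : MemLp g 2 volume),
      ∫ x, inner ℝ (g x) (k x) = inner ℝ (hg.toLp g) (hk.toLp k) := fun hg => by
    rw [L2.inner_def]
    refine integral_congr_ae ?_
    filter_upwards [hg.coeFn_toLp, hk.coeFn_toLp] with x h1 h2
    rw [h1, h2]
  simp only [e (ha _), e hf]
  exact ((Lp.tendsto_Lp_iff_tendsto_eLpNorm'' a ha f hf).2 h).inner tendsto_const_nhds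

theorem hb2_one {Ω : Set ℂ} {f : ℂ → ℝ} {g X : ℂ → ℂ} (h : H10 Ω f g) (hX : ContDiff ℝ 1 X)
    (hs : HasCompactSupport X) : ∫ x, inner ℝ (g x) (X x) =
      -∫ x, f x * ((fderiv ℝ X x 1).re + (fderiv ℝ X x Complex.I).im) := by
  obtain ⟨hf, hg, a, ha, l1, l2⟩ := h
  have c : Continuous (fderiv ℝ X) := hX.continuous_fderiv one_ne_zero
  have hk : MemLp (fun x => (fderiv ℝ X x 1).re + (fderiv ℝ X x Complex.I).im) 2 volume :=
    Continuous.memLp_of_hasCompactSupport (by fun_prop) ((hs.fderiv ℝ).comp_left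
      (g := fun L : ℂ →L[ℝ] ℂ => (L 1).re + (L Complex.I).im) (by simp))
  have t1 := hb2_lim (fun j => (hb2_cgrad' ((ha j).1.of_le hb2_one_le)).memLp_of_hasCompactSupport
    (hb2_sgrad (ha j).2.1)) hg (hX.continuous.memLp_of_hasCompactSupport hs) l2
  have t2 := (hb2_lim (fun j => (ha j).1.continuous.memLp_of_hasCompactSupport (ha j).2.1)
    hf hk l1).neg
  simp only [RCLike.inner_apply, conj_trivial, mul_comm _ (f _), mul_comm _ (a _ _)] at t2
  refine tendsto_nhds_unique t1 (t2.congr fun j => ?_)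
  exact (hb2_ibp isOpen_univ ((ha j).1.of_le hb2_one_le).contDiffOn hX hs (subset_univ _)).symm

theorem hb2_two {Ω O : Set ℂ} {f w : ℂ → ℝ} {g : ℂ → ℂ} (h : H10 Ω f g) (hO : IsOpen O)
    (hw : ContDiffOn ℝ 1 w O) (he : ∀ᵐ x, x ∈ O → f x = w x) :
    ∀ᵐ x, x ∈ O → g x = gradient w x := by
  have l1 : LocallyIntegrable g := h.2.1.locallyIntegrable one_le_two
  have l2 := hb2_cgrad hO hw
  have key := hO.ae_eq_zero_of_integral_contDiff_smul_eq_zero (f := fun x => g x - gradient w x)
    ((l1.locallyIntegrableOn O).sub (l2.locallyIntegrableOn hO.measurableSet))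
    fun φ h1 h2 h3 => by
      have i1 : Integrable fun x => φ x • g x :=
        l1.integrable_smul_left_of_hasCompactSupport h1.continuous h2
      have i2 : Integrable fun x => φ x • gradient w x :=
        hb2_int h2 (h1.continuous.continuousOn.smul (l2.mono h3)) fun x hx => by
          rw [image_eq_zero_of_notMem_tsupport hx, zero_smul]
      simp only [smul_sub]
      rw [integral_sub i1 i2, sub_eq_zero]
      refine ext_inner_left ℝ fun c => ?_
      have hX : ContDiff ℝ 1 fun x => φ x • c := (h1.of_le hb2_one_le).smul contDiff_const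
      have hs : HasCompactSupport fun x => φ x • c := h2.smul_right
      have ht : tsupport (fun x => φ x • c) ⊆ O := (tsupport_smul_subset_left _ _).trans h3
      have e : ∀ (u : ℂ → ℂ) x, inner ℝ c (φ x • u x) = inner ℝ (u x) (φ x • c) := fun u x => by
        rw [real_inner_smul_right, real_inner_smul_right, real_inner_comm]
      rw [← integral_inner i1, ← integral_inner i2]
      simp only [e]
      rw [hb2_one h hX hs, hb2_ibp hO hw hX hs ht, neg_inj]
      refine integral_congr_ae ?_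
      filter_upwards [he] with x hx
      by_cases hx' : x ∈ O
      · rw [hx hx']
      · rw [fderiv_of_notMem_tsupport ℝ fun h' => hx' (ht h')]; simp
  filter_upwards [key] with x hx hx' using sub_eq_zero.1 (hx hx')

theorem hb2_tend {E F : Type} [NormedAddCommGroup E] [NormedAddCommGroup F] {u : ℕ → ℂ → E}
    {v : ℕ → ℂ → F} (C : ℝ) (h : ∀ j x, ‖u j x‖ ≤ C * ‖v j x‖)
    (hv : Tendsto (fun j => eLpNorm (v j) 2 volume) atTop (𝓝 0)) :
    Tendsto (fun j => eLpNorm (u j) 2 volume) atTop (𝓝 0) := by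
  have := ENNReal.Tendsto.const_mul (a := ENNReal.ofReal C) hv (Or.inr ENNReal.ofReal_ne_top)
  rw [mul_zero] at this
  exact tendsto_of_tendsto_of_tendsto_of_le_of_le tendsto_const_nhds this (fun _ => zero_le)
    fun j => eLpNorm_le_mul_eLpNorm_of_ae_le_mul (Eventually.of_forall (h j)) 2

theorem hb2_three {Ω K : Set ℂ} {f χ : ℂ → ℝ} {g : ℂ → ℂ} (h : H10 Ω f g) (hχ : ContDiff ℝ ∞ χ)
    (hs : HasCompactSupport χ) (hK : ∀ x ∈ K, ∀ᶠ y in 𝓝 x, χ y = 1) :
    H10 (Ω \ K) (fun x => (1 - χ x) * f x)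
      (fun x => ((1 - χ x : ℝ) : ℂ) * g x - (f x : ℂ) * gradient χ x) := by
  obtain ⟨hf, hg, a, ha, l1, l2⟩ := h
  have c1 := hχ.continuous
  have c2 := hb2_cgrad' (hχ.of_le hb2_one_le)
  obtain ⟨A, hA⟩ := c1.bounded_above_of_compact_support hs
  obtain ⟨B, hB⟩ := c2.bounded_above_of_compact_support (hb2_sgrad hs)
  have hA' : ∀ x, ‖1 - χ x‖ ≤ 1 + A := fun x =>
    (norm_sub_le _ _).trans (by rw [norm_one]; linarith [hA x])
  have b1 : ∀ (x : ℂ) (y : ℝ), ‖(1 - χ x) * y‖ ≤ (1 + A) * ‖y‖ := fun x y => by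
    rw [norm_mul]; exact mul_le_mul_of_nonneg_right (hA' x) (norm_nonneg _)
  have b2 : ∀ (x y : ℂ), ‖((1 - χ x : ℝ) : ℂ) * y‖ ≤ (1 + A) * ‖y‖ := fun x y => by
    rw [norm_mul, Complex.norm_real]; exact mul_le_mul_of_nonneg_right (hA' x) (norm_nonneg _)
  have b3 : ∀ (x : ℂ) (y : ℝ), ‖(y : ℂ) * gradient χ x‖ ≤ B * ‖y‖ := fun x y => by
    rw [norm_mul, Complex.norm_real, mul_comm]
    exact mul_le_mul_of_nonneg_right (hB x) (norm_nonneg _)
  have m1 : ∀ {u : ℂ → ℂ}, AEStronglyMeasurable u volume →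
      AEStronglyMeasurable (fun x => ((1 - χ x : ℝ) : ℂ) * u x) volume := fun hu =>
    (Complex.continuous_ofReal.comp (continuous_const.sub c1)).aestronglyMeasurable.mul hu
  have m2 : ∀ {u : ℂ → ℝ}, AEStronglyMeasurable u volume →
      AEStronglyMeasurable (fun x => (u x : ℂ) * gradient χ x) volume := fun hu =>
    (Complex.continuous_ofReal.comp_aestronglyMeasurable hu).mul c2.aestronglyMeasurable
  refine ⟨hf.of_le_mul ((continuous_const.sub c1).aestronglyMeasurable.mul hf.1)
      (Eventually.of_forall fun x => b1 x _),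
    (hg.of_le_mul (m1 hg.1) (Eventually.of_forall fun x => b2 x _)).sub
      (hf.of_le_mul (m2 hf.1) (Eventually.of_forall fun x => b3 x _)),
    fun j x => (1 - χ x) * a j x, fun j => ⟨(contDiff_const.sub hχ).mul (ha j).1,
      (ha j).2.1.mul_left, fun x hx => ⟨(ha j).2.2 (tsupport_mul_subset_right hx), fun h' => ?_⟩⟩,
    hb2_tend (1 + A) (fun j x => ?_) l1, ?_⟩
  · refine notMem_tsupport_iff_eventuallyEq.2 ?_ hx
    filter_upwards [hK x h'] with y hy
    simp [hy]
  · simpa only [Pi.sub_apply, ← mul_sub] using b1 x _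
  · have t1 := hb2_tend (u := fun j x => ((1 - χ x : ℝ) : ℂ) * (gradient (a j) - g) x) (1 + A)
      (fun j x => b2 x _) l2
    have t2 := hb2_tend (u := fun j x => (((a j - f) x : ℝ) : ℂ) * gradient χ x) B
      (fun j x => b3 x _) l1
    have t3 := t1.add t2
    rw [add_zero] at t3
    refine tendsto_of_tendsto_of_tendsto_of_le_of_le tendsto_const_nhds t3 (fun _ => zero_le)
      fun j => le_trans (le_of_eq ?_) (eLpNorm_sub_le
        (m1 ((hb2_cgrad' ((ha j).1.of_le hb2_one_le)).aestronglyMeasurable.sub hg.1))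
        (m2 ((ha j).1.continuous.aestronglyMeasurable.sub hf.1)) one_le_two)
    congr 1
    funext x
    have d1 := ((ha j).1.differentiable (by simp) x).hasFDerivAt
    have d2 := ((hχ.differentiable (by simp) x).hasFDerivAt.const_sub 1).fun_mul d1
    have e : gradient (fun x => (1 - χ x) * a j x) x =
        ((1 - χ x : ℝ) : ℂ) * gradient (a j) x - (a j x : ℂ) * gradient χ x := by
      refine ext_inner_right ℝ fun c => ?_
      rw [← Complex.real_smul, ← Complex.real_smul, inner_sub_left, real_inner_smul_left,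
        real_inner_smul_left, inner_gradient_left, inner_gradient_left, inner_gradient_left,
        d2.fderiv]
      simp [sub_eq_add_neg]
    simp only [Pi.sub_apply, e]
    push_cast
    ring

theorem t_hb2 (_hhb1 : S_HB1) : S_HB2 :=
  ⟨fun _ _ _ _ => hb2_one, fun _ _ _ _ _ => hb2_two, fun _ _ _ _ _ => hb2_three⟩

end Pool.Agent.P.MP_6b977f_mp.EB
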