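import Pool.Agent.P.MP_6b977f_mp.EB.IfS

namespace Pool.Agent.P.MP_6b977f_mp.EB

open Real MeasureTheory Filter Topology Laplacian Set Metric
open scoped ContDiff BoundedContinuousFunction ComplexConjugate Pointwise ENNReal

theorem int_vol (x : ℂ) {s : ℝ} (hs : 0 ≤ s) : volume.real (closedBall x s) = s ^ 2 * π := by
  rw [Measure.real, Complex.volume_closedBall]
  simp [hs]

theorem int_c {lam r : ℝ} (hr : 0 < r) (h : √lam * r ≤ 1) :
    r ^ 3 / 64 ≤ ∫ y : ℂ, max (r / 2 - ‖y‖) 0 * cos (√lam * y.re) := by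
  have hc : Continuous fun y : ℂ => max (r / 2 - ‖y‖) 0 * cos (√lam * y.re) := by fun_prop
  have hz : ∀ y : ℂ, y ∉ closedBall (0 : ℂ) (r / 2) →
      max (r / 2 - ‖y‖) 0 * cos (√lam * y.re) = 0 := fun y hy => by
    rw [mem_closedBall_zero_iff, not_le] at hy
    rw [max_eq_right (by linarith), zero_mul]
  have hi : Integrable fun y : ℂ => max (r / 2 - ‖y‖) 0 * cos (√lam * y.re) :=
    hc.integrable_of_hasCompactSupport (HasCompactSupport.intro (isCompact_closedBall _ _) hz)
  have hcos : ∀ y : ℂ, ‖y‖ ≤ r / 2 → 1 / 2 ≤ cos (√lam * y.re) := fun y hy => by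
    have h1 := Real.one_sub_sq_div_two_le_cos (x := √lam * y.re)
    have h2 : |√lam * y.re| ≤ 1 := by
      rw [abs_mul, abs_of_nonneg (sqrt_nonneg _)]
      exact (mul_le_mul_of_nonneg_left ((Complex.abs_re_le_norm y).trans (by linarith))
        (sqrt_nonneg _)).trans h
    have h3 : (√lam * y.re) ^ 2 ≤ 1 := (sq_le_one_iff_abs_le_one _).2 h2
    linarith
  have h0 : ∀ y : ℂ, 0 ≤ max (r / 2 - ‖y‖) 0 * cos (√lam * y.re) := fun y => by
    by_cases hy : y ∈ closedBall (0 : ℂ) (r / 2)
    · exact mul_nonneg (le_max_right _ _)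
        (by linarith [hcos y (mem_closedBall_zero_iff.1 hy)])
    · rw [hz y hy]
  refine le_trans ?_ (setIntegral_le_integral (s := closedBall (0 : ℂ) (r / 4)) hi
    (Eventually.of_forall h0))
  have h1 := setIntegral_mono_on (μ := volume) (s := closedBall (0 : ℂ) (r / 4))
    (f := fun _ => r / 8) (continuousOn_const.integrableOn_compact (isCompact_closedBall _ _))
    hi.integrableOn measurableSet_closedBall fun y hy => by
      rw [mem_closedBall_zero_iff] at hy
      have h2 := hcos y (by linarith)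
      have h3 : r / 4 ≤ max (r / 2 - ‖y‖) 0 := le_max_of_le_left (by linarith)
      nlinarith
  refine le_trans ?_ h1
  rw [setIntegral_const, int_vol _ (by positivity), smul_eq_mul]
  have h2 := Real.two_le_pi
  have h3 : 0 < r ^ 3 := by positivity
  nlinarith

theorem int_rep (hmv1 : S_MV1) {lam r : ℝ} {x x' : ℂ} {u : ℂ → ℝ} (hl : 0 ≤ lam) (hr : 0 < r)
    (hu : Sol (ball x r) lam u) (hx : x' ∈ ball x (r / 4)) :
    u x' * ∫ y : ℂ, max (r / 2 - ‖y‖) 0 * cos (√lam * y.re) =
      ∫ z in closedBall x (3 * r / 4), max (r / 2 - ‖z - x'‖) 0 * u z := by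
  rw [mem_ball] at hx
  have hs : ball x' (3 * r / 4) ⊆ ball x r := ball_subset_ball' (by linarith)
  have h1 := hmv1 lam (3 * r / 4) (r / 2) x' u (fun t => max (r / 2 - t) 0) hl
    ⟨hu.1.mono hs, fun z hz => hu.2 z (hs hz)⟩ (by linarith) (by fun_prop)
    fun t ht => max_eq_right (by linarith)
  rw [← h1, setIntegral_eq_integral_of_forall_compl_eq_zero fun z hz => ?_,
    ← integral_add_left_eq_self (fun z => max (r / 2 - ‖z - x'‖) 0 * u z) x']
  · simp only [add_sub_cancel_left]
  · rw [mem_closedBall, not_le] at hz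
    have := dist_triangle z x' x
    rw [dist_eq_norm z x'] at this
    rw [max_eq_right (by linarith), zero_mul]

theorem int_key (hmv1 : S_MV1) {lam r : ℝ} {x : ℂ} {u : ℂ → ℝ} (hl : 0 ≤ lam) (hr : 0 < r)
    (h : √lam * r ≤ 1) (hu : Sol (ball x r) lam u) :
    |u x| * r ^ 2 ≤ 32 * ∫ z in closedBall x (3 * r / 4), |u z| ∧
      ‖fderiv ℝ u x‖ * r ^ 3 ≤ 64 * ∫ z in closedBall x (3 * r / 4), |u z| := by
  have hc := int_c hr h
  have hK := isCompact_closedBall x (3 * r / 4)
  have hcu : ContinuousOn u (closedBall x (3 * r / 4)) :=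
    hu.1.continuousOn.mono (closedBall_subset_ball (by linarith))
  have hi : ∀ x' : ℂ, IntegrableOn (fun z => max (r / 2 - ‖z - x'‖) 0 * u z)
      (closedBall x (3 * r / 4)) := fun x' =>
    (ContinuousOn.mul (by fun_prop) hcu).integrableOn_compact hK
  have ha : IntegrableOn (fun z => |u z|) (closedBall x (3 * r / 4)) :=
    hcu.abs.integrableOn_compact hK
  have hx : x ∈ ball x (r / 4) := mem_ball_self (by positivity)
  have hA : 0 ≤ ∫ z in closedBall x (3 * r / 4), |u z| := integral_nonneg fun _ => abs_nonneg _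
  have r3 : 0 < r ^ 3 := by positivity
  have e0 := int_rep hmv1 hl hr hu hx
  have e1 := fun x' hx' => int_rep (x' := x') hmv1 hl hr hu hx'
  generalize (∫ y : ℂ, max (r / 2 - ‖y‖) 0 * cos (√lam * y.re)) = c at hc e0 e1
  have c0 : 0 < c := lt_of_lt_of_le (by positivity) hc
  constructor
  · have h1 : ‖∫ z in closedBall x (3 * r / 4), max (r / 2 - ‖z - x‖) 0 * u z‖ ≤
        ∫ z in closedBall x (3 * r / 4), r / 2 * |u z| :=
      norm_integral_le_of_norm_le (ha.const_mul _) (Eventually.of_forall fun z => by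
        rw [norm_mul, Real.norm_eq_abs, Real.norm_eq_abs, abs_of_nonneg (le_max_right _ _)]
        exact mul_le_mul_of_nonneg_right
          (max_le (by linarith [norm_nonneg (z - x)]) (by linarith)) (abs_nonneg _))
    rw [← e0, integral_const_mul, norm_mul, Real.norm_eq_abs, Real.norm_of_nonneg c0.le] at h1
    have h2 := mul_le_mul_of_nonneg_left hc (abs_nonneg (u x))
    refine le_of_mul_le_mul_left ?_ hr
    nlinarith
  · have h1 : ‖fderiv ℝ u x‖ ≤ (∫ z in closedBall x (3 * r / 4), |u z|) / c := by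
      refine norm_fderiv_le_of_lip' ℝ (by positivity) ?_
      filter_upwards [isOpen_ball.mem_nhds hx] with x' hx'
      have h2 : ‖∫ z in closedBall x (3 * r / 4), (max (r / 2 - ‖z - x'‖) 0 * u z -
          max (r / 2 - ‖z - x‖) 0 * u z)‖ ≤
          ∫ z in closedBall x (3 * r / 4), ‖x' - x‖ * |u z| :=
        norm_integral_le_of_norm_le (ha.const_mul _) (Eventually.of_forall fun z => by
          rw [← sub_mul, norm_mul, Real.norm_eq_abs, Real.norm_eq_abs]
          refine mul_le_mul_of_nonneg_right ((abs_max_sub_max_le_abs _ _ _).trans ?_)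
            (abs_nonneg _)
          have := abs_norm_sub_norm_le (z - x) (z - x')
          rw [sub_sub_sub_cancel_left] at this ⊢
          exact this)
      rw [integral_sub (hi x') (hi x), ← e0, ← e1 x' hx', integral_const_mul, ← sub_mul, norm_mul,
        Real.norm_of_nonneg c0.le] at h2
      rw [div_mul_eq_mul_div, le_div_iff₀ c0]
      linarith
    rw [le_div_iff₀ c0] at h1
    have h2 := mul_le_mul_of_nonneg_left hc (norm_nonneg (fderiv ℝ u x))
    linarith

theorem t_int (hmv1 : S_MV1) : S_INT := by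
  refine ⟨16384, by norm_num, fun lam r x u hl hr h hu => ?_⟩
  obtain ⟨k1, k2⟩ := int_key hmv1 hl hr h hu
  have hK := isCompact_closedBall x (3 * r / 4)
  have hs : closedBall x (3 * r / 4) ⊆ ball x r := closedBall_subset_ball (by linarith)
  have hcu : ContinuousOn u (closedBall x (3 * r / 4)) := hu.1.continuousOn.mono hs
  have ha : IntegrableOn (fun z => |u z|) (closedBall x (3 * r / 4)) :=
    hcu.abs.integrableOn_compact hK
  have hk : ∀ t : ℝ, IntegrableOn (fun _ : ℂ => t) (closedBall x (3 * r / 4)) := fun t =>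
    continuousOn_const.integrableOn_compact hK
  have hA : 0 ≤ ∫ z in closedBall x (3 * r / 4), |u z| := integral_nonneg fun _ => abs_nonneg _
  have r2 : 0 < r ^ 2 := by positivity
  have hV : volume.real (closedBall x (3 * r / 4)) ≤ 4 * r ^ 2 := by
    rw [int_vol _ (by positivity)]
    have := Real.pi_le_four
    nlinarith
  refine ⟨fun hi => ?_, fun M hM => ?_⟩
  · have h1 : ∀ t : ℝ, 2 * t * ∫ z in closedBall x (3 * r / 4), |u z| ≤
        (∫ y in ball x r, u y ^ 2) + 4 * r ^ 2 * t ^ 2 := fun t => by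
      have h2 := setIntegral_mono_on (ha.const_mul (2 * t)) ((hi.mono_set hs).add (hk (t ^ 2)))
        measurableSet_closedBall fun z _ => by
          have := sq_nonneg (|u z| - t)
          have := sq_abs (u z)
          simp only [Pi.add_apply]
          nlinarith
      rw [integral_const_mul, integral_add' (hi.mono_set hs) (hk _), setIntegral_const,
        smul_eq_mul] at h2
      have h3 := setIntegral_mono_set hi (Eventually.of_forall fun z => sq_nonneg (u z))
        hs.eventuallyLE
      have h4 := mul_le_mul_of_nonneg_right hV (sq_nonneg t)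
      linarith
    generalize (∫ z in closedBall x (3 * r / 4), |u z|) = A at *
    generalize (∫ y in ball x r, u y ^ 2) = B at *
    have h2 : A ^ 2 ≤ 4 * r ^ 2 * B := by
      have h3 := mul_le_mul_of_nonneg_left (h1 (A / (4 * r ^ 2))) (by positivity : 0 ≤ 4 * r ^ 2)
      have e1 : 4 * r ^ 2 * (2 * (A / (4 * r ^ 2)) * A) = 2 * A ^ 2 := by field_simp
      have e2 : 4 * r ^ 2 * (B + 4 * r ^ 2 * (A / (4 * r ^ 2)) ^ 2) = 4 * r ^ 2 * B + A ^ 2 := by
        field_simp
      linarith
    have hB : 0 ≤ r ^ 2 * B := by nlinarith [sq_nonneg A]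
    constructor
    · have h3 := pow_le_pow_left₀ (by positivity) k1 2
      rw [mul_pow, sq_abs] at h3
      refine le_of_mul_le_mul_left ?_ r2
      nlinarith
    · have h3 := pow_le_pow_left₀ (by positivity) k2 2
      refine le_of_mul_le_mul_left ?_ r2
      nlinarith
  · have M0 : 0 ≤ M := (abs_nonneg _).trans (hM x (mem_ball_self hr))
    have h2 := setIntegral_mono_on ha (hk M) measurableSet_closedBall fun z hz => hM z (hs hz)
    rw [setIntegral_const, smul_eq_mul] at h2
    have h3 := mul_le_mul_of_nonneg_right hV M0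
    have h4 : 0 ≤ r ^ 2 * M := by positivity
    refine le_of_mul_le_mul_left ?_ r2
    nlinarith

end Pool.Agent.P.MP_6b977f_mp.EB
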