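import Pool.Agent.P.MP_6b977f_mp.EB.IfS

/-! Vectors that are simple eigenvectors of some matrix of a linear family are dense. -/

namespace Pool.Agent.P.MP_6b977f_mp.EB

open Real MeasureTheory Filter Topology Laplacian Set Metric
open scoped ContDiff BoundedContinuousFunction ComplexConjugate Pointwise ENNReal
open Matrix

theorem la_det {m : ℕ} {M : ℝ → Matrix (Fin m) (Fin m) ℝ} {t : ℝ}
    (h : ∀ i j, AnalyticAt ℝ (fun s => M s i j) t) : AnalyticAt ℝ (fun s => (M s).det) t := by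
  simp only [Matrix.det_apply']
  exact Finset.analyticAt_fun_sum _ fun σ _ =>
    analyticAt_const.mul (Finset.analyticAt_fun_prod _ fun i _ => h _ _)

theorem la_ker {m : ℕ} {x : Fin m → ℝ} (hx : x ≠ 0) :
    (vecMulVec x x - (x ⬝ᵥ x) • (1 : Matrix (Fin m) (Fin m) ℝ) + vecMulVec x x).det ≠ 0 := by
  intro h
  obtain ⟨v, hv, h⟩ := Matrix.exists_mulVec_eq_zero_iff.2 h
  have h0 : x ⬝ᵥ x ≠ 0 := fun e => hx (dotProduct_self_eq_zero.1 e)
  rw [add_mulVec, sub_mulVec, vecMulVec_mulVec, smul_mulVec, one_mulVec] at h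
  have h1 := congrArg (fun w => x ⬝ᵥ w) h
  simp only [dotProduct_add, dotProduct_sub, dotProduct_smul, dotProduct_zero, smul_eq_mul,
    MulOpposite.smul_eq_mul_unop, MulOpposite.unop_op] at h1
  have h2 : x ⬝ᵥ v = 0 := by
    have : x ⬝ᵥ x * x ⬝ᵥ v = 0 := by linarith
    exact (mul_eq_zero.1 this).resolve_left h0
  rw [h2] at h
  simp [h0, hv] at h

theorem t_la : S_LA := by
  intro m V x₁ u ε hx hV hs hε
  choose B hB hBx using fun i : Fin m => hs (Pi.single i 1)
  set x : ℝ → Fin m → ℝ := fun s => u + s • (x₁ - u) with hxd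
  set M : ℝ → Matrix (Fin m) (Fin m) ℝ := fun s => Matrix.of fun k i => (B i *ᵥ x s) k with hM
  set b : ℝ → Fin m → ℝ := fun s => vecMulVec x₁ x₁ *ᵥ x s - (x₁ ⬝ᵥ x₁) • x s with hb
  set A : ℝ → Matrix (Fin m) (Fin m) ℝ := fun s =>
    (M s).det • vecMulVec x₁ x₁ - ∑ i, cramer (M s) (b s) i • B i with hA
  set μ : ℝ → ℝ := fun s => (M s).det * (x₁ ⬝ᵥ x₁) with hμ
  set q : ℝ → ℝ := fun s =>
    (A s - μ s • (1 : Matrix (Fin m) (Fin m) ℝ) + vecMulVec (x s) (x s)).det * (x s ⬝ᵥ x s) with hq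
  have hAx : ∀ s, A s *ᵥ x s = μ s • x s := fun s => by
    have h1 : (∑ i, cramer (M s) (b s) i • B i) *ᵥ x s = M s *ᵥ cramer (M s) (b s) := by
      ext k
      simp only [Matrix.sum_mulVec, smul_mulVec, Finset.sum_apply, Pi.smul_apply, smul_eq_mul]
      rw [mulVec, dotProduct]
      exact Finset.sum_congr rfl fun i _ => mul_comm _ _
    simp only [hA, sub_mulVec, smul_mulVec, h1, mulVec_cramer, hμ]
    simp only [hb, smul_sub, smul_smul, sub_sub_cancel]
  have ax : ∀ t i, AnalyticAt ℝ (fun s => x s i) t := fun t i => by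
    simp only [hxd, Pi.add_apply, Pi.smul_apply, smul_eq_mul]
    fun_prop
  have amv : ∀ t (C : Matrix (Fin m) (Fin m) ℝ) k, AnalyticAt ℝ (fun s => (C *ᵥ x s) k) t :=
    fun t C k => by
      simp only [mulVec, dotProduct]
      exact Finset.analyticAt_fun_sum _ fun i _ => analyticAt_const.mul (ax t i)
  have aM : ∀ t i j, AnalyticAt ℝ (fun s => M s i j) t := fun t i j => amv t _ _
  have ab : ∀ t i, AnalyticAt ℝ (fun s => b s i) t := fun t i =>
    (amv t _ i).sub (analyticAt_const.mul (ax t i))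
  have ac : ∀ t i, AnalyticAt ℝ (fun s => cramer (M s) (b s) i) t := fun t i => by
    simp only [cramer_apply]
    refine la_det fun k l => ?_
    simp only [updateCol_apply]
    split_ifs
    exacts [ab t k, aM t k l]
  have aq : ∀ t, AnalyticAt ℝ q t := fun t => by
    refine (la_det fun k l => ?_).mul (Finset.analyticAt_fun_sum _ fun i _ => (ax t i).mul (ax t i))
    simp only [hA, hμ, Matrix.add_apply, Matrix.sub_apply, Matrix.smul_apply, Matrix.sum_apply,
      smul_eq_mul, vecMulVec_apply]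
    exact ((((la_det (aM t)).mul analyticAt_const).sub (Finset.analyticAt_fun_sum _ fun i _ =>
      (ac t i).mul analyticAt_const)).sub (((la_det (aM t)).mul analyticAt_const).mul
        analyticAt_const)).add ((ax t k).mul (ax t l))
  have h0 : x₁ ⬝ᵥ x₁ ≠ 0 := fun e => hx (dotProduct_self_eq_zero.1 e)
  have q1 : q 1 ≠ 0 := by
    have e1 : x 1 = x₁ := by simp [hxd]
    have e2 : M 1 = 1 := by
      ext k i
      simp [hM, e1, hBx, Matrix.one_apply, Pi.single_apply]
    have e3 : b 1 = 0 := by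
      simp only [hb, e1, vecMulVec_mulVec]
      ext i
      simp [mul_comm]
    simp only [hq, hA, hμ, e1, e2, e3, det_one, one_smul, one_mul, map_zero, Pi.zero_apply,
      zero_smul, Finset.sum_const_zero, sub_zero]
    exact mul_ne_zero (la_ker hx) h0
  have hev : ∀ᶠ s in 𝓝[≠] (0 : ℝ), q s ≠ 0 := by
    refine (aq 0).eventually_eq_zero_or_eventually_ne_zero.resolve_left fun h => q1 ?_
    exact AnalyticOnNhd.eqOn_zero_of_preconnected_of_eventuallyEq_zero (fun t _ => aq t)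
      isPreconnected_univ (mem_univ 0) h (mem_univ 1)
  have hc : ∀ᶠ s in 𝓝 (0 : ℝ), ‖x s - u‖ < ε := by
    have : Continuous fun s => ‖x s - u‖ := by simp only [hxd]; fun_prop
    exact this.continuousAt.eventually_lt continuousAt_const (by simpa [hxd])
  obtain ⟨s, h1, h2⟩ := (hev.and (hc.filter_mono nhdsWithin_le_nhds)).exists
  obtain ⟨h3, h4⟩ := mul_ne_zero_iff.1 h1
  refine ⟨x s, A s, μ s, V.sub_mem (V.smul_mem _ hV) (V.sum_mem fun i _ => V.smul_mem _ (hB i)),
    h2, fun e => h4 (by simp [e]), fun v => ⟨fun hv => ⟨x s ⬝ᵥ v / x s ⬝ᵥ x s, ?_⟩, ?_⟩⟩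
  · refine sub_eq_zero.1 (Matrix.eq_zero_of_mulVec_eq_zero h3 ?_)
    have h5 : x s ⬝ᵥ (v - (x s ⬝ᵥ v / x s ⬝ᵥ x s) • x s) = 0 := by
      rw [dotProduct_sub, dotProduct_smul, smul_eq_mul, div_mul_cancel₀ _ h4, sub_self]
    rw [add_mulVec, vecMulVec_mulVec, h5, sub_mulVec, smul_mulVec, one_mulVec, mulVec_sub,
      mulVec_smul, hv, hAx, smul_sub, smul_comm (μ s)]
    simp
  · rintro ⟨a, rfl⟩
    rw [mulVec_smul, hAx, smul_comm]

end Pool.Agent.P.MP_6b977f_mp.EB
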