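import Pool.Agent.P.MP_6b977f_mp.EB.IfS

/-! Functions of class C1 up to the boundary that vanish on the boundary. -/

namespace Pool.Agent.P.MP_6b977f_mp.EB

open Real MeasureTheory Filter Topology Laplacian Set Metric
open scoped ContDiff BoundedContinuousFunction ComplexConjugate Pointwise ENNReal

theorem lip_h : ∃ (h : ℝ → ℝ) (C : ℝ), ContDiff ℝ 1 h ∧ (∀ t, |t| ≤ 1 → h t = t) ∧
    (∀ t, |h t| ≤ C ∧ |deriv h t| ≤ C) ∧ ∀ t, 2 < |t| → deriv h t = 0 := by
  let b : ContDiffBump (0 : ℝ) := ⟨1, 2, one_pos, one_lt_two⟩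
  have h1 : ContDiff ℝ 1 fun t => t * b t := contDiff_id.mul b.contDiff
  have h2 : HasCompactSupport fun t => t * b t := b.hasCompactSupport.mul_left
  obtain ⟨C, hC⟩ := h1.continuous.bounded_above_of_compact_support h2
  obtain ⟨C', hC'⟩ := (h1.continuous_deriv le_rfl).bounded_above_of_compact_support h2.deriv
  refine ⟨_, max C C', h1, fun t ht => ?_, fun t => ⟨(hC t).trans (le_max_left _ _),
    (hC' t).trans (le_max_right _ _)⟩, fun t ht => ?_⟩
  · rw [b.one_of_mem_closedBall (by simpa using ht), mul_one]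
  · refine by_contra fun h => ?_
    have := tsupport_mul_subset_right (f := fun t : ℝ => t) (support_deriv_subset h)
    rw [b.tsupport_eq, mem_closedBall_zero_iff] at this
    exact absurd ht (not_lt.2 this)

/-- Dominated convergence in `L²`. -/
theorem lip_dom {E : Type} [NormedAddCommGroup E] {F : ℕ → ℂ → E} {g : ℂ → ℝ}
    (hg : MemLp g 2 volume) (hm : ∀ n, AEStronglyMeasurable (F n) volume)
    (hb : ∀ n x, ‖F n x‖ ≤ ‖g x‖) (hl : ∀ᵐ x, Tendsto (fun n => F n x) atTop (𝓝 0)) :
    Tendsto (fun n => eLpNorm (F n) 2 volume) atTop (𝓝 0) := by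
  have h1 := tendsto_lintegral_of_dominated_convergence' (μ := volume)
    (F := fun n x => ‖F n x‖ₑ ^ (2 : ℝ)) (f := fun _ => 0) (fun x => ‖g x‖ₑ ^ (2 : ℝ))
    (fun n => (hm n).enorm.pow_const _)
    (fun n => Eventually.of_forall fun x => ENNReal.rpow_le_rpow
      (by simpa [enorm_eq_nnnorm, ← NNReal.coe_le_coe] using hb n x) two_pos.le)
    (by simpa using (lintegral_rpow_enorm_lt_top_of_eLpNorm_lt_top two_ne_zero
      ENNReal.ofNat_ne_top hg.2).ne)
    (hl.mono fun x hx => by
      simpa [Function.comp_def] using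
        (ENNReal.continuous_rpow_const (y := 2)).continuousAt.tendsto.comp hx.enorm)
  have h2 := (ENNReal.continuous_rpow_const (y := 1 / 2)).continuousAt.tendsto.comp h1
  simp only [eLpNorm_eq_lintegral_rpow_enorm_toReal two_ne_zero ENNReal.ofNat_ne_top,
    ENNReal.toReal_ofNat]
  simpa [Function.comp_def] using h2

theorem lip_mem {E : Type} [NormedAddCommGroup E] {Ω : Set ℂ} (ho : IsOpen Ω)
    (hb : Bornology.IsBounded Ω) {w : ℂ → E} (hw : ContinuousOn w (closure Ω)) :
    MemLp (Ω.indicator w) 2 volume := by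
  obtain ⟨C, hC⟩ := hb.isCompact_closure.exists_bound_of_continuousOn hw
  have : IsFiniteMeasure (volume.restrict Ω) := isFiniteMeasure_restrict.2 hb.measure_lt_top.ne
  rw [memLp_indicator_iff_restrict ho.measurableSet]
  exact MemLp.of_bound ((hw.mono subset_closure).aestronglyMeasurable ho.measurableSet) C
    ((ae_restrict_mem ho.measurableSet).mono fun x hx => hC x (subset_closure hx))

/-- The gradient vanishes almost everywhere on the zero set. -/
theorem lip_zero {O : Set ℂ} (ho : IsOpen O) {u : ℂ → ℝ} (hu : ContDiffOn ℝ 1 u O) :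
    ∀ᵐ x, x ∈ O → u x = 0 → gradient u x = 0 := by
  have hs : MeasurableSet (O ∩ u ⁻¹' {0}) := by
    have := (hu.continuousOn.isOpen_inter_preimage ho (isOpen_compl_singleton (x := (0 : ℝ))))
    convert ho.measurableSet.diff this.measurableSet using 1
    ext x; simp
  have h := ApproximatesLinearOn.norm_fderiv_sub_le volume (f := fun x => (u x : ℂ)) (A := 0)
    (δ := 0) (s := O ∩ u ⁻¹' {0})
    (fun x hx y hy => by simp [show u x = 0 from hx.2, show u y = 0 from hy.2]) hs
    (fun x => Complex.ofRealCLM.comp (fderiv ℝ u x)) fun x hx =>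
      (Complex.ofRealCLM.hasFDerivAt.comp x ((hu.contDiffAt (ho.mem_nhds hx.1)).differentiableAt
        one_ne_zero).hasFDerivAt).hasFDerivWithinAt
  rw [ae_restrict_iff' hs] at h
  filter_upwards [h] with x hx h1 h2
  have h3 := hx ⟨h1, h2⟩
  rw [sub_zero, nonpos_iff_eq_zero, nnnorm_eq_zero] at h3
  have : fderiv ℝ u x = 0 := by
    ext1 v
    simpa using congrArg (fun L : ℂ →L[ℝ] ℂ => L v) h3
  simp [gradient, this]

theorem t_lip (hc1t : S_C1T) (hhb1 : S_HB1) : S_LIP := by
  intro Ω O u ho hb hO hc hu h0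
  obtain ⟨h, C, h1, h2, h3, h4⟩ := lip_h
  have C0 : 0 ≤ C := (abs_nonneg _).trans (h3 0).1
  have hd : ∀ x ∈ closure Ω, ContDiffAt ℝ 1 u x := fun x hx => hu.contDiffAt (hO.mem_nhds (hc hx))
  set v : ℕ → ℂ → ℝ := fun n => Ω.indicator fun x => u x - h ((n + 1) * u x) / (n + 1) with hv
  have out : ∀ n, ∀ x ∉ Ω, v n =ᶠ[𝓝 x] 0 := fun n x hx => by
    by_cases h' : x ∈ closure Ω
    · have a := (hd x h').continuousAt
      have : ContinuousAt (fun y => |((n : ℝ) + 1) * u y|) x := by fun_prop
      filter_upwards [this.eventually_lt (continuousAt_const (y := (1 : ℝ)))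
        (by simp [h0 x (ho.frontier_eq ▸ ⟨h', hx⟩)])] with y hy
      refine indicator_apply_eq_zero.2 fun _ => ?_
      rw [h2 _ hy.le, mul_div_cancel_left₀ _ (by positivity), sub_self]
    · filter_upwards [isClosed_closure.isOpen_compl.mem_nhds h'] with y hy
      exact indicator_of_notMem (fun h => hy (subset_closure h)) _
  have inn : ∀ n, ∀ x ∈ Ω, v n =ᶠ[𝓝 x] fun x => u x - h ((n + 1) * u x) / (n + 1) :=
    fun n x hx => by
      filter_upwards [ho.mem_nhds hx] with y hy
      exact indicator_of_mem hy _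
  have hts : ∀ n, tsupport (v n) ⊆ Ω := fun n x hx => by_contra fun h' =>
    notMem_tsupport_iff_eventuallyEq.2 (out n x h') hx
  have hH : ∀ n, H10 Ω (v n) (gradient (v n)) := fun n =>
    hc1t Ω _ ho (contDiff_iff_contDiffAt.2 fun x => by
      by_cases hx : x ∈ Ω
      · have a := hd x (subset_closure hx)
        exact (a.sub ((h1.contDiffAt.comp x (contDiffAt_const.mul a)).div_const _)).congr_of_eventuallyEq
          (inn n x hx)
      · exact contDiffAt_const.congr_of_eventuallyEq (out n x hx))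
      (isCompact_of_isClosed_isBounded (isClosed_tsupport _) (hb.subset (hts n))) (hts n)
  have hg : ∀ n x, (gradient (v n) - Ω.indicator (gradient u)) x =
      -deriv h ((n + 1) * u x) • Ω.indicator (gradient u) x := fun n x => by
    by_cases hx : x ∈ Ω
    · have a := ((hd x (subset_closure hx)).differentiableAt one_ne_zero).hasFDerivAt
      have b := (a.sub (((h1.differentiable one_ne_zero _).hasDerivAt.comp_hasFDerivAt x
        (a.const_mul ((n : ℝ) + 1))).mul_const ((n : ℝ) + 1)⁻¹)).congr_of_eventuallyEq (inn n x hx)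
      have e : ((n : ℝ) + 1)⁻¹ * (deriv h ((n + 1) * u x) * (n + 1)) = deriv h ((n + 1) * u x) := by
        field_simp
      simp only [Pi.sub_apply, indicator_of_mem hx, gradient, b.fderiv, smul_smul, e]
      simp
    · simp [indicator_of_notMem hx, gradient, (out n x hx).fderiv_eq]
  have m1 := lip_mem ho hb (hu.continuousOn.mono hc)
  have m2 : MemLp (Ω.indicator (gradient u)) 2 volume := lip_mem ho hb
    ((InnerProductSpace.toDual ℝ ℂ).symm.continuous.comp_continuousOn
      ((hu.continuousOn_fderiv_of_isOpen hO le_rfl).mono hc))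
  have hf : ∀ n x, ‖(v n - Ω.indicator u) x‖ ≤ ‖Ω.indicator (fun _ => C) x‖ / (n + 1) :=
    fun n x => by
      by_cases hx : x ∈ Ω
      · simp only [hv, Pi.sub_apply, indicator_of_mem hx, sub_sub_cancel_left, norm_neg, norm_div,
          Real.norm_eq_abs, abs_of_nonneg C0]
        rw [abs_of_pos (a := (n : ℝ) + 1) (by positivity)]
        exact div_le_div_of_nonneg_right (h3 _).1 (by positivity)
      · simp [hv, indicator_of_notMem hx]
  refine hhb1.2.2.2.2.2.2.1 Ω v _ _ _ hH m1 m2
    (lip_dom (lip_mem ho hb (continuousOn_const (c := C))) (fun n => (hH n).1.1.sub m1.1)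
      (fun n x => (hf n x).trans (div_le_self (norm_nonneg _) (by simp)))
      (Eventually.of_forall fun x => squeeze_zero_norm (fun n => hf n x) ?_))
    (lip_dom (m2.norm.const_mul C) (fun n => (hH n).2.1.1.sub m2.1) (fun n x => ?_) ?_)
  · exact tendsto_const_nhds.div_atTop (tendsto_natCast_atTop_atTop.atTop_add tendsto_const_nhds)
  · rw [hg, norm_smul, norm_neg, norm_mul, norm_norm, Real.norm_of_nonneg C0]
    exact mul_le_mul_of_nonneg_right (h3 _).2 (norm_nonneg _)
  · filter_upwards [lip_zero hO hu] with x hx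
    simp only [hg]
    by_cases hx' : x ∈ Ω
    · by_cases h5 : u x = 0
      · simp [indicator_of_mem hx', hx (hc (subset_closure hx')) h5]
      · refine tendsto_const_nhds.congr' ?_
        have : Tendsto (fun n : ℕ => ((n : ℝ) + 1) * |u x|) atTop atTop :=
          (tendsto_natCast_atTop_atTop.atTop_add tendsto_const_nhds).atTop_mul_const (abs_pos.2 h5)
        filter_upwards [this.eventually_gt_atTop 2] with n hn
        rw [h4 _ (by rwa [abs_mul, abs_of_pos (a := (n : ℝ) + 1) (by positivity)])]
        simp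
    · simp [indicator_of_notMem hx']

end Pool.Agent.P.MP_6b977f_mp.EB
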