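import Pool.Agent.P.MP_6b977f_mp.EB.IfS

/-! Continuity of the localised eigenfunctions. -/

namespace Pool.Agent.P.MP_6b977f_mp.EB

open Real MeasureTheory Filter Topology Laplacian Set Metric
open scoped ContDiff BoundedContinuousFunction ComplexConjugate Pointwise ENNReal

noncomputable section

theorem locc_ball {Ω : Set ℂ} (ho : IsOpen Ω) (hb : Bornology.IsBounded Ω) {z : ℂ} (hz : z ∈ Ω) :
    0 < infDist z (frontier Ω) ∧ ball z (infDist z (frontier Ω)) ⊆ Ω := by
  have hne : (frontier Ω).Nonempty := by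
    rw [nonempty_frontier_iff]
    refine ⟨⟨z, hz⟩, fun h => ?_⟩
    rw [h] at hb
    exact NormedSpace.unbounded_univ ℝ ℂ hb
  have h1 : 0 < infDist z (frontier Ω) := by
    refine (isClosed_frontier.notMem_iff_infDist_pos hne).1 fun h => ?_
    rw [ho.frontier_eq] at h
    exact h.2 hz
  refine ⟨h1, (convex_ball z _).isPreconnected.subset_left_of_subset_union ho
    (isOpen_interior (s := Ωᶜ)) (disjoint_compl_right.mono_right interior_subset) ?_
    ⟨z, mem_ball_self h1, hz⟩⟩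
  have h2 := ball_infDist_subset_compl (x := z) (s := frontier Ω)
  rwa [compl_frontier_eq_union_interior, ho.interior_eq] at h2

theorem locc_bound (hint : S_INT) {Ω : Set ℂ} {lam : ℝ} {u : ℂ → ℝ} (ho : IsOpen Ω)
    (hb : Bornology.IsBounded Ω) (hl : 0 < lam) (hu : Eig Ω lam u) :
    ∃ M : ℝ, 0 ≤ M ∧ ∀ (x : ℂ) (r : ℝ), 0 < r → √lam * r ≤ 1 → ball x r ⊆ Ω → |u x| * r ≤ M := by
  obtain ⟨C, hC, h⟩ := hint
  refine ⟨√(C * volume.real Ω), sqrt_nonneg _, fun x r hr h1 h2 => ?_⟩
  have hv : volume.real Ω ≠ 0 :=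
    (ENNReal.toReal_pos (ho.measure_pos volume ⟨x, h2 (mem_ball_self hr)⟩).ne'
      hb.measure_lt_top.ne).ne'
  have hi : IntegrableOn (fun y => u y ^ 2) Ω :=
    Integrable.of_integral_ne_zero (by rw [hu.2.2.2]; exact hv)
  have h3 := ((h lam r x u hl.le hr h1 ⟨hu.1.mono h2, fun y hy => hu.2.1 y (h2 hy)⟩).1
    (hi.mono_set h2)).1
  have h4 : ∫ y in ball x r, u y ^ 2 ≤ volume.real Ω := by
    rw [← hu.2.2.2]
    exact setIntegral_mono_set hi (Eventually.of_forall fun y => sq_nonneg _) h2.eventuallyLE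
  refine le_sqrt_of_sq_le ?_
  rw [mul_pow, sq_abs]
  exact h3.trans (mul_le_mul_of_nonneg_left h4 hC.le)

theorem locc_joint (hint : S_INT) {Ω : Set ℂ} {lam : ℝ} {u : ℂ → ℝ} {χ : ℝ → ℝ} (ho : IsOpen Ω)
    (hb : Bornology.IsBounded Ω) (hl : 0 < lam) (hu : Eig Ω lam u) (hχ : Cut χ) {p : ℂ × ℂ}
    (hp : p.1 ∈ Ω) : ContinuousAt (fun q : ℂ × ℂ => loc χ Ω lam u q.1 q.2) p := by
  obtain ⟨M, hM, hbd⟩ := locc_bound hint ho hb hl hu
  have hs : 0 < √lam := sqrt_pos.2 hl
  have hd : Continuous fun q : ℂ × ℂ => infDist q.1 (frontier Ω) :=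
    (continuous_infDist_pt _).comp continuous_fst
  have hd0 := (locc_ball ho hb hp).1
  have ht : ContinuousAt (fun q : ℂ × ℂ => ‖q.2‖ / (√lam * infDist q.1 (frontier Ω))) p :=
    (continuous_snd.norm.continuousAt).div (continuousAt_const.mul hd.continuousAt)
      (mul_pos hs hd0).ne'
  have hdist : ∀ q : ℂ × ℂ, q.1 ∈ Ω → dist (q.1 + q.2 / √lam) q.1 =
      ‖q.2‖ / (√lam * infDist q.1 (frontier Ω)) * infDist q.1 (frontier Ω) := by
    intro q hq
    have := (locc_ball ho hb hq).1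
    rw [dist_eq_norm, add_sub_cancel_left, norm_div, Complex.norm_real, Real.norm_eq_abs,
      abs_of_pos hs]
    field_simp
  rcases lt_trichotomy (‖p.2‖ / (√lam * infDist p.1 (frontier Ω))) 1 with h | h | h
  · have h1 : p.1 + p.2 / √lam ∈ Ω := (locc_ball ho hb hp).2 (by
      rw [mem_ball, hdist p hp]; exact mul_lt_of_lt_one_left hd0 h)
    have h2 : ContinuousAt u (p.1 + p.2 / √lam) := hu.1.continuousOn.continuousAt (ho.mem_nhds h1)
    exact (h2.comp (f := fun q : ℂ × ℂ => q.1 + q.2 / √lam) (by fun_prop)).mul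
      (hχ.1.continuous.continuousAt.comp ht)
  · have h1 : χ 1 = 0 := hχ.2.2.2 1 le_rfl
    have h2 : ContinuousAt (dslope χ 1) 1 :=
      continuousAt_dslope_same.2 (hχ.1.differentiable (by simp) 1)
    have h3 : dslope χ 1 1 = 0 := by
      rw [dslope_same]
      exact IsLocalMin.deriv_eq_zero (Eventually.of_forall fun t => h1 ▸ (hχ.2.1 t).1)
    have h4 : loc χ Ω lam u p.1 p.2 = 0 := by rw [loc, h, h1, mul_zero]
    have h5 : Tendsto (fun q : ℂ × ℂ => M / infDist q.1 (frontier Ω) *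
        |dslope χ 1 (‖q.2‖ / (√lam * infDist q.1 (frontier Ω)))|) (𝓝 p) (𝓝 0) := by
      have a1 := ((continuousAt_const (y := M)).div hd.continuousAt hd0.ne').mul
        ((h2.comp_of_eq ht h).abs)
      have a2 := a1.tendsto
      simp only [Pi.mul_apply, Function.comp_apply, h, h3, abs_zero, mul_zero] at a2
      exact a2
    have h6 : ∀ᶠ q : ℂ × ℂ in 𝓝 p, √lam * ((1 - ‖q.2‖ / (√lam * infDist q.1 (frontier Ω))) *
        infDist q.1 (frontier Ω)) < 1 := by
      have a1 := (continuousAt_const (y := √lam)).mul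
        (((continuousAt_const (y := (1 : ℝ))).sub ht).mul hd.continuousAt)
      exact a1.eventually_lt continuousAt_const (by simp [h])
    have h7 : ∀ᶠ q : ℂ × ℂ in 𝓝 p, q.1 ∈ Ω := continuous_fst.continuousAt (ho.mem_nhds hp)
    rw [ContinuousAt, h4]
    refine squeeze_zero_norm' ?_ h5
    filter_upwards [h6, h7] with q b1 b2
    obtain ⟨b3, b4⟩ := locc_ball ho hb b2
    have b5 := hdist q b2
    rw [loc]
    generalize ‖q.2‖ / (√lam * infDist q.1 (frontier Ω)) = t at b1 b5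
    rcases le_or_gt 1 t with b6 | b6
    · rw [hχ.2.2.2 t b6, mul_zero, norm_zero]; positivity
    have b7 := hbd (q.1 + q.2 / √lam) _ (mul_pos (sub_pos.2 b6) b3) b1.le
      ((ball_subset_ball' (by rw [b5]; linarith)).trans b4)
    have b8 : χ t = (t - 1) * dslope χ 1 t := by
      rw [← smul_eq_mul, sub_smul_dslope, h1, sub_zero]
    rw [b8, Real.norm_eq_abs, abs_mul, abs_mul, abs_of_neg (sub_neg.2 b6), ← mul_assoc]
    gcongr
    rw [le_div_iff₀ b3]
    linarith
  · refine (continuousAt_const (y := (0 : ℝ))).congr ?_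
    filter_upwards [continuousAt_const.eventually_lt ht h] with q hq
    rw [loc, hχ.2.2.2 _ hq.le, mul_zero]

theorem t_locc (hint : S_INT) (hreg : S_REG) : S_LOCC := by
  intro Ω lam u χ ho hb hl hu hχ
  have h1 : ∀ z ∈ Ω, Continuous (loc χ Ω lam u z) := fun z hz =>
    continuous_iff_continuousAt.2 fun w =>
      (locc_joint hint ho hb hl hu hχ (p := (z, w)) hz).comp (f := fun w : ℂ => (z, w))
        (by fun_prop)
  refine ⟨h1, continuousOn_iff_continuous_domRestrict.2
    (ContinuousMap.continuous_of_continuous_uncurry _ ?_)⟩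
  have e : (Function.uncurry fun (z : Ω) (w : ℂ) =>
      Ω.domRestrict (fun z => toC (loc χ Ω lam u z)) z w) =
      fun q : Ω × ℂ => loc χ Ω lam u q.1 q.2 := by
    funext q
    simp [Function.uncurry, toC, h1 _ q.1.2]
  rw [e]
  exact continuous_iff_continuousAt.2 fun q =>
    (locc_joint hint ho hb hl hu hχ (p := (q.1, q.2)) q.1.2).comp
      (f := fun q : Ω × ℂ => ((q.1 : ℂ), q.2)) (by fun_prop)

end

end Pool.Agent.P.MP_6b977f_mp.EB
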