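import Pool.Agent.P.MP_6b977f_mp.EB.IfS

/-! Local weak limits from the convergence of countably many characteristic functions. -/

namespace Pool.Agent.P.MP_6b977f_mp.EB

open Real MeasureTheory Filter Topology Laplacian Set Metric
open scoped ContDiff BoundedContinuousFunction ComplexConjugate Pointwise ENNReal

theorem lw_toC {f : ℂ → ℝ} (h : Continuous f) (x : ℂ) : toC f x = f x := by simp [toC, h]

/-- the test function of the characteristic function -/
noncomputable def lw_Φ (τ : ℂ →₀ ℝ) : C(ℂ, ℝ) →ᵇ ℂ :=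
  BoundedContinuousFunction.ofNormedAddCommGroup
    (fun F => Complex.exp (Complex.I * ((τ.sum fun x s => s * F x : ℝ) : ℂ)))
    (by unfold Finsupp.sum; fun_prop) 1 fun _ => (Complex.norm_exp_I_mul_ofReal _).le

theorem lw_cfM {m : ℕ → RM} {μ : RM} (hm : ∀ n, IsProbabilityMeasure (m n))
    (hμ : IsProbabilityMeasure μ)
    (h : ∀ Φ : C(ℂ, ℝ) →ᵇ ℝ, Tendsto (fun n => ∫ F, Φ F ∂(m n)) atTop (𝓝 (∫ F, Φ F ∂μ)))
    (τ : ℂ →₀ ℝ) : Tendsto (fun n => cfM (m n) τ) atTop (𝓝 (cfM μ τ)) := by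
  borelize C(ℂ, ℝ)
  let P : ℕ → ProbabilityMeasure C(ℂ, ℝ) := fun n => ⟨m n, hm n⟩
  let Q : ProbabilityMeasure C(ℂ, ℝ) := ⟨μ, hμ⟩
  have h1 : Tendsto P atTop (𝓝 Q) :=
    ProbabilityMeasure.tendsto_iff_forall_integral_tendsto.2 h
  exact (ProbabilityMeasure.tendsto_iff_forall_integral_rclike_tendsto ℂ).1 h1 (lw_Φ τ)

theorem lw_closed (R : ℕ) (M : ℝ) : IsClosed {F : C(ℂ, ℝ) | (∀ x, ‖x‖ ≤ R → |F x| ≤ M) ∧
    ∀ x y, ‖x‖ ≤ R → ‖y‖ ≤ R → |F x - F y| ≤ M * ‖x - y‖} := by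
  simp only [ofPred_and, ofPred_forall]
  exact (isClosed_iInter fun x => isClosed_iInter fun _ =>
    isClosed_le (by fun_prop) (by fun_prop)).inter (isClosed_iInter fun x => isClosed_iInter fun y =>
      isClosed_iInter fun _ => isClosed_iInter fun _ => isClosed_le (by fun_prop) (by fun_prop))

theorem lw_diff {P : Measure ℂ} [IsProbabilityMeasure P] {a b : ℂ → ℝ} {A : Set ℂ}
    (hA : MeasurableSet A) (ha : AEMeasurable a P) (hb : AEMeasurable b P)
    (h : ∀ᵐ z ∂P, z ∉ A → a z = b z) :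
    ‖(∫ z, Complex.exp (Complex.I * (a z : ℂ)) ∂P) -
      ∫ z, Complex.exp (Complex.I * (b z : ℂ)) ∂P‖ ≤ 2 * P.real A := by
  have h1 : ∀ c : ℂ → ℝ, AEMeasurable c P →
      Integrable (fun z => Complex.exp (Complex.I * (c z : ℂ))) P := fun c hc =>
    Integrable.of_bound (by fun_prop : AEMeasurable _ P).aestronglyMeasurable 1
      (Eventually.of_forall fun _ => (Complex.norm_exp_I_mul_ofReal _).le)
  rw [← integral_sub (h1 a ha) (h1 b hb)]
  refine (norm_integral_le_of_norm_le (g := A.indicator fun _ => (2 : ℝ))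
    ((integrable_const _).indicator hA) ?_).trans (le_of_eq ?_)
  · filter_upwards [h] with z hz
    by_cases hz' : z ∈ A
    · rw [indicator_of_mem hz']
      refine (norm_sub_le _ _).trans (le_of_eq ?_)
      rw [Complex.norm_exp_I_mul_ofReal, Complex.norm_exp_I_mul_ofReal, one_add_one_eq_two]
    · rw [indicator_of_notMem hz', hz hz', sub_self, norm_zero]
  · rw [integral_indicator_const _ hA, smul_eq_mul, mul_comm]

theorem t_lw (hlocc : S_LOCC) (htight0 : S_TIGHT0) (htight1 : S_TIGHT1) (huniq : S_UNIQ) :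
    S_LW := by
  intro D Ω χ lam u hD hΩ hb hne hχ hu hlam hcf
  classical
  borelize C(ℂ, ℝ)
  have hV0 : volume Ω ≠ 0 := (hΩ.measure_pos volume hne).ne'
  have hV1 : volume Ω ≠ ⊤ := hb.measure_lt_top.ne
  have hΩm := hΩ.measurableSet
  set P : Measure ℂ := ProbabilityTheory.cond volume Ω with hP
  have : IsProbabilityMeasure P := ProbabilityTheory.cond_isProbabilityMeasure_of_finite hV0 hV1
  have hav : ∀ {E : Type} [NormedAddCommGroup E] [NormedSpace ℝ E] (f : ℂ → E),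
      ⨍ z in Ω, f z = ∫ z, f z ∂P := fun f => setAverage_eq' _ _ _
  set G : ℕ → ℂ → C(ℂ, ℝ) := fun n z =>
    if 0 < lam n then toC (loc χ Ω (lam n) (u n) z) else 0 with hG
  have hGm : ∀ n, AEMeasurable (G n) P := fun n => by
    by_cases h : 0 < lam n
    · simp only [hG, if_pos h]
      exact ((hlocc Ω _ _ χ hΩ hb h (hu n) hχ).2.aemeasurable hΩm).smul_measure _
    · simp only [hG, if_neg h]
      exact aemeasurable_const
  set m : ℕ → RM := fun n => P.map (G n) with hm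
  have hm1 : ∀ n, IsProbabilityMeasure (m n) := fun n => Measure.isProbabilityMeasure_map (hGm n)
  have hpos : ∀ᶠ n in atTop, 0 < lam n := hlam.eventually_gt_atTop 0
  have key : ∀ (R : ℕ) (ε : ℝ≥0∞), 0 < ε → ∃ M : ℝ, ∀ᶠ n in atTop, ∃ A, MeasurableSet A ∧ P A ≤ ε ∧
      ∀ z ∈ Ω \ A, (∀ x : ℂ, ‖x‖ ≤ R →
        G n z x = Ω.indicator (u n) (z + x / √(lam n)) ∧ |G n z x| ≤ M) ∧
      ∀ x y : ℂ, ‖x‖ ≤ R → ‖y‖ ≤ R → |G n z x - G n z y| ≤ M * ‖x - y‖ := fun R ε hε => by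
    obtain ⟨M, K, h⟩ := htight1 Ω χ R (volume Ω * ε) hΩ hb hχ (ENNReal.mul_pos hV0 hε.ne')
    refine ⟨M, ?_⟩
    filter_upwards [hpos, hlam.eventually_ge_atTop K] with n h0 hK
    obtain ⟨A, hA, hA', h1⟩ := h _ _ hK (hu n)
    refine ⟨A, hA, ?_, fun z hz => ?_⟩
    · rw [hP, ProbabilityTheory.cond_apply hΩm]
      refine (mul_le_mul' le_rfl ((measure_mono inter_subset_right).trans hA')).trans ?_
      rw [← mul_assoc, ENNReal.inv_mul_cancel hV0 hV1, one_mul]
    · simpa only [hG, if_pos h0, lw_toC ((hlocc Ω _ _ χ hΩ hb h0 (hu n) hχ).1 z hz.1)] using h1 z hz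
  have hae : ∀ᵐ z ∂P, z ∈ Ω := ProbabilityTheory.ae_cond_mem hΩm
  have ht := htight0 m hm1 fun R ε hε => by
    obtain ⟨M, hM⟩ := key R ε hε
    refine ⟨M, hM.mono fun n ⟨A, _, hA', h1⟩ => ?_⟩
    rw [hm, Measure.map_apply_of_aemeasurable (hGm n) (lw_closed R M).measurableSet.compl]
    refine (measure_mono_ae ?_).trans hA'
    filter_upwards [hae] with z hz hz'
    by_contra hc
    exact hz' ⟨fun x hx => ((h1 z ⟨hz, hc⟩).1 x hx).2, (h1 z ⟨hz, hc⟩).2⟩
  have hc : ∀ k, Tendsto (fun n => cfM (m n) (D k)) atTop (𝓝 (gauss (D k))) := fun k => by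
    refine (hcf k).congr_dist (NormedAddGroup.tendsto_nhds_zero.2 fun ε hε => ?_)
    obtain ⟨R, hR⟩ := exists_nat_ge (∑ x ∈ (D k).support, ‖x‖)
    obtain ⟨M, hM⟩ := key R (ENNReal.ofReal (ε / 4)) (by simpa using hε)
    refine hM.mono fun n ⟨A, hA, hA', h1⟩ => ?_
    have h2 : Measurable (Ω.indicator (u n)) :=
      (hu n).1.continuousOn.measurable_piecewise continuousOn_const hΩm
    have h3 := lw_diff (P := P) hA
      (a := fun z => (D k).sum fun x s => s * Ω.indicator (u n) (z + x / √(lam n)))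
      (b := fun z => (D k).sum fun x s => s * G n z x)
      (by unfold Finsupp.sum; fun_prop)
      ((by unfold Finsupp.sum; fun_prop :
        Continuous fun F : C(ℂ, ℝ) => (D k).sum fun x s => s * F x).measurable.comp_aemeasurable
          (hGm n))
      (by
        filter_upwards [hae] with z hz hz'
        refine Finset.sum_congr rfl fun x hx => ?_
        exact congrArg _ ((h1 z ⟨hz, hz'⟩).1 x
          ((Finset.single_le_sum (fun y _ => norm_nonneg y) hx).trans hR)).1.symm)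
    have h4 : P.real A ≤ ε / 4 := ENNReal.toReal_le_of_le_ofReal (by positivity) hA'
    have h5 : cfM (m n) (D k) = ∫ z, lw_Φ (D k) (G n z) ∂P :=
      integral_map (hGm n) (lw_Φ (D k)).continuous.aestronglyMeasurable
    rw [Real.norm_eq_abs, abs_dist, dist_eq_norm, h5, cf, hav]
    exact h3.trans_lt (by linarith)
  have hsub : ∀ s : ℕ → ℕ, Tendsto s atTop atTop → ∃ (t : ℕ → ℕ) (μ : RM), IsRMW μ ∧
      ∀ Φ : C(ℂ, ℝ) →ᵇ ℝ, Tendsto (fun n => ∫ F, Φ F ∂(m (s (t n)))) atTop (𝓝 (∫ F, Φ F ∂μ)) :=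
    fun s hs => by
      obtain ⟨t, μ, ht, hμ, h⟩ := ht s
      exact ⟨t, μ, hD μ hμ fun k => tendsto_nhds_unique (lw_cfM (fun n => hm1 _) hμ h (D k))
        ((hc k).comp (hs.comp ht.tendsto_atTop)), h⟩
  obtain ⟨-, μ, hμ, -⟩ := hsub id tendsto_id
  refine ⟨μ, hμ, fun Φ => ?_⟩
  have h1 : Tendsto (fun n => ∫ F, Φ F ∂(m n)) atTop (𝓝 (∫ F, Φ F ∂μ)) :=
    tendsto_of_subseq_tendsto fun s hs => by
      obtain ⟨t, ν, hν, h⟩ := hsub s hs
      exact ⟨t, huniq ν μ hν hμ ▸ h Φ⟩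
  refine h1.congr' (hpos.mono fun n hn => ?_)
  simp only [hav, hm]
  rw [integral_map (hGm n) Φ.continuous.aestronglyMeasurable]
  simp only [hG, if_pos hn]

end Pool.Agent.P.MP_6b977f_mp.EB
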