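import Pool.Agent.P.MP_6b977f_mp.EB.IfS

/-! The circular mean value property for the Helmholtz equation. -/

namespace Pool.Agent.P.MP_6b977f_mp.EB

open Real MeasureTheory Filter Topology Laplacian Set Metric
open scoped ContDiff BoundedContinuousFunction ComplexConjugate Pointwise ENNReal

theorem mv0_diff {F F' : ℝ → ℝ → ℝ} (hF : Continuous F.uncurry) (hF' : Continuous F'.uncurry)
    (h : ∀ s θ, HasDerivAt (fun s => F s θ) (F' s θ) s) (a b s : ℝ) :
    HasDerivAt (fun s => ∫ θ in a..b, F s θ) (∫ θ in a..b, F' s θ) s := by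
  obtain ⟨C, hC⟩ := ((isCompact_closedBall s 1).prod (isCompact_uIcc (a := a) (b := b))
    ).exists_bound_of_continuousOn hF'.continuousOn
  exact (intervalIntegral.hasDerivAt_integral_of_dominated_loc_of_deriv_le (bound := fun _ => C)
    (closedBall_mem_nhds s one_pos)
    (Eventually.of_forall fun x => (hF.uncurry_left x).aestronglyMeasurable)
    ((hF.uncurry_left s).intervalIntegrable _ _) (hF'.uncurry_left s).aestronglyMeasurable
    (Eventually.of_forall fun θ hθ x hx => hC (x, θ) ⟨hx, uIoc_subset_uIcc hθ⟩)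
    intervalIntegrable_const (Eventually.of_forall fun θ _ x _ => h x θ)).2

theorem mv0_ode {m m' m'' : ℝ → ℝ} {lam t : ℝ} (l0 : 0 ≤ lam) (t0 : 0 ≤ t)
    (h1 : ∀ s, HasDerivAt m (m' s) s) (h2 : ∀ s, HasDerivAt m' (m'' s) s)
    (h : ∀ s ∈ Icc 0 t, s * m'' s + m' s + lam * s * m s = 0) (h0 : m 0 = 0) : m t = 0 := by
  have d : ∀ s, HasDerivAt (fun s => m' s * m' s + lam * (m s * m s))
      (m'' s * m' s + m' s * m'' s + lam * (m' s * m s + m s * m' s)) s :=
    fun s => ((h2 s).mul (h2 s)).add (((h1 s).mul (h1 s)).const_mul lam)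
  have anti := antitoneOn_of_deriv_nonpos (convex_Icc 0 t)
    (fun s _ => (d s).continuousAt.continuousWithinAt)
    (fun s _ => (d s).differentiableAt.differentiableWithinAt) fun s hs => by
      rw [interior_Icc] at hs
      rw [(d s).deriv]
      refine nonpos_of_mul_nonpos_right ?_ hs.1
      have := h s (Ioo_subset_Icc_self hs)
      have e : s * (m'' s * m' s + m' s * m'' s + lam * (m' s * m s + m s * m' s)) =
          -2 * (m' s * m' s) := by linear_combination 2 * m' s * this
      nlinarith [mul_self_nonneg (m' s)]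
  have z : m' 0 = 0 := by simpa using h 0 ⟨le_rfl, t0⟩
  rw [← h0]
  refine constant_of_has_deriv_right_zero (fun s _ => (h1 s).continuousAt.continuousWithinAt)
    (fun s hs => ?_) t ⟨t0, le_rfl⟩
  have := anti ⟨le_rfl, t0⟩ (Ico_subset_Icc_self hs) hs.1
  simp only [z, h0, mul_zero, add_zero] at this
  have e : m' s = 0 := mul_self_eq_zero.1 (le_antisymm
    (by nlinarith [mul_nonneg l0 (mul_self_nonneg (m s))]) (mul_self_nonneg _))
  exact e ▸ (h1 s).hasDerivWithinAt

theorem mv0_main {F F' F'' G : ℝ → ℝ → ℝ} {lam t : ℝ} (l0 : 0 ≤ lam) (t0 : 0 ≤ t)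
    (c0 : Continuous F.uncurry) (c1 : Continuous F'.uncurry) (c2 : Continuous F''.uncurry)
    (h1 : ∀ s θ, HasDerivAt (fun s => F s θ) (F' s θ) s)
    (h2 : ∀ s θ, HasDerivAt (fun s => F' s θ) (F'' s θ) s)
    (h : ∀ s ∈ Icc 0 t, ∀ θ, HasDerivAt (G s) (s * F'' s θ + F' s θ + lam * s * F s θ) θ)
    (hp : ∀ s, G s (2 * π) = G s 0) (h0 : ∀ θ, F 0 θ = 0) :
    ∫ θ in (0 : ℝ)..(2 * π), F t θ = 0 := by
  refine mv0_ode (m := fun s => ∫ θ in (0 : ℝ)..(2 * π), F s θ) l0 t0 (mv0_diff c0 c1 h1 0 (2 * π))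
    (mv0_diff c1 c2 h2 0 (2 * π)) (fun s hs => ?_) (by simp [h0])
  have i0 := ((c0.uncurry_left s).intervalIntegrable (μ := volume) 0 (2 * π)).const_mul (lam * s)
  have i1 := (c1.uncurry_left s).intervalIntegrable (μ := volume) 0 (2 * π)
  have i2 := ((c2.uncurry_left s).intervalIntegrable (μ := volume) 0 (2 * π)).const_mul s
  have := intervalIntegral.integral_eq_sub_of_hasDerivAt (fun θ _ => h s hs θ) ((i2.add i1).add i0)
  rwa [hp, sub_self, intervalIntegral.integral_add (i2.add i1) i0,
    intervalIntegral.integral_add i2 i1, intervalIntegral.integral_const_mul,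
    intervalIntegral.integral_const_mul] at this

theorem mv0_ex (θ : ℝ) : ex θ = cos θ • (1 : ℂ) + sin θ • Complex.I := by
  simp [ex, Complex.exp_mul_I]

theorem mv0_dex (θ : ℝ) : HasDerivAt ex (Complex.I * ex θ) θ := by
  have := ((Complex.ofRealCLM.hasDerivAt (x := θ)).mul_const Complex.I).cexp
  exact this.congr_deriv (by simp [ex, mul_comm])

theorem mv0_bil (B : ℂ →L[ℝ] ℂ →L[ℝ] ℝ) (θ : ℝ) :
    B (ex θ) (ex θ) + B (Complex.I * ex θ) (Complex.I * ex θ) = B 1 1 + B Complex.I Complex.I := by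
  have e : Complex.I * ex θ = (-sin θ) • (1 : ℂ) + cos θ • Complex.I := by
    rw [mv0_ex]; apply Complex.ext <;> simp
  rw [e, mv0_ex]
  simp only [map_add, map_smul, add_apply, smul_apply, smul_eq_mul]
  linear_combination (B 1 1 + B Complex.I Complex.I) * sin_sq_add_cos_sq θ

theorem mv0_glob {v : ℂ → ℝ} (hv : ContDiff ℝ 2 v) {lam t : ℝ} (l0 : 0 ≤ lam) (t0 : 0 ≤ t) (x : ℂ)
    (h : ∀ z ∈ closedBall x t, Δ v z + lam * v z = 0) :
    ∫ θ in (0 : ℝ)..(2 * π), (v (x + t * ex θ) - v x * cos (√lam * t * cos θ)) = 0 := by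
  have h1 : ContDiff ℝ 1 (fderiv ℝ v) := hv.fderiv_right (by norm_num)
  have c0 := hv.continuous
  have c1 := h1.continuous
  have c2 := h1.continuous_fderiv one_ne_zero
  have ce : Continuous ex := by unfold ex; fun_prop
  have d0 := fun z => (hv.differentiable two_ne_zero z).hasFDerivAt
  have d1 := fun z => (h1.differentiable one_ne_zero z).hasFDerivAt
  have ds : ∀ s θ : ℝ, HasDerivAt (fun s : ℝ => x + s * ex θ) (ex θ) s := fun s θ => by
    simpa using ((Complex.ofRealCLM.hasDerivAt (x := s)).mul_const (ex θ)).const_add x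
  have dk : ∀ s θ : ℝ, HasDerivAt (fun s : ℝ => √lam * s * cos θ) (√lam * cos θ) s := fun s θ => by
    simpa using ((hasDerivAt_id s).const_mul √lam).mul_const (cos θ)
  refine mv0_main (F := fun s θ => v (x + s * ex θ) - v x * cos (√lam * s * cos θ))
    (F' := fun s θ => fderiv ℝ v (x + s * ex θ) (ex θ) -
      v x * (-sin (√lam * s * cos θ) * (√lam * cos θ)))
    (F'' := fun s θ => fderiv ℝ (fderiv ℝ v) (x + s * ex θ) (ex θ) (ex θ) -
      v x * (-(cos (√lam * s * cos θ) * (√lam * cos θ)) * (√lam * cos θ)))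
    (G := fun s θ => -fderiv ℝ v (x + s * ex θ) (Complex.I * ex θ) +
      v x * (√lam * sin θ * sin (√lam * s * cos θ))) l0 t0 (by fun_prop) (by fun_prop)
    (by fun_prop) (fun s θ => ?_) (fun s θ => ?_) (fun s hs θ => ?_) (fun s => by simp [ex])
    fun θ => by simp
  · exact ((d0 _).comp_hasDerivAt s (ds s θ)).sub ((dk s θ).cos.const_mul _)
  · refine HasDerivAt.sub ?_ (((dk s θ).sin.neg.mul_const _).const_mul _)
    simpa using ((d1 _).comp_hasDerivAt s (ds s θ)).clm_apply (hasDerivAt_const s (ex θ))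
  · have a1 := ((d1 _).comp_hasDerivAt θ (((mv0_dex θ).const_mul (s : ℂ)).const_add x)).clm_apply
      ((mv0_dex θ).const_mul Complex.I)
    have a2 := (((hasDerivAt_sin θ).const_mul √lam).mul
      ((hasDerivAt_cos θ).const_mul (√lam * s)).sin).const_mul (v x)
    have e := h (x + s * ex θ) (by simpa [ex, abs_of_nonneg hs.1] using hs.2)
    rw [InnerProductSpace.laplacian_eq_iteratedFDeriv_complexPlane] at e
    simp only [iteratedFDeriv_two_apply, Matrix.cons_val_zero, Matrix.cons_val_one,
      ← mv0_bil _ θ] at e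
    refine (a1.neg.add a2).congr_deriv ?_
    rw [← Complex.real_smul (x := s) (z := Complex.I * ex θ), ← mul_assoc Complex.I,
      Complex.I_mul_I, neg_one_mul]
    simp only [map_smul, map_neg, smul_apply, smul_eq_mul, Function.comp]
    linear_combination -s * e - (v x * s * cos (√lam * s * cos θ)) * (mul_self_sqrt l0) -
      (v x * s * cos (√lam * s * cos θ) * √lam * √lam) * sin_sq_add_cos_sq θ

theorem t_mv0 : S_MV0 := by
  intro lam R t x u l0 hu t0 tR
  let χ : ContDiffBump x := ⟨(t + R) / 2, (t + 3 * R) / 4, by linarith, by linarith⟩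
  have sχ : tsupport χ ⊆ ball x R := by
    rw [χ.tsupport_eq]; exact closedBall_subset_ball (by change (t + 3 * R) / 4 < R; linarith)
  have one : ∀ z ∈ closedBall x t, (fun z => χ z * u z) =ᶠ[𝓝 z] u := fun z hz =>
    (χ.eventuallyEq_one_of_mem_ball (closedBall_subset_ball
      (by change t < (t + R) / 2; linarith) hz)).mono fun y hy => by simp [hy]
  have hv : ContDiff ℝ 2 fun z => χ z * u z := by
    refine contDiff_iff_contDiffAt.2 fun z => ?_
    by_cases hz : z ∈ tsupport χ
    · exact χ.contDiffAt.mul ((hu.1.contDiffAt (isOpen_ball.mem_nhds (sχ hz))).of_le (by norm_cast))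
    · refine (contDiffAt_const (c := 0)).congr_of_eventuallyEq ?_
      filter_upwards [notMem_tsupport_iff_eventuallyEq.1 hz] with y hy
      simp [hy]
  have ce : Continuous ex := by unfold ex; fun_prop
  generalize (fun z => χ z * u z) = v at one hv
  have c0 := hv.continuous
  have h := mv0_glob hv l0 t0 x fun z hz => by
    rw [(InnerProductSpace.laplacian_congr_nhds (one z hz)).self_of_nhds, (one z hz).self_of_nhds]
    exact hu.2 z (closedBall_subset_ball tR hz)
  rw [intervalIntegral.integral_sub (Continuous.intervalIntegrable (by fun_prop) _ _)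
    (Continuous.intervalIntegrable (by fun_prop) _ _), intervalIntegral.integral_const_mul,
    sub_eq_zero, (one x (mem_closedBall_self t0)).self_of_nhds] at h
  rw [← h]
  exact intervalIntegral.integral_congr fun θ _ =>
    (one _ (by simp [ex, abs_of_nonneg t0])).self_of_nhds.symm

end Pool.Agent.P.MP_6b977f_mp.EB
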