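import Pool.Agent.P.MP_6b977f_mp.EB.IfS

/-! Radial averages of solutions of the Helmholtz equation. -/

namespace Pool.Agent.P.MP_6b977f_mp.EB

open Real MeasureTheory Filter Topology Laplacian Set Metric
open scoped ContDiff BoundedContinuousFunction ComplexConjugate Pointwise ENNReal

theorem mv1_ex (t : ℝ) : ex t = Real.cos t + Real.sin t * Complex.I := by
  rw [ex, Complex.exp_mul_I, Complex.ofReal_cos, Complex.ofReal_sin]

theorem mv1_norm {t : ℝ} (h : 0 ≤ t) (θ : ℝ) : ‖(t : ℂ) * ex θ‖ = t := by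
  rw [norm_mul, ex, Complex.norm_exp_ofReal_mul_I, mul_one, Complex.norm_of_nonneg h]

theorem mv1_polar {F : ℂ → ℝ} {β : ℝ → ℝ} {r : ℝ} (hF : ContinuousOn F (closedBall 0 r))
    (hβ : Continuous β) (h0 : ∀ t, r ≤ t → β t = 0) :
    ∫ y : ℂ, β ‖y‖ * F y = ∫ t in Ioi (0 : ℝ), t * β t * ∫ θ in (0 : ℝ)..(2 * π), F (t * ex θ) := by
  have ms : MeasurableSet (Ioi (0 : ℝ) ×ˢ Ioo (-π) π) := measurableSet_Ioi.prod measurableSet_Ioo
  have ce : Continuous ex := by unfold ex; fun_prop
  have hi : IntegrableOn (fun p : ℝ × ℝ => p.1 * β p.1 * F (p.1 * ex p.2))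
      (Ioi 0 ×ˢ Ioo (-π) π) (volume.prod volume) := by
    refine (ContinuousOn.integrableOn_compact ((isCompact_Icc (a := 0) (b := r)).prod
      (isCompact_Icc (a := -π) (b := π))) (ContinuousOn.mul (by fun_prop)
        (hF.comp (by fun_prop) fun p hp => ?_))).of_forall_sdiff_eq_zero ms fun p hp => ?_
    · rw [mem_closedBall_zero_iff, mv1_norm hp.1.1]
      exact hp.1.2
    · simp [h0 p.1 (le_of_not_ge fun h => hp.2 ⟨⟨le_of_lt hp.1.1, h⟩, Ioo_subset_Icc_self hp.1.2⟩)]
  rw [← Complex.integral_comp_polarCoord_symm]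
  refine (setIntegral_congr_fun ms fun p hp => ?_).trans ((setIntegral_prod _ hi).trans
    (setIntegral_congr_fun measurableSet_Ioi fun t _ => ?_))
  · simp only [Complex.polarCoord_symm_apply, ← mv1_ex, mv1_norm (le_of_lt hp.1), smul_eq_mul,
      mul_assoc]
  · have hp : Function.Periodic (fun θ => F (t * ex θ)) (2 * π) := fun θ => by
      simp only [mv1_ex, cos_add_two_pi, sin_add_two_pi]
    have := hp.intervalIntegral_add_eq 0 (-π)
    rw [zero_add, show -π + 2 * π = π by ring, intervalIntegral.integral_of_le (a := -π)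
      (by linarith [pi_pos]), integral_Ioc_eq_integral_Ioo] at this
    simp only [this]
    exact integral_const_mul _ _

theorem t_mv1 (hmv0 : S_MV0) : S_MV1 := by
  intro lam R r x u β l0 hu hr hβ h0
  rw [mv1_polar (r := r) (F := fun y => u (x + y)) (hu.1.continuousOn.comp (by fun_prop)
    fun y hy => by simpa using (mem_closedBall_zero_iff.1 hy).trans_lt hr) hβ h0,
    mv1_polar (r := r) (F := fun y => cos (√lam * y.re)) (by fun_prop) hβ h0, ← integral_const_mul]
  refine setIntegral_congr_fun measurableSet_Ioi fun t ht => ?_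
  by_cases h : r ≤ t
  · simp [h0 t h]
  · simp only [hmv0 lam R t x u l0 hu (le_of_lt ht) ((not_le.1 h).trans hr)]
    simp [mv1_ex, mul_assoc, mul_left_comm, -Complex.ofReal_cos, -Complex.ofReal_sin]

end Pool.Agent.P.MP_6b977f_mp.EB
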