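import Pool.Agent.P.MP_6b977f_mp.EB.IfS

/-! Existence of the Dirichlet resolvent. -/

namespace Pool.Agent.P.MP_6b977f_mp.EB

open Real MeasureTheory Filter Topology Laplacian Set Metric
open scoped ContDiff BoundedContinuousFunction ComplexConjugate Pointwise ENNReal

noncomputable section

abbrev op1_H : Type := WithLp 2 (L2 × Lp ℂ 2 (volume : Measure ℂ))

/-- The graph of the gradient. -/
def op1_V (hhb1 : S_HB1) (Ω : Set ℂ) : Submodule ℝ op1_H where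
  carrier := {p | H10 Ω p.fst p.snd}
  add_mem' := fun {p q} hp hq => hhb1.2.2.1 Ω _ _ _ _ (hhb1.1 Ω _ _ _ _ hp hq)
    (Lp.coeFn_add p.fst q.fst).symm (Lp.coeFn_add p.snd q.snd).symm
  zero_mem' := by
    have h := hhb1.2.2.2.2.1 Ω (fun _ => 0) ⟨contDiff_const, HasCompactSupport.zero, by simp⟩
    refine hhb1.2.2.1 Ω _ _ _ _ h (Lp.coeFn_zero ℝ 2 volume).symm ?_
    rw [gradient_fun_const']
    exact (Lp.coeFn_zero ℂ 2 volume).symm
  smul_mem' := fun c p hp => hhb1.2.2.1 Ω _ _ _ _ (hhb1.2.1 Ω _ _ c hp)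
    (Lp.coeFn_smul c p.fst).symm (Lp.coeFn_smul c p.snd).symm

theorem op1_closed (hhb1 : S_HB1) (Ω : Set ℂ) : IsClosed (op1_V hhb1 Ω : Set op1_H) := by
  refine IsSeqClosed.isClosed fun p q hp hq => ?_
  refine hhb1.2.2.2.2.2.2.1 Ω (fun n => (p n).fst) (fun n => (p n).snd) _ _ hp (Lp.memLp _)
    (Lp.memLp _) ?_ ?_
  · exact (Lp.tendsto_Lp_iff_tendsto_eLpNorm' _ _).1
      (((WithLp.continuous_fst 2 _ _).tendsto q).comp hq)
  · exact (Lp.tendsto_Lp_iff_tendsto_eLpNorm' _ _).1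
      (((WithLp.continuous_snd 2 _ _).tendsto q).comp hq)

theorem t_op1 (hhb1 : S_HB1) : S_OP1 := by
  intro Ω
  have : CompleteSpace (op1_V hhb1 Ω) := (op1_closed hhb1 Ω).completeSpace_coe
  let e := WithLp.prodContinuousLinearEquiv 2 ℝ L2 (Lp ℂ 2 (volume : Measure ℂ))
  refine ⟨(WithLp.fstL 2 ℝ L2 (Lp ℂ 2 (volume : Measure ℂ))).comp
    ((op1_V hhb1 Ω).starProjection.comp (e.symm.toContinuousLinearMap.comp
      (ContinuousLinearMap.inl ℝ _ _))), fun h => ?_⟩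
  obtain ⟨p, hp⟩ : ∃ p, p = (op1_V hhb1 Ω).starProjection (WithLp.toLp 2 (h, 0)) := ⟨_, rfl⟩
  have hV : p ∈ op1_V hhb1 Ω := hp ▸ Submodule.starProjection_apply_mem _ _
  suffices H : H10 Ω p.fst p.snd ∧ ∀ φ, IsTest Ω φ → (∫ x, p.fst x * φ x) +
      ∫ x, inner ℝ (p.snd x) (gradient φ x) = ∫ x, h x * φ x by
    subst hp; exact ⟨_, H⟩
  refine ⟨hV, fun φ hφ => ?_⟩
  have h1 := hhb1.2.2.2.2.1 Ω φ hφ
  have a1 := h1.1.coeFn_toLp
  have a2 := h1.2.1.coeFn_toLp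
  have h2 : WithLp.toLp 2 (h1.1.toLp φ, h1.2.1.toLp _) ∈ op1_V hhb1 Ω :=
    hhb1.2.2.1 Ω _ _ _ _ h1 a1.symm a2.symm
  have h3 := (op1_V hhb1 Ω).starProjection_inner_eq_zero (WithLp.toLp 2 (h, 0)) _ h2
  rw [← hp, inner_sub_left, sub_eq_zero, WithLp.prod_inner_apply, WithLp.prod_inner_apply] at h3
  simp only [inner_zero_left, add_zero] at h3
  have b1 : ∀ f : L2, inner ℝ f (h1.1.toLp φ) = ∫ x, f x * φ x := by
    intro f
    rw [L2.inner_def]
    refine integral_congr_ae ?_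
    filter_upwards [a1] with x hx
    rw [hx]; simp [mul_comm]
  have b2 : inner ℝ p.snd (h1.2.1.toLp _) = ∫ x, inner ℝ (p.snd x) (gradient φ x) := by
    rw [L2.inner_def]
    refine integral_congr_ae ?_
    filter_upwards [a2] with x hx
    rw [hx]
  rw [← b1, ← b1, ← b2]
  exact h3.symm

end

end Pool.Agent.P.MP_6b977f_mp.EB
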