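import Pool.Agent.P.MP_6b977f_mp.EB.IfS

/-! The resolvent: symmetry, uniqueness, and its eigenvectors. -/

namespace Pool.Agent.P.MP_6b977f_mp.EB

open Real MeasureTheory Filter Topology Laplacian Set Metric
open scoped ContDiff BoundedContinuousFunction ComplexConjugate Pointwise ENNReal

noncomputable section

theorem op2_int {E : Type} [NormedAddCommGroup E] [InnerProductSpace ℝ E] {u v : ℂ → E}
    (hu : MemLp u 2 volume) (hv : MemLp v 2 volume) :
    ∫ x, inner ℝ (u x) (v x) = inner ℝ (hu.toLp u) (hv.toLp v) := by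
  rw [MeasureTheory.L2.inner_def]
  refine integral_congr_ae ?_
  filter_upwards [hu.coeFn_toLp, hv.coeFn_toLp] with x h1 h2
  rw [h1, h2]

theorem op2_mul {u v : ℂ → ℝ} (hu : MemLp u 2 volume) (hv : MemLp v 2 volume) :
    ∫ x, u x * v x = inner ℝ (hu.toLp u) (hv.toLp v) := by
  rw [← op2_int]
  exact integral_congr_ae (Eventually.of_forall fun x => by simp [mul_comm])

theorem op2_ext (hhb1 : S_HB1) {Ω : Set ℂ} {f h f' : ℂ → ℝ} {g g' : ℂ → ℂ}
    (hf : MemLp f 2 volume) (hg : MemLp g 2 volume) (hh : MemLp h 2 volume)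
    (e : ∀ φ, IsTest Ω φ →
      (∫ x, f x * φ x) + ∫ x, inner ℝ (g x) (gradient φ x) = ∫ x, h x * φ x)
    (H : H10 Ω f' g') :
    inner ℝ (hf.toLp f) (H.1.toLp f') + inner ℝ (hg.toLp g) (H.2.1.toLp g') =
      inner ℝ (hh.toLp h) (H.1.toLp f') := by
  obtain ⟨h1, h2, a, ha, t1, t2⟩ := H
  have hm := fun j => hhb1.2.2.2.2.1 Ω (a j) (ha j)
  have s1 := (Lp.tendsto_Lp_iff_tendsto_eLpNorm'' a (fun j => (hm j).1) f' h1).2 t1
  have s2 := (Lp.tendsto_Lp_iff_tendsto_eLpNorm'' (fun j => gradient (a j))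
    (fun j => (hm j).2.1) g' h2).2 t2
  refine tendsto_nhds_unique (((tendsto_const_nhds (x := hf.toLp f)).inner (𝕜 := ℝ) s1).add
    ((tendsto_const_nhds (x := hg.toLp g)).inner (𝕜 := ℝ) s2))
    (((tendsto_const_nhds (x := hh.toLp h)).inner (𝕜 := ℝ) s1).congr fun j => ?_)
  rw [← op2_mul, ← op2_mul, ← op2_int]
  exact (e _ (ha j)).symm

theorem op2_smul (c : ℝ) (g v : ℂ → ℂ) :
    ∫ x, inner ℝ ((c : ℂ) * g x) (v x) = c * ∫ x, inner ℝ (g x) (v x) := by
  rw [← integral_const_mul]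
  refine integral_congr_ae (Eventually.of_forall fun x => ?_)
  simp only [← Complex.real_smul, real_inner_smul_left]

theorem t_op2 (hhb1 : S_HB1) : S_OP2 := by
  intro Ω T hT
  have uq : ∀ (h : L2) f g, H10 Ω f g → (∀ φ, IsTest Ω φ →
      (∫ x, f x * φ x) + ∫ x, inner ℝ (g x) (gradient φ x) = ∫ x, h x * φ x) →
      f =ᵐ[volume] T h ∧ eLpNorm f 2 volume ≤ ‖h‖ₑ ∧ eLpNorm g 2 volume ≤ ‖h‖ₑ := by
    intro h f g H e
    obtain ⟨g0, H0, e0⟩ := hT h
    have e11 := op2_ext hhb1 H.1 H.2.1 (Lp.memLp h) e H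
    have e10 := op2_ext hhb1 H.1 H.2.1 (Lp.memLp h) e H0
    have e01 := op2_ext hhb1 H0.1 H0.2.1 (Lp.memLp h) e0 H
    have e00 := op2_ext hhb1 H0.1 H0.2.1 (Lp.memLp h) e0 H0
    have c1 := H.1.coeFn_toLp
    rw [← Lp.enorm_toLp H.1, ← Lp.enorm_toLp H.2.1, enorm_le_iff_norm_le, enorm_le_iff_norm_le]
    simp only [Lp.toLp_coeFn] at e11 e10 e01 e00
    generalize H.1.toLp f = F at *
    generalize H.2.1.toLp g = G at *
    generalize H0.2.1.toLp g0 = G0 at *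
    have n1 := norm_sub_sq_real F (T h)
    have n2 := norm_sub_sq_real G G0
    have n3 := real_inner_le_norm h F
    rw [real_inner_comm F, real_inner_comm G] at e01
    simp only [real_inner_self_eq_norm_sq] at e11 e00
    have n4 : ‖F - T h‖ ^ 2 = 0 := by
      nlinarith [sq_nonneg ‖F - T h‖, sq_nonneg ‖G - G0‖]
    have n5 : F = T h := sub_eq_zero.1 (norm_eq_zero.1 (pow_eq_zero_iff two_ne_zero |>.1 n4))
    have n6 : ‖F‖ ≤ ‖h‖ := by
      by_contra hc
      have h7 := not_le.1 hc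
      nlinarith [norm_nonneg h, sq_nonneg ‖G‖]
    refine ⟨by rw [← n5]; exact c1.symm, n6, abs_le_of_sq_le_sq' ?_ (norm_nonneg _) |>.2⟩
    nlinarith [norm_nonneg h, sq_nonneg ‖F‖]
  refine ⟨fun x y => ?_, uq, fun lam f g x hl W hx => ?_, fun κ x hκ hx => ?_⟩
  · obtain ⟨gx, Hx, ex⟩ := hT x
    obtain ⟨gy, Hy, ey⟩ := hT y
    have e1 := op2_ext hhb1 Hx.1 Hx.2.1 (Lp.memLp x) ex Hy
    have e2 := op2_ext hhb1 Hy.1 Hy.2.1 (Lp.memLp y) ey Hx
    simp only [Lp.toLp_coeFn] at e1 e2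
    rw [real_inner_comm (T x), real_inner_comm (Hx.2.1.toLp gx), real_inner_comm (T x) y] at e2
    rw [← e1, ← e2]
  · have h0 : 1 + lam ≠ 0 := by linarith
    have h1 := (uq x _ _ (hhb1.2.1 Ω f g (1 + lam)⁻¹ W.1) fun φ hφ => by
      have e1 : ∫ z, x z * φ z = ∫ z, f z * φ z :=
        integral_congr_ae (hx.mono fun z hz => by simp only [hz])
      simp only [mul_assoc]
      rw [op2_smul, W.2 φ hφ, integral_const_mul, e1]
      field_simp).1
    refine Lp.ext ?_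
    filter_upwards [h1, hx, Lp.coeFn_smul (1 + lam)⁻¹ x] with z a1 a2 a3
    rw [a3, ← a1, Pi.smul_apply, a2, smul_eq_mul]
  · obtain ⟨g, H, e⟩ := hT x
    have h1 : ∀ᵐ z, T x z = κ * x z := by
      rw [hx]
      exact Lp.coeFn_smul κ x
    refine ⟨fun z => (κ⁻¹ : ℝ) * g z, hhb1.2.2.1 Ω _ _ _ _ (hhb1.2.1 Ω _ g κ⁻¹ H)
      (h1.mono fun z hz => ?_) EventuallyEq.rfl, fun φ hφ => ?_⟩
    · simp only [hz, inv_mul_cancel_left₀ hκ]
    · have e1 : ∫ z, T x z * φ z = κ * ∫ z, x z * φ z := by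
        rw [← integral_const_mul]
        exact integral_congr_ae (h1.mono fun z hz => by simp only [hz, mul_assoc])
      have e2 := e φ hφ
      rw [e1] at e2
      rw [op2_smul, eq_sub_of_add_eq' e2]
      field_simp

end

end Pool.Agent.P.MP_6b977f_mp.EB
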