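import Pool.Agent.P.MP_6b977f_mp.EB.IfS

/-! The resolvent of a bounded domain is compact. -/

namespace Pool.Agent.P.MP_6b977f_mp.EB

open Real MeasureTheory Filter Topology Laplacian Set Metric
open scoped ContDiff BoundedContinuousFunction ComplexConjugate Pointwise ENNReal

theorem op3_compact {X : Type} [MetricSpace X] {S : Set X}
    (h : ∀ x : ℕ → X, (∀ n, x n ∈ S) → ∃ (a : X) (s : ℕ → ℕ), StrictMono s ∧
      Tendsto (x ∘ s) atTop (𝓝 a)) : IsCompact (closure S) := by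
  refine IsSeqCompact.isCompact fun x hx => ?_
  choose y hy hd using fun n : ℕ =>
    Metric.mem_closure_iff.1 (hx n) (1 / ((n : ℝ) + 1)) (by positivity)
  obtain ⟨a, s, hs, ha⟩ := h y hy
  have h1 : Tendsto (fun n => dist ((y ∘ s) n) ((x ∘ s) n)) atTop (𝓝 0) := by
    refine squeeze_zero (fun _ => dist_nonneg) (fun n => ?_)
      ((tendsto_one_div_add_atTop_nhds_zero_nat (𝕜 := ℝ)).comp hs.tendsto_atTop)
    rw [dist_comm]
    exact (hd (s n)).le
  exact ⟨a, mem_closure_of_tendsto ha (Eventually.of_forall fun n => hy (s n)), s, hs,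
    ha.congr_dist h1⟩

theorem t_op3 (hrell : S_RELL) (hop2 : S_OP2) : S_OP3 := by
  intro Ω T hΩ hT
  change IsCompactOperator (T : L2 →ₗ[ℝ] L2)
  rw [isCompactOperator_iff_isCompact_closure_image_closedBall (T : L2 →ₗ[ℝ] L2) zero_lt_one]
  refine op3_compact fun x hx => ?_
  choose h hh hx using hx
  choose g hg hw using fun n => hT (h n)
  have hb : ∀ n, ‖h n‖ₑ ≤ 1 := fun n => by
    have := mem_closedBall_zero_iff.1 (hh n)
    rw [← ofReal_norm]
    exact ENNReal.ofReal_le_one.2 this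
  have h2 := fun n => ((hop2 Ω T hT).2.1 (h n) _ _ (hg n) (hw n)).2
  obtain ⟨s, f₀, hs, hf, hlim⟩ := hrell Ω (fun n => T (h n)) g 1 hΩ ENNReal.one_lt_top hg
    (fun n => (h2 n).1.trans (hb n)) fun n => (h2 n).2.trans (hb n)
  refine ⟨hf.toLp f₀, s, hs, ?_⟩
  rw [Lp.tendsto_Lp_iff_tendsto_eLpNorm]
  refine hlim.congr fun n => ?_
  rw [Function.comp_apply, ← hx]
  rfl

end Pool.Agent.P.MP_6b977f_mp.EB
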