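import Pool.Agent.P.MP_6b977f_mp.EB.IfS

/-! Countably many tests determine the random wave. -/

namespace Pool.Agent.P.MP_6b977f_mp.EB

open Real MeasureTheory Filter Topology Laplacian Set Metric
open scoped ContDiff BoundedContinuousFunction ComplexConjugate Pointwise ENNReal

/-- the test with given points and weights -/
noncomputable def ratT {n : ℕ} (p : Fin n → ℂ × ℝ) : ℂ →₀ ℝ := ∑ i, Finsupp.single (p i).1 (p i).2

theorem rat_sum {n : ℕ} (p : Fin n → ℂ × ℝ) (g : ℂ → ℝ) :
    ((ratT p).sum fun x s => s * g x) = ∑ i, (p i).2 * g (p i).1 := by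
  have := map_sum (Finsupp.linearCombination ℝ g) (fun i => Finsupp.single (p i).1 (p i).2)
    Finset.univ
  simp only [Finsupp.linearCombination_single, smul_eq_mul] at this
  rw [← this, Finsupp.linearCombination_apply]; rfl

theorem rat_surj (τ : ℂ →₀ ℝ) : ∃ (n : ℕ) (p : Fin n → ℂ × ℝ), ratT p = τ := by
  refine ⟨τ.support.card, fun i => (τ.support.equivFin.symm i, τ (τ.support.equivFin.symm i)), ?_⟩
  rw [ratT, Equiv.sum_comp τ.support.equivFin.symm fun x => Finsupp.single (x : ℂ) (τ x),
    Finset.sum_coe_sort τ.support fun x => Finsupp.single x (τ x)]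
  exact τ.sum_single

theorem rat_J0 : Continuous J0 :=
  continuous_const.mul (intervalIntegral.continuous_parametric_intervalIntegral_of_continuous'
    (f := fun (v : ℂ) (t : ℝ) => cos (v.re * cos t + v.im * sin t)) (by fun_prop) _ _)

theorem rat_gauss (n : ℕ) : Continuous fun p : Fin n → ℂ × ℝ => gauss (ratT p) := by
  have e : ∀ p : Fin n → ℂ × ℝ, gauss (ratT p) =
      (Real.exp (-(1 / 2) * ∑ i, (p i).2 * ∑ j, (p j).2 * J0 ((p i).1 - (p j).1)) : ℝ) := by
    intro p
    have : ((ratT p).sum fun x s => (ratT p).sum fun y t => s * t * J0 (x - y)) =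
        (ratT p).sum fun x s => s * ∑ j, (p j).2 * J0 (x - (p j).1) := by
      refine Finsupp.sum_congr fun x _ => ?_
      rw [← rat_sum p fun y => J0 (x - y), Finsupp.mul_sum]
      simp only [mul_assoc]
    rw [gauss, this, rat_sum]
  simp only [e]
  have := rat_J0
  fun_prop

theorem rat_cf (μ : RM) (hμ : IsProbabilityMeasure μ) (n : ℕ) :
    Continuous fun p : Fin n → ℂ × ℝ => cfM μ (ratT p) := by
  let _ : MeasurableSpace C(ℂ, ℝ) := borel _
  have : BorelSpace C(ℂ, ℝ) := ⟨rfl⟩
  simp only [cfM, rat_sum]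
  refine continuous_of_dominated (bound := fun _ => 1) (fun p => ?_)
    (fun p => Eventually.of_forall fun F => ?_) (integrable_const _)
    (Eventually.of_forall fun F => by fun_prop)
  · exact Continuous.aestronglyMeasurable (by fun_prop)
  · rw [mul_comm, Complex.norm_exp_ofReal_mul_I]

theorem t_rat : S_RAT := by
  choose s hs hd using fun n : ℕ => TopologicalSpace.exists_countable_dense (Fin n → ℂ × ℝ)
  obtain ⟨D, hD⟩ := (countable_iUnion fun n => (hs n).image ratT).exists_eq_range
    (nonempty_iUnion.2 ⟨0, (hd 0).nonempty.image _⟩)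
  refine ⟨D, fun μ hμ h => ⟨hμ, fun τ => ?_⟩⟩
  obtain ⟨n, p, rfl⟩ := rat_surj τ
  refine congrFun (Continuous.ext_on (hd n) (rat_cf μ hμ n) (rat_gauss n) fun q hq => ?_) p
  obtain ⟨k, hk⟩ : ratT q ∈ range D := hD ▸ mem_iUnion.2 ⟨n, mem_image_of_mem _ hq⟩
  simp only [← hk, h k]

end Pool.Agent.P.MP_6b977f_mp.EB
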