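import Pool.Agent.P.MP_6b977f_mp.EB.IfS

/-! Odd reflection across a flat piece of the boundary. -/

namespace Pool.Agent.P.MP_6b977f_mp.EB

open Real MeasureTheory Filter Topology Laplacian Set Metric
open scoped ContDiff BoundedContinuousFunction ComplexConjugate Pointwise ENNReal

/-- The mirror as a homeomorphism. -/
noncomputable def refl_h (H : ℝ) : ℂ ≃ₜ ℂ :=
  Complex.conjLIE.toHomeomorph.trans (Homeomorph.subRight (2 * H * Complex.I))

theorem refl_mp (H : ℝ) : MeasurePreserving (mir H) volume volume :=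
  (measurePreserving_sub_right volume (2 * H * Complex.I : ℂ)).comp
    Complex.conjLIE.measurePreserving

theorem refl_mir (H : ℝ) (z : ℂ) : mir H (mir H z) = z := by
  apply Complex.ext <;> simp [mir]

theorem refl_im (c z : ℂ) : (mir (-c.im) z).im = 2 * c.im - z.im := by
  simp [mir]; ring

theorem refl_ball (c z : ℂ) (r : ℝ) : mir (-c.im) z ∈ ball c r ↔ z ∈ ball c r := by
  have : mir (-c.im) z - c = conj (z - c) := by
    apply Complex.ext <;> simp [mir]; ring
  rw [mem_ball_iff_norm, mem_ball_iff_norm, this, Complex.norm_conj]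

theorem refl_smooth (H : ℝ) : ContDiff ℝ ∞ (mir H) :=
  Complex.conjCLE.contDiff.sub contDiff_const

theorem refl_test {c : ℂ} {r : ℝ} {φ : ℂ → ℝ} (h : IsTest (ball c r) φ) :
    IsTest (ball c r) (φ ∘ mir (-c.im)) :=
  ⟨h.1.comp (refl_smooth _), h.2.1.comp_homeomorph (refl_h (-c.im)), fun z hz =>
    (refl_ball c z r).1 (h.2.2 (tsupport_comp_subset_preimage φ (refl_smooth _).continuous hz))⟩

theorem refl_two : (2 : ℕ∞ω) ≤ ((⊤ : ℕ∞) : ℕ∞ω) := WithTop.coe_le_coe.2 (le_top (a := (2 : ℕ∞)))

theorem refl_lap (H : ℝ) {φ : ℂ → ℝ} (h : ContDiff ℝ ∞ φ) (z : ℂ) :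
    Δ (φ ∘ mir H) z = Δ φ (mir H z) := by
  have e : φ ∘ mir H = (fun y => φ (y - 2 * H * Complex.I)) ∘ (Complex.conjCLE : ℂ →L[ℝ] ℂ) := rfl
  have h' : ContDiff ℝ ∞ fun y => φ (y - 2 * H * Complex.I) :=
    h.comp (contDiff_id.sub contDiff_const)
  simp only [InnerProductSpace.laplacian_eq_iteratedFDeriv_complexPlane]
  rw [e, ContinuousLinearMap.iteratedFDeriv_comp_right _ h' z refl_two, iteratedFDeriv_comp_sub]
  simp [iteratedFDeriv_two_apply, mir]

/-- From linear forms to vectors. -/
noncomputable def refl_G : (ℂ →L[ℝ] ℝ) →L[ℝ] ℂ :=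
  (ContinuousLinearMap.apply ℝ ℝ (1 : ℂ)).smulRight 1 +
    (ContinuousLinearMap.apply ℝ ℝ Complex.I).smulRight Complex.I

theorem refl_grad (φ : ℂ → ℝ) : gradient φ = refl_G ∘ fderiv ℝ φ := by
  funext x
  have h : ∀ v, inner ℝ (gradient φ x) v = fderiv ℝ φ x v := fun v => by
    simp only [gradient, InnerProductSpace.toDual_symm_apply]
  have h1 := h 1
  have h2 := h Complex.I
  rw [Complex.inner] at h1 h2
  apply Complex.ext
  · simpa [refl_G] using h1
  · simpa [refl_G] using h2

theorem refl_fd {φ : ℂ → ℝ} (h : ContDiff ℝ ∞ φ) : ContDiff ℝ 1 (fderiv ℝ φ) :=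
  h.fderiv_right refl_two

theorem refl_div {φ : ℂ → ℝ} (h : ContDiff ℝ ∞ φ) (x : ℂ) :
    (fderiv ℝ (gradient φ) x 1).re + (fderiv ℝ (gradient φ) x Complex.I).im = Δ φ x := by
  rw [refl_grad, fderiv_comp x refl_G.differentiableAt
    ((refl_fd h).differentiable one_ne_zero x), ContinuousLinearMap.fderiv]
  simp [InnerProductSpace.laplacian_eq_iteratedFDeriv_complexPlane, iteratedFDeriv_two_apply,
    refl_G]

theorem refl_memLp {O : Set ℂ} {φ : ℂ → ℝ} (h : IsTest O φ) :
    MemLp φ 2 volume ∧ MemLp (Δ φ) 2 volume := by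
  refine ⟨h.1.continuous.memLp_of_hasCompactSupport h.2.1,
    Continuous.memLp_of_hasCompactSupport ?_ ?_⟩
  · have := h.1.continuous_iteratedFDeriv refl_two
    rw [InnerProductSpace.laplacian_eq_iteratedFDeriv_complexPlane]
    fun_prop
  · refine h.2.1.mono' fun x hx => by_contra fun h' => hx ?_
    have := InnerProductSpace.laplacian_congr_nhds (notMem_tsupport_iff_eventuallyEq.1 h')
    exact this.eq_of_nhds.trans (congrFun InnerProductSpace.laplacian_const x)

/-- The weak equation against a function that is odd under the mirror. -/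
theorem refl_weak (hlip : S_LIP) (hhb1 : S_HB1) (hhb2 : S_HB2) {Ω : Set ℂ} {c : ℂ} {r lam : ℝ}
    {f : ℂ → ℝ} {g : ℂ → ℂ} (hF : Flat Ω c r) (hW : WE Ω lam f g) {p : ℂ → ℝ}
    (hp : IsTest (ball c r) p) (h0 : ∀ z : ℂ, z.im = c.im → p z = 0) :
    (∫ x, f x * Δ p x) + lam * ∫ x, f x * p x = 0 := by
  have ho : IsOpen {z : ℂ | c.im < z.im} := isOpen_lt continuous_const Complex.continuous_im
  have hU := isOpen_ball.inter ho (s := ball c r)
  have hz : ∀ z ∉ ball c r, p z = 0 ∧ gradient p z = 0 := fun z h => by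
    have h1 : z ∉ tsupport p := fun h' => h (hp.2.2 h')
    refine ⟨image_eq_zero_of_notMem_tsupport h1, ?_⟩
    rw [refl_grad, Function.comp_apply, image_eq_zero_of_notMem_tsupport
      fun h' => h1 (tsupport_fderiv_subset ℝ h'), map_zero]
  have h1 := hlip _ univ p hU (isBounded_ball.subset inter_subset_left) isOpen_univ
    (subset_univ _) (hp.1.of_le (by exact_mod_cast le_top)).contDiffOn fun z hz' => by
      rw [hU.frontier_eq] at hz'
      by_cases h : z ∈ ball c r
      · refine h0 z (le_antisymm (not_lt.1 fun h' => hz'.2 ⟨h, h'⟩) ?_)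
        exact closure_minimal (t := {z : ℂ | c.im ≤ z.im}) (fun y hy => le_of_lt (b := y.im) hy.2)
          (isClosed_le continuous_const Complex.continuous_im) hz'.1
      · exact (hz z h).1
  have h2 := hhb1.2.2.2.2.2.2.2.1 Ω lam f g _ _ hW
    (hhb1.2.2.2.1 _ Ω _ _ (fun z h => (hF.2.2 z h.1).2 h.2) h1)
  have h3 := hhb2.1 Ω f g (gradient p) hW.1
    (by rw [refl_grad]; exact refl_G.contDiff.comp (refl_fd hp.1))
    (by rw [refl_grad]; exact (hp.2.1.fderiv ℝ).comp_left (map_zero _))
  have h4 := hhb1.2.2.2.2.2.1 Ω f g hW.1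
  have h5 : ∀ᵐ x, inner ℝ (g x) ((ball c r ∩ {z : ℂ | c.im < z.im}).indicator (gradient p) x) =
      inner ℝ (g x) (gradient p x) ∧
      f x * (ball c r ∩ {z : ℂ | c.im < z.im}).indicator p x = f x * p x := by
    filter_upwards [h4] with x hx
    by_cases h : x ∈ ball c r ∩ {z : ℂ | c.im < z.im}
    · simp only [indicator_of_mem h, and_self]
    · simp only [indicator_of_notMem h]
      by_cases h' : x ∈ ball c r
      · obtain ⟨a, b⟩ := hx fun h'' => h ⟨h', (hF.2.2 x h').1 h''⟩
        simp [a, b]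
      · simp [hz x h']
  rw [integral_congr_ae (h5.mono fun x hx => hx.1), integral_congr_ae (h5.mono fun x hx => hx.2),
    h3] at h2
  simp only [refl_div hp.1] at h2
  linarith

theorem t_refl (hweyl : S_WEYL) (hlip : S_LIP) (hhb1 : S_HB1) (hhb2 : S_HB2) : S_REFL := by
  intro Ω c r lam f g _ hF hl hW
  have hf := hW.1.1
  have mp := refl_mp (-c.im)
  have hf' := hf.comp_measurePreserving mp
  obtain ⟨w, hw, hw'⟩ := hweyl (ball c r) lam (f - f ∘ mir (-c.im)) isOpen_ball hl (hf.sub hf')
    fun φ hφ => by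
      have hφ' := refl_test hφ
      have hp : IsTest (ball c r) (φ - φ ∘ mir (-c.im)) :=
        ⟨hφ.1.sub hφ'.1, hφ.2.1.sub hφ'.2.1,
          (tsupport_sub _ _).trans (union_subset hφ.2.2 hφ'.2.2)⟩
      have h1 := refl_weak hlip hhb1 hhb2 hF hW hp fun z hz => by
        have : mir (-c.im) z = z := Complex.ext (by simp [mir]) (by rw [refl_im, hz]; ring)
        simp [this]
      obtain ⟨a1, a2⟩ := refl_memLp hφ
      obtain ⟨b1, b2⟩ := refl_memLp hφ'
      obtain ⟨c1, c2⟩ := refl_memLp hp
      have h2 := mp.integral_comp (refl_h (-c.im)).measurableEmbedding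
        fun x => f (mir (-c.im) x) * (Δ φ x + lam * φ x)
      simp only [refl_mir] at h2
      have i1 : Integrable fun x => f x * (Δ φ x + lam * φ x) :=
        hf.integrable_mul (a2.add (a1.const_mul lam))
      have i2 : Integrable fun x => f (mir (-c.im) x) * (Δ φ x + lam * φ x) :=
        hf'.integrable_mul (a2.add (a1.const_mul lam))
      have i3 : Integrable fun x => f x * (Δ φ (mir (-c.im) x) + lam * φ (mir (-c.im) x)) := by
        simp only [← refl_lap _ hφ.1]
        exact hf.integrable_mul (b2.add (b1.const_mul lam))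
      have i4 : Integrable fun x => f x * Δ (φ - φ ∘ mir (-c.im)) x := hf.integrable_mul c2
      have i5 : Integrable fun x => lam * (f x * (φ - φ ∘ mir (-c.im)) x) :=
        (hf.integrable_mul c1).const_mul lam
      simp only [Pi.sub_apply f, Function.comp_apply, sub_mul]
      rw [integral_sub i1 i2, ← h2, ← integral_sub i1 i3, ← h1, ← integral_const_mul,
        ← integral_add i4 i5]
      refine integral_congr_ae (Eventually.of_forall fun x => ?_)
      simp only [Pi.sub_apply, Function.comp_apply,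
        (hφ.1.of_le refl_two).contDiffAt.laplacian_sub (hφ'.1.of_le refl_two).contDiffAt,
        refl_lap _ hφ.1]
      ring
  have h1 := mp.quasiMeasurePreserving.ae hw'
  have h2 := mp.quasiMeasurePreserving.ae (hhb1.2.2.2.2.2.1 Ω f g hW.1)
  refine ⟨w, hw, Measure.eqOn_open_of_ae_eq (μ := volume) (f := fun z => w (mir (-c.im) z))
    (g := fun z => -w z) ?_ isOpen_ball (hw.1.continuousOn.comp
      (refl_smooth _).continuous.continuousOn fun z hz => (refl_ball c z r).2 hz)
    hw.1.continuousOn.neg, ?_⟩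
  · rw [EventuallyEq, ae_restrict_iff' measurableSet_ball]
    filter_upwards [h1, hw'] with x a b hx
    rw [a ((refl_ball c x r).2 hx), b hx]
    simp [refl_mir]
  · filter_upwards [h2, hw'] with x a b hx hx'
    have := (a fun h => by
      have := (hF.2.2 _ ((refl_ball c x r).2 hx)).1 h
      rw [refl_im] at this
      linarith).1
    rw [b hx]
    simp [this]

end Pool.Agent.P.MP_6b977f_mp.EB
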