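import Pool.Agent.P.MP_6b977f_mp.EB.IfS
import Pool.Agent.P.MP_593b7e_an.Compact

/-! Rellich compactness for `H¹₀` of a bounded set. -/

namespace Pool.Agent.P.MP_6b977f_mp.EB

open Real MeasureTheory Filter Topology Laplacian Set Metric
open scoped ContDiff BoundedContinuousFunction ComplexConjugate Pointwise ENNReal
open Pool.Agent.P.MP_593b7e_an

theorem rell_weak (hhb2 : S_HB2) {Ω : Set ℂ} {f : ℂ → ℝ} {g : ℂ → ℂ} (h : H10 Ω f g) :
    IsWeakGrad f g := by
  intro φ h1 h2
  have h1' : ContDiff ℝ 1 φ := h1.of_le (by exact_mod_cast le_top)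
  have m1 : MemLp φ 2 volume := h1.continuous.memLp_of_hasCompactSupport h2
  have m2 : MemLp (gradient φ) 2 volume :=
    (continuous_gradient h1').memLp_of_hasCompactSupport (hasCompactSupport_gradient h2)
  have i1 : Integrable (fun x => f x • gradient φ x) volume :=
    memLp_one_iff_integrable.1 (m2.smul h.1)
  have i2 : Integrable (fun x => φ x • g x) volume :=
    memLp_one_iff_integrable.1 (h.2.1.smul m1)
  apply ext_inner_left ℝ
  intro e
  rw [inner_neg_right, ← integral_inner i1, ← integral_inner i2]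
  have h3 := hhb2.1 Ω f g (fun x => φ x • e) h (h1'.smul contDiff_const)
    (h2.comp_left (g := fun t : ℝ => t • e) (zero_smul _ _))
  have h4 : ∀ x, inner ℝ e (f x • gradient φ x) = f x * ((fderiv ℝ (fun x => φ x • e) x 1).re +
      (fderiv ℝ (fun x => φ x • e) x Complex.I).im) := by
    intro x
    rw [fderiv_smul_const (h1'.differentiable one_ne_zero x), real_inner_smul_right,
      real_inner_comm, inner_gradient]
    congr 1
    have he : e = e.re • (1 : ℂ) + e.im • Complex.I := by simp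
    conv_lhs => rw [he, map_add, map_smul, map_smul]
    simp [mul_comm]
  have h5 : ∀ x, inner ℝ e (φ x • g x) = inner ℝ (g x) (φ x • e) := by
    intro x
    rw [real_inner_smul_right, real_inner_smul_right, real_inner_comm]
  simp_rw [h4, h5]
  rw [h3, neg_neg]

theorem rell_mid (ν : Measure ℂ) [IsFiniteMeasure ν] {f : ℕ → ℂ → ℝ} {f₀ : ℂ → ℝ} {C : ℝ}
    (hf : ∀ n, MemLp (f n) 2 volume) (hf₀ : MemLp f₀ 2 volume) (hCf : ∀ n, ∫ x, ‖f n x‖ ^ 2 ≤ C)
    (hweak : ∀ h : ℂ → ℝ, MemLp h 2 volume →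
      Tendsto (fun n => ∫ x, inner ℝ (f n x) (h x)) atTop (𝓝 (∫ x, inner ℝ (f₀ x) (h x))))
    (ρ : ContDiffBump (0 : ℂ)) :
    Tendsto (fun n => eLpNorm (fun x => mol ρ (f n) x - mol ρ f₀ x) 2 ν) atTop (𝓝 0) := by
  set R := √(∫ t, ‖ρ.normed volume t‖ ^ 2) with hR
  set M := √C * R + √(∫ t, ‖f₀ t‖ ^ 2) * R with hM
  have hb : ∀ n x, ‖mol ρ (f n) x - mol ρ f₀ x‖ ≤ M := by
    intro n x
    refine (norm_sub_le _ _).trans (add_le_add ?_ (abs_mol_le ρ hf₀ x))
    refine (abs_mol_le ρ (hf n) x).trans ?_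
    gcongr
    exact hCf n
  have hcont : ∀ n, Continuous (fun x => mol ρ (f n) x - mol ρ f₀ x) := fun n =>
    (contDiff_one_mol ρ (hf n)).continuous.sub (contDiff_one_mol ρ hf₀).continuous
  have hmem : ∀ n, MemLp (fun x => mol ρ (f n) x - mol ρ f₀ x) 2 ν := fun n =>
    MemLp.of_bound (hcont n).aestronglyMeasurable M (Eventually.of_forall (hb n))
  have h1 : Tendsto (fun n => ∫ x, ‖mol ρ (f n) x - mol ρ f₀ x‖ ^ 2 ∂ν) atTop
      (𝓝 (∫ _x : ℂ, (0 : ℝ) ∂ν)) := by
    apply tendsto_integral_of_dominated_convergence (fun _ => M ^ 2)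
    · exact fun n => ((hcont n).norm.pow 2).aestronglyMeasurable
    · exact integrable_const _
    · intro n
      refine Eventually.of_forall fun x => ?_
      rw [Real.norm_of_nonneg (by positivity)]
      gcongr
      exact hb n x
    · refine Eventually.of_forall fun x => ?_
      have := hweak _ (memLp_bump_sub ρ x)
      simp_rw [← mol_eq_inner] at this
      have h2 := ((this.sub_const (mol ρ f₀ x)).norm).pow 2
      simpa using h2
  simp_rw [eLpNorm_two_eq (hmem _)]
  have h3 := ENNReal.tendsto_ofReal h1.sqrt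
  simpa using h3

theorem t_rell (hhb1 : S_HB1) (hhb2 : S_HB2) : S_RELL := by
  intro Ω f g C hΩ hC hH hCf hCg
  have hf : ∀ n, MemLp (f n) 2 volume := fun n => (hH n).1
  have hCf' : ∀ n, ∫ x, ‖f n x‖ ^ 2 ≤ C.toReal ^ 2 := fun n =>
    (integral_sq_le_of_eLpNorm_le (hf n).1 ENNReal.toReal_nonneg
      (by rw [ENNReal.ofReal_toReal hC.ne]; exact hCf n)).2
  obtain ⟨s, hs, f₀, hf₀, hweak⟩ := weak_subseq hf hCf'
  obtain ⟨R, hR⟩ := hΩ.subset_closedBall 0
  let B : Set ℂ := closedBall 0 R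
  have hB : MeasurableSet B := measurableSet_closedBall
  let ν : Measure ℂ := volume.restrict B
  have : IsFiniteMeasure ν := isFiniteMeasure_restrict.mpr measure_closedBall_lt_top.ne
  have hle : ν ≤ volume := Measure.restrict_le_self
  have hac : ν ≪ volume := Measure.absolutelyContinuous_of_le hle
  have hres : ∀ m n, eLpNorm (f m - f n) 2 volume = eLpNorm (f m - f n) 2 ν := by
    intro m n
    rw [← eLpNorm_indicator_eq_eLpNorm_restrict hB]
    apply eLpNorm_congr_ae
    filter_upwards [hhb1.2.2.2.2.2.1 Ω _ _ (hH m), hhb1.2.2.2.2.2.1 Ω _ _ (hH n)] with x h1 h2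
    by_cases hx : x ∈ B
    · rw [indicator_of_mem hx]
    · have hx' : x ∉ Ω := fun h => hx (hR h)
      rw [indicator_of_notMem hx, Pi.sub_apply, (h1 hx').1, (h2 hx').1, sub_zero]
  let F : ℕ → L2 := fun n => (hf (s n)).toLp _
  have hcau : CauchySeq F := by
    rw [EMetric.cauchySeq_iff]
    intro ε hε
    obtain ⟨δ, hδ0, hδ⟩ : ∃ δ : ℝ≥0∞, 0 < δ ∧ δ + δ + (δ + δ) < ε := by
      obtain ⟨a, ha0, ha⟩ := exists_between hε
      refine ⟨a / 2 / 2, ENNReal.half_pos (ENNReal.half_pos ha0.ne').ne', ?_⟩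
      rwa [ENNReal.add_halves, ENNReal.add_halves]
    have h1 : Tendsto (fun k : ℕ => ENNReal.ofReal (1 / ((k : ℝ) + 1)) * C) atTop (𝓝 0) := by
      have := ENNReal.tendsto_ofReal tendsto_one_div_add_atTop_nhds_zero_nat
      rw [ENNReal.ofReal_zero] at this
      simpa using ENNReal.Tendsto.mul_const (b := C) this (Or.inr hC.ne)
    obtain ⟨k, hk⟩ := ((ENNReal.tendsto_nhds_zero.1 h1) δ hδ0).exists
    set ρ := bumpSeq ℂ k
    have h2 := rell_mid ν (fun n => hf (s n)) hf₀ (fun n => hCf' (s n)) hweak ρ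
    obtain ⟨N, hN⟩ := eventually_atTop.1 ((ENNReal.tendsto_nhds_zero.1 h2) δ hδ0)
    have c0 := (contDiff_one_mol ρ hf₀).continuous
    have h3 : ∀ n ≥ N, eLpNorm (f (s n) - mol ρ f₀) 2 ν ≤ δ + δ := by
      intro n hn
      have c1 := (contDiff_one_mol ρ (hf (s n))).continuous
      have hdec : f (s n) - mol ρ f₀ = (fun x => f (s n) x - mol ρ (f (s n)) x) +
          (fun x => mol ρ (f (s n)) x - mol ρ f₀ x) := by
        ext x
        simp only [Pi.sub_apply, Pi.add_apply]
        ring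
      rw [hdec]
      refine (eLpNorm_add_le (((hf (s n)).1.sub c1.aestronglyMeasurable).mono_ac hac)
        (c1.sub c0).aestronglyMeasurable one_le_two).trans (add_le_add ?_ (hN n hn))
      refine (eLpNorm_mono_measure _ hle).trans ((eLpNorm_sub_mol ρ (hf _) (hH _).2.1
        (rell_weak hhb2 (hH _))).trans (le_trans ?_ hk))
      gcongr
      · exact le_rfl
      · exact hCg _
    refine ⟨N, fun m hm n hn => ?_⟩
    rw [Lp.edist_toLp_toLp, hres]
    have hdec : f (s m) - f (s n) = (f (s m) - mol ρ f₀) - (f (s n) - mol ρ f₀) := by abel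
    rw [hdec]
    exact ((eLpNorm_sub_le (((hf _).1.mono_ac hac).sub c0.aestronglyMeasurable)
      (((hf _).1.mono_ac hac).sub c0.aestronglyMeasurable) one_le_two).trans
      (add_le_add (h3 m hm) (h3 n hn))).trans_lt hδ
  obtain ⟨G, hG⟩ := cauchySeq_tendsto_of_complete hcau
  refine ⟨s, G, hs, Lp.memLp G, ?_⟩
  rw [Lp.tendsto_Lp_iff_tendsto_eLpNorm'] at hG
  refine hG.congr fun n => eLpNorm_congr_ae ?_
  filter_upwards [(hf (s n)).coeFn_toLp] with x hx
  simp only [Pi.sub_apply, F, hx]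

end Pool.Agent.P.MP_6b977f_mp.EB
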