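import Pool.Agent.P.MP_6b977f_mp.EB.IfS

/-! Smoothing of a small Lipschitz perturbation by moving averages. -/

namespace Pool.Agent.P.MP_6b977f_mp.EB

open Real MeasureTheory Filter Topology Laplacian Set Metric
open scoped ContDiff BoundedContinuousFunction ComplexConjugate Pointwise ENNReal

theorem smooth_mvt {W w : ℝ → ℝ} {x h : ℝ} (hh : 0 < h)
    (hd : ∀ y ∈ Icc x (x + h), HasDerivAt W (w y) y) :
    ∃ ξ ∈ Ioo x (x + h), w ξ = (W (x + h) - W x) / h := by
  have := exists_hasDerivAt_eq_slope W w (lt_add_of_pos_right x hh)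
    (fun y hy => (hd y hy).continuousAt.continuousWithinAt) fun y hy => hd y (Ioo_subset_Icc_self hy)
  rwa [add_sub_cancel_left] at this

theorem smooth_one (p : C1) {w : ℝ → ℝ} {η h : ℝ} (hh : 0 < h) (hc : Continuous w)
    (hp : Function.Periodic w (2 * π)) (h1 : ∀ x, |w x| ≤ η)
    (h2 : ∀ x y, |w x - w y| ≤ η * |x - y|) :
    ∃ q : C1, dist q p ≤ η ∧ (∀ x, |q.1.1 x - p.1.1 x - w x| ≤ η * h) ∧
      ∀ x, q.1.2 x = p.1.2 x + (w (x + h) - w x) / h := by
  have η0 : 0 ≤ η := (abs_nonneg _).trans (h1 0)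
  set W : ℝ → ℝ := fun x => ∫ t in (0 : ℝ)..x, w t with hW
  have dW : ∀ x, HasDerivAt W (w x) x := fun x => (hc.integral_hasStrictDerivAt 0 x).hasDerivAt
  have dA : ∀ x, HasDerivAt (fun x => (W (x + h) - W x) / h) ((w (x + h) - w x) / h) x := fun x =>
    (((dW (x + h)).comp_add_const x h).sub (dW x)).div_const h
  have b1 : ∀ x, ‖(W (x + h) - W x) / h‖ ≤ η := fun x => by
    obtain ⟨ξ, -, e⟩ := smooth_mvt (x := x) hh fun y _ => dW y
    exact e ▸ h1 ξ
  have b2 : ∀ x, ‖(w (x + h) - w x) / h‖ ≤ η := fun x => by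
    have := h2 (x + h) x
    rw [add_sub_cancel_left, abs_of_pos hh] at this
    rwa [norm_div, Real.norm_eq_abs, Real.norm_eq_abs, abs_of_pos hh, div_le_iff₀ hh]
  have per : ∀ x, W (x + 2 * π + h) - W (x + 2 * π) = W (x + h) - W x := fun x => by
    simp only [hW]
    rw [intervalIntegral.integral_interval_sub_left (hc.intervalIntegrable _ _)
      (hc.intervalIntegrable _ _), intervalIntegral.integral_interval_sub_left
      (hc.intervalIntegrable _ _) (hc.intervalIntegrable _ _), add_right_comm,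
      ← intervalIntegral.integral_comp_add_right]
    simp only [hp _]
  set A : ℝ →ᵇ ℝ := BoundedContinuousFunction.ofNormedAddCommGroup _
    (continuous_iff_continuousAt.2 fun x => (dA x).continuousAt) η b1 with hA
  set B : ℝ →ᵇ ℝ := BoundedContinuousFunction.ofNormedAddCommGroup
    (fun x => (w (x + h) - w x) / h) (by fun_prop) η b2 with hB
  refine ⟨⟨(p.1.1 + A, p.1.2 + B), fun x => ?_, fun x => (p.2.2 x).add (dA x)⟩, ?_,
    fun x => ?_, fun x => rfl⟩
  · show p.1.1 (x + 2 * π) + (W (x + 2 * π + h) - W (x + 2 * π)) / h =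
      p.1.1 x + (W (x + h) - W x) / h
    rw [p.2.1 x, per]
  · rw [Subtype.dist_eq, Prod.dist_eq, max_le_iff, dist_self_add_left, dist_self_add_left]
    exact ⟨(BoundedContinuousFunction.norm_le η0).2 b1, (BoundedContinuousFunction.norm_le η0).2 b2⟩
  · obtain ⟨ξ, hξ, e⟩ := smooth_mvt (x := x) hh fun y _ => dW y
    show |p.1.1 x + (W (x + h) - W x) / h - p.1.1 x - w x| ≤ η * h
    rw [add_sub_cancel_left, ← e]
    refine (h2 ξ x).trans (mul_le_mul_of_nonneg_left ?_ η0)
    rw [abs_of_pos (sub_pos.2 hξ.1)]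
    linarith [hξ.2]

theorem t_smooth : S_SMOOTH := by
  intro p σ η hσ hn
  have hq := fun n : ℕ => smooth_one p (w := fun x => σ x - p.1.1 x) (h := 1 / ((n : ℝ) + 1))
    (by positivity) (hσ.1.sub p.1.1.continuous) (hσ.2.sub p.2.1) hn.1 hn.2
  choose q h1 h2 h3 using hq
  have lim : Tendsto (fun n : ℕ => 1 / ((n : ℝ) + 1)) atTop (𝓝 0) :=
    tendsto_one_div_add_atTop_nhds_zero_nat
  refine ⟨q, h1, Metric.tendstoUniformly_iff.2 fun ε hε => ?_, fun U σ' hU hc hd =>
    Metric.tendstoLocallyUniformlyOn_iff.2 fun ε hε x hx => ?_⟩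
  · have := lim.const_mul η
    rw [mul_zero] at this
    filter_upwards [this.eventually (gt_mem_nhds hε)] with n hn x
    refine lt_of_le_of_lt (le_of_eq ?_) ((h2 n x).trans_lt hn)
    rw [dist_comm, Real.dist_eq]
    congr 1
    ring
  · have c : ContinuousAt (fun y => σ' y - p.1.2 y) x :=
      (hc.continuousAt (hU.mem_nhds hx)).sub p.1.2.continuous.continuousAt
    obtain ⟨δ, hδ, hb⟩ := Metric.eventually_nhds_iff_ball.1
      ((Metric.tendsto_nhds.1 c (ε / 2) (half_pos hε)).and (hU.mem_nhds hx))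
    refine ⟨ball x (δ / 2), mem_nhdsWithin_of_mem_nhds (ball_mem_nhds x (half_pos hδ)), ?_⟩
    filter_upwards [lim.eventually (gt_mem_nhds (half_pos hδ))] with n hn y hy
    have hi : ∀ z ∈ Icc y (y + 1 / ((n : ℝ) + 1)), z ∈ ball x δ := fun z hz => by
      rw [mem_ball, Real.dist_eq, abs_lt] at hy ⊢
      constructor <;> linarith [hz.1, hz.2, hy.1, hy.2]
    have h0 : 0 < 1 / ((n : ℝ) + 1) := by positivity
    obtain ⟨ξ, hξ, e⟩ := smooth_mvt (W := fun x => σ x - p.1.1 x) (w := fun y => σ' y - p.1.2 y)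
      (x := y) h0 fun z hz => (hd z (hb z (hi z hz)).2).sub (p.2.2 z)
    have a1 := (hb ξ (hi ξ (Ioo_subset_Icc_self hξ))).1
    have a2 := (hb y (hi y (left_mem_Icc.2 (by linarith)))).1
    rw [h3, ← e]
    rw [Real.dist_eq, abs_lt] at a1 a2 ⊢
    constructor <;> linarith [a1.1, a1.2, a2.1, a2.2]

end Pool.Agent.P.MP_6b977f_mp.EB
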