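import Pool.Agent.P.MP_6b977f_mp.EB.IfS

/-! Splitting of a multiple eigenvalue by a small deformation of a flat piece. -/

namespace Pool.Agent.P.MP_6b977f_mp.EB

open Real MeasureTheory Filter Topology Laplacian Set Metric
open scoped ContDiff BoundedContinuousFunction ComplexConjugate Pointwise ENNReal

theorem split_int {m : ℕ} {ψ : Fin m → ℂ → ℝ} {φ f : ℂ → ℝ} (hψ : ∀ i, MemLp (ψ i) 2 volume)
    (hφ : MemLp φ 2 volume) {c : Fin m → ℝ} (hf : f =ᵐ[volume] fun x => ∑ i, c i * ψ i x) :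
    ∫ x, f x * φ x = ∑ i, c i * ∫ x, ψ i x * φ x := by
  have h1 : ∫ x, f x * φ x = ∫ x, ∑ i, c i * (ψ i x * φ x) := by
    refine integral_congr_ae (hf.mono fun x hx => ?_)
    simp only [hx, Finset.sum_mul, mul_assoc]
  have h2 : ∀ i, Integrable (fun x => c i * (ψ i x * φ x)) volume := fun i =>
    ((hψ i).integrable_mul hφ).const_mul _
  rw [h1, integral_finset_sum _ fun i _ => h2 i]
  simp only [integral_const_mul]

theorem split_coef {m : ℕ} {ψ : Fin m → ℂ → ℝ} {f : ℂ → ℝ} (hψ : ∀ i, MemLp (ψ i) 2 volume)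
    (hon : ON ψ) {c : Fin m → ℝ} (hf : f =ᵐ[volume] fun x => ∑ i, c i * ψ i x) (j : Fin m) :
    ∫ x, f x * ψ j x = c j := by
  rw [split_int hψ (hψ j) hf]
  simp only [hon _ _, mul_ite, mul_one, mul_zero, Finset.sum_ite_eq', Finset.mem_univ, if_true]

theorem split_sol {m : ℕ} {O : Set ℂ} (hO : IsOpen O) {lam : ℝ} {w : Fin m → ℂ → ℝ}
    (hw : ∀ i, Sol O lam (w i)) (a : Fin m → ℝ) : Sol O lam fun z => ∑ i, a i * w i z := by
  have key : ∀ s : Finset (Fin m), Sol O lam fun z => ∑ i ∈ s, a i * w i z := by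
    intro s
    induction s using Finset.induction_on with
    | empty => exact ⟨by simpa using contDiffOn_const, fun x _ => by simp⟩
    | insert i s hi ih =>
      simp only [Finset.sum_insert hi]
      refine ⟨(contDiffOn_const.mul (hw i).1).add ih.1, fun x hx => ?_⟩
      have h1 : ContDiffAt ℝ 2 (w i) x :=
        ((hw i).1.contDiffAt (hO.mem_nhds hx)).of_le (WithTop.coe_le_coe.2 le_top)
      have h2 : ContDiffAt ℝ 2 (fun z => ∑ i ∈ s, a i * w i z) x :=
        (ih.1.contDiffAt (hO.mem_nhds hx)).of_le (WithTop.coe_le_coe.2 le_top)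
      have h3 := (h1.const_smul (a i)).laplacian_add h2
      have h4 := InnerProductSpace.laplacian_smul (a i) h1
      have h5 : (fun z => a i * w i z + ∑ i ∈ s, a i * w i z) =
          (fun z => a i • w i z) + fun z => ∑ i ∈ s, a i * w i z := rfl
      have h6 : (fun z => a i • w i z) = a i • w i := rfl
      rw [h5, h3, h6, h4]
      simp only [smul_eq_mul, Pi.add_apply, Pi.smul_apply]
      linear_combination a i * (hw i).2 x hx + ih.2 x hx
  exact key Finset.univ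

theorem split_odd {m : ℕ} {c : ℂ} {r lam : ℝ} {ψ w : Fin m → ℂ → ℝ} {f : ℂ → ℝ}
    (hw : ∀ i, OddExt c r lam (ψ i) (w i)) {a : Fin m → ℝ}
    (hf : f =ᵐ[volume] fun x => ∑ i, a i * ψ i x) :
    OddExt c r lam f fun z => ∑ i, a i * w i z := by
  refine ⟨split_sol isOpen_ball (fun i => (hw i).1) a, fun z hz => ?_, ?_⟩
  · simp only [fun i => (hw i).2.1 z hz, mul_neg, Finset.sum_neg_distrib]
  · filter_upwards [hf, ae_all_iff.2 fun i => (hw i).2.2] with z h1 h2 hz hz'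
    simp only [h1, fun i => h2 i hz hz']

theorem split_fd {m : ℕ} {w : Fin m → ℂ → ℝ} {z : ℂ} (hw : ∀ i, DifferentiableAt ℝ (w i) z)
    (a : Fin m → ℝ) (v : ℂ) :
    fderiv ℝ (fun z => ∑ i, a i * w i z) z v = ∑ i, a i * fderiv ℝ (w i) z v := by
  rw [fderiv_fun_sum fun i _ => (hw i).const_mul _]
  simp only [ContinuousLinearMap.sum_apply, fun i => fderiv_const_mul (hw i) (a i),
    ContinuousLinearMap.smul_apply, smul_eq_mul]

theorem split_mem {c : ℂ} {r σ : ℝ} (h : σ ∈ Ioo (c.re - r) (c.re + r)) :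
    ((σ : ℂ) + c.im * Complex.I) ∈ ball c r := by
  have : (σ : ℂ) + c.im * Complex.I - c = ((σ - c.re : ℝ) : ℂ) := by
    apply Complex.ext <;> simp
  rw [mem_ball, dist_eq_norm, this, Complex.norm_real, Real.norm_eq_abs, abs_lt]
  constructor <;> linarith [h.1, h.2]

theorem split_la {m m' : ℕ} (R : Fin m' → Fin m → ℝ) (M : Fin m → Fin m → ℝ) (ν : Fin m' → ℝ)
    (x : Fin m → ℝ) (μ : ℝ) (a : Fin m' → ℝ)
    (hR : ∀ i k, ∑ j, R i j * R k j = if i = k then 1 else 0)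
    (hM : ∀ i j, ∑ k, M j k * R i k = ν i * R i j) (hx : x ≠ 0)
    (hs : ∀ v : Fin m → ℝ, (∀ i, ∑ j, M i j * v j = μ * v i) ↔ ∃ a : ℝ, v = a • x)
    (ha : ∀ j, x j = ∑ i, a i * R i j) :
    ∃ i₀, ∃ b : ℝ, b ≠ 0 ∧ R i₀ = b • x ∧ ∀ i, i ≠ i₀ → ν i ≠ ν i₀ := by
  have h1 := (hs x).2 ⟨1, (one_smul _ _).symm⟩
  have h2 : ∀ j, ∑ i, a i * (ν i - μ) * R i j = 0 := by
    intro j
    have e1 : ∑ k, M j k * x k = ∑ i, a i * (ν i * R i j) := by
      simp only [ha, Finset.mul_sum, ← hM]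
      rw [Finset.sum_comm]
      exact Finset.sum_congr rfl fun i _ => Finset.sum_congr rfl fun k _ => by ring
    have e2 : μ * x j = ∑ i, μ * (a i * R i j) := by rw [ha, Finset.mul_sum]
    have e3 := h1 j
    rw [e1, e2, ← sub_eq_zero, ← Finset.sum_sub_distrib] at e3
    rw [← e3]
    exact Finset.sum_congr rfl fun i _ => by ring
  have h3 : ∀ k, a k * (ν k - μ) = 0 := by
    intro k
    have e1 : ∑ j, (∑ i, a i * (ν i - μ) * R i j) * R k j = 0 := by simp [h2]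
    simp only [Finset.sum_mul] at e1
    rw [Finset.sum_comm] at e1
    simp only [mul_assoc _ (R _ _), ← Finset.mul_sum, hR] at e1
    simpa using e1
  obtain ⟨i₀, h0⟩ : ∃ i, a i ≠ 0 := by
    by_contra h
    push Not at h
    exact hx (funext fun j => by simp [ha, h])
  have h4 : ν i₀ = μ := sub_eq_zero.1 ((mul_eq_zero.1 (h3 i₀)).resolve_left h0)
  have h5 : ∀ i, ν i = μ → ∃ b : ℝ, R i = b • x := fun i hi =>
    (hs _).1 fun j => by rw [hM, hi]
  obtain ⟨b, hb⟩ := h5 i₀ h4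
  have h6 : ∀ i k (p q : ℝ), R i = p • x → R k = q • x →
      p * q * ∑ j, x j * x j = if i = k then 1 else 0 := by
    intro i k p q hp hq
    rw [← hR, hp, hq, Finset.mul_sum]
    exact Finset.sum_congr rfl fun j _ => by simp only [Pi.smul_apply, smul_eq_mul]; ring
  have h7 := h6 i₀ i₀ b b hb hb
  rw [if_pos rfl] at h7
  refine ⟨i₀, b, fun h => by simp [h] at h7, hb, fun i hi h => ?_⟩
  obtain ⟨p, hp⟩ := h5 i (h.trans h4)
  have h8 := h6 i i p p hp hp
  have h9 := h6 i i₀ p b hp hb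
  rw [if_pos rfl] at h8
  rw [if_neg hi] at h9
  have : (p * p * ∑ j, x j * x j) * (b * b * ∑ j, x j * x j) =
      (p * b * ∑ j, x j * x j) ^ 2 := by ring
  rw [h7, h8, h9] at this
  norm_num at this

theorem split_lim {m : ℕ} (μ : ℕ → ℝ) (R L : Fin m → ℝ) (hR : ∑ j, R j * R j = 1)
    (h : ∀ j, ∃ cn : ℕ → ℝ, Tendsto cn atTop (𝓝 (R j)) ∧
      Tendsto (fun n => μ n * cn n) atTop (𝓝 (L j))) :
    ∃ ν, Tendsto μ atTop (𝓝 ν) ∧ ∀ j, L j = ν * R j := by
  obtain ⟨j, hj⟩ : ∃ j, R j ≠ 0 := by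
    by_contra h
    push Not at h
    simp [h] at hR
  obtain ⟨c, c1, c2⟩ := h j
  have h1 : Tendsto μ atTop (𝓝 (L j / R j)) := by
    refine (c2.div c1 hj).congr' ((c1.eventually_ne hj).mono fun n hn => ?_)
    simp only [Pi.div_apply]
    exact mul_div_cancel_right₀ _ hn
  refine ⟨_, h1, fun k => ?_⟩
  obtain ⟨d, d1, d2⟩ := h k
  exact tendsto_nhds_unique d2 (h1.mul d1)

theorem split_bdd {f : ℝ → ℝ} (hf : Continuous f) (hp : Function.Periodic f (2 * π)) :
    ∃ K : ℝ, 0 ≤ K ∧ ∀ x, |f x| ≤ K := by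
  obtain ⟨K, hK⟩ := (hp.isBounded_of_continuous (by positivity) hf).exists_norm_le
  exact ⟨K, (norm_nonneg _).trans (hK _ ⟨0, rfl⟩), fun x => hK _ ⟨x, rfl⟩⟩

theorem split_lip {δ : ℝ → ℝ} (hf : ContDiff ℝ ∞ δ) (hp : Function.Periodic δ (2 * π)) :
    ∃ K : ℝ, 0 ≤ K ∧ (∀ x, |δ x| ≤ K) ∧ ∀ x y, |δ x - δ y| ≤ K * |x - y| := by
  obtain ⟨K₁, a1, a2⟩ := split_bdd hf.continuous hp
  have hp' : Function.Periodic (deriv δ) (2 * π) := fun x => by
    rw [← deriv_comp_add_const]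
    exact congrArg (fun g => deriv g x) (funext hp)
  obtain ⟨K₂, b1, b2⟩ := split_bdd (hf.continuous_deriv (by exact_mod_cast le_top)) hp'
  have h := lipschitzWith_of_nnnorm_deriv_le (C := ⟨K₂, b1⟩)
    (hf.differentiable (by simp)) fun x => b2 x
  refine ⟨K₁ + K₂, by linarith, fun x => by linarith [a2 x], fun x y => ?_⟩
  have h1 : |δ x - δ y| ≤ K₂ * |x - y| := h.dist_le_mul x y
  nlinarith [abs_nonneg (x - y)]

theorem split_norm {m : ℕ} {ψ : Fin m → ℂ → ℝ} (hψ : ∀ i, MemLp (ψ i) 2 volume) {η : ℝ}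
    (hη : 0 < η) : ∃ ε > 0, ∀ d : Fin m → ℝ, ‖d‖ < ε →
      eLpNorm (fun x => ∑ i, d i * ψ i x) 2 volume < ENNReal.ofReal η := by
  have hC : ∑ i, eLpNorm (ψ i) 2 volume ≠ ⊤ :=
    ENNReal.sum_ne_top.2 fun i _ => (hψ i).2.ne
  obtain ⟨ε, e0, he⟩ := ENNReal.exists_nnreal_pos_mul_lt hC (ENNReal.ofReal_pos.2 hη).ne'
  refine ⟨ε, by exact_mod_cast e0, fun d hd => lt_of_le_of_lt ?_ he⟩
  have h1 : (fun x => ∑ i, d i * ψ i x) = ∑ i, d i • ψ i := by
    funext x
    simp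
  rw [h1, Finset.mul_sum]
  refine (eLpNorm_sum_le (fun i _ => ((hψ i).const_smul _).1) one_le_two).trans
    (Finset.sum_le_sum fun i _ => ?_)
  rw [eLpNorm_const_smul]
  refine mul_le_mul_left ?_ _
  have : ‖d i‖₊ ≤ ε := ((norm_le_pi_norm d i).trans hd.le :)
  exact ENNReal.coe_le_coe.2 this

theorem t_split (hclu : S_CLU) (hhad : S_HAD) (hla2 : S_LA2) (huc2 : S_UC2) (hrefl : S_REFL)
    (hhb1 : S_HB1) (htab : S_TAB) : S_SPLIT := by
  intro ρ c r lam f g η hρ hF hlam hf hf0 hη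
  have hsum := hhb1.2.2.2.2.2.2.2.2
  obtain ⟨m, ψ, γ, -, -, -, -, -, -, -, on0, we0, sp0, -⟩ := hclu ρ (fun _ => ρ) lam hρ
    (fun _ => hρ) (fun u hu => Eventually.of_forall fun _ _ => refl_mem_uniformity hu) hlam
  have l0 : ∀ i, MemLp (ψ i) 2 volume := fun i => (we0 i).1.1
  obtain ⟨u, hu⟩ := sp0 f g hf
  have u0 : u ≠ 0 := by
    rintro rfl
    refine hf0 ?_
    rw [← integral_zero ℂ ℝ (μ := volume)]
    exact integral_congr_ae (hu.mono fun x hx => by simp [hx])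
  choose w hw using fun i => hrefl _ c r lam _ _ (htab ρ hρ).1 hF hlam.le (we0 i)
  set ℓ : ℝ → Fin m → ℝ := fun σ i => fderiv ℝ (w i) (σ + c.im * Complex.I) Complex.I with hℓ
  have hd : ∀ σ ∈ Ioo (c.re - r) (c.re + r), ∀ i,
      DifferentiableAt ℝ (w i) ((σ : ℝ) + c.im * Complex.I) := fun σ hσ i =>
    ((hw i).1.1.contDiffAt (isOpen_ball.mem_nhds (split_mem hσ))).differentiableAt (by simp)
  have hc : ContinuousOn ℓ (Ioo (c.re - r) (c.re + r)) := by
    refine continuousOn_pi.2 fun i => ?_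
    have h1 := (hw i).1.1.continuousOn_fderiv_of_isOpen isOpen_ball (by simp)
    have h2 : Continuous fun σ : ℝ => (σ : ℂ) + c.im * Complex.I := by fun_prop
    exact (h1.comp h2.continuousOn fun σ hσ => split_mem hσ).clm_apply continuousOn_const
  obtain ⟨ε, ε0, hε⟩ := split_norm l0 (half_pos hη)
  obtain ⟨δ, x, μ, d1, d2, d3, xu, x0, hs⟩ := hla2 ρ c r m ℓ u ε hρ hF hc u0 ε0 (by
    intro v a b hab ha hb hv
    have h1 := huc2 ρ c r lam _ _ _ a b hρ hF hlam.le (hsum _ _ _ _ _ v we0)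
      (split_odd hw (a := v) (ae_eq_refl _)) hab ha hb fun σ hσ => by
        rw [split_fd (hd σ ⟨ha.trans hσ.1, hσ.2.trans hb⟩)]
        exact hv σ hσ
    funext j
    rw [← split_coef l0 on0 (c := v) (ae_eq_refl _) j]
    rw [Pi.zero_apply, ← integral_zero ℂ ℝ (μ := volume)]
    exact integral_congr_ae (h1.mono fun z hz => by simp only [hz, Pi.zero_apply, zero_mul]))
  obtain ⟨K, K0, K1, K2⟩ := split_lip d1 d2
  set t : ℕ → ℝ := fun n => 1 / ((n : ℝ) + 1) with ht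
  have t0 : ∀ n, 0 < t n := fun n => by positivity
  have tl : Tendsto t atTop (𝓝 0) := tendsto_one_div_add_atTop_nhds_zero_nat
  have tK : ∀ e > 0, ∀ᶠ n in atTop, t n * K < e := fun e he =>
    (tl.mul_const K).eventually (gt_mem_nhds (by simpa using he))
  have cp : ∀ n, CP fun x => ρ x + t n * δ x := fun n =>
    ⟨hρ.1.add (continuous_const.mul d1.continuous), fun x => by simp only [hρ.2 x, d2 x]⟩
  have ab : ∀ n x, |ρ x + t n * δ x - ρ x| ≤ t n * K := fun n x => by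
    rw [add_sub_cancel_left, abs_mul, abs_of_pos (t0 n)]
    exact mul_le_mul_of_nonneg_left (K1 x) (t0 n).le
  obtain ⟨m', φ, γ', δ', s, l, y, g', δ0, sm, on1, we1, sp1, on2, we2, ll, yl, sp2⟩ :=
    hclu ρ (fun n x => ρ x + t n * δ x) lam hρ cp (Metric.tendstoUniformly_iff.2 fun e he =>
      (tK e he).mono fun n hn x => by
        rw [dist_comm, Real.dist_eq]
        exact (ab n x).trans_lt hn) hlam
  have l1 : ∀ i, MemLp (φ i) 2 volume := fun i => (we1 i).1.1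
  choose R hR using fun i => sp0 _ _ (we1 i)
  have R1 : ∀ i j, ∫ z, ψ j z * φ i z = R i j := fun i j => by
    rw [← split_coef l0 on0 (hR i) j]
    simp only [mul_comm]
  have R2 : ∀ i k, ∑ j, R i j * R k j = if i = k then 1 else 0 := fun i k => by
    rw [← on1, split_int l0 (l1 k) (hR i)]
    simp only [R1]
  set M : Fin m → Fin m → ℝ := fun i j => c.im * ∫ σ in (c.re - r / 2)..(c.re + r / 2),
    δ (σ + c.im * Complex.I : ℂ).arg * (ℓ σ i * ℓ σ j) with hM
  have sub : uIcc (c.re - r / 2) (c.re + r / 2) ⊆ Ioo (c.re - r) (c.re + r) := by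
    rw [uIcc_of_le (by linarith [hF.1])]
    exact fun σ hσ => ⟨by linarith [hσ.1, hF.1], by linarith [hσ.2, hF.1]⟩
  have ca : Continuous fun σ : ℝ => δ (σ + c.im * Complex.I : ℂ).arg := by
    refine d1.continuous.comp (continuous_iff_continuousAt.2 fun σ => ?_)
    have h2 : Continuous fun σ : ℝ => (σ : ℂ) + c.im * Complex.I := by fun_prop
    refine ContinuousAt.comp (f := fun σ : ℝ => (σ : ℂ) + c.im * Complex.I)
      (Complex.continuousAt_arg (Or.inr ?_)) h2.continuousAt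
    have := hF.1
    have := hF.2.1
    simp
    linarith
  have ii : ∀ i j, IntervalIntegrable (fun σ : ℝ => δ (σ + c.im * Complex.I : ℂ).arg *
      (ℓ σ i * ℓ σ j)) volume (c.re - r / 2) (c.re + r / 2) := fun i j =>
    (ca.continuousOn.mul (((continuousOn_pi.1 hc i).mul
      (continuousOn_pi.1 hc j)).mono sub)).intervalIntegrable
  have had : ∀ i, ∃ ν, Tendsto (fun n => (l n i - lam) / t (s n)) atTop (𝓝 ν) ∧
      ∀ j, ∑ k, M j k * R i k = ν * R i j := by
    intro i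
    refine split_lim _ (R i) _ (by simpa using R2 i i) fun j => ?_
    obtain ⟨cn, c1, c2⟩ := hhad ρ c r lam _ _ _ _ _ _ δ (fun n => t (s n)) (fun n => l n i)
      (fun n => y n i) (fun n => g' n i) hρ hF (we0 j) (hw j) (we1 i) (split_odd hw (hR i))
      d1 d2 d3 (fun n => (t0 _).ne') (tl.comp sm.tendsto_atTop) (ll i) (fun n => we2 n i) (yl i)
    refine ⟨cn, R1 i j ▸ c1, ?_⟩
    convert c2 using 2
    simp only [hM, mul_assoc, ← Finset.mul_sum, ← intervalIntegral.integral_mul_const]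
    rw [← intervalIntegral.integral_finset_sum fun k _ => by
      simpa only [mul_assoc] using (ii j k).mul_const (R i k)]
    congr 1
    refine intervalIntegral.integral_congr fun σ hσ => ?_
    simp only [split_fd (hd σ (sub hσ)), Finset.mul_sum, hℓ]
    exact Finset.sum_congr rfl fun k _ => by ring
  choose ν hν hM' using had
  obtain ⟨a, ha⟩ := sp1 _ _ (hsum _ _ _ _ _ x we0)
  obtain ⟨i₀, b, b0, hb, hne⟩ := split_la R M ν x μ a R2 hM' x0 hs fun j => by
    rw [← split_coef l0 on0 (c := x) (ae_eq_refl _) j, split_int l1 (l0 j) ha]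
    refine Finset.sum_congr rfl fun i _ => ?_
    rw [← R1]
    simp only [mul_comm]
  have e1 : ∀ᶠ n in atTop, ∀ i, i ≠ i₀ → l n i ≠ l n i₀ := by
    refine eventually_all.2 fun i => ?_
    by_cases hi : i = i₀
    · exact Eventually.of_forall fun _ h => absurd hi h
    · refine (((hν i).sub (hν i₀)).eventually_ne (sub_ne_zero.2 (hne i hi))).mono
        fun n hn _ h => hn ?_
      simp only [h, sub_self]
  have e2 : ∀ e > 0, ∀ᶠ n in atTop, |l n i₀ - lam| < e := fun e he =>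
    (Metric.tendsto_nhds.1 (ll i₀) e he).mono fun n hn => by rwa [Real.dist_eq] at hn
  have e3 : ∀ᶠ n in atTop, ‖b⁻¹‖ₑ * eLpNorm (y n i₀ - φ i₀) 2 volume < ENNReal.ofReal (η / 2) := by
    have := ENNReal.Tendsto.const_mul (a := ‖b⁻¹‖ₑ) (yl i₀) (Or.inr enorm_ne_top)
    rw [mul_zero] at this
    exact this.eventually (gt_mem_nhds (ENNReal.ofReal_pos.2 (half_pos hη)))
  obtain ⟨n, ⟨⟨⟨n1, n2⟩, n3⟩, n4⟩, n5⟩ := ((((e1.and (e2 _ δ0)).and (e2 _ hη)).and e3).and
    (sm.tendsto_atTop.eventually (tK η hη))).exists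
  refine ⟨_, l n i₀, fun z => b⁻¹ * y n i₀ z, fun z => (b⁻¹ : ℝ) * g' n i₀ z, cp (s n),
    ⟨fun x => (ab _ x).trans n5.le, fun x x' => ?_⟩, ⟨?_, ?_, fun f' g'' h => ?_⟩, n3, ?_⟩
  · rw [add_sub_cancel_left, add_sub_cancel_left, ← mul_sub, abs_mul, abs_of_pos (t0 _)]
    refine (mul_le_mul_of_nonneg_left (K2 x x') (t0 _).le).trans ?_
    rw [← mul_assoc]
    exact mul_le_mul_of_nonneg_right n5.le (abs_nonneg _)
  · simpa only [Fin.sum_univ_one] using hsum _ _ 1 (fun _ => y n i₀) (fun _ => g' n i₀)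
      (fun _ => b⁻¹) fun _ => we2 n i₀
  · have h1 := on2 n i₀ i₀
    rw [if_pos rfl] at h1
    have h2 : ∀ z, (b⁻¹ * y n i₀ z) ^ 2 = b⁻¹ ^ 2 * (y n i₀ z * y n i₀ z) := fun z => by ring
    simp only [h2, integral_const_mul, h1, mul_one]
    exact pow_ne_zero _ (inv_ne_zero b0)
  · obtain ⟨q, q1, q2⟩ := sp2 n _ f' g'' n2 h
    refine ⟨q i₀ * b, q2.mono fun z hz => ?_⟩
    simp only [hz]
    rw [Finset.sum_eq_single i₀ (fun i _ hi => by rw [q1 i (n1 i hi), zero_mul]) (by simp)]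
    field_simp
  · have h1 : ((fun z => b⁻¹ * y n i₀ z) - f) =ᵐ[volume]
        b⁻¹ • (y n i₀ - φ i₀) + fun z => ∑ i, (x - u) i * ψ i z := by
      filter_upwards [hu, hR i₀] with z z1 z2
      simp only [Pi.sub_apply, Pi.add_apply, Pi.smul_apply, smul_eq_mul, z1, z2, hb, sub_mul,
        Finset.sum_sub_distrib, mul_assoc, ← Finset.mul_sum]
      field_simp
      ring
    rw [eLpNorm_congr_ae h1]
    refine (eLpNorm_add_le (((we2 n i₀).1.1.sub (l1 i₀)).const_smul _).1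
      (memLp_finset_sum _ fun i _ => (l0 i).const_mul _).1 one_le_two).trans_lt ?_
    rw [eLpNorm_const_smul, ← add_halves η, ENNReal.ofReal_add (half_pos hη).le (half_pos hη).le]
    exact ENNReal.add_lt_add n4 (hε _ xu)

end Pool.Agent.P.MP_6b977f_mp.EB
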