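import Pool.Agent.P.MP_6b977f_mp.EB.IfS

/-! Simple eigenvalues are stable under uniform perturbation of the table. -/

namespace Pool.Agent.P.MP_6b977f_mp.EB

open Real MeasureTheory Filter Topology Laplacian Set Metric
open scoped ContDiff BoundedContinuousFunction ComplexConjugate Pointwise ENNReal

theorem t_stab (hclu : S_CLU) (hhb1 : S_HB1) : S_STAB := by
  intro ρ lam f g ε hρ hlam hs hε
  by_contra hcon
  push Not at hcon
  choose σ hσ hd hbad using fun n : ℕ => hcon (1 / ((n : ℝ) + 1)) (by positivity)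
  have hu : TendstoUniformly σ ρ atTop := by
    rw [Metric.tendstoUniformly_iff]
    intro η hη
    filter_upwards [(tendsto_one_div_add_atTop_nhds_zero_nat (𝕜 := ℝ)).eventually
      (gt_mem_nhds hη)] with n hn x
    rw [dist_comm, Real.dist_eq]
    exact (hd n x).trans_lt hn
  obtain ⟨m, ψ, γ, δ, s, l, y, g', hδ, -, hon, hwe, hsp, hon', hwe', hl, hy, hlast⟩ :=
    hclu ρ σ lam hρ hσ hu hlam
  obtain ⟨c, hc⟩ := hsp f g hs.1
  choose a ha using fun i => hs.2.2 _ _ (hwe i)
  have hF : ∀ i j, a i * a j * ∫ x, f x ^ 2 = if i = j then 1 else 0 := fun i j => by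
    rw [← hon i j, ← integral_const_mul]
    refine integral_congr_ae ?_
    filter_upwards [ha i, ha j] with x h1 h2
    rw [h1, h2]
    ring
  have ha0 : ∀ i, a i ≠ 0 := fun i h => by simpa [h] using hF i i
  have hm : m = 1 := by
    rcases isEmpty_or_nonempty (Fin m) with h | ⟨⟨i⟩⟩
    · refine (hs.2.1 ?_).elim
      rw [integral_congr_ae (g := fun _ => 0)]
      · simp
      · filter_upwards [hc] with x hx
        simp [hx]
    · have := Fintype.card_eq_one_iff.2 ⟨i, fun j => by
        by_contra h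
        have := hF j i
        rw [if_neg h] at this
        exact mul_ne_zero (mul_ne_zero (ha0 j) (ha0 i)) hs.2.1 this⟩
      simpa using this
  subst hm
  have h1 : Tendsto (fun n => ‖(a 0)⁻¹‖ₑ * eLpNorm (y n 0 - ψ 0) 2 volume) atTop (𝓝 0) := by
    simpa using ENNReal.Tendsto.const_mul (a := ‖(a 0)⁻¹‖ₑ) (hy 0) (Or.inr enorm_ne_top)
  obtain ⟨n, ⟨h2, h3⟩, h4⟩ := ((((hl 0).eventually (Metric.ball_mem_nhds lam hδ)).and
    ((hl 0).eventually (Metric.ball_mem_nhds lam hε))).and
    (h1.eventually (gt_mem_nhds (ENNReal.ofReal_pos.2 hε)))).exists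
  rw [Real.dist_eq] at h2 h3
  have h5 := hhb1.2.2.2.2.2.2.2.2 (table (σ (s n))) (l n 0) 1 (y n) (g' n) (fun _ => (a 0)⁻¹)
    fun i => by rw [Subsingleton.elim i 0]; exact hwe' n 0
  simp only [Fin.sum_univ_one] at h5
  refine (hbad (s n) (l n 0) _ _ ⟨h5, ?_, fun f' g'' hw => ?_⟩ h3).not_gt ?_
  · have := hon' n 0 0
    simp only [if_true, ← sq] at this
    simp only [mul_pow, integral_const_mul, this]
    simp [ha0]
  · obtain ⟨b, -, hb⟩ := hlast n (l n 0) f' g'' h2 hw
    refine ⟨b 0 * a 0, ?_⟩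
    filter_upwards [hb] with x hx
    rw [hx, Fin.sum_univ_one]
    field_simp [ha0 0]
  · refine lt_of_eq_of_lt ?_ h4
    rw [← eLpNorm_const_smul]
    refine eLpNorm_congr_ae ?_
    filter_upwards [ha 0] with x hx
    simp only [Pi.sub_apply, Pi.smul_apply, smul_eq_mul, hx]
    field_simp [ha0 0]

end Pool.Agent.P.MP_6b977f_mp.EB
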