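import Pool.Agent.P.MP_6b977f_mp.EB.IfS

/-! Continuity of tables in measure. -/

namespace Pool.Agent.P.MP_6b977f_mp.EB

open Real MeasureTheory Filter Topology Laplacian Set Metric
open scoped ContDiff BoundedContinuousFunction ComplexConjugate Pointwise ENNReal

theorem tab2_mono {ρ σ : ℝ → ℝ} (h : ∀ x, ρ x ≤ σ x) : table ρ ⊆ table σ := fun _ hz =>
  lt_of_lt_of_le hz (Real.exp_le_exp.2 (h _))

theorem tab2_cp {ρ : ℝ → ℝ} (h : CP ρ) (a : ℝ) : CP fun x => ρ x + a :=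
  ⟨h.1.add continuous_const, fun x => by simp only [h.2 x]⟩

theorem tab2_key (htab : S_TAB) {ρ : ℝ → ℝ} (hρ : CP ρ) {ε : ℝ≥0∞} (hε : 0 < ε) :
    ∃ d > 0, volume (table (fun x => ρ x + d) \ table fun x => ρ x + -d) < ε := by
  obtain ⟨-, -, -, -, -, -, -, -, hs, -, hV⟩ := htab ρ hρ
  set v := (volume (table ρ)).toReal with hv
  have v0 : 0 ≤ v := ENNReal.toReal_nonneg
  have h1 : ∀ a : ℝ, volume (table fun x => ρ x + a) = ENNReal.ofReal (Real.exp a ^ 2 * v) := by
    intro a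
    rw [hs, Measure.addHaar_smul, Complex.finrank_real_complex, abs_of_nonneg (by positivity),
      ENNReal.ofReal_mul (by positivity), hv, ENNReal.ofReal_toReal hV.ne]
  have h2 : Tendsto (fun d : ℝ => ENNReal.ofReal (Real.exp d ^ 2 * v - Real.exp (-d) ^ 2 * v))
      (𝓝 0) (𝓝 (ENNReal.ofReal (Real.exp 0 ^ 2 * v - Real.exp (-0) ^ 2 * v))) :=
    ENNReal.tendsto_ofReal (Continuous.tendsto (by fun_prop) 0)
  rw [neg_zero, sub_self, ENNReal.ofReal_zero] at h2
  obtain ⟨d, h3, d0⟩ := (((h2.eventually (gt_mem_nhds hε)).filter_mono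
    (nhdsWithin_le_nhds (s := Ioi 0))).and self_mem_nhdsWithin).exists
  have d0 : 0 < d := d0
  refine ⟨d, d0, ?_⟩
  rw [measure_diff (tab2_mono fun x => by linarith)
    (htab _ (tab2_cp hρ _)).1.measurableSet.nullMeasurableSet
    (htab _ (tab2_cp hρ _)).2.2.2.2.2.2.2.2.2.2.ne, h1, h1, ← ENNReal.ofReal_sub _ (by positivity)]
  exact h3

theorem t_tab2 (htab : S_TAB) : S_TAB2 := by
  intro ρ hρ
  refine ⟨?_, fun ε hε => ?_, fun K hK hKT => ?_⟩
  · by_contra h
    obtain ⟨d, d0, hd⟩ := tab2_key htab hρ (pos_iff_ne_zero.2 h)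
    refine hd.not_ge (measure_mono ?_)
    rw [(htab ρ hρ).2.2.2.2.1]
    rintro _ ⟨φ, rfl⟩
    refine ⟨((htab _ (tab2_cp hρ d)).2.2.2.2.2.2.1 _ φ (Real.exp_pos _).le).2
      (Real.exp_lt_exp.2 (by linarith)), fun h' => ?_⟩
    have := Real.exp_lt_exp.1
      (((htab _ (tab2_cp hρ (-d))).2.2.2.2.2.2.1 _ φ (Real.exp_pos _).le).1 h')
    linarith
  · obtain ⟨d, d0, hd⟩ := tab2_key htab hρ hε
    refine ⟨d, d0, fun σ _ h => lt_of_le_of_lt (measure_mono ?_) hd⟩
    rintro z (⟨h1, h2⟩ | ⟨h1, h2⟩)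
    · exact ⟨tab2_mono (fun x => by linarith [(abs_le.1 (h x)).2]) h1,
        fun h' => h2 (tab2_mono (fun x => by linarith) h')⟩
    · exact ⟨tab2_mono (fun x => by linarith) h1,
        fun h' => h2 (tab2_mono (fun x => by linarith [(abs_le.1 (h x)).1]) h')⟩
  · obtain ⟨n, hn⟩ := hK.elim_directed_cover
      (fun n : ℕ => table fun x => ρ x + -(1 / ((n : ℝ) + 1)))
      (fun n => (htab _ (tab2_cp hρ _)).1) (fun z hz => by
        have h1 : Tendsto (fun n : ℕ => Real.exp (ρ z.arg + -(1 / ((n : ℝ) + 1)))) atTop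
            (𝓝 (Real.exp (ρ z.arg + -0))) := Real.continuous_exp.continuousAt.tendsto.comp
          (tendsto_one_div_add_atTop_nhds_zero_nat.neg.const_add _)
        rw [neg_zero, add_zero] at h1
        exact mem_iUnion.2 (h1.eventually (lt_mem_nhds (hKT hz))).exists)
      (Monotone.directed_le fun m n hmn => tab2_mono fun x => by
        have := Nat.one_div_le_one_div (α := ℝ) hmn
        linarith)
    exact ⟨1 / ((n : ℝ) + 1), by positivity, fun σ h =>
      hn.trans (tab2_mono fun x => by linarith [(abs_le.1 (h x)).1])⟩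

end Pool.Agent.P.MP_6b977f_mp.EB
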