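import Pool.Agent.P.MP_6b977f_mp.EB.IfS

/-! Tightness of laws on the space of continuous functions of the plane. -/

namespace Pool.Agent.P.MP_6b977f_mp.EB

open Real MeasureTheory Filter Topology Laplacian Set Metric
open scoped ContDiff BoundedContinuousFunction ComplexConjugate Pointwise ENNReal

/-- bounded and Lipschitz on the disc of radius `R` -/
def tight0_A (R : ℕ) (M : ℝ) : Set C(ℂ, ℝ) := {F | (∀ x, ‖x‖ ≤ R → |F x| ≤ M) ∧
  ∀ x y, ‖x‖ ≤ R → ‖y‖ ≤ R → |F x - F y| ≤ M * ‖x - y‖}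

theorem tight0_compact (M : ℕ → ℝ) (K : ℕ → Set C(ℂ, ℝ)) (hK : ∀ R, IsCompact (K R)) :
    IsCompact (closure (⋂ R, tight0_A R (M R) ∪ K R)) := by
  have : T2Space (UniformOnFun ℂ ℝ {K | IsCompact K}) := UniformOnFun.t2Space_of_covering
    (eq_univ_of_forall fun x => ⟨{x}, isCompact_singleton, rfl⟩)
  refine ArzelaAscoli.isCompact_closure_of_isClosedEmbedding (𝔖 := {K : Set ℂ | IsCompact K})
    (F := fun (F : C(ℂ, ℝ)) (x : ℂ) => F x) (fun _ h => h)
    ContinuousMap.isUniformEmbedding_toUniformOnFunIsCompact.isClosedEmbedding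
    (fun _ _ x _ => EquicontinuousAt.equicontinuousWithinAt ?_ _) fun _ _ x _ => ?_
  · obtain ⟨R, hR⟩ := exists_nat_gt ‖x‖
    refine Metric.equicontinuousAt_iff_right.2 fun ε hε => ?_
    have h1 : ∀ᶠ y in 𝓝 x, ∀ F ∈ K R, dist (F x) (F y) < ε := by
      refine (hK R).eventually_forall_of_forall_eventually fun F _ => ?_
      have : Continuous fun z : ℂ × C(ℂ, ℝ) => dist (z.2 x) (z.2 z.1) := by fun_prop
      exact this.continuousAt.eventually_lt continuousAt_const (by simpa using hε)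
    have h2 : ∀ᶠ y in 𝓝 x, ‖y‖ < R :=
      continuous_norm.continuousAt.eventually_lt continuousAt_const hR
    have h3 : ∀ᶠ y in 𝓝 x, M R * ‖x - y‖ < ε := by
      have : Continuous fun y : ℂ => M R * ‖x - y‖ := by fun_prop
      exact this.continuousAt.eventually_lt continuousAt_const (by simpa using hε)
    filter_upwards [h1, h2, h3] with y h1 h2 h3 F
    rcases mem_iInter.1 F.2 R with h | h
    · exact (h.2 x y hR.le h2.le).trans_lt h3
    · exact h1 F h
  · obtain ⟨R, hR⟩ := exists_nat_gt ‖x‖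
    refine ⟨Icc (-M R) (M R) ∪ (fun F : C(ℂ, ℝ) => F x) '' K R,
      isCompact_Icc.union ((hK R).image (by fun_prop)), fun F hF => ?_⟩
    rcases mem_iInter.1 hF R with h | h
    · exact Or.inl (abs_le.1 (h.1 x hR.le))
    · exact Or.inr ⟨F, h, rfl⟩

theorem t_tight0 : S_TIGHT0 := by
  intro m hm H s
  borelize C(ℂ, ℝ)
  have h1 : ∀ (n : ℕ) (ε : ℝ≥0∞), 0 < ε → ∃ K, IsCompact K ∧ m n Kᶜ ≤ ε := fun n ε hε => by
    obtain ⟨K, hK, h⟩ := isTightMeasureSet_iff_exists_isCompact_measure_compl_le.1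
      (isTightMeasureSet_singleton (μ := m n)) ε hε
    exact ⟨K, hK, h _ rfl⟩
  have h2 : ∀ (R : ℕ) (ε : ℝ≥0∞), 0 < ε → ∃ (M : ℝ) (K : Set C(ℂ, ℝ)), IsCompact K ∧
      ∀ n, m n (tight0_A R M ∪ K)ᶜ ≤ ε := fun R ε hε => by
    obtain ⟨M, hM⟩ := H R ε hε
    obtain ⟨N, hN⟩ := eventually_atTop.1 hM
    choose K hK hK' using fun n => h1 n ε hε
    refine ⟨M, ⋃ n ∈ Finset.range N, K n, (Finset.range N).isCompact_biUnion fun n _ => hK n,
      fun n => ?_⟩
    rcases le_or_gt N n with h | h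
    · exact (measure_mono (compl_subset_compl.2 subset_union_left)).trans (hN n h)
    · refine (measure_mono (compl_subset_compl.2 (subset_union_of_subset_right ?_ _))).trans (hK' n)
      exact subset_biUnion_of_mem (u := K) (Finset.mem_range.2 h)
  set P : ℕ → ProbabilityMeasure C(ℂ, ℝ) := fun n => ⟨m n, hm n⟩ with hP
  have h3 : IsCompact (closure (range P)) := by
    refine isCompact_closure_of_isTightMeasureSet
      (isTightMeasureSet_iff_exists_isCompact_measure_compl_le.2 fun ε hε => ?_)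
    obtain ⟨δ, hδ, hs⟩ := ENNReal.exists_pos_sum_of_countable hε.ne' ℕ
    choose M K hK hM using fun R => h2 R (δ R) (by exact_mod_cast hδ R)
    refine ⟨_, tight0_compact M K hK, ?_⟩
    rintro _ ⟨_, ⟨n, rfl⟩, rfl⟩
    refine (measure_mono (compl_subset_compl.2 subset_closure)).trans ?_
    rw [compl_iInter]
    exact (measure_iUnion_le _).trans ((ENNReal.tsum_le_tsum fun R => hM R n).trans hs.le)
  obtain ⟨μ, -, t, ht, h⟩ := h3.tendsto_subseq (x := fun n => P (s n))
    fun n => subset_closure ⟨s n, rfl⟩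
  exact ⟨t, μ, ht, μ.2, ProbabilityMeasure.tendsto_iff_forall_integral_tendsto.1 h⟩

end Pool.Agent.P.MP_6b977f_mp.EB
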