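import Pool.Agent.P.MP_6b977f_mp.EB.IfS

/-! Uniform local bounds for eigenfunctions off a small set of base points. -/

namespace Pool.Agent.P.MP_6b977f_mp.EB

open Real MeasureTheory Filter Topology Laplacian Set Metric
open scoped ContDiff BoundedContinuousFunction ComplexConjugate Pointwise ENNReal

theorem tight1_markov (v : ℂ → ℝ≥0∞) (hv : Measurable v) (r : ℝ) (a : ℝ≥0∞) :
    MeasurableSet {z : ℂ | a ≤ ∫⁻ y in ball z r, v y} ∧
      a * volume {z : ℂ | a ≤ ∫⁻ y in ball z r, v y} ≤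
        ENNReal.ofReal r ^ 2 * NNReal.pi * ∫⁻ y, v y := by
  let H : ℂ → ℂ → ℝ≥0∞ := fun z y => {p : ℂ × ℂ | dist p.2 p.1 < r}.indicator (fun p => v p.2) (z, y)
  have hH : Measurable (Function.uncurry H) :=
    (hv.comp measurable_snd).indicator
      (isOpen_lt (continuous_snd.dist continuous_fst) continuous_const).measurableSet
  have h1 : ∀ z, ∫⁻ y in ball z r, v y = ∫⁻ y, H z y := fun z => by
    rw [← lintegral_indicator measurableSet_ball]
    rfl
  have h2 : Measurable fun z => ∫⁻ y in ball z r, v y := by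
    simp_rw [h1]
    exact hH.lintegral_prod_right
  refine ⟨measurableSet_le measurable_const h2, (mul_meas_ge_le_lintegral h2 a).trans ?_⟩
  simp_rw [h1]
  rw [lintegral_lintegral_swap hH.aemeasurable, ← lintegral_const_mul _ hv]
  refine le_of_eq (lintegral_congr fun y => ?_)
  have h3 : (fun z => H z y) = (ball y r).indicator fun _ => v y := by
    funext z
    simp only [H, indicator, mem_ofPred_eq, mem_ball, dist_comm]
  rw [h3, lintegral_indicator_const measurableSet_ball, Complex.volume_ball, mul_comm]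

theorem tight1_ball {Ω : Set ℂ} (hΩ : IsOpen Ω) {z : ℂ} (hz : z ∈ Ω) {t : ℝ}
    (ht : t ≤ infDist z (frontier Ω)) : ball z t ⊆ Ω := by
  rcases le_or_gt t 0 with h0 | h0
  · rw [ball_eq_empty.mpr h0]; exact empty_subset _
  refine (convex_ball z t).isPreconnected.subset_of_closure_inter_subset hΩ
    ⟨z, mem_ball_self h0, hz⟩ ?_
  rintro w ⟨hw1, hw2⟩
  by_contra hw
  have h1 : w ∈ frontier Ω := by rw [hΩ.frontier_eq]; exact ⟨hw1, hw⟩
  have h2 := infDist_le_dist_of_mem (x := z) h1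
  rw [mem_ball, dist_comm] at hw2
  linarith

theorem tight1_layer {Ω : Set ℂ} (hΩ : IsOpen Ω) (hb : Bornology.IsBounded Ω) (hne : Ω.Nonempty)
    (ε : ℝ≥0∞) (hε : 0 < ε) : ∃ t > 0, volume {z ∈ Ω | infDist z (frontier Ω) ≤ t} ≤ ε := by
  have hfr : (frontier Ω).Nonempty := nonempty_frontier_iff.mpr ⟨hne, fun h => by
    rw [h] at hb; exact NormedSpace.unbounded_univ ℝ ℂ hb⟩
  let A : ℕ → Set ℂ := fun k => {z ∈ Ω | infDist z (frontier Ω) ≤ 1 / ((k : ℝ) + 1)}
  have hA : ∀ k, MeasurableSet (A k) := fun k => hΩ.measurableSet.inter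
    (isClosed_le (continuous_infDist_pt _) continuous_const).measurableSet
  have hanti : Antitone A := fun i j hij z hz => ⟨hz.1, hz.2.trans (Nat.one_div_le_one_div hij)⟩
  have h1 := tendsto_measure_iInter_atTop (μ := volume) (fun k => (hA k).nullMeasurableSet) hanti
    ⟨0, ((measure_mono (sep_subset _ _)).trans_lt hb.measure_lt_top).ne⟩
  have h2 : ⋂ k, A k = ∅ := by
    rw [eq_empty_iff_forall_notMem]
    intro z hz
    rw [mem_iInter] at hz
    have h3 : infDist z (frontier Ω) ≤ 0 :=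
      ge_of_tendsto' tendsto_one_div_add_atTop_nhds_zero_nat fun k => (hz k).2
    have h4 : z ∈ frontier Ω := (isClosed_frontier.mem_iff_infDist_zero hfr).mpr
      (le_antisymm h3 infDist_nonneg)
    rw [hΩ.frontier_eq] at h4
    exact h4.2 (hz 0).1
  rw [h2, measure_empty] at h1
  obtain ⟨k, hk⟩ := ((ENNReal.tendsto_nhds_zero.1 h1) ε hε).exists
  exact ⟨1 / ((k : ℝ) + 1), by positivity, hk⟩

theorem t_tight1 (hint : S_INT) : S_TIGHT1 := by
  classical
  intro Ω χ R ε hΩ hb hχ hε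
  rcases Ω.eq_empty_or_nonempty with rfl | hne
  · exact ⟨0, 0, fun lam u _ _ => ⟨∅, MeasurableSet.empty, by simp, fun z hz => hz.1.elim⟩⟩
  obtain ⟨C, hC, hI⟩ := hint
  obtain ⟨-, -, ⟨c, hc, hχ1⟩, -⟩ := hχ
  have hε2 : 0 < ε / 2 := ENNReal.half_pos hε.ne'
  obtain ⟨t, ht, hA1⟩ := tight1_layer hΩ hb hne _ hε2
  obtain ⟨δ, hδ0, hδ1, hδ2⟩ := ENNReal.lt_iff_exists_real_btwn.mp hε2
  rw [ENNReal.ofReal_pos] at hδ1
  set V := volume.real Ω with hV
  have hVpos : 0 < V := ENNReal.toReal_pos (hΩ.measure_pos volume hne).ne' hb.measure_lt_top.ne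
  set M' : ℝ := π * (R + 2) ^ 2 * V / δ with hM'
  have hM'0 : 0 < M' := by positivity
  set S : ℝ := (R + 2) * (1 + 1 / c) / t with hS
  have hS0 : 0 < S := by positivity
  refine ⟨√(C * M'), S ^ 2, fun lam u hlam hu => ?_⟩
  have hl0 : 0 < lam := lt_of_lt_of_le (by positivity) hlam
  set s := √lam with hs
  have hs0 : 0 < s := Real.sqrt_pos.mpr hl0
  have hss : s ^ 2 = lam := Real.sq_sqrt hl0.le
  have hSs : S ≤ s := Real.le_sqrt_of_sq_le hlam
  have hst : (R + 2) * (1 + 1 / c) ≤ s * t := by rwa [hS, div_le_iff₀ ht] at hSs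
  have hR0 : (0 : ℝ) ≤ R := Nat.cast_nonneg R
  have hint2 : IntegrableOn (fun x => u x ^ 2) Ω :=
    Integrable.of_integral_ne_zero (by rw [hu.2.2.2]; exact hVpos.ne')
  let v : ℂ → ℝ≥0∞ := fun y => ENNReal.ofReal (Ω.indicator u y ^ 2)
  have hv : Measurable v := by
    have : Measurable (Ω.indicator u) := by
      rw [← piecewise_eq_indicator]
      exact hu.1.continuousOn.measurable_piecewise continuousOn_const hΩ.measurableSet
    exact (this.pow_const 2).ennreal_ofReal
  have hvΩ : ∀ B ⊆ Ω, MeasurableSet B →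
      ∫⁻ y in B, v y = ENNReal.ofReal (∫ y in B, u y ^ 2) := fun B hB hBm => by
    rw [ofReal_integral_eq_lintegral_ofReal (hint2.mono_set hB)
      (Eventually.of_forall fun x => sq_nonneg _)]
    refine setLIntegral_congr_fun hBm fun y hy => ?_
    simp only [v, indicator_of_mem (hB hy)]
  have hvt : ∫⁻ y, v y = ENNReal.ofReal V := by
    rw [hV, ← hu.2.2.2, ← hvΩ Ω Subset.rfl hΩ.measurableSet, ← lintegral_indicator hΩ.measurableSet]
    refine lintegral_congr fun y => ?_
    by_cases hy : y ∈ Ω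
    · rw [indicator_of_mem hy]
    · simp [v, indicator_of_notMem hy]
  obtain ⟨m2, b2⟩ := tight1_markov v hv ((R + 2) / s) (ENNReal.ofReal (M' / lam))
  refine ⟨{z ∈ Ω | infDist z (frontier Ω) ≤ t} ∪
    {z : ℂ | ENNReal.ofReal (M' / lam) ≤ ∫⁻ y in ball z ((R + 2) / s), v y},
    (hΩ.measurableSet.inter
      (isClosed_le (continuous_infDist_pt _) continuous_const).measurableSet).union m2, ?_, ?_⟩
  · refine (measure_union_le _ _).trans ?_
    rw [← ENNReal.add_halves ε]
    refine add_le_add hA1 (le_trans ?_ hδ2.le)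
    have h1 : ENNReal.ofReal ((R + 2) / s) ^ 2 * NNReal.pi * ∫⁻ y, v y =
        ENNReal.ofReal (M' / lam) * ENNReal.ofReal δ := by
      rw [hvt, ← ENNReal.ofReal_pow (by positivity), ← ENNReal.ofReal_coe_nnreal,
        ← ENNReal.ofReal_mul (by positivity), ← ENNReal.ofReal_mul (by positivity),
        ← ENNReal.ofReal_mul (by positivity), NNReal.coe_real_pi, hM', ← hss]
      congr 1
      field_simp
    rw [h1] at b2
    exact (ENNReal.mul_le_mul_iff_right (by simp; positivity) ENNReal.ofReal_ne_top).mp b2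
  rintro z ⟨hz, hzA⟩
  simp only [mem_union, mem_ofPred_eq, not_or, not_and, not_le] at hzA
  have hd := hzA.1 hz
  have hc1 : 0 < 1 / c := by positivity
  have hrt : (R + 2) / s ≤ t := by
    rw [div_le_iff₀ hs0]; nlinarith
  have hball : ball z ((R + 2) / s) ⊆ Ω := tight1_ball hΩ hz (hrt.trans hd.le)
  have hmem : ∀ x : ℂ, ‖x‖ ≤ R → z + x / s ∈ closedBall z (R / s) := fun x hx => by
    rw [mem_closedBall, dist_self_add_left, norm_div, Complex.norm_real, Real.norm_of_nonneg hs0.le]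
    gcongr
  have hsub : ∀ p ∈ closedBall z (R / s), ball p (1 / s) ⊆ ball z ((R + 2) / s) := fun p hp => by
    refine ball_subset_ball' ?_
    rw [mem_closedBall] at hp
    have : (R + 2) / s = 1 / s + R / s + 1 / s := by ring
    have h2 : 0 < 1 / s := by positivity
    linarith
  have hpΩ : ∀ p ∈ closedBall z (R / s), p ∈ Ω := fun p hp =>
    hball (hsub p hp (mem_ball_self (by positivity)))
  have hloc : ∀ x : ℂ, ‖x‖ ≤ R → loc χ Ω lam u z x = u (z + x / s) := fun x hx => by
    rw [loc, ← hs, hχ1, mul_one]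
    rw [div_le_iff₀ (mul_pos hs0 (ht.trans hd))]
    have h1 : c * ((R + 2) * (1 + 1 / c)) = (R + 2) * c + (R + 2) := by field_simp
    have h2 : c * (s * t) ≤ c * (s * infDist z (frontier Ω)) := by gcongr
    have h3 : c * ((R + 2) * (1 + 1 / c)) ≤ c * (s * t) := by gcongr
    nlinarith
  have hest : ∀ p ∈ closedBall z (R / s),
      |u p| ≤ √(C * M') ∧ ‖fderiv ℝ u p‖ ≤ s * √(C * M') := fun p hp => by
    have hB : ball p (1 / s) ⊆ Ω := (hsub p hp).trans hball
    have h1 := (hI lam (1 / s) p u hl0.le (by positivity) (by rw [← hs]; field_simp; rfl)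
      ⟨hu.1.mono hB, fun x hx => hu.2.1 x (hB hx)⟩).1 (hint2.mono_set hB)
    have h2 : ∫ y in ball p (1 / s), u y ^ 2 ≤ M' / lam := by
      have h3 := (lintegral_mono_set (f := v) (μ := volume) (hsub p hp)).trans_lt hzA.2
      rw [hvΩ _ hB measurableSet_ball, ENNReal.ofReal_lt_ofReal_iff (by positivity)] at h3
      exact h3.le
    have h3 : C * ∫ y in ball p (1 / s), u y ^ 2 ≤ C * M' * (1 / s) ^ 2 := by
      rw [mul_assoc]
      gcongr
      rwa [div_pow, one_pow, hss, mul_one_div]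
    refine ⟨Real.abs_le_sqrt (le_of_mul_le_mul_right (h1.1.trans h3) (by positivity)), ?_⟩
    rw [← div_le_iff₀' hs0]
    refine Real.le_sqrt_of_sq_le (le_of_mul_le_mul_right (a := (1 / s) ^ 2) ?_ (by positivity))
    refine le_trans (le_of_eq ?_) (h1.2.trans h3)
    field_simp
  refine ⟨fun x hx => ⟨?_, ?_⟩, fun x y hx hy => ?_⟩
  · rw [hloc x hx, indicator_of_mem (hpΩ _ (hmem x hx))]
  · rw [hloc x hx]; exact (hest _ (hmem x hx)).1
  · rw [hloc x hx, hloc y hy]
    have h1 := (convex_closedBall z (R / s)).norm_image_sub_le_of_norm_fderiv_le (𝕜 := ℝ) (f := u)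
      (fun p hp => (hu.1.contDiffAt (hΩ.mem_nhds (hpΩ p hp))).differentiableAt (by simp))
      (fun p hp => (hest p hp).2) (hmem y hy) (hmem x hx)
    refine h1.trans (le_of_eq ?_)
    rw [add_sub_add_left_eq_sub, ← sub_div, norm_div, Complex.norm_real,
      Real.norm_of_nonneg hs0.le]
    field_simp

end Pool.Agent.P.MP_6b977f_mp.EB
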