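import Pool.Agent.P.MP_6b977f_mp.EB.IfS

/-! Unique continuation for the Helmholtz equation, by finite differences. -/

namespace Pool.Agent.P.MP_6b977f_mp.EB

open Real MeasureTheory Filter Topology Laplacian Set Metric
open scoped ContDiff BoundedContinuousFunction ComplexConjugate Pointwise ENNReal

theorem uc_mono {O O' : Set ℂ} {lam : ℝ} {w : ℂ → ℝ} (h : Sol O lam w) (hO : O' ⊆ O) :
    Sol O' lam w := ⟨h.1.mono hO, fun x hx => h.2 x (hO hx)⟩

theorem uc_lap_shift (w : ℂ → ℝ) (a y : ℂ) : Δ (fun z => w (z + a)) y = Δ w (y + a) := by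
  simp only [InnerProductSpace.laplacian_eq_iteratedFDeriv_complexPlane,
    iteratedFDeriv_comp_add_right]

theorem uc_diff {x a : ℂ} {ρ lam : ℝ} {w : ℂ → ℝ} (h : Sol (ball x ρ) lam w) :
    Sol (ball x (ρ - ‖a‖)) lam (fwdDiff a w) := by
  have h1 : ∀ y ∈ ball x (ρ - ‖a‖), y + a ∈ ball x ρ ∧ y ∈ ball x ρ := fun y hy => by
    rw [mem_ball] at hy
    have := dist_triangle (y + a) y x
    rw [dist_self_add_left] at this
    exact ⟨mem_ball.2 (by linarith), mem_ball.2 (by linarith [norm_nonneg a])⟩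
  have h2 : ∀ y ∈ ball x (ρ - ‖a‖), ContDiffAt ℝ ∞ (fun z => w (z + a)) y ∧ ContDiffAt ℝ ∞ w y :=
    fun y hy => ⟨(h.1.contDiffAt (isOpen_ball.mem_nhds (h1 y hy).1)).comp y
      (f := fun z => z + a) (by fun_prop), h.1.contDiffAt (isOpen_ball.mem_nhds (h1 y hy).2)⟩
  refine ⟨fun y hy => ((h2 y hy).1.sub (h2 y hy).2).contDiffWithinAt, fun y hy => ?_⟩
  have e : Δ (fwdDiff a w) y = Δ (fun z => w (z + a)) y - Δ w y :=
    ContDiffAt.laplacian_sub ((h2 y hy).1.of_le (by norm_cast)) ((h2 y hy).2.of_le (by norm_cast))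
  have h3 := h.2 _ (h1 y hy).1
  have h4 := h.2 _ (h1 y hy).2
  rw [e, uc_lap_shift, fwdDiff]
  linarith

/-- the interior gradient estimate -/
def uc_Grad (C : ℝ) : Prop := ∀ (lam r : ℝ) (x : ℂ) (u : ℂ → ℝ), 0 ≤ lam → 0 < r → √lam * r ≤ 1 →
  Sol (ball x r) lam u → ∀ M, (∀ y ∈ ball x r, |u y| ≤ M) → ‖fderiv ℝ u x‖ * r ≤ C * M

theorem uc_step {C lam s ρ M : ℝ} {x a : ℂ} {w : ℂ → ℝ} (hC : uc_Grad C) (hl : 0 ≤ lam)
    (hs : 0 < s) (hs' : √lam * s ≤ 1) (h : Sol (ball x ρ) lam w)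
    (hM : ∀ y ∈ ball x ρ, |w y| ≤ M) :
    ∀ y ∈ ball x (ρ - (s + ‖a‖)), |fwdDiff a w y| ≤ M * (C * ‖a‖ / s) := fun y hy => by
  have h1 : ∀ z ∈ ball x (ρ - s), ball z s ⊆ ball x ρ := fun z hz =>
    ball_subset_ball' (by linarith [mem_ball.1 hz])
  have h2 : ∀ z ∈ ball x (ρ - s), DifferentiableAt ℝ w z := fun z hz =>
    (h.1.contDiffAt (isOpen_ball.mem_nhds (h1 z hz (mem_ball_self hs)))).differentiableAt
      (by simp)
  have h3 : ∀ z ∈ ball x (ρ - s), ‖fderiv ℝ w z‖ ≤ C * M / s := fun z hz =>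
    (le_div_iff₀ hs).2 (hC lam s z w hl hs hs' (uc_mono h (h1 z hz)) M fun y hy => hM y (h1 z hz hy))
  rw [mem_ball] at hy
  have h4 := dist_triangle (y + a) y x
  rw [dist_self_add_left] at h4
  have h5 := (convex_ball x (ρ - s)).norm_image_sub_le_of_norm_fderiv_le h2 h3
    (x := y) (y := y + a) (mem_ball.2 (by linarith [norm_nonneg a])) (mem_ball.2 (by linarith))
  rw [add_sub_cancel_left, Real.norm_eq_abs] at h5
  refine h5.trans (le_of_eq ?_)
  ring

theorem uc_iter {C lam s ρ M : ℝ} {x a : ℂ} {w : ℂ → ℝ} (hC : uc_Grad C) (hl : 0 ≤ lam)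
    (hs : 0 < s) (hs' : √lam * s ≤ 1) (h : Sol (ball x ρ) lam w)
    (hM : ∀ y ∈ ball x ρ, |w y| ≤ M) (j : ℕ) :
    Sol (ball x (ρ - j * (s + ‖a‖))) lam ((fwdDiff a)^[j] w) ∧
      ∀ y ∈ ball x (ρ - j * (s + ‖a‖)), |(fwdDiff a)^[j] w y| ≤ M * (C * ‖a‖ / s) ^ j := by
  induction j with
  | zero => simpa using ⟨h, hM⟩
  | succ j ih =>
    rw [Function.iterate_succ_apply', pow_succ, ← mul_assoc]
    have e : ρ - ((j + 1 : ℕ) : ℝ) * (s + ‖a‖) = ρ - j * (s + ‖a‖) - (s + ‖a‖) := by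
      push_cast
      ring
    rw [e]
    exact ⟨uc_mono (uc_diff ih.1) (ball_subset_ball (by linarith)), uc_step hC hl hs hs' ih.1 ih.2⟩

theorem uc_term {C lam r M : ℝ} {x v : ℂ} {w : ℂ → ℝ} (hC : uc_Grad C) (hC0 : 0 < C) (hl : 0 ≤ lam)
    (hr : 0 < r) (hr' : √lam * r ≤ 1) (h : Sol (ball x r) lam w) (hM : ∀ y ∈ ball x r, |w y| ≤ M)
    (hv : ‖v‖ < r / (24 * C + 4)) {n k : ℕ} (hk : 0 < k) (hn : k ≤ n) :
    n.choose k * |(fwdDiff (v / n))^[k] w x| ≤ M * (1 / 4) ^ k := by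
  have hk' : (1 : ℝ) ≤ k := by exact_mod_cast hk
  have hn' : (k : ℝ) ≤ n := by exact_mod_cast hn
  have hn0 : (0 : ℝ) < n := by linarith
  have hM0 : 0 ≤ M := (abs_nonneg _).trans (hM x (mem_ball_self hr))
  rw [lt_div_iff₀ (by positivity)] at hv
  have hv0 := norm_nonneg v
  have h1 : r / (2 * k) ≤ r := div_le_self hr.le (by linarith)
  have e1 : ‖v / n‖ = ‖v‖ / n := by rw [norm_div, Complex.norm_natCast]
  have h2 : (k : ℝ) * (r / (2 * k) + ‖v / n‖) < r := by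
    have e : (k : ℝ) * (r / (2 * k)) = r / 2 := by field_simp
    have h3 : (k : ℝ) * (‖v‖ / n) ≤ ‖v‖ := by
      rw [mul_div_assoc', div_le_iff₀ hn0]
      nlinarith
    rw [mul_add, e, e1]
    nlinarith [mul_nonneg hv0 hC0.le]
  have h3 := (uc_iter (a := v / n) hC hl (by positivity : 0 < r / (2 * k))
    ((mul_le_mul_of_nonneg_left h1 (Real.sqrt_nonneg _)).trans hr') h hM k).2 x
    (mem_ball_self (sub_pos.2 h2))
  have h4 : (n.choose k : ℝ) ≤ (n : ℝ) ^ k / k.factorial := Nat.choose_le_pow_div k n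
  have h5 := Real.pow_div_factorial_le_exp (k : ℝ) (by positivity) k
  have h6 : Real.exp k ≤ 3 ^ k := by
    rw [← mul_one (k : ℝ), Real.exp_nat_mul]
    exact pow_le_pow_left₀ (Real.exp_pos _).le (Real.exp_one_lt_d9.le.trans (by norm_num)) k
  have h7 : 2 * C * ‖v‖ / r * 3 ≤ 1 / 4 := by
    rw [div_mul_eq_mul_div, div_le_iff₀ hr]
    nlinarith
  calc _ ≤ (n : ℝ) ^ k / k.factorial * (M * (C * ‖v / n‖ / (r / (2 * k))) ^ k) :=
        mul_le_mul h4 h3 (abs_nonneg _) (by positivity)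
    _ = M * ((2 * C * ‖v‖ / r) ^ k * ((k : ℝ) ^ k / k.factorial)) := by
        have e : C * ‖v / n‖ / (r / (2 * k)) = 2 * C * ‖v‖ / r * k / n := by
          rw [e1]
          field_simp
        rw [e, div_pow, mul_pow]
        field_simp
    _ ≤ M * ((2 * C * ‖v‖ / r) ^ k * 3 ^ k) := by gcongr; exact h5.trans h6
    _ ≤ _ := by
        rw [← mul_pow]
        gcongr

theorem uc_local {C lam r M : ℝ} {x : ℂ} {w : ℂ → ℝ} (hC : uc_Grad C) (hC0 : 0 < C) (hl : 0 ≤ lam)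
    (hr : 0 < r) (hr' : √lam * r ≤ 1) (h : Sol (ball x r) lam w) (hM : ∀ y ∈ ball x r, |w y| ≤ M)
    (h0 : ∀ᶠ y in 𝓝 x, w y = 0) : ∀ y ∈ ball x (r / (24 * C + 4)), w y = 0 := fun y hy => by
  obtain ⟨ε, hε, h1⟩ := Metric.eventually_nhds_iff_ball.1 h0
  have hM0 : 0 ≤ M := (abs_nonneg _).trans (hM x (mem_ball_self hr))
  rw [mem_ball, dist_eq_norm] at hy
  have key : ∀ K : ℕ, |w y| ≤ M * (1 / 2) ^ K * 2 := fun K => by
    obtain ⟨n, hn⟩ := exists_nat_gt (K * ‖y - x‖ / ε)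
    have hn0 : (0 : ℝ) < n := lt_of_le_of_lt (by positivity) hn
    have hn1 : (n : ℂ) ≠ 0 := by exact_mod_cast hn0.ne'
    have e : y = x + n • ((y - x) / n) := by
      rw [nsmul_eq_mul, mul_div_cancel₀ _ hn1, add_sub_cancel]
    have h2 : ∀ k ∈ Finset.range (n + 1), |n.choose k • (fwdDiff ((y - x) / n))^[k] w x| ≤
        M * (1 / 2) ^ K * (1 / 2) ^ k := fun k hk => by
      rcases le_or_gt k K with h3 | h3
      · rw [fwdDiff_iter_eq_sum_shift, Finset.sum_eq_zero, smul_zero, abs_zero]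
        · positivity
        intro j hj
        have h4 : (j : ℝ) ≤ K := by
          have := Finset.mem_range.1 hj
          exact_mod_cast (by omega : j ≤ K)
        rw [h1 _ (mem_ball.2 ?_), smul_zero]
        rw [dist_self_add_left, nsmul_eq_mul, norm_mul, norm_div, Complex.norm_natCast,
          Complex.norm_natCast, mul_div_assoc', div_lt_iff₀ hn0]
        rw [div_lt_iff₀ hε] at hn
        nlinarith [norm_nonneg (y - x)]
      · rw [nsmul_eq_mul, abs_mul, Nat.abs_cast]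
        refine (uc_term hC hC0 hl hr hr' h hM hy (by omega)
          (Nat.lt_succ_iff.1 (Finset.mem_range.1 hk))).trans ?_
        rw [show (1 / 4 : ℝ) = 1 / 2 * (1 / 2) by norm_num, mul_pow, ← mul_assoc]
        exact mul_le_mul_of_nonneg_right (mul_le_mul_of_nonneg_left
          (pow_le_pow_of_le_one (by norm_num) (by norm_num) h3.le) hM0) (by positivity)
    calc |w y| = |∑ k ∈ Finset.range (n + 1), n.choose k • (fwdDiff ((y - x) / n))^[k] w x| := by
          rw [← shift_eq_sum_fwdDiff_iter, ← e]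
      _ ≤ ∑ k ∈ Finset.range (n + 1), M * (1 / 2) ^ K * (1 / 2) ^ k :=
          (Finset.abs_sum_le_sum_abs _ _).trans (Finset.sum_le_sum h2)
      _ ≤ _ := by
          rw [← Finset.mul_sum]
          exact mul_le_mul_of_nonneg_left (sum_geometric_two_le _) (by positivity)
  have lim : Tendsto (fun K : ℕ => M * (1 / 2 : ℝ) ^ K * 2) atTop (𝓝 (M * 0 * 2)) :=
    ((tendsto_pow_atTop_nhds_zero_of_lt_one (by norm_num) (by norm_num)).const_mul M).mul_const 2
  have := ge_of_tendsto' lim key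
  rw [mul_zero, zero_mul] at this
  exact abs_nonpos_iff.1 this

theorem t_uc (hint : S_INT) : S_UC := by
  obtain ⟨C, hC0, hC⟩ := hint
  have hG : uc_Grad C := fun lam r x u h1 h2 h3 h4 => (hC lam r x u h1 h2 h3 h4).2
  intro O lam w x₀ hO hc hl hw hx₀ h0 x hx
  have key : O ⊆ {y | ∀ᶠ z in 𝓝 y, w z = 0} := by
    refine hc.subset_of_closure_inter_subset isOpen_setOfPred_eventually_nhds ⟨x₀, hx₀, h0⟩ ?_
    rintro y ⟨hy, hyO⟩
    obtain ⟨δ, hδ, h1⟩ := nhds_basis_closedBall.mem_iff.1 (hO.mem_nhds hyO)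
    obtain ⟨M, hM⟩ := (isCompact_closedBall y δ).exists_bound_of_continuousOn
      (hw.1.continuousOn.mono h1)
    have hs := Real.sqrt_nonneg lam
    set R := min (δ / 2) (1 / (√lam + 1)) with hR
    have hR0 : 0 < R := lt_min (by positivity) (by positivity)
    have hR1 : R ≤ δ / 2 := min_le_left _ _
    have hR2 : √lam * R ≤ 1 := by
      have : R ≤ 1 / (√lam + 1) := min_le_right _ _
      rw [le_div_iff₀ (by positivity)] at this
      nlinarith
    obtain ⟨z, hz, hd⟩ := Metric.mem_closure_iff.1 hy (R / (24 * C + 4)) (by positivity)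
    have h2 : R / (24 * C + 4) ≤ R := div_le_self hR0.le (by linarith)
    have h3 : ball z R ⊆ closedBall y δ :=
      (ball_subset_ball' (by rw [dist_comm]; linarith)).trans ball_subset_closedBall
    have h4 := uc_local hG hC0 hl hR0 hR2 (uc_mono hw (h3.trans h1)) (fun v hv => hM v (h3 hv)) hz
    exact Filter.eventually_of_mem (isOpen_ball.mem_nhds (mem_ball.2 hd)) h4
  exact (key hx).self_of_nhds

end Pool.Agent.P.MP_6b977f_mp.EB
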