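import Pool.Agent.P.MP_6b977f_mp.EB.IfS

/-! Unique continuation from vanishing Cauchy data on a flat piece of the boundary. -/

namespace Pool.Agent.P.MP_6b977f_mp.EB

open Real MeasureTheory Filter Topology Laplacian Set Metric
open scoped ContDiff BoundedContinuousFunction ComplexConjugate Pointwise ENNReal

noncomputable section

/-- One component of the Green vector field. -/
def uc2_P (w φ : ℂ → ℝ) (v z : ℂ) : ℝ := w z * fderiv ℝ φ z v - φ z * fderiv ℝ w z v

/-- The Green vector field. -/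
def uc2_X (w φ : ℂ → ℝ) (z : ℂ) : ℂ := uc2_P w φ 1 z + uc2_P w φ Complex.I z * Complex.I

theorem uc2_cd {w : ℂ → ℝ} {z : ℂ} (hw : ContDiffAt ℝ 2 w z) (v : ℂ) :
    ContDiffAt ℝ 1 (fun y => fderiv ℝ w y v) z :=
  (hw.fderiv_right (m := 1) (by norm_num)).clm_apply contDiffAt_const

theorem uc2_P_cd {w φ : ℂ → ℝ} {z : ℂ} (hw : ContDiffAt ℝ 2 w z) (hφ : ContDiffAt ℝ 2 φ z)
    (v : ℂ) : ContDiffAt ℝ 1 (uc2_P w φ v) z :=
  ((hw.of_le (by norm_num)).mul (uc2_cd hφ v)).sub ((hφ.of_le (by norm_num)).mul (uc2_cd hw v))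

theorem uc2_d2 {w : ℂ → ℝ} {z : ℂ} (hw : ContDiffAt ℝ 2 w z) (v : ℂ) :
    fderiv ℝ (fun y => fderiv ℝ w y v) z v = iteratedFDeriv ℝ 2 w z ![v, v] := by
  have h := (hw.fderiv_right (m := 1) (by norm_num)).differentiableAt one_ne_zero
  rw [fderiv_clm_apply h (differentiableAt_const _), iteratedFDeriv_two_apply]
  simp

theorem uc2_P_fd {w φ : ℂ → ℝ} {z : ℂ} (hw : ContDiffAt ℝ 2 w z) (hφ : ContDiffAt ℝ 2 φ z)
    (v : ℂ) : fderiv ℝ (uc2_P w φ v) z v =
      w z * iteratedFDeriv ℝ 2 φ z ![v, v] - φ z * iteratedFDeriv ℝ 2 w z ![v, v] := by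
  have h1 := (hw.differentiableAt two_ne_zero).hasFDerivAt
  have h2 := (hφ.differentiableAt two_ne_zero).hasFDerivAt
  have h3 := ((uc2_cd hw v).differentiableAt one_ne_zero).hasFDerivAt
  have h4 := ((uc2_cd hφ v).differentiableAt one_ne_zero).hasFDerivAt
  have h5 : HasFDerivAt (uc2_P w φ v) _ z := (h1.mul h4).sub (h2.mul h3)
  rw [h5.fderiv, ← uc2_d2 hw, ← uc2_d2 hφ]
  simp
  ring

theorem uc2_X_cd {w φ : ℂ → ℝ} {z : ℂ} (hw : ContDiffAt ℝ 2 w z) (hφ : ContDiffAt ℝ 2 φ z) :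
    ContDiffAt ℝ 1 (uc2_X w φ) z :=
  (Complex.ofRealCLM.contDiff.contDiffAt.comp z (uc2_P_cd hw hφ 1)).add
    ((Complex.ofRealCLM.contDiff.contDiffAt.comp z (uc2_P_cd hw hφ Complex.I)).mul
      contDiffAt_const)

theorem uc2_div {w φ : ℂ → ℝ} {z : ℂ} (hw : ContDiffAt ℝ 2 w z) (hφ : ContDiffAt ℝ 2 φ z) :
    (fderiv ℝ (uc2_X w φ) z 1).re + (fderiv ℝ (uc2_X w φ) z Complex.I).im =
      w z * Δ φ z - φ z * Δ w z := by
  have h1 := Complex.ofRealCLM.hasFDerivAt.comp z
    ((uc2_P_cd hw hφ 1).differentiableAt one_ne_zero).hasFDerivAt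
  have h2 := Complex.ofRealCLM.hasFDerivAt.comp z
    ((uc2_P_cd hw hφ Complex.I).differentiableAt one_ne_zero).hasFDerivAt
  have h3 : HasFDerivAt (uc2_X w φ) _ z := h1.add (h2.mul_const Complex.I)
  rw [h3.fderiv, InnerProductSpace.laplacian_eq_iteratedFDeriv_complexPlane,
    InnerProductSpace.laplacian_eq_iteratedFDeriv_complexPlane]
  simp [uc2_P_fd hw hφ]
  ring

theorem uc2_X_zero (w : ℂ → ℝ) {φ : ℂ → ℝ} {z : ℂ} (hz : z ∉ tsupport φ) :
    uc2_X w φ =ᶠ[𝓝 z] fun _ => 0 := by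
  have h : φ =ᶠ[𝓝 z] fun _ => 0 := notMem_tsupport_iff_eventuallyEq.1 hz
  filter_upwards [h, h.fderiv (𝕜 := ℝ)] with y h1 h2
  simp [uc2_X, uc2_P, h1, h2]

theorem uc2_zero {O V : Set ℂ} {lam : ℝ} {u : ℂ → ℝ} (huc : S_UC) (hO : IsOpen O)
    (hc : IsPreconnected O) (hlam : 0 ≤ lam) (hu : Sol O lam u) (hV : IsOpen V) (hVO : V ⊆ O)
    (hne : V.Nonempty) (h : ∀ᵐ x, x ∈ V → u x = 0) : ∀ x ∈ O, u x = 0 := by
  obtain ⟨x₀, h0⟩ := hne
  have h1 : EqOn u (fun _ => 0) V := Measure.eqOn_open_of_ae_eq (μ := volume)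
    ((ae_restrict_iff' hV.measurableSet).2 h) hV (hu.1.continuousOn.mono hVO) continuousOn_const
  exact huc O lam u x₀ hO hc hlam hu (hVO h0) (mem_of_superset (hV.mem_nhds h0) h1)

theorem t_uc2 (hweyl : S_WEYL) (huc : S_UC) (hgreen : S_GREEN) (hreg : S_REG) (hhb1 : S_HB1)
    (htab : S_TAB) : S_UC2 := by
  intro ρ c r lam f g w a b hρ hF hlam hf hw hab ha hb hd
  set c' : ℂ := ((a + b) / 2 : ℝ) + c.im * Complex.I with hc'
  set r' : ℝ := (b - a) / 2 with hr'
  have r0 : 0 < r' := by rw [hr']; linarith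
  have sub : ball c' r' ⊆ ball c r := by
    refine ball_subset_ball' ?_
    have : c' - c = (((a + b) / 2 - c.re : ℝ) : ℂ) := by
      apply Complex.ext <;> simp [hc']
    rw [dist_eq_norm, this, Complex.norm_real, Real.norm_eq_abs]
    rcases abs_cases ((a + b) / 2 - c.re) with h | h <;> linarith [h.1]
  have oU : IsOpen {z : ℂ | c.im < z.im} := isOpen_lt continuous_const Complex.continuous_im
  have oL : IsOpen {z : ℂ | z.im < c.im} := isOpen_lt Complex.continuous_im continuous_const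
  set U : Set ℂ := ball c' r' ∩ {z : ℂ | c.im < z.im} with hU
  have hUo : IsOpen U := isOpen_ball.inter oU
  have w2 : ∀ z ∈ ball c' r', ContDiffAt ℝ 2 w z := fun z hz =>
    (hw.1.1.contDiffAt (isOpen_ball.mem_nhds (sub hz))).of_le (WithTop.coe_le_coe.2 le_top)
  obtain ⟨W, hW, hWf⟩ := hweyl (ball c' r') lam (U.indicator f) isOpen_ball hlam
    (hf.1.1.indicator hUo.measurableSet) (by
    intro φ hφ
    have φ2 : ∀ z, ContDiffAt ℝ 2 φ z := fun z =>
      hφ.1.contDiffAt.of_le (WithTop.coe_le_coe.2 le_top)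
    have X1 : ContDiff ℝ 1 (uc2_X w φ) := contDiff_iff_contDiffAt.2 fun z => by
      by_cases hz : z ∈ ball c' r'
      · exact uc2_X_cd (w2 z hz) (φ2 z)
      · exact contDiffAt_const.congr_of_eventuallyEq (uc2_X_zero w fun h => hz (hφ.2.2 h))
    have X2 : HasCompactSupport (uc2_X w φ) :=
      HasCompactSupport.intro hφ.2.1 fun z hz => (uc2_X_zero w hz).self_of_nhds
    have h1 := hgreen _ c.im X1 X2
    have h2 : ∀ σ : ℝ, (uc2_X w φ (σ + c.im * Complex.I)).im = 0 := by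
      intro σ
      by_cases hz : ((σ : ℂ) + c.im * Complex.I) ∈ ball c' r'
      · have e1 : mir (-c.im) (σ + c.im * Complex.I) = σ + c.im * Complex.I := by
          apply Complex.ext <;> simp [mir]
          ring
        have e2 := hw.2.1 _ (sub hz)
        rw [e1] at e2
        have e3 : w (σ + c.im * Complex.I) = 0 := by linarith
        have e4 : (σ : ℂ) + c.im * Complex.I - c' = ((σ - (a + b) / 2 : ℝ) : ℂ) := by
          apply Complex.ext <;> simp [hc']
        rw [mem_ball, dist_eq_norm, e4, Complex.norm_real, Real.norm_eq_abs, abs_lt] at hz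
        have e5 := hd σ ⟨by linarith [hz.1], by linarith [hz.2]⟩
        simp [uc2_X, uc2_P, e3, e5]
      · rw [(uc2_X_zero w fun h => hz (hφ.2.2 h)).self_of_nhds, Complex.zero_im]
    simp only [h2, integral_zero, neg_zero] at h1
    rw [← h1, ← integral_indicator oU.measurableSet]
    refine integral_congr_ae (hw.2.2.mono fun z hz => ?_)
    by_cases h3 : c.im < z.im
    · rw [indicator_of_mem (show z ∈ {z : ℂ | c.im < z.im} from h3)]
      by_cases h4 : z ∈ ball c' r'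
      · simp only [indicator_of_mem (show z ∈ U from ⟨h4, h3⟩), ← hz (sub h4) h3,
          uc2_div (w2 z h4) (φ2 z)]
        linear_combination φ z * hw.1.2 z (sub h4)
      · simp only [indicator_of_notMem (show z ∉ U from fun h => h4 h.1),
          (uc2_X_zero w fun h => h4 (hφ.2.2 h)).fderiv_eq]
        simp
    · simp only [indicator_of_notMem (show z ∉ {z : ℂ | c.im < z.im} from h3),
        indicator_of_notMem (show z ∉ U from fun h => h3 h.2), zero_mul])
  have mem : ∀ t : ℝ, |t| < r' → c' + t * Complex.I ∈ ball c' r' := fun t ht => by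
    simpa using ht
  have W0 := uc2_zero huc isOpen_ball (convex_ball _ _).isPreconnected hlam hW
    (isOpen_ball.inter oL) inter_subset_left
    ⟨c' + (-(r' / 2) : ℝ) * Complex.I, mem _ (by rw [abs_neg, abs_of_pos] <;> linarith), by
      simp [hc', r0]⟩
    (hWf.mono fun z hz h => by
      rw [hz h.1, indicator_of_notMem fun h' => lt_asymm (show z.im < c.im from h.2) h'.2])
  obtain ⟨oT, -, -, cT, -⟩ := htab ρ hρ
  obtain ⟨u, hu, -, huf⟩ := hreg.1 _ lam f g oT hlam hf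
  have UT : U ⊆ table ρ := fun z hz => (hF.2.2 z (sub hz.1)).2 hz.2
  have u0 := uc2_zero huc oT cT hlam hu hUo UT
    ⟨c' + (r' / 2 : ℝ) * Complex.I, mem _ (by rw [abs_of_pos] <;> linarith), by
      simp [hc', r0]⟩ (by
      filter_upwards [hWf, huf] with z h1 h2 hz
      rw [h2 (UT hz), ← indicator_of_mem hz f, ← h1 hz.1, W0 z hz.1])
  filter_upwards [huf, hhb1.2.2.2.2.2.1 _ f g hf.1] with z h1 h2
  by_cases hz : z ∈ table ρ
  · rw [← h1 hz, u0 z hz, Pi.zero_apply]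
  · exact (h2 hz).1

end

end Pool.Agent.P.MP_6b977f_mp.EB
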