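import Pool.Agent.P.MP_6b977f_mp.EB.IfS

/-! The law of the random wave is unique. -/

namespace Pool.Agent.P.MP_6b977f_mp.EB

open Real MeasureTheory Filter Topology Laplacian Set Metric
open scoped ContDiff BoundedContinuousFunction ComplexConjugate Pointwise ENNReal

/-- the pairing of a function with a finite combination of points -/
noncomputable def uniq_L : C(ℂ, ℝ) →ₗ[ℝ] (ℂ →₀ ℝ) →ₗ[ℝ] ℝ where
  toFun F := Finsupp.linearCombination ℝ F
  map_add' F G := by ext; simp
  map_smul' c F := by ext; simp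

theorem uniq_apply (F : C(ℂ, ℝ)) (τ : ℂ →₀ ℝ) : uniq_L F τ = τ.sum fun x s => s * F x := rfl

theorem t_uniq : S_UNIQ := by
  intro μ ν hμ hν
  let : MeasurableSpace C(ℂ, ℝ) := borel _
  have : BorelSpace C(ℂ, ℝ) := ⟨rfl⟩
  let : TopologicalSpace (ℂ →₀ ℝ) := ⊥
  have : DiscreteTopology (ℂ →₀ ℝ) := ⟨rfl⟩
  have := hμ.1
  have := hν.1
  have hL : Continuous fun p : C(ℂ, ℝ) × (ℂ →₀ ℝ) => uniq_L p.1 p.2 :=
    continuous_prod_of_discrete_right.2 fun τ => by
      simp only [uniq_apply, Finsupp.sum]
      fun_prop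
  have hL' : ∀ F ≠ 0, uniq_L F ≠ 0 := fun F hF e => hF (by
    ext x
    simpa [uniq_apply] using DFunLike.congr_fun e (Finsupp.single x 1))
  refine ext_of_forall_mem_subalgebra_integral_eq_of_polish
    (BoundedContinuousFunction.separatesPoints_charPoly continuous_probChar probChar_ne_one hL hL')
    fun g hg => ?_
  obtain ⟨w, hw⟩ := (BoundedContinuousFunction.mem_charPoly g).1 hg
  have hsum : ∀ P : Measure C(ℂ, ℝ), IsRMW P →
      ∫ v, g v ∂P = w.coeff.sum fun a z => z * gauss a := fun P hP => by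
    have := hP.1
    rw [hw]
    refine (integral_finsetSum _ fun a _ => ((BoundedContinuousFunction.char continuous_probChar
      hL a).integrable P).const_mul _).trans (Finset.sum_congr rfl fun a _ => ?_)
    simp only [integral_const_mul, ← hP.2 a, BoundedContinuousFunction.char_apply, probChar_apply,
      uniq_apply, mul_comm Complex.I]
  rw [hsum μ hμ, hsum ν hν]

end Pool.Agent.P.MP_6b977f_mp.EB
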