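import Pool.Agent.P.MP_6b977f_mp.EB.IfS

/-! Interior regularity of weak solutions of the Helmholtz equation. -/

namespace Pool.Agent.P.MP_6b977f_mp.EB

open Real MeasureTheory Filter Topology Laplacian Set Metric
open scoped ContDiff BoundedContinuousFunction ComplexConjugate Pointwise ENNReal Convolution

noncomputable section

/-- Directional derivative. -/
def weyl_D (v : ℂ) (g : ℂ → ℝ) (x : ℂ) : ℝ := fderiv ℝ g x v

/-- Convolution. -/
def weyl_cv (f ψ : ℂ → ℝ) : ℂ → ℝ := f ⋆[ContinuousLinearMap.mul ℝ ℝ, volume] ψ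

theorem weyl_D_smooth (v : ℂ) {g : ℂ → ℝ} (hg : ContDiff ℝ ∞ g) : ContDiff ℝ ∞ (weyl_D v g) :=
  (hg.fderiv_right (m := ∞) le_rfl).clm_apply contDiff_const

theorem weyl_D_supp (v : ℂ) {g : ℂ → ℝ} (hg : HasCompactSupport g) :
    HasCompactSupport (weyl_D v g) := hg.fderiv_apply ℝ v

theorem weyl_lap {g : ℂ → ℝ} (hg : ContDiff ℝ ∞ g) (x : ℂ) :
    Δ g x = weyl_D 1 (weyl_D 1 g) x + weyl_D Complex.I (weyl_D Complex.I g) x := by
  have h : DifferentiableAt ℝ (fderiv ℝ g) x :=
    (hg.fderiv_right (m := ∞) le_rfl).differentiable (by simp) x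
  have e : ∀ v, weyl_D v (weyl_D v g) x = fderiv ℝ (fderiv ℝ g) x v v := fun v => by
    unfold weyl_D
    rw [fderiv_clm_apply h (differentiableAt_const v)]
    simp
  rw [InnerProductSpace.laplacian_eq_iteratedFDeriv_complexPlane, e, e]
  simp [iteratedFDeriv_two_apply]

theorem weyl_D_cv (v : ℂ) {f ψ : ℂ → ℝ} (hf : LocallyIntegrable f volume) (h1 : ContDiff ℝ ∞ ψ)
    (h2 : HasCompactSupport ψ) : weyl_D v (weyl_cv f ψ) = weyl_cv f (weyl_D v ψ) := by
  funext x
  have h3 : ContDiff ℝ 1 ψ := h1.of_le (by simp)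
  rw [weyl_D, weyl_cv, (h2.hasFDerivAt_convolution_right _ hf h3 x).fderiv,
    convolution_precompR_apply _ hf (h2.fderiv ℝ) (h3.continuous_fderiv one_ne_zero)]
  rfl

theorem weyl_D_sub (v x : ℂ) (c : ℝ) {ψ : ℂ → ℝ} (h1 : ContDiff ℝ ∞ ψ) :
    (weyl_D v fun t => c * ψ (x - t)) = fun t => -c * weyl_D v ψ (x - t) := by
  funext t
  have := (((h1.differentiable (by simp) (x - t)).hasFDerivAt).comp t
    ((hasFDerivAt_id t).const_sub x)).const_mul c
  rw [weyl_D, weyl_D, (show HasFDerivAt (fun t => c * ψ (x - t)) _ t from this).fderiv]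
  simp

theorem weyl_sol {f ψ : ℂ → ℝ} {lam : ℝ} {O U : Set ℂ} (hf : LocallyIntegrable f volume)
    (h1 : ContDiff ℝ ∞ ψ) (h2 : HasCompactSupport ψ)
    (hw : ∀ φ, IsTest O φ → ∫ x, f x * (Δ φ x + lam * φ x) = 0)
    (hU : ∀ x ∈ U, ∀ t ∈ tsupport ψ, x - t ∈ O) : Sol U lam (weyl_cv f ψ) := by
  have s0 : ContDiff ℝ ∞ (weyl_cv f ψ) := h2.contDiff_convolution_right _ hf h1
  refine ⟨s0.contDiffOn, fun x hx => ?_⟩
  have s1 : ContDiff ℝ ∞ fun t => 1 * ψ (x - t) :=
    contDiff_const.mul (h1.comp (contDiff_const.sub contDiff_id))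
  have e := hw (fun t => 1 * ψ (x - t)) ⟨s1,
    (h2.comp_homeomorph (Homeomorph.subLeft x)).mul_left (f := fun _ => 1), fun t ht => by
      have : x - t ∈ tsupport ψ := by
        refine closure_minimal (t := (fun t => x - t) ⁻¹' tsupport ψ) (fun s hs => ?_)
          ((isClosed_tsupport ψ).preimage (by fun_prop)) ht
        exact subset_tsupport _ (by simpa using hs)
      simpa using hU x hx _ this⟩
  have i : ∀ {g : ℂ → ℝ}, ContDiff ℝ ∞ g → HasCompactSupport g →
      Integrable fun t => f t * g (x - t) := fun g1 g2 =>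
    g2.convolutionExists_right (ContinuousLinearMap.mul ℝ ℝ) hf g1.continuous x
  have d : ∀ v, weyl_D v (weyl_D v (weyl_cv f ψ)) = weyl_cv f (weyl_D v (weyl_D v ψ)) := fun v => by
    rw [weyl_D_cv v hf h1 h2, weyl_D_cv v hf (weyl_D_smooth v h1) (weyl_D_supp v h2)]
  have i2 := fun v => i (weyl_D_smooth v (weyl_D_smooth v h1)) (weyl_D_supp v (weyl_D_supp v h2))
  simp only [weyl_lap s1, weyl_D_sub _ _ _ h1, weyl_D_sub _ _ _ (weyl_D_smooth _ h1)] at e
  simp only [neg_neg, one_mul, mul_add, mul_left_comm (f _) lam] at e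
  rw [integral_add (by exact (i2 _).add (i2 _)) ((i h1 h2).const_mul _),
    integral_add (i2 _) (i2 _), integral_const_mul] at e
  rw [weyl_lap s0, d, d]
  exact e

theorem weyl_local (hmv1 : S_MV1) {O : Set ℂ} {lam : ℝ} {f : ℂ → ℝ} (hO : IsOpen O)
    (hl : 0 ≤ lam) (hf : LocallyIntegrable f volume)
    (hw : ∀ φ, IsTest O φ → ∫ x, f x * (Δ φ x + lam * φ x) = 0) {x₀ : ℂ} (hx : x₀ ∈ O) :
    ∃ r > 0, ∃ W, Sol (ball x₀ r) lam W ∧ ∀ᵐ x, x ∈ ball x₀ r → W x = f x := by
  obtain ⟨ε, hε, hεO⟩ := Metric.isOpen_iff.1 hO x₀ hx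
  set R := min (ε / 3) (1 / (√lam + 1)) with hR
  have R0 : 0 < R := lt_min (by positivity) (by positivity)
  have R1 : 3 * R ≤ ε := by linarith [min_le_left (ε / 3) (1 / (√lam + 1))]
  have R2 : √lam * R ≤ 1 := by
    have := (le_div_iff₀ (by positivity)).1 (min_le_right (ε / 3) (1 / (√lam + 1)))
    nlinarith
  let β : ℝ → ℝ := fun t => expNegInvGlue (R ^ 2 - t ^ 2)
  let B : ℂ → ℝ := fun y => β ‖y‖
  have β0 : ∀ t, R ≤ t → β t = 0 := fun t ht => expNegInvGlue.zero_of_nonpos (by nlinarith)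
  have B1 : ContDiff ℝ ∞ B :=
    expNegInvGlue.contDiff.comp (contDiff_const.sub (contDiff_norm_sq ℝ))
  have B0 : ∀ y, B y ≠ 0 → ‖y‖ < R := fun y hy => not_le.1 fun h => hy (β0 _ h)
  have B3 : tsupport B ⊆ closedBall 0 R :=
    closure_minimal (fun y hy => by simpa using (B0 y hy).le) isClosed_closedBall
  have B2 : HasCompactSupport B :=
    (isCompact_closedBall 0 R).of_isClosed_subset (isClosed_tsupport _) B3
  set c := ∫ y : ℂ, β ‖y‖ * cos (√lam * y.re) with hc
  have c0 : 0 < c := by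
    refine Continuous.integral_pos_of_hasCompactSupport_nonneg_nonzero (x := 0)
      (B1.continuous.mul (by fun_prop)) B2.mul_right (fun y => ?_) ?_
    · by_cases h : B y = 0
      · exact (mul_eq_zero_of_left h _).ge
      · refine mul_nonneg (expNegInvGlue.nonneg _) (cos_nonneg_of_mem_Icc (abs_le.1 ?_))
        have := (Complex.abs_re_le_norm y).trans (B0 y h).le
        rw [abs_mul, abs_of_nonneg (sqrt_nonneg _)]
        nlinarith [sqrt_nonneg lam, pi_gt_three]
    · simpa [β] using R0.ne'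
  have hW : Sol (ball x₀ R) lam (weyl_cv f fun y => c⁻¹ * B y) :=
    weyl_sol hf (contDiff_const.mul B1) B2.mul_left hw fun x hx t ht => hεO (by
      have h1 := mem_closedBall_zero_iff.1 (B3 (tsupport_mul_subset_right ht))
      rw [mem_ball_iff_norm] at hx ⊢
      rw [sub_right_comm]
      linarith [norm_sub_le (x - x₀) t])
  refine ⟨R, R0, _, hW, ?_⟩
  have s0 : Continuous (weyl_cv f fun y => c⁻¹ * B y) :=
    (B2.mul_left.contDiff_convolution_right (n := 0) _ hf (contDiff_const.mul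
      (B1.of_le (by simp)))).continuous
  have := isOpen_ball.ae_eq_zero_of_integral_contDiff_smul_eq_zero (μ := volume)
    (U := ball x₀ R) ((s0.locallyIntegrable.sub hf).locallyIntegrableOn _) fun φ p1 p2 p3 => ?_
  · filter_upwards [this] with x h hx using sub_eq_zero.1 (h hx)
  have hu : Sol (ball 0 (2 * R)) lam (weyl_cv f fun y => φ (-y)) :=
    weyl_sol hf (p1.comp contDiff_neg) (p2.comp_homeomorph (Homeomorph.neg ℂ)) hw
      fun x hx t ht => hεO (by
        have h1 : -t ∈ tsupport φ := closure_minimal (t := (fun t => -t) ⁻¹' tsupport φ)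
          (fun s hs => subset_tsupport _ hs) ((isClosed_tsupport φ).preimage continuous_neg) ht
        have h2 := p3 h1
        rw [mem_ball_iff_norm] at hx h2 ⊢
        have := norm_add_le (x - 0) (-t - x₀)
        rw [show x - 0 + (-t - x₀) = x - t - x₀ by ring] at this
        linarith)
  have mv := hmv1 lam (2 * R) R 0 _ β hl hu (by linarith)
    (expNegInvGlue.contDiff (n := 0).continuous.comp (by fun_prop)) β0
  have hi : Integrable (Function.uncurry fun s y : ℂ => φ s * (f (s - y) * B y))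
      (volume.prod volume) := by
    have h1 := (hf.integrableOn_isCompact (isCompact_closedBall x₀ (2 * R))).integrable_indicator
      measurableSet_closedBall
    obtain ⟨M, hM⟩ := p1.continuous.bounded_above_of_compact_support p2
    refine (((B1.continuous.integrable_of_hasCompactSupport B2).convolution_integrand
      (ContinuousLinearMap.mul ℝ ℝ) h1).bdd_mul (c := M)
      (p1.continuous.comp continuous_fst).aestronglyMeasurable
      (Eventually.of_forall fun p => hM p.1)).congr (Eventually.of_forall fun p => ?_)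
    by_cases g1 : φ p.1 = 0
    · simp [g1, Function.uncurry]
    by_cases g2 : B p.2 = 0
    · simp [g2, Function.uncurry]
    have g3 := p3 (subset_tsupport _ g1)
    have g4 : p.1 - p.2 ∈ closedBall x₀ (2 * R) := by
      rw [mem_ball_iff_norm] at g3
      rw [mem_closedBall_iff_norm, sub_right_comm]
      linarith [norm_sub_le (p.1 - x₀) p.2, B0 _ g2]
    simp [indicator_of_mem g4, Function.uncurry, mul_comm]
  have e1 : ∀ s, φ s * weyl_cv f (fun y => c⁻¹ * B y) s =
      c⁻¹ * ∫ y, φ s * (f (s - y) * B y) := fun s => by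
    rw [weyl_cv, convolution_eq_swap, ← integral_const_mul, ← integral_const_mul]
    congr 1
    funext y
    simp only [ContinuousLinearMap.mul_apply']
    ring
  have e2 : ∀ y, ∫ s, φ s * (f (s - y) * B y) =
      β ‖-y‖ * weyl_cv f (fun y => φ (-y)) (0 + -y) := fun y => by
    rw [weyl_cv, convolution_def, ← integral_const_mul, ← integral_add_right_eq_self _ y, norm_neg]
    congr 1
    funext s
    simp only [ContinuousLinearMap.mul_apply', add_sub_cancel_right, B]
    ring_nf
  have e3 : weyl_cv f (fun y => φ (-y)) 0 = ∫ s, φ s * f s := by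
    rw [weyl_cv, convolution_def]
    simp [mul_comm]
  simp only [smul_eq_mul, Pi.sub_apply, mul_sub]
  rw [integral_sub (by exact (p1.continuous.mul s0).integrable_of_hasCompactSupport p2.mul_right)
    (by exact hf.integrable_smul_left_of_hasCompactSupport p1.continuous p2)]
  simp only [e1]
  rw [integral_const_mul, integral_integral_swap hi]
  simp only [e2]
  rw [integral_neg_eq_self (fun y : ℂ => β ‖y‖ * weyl_cv f (fun y => φ (-y)) (0 + y)), mv, e3,
    mul_comm, mul_assoc, mul_inv_cancel₀ c0.ne', mul_one, sub_self]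

theorem t_weyl (hmv1 : S_MV1) : S_WEYL := by
  intro O lam f hO hl hf hw
  have h0 := fun x₀ (hx : x₀ ∈ O) =>
    weyl_local hmv1 hO hl (hf.locallyIntegrable one_le_two) hw hx
  choose! r r0 W hW ha using h0
  have key : ∀ x₀ ∈ O, ∀ x ∈ O ∩ ball x₀ (r x₀), W x x = W x₀ x := fun x₀ h x hx => by
    refine Measure.eqOn_open_of_ae_eq (μ := volume) (U := ball x (r x) ∩ ball x₀ (r x₀)) ?_
      (isOpen_ball.inter isOpen_ball) ((hW x hx.1).1.continuousOn.mono inter_subset_left)
      ((hW x₀ h).1.continuousOn.mono inter_subset_right) ⟨mem_ball_self (r0 x hx.1), hx.2⟩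
    refine (ae_restrict_iff' (isOpen_ball.inter isOpen_ball).measurableSet).2 ?_
    filter_upwards [ha x hx.1, ha x₀ h] with y h1 h2 hy
    rw [h1 hy.1, h2 hy.2]
  have nh : ∀ x ∈ O, O ∩ ball x (r x) ∈ 𝓝 x := fun x h =>
    (hO.inter isOpen_ball).mem_nhds ⟨h, mem_ball_self (r0 x h)⟩
  have ev : ∀ x ∈ O, (fun y => W y y) =ᶠ[𝓝 x] W x := fun x h => mem_of_superset (nh x h) (key x h)
  refine ⟨fun y => W y y, ⟨fun x h => ?_, fun x h => ?_⟩, ?_⟩
  · exact (((hW x h).1.contDiffAt (ball_mem_nhds x (r0 x h))).congr_of_eventuallyEq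
      (ev x h)).contDiffWithinAt
  · rw [(InnerProductSpace.laplacian_congr_nhds (ev x h)).eq_of_nhds]
    exact (hW x h).2 x (mem_ball_self (r0 x h))
  · refine measure_null_of_locally_null _ fun x hx => ?_
    have h : x ∈ O := (Classical.not_imp.1 hx).1
    refine ⟨_, inter_mem_nhdsWithin _ (nh x h), measure_mono_null (fun y hy => ?_) (ha x h)⟩
    exact fun h1 => hy.1 fun _ => (key x h y hy.2).trans (h1 hy.2.2)

end

end Pool.Agent.P.MP_6b977f_mp.EB
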