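import Pool.Agent.P.MP_6b977f_mp.EB.CLA
import Pool.Agent.P.MP_6b977f_mp.EB.CL
import Pool.Agent.P.MP_6b977f_mp.EB.HB1
import Pool.Agent.P.MP_6b977f_mp.EB.OP1
import Pool.Agent.P.MP_6b977f_mp.EB.OP2
import Pool.Agent.P.MP_6b977f_mp.EB.HB2
import Pool.Agent.P.MP_6b977f_mp.EB.RELL
import Pool.Agent.P.MP_6b977f_mp.EB.OP3
import Pool.Agent.P.MP_6b977f_mp.EB.DIL
import Pool.Agent.P.MP_6b977f_mp.EB.TAB
import Pool.Agent.P.MP_6b977f_mp.EB.MOSCO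
import Pool.Agent.P.MP_6b977f_mp.EB.TAB2
import Pool.Agent.P.MP_6b977f_mp.EB.CONV
import Pool.Agent.P.MP_6b977f_mp.EB.CLU
import Pool.Agent.P.MP_6b977f_mp.EB.C1T
import Pool.Agent.P.MP_6b977f_mp.EB.LIP
import Pool.Agent.P.MP_6b977f_mp.EB.HAD1
import Pool.Agent.P.MP_6b977f_mp.EB.HAD3
import Pool.Agent.P.MP_6b977f_mp.EB.GREEN
import Pool.Agent.P.MP_6b977f_mp.EB.HAD
import Pool.Agent.P.MP_6b977f_mp.EB.LA
import Pool.Agent.P.MP_6b977f_mp.EB.LA2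
import Pool.Agent.P.MP_6b977f_mp.EB.MV0
import Pool.Agent.P.MP_6b977f_mp.EB.MV1
import Pool.Agent.P.MP_6b977f_mp.EB.WEYL
import Pool.Agent.P.MP_6b977f_mp.EB.INT
import Pool.Agent.P.MP_6b977f_mp.EB.UC
import Pool.Agent.P.MP_6b977f_mp.EB.REG
import Pool.Agent.P.MP_6b977f_mp.EB.UC2
import Pool.Agent.P.MP_6b977f_mp.EB.REFL
import Pool.Agent.P.MP_6b977f_mp.EB.SPLIT
import Pool.Agent.P.MP_6b977f_mp.EB.STAB
import Pool.Agent.P.MP_6b977f_mp.EB.CFC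
import Pool.Agent.P.MP_6b977f_mp.EB.BOPEN
import Pool.Agent.P.MP_6b977f_mp.EB.SMOOTH
import Pool.Agent.P.MP_6b977f_mp.EB.BGEN
import Pool.Agent.P.MP_6b977f_mp.EB.RAT
import Pool.Agent.P.MP_6b977f_mp.EB.UNIQ
import Pool.Agent.P.MP_6b977f_mp.EB.LOCC
import Pool.Agent.P.MP_6b977f_mp.EB.TIGHT0
import Pool.Agent.P.MP_6b977f_mp.EB.TIGHT1
import Pool.Agent.P.MP_6b977f_mp.EB.LW
import Pool.Agent.P.MP_6b977f_mp.EB.BASIS
import Pool.Agent.P.MP_6b977f_mp.EB.BFIN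

/-! All statements of part S. -/

namespace Pool.Agent.P.MP_6b977f_mp.EB

theorem a_cla : S_CLA := t_cla 
theorem a_cl : S_CL := t_cl a_cla
theorem a_hb1 : S_HB1 := t_hb1 
theorem a_op1 : S_OP1 := t_op1 a_hb1
theorem a_op2 : S_OP2 := t_op2 a_hb1
theorem a_hb2 : S_HB2 := t_hb2 a_hb1
theorem a_rell : S_RELL := t_rell a_hb1 a_hb2
theorem a_op3 : S_OP3 := t_op3 a_rell a_op2
theorem a_dil : S_DIL := t_dil a_hb1
theorem a_tab : S_TAB := t_tab 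
theorem a_mosco : S_MOSCO := t_mosco a_dil a_hb1 a_tab
theorem a_tab2 : S_TAB2 := t_tab2 a_tab
theorem a_conv : S_CONV := t_conv a_op2 a_op3 a_rell a_mosco a_tab a_tab2 a_hb1
theorem a_clu : S_CLU := t_clu a_cl a_op1 a_op2 a_op3 a_conv a_tab a_hb1
theorem a_c1t : S_C1T := t_c1t a_hb2
theorem a_lip : S_LIP := t_lip a_c1t a_hb1
theorem a_had1 : S_HAD1 := t_had1 a_hb1 a_hb2 a_lip a_c1t
theorem a_had3 : S_HAD3 := t_had3 a_tab
theorem a_green : S_GREEN := t_green 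
theorem a_had : S_HAD := t_had a_had1 a_had3 a_green a_hb1 a_hb2 a_tab
theorem a_la : S_LA := t_la 
theorem a_la2 : S_LA2 := t_la2 a_la a_tab
theorem a_mv0 : S_MV0 := t_mv0 
theorem a_mv1 : S_MV1 := t_mv1 a_mv0
theorem a_weyl : S_WEYL := t_weyl a_mv1
theorem a_int : S_INT := t_int a_mv1
theorem a_uc : S_UC := t_uc a_int
theorem a_reg : S_REG := t_reg a_weyl a_hb1 a_hb2
theorem a_uc2 : S_UC2 := t_uc2 a_weyl a_uc a_green a_reg a_hb1 a_tab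
theorem a_refl : S_REFL := t_refl a_weyl a_lip a_hb1 a_hb2
theorem a_split : S_SPLIT := t_split a_clu a_had a_la2 a_uc2 a_refl a_hb1 a_tab
theorem a_stab : S_STAB := t_stab a_clu a_hb1
theorem a_cfc : S_CFC := t_cfc a_dil a_tab a_tab2
theorem a_bopen : S_BOPEN := t_bopen a_stab a_cfc
theorem a_smooth : S_SMOOTH := t_smooth 
theorem a_bgen (h : S_BST) : S_BGEN := t_bgen a_bopen h a_split a_cfc a_smooth
theorem a_rat : S_RAT := t_rat 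
theorem a_uniq : S_UNIQ := t_uniq 
theorem a_locc : S_LOCC := t_locc a_int a_reg
theorem a_tight0 : S_TIGHT0 := t_tight0 
theorem a_tight1 : S_TIGHT1 := t_tight1 a_int
theorem a_lw : S_LW := t_lw a_locc a_tight0 a_tight1 a_uniq
theorem a_basis : S_BASIS := t_basis a_reg a_hb1
theorem a_bfin : S_BFIN := t_bfin a_lw a_uniq a_basis a_reg a_hb1 a_tab

end Pool.Agent.P.MP_6b977f_mp.EB
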