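import Pool.Agent.P.MP_6b977f_mp.EB.IfS

/-! From the approximate random wave properties to the local weak limit. -/

namespace Pool.Agent.P.MP_6b977f_mp.EB

open Real MeasureTheory Filter Topology Laplacian Set Metric
open scoped ContDiff BoundedContinuousFunction ComplexConjugate Pointwise ENNReal

theorem bfin_ae (Ω : Set ℂ) (lam : ℝ) {F F' : ℂ → ℝ} (h : F =ᵐ[volume] F') (τ : ℂ →₀ ℝ) :
    cf Ω lam F τ = cf Ω lam F' τ := by
  refine average_congr (ae_restrict_of_ae ?_)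
  filter_upwards [(eventually_all_finset τ.support).2 fun x _ =>
    (measurePreserving_add_right volume (x / √lam : ℂ)).quasiMeasurePreserving.ae h] with z hz
  congr 3
  exact Finsupp.sum_congr fun x hx => by rw [hz x hx]

theorem bfin_neg (Ω : Set ℂ) (lam : ℝ) (F : ℂ → ℝ) (τ : ℂ →₀ ℝ) :
    ‖cf Ω lam (-F) τ - gauss τ‖ = ‖cf Ω lam F τ - gauss τ‖ := by
  rw [← Complex.norm_conj, map_sub, gauss, Complex.conj_ofReal]
  congr 2
  simp only [cf, average_eq, Complex.real_smul, map_mul, Complex.conj_ofReal, ← integral_conj,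
    ← Complex.exp_conj, Complex.conj_I, Finsupp.sum, Pi.neg_apply, mul_neg,
    Finset.sum_neg_distrib, Complex.ofReal_neg, map_neg, neg_mul, neg_neg]

theorem bfin_cut : Cut fun t => Real.smoothTransition (2 - 2 * t) :=
  ⟨Real.smoothTransition.contDiff.comp (by fun_prop),
    fun _ => ⟨Real.smoothTransition.nonneg _, Real.smoothTransition.le_one _⟩,
    ⟨1 / 2, by norm_num, fun t ht => Real.smoothTransition.one_of_one_le (by linarith)⟩,
    fun t ht => Real.smoothTransition.zero_of_nonpos (by linarith)⟩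

theorem bfin_eig (hreg : S_REG) (hhb1 : S_HB1) {Ω : Set ℂ} (ho : IsOpen Ω) {l : ℝ} (hl : 0 ≤ l)
    {f : ℂ → ℝ} {g : ℂ → ℂ} (h : Simple Ω l f g) :
    ∃ u, Eig Ω l u ∧ Ω.indicator u =ᵐ[volume] nrm Ω f := by
  have h1 := hhb1.2.2.2.2.2.2.2.2 Ω l 1 (fun _ => f) (fun _ => g)
    (fun _ => √(volume.real Ω / ∫ y, f y ^ 2)) fun _ => h.1
  simp only [Finset.univ_unique, Finset.sum_singleton] at h1
  obtain ⟨u, h2, h3, h4⟩ := hreg.1 Ω l _ _ ho hl h1
  have h5 : Ω.indicator u =ᵐ[volume] nrm Ω f := by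
    filter_upwards [h4, hhb1.2.2.2.2.2.1 Ω f g h.1.1] with x a b
    by_cases hx : x ∈ Ω
    · rw [indicator_of_mem hx, a hx, nrm]
    · rw [indicator_of_notMem hx, nrm, (b hx).1, mul_zero]
  refine ⟨u, ⟨h2.1, h2.2, h3, ?_⟩, h5⟩
  rw [← integral_indicator ho.measurableSet, integral_congr_ae (g := fun x =>
    volume.real Ω / (∫ y, f y ^ 2) * f x ^ 2), integral_const_mul, div_mul_cancel₀ _ h.2.1]
  filter_upwards [h5] with x hx
  rw [← sq_sqrt (x := volume.real Ω / ∫ y, f y ^ 2)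
    (div_nonneg measureReal_nonneg (integral_nonneg fun _ => sq_nonneg _)), ← mul_pow]
  change _ = nrm Ω f x ^ 2
  rw [← hx]
  by_cases hx' : x ∈ Ω <;> simp [hx']

theorem t_bfin (hlw : S_LW) (huniq : S_UNIQ) (hbasis : S_BASIS) (hreg : S_REG) (hhb1 : S_HB1)
    (htab : S_TAB) : S_BFIN := by
  intro D ρ hD hρ hG
  obtain ⟨ho, hb, h0, -⟩ := htab ρ hρ
  choose l f g hl hS hc using hG
  have l0 : ∀ n, 0 < l n := fun n => (Nat.cast_nonneg n).trans_lt (hl n)
  have lt : Tendsto l atTop atTop :=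
    tendsto_atTop_mono (fun n => (hl n).le) tendsto_natCast_atTop_atTop
  have key : ∀ (u : ℕ → ℂ → ℝ) (φ : ℕ → ℕ), Tendsto φ atTop atTop →
      (∀ n, Eig (table ρ) (l (φ n)) (u n)) →
      (∀ n, (table ρ).indicator (u n) =ᵐ[volume] nrm (table ρ) (f (φ n)) ∨
        (table ρ).indicator (u n) =ᵐ[volume] -nrm (table ρ) (f (φ n))) →
      ∀ χ, Cut χ → ∃ μ, IsRMW μ ∧ LWL μ χ (table ρ) (fun n => l (φ n)) u :=
    fun u φ hφ hE hu χ hχ => hlw D _ χ _ u hD ho hb ⟨0, h0⟩ hχ hE (lt.comp hφ) fun k => by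
      rw [tendsto_iff_norm_sub_tendsto_zero]
      refine squeeze_zero' (Eventually.of_forall fun _ => norm_nonneg _) ?_
        (tendsto_one_div_add_atTop_nhds_zero_nat.comp hφ)
      filter_upwards [hφ.eventually_ge_atTop k] with n hn
      rcases hu n with h | h
      · rw [bfin_ae _ _ h]; exact (hc _ k hn).le
      · rw [bfin_ae _ _ h, bfin_neg]; exact (hc _ k hn).le
  choose u hE hu using fun n => bfin_eig hreg hhb1 ho (l0 n).le (hS n)
  have k1 := key u id tendsto_id hE fun n => Or.inl (hu n)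
  refine ⟨(k1 _ bfin_cut).imp fun _ h => h.1, fun μ hμ χ hχ => ⟨?_, fun lam w hB => ?_⟩⟩
  · obtain ⟨ν, h1, h2⟩ := k1 χ hχ
    exact ⟨l, u, hE, lt, huniq ν μ h1 hμ ▸ h2⟩
  · choose i hi hw using fun n => hbasis _ lam w (l n) (f n) (g n) ho hb hB (l0 n) (hS n)
    have it : Tendsto i atTop atTop := tendsto_atTop.2 fun m => by
      filter_upwards [lt.eventually_gt_atTop (lam m)] with n hn
      exact (hB.mono.reflect_lt (hi n ▸ hn)).le
    obtain ⟨φ, h1, h2⟩ := strictMono_subseq_of_tendsto_atTop it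
    obtain ⟨ν, h3, h4⟩ := key (w ∘ i ∘ φ) φ h1.tendsto_atTop
      (fun n => hi (φ n) ▸ hB.eig (i (φ n))) (fun n => hw (φ n)) χ hχ
    refine ⟨i ∘ φ, h2, huniq ν μ h3 hμ ▸ ?_⟩
    rwa [show lam ∘ i ∘ φ = fun n => l (φ n) from funext fun n => hi (φ n)]

end Pool.Agent.P.MP_6b977f_mp.EB
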