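import Pool.Agent.P.MP_6b977f_mp.EB.IfS

/-! Continuity of the characteristic function of the local statistics. -/

namespace Pool.Agent.P.MP_6b977f_mp.EB

open Real MeasureTheory Filter Topology Laplacian Set Metric
open scoped ContDiff BoundedContinuousFunction ComplexConjugate Pointwise ENNReal

/-- Convergence in `L²`. -/
def cfc_Cv (g : ℕ → ℂ → ℝ) (g₀ : ℂ → ℝ) : Prop :=
  ∃ (h : ∀ n, MemLp (g n) 2 volume) (h₀ : MemLp g₀ 2 volume),
    Tendsto (fun n => (h n).toLp (g n)) atTop (𝓝 (h₀.toLp g₀))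

variable {g g' : ℕ → ℂ → ℝ} {g₀ g₀' : ℂ → ℝ}

theorem cfc_add (h : cfc_Cv g g₀) (h' : cfc_Cv g' g₀') :
    cfc_Cv (fun n => g n + g' n) (g₀ + g₀') :=
  let ⟨a, b, c⟩ := h; let ⟨a', b', c'⟩ := h'
  ⟨fun n => (a n).add (a' n), b.add b', c.add c'⟩

theorem cfc_smul (h : cfc_Cv g g₀) {c : ℕ → ℝ} {c₀ : ℝ} (hc : Tendsto c atTop (𝓝 c₀)) :
    cfc_Cv (fun n => c n • g n) (c₀ • g₀) :=
  let ⟨a, b, d⟩ := h
  ⟨fun n => (a n).const_smul _, b.const_smul _, hc.smul d⟩

theorem cfc_sum {ι : Type} (s : Finset ι) {g : ι → ℕ → ℂ → ℝ} {g₀ : ι → ℂ → ℝ}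
    (h : ∀ i, cfc_Cv (g i) (g₀ i)) :
    cfc_Cv (fun n z => ∑ i ∈ s, g i n z) fun z => ∑ i ∈ s, g₀ i z := by
  classical
  induction s using Finset.induction_on with
  | empty => exact ⟨fun _ => MemLp.zero, MemLp.zero, tendsto_const_nhds⟩
  | insert a s ha ih =>
    simp only [Finset.sum_insert ha]
    exact cfc_add (h a) ih

theorem cfc_sq {f : ℂ → ℝ} (h : MemLp f 2 volume) : ∫ x, f x ^ 2 = ‖h.toLp f‖ ^ 2 := by
  rw [← real_inner_self_eq_norm_sq, L2.inner_def]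
  refine integral_congr_ae ?_
  filter_upwards [h.coeFn_toLp] with x hx
  rw [hx, real_inner_self_eq_norm_sq, Real.norm_eq_abs, sq_abs]

theorem cfc_int (h : cfc_Cv g g₀) :
    Tendsto (fun n => ∫ x, g n x ^ 2) atTop (𝓝 (∫ x, g₀ x ^ 2)) := by
  obtain ⟨a, b, c⟩ := h
  simp only [cfc_sq (a _), cfc_sq b]
  exact c.norm.pow 2

theorem cfc_shift (hdil : S_DIL) (h : cfc_Cv g g₀) {a : ℕ → ℂ} {a₀ : ℂ}
    (ha : Tendsto a atTop (𝓝 a₀)) :
    cfc_Cv (fun n z => g n (z + a n)) fun z => g₀ (z + a₀) := by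
  obtain ⟨h1, h2, h3⟩ := h
  have mp := fun a : ℂ => measurePreserving_add_right (volume : Measure ℂ) a
  have h4 := fun a => h2.comp_measurePreserving (mp a)
  refine ⟨fun n => (h1 n).comp_measurePreserving (mp _), h4 _, ?_⟩
  rw [Lp.tendsto_Lp_iff_tendsto_eLpNorm''] at h3 ⊢
  have h5 := (hdil.2.2.1 _ (h4 a₀)).comp
    ((tendsto_const_nhds (x := (1 : ℝ))).prodMk_nhds (tendsto_sub_nhds_zero_iff.2 ha))
  refine tendsto_of_tendsto_of_tendsto_of_le_of_le tendsto_const_nhds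
    (by simpa only [add_zero] using h3.add h5) (fun _ => zero_le) fun n => ?_
  have e : ((fun z => g n (z + a n)) - fun z => g₀ (z + a₀)) =
      (g n - g₀) ∘ (· + a n) + (g₀ ∘ (· + a n) - g₀ ∘ (· + a₀)) := by
    funext z; simp
  have m := ((h1 n).sub h2).1
  dsimp only
  rw [e]
  refine (eLpNorm_add_le (m.comp_measurePreserving (mp _)) ((h4 _).sub (h4 _)).1
    one_le_two).trans (add_le_add (eLpNorm_comp_measurePreserving m (mp _)).le (le_of_eq ?_))
  simp only [Function.comp_apply]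
  congr 2
  funext z
  simp [add_assoc]

theorem cfc_exp (a b : ℝ) :
    ‖Complex.exp (Complex.I * a) - Complex.exp (Complex.I * b)‖ ≤ ‖a - b‖ := by
  have : Complex.exp (Complex.I * a) - Complex.exp (Complex.I * b) =
      Complex.exp (Complex.I * b) * (Complex.exp (Complex.I * (a - b : ℝ)) - 1) := by
    rw [mul_sub, ← Complex.exp_add]; push_cast; ring_nf
  rw [this, norm_mul, Complex.norm_exp_I_mul_ofReal, one_mul]
  exact norm_exp_I_mul_ofReal_sub_one_le

theorem cfc_dom (h : cfc_Cv g g₀) {A : ℕ → Set ℂ} {A₀ : Set ℂ} (mA : ∀ n, MeasurableSet (A n))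
    (mA₀ : MeasurableSet A₀) (fA : ∀ n, volume (A n) < ⊤) (fA₀ : volume A₀ < ⊤)
    (hA : Tendsto (fun n => volume (symmDiff (A n) A₀)) atTop (𝓝 0)) :
    Tendsto (fun n => ∫ z in A n, Complex.exp (Complex.I * g n z)) atTop
      (𝓝 (∫ z in A₀, Complex.exp (Complex.I * g₀ z))) := by
  obtain ⟨h1, h2, h3⟩ := h
  rw [Lp.tendsto_Lp_iff_tendsto_eLpNorm''] at h3
  have int : ∀ (f : ℂ → ℝ) (B : Set ℂ), MemLp f 2 volume → MeasurableSet B → volume B < ⊤ →
      Integrable (B.indicator fun z => Complex.exp (Complex.I * f z)) := fun f B hf mB fB => by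
    rw [integrable_indicator_iff mB]
    refine Measure.integrableOn_of_bounded (M := 1) fB.ne ?_
      (Eventually.of_forall fun z => (Complex.norm_exp_I_mul_ofReal _).le)
    exact (by fun_prop : Continuous fun t : ℝ => Complex.exp (Complex.I * t))
      |>.comp_aestronglyMeasurable hf.1
  simp only [← integral_indicator (mA _), ← integral_indicator mA₀]
  refine tendsto_integral_of_L1 _ (int _ _ h2 mA₀ fA₀).1
    (Eventually.of_forall fun n => int _ _ (h1 n) (mA n) (fA n)) ?_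
  have h4 := ENNReal.Tendsto.mul_const (b := volume A₀ ^ (1 / 2 : ℝ)) h3
    (Or.inr (ENNReal.rpow_ne_top_of_nonneg (by norm_num) fA₀.ne))
  refine tendsto_of_tendsto_of_tendsto_of_le_of_le tendsto_const_nhds
    (by simpa only [add_zero, zero_mul] using hA.add h4) (fun _ => zero_le) fun n => ?_
  have ms : MeasurableSet (symmDiff (A n) A₀) := (mA n).symmDiff mA₀
  have h5 : ∀ z, ‖(A n).indicator (fun z => Complex.exp (Complex.I * g n z)) z -
      A₀.indicator (fun z => Complex.exp (Complex.I * g₀ z)) z‖ₑ ≤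
      (symmDiff (A n) A₀).indicator 1 z + A₀.indicator (fun z => ‖(g n - g₀) z‖ₑ) z := fun z => by
    by_cases a : z ∈ A n <;> by_cases b : z ∈ A₀
    · simp only [indicator_of_mem a, indicator_of_mem b]
      exact le_add_left (enorm_le_iff_norm_le.2 (cfc_exp _ _))
    · simp [a, b, Set.mem_symmDiff, ← ofReal_norm]
    · simp [a, b, Set.mem_symmDiff, ← ofReal_norm]
    · simp [a, b]
  refine (lintegral_mono h5).trans ?_
  rw [lintegral_add_left (measurable_one.indicator ms), lintegral_indicator_one ms,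
    lintegral_indicator mA₀, ← eLpNorm_one_eq_lintegral_enorm]
  refine add_le_add le_rfl ((eLpNorm_le_eLpNorm_mul_rpow_measure_univ one_le_two
    ((h1 n).sub h2).1.restrict).trans ?_)
  rw [Measure.restrict_apply_univ]
  refine mul_le_mul' (eLpNorm_mono_measure _ Measure.restrict_le_self) (le_of_eq ?_)
  norm_num

theorem cfc_seq (hdil : S_DIL) (h : cfc_Cv g g₀) (h0 : ∫ x, g₀ x ^ 2 ≠ 0) {A : ℕ → Set ℂ}
    {A₀ : Set ℂ} (mA : ∀ n, MeasurableSet (A n)) (mA₀ : MeasurableSet A₀)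
    (fA : ∀ n, volume (A n) < ⊤) (fA₀ : volume A₀ < ⊤) (pA₀ : 0 < volume A₀)
    (hA : Tendsto (fun n => volume (symmDiff (A n) A₀)) atTop (𝓝 0)) {l : ℕ → ℝ} {l₀ : ℝ}
    (l0 : 0 < l₀) (hl : Tendsto l atTop (𝓝 l₀)) (τ : ℂ →₀ ℝ) :
    Tendsto (fun n => cf (A n) (l n) (nrm (A n) (g n)) τ) atTop (𝓝 (cf A₀ l₀ (nrm A₀ g₀) τ)) := by
  have hv : Tendsto (fun n => volume.real (A n)) atTop (𝓝 (volume.real A₀)) := by
    have := cfc_dom (g := fun _ => 0) (g₀ := 0) ⟨fun _ => MemLp.zero, MemLp.zero,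
      tendsto_const_nhds⟩ mA mA₀ fA fA₀ hA
    simpa [Function.comp_def] using (Complex.continuous_re.tendsto _).comp this
  have h1 : cfc_Cv (fun n => nrm (A n) (g n)) (nrm A₀ g₀) :=
    cfc_smul h (hv.div (cfc_int h) h0).sqrt
  have h2 := cfc_sum τ.support fun x => cfc_smul (cfc_shift hdil h1 (a := fun n => x / √(l n))
    (tendsto_const_nhds.div ((Complex.continuous_ofReal.tendsto _).comp hl.sqrt)
      (Complex.ofReal_ne_zero.2 (Real.sqrt_pos.2 l0).ne'))) (tendsto_const_nhds (x := τ x))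
  simp only [cf, setAverage_eq]
  exact (hv.inv₀ (ENNReal.toReal_pos pA₀.ne' fA₀.ne).ne').smul (cfc_dom h2 mA mA₀ fA fA₀ hA)

theorem t_cfc (hdil : S_DIL) (htab : S_TAB) (htab2 : S_TAB2) : S_CFC := by
  intro ρ lam f τ ε hρ l0 hf h0 ε0
  by_contra! hc
  choose σ l y h1 h2 h3 h4 h5 h6 using fun n : ℕ => hc (1 / ((n : ℝ) + 1)) (by positivity)
  have t0 : Tendsto (fun n : ℕ => 1 / ((n : ℝ) + 1)) atTop (𝓝 0) :=
    tendsto_one_div_add_atTop_nhds_zero_nat
  have key := cfc_seq hdil (g := y) ⟨h4, hf, (Lp.tendsto_Lp_iff_tendsto_eLpNorm'' _ _ _ _).2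
      (tendsto_of_tendsto_of_tendsto_of_le_of_le tendsto_const_nhds
        (by simpa only [ENNReal.ofReal_zero] using ENNReal.tendsto_ofReal t0)
        (fun _ => zero_le) fun n => (h5 n).le)⟩ h0
    (fun n => (htab _ (h1 n)).1.measurableSet) (htab _ hρ).1.measurableSet
    (fun n => (htab _ (h1 n)).2.2.2.2.2.2.2.2.2.2) (htab _ hρ).2.2.2.2.2.2.2.2.2.2
    (htab _ hρ).2.2.2.2.2.2.2.2.2.1 (ENNReal.tendsto_nhds_zero.2 fun η η0 => by
      obtain ⟨δ, δ0, h⟩ := (htab2 ρ hρ).2.1 η η0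
      filter_upwards [t0.eventually (eventually_le_nhds δ0)] with n hn
      exact (h _ (h1 n) fun x => (h2 n x).trans hn).le) l0
    (tendsto_iff_norm_sub_tendsto_zero.2 (squeeze_zero (fun _ => norm_nonneg _)
      (fun n => (h3 n).le) t0)) τ
  obtain ⟨n, hn⟩ := ((tendsto_iff_norm_sub_tendsto_zero.1 key).eventually
    (eventually_lt_nhds ε0)).exists
  exact hn.not_ge (h6 n)

end Pool.Agent.P.MP_6b977f_mp.EB
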