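import Pool.Agent.P.MP_6b977f_mp.EB.IfS

/-! The spectral subspace of a window for a compact symmetric operator. -/

namespace Pool.Agent.P.MP_6b977f_mp.EB

open Real MeasureTheory Filter Topology Laplacian Set Metric
open scoped ContDiff BoundedContinuousFunction ComplexConjugate Pointwise ENNReal

section
variable {H : Type} [NormedAddCommGroup H] [InnerProductSpace ℝ H] {B : H →L[ℝ] H}

/-- the span of the eigenvectors with eigenvalue in `W` -/
noncomputable def claSp (B : H →L[ℝ] H) (W : Set ℝ) : Submodule ℝ H :=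
  ⨆ μ ∈ W, Module.End.eigenspace (B : Module.End ℝ H) μ

theorem cla_ortho (hB : (B : H →ₗ[ℝ] H).IsSymmetric) {W W' : Set ℝ} (h : Disjoint W W') :
    claSp B W ⟂ claSp B W' := by
  simp only [claSp, Submodule.isOrtho_iSup_left, Submodule.isOrtho_iSup_right]
  intro ν hν μ hμ
  exact hB.orthogonalFamily_eigenspaces.isOrtho fun e => Set.disjoint_left.1 h hμ (e ▸ hν)

theorem cla_mem {W : Set ℝ} {μ : ℝ} (hμ : μ ∈ W) {v : H} (hv : B v = μ • v) : v ∈ claSp B W :=
  Submodule.mem_iSup_of_mem μ (Submodule.mem_iSup_of_mem hμ (Module.End.mem_eigenspace_iff.2 hv))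

theorem cla_inv (W : Set ℝ) : ∀ v ∈ claSp B W, B v ∈ claSp B W := by
  have : claSp B W ≤ (claSp B W).comap (B : H →ₗ[ℝ] H) := iSup₂_le fun μ hμ v hv => by
    have h : B v = μ • v := Module.End.mem_eigenspace_iff.1 hv
    change B v ∈ claSp B W
    rw [h]
    exact Submodule.smul_mem _ _ (cla_mem hμ h)
  exact this

theorem cla_sign (hB : (B : H →ₗ[ℝ] H).IsSymmetric) {W : Set ℝ} {κ δ e : ℝ}
    (h : ∀ μ ∈ W, 0 ≤ e * ((μ - κ) ^ 2 - δ ^ 2)) :
    ∀ v ∈ claSp B W, 0 ≤ e * (‖B v - κ • v‖ ^ 2 - δ ^ 2 * ‖v‖ ^ 2) := by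
  classical
  have key : ∀ s : Finset ℝ, (s : Set ℝ) ⊆ W → ∀ v ∈ claSp B s,
      0 ≤ e * (‖B v - κ • v‖ ^ 2 - δ ^ 2 * ‖v‖ ^ 2) := by
    intro s
    induction s using Finset.induction_on with
    | empty =>
      intro _ v hv
      have : v = 0 := by simpa [claSp] using hv
      simp [this]
    | insert μ s hμ ih =>
      intro hs v hv
      rw [claSp, Finset.coe_insert, iSup_insert] at hv
      obtain ⟨a, ha, b, hb, rfl⟩ := Submodule.mem_sup.1 hv
      have h1 : B a = μ • a := Module.End.mem_eigenspace_iff.1 ha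
      have ho := cla_ortho hB (W := {μ}) (W' := s) (by simpa using hμ)
      have ha' : a ∈ claSp B {μ} := cla_mem (mem_singleton μ) h1
      have hb' : b ∈ claSp B s := hb
      have h2 : inner ℝ a b = 0 := ho.inner_eq ha' hb'
      have h3 : inner ℝ a (B b) = 0 := ho.inner_eq ha' (cla_inv _ b hb')
      have e1 : B (a + b) - κ • (a + b) = (μ - κ) • a + (B b - κ • b) := by
        rw [map_add, h1]; module
      have h4 := ih (fun x hx => hs (by simp [Finset.mem_coe.1 hx])) b hb'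
      have h5 := mul_nonneg (h μ (hs (by simp))) (sq_nonneg ‖a‖)
      rw [e1, norm_add_sq_real, norm_add_sq_real, h2, inner_smul_left, inner_sub_right,
        inner_smul_right, h2, h3, norm_smul, mul_pow, Real.norm_eq_abs, sq_abs]
      simp only [mul_zero, sub_zero, add_zero]
      linarith
  intro v hv
  rw [claSp, iSup_subtype'] at hv
  obtain ⟨s, hs⟩ := Submodule.mem_iSup_iff_exists_finset.1 hv
  refine key (s.image Subtype.val) (fun x hx => ?_) v ?_
  · obtain ⟨y, -, rfl⟩ := Finset.mem_image.1 hx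
    exact y.2
  · refine (iSup₂_le fun μ hμ w hw => ?_ : _ ≤ claSp B _) hs
    exact cla_mem (Finset.mem_coe.2 (Finset.mem_image_of_mem _ hμ))
      (Module.End.mem_eigenspace_iff.1 hw)

theorem cla_fin (hc : IsCompactOperator B) (F : Submodule ℝ H) {c : ℝ} (c0 : 0 < c)
    (h : ∀ v ∈ F, c * ‖v‖ ≤ ‖B v‖) : FiniteDimensional ℝ F := by
  obtain ⟨K, hK, hK'⟩ := hc
  have ha : AntilipschitzWith ⟨c⁻¹, by positivity⟩ (B.comp F.subtypeL) :=
    AddMonoidHomClass.antilipschitz_of_bound _ fun x => (le_inv_mul_iff₀ c0).2 (h x x.2)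
  refine FiniteDimensional.of_totallyBounded_nhds_zero ℝ (U := (B.comp F.subtypeL) ⁻¹' K) ?_
    (totallyBounded_preimage (ha.isUniformInducing (B.comp F.subtypeL).uniformContinuous)
      hK.totallyBounded)
  exact F.subtypeL.continuous.continuousAt.preimage_mem_nhds (x := 0) (t := B ⁻¹' K) hK'

theorem cla_main [CompleteSpace H] (κ δ : ℝ) (hc : IsCompactOperator B)
    (hB : (B : H →ₗ[ℝ] H).IsSymmetric) (δ0 : 0 < δ) (hκ : δ < |κ|) :
    ∃ (d : ℕ) (y : Fin d → H) (k : Fin d → ℝ), Orthonormal ℝ y ∧ (∀ i, B (y i) = k i • y i) ∧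
    (∀ i, |k i - κ| < δ) ∧
    (∀ v ∈ Submodule.span ℝ (range y), ‖B v - κ • v‖ ≤ δ * ‖v‖) ∧
    ∀ v ∈ (Submodule.span ℝ (range y))ᗮ, δ * ‖v‖ ≤ ‖B v - κ • v‖ := by
  set W : Set ℝ := {μ | |μ - κ| < δ} with hW
  have hup : ∀ v ∈ claSp B W, ‖B v - κ • v‖ ≤ δ * ‖v‖ := fun v hv => by
    have := cla_sign hB (κ := κ) (δ := δ) (e := -1) (fun μ hμ => by
      have hμ' : |μ - κ| < δ := hμ
      have := sq_lt_sq' (abs_lt.1 hμ').1 (abs_lt.1 hμ').2
      linarith) v hv
    exact le_of_sq_le_sq (by rw [mul_pow]; linarith) (by positivity)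
  have hlo : ∀ v ∈ claSp B Wᶜ, δ * ‖v‖ ≤ ‖B v - κ • v‖ := fun v hv => by
    have := cla_sign hB (κ := κ) (δ := δ) (e := 1) (fun μ hμ => by
      have := pow_le_pow_left₀ δ0.le (not_lt.1 hμ) 2
      rw [sq_abs] at this
      linarith) v hv
    exact le_of_sq_le_sq (by rw [mul_pow]; linarith) (by positivity)
  have hfin := cla_fin hc (claSp B W) (sub_pos.2 hκ) fun v hv => by
    have h1 := norm_sub_norm_le (κ • v) (B v)
    rw [norm_sub_rev, norm_smul, Real.norm_eq_abs] at h1
    linarith [hup v hv]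
  have hT := hB.restrict_invariant (cla_inv W)
  let b := hT.eigenvectorBasis rfl
  have hb : ∀ i, B (b i) = hT.eigenvalues rfl i • (b i : H) := fun i =>
    congrArg Subtype.val (hT.apply_eigenvectorBasis rfl i)
  have hon : Orthonormal ℝ fun i => (b i : H) :=
    b.orthonormal.comp_linearIsometry (claSp B W).subtypeₗᵢ
  have hsp : Submodule.span ℝ (range fun i => (b i : H)) = claSp B W := by
    have := congrArg (Submodule.map (claSp B W).subtype) b.toBasis.span_eq
    rwa [Submodule.map_span, ← range_comp, Submodule.map_subtype_top] at this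
  have ho := cla_ortho hB (W := W) (W' := Wᶜ) disjoint_compl_right
  refine ⟨_, fun i => b i, hT.eigenvalues rfl, hon, hb, fun i => ?_, hsp.symm ▸ hup, ?_⟩
  · by_contra h
    exact hon.ne_zero i (inner_self_eq_zero.1 (ho.inner_eq (b i).2 (cla_mem h (hb i))))
  · rw [hsp]
    intro v hv
    obtain ⟨g, hg, r, hr, rfl⟩ := (claSp B Wᶜ).topologicalClosure.exists_add_mem_mem_orthogonal v
    have h1 : g ∈ (claSp B W)ᗮ :=
      (claSp B Wᶜ).topologicalClosure_minimal ho.ge (Submodule.isClosed_orthogonal _) hg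
    have h2 : r ∈ (claSp B W ⊔ claSp B Wᶜ)ᗮ := by
      rw [← Submodule.inf_orthogonal]
      exact ⟨by simpa using Submodule.sub_mem _ hv h1,
        Submodule.orthogonal_le (Submodule.le_topologicalClosure _) hr⟩
    rw [claSp, claSp, ← iSup_union, union_compl_self, iSup_univ,
      ContinuousLinearMap.orthogonalComplement_iSup_eigenspaces_eq_bot hc hB,
      Submodule.mem_bot] at h2
    rw [h2, add_zero]
    exact closure_minimal (t := {v | δ * ‖v‖ ≤ ‖B v - κ • v‖}) hlo
      (isClosed_le (by fun_prop) (by fun_prop)) hg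

end

theorem t_cla : S_CLA := fun _ κ δ hc hs h0 h1 => cla_main κ δ hc hs h0 h1

end Pool.Agent.P.MP_6b977f_mp.EB
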