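import Pool.Agent.P.MP_6b977f_mp.EB.IfB

/-! The core of the construction: a table on whose boundary the corrected wave vanishes. -/

namespace Pool.Agent.P.MP_6b977f_mp.EB

open Real MeasureTheory Filter Topology Laplacian Set Metric
open scoped ContDiff BoundedContinuousFunction ComplexConjugate Pointwise ENNReal

noncomputable section

lemma core_norm_ex (t : ℝ) : ‖ex t‖ = 1 := by
  unfold ex; exact Complex.norm_exp_ofReal_mul_I t

lemma core_ex_add (t : ℝ) (m : ℤ) : ex (t + m * (2 * π)) = ex t := by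
  unfold ex
  have h : ((t + m * (2 * π) : ℝ) : ℂ) * Complex.I =
      t * Complex.I + m * (2 * π * Complex.I) := by push_cast; ring
  rw [h, Complex.exp_add, Complex.exp_int_mul_two_pi_mul_I, mul_one]

lemma core_polar (y : ℂ) : y = (‖y‖ : ℝ) * ex y.arg := by
  unfold ex; exact (Complex.norm_mul_exp_arg_mul_I y).symm

lemma core_inv_pow {μ : ℝ} (hμ : 1 ≤ μ) {a b : ℕ} (h : a ≤ b) : (μ ^ b)⁻¹ ≤ (μ ^ a)⁻¹ :=
  inv_anti₀ (by positivity) (pow_le_pow_right₀ hμ h)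

lemma core_kill_mono {H : ℝ} {W u : ℤ → ℂ → ℂ} {J N N' : ℕ} {μ c C : ℝ} {Z : Finset ℂ}
    {n : ℂ → ℂ} {r B : ℂ → ℝ} {M : ℂ → ℕ} (hμ : 1 ≤ μ) (h : N ≤ N')
    (hK : Kill H W u J N' μ c C Z n r B M) : Kill H W u J N μ c C Z n r B M :=
  ⟨hK.lad, hK.real, hK.odd, hK.jet, hK.near,
    fun y hy hp l hl => (hK.far y hy hp l hl).trans (core_inv_pow hμ h)⟩

lemma core_open (Z : Finset ℂ) (f g : ℂ → ℂ) : IsOpen {y | ∀ p ∈ Z, y ≠ f p ∧ y ≠ g p} := by
  have h : {y | ∀ p ∈ Z, y ≠ f p ∧ y ≠ g p} = ⋂ p ∈ Z, ({f p}ᶜ ∩ {g p}ᶜ : Set ℂ) := by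
    ext y; simp
  rw [h]
  exact isOpen_biInter_finset fun p _ => isOpen_compl_singleton.inter isOpen_compl_singleton

lemma core_mir_im (H : ℝ) (z : ℂ) : (mir H z).im = -z.im - 2 * H := by
  simp [mir]

lemma core_mir_fix (H : ℝ) (z : ℂ) (h : z.im = -H) : mir H z = z := by
  apply Complex.ext
  · simp [mir]
  · rw [core_mir_im, h]; ring

lemma core_zero_line {H : ℝ} {u : ℤ → ℂ → ℂ} (hr : RealL u) (ho : OddL H u) (z : ℂ)
    (h : z.im = -H) : u 0 z = 0 := by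
  have h1 := hr 0 z
  have h2 := ho 0 z
  rw [core_mir_fix H z h] at h2
  simp only [neg_zero, zpow_zero, one_mul] at h1
  rw [← h1] at h2
  linear_combination h2 / 2

lemma core_nn_norm (P : Poly) (p : ℂ) : ‖P.nn p‖ ≤ 1 := by
  unfold Poly.nn
  split_ifs
  · simp
  · simp
  · rw [norm_div, Complex.norm_real, norm_norm]
    exact div_self_le_one _

/-- The sources lie above the line of the bottom side. -/
lemma core_src {P : Poly} {W : ℤ → ℂ → ℂ} {J : ℕ} {μ c c₀ R : ℝ} {Z : Finset ℂ} {r : ℂ → ℝ}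
    {M b : ℂ → ℕ} (hOk : P.Ok c) (hBot : P.Bot) (hC : Cen P W J μ c c₀ R Z r M b)
    (hμ : 1 ≤ μ) (hμc : 1 ≤ c ^ 2 * μ) (p : ℂ) (hp : p ∈ Z) :
    (P.V 0).im ≤ (p + r p * P.nn p).im := by
  have hr : 0 < r p := lt_of_lt_of_le (by positivity) (hC.lev p hp).1
  have h1 : (P.V 1).im = (P.V 0).im := by
    have := hOk.step 0 (by have := hOk.three; omega)
    rw [zero_add, hBot.1] at this
    rw [this]; simp
  by_cases h0 : p = P.V 0
  · have hn : P.nn p = -1 := by unfold Poly.nn; rw [if_pos h0]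
    rw [hn, h0]; simp
  by_cases h1' : p = P.V 1
  · have hn : P.nn p = 1 := by unfold Poly.nn; rw [if_neg h0, if_pos h1']
    rw [hn, h1']; simp [h1]
  have hh := hC.high p hp h0 h1'
  have h2 : |((r p : ℂ) * P.nn p).im| ≤ r p := by
    refine (Complex.abs_im_le_norm _).trans ?_
    rw [norm_mul, Complex.norm_real, Real.norm_eq_abs, abs_of_pos hr]
    exact mul_le_of_le_one_right hr.le (core_nn_norm P p)
  rw [Complex.add_im]
  have h3 := (abs_le.mp h2).1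
  have h4 : r p ≤ c ^ 2 * μ * r p := le_mul_of_one_le_left hr.le hμc
  linarith

theorem t_core (hwin : S_WIN) (hplace : S_PLACE) (hcen : S_CEN) (hrfs : S_RFS) (hglue : S_GLUE)
    (hpol0 : S_POL0) (htab : S_TAB) : S_CORE := by
  intro q J W B₀ c₀ c η ε hW hc hη hε
  obtain ⟨η', hη'0, hη'1, hη'η⟩ : ∃ η' : ℝ, 0 < η' ∧ η' ≤ 1 ∧ η' ≤ η :=
    ⟨min η 1, lt_min hη one_pos, min_le_right _ _, min_le_left _ _⟩
  have hη₂ : 0 < η' * c ^ 2 / 8 := by positivity
  obtain ⟨N, hN⟩ := hwin q J W B₀ c₀ c _ hW hc hη₂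
  refine ⟨max N ((8 * J + 2) * J + 3), fun N0 => ?_⟩
  obtain ⟨C, μ₁, hC, hP⟩ := hplace q J N0 (N + 1) W B₀ c₀ c hW hc
  obtain ⟨μ₂, hμ₂⟩ := hN C hC
  have hB₀ : 0 ≤ B₀ := (norm_nonneg _).trans (hW.bdd 0 0)
  refine ⟨|μ₁| + |μ₂| + 1 + c⁻¹ + (c ^ 2)⁻¹ + 4 / (η' * c) + C * B₀ / ε + ε⁻¹, ?_⟩
  intro μ hμ R P ρ hOk hRho hBot hDir hGeo hR hper
  have p1 : 0 ≤ |μ₁| := abs_nonneg _
  have p2 : 0 ≤ |μ₂| := abs_nonneg _
  have p3 : 0 ≤ c⁻¹ := by positivity
  have p4 : 0 ≤ (c ^ 2)⁻¹ := by positivity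
  have p5 : 0 ≤ 4 / (η' * c) := by positivity
  have p6 : 0 ≤ C * B₀ / ε := by positivity
  have p7 : 0 ≤ ε⁻¹ := by positivity
  have m1 : μ₁ ≤ μ := by linarith [le_abs_self μ₁]
  have m2 : μ₂ ≤ μ := by linarith [le_abs_self μ₂]
  have m3 : 1 ≤ μ := by linarith
  have m0 : 0 < μ := by linarith
  have m4 : c⁻¹ ≤ μ := by linarith
  have m5 : 1 ≤ c ^ 2 * μ := by
    have : (c ^ 2)⁻¹ ≤ μ := by linarith
    rwa [inv_le_iff_one_le_mul₀' (by positivity)] at this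
  have m6 : μ⁻¹ ≤ η' * c / 4 := by
    have : 4 / (η' * c) ≤ μ := by linarith
    rw [div_le_iff₀ (by positivity)] at this
    rw [inv_le_iff_one_le_mul₀' m0]
    linarith
  have m7 : C * B₀ / μ ≤ ε := by
    have : C * B₀ / ε ≤ μ := by linarith
    rw [div_le_iff₀ hε] at this
    rw [div_le_iff₀ m0]
    linarith
  have m8 : μ⁻¹ ≤ ε := by
    have : ε⁻¹ ≤ μ := by linarith
    exact inv_le_of_inv_le₀ hε this
  have m9 : μ⁻¹ ≤ c := inv_le_of_inv_le₀ hc m4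
  obtain ⟨Z, r, M, b, hCen⟩ := hcen q J W B₀ c₀ c μ R P ρ hW hOk hGeo m4
  obtain ⟨u, hK⟩ := hP μ m1 R P ρ Z r M b hOk hRho hBot hDir hGeo hR hCen
    (fun m hm j y => (hper m hm j y).trans (core_inv_pow m3 (le_max_right _ _)))
  have hwx := hμ₂ μ m2 R P ρ Z r M b u hOk hRho hBot hDir hGeo hCen
    (fun m hm j y => (hper m hm j y).trans (core_inv_pow m3 (le_max_left _ _)))
    (core_kill_mono m3 (Nat.le_succ N) hK)
  have hr0 : ∀ p ∈ Z, 0 < r p := fun p hp => lt_of_lt_of_le (by positivity) (hCen.lev p hp).1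
  have hr1 : ∀ p ∈ Z, r p ≤ μ⁻¹ := fun p hp => by
    have := (hCen.lev p hp).2.trans (core_inv_pow m3 (show 1 ≤ 6 by norm_num))
    rwa [pow_one] at this
  have hμ1 : μ⁻¹ ≤ 1 := inv_le_one_of_one_le₀ m3
  have hc4 := hGeo.c_le
  -- the good points
  set O : Set ℂ := {y | ∀ p ∈ Z, y ≠ p + r p * P.nn p ∧
    y ≠ mir (-(P.V 0).im) (p + r p * P.nn p)} with hO
  have hOo : IsOpen O := core_open Z (fun p => p + r p * P.nn p)
    (fun p => mir (-(P.V 0).im) (p + r p * P.nn p))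
  have good_O : ∀ y : ℂ, ((P.V 0).im ≤ y.im ∧
      ∀ p ∈ Z, c / 2 * r p ≤ ‖y - (p + r p * P.nn p)‖) → y ∈ O := by
    intro y hy p hp
    have h1 : y ≠ p + r p * P.nn p := by
      intro h
      have h2 := hy.2 p hp
      rw [← h, sub_self, norm_zero] at h2
      have := hr0 p hp
      have : 0 < c / 2 * r p := by positivity
      linarith
    refine ⟨h1, fun h => h1 ?_⟩
    have h2 := core_src hOk hBot hCen m3 m5 p hp
    have h3 := hy.1
    rw [h, core_mir_im] at h3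
    rw [h]
    apply core_mir_fix
    linarith
  have good_close : ∀ y : ℂ, ((P.V 0).im ≤ y.im ∧
      ∀ p ∈ Z, c / 2 * r p ≤ ‖y - (p + r p * P.nn p)‖) →
      ‖u 0 y - W 0 (y - P.V 0)‖ ≤ ε := by
    intro y hy
    have hyH : -(-(P.V 0).im) ≤ y.im := by rw [neg_neg]; exact hy.1
    by_cases hf : ∀ p ∈ Z, c ^ 2 / 2 * μ * r p ≤ ‖y - p‖
    · have h1 := hK.far y hyH hf 0 (by simp)
      have h2 := core_inv_pow m3 (show 1 ≤ N + 1 by omega)
      rw [pow_one] at h2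
      exact h1.trans (h2.trans m8)
    · push Not at hf
      obtain ⟨p, hp, hyp⟩ := hf
      have hrp := hr0 p hp
      have h1 := hK.near p hp y hyH (by
        refine le_trans ?_ (hy.2 p hp)
        refine mul_le_mul_of_nonneg_right ?_ hrp.le
        nlinarith) (by
        intro p' hp' hne
        have s1 := hCen.sep p hp p' hp' hne.symm
        have s2 := hCen.sep p' hp' p hp hne
        rw [norm_sub_rev] at s2
        have s3 : ‖p - p'‖ ≤ ‖y - p'‖ + ‖y - p‖ := by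
          have : p - p' = (y - p') - (y - p) := by ring
          rw [this]; exact norm_sub_le _ _
        have k1 : c ^ 2 / 2 ≤ 1 / 2 := by nlinarith
        have k2 : c ^ 2 / 2 * μ * r p ≤ 1 / 2 * (μ * r p) := by
          rw [mul_assoc]; exact mul_le_mul_of_nonneg_right k1 (by positivity)
        have k3 : c ^ 2 / 2 * μ * r p' ≤ 1 / 2 * (μ * r p') := by
          have := hr0 p' hp'
          rw [mul_assoc]; exact mul_le_mul_of_nonneg_right k1 (by positivity)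
        linarith) 0 (by simp)
      simp only [Int.natAbs_zero, pow_zero, mul_one] at h1
      refine h1.trans (le_trans ?_ m7)
      refine div_le_div_of_nonneg_right (mul_le_mul_of_nonneg_left ?_ hC.le) m0.le
      have k4 : r p ^ M p ≤ 1 := pow_le_one₀ hrp.le ((hr1 p hp).trans hμ1)
      calc ‖W (M p) (p - P.V (b p))‖ * r p ^ M p ≤ B₀ * 1 :=
            mul_le_mul (hW.bdd _ _) k4 (by positivity) hB₀
        _ = B₀ := mul_one _
  have good_in : ∀ y ∈ closure (table ρ), (P.V 0).im ≤ y.im ∧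
      ∀ p ∈ Z, c / 2 * r p ≤ ‖y - (p + r p * P.nn p)‖ := by
    intro y hy
    refine ⟨hGeo.g6 y hy, fun p hp => ?_⟩
    obtain ⟨s, -, hs, hps⟩ := hCen.sub p hp
    have h1 := hGeo.g4 s hs p hps (r p) ⟨(hr0 p hp).le, (hr1 p hp).trans m9⟩ y hy
    have := hr0 p hp
    nlinarith
  obtain ⟨hpolA, -, -, -⟩ := hpol0 P c hOk
  have hZ0 : ∀ z ∈ Z, u 0 z = 0 := fun z hz => by
    have := hK.jet z hz 0 (by have := (hCen.dom z hz).1.1; omega)
    simpa using this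
  have hVa : ∀ s < P.S, (P.rad s (P.φ s) : ℂ) * ex (P.φ s) ∈ Z := by
    intro s hs
    rw [(hpolA s hs).2.1, ← (hOk.pol s hs.le).2]
    exact hCen.vert s hs
  have hVb : ∀ s < P.S, (P.rad s (P.φ (s + 1)) : ℂ) * ex (P.φ (s + 1)) ∈ Z := by
    intro s hs
    rw [(hpolA s hs).2.2.1, ← (hOk.pol (s + 1) hs).2]
    rcases Nat.lt_or_ge (s + 1) P.S with h | h
    · exact hCen.vert _ h
    · have : s + 1 = P.S := by omega
      rw [this, hOk.close]
      exact hCen.vert 0 (by omega)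
  -- the radial corrections
  have hw : ∀ s : ℕ, ∃ w : ℝ → ℝ, (s = 0 → ∀ t, w t = 0) ∧ (s < P.S →
      (∀ t ∈ P.sec s, |w t| ≤ η' ∧ u 0 (Real.exp (w t) * (P.rad s t * ex t)) = 0 ∧
        ((P.rad s t : ℂ) * ex t ∈ Z → w t = 0) ∧
        (0 < w t → ∀ y : ℂ, ‖y - P.rad s t * ex t‖ ≤
          ‖Real.exp (w t) * (P.rad s t * ex t) - P.rad s t * ex t‖ →
          (P.V 0).im ≤ y.im ∧ ∀ p ∈ Z, c / 2 * r p ≤ ‖y - (p + r p * P.nn p)‖)) ∧
      ∀ t ∈ P.sec s, ∀ t' ∈ P.sec s, |w t - w t'| ≤ η' * |t - t'|) := by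
    intro s
    rcases Nat.eq_zero_or_pos s with rfl | hs1
    · refine ⟨fun _ => 0, fun _ _ => rfl, fun hs => ⟨fun t ht => ⟨by simpa using hη'0.le, ?_,
        fun _ => rfl, fun h => absurd h (lt_irrefl _)⟩, fun t _ t' _ => by simp; positivity⟩⟩
      obtain ⟨τ, -, hτ⟩ := ((hpolA 0 hs).2.2.2.1 t ht).2.1
      rw [Real.exp_zero, Complex.ofReal_one, one_mul]
      apply core_zero_line hK.real hK.odd
      rw [hτ, hBot.1]; simp
    by_cases hs : s < P.S
    swap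
    · exact ⟨fun _ => 0, fun _ _ => rfl, fun h => absurd h hs⟩
    have hd : ∀ t : ℝ, ∃ d : ℝ, t ∈ P.sec s → (P.rad s t : ℂ) * ex t ∉ Z →
        0 < d ∧ d ≤ μ⁻¹ ∧ Win u (P.e s) (P.rad s t * ex t) d (η' * c ^ 2 / 8) c ∧
        (∀ z ∈ Z, d ≤ ‖P.rad s t * ex t - z‖) ∧ ∀ y ∈ ball ((P.rad s t : ℂ) * ex t) d,
          (P.V 0).im ≤ y.im ∧ ∀ p ∈ Z, c / 2 * r p ≤ ‖y - (p + r p * P.nn p)‖ := by
      intro t
      by_cases h : t ∈ P.sec s ∧ (P.rad s t : ℂ) * ex t ∉ Z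
      · obtain ⟨d, hd⟩ := hwx s hs1 hs _ ((hpolA s hs).2.2.2.1 t h.1).2.1 h.2
        exact ⟨d, fun _ _ => hd⟩
      · exact ⟨0, fun h1 h2 => absurd ⟨h1, h2⟩ h⟩
    choose d hd using hd
    obtain ⟨w, hw1, hw2⟩ := hrfs (P.V s) (P.e s) (P.φ s) (P.φ (s + 1)) c c η' (η' * c ^ 2 / 8)
      μ⁻¹ O u Z (fun t => (P.rad s t : ℂ) * ex t) d (hOk.unit s hs) (hOk.mono s hs) hc hc hη'0
      hη'1 le_rfl m6 hOo hK.lad hK.real (fun t => rfl)
      (fun t ht => ⟨hOk.tr s hs t ht, by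
        obtain ⟨k1, k2, -⟩ := (hpolA s hs).2.2.2.1 t ht
        have k3 := (hGeo.g7 s hs _ k2).1
        rwa [norm_mul, core_norm_ex, mul_one, Complex.norm_real, Real.norm_eq_abs,
          abs_of_pos k1] at k3⟩)
      (hVa s hs) (hVb s hs) hZ0
      (fun t ht hz => ⟨(hd t ht hz).1, (hd t ht hz).2.1,
        fun y hy => good_O y ((hd t ht hz).2.2.2.2 y hy), (hd t ht hz).2.2.1,
        (hd t ht hz).2.2.2.1⟩)
    refine ⟨w, fun h => absurd h (by omega), fun _ => ⟨fun t ht => ⟨(hw1 t ht).1, (hw1 t ht).2.1,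
      (hw1 t ht).2.2.1, fun hpos y hy => ?_⟩, hw2⟩⟩
    have hz : (P.rad s t : ℂ) * ex t ∉ Z := fun h => hpos.ne' ((hw1 t ht).2.2.1 h)
    refine (hd t ht hz).2.2.2.2 y ?_
    rw [mem_ball, dist_eq_norm]
    exact lt_of_le_of_lt hy ((hw1 t ht).2.2.2 hz)
  choose w hw0 hw using hw
  obtain ⟨hg1, hg2, hg3⟩ := hglue P c hOk
  have hS := hOk.three
  have hwa : ∀ s < P.S, w s (P.φ s) = 0 := fun s hs =>
    ((hw s hs).1 _ ⟨le_rfl, (hOk.mono s hs).le⟩).2.2.1 (hVa s hs)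
  have hwb : ∀ s < P.S, w s (P.φ (s + 1)) = 0 := fun s hs =>
    ((hw s hs).1 _ ⟨(hOk.mono s hs).le, le_rfl⟩).2.2.1 (hVb s hs)
  obtain ⟨f, hf, hfw⟩ := hg2 w
    (fun s hs => by
      have : LipschitzOnWith ⟨η', hη'0.le⟩ (w s) (P.sec s) :=
        LipschitzOnWith.of_dist_le_mul fun t ht t' ht' => by
          rw [Real.dist_eq, Real.dist_eq]; exact (hw s hs).2 t ht t' ht'
      exact this.continuousOn)
    (fun s hs => by rw [hwb s (by omega), hwa (s + 1) hs])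
    (by
      have := hwb (P.S - 1) (by omega)
      rw [show P.S - 1 + 1 = P.S by omega] at this
      rw [this, hw0 0 rfl])
  have hσ : CP fun t => ρ t + f t := ⟨hRho.1.1.add hf.1, hRho.1.2.add hf.2⟩
  have hexp : ∀ s < P.S, ∀ t ∈ P.sec s, Real.exp (ρ t) = P.rad s t := fun s hs t ht => by
    rw [hRho.2 s hs t ht, Real.exp_log ((hpolA s hs).2.2.2.1 t ht).1]
  have good_cl : ∀ y ∈ closure (table fun t => ρ t + f t), (P.V 0).im ≤ y.im ∧
      ∀ p ∈ Z, c / 2 * r p ≤ ‖y - (p + r p * P.nn p)‖ := by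
    intro y hy
    by_cases h0 : y ∈ closure (table ρ)
    · exact good_in y h0
    rw [(htab _ hσ).2.2.2.2.2.1] at hy
    rw [(htab _ hRho.1).2.2.2.2.2.1] at h0
    simp only [mem_ofPred_eq, not_le] at hy h0
    obtain ⟨s, hs, m, ht⟩ := hg1 y.arg
    have e1 : ρ (y.arg + m * (2 * π)) = ρ y.arg := hRho.1.2.int_mul m _
    have e2 : f (y.arg + m * (2 * π)) = f y.arg := hf.2.int_mul m _
    have e3 : y = (‖y‖ : ℝ) * ex (y.arg + m * (2 * π)) := by
      rw [core_ex_add]; exact core_polar y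
    rw [← e1] at h0 hy
    rw [← e2, Real.exp_add] at hy
    generalize y.arg + m * (2 * π) = t at ht h0 hy e3
    rw [hexp s hs t ht] at h0 hy
    rw [hfw s hs t ht] at hy
    have hrad := ((hpolA s hs).2.2.2.1 t ht).1
    have hpos : 1 < Real.exp (w s t) := by
      by_contra hn
      push Not at hn
      have := mul_le_of_le_one_right hrad.le hn
      linarith
    refine ((hw s hs).1 t ht).2.2.2 (Real.one_lt_exp_iff.mp hpos) y ?_
    have e4 : y - P.rad s t * ex t = ((‖y‖ - P.rad s t : ℝ) : ℂ) * ex t := by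
      rw [Complex.ofReal_sub, sub_mul, ← e3]
    have e5 : (Real.exp (w s t) : ℂ) * (P.rad s t * ex t) - P.rad s t * ex t =
        ((P.rad s t * Real.exp (w s t) - P.rad s t : ℝ) : ℂ) * ex t := by
      rw [Complex.ofReal_sub, Complex.ofReal_mul]; ring
    rw [e4, e5, norm_mul, norm_mul, core_norm_ex, mul_one, mul_one, Complex.norm_real,
      Complex.norm_real, Real.norm_eq_abs, Real.norm_eq_abs, abs_of_pos (by linarith),
      abs_of_pos (by linarith)]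
    linarith
  refine ⟨fun t => ρ t + f t, O, u, hσ, ?_, ?_, hOo, fun y hy => good_O y (good_cl y hy), hK.lad,
    ?_, fun z hz => good_close z (good_cl z (subset_closure hz))⟩
  · refine hg3 _ ρ η hσ.2 hRho.1.2 fun s hs t ht => ⟨?_, fun t' ht' => ?_⟩
    · rw [add_sub_cancel_left, hfw s hs t ht]
      exact ((hw s hs).1 t ht).1.trans hη'η
    · rw [add_sub_cancel_left, add_sub_cancel_left, hfw s hs t ht, hfw s hs t' ht']
      exact ((hw s hs).2 t ht t' ht').trans (mul_le_mul_of_nonneg_right hη'η (abs_nonneg _))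
  · intro t ht
    show ρ t + f t = ρ t
    rw [hfw 0 (by omega) t ht, hw0 0 rfl, add_zero]
  · intro z hz
    rw [(htab _ hσ).2.2.2.2.1] at hz
    obtain ⟨t₀, rfl⟩ := hz
    obtain ⟨s, hs, m, ht⟩ := hg1 t₀
    have e1 : ρ (t₀ + m * (2 * π)) = ρ t₀ := hRho.1.2.int_mul m _
    have e2 : f (t₀ + m * (2 * π)) = f t₀ := hf.2.int_mul m _
    have e3 : bd (fun t => ρ t + f t) t₀ = Real.exp (w s (t₀ + m * (2 * π))) *
        (P.rad s (t₀ + m * (2 * π)) * ex (t₀ + m * (2 * π))) := by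
      unfold bd
      beta_reduce
      rw [← e1, ← e2, Real.exp_add, hexp s hs _ ht, hfw s hs _ ht, core_ex_add,
        Complex.ofReal_mul]
      ring
    rw [e3]
    exact ((hw s hs).1 _ ht).2.1

end

end Pool.Agent.P.MP_6b977f_mp.EB
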