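import Mathlib

/-! Star-shaped tables of class C1, their billiards, Dirichlet eigenfunctions and local measures. -/

namespace Pool.Agent.P.MP_6b977f_mp.EB

open Real MeasureTheory Filter Topology Laplacian Set
open scoped ContDiff BoundedContinuousFunction ComplexConjugate

noncomputable section

/-- The unit vector of angle `t`; the plane is `ℂ`. -/
def ex (t : ℝ) : ℂ := Complex.exp (t * Complex.I)

/-- The determinant of two plane vectors. -/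
def cross (a b : ℂ) : ℝ := a.re * b.im - a.im * b.re

/-- The star-shaped domain `r < exp (ρ φ)` in polar coordinates. -/
def table (ρ : ℝ → ℝ) : Set ℂ := {z | ‖z‖ < Real.exp (ρ z.arg)}

/-- Its boundary point of polar angle `φ`. -/
def bd (ρ : ℝ → ℝ) (φ : ℝ) : ℂ := Real.exp (ρ φ) * ex φ

/-- The Banach space of `2π`-periodic functions of class `C¹`: pairs (function, derivative) with
the supremum distance. -/
abbrev C1 : Type :=
  {p : (ℝ →ᵇ ℝ) × (ℝ →ᵇ ℝ) // Function.Periodic p.1 (2 * π) ∧ ∀ x, HasDerivAt p.1 (p.2 x) x}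

/-- Reflection of the vector `v` in the line spanned by `τ`. -/
def refl (τ v : ℂ) : ℂ := τ / conj τ * conj v

/-- Straight motion inside `Ω`; a phase point is a pair (position, direction). -/
def Straight (Ω : Set ℂ) (p q : ℂ × ℂ) : Prop :=
  q.2 = p.2 ∧ (∃ t : ℝ, q.1 = p.1 + t * p.2) ∧ segment ℝ p.1 q.1 ⊆ Ω

/-- Motion from `p` to `q` in `table ρ` with exactly one specular reflection, at a boundary point
hit transversally; `(ρ' φ + i) * bd ρ φ` is the tangent vector of the boundary. -/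
def Bounce (ρ ρ' : ℝ → ℝ) (p q : ℂ × ℂ) : Prop :=
  ∃ φ s t : ℝ, 0 < s ∧ 0 < t ∧ cross ((ρ' φ + Complex.I) * bd ρ φ) p.2 < 0 ∧
    q.2 = refl ((ρ' φ + Complex.I) * bd ρ φ) p.2 ∧ bd ρ φ = p.1 + s * p.2 ∧
    q.1 = bd ρ φ + t * q.2 ∧ (∀ r ∈ Ico 0 s, p.1 + r * p.2 ∈ table ρ) ∧
    ∀ r ∈ Ioc 0 t, bd ρ φ + r * q.2 ∈ table ρ

/-- Arc length on the unit circle. -/
def cm : Measure ℂ := (volume.restrict (Ioc 0 (2 * π))).map ex

/-- Liouville measure on `Ω × S¹`. -/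
def liou (Ω : Set ℂ) : Measure (ℂ × ℂ) := (volume.restrict Ω).prod cm

/-- The billiard is ergodic: a measurable set of phase points invariant under the billiard motion
is null or conull. -/
def Ergodic' (ρ ρ' : ℝ → ℝ) : Prop :=
  ∀ S : Set (ℂ × ℂ), NullMeasurableSet S (liou (table ρ)) →
    (∀ p q, Straight (table ρ) p q ∨ Bounce ρ ρ' p q → (p ∈ S ↔ q ∈ S)) →
    liou (table ρ) S = 0 ∨ liou (table ρ) Sᶜ = 0

/-- Smooth functions with compact support inside `Ω`. -/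
def IsTest (Ω : Set ℂ) (a : ℂ → ℝ) : Prop :=
  ContDiff ℝ ∞ a ∧ HasCompactSupport a ∧ tsupport a ⊆ Ω

/-- `u` is the limit in `H¹(Ω)` of test functions. -/
def InH10 (Ω : Set ℂ) (u : ℂ → ℝ) : Prop :=
  ∃ a : ℕ → ℂ → ℝ, (∀ j, IsTest Ω (a j)) ∧ Tendsto (fun j => ∫⁻ x in Ω,
    (‖a j x - u x‖ₑ ^ 2 + ‖fderiv ℝ (a j) x - fderiv ℝ u x‖ₑ ^ 2)) atTop (𝓝 0)

/-- A real Dirichlet eigenfunction of `Ω` with eigenvalue `lam` and squared norm `|Ω|`. -/
def Eig (Ω : Set ℂ) (lam : ℝ) (u : ℂ → ℝ) : Prop :=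
  ContDiffOn ℝ ∞ u Ω ∧ (∀ x ∈ Ω, Δ u x + lam * u x = 0) ∧ InH10 Ω u ∧
    ∫ x in Ω, u x ^ 2 = volume.real Ω

/-- A complete orthogonal system of such eigenfunctions, by non-decreasing eigenvalue. -/
structure Basis' (Ω : Set ℂ) (lam : ℕ → ℝ) (u : ℕ → ℂ → ℝ) : Prop where
  eig : ∀ n, Eig Ω (lam n) (u n)
  orth : ∀ m n, m ≠ n → ∫ x in Ω, u m x * u n x = 0
  complete : ∀ f : ℂ → ℝ, MemLp f 2 (volume.restrict Ω) →
    (∀ n, ∫ x in Ω, f x * u n x = 0) → f =ᵐ[volume.restrict Ω] 0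
  mono : Monotone lam

/-- The Bessel function `J₀(|v|)`. -/
def J0 (v : ℂ) : ℝ := (2 * π)⁻¹ * ∫ t in (0 : ℝ)..(2 * π), cos (v.re * cos t + v.im * sin t)

/-- Characteristic function of `∑ τ x * Ψ x` for the centred Gaussian field of covariance `J₀`. -/
def gauss (τ : ℂ →₀ ℝ) : ℂ :=
  (Real.exp (-(1 / 2) * τ.sum fun x s => τ.sum fun y t => s * t * J0 (x - y)) : ℝ)

/-- Borel measures on `C⁰` of the plane (uniform convergence on compact sets). -/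
abbrev RM : Type := @Measure C(ℂ, ℝ) (borel C(ℂ, ℝ))

/-- `μ` is the law of the monochromatic random wave. -/
def IsRMW (μ : RM) : Prop :=
  IsProbabilityMeasure μ ∧ ∀ τ : ℂ →₀ ℝ,
    ∫ F, Complex.exp (Complex.I * ((τ.sum fun x s => s * F x : ℝ) : ℂ)) ∂μ = gauss τ

/-- The cut-off functions of the local measures. -/
def Cut (χ : ℝ → ℝ) : Prop :=
  ContDiff ℝ ∞ χ ∧ (∀ t, 0 ≤ χ t ∧ χ t ≤ 1) ∧ (∃ c > 0, ∀ t ≤ c, χ t = 1) ∧ ∀ t ≥ 1, χ t = 0

/-- The eigenfunction seen from `z` at the scale of the wavelength. -/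
def loc (χ : ℝ → ℝ) (Ω : Set ℂ) (lam : ℝ) (u : ℂ → ℝ) (z w : ℂ) : ℝ :=
  u (z + w / √lam) * χ (‖w‖ / (√lam * Metric.infDist z (frontier Ω)))

open Classical in
/-- A continuous function as a point of `C⁰`. -/
def toC (f : ℂ → ℝ) : C(ℂ, ℝ) := if h : Continuous f then ⟨f, h⟩ else 0

/-- The local measures of the sequence `u` converge weakly to `μ`. -/
def LWL (μ : RM) (χ : ℝ → ℝ) (Ω : Set ℂ) (lam : ℕ → ℝ) (u : ℕ → ℂ → ℝ) : Prop :=
  ∀ Φ : C(ℂ, ℝ) →ᵇ ℝ,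
    Tendsto (fun n => ⨍ z in Ω, Φ (toC (loc χ Ω (lam n) (u n) z))) atTop (𝓝 (∫ F, Φ F ∂μ))

end

end Pool.Agent.P.MP_6b977f_mp.EB
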