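import Pool.Agent.P.MP_6b977f_mp.EB.IfX

/-! Enumeration by non-decreasing values. -/

namespace Pool.Agent.P.MP_6b977f_mp.EB

open Real MeasureTheory Filter Topology Laplacian Set Metric
open scoped ContDiff BoundedContinuousFunction ComplexConjugate Pointwise ENNReal

theorem t_enum : S_ENUM := by
  intro B f hB hf
  classical
  have hc : Countable B := by
    have : (univ : Set B) = ⋃ n : ℕ, {b | f b ≤ n} := by
      ext b; simpa using exists_nat_ge (f b)
    exact countable_univ_iff.1 (this ▸ countable_iUnion fun n => (hf n).countable)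
  obtain ⟨c, hc⟩ := exists_injective_nat B
  let L : B → Set B := fun b => {a | f a < f b ∨ (f a = f b ∧ c a < c b)}
  have hL : ∀ b, (L b).Finite := fun b => (hf (f b)).subset fun a ha =>
    ha.elim le_of_lt fun h => h.1.le
  have hlt : ∀ a b, a ∈ L b → (L a).ncard < (L b).ncard := fun a b hab => by
    refine ncard_lt_ncard ⟨fun x hx => ?_, fun h => ?_⟩ (hL b)
    · rcases hx with hx | hx <;> rcases hab with hab | hab
      · exact Or.inl (hx.trans hab)
      · exact Or.inl (hab.1 ▸ hx)
      · exact Or.inl (hx.1 ▸ hab)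
      · exact Or.inr ⟨hx.1.trans hab.1, hx.2.trans hab.2⟩
    · rcases h hab with h | h
      · exact lt_irrefl _ h
      · exact lt_irrefl _ h.2
  have hi : Function.Injective fun b => (L b).ncard := fun a b h => by
    rcases lt_trichotomy (f a) (f b) with h1 | h1 | h1
    · exact absurd h (hlt a b (Or.inl h1)).ne
    · rcases lt_trichotomy (c a) (c b) with h2 | h2 | h2
      · exact absurd h (hlt a b (Or.inr ⟨h1, h2⟩)).ne
      · exact hc h2
      · exact absurd h (hlt b a (Or.inr ⟨h1.symm, h2⟩)).ne'
    · exact absurd h (hlt b a (Or.inl h1)).ne'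
  have : Infinite (range fun b => (L b).ncard) := (infinite_range_of_injective hi).to_subtype
  let o := Nat.Subtype.orderIsoOfNat (range fun b => (L b).ncard)
  refine ⟨o.toEquiv.trans (Equiv.ofInjective _ hi).symm, fun i j hij => ?_⟩
  by_contra h
  have h1 := hlt _ _ (Or.inl (not_le.1 h))
  have h2 : ∀ k, (L ((o.toEquiv.trans (Equiv.ofInjective _ hi).symm) k)).ncard = (o k : ℕ) :=
    fun k => Equiv.apply_ofInjective_symm hi (o k)
  rw [h2, h2] at h1
  exact absurd (o.monotone hij) (not_le.2 h1)

end Pool.Agent.P.MP_6b977f_mp.EB
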