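import Pool.Agent.P.MP_6b977f_mp.EB.IfB

/-! Equidistribution of independent phases. -/

namespace Pool.Agent.P.MP_6b977f_mp.EB

open Real MeasureTheory Filter Topology Laplacian Set Metric
open scoped ContDiff BoundedContinuousFunction ComplexConjugate Pointwise ENNReal

noncomputable section

lemma eq_prod {ι : Type} (s : Finset ι) (a b : ι → ℂ) (M δ : ℝ) (hM : 1 ≤ M) (hδ : 0 ≤ δ)
    (ha : ∀ i, ‖a i‖ ≤ M) (hb : ∀ i, ‖b i‖ ≤ M) (h : ∀ i, ‖a i - b i‖ ≤ δ) :
    ‖∏ i ∈ s, a i - ∏ i ∈ s, b i‖ ≤ s.card * δ * M ^ s.card := by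
  classical
  induction s using Finset.induction_on with
  | empty => simp
  | insert j s hj ih =>
    rw [Finset.prod_insert hj, Finset.prod_insert hj, Finset.card_insert_of_notMem hj]
    have hp : ‖∏ i ∈ s, b i‖ ≤ M ^ s.card := by
      rw [norm_prod]
      calc ∏ i ∈ s, ‖b i‖ ≤ ∏ _i ∈ s, M :=
            Finset.prod_le_prod (fun i _ => norm_nonneg _) fun i _ => hb i
        _ = M ^ s.card := Finset.prod_const M
    have e : a j * ∏ i ∈ s, a i - b j * ∏ i ∈ s, b i =
        a j * (∏ i ∈ s, a i - ∏ i ∈ s, b i) + (a j - b j) * ∏ i ∈ s, b i := by ring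
    have hM0 : 0 ≤ M ^ s.card := by positivity
    have h1 : ‖a j * (∏ i ∈ s, a i - ∏ i ∈ s, b i)‖ ≤ M * (s.card * δ * M ^ s.card) := by
      rw [norm_mul]; exact mul_le_mul (ha j) ih (norm_nonneg _) (by linarith)
    have h2 : ‖(a j - b j) * ∏ i ∈ s, b i‖ ≤ δ * M ^ s.card := by
      rw [norm_mul]; exact mul_le_mul (h j) hp (norm_nonneg _) hδ
    have h3 : δ * M ^ s.card ≤ δ * M ^ s.card * M :=
      le_mul_of_one_le_right (mul_nonneg hδ hM0) hM
    rw [e]
    refine (norm_add_le _ _).trans ?_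
    push_cast
    rw [pow_succ]
    nlinarith

/-- A trigonometric polynomial. -/
def eq_tp (s : Finset ℤ) (c : ℤ → ℂ) (t : ℝ) : ℂ :=
  ∑ n ∈ s, c n * Complex.exp (Complex.I * (n * t : ℝ))

lemma eq_cont (s : Finset ℤ) (c : ℤ → ℂ) : Continuous (eq_tp s c) := by
  unfold eq_tp; fun_prop

lemma eq_appr (g : ℝ → ℂ) (hc : Continuous g) (hp : Function.Periodic g (2 * π)) (δ : ℝ)
    (hδ : 0 < δ) : ∃ s c, ∀ t, ‖g t - eq_tp s c t‖ ≤ δ := by
  have : Fact (0 < 2 * π) := ⟨by positivity⟩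
  let G : C(AddCircle (2 * π), ℂ) := ⟨hp.lift, by
    have : Continuous (hp.lift ∘ (QuotientAddGroup.mk : ℝ → AddCircle (2 * π))) := hc
    exact continuous_coinduced_dom.2 this⟩
  have hG : G ∈ (Submodule.span ℂ (range (fourier (T := 2 * π)))).topologicalClosure := by
    rw [span_fourier_closure_eq_top]; trivial
  obtain ⟨p, hp1, hp2⟩ := Metric.mem_closure_iff.1 hG δ hδ
  obtain ⟨c, rfl⟩ := Finsupp.mem_span_range_iff_exists_finsupp.1 hp1
  refine ⟨c.support, c, fun t => ?_⟩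
  have h1 := (ContinuousMap.dist_apply_le_dist (f := G)
    (g := c.sum fun i a => a • fourier (T := 2 * π) i) (t : AddCircle (2 * π))).trans hp2.le
  rw [dist_eq_norm] at h1
  have e1 : G (t : AddCircle (2 * π)) = g t := rfl
  have e2 : (c.sum fun i a => a • fourier (T := 2 * π) i) (t : AddCircle (2 * π)) =
      eq_tp c.support c t := by
    unfold eq_tp Finsupp.sum
    rw [ContinuousMap.sum_apply]
    refine Finset.sum_congr rfl fun n _ => ?_
    rw [ContinuousMap.smul_apply, fourier_coe_apply, smul_eq_mul]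
    congr 2
    have : (π : ℂ) ≠ 0 := by exact_mod_cast pi_ne_zero
    push_cast
    field_simp
  rwa [e1, e2] at h1

lemma eq_mean1 (n : ℤ) :
    ((2 * π : ℝ) : ℂ)⁻¹ * ∫ t in (0 : ℝ)..(2 * π), Complex.exp (Complex.I * (n * t : ℝ)) =
      if n = 0 then 1 else 0 := by
  have hπ : ((2 * π : ℝ) : ℂ) ≠ 0 := by exact_mod_cast (by positivity : (2 * π : ℝ) ≠ 0)
  split_ifs with h
  · subst h
    simp only [Int.cast_zero, zero_mul, Complex.ofReal_zero, mul_zero, Complex.exp_zero,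
      intervalIntegral.integral_const, sub_zero, Complex.real_smul, mul_one]
    exact inv_mul_cancel₀ hπ
  · have hn : Complex.I * (n : ℂ) ≠ 0 := mul_ne_zero Complex.I_ne_zero (by exact_mod_cast h)
    have e : (fun t : ℝ => Complex.exp (Complex.I * (n * t : ℝ))) =
        fun t : ℝ => Complex.exp (Complex.I * n * t) := by
      funext t; push_cast; rw [mul_assoc]
    rw [e, integral_exp_mul_complex hn]
    have : Complex.exp (Complex.I * n * ((2 * π : ℝ) : ℂ)) = 1 := by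
      rw [← Complex.exp_int_mul_two_pi_mul_I n]; congr 1; push_cast; ring
    rw [this]; simp

lemma eq_mean (s : Finset ℤ) (c : ℤ → ℂ) :
    ((2 * π : ℝ) : ℂ)⁻¹ * ∫ t in (0 : ℝ)..(2 * π), eq_tp s c t =
      ∑ n ∈ s, c n * if n = 0 then 1 else 0 := by
  unfold eq_tp
  rw [intervalIntegral.integral_finsetSum fun n _ =>
    (by fun_prop : Continuous fun t : ℝ =>
      c n * Complex.exp (Complex.I * (n * t : ℝ))).intervalIntegrable _ _, Finset.mul_sum]
  refine Finset.sum_congr rfl fun n _ => ?_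
  rw [intervalIntegral.integral_const_mul, ← eq_mean1 n]; ring

lemma eq_mean_le (f : ℝ → ℂ) (M : ℝ) (h : ∀ t, ‖f t‖ ≤ M) :
    ‖((2 * π : ℝ) : ℂ)⁻¹ * ∫ t in (0 : ℝ)..(2 * π), f t‖ ≤ M := by
  have hπ : 0 < 2 * π := by positivity
  have := intervalIntegral.norm_integral_le_of_norm_le_const (a := 0) (b := 2 * π) (f := f)
    (C := M) fun t _ => h t
  rw [sub_zero, abs_of_pos hπ] at this
  rw [norm_mul, norm_inv, Complex.norm_real, Real.norm_of_nonneg hπ.le, inv_mul_le_iff₀ hπ]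
  linarith

lemma eq_trig (hrl : S_RL) (Ω : Set ℂ) (ι : Type) [Fintype ι] (ν : ι → ℂ)
    (h0 : 0 < volume Ω) (h1 : volume Ω < ⊤) (hν : ∀ a : ι → ℤ, ∑ i, a i * ν i = 0 → a = 0)
    (s : ι → Finset ℤ) (c : ι → ℤ → ℂ) (ε : ℝ) (hε : 0 < ε) :
    ∀ᶠ k : ℝ in atTop, ∀ θ : ι → ℝ,
      ‖(⨍ z in Ω, ∏ i, eq_tp (s i) (c i) (θ i + k * (conj (ν i) * z).re)) -
        ∏ i, ((2 * π : ℝ) : ℂ)⁻¹ * ∫ t in (0 : ℝ)..(2 * π), eq_tp (s i) (c i) t‖ < ε := by
  classical
  have : IsFiniteMeasure (volume.restrict Ω) := isFiniteMeasure_restrict.2 h1.ne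
  have : NeZero (volume.restrict Ω) := ⟨fun h => h0.ne' (by simpa using h)⟩
  set A : (ι → ℤ) → ℝ → ℂ := fun a k => ⨍ z in Ω,
    Complex.exp (Complex.I * (k * (conj (∑ i, (a i : ℂ) * ν i) * z).re : ℝ)) with hA
  have hlim : ∀ a : ι → ℤ, Tendsto (fun k => ‖∏ i, c i (a i)‖ *
      ‖A a k - if a = 0 then 1 else 0‖) atTop (𝓝 0) := by
    intro a
    have : Tendsto (fun k => ‖A a k - if a = 0 then 1 else 0‖) atTop (𝓝 0) := by
      split_ifs with h
      · subst h
        simp [hA]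
      · have h2 := (hrl Ω _ h1 fun h' => h (hν a h')).norm
        rw [norm_zero] at h2
        simp only [sub_zero]
        exact h2
    simpa using this.const_mul ‖∏ i, c i (a i)‖
  have hsum := tendsto_finsetSum (Fintype.piFinset s) fun a _ => hlim a
  rw [Finset.sum_const_zero] at hsum
  filter_upwards [hsum.eventually_lt_const hε] with k hk θ
  refine lt_of_le_of_lt ?_ hk
  have e1 : ∀ z : ℂ, ∏ i, eq_tp (s i) (c i) (θ i + k * (conj (ν i) * z).re) =
      ∑ a ∈ Fintype.piFinset s, ((∏ i, c i (a i)) *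
        Complex.exp (Complex.I * (∑ i, a i * θ i : ℝ))) *
        Complex.exp (Complex.I * (k * (conj (∑ i, (a i : ℂ) * ν i) * z).re : ℝ)) := by
    intro z
    unfold eq_tp
    rw [Finset.prod_univ_sum]
    refine Finset.sum_congr rfl fun a _ => ?_
    rw [Finset.prod_mul_distrib, mul_assoc, ← Complex.exp_add, ← Complex.exp_sum]
    congr 2
    rw [← Finset.mul_sum, ← mul_add, ← Complex.ofReal_sum, ← Complex.ofReal_add]
    congr 2
    rw [map_sum, Finset.sum_mul, Complex.re_sum, Finset.mul_sum, ← Finset.sum_add_distrib]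
    refine Finset.sum_congr rfl fun i _ => ?_
    have : (conj ((a i : ℂ) * ν i) * z).re = a i * (conj (ν i) * z).re := by
      rw [map_mul, mul_assoc, map_intCast]
      exact_mod_cast Complex.re_ofReal_mul (a i) (conj (ν i) * z)
    rw [this]; ring
  have e2 : (⨍ z in Ω, ∏ i, eq_tp (s i) (c i) (θ i + k * (conj (ν i) * z).re)) =
      ∑ a ∈ Fintype.piFinset s, ((∏ i, c i (a i)) *
        Complex.exp (Complex.I * (∑ i, a i * θ i : ℝ))) * A a k := by
    simp_rw [e1, hA, average_eq']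
    rw [integral_finsetSum]
    · exact Finset.sum_congr rfl fun a _ => integral_const_mul _ _
    · intro a _
      refine Integrable.const_mul ?_ _
      refine Integrable.of_bound (by fun_prop : Continuous _).aestronglyMeasurable 1
        (Eventually.of_forall fun z => ?_)
      rw [mul_comm, Complex.norm_exp_ofReal_mul_I]
  have e3 : (∏ i, ((2 * π : ℝ) : ℂ)⁻¹ * ∫ t in (0 : ℝ)..(2 * π), eq_tp (s i) (c i) t) =
      ∑ a ∈ Fintype.piFinset s, ((∏ i, c i (a i)) *
        Complex.exp (Complex.I * (∑ i, a i * θ i : ℝ))) * if a = 0 then 1 else 0 := by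
    simp_rw [eq_mean]
    rw [Finset.prod_univ_sum]
    refine Finset.sum_congr rfl fun a _ => ?_
    rw [Finset.prod_mul_distrib]
    split_ifs with h
    · subst h; simp
    · obtain ⟨i, hi⟩ := Function.ne_iff.1 h
      rw [Finset.prod_eq_zero (Finset.mem_univ i) (f := fun i => if a i = 0 then (1 : ℂ) else 0)
        (if_neg hi)]
      simp
  rw [e2, e3, ← Finset.sum_sub_distrib]
  refine (norm_sum_le _ _).trans (Finset.sum_le_sum fun a _ => le_of_eq ?_)
  rw [← mul_sub, norm_mul, norm_mul, mul_comm Complex.I, Complex.norm_exp_ofReal_mul_I, mul_one]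

theorem t_eq (hrl : S_RL) : S_EQ := by
  intro Ω ι _ ν g ε h0 h1 hν hg hε
  have : IsFiniteMeasure (volume.restrict Ω) := isFiniteMeasure_restrict.2 h1.ne
  have : NeZero (volume.restrict Ω) := ⟨fun h => h0.ne' (by simpa using h)⟩
  have hb : ∀ i, ∃ M, ∀ t, ‖g i t‖ ≤ M := fun i => by
    obtain ⟨M, hM⟩ := ((hg i).2.isBounded_of_continuous (by positivity) (hg i).1).exists_norm_le
    exact ⟨M, fun t => hM _ ⟨t, rfl⟩⟩
  choose M₀ hM₀ using hb
  set M : ℝ := ∑ i, |M₀ i| + 1 with hM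
  have hs : 0 ≤ ∑ i, |M₀ i| := Finset.sum_nonneg fun i _ => abs_nonneg _
  have hM1 : 1 ≤ M := by linarith
  have hgM : ∀ i t, ‖g i t‖ ≤ M - 1 := fun i t => by
    have := Finset.single_le_sum (f := fun i => |M₀ i|) (fun i _ => abs_nonneg _)
      (Finset.mem_univ i)
    have := (hM₀ i t).trans (le_abs_self _)
    linarith
  set D : ℝ := (Finset.univ : Finset ι).card * M ^ (Finset.univ : Finset ι).card with hD
  have hD0 : 0 ≤ D := by positivity
  set δ : ℝ := min 1 (ε / (3 * (D + 1))) with hδ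
  have hδ0 : 0 < δ := lt_min one_pos (by positivity)
  have hδD : δ * D ≤ ε / 3 := by
    have : δ * (D + 1) ≤ ε / 3 := by
      calc δ * (D + 1) ≤ ε / (3 * (D + 1)) * (D + 1) :=
            mul_le_mul_of_nonneg_right (min_le_right _ _) (by positivity)
        _ = ε / 3 := by field_simp
    nlinarith
  choose s c hsc using fun i => eq_appr (g i) (hg i).1 (hg i).2 δ hδ0
  have hpM : ∀ i t, ‖eq_tp (s i) (c i) t‖ ≤ M := fun i t => by
    have h2 := norm_sub_norm_le (eq_tp (s i) (c i) t) (g i t)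
    rw [norm_sub_rev] at h2
    have := hsc i t
    have := hgM i t
    have := min_le_left 1 (ε / (3 * (D + 1)))
    linarith
  obtain ⟨K, hK⟩ := eventually_atTop.1
    (eq_trig hrl Ω ι ν h0 h1 hν s c (ε / 3) (by positivity))
  refine ⟨K, fun k hk θ => ?_⟩
  have h2 := hK k hk θ
  have hI : ∀ f : ι → ℝ → ℂ, (∀ i, Continuous (f i)) → (∀ i t, ‖f i t‖ ≤ M) →
      Integrable (fun z : ℂ => ∏ i, f i (θ i + k * (conj (ν i) * z).re))
        (((volume.restrict Ω) univ)⁻¹ • volume.restrict Ω) := fun f hf hfM => by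
    refine Integrable.of_bound (continuous_finsetProd _ fun i _ =>
      (hf i).comp (by fun_prop)).aestronglyMeasurable (M ^ (Finset.univ : Finset ι).card)
      (Eventually.of_forall fun z => ?_)
    rw [norm_prod, ← Finset.prod_const]
    exact Finset.prod_le_prod (fun i _ => norm_nonneg _) fun i _ => hfM _ _
  have h3 : ‖(⨍ z in Ω, ∏ i, g i (θ i + k * (conj (ν i) * z).re)) -
      ⨍ z in Ω, ∏ i, eq_tp (s i) (c i) (θ i + k * (conj (ν i) * z).re)‖ ≤ ε / 3 := by
    rw [average_eq', average_eq', ← integral_sub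
      (hI g (fun i => (hg i).1) fun i t => (hgM i t).trans (by linarith))
      (hI _ (fun i => eq_cont _ _) hpM)]
    have := norm_integral_le_of_norm_le_const
      (μ := ((volume.restrict Ω) univ)⁻¹ • volume.restrict Ω) (C := ε / 3)
      (f := fun z : ℂ => ∏ i, g i (θ i + k * (conj (ν i) * z).re) -
        ∏ i, eq_tp (s i) (c i) (θ i + k * (conj (ν i) * z).re))
      (Eventually.of_forall fun z => by
        refine (eq_prod _ _ _ M δ hM1 hδ0.le (fun i => (hgM _ _).trans (by linarith))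
          (fun i => hpM _ _) fun i => hsc _ _).trans ?_
        rw [hD] at hδD; linarith)
    rwa [probReal_univ, mul_one] at this
  have h4 : ‖(∏ i, ((2 * π : ℝ) : ℂ)⁻¹ * ∫ t in (0 : ℝ)..(2 * π), eq_tp (s i) (c i) t) -
      ∏ i, ((2 * π : ℝ) : ℂ)⁻¹ * ∫ t in (0 : ℝ)..(2 * π), g i t‖ ≤ ε / 3 := by
    refine (eq_prod _ _ _ M δ hM1 hδ0.le (fun i => eq_mean_le _ _ (hpM i))
      (fun i => eq_mean_le _ _ fun t => (hgM _ _).trans (by linarith)) fun i => ?_).trans
      (by rw [hD] at hδD; linarith)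
    rw [← mul_sub, ← intervalIntegral.integral_sub ((eq_cont _ _).intervalIntegrable _ _)
      ((hg i).1.intervalIntegrable _ _)]
    exact eq_mean_le _ _ fun t => by rw [norm_sub_rev]; exact hsc i t
  have h5 := norm_sub_le_norm_sub_add_norm_sub
    (⨍ z in Ω, ∏ i, g i (θ i + k * (conj (ν i) * z).re))
    (⨍ z in Ω, ∏ i, eq_tp (s i) (c i) (θ i + k * (conj (ν i) * z).re))
    (∏ i, ((2 * π : ℝ) : ℂ)⁻¹ * ∫ t in (0 : ℝ)..(2 * π), g i t)
  have h6 := norm_sub_le_norm_sub_add_norm_sub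
    (⨍ z in Ω, ∏ i, eq_tp (s i) (c i) (θ i + k * (conj (ν i) * z).re))
    (∏ i, ((2 * π : ℝ) : ℂ)⁻¹ * ∫ t in (0 : ℝ)..(2 * π), eq_tp (s i) (c i) t)
    (∏ i, ((2 * π : ℝ) : ℂ)⁻¹ * ∫ t in (0 : ℝ)..(2 * π), g i t)
  linarith

end

end Pool.Agent.P.MP_6b977f_mp.EB
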