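import Pool.Agent.P.MP_6b977f_mp.EB.IfX

/-! Existence of a complete orthogonal system of Dirichlet eigenfunctions. -/

namespace Pool.Agent.P.MP_6b977f_mp.EB

open Real MeasureTheory Filter Topology Laplacian Set Metric
open scoped ContDiff BoundedContinuousFunction ComplexConjugate Pointwise ENNReal

noncomputable section

theorem exb_int {E : Type} [NormedAddCommGroup E] [InnerProductSpace ℝ E] {u v : ℂ → E}
    (hu : MemLp u 2 volume) (hv : MemLp v 2 volume) :
    ∫ x, inner ℝ (u x) (v x) = inner ℝ (hu.toLp u) (hv.toLp v) := by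
  rw [MeasureTheory.L2.inner_def]
  refine integral_congr_ae ?_
  filter_upwards [hu.coeFn_toLp, hv.coeFn_toLp] with x h1 h2
  rw [h1, h2]

theorem exb_mul {u v : ℂ → ℝ} (hu : MemLp u 2 volume) (hv : MemLp v 2 volume) :
    ∫ x, u x * v x = inner ℝ (hu.toLp u) (hv.toLp v) := by
  rw [← exb_int]
  exact integral_congr_ae (Eventually.of_forall fun x => by simp [mul_comm])

theorem exb_mul' (u v : L2) : ∫ x, u x * v x = inner ℝ u v := by
  rw [exb_mul (Lp.memLp u) (Lp.memLp v), Lp.toLp_coeFn, Lp.toLp_coeFn]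

theorem exb_zero (hhb1 : S_HB1) {Ω : Set ℂ} (hΩ : IsOpen Ω) {T : L2 →L[ℝ] L2} (hT : IsRes Ω T)
    (x : L2) (hx : ∀ᵐ z, z ∉ Ω → x z = 0) (h0 : T x = 0) : x = 0 := by
  obtain ⟨g, H, e⟩ := hT x
  rw [h0] at H e
  have z0 : ∀ φ : ℂ → ℝ, ∫ z, (0 : L2) z * φ z = 0 := fun φ => by
    rw [← integral_zero ℂ ℝ (μ := volume)]
    refine integral_congr_ae ?_
    filter_upwards [Lp.coeFn_zero ℝ 2 (volume : Measure ℂ)] with z hz
    rw [hz, Pi.zero_apply, zero_mul]
  simp only [z0, zero_add] at e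
  have hG : H.2.1.toLp g = 0 := by
    obtain ⟨h1, h2, a, ha, t1, t2⟩ := H
    have hm := fun j => hhb1.2.2.2.2.1 Ω (a j) (ha j)
    have s1 := (Lp.tendsto_Lp_iff_tendsto_eLpNorm'' a (fun j => (hm j).1) _ h1).2 t1
    have s2 := (Lp.tendsto_Lp_iff_tendsto_eLpNorm'' (fun j => gradient (a j))
      (fun j => (hm j).2.1) g h2).2 t2
    have s3 := tendsto_nhds_unique ((tendsto_const_nhds (x := h2.toLp g)).inner (𝕜 := ℝ) s2)
      (((tendsto_const_nhds (x := (Lp.memLp x).toLp x)).inner (𝕜 := ℝ) s1).congr fun j => by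
        rw [← exb_mul, ← exb_int]
        exact (e _ (ha j)).symm)
    rw [Lp.toLp_coeFn, Lp.toLp_coeFn, inner_zero_right] at s3
    exact inner_self_eq_zero.1 s3
  have h1 := hΩ.ae_eq_zero_of_integral_contDiff_smul_eq_zero (μ := volume) (f := x)
    (((Lp.memLp x).locallyIntegrable one_le_two).locallyIntegrableOn Ω) fun φ a1 a2 a3 => by
      have e1 := e φ ⟨a1, a2, a3⟩
      rw [exb_int H.2.1 (hhb1.2.2.2.2.1 Ω φ ⟨a1, a2, a3⟩).2.1, hG, inner_zero_left] at e1
      rw [e1]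
      exact integral_congr_ae (Eventually.of_forall fun z => by simp [mul_comm])
  refine Lp.ext ?_
  filter_upwards [hx, h1, Lp.coeFn_zero ℝ 2 (volume : Measure ℂ)] with z a1 a2 a3
  rw [a3, Pi.zero_apply]
  by_cases hz : z ∈ Ω
  exacts [a2 hz, a1 hz]

theorem exb_inf {Ω : Set ℂ} (hΩ : IsOpen Ω) (hb : Bornology.IsBounded Ω) (hne : Ω.Nonempty)
    {B : Set L2} (hB : Orthonormal ℝ ((↑) : B → L2))
    (hs : ∀ b : B, ∀ᵐ z, z ∉ Ω → (b : L2) z = 0)
    (hc : ∀ x : L2, (∀ᵐ z, z ∉ Ω → x z = 0) → (∀ b : B, inner ℝ (b : L2) x = 0) → x = 0) :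
    Infinite B := by
  classical
  rw [← not_finite_iff_infinite]
  intro hf
  have := Fintype.ofFinite B
  have hsp : ∀ x : L2, (∀ᵐ z, z ∉ Ω → x z = 0) → x ∈ Submodule.span ℝ (range ((↑) : B → L2)) := by
    intro x hx
    have key : ∀ s : Finset B, ∀ᵐ z, z ∉ Ω →
        (∑ b ∈ s, inner ℝ (b : L2) x • (b : L2) : L2) z = 0 := by
      intro s
      induction s using Finset.induction_on with
      | empty =>
        filter_upwards [Lp.coeFn_zero ℝ 2 (volume : Measure ℂ)] with z hz _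
        rw [Finset.sum_empty, hz, Pi.zero_apply]
      | insert b s hb ih =>
        rw [Finset.sum_insert hb]
        filter_upwards [ih, hs b, Lp.coeFn_add (inner ℝ (b : L2) x • (b : L2))
          (∑ b ∈ s, inner ℝ (b : L2) x • (b : L2)), Lp.coeFn_smul (inner ℝ (b : L2) x) (b : L2)]
          with z a1 a2 a3 a4 hz
        rw [a3, Pi.add_apply, a4, Pi.smul_apply, a1 hz, a2 hz, smul_zero, add_zero]
    have h1 := hc (x - ∑ b : B, inner ℝ (b : L2) x • (b : L2)) (by
      filter_upwards [hx, key Finset.univ,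
        Lp.coeFn_sub x (∑ b : B, inner ℝ (b : L2) x • (b : L2))] with z a1 a2 a3 hz
      rw [a3, Pi.sub_apply, a1 hz, a2 hz, sub_zero]) fun b => by
      rw [inner_sub_right, hB.inner_right_fintype (fun b : B => inner ℝ (b : L2) x) b, sub_self]
    rw [sub_eq_zero.1 h1]
    exact Submodule.sum_mem _ fun b _ => Submodule.smul_mem _ _ (Submodule.subset_span ⟨b, rfl⟩)
  obtain ⟨c, hc'⟩ := hne
  have : Infinite Ω := (infinite_of_mem_nhds c (hΩ.mem_nhds hc')).to_subtype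
  obtain ⟨U, h1, h2, h3⟩ := exists_seq_infinite_isOpen_pairwise_disjoint Ω
  have o1 : ∀ n, IsOpen ((↑) '' U n : Set ℂ) := fun n => hΩ.isOpenMap_subtype_val _ (h2 n)
  have o2 : ∀ n, ((↑) '' U n : Set ℂ) ⊆ Ω := fun n => Subtype.coe_image_subset Ω _
  have o3 : ∀ n, volume ((↑) '' U n : Set ℂ) ≠ ⊤ := fun n =>
    ((measure_mono (o2 n)).trans_lt hb.measure_lt_top).ne
  let v : ℕ → L2 := fun n => indicatorConstLp 2 (o1 n).measurableSet (o3 n) (1 : ℝ)
  have iv : ∀ m n, inner ℝ (v m) (v n) =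
      volume.real (((↑) '' U m : Set ℂ) ∩ ((↑) '' U n : Set ℂ)) := fun m n =>
    L2.real_inner_indicatorConstLp_one_indicatorConstLp_one _ _ _ _
  have li : LinearIndependent ℝ v := by
    refine linearIndependent_of_ne_zero_of_inner_eq_zero (fun n hn => ?_) fun m n hmn => ?_
    · have := iv n n
      rw [hn, inner_zero_left, inter_self] at this
      exact (ENNReal.toReal_pos ((o1 n).measure_pos volume ((h1 n).nonempty.image _)).ne'
        (o3 n)).ne this
    · refine (iv m n).trans ?_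
      rw [← image_inter Subtype.val_injective, (h3 hmn).inter_eq, image_empty, measureReal_empty]
  have mv : ∀ n, v n ∈ Submodule.span ℝ (range ((↑) : B → L2)) := fun n => hsp _ (by
    filter_upwards [indicatorConstLp_coeFn_notMem (p := 2) (hs := (o1 n).measurableSet)
      (hμs := o3 n) (c := (1 : ℝ))] with z a1 hz
    exact a1 fun h => hz (o2 n h))
  have := FiniteDimensional.span_of_finite ℝ (finite_range ((↑) : B → L2))
  exact Module.Finite.not_linearIndependent_of_infinite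
    (fun n => (⟨v n, mv n⟩ : Submodule.span ℝ (range ((↑) : B → L2))))
    (LinearIndependent.of_comp (Submodule.subtype _) li)

theorem exb_set {Ω : Set ℂ} (hΩ : IsOpen Ω) {u w : ℂ → ℝ} {c d : ℝ} {x y : L2}
    (hx : ∀ᵐ z, z ∉ Ω → x z = 0) (hu : ∀ᵐ z, z ∈ Ω → u z = c * x z)
    (hw : ∀ᵐ z, z ∈ Ω → w z = d * y z) : ∫ z in Ω, w z * u z = c * d * inner ℝ x y := by
  rw [← exb_mul', ← integral_const_mul, ← setIntegral_eq_integral_of_ae_compl_eq_zero (s := Ω)
    (hx.mono fun z a hz => by rw [a hz, zero_mul, mul_zero])]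
  refine setIntegral_congr_ae hΩ.measurableSet ?_
  filter_upwards [hu, hw] with z a1 a2 hz
  rw [a1 hz, a2 hz]
  ring

theorem t_exb (henum : S_ENUM) (hexh : S_EXH) (hop1 : S_OP1) (hop2 : S_OP2) (hop3 : S_OP3)
    (hreg : S_REG) (hhb1 : S_HB1) : S_EXB := by
  intro Ω hΩ hb hne
  obtain ⟨T, hT⟩ := hop1 Ω
  obtain ⟨B, k, hB, hk, hfin, hc⟩ := hexh T (hop3 Ω T hb hT) (hop2 Ω T hT).1
  choose g hg using fun b : B => (hop2 Ω T hT).2.2.2 (k b) b (hk b).1 (hk b).2
  have hs : ∀ b : B, ∀ᵐ z, z ∉ Ω → (b : L2) z = 0 := fun b =>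
    (hhb1.2.2.2.2.2.1 Ω _ _ (hg b).1).mono fun z a hz => (a hz).1
  have hc' : ∀ x : L2, (∀ᵐ z, z ∉ Ω → x z = 0) → (∀ b : B, inner ℝ (b : L2) x = 0) → x = 0 :=
    fun x a1 a2 => exb_zero hhb1 hΩ hT x a1 (hc x a2)
  have one : ∀ b : B, inner ℝ (b : L2) (b : L2) = (1 : ℝ) := fun b => by
    rw [real_inner_self_eq_norm_sq, hB.1 b, one_pow]
  have l0 : ∀ b : B, 0 ≤ (k b)⁻¹ - 1 := fun b => by
    have := hhb1.2.2.2.2.2.2.2.1 Ω _ _ _ _ _ (hg b) (hg b).1
    rw [exb_mul', one, mul_one] at this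
    rw [← this]
    exact integral_nonneg fun z => real_inner_self_nonneg
  obtain ⟨e, he⟩ := henum B (fun b => (k b)⁻¹ - 1) (exb_inf hΩ hb hne hB hs hc') fun a => by
    refine (hfin (1 + |a|)⁻¹ (by positivity)).subset fun b (h : (k b)⁻¹ - 1 ≤ a) => ?_
    have h1 : 0 < k b := inv_pos.1 (by linarith [l0 b])
    show (1 + |a|)⁻¹ ≤ |k b|
    rw [abs_of_pos h1]
    exact inv_le_of_inv_le₀ h1 (by linarith [le_abs_self a])
  have hp : 0 < volume.real Ω :=
    ENNReal.toReal_pos (hΩ.measure_pos volume hne).ne' hb.measure_lt_top.ne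
  have hq : √(volume.real Ω) * √(volume.real Ω) = volume.real Ω := mul_self_sqrt hp.le
  have W : ∀ b : B, WE Ω ((k b)⁻¹ - 1) (fun z => √(volume.real Ω) * (b : L2) z)
      (fun z => (√(volume.real Ω) : ℝ) * g b z) := fun b => by
    refine ⟨hhb1.2.1 Ω _ _ _ (hg b).1, fun φ hφ => ?_⟩
    simp only [← Complex.real_smul, real_inner_smul_left, mul_assoc]
    rw [integral_const_mul, integral_const_mul, (hg b).2 φ hφ]
    ring
  choose u hu using fun b : B => hreg.1 Ω _ _ _ hΩ (l0 b) (W b)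
  refine ⟨(fun b => (k b)⁻¹ - 1) ∘ e, u ∘ e, fun n => ⟨(hu _).1.1, (hu _).1.2, (hu _).2.1, ?_⟩,
    fun m n hmn => ?_, fun f hf h => ?_, he⟩
  · simp only [sq]
    exact (exb_set hΩ (hs _) (hu _).2.2 (hu _).2.2).trans (by rw [hq, one, mul_one])
  · refine (exb_set hΩ (hs _) (hu _).2.2 (hu _).2.2).trans ?_
    rw [hB.2 fun h => hmn (e.injective h).symm, mul_zero]
  · have hi := (memLp_indicator_iff_restrict hΩ.measurableSet).2 hf
    have h1 : ∀ᵐ z, z ∈ Ω → f z = 1 * hi.toLp _ z :=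
      hi.coeFn_toLp.mono fun z a hz => by rw [a, indicator_of_mem hz, one_mul]
    have h2 := hc' (hi.toLp _) (hi.coeFn_toLp.mono fun z a hz => by
      rw [a, indicator_of_notMem hz]) fun b => by
      have := h (e.symm b)
      rw [Function.comp_apply, e.apply_symm_apply, exb_set hΩ (hs b) (hu b).2.2 h1] at this
      exact (mul_eq_zero.1 this).resolve_left (mul_pos (sqrt_pos.2 hp) one_pos).ne'
    rw [h2] at h1
    rw [EventuallyEq, ae_restrict_iff' hΩ.measurableSet]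
    filter_upwards [h1, Lp.coeFn_zero ℝ 2 (volume : Measure ℂ)] with z a1 a2 hz
    rw [a1 hz, a2, one_mul]

end

end Pool.Agent.P.MP_6b977f_mp.EB
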