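import Pool.Agent.P.MP_6b977f_mp.EB.IfX
import Pool.Agent.P.MP_6b977f_mp.EB.CLA

namespace Pool.Agent.P.MP_6b977f_mp.EB

open Real MeasureTheory Filter Topology Laplacian Set Metric
open scoped ContDiff BoundedContinuousFunction ComplexConjugate Pointwise ENNReal

section
variable {H : Type} [NormedAddCommGroup H] [InnerProductSpace ℝ H] {T : H →L[ℝ] H}

theorem exh_fin (hc : IsCompactOperator T) (hT : (T : H →ₗ[ℝ] H).IsSymmetric) {a : ℝ}
    (ha : 0 < a) : FiniteDimensional ℝ (claSp T {μ | a ≤ |μ|}) :=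
  cla_fin hc _ ha fun v hv => by
    have := cla_sign hT (κ := 0) (δ := a) (e := 1) (W := {μ | a ≤ |μ|}) (fun μ hμ => by
      have := pow_le_pow_left₀ (le_of_lt ha) (show a ≤ |μ| from hμ) 2
      rw [sq_abs] at this
      rw [sub_zero]
      linarith) v hv
    rw [zero_smul, sub_zero] at this
    exact le_of_sq_le_sq (by rw [mul_pow]; linarith) (by positivity)

theorem exh_onb (F : Submodule ℝ H) [FiniteDimensional ℝ F] :
    ∃ s : Set H, s ⊆ F ∧ (∀ v ∈ s, ‖v‖ = 1) ∧ (∀ v ∈ s, ∀ w ∈ s, v ≠ w → inner ℝ v w = 0) ∧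
      ∀ x, (∀ v ∈ s, inner ℝ v x = 0) → ∀ v ∈ F, inner ℝ v x = 0 := by
  let b := stdOrthonormalBasis ℝ F
  refine ⟨range fun i => (b i : H), ?_, ?_, ?_, fun x hx v hv => ?_⟩
  · rintro _ ⟨i, rfl⟩
    exact (b i).2
  · rintro _ ⟨i, rfl⟩
    exact b.orthonormal.1 i
  · rintro _ ⟨i, rfl⟩ _ ⟨j, rfl⟩ hne
    exact b.orthonormal.2 fun e => hne (by rw [e])
  · have h3 := congrArg Subtype.val (b.sum_repr ⟨v, hv⟩)
    have h4 : v = ∑ i, b.repr ⟨v, hv⟩ i • (b i : H) := by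
      simpa using h3.symm
    rw [h4, sum_inner]
    refine Finset.sum_eq_zero fun i _ => ?_
    rw [inner_smul_left, hx _ ⟨i, rfl⟩, mul_zero]

theorem exh_main [CompleteSpace H] (hc : IsCompactOperator T)
    (hT : (T : H →ₗ[ℝ] H).IsSymmetric) :
    ∃ (B : Set H) (k : B → ℝ), Orthonormal ℝ ((↑) : B → H) ∧
      (∀ b : B, k b ≠ 0 ∧ T b = k b • (b : H)) ∧ (∀ a > 0, {b : B | a ≤ |k b|}.Finite) ∧
      ∀ x : H, (∀ b : B, inner ℝ (b : H) x = 0) → T x = 0 := by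
  have hE : ∀ μ : {μ : ℝ // μ ≠ 0}, ∃ s : Set H,
      s ⊆ Module.End.eigenspace (T : Module.End ℝ H) μ.1 ∧ (∀ v ∈ s, ‖v‖ = 1) ∧
      (∀ v ∈ s, ∀ w ∈ s, v ≠ w → inner ℝ v w = 0) ∧
      ∀ x, (∀ v ∈ s, inner ℝ v x = 0) →
        ∀ v ∈ Module.End.eigenspace (T : Module.End ℝ H) μ.1, inner ℝ v x = 0 := fun μ => by
    have := exh_fin hc hT (abs_pos.2 μ.2)
    have hle : Module.End.eigenspace (T : Module.End ℝ H) μ.1 ≤ claSp T {ν | |μ.1| ≤ |ν|} := by
      intro v hv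
      have e : T v = μ.1 • v := Module.End.mem_eigenspace_iff.1 hv
      exact cla_mem (W := {ν | |μ.1| ≤ |ν|}) (le_refl |μ.1|) e
    have := Submodule.finiteDimensional_of_le hle
    exact exh_onb (Module.End.eigenspace (T : Module.End ℝ H) μ.1)
  choose s h1 h2 h3 h4 using hE
  have hk : ∀ v : {v | ∃ μ, v ∈ s μ}, ∃ μ : ℝ, μ ≠ 0 ∧ T v = μ • (v : H) := by
    rintro ⟨v, μ, hv⟩
    exact ⟨μ, μ.2, Module.End.mem_eigenspace_iff.1 (h1 μ hv)⟩
  choose k hk using hk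
  have hon : Orthonormal ℝ ((↑) : {v | ∃ μ, v ∈ s μ} → H) := by
    refine ⟨?_, ?_⟩
    · rintro ⟨v, μ, hv⟩
      exact h2 μ v hv
    · rintro ⟨v, μ, hv⟩ ⟨w, ν, hw⟩ hne
      by_cases h : μ = ν
      · subst h
        exact h3 μ v hv w hw fun e => hne (Subtype.ext e)
      · exact (hT.orthogonalFamily_eigenspaces.isOrtho
          fun e => h (Subtype.ext e)).inner_eq (h1 μ hv) (h1 ν hw)
  refine ⟨_, k, hon, hk, fun a ha => ?_, fun x hx => ?_⟩
  · have := exh_fin hc hT ha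
    have hli : LinearIndependent ℝ fun v : {v | a ≤ |k v|} =>
        (⟨(v.1 : H), cla_mem (W := {μ | a ≤ |μ|}) (μ := k v.1) v.2 (hk v.1).2⟩ : claSp T {μ | a ≤ |μ|}) :=
      LinearIndependent.of_comp (claSp T {μ | a ≤ |μ|}).subtype
        (hon.linearIndependent.comp _ Subtype.val_injective)
    exact hli.finite
  · have h : T x ∈ (⨆ μ, Module.End.eigenspace (T : Module.End ℝ H) μ)ᗮ := by
      rw [← Submodule.iInf_orthogonal, Submodule.mem_iInf]
      intro μ v hv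
      have e1 : T v = μ • v := Module.End.mem_eigenspace_iff.1 hv
      have e2 : inner ℝ v (T x) = inner ℝ (T v) x := (hT v x).symm
      rw [e2, e1, inner_smul_left]
      by_cases h0 : μ = 0
      · simp [h0]
      · rw [h4 ⟨μ, h0⟩ x (fun w hw => hx ⟨w, _, hw⟩) v hv, mul_zero]
    rwa [ContinuousLinearMap.orthogonalComplement_iSup_eigenspaces_eq_bot hc hT,
      Submodule.mem_bot] at h

end

theorem t_exh (hcla : S_CLA) : S_EXH := fun _ hc hs => exh_main hc hs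

end Pool.Agent.P.MP_6b977f_mp.EB
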