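import Pool.Agent.P.MP_6b977f_mp.EB.IfE

/-! The Baire category assembly. -/

namespace Pool.Agent.P.MP_6b977f_mp.EB

open Real MeasureTheory Filter Topology Set Metric
open scoped BoundedContinuousFunction

theorem fin_closed : IsClosed {p : (ℝ →ᵇ ℝ) × (ℝ →ᵇ ℝ) |
    Function.Periodic p.1 (2 * π) ∧ ∀ x, HasDerivAt p.1 (p.2 x) x} := by
  refine isSeqClosed_iff_isClosed.1 fun q p hq hp => ⟨fun x => ?_, fun x => ?_⟩
  · have h1 : ∀ y, Tendsto (fun n => (q n).1 y) atTop (𝓝 (p.1 y)) := fun y =>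
      ((continuous_eval_const y).tendsto _).comp
        ((continuous_fst.tendsto _).comp hp)
    exact tendsto_nhds_unique (h1 (x + 2 * π)) (by simpa [fun n => (hq n).1 x] using h1 x)
  · have h2 : TendstoUniformly (fun n y => (q n).2 y) p.2 atTop :=
      BoundedContinuousFunction.tendsto_iff_tendstoUniformly.1
        ((continuous_snd.tendsto _).comp hp)
    have h1 : ∀ y, Tendsto (fun n => (q n).1 y) atTop (𝓝 (p.1 y)) := fun y =>
      ((continuous_eval_const y).tendsto _).comp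
        ((continuous_fst.tendsto _).comp hp)
    exact hasDerivAt_of_tendstoUniformly h2 (Eventually.of_forall fun n y => (hq n).2 y) h1 x

theorem fin_complete : CompleteSpace C1 := fin_closed.completeSpace_coe

theorem fin_ne : Nonempty C1 :=
  ⟨⟨(0, 0), fun _ => rfl, fun x => by simp⟩⟩

theorem fin_cp (p : C1) : CP p.1.1 := ⟨p.1.1.continuous, p.2.1⟩

theorem fin_main (hrat : S_RAT) (huniq : S_UNIQ) (hbgen : S_BGEN) (hbfin : S_BFIN) (hfam : S_FAM)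
    (hegen : S_EGEN) (herg : S_ERG) :
    ∃ μ : RM, IsRMW μ ∧ (∀ ν : RM, IsRMW ν → ν = μ) ∧
      ∃ G : Set C1, IsGδ G ∧ Dense G ∧ ∀ p ∈ G, Ergodic' p.1.1 p.1.2 ∧ ∀ χ, Cut χ →
        (∃ (lam : ℕ → ℝ) (u : ℕ → ℂ → ℝ), (∀ n, Eig (table p.1.1) (lam n) (u n)) ∧
          Tendsto lam atTop atTop ∧ LWL μ χ (table p.1.1) lam u) ∧
        ∀ lam u, Basis' (table p.1.1) lam u →
          ∃ s : ℕ → ℕ, StrictMono s ∧ LWL μ χ (table p.1.1) (lam ∘ s) (u ∘ s) := by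
  obtain ⟨D, hD⟩ := hrat
  obtain ⟨ψ, hψ⟩ := hfam
  have := fin_complete
  let U : ℕ × ℕ → Set C1 := fun i =>
    {p | GoodB D i.1 p.1.1} ∩ {p | Crit p.1.1 p.1.2 (ψ i.1) (1 / ((i.2 : ℝ) + 1))}
  have he : ∀ i : ℕ × ℕ, (0 : ℝ) < 1 / ((i.2 : ℝ) + 1) := fun i => by positivity
  have hUo : ∀ i, IsOpen (U i) := fun i => (hbgen D i.1).1.inter (hegen _ _ (he i)).1
  have hUd : ∀ i, Dense (U i) := fun i =>
    (hbgen D i.1).2.inter_of_isOpen_left (hegen _ _ (he i)).2 (hbgen D i.1).1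
  have hd : Dense (⋂ i, U i) := dense_iInter_of_isOpen hUo hUd
  have := fin_ne
  obtain ⟨p₀, hp₀⟩ := hd.nonempty
  obtain ⟨μ, hμ⟩ := (hbfin D _ hD (fin_cp p₀) fun n => (mem_iInter.1 hp₀ (n, 0)).1).1
  refine ⟨μ, hμ, fun ν hν => huniq ν μ hν hμ, ⋂ i, U i, IsGδ.iInter_of_isOpen hUo, hd,
    fun p hp => ⟨herg p ψ hψ fun n k => (mem_iInter.1 hp (n, k)).2, fun χ hχ => ?_⟩⟩
  exact (hbfin D _ hD (fin_cp p) fun n => (mem_iInter.1 hp (n, 0)).1).2 μ hμ χ hχ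

end Pool.Agent.P.MP_6b977f_mp.EB
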