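import Pool.Agent.P.MP_6b977f_mp.EB.GMM

/-! Trajectories through the corners of the grooves are negligible. -/

namespace Pool.Agent.P.MP_6b977f_mp.EB

open Real MeasureTheory Filter Topology Set Metric
open scoped ContDiff BoundedContinuousFunction ComplexConjugate Pointwise ENNReal

noncomputable section

theorem gdn_count {L : ℝ} {N : ℕ} (hL : 0 < L) (hN : 1 ≤ N) (u v : ℝ) :
    {σ | Int.fract (cX L N u σ) = v}.Countable := by
  have hN' : (0 : ℝ) < N := by exact_mod_cast hN
  have hp : pd L N ≠ 0 := by unfold pd; positivity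
  refine (countable_range fun jk : ℕ × ℤ => jk.1 * (L / N) + pd L N * (u + v + jk.2)).mono
    fun σ hσ => mem_range.2 ⟨(⌊σ / (L / N)⌋₊, ⌊cX L N u σ⌋), ?_⟩
  have h1 := Int.fract_add_floor (cX L N u σ)
  rw [show Int.fract (cX L N u σ) = v from hσ] at h1
  simp only
  rw [add_assoc u, h1, cX]
  field_simp
  ring

theorem gdn_one {L : ℝ} {N : ℕ} (hL : 0 < L) (hN : 1 ≤ N) (u : ℝ) {F : ℝ → ℝ}
    (hF : Measurable F) : ∀ᵐ y ∂(volume.restrict (Ioo 0 L)).prod sm,
      Int.fract (cX L N u y.1) * sin y.2 ≠ F y.2 := by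
  have hm : MeasurableSet {y : ℝ × ℝ | Int.fract (cX L N u y.1) * sin y.2 ≠ F y.2} :=
    (measurableSet_eq_fun ((gmm_cX measurable_const measurable_const measurable_fst N).fract.mul
      measurable_snd.sin) (hF.comp measurable_snd)).compl
  have : SFinite sm := by unfold sm; infer_instance
  refine (Measure.ae_prod_iff_ae_ae hm).2 ((Measure.ae_ae_comm
    (p := fun σ θ => Int.fract (cX L N u σ) * sin θ ≠ F θ) hm).2 ?_)
  have h1 : ∀ᵐ θ ∂sm, θ ∈ Ioo 0 π :=
    (withDensity_absolutelyContinuous _ _).ae_le (ae_restrict_mem measurableSet_Ioo)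
  filter_upwards [h1] with θ hθ
  have hs := (sin_pos_of_mem_Ioo hθ).ne'
  refine ae_restrict_of_ae ?_
  filter_upwards [(gdn_count hL hN u (F θ / sin θ)).ae_notMem volume] with σ h e
  exact h ((eq_div_iff hs).2 e)

theorem t_gdn : S_GDN := by
  intro P c α₀ N w hok hN
  rw [Poly.mP, ae_finsetSum_measure_iff]
  intro s hs
  rw [(measurableEmbedding_prodMk_left s).ae_map_iff]
  have hL := hok.len s (Finset.mem_range.1 hs)
  have h1 := ae_all_iff.2 fun k : Cl P N => gdn_one hL hN (w k).1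
    (F := fun θ => sin (θ - α₀ * (1 + (w k).2)) / (2 * cos (α₀ * (1 + (w k).2)))) (by fun_prop)
  have h2 := ae_all_iff.2 fun k : Cl P N => gdn_one hL hN (w k).1
    (F := fun θ => sin (θ - 2 * (α₀ * (1 + (w k).2)))) (by fun_prop)
  have h3 := ae_all_iff.2 fun k : Cl P N => gdn_one hL hN (w k).1
    (F := fun θ => sin θ - sin (θ + 2 * (α₀ * (1 + (w k).2)))) (by fun_prop)
  filter_upwards [h1, h2, h3] with y a1 a2 a3 u α hu hα
  subst hu hα
  exact ⟨a1 _, a2 _, fun e => a3 (cell P N s y.1) (by linarith)⟩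

end

end Pool.Agent.P.MP_6b977f_mp.EB
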