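import Pool.Agent.P.MP_6b977f_mp.EB.IfE

namespace Pool.Agent.P.MP_6b977f_mp.EB

open Real MeasureTheory Filter Topology Set Metric
open scoped ContDiff BoundedContinuousFunction ComplexConjugate Pointwise ENNReal

theorem gt3_norm (t : ℝ) : ‖ex t‖ = 1 := Complex.norm_exp_ofReal_mul_I t

theorem gt3_polar {r r' t t' : ℝ} (hr : 0 < r) (hr' : 0 ≤ r') (h : (r : ℂ) * ex t = r' * ex t') :
    ex t = ex t' := by
  have e : r = r' := by
    have := congrArg norm h
    rwa [norm_mul, norm_mul, gt3_norm, gt3_norm, mul_one, mul_one, Complex.norm_real,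
      Complex.norm_real, Real.norm_of_nonneg hr.le, Real.norm_of_nonneg hr'] at this
  rw [← e] at h
  exact mul_left_cancel₀ (Complex.ofReal_ne_zero.mpr hr.ne') h

theorem gt3_ex_eq {t t' : ℝ} (h : ex t = ex t') : ∃ n : ℤ, t = t' + n * (2 * π) := by
  obtain ⟨n, hn⟩ := Complex.exp_eq_exp_iff_exists_int.mp h
  refine ⟨n, ?_⟩
  have := congrArg Complex.im hn
  simpa using this

theorem gt3_ex_add (t : ℝ) (n : ℤ) : ex (t + n * (2 * π)) = ex t := by
  refine Complex.exp_eq_exp_iff_exists_int.mpr ⟨n, ?_⟩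
  push_cast
  ring

theorem gt3_dper {σ : ℝ → ℝ} {a : ℝ} (h : Function.Periodic σ a) :
    Function.Periodic (deriv σ) a := fun t => by
  rw [← deriv_comp_add_const]
  exact congrArg (fun f => deriv f t) (funext h)

theorem gt3_shift {σ : ℝ → ℝ} {a t : ℝ} (h : Function.Periodic σ a)
    (h1 : HasDerivAt σ (deriv σ (t + a)) (t + a)) (h2 : ContinuousAt (deriv σ) (t + a)) :
    HasDerivAt σ (deriv σ t) t ∧ ContinuousAt (deriv σ) t := by
  constructor
  · have h3 := h1.comp_add_const t a
    have e : (fun x => σ (x + a)) = σ := funext h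
    rw [e] at h3
    exact h3.differentiableAt.hasDerivAt
  · have h3 : ContinuousAt (fun x => deriv σ (x + a)) t :=
      ContinuousAt.comp (f := fun x => x + a) h2 (by fun_prop)
    have e : (fun x => deriv σ (x + a)) = deriv σ := funext (gt3_dper h)
    rwa [e] at h3

theorem gt3_thr {F : ℝ → ℝ} {r : ℝ} (hF : Continuous F) (hr : 0 < r)
    (h : ∀ a, 0 ≤ a → (a < r ↔ 0 < F a)) : F r = 0 := by
  refine le_antisymm (not_lt.mp fun h0 => lt_irrefl r ((h r hr.le).mpr h0)) ?_
  have h1 : Tendsto F (𝓝[<] r) (𝓝 (F r)) := hF.continuousAt.tendsto.mono_left nhdsWithin_le_nhds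
  refine ge_of_tendsto h1 ?_
  filter_upwards [Ioo_mem_nhdsLT hr] with a ha
  exact ((h a ha.1.le).mp ha.2).le

theorem t_gt3 (hgt2 : S_GT2) (hpol0 : S_POL0) (hglue : S_GLUE) (htab : S_TAB) : S_GT3 := by
  intro P ρ σ c κ δ η D hP hρ hκ hD hG hN hfin
  classical
  obtain ⟨hp1, -, hp3, -⟩ := hpol0 P c hP
  obtain ⟨-, hlip, -⟩ := hp3 ρ hρ
  have hZ : ((ex ∘ P.φ) '' Iic P.S ∪ ⋃ s ∈ Iio P.S,
      (fun a : ℝ => (P.V s + P.e s * (a - D s a * Complex.I)) /
        (‖P.V s + P.e s * (a - D s a * Complex.I)‖ : ℝ)) ''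
          {a ∈ Ioo 0 (P.L s) | ∀ m, ¬Aff (D s) a m}).Finite :=
    ((finite_Iic _).image _).union
      ((finite_Iio _).biUnion fun s hs => (hfin s hs).image _)
  refine ⟨hZ.toFinset, hG.1, gt3_dper hG.1.2, measurable_deriv σ, ⟨|η| + c⁻¹, fun t => ?_⟩,
    fun t ht => ?_⟩
  · have hc : 0 ≤ c⁻¹ := inv_nonneg.mpr hP.c_pos.le
    rw [← Real.norm_eq_abs]
    refine norm_deriv_le_of_lip' (add_nonneg (abs_nonneg η) hc) (Eventually.of_forall fun x => ?_)
    rw [Real.norm_eq_abs, Real.norm_eq_abs]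
    have h1 := hN.2 x t
    have h2 := hlip x t
    have h3 : η * |x - t| ≤ |η| * |x - t| :=
      mul_le_mul_of_nonneg_right (le_abs_self η) (abs_nonneg _)
    have h4 : |σ x - σ t| ≤ |(σ x - ρ x) - (σ t - ρ t)| + |ρ x - ρ t| := by
      have : σ x - σ t = ((σ x - ρ x) - (σ t - ρ t)) + (ρ x - ρ t) := by ring
      rw [this]
      exact abs_add_le _ _
    nlinarith
  · rw [Set.Finite.mem_toFinset] at ht
    obtain ⟨s, hs, m, hm⟩ := (hglue P c hP).1 t
    set t' := t + m * (2 * π) with ht'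
    have hex : ex t' = ex t := gt3_ex_add t m
    set r := Real.exp (σ t') with hr
    have hr0 : 0 < r := Real.exp_pos _
    obtain ⟨hD1, hD2, hD3⟩ := hD s hs
    have hDc : Continuous (D s) := by
      refine (LipschitzWith.of_dist_le' (K := κ) fun x y => ?_).continuous
      rw [Real.dist_eq, Real.dist_eq]
      exact hD3 x y
    have hF : (conj (P.e s) * (r * ex t' - P.V s)).im +
        D s (conj (P.e s) * (r * ex t' - P.V s)).re = 0 := by
      refine gt3_thr (F := fun a : ℝ => (conj (P.e s) * (a * ex t' - P.V s)).im +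
        D s (conj (P.e s) * (a * ex t' - P.V s)).re) ?_ hr0 fun a ha => ?_
      · refine Continuous.add (by fun_prop) (hDc.comp (by fun_prop))
      · exact ((htab σ hG.1).2.2.2.2.2.2.1 a t' ha).symm.trans (hG.2 s hs t' hm a ha)
    set a₀ := (conj (P.e s) * (r * ex t' - P.V s)).re with ha₀
    have he : P.e s * conj (P.e s) = 1 := by
      rw [Complex.mul_conj, Complex.normSq_eq_norm_sq, hP.unit s hs]; simp
    have he0 : P.e s ≠ 0 := left_ne_zero_of_mul_eq_one he
    have hw : conj (P.e s) * (r * ex t' - P.V s) = a₀ - D s a₀ * Complex.I := by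
      apply Complex.ext
      · simp [ha₀]
      · have : (conj (P.e s) * (r * ex t' - P.V s)).im = -D s a₀ := by linarith
        rw [this]; simp
    have hy : P.V s + P.e s * (a₀ - D s a₀ * Complex.I) = r * ex t' := by
      rw [← hw, ← mul_assoc, he]; ring
    by_cases ha : a₀ ∈ Ioo 0 (P.L s)
    · by_cases hb : ∀ m, ¬Aff (D s) a₀ m
      · refine (ht (Or.inr (mem_iUnion₂.mpr ⟨s, hs, a₀, ⟨ha, hb⟩, ?_⟩))).elim
        beta_reduce
        rw [hy, norm_mul, gt3_norm, mul_one, Complex.norm_real, Real.norm_of_nonneg hr0.le,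
          mul_div_cancel_left₀ _ (Complex.ofReal_ne_zero.mpr hr0.ne'), hex]
      · push Not at hb
        obtain ⟨m', hm'⟩ := hb
        obtain ⟨t₁, h1, h2, h3, -⟩ :=
          ((hgt2 P ρ σ c κ δ D hP hρ hκ hD hG).2 s hs a₀ ha).2 m' hm'
        rw [hy] at h1
        have h4 : ex t₁ = ex t :=
          (gt3_polar hr0 (Real.exp_pos _).le h1).symm.trans hex
        obtain ⟨n, hn⟩ := gt3_ex_eq h4
        rw [hn] at h2 h3
        exact gt3_shift (hG.1.2.int_mul n) h2 h3
    · exfalso
      rw [hD2 a₀ ha] at hy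
      have hc : 0 < cross (ex t') (P.e s) := lt_of_lt_of_le hP.c_pos (hP.tr s hs t' hm)
      have hrad : r = P.rad s t' := by
        rw [Poly.rad, eq_div_iff hc.ne']
        have h1 := congrArg Complex.re hy
        have h2 := congrArg Complex.im hy
        simp only [Complex.ofReal_zero, zero_mul, sub_zero, Complex.add_re, Complex.mul_re,
          Complex.ofReal_re, Complex.ofReal_im, mul_zero, Complex.add_im, Complex.mul_im,
          zero_add, add_zero] at h1 h2
        unfold cross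
        linear_combination (-(P.e s).im) * h1 + (P.e s).re * h2
      obtain ⟨τ, hτ, hτ'⟩ := ((hp1 s hs).2.2.2.1 t' hm).2.1
      rw [← hrad] at hτ'
      have hτa : τ = a₀ := by
        have h1 : P.e s * (τ : ℂ) = P.e s * (a₀ : ℂ) := by
          have h2 := hy.trans hτ'
          simp only [Complex.ofReal_zero, zero_mul, sub_zero] at h2
          linear_combination -h2
        exact Complex.ofReal_injective (mul_left_cancel₀ he0 h1)
      rw [← hτa] at ha
      have hcase : τ = 0 ∨ τ = P.L s := by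
        by_contra hne
        push Not at hne
        exact ha ⟨lt_of_le_of_ne hτ.1 hne.1.symm, lt_of_le_of_ne hτ.2 hne.2⟩
      refine ht (Or.inl ?_)
      rcases hcase with h0 | h0
      · rw [h0, Complex.ofReal_zero, zero_mul, add_zero, (hP.pol s hs.le).2] at hτ'
        exact ⟨s, hs.le, (gt3_polar hr0 (norm_nonneg _) hτ').symm.trans hex⟩
      · rw [h0, ← hP.step s hs, (hP.pol (s + 1) hs).2] at hτ'
        exact ⟨s + 1, hs, (gt3_polar hr0 (norm_nonneg _) hτ').symm.trans hex⟩

end Pool.Agent.P.MP_6b977f_mp.EB
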