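import Pool.Agent.P.MP_6b977f_mp.EB.IfS

/-! Interface, part B: an exact eigenfunction close to a superposition of plane waves. -/

namespace Pool.Agent.P.MP_6b977f_mp.EB

open Real MeasureTheory Filter Topology Laplacian Set Metric
open scoped ContDiff BoundedContinuousFunction ComplexConjugate Pointwise ENNReal

noncomputable section

/-! ### Ladders: `∂ u j = u (j+1) / 2`, `∂̄ u j = - u (j-1) / 2` -/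

def Lad (O : Set ℂ) (u : ℤ → ℂ → ℂ) : Prop :=
  ∀ j, ∀ z ∈ O, ∃ A : ℂ →L[ℝ] ℂ, HasFDerivAt (u j) A z ∧
    ∀ e, A e = (e * u (j + 1) z - conj e * u (j - 1) z) / 2

def RealL (u : ℤ → ℂ → ℂ) : Prop := ∀ j z, u (-j) z = (-1) ^ j * conj (u j z)

def OddL (H : ℝ) (u : ℤ → ℂ → ℂ) : Prop := ∀ j z, u j (mir H z) = -conj (u j z)

/-- Index `M` dominates at the scales between `r / μ ^ 2` and `μ ^ 2 * r`. -/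
def Dom (a : ℕ → ℝ) (J M : ℕ) (r μ c₀ : ℝ) : Prop :=
  (∀ j ∈ Icc 1 J, ∀ t ∈ Icc (r / μ ^ 2) (μ ^ 2 * r), a j * t ^ j ≤ a M * t ^ M) ∧
    c₀ * (μ ^ 2 * r) ^ J ≤ a M * (μ ^ 2 * r) ^ M

/-- A window at `x`: the gradient of `u 0` is almost normal to `e` and `u 0 x` is small. -/
def Win (u : ℤ → ℂ → ℂ) (e x : ℂ) (d η₂ c₁ : ℝ) : Prop :=
  ∃ β : ℝ, β ≠ 0 ∧ (∀ y ∈ ball x d, ‖e * u 1 y - Complex.I * β‖ ≤ η₂ * |β|) ∧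
    ‖u 0 x‖ < c₁ * |β| * d / 2

open Classical in
/-- The jets that a corrector can prescribe. -/
def prj (L : Prop) (j : ℕ) (a : ℂ) : ℂ :=
  if j = 0 then (if L then 0 else (a.re : ℂ)) else if L then Complex.I * a.im else a

/-- The ladder of `cos ⟨ξ, y⟩`. -/
def pw (ξ : ℂ) (j : ℤ) (y : ℂ) : ℂ :=
  (Complex.I * conj ξ) ^ j * (Complex.exp (Complex.I * ((conj ξ * y).re : ℝ)) +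
    (-1) ^ j * Complex.exp (-(Complex.I * ((conj ξ * y).re : ℝ)))) / 2

/-- The wave, odd for the dihedral group. -/
def Wv (q : ℕ) (ϑ : ℝ) (j : ℤ) (y : ℂ) : ℂ :=
  ((√q : ℝ) : ℂ)⁻¹ * ∑ m ∈ Finset.range q,
    (pw (ex (2 * π * m / q + ϑ)) j y - pw (ex (2 * π * m / q - ϑ)) j y)

structure WaveOk (q : ℕ) (W : ℤ → ℂ → ℂ) (J : ℕ) (B₀ c₀ : ℝ) : Prop where
  lad : Lad univ W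
  real : RealL W
  odd : OddL 0 W
  c_pos : 0 < c₀
  bdd : ∀ j y, ‖W j y‖ ≤ B₀
  low : ∀ y, ∃ j ∈ Icc 1 J, c₀ ≤ ‖W (j : ℕ) y‖
  line : ∀ (m : ℤ) (τ : ℝ) (j : ℕ), (ex (π * m / q) ^ j * W j (τ * ex (π * m / q))).re = 0

/-! ### Polygons -/

structure Poly where
  S : ℕ
  φ : ℕ → ℝ
  V : ℕ → ℂ
  e : ℕ → ℂ
  L : ℕ → ℝ

def Poly.rad (P : Poly) (s : ℕ) (t : ℝ) : ℝ := cross (P.V s) (P.e s) / cross (ex t) (P.e s)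

def Poly.slope (P : Poly) (s : ℕ) (t : ℝ) : ℝ := (conj (P.e s) * ex t).re / cross (ex t) (P.e s)

def Poly.side (P : Poly) (s : ℕ) : Set ℂ := {x | ∃ τ ∈ Icc 0 (P.L s), x = P.V s + (τ : ℝ) * P.e s}

def Poly.sec (P : Poly) (s : ℕ) : Set ℝ := Icc (P.φ s) (P.φ (s + 1))

def Poly.sc (P : Poly) (k : ℝ) : Poly := ⟨P.S, P.φ, fun s => k * P.V s, P.e, fun s => k * P.L s⟩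

structure Poly.Ok (P : Poly) (c : ℝ) : Prop where
  c_pos : 0 < c
  three : 3 ≤ P.S
  mono : ∀ s < P.S, P.φ s < P.φ (s + 1)
  per : P.φ P.S = P.φ 0 + 2 * π
  close : P.V P.S = P.V 0
  unit : ∀ s < P.S, ‖P.e s‖ = 1
  len : ∀ s < P.S, 0 < P.L s
  step : ∀ s < P.S, P.V (s + 1) = P.V s + P.L s * P.e s
  pol : ∀ s ≤ P.S, P.V s ≠ 0 ∧ P.V s = ‖P.V s‖ * ex (P.φ s)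
  tr : ∀ s < P.S, ∀ t ∈ P.sec s, c ≤ cross (ex t) (P.e s)

def Poly.IsRho (P : Poly) (ρ : ℝ → ℝ) : Prop :=
  CP ρ ∧ ∀ s < P.S, ∀ t ∈ P.sec s, ρ t = Real.log (P.rad s t)

def Poly.Dir (P : Poly) (q : ℕ) : Prop := ∀ s < P.S, ∃ m : ℤ, P.e s = ex (π * m / q)

def Poly.Bot (P : Poly) : Prop :=
  P.e 0 = 1 ∧ ∀ s, 2 ≤ s → s < P.S → (P.V 0).im < (P.V s).im

open Classical in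
/-- Direction from a centre to its source. -/
def Poly.nn (P : Poly) (p : ℂ) : ℂ :=
  if p = P.V 0 then -1 else if p = P.V 1 then 1 else p / ‖p‖

structure Geo (P : Poly) (ρ : ℝ → ℝ) (c R : ℝ) : Prop where
  c_le : c ≤ 1 / 4
  g1 : ∀ s < P.S, ∀ s' < P.S, s ≠ s' → ∀ x ∈ P.side s, ∀ x' ∈ P.side s',
    c ≤ ‖x - x'‖ ∨ ∃ m < P.S, c * ‖x - P.V m‖ ≤ ‖x - x'‖
  g2 : ∀ m < P.S, ∀ s < P.S, ∀ x ∈ P.side s, P.V m ∈ P.side s ∨ c ≤ ‖x - P.V m‖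
  g3 : ∀ m < P.S, ∀ m' < P.S, m ≠ m' → c ≤ ‖P.V m - P.V m'‖
  g4 : ∀ s < P.S, ∀ x ∈ P.side s, ∀ r ∈ Icc 0 c, ∀ y ∈ closure (table ρ),
    c * r ≤ ‖y - (x + r * P.nn x)‖
  g5 : ∀ s, 1 ≤ s → s < P.S → ∀ x ∈ P.side s,
    c * min 1 (min ‖x - P.V 0‖ ‖x - P.V 1‖) ≤ x.im - (P.V 0).im
  g6 : ∀ y ∈ closure (table ρ), (P.V 0).im ≤ y.im
  g7 : ∀ s < P.S, ∀ x ∈ P.side s, c ≤ ‖x‖ ∧ ‖x‖ ≤ R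

/-- A family of centres with their scales, dominant indices and base vertices. -/
structure Cen (P : Poly) (W : ℤ → ℂ → ℂ) (J : ℕ) (μ c c₀ R : ℝ) (Z : Finset ℂ) (r : ℂ → ℝ)
    (M b : ℂ → ℕ) : Prop where
  sub : ∀ p ∈ Z, ∃ s, 1 ≤ s ∧ s < P.S ∧ p ∈ P.side s
  vert : ∀ m < P.S, P.V m ∈ Z
  lev : ∀ p ∈ Z, (μ ^ (8 * J + 2))⁻¹ ≤ r p ∧ r p ≤ (μ ^ 6)⁻¹
  dom : ∀ p ∈ Z, M p ∈ Icc 1 J ∧ b p < P.S ∧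
    Dom (fun j => ‖W j (p - P.V (b p))‖) J (M p) (r p) μ c₀
  sep : ∀ p ∈ Z, ∀ p' ∈ Z, p ≠ p' → μ * r p ≤ ‖p - p'‖
  cov : ∀ s, 1 ≤ s → s < P.S → ∀ x ∈ P.side s, ∃ p ∈ Z, ‖x - p‖ < μ * r p
  line : ∀ p ∈ Z, ∀ s, 1 ≤ s → s < P.S → ∀ x ∈ P.side s, ‖x - p‖ < μ * r p →
    ∃ τ τ' : ℝ, x = p + τ * P.e s ∧ p = P.V (b p) + τ' * P.e s
  high : ∀ p ∈ Z, p ≠ P.V 0 → p ≠ P.V 1 → c ^ 2 * μ * r p ≤ p.im - (P.V 0).im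
  card : (Z.card : ℝ) ≤ (2 * R * μ ^ (8 * J + 2) + 1) ^ 2

/-- The output of the jet killing. -/
structure Kill (H : ℝ) (W u : ℤ → ℂ → ℂ) (J N3 : ℕ) (μ c C : ℝ) (Z : Finset ℂ) (n : ℂ → ℂ)
    (r B : ℂ → ℝ) (M : ℂ → ℕ) : Prop where
  lad : Lad {y | ∀ p ∈ Z, y ≠ p + r p * n p ∧ y ≠ mir H (p + r p * n p)} u
  real : RealL u
  odd : OddL H u
  jet : ∀ p ∈ Z, ∀ j < M p, u j p = 0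
  near : ∀ p ∈ Z, ∀ y : ℂ, -H ≤ y.im → c * r p ≤ ‖y - (p + r p * n p)‖ →
    (∀ p' ∈ Z, p' ≠ p → c * μ * r p' ≤ ‖y - p'‖) →
    ∀ l : ℤ, l.natAbs ≤ J + 1 → ‖u l y - W l y‖ * r p ^ l.natAbs ≤ C * B p / μ
  far : ∀ y : ℂ, -H ≤ y.im → (∀ p ∈ Z, c * μ * r p ≤ ‖y - p‖) →
    ∀ l : ℤ, l.natAbs ≤ J + 1 → ‖u l y - W l y‖ ≤ (μ ^ N3)⁻¹

/-! ### Statements: ladders -/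

def S_LAD : Prop :=
  (∀ O u, IsOpen O → Lad O u → (∀ j, ContDiffOn ℝ ∞ (u j) O) ∧
    ∀ k : ℝ, 0 < k → Sol {z | (k : ℂ) * z ∈ O} (k ^ 2) fun z => (u 0 (k * z)).re) ∧
  (∀ O u, Lad O u → RealL u → ∀ z ∈ O, (u 0 z).im = 0 ∧ ∃ A : ℂ →L[ℝ] ℝ,
    HasFDerivAt (fun y => (u 0 y).re) A z ∧ ∀ e, A e = (e * u 1 z).re) ∧
  (∀ O O' u, O' ⊆ O → Lad O u → Lad O' u) ∧
  (∀ O u v, Lad O u → Lad O v → Lad O (u + v)) ∧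
  (∀ O u (a : ℂ), Lad O u → Lad O fun j z => a * u j z) ∧
  (∀ O u (b : ℂ), Lad O u → Lad {z | z - b ∈ O} fun j z => u j (z - b)) ∧
  (∀ O u (m : ℤ), Lad O u → Lad O fun j z => u (j + m) z) ∧
  (∀ O u, Lad O u → Lad O fun j z => (-1) ^ j * conj (u (-j) z)) ∧
  (∀ O u (H : ℝ), Lad O u → Lad {z | mir H z ∈ O} fun j z => conj (u j (mir H z))) ∧
  ∀ O (ι : Type) (T : Finset ι) (u : ι → ℤ → ℂ → ℂ), (∀ i ∈ T, Lad O (u i)) →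
    Lad O fun j z => ∑ i ∈ T, u i j z

def S_TAY : Prop := ∀ (n : ℕ) O u (m : ℤ) (p h : ℂ) (K : ℝ), Lad O u → segment ℝ p (p + h) ⊆ O →
  (∀ y ∈ segment ℝ p (p + h), ∀ j : ℤ, (j - m).natAbs ≤ n → ‖u j y‖ ≤ K) →
  ‖u m (p + h) - ∑ ab ∈ (Finset.range n ×ˢ Finset.range n).filter (fun ab => ab.1 + ab.2 < n),
      (h / 2) ^ ab.1 * (-conj h / 2) ^ ab.2 / (ab.1.factorial * ab.2.factorial) *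
        u (m + ab.1 - ab.2) p‖ ≤ K * ‖h‖ ^ n

def S_DOM : Prop := ∀ J : ℕ, ∃ C : ℝ, 0 < C ∧ ∀ O u (M : ℕ) (p h : ℂ) (ε d : ℝ), Lad O u →
  RealL u → M ∈ Icc 1 J → segment ℝ p (p + h) ⊆ O → ‖h‖ ≤ ε → ε ≤ 1 → ‖u M p‖ ≤ 2 * d →
  (∀ j : ℕ, j ≤ J → j ≠ M → ‖u j p‖ * ‖h‖ ^ j ≤ ε * d * ‖h‖ ^ M) →
  (∀ y ∈ segment ℝ p (p + h), ∀ j : ℤ, j.natAbs ≤ J + 1 →
    ‖u j y‖ * ‖h‖ ^ (J + 1) ≤ ε * d * ‖h‖ ^ M) →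
  ‖u 1 (p + h) - u M p * (h / 2) ^ (M - 1) / (M - 1).factorial‖ * ‖h‖ ≤ C * ε * d * ‖h‖ ^ M ∧
    ‖u 0 (p + h) - 2 * ((u M p * (h / 2) ^ M / M.factorial).re : ℝ)‖ ≤ C * ε * d * ‖h‖ ^ M

def S_YP : Prop := ∃ (p₀ p₁ : ℝ → ℝ) (C : ℝ), ∀ x, 0 < x →
  HasDerivAt p₁ (p₀ x / 2) x ∧ HasDerivAt p₀ (-(p₁ x) / (2 * x)) x ∧
  (x ≤ 1 → |p₀ x| * √x ≤ C ∧ |p₁ x - 1| ≤ C * √x) ∧ (1 ≤ x → |p₀ x| ≤ C ∧ |p₁ x| ≤ C * √x)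

def S_YL : Prop := ∃ Y, Lad {0}ᶜ Y ∧ ∀ n : ℕ, 1 ≤ n → ∃ C : ℝ, ∀ w : ℂ, w ≠ 0 →
  ‖Y (-n) w‖ ≤ C * (1 + (‖w‖ ^ n)⁻¹) ∧ (‖w‖ ≤ 1 →
    ‖Y (-n) w * conj w ^ n - 2 ^ (n - 1) * (n - 1).factorial‖ ≤ C * ‖w‖)

def S_COR : Prop := ∀ (J N : ℕ) (c : ℝ), 0 < c → c ≤ 1 → J + 2 ≤ N → ∃ C : ℝ, 0 < C ∧
  ∀ j ≤ J, ∀ w₀ : ℂ, w₀ ≠ 0 → ‖w₀‖ ≤ 1 → ∃ G : ℂ →ₗ[ℝ] (ℤ → ℂ → ℂ), ∀ a,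
    Lad {0}ᶜ (G a) ∧ RealL (G a) ∧
    (∀ l ≤ J, ‖G a (l : ℕ) w₀ - (if l = j then prj False j a else 0)‖ * ‖w₀‖ ^ l ≤
      C * ‖a‖ * ‖w₀‖ ^ j * if l ≤ j then ‖w₀‖ else 1) ∧
    ∀ w : ℂ, c * ‖w₀‖ ≤ ‖w‖ → ∀ l : ℤ, l.natAbs ≤ J + 1 →
      ‖G a l w‖ ≤ C * ‖a‖ * ‖w₀‖ ^ j * (‖w₀‖ ^ N + (‖w₀‖ / ‖w‖) ^ N / ‖w‖ ^ l.natAbs)

def S_ACOR : Prop := ∀ (J N : ℕ) (c : ℝ), 0 < c → c ≤ 1 → J + 2 ≤ N → ∃ C : ℝ, 0 < C ∧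
  ∀ (H r : ℝ) (p n : ℂ) (L : Prop), ∀ j ≤ J, ‖n‖ = 1 → 0 < r → r ≤ 1 → -H ≤ (p + r * n).im →
    (L → p.im = -H ∧ n.im = 0) → ∃ G : ℂ →ₗ[ℝ] (ℤ → ℂ → ℂ), ∀ a,
    Lad {y | y ≠ p + r * n ∧ y ≠ mir H (p + r * n)} (G a) ∧ RealL (G a) ∧ OddL H (G a) ∧
    (∀ l ≤ J, ∀ T, r ≤ T → (¬L → T ≤ p.im + H) →
      ‖G a (l : ℕ) p - (if l = j then prj L j a else 0)‖ * r ^ l ≤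
        C * ‖a‖ * r ^ j * ((if l ≤ j then r else 1) + (r ^ N + (r / T) ^ N))) ∧
    ∀ y : ℂ, -H ≤ y.im → ∀ T, c * r ≤ T → T ≤ ‖y - (p + r * n)‖ → ∀ l : ℤ, l.natAbs ≤ J + 1 →
      ‖G a l y‖ ≤ C * ‖a‖ * r ^ j * (r ^ N + (r / T) ^ N / T ^ l.natAbs)

def S_FIX : Prop := ∀ (ι : Type) [Fintype ι] (w : ι → ℝ) (Φ π' : (ι → ℂ) →ₗ[ℝ] (ι → ℂ)),
  (∀ i, 0 < w i) → (∀ a, π' (Φ a) = Φ a) →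
  (∀ a (K : ℝ), (∀ i, w i * ‖a i‖ ≤ K) → ∀ i, w i * ‖Φ a i - π' a i‖ ≤ K / 2) →
  ∀ b (K : ℝ), π' b = b → (∀ i, w i * ‖b i‖ ≤ K) → ∃ a, Φ a = b ∧ ∀ i, w i * ‖a i‖ ≤ 2 * K

def S_KILL : Prop := ∀ (J N0 N2 N3 : ℕ) (c : ℝ), 0 < c → c ≤ 1 → ∃ C μ₀ : ℝ, 0 < C ∧
  ∀ μ, μ₀ ≤ μ → ∀ (H : ℝ) (W : ℤ → ℂ → ℂ) (Z : Finset ℂ) (n : ℂ → ℂ) (r B : ℂ → ℝ) (M : ℂ → ℕ),
    Lad univ W → RealL W → OddL H W → (Z.card : ℝ) ≤ μ ^ N0 →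
    (∀ p ∈ Z, ‖n p‖ = 1 ∧ (μ ^ N2)⁻¹ ≤ r p ∧ r p ≤ μ⁻¹ ∧ (μ ^ N2)⁻¹ ≤ B p ∧ B p ≤ μ ∧
      M p ≤ J ∧ -H ≤ (p + r p * n p).im ∧
      (p.im = -H ∧ (n p).im = 0 ∨ 2 * c * μ * r p ≤ p.im + H) ∧
      ∀ j < M p, ‖W j p‖ * r p ^ j ≤ B p / μ) →
    (∀ p ∈ Z, ∀ p' ∈ Z, p ≠ p' → c * μ * r p ≤ ‖p - p'‖) →
    ∃ u, Kill H W u J N3 μ c C Z n r B M

def S_NEWT : Prop := ∀ (a : ℕ → ℝ) (J l₀ : ℕ) (μ c₀ : ℝ), (∀ j, 0 ≤ a j) → 1 ≤ μ → 0 ≤ c₀ →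
  (∃ j ∈ Icc 1 J, c₀ ≤ a j) →
  ∃ l ∈ Icc (l₀ + 1) (l₀ + J), ∃ M ∈ Icc 1 J, Dom a J M (μ ^ (4 * l + 2))⁻¹ μ c₀

def S_SEL : Prop := ∀ (X : Set ℂ) (ρ : ℂ → ℝ) (m R : ℝ) (V : Finset ℂ), 0 < m → 0 ≤ R →
  X ⊆ closedBall 0 R → (∀ x ∈ X, m ≤ ρ x) → (ρ '' X).Finite → (↑V ⊆ X) →
  (∀ v ∈ V, ∀ v' ∈ V, v ≠ v' → ρ v ≤ ‖v - v'‖) → (∀ x ∈ X, x ∉ V → ∀ v ∈ V, ρ x ≤ ρ v) →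
  ∃ Z : Finset ℂ, V ⊆ Z ∧ ↑Z ⊆ X ∧ (∀ p ∈ Z, ∀ p' ∈ Z, p ≠ p' → ρ p ≤ ‖p - p'‖) ∧
    (∀ x ∈ X, ∃ p ∈ Z, ‖x - p‖ < ρ p) ∧ (Z.card : ℝ) ≤ (2 * R / m + 1) ^ 2

/-- Windows for the ideal wave away from the centre. -/
def S_ZI : Prop := ∀ (J : ℕ) (B₀ c₀ η₂ : ℝ), 0 < c₀ → 0 < η₂ → ∃ η₁ c₃ μ₀ : ℝ, 0 < η₁ ∧
  0 < c₃ ∧ ∀ μ, μ₀ ≤ μ → ∀ (I : ℤ → ℂ → ℂ) (M : ℕ) (p e : ℂ) (r τ : ℝ), Lad univ I → RealL I →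
    (∀ j y, ‖I j y‖ ≤ B₀) → M ∈ Icc 1 J → 0 < r → r ≤ (μ ^ 6)⁻¹ → ‖e‖ = 1 →
    Dom (fun j => ‖I j p‖) J M r μ c₀ → (∀ j : ℕ, (e ^ j * I j p).re = 0) →
    r / 4 ≤ |τ| → |τ| ≤ μ * r →
    ∃ β : ℝ, c₃ * (‖I M p‖ * r ^ M) ≤ |β| * r ∧
      ∀ y ∈ ball (p + τ * e) (η₁ * |τ|), ‖e * I 1 y - Complex.I * β‖ ≤ η₂ * |β|

/-- Windows close to the centre. -/
def S_ZU : Prop := ∀ (J : ℕ) (B₀ c₀ η₂ c₁ : ℝ), 0 < c₀ → 0 < η₂ → 0 < c₁ → ∃ η₀ : ℝ, 0 < η₀ ∧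
  ∀ η₁, 0 < η₁ → η₁ ≤ η₀ → ∃ ε μ₀ : ℝ, 0 < ε ∧ ∀ μ, μ₀ ≤ μ →
    ∀ (I u : ℤ → ℂ → ℂ) (O : Set ℂ) (M : ℕ) (p e : ℂ) (r τ : ℝ),
    (∀ j y, ‖I j y‖ ≤ B₀) → M ∈ Icc 1 J → 0 < r → r ≤ (μ ^ 6)⁻¹ → ‖e‖ = 1 →
    Dom (fun j => ‖I j p‖) J M r μ c₀ → (∀ j : ℕ, (e ^ j * I j p).re = 0) →
    τ ≠ 0 → |τ| ≤ r / 4 → Lad O u → RealL u → (∀ j < M, u (j : ℕ) p = 0) →
    (∀ y ∈ ball (p + τ * e) (η₁ * |τ|), ∀ y' ∈ segment ℝ p y, y' ∈ O ∧ ∀ l : ℤ,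
      l.natAbs ≤ J + 1 → ‖u l y' - I l y'‖ * r ^ l.natAbs ≤ ε * (‖I M p‖ * r ^ M)) →
    Win u e (p + τ * e) (η₁ * |τ|) η₂ c₁

def S_RFS : Prop := ∀ (V e : ℂ) (a b c₁ r₀ η η₂ D : ℝ) (O : Set ℂ) (u : ℤ → ℂ → ℂ)
  (Z : Finset ℂ) (x : ℝ → ℂ) (d : ℝ → ℝ), ‖e‖ = 1 → a < b → 0 < c₁ → 0 < r₀ → 0 < η → η ≤ 1 →
  η₂ ≤ η * c₁ ^ 2 / 8 → D ≤ η * r₀ / 4 → IsOpen O → Lad O u → RealL u →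
  (∀ t, x t = (cross V e / cross (ex t) e : ℝ) * ex t) →
  (∀ t ∈ Icc a b, c₁ ≤ cross (ex t) e ∧ r₀ ≤ cross V e / cross (ex t) e) →
  x a ∈ Z → x b ∈ Z → (∀ z ∈ Z, u 0 z = 0) →
  (∀ t ∈ Icc a b, x t ∉ Z → 0 < d t ∧ d t ≤ D ∧ ball (x t) (d t) ⊆ O ∧
    Win u e (x t) (d t) η₂ c₁ ∧ ∀ z ∈ Z, d t ≤ ‖x t - z‖) →
  ∃ w : ℝ → ℝ, (∀ t ∈ Icc a b, |w t| ≤ η ∧ u 0 (Real.exp (w t) * x t) = 0 ∧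
      (x t ∈ Z → w t = 0) ∧ (x t ∉ Z → ‖Real.exp (w t) * x t - x t‖ < d t)) ∧
    ∀ t ∈ Icc a b, ∀ t' ∈ Icc a b, |w t - w t'| ≤ η * |t - t'|

/-! ### Statements: polygons -/

def S_LIPZ : Prop :=
  (∀ (f : ℝ → ℝ) (a b η : ℝ) (Z : Set ℝ), Z.Finite → ContinuousOn f (Icc a b) →
    (∀ t ∈ Ioo a b, t ∉ Z → ∃ f', HasDerivAt f f' t ∧ |f'| ≤ η) →
    ∀ t ∈ Icc a b, ∀ t' ∈ Icc a b, |f t - f t'| ≤ η * |t - t'|) ∧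
  (∀ (f : ℝ → ℝ) (a b η : ℝ) (Z : Set ℝ), Z.Finite → ContinuousOn f (Icc a b) →
    (∀ t ∈ Ioo a b, t ∉ Z → ∀ ε > 0, ∀ᶠ t' in 𝓝 t, |f t' - f t| ≤ (η + ε) * |t' - t|) →
    ∀ t ∈ Icc a b, ∀ t' ∈ Icc a b, |f t - f t'| ≤ η * |t - t'|) ∧
  ∀ (f : ℝ → ℝ) (a η : ℝ), Function.Periodic f (2 * π) →
    (∀ t ∈ Icc a (a + 2 * π), ∀ t' ∈ Icc a (a + 2 * π), |f t - f t'| ≤ η * |t - t'|) →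
    ∀ t t', |f t - f t'| ≤ η * |t - t'|

def S_GLUE : Prop := ∀ (P : Poly) (c : ℝ), P.Ok c →
  (∀ t : ℝ, ∃ s < P.S, ∃ m : ℤ, t + m * (2 * π) ∈ P.sec s) ∧
  (∀ w : ℕ → ℝ → ℝ, (∀ s < P.S, ContinuousOn (w s) (P.sec s)) →
    (∀ s, s + 1 < P.S → w s (P.φ (s + 1)) = w (s + 1) (P.φ (s + 1))) →
    w (P.S - 1) (P.φ P.S) = w 0 (P.φ 0) →
    ∃ f, CP f ∧ ∀ s < P.S, ∀ t ∈ P.sec s, f t = w s t) ∧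
  ∀ (σ ρ : ℝ → ℝ) (η : ℝ), Function.Periodic σ (2 * π) → Function.Periodic ρ (2 * π) →
    (∀ s < P.S, ∀ t ∈ P.sec s, |σ t - ρ t| ≤ η ∧
      ∀ t' ∈ P.sec s, |(σ t - ρ t) - (σ t' - ρ t')| ≤ η * |t - t'|) → Near η σ ρ

def S_POL0 : Prop := ∀ (P : Poly) (c : ℝ), P.Ok c →
  (∀ s < P.S, 0 < cross (P.V s) (P.e s) ∧ P.rad s (P.φ s) = ‖P.V s‖ ∧
    P.rad s (P.φ (s + 1)) = ‖P.V (s + 1)‖ ∧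
    (∀ t ∈ P.sec s, 0 < P.rad s t ∧ (P.rad s t : ℂ) * ex t ∈ P.side s ∧
      HasDerivAt (fun t => Real.log (P.rad s t)) (P.slope s t) t) ∧
    ∀ x ∈ P.side s, ∃ t ∈ P.sec s, x = P.rad s t * ex t) ∧
  (∃ ρ, P.IsRho ρ) ∧
  (∀ ρ, P.IsRho ρ → frontier (table ρ) = ⋃ s < P.S, P.side s ∧
    (∀ t t', |ρ t - ρ t'| ≤ c⁻¹ * |t - t'|) ∧
    ∀ s < P.S, ∀ t ∈ P.sec s, ∀ a : ℝ, 0 ≤ a →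
      ((a : ℂ) * ex t ∈ table ρ ↔ cross (a * ex t) (P.e s) < cross (P.V s) (P.e s))) ∧
  ∀ k : ℝ, 0 < k → (P.sc k).Ok c ∧
    ∀ ρ, P.IsRho ρ → (P.sc k).IsRho fun t => ρ t + Real.log k

def S_INS0 : Prop := ∀ (p : C1) (η : ℝ), 0 < η → ∃ ε₀ c : ℝ, 0 < ε₀ ∧ ∃ n₀ : ℕ, ∀ n, n₀ ≤ n →
  ∀ (a : ℝ) (θ : ℕ → ℝ), θ n = θ 0 → (∀ m ≤ n, |θ m| ≤ ε₀ / n) →
    ∃ (P : Poly) (ρ : ℝ → ℝ), P.Ok c ∧ P.IsRho ρ ∧ Near η ρ p.1.1 ∧ P.S = n ∧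
      ∀ m ≤ n, P.V m = Real.exp (θ m) * bd p.1.1 (a + 2 * π * m / n)

def S_INS : Prop := ∀ (p : C1) (η : ℝ), 0 < η →
  ∃ (P : Poly) (ρ : ℝ → ℝ) (c : ℝ), P.Ok c ∧ P.IsRho ρ ∧ Near η ρ p.1.1 ∧ P.Bot

def S_ZIG : Prop := ∀ (P : Poly) (ρ : ℝ → ℝ) (c η : ℝ), P.Ok c → P.IsRho ρ → P.Bot → 0 < η →
  ∃ q₀ : ℕ, ∀ q, q₀ ≤ q → ∃ (P' : Poly) (ρ' : ℝ → ℝ),
    P'.Ok (c / 2) ∧ P'.IsRho ρ' ∧ Near η ρ' ρ ∧ P'.Bot ∧ P'.Dir q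

def S_GAUGE : Prop := ∀ (ρ : ℝ → ℝ) (K : ℝ), CP ρ → (∀ t t', |ρ t - ρ t'| ≤ K * |t - t'|) →
  ∃ C : ℝ, 0 < C ∧ ∀ z w : ℂ,
    |‖z‖ * Real.exp (-ρ z.arg) - ‖w‖ * Real.exp (-ρ w.arg)| ≤ C * ‖z - w‖

def S_GEO1 : Prop := ∀ (P : Poly) (ρ : ℝ → ℝ) (c : ℝ), P.Ok c → P.IsRho ρ → P.Bot →
  ∃ c' R : ℝ, 0 < c' ∧ c' ≤ c ∧ Geo P ρ c' R

def S_GEO2 : Prop := ∀ (P : Poly) (ρ : ℝ → ℝ) (c R k : ℝ), CP ρ → 0 < c → Geo P ρ c R → 1 ≤ k →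
  Geo (P.sc k) (fun t => ρ t + Real.log k) c (k * R)

def S_FLATP : Prop := ∀ (P : Poly) (ρ σ : ℝ → ℝ) (c : ℝ), P.Ok c → P.IsRho ρ → P.e 0 = 1 →
  CP σ → (∀ t ∈ P.sec 0, σ t = ρ t) → ∃ z r, Flat (table σ) z r

/-! ### Statements: waves -/

def S_WAVE : Prop := ∀ (q : ℕ) (ϑ : ℝ), Odd q → sin (2 * q * ϑ) ≠ 0 →
  ∃ B₀ c₀, WaveOk q (Wv q ϑ) (4 * q) B₀ c₀

def S_DIR : Prop := ∀ (q : ℕ) (ϑ : ℝ) (S : ℕ) (b : ℕ → ℂ) (N1 : ℕ), ∃ N0 : ℕ, ∀ K₀ μ₀ : ℝ,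
  ∃ μ k : ℝ, μ₀ ≤ μ ∧ K₀ ≤ k ∧ k ≤ μ ^ N0 ∧
    ∀ m < S, ∀ j y, ‖Wv q ϑ j (y + k * b m) - Wv q ϑ j y‖ ≤ (μ ^ N1)⁻¹

def S_RL : Prop := ∀ (Ω : Set ℂ) (ν : ℂ), volume Ω < ⊤ → ν ≠ 0 →
  Tendsto (fun k : ℝ => ⨍ z in Ω, Complex.exp (Complex.I * (k * (conj ν * z).re : ℝ)))
    atTop (𝓝 0)

def S_EQ : Prop := ∀ (Ω : Set ℂ) (ι : Type) [Fintype ι] (ν : ι → ℂ) (g : ι → ℝ → ℂ) (ε : ℝ),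
  0 < volume Ω → volume Ω < ⊤ → (∀ a : ι → ℤ, ∑ i, a i * ν i = 0 → a = 0) →
  (∀ i, Continuous (g i) ∧ Function.Periodic (g i) (2 * π)) → 0 < ε →
  ∃ K : ℝ, ∀ k, K ≤ k → ∀ θ : ι → ℝ,
    ‖(⨍ z in Ω, ∏ i, g i (θ i + k * (conj (ν i) * z).re)) -
      ∏ i, ((2 * π : ℝ) : ℂ)⁻¹ * ∫ t in (0 : ℝ)..(2 * π), g i t‖ < ε

def S_GEN : Prop := ∀ q : ℕ, q.Prime → ∃ ϑ : ℝ, sin (2 * q * ϑ) ≠ 0 ∧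
  ∀ a b : ℕ → ℤ, ∑ m ∈ Finset.Ico 1 q,
      (a m * ex (2 * π * m / q + ϑ) + b m * ex (2 * π * m / q - ϑ)) = 0 →
    ∀ m ∈ Finset.Ico 1 q, a m = 0 ∧ b m = 0

/-- The mean over the phase of one plane wave. -/
def jw (τ : ℂ →₀ ℝ) (a : ℝ) (ξ : ℂ) : ℂ :=
  ((2 * π : ℝ) : ℂ)⁻¹ * ∫ t in (0 : ℝ)..(2 * π),
    Complex.exp (Complex.I * ((a * τ.sum fun x s => s * cos (t + (conj ξ * x).re) : ℝ) : ℂ))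

def S_RS : Prop := ∀ (τ : ℂ →₀ ℝ) (ε : ℝ), 0 < ε → ∃ q₀ : ℕ, ∀ q : ℕ, q₀ ≤ q → ∀ ϑ : ℝ,
  ‖(∏ m ∈ Finset.Ico 1 q, jw τ (√q)⁻¹ (ex (2 * π * m / q + ϑ)) *
      jw τ (-(√q)⁻¹) (ex (2 * π * m / q - ϑ))) - gauss τ‖ < ε

def S_CFW2 : Prop := ∀ (q : ℕ) (ϑ ε : ℝ) (Ω : Set ℂ), Odd q → sin (2 * q * ϑ) ≠ 0 → 0 < ε →
  0 < volume Ω → volume Ω < ⊤ → ∃ K : ℝ, ∀ k, K ≤ k → ∀ b : ℂ,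
    |(⨍ z in Ω, (Wv q ϑ 0 (k * z - b)).re ^ 2) - 1| < ε

def S_CFW : Prop := ∀ (D : ℕ → ℂ →₀ ℝ) (n : ℕ) (ε : ℝ), 0 < ε → ∃ q₀ : ℕ, ∀ q, q₀ ≤ q →
  q.Prime → ∃ ϑ : ℝ, sin (2 * q * ϑ) ≠ 0 ∧ ∀ Ω : Set ℂ, 0 < volume Ω → volume Ω < ⊤ →
    ∃ K : ℝ, ∀ k, K ≤ k → ∀ b : ℂ, ∀ i ≤ n,
      ‖(⨍ z in Ω, Complex.exp (Complex.I *
        (((D i).sum fun x s => s * (Wv q ϑ 0 (k * z + x - b)).re : ℝ) : ℂ))) - gauss (D i)‖ < ε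

def S_BCF : Prop := ∀ (ρ : ℝ → ℝ) (τ : ℂ →₀ ℝ) (B₀ ε : ℝ), CP ρ → 0 < ε → ∃ δ K : ℝ, 0 < δ ∧
  ∀ (σ : ℝ → ℝ) (k : ℝ) (F W : ℂ → ℝ), CP σ → (∀ t, |σ t - ρ t| ≤ δ) → K ≤ k →
    ContinuousOn F (table σ) → Continuous W → (∀ y, |W y| ≤ B₀) →
    (∀ z ∈ table σ, |F z - W (k * z)| ≤ δ) → |(⨍ z in table ρ, W (k * z) ^ 2) - 1| ≤ δ →
    ∫ x, (table σ).indicator F x ^ 2 ≠ 0 ∧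
    ‖cf (table σ) (k ^ 2) (nrm (table σ) ((table σ).indicator F)) τ -
      ⨍ z in table ρ, Complex.exp (Complex.I *
        ((τ.sum fun x s => s * W (k * z + x) : ℝ) : ℂ))‖ < ε

def S_WEK : Prop := ∀ Ω O lam (w : ℂ → ℝ), IsOpen Ω → Bornology.IsBounded Ω → IsOpen O →
  closure Ω ⊆ O → Sol O lam w → (∀ x ∈ frontier Ω, w x = 0) →
  WE Ω lam (Ω.indicator w) (Ω.indicator (gradient w))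

/-! ### Statements: the construction -/

def S_CEN : Prop := ∀ (q J : ℕ) (W : ℤ → ℂ → ℂ) (B₀ c₀ c μ R : ℝ) (P : Poly) (ρ : ℝ → ℝ),
  WaveOk q W J B₀ c₀ → P.Ok c → Geo P ρ c R → c⁻¹ ≤ μ →
  ∃ Z r M b, Cen P W J μ c c₀ R Z r M b

def S_PLACE : Prop := ∀ (q J N0 N3 : ℕ) (W : ℤ → ℂ → ℂ) (B₀ c₀ c : ℝ), WaveOk q W J B₀ c₀ →
  0 < c → ∃ C μ₀ : ℝ, 0 < C ∧ ∀ μ, μ₀ ≤ μ → ∀ (R : ℝ) (P : Poly) (ρ : ℝ → ℝ) Z r M b,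
    P.Ok c → P.IsRho ρ → P.Bot → P.Dir q → Geo P ρ c R → R ≤ μ ^ N0 →
    Cen P W J μ c c₀ R Z r M b →
    (∀ m < P.S, ∀ j y, ‖W j (y - P.V 0) - W j (y - P.V m)‖ ≤ (μ ^ ((8 * J + 2) * J + 3))⁻¹) →
    ∃ u, Kill (-(P.V 0).im) (fun j y => W j (y - P.V 0)) u J N3 μ (c ^ 2 / 2) C Z P.nn r
      (fun p => ‖W (M p) (p - P.V (b p))‖ * r p ^ M p) M

def S_WIN : Prop := ∀ (q J : ℕ) (W : ℤ → ℂ → ℂ) (B₀ c₀ c η₂ : ℝ), WaveOk q W J B₀ c₀ →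
  0 < c → 0 < η₂ → ∃ N1 : ℕ, ∀ C : ℝ, 0 < C → ∃ μ₀ : ℝ, ∀ μ, μ₀ ≤ μ →
    ∀ (R : ℝ) (P : Poly) (ρ : ℝ → ℝ) Z r M b u,
    P.Ok c → P.IsRho ρ → P.Bot → P.Dir q → Geo P ρ c R → Cen P W J μ c c₀ R Z r M b →
    (∀ m < P.S, ∀ j y, ‖W j (y - P.V 0) - W j (y - P.V m)‖ ≤ (μ ^ N1)⁻¹) →
    Kill (-(P.V 0).im) (fun j y => W j (y - P.V 0)) u J N1 μ (c ^ 2 / 2) C Z P.nn r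
      (fun p => ‖W (M p) (p - P.V (b p))‖ * r p ^ M p) M →
    ∀ s, 1 ≤ s → s < P.S → ∀ x ∈ P.side s, x ∉ Z → ∃ d, 0 < d ∧ d ≤ μ⁻¹ ∧
      Win u (P.e s) x d η₂ c ∧ (∀ z ∈ Z, d ≤ ‖x - z‖) ∧
      ∀ y ∈ ball x d, (P.V 0).im ≤ y.im ∧ ∀ p ∈ Z, c / 2 * r p ≤ ‖y - (p + r p * P.nn p)‖

def S_CORE : Prop := ∀ (q J : ℕ) (W : ℤ → ℂ → ℂ) (B₀ c₀ c η ε : ℝ), WaveOk q W J B₀ c₀ →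
  0 < c → 0 < η → 0 < ε → ∃ N1 : ℕ, ∀ N0 : ℕ, ∃ μ₀ : ℝ, ∀ μ, μ₀ ≤ μ →
    ∀ (R : ℝ) (P : Poly) (ρ : ℝ → ℝ), P.Ok c → P.IsRho ρ → P.Bot → P.Dir q → Geo P ρ c R →
    R ≤ μ ^ N0 → (∀ m < P.S, ∀ j y, ‖W j (y - P.V 0) - W j (y - P.V m)‖ ≤ (μ ^ N1)⁻¹) →
    ∃ σ O u, CP σ ∧ Near η σ ρ ∧ (∀ t ∈ P.sec 0, σ t = ρ t) ∧ IsOpen O ∧
      closure (table σ) ⊆ O ∧ Lad O u ∧ (∀ z ∈ frontier (table σ), u 0 z = 0) ∧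
      ∀ z ∈ table σ, ‖u 0 z - W 0 (z - P.V 0)‖ ≤ ε

end

end Pool.Agent.P.MP_6b977f_mp.EB
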