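import Pool.Agent.P.MP_6b977f_mp.EB.IfB

/-! Interface, part E: the billiard map, an ergodicity criterion, random grooves. -/

namespace Pool.Agent.P.MP_6b977f_mp.EB

open Real MeasureTheory Filter Topology Set Metric
open scoped ContDiff BoundedContinuousFunction ComplexConjugate Pointwise ENNReal

noncomputable section

/-- Exit time. -/
def tp (Ω : Set ℂ) (z v : ℂ) : ℝ := sInf {t : ℝ | 0 < t ∧ z + t * v ∉ Ω}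

/-- Tangent vector at the boundary point `y`. -/
def tanf (ρ' : ℝ → ℝ) (y : ℂ) : ℂ := (ρ' y.arg + Complex.I) * y

/-- The billiard map. -/
def bT (ρ ρ' : ℝ → ℝ) (x : ℂ × ℂ) : ℂ × ℂ :=
  (x.1 + tp (table ρ) x.1 x.2 * x.2, refl (tanf ρ' (x.1 + tp (table ρ) x.1 x.2 * x.2)) x.2)

def chord (Ω : Set ℂ) (ψ : ℂ × ℂ → ℝ) (x : ℂ × ℂ) : ℝ :=
  ∫ t in (0 : ℝ)..tp Ω x.1 x.2, ψ (x.1 + t * x.2, x.2)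

/-- The invariant measure of the billiard map. -/
def bm (ρ ρ' : ℝ → ℝ) : Measure (ℂ × ℂ) :=
  (((volume.restrict (Ioc (-π) π)).prod cm).withDensity
    fun x => ENNReal.ofReal (cross (tanf ρ' (bd ρ x.1)) x.2)).map fun x => (bd ρ x.1, x.2)

/-- Piecewise `C¹` tables. -/
structure PW (ρ ρ' : ℝ → ℝ) (Z : Finset ℂ) : Prop where
  cp : CP ρ
  per : Function.Periodic ρ' (2 * π)
  meas : Measurable ρ'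
  bdd : ∃ K, ∀ t, |ρ' t| ≤ K
  der : ∀ t, ex t ∉ Z → HasDerivAt ρ (ρ' t) t ∧ ContinuousAt ρ' t

/-- Bounded and measurable. -/
def BM {X : Type} [MeasurableSpace X] (h : X → ℝ) : Prop := Measurable h ∧ ∃ M, ∀ x, |h x| ≤ M

def cob (ρ ρ' : ℝ → ℝ) (ψ h : ℂ × ℂ → ℝ) : ℝ≥0∞ :=
  ∫⁻ x, ENNReal.ofReal |chord (table ρ) ψ x - (h (bT ρ ρ' x) - h x)| ∂bm ρ ρ'

def Crit (ρ ρ' : ℝ → ℝ) (ψ : ℂ × ℂ →ᵇ ℝ) (ε : ℝ) : Prop :=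
  ∃ (c : ℝ) (h : ℂ × ℂ →ᵇ ℝ), cob ρ ρ' (fun x => ψ x - c) h < ENNReal.ofReal ε

def MCrit (ρ ρ' : ℝ → ℝ) (ψ : ℂ × ℂ →ᵇ ℝ) (ε : ℝ) : Prop :=
  ∃ (c : ℝ) (h : ℂ × ℂ → ℝ), BM h ∧ cob ρ ρ' (fun x => ψ x - c) h < ENNReal.ofReal ε

def Sep (ψ : ℕ → ℂ × ℂ →ᵇ ℝ) : Prop := ∀ μ ν : Measure (ℂ × ℂ), IsFiniteMeasure μ →
  IsFiniteMeasure ν → (∀ n, ∫ x, ψ n x ∂μ = ∫ x, ψ n x ∂ν) → μ = ν

/-! ### Coordinates (side, abscissa, angle) -/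

abbrev XX : Type := ℕ × ℝ × ℝ

abbrev Th : Type := unitInterval × unitInterval

def sm : Measure ℝ := (volume.restrict (Ioo 0 π)).withDensity fun θ => ENNReal.ofReal (sin θ)

def Poly.mP (P : Poly) : Measure XX :=
  ∑ s ∈ Finset.range P.S, ((volume.restrict (Ioo 0 (P.L s))).prod sm).map fun y => (s, y)

def Poly.io (P : Poly) (x : XX) : ℂ × ℂ := (P.V x.1 + x.2.1 * P.e x.1, P.e x.1 * ex x.2.2)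

def IsT0 (P : Poly) (ρ : ℝ → ℝ) (T : XX → XX) : Prop :=
  MeasurePreserving T P.mP P.mP ∧ ∀ᵐ x ∂P.mP, P.io (T x) = bT ρ (deriv ρ) (P.io x)

/-- Passage through a groove when the left face is hit first. -/
def gD (α x θ : ℝ) : ℝ × ℝ :=
  if x * sin θ < sin (θ - 2 * α) then (x * sin θ / sin (θ - 2 * α), θ - 2 * α)
  else (1 - (x * sin θ - sin (θ - 2 * α)) / sin (4 * α - θ), 4 * α - θ)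

/-- Passage through a groove of base `[0, 1]` and base angle `α`. -/
def gv (α x θ : ℝ) : ℝ × ℝ :=
  if x * sin θ ≤ sin (θ - α) / (2 * cos α) then gD α x θ
  else (1 - (gD α (1 - x) (π - θ)).1, π - (gD α (1 - x) (π - θ)).2)

/-- Width of a groove. -/
def pd (L : ℝ) (N : ℕ) : ℝ := L / N / (N + 1)

/-- Position inside a cell, in units of grooves. -/
def cX (L : ℝ) (N : ℕ) (u σ : ℝ) : ℝ := (σ - ⌊σ / (L / N)⌋₊ * (L / N)) / pd L N - u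

def InG (L : ℝ) (N : ℕ) (u σ : ℝ) : Prop :=
  0 < cX L N u σ ∧ cX L N u σ < N ∧ Int.fract (cX L N u σ) ≠ 0

open Classical in
def gam (L : ℝ) (N : ℕ) (u α : ℝ) (y : ℝ × ℝ) : ℝ × ℝ :=
  if InG L N u y.1 then
    (y.1 + pd L N * ((gv α (Int.fract (cX L N u y.1)) y.2).1 - Int.fract (cX L N u y.1)),
      (gv α (Int.fract (cX L N u y.1)) y.2).2)
  else y

def Gam (P : Poly) (N : ℕ) (α₀ : ℝ) (θ : Th) (x : XX) : XX :=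
  (x.1, gam (P.L x.1) N θ.1 (α₀ * (1 + θ.2)) x.2)

abbrev Cl (P : Poly) (N : ℕ) : Type := Fin (P.S + 1) × Fin (N + 1)

def cell (P : Poly) (N : ℕ) (s : ℕ) (σ : ℝ) : Cl P N :=
  (⟨min s P.S, by omega⟩, ⟨min ⌊σ / (P.L s / N)⌋₊ N, by omega⟩)

/-- The grooved billiard map in coordinates. -/
def Tw (P : Poly) (N : ℕ) (α₀ : ℝ) (T : XX → XX) (w : Cl P N → Th) (x : XX) : XX :=
  Gam P N α₀ (w (cell P N (T x).1 (T x).2.1)) (T x)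

open Classical in
/-- Depth of the grooves. -/
def dep (P : Poly) (N : ℕ) (α₀ : ℝ) (w : Cl P N → Th) (s : ℕ) (σ : ℝ) : ℝ :=
  if 0 < σ ∧ σ < P.L s ∧ InG (P.L s) N (w (cell P N s σ)).1 σ then
    pd (P.L s) N * tan (α₀ * (1 + (w (cell P N s σ)).2)) *
      min (Int.fract (cX (P.L s) N (w (cell P N s σ)).1 σ))
        (1 - Int.fract (cX (P.L s) N (w (cell P N s σ)).1 σ))
  else 0

/-- Admissible depth functions. -/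
def Dep (P : Poly) (D : ℕ → ℝ → ℝ) (κ δ : ℝ) : Prop :=
  ∀ s < P.S, (∀ σ, 0 ≤ D s σ ∧ D s σ ≤ δ) ∧ (∀ σ, σ ∉ Ioo 0 (P.L s) → D s σ = 0) ∧
    ∀ σ σ', |D s σ - D s σ'| ≤ κ * |σ - σ'|

/-- `table ρ` is the polygon with its sides pushed out by `D`. -/
def Grv (P : Poly) (D : ℕ → ℝ → ℝ) (ρ : ℝ → ℝ) : Prop :=
  CP ρ ∧ ∀ s < P.S, ∀ t ∈ P.sec s, ∀ a : ℝ, 0 ≤ a → ((a : ℂ) * ex t ∈ table ρ ↔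
    0 < (conj (P.e s) * (a * ex t - P.V s)).im + D s (conj (P.e s) * (a * ex t - P.V s)).re)

/-- `D` is affine of slope `m` near `σ`. -/
def Aff (D : ℝ → ℝ) (σ m : ℝ) : Prop := ∀ᶠ σ' in 𝓝 σ, D σ' = D σ + m * (σ' - σ)

open Classical in
/-- Backward extension of a chord to the larger table. -/
def lam (Ω : Set ℂ) (x : ℂ × ℂ) : ℂ × ℂ :=
  (x.1 - (if x.1 ∈ Ω then tp Ω x.1 (-x.2) else 0 : ℝ) * x.2, x.2)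

/-- The chord of `x` in `table ρ` extends to the chord of `lam x` in `table σ`, and the next
chord that meets `table ρ` is the extension of `x'`. -/
def Ext (ρ σ σ' : ℝ → ℝ) (x x' : ℂ × ℂ) : Prop :=
  (∃ a : ℝ, 0 ≤ a ∧ lam (table σ) x = (x.1 - a * x.2, x.2) ∧
    a + tp (table ρ) x.1 x.2 ≤ tp (table σ) (x.1 - a * x.2) x.2 ∧
    ∀ t ∈ Ioo 0 (tp (table σ) (x.1 - a * x.2) x.2),
      (x.1 - a * x.2 + t * x.2 ∈ table ρ ↔ a < t ∧ t < a + tp (table ρ) x.1 x.2)) ∧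
  (bT σ σ' (lam (table σ) x) = lam (table σ) x' ∨
    ((∀ t ∈ Ioo 0 (tp (table σ) (bT σ σ' (lam (table σ) x)).1 (bT σ σ' (lam (table σ) x)).2),
      (bT σ σ' (lam (table σ) x)).1 + t * (bT σ σ' (lam (table σ) x)).2 ∉ table ρ) ∧
      bT σ σ' (bT σ σ' (lam (table σ) x)) = lam (table σ) x'))

/-! ### Statements: the billiard map -/

def S_TP : Prop := ∀ Ω : Set ℂ, IsOpen Ω → Bornology.IsBounded Ω →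
  Measurable (fun x : ℂ × ℂ => tp Ω x.1 x.2) ∧ (∀ z v, 0 ≤ tp Ω z v) ∧
  (∃ R, ∀ z v, ‖v‖ = 1 → tp Ω z v ≤ R) ∧
  ∀ z v : ℂ, v ≠ 0 → (∀ t ∈ Ioo 0 (tp Ω z v), z + (t : ℝ) * v ∈ Ω) ∧
    (0 < tp Ω z v → z + tp Ω z v * v ∉ Ω) ∧ (z ∈ Ω → 0 < tp Ω z v) ∧
    (∀ a : ℝ, 0 < a → (∀ t ∈ Ioo 0 a, z + (t : ℝ) * v ∈ Ω) → a ≤ tp Ω z v) ∧
    (∀ a : ℝ, 0 < a → z + a * v ∉ Ω → tp Ω z v ≤ a) ∧
    (∀ s ∈ Ioo 0 (tp Ω z v), tp Ω (z + (s : ℝ) * v) v = tp Ω z v - s ∧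
      (z ∉ Ω → tp Ω (z + s * v) (-v) = s))

def S_PWC : Prop := (∀ p : C1, PW p.1.1 p.1.2 ∅) ∧
  ∀ ρ ρ' Z, PW ρ ρ' Z → (∃ K : ℝ, ∀ t t', |ρ t - ρ t'| ≤ K * |t - t'|) ∧
    (∀ t, tanf ρ' (bd ρ t) = (ρ' t + Complex.I) * bd ρ t ∧ tanf ρ' (bd ρ t) ≠ 0 ∧
      (ex t ∉ Z → HasDerivAt (bd ρ) (tanf ρ' (bd ρ t)) t)) ∧
    ∀ a b : ℝ, {t ∈ Icc a b | ex t ∈ Z}.Finite

def S_TR0 : Prop := ∀ ρ ρ' Z (t : ℝ) (v : ℂ), PW ρ ρ' Z → ex t ∉ Z →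
  (0 < cross (tanf ρ' (bd ρ t)) v → ∃ δ > 0, ∀ s ∈ Ioo 0 δ, bd ρ t + (s : ℝ) * v ∈ table ρ) ∧
  (cross (tanf ρ' (bd ρ t)) v < 0 →
    ∃ δ > 0, ∀ s ∈ Ioo 0 δ, bd ρ t + (s : ℝ) * v ∉ closure (table ρ))

def S_PAR : Prop := ∀ ρ ρ' Z (v : ℂ) (F : ℂ → ℝ≥0∞), PW ρ ρ' Z → ‖v‖ = 1 → Measurable F →
  ∫⁻ z in table ρ, F z = ∫⁻ φ in Ioc (-π) π, ENNReal.ofReal (cross (tanf ρ' (bd ρ φ)) v) *
    ∫⁻ t in Ioo 0 (tp (table ρ) (bd ρ φ) v), F (bd ρ φ + t * v)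

def S_BM : Prop :=
  (IsFiniteMeasure cm ∧ cm ≠ 0 ∧ (∀ᵐ v ∂cm, ‖v‖ = 1) ∧
    (∀ e : ℂ, ‖e‖ = 1 → cm.map (fun v => e * v) = cm) ∧ cm.map (fun v => conj v) = cm) ∧
  ∀ ρ ρ' Z, PW ρ ρ' Z → IsFiniteMeasure (bm ρ ρ') ∧ Measurable (bT ρ ρ') ∧
    (∀ᵐ x ∂bm ρ ρ', ‖x.2‖ = 1 ∧ ∃ t, x.1 = bd ρ t ∧ ex t ∉ Z ∧ 0 < cross (tanf ρ' x.1) x.2 ∧
      0 < tp (table ρ) x.1 x.2) ∧
    (∀ G : ℂ × ℂ → ℝ≥0∞, Measurable G → ∫⁻ x, G x ∂bm ρ ρ' = ∫⁻ φ in Ioc (-π) π, ∫⁻ v,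
      ENNReal.ofReal (cross (tanf ρ' (bd ρ φ)) v) * G (bd ρ φ, v) ∂cm) ∧
    ∀ ψ : ℂ × ℂ → ℝ, BM ψ → Measurable (chord (table ρ) ψ) ∧
      ∃ M, ∀ x : ℂ × ℂ, ‖x.2‖ = 1 → |chord (table ρ) ψ x| ≤ M

def S_SAN : Prop := ∀ ρ ρ' Z, PW ρ ρ' Z →
  (∀ F : ℂ × ℂ → ℝ≥0∞, Measurable F → ∫⁻ x, F x ∂liou (table ρ) =
    ∫⁻ x, ∫⁻ t in Ioo 0 (tp (table ρ) x.1 x.2), F (x.1 + t * x.2, x.2) ∂volume ∂bm ρ ρ') ∧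
  ∀ ψ : ℂ × ℂ → ℝ, BM ψ → ∫ x, ψ x ∂liou (table ρ) = ∫ x, chord (table ρ) ψ x ∂bm ρ ρ'

def S_INV : Prop := ∀ ρ ρ' Z, PW ρ ρ' Z → MeasurePreserving (bT ρ ρ') (bm ρ ρ') (bm ρ ρ') ∧
  ∀ᵐ x ∂bm ρ ρ', ∃ t, (bT ρ ρ' x).1 = bd ρ t ∧ ex t ∉ Z ∧ cross (tanf ρ' (bd ρ t)) x.2 < 0

def S_APX : Prop := ∀ ρ ρ' Z ψ ε, PW ρ ρ' Z → MCrit ρ ρ' ψ ε → Crit ρ ρ' ψ ε

def S_FAM : Prop := ∃ ψ, Sep ψ

def S_ERG : Prop := ∀ (p : C1) ψ, Sep ψ →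
  (∀ n k : ℕ, Crit p.1.1 p.1.2 (ψ n) (1 / (k + 1))) → Ergodic' p.1.1 p.1.2

def S_CONT : Prop := ∀ ρ ρ' Z (q : ℕ → C1) (t t' : ℝ) (v : ℂ), PW ρ ρ' Z →
  TendstoUniformly (fun n x => (q n).1.1 x) ρ atTop →
  TendstoLocallyUniformlyOn (fun n x => (q n).1.2 x) ρ' atTop {t | ex t ∉ Z} →
  ‖v‖ = 1 → ex t ∉ Z → 0 < cross (tanf ρ' (bd ρ t)) v → (bT ρ ρ' (bd ρ t, v)).1 = bd ρ t' →
  ex t' ∉ Z → cross (tanf ρ' (bd ρ t')) v < 0 →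
  Tendsto (fun n => tp (table (q n).1.1) (bd (q n).1.1 t) v) atTop
      (𝓝 (tp (table ρ) (bd ρ t) v)) ∧
    Tendsto (fun n => bT (q n).1.1 (q n).1.2 (bd (q n).1.1 t, v)) atTop
      (𝓝 (bT ρ ρ' (bd ρ t, v)))

def S_EOPEN : Prop := ∀ ρ ρ' Z (q : ℕ → C1) ψ ε (K : ℝ), PW ρ ρ' Z →
  TendstoUniformly (fun n x => (q n).1.1 x) ρ atTop →
  TendstoLocallyUniformlyOn (fun n x => (q n).1.2 x) ρ' atTop {t | ex t ∉ Z} →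
  (∀ n t, |(q n).1.2 t| ≤ K) → Crit ρ ρ' ψ ε → ∀ᶠ n in atTop, Crit (q n).1.1 (q n).1.2 ψ ε

def S_AP3B : Prop := ∀ (C : ℝ → ℝ) (δ : ℝ), Measurable C → Function.Periodic C (2 * π) → 0 < δ →
  (∀ᵐ φ, φ ∈ Ioc (-π) π → ∀ᵐ φ', |φ' - φ - π| < δ → C φ' = C φ) → ∃ c₀, ∀ᵐ φ, C φ = c₀

def S_AP3 : Prop := ∀ ρ ρ' Z (c : ℂ → ℝ), PW ρ ρ' Z → Measurable c →
  (∀ᵐ x ∂bm ρ ρ', c (bT ρ ρ' x).1 = c x.1) → ∃ c₀, ∀ᵐ x ∂bm ρ ρ', c x.1 = c₀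

/-! ### Statements: grooved tables -/

def S_GT1 : Prop := ∀ (P : Poly) (ρ : ℝ → ℝ) (c η : ℝ), P.Ok c → P.IsRho ρ → 0 < η →
  ∃ κ δ : ℝ, 0 < κ ∧ 0 < δ ∧ ∀ D, Dep P D κ δ → ∃ σ, Grv P D σ ∧ Near η σ ρ

def S_GT2 : Prop := ∀ (P : Poly) (ρ σ : ℝ → ℝ) (c κ δ : ℝ) (D : ℕ → ℝ → ℝ), P.Ok c → P.IsRho ρ →
  κ ≤ c / 2 → Dep P D κ δ → Grv P D σ → table ρ ⊆ table σ ∧ ∀ s < P.S, ∀ a ∈ Ioo 0 (P.L s),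
    (∀ ζ ∈ Icc 0 (D s a),
      (P.V s + P.e s * (a - ζ * Complex.I) ∈ table σ ↔ ζ < D s a) ∧
      P.V s + P.e s * (a - ζ * Complex.I) ∉ table ρ) ∧
    ∀ m, Aff (D s) a m → ∃ t, P.V s + P.e s * (a - D s a * Complex.I) = bd σ t ∧
      HasDerivAt σ (deriv σ t) t ∧ ContinuousAt (deriv σ) t ∧
      ∃ k : ℝ, 0 < k ∧ tanf (deriv σ) (bd σ t) = k * (P.e s * (1 - m * Complex.I))

def S_GT3 : Prop := ∀ (P : Poly) (ρ σ : ℝ → ℝ) (c κ δ η : ℝ) (D : ℕ → ℝ → ℝ), P.Ok c →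
  P.IsRho ρ → κ ≤ c / 2 → Dep P D κ δ → Grv P D σ → Near η σ ρ →
  (∀ s < P.S, {a ∈ Ioo 0 (P.L s) | ∀ m, ¬Aff (D s) a m}.Finite) → ∃ Z, PW σ (deriv σ) Z

def S_DEP : Prop := ∀ (P : Poly) (c α₀ : ℝ) (N : ℕ) (w : Cl P N → Th), P.Ok c → 0 < α₀ →
  α₀ ≤ π / 16 → 1 ≤ N →
  Dep P (dep P N α₀ w) (tan (2 * α₀)) ((∑ s ∈ Finset.range P.S, P.L s) / N) ∧
  ∀ s < P.S, {a ∈ Ioo 0 (P.L s) | ∀ m, ¬Aff (dep P N α₀ w s) a m}.Finite ∧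
    (∀ a ∈ Ioo 0 (P.L s), InG (P.L s) N (w (cell P N s a)).1 a → ∀ x ∈ Ioo (0 : ℝ) 1,
      a + pd (P.L s) N * (x - Int.fract (cX (P.L s) N (w (cell P N s a)).1 a)) ∈ Ioo 0 (P.L s) ∧
      dep P N α₀ w s (a + pd (P.L s) N * (x - Int.fract (cX (P.L s) N (w (cell P N s a)).1 a))) =
        pd (P.L s) N * tan (α₀ * (1 + (w (cell P N s a)).2)) * min x (1 - x)) ∧
    ∀ᵐ a, ¬InG (P.L s) N (w (cell P N s a)).1 a → Aff (dep P N α₀ w s) a 0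

def S_PPW : Prop := ∀ (P : Poly) (ρ : ℝ → ℝ) (c : ℝ), P.Ok c → P.IsRho ρ →
  (∃ Z, PW ρ (deriv ρ) Z) ∧
  (∀ s < P.S, ∀ a ∈ Ioo 0 (P.L s), ∃ k : ℝ, 0 < k ∧
    tanf (deriv ρ) (P.V s + (a : ℝ) * P.e s) = k * P.e s) ∧
  ∃ κ : ℂ → ℕ × ℝ, Measurable κ ∧
    ∀ s < P.S, ∀ a ∈ Ioo 0 (P.L s), κ (P.V s + (a : ℝ) * P.e s) = (s, a)

def S_PBM : Prop := ∀ (P : Poly) (ρ : ℝ → ℝ) (c : ℝ), P.Ok c → P.IsRho ρ →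
  IsFiniteMeasure P.mP ∧ Measurable P.io ∧
  (∀ᵐ x ∂P.mP, x.1 < P.S ∧ x.2.1 ∈ Ioo 0 (P.L x.1) ∧ x.2.2 ∈ Ioo 0 π) ∧
  bm ρ (deriv ρ) = P.mP.map P.io

def S_T0 : Prop := ∀ (P : Poly) (ρ : ℝ → ℝ) (c : ℝ), P.Ok c → P.IsRho ρ →
  (∃ κ : ℂ × ℂ → XX, Measurable κ ∧ ∀ᵐ x ∂P.mP, κ (P.io x) = x) ∧ ∃ T, IsT0 P ρ T

def S_AP4 : Prop := ∀ (P : Poly) (ρ : ℝ → ℝ) (c : ℝ) T (C : ℕ × ℝ → ℝ), P.Ok c → P.IsRho ρ →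
  IsT0 P ρ T → Measurable C → (∀ᵐ x ∂P.mP, C ((T x).1, (T x).2.1) = C (x.1, x.2.1)) →
  ∃ c₀, ∀ᵐ x ∂P.mP, C (x.1, x.2.1) = c₀

def S_GM : Prop := ∀ α : ℝ, 0 < α → α ≤ π / 8 →
  (∀ x ∈ Ioo (0 : ℝ) 1, ∀ θ ∈ Ioo 0 π, (gv α x θ).1 ∈ Icc (0 : ℝ) 1) ∧
  MeasurePreserving (fun y : ℝ × ℝ => gv α y.1 y.2)
    ((volume.restrict (Ioo 0 1)).prod sm) ((volume.restrict (Ioo 0 1)).prod sm)

def S_GMM : Prop := Measurable (fun y : ℝ × ℝ × ℝ => gv y.1 y.2.1 y.2.2) ∧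
  ∀ (P : Poly) (N : ℕ) (α₀ : ℝ), Measurable (fun y : Th × XX => Gam P N α₀ y.1 y.2) ∧
    (∀ c, MeasurableSet {x : XX | cell P N x.1 x.2.1 = c}) ∧
    MeasurableSet {y : Th × XX | InG (P.L y.2.1) N y.1.1 y.2.2.1}

def S_MP : Prop := ∀ (P : Poly) (c α₀ : ℝ) (N : ℕ) (w : Cl P N → Th), P.Ok c → 0 < α₀ →
  α₀ ≤ π / 16 → 1 ≤ N →
  MeasurePreserving (fun x => Gam P N α₀ (w (cell P N x.1 x.2.1)) x) P.mP P.mP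

def S_MK1 : Prop := ∀ (ι : Type) [Fintype ι] (m : Measure XX) (j : XX → ι) (τ : Th → XX → XX)
  (π' : XX → ℝ≥0∞) (n : ℕ), IsFiniteMeasure m → (∀ c, MeasurableSet {x | j x = c}) →
  Measurable (fun y : Th × XX => τ y.1 y.2) →
  (∀ w : ι → Th, MeasurePreserving (fun x => τ (w (j x)) x) m m) → Measurable π' →
  (∀ᵐ x ∂m, ∀ c, volume {θ | j (τ θ x) = c} ≤ π' x) →
  ∫⁻ w : ι → Th, m {x | ∃ i k, i < k ∧ k ≤ n ∧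
      j ((fun x => τ (w (j x)) x)^[i] x) = j ((fun x => τ (w (j x)) x)^[k] x)} ≤
    n ^ 2 * ∫⁻ x, π' x ∂m

def S_MK : Prop := ∀ (ι : Type) [Fintype ι] (m : Measure XX) (j : XX → ι) (τ : Th → XX → XX)
  (π' : XX → ℝ≥0∞) (n : ℕ) (f : XX → ℝ) (M β : ℝ), IsFiniteMeasure m →
  (∀ c, MeasurableSet {x | j x = c}) → Measurable (fun y : Th × XX => τ y.1 y.2) →
  (∀ w : ι → Th, MeasurePreserving (fun x => τ (w (j x)) x) m m) → Measurable π' →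
  (∀ᵐ x ∂m, ∀ c, volume {θ | j (τ θ x) = c} ≤ π' x) → 0 ≤ β →
  ∫⁻ x, π' x ∂m ≤ ENNReal.ofReal β → 1 ≤ n → Measurable f → (∀ x, |f x| ≤ M) →
  ∃ g : XX → ℝ, Measurable g ∧ (∀ x, |g x| ≤ 2 * M) ∧
    ∫ x, (∫ θ, (g (τ θ x) - g x) ^ 2) ∂m ≤ 16 * M ^ 2 * (m.real univ / n + n ^ 2 * β) ∧
    ∃ (w : ι → Th) (h : XX → ℝ), BM h ∧
      (∫ x, |f x - (h (τ (w (j x)) x) - h x)| ∂m) ^ 2 ≤ m.real univ * ∫ x, f x * g x ∂m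

def S_PI : Prop := ∀ (P : Poly) (ρ : ℝ → ℝ) (c α₀ β : ℝ) T, P.Ok c → P.IsRho ρ → IsT0 P ρ T →
  0 < α₀ → α₀ ≤ π / 16 → 0 < β → ∃ N₀ : ℕ, ∀ N, N₀ ≤ N → ∃ π' : XX → ℝ≥0∞, Measurable π' ∧
    ∫⁻ x, π' x ∂P.mP ≤ ENNReal.ofReal β ∧ ∀ᵐ x ∂P.mP, ∀ c' : Cl P N,
      volume {θ : Th | cell P N (T (Gam P N α₀ θ (T x))).1 (T (Gam P N α₀ θ (T x))).2.1 = c'} ≤
        π' x

open Classical in
def S_AVG : Prop := ∀ (L M K : ℝ) (N : ℕ) (g χ ξ : ℝ → ℝ) (W : Set ℝ), 0 < L → 1 ≤ N →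
  Measurable g → (∀ σ, |g σ| ≤ M) → (∀ σ, |χ σ| ≤ 1) →
  (∀ σ σ', |χ σ - χ σ'| ≤ K * |σ - σ'|) → MeasurableSet W → W ⊆ Ioo 0 1 → Measurable ξ →
  (∀ x ∈ W, ξ x ∈ Icc (0 : ℝ) 1) →
  |(∫ u in Ioo (0 : ℝ) 1, ∫ σ in Ioo 0 L,
      if InG L N u σ ∧ Int.fract (cX L N u σ) ∈ W then
        g (σ + pd L N * (ξ (Int.fract (cX L N u σ)) - Int.fract (cX L N u σ))) * χ σ else 0) -
    volume.real W * ∫ σ in Ioo 0 L, g σ * χ σ| ≤ M * L * (3 + K * L) / N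

def S_AP1 : Prop := ∀ (L α M : ℝ) (N : ℕ → ℕ) (gn rn : ℕ → ℝ × ℝ → ℝ) (g r : ℝ × ℝ → ℝ),
  0 < L → 0 < α → α ≤ π / 8 → Tendsto N atTop atTop →
  (∀ n, Measurable (gn n) ∧ Measurable (rn n) ∧ ∀ y, |gn n y| ≤ M ∧ |rn n y| ≤ M) →
  Measurable g → Measurable r → Integrable g ((volume.restrict (Ioo 0 L)).prod sm) →
  Integrable r ((volume.restrict (Ioo 0 L)).prod sm) →
  (∀ χ, BM χ → Tendsto (fun n => ∫ y, gn n y * χ y ∂(volume.restrict (Ioo 0 L)).prod sm) atTop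
      (𝓝 (∫ y, g y * χ y ∂(volume.restrict (Ioo 0 L)).prod sm)) ∧
    Tendsto (fun n => ∫ y, rn n y * χ y ∂(volume.restrict (Ioo 0 L)).prod sm) atTop
      (𝓝 (∫ y, r y * χ y ∂(volume.restrict (Ioo 0 L)).prod sm))) →
  Tendsto (fun n => ∫ u in Ioo (0 : ℝ) 1, ∫ y, |gn n (gam L (N n) u α y) - rn n y|
    ∂(volume.restrict (Ioo 0 L)).prod sm) atTop (𝓝 0) →
  ∀ᵐ y ∂(volume.restrict (Ioo 0 L)).prod sm,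
    (2 * α < y.2 → g (y.1, y.2 - 2 * α) = r y) ∧ (y.2 < π - 2 * α → g (y.1, y.2 + 2 * α) = r y)

def S_AP2 : Prop := ∀ (g r : ℝ → ℝ) (α₀ : ℝ), Measurable g → Measurable r → 0 < α₀ →
  α₀ ≤ π / 16 → (∀ᵐ a : unitInterval, ∀ᵐ θ ∂sm,
    (2 * (α₀ * (1 + a)) < θ → g (θ - 2 * (α₀ * (1 + a))) = r θ) ∧
    (θ < π - 2 * (α₀ * (1 + a)) → g (θ + 2 * (α₀ * (1 + a))) = r θ)) →
  ∃ c₀, ∀ᵐ θ ∂sm, g θ = c₀ ∧ r θ = c₀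

def S_RIG : Prop := ∀ (P : Poly) (ρ : ℝ → ℝ) (c α₀ M : ℝ) T (N : ℕ → ℕ) (gn : ℕ → XX → ℝ)
  (f : XX → ℝ), P.Ok c → P.IsRho ρ → IsT0 P ρ T → 0 < α₀ → α₀ ≤ π / 16 →
  Tendsto N atTop atTop → (∀ n, Measurable (gn n) ∧ ∀ x, |gn n x| ≤ M) →
  Tendsto (fun n => ∫ x, (∫ θ, (gn n (Gam P (N n) α₀ θ (T x)) - gn n x) ^ 2) ∂P.mP) atTop (𝓝 0) →
  BM f → ∫ x, f x ∂P.mP = 0 → Tendsto (fun n => ∫ x, f x * gn n x ∂P.mP) atTop (𝓝 0)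

def S_COB : Prop := ∀ (P : Poly) (ρ : ℝ → ℝ) (c α₀ ε : ℝ) T (f : XX → ℝ) (N₀ : ℕ), P.Ok c →
  P.IsRho ρ → IsT0 P ρ T → 0 < α₀ → α₀ ≤ π / 16 → 0 < ε → BM f → ∫ x, f x ∂P.mP = 0 →
  ∃ N, N₀ ≤ N ∧ ∃ (w : Cl P N → Th) (h : XX → ℝ), BM h ∧
    ∫⁻ x, ENNReal.ofReal |f x - (h (Tw P N α₀ T w x) - h x)| ∂P.mP < ENNReal.ofReal ε

/-- One groove of base `[b, b + d e]`. -/
structure Tri (Ω Ω' : Set ℂ) (τ : ℂ → ℂ) (b e : ℂ) (d α : ℝ) : Prop where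
  mem : ∀ w : ℂ, 0 < w.re → w.re < 1 → -(tan α * min w.re (1 - w.re)) ≤ w.im → w.im ≤ 0 →
    (b + d * e * w ∈ Ω' ↔ -(tan α * min w.re (1 - w.re)) < w.im) ∧ b + d * e * w ∉ Ω
  left : ∀ r ∈ Ioo 0 (1 / (2 * cos α)), ∃ k : ℝ, 0 < k ∧
    τ (b + d * e * ((r : ℝ) * ex (-α))) = k * (e * ex (-α))
  right : ∀ r ∈ Ioo 0 (1 / (2 * cos α)), ∃ k : ℝ, 0 < k ∧
    τ (b + d * e * (1 - (r : ℝ) * ex α)) = k * (e * ex α)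

def S_GD0 : Prop := ∀ Ω Ω' τ (b e : ℂ) (d α x θ : ℝ), IsOpen Ω' → Bornology.IsBounded Ω' →
  ‖e‖ = 1 → 0 < d → 0 < α → α ≤ π / 8 → Tri Ω Ω' τ b e d α → x ∈ Ioo (0 : ℝ) 1 → θ ∈ Ioo 0 π →
  ∀ t ∈ Ico 0 (tp Ω' (b + d * e * x) (e * ex (-θ))), b + d * e * x + (t : ℝ) * (e * ex (-θ)) ∉ Ω

def S_GD1 : Prop := ∀ Ω (σ σ' : ℝ → ℝ) (b e : ℂ) (d α x θ : ℝ), CP σ → ‖e‖ = 1 → 0 < d → 0 < α →
  α ≤ π / 8 → Tri Ω (table σ) (tanf σ') b e d α → x ∈ Ioo (0 : ℝ) 1 → θ ∈ Ioo 0 π →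
  x * sin θ ≠ sin (θ - α) / (2 * cos α) → x * sin θ ≠ sin (θ - 2 * α) →
  (1 - x) * sin θ ≠ sin (θ + 2 * α) →
  bT σ σ' (b + d * e * x, e * ex (-θ)) =
      lam (table σ) (b + d * e * (gv α x θ).1, e * ex (gv α x θ).2) ∨
    ((∀ t ∈ Ioo 0 (tp (table σ) (bT σ σ' (b + d * e * x, e * ex (-θ))).1
        (bT σ σ' (b + d * e * x, e * ex (-θ))).2),
      (bT σ σ' (b + d * e * x, e * ex (-θ))).1 +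
        (t : ℝ) * (bT σ σ' (b + d * e * x, e * ex (-θ))).2 ∉ Ω) ∧
      bT σ σ' (bT σ σ' (b + d * e * x, e * ex (-θ))) =
        lam (table σ) (b + d * e * (gv α x θ).1, e * ex (gv α x θ).2))

def S_GDT : Prop := ∀ (P : Poly) (ρ σ : ℝ → ℝ) (c α₀ : ℝ) (N : ℕ) (w : Cl P N → Th), P.Ok c →
  P.IsRho ρ → 0 < α₀ → α₀ ≤ π / 16 → tan (2 * α₀) ≤ c / 2 → 1 ≤ N → Grv P (dep P N α₀ w) σ →
  ∀ s < P.S, (∀ a ∈ Ioo 0 (P.L s), (¬InG (P.L s) N (w (cell P N s a)).1 a →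
      P.V s + (a : ℝ) * P.e s ∉ table σ) ∧ (InG (P.L s) N (w (cell P N s a)).1 a →
      Tri (table ρ) (table σ) (tanf (deriv σ))
        (P.V s + (a - pd (P.L s) N * Int.fract (cX (P.L s) N (w (cell P N s a)).1 a) : ℝ) * P.e s)
        (P.e s) (pd (P.L s) N) (α₀ * (1 + (w (cell P N s a)).2)))) ∧
    ∀ᵐ a, a ∈ Ioo 0 (P.L s) → ¬InG (P.L s) N (w (cell P N s a)).1 a → ∃ k : ℝ, 0 < k ∧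
      tanf (deriv σ) (P.V s + (a : ℝ) * P.e s) = k * P.e s

def S_GDN : Prop := ∀ (P : Poly) (c α₀ : ℝ) (N : ℕ) (w : Cl P N → Th), P.Ok c → 1 ≤ N →
  ∀ᵐ x ∂P.mP, ∀ u α, u = Int.fract (cX (P.L x.1) N (w (cell P N x.1 x.2.1)).1 x.2.1) →
    α = α₀ * (1 + (w (cell P N x.1 x.2.1)).2) →
    u * sin x.2.2 ≠ sin (x.2.2 - α) / (2 * cos α) ∧ u * sin x.2.2 ≠ sin (x.2.2 - 2 * α) ∧
      (1 - u) * sin x.2.2 ≠ sin (x.2.2 + 2 * α)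

def S_GD : Prop := ∀ (P : Poly) (ρ σ : ℝ → ℝ) (c α₀ : ℝ) (N : ℕ) (w : Cl P N → Th) T, P.Ok c →
  P.IsRho ρ → IsT0 P ρ T → 0 < α₀ → α₀ ≤ π / 16 → tan (2 * α₀) ≤ c / 2 → 1 ≤ N →
  Grv P (dep P N α₀ w) σ →
  ∀ᵐ x ∂P.mP, Ext ρ σ (deriv σ) (P.io x) (P.io (Tw P N α₀ T w x))

def S_MS : Prop := ∀ ρ ρ' Z σ σ' Z' (m : Measure XX) (ι : XX → ℂ × ℂ) (T : XX → XX), PW ρ ρ' Z →
  PW σ σ' Z' → table ρ ⊆ table σ → Measurable ι → bm ρ ρ' = m.map ι →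
  (∀ᵐ x ∂m, Ext ρ σ σ' (ι x) (ι (T x))) →
  Measurable (lam (table σ)) ∧ MeasurableSet {y : ℂ × ℂ |
    ∃ t ∈ Ioo 0 (tp (table σ) y.1 y.2), y.1 + (t : ℝ) * y.2 ∈ table ρ} ∧
  (bm σ σ').restrict {y | ∃ t ∈ Ioo 0 (tp (table σ) y.1 y.2), y.1 + (t : ℝ) * y.2 ∈ table ρ} =
    m.map fun x => lam (table σ) (ι x)

def S_TR : Prop := ∀ ρ ρ' Z σ σ' Z' (m : Measure XX) (ι : XX → ℂ × ℂ) (κ : ℂ × ℂ → XX)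
  (T : XX → XX) (ψ : ℂ × ℂ → ℝ) (h : XX → ℝ) (M : ℝ), PW ρ ρ' Z → PW σ σ' Z' →
  table ρ ⊆ table σ → Measurable ι → Measurable κ → bm ρ ρ' = m.map ι →
  (∀ᵐ x ∂m, κ (ι x) = x) → MeasurePreserving T m m → (∀ᵐ x ∂m, Ext ρ σ σ' (ι x) (ι (T x))) →
  Measurable ψ → (∀ x, |ψ x| ≤ M) → BM h → ∃ h', BM h' ∧ cob σ σ' ψ h' ≤
    (∫⁻ x, ENNReal.ofReal |chord (table ρ) ψ (ι x) - (h (T x) - h x)| ∂m) +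
      ENNReal.ofReal M * (volume (table σ \ table ρ) * cm univ)

def S_EMC : Prop := ∀ (P : Poly) (ρ : ℝ → ℝ) (c ε η : ℝ) ψ, P.Ok c → P.IsRho ρ → 0 < ε → 0 < η →
  ∃ σ Z, PW σ (deriv σ) Z ∧ Near η σ ρ ∧ MCrit σ (deriv σ) ψ ε

def S_EGEN : Prop := ∀ ψ (ε : ℝ), 0 < ε →
  IsOpen {p : C1 | Crit p.1.1 p.1.2 ψ ε} ∧ Dense {p : C1 | Crit p.1.1 p.1.2 ψ ε}

end

end Pool.Agent.P.MP_6b977f_mp.EB
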