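import Pool.Agent.P.MP_6b977f_mp.EB.Defs

/-! Interface, part S: weak eigenfunctions, stability, splitting, local weak limits. -/

namespace Pool.Agent.P.MP_6b977f_mp.EB

open Real MeasureTheory Filter Topology Laplacian Set Metric
open scoped ContDiff BoundedContinuousFunction ComplexConjugate Pointwise ENNReal

noncomputable section

/-- Continuous and periodic. -/
def CP (ρ : ℝ → ℝ) : Prop := Continuous ρ ∧ Function.Periodic ρ (2 * π)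

/-- `ρ - σ` is `η`-small and `η`-Lipschitz. -/
def Near (η : ℝ) (ρ σ : ℝ → ℝ) : Prop :=
  (∀ x, |ρ x - σ x| ≤ η) ∧ ∀ x y, |(ρ x - σ x) - (ρ y - σ y)| ≤ η * |x - y|

/-- `(f, g)` is a limit in `L² × L²` of pairs (test function, gradient). -/
def H10 (Ω : Set ℂ) (f : ℂ → ℝ) (g : ℂ → ℂ) : Prop :=
  MemLp f 2 volume ∧ MemLp g 2 volume ∧ ∃ a : ℕ → ℂ → ℝ, (∀ j, IsTest Ω (a j)) ∧
    Tendsto (fun j => eLpNorm (a j - f) 2 volume) atTop (𝓝 0) ∧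
    Tendsto (fun j => eLpNorm (gradient (a j) - g) 2 volume) atTop (𝓝 0)

/-- Weak Dirichlet eigenfunction (possibly zero). -/
def WE (Ω : Set ℂ) (lam : ℝ) (f : ℂ → ℝ) (g : ℂ → ℂ) : Prop :=
  H10 Ω f g ∧ ∀ φ, IsTest Ω φ → ∫ x, inner ℝ (g x) (gradient φ x) = lam * ∫ x, f x * φ x

/-- A simple eigenvalue with an eigenfunction. -/
def Simple (Ω : Set ℂ) (lam : ℝ) (f : ℂ → ℝ) (g : ℂ → ℂ) : Prop :=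
  WE Ω lam f g ∧ ∫ x, f x ^ 2 ≠ 0 ∧
    ∀ f' g', WE Ω lam f' g' → ∃ c : ℝ, f' =ᵐ[volume] fun x => c * f x

/-- Orthonormal family of functions. -/
def ON {m : ℕ} (ψ : Fin m → ℂ → ℝ) : Prop :=
  ∀ i j, ∫ x, ψ i x * ψ j x = if i = j then 1 else 0

/-- In the disc `ball c r` of the lower half plane, `Ω` is the half plane `Im z > Im c`. -/
def Flat (Ω : Set ℂ) (c : ℂ) (r : ℝ) : Prop :=
  0 < r ∧ r < -c.im ∧ ∀ z ∈ ball c r, (z ∈ Ω ↔ c.im < z.im)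

/-- Mirror image in the line `Im z = - H`. -/
def mir (H : ℝ) (z : ℂ) : ℂ := conj z - 2 * H * Complex.I

/-- Classical solution of `Δ w + lam w = 0` on `O`. -/
def Sol (O : Set ℂ) (lam : ℝ) (w : ℂ → ℝ) : Prop :=
  ContDiffOn ℝ ∞ w O ∧ ∀ x ∈ O, Δ w x + lam * w x = 0

/-- `w` is the odd extension of `f` across the flat piece. -/
def OddExt (c : ℂ) (r lam : ℝ) (f w : ℂ → ℝ) : Prop :=
  Sol (ball c r) lam w ∧ (∀ z ∈ ball c r, w (mir (-c.im) z) = -w z) ∧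
    ∀ᵐ z, z ∈ ball c r → c.im < z.im → w z = f z

/-- Normalisation to squared norm `|Ω|`. -/
def nrm (Ω : Set ℂ) (f : ℂ → ℝ) (x : ℂ) : ℝ := √(volume.real Ω / ∫ y, f y ^ 2) * f x

/-- Characteristic function of the local statistics of `f`. -/
def cf (Ω : Set ℂ) (lam : ℝ) (f : ℂ → ℝ) (τ : ℂ →₀ ℝ) : ℂ :=
  ⨍ z in Ω, Complex.exp (Complex.I * ((τ.sum fun x s => s * f (z + x / √lam) : ℝ) : ℂ))

/-- The `n`-th approximate random wave property. -/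
def GoodB (D : ℕ → ℂ →₀ ℝ) (n : ℕ) (ρ : ℝ → ℝ) : Prop :=
  ∃ lam f g, (n : ℝ) < lam ∧ Simple (table ρ) lam f g ∧
    ∀ k ≤ n, ‖cf (table ρ) lam (nrm (table ρ) f) (D k) - gauss (D k)‖ < 1 / (n + 1)

abbrev L2 : Type := Lp ℝ 2 (volume : Measure ℂ)

/-- `T = (1 - Δ)⁻¹` with Dirichlet condition. -/
def IsRes (Ω : Set ℂ) (T : L2 →L[ℝ] L2) : Prop :=
  ∀ h : L2, ∃ g, H10 Ω (T h) g ∧ ∀ φ, IsTest Ω φ →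
    (∫ x, T h x * φ x) + ∫ x, inner ℝ (g x) (gradient φ x) = ∫ x, h x * φ x

/-- Characteristic function of a measure on `C⁰`. -/
def cfM (μ : RM) (τ : ℂ →₀ ℝ) : ℂ :=
  ∫ F, Complex.exp (Complex.I * ((τ.sum fun x s => s * F x : ℝ) : ℂ)) ∂μ

/-- A countable family of tests that determines the random wave. -/
def Det (D : ℕ → ℂ →₀ ℝ) : Prop :=
  ∀ μ : RM, IsProbabilityMeasure μ → (∀ k, cfM μ (D k) = gauss (D k)) → IsRMW μ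

/-! ### Tables -/

def S_TAB : Prop := ∀ ρ, CP ρ →
  IsOpen (table ρ) ∧ Bornology.IsBounded (table ρ) ∧ (0 : ℂ) ∈ table ρ ∧
  IsPreconnected (table ρ) ∧ frontier (table ρ) = range (bd ρ) ∧
  closure (table ρ) = {z | ‖z‖ ≤ Real.exp (ρ z.arg)} ∧
  (∀ t φ : ℝ, 0 ≤ t → ((t : ℂ) * ex φ ∈ table ρ ↔ t < Real.exp (ρ φ))) ∧
  ContinuousOn (fun z : ℂ => ρ z.arg) {0}ᶜ ∧
  (∀ a : ℝ, table (fun x => ρ x + a) = Real.exp a • table ρ) ∧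
  0 < volume (table ρ) ∧ volume (table ρ) < ⊤

def S_TAB2 : Prop := ∀ ρ, CP ρ →
  volume (frontier (table ρ)) = 0 ∧
  (∀ ε : ℝ≥0∞, 0 < ε → ∃ δ > 0, ∀ σ, CP σ → (∀ x, |σ x - ρ x| ≤ δ) →
    volume (symmDiff (table σ) (table ρ)) < ε) ∧
  ∀ K, IsCompact K → K ⊆ table ρ → ∃ δ > 0, ∀ σ : ℝ → ℝ, (∀ x, |σ x - ρ x| ≤ δ) → K ⊆ table σ

def S_SMOOTH : Prop := ∀ (p : C1) (σ : ℝ → ℝ) (η : ℝ), CP σ → Near η σ p.1.1 →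
  ∃ q : ℕ → C1, (∀ n, dist (q n) p ≤ η) ∧
    TendstoUniformly (fun n x => (q n).1.1 x) σ atTop ∧
    ∀ (U : Set ℝ) (σ' : ℝ → ℝ), IsOpen U → ContinuousOn σ' U → (∀ x ∈ U, HasDerivAt σ (σ' x) x) →
      TendstoLocallyUniformlyOn (fun n x => (q n).1.2 x) σ' atTop U

/-! ### The space `H¹₀` -/

def S_HB1 : Prop :=
  (∀ Ω f g f' g', H10 Ω f g → H10 Ω f' g' → H10 Ω (f + f') (g + g')) ∧
  (∀ Ω f g (c : ℝ), H10 Ω f g → H10 Ω (fun x => c * f x) (fun x => c * g x)) ∧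
  (∀ Ω f g f' g', H10 Ω f g → f =ᵐ[volume] f' → g =ᵐ[volume] g' → H10 Ω f' g') ∧
  (∀ Ω Ω' f g, Ω ⊆ Ω' → H10 Ω f g → H10 Ω' f g) ∧
  (∀ Ω a, IsTest Ω a → H10 Ω a (gradient a)) ∧
  (∀ Ω f g, H10 Ω f g → ∀ᵐ x, x ∉ Ω → f x = 0 ∧ g x = 0) ∧
  (∀ Ω (f : ℕ → ℂ → ℝ) (g : ℕ → ℂ → ℂ) f₀ g₀, (∀ n, H10 Ω (f n) (g n)) →
    MemLp f₀ 2 volume → MemLp g₀ 2 volume →
    Tendsto (fun n => eLpNorm (f n - f₀) 2 volume) atTop (𝓝 0) →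
    Tendsto (fun n => eLpNorm (g n - g₀) 2 volume) atTop (𝓝 0) → H10 Ω f₀ g₀) ∧
  (∀ Ω lam f g f' g', WE Ω lam f g → H10 Ω f' g' →
    ∫ x, inner ℝ (g x) (g' x) = lam * ∫ x, f x * f' x) ∧
  (∀ Ω lam (m : ℕ) (f : Fin m → ℂ → ℝ) (g : Fin m → ℂ → ℂ) (c : Fin m → ℝ),
    (∀ i, WE Ω lam (f i) (g i)) →
    WE Ω lam (fun x => ∑ i, c i * f i x) (fun x => ∑ i, c i * g i x))

def S_HB2 : Prop :=
  (∀ Ω f g (X : ℂ → ℂ), H10 Ω f g → ContDiff ℝ 1 X → HasCompactSupport X →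
    ∫ x, inner ℝ (g x) (X x) =
      -∫ x, f x * ((fderiv ℝ X x 1).re + (fderiv ℝ X x Complex.I).im)) ∧
  (∀ Ω f g O (w : ℂ → ℝ), H10 Ω f g → IsOpen O → ContDiffOn ℝ 1 w O →
    (∀ᵐ x, x ∈ O → f x = w x) → ∀ᵐ x, x ∈ O → g x = gradient w x) ∧
  ∀ Ω f g (χ : ℂ → ℝ) K, H10 Ω f g → ContDiff ℝ ∞ χ → HasCompactSupport χ →
    (∀ x ∈ K, ∀ᶠ y in 𝓝 x, χ y = 1) →
    H10 (Ω \ K) (fun x => (1 - χ x) * f x)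
      (fun x => ((1 - χ x : ℝ) : ℂ) * g x - (f x : ℂ) * gradient χ x)

def S_C1T : Prop := ∀ Ω (u : ℂ → ℝ), IsOpen Ω → ContDiff ℝ 1 u → HasCompactSupport u →
  tsupport u ⊆ Ω → H10 Ω u (gradient u)

def S_LIP : Prop := ∀ Ω O (u : ℂ → ℝ), IsOpen Ω → Bornology.IsBounded Ω → IsOpen O →
  closure Ω ⊆ O → ContDiffOn ℝ 1 u O → (∀ x ∈ frontier Ω, u x = 0) →
  H10 Ω (Ω.indicator u) (Ω.indicator (gradient u))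

def S_RELL : Prop := ∀ Ω (f : ℕ → ℂ → ℝ) (g : ℕ → ℂ → ℂ) (C : ℝ≥0∞), Bornology.IsBounded Ω →
  C < ⊤ → (∀ n, H10 Ω (f n) (g n)) → (∀ n, eLpNorm (f n) 2 volume ≤ C) →
  (∀ n, eLpNorm (g n) 2 volume ≤ C) →
  ∃ (s : ℕ → ℕ) (f₀ : ℂ → ℝ), StrictMono s ∧ MemLp f₀ 2 volume ∧
    Tendsto (fun n => eLpNorm (f (s n) - f₀) 2 volume) atTop (𝓝 0)

def S_DIL : Prop :=
  (∀ Ω f g (a : ℝ), 0 < a → H10 Ω f g →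
    H10 (a • Ω) (fun x => f (x / a)) (fun x => g (x / a) / a)) ∧
  (∀ Ω lam f g (a : ℝ), 0 < a → WE Ω lam f g →
    WE (a • Ω) (lam / a ^ 2) (fun x => f (x / a)) (fun x => g (x / a) / a)) ∧
  (∀ f : ℂ → ℝ, MemLp f 2 volume → Tendsto (fun p : ℝ × ℂ =>
    eLpNorm ((fun x : ℂ => f (p.1 * x + p.2)) - f) 2 volume) (𝓝 (1, 0)) (𝓝 0)) ∧
  ∀ g : ℂ → ℂ, MemLp g 2 volume → Tendsto (fun p : ℝ × ℂ =>
    eLpNorm ((fun x : ℂ => g (p.1 * x + p.2)) - g) 2 volume) (𝓝 (1, 0)) (𝓝 0)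

def S_MOSCO : Prop := ∀ ρ (σ : ℕ → ℝ → ℝ) (f : ℕ → ℂ → ℝ) (g : ℕ → ℂ → ℂ) f₀ (g₀ : ℂ → ℂ),
  CP ρ → TendstoUniformly σ ρ atTop → (∀ n, H10 (table (σ n)) (f n) (g n)) →
  MemLp f₀ 2 volume → MemLp g₀ 2 volume →
  Tendsto (fun n => eLpNorm (f n - f₀) 2 volume) atTop (𝓝 0) →
  (∀ v : ℂ → ℂ, MemLp v 2 volume →
    Tendsto (fun n => ∫ x, inner ℝ (g n x) (v x)) atTop (𝓝 (∫ x, inner ℝ (g₀ x) (v x)))) →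
  H10 (table ρ) f₀ g₀

/-! ### The resolvent -/

def S_OP1 : Prop := ∀ Ω, ∃ T, IsRes Ω T

def S_OP2 : Prop := ∀ Ω T, IsRes Ω T →
  (∀ x y : L2, inner ℝ (T x) y = inner ℝ x (T y)) ∧
  (∀ (h : L2) f g, H10 Ω f g → (∀ φ, IsTest Ω φ →
      (∫ x, f x * φ x) + ∫ x, inner ℝ (g x) (gradient φ x) = ∫ x, h x * φ x) →
    f =ᵐ[volume] T h ∧ eLpNorm f 2 volume ≤ ‖h‖ₑ ∧ eLpNorm g 2 volume ≤ ‖h‖ₑ) ∧
  (∀ lam f g (x : L2), -1 < lam → WE Ω lam f g → x =ᵐ[volume] f → T x = (1 + lam)⁻¹ • x) ∧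
  ∀ (κ : ℝ) (x : L2), κ ≠ 0 → T x = κ • x → ∃ g, WE Ω (κ⁻¹ - 1) x g

def S_OP3 : Prop := ∀ Ω T, Bornology.IsBounded Ω → IsRes Ω T → IsCompactOperator T

def S_CONV : Prop := ∀ ρ (σ : ℕ → ℝ → ℝ) T (Tn : ℕ → L2 →L[ℝ] L2), CP ρ →
  TendstoUniformly σ ρ atTop → IsRes (table ρ) T → (∀ n, IsRes (table (σ n)) (Tn n)) →
  Tendsto (fun n => ‖Tn n - T‖) atTop (𝓝 0)

def S_CLA : Prop := ∀ (B : L2 →L[ℝ] L2) (κ δ : ℝ), IsCompactOperator B →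
  (∀ x y, inner ℝ (B x) y = inner ℝ x (B y)) → 0 < δ → δ < |κ| →
  ∃ (d : ℕ) (y : Fin d → L2) (k : Fin d → ℝ), Orthonormal ℝ y ∧ (∀ i, B (y i) = k i • y i) ∧
    (∀ i, |k i - κ| < δ) ∧
    (∀ v ∈ Submodule.span ℝ (range y), ‖B v - κ • v‖ ≤ δ * ‖v‖) ∧
    ∀ v ∈ (Submodule.span ℝ (range y))ᗮ, δ * ‖v‖ ≤ ‖B v - κ • v‖

def S_CL : Prop := ∀ (A : L2 →L[ℝ] L2) (An : ℕ → L2 →L[ℝ] L2) (κ : ℝ), IsCompactOperator A →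
  (∀ x y, inner ℝ (A x) y = inner ℝ x (A y)) → (∀ n, IsCompactOperator (An n)) →
  (∀ n x y, inner ℝ (An n x) y = inner ℝ x (An n y)) →
  Tendsto (fun n => ‖An n - A‖) atTop (𝓝 0) → κ ≠ 0 →
  ∃ (m : ℕ) (ψ : Fin m → L2) (δ : ℝ) (s : ℕ → ℕ) (k : ℕ → Fin m → ℝ) (y : ℕ → Fin m → L2),
    0 < δ ∧ StrictMono s ∧ Orthonormal ℝ ψ ∧ (∀ i, A (ψ i) = κ • ψ i) ∧
    (∀ v, A v = κ • v → ∃ c : Fin m → ℝ, v = ∑ i, c i • ψ i) ∧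
    (∀ n, Orthonormal ℝ (y n)) ∧ (∀ n i, An (s n) (y n i) = k n i • y n i) ∧
    (∀ i, Tendsto (fun n => k n i) atTop (𝓝 κ)) ∧
    (∀ i, Tendsto (fun n => y n i) atTop (𝓝 (ψ i))) ∧
    ∀ n κ' v, |κ' - κ| < δ → An (s n) v = κ' • v →
      ∃ c : Fin m → ℝ, (∀ i, k n i ≠ κ' → c i = 0) ∧ v = ∑ i, c i • y n i

def S_CLU : Prop := ∀ ρ (σ : ℕ → ℝ → ℝ) (lam : ℝ), CP ρ → (∀ n, CP (σ n)) →
  TendstoUniformly σ ρ atTop → 0 < lam →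
  ∃ (m : ℕ) (ψ : Fin m → ℂ → ℝ) (γ : Fin m → ℂ → ℂ) (δ : ℝ) (s : ℕ → ℕ) (l : ℕ → Fin m → ℝ)
    (y : ℕ → Fin m → ℂ → ℝ) (g : ℕ → Fin m → ℂ → ℂ),
    0 < δ ∧ StrictMono s ∧ ON ψ ∧ (∀ i, WE (table ρ) lam (ψ i) (γ i)) ∧
    (∀ f g', WE (table ρ) lam f g' → ∃ c : Fin m → ℝ, f =ᵐ[volume] fun x => ∑ i, c i * ψ i x) ∧
    (∀ n, ON (y n)) ∧ (∀ n i, WE (table (σ (s n))) (l n i) (y n i) (g n i)) ∧
    (∀ i, Tendsto (fun n => l n i) atTop (𝓝 lam)) ∧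
    (∀ i, Tendsto (fun n => eLpNorm (y n i - ψ i) 2 volume) atTop (𝓝 0)) ∧
    ∀ n l' f g', |l' - lam| < δ → WE (table (σ (s n))) l' f g' →
      ∃ c : Fin m → ℝ, (∀ i, l n i ≠ l' → c i = 0) ∧ f =ᵐ[volume] fun x => ∑ i, c i * y n i x

def S_STAB : Prop := ∀ ρ lam f g (ε : ℝ), CP ρ → 0 < lam → Simple (table ρ) lam f g → 0 < ε →
  ∃ δ > 0, ∀ σ, CP σ → (∀ x, |σ x - ρ x| ≤ δ) → ∃ l y g', Simple (table σ) l y g' ∧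
    |l - lam| < ε ∧ eLpNorm (y - f) 2 volume < ENNReal.ofReal ε

/-! ### Interior regularity -/

def S_MV0 : Prop := ∀ (lam R t : ℝ) (x : ℂ) (u : ℂ → ℝ), 0 ≤ lam → Sol (ball x R) lam u →
  0 ≤ t → t < R → ∫ θ in (0 : ℝ)..(2 * π), u (x + t * ex θ) =
    u x * ∫ θ in (0 : ℝ)..(2 * π), cos (√lam * t * cos θ)

def S_MV1 : Prop := ∀ (lam R r : ℝ) (x : ℂ) (u : ℂ → ℝ) (β : ℝ → ℝ), 0 ≤ lam →
  Sol (ball x R) lam u → r < R → Continuous β → (∀ t, r ≤ t → β t = 0) →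
  ∫ y : ℂ, β ‖y‖ * u (x + y) = u x * ∫ y : ℂ, β ‖y‖ * cos (√lam * y.re)

def S_INT : Prop := ∃ C : ℝ, 0 < C ∧ ∀ (lam r : ℝ) (x : ℂ) (u : ℂ → ℝ), 0 ≤ lam → 0 < r →
  √lam * r ≤ 1 → Sol (ball x r) lam u →
  (IntegrableOn (fun y => u y ^ 2) (ball x r) →
    u x ^ 2 * r ^ 2 ≤ C * ∫ y in ball x r, u y ^ 2 ∧
    ‖fderiv ℝ u x‖ ^ 2 * r ^ 4 ≤ C * ∫ y in ball x r, u y ^ 2) ∧
  ∀ M, (∀ y ∈ ball x r, |u y| ≤ M) → ‖fderiv ℝ u x‖ * r ≤ C * M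

def S_WEYL : Prop := ∀ O lam (f : ℂ → ℝ), IsOpen O → 0 ≤ lam → MemLp f 2 volume →
  (∀ φ, IsTest O φ → ∫ x, f x * (Δ φ x + lam * φ x) = 0) →
  ∃ w, Sol O lam w ∧ ∀ᵐ x, x ∈ O → w x = f x

def S_UC : Prop := ∀ O lam (w : ℂ → ℝ) x₀, IsOpen O → IsPreconnected O → 0 ≤ lam →
  Sol O lam w → x₀ ∈ O → (∀ᶠ y in 𝓝 x₀, w y = 0) → ∀ x ∈ O, w x = 0

def S_GREEN : Prop := ∀ (X : ℂ → ℂ) (b : ℝ), ContDiff ℝ 1 X → HasCompactSupport X →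
  ∫ x in {z : ℂ | b < z.im}, ((fderiv ℝ X x 1).re + (fderiv ℝ X x Complex.I).im) =
    -∫ σ : ℝ, (X (σ + b * Complex.I)).im

def S_REG : Prop :=
  (∀ Ω lam f g, IsOpen Ω → 0 ≤ lam → WE Ω lam f g →
    ∃ u, Sol Ω lam u ∧ InH10 Ω u ∧ ∀ᵐ x, x ∈ Ω → u x = f x) ∧
  ∀ Ω lam u, IsOpen Ω → Sol Ω lam u → InH10 Ω u →
    WE Ω lam (Ω.indicator u) (Ω.indicator (gradient u))

def S_REFL : Prop := ∀ Ω c r lam f g, IsOpen Ω → Flat Ω c r → 0 ≤ lam → WE Ω lam f g →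
  ∃ w, OddExt c r lam f w

def S_UC2 : Prop := ∀ ρ c r lam f g w (a b : ℝ), CP ρ → Flat (table ρ) c r → 0 ≤ lam →
  WE (table ρ) lam f g → OddExt c r lam f w → a < b → c.re - r < a → b < c.re + r →
  (∀ σ ∈ Ioo a b, fderiv ℝ w (σ + c.im * Complex.I) Complex.I = 0) → f =ᵐ[volume] 0

/-! ### Hadamard variation and splitting -/

open Classical in
def S_HAD1 : Prop := ∀ Ω Ω' c (r lam l : ℝ) ψ γ w y g (Φ : ℂ → ℝ), IsOpen Ω → IsOpen Ω' →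
  Bornology.IsBounded Ω' → 0 < r → Ω \ closedBall c (r / 2) = Ω' \ closedBall c (r / 2) →
  WE Ω lam ψ γ → Sol (ball c r) lam w → (∀ᵐ z, z ∈ ball c r → z ∈ Ω → w z = ψ z) →
  WE Ω' l y g → ContDiff ℝ 1 Φ → tsupport Φ ⊆ ball c r →
  (∀ z ∈ frontier Ω' ∩ ball c r, Φ z = w z) →
  (∀ z ∈ frontier Ω' ∩ ball c r, z ∉ closedBall c (r / 2) → w z = 0) →
  (l - lam) * ∫ z, (closedBall c (r / 2)).piecewise w ψ z * y z =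
    l * (∫ z, y z * Φ z) - ∫ z, inner ℝ (g z) (gradient Φ z)

def S_HAD3 : Prop := ∀ ρ c (r : ℝ) (w : ℂ → ℝ) (δ : ℝ → ℝ), CP ρ → Flat (table ρ) c r →
  ContDiffOn ℝ ∞ w (ball c r) → (∀ z ∈ ball c r, z.im = c.im → w z = 0) →
  ContDiff ℝ ∞ δ → Function.Periodic δ (2 * π) → (∀ θ, δ θ ≠ 0 → bd ρ θ ∈ ball c (r / 4)) →
  ∃ Φ : ℂ → ℝ, ContDiff ℝ ∞ Φ ∧ tsupport Φ ⊆ closedBall c (7 * r / 8) ∧
    (∀ z ∈ ball c r, z.im = c.im → Φ z = c.im * δ z.arg * fderiv ℝ w z Complex.I) ∧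
    ∀ ε > 0, ∃ t₀ > 0, ∀ t : ℝ, t ≠ 0 → |t| < t₀ →
      table ρ \ closedBall c (r / 2) = table (fun x => ρ x + t * δ x) \ closedBall c (r / 2) ∧
      ∃ Ψ : ℂ → ℝ, ContDiff ℝ 1 Ψ ∧ tsupport Ψ ⊆ closedBall c (7 * r / 8) ∧
        (∀ z ∈ frontier (table fun x => ρ x + t * δ x) ∩ ball c r,
          t * Ψ z = w z ∧ (z ∉ closedBall c (r / 2) → w z = 0)) ∧
        ∀ z, |Ψ z - Φ z| ≤ ε ∧ ‖gradient Ψ z - gradient Φ z‖ ≤ ε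

def S_HAD : Prop := ∀ ρ c (r lam : ℝ) ψ γ w y g v (δ : ℝ → ℝ) (t l : ℕ → ℝ)
  (yn : ℕ → ℂ → ℝ) (gn : ℕ → ℂ → ℂ), CP ρ → Flat (table ρ) c r →
  WE (table ρ) lam ψ γ → OddExt c r lam ψ w → WE (table ρ) lam y g → OddExt c r lam y v →
  ContDiff ℝ ∞ δ → Function.Periodic δ (2 * π) → (∀ θ, δ θ ≠ 0 → bd ρ θ ∈ ball c (r / 4)) →
  (∀ n, t n ≠ 0) → Tendsto t atTop (𝓝 0) → Tendsto l atTop (𝓝 lam) →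
  (∀ n, WE (table fun x => ρ x + t n * δ x) (l n) (yn n) (gn n)) →
  Tendsto (fun n => eLpNorm (yn n - y) 2 volume) atTop (𝓝 0) →
  ∃ cn : ℕ → ℝ, Tendsto cn atTop (𝓝 (∫ z, ψ z * y z)) ∧
    Tendsto (fun n => (l n - lam) / t n * cn n) atTop
      (𝓝 (c.im * ∫ σ in (c.re - r / 2)..(c.re + r / 2), δ (σ + c.im * Complex.I : ℂ).arg *
        (fderiv ℝ w (σ + c.im * Complex.I) Complex.I *
          fderiv ℝ v (σ + c.im * Complex.I) Complex.I)))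

def S_LA : Prop := ∀ (m : ℕ) (V : Submodule ℝ (Matrix (Fin m) (Fin m) ℝ)) (x₁ u : Fin m → ℝ)
  (ε : ℝ), x₁ ≠ 0 → Matrix.vecMulVec x₁ x₁ ∈ V → (∀ v, ∃ A ∈ V, A.mulVec x₁ = v) → 0 < ε →
  ∃ (x : Fin m → ℝ) (A : Matrix (Fin m) (Fin m) ℝ) (μ : ℝ), A ∈ V ∧ ‖x - u‖ < ε ∧ x ≠ 0 ∧
    ∀ v, A.mulVec v = μ • v ↔ ∃ a : ℝ, v = a • x

/-- Boundary forms: some `δ` makes a vector near `u` a simple eigenvector. -/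
def S_LA2 : Prop := ∀ ρ c (r : ℝ) (m : ℕ) (ℓ : ℝ → Fin m → ℝ) (u : Fin m → ℝ) (ε : ℝ), CP ρ →
  Flat (table ρ) c r → ContinuousOn ℓ (Ioo (c.re - r) (c.re + r)) → u ≠ 0 → 0 < ε →
  (∀ (v : Fin m → ℝ) (a b : ℝ), a < b → c.re - r < a → b < c.re + r →
    (∀ σ ∈ Ioo a b, ∑ i, v i * ℓ σ i = 0) → v = 0) →
  ∃ (δ : ℝ → ℝ) (x : Fin m → ℝ) (μ : ℝ), ContDiff ℝ ∞ δ ∧ Function.Periodic δ (2 * π) ∧
    (∀ θ, δ θ ≠ 0 → bd ρ θ ∈ ball c (r / 4)) ∧ ‖x - u‖ < ε ∧ x ≠ 0 ∧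
    ∀ v : Fin m → ℝ, (∀ i, ∑ j, (c.im * ∫ σ in (c.re - r / 2)..(c.re + r / 2),
      δ (σ + c.im * Complex.I : ℂ).arg * (ℓ σ i * ℓ σ j)) * v j = μ * v i) ↔ ∃ a : ℝ, v = a • x

def S_SPLIT : Prop := ∀ ρ c r lam f g (η : ℝ), CP ρ → Flat (table ρ) c r → 0 < lam →
  WE (table ρ) lam f g → ∫ x, f x ^ 2 ≠ 0 → 0 < η →
  ∃ σ l y g', CP σ ∧ Near η σ ρ ∧ Simple (table σ) l y g' ∧ |l - lam| < η ∧
    eLpNorm (y - f) 2 volume < ENNReal.ofReal η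

def S_CFC : Prop := ∀ ρ (lam : ℝ) (f : ℂ → ℝ) (τ : ℂ →₀ ℝ) (ε : ℝ), CP ρ → 0 < lam →
  MemLp f 2 volume → ∫ x, f x ^ 2 ≠ 0 → 0 < ε →
  ∃ δ > 0, ∀ σ (l : ℝ) (y : ℂ → ℝ), CP σ → (∀ x, |σ x - ρ x| ≤ δ) → |l - lam| < δ →
    MemLp y 2 volume → eLpNorm (y - f) 2 volume < ENNReal.ofReal δ →
    ‖cf (table σ) l (nrm (table σ) y) τ - cf (table ρ) lam (nrm (table ρ) f) τ‖ < ε

def S_BOPEN : Prop := ∀ D n ρ, CP ρ → GoodB D n ρ →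
  ∃ δ > 0, ∀ σ, CP σ → (∀ x, |σ x - ρ x| ≤ δ) → GoodB D n σ

/-- The construction of part B. -/
def S_BST : Prop := ∀ (p : C1) (D : ℕ → ℂ →₀ ℝ) (n : ℕ) (η : ℝ), 0 < η →
  ∃ σ c r lam f g, CP σ ∧ Near η σ p.1.1 ∧ Flat (table σ) c r ∧ (n : ℝ) < lam ∧
    WE (table σ) lam f g ∧ ∫ x, f x ^ 2 ≠ 0 ∧
    ∀ k ≤ n, ‖cf (table σ) lam (nrm (table σ) f) (D k) - gauss (D k)‖ < 1 / (n + 1)

def S_BGEN : Prop := ∀ D n, IsOpen {p : C1 | GoodB D n p.1.1} ∧ Dense {p : C1 | GoodB D n p.1.1}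

/-! ### Local weak limits -/

def S_RAT : Prop := ∃ D, Det D

def S_UNIQ : Prop := ∀ μ ν : RM, IsRMW μ → IsRMW ν → μ = ν

def S_LOCC : Prop := ∀ Ω lam u χ, IsOpen Ω → Bornology.IsBounded Ω → 0 < lam → Eig Ω lam u →
  Cut χ → (∀ z ∈ Ω, Continuous (loc χ Ω lam u z)) ∧
    ContinuousOn (fun z => toC (loc χ Ω lam u z)) Ω

def S_TIGHT0 : Prop := ∀ m : ℕ → RM, (∀ n, IsProbabilityMeasure (m n)) →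
  (∀ (R : ℕ) (ε : ℝ≥0∞), 0 < ε → ∃ M : ℝ, ∀ᶠ n in atTop,
    m n {F | (∀ x, ‖x‖ ≤ R → |F x| ≤ M) ∧
      ∀ x y, ‖x‖ ≤ R → ‖y‖ ≤ R → |F x - F y| ≤ M * ‖x - y‖}ᶜ ≤ ε) →
  ∀ s : ℕ → ℕ, ∃ (t : ℕ → ℕ) (μ : RM), StrictMono t ∧ IsProbabilityMeasure μ ∧
    ∀ Φ : C(ℂ, ℝ) →ᵇ ℝ, Tendsto (fun n => ∫ F, Φ F ∂(m (s (t n)))) atTop (𝓝 (∫ F, Φ F ∂μ))

def S_TIGHT1 : Prop := ∀ Ω χ (R : ℕ) (ε : ℝ≥0∞), IsOpen Ω → Bornology.IsBounded Ω → Cut χ →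
  0 < ε → ∃ M K : ℝ, ∀ lam u, K ≤ lam → Eig Ω lam u → ∃ A, MeasurableSet A ∧ volume A ≤ ε ∧
    ∀ z ∈ Ω \ A, (∀ x : ℂ, ‖x‖ ≤ R →
        loc χ Ω lam u z x = Ω.indicator u (z + x / √lam) ∧ |loc χ Ω lam u z x| ≤ M) ∧
      ∀ x y : ℂ, ‖x‖ ≤ R → ‖y‖ ≤ R →
        |loc χ Ω lam u z x - loc χ Ω lam u z y| ≤ M * ‖x - y‖

def S_LW : Prop := ∀ D Ω χ (lam : ℕ → ℝ) (u : ℕ → ℂ → ℝ), Det D → IsOpen Ω →
  Bornology.IsBounded Ω → Ω.Nonempty → Cut χ → (∀ n, Eig Ω (lam n) (u n)) →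
  Tendsto lam atTop atTop →
  (∀ k, Tendsto (fun n => cf Ω (lam n) (Ω.indicator (u n)) (D k)) atTop (𝓝 (gauss (D k)))) →
  ∃ μ, IsRMW μ ∧ LWL μ χ Ω lam u

def S_BASIS : Prop := ∀ Ω lam u l f g, IsOpen Ω → Bornology.IsBounded Ω → Basis' Ω lam u →
  0 < l → Simple Ω l f g → ∃ n, lam n = l ∧
    (Ω.indicator (u n) =ᵐ[volume] nrm Ω f ∨ Ω.indicator (u n) =ᵐ[volume] -nrm Ω f)

def S_BFIN : Prop := ∀ D ρ, Det D → CP ρ → (∀ n, GoodB D n ρ) →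
  (∃ μ, IsRMW μ) ∧ ∀ μ, IsRMW μ → ∀ χ, Cut χ →
    (∃ (lam : ℕ → ℝ) (u : ℕ → ℂ → ℝ), (∀ n, Eig (table ρ) (lam n) (u n)) ∧
      Tendsto lam atTop atTop ∧ LWL μ χ (table ρ) lam u) ∧
    ∀ lam u, Basis' (table ρ) lam u →
      ∃ s : ℕ → ℕ, StrictMono s ∧ LWL μ χ (table ρ) (lam ∘ s) (u ∘ s)

end

end Pool.Agent.P.MP_6b977f_mp.EB
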