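import Pool.Agent.P.MP_6b977f_mp.EB.IfS

/-! Interface, part X: existence of an eigenbasis. -/

namespace Pool.Agent.P.MP_6b977f_mp.EB

open Real MeasureTheory Filter Topology Laplacian Set Metric
open scoped ContDiff BoundedContinuousFunction ComplexConjugate Pointwise ENNReal

def S_ENUM : Prop := ∀ (B : Type) (f : B → ℝ), Infinite B → (∀ a : ℝ, {b | f b ≤ a}.Finite) →
  ∃ e : ℕ ≃ B, Monotone (f ∘ e)

def S_EXH : Prop := ∀ T : L2 →L[ℝ] L2, IsCompactOperator T →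
  (∀ x y, inner ℝ (T x) y = inner ℝ x (T y)) →
  ∃ (B : Set L2) (k : B → ℝ), Orthonormal ℝ ((↑) : B → L2) ∧
    (∀ b : B, k b ≠ 0 ∧ T b = k b • (b : L2)) ∧ (∀ a > 0, {b : B | a ≤ |k b|}.Finite) ∧
    ∀ x : L2, (∀ b : B, inner ℝ (b : L2) x = 0) → T x = 0

def S_EXB : Prop := ∀ Ω : Set ℂ, IsOpen Ω → Bornology.IsBounded Ω → Ω.Nonempty →
  ∃ lam u, Basis' Ω lam u

end Pool.Agent.P.MP_6b977f_mp.EB
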