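import Pool.Agent.P.MP_6b977f_mp.EB.IfS

/-! Boundary forms: the rank-one matrices of the flat piece lie in the span of the forms. -/

namespace Pool.Agent.P.MP_6b977f_mp.EB

open Real MeasureTheory Filter Topology Laplacian Set Metric
open scoped ContDiff BoundedContinuousFunction ComplexConjugate Pointwise ENNReal

theorem la2_ex_smooth : ContDiff ℝ ∞ ex := by
  unfold ex
  exact (Complex.contDiff_exp (𝕜 := ℝ)).comp (Complex.ofRealCLM.contDiff.mul contDiff_const)

theorem la2_ex_per : Function.Periodic ex (2 * π) := by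
  intro t
  unfold ex
  rw [show ((t + 2 * π : ℝ) : ℂ) * Complex.I = t * Complex.I + 2 * π * Complex.I by
    push_cast; ring, Complex.exp_add, Complex.exp_two_pi_mul_I, mul_one]

theorem la2_arg_ex {ρ : ℝ → ℝ} (h : Function.Periodic ρ (2 * π)) (θ : ℝ) :
    ρ (ex θ).arg = ρ θ := by
  unfold ex
  rw [Complex.arg_exp_mul_I, ← self_sub_toIocDiv_zsmul]
  exact h.sub_zsmul_eq _

theorem la2_polar (z : ℂ) : (‖z‖ : ℂ) * ex z.arg = z := Complex.norm_mul_exp_arg_mul_I z

theorem la2_norm {ρ : ℝ → ℝ} {c : ℂ} {r : ℝ} (htab : S_TAB) (hρ : CP ρ)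
    (hF : Flat (table ρ) c r) {z : ℂ} (hz : z ∈ ball c r) (him : z.im = c.im) :
    Real.exp (ρ z.arg) = ‖z‖ := by
  obtain ⟨-, -, -, -, -, -, h7, -⟩ := htab ρ hρ
  obtain ⟨hr, hc, hF⟩ := hF
  apply le_antisymm
  · by_contra hlt
    push Not at hlt
    have := (h7 ‖z‖ z.arg (norm_nonneg z)).2 hlt
    rw [la2_polar] at this
    have := (hF z hz).1 this
    linarith
  · have ht : Tendsto (fun s : ℝ => s * ‖z‖) (𝓝[<] 1) (𝓝 (1 * ‖z‖)) :=
      ((continuous_id.mul continuous_const).tendsto 1).mono_left nhdsWithin_le_nhds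
    rw [one_mul] at ht
    refine le_of_tendsto ht ?_
    have hc1 : Tendsto (fun s : ℝ => (s : ℂ) * z) (𝓝 1) (𝓝 (((1 : ℝ) : ℂ) * z)) :=
      (Complex.continuous_ofReal.mul continuous_const).tendsto 1
    rw [Complex.ofReal_one, one_mul] at hc1
    have e1 : ∀ᶠ s : ℝ in 𝓝[<] 1, (s : ℂ) * z ∈ ball c r :=
      nhdsWithin_le_nhds (hc1 (isOpen_ball.mem_nhds hz))
    have e2 : ∀ᶠ s : ℝ in 𝓝[<] 1, 0 < s :=
      nhdsWithin_le_nhds (lt_mem_nhds (by norm_num : (0 : ℝ) < 1))
    filter_upwards [e1, e2, self_mem_nhdsWithin] with s h1 h2 h3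
    have h3' : s < 1 := h3
    have hin : (s : ℂ) * z ∈ table ρ := by
      rw [hF _ h1]
      simp only [Complex.mul_im, Complex.ofReal_re, Complex.ofReal_im, zero_mul, add_zero, him]
      nlinarith
    have := (h7 (s * ‖z‖) z.arg (by positivity)).1 (by
      rw [Complex.ofReal_mul, mul_assoc, la2_polar]; exact hin)
    exact this.le

theorem la2_bump {ρ : ℝ → ℝ} {c : ℂ} {r : ℝ} (htab : S_TAB) (hρ : CP ρ)
    (hF : Flat (table ρ) c r) {s0 η : ℝ} (hs : |s0 - c.re| < r / 4) (hη : 0 < η) :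
    ∃ δ : ℝ → ℝ, ContDiff ℝ ∞ δ ∧ Function.Periodic δ (2 * π) ∧
      (∀ θ, δ θ ≠ 0 → bd ρ θ ∈ ball c (r / 4)) ∧ (∀ θ, 0 ≤ δ θ) ∧
      0 < δ (s0 + c.im * Complex.I : ℂ).arg ∧
      ∀ σ : ℝ, δ (σ + c.im * Complex.I : ℂ).arg ≠ 0 → |σ - s0| < η := by
  have hr := hF.1
  have hc : c.im < 0 := by linarith [hF.2.1]
  set z0 : ℂ := s0 + c.im * Complex.I with hz0
  have hdist : dist z0 c = |s0 - c.re| := by
    rw [dist_eq_norm, show z0 - c = ((s0 - c.re : ℝ) : ℂ) by
      apply Complex.ext <;> simp [hz0], Complex.norm_real, Real.norm_eq_abs]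
  have hz4 : z0 ∈ ball c (r / 4) := by rw [mem_ball, hdist]; exact hs
  have hz1 : z0 ∈ ball c r := by rw [mem_ball, hdist]; linarith
  have hnorm := la2_norm htab hρ hF hz1 (by simp [hz0])
  set n0 : ℂ := ex z0.arg with hn0
  have hne : ∀ θ, ex θ ≠ 0 := fun θ => Complex.exp_ne_zero _
  -- the boundary point in a given direction
  have hG : ContinuousAt (fun w : ℂ => (Real.exp (ρ w.arg) : ℂ) * w) n0 := by
    obtain ⟨-, -, -, -, -, -, -, h8, -⟩ := htab ρ hρ
    have h1 : ContinuousAt (fun w : ℂ => ρ w.arg) n0 :=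
      h8.continuousAt (isOpen_compl_singleton.mem_nhds (hne _))
    exact (Complex.continuous_ofReal.continuousAt.comp
      (Real.continuous_exp.continuousAt.comp h1)).mul continuousAt_id
  have hG0 : (Real.exp (ρ n0.arg) : ℂ) * n0 = z0 := by
    rw [hn0, la2_arg_ex hρ.2, hnorm, la2_polar]
  -- the abscissa in a given direction
  have hP : ∀ σ : ℝ, c.im * (ex (σ + c.im * Complex.I : ℂ).arg).re /
      (ex (σ + c.im * Complex.I : ℂ).arg).im = σ ∧ (ex (σ + c.im * Complex.I : ℂ).arg).im ≠ 0 := by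
    intro σ
    set z : ℂ := σ + c.im * Complex.I with hz
    have h1 := congrArg Complex.re (la2_polar z)
    have h2 := congrArg Complex.im (la2_polar z)
    simp only [Complex.mul_re, Complex.mul_im, Complex.ofReal_re, Complex.ofReal_im, zero_mul,
      sub_zero, add_zero] at h1 h2
    have e1 : z.re = σ := by simp [hz]
    have e2 : z.im = c.im := by simp [hz]
    rw [e1] at h1
    rw [e2] at h2
    have h3 : (ex z.arg).im ≠ 0 := by
      intro h
      rw [h, mul_zero] at h2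
      linarith
    refine ⟨?_, h3⟩
    rw [div_eq_iff h3, ← h1, ← h2]
    ring
  have hPc : ContinuousAt (fun w : ℂ => c.im * w.re / w.im) n0 :=
    ((continuous_const.mul Complex.continuous_re).continuousAt).div
      Complex.continuous_im.continuousAt (hP s0).2
  have E1 : ∀ᶠ w in 𝓝 n0, (Real.exp (ρ w.arg) : ℂ) * w ∈ ball c (r / 4) :=
    hG (by beta_reduce; rw [hG0]; exact isOpen_ball.mem_nhds hz4)
  have E2 : ∀ᶠ w in 𝓝 n0, c.im * w.re / w.im ∈ ball s0 η :=
    hPc (by
      have : c.im * n0.re / n0.im = s0 := (hP s0).1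
      beta_reduce
      rw [this]; exact ball_mem_nhds _ hη)
  obtain ⟨κ, hκ, hball⟩ := Metric.eventually_nhds_iff_ball.1 (E1.and E2)
  let b : ContDiffBump n0 := ⟨κ / 2, κ, by positivity, by linarith⟩
  have hb : ∀ w, b w ≠ 0 → w ∈ ball n0 κ := fun w hw => by
    have : w ∈ Function.support b := hw
    rwa [b.support_eq] at this
  refine ⟨fun θ => b (ex θ), b.contDiff.comp la2_ex_smooth, fun θ => by
    simp only [la2_ex_per θ], fun θ h => ?_, fun θ => b.nonneg, ?_, fun σ h => ?_⟩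
  · have := (hball _ (hb _ h)).1
    rwa [la2_arg_ex hρ.2] at this
  · exact b.pos_of_mem_ball (mem_ball_self hκ)
  · have := (hball _ (hb _ h)).2
    rwa [(hP σ).1, mem_ball, Real.dist_eq] at this

theorem la2_cont {c : ℂ} (hc : c.im < 0) {δ : ℝ → ℝ} (hδ : Continuous δ) :
    Continuous fun σ : ℝ => δ (σ + c.im * Complex.I : ℂ).arg := by
  refine hδ.comp (continuous_iff_continuousAt.2 fun σ => ?_)
  have h1 : ContinuousAt Complex.arg (σ + c.im * Complex.I : ℂ) :=
    Complex.continuousAt_arg (Or.inr (by simpa using hc.ne))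
  exact ContinuousAt.comp (f := fun σ : ℝ => (σ + c.im * Complex.I : ℂ)) h1
    (Complex.continuous_ofReal.add continuous_const).continuousAt

theorem la2_zero {ρ : ℝ → ℝ} {c : ℂ} {r : ℝ} (htab : S_TAB) (hρ : CP ρ)
    (hF : Flat (table ρ) c r) {F : ℝ → ℝ} (hFc : ContinuousOn F (Ioo (c.re - r) (c.re + r)))
    (h0 : ∀ δ : ℝ → ℝ, ContDiff ℝ ∞ δ → Function.Periodic δ (2 * π) →
      (∀ θ, δ θ ≠ 0 → bd ρ θ ∈ ball c (r / 4)) →
      ∫ σ in (c.re - r / 2)..(c.re + r / 2), δ (σ + c.im * Complex.I : ℂ).arg * F σ = 0)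
    {s0 : ℝ} (hs : |s0 - c.re| < r / 4) : F s0 = 0 := by
  have hr := hF.1
  have hc : c.im < 0 := by linarith [hF.2.1]
  have hs' := abs_lt.1 hs
  by_contra hne
  have hat : ContinuousAt (fun σ => F s0 * F σ) s0 :=
    continuousAt_const.mul (hFc.continuousAt (Ioo_mem_nhds (by linarith) (by linarith)))
  have hev : ∀ᶠ σ in 𝓝 s0, 0 < F s0 * F σ := hat (lt_mem_nhds (mul_self_pos.2 hne))
  obtain ⟨η, hη, hball⟩ := Metric.eventually_nhds_iff_ball.1 hev
  obtain ⟨δ, h1, h2, h3, h4, h5, h6⟩ := la2_bump htab hρ hF hs hη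
  have hpos : 0 < ∫ σ in (c.re - r / 2)..(c.re + r / 2),
      F s0 * (δ (σ + c.im * Complex.I : ℂ).arg * F σ) := by
    refine intervalIntegral.integral_pos (by linarith) ?_ (fun σ _ => ?_) ⟨s0, ⟨by linarith,
      by linarith⟩, ?_⟩
    · exact continuousOn_const.mul ((la2_cont hc h1.continuous).continuousOn.mul
        (hFc.mono fun x hx => ⟨by linarith [hx.1], by linarith [hx.2]⟩))
    · by_cases h : δ (σ + c.im * Complex.I : ℂ).arg = 0
      · simp [h]
      · have := hball σ (by rw [mem_ball, Real.dist_eq]; exact h6 σ h)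
        rw [mul_left_comm]
        exact mul_nonneg (h4 _) this.le
    · rw [mul_left_comm]
      exact mul_pos h5 (mul_self_pos.2 hne)
  rw [intervalIntegral.integral_const_mul, h0 δ h1 h2 h3, mul_zero] at hpos
  exact lt_irrefl _ hpos

/-- The matrix of the boundary form. -/
noncomputable def la2_M (c : ℂ) (r : ℝ) {m : ℕ} (ℓ : ℝ → Fin m → ℝ) (δ : ℝ → ℝ) :
    Matrix (Fin m) (Fin m) ℝ :=
  Matrix.of fun i j => c.im * ∫ σ in (c.re - r / 2)..(c.re + r / 2),
    δ (σ + c.im * Complex.I : ℂ).arg * (ℓ σ i * ℓ σ j)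

theorem la2_int {c : ℂ} {r : ℝ} (hr : 0 < r) (hc : c.im < 0) {F δ : ℝ → ℝ}
    (hFc : ContinuousOn F (Ioo (c.re - r) (c.re + r))) (hδ : Continuous δ) :
    IntervalIntegrable (fun σ : ℝ => δ (σ + c.im * Complex.I : ℂ).arg * F σ) volume
      (c.re - r / 2) (c.re + r / 2) := by
  refine ContinuousOn.intervalIntegrable_of_Icc (by linarith) ?_
  exact (la2_cont hc hδ).continuousOn.mul
    (hFc.mono fun x hx => ⟨by linarith [hx.1], by linarith [hx.2]⟩)

theorem t_la2 (hla : S_LA) (htab : S_TAB) : S_LA2 := by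
  intro ρ c r m ℓ u ε hρ hF hℓ hu hε hind
  have hr := hF.1
  have hc : c.im < 0 := by linarith [hF.2.1]
  have hℓi : ∀ i, ContinuousOn (fun σ => ℓ σ i) (Ioo (c.re - r) (c.re + r)) := fun i =>
    (continuous_apply i).comp_continuousOn hℓ
  have hint : ∀ δ : ℝ → ℝ, Continuous δ → ∀ i j, IntervalIntegrable
      (fun σ : ℝ => δ (σ + c.im * Complex.I : ℂ).arg * (ℓ σ i * ℓ σ j)) volume
      (c.re - r / 2) (c.re + r / 2) := fun δ hδ i j =>
    la2_int (F := fun σ => ℓ σ i * ℓ σ j) hr hc ((hℓi i).mul (hℓi j)) hδ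
  let V : Submodule ℝ (Matrix (Fin m) (Fin m) ℝ) :=
    { carrier := {A | ∃ δ : ℝ → ℝ, (ContDiff ℝ ∞ δ ∧ Function.Periodic δ (2 * π) ∧
        (∀ θ, δ θ ≠ 0 → bd ρ θ ∈ ball c (r / 4))) ∧ A = la2_M c r ℓ δ}
      zero_mem' := ⟨fun _ => 0, ⟨contDiff_const, fun _ => rfl, fun _ h => absurd rfl h⟩, by
        ext i j
        simp [la2_M]⟩
      add_mem' := by
        rintro _ _ ⟨δ, ⟨h1, h2, h3⟩, rfl⟩ ⟨δ', ⟨h1', h2', h3'⟩, rfl⟩
        refine ⟨fun θ => δ θ + δ' θ, ⟨h1.add h1', h2.add h2', fun θ h => ?_⟩, ?_⟩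
        · by_cases h0 : δ θ = 0
          · exact h3' θ fun h' => h (by simp [h0, h'])
          · exact h3 θ h0
        · ext i j
          simp only [la2_M, Matrix.add_apply, Matrix.of_apply, add_mul]
          rw [intervalIntegral.integral_add (hint δ h1.continuous i j)
            (hint δ' h1'.continuous i j), mul_add]
      smul_mem' := by
        rintro t _ ⟨δ, ⟨h1, h2, h3⟩, rfl⟩
        refine ⟨fun θ => t * δ θ, ⟨contDiff_const.mul h1, fun θ => by simp only [h2 θ],
          fun θ h => h3 θ (right_ne_zero_of_mul h)⟩, ?_⟩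
        ext i j
        simp only [la2_M, Matrix.smul_apply, Matrix.of_apply, smul_eq_mul, mul_assoc,
          intervalIntegral.integral_const_mul]
        ring }
  have hV : ∀ s, |s - c.re| < r / 4 → Matrix.vecMulVec (ℓ s) (ℓ s) ∈ V := by
    intro s hs
    by_contra hn
    obtain ⟨f, hf, hf0⟩ := V.exists_dual_map_eq_bot_of_notMem hn inferInstance
    have hexp : ∀ A : Matrix (Fin m) (Fin m) ℝ,
        f A = ∑ i, ∑ j, A i j * f (Matrix.single i j 1) := by
      intro A
      conv_lhs => rw [Matrix.matrix_eq_sum_single A]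
      simp only [map_sum]
      refine Finset.sum_congr rfl fun i _ => Finset.sum_congr rfl fun j _ => ?_
      rw [← smul_eq_mul, ← map_smul, Matrix.smul_single, smul_eq_mul, mul_one]
    have := la2_zero htab hρ hF
      (F := fun σ => ∑ i, ∑ j, ℓ σ i * ℓ σ j * f (Matrix.single i j 1))
      (continuousOn_finsetSum _ fun i _ => continuousOn_finsetSum _ fun j _ =>
        ((hℓi i).mul (hℓi j)).mul continuousOn_const) (fun δ h1 h2 h3 => ?_) hs
    · apply hf
      rw [hexp]
      simpa only [Matrix.vecMulVec_apply] using this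
    · have hz : f (la2_M c r ℓ δ) = 0 := by
        have : f (la2_M c r ℓ δ) ∈ V.map f := Submodule.mem_map_of_mem ⟨δ, ⟨h1, h2, h3⟩, rfl⟩
        rwa [hf0, Submodule.mem_bot] at this
      rw [hexp] at hz
      have e : ∫ σ in (c.re - r / 2)..(c.re + r / 2), δ (σ + c.im * Complex.I : ℂ).arg *
          ∑ i, ∑ j, ℓ σ i * ℓ σ j * f (Matrix.single i j 1) =
          ∑ i, ∑ j, (∫ σ in (c.re - r / 2)..(c.re + r / 2), δ (σ + c.im * Complex.I : ℂ).arg *
            (ℓ σ i * ℓ σ j)) * f (Matrix.single i j 1) := by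
        simp only [Finset.mul_sum, ← mul_assoc _ (_ * _) (f _)]
        rw [intervalIntegral.integral_finsetSum fun i _ => ?_]
        · refine Finset.sum_congr rfl fun i _ => ?_
          rw [intervalIntegral.integral_finsetSum fun j _ =>
            (hint δ h1.continuous i j).mul_const _]
          simp only [intervalIntegral.integral_mul_const]
        · have := IntervalIntegrable.sum Finset.univ (fun j _ =>
            (hint δ h1.continuous i j).mul_const (f (Matrix.single i j 1)))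
          rwa [Finset.sum_fn] at this
      rw [e]
      apply mul_left_cancel₀ hc.ne
      rw [mul_zero, ← hz]
      simp only [la2_M, Matrix.of_apply, Finset.mul_sum, mul_assoc]
  obtain ⟨s1, hs1, hs1u⟩ : ∃ s, |s - c.re| < r / 4 ∧ ∑ i, u i * ℓ s i ≠ 0 := by
    by_contra hn
    push Not at hn
    exact hu (hind u (c.re - r / 4) (c.re + r / 4) (by linarith) (by linarith) (by linarith)
      fun σ hσ => hn σ (abs_lt.2 ⟨by linarith [hσ.1], by linarith [hσ.2]⟩))
  have hx1 : ℓ s1 ≠ 0 := fun h => hs1u (by simp [h])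
  have hs1' := abs_lt.1 hs1
  have honto : ∀ v, ∃ A ∈ V, A.mulVec (ℓ s1) = v := by
    intro v0
    by_contra hn
    let L : Matrix (Fin m) (Fin m) ℝ →ₗ[ℝ] (Fin m → ℝ) :=
      { toFun := fun A => A.mulVec (ℓ s1)
        map_add' := fun A B => Matrix.add_mulVec A B _
        map_smul' := fun t A => Matrix.smul_mulVec t A _ }
    have hn' : v0 ∉ V.map L := hn
    obtain ⟨f, hf, hf0⟩ := (V.map L).exists_dual_map_eq_bot_of_notMem hn' inferInstance
    have hat : ContinuousAt (fun σ => ∑ i, ℓ σ i * ℓ s1 i) s1 :=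
      (continuousOn_finsetSum _ fun i _ => (hℓi i).mul continuousOn_const).continuousAt
        (Ioo_mem_nhds (by linarith) (by linarith))
    have hne : ∑ i, ℓ s1 i * ℓ s1 i ≠ 0 := fun h => hx1 (dotProduct_self_eq_zero.1 h)
    have E1 : ∀ᶠ σ in 𝓝 s1, ∑ i, ℓ σ i * ℓ s1 i ≠ 0 := hat.eventually_ne hne
    have E2 : ∀ᶠ σ in 𝓝 s1, σ ∈ Ioo (c.re - r / 4) (c.re + r / 4) :=
      Ioo_mem_nhds (by linarith) (by linarith)
    obtain ⟨η, hη, hball⟩ := Metric.eventually_nhds_iff_ball.1 (E1.and E2)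
    have hv := hind (fun i => f fun j => if i = j then 1 else 0) (s1 - min η (r / 4))
      (s1 + min η (r / 4)) (by linarith [lt_min hη (by linarith : 0 < r / 4)])
      (by linarith [min_le_right η (r / 4)]) (by linarith [min_le_right η (r / 4)]) fun σ hσ => ?_
    · apply hf
      rw [f.pi_apply_eq_sum_univ v0]
      refine Finset.sum_eq_zero fun i _ => ?_
      rw [congrFun hv i]
      simp
    · obtain ⟨e1, e2⟩ := hball σ (by
        rw [mem_ball, Real.dist_eq, abs_lt]
        constructor <;> linarith [hσ.1, hσ.2, min_le_left η (r / 4)])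
      have hm : f (L (Matrix.vecMulVec (ℓ σ) (ℓ σ))) ∈ (V.map L).map f :=
        Submodule.mem_map_of_mem (Submodule.mem_map_of_mem
          (hV σ (abs_lt.2 ⟨by linarith [e2.1], by linarith [e2.2]⟩)))
      rw [hf0, Submodule.mem_bot] at hm
      have e : L (Matrix.vecMulVec (ℓ σ) (ℓ σ)) = (∑ i, ℓ σ i * ℓ s1 i) • ℓ σ := by
        ext i
        simp only [L, LinearMap.coe_mk, AddHom.coe_mk, Matrix.mulVec, dotProduct,
          Matrix.vecMulVec_apply, Pi.smul_apply, smul_eq_mul, Finset.sum_mul]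
        exact Finset.sum_congr rfl fun j _ => by ring
      rw [e, map_smul, smul_eq_mul, mul_eq_zero] at hm
      have h0 := hm.resolve_left e1
      rw [f.pi_apply_eq_sum_univ] at h0
      exact (Finset.sum_congr rfl fun i _ => by rw [smul_eq_mul, mul_comm]).trans h0
  obtain ⟨x, A, μ, ⟨δ, ⟨h1, h2, h3⟩, rfl⟩, hxu, hx0, hx⟩ :=
    hla m V (ℓ s1) u ε hx1 (hV s1 hs1) honto hε
  refine ⟨δ, x, μ, h1, h2, h3, hxu, hx0, fun v => ?_⟩
  rw [← hx v, funext_iff]
  rfl

end Pool.Agent.P.MP_6b977f_mp.EB
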