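import Pool.Agent.P.MP_6b977f_mp.EB.IfS

/-! Weak limits of `H¹₀` functions on converging tables. -/

namespace Pool.Agent.P.MP_6b977f_mp.EB

open Real MeasureTheory Filter Topology Laplacian Set Metric
open scoped ContDiff BoundedContinuousFunction ComplexConjugate Pointwise ENNReal

theorem mosco_closed (hhb1 : S_HB1) (Ω : Set ℂ) :
    IsClosed {p : L2 × Lp ℂ 2 (volume : Measure ℂ) | H10 Ω p.1 p.2} :=
  IsSeqClosed.isClosed fun p _ hp h => hhb1.2.2.2.2.2.2.1 Ω (fun n => (p n).1) (fun n => (p n).2)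
    _ _ hp (Lp.memLp _) (Lp.memLp _) ((Lp.tendsto_Lp_iff_tendsto_eLpNorm' _ _).1 h.fst_nhds)
    ((Lp.tendsto_Lp_iff_tendsto_eLpNorm' _ _).1 h.snd_nhds)

theorem mosco_convex (hhb1 : S_HB1) (Ω : Set ℂ) :
    Convex ℝ {p : L2 × Lp ℂ 2 (volume : Measure ℂ) | H10 Ω p.1 p.2} := by
  intro p hp q hq a b _ _ _
  refine hhb1.2.2.1 Ω _ _ _ _ (hhb1.1 Ω _ _ _ _ (hhb1.2.1 Ω _ _ a hp) (hhb1.2.1 Ω _ _ b hq)) ?_ ?_
  · filter_upwards [Lp.coeFn_add (a • p.1) (b • q.1), Lp.coeFn_smul a p.1, Lp.coeFn_smul b q.1]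
      with x h1 h2 h3
    refine Eq.trans ?_ h1.symm
    simp [h2, h3]
  · filter_upwards [Lp.coeFn_add (a • p.2) (b • q.2), Lp.coeFn_smul a p.2, Lp.coeFn_smul b q.2]
      with x h1 h2 h3
    refine Eq.trans ?_ h1.symm
    simp [h2, h3]

theorem mosco_mem (hhb1 : S_HB1) {Ω : Set ℂ} {f : ℂ → ℝ} {g : ℂ → ℂ} (hf : MemLp f 2 volume)
    (hg : MemLp g 2 volume) : H10 Ω (hf.toLp f) (hg.toLp g) ↔ H10 Ω f g :=
  ⟨fun h => hhb1.2.2.1 Ω _ _ _ _ h hf.coeFn_toLp hg.coeFn_toLp,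
    fun h => hhb1.2.2.1 Ω _ _ _ _ h hf.coeFn_toLp.symm hg.coeFn_toLp.symm⟩

theorem mosco_weak (hhb1 : S_HB1) {Ω : Set ℂ} {f : ℕ → ℂ → ℝ} {g : ℕ → ℂ → ℂ} {f₀ : ℂ → ℝ}
    {g₀ : ℂ → ℂ} (mf : ∀ n, MemLp (f n) 2 volume) (mg : ∀ n, MemLp (g n) 2 volume)
    (h : ∀ᶠ n in atTop, H10 Ω (f n) (g n)) (hf : MemLp f₀ 2 volume) (hg : MemLp g₀ 2 volume)
    (tf : Tendsto (fun n => eLpNorm (f n - f₀) 2 volume) atTop (𝓝 0))
    (tg : ∀ v : ℂ → ℂ, MemLp v 2 volume →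
      Tendsto (fun n => ∫ x, inner ℝ (g n x) (v x)) atTop (𝓝 (∫ x, inner ℝ (g₀ x) (v x)))) :
    H10 Ω f₀ g₀ := by
  by_contra hc
  obtain ⟨φ, u, h1, h2⟩ := geometric_hahn_banach_point_closed (mosco_convex hhb1 Ω)
    (mosco_closed hhb1 Ω) (x := (hf.toLp f₀, hg.toLp g₀)) fun h => hc ((mosco_mem hhb1 hf hg).1 h)
  obtain ⟨v, hv⟩ := (InnerProductSpace.toDual ℝ (Lp ℂ 2 (volume : Measure ℂ))).surjective
    (φ.comp (ContinuousLinearMap.inr ℝ _ _))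
  have e : ∀ (x : L2) (G : ℂ → ℂ) (hG : MemLp G 2 volume),
      φ (x, hG.toLp G) = φ (x, 0) + ∫ z, inner ℝ (G z) (v z) := fun x G hG => by
    have a1 : inner ℝ v (hG.toLp G) = φ (0, hG.toLp G) := congrArg (· (hG.toLp G)) hv
    rw [real_inner_comm, L2.inner_def, integral_congr_ae
      (hG.coeFn_toLp.mono fun z hz => congrArg (inner ℝ · (v z)) hz)] at a1
    rw [a1, ← map_add, Prod.mk_add_mk, add_zero, zero_add]
  have t1 := (φ.continuous.tendsto _).comp (((Lp.tendsto_Lp_iff_tendsto_eLpNorm'' f mf f₀ hf).2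
    tf).prodMk_nhds (tendsto_const_nhds (x := 0)))
  rw [e] at h1
  refine h1.not_ge (ge_of_tendsto (t1.add (tg v (Lp.memLp v))) (h.mono fun n hn => ?_))
  exact (h2 ((mf n).toLp _, (mg n).toLp _) ((mosco_mem hhb1 (mf n) (mg n)).2 hn)).le.trans_eq
    (e _ _ _)

theorem t_mosco (hdil : S_DIL) (hhb1 : S_HB1) (htab : S_TAB) : S_MOSCO := by
  intro ρ σ f g f₀ g₀ hρ hu h hf hg tf tg
  have h1 : ∀ a : ℝ, 0 < a → H10 (table ρ) (fun x => f₀ (Real.exp a * x + 0))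
      fun x => Real.exp a * g₀ (Real.exp a * x + 0) := fun a a0 => by
    have h2 := hdil.1 _ _ _ _ (inv_pos.2 (Real.exp_pos a)) (mosco_weak hhb1
      (Ω := table fun x => ρ x + a) (fun n => (h n).1) (fun n => (h n).2.1) ?_ hf hg tf tg)
    · rw [(htab ρ hρ).2.2.2.2.2.2.2.2.1, inv_smul_smul₀ (Real.exp_pos a).ne'] at h2
      simpa only [Complex.ofReal_inv, div_inv_eq_mul, add_zero, mul_comm] using h2
    · filter_upwards [Metric.tendstoUniformly_iff.1 hu a a0] with n hn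
      refine hhb1.2.2.2.1 _ _ _ _ (fun z hz => lt_of_lt_of_le hz (Real.exp_le_exp.2 ?_)) (h n)
      linarith [(abs_lt.1 (hn z.arg)).1]
  obtain ⟨b, tb, b0, h2⟩ : ∃ b : ℕ → ℝ, Tendsto b atTop (𝓝 1) ∧ (∀ k, (b k : ℂ) ≠ 0) ∧
      ∀ k, H10 (table ρ) (fun x => f₀ (b k * x + 0)) fun x => b k * g₀ (b k * x + 0) :=
    ⟨_, (Real.continuous_exp.tendsto' 0 1 Real.exp_zero).comp
      tendsto_one_div_add_atTop_nhds_zero_nat, fun k => Complex.ofReal_ne_zero.2 (Real.exp_pos _).ne',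
      fun k => h1 _ Nat.one_div_pos_of_nat⟩
  have tp := tb.prodMk_nhds (tendsto_const_nhds (x := (0 : ℂ)))
  have h3 : ∀ k, MemLp (fun x : ℂ => g₀ (b k * x + 0)) 2 volume := fun k => by
    simpa only [inv_mul_cancel_left₀ (b0 k)] using (h2 k).2.1.const_mul (b k : ℂ)⁻¹
  have t1 := (Lp.tendsto_Lp_iff_tendsto_eLpNorm'' _ (fun k => (h2 k).1) f₀ hf).2
    (((hdil.2.2.1 f₀ hf).comp tp).congr fun _ => rfl)
  have t2 := tb.smul ((Lp.tendsto_Lp_iff_tendsto_eLpNorm'' _ h3 g₀ hg).2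
    (((hdil.2.2.2 g₀ hg).comp tp).congr fun _ => rfl))
  rw [one_smul] at t2
  refine (mosco_mem hhb1 hf hg).1 ((mosco_closed hhb1 _).mem_of_tendsto (t1.prodMk_nhds t2)
    (Eventually.of_forall fun k => hhb1.2.2.1 _ _ _ _ _ (h2 k) (h2 k).1.coeFn_toLp.symm ?_))
  filter_upwards [Lp.coeFn_smul (b k) ((h3 k).toLp _), (h3 k).coeFn_toLp] with x a1 a2
  rw [a1, Pi.smul_apply, a2, Complex.real_smul]

end Pool.Agent.P.MP_6b977f_mp.EB
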