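import Pool.Agent.P.MP_6b977f_mp.EB.IfE

/-! The invariant measure of the larger table on the chords that meet the smaller table. -/

namespace Pool.Agent.P.MP_6b977f_mp.EB

open Real MeasureTheory Filter Topology Set Metric
open scoped ContDiff BoundedContinuousFunction ComplexConjugate Pointwise ENNReal

noncomputable section

def ms_S (Ω Ω' : Set ℂ) : Set ((ℂ × ℂ) × ℝ) :=
  {p | p.2 ∈ Ioo 0 (tp Ω' p.1.1 p.1.2) ∧ p.1.1 + p.2 * p.1.2 ∈ Ω}

def ms_L (Ω Ω' : Set ℂ) (y : ℂ × ℂ) : ℝ≥0∞ := volume (Prod.mk y ⁻¹' ms_S Ω Ω')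

theorem ms_Ioo {Ω : Set ℂ} (h : Measurable fun x : ℂ × ℂ => tp Ω x.1 x.2) :
    MeasurableSet {p : (ℂ × ℂ) × ℝ | p.2 ∈ Ioo 0 (tp Ω p.1.1 p.1.2)} :=
  (measurableSet_lt measurable_const measurable_snd).inter
    (measurableSet_lt measurable_snd (h.comp measurable_fst))

theorem ms_measL {Ω Ω' : Set ℂ} (hΩ : IsOpen Ω) (h : Measurable fun x : ℂ × ℂ => tp Ω' x.1 x.2) :
    Measurable (ms_L Ω Ω') := by
  refine measurable_measure_prodMk_left ((ms_Ioo h).inter ?_)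
  exact (show Measurable fun p : (ℂ × ℂ) × ℝ => p.1.1 + p.2 * p.1.2 by fun_prop)
    hΩ.measurableSet

theorem ms_fin (Ω Ω' : Set ℂ) (y : ℂ × ℂ) : ms_L Ω Ω' y ≠ ⊤ :=
  ((measure_mono fun _ ht => ht.1).trans_lt (measure_Ioo_lt_top (a := 0)
    (b := tp Ω' y.1 y.2))).ne

theorem ms_open {Ω : Set ℂ} (hΩ : IsOpen Ω) (y : ℂ × ℂ) :
    IsOpen {t : ℝ | y.1 + t * y.2 ∈ Ω} :=
  hΩ.preimage (show Continuous fun t : ℝ => y.1 + t * y.2 by fun_prop)

theorem ms_pos {Ω Ω' : Set ℂ} (hΩ : IsOpen Ω) (y : ℂ × ℂ) : ms_L Ω Ω' y ≠ 0 ↔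
    ∃ t ∈ Ioo 0 (tp Ω' y.1 y.2), y.1 + (t : ℝ) * y.2 ∈ Ω :=
  pos_iff_ne_zero.symm.trans
    (((isOpen_Ioo (a := 0) (b := tp Ω' y.1 y.2)).inter (ms_open hΩ y)).measure_pos_iff volume)

theorem ms_lam {Ω : Set ℂ} (hΩ : IsOpen Ω) (h : Measurable fun x : ℂ × ℂ => tp Ω x.1 x.2) :
    Measurable (lam Ω) := by
  refine Measurable.prodMk (measurable_fst.sub (Measurable.mul ?_ measurable_snd)) measurable_snd
  refine Complex.measurable_ofReal.comp (Measurable.ite (measurable_fst hΩ.measurableSet) ?_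
    measurable_const)
  have h2 : Measurable fun x : ℂ × ℂ => (x.1, -x.2) := measurable_fst.prodMk measurable_snd.neg
  exact Measurable.comp (g := fun x : ℂ × ℂ => tp Ω x.1 x.2) (f := fun x : ℂ × ℂ => (x.1, -x.2))
    h h2

theorem ms_out (htp : S_TP) {Ω : Set ℂ} (hΩ : IsOpen Ω) (hb : Bornology.IsBounded Ω) {y : ℂ × ℂ}
    (hy : y.2 ≠ 0) : (lam Ω y).1 ∉ Ω := by
  obtain ⟨-, h1, h2, -⟩ := (htp Ω hΩ hb).2.2.2 y.1 (-y.2) (neg_ne_zero.2 hy)
  by_cases h : y.1 ∈ Ω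
  · have := h1 (h2 h)
    simpa [lam, h, sub_eq_add_neg] using this
  · simp [lam, h]

theorem ms_chord (htp : S_TP) {Ω : Set ℂ} (hΩ : IsOpen Ω) (hb : Bornology.IsBounded Ω) {z v : ℂ}
    (hv : v ≠ 0) (hz : z ∉ Ω) {t : ℝ} (ht : t ∈ Ioo 0 (tp Ω z v)) :
    lam Ω (z + t * v, v) = (z, v) := by
  obtain ⟨h1, -, -, -, -, h2⟩ := (htp Ω hΩ hb).2.2.2 z v hv
  simp [lam, h1 t ht, (h2 t ht).2 hz]

theorem t_ms (hsan : S_SAN) (hbm : S_BM) (htp : S_TP) (htab : S_TAB) : S_MS := by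
  intro ρ ρ' Z σ σ' Z' m ι T hρ hσ hsub hι hm hE
  obtain ⟨o1, b1, -⟩ := htab ρ hρ.cp
  obtain ⟨o2, b2, -, -, -, -, k2, -⟩ := htab σ hσ.cp
  have m1 := (htp _ o1 b1).1
  have m2 := (htp _ o2 b2).1
  have hl := ms_lam o2 m2
  have hL := ms_measL o1 m2
  have := hbm.1.1
  have hEm : MeasurableSet {y : ℂ × ℂ |
      ∃ t ∈ Ioo 0 (tp (table σ) y.1 y.2), y.1 + (t : ℝ) * y.2 ∈ table ρ} := by
    have : {y : ℂ × ℂ | ∃ t ∈ Ioo 0 (tp (table σ) y.1 y.2), y.1 + (t : ℝ) * y.2 ∈ table ρ} =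
        (ms_L (table ρ) (table σ) ⁻¹' {0})ᶜ := by
      ext y; exact (ms_pos o1 y).symm
    rw [this]
    exact (hL (measurableSet_singleton _)).compl
  refine ⟨hl, hEm, Measure.ext_of_lintegral _ fun F hF => ?_⟩
  have hs : MeasurableSet (table ρ ×ˢ (univ : Set ℂ)) := o1.measurableSet.prod MeasurableSet.univ
  set G : ℂ × ℂ → ℝ≥0∞ := (table ρ ×ˢ univ).indicator
    fun x => F (lam (table σ) x) / ms_L (table ρ) (table σ) (lam (table σ) x) with hG
  have hGm : Measurable G := ((hF.comp hl).div (hL.comp hl)).indicator hs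
  have e1 := (hsan σ σ' Z' hσ).1 G hGm
  have e2 := (hsan ρ ρ' Z hρ).1 G hGm
  have e3 : ∫⁻ x, G x ∂liou (table σ) = ∫⁻ x, G x ∂liou (table ρ) := by
    rw [hG, lintegral_indicator hs, lintegral_indicator hs, liou, liou,
      ← Measure.restrict_prod_eq_prod_univ, ← Measure.restrict_prod_eq_prod_univ,
      Measure.restrict_restrict o1.measurableSet, Measure.restrict_restrict o1.measurableSet,
      inter_eq_left.2 hsub, inter_self]
  have hI : Measurable fun x : ℂ × ℂ =>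
      ∫⁻ t in Ioo 0 (tp (table ρ) x.1 x.2), G (x.1 + t * x.2, x.2) := by
    have h1 : Measurable ({p : (ℂ × ℂ) × ℝ | p.2 ∈ Ioo 0 (tp (table ρ) p.1.1 p.1.2)}.indicator
        fun p => G (p.1.1 + p.2 * p.1.2, p.1.2)) :=
      (hGm.comp (by fun_prop)).indicator (ms_Ioo m1)
    have h2 := h1.lintegral_prod_right' (ν := volume)
    simp only [← lintegral_indicator measurableSet_Ioo]
    exact h2
  rw [← lintegral_indicator hEm, lintegral_map (g := fun x => lam (table σ) (ι x)) hF (hl.comp hι)]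
  rw [hm, lintegral_map hI hι] at e2
  calc _ = _ := lintegral_congr_ae ?_
    _ = _ := e1.symm
    _ = _ := e3
    _ = _ := e2
    _ = _ := lintegral_congr_ae ?_
  · filter_upwards [(hbm.2 σ σ' Z' hσ).2.2.1] with y ⟨hy, φ, hφ, _⟩
    have hv : y.2 ≠ 0 := norm_ne_zero_iff.1 (by rw [hy]; exact one_ne_zero)
    have hz : y.1 ∉ table σ := by
      rw [hφ, bd, k2 _ _ (Real.exp_pos _).le]; exact lt_irrefl _
    have h1 : ∫⁻ t in Ioo 0 (tp (table σ) y.1 y.2), G (y.1 + t * y.2, y.2) =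
        ∫⁻ t in Ioo 0 (tp (table σ) y.1 y.2), {t : ℝ | y.1 + t * y.2 ∈ table ρ}.indicator
          (fun _ => F y / ms_L (table ρ) (table σ) y) t := by
      refine setLIntegral_congr_fun measurableSet_Ioo fun t ht => ?_
      by_cases h : y.1 + t * y.2 ∈ table ρ
      · simp [hG, h, ms_chord htp o2 b2 hv hz ht]
      · simp [hG, h]
    rw [h1, lintegral_indicator_const (ms_open o1 y).measurableSet,
      Measure.restrict_apply (ms_open o1 y).measurableSet, inter_comm]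
    change _ = _ * ms_L (table ρ) (table σ) y
    by_cases h : ms_L (table ρ) (table σ) y = 0
    · rw [h, mul_zero, indicator_of_notMem]
      exact fun h' => (ms_pos o1 y).2 h' h
    · rw [ENNReal.div_mul_cancel h (ms_fin _ _ _), indicator_of_mem]
      exact (ms_pos o1 y).1 h
  · have ha := (hbm.2 ρ ρ' Z hρ).2.2.1
    rw [hm] at ha
    filter_upwards [ae_of_ae_map hι.aemeasurable ha, hE] with x ⟨hy, _, _, _, _, h0⟩
      ⟨⟨a, a0, a1, a2, a3⟩, _⟩
    set y := ι x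
    have hv : y.2 ≠ 0 := norm_ne_zero_iff.1 (by rw [hy]; exact one_ne_zero)
    have hz := ms_out htp o2 b2 hv
    rw [a1] at hz ⊢
    have hLw : ms_L (table ρ) (table σ) (y.1 - a * y.2, y.2) =
        ENNReal.ofReal (tp (table ρ) y.1 y.2) := by
      have : Prod.mk (y.1 - a * y.2, y.2) ⁻¹' ms_S (table ρ) (table σ) =
          Ioo a (a + tp (table ρ) y.1 y.2) := by
        ext t
        constructor
        · exact fun h => (a3 t h.1).1 h.2
        · intro h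
          have ht : t ∈ Ioo 0 (tp (table σ) (y.1 - a * y.2) y.2) :=
            ⟨a0.trans_lt h.1, h.2.trans_le a2⟩
          exact ⟨ht, (a3 t ht).2 h⟩
      rw [ms_L, this, Real.volume_Ioo, add_sub_cancel_left]
    have h1 : ∫⁻ t in Ioo 0 (tp (table ρ) y.1 y.2), G (y.1 + t * y.2, y.2) =
        ∫⁻ _ in Ioo 0 (tp (table ρ) y.1 y.2),
          F (y.1 - a * y.2, y.2) / ENNReal.ofReal (tp (table ρ) y.1 y.2) := by
      refine setLIntegral_congr_fun measurableSet_Ioo fun t ht => ?_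
      have h2 := ((htp _ o1 b1).2.2.2 y.1 y.2 hv).1 t ht
      have h3 := ms_chord htp o2 b2 hv hz (t := a + t)
        ⟨by linarith [ht.1], lt_of_lt_of_le (by linarith [ht.2]) a2⟩
      have e : y.1 - a * y.2 + ((a + t : ℝ) : ℂ) * y.2 = y.1 + t * y.2 := by push_cast; ring
      rw [e] at h3
      simp [hG, h2, h3, hLw]
    rw [h1, setLIntegral_const, Real.volume_Ioo, sub_zero,
      ENNReal.div_mul_cancel (by simpa using h0) ENNReal.ofReal_ne_top]

end

end Pool.Agent.P.MP_6b977f_mp.EB
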