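import Pool.Agent.P.MP_6b977f_mp.EB.IfB

/-! Taylor formula for ladders. -/

namespace Pool.Agent.P.MP_6b977f_mp.EB

open Real MeasureTheory Filter Topology Laplacian Set Metric
open scoped ContDiff BoundedContinuousFunction ComplexConjugate Pointwise ENNReal

noncomputable section

def tay_T (α β : ℂ) (v : ℤ → ℂ) (k : ℕ) (m : ℤ) : ℂ :=
  ∑ ab ∈ Finset.HasAntidiagonal.antidiagonal k,
    α ^ ab.1 * β ^ ab.2 / (ab.1.factorial * ab.2.factorial) * v (m + ab.1 - ab.2)

theorem tay_rec (α β : ℂ) (v : ℤ → ℂ) (k : ℕ) (m : ℤ) :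
    ((k : ℂ) + 1) * tay_T α β v (k + 1) m =
      α * tay_T α β v k (m + 1) + β * tay_T α β v k (m - 1) := by
  have h1 : ((k : ℂ) + 1) * tay_T α β v (k + 1) m =
      (∑ ab ∈ Finset.HasAntidiagonal.antidiagonal (k + 1), (ab.1 : ℂ) *
        (α ^ ab.1 * β ^ ab.2 / (ab.1.factorial * ab.2.factorial) * v (m + ab.1 - ab.2))) +
      ∑ ab ∈ Finset.HasAntidiagonal.antidiagonal (k + 1), (ab.2 : ℂ) *
        (α ^ ab.1 * β ^ ab.2 / (ab.1.factorial * ab.2.factorial) * v (m + ab.1 - ab.2)) := by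
    rw [tay_T, Finset.mul_sum, ← Finset.sum_add_distrib]
    refine Finset.sum_congr rfl fun ab hab => ?_
    have : (ab.1 : ℂ) + ab.2 = k + 1 := by exact_mod_cast Finset.HasAntidiagonal.mem_antidiagonal.1 hab
    rw [← this]; ring
  rw [h1, Finset.Nat.sum_antidiagonal_succ, Finset.Nat.sum_antidiagonal_succ', tay_T, tay_T,
    Finset.mul_sum, Finset.mul_sum]
  simp only [Nat.cast_zero, zero_mul, zero_add]
  congr 1
  · refine Finset.sum_congr rfl fun ab _ => ?_
    have e : m + ((ab.1 + 1 : ℕ) : ℤ) - ab.2 = m + 1 + ab.1 - ab.2 := by push_cast; ring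
    have h0 : ((ab.1 : ℂ) + 1) ≠ 0 := by exact_mod_cast Nat.succ_ne_zero ab.1
    have h2 : (ab.1.factorial : ℂ) ≠ 0 := by exact_mod_cast ab.1.factorial_ne_zero
    have h3 : (ab.2.factorial : ℂ) ≠ 0 := by exact_mod_cast ab.2.factorial_ne_zero
    rw [e, Nat.factorial_succ]; push_cast; field_simp; ring
  · refine Finset.sum_congr rfl fun ab _ => ?_
    have e : m + ab.1 - ((ab.2 + 1 : ℕ) : ℤ) = m - 1 + ab.1 - ab.2 := by push_cast; ring
    have h0 : ((ab.2 : ℂ) + 1) ≠ 0 := by exact_mod_cast Nat.succ_ne_zero ab.2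
    have h2 : (ab.1.factorial : ℂ) ≠ 0 := by exact_mod_cast ab.1.factorial_ne_zero
    have h3 : (ab.2.factorial : ℂ) ≠ 0 := by exact_mod_cast ab.2.factorial_ne_zero
    rw [e, Nat.factorial_succ]; push_cast; field_simp; ring

theorem tay_main {O : Set ℂ} {u : ℤ → ℂ → ℂ} {p h : ℂ} {K : ℝ} (hL : Lad O u)
    (hO : segment ℝ p (p + h) ⊆ O) (n : ℕ) : ∀ m : ℤ,
    (∀ y ∈ segment ℝ p (p + h), ∀ j : ℤ, (j - m).natAbs ≤ n → ‖u j y‖ ≤ K) →
    ∀ t ∈ Icc (0 : ℝ) 1, ‖u m (p + t * h) - ∑ k ∈ Finset.range n,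
      (t : ℂ) ^ k * tay_T (h / 2) (-conj h / 2) (fun j => u j p) k m‖ ≤ K * ‖h‖ ^ n := by
  have hseg : ∀ t ∈ Icc (0 : ℝ) 1, p + t * h ∈ segment ℝ p (p + h) := by
    intro t ht
    refine ⟨1 - t, t, by linarith [ht.2], ht.1, by ring, ?_⟩
    simp only [Complex.real_smul]; push_cast; ring
  induction n with
  | zero =>
    intro m hK t ht
    simpa using hK _ (hseg t ht) m (by simp)
  | succ n ih =>
    intro m hK t ht
    set T := tay_T (h / 2) (-conj h / 2) (fun j => u j p) with hT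
    have hK0 : 0 ≤ K := (norm_nonneg _).trans (hK p (left_mem_segment _ _ _) m (by simp))
    have hd : ∀ s ∈ Icc (0 : ℝ) 1, HasDerivWithinAt
        (fun s : ℝ => u m (p + s * h) - ∑ k ∈ Finset.range (n + 1), (s : ℂ) ^ k * T k m)
        (h / 2 * (u (m + 1) (p + s * h) - ∑ k ∈ Finset.range n, (s : ℂ) ^ k * T k (m + 1)) +
          -conj h / 2 * (u (m - 1) (p + s * h) -
            ∑ k ∈ Finset.range n, (s : ℂ) ^ k * T k (m - 1))) (Icc 0 1) s := by
      intro s hs
      obtain ⟨A, hA, hA'⟩ := hL m _ (hO (hseg s hs))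
      have h0 : HasDerivAt (fun s : ℝ => (s : ℂ)) 1 s := Complex.ofRealCLM.hasDerivAt
      have h1 : HasDerivAt (fun s : ℝ => p + s * h) h s := by
        simpa using (h0.mul_const h).const_add p
      have h2 := hA.comp_hasDerivAt s h1
      have h3 : HasDerivAt (fun s : ℝ => ∑ k ∈ Finset.range (n + 1), (s : ℂ) ^ k * T k m)
          (∑ k ∈ Finset.range (n + 1), (k * (s : ℂ) ^ (k - 1) * 1) * T k m) s :=
        HasDerivAt.fun_sum fun k _ => (h0.fun_pow k).mul_const _
      refine (HasDerivAt.congr_deriv (h2.sub h3) ?_).hasDerivWithinAt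
      rw [hA', Finset.sum_range_succ']
      have h4 : ∑ k ∈ Finset.range n, ((k + 1 : ℕ) * (s : ℂ) ^ (k + 1 - 1) * 1) * T (k + 1) m =
          h / 2 * ∑ k ∈ Finset.range n, (s : ℂ) ^ k * T k (m + 1) +
            -conj h / 2 * ∑ k ∈ Finset.range n, (s : ℂ) ^ k * T k (m - 1) := by
        rw [Finset.mul_sum, Finset.mul_sum, ← Finset.sum_add_distrib]
        refine Finset.sum_congr rfl fun k _ => ?_
        have := tay_rec (h / 2) (-conj h / 2) (fun j => u j p) k m
        rw [← hT] at this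
        simp only [Nat.add_sub_cancel]
        push_cast
        linear_combination (s : ℂ) ^ k * this
      rw [h4]
      simp only [Nat.cast_zero, zero_mul, add_zero]
      ring
    have hb := norm_image_sub_le_of_norm_deriv_le_segment' hd (C := K * ‖h‖ ^ (n + 1))
      (fun s hs => by
        have i1 := ih (m + 1) (fun y hy j hj => hK y hy j (by omega)) s (Ico_subset_Icc_self hs)
        have i2 := ih (m - 1) (fun y hy j hj => hK y hy j (by omega)) s (Ico_subset_Icc_self hs)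
        refine (norm_add_le _ _).trans ?_
        rw [norm_mul, norm_mul, norm_div, norm_div, norm_neg, Complex.norm_conj]
        have e2 : ‖(2 : ℂ)‖ = 2 := by simp
        rw [e2]
        have := mul_le_mul_of_nonneg_left (add_le_add i1 i2) (show 0 ≤ ‖h‖ / 2 by positivity)
        calc _ ≤ ‖h‖ / 2 * (K * ‖h‖ ^ n + K * ‖h‖ ^ n) := by linarith
          _ = _ := by ring) t ht
    have z : u m (p + ((0 : ℝ) : ℂ) * h) -
        ∑ k ∈ Finset.range (n + 1), ((0 : ℝ) : ℂ) ^ k * T k m = 0 := by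
      rw [Finset.sum_range_succ']
      simp [hT, tay_T]
    simp only [z, sub_zero] at hb
    refine hb.trans ?_
    have : 0 ≤ K * ‖h‖ ^ (n + 1) := by positivity
    nlinarith [ht.2]

theorem t_tay : S_TAY := by
  intro n O u m p h K hL hO hK
  have := tay_main hL hO n m hK 1 ⟨zero_le_one, le_rfl⟩
  simp only [Complex.ofReal_one, one_mul, one_pow] at this
  rw [← Finset.sum_fiberwise_of_maps_to (t := Finset.range n) (g := fun ab : ℕ × ℕ => ab.1 + ab.2)
    (fun ab hab => Finset.mem_range.2 (Finset.mem_filter.1 hab).2)]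
  refine le_of_eq_of_le ?_ this
  congr 2
  refine Finset.sum_congr rfl fun k hk => ?_
  rw [tay_T]
  refine Finset.sum_congr ?_ fun _ _ => rfl
  have := Finset.mem_range.1 hk
  ext ab
  simp only [Finset.mem_filter, Finset.mem_product, Finset.mem_range, Finset.HasAntidiagonal.mem_antidiagonal]
  omega

end

end Pool.Agent.P.MP_6b977f_mp.EB
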